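import Pool.Agent.Lib.MP_07b2d0_nt.KA4

/-! Norms are onto over function fields of curves over an algebraically closed field. -/

namespace Pool.Agent.ZCy

section A5a

variable {k : Type} [Field k] [IsAlgClosed k]

theorem a5a_deg {R σ : Type} [CommRing R] [IsDomain R] {D c e : ℕ}
    {f : MvPolynomial σ (Polynomial R)} (hf : f.IsHomogeneous D)
    (hc : ∀ d ∈ f.support, (f.coeff d).natDegree ≤ c) {A : σ → Polynomial R}
    (hA : ∀ i, (A i).natDegree ≤ e) : (MvPolynomial.eval A f).natDegree ≤ c + D * e := by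
  rw [MvPolynomial.eval_eq]
  refine Polynomial.natDegree_sum_le_of_forall_le _ _ fun d hd => ?_
  refine Polynomial.natDegree_mul_le.trans (add_le_add (hc d hd) ?_)
  refine (Polynomial.natDegree_prod_le _ _).trans ?_
  rw [hf.degree_eq_sum_deg_support hd, Finset.sum_mul]
  exact Finset.sum_le_sum fun i _ =>
    Polynomial.natDegree_pow_le.trans (Nat.mul_le_mul_left _ (hA i))

theorem a5a_coeff {R : Type} [CommRing R] {n : ℕ} (c : Fin n → R) (j : Fin n) :
    (∑ i : Fin n, Polynomial.C (c i) * Polynomial.X ^ (i : ℕ)).coeff j = c j := by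
  rw [Polynomial.finsetSum_coeff, Finset.sum_eq_single j]
  · simp
  · intro b _ hb
    rw [Polynomial.coeff_C_mul_X_pow, if_neg]
    exact fun h => hb (Fin.ext h.symm)
  · simp

theorem a5a_zero {R σ : Type} [CommRing R] {D : ℕ} (hD : 1 ≤ D) {f : MvPolynomial σ R}
    (hf : f.IsHomogeneous D) : MvPolynomial.eval 0 f = 0 := by
  rw [MvPolynomial.eval_zero, MvPolynomial.constantCoeff_eq]
  exact hf.coeff_eq_zero (by rw [map_zero]; omega)

theorem a5a_poly {σ τ : Type} [Fintype σ] [Fintype τ] {D : ℕ} (hD : 1 ≤ D)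
    (f : τ → MvPolynomial σ (Polynomial k)) (hf : ∀ j, (f j).IsHomogeneous D)
    (h : Fintype.card τ * D < Fintype.card σ) :
    ∃ x : σ → Polynomial k, x ≠ 0 ∧ ∀ j, MvPolynomial.eval x (f j) = 0 := by
  classical
  obtain ⟨c, hc⟩ : ∃ c, ∀ j, ∀ d ∈ (f j).support, ((f j).coeff d).natDegree ≤ c :=
    ⟨Finset.univ.sup fun j => (f j).support.sup fun d => ((f j).coeff d).natDegree, fun j d hd =>
      (Finset.le_sup (f := fun d => ((f j).coeff d).natDegree) hd).trans
        (Finset.le_sup (f := fun j => (f j).support.sup fun d => ((f j).coeff d).natDegree)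
          (Finset.mem_univ j))⟩
  obtain ⟨e, he⟩ : ∃ e, e = Fintype.card τ * (c + 1) := ⟨_, rfl⟩
  let ρ : Fin (c + D * e + 1) → k := fun t => Infinite.natEmbedding k t
  have hρ : Function.Injective ρ := fun a b h => Fin.ext ((Infinite.natEmbedding k).injective h)
  let A : (σ × Fin (e + 1) → k) → σ → Polynomial k := fun z i =>
    ∑ v : Fin (e + 1), Polynomial.C (z (i, v)) * Polynomial.X ^ (v : ℕ)
  let p : τ × Fin (c + D * e + 1) → MvPolynomial (σ × Fin (e + 1)) k := fun q =>
    MvPolynomial.eval₂ (MvPolynomial.C.comp (Polynomial.evalRingHom (ρ q.2)))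
      (fun i => ∑ v : Fin (e + 1), MvPolynomial.X (i, v) * MvPolynomial.C (ρ q.2 ^ (v : ℕ))) (f q.1)
  have hev : ∀ z q, MvPolynomial.eval z (p q) = (MvPolynomial.eval (A z) (f q.1)).eval (ρ q.2) := by
    intro z q
    simp only [p]
    generalize f q.1 = g
    induction g using MvPolynomial.induction_on with
    | C a => simp
    | add a b ha hb => simp only [MvPolynomial.eval₂_add, map_add, Polynomial.eval_add, ha, hb]
    | mul_X a i ha =>
      simp only [MvPolynomial.eval₂_mul, map_mul, Polynomial.eval_mul, ha, MvPolynomial.eval₂_X,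
        MvPolynomial.eval_X, map_sum, MvPolynomial.eval_C, A, Polynomial.eval_finsetSum,
        Polynomial.eval_C, Polynomial.eval_pow, Polynomial.eval_X]
  have hcard : Fintype.card (τ × Fin (c + D * e + 1)) < Fintype.card (σ × Fin (e + 1)) := by
    simp only [Fintype.card_fin, Fintype.card_prod]
    have h1 := Nat.mul_le_mul_right (e + 1) (Nat.succ_le_of_lt h)
    nlinarith [Nat.zero_le (Fintype.card τ * D)]
  obtain ⟨z, hz, hp⟩ := Pool.Agent.Lib.MP_07b2d0_nt.Ks.exists_ne_zero_common_zero hcard p fun q => by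
    have h0 : A 0 = 0 := funext fun i => by simp [A]
    rw [hev, h0, a5a_zero hD (hf _), Polynomial.eval_zero]
  refine ⟨A z, fun h0 => hz (funext fun q => ?_), fun j => ?_⟩
  · have h1 := a5a_coeff (fun v => z (q.1, v)) q.2
    rw [show (∑ v : Fin (e + 1), Polynomial.C (z (q.1, v)) * Polynomial.X ^ (v : ℕ)) = 0 from
      congrFun h0 q.1, Polynomial.coeff_zero] at h1
    exact h1.symm
  · refine Polynomial.eq_zero_of_natDegree_lt_card_of_eval_eq_zero _ hρ
      (fun t => (hev z (j, t)).symm.trans (hp _)) ?_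
    rw [Fintype.card_fin]
    refine Nat.lt_succ_of_le (a5a_deg (hf j) (hc j) fun i => ?_)
    exact Polynomial.natDegree_sum_le_of_forall_le _ _ fun v _ =>
      (Polynomial.natDegree_C_mul_X_pow_le _ _).trans (Nat.le_of_lt_succ v.2)

omit [IsAlgClosed k] in
theorem a5a_clear {σ : Type} {D : ℕ} {f : MvPolynomial σ (RatFunc k)} (hf : f.IsHomogeneous D) :
    ∃ (g : MvPolynomial σ (Polynomial k)) (b : RatFunc k), b ≠ 0 ∧ g.IsHomogeneous D ∧
      g.map (algebraMap (Polynomial k) (RatFunc k)) = MvPolynomial.C b * f := by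
  let := MvPolynomial.algebraMvPolynomial (R := Polynomial k) (S := RatFunc k) (σ := σ)
  obtain ⟨⟨g, _, b, hb, rfl⟩, e⟩ := IsLocalization.surj
    ((nonZeroDivisors (Polynomial k)).map (MvPolynomial.C (σ := σ))) f
  have e' : g.map (algebraMap (Polynomial k) (RatFunc k)) =
      MvPolynomial.C (algebraMap (Polynomial k) (RatFunc k) b) * f := by
    rw [mul_comm, ← MvPolynomial.map_C]
    exact e.symm
  have hi := IsFractionRing.injective (Polynomial k) (RatFunc k)
  refine ⟨g, _, (map_ne_zero_iff _ hi).2 (nonZeroDivisors.ne_zero hb),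
    MvPolynomial.IsHomogeneous.of_map hi ?_, e'⟩
  rw [e']
  exact hf.C_mul _

theorem a5a_lin {K F ι : Type} [Field K] [Field F] [Algebra K F] (φ : F →ₗ[K] K) {D : ℕ}
    {g : MvPolynomial ι F} (hg : g.IsHomogeneous D) : ∃ g' : MvPolynomial ι K,
      g'.IsHomogeneous D ∧ ∀ x : ι → K,
        MvPolynomial.eval x g' = φ (MvPolynomial.eval (fun i => algebraMap K F (x i)) g) := by
  refine ⟨∑ d ∈ g.support, MvPolynomial.monomial d (φ (g.coeff d)),
    MvPolynomial.IsHomogeneous.sum _ _ _ fun d hd => MvPolynomial.isHomogeneous_monomial _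
      (hg.degree_eq_sum_deg_support hd).symm, fun x => ?_⟩
  rw [MvPolynomial.eval_eq _ g, map_sum, map_sum]
  refine Finset.sum_congr rfl fun d _ => ?_
  simp only [← map_pow, ← map_prod]
  rw [MvPolynomial.eval_monomial, mul_comm (g.coeff d), ← Algebra.smul_def, map_smul, smul_eq_mul,
    mul_comm]
  rfl

/-- Forms over the rational function field. -/
theorem a5a_ratFunc {σ τ : Type} [Fintype σ] [Fintype τ] {D : ℕ} (hD : 1 ≤ D)
    (f : τ → MvPolynomial σ (RatFunc k)) (hf : ∀ j, (f j).IsHomogeneous D)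
    (h : Fintype.card τ * D < Fintype.card σ) :
    ∃ x : σ → RatFunc k, x ≠ 0 ∧ ∀ j, MvPolynomial.eval x (f j) = 0 := by
  choose g b hb hg e using fun j => a5a_clear (hf j)
  obtain ⟨x, hx, h0⟩ := a5a_poly hD g hg h
  have hi := IsFractionRing.injective (Polynomial k) (RatFunc k)
  refine ⟨fun i => algebraMap (Polynomial k) (RatFunc k) (x i), fun h1 => hx (funext fun i =>
    (map_eq_zero_iff _ hi).1 (congrFun h1 i)), fun j => ?_⟩
  have h2 := MvPolynomial.map_eval (algebraMap (Polynomial k) (RatFunc k)) x (g j)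
  rw [h0, map_zero, e, map_mul, MvPolynomial.eval_C] at h2
  exact (mul_eq_zero.1 h2.symm).resolve_left (hb j)

/-- Finite extensions of `k(t)`: expand in a basis. -/
theorem a5a_forms {F : Type} [Field F] [Algebra (RatFunc k) F] [FiniteDimensional (RatFunc k) F]
    {σ : Type} [Fintype σ] {D : ℕ} (hD : 1 ≤ D) (f : MvPolynomial σ F) (hf : f.IsHomogeneous D)
    (h : D < Fintype.card σ) : ∃ x : σ → F, x ≠ 0 ∧ MvPolynomial.eval x f = 0 := by
  have b := Module.finBasis (RatFunc k) F
  have hm : 0 < Module.finrank (RatFunc k) F := Module.finrank_pos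
  generalize Module.finrank (RatFunc k) F = m at b hm
  have hg : (MvPolynomial.aeval (fun i => ∑ v : Fin m, MvPolynomial.C (b v) *
      MvPolynomial.X (i, v) : σ → MvPolynomial (σ × Fin m) F) f).IsHomogeneous D := by
    have h1 := hf.aeval (n := 1) (fun i => ∑ v : Fin m, MvPolynomial.C (b v) *
      MvPolynomial.X (i, v) : σ → MvPolynomial (σ × Fin m) F) fun i =>
        MvPolynomial.IsHomogeneous.sum _ _ _ fun v _ => MvPolynomial.isHomogeneous_C_mul_X _ _
    rwa [one_mul] at h1
  choose g' hg' e using fun j => a5a_lin (b.coord j) hg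
  obtain ⟨x, hx, h0⟩ := a5a_ratFunc hD g' hg' (by
    rw [Fintype.card_prod, Fintype.card_fin, mul_comm]
    exact Nat.mul_lt_mul_of_pos_right h hm)
  refine ⟨fun i => ∑ v, x (i, v) • b v, fun h1 => hx (funext fun q => ?_), ?_⟩
  · exact Fintype.linearIndependent_iff.1 b.linearIndependent (fun v => x (q.1, v))
      (congrFun h1 q.1) q.2
  · have h2 := b.forall_coord_eq_zero_iff.1 fun j => (e j x).symm.trans (h0 j)
    rw [← h2, ← MvPolynomial.aeval_eq_eval, ← MvPolynomial.aeval_eq_eval, ← AlgHom.comp_apply,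
      MvPolynomial.comp_aeval]
    simp [Algebra.smul_def, mul_comm]

/-- The form `N(X) - c Y ^ D`, with `N` the determinant of `∑ X i • leftMulMatrix (b i)`. -/
theorem a5a_norm {F F' : Type} [Field F] [Algebra (RatFunc k) F] [FiniteDimensional (RatFunc k) F]
    [Field F'] [Algebra F F'] [FiniteDimensional F F'] (c : F) :
    ∃ w : F', Algebra.norm F w = c := by
  classical
  have hm : 0 < Module.finrank F F' := Module.finrank_pos
  obtain ⟨D, hD⟩ : ∃ D, D = Module.finrank F F' := ⟨_, rfl⟩
  have b : Module.Basis (Fin D) F F' := Module.finBasisOfFinrankEq F F' hD.symm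
  let M : Matrix (Fin D) (Fin D) (MvPolynomial (Option (Fin D)) F) := fun u v =>
    ∑ i, MvPolynomial.C (Algebra.leftMulMatrix b (b i) u v) * MvPolynomial.X (some i)
  have hM : M.det.IsHomogeneous D := by
    rw [Matrix.det_apply']
    refine MvPolynomial.IsHomogeneous.sum _ _ _ fun s _ => ?_
    have h1 := MvPolynomial.IsHomogeneous.prod Finset.univ (fun i => M (s i) i) (fun _ => 1)
      fun i _ => MvPolynomial.IsHomogeneous.sum _ _ _ fun v _ =>
        MvPolynomial.isHomogeneous_C_mul_X _ _
    rw [Finset.sum_const, Finset.card_univ, Fintype.card_fin, smul_eq_mul, mul_one] at h1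
    rw [← map_intCast (MvPolynomial.C : F →+* MvPolynomial (Option (Fin D)) F)]
    exact h1.C_mul _
  obtain ⟨x, hx, h0⟩ := a5a_forms (k := k) (hD ▸ hm) (M.det - MvPolynomial.C c * MvPolynomial.X none ^ D)
    (hM.sub (MvPolynomial.isHomogeneous_C_mul_X_pow _ _ _)) (by simp)
  have h1 : MvPolynomial.eval x M.det = Algebra.norm F (∑ i, x (some i) • b i) := by
    rw [Algebra.norm_eq_matrix_det b, RingHom.map_det]
    refine congrArg Matrix.det (Matrix.ext fun u v => ?_)
    change MvPolynomial.eval x (∑ i, _) = _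
    simp [Matrix.sum_apply, mul_comm]
  rw [map_sub, h1, map_mul, MvPolynomial.eval_C, map_pow, MvPolynomial.eval_X, sub_eq_zero] at h0
  have hy : x none ≠ 0 := fun hy => hx (funext fun o => by
    rw [hy, zero_pow (hD ▸ hm).ne', mul_zero, Algebra.norm_eq_zero_iff] at h0
    cases o with
    | none => exact hy
    | some i =>
      exact Fintype.linearIndependent_iff.1 b.linearIndependent (fun i => x (some i)) h0 i)
  refine ⟨algebraMap F F' (x none)⁻¹ * ∑ i, x (some i) • b i, ?_⟩
  rw [map_mul, h0, Algebra.norm_algebraMap, ← hD, mul_left_comm, ← mul_pow, inv_mul_cancel₀ hy,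
    one_pow, mul_one]

end A5a

open scoped Classical IntermediateField

/-- If `τ` is algebraic over `k`, then `F` is algebraically closed. Otherwise `k⟮τ⟯` is the
rational function field. -/
theorem tsen_norm {k F E : Type} [Field k] [IsAlgClosed k] [Field F] [Algebra k F] [Field E]
    [Algebra F E] [FiniteDimensional F E] [IsGalois F E] (τ : F) [FiniteDimensional k⟮τ⟯ F] (f : F) :
    ∃ x : E, Algebra.norm F x = f := by
  by_cases hτ : IsAlgebraic k τ
  · have : FiniteDimensional k k⟮τ⟯ := IntermediateField.adjoin.finiteDimensional hτ.isIntegral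
    have : FiniteDimensional k F := Module.Finite.trans k⟮τ⟯ F
    have hb : Function.Bijective (algebraMap k F) := IsAlgClosed.algebraMap_bijective_of_isIntegral
    obtain ⟨c, rfl⟩ := hb.2 f
    obtain ⟨y, rfl⟩ := IsAlgClosed.exists_pow_nat_eq c (Module.finrank_pos (R := F) (M := E))
    exact ⟨algebraMap F E (algebraMap k F y), by rw [Algebra.norm_algebraMap, map_pow]⟩
  · let e := RatFunc.algEquivOfTranscendental τ hτ
    let : Algebra (RatFunc k) F :=
      ((algebraMap k⟮τ⟯ F).comp (e : RatFunc k →+* k⟮τ⟯)).toAlgebra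
    have : FiniteDimensional (RatFunc k) F :=
      Module.Finite.of_equiv_equiv e.symm.toRingEquiv (RingEquiv.refl F) (by
        ext x
        change algebraMap k⟮τ⟯ F (e (e.symm x)) = algebraMap k⟮τ⟯ F x
        rw [e.apply_symm_apply])
    exact a5a_norm (k := k) f

end Pool.Agent.ZCy
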