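import Pool.Agent.Lib.MP_751085_ag.ZC.G1

/-! Inflation and restriction. -/

namespace Pool.Agent.ZCy

open scoped Classical
open groupCohomology

variable {G A : Type} [Group G] [CommGroup A] [MulDistribMulAction G A] {D N : Subgroup G}
  {c : G × G → A}

variable (A) in
/-- `H¹(N, A) = 0` -/
def H1z (N : Subgroup G) : Prop :=
  ∀ x : G → A, (∀ g ∈ N, ∀ h ∈ N, x (g * h) = g • x h * x g) → ∃ a : A, ∀ g ∈ N, x g = g • a / a

/-- Use the cocycle identity for `(g, i, h)`, `(g, h, i')`, `(i, g, h)` and `i g = g (g⁻¹ i g)`. -/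
theorem infl_of_one (hN : N ≤ D) (hn : ∀ g ∈ D, ∀ i ∈ N, g * i * g⁻¹ ∈ N) (hc : CocOn D c)
    (h1 : ∀ g ∈ D, ∀ i ∈ N, c (g, i) = 1) (h2 : ∀ g ∈ D, ∀ i ∈ N, c (i, g) = 1) : Infl D N c := by
  have cj : ∀ g ∈ D, ∀ i ∈ N, g⁻¹ * i * g ∈ N := fun g hg i hi => by
    simpa only [inv_inv] using hn _ (inv_mem hg) i hi
  have a : ∀ g ∈ D, ∀ h ∈ D, ∀ i ∈ N, c (g, h * i) = c (g, h) := fun g hg h hh i hi => by
    have := hc g hg h hh i (hN hi)
    rw [h1 _ (mul_mem hg hh) i hi, h1 h hh i hi, smul_one, one_mul, one_mul] at this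
    exact this.symm
  have b : ∀ g ∈ D, ∀ h ∈ D, ∀ i ∈ N, c (g * i, h) = c (g, h) := fun g hg h hh i hi => by
    have := hc g hg i (hN hi) h hh
    rw [h1 g hg i hi, h2 h hh i hi, smul_one, one_mul, mul_one,
      show i * h = h * (h⁻¹ * i * h) by group, a g hg h hh _ (cj h hh i hi)] at this
    exact this
  refine ⟨fun g hg h hh i hi i' hi' => ?_, fun g hg h hh i hi => ?_⟩
  · rw [a _ (mul_mem hg (hN hi)) h hh i' hi', b g hg h hh i hi]
  · have := hc i (hN hi) g hg h hh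
    rw [h2 g hg i hi, h2 _ (mul_mem hg hh) i hi, mul_one, mul_one,
      show i * g = g * (g⁻¹ * i * g) by group, b g hg h hh _ (cj g hg i hi)] at this
    exact this.symm

theorem g2_res (hN : N ≤ D) (hn : ∀ g ∈ D, ∀ i ∈ N, g * i * g⁻¹ ∈ N) (h1 : H1z A N)
    (hc : CocOn D c) (h : ∀ i ∈ N, ∀ j ∈ N, c (i, j) = 1) : ∃ e, Infl D N (c * dd e) := by
  have cj : ∀ g ∈ D, ∀ i ∈ N, g⁻¹ * i * g ∈ N := fun g hg i hi => by
    simpa only [inv_inv] using hn _ (inv_mem hg) i hi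
  have ex : ∀ g, ∃ a : A, (g ∈ N → a = 1) ∧ (g ∈ D → ∀ i ∈ N, conjE c g i = i • a / a) := fun g => by
    by_cases hg : g ∈ N
    · exact ⟨1, fun _ => rfl, fun hg' i hi => by
        rw [conjE, h g hg _ (cj g hg' i hi), h i hi g hg, smul_one]⟩
    by_cases hg' : g ∈ D
    · obtain ⟨a, ha⟩ := h1 (conjE c g) fun i hi j hj => by
        have := hc.conj hg' (hN hi) (hN hj)
        rw [h _ (cj g hg' i hi) _ (cj g hg' j hj), h i hi j hj, smul_one, one_mul, dd_apply,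
          div_mul_eq_mul_div, eq_comm, div_eq_one] at this
        exact this.symm
      exact ⟨a, fun h => absurd h hg, fun _ => ha⟩
    · exact ⟨1, fun _ => rfl, fun h => absurd h hg'⟩
  choose a a1 a2 using ex
  obtain ⟨t, t1, t2⟩ : ∃ t : G → G, (∀ g, (t g)⁻¹ * g ∈ N) ∧ ∀ g, ∀ i ∈ N, t (g * i) = t g :=
    ⟨fun g => (g : G ⧸ N).out, fun g => QuotientGroup.eq.1 (Quotient.out_eq _),
      fun g i hi => congrArg Quotient.out (QuotientGroup.mk_mul_of_mem g hi)⟩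
  have t3 : ∀ {H : Subgroup G}, N ≤ H → ∀ g ∈ H, t g ∈ H := fun hH g hg => by
    simpa using mul_mem hg (inv_mem (hH (t1 g)))
  obtain ⟨e, he⟩ : ∃ e : G → A, ∀ g, e g = a (t g) * c (t g, (t g)⁻¹ * g) := ⟨_, fun _ => rfl⟩
  have e1 : ∀ i ∈ N, e i = 1 := fun i hi => by
    rw [he, a1 _ (t3 le_rfl i hi), h _ (t3 le_rfl i hi) _ (t1 i), one_mul]
  refine ⟨e, infl_of_one hN hn (hc.mul (.of_coc (dd_coc e) D)) (fun g hg i hi => ?_)
    fun g hg i hi => ?_⟩
  · have k := hc _ (t3 hN g hg) _ (hN (t1 g)) i (hN hi)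
    rw [h _ (t1 g) i hi, smul_one, one_mul, mul_inv_cancel_left, mul_assoc] at k
    rw [Pi.mul_apply, dd_apply, e1 i hi, smul_one, he, he, t2 g i hi, ← k]
    apply Additive.ofMul.injective
    simp only [ofMul_mul, ofMul_div, ofMul_one]
    abel
  · have tD := t3 hN g hg
    have k1 := hc i (hN hi) _ tD _ (hN (t1 g))
    have k2 := hc _ tD _ (hN (cj _ tD i hi)) _ (hN (t1 g))
    have k3 := a2 _ tD i hi
    have k4 : t (i * g) = t g := by
      rw [show i * g = g * (g⁻¹ * i * g) by group, t2 g _ (cj g hg i hi)]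
    rw [mul_inv_cancel_left, ← div_eq_iff_eq_mul] at k1
    rw [h _ (cj _ tD i hi) _ (t1 g), smul_one, one_mul,
      show t g * ((t g)⁻¹ * i * t g) = i * t g by group,
      show (t g)⁻¹ * i * t g * ((t g)⁻¹ * g) = (t g)⁻¹ * (i * g) by group] at k2
    rw [conjE, eq_comm, div_eq_iff_eq_mul] at k3
    rw [Pi.mul_apply, dd_apply, e1 i hi, he, he, k4, smul_mul', ← k1, ← k2, k3]
    apply Additive.ofMul.injective
    simp only [ofMul_mul, ofMul_div, ofMul_one]
    abel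

/-- Divide by `dd e₀`, so `c = 1` on `N × N`. For `g ∈ D` the map
`i ↦ c (i, g) / c (g, g⁻¹ i g)` is a 1-cocycle on `N`, equal to `i • a g / a g`. With `t g` the
representative of the coset `g N` (`Quotient.out`, it lies in `D`) put
`e g = (a (t g))⁻¹ * c (t g, (t g)⁻¹ g)` and apply `infl_of_one` to `c * dd e`. -/
theorem inf_res (hN : N ≤ D) (hn : ∀ g ∈ D, ∀ i ∈ N, g * i * g⁻¹ ∈ N) (h1 : H1z A N)
    (hc : CocOn D c) (h : CobOn N c) : ∃ e, Infl D N (c * dd e) := by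
  obtain ⟨e₀, he⟩ := h
  obtain ⟨e, h⟩ := g2_res hN hn h1 (hc.div (.of_coc (dd_coc e₀) D)) fun i hi j hj => by
    rw [Pi.div_apply, he i hi j hj, div_self']
  refine ⟨e / e₀, ?_⟩
  rwa [dd_div, ← mul_div_assoc, mul_div_right_comm]

/-- `u = e 1 = c (1, 1)` is fixed by `N`, `e / u` is a 1-cocycle on `N`, equal to `i • a / a`; put
`e' g = e g / (g • a / a)` and compare `c (g, i) = c (g, 1)`, `c (i, g) = c (1, g)`. -/
theorem inf_inj (hN : N ≤ D) (hn : ∀ g ∈ D, ∀ i ∈ N, g * i * g⁻¹ ∈ N) (h1 : H1z A N)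
    (hc : Infl D N c) (h : CobOn D c) : ∃ e, (∀ g ∈ D, ∀ g' ∈ D, c (g, g') = dd e (g, g')) ∧
      (∀ g ∈ D, ∀ i ∈ N, e (g * i) = e g) ∧ ∀ g ∈ D, ∀ i ∈ N, i • e g = e g := by
  obtain ⟨e, he⟩ := h
  have d1 := one_mem D
  have n1 := one_mem N
  have u1 : c (1, 1) = e 1 := by rw [he 1 d1 1 d1, dd_apply, one_smul, one_mul, div_self', one_mul]
  have fx : ∀ i ∈ N, i • e 1 = e 1 := fun i hi => u1 ▸ hc.fix 1 d1 1 d1 i hi
  obtain ⟨a, ha⟩ := h1 (fun g => e g / e 1) fun i hi j hj => by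
    have := hc.eq 1 d1 1 d1 i hi j hj
    rw [one_mul, one_mul, u1, he i (hN hi) j (hN hj), dd_apply, div_mul_eq_mul_div,
      div_eq_iff_eq_mul, ← div_eq_iff_eq_mul'] at this
    simp only [smul_div', fx i hi, ← this]
    apply Additive.ofMul.injective
    simp only [ofMul_mul, ofMul_div]
    abel
  obtain ⟨e', he'⟩ : ∃ e' : G → A, ∀ g, e' g = e g / (g • a / a) := ⟨_, fun _ => rfl⟩
  have k1 : ∀ g ∈ D, ∀ g' ∈ D, c (g, g') = dd e' (g, g') := fun g hg g' hg' => by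
    rw [he g hg g' hg']
    simp only [dd_apply, he', smul_div', mul_smul]
    apply Additive.ofMul.injective
    simp only [ofMul_mul, ofMul_div]
    abel
  have k2 : ∀ i ∈ N, e' i = e 1 := fun i hi => by rw [he', ← ha i hi, div_div_cancel]
  have k3 : ∀ g ∈ D, ∀ i ∈ N, e' (g * i) = e' g := fun g hg i hi => by
    have := hc.eq g hg 1 d1 1 n1 i hi
    rw [mul_one, one_mul, k1 g hg i (hN hi), k1 g hg 1 d1, dd_apply, dd_apply, k2 i hi, k2 1 n1,
      mul_one] at this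
    exact div_right_injective (mul_right_cancel this)
  refine ⟨e', k1, k3, fun g hg i hi => ?_⟩
  have := hc.eq 1 d1 g hg i hi 1 n1
  rw [mul_one, one_mul, k1 i (hN hi) g hg, k1 1 d1 g hg, dd_apply, dd_apply, k2 i hi, k2 1 n1,
    one_mul, one_smul, show i * g = g * (g⁻¹ * i * g⁻¹⁻¹) by group,
    k3 g hg _ (hn _ (inv_mem hg) i hi)] at this
  exact div_left_injective (mul_right_cancel this)

/-- Hilbert 90 for a finite group that acts faithfully on a field: apply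
`isMulCoboundary₁_of_isMulCocycle₁_of_aut_to_units` to `E` over `FixedPoints.subfield N E`
(`FixedPoints.toAlgAutMulEquiv`). -/
theorem h90 {E : Type} [Field E] [MulSemiringAction G E] [FaithfulSMul G E] (N : Subgroup G)
    [Finite N] : H1z Eˣ N := fun x hx => by
  let φ := FixedPoints.toAlgAutMulEquiv N E
  have key : ∀ (g : N) (u : Eˣ), φ g • u = (g : G) • u := fun g u => Units.ext rfl
  obtain ⟨a, ha⟩ := isMulCoboundary₁_of_isMulCocycle₁_of_aut_to_units
    (K := FixedPoints.subfield N E) (L := E) (fun σ => x (φ.symm σ)) fun σ τ => by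
      obtain ⟨g, rfl⟩ := φ.surjective σ
      obtain ⟨h, rfl⟩ := φ.surjective τ
      simp only [← map_mul, MulEquiv.symm_apply_apply, key]
      exact hx g g.2 h h.2
  refine ⟨a, fun g hg => ?_⟩
  have := ha (φ ⟨g, hg⟩)
  simp only [MulEquiv.symm_apply_apply, key] at this
  exact this.symm

/-- a group of exponent prime to the order of `N`: `a = (∏ h, x h) ^ (-m)` with `m |N| ≡ 1` -/
theorem h1z_of_coprime [Finite N] {n : ℕ} (hA : ∀ a : A, a ^ n = 1) (h : n.Coprime (Nat.card N)) :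
    H1z A N := fun x hx => by
  have := Fintype.ofFinite N
  obtain ⟨u, v, e⟩ := Nat.isCoprime_iff_coprime.2 h
  refine ⟨(∏ j : N, x j) ^ (-v), fun g hg => ?_⟩
  have e1 : ∏ j : N, x (g * j) = ∏ j : N, x j :=
    Fintype.prod_equiv (Equiv.mulLeft (⟨g, hg⟩ : N)) _ _ fun _ => rfl
  rw [Finset.prod_congr rfl fun (j : N) _ => hx g hg j j.2, Finset.prod_mul_distrib,
    Finset.prod_const, Finset.card_univ, ← Finset.smul_prod', ← Nat.card_eq_fintype_card,
    ← eq_div_iff_mul_eq''] at e1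
  rw [smul_zpow', ← div_zpow, zpow_neg, ← inv_zpow, inv_div, ← e1, ← zpow_natCast, ← zpow_mul]
  conv_lhs => rw [← zpow_one (x g), ← e, zpow_add, mul_comm u, zpow_mul, zpow_natCast, hA,
    one_zpow, one_mul, mul_comm v]

end Pool.Agent.ZCy
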