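import Pool.Agent.Lib.MP_751085_ag.ZC.G1

/-! Shapiro's lemma on the level of cochains. -/

namespace Pool.Agent.ZCy

open scoped Classical
open groupCohomology MulAction

variable {G A S : Type} [Group G] [CommGroup A] [MulDistribMulAction G A] [MulAction G S]
  (T : Sec G S)

variable (G S) in
theorem exists_sec : Nonempty (Sec G S) := by
  have h : ∀ s : S, ∃ g : G, g • (Quotient.mk (orbitRel G S) s).out = s := fun s => by
    have : s ∈ orbit G (Quotient.mk (orbitRel G S) s).out :=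
      (orbitRel_apply (G := G)).1 ((orbitRel G S).symm (Quotient.mk_out s))
    exact this
  choose t ht using h
  refine ⟨⟨fun s => (Quotient.mk (orbitRel G S) s).out, t, ht, fun g s => ?_⟩⟩
  have : Quotient.mk (orbitRel G S) (g • s) = Quotient.mk (orbitRel G S) s :=
    Quotient.sound ((orbitRel_apply (G := G)).2 (mem_orbit s g))
  simp only [this]

theorem Sec.rep_rep (s : S) : T.rep (T.rep s) = T.rep s := by
  have := T.rep_smul (T.t s) (T.rep s)
  rw [T.t_smul] at this
  exact this.symm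

theorem Sec.g4_inv (s : S) : (T.t s)⁻¹ • s = T.rep s := by
  rw [inv_smul_eq_iff, T.t_smul]

theorem Sec.g4_t (g : G) (s : S) : T.t s * T.rh g s = g * T.t (g⁻¹ • s) := by
  rw [Sec.rh, mul_inv_cancel_left]

theorem Sec.rh_mem (g : G) (s : S) : T.rh g s ∈ stabilizer G (T.rep s) := by
  rw [mem_stabilizer_iff, Sec.rh, mul_smul, mul_smul, ← T.rep_smul g⁻¹ s, T.t_smul,
    smul_inv_smul, T.rep_smul, T.g4_inv]

theorem Sec.g4_mem (g h : G) (s : S) : T.rh h (g • s) ∈ stabilizer G (T.rep s) := by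
  have := T.rh_mem h (g • s)
  rwa [T.rep_smul] at this

theorem Sec.rh_mul (g h : G) (s : S) : T.rh (g * h) s = T.rh g s * T.rh h (g⁻¹ • s) := by
  simp only [Sec.rh, mul_inv_rev, mul_smul, mul_assoc, mul_inv_cancel_left]

theorem Sec.ind_coc {b : S → G × G → A}
    (hb : ∀ s, CocOn (stabilizer G (T.rep s)) (b (T.rep s))) : IsMulCocycle₂ (T.ind b) := by
  intro g h j
  funext s
  have m3 : T.rh j (h⁻¹ • g⁻¹ • s) ∈ stabilizer G (T.rep s) := by
    rw [← mul_smul]; exact T.g4_mem _ _ _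
  have e := hb s _ (T.rh_mem g s) _ (T.g4_mem g⁻¹ h s) _ m3
  simp only [Ind.mul_apply, Ind.smul_apply, Sec.ind, T.rh_mul, T.rep_smul, mul_inv_rev, mul_smul]
  rw [← mul_smul g, ← T.g4_t, mul_smul, ← smul_mul', ← smul_mul', e]

/-- the component of the induced cocycle at any point `s` -/
theorem Sec.ind_stab (b : S → G × G → A) {s : S} {g h : G} (hg : g ∈ stabilizer G s)
    (hh : h ∈ stabilizer G s) : T.ind b (g, h) s =
      T.t s • b (T.rep s) ((T.t s)⁻¹ * g * T.t s, (T.t s)⁻¹ * h * T.t s) := by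
  have h1 : g⁻¹ • s = s := mem_stabilizer_iff.1 (inv_mem hg)
  have h2 : h⁻¹ • s = s := mem_stabilizer_iff.1 (inv_mem hh)
  simp only [Sec.ind, Sec.rh, h1, h2, mul_assoc]

/-- the homotopy in Shapiro's lemma -/
def Sec.hom (c : G × G → Ind A S) (e : S → G → A) (g : G) : Ind A S := fun s =>
  c (g, T.t (g⁻¹ • s)) s / c (T.t s, T.rh g s) s * T.t s • e (T.rep s) (T.rh g s)

/-- With `t, t', t''` the transporters of `s, g⁻¹ s, h⁻¹ g⁻¹ s` and `ρ = rh g s`,
`ρ' = rh h (g⁻¹ s)` one has `g t' = t ρ`, `h t'' = t' ρ'`; use the cocycle identity at `s` for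
`(g, h, t'')`, `(g, t', ρ')`, `(t, ρ, ρ')`. -/
theorem Sec.dd_hom {c : G × G → Ind A S} (hc : IsMulCocycle₂ c) {e : S → G → A}
    (he : ∀ s, ∀ g ∈ stabilizer G (T.rep s), ∀ h ∈ stabilizer G (T.rep s),
      c (g, h) (T.rep s) = dd (e (T.rep s)) (g, h)) : c = dd (T.hom c e) := by
  funext ⟨g, h⟩ s
  have e1 := congrFun (hc g h (T.t (h⁻¹ • g⁻¹ • s))) s
  have e2 := congrFun (hc g (T.t (g⁻¹ • s)) (T.rh h (g⁻¹ • s))) s
  have e3 := congrFun (hc (T.t s) (T.rh g s) (T.rh h (g⁻¹ • s))) s
  simp only [Ind.mul_apply, Ind.smul_apply] at e1 e2 e3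
  rw [T.g4_t] at e2
  rw [T.g4_inv, he s _ (T.rh_mem g s) _ (T.g4_mem g⁻¹ h s), T.g4_t, dd_apply, smul_mul',
    smul_div', ← mul_smul, T.g4_t, mul_smul] at e3
  simp only [dd_apply, Ind.mul_apply, Ind.div_apply, Ind.smul_apply, Sec.hom, T.rh_mul,
    T.rep_smul, mul_inv_rev, mul_smul, smul_mul', smul_div']
  rw [← eq_div_iff_mul_eq''] at e1
  rw [← eq_div_iff_mul_eq'] at e2 e3
  rw [e3, eq_div_iff_mul_eq', ← eq_div_iff_mul_eq''] at e2
  rw [e1, e2]
  apply Additive.ofMul.injective
  simp only [ofMul_mul, ofMul_div]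
  abel

/-- the homotopy between the components at `s` and at `σ s` -/
theorem ind_conj {c : G × G → Ind A S} (hc : IsMulCocycle₂ c) (σ : G) {s : S} {g h : G}
    (hg : g ∈ stabilizer G s) (hh : h ∈ stabilizer G s) :
    σ • c (σ⁻¹ * g * σ, σ⁻¹ * h * σ) (σ⁻¹ • s) =
      c (g, h) s * dd (fun x => conjE c σ x s) (g, h) := by
  have h1 : g⁻¹ • s = s := mem_stabilizer_iff.1 (inv_mem hg)
  have e := congrFun ((coc_iff.1 hc).conj (σ := σ) (g := g) (g' := h) trivial trivial trivial) s
  simp only [dd_apply, Ind.mul_apply, Ind.div_apply, Ind.smul_apply, h1] at e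
  rw [e, dd_apply]

theorem ind_prod_smul [Fintype S] (g : G) (a : Ind A S) : ∏ s, (g • a) s = g • ∏ s, a s := by
  let f : S → A := a
  exact (Fintype.prod_equiv (MulAction.toPerm g⁻¹) _ (fun s => g • f s) fun _ => rfl).trans
    (Finset.smul_prod' (r := g) (f := f) (s := Finset.univ)).symm

theorem g4_mul [Fintype S] (a b : Ind A S) : ∏ s, (a * b) s = (∏ s, a s) * ∏ s, b s :=
  Finset.prod_mul_distrib (f := fun s => a s) (g := fun s => b s)

theorem g4_div [Fintype S] (a b : Ind A S) : ∏ s, (a / b) s = (∏ s, a s) / ∏ s, b s :=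
  Finset.prod_div_distrib (fun s => a s) fun s => b s

theorem ind_prod_coc [Fintype S] {c : G × G → Ind A S} (hc : IsMulCocycle₂ c) :
    IsMulCocycle₂ fun p => ∏ s, c p s := by
  intro g h j
  have e := congrArg (fun a : Ind A S => ∏ s, a s) (hc g h j)
  simp only [g4_mul, ind_prod_smul] at e
  exact e

theorem ind_prod_dd [Fintype S] (e : G → Ind A S) :
    (fun p => ∏ s, dd e p s) = dd fun g => ∏ s, e g s := by
  funext ⟨g, h⟩
  exact (g4_mul _ _).trans (congrArg (· * _) ((g4_div _ _).trans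
    (congrArg (· / _) (ind_prod_smul _ _))))

/-- Transfer: let the group `D` act on `D ⧸ H.subgroupOf D`, take the section with `rep s = 1`,
`t = Quotient.out`, and the cocycle of constant maps `fun _ => c p`. -/
theorem CobOn.transfer {H D : Subgroup G} (hH : H ≤ D) [Finite D] {c : G × G → A} (hc : CocOn D c)
    (h : CobOn H c) : CobOn D (c ^ H.relIndex D) := by
  obtain ⟨e, he⟩ := h
  have := Fintype.ofFinite (D ⧸ H.subgroupOf D)
  let T : Sec D (D ⧸ H.subgroupOf D) :=
    ⟨fun _ => ((1 : D) : D ⧸ H.subgroupOf D), Quotient.out, fun s => by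
      rw [MulAction.Quotient.smul_coe, smul_eq_mul, mul_one, QuotientGroup.out_eq'],
      fun _ _ => rfl⟩
  let c' : D × D → Ind A (D ⧸ H.subgroupOf D) := fun p _ => c (p.1, p.2)
  have hc' : IsMulCocycle₂ c' := fun g g' j => funext fun _ => hc g g.2 g' g'.2 j j.2
  have key := T.dd_hom hc' (e := fun _ g => e g) fun s g hg g' hg' => by
    rw [MulAction.stabilizer_quotient] at hg hg'
    exact he g hg g' hg'
  refine ⟨fun g => if hg : g ∈ D then ∏ s, T.hom c' (fun _ g => e g) ⟨g, hg⟩ s else 1,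
    fun g hg g' hg' => ?_⟩
  have e1 := congrFun (ind_prod_dd (T.hom c' fun _ g => e g)) (⟨g, hg⟩, ⟨g', hg'⟩)
  rw [← key] at e1
  rw [dd_apply, dif_pos hg, dif_pos hg', dif_pos (mul_mem hg hg')]
  refine Eq.trans ?_ e1
  change c (g, g') ^ _ = ∏ _s, c (g, g')
  rw [Finset.prod_const, Finset.card_univ, ← Nat.card_eq_fintype_card]
  rfl

/-- Divisors. Use `A = Multiplicative ℤ` with the trivial action. If `x p` vanishes on the orbit
of `s` for all `p`, take `l = 0` there; then `hom` vanishes at `s`. All other `s` lie in the finite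
set of translates of the supports. -/
theorem sh2z [Finite G] {x : G × G → S →₀ ℤ}
    (hc : ∀ g h j s, x (g * h, j) s + x (g, h) s = x (h, j) (g⁻¹ • s) + x (g, h * j) s)
    (h : ∀ s, ∃ l : G → ℤ, ∀ g ∈ stabilizer G s, ∀ g' ∈ stabilizer G s,
      x (g, g') s = l g + l g' - l (g * g')) :
    ∃ D : G → S →₀ ℤ, ∀ g h s, x (g, h) s = D h (g⁻¹ • s) - D (g * h) s + D g s := by
  obtain ⟨T⟩ := exists_sec G S
  let : MulDistribMulAction G (Multiplicative ℤ) :=
    { smul := fun _ a => a
      one_smul := fun _ => rfl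
      mul_smul := fun _ _ _ => rfl
      smul_mul := fun _ _ _ => rfl
      smul_one := fun _ => rfl }
  have h' : ∀ s, ∃ l : G → ℤ, (∀ g ∈ stabilizer G s, ∀ g' ∈ stabilizer G s,
      x (g, g') s = l g + l g' - l (g * g')) ∧ ((∀ p, x p s = 0) → l = 0) := fun s => by
    by_cases hs : ∀ p, x p s = 0
    · exact ⟨0, fun g _ g' _ => by simp [hs], fun _ => rfl⟩
    · exact (h s).imp fun l hl => ⟨hl, fun h0 => absurd h0 hs⟩
  choose l hl hl0 using h'
  let c : G × G → Ind (Multiplicative ℤ) S := fun p s => Multiplicative.ofAdd (x p s)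
  have hc' : IsMulCocycle₂ c := fun g g' j => funext fun s =>
    congrArg Multiplicative.ofAdd (hc g g' j s)
  let e : S → G → Multiplicative ℤ := fun s g => Multiplicative.ofAdd (l s g)
  have key := T.dd_hom hc' (e := e) fun s g hg g' hg' => by
    have e1 : x (g, g') (T.rep s) = l (T.rep s) g' - l (T.rep s) (g * g') + l (T.rep s) g := by
      rw [hl _ g hg g' hg']; ring
    exact congrArg Multiplicative.ofAdd e1
  have fin : ∀ g, (Function.support fun s => (T.hom c e g s).toAdd).Finite := fun g => by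
    refine (Set.finite_iUnion fun q : (G × G) × G =>
      (x q.1).support.finite_toSet.image fun s => q.2 • s).subset fun s hs => ?_
    by_contra hn
    have z : ∀ p (k : G), x p (k⁻¹ • s) = 0 := fun p k => by
      by_contra h0
      exact hn (Set.mem_iUnion.2 ⟨(p, k), k⁻¹ • s, Finsupp.mem_support_iff.2 h0,
        smul_inv_smul k s⟩)
    have z1 : ∀ p, x p s = 0 := fun p => by simpa using z p 1
    have z2 : l (T.rep s) = 0 := hl0 _ fun p => by rw [← T.g4_inv]; exact z p _
    apply hs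
    change x _ s - x _ s + l (T.rep s) _ = 0
    rw [z1, z1, z2]
    rfl
  refine ⟨fun g => Finsupp.ofSupportFinite _ (fin g), fun g g' s => ?_⟩
  exact congrArg Multiplicative.toAdd (congrFun (congrFun key (g, g')) s)

end Pool.Agent.ZCy
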