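import Mathlib

/-! Discrete valuations, decomposition and inertia groups, branch loci. -/

namespace Pool.Agent.ZCy

open scoped Classical WithZero

/-- discrete valuations, not necessarily normalised, possibly trivial -/
abbrev Vl (K : Type) [Field K] : Type := Valuation K ℤᵐ⁰

section

variable {K K' E : Type} [Field K] [Field K'] [Field E]

/-- the additive valuation, `0` at `0` -/
noncomputable def ord (v : Vl K) (x : K) : ℤ := -WithZero.log (v x)

/-- normalised: there is a uniformiser of order `1` -/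
def Nrm (v : Vl K) : Prop := ∃ π : K, v π = WithZero.exp (-1)

/-- `v'` restricts along `φ` to `e` times `v`; `e = 0` says that `v'` is trivial on `K` -/
def Idx (φ : K →+* K') (v : Vl K) (v' : Vl K') (e : ℕ) : Prop :=
  ∀ x, x ≠ 0 → v' (φ x) = v x ^ e

/-- `v'` restricts along `φ` to a valuation equivalent to `v` -/
def Over (φ : K →+* K') (v : Vl K) (v' : Vl K') : Prop := ∀ x, v' (φ x) ≤ 1 ↔ v x ≤ 1

/-- `w` is trivial on the image of the field `K` -/
def Triv (φ : K →+* K') (w : Vl K') : Prop := ∀ x, x ≠ 0 → w (φ x) = 1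

variable (K) [Algebra K E]

/-- the decomposition group -/
def Dec (w : Vl E) : Subgroup (E ≃ₐ[K] E) where
  carrier := {g | ∀ x, w (g x) = w x}
  one_mem' := fun _ => rfl
  mul_mem' := fun {a b} ha hb x => (ha (b x)).trans (hb x)
  inv_mem' := fun {a} ha x => by
    have := ha (a⁻¹ x)
    rw [← AlgEquiv.mul_apply, mul_inv_cancel, AlgEquiv.one_apply] at this
    exact this.symm

/-- the inertia group -/
def Ine (w : Vl E) : Subgroup (E ≃ₐ[K] E) where
  carrier := {g | g ∈ Dec K w ∧ ∀ x, w x ≤ 1 → w (g x - x) < 1}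
  one_mem' := ⟨one_mem _, fun x _ => by simp⟩
  mul_mem' := fun {a b} ha hb => ⟨mul_mem ha.1 hb.1, fun x hx => by
    have : (a * b) x - x = (a (b x) - b x) + (b x - x) := by simp
    rw [this]
    exact w.map_add_lt (ha.2 _ ((hb.1 x).trans_le hx)) (hb.2 x hx)⟩
  inv_mem' := fun {a} ha => ⟨inv_mem ha.1, fun x hx => by
    have h := ha.2 (a⁻¹ x) ((inv_mem ha.1 x).trans_le hx)
    rw [← AlgEquiv.mul_apply, mul_inv_cancel, AlgEquiv.one_apply] at h
    rwa [Valuation.map_sub_swap]⟩

/-- the order of the inertia group is invertible in the residue field -/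
def Tame (w : Vl E) : Prop := w (Nat.card (Ine K w) : E) = 1

variable (E) {K}

/-- `E / K` is unramified at `v` -/
def Unr (v : Vl K) : Prop := ∀ w : Vl E, Over (algebraMap K E) v w → Ine K w = ⊥

/-- `E` embeds into `𝕃` over `φ` -/
def Emb {𝕃 : Type} [Field 𝕃] (φ : K →+* 𝕃) : Prop :=
  ∃ j : E →+* 𝕃, ∀ a, j (algebraMap K E a) = φ a

variable {E} {A : Type} [CommRing A]

/-- `w` is centred at the principal ideal `(P)` of `A` -/
def Cen (φ : A →+* E) (w : Vl E) (P : A) : Prop :=
  (∀ a, w (φ a) ≤ 1) ∧ ∀ a, w (φ a) < 1 ↔ P ∣ a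

variable (K)

/-- `E / K` is unramified at the primes of `A` that do not divide `Θ` -/
def UnrOff (φ : A →+* E) (Θ : A) : Prop :=
  ∀ (P : A) (w : Vl E), Prime P → ¬P ∣ Θ → Cen φ w P → Ine K w = ⊥

/-- the prime `P` does not decompose: the decomposition group is everything -/
def Inert (φ : A →+* E) (P : A) : Prop := ∀ w : Vl E, Cen φ w P → Dec K w = ⊤

end

/-- the fraction field -/
abbrev Fr (A : Type) [CommRing A] : Type := FractionRing A

/-- the map of a ring to an extension of its fraction field -/
noncomputable abbrev toE (A E : Type) [CommRing A] [IsDomain A] [Field E] [Algebra (Fr A) E] :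
    A →+* E := (algebraMap (Fr A) E).comp (algebraMap A (Fr A))

/-- the map of fraction fields induced by an injective map of domains (junk otherwise) -/
noncomputable def frMap {A 𝕃 : Type} [CommRing A] [IsDomain A] [Field 𝕃] (φ : A →+* 𝕃)
    (h : Function.Injective φ) : Fr A →+* 𝕃 := IsFractionRing.lift h

/-- complete discrete valuation rings -/
class CDVR (R : Type) [CommRing R] [IsDomain R] : Prop extends IsDiscreteValuationRing R,
  IsAdicComplete (IsLocalRing.maximalIdeal R) R

/-- `w` is the normalised valuation of the valuation ring `φ : R → K` -/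
def IsVR {R K : Type} [CommRing R] [Field K] (φ : R →+* K) (w : Vl K) : Prop :=
  Nrm w ∧ Function.Injective φ ∧ ∀ x, w x ≤ 1 ↔ x ∈ φ.range

/-- `ρ` is a residue map of `v` into the field `Ω` -/
def IsRed {K Ω : Type} [Field K] [Field Ω] (v : Vl K) (ρ : v.integer →+* Ω) : Prop :=
  ∀ x, ρ x = 0 ↔ v x < 1

end Pool.Agent.ZCy
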