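import Pool.Agent.Lib.MP_751085_ag.ZC.ADefs
import Pool.Agent.Lib.MP_751085_ag.ZC.VDefs

/-! Residues and specialisations of Brauer classes. -/

namespace Pool.Agent.ZCy

open scoped Classical WithZero
open groupCohomology

variable {K K' Ω Ω' : Type} [Field K] [Field K'] [Field Ω] [Field Ω']

/-- `ord v' ∘ φ = e * ord v` with a rational factor -/
def Idq (φ : K →+* K') (v : Vl K) (v' : Vl K') (e : ℚ) : Prop :=
  ∀ x, x ≠ 0 → (ord v' (φ x) : ℚ) = e * ord v x

/-- `ρ' ∘ φ = ι ∘ ρ` on integers -/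
def Cmp {v : Vl K} {v' : Vl K'} (φ : K → K') (ρ : v.integer →+* Ω) (ρ' : v'.integer →+* Ω')
    (ι : Ω → Ω') : Prop :=
  ∀ (x : v.integer) (y : v'.integer), (y : K') = φ x → ρ' y = ι (ρ x)

/-- the valuation does not decompose in any finite Galois extension -/
def Hens (v : Vl K) : Prop :=
  ∀ (E : Type) [Field E] [Algebra K E] [FiniteDimensional K E] [IsGalois K E] (w : Vl E),
    Over (algebraMap K E) v w → Dec K w = ⊤

/-- a local field: normalised, henselian, with a residue field of `q` elements -/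
structure LocV (v : Vl K) (ρ : v.integer →+* Ω) (q : ℕ) : Prop where
  nrm : Nrm v
  hens : Hens v
  red : IsRed v ρ
  card : Nat.card ρ.range = q
  pos : 0 < q

/-- Residue data: a cocycle that represents `a` and is inflated from `D / I` on `D`. -/
structure RD (v : Vl K) (a : BR K) : Type 1 where
  E : Type
  [fld : Field E]
  [alg : Algebra K E]
  [fin : FiniteDimensional K E]
  [gal : IsGalois K E]
  w : Vl E
  e : ℚ
  c : (E ≃ₐ[K] E) × (E ≃ₐ[K] E) → Eˣ
  lam : (E ≃ₐ[K] E) → ℚ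
  e_pos : 0 < e
  idq : Idq (algebraMap K E) v w e
  coc : IsMulCocycle₂ c
  cls_eq : cls K c = a
  infl : Infl (Dec K w) (Ine K w) c
  ord_eq : ∀ g ∈ Dec K w, ∀ h ∈ Dec K w,
    (ord w (c (g, h) : E) : ℚ) = e * (lam g + lam h - lam (g * h))

attribute [instance] RD.fld RD.alg RD.fin RD.gal

/-- the cocycle has unit values on the decomposition group -/
def RD.Unit {v : Vl K} {a : BR K} (R : RD v a) : Prop :=
  ∀ g ∈ Dec K R.w, ∀ h ∈ Dec K R.w, R.w (R.c (g, h) : R.E) = 1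

/-- the class has a residue -/
def HasRes (v : Vl K) (a : BR K) : Prop := Nonempty (RD v a)

/-- the residue of the class is zero -/
def Unram (v : Vl K) (a : BR K) : Prop := ∃ R : RD v a, R.Unit

/-- the residue of `a` takes the value `q` at the automorphism `γ` -/
def ResAt (v : Vl K) (ρ : v.integer →+* Ω) (a : BR K) (γ : Ω ≃+* Ω) (q : AddCircle (1 : ℚ)) : Prop :=
  ∃ (R : RD v a) (ρ' : R.w.integer →+* Ω) (d : R.E ≃ₐ[K] R.E), IsRed R.w ρ' ∧
    Cmp (algebraMap K R.E) ρ ρ' id ∧ d ∈ Dec K R.w ∧ Cmp d ρ' ρ' γ ∧ q = (R.lam d : AddCircle (1 : ℚ))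

/-- the residue as a function on the automorphisms of `Ω` that fix the residue field -/
noncomputable def dres (v : Vl K) (ρ : v.integer →+* Ω) (a : BR K) (γ : Ω ≃+* Ω) :
    AddCircle (1 : ℚ) := Classical.epsilon (ResAt v ρ a γ)

/-- `β` is the specialisation of the unramified class `a` along `ρ` -/
def Sp (v : Vl K) (ρ : v.integer →+* Ω) (a : BR K) (β : BR Ω) : Prop :=
  ∃ (R : RD v a) (ρ' : R.w.integer →+* AlgebraicClosure Ω) (r : Gm Ω → R.E ≃ₐ[K] R.E)
    (c : Gm Ω × Gm Ω → (AlgebraicClosure Ω)ˣ), R.Unit ∧ IsRed R.w ρ' ∧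
      Cmp (algebraMap K R.E) ρ ρ' (algebraMap Ω _) ∧ (∀ g, r g ∈ Dec K R.w ∧ Cmp (r g) ρ' ρ' g) ∧
      (∀ p (y : R.w.integer), (y : R.E) = R.c (r p.1, r p.2) → (c p : AlgebraicClosure Ω) = ρ' y) ∧
      β = cl Ω _ c

end Pool.Agent.ZCy
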