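import Pool.Agent.Lib.MP_751085_ag.ZC.PDefs
import Pool.Agent.Lib.MP_751085_ag.ZC.RDefs

/-! The big statements that pass between the blocks. -/

namespace Pool.Agent.ZCy

open scoped Classical Polynomial Topology
open NumberField IsDedekindDomain groupCohomology

instance isAlgClosure_mid {L : Type} [Field L] (M : IntermediateField L (AlgebraicClosure L)) :
    IsAlgClosure M (AlgebraicClosure L) := ⟨inferInstance, inferInstance⟩

/-- the substitution `ξ ↦ y + t` -/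
noncomputable def tay {A B ι : Type} [CommRing A] [CommRing B] (φ : A →+* B) (y : ι → B) :
    MP ι A →+* MvPowerSeries ι B :=
  MvPolynomial.eval₂Hom (MvPowerSeries.C.comp φ) fun i => MvPowerSeries.C (y i) + MvPowerSeries.X i

/-- the coordinates `x_i = ξ_i / τ`, `t = 1 / τ` inside a field that contains `k[ξ]` -/
noncomputable def flpHom {k ι E : Type} [CommRing k] [Field E] (φ : MP (Option ι) k →+* E) :
    MP (Option ι) k →+* E :=
  MvPolynomial.eval₂Hom (φ.comp MvPolynomial.C) fun i => i.elim (φ (MvPolynomial.X none))⁻¹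
    fun j => φ (MvPolynomial.X (some j)) / φ (MvPolynomial.X none)

/-! ### Block V -/

/-- purity at a point of affine space -/
def ZNP : Prop := ∀ (k : Type) [Field k] [CharZero k] (ι : Type) [Fintype ι] (E : Type) [Field E]
  [Algebra (RF ι k) E] [FiniteDimensional (RF ι k) E] [IsGalois (RF ι k) E] (Θ : MP ι k),
  UnrOff (RF ι k) (toE (MP ι k) E) Θ → ∀ (M : Type) [Field M] [Algebra k M] (a : ι → M),
  MvPolynomial.aeval a Θ ≠ 0 → ∃ (M' : Type) (_ : Field M') (_ : Algebra M M')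
    (_ : FiniteDimensional M M') (_ : IsGalois M M') (J : E →+* Fr (MvPowerSeries ι M')),
    ∀ p, J (toE (MP ι k) E p) = algebraMap (MvPowerSeries ι M') _
      (MvPowerSeries.map (algebraMap M M') (tay (algebraMap k M) a p))

/-- a hyperplane that contains a good line is inert -/
def Z1H : Prop := ∀ (k : Type) [Field k] [CharZero k] (ι : Type) [Fintype ι] (i₀ : ι) (Θ : MP ι k)
  (a b : ι → k), a i₀ = 0 → b i₀ = 0 → b ≠ 0 → GoodLine Θ a b → ∀ (E : Type) [Field E]
  [Algebra (RF ι k) E] [FiniteDimensional (RF ι k) E] [IsGalois (RF ι k) E],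
  UnrOff (RF ι k) (toE (MP ι k) E) Θ → Inert (RF ι k) (toE (MP ι k) E) (MvPolynomial.X i₀)

/-- the tame two-dimensional local structure along a root of `Th`; `φ` need not be the standard
map, the variable `none` is `t` -/
def LE2 : Prop := ∀ (k : Type) [Field k] [CharZero k] (ι : Type) [Fintype ι] (L E : Type) [Field L]
  [Field E] [Algebra L E] [FiniteDimensional L E] [IsGalois L E] (φ : MP (Option ι) k →+* L),
  Function.Injective φ → (∀ z : L, ∃ a b, z = φ a / φ b) → ∀ Th : MP (Option ι) k, (tp Th).Monic →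
  UnrOff L ((algebraMap L E).comp φ) Th → ∀ (κ : Type) [Field κ] [IsAlgClosed κ]
  (ψ : MP ι k →+* PowerSeries κ) (w : MP ι k), Function.Injective ψ → Prime w →
  (∀ p, PowerSeries.constantCoeff (ψ p) = 0 ↔ w ∣ p) → ((tp Th).map ψ).Separable →
  ∀ t : PowerSeries κ, (tp Th).eval₂ ψ t = 0 → ∃ (e : ℕ) (J : E →+* Fr (PowerSeries (PowerSeries κ))),
    0 < e ∧ ∀ p, J (algebraMap L E (φ p)) = algebraMap (PowerSeries (PowerSeries κ)) _
      ((tp p).eval₂ (PowerSeries.C.comp ψ) (PowerSeries.C t + PowerSeries.X ^ e))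

/-! ### Block Z -/

/-- the Zariski-Lefschetz theorem -/
def ThmZ : Prop := ∀ (k : Type) [Field k] [CharZero k] (σ : Type) [Fintype σ] (Λ : LefData k σ)
  (EH : Type) [Field EH] [Algebra (RF (Option σ) k) EH] [FiniteDimensional (RF (Option σ) k) EH]
  [IsGalois (RF (Option σ) k) EH], UnrOff (RF (Option σ) k) (toE (MP (Option σ) k) EH) (hyp Λ.Θ) →
  ∃ (E : Type) (_ : Field E) (_ : Algebra (RF (Option (Option σ)) k) E)
    (_ : FiniteDimensional (RF (Option (Option σ)) k) E) (_ : IsGalois (RF (Option (Option σ)) k) E)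
    (w : Vl E) (Ω : Type) (_ : Field Ω) (ρ : w.integer →+* Ω) (j : EH →+* Ω),
    UnrOff (RF (Option (Option σ)) k) (toE (MP (Option (Option σ)) k) E) Λ.Θ ∧
    Cen (toE (MP (Option (Option σ)) k) E) w (MvPolynomial.X (some none)) ∧ IsRed w ρ ∧
    j.range ≤ ρ.range ∧ ∀ (p : MP (Option (Option σ)) k) (y : w.integer),
      (y : E) = toE _ E p → ρ y = j (toE (MP (Option σ) k) EH (hyp p))

/-! ### Block K -/

/-- the hypothesis at the finite primes -/
def PChart.H1 {K σ : Type} [Field K] (c : PChart K σ) (F : Type) [Field F]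
    [Algebra (RF (Option σ) K) F] (a : BR F) : Prop :=
  ∀ (P : MP (Option σ) K) (v : Vl F), Prime P → ¬P ∣ c.br → Cen (toE _ F) v P → Unram v a

/-- the hypothesis at one point at infinity -/
def PChart.H2 {K σ : Type} [Field K] (F : Type) [Field F] [Algebra (RF (Option σ) K) F] (θ : F)
    (c : PChart K σ) (a : BR F) : Prop :=
  ∃ (M : Type) (_ : Field M) (_ : Algebra K M) (_ : FiniteDimensional K M) (z : M)
    (j : F →+* LaurentSeries (RF σ M)) (b : BR M), Polynomial.aeval z c.top = 0 ∧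
    IntermediateField.adjoin K {z} = ⊤ ∧
    PChart.InfEmb (K := K) θ z j ∧ rs j a = rs ((PChart.cst σ M).comp MvPolynomial.C) b

/-- `a` is the class of a cocycle in roots of unity of order `m` on a Galois extension `E` of the
rational function field that is unramified off `Θ` -/
structure MuRep {K ι : Type} [Field K] (Θ : MP ι K) (F : Type) [Field F] [Algebra (RF ι K) F]
    (a : BR F) : Type 1 where
  E : Type
  [fld : Field E]
  [algL : Algebra (RF ι K) E]
  [algF : Algebra F E]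
  [tow : IsScalarTower (RF ι K) F E]
  [fin : FiniteDimensional (RF ι K) E]
  [gal : IsGalois (RF ι K) E]
  m : ℕ
  c : (E ≃ₐ[F] E) × (E ≃ₐ[F] E) → Eˣ
  pos : 0 < m
  unr : UnrOff (RF ι K) (toE (MP ι K) E) Θ
  coc : IsMulCocycle₂ c
  pow : ∀ p, c p ^ m = 1
  cls_eq : cls F c = a

attribute [instance] MuRep.fld MuRep.algL MuRep.algF MuRep.tow MuRep.fin MuRep.gal

/-- Theorem K -/
def ThmK : Prop := ∀ (K : Type) [Field K] [CharZero K] (σ : Type) [Fintype σ] (c : PChart K σ)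
  (F : Type) [Field F] [Algebra (RF (Option σ) K) F] (θ : F), c.GI → c.FF F θ → c.Φ ≠ 0 →
  ∀ a : BR F, c.H1 F a → c.H2 F θ a → Nonempty (MuRep c.br F a)

/-- hyperplane sections that contain a good line stay irreducible -/
def Z1L : Prop := ∀ (k : Type) [Field k] [CharZero k] (σ : Type) [Fintype σ]
  (c : PChart k (Option σ)) (c' : PChart k σ) (Θ : MP (Option (Option σ)) k)
  (a b : Option (Option σ) → k), c.GI → c.IsHyp c' → (∃ r : ℕ, c.br ∣ Θ ^ r) →
  a (some none) = 0 → b (some none) = 0 → b ≠ 0 → GoodLine Θ a b → c'.GI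

/-! ### Block C -/

section

variable {k : Type} [Field k] (X : Var k)

/-- `F'` is the function field of `X_K` in the chart `c`, and `γ` embeds the function field of `X` -/
structure Var.Fld {K σ : Type} [Field K] [Algebra k K] (c : Chart K σ X.N (X.IK K)) (F' : Type)
    [Field F'] [Algebra (RF (Option σ) K) F'] [Algebra k F'] (θ : F') (γ : X.F →+* F') : Prop where
  ff : c.FF F' θ
  alg : ∀ a : k, algebraMap k F' a = toE (MP (Option σ) K) F' (MvPolynomial.C (algebraMap k K a))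
  dom : X.Dom γ (c.pv ((toE (MP (Option σ) K) F').comp MvPolynomial.C)
    (fun i => toE (MP (Option σ) K) F' (MvPolynomial.X i)) θ)

/-- the Lefschetz certificates for the section `Y` of `X` by `f` -/
def Var.Lef (n : ℕ) (Y : Gen k X.N) (f : Fm X.N k) : Prop :=
  ∃ (σ : Type) (_ : Fintype σ) (c : Chart k (Option σ) X.N (X.IK k)) (Λ : LefData k σ)
    (c' : Chart k σ X.N (Y.var.IK k)), Fintype.card σ + 2 = n ∧ c.f (some (some none)) = f ∧
    (∃ r : ℕ, c.br ∣ Λ.Θ ^ r) ∧ c.IsHyp c'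

/-- every point of the model lies in the good open set of a chart -/
def CHv {O : Type} [CommRing O] (σ : Type) {N : ℕ} (GG : Set (Fm N O)) : Prop :=
  ∀ (Ω : Type) [Field Ω] (φ : O →+* Ω) (x : Fin (N + 1) → Ω), x ≠ 0 → Zer GG φ x →
    ∃ c : Chart O σ N GG, IsUnit (c.δ.factorial : O) ∧ c.U φ x

/-- the reduction of `f` contains a good curve -/
def Hv {O : Type} [CommRing O] [IsLocalRing O] (σ : Type) [Fintype σ] {N : ℕ} (GG : Set (Fm N O))
    (f : Fm N O) : Prop :=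
  ∃ (c : Chart O σ N GG) (Θ : MP (Option σ) O) (a b : Option σ → O)
    (μ : Option (Option σ) → O) (j₀ : Option σ) (e : ℕ),
    IsUnit (c.δ.factorial : O) ∧ (∃ r : ℕ, c.br ∣ Θ ^ r) ∧ GoodLine Θ a b ∧ (∃ i, IsUnit (b i)) ∧
    IsUnit (μ (some j₀)) ∧ μ none + ∑ j, μ (some j) * a j = 0 ∧ ∑ j, μ (some j) * b j = 0 ∧
    ∀ m, MvPolynomial.coeff m (f - c.l0 ^ e * ∑ j, MvPolynomial.C (μ j) * c.f j) ∈
      IsLocalRing.maximalIdeal O

/-- the local certificates at a good place -/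
def Var.GoodAt (n Λ : ℕ) (f : Fm X.N k) (O K : Type) [CommRing O] [IsLocalRing O] [Field K]
    [Algebra k K] [Algebra O K] : Prop :=
  IsUnit (Λ : O) ∧ ∃ (σ : Type) (_ : Fintype σ) (GG : Set (Fm X.N O)) (fO : Fm X.N O) (u : K),
    Fintype.card σ + 1 = n ∧ X.Model (K := K) GG ∧ u ≠ 0 ∧ MvPolynomial.map (algebraMap O K) fO =
      MvPolynomial.C u * MvPolynomial.map (algebraMap k K) f ∧ CHv σ GG ∧ Hv σ GG fO

end

/-- the coefficients of a form -/
def cf {N : ℕ} {K : Type} [CommRing K] (f : Fm N K) : (Fin (N + 1) →₀ ℕ) → K :=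
  fun m => MvPolynomial.coeff m f

/-- charts of a nice variety are geometrically irreducible and describe its function field -/
def CHF : Prop := ∀ (k : Type) [Field k] [CharZero k] (X : Var k) (n : ℕ), X.Nice n →
  ∀ (K : Type) [Field K] [Algebra k K] (σ : Type) [Fintype σ] (c : Chart K σ X.N (X.IK K)),
  Fintype.card σ + 1 = n → c.GI ∧ ∀ (F' : Type) [Field F'] [Algebra (RF (Option σ) K) F']
    [Algebra k F'] (θ : F'), c.FF F' θ → (∀ a : k, algebraMap k F' a =
      toE (MP (Option σ) K) F' (MvPolynomial.C (algebraMap k K a))) → ∃ γ, X.Fld c F' θ γ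

/-- a chart over `k` that is good at finitely many points, with points at infinity off `H = 0` -/
def N1 : Prop := ∀ (k : Type) [Field k] [CharZero k] (X : Var k) (n : ℕ), X.Nice n → 3 ≤ n →
  ∀ (M : Type) [Field M] [Algebra k M] (S : Finset (Fin (X.N + 1) → M)), (∀ x ∈ S, X.On x) →
  ∀ H : Fm X.N k, (∃ m, H.IsHomogeneous m) → H ∉ X.I →
  ∃ (σ : Type) (_ : Fintype σ) (c : Chart k σ X.N (X.IK k)), Fintype.card σ + 1 = n ∧
    (∀ x ∈ S, c.U (algebraMap k M) x) ∧ ∀ (Ω : Type) [Field Ω] [Algebra k Ω]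
      (x : Fin (X.N + 1) → Ω), X.On x → (∀ i, MvPolynomial.aeval x (c.f (skip i)) = 0) →
        MvPolynomial.aeval x H ≠ 0

/-- every hypersurface section carries a cycle of controlled degree -/
def CYC : Prop := ∀ (k : Type) [Field k] [CharZero k] (X : Var k) (n : ℕ), X.Nice n → 3 ≤ n →
  ∃ δ : ℕ, 0 < δ ∧ ∀ (d : ℕ) (f : Fm X.N k), f.IsHomogeneous d → 0 < d →
    ∃ p : X.Cyc k, (∀ x ∈ p.support, MvPolynomial.aeval x.1 f = 0) ∧
      (Var.deg p = d * δ ∨ Var.deg p = δ)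

/-- the choice of the section -/
def CMain : Prop := ∀ (k : Type) [Field k] [NumberField k] (X : Var k) (n : ℕ), X.Nice n → 4 ≤ n →
  ∀ Λ : ℕ, Λ ≠ 0 → ∃ (S : Finset (HeightOneSpectrum (𝓞 k))) (d₀ : ℕ), ∀ d, d₀ ≤ d →
    ∀ (fv : ∀ v : HeightOneSpectrum (𝓞 k), Fm X.N (v.adicCompletion k))
      (Wv : ∀ v : HeightOneSpectrum (𝓞 k), Set ((Fin (X.N + 1) →₀ ℕ) → v.adicCompletion k))
      (fw : ∀ w : InfinitePlace k, Fm X.N w.Completion)
      (Ww : ∀ w : InfinitePlace k, Set ((Fin (X.N + 1) →₀ ℕ) → w.Completion)),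
      (∀ v ∈ S, (fv v).IsHomogeneous d ∧ Wv v ∈ 𝓝 (cf (fv v))) →
      (∀ w, (fw w).IsHomogeneous d ∧ Ww w ∈ 𝓝 (cf (fw w))) →
      ∃ (f : Fm X.N k) (Y : Gen k X.N), f.IsHomogeneous d ∧
        (∀ v ∈ S, cf (MvPolynomial.map (algebraMap k _) f) ∈ Wv v) ∧
        (∀ w, cf (MvPolynomial.map (algebraMap k _) f) ∈ Ww w) ∧
        Y.var.Nice (n - 1) ∧ X.Sec Y f ∧ X.Lef n Y f ∧
        ∀ v ∉ S, X.GoodAt n Λ f (v.adicCompletionIntegers k) (v.adicCompletion k)

/-! ### Blocks U and T -/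

/-- the conclusion at a bad place -/
def U0 (k K : Type) [Field k] [Field K] [Algebra k K] [TopologicalSpace K] : Prop :=
  ∀ (X : Var k) (n : ℕ), X.Nice n → 4 ≤ n → ∀ Λ : ℕ, Λ ≠ 0 → ∀ j : BR K →+ AddCircle (1 : ℚ), Function.Injective j →
  ∀ z : X.Cyc K, Var.deg z = 1 → ∃ d₁ : ℕ, ∀ d, d₁ ≤ d → ∃ (fv : Fm X.N K)
    (W : Set ((Fin (X.N + 1) →₀ ℕ) → K)), fv.IsHomogeneous d ∧ W ∈ 𝓝 (cf fv) ∧
    ∀ (f : Fm X.N k) (Y : Gen k X.N), f.IsHomogeneous d →
      cf (MvPolynomial.map (algebraMap k K) f) ∈ W → Y.var.Nice (n - 1) → X.Sec Y f →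
      ∀ p : Y.var.Cyc K, (∃ r : ℕ, Var.deg p ∣ (Λ : ℤ) ^ r) → X.Loc Y Λ K z p

/-- block U -/
def UMain : Prop := ∀ (k : Type) [Field k] [NumberField k],
  (∀ v : HeightOneSpectrum (𝓞 k), U0 k (v.adicCompletion k)) ∧
    ∀ w : InfinitePlace k, U0 k w.Completion

/-- block T -/
def TMain : Prop := ∀ (k : Type) [Field k] [NumberField k] (v : HeightOneSpectrum (𝓞 k))
  (X : Var k) (n : ℕ), X.Nice n → 4 ≤ n → ∀ Λ : ℕ, Λ ≠ 0 →
  ∀ j : BR (v.adicCompletion k) →+ AddCircle (1 : ℚ), Function.Injective j →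
  ∀ (f : Fm X.N k) (Y : Gen k X.N), (∃ d, f.IsHomogeneous d) → Y.var.Nice (n - 1) → X.Sec Y f →
  X.GoodAt n Λ f (v.adicCompletionIntegers k) (v.adicCompletion k) →
  ∀ z : X.Cyc (v.adicCompletion k), Var.deg z = 1 → ∀ p : Y.var.Cyc (v.adicCompletion k),
  (∃ r : ℕ, Var.deg p ∣ (Λ : ℤ) ^ r) → X.Loc Y Λ (v.adicCompletion k) z p

/-! ### Block W -/

/-- base change of cycles, and the pairing with classes that have constant values -/
def WBC : Prop := ∀ (k : Type) [Field k] [CharZero k] (X : Var k) (n : ℕ), X.Nice n → 3 ≤ n →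
  ∀ (K : Type) [Field K] [Algebra k K],
    (∀ p : X.Cyc k, ∃ p' : X.Cyc K, Var.deg p' = Var.deg p ∧ ∀ a ∈ X.Brauer,
      Var.pair p' a = rs (algebraMap k K) (Var.pair p a)) ∧
    (∀ (z : X.Cyc K) (b : BR k), Var.pair z (rs (algebraMap k X.F) b) =
      Var.deg z • rs (algebraMap k K) b) ∧
    (∀ (z : X.Cyc K), ∀ a ∈ X.Brauer, ∀ b ∈ X.Brauer,
      Var.pair z (a + b) = Var.pair z a + Var.pair z b)

/-! ### Block L -/

/-- a germ in variables indexed by any type -/
def Var.GermT {k : Type} [Field k] (X : Var k) {M τ : Type} [Field M] [Algebra k M]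
    (γ : X.F →+* Fr (MvPowerSeries τ M)) (x : Fin (X.N + 1) → M) : Prop :=
  (∀ a, γ (algebraMap k _ a) = algebraMap (MvPowerSeries τ M) _
    (MvPowerSeries.C (algebraMap k M a))) ∧ x ≠ 0 ∧
  ∃ (c : Fr (MvPowerSeries τ M)) (y : Fin (X.N + 1) → MvPowerSeries τ M),
    ∀ i, algebraMap _ _ (y i) = c * γ (X.g i) ∧ MvPowerSeries.constantCoeff (y i) = x i

/-- the constants -/
noncomputable abbrev cC (τ M : Type) [Field M] : M →+* Fr (MvPowerSeries τ M) :=
  (algebraMap (MvPowerSeries τ M) _).comp MvPowerSeries.C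

/-- The evaluation of the classes of `X.Brauer`. -/
structure EvApi {k : Type} [Field k] (X : Var k) : Prop where
  germ : ∀ (M : Type) [Field M] [Algebra k M] (x : Fin (X.N + 1) → M), X.On x →
    ∃ (r : ℕ) (γ : X.F →+* Fr (MvPowerSeries (Fin r) M)), X.Germ γ x
  spec : ∀ a ∈ X.Brauer, ∀ (M τ : Type) [Field M] [Algebra k M] [Fintype τ]
    (γ : X.F →+* Fr (MvPowerSeries τ M)) (x : Fin (X.N + 1) → M), X.GermT γ x →
      rs γ a = rs (cC τ M) (X.val a M x)
  zero : (0 : BR X.F) ∈ X.Brauer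
  add : ∀ a ∈ X.Brauer, ∀ b ∈ X.Brauer, a + b ∈ X.Brauer
  nsmul : ∀ a ∈ X.Brauer, ∀ m : ℕ, m • a ∈ X.Brauer
  const : ∀ b : BR k, rs (algebraMap k X.F) b ∈ X.Brauer
  val_add : ∀ a ∈ X.Brauer, ∀ b ∈ X.Brauer, ∀ (M : Type) [Field M] [Algebra k M]
    (x : Fin (X.N + 1) → M), X.On x → X.val (a + b) M x = X.val a M x + X.val b M x
  val_nsmul : ∀ a ∈ X.Brauer, ∀ (m : ℕ) (M : Type) [Field M] [Algebra k M]
    (x : Fin (X.N + 1) → M), X.On x → X.val (m • a) M x = m • X.val a M x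
  val_const : ∀ (b : BR k) (M : Type) [Field M] [Algebra k M] (x : Fin (X.N + 1) → M), X.On x →
    X.val (rs (algebraMap k X.F) b) M x = rs (algebraMap k M) b
  val_smul : ∀ a ∈ X.Brauer, ∀ (M : Type) [Field M] [Algebra k M] (x : Fin (X.N + 1) → M) (u : M),
    X.On x → u ≠ 0 → X.val a M (u • x) = X.val a M x
  val_map : ∀ a ∈ X.Brauer, ∀ (M M' : Type) [Field M] [Algebra k M] [Field M'] [Algebra k M']
    (φ : M →ₐ[k] M') (x : Fin (X.N + 1) → M), X.On x →
      X.val a M' (φ ∘ x) = rs (φ : M →+* M') (X.val a M x)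
  val_dom : ∀ a ∈ X.Brauer, ∀ (M : Type) [Field M] [Algebra k M] (γ : X.F →+* M)
    (x : Fin (X.N + 1) → M), X.Dom γ x → X.val a M x = rs γ a
  arc : ∀ a ∈ X.Brauer, ∀ (M : Type) [Field M] [Algebra k M]
    (y : Fin (X.N + 1) → PowerSeries M), (fun i => PowerSeries.constantCoeff (y i)) ≠ 0 →
    (∀ G ∈ X.I, MvPolynomial.aeval y G = 0) →
      X.val a (Fr (PowerSeries M)) (fun i => algebraMap (PowerSeries M) _ (y i)) =
        rs ((algebraMap (PowerSeries M) _).comp PowerSeries.C)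
          (X.val a M fun i => PowerSeries.constantCoeff (y i))
  arcT : ∀ a ∈ X.Brauer, ∀ (M τ : Type) [Field M] [Algebra k M] [Fintype τ]
    (y : Fin (X.N + 1) → MvPowerSeries τ M), (fun i => MvPowerSeries.constantCoeff (y i)) ≠ 0 →
    (∀ G ∈ X.I, MvPolynomial.aeval y G = 0) →
      X.val a (Fr (MvPowerSeries τ M)) (fun i => algebraMap (MvPowerSeries τ M) _ (y i)) =
        rs (cC τ M) (X.val a M fun i => MvPowerSeries.constantCoeff (y i))
  eval : ∀ a ∈ X.Brauer, ∀ (L : Type) [Field L] [Algebra k L] (x : X.Pt (AlgebraicClosure L)),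
    Var.eval a x = res (RingHom.id _) (X.val a (Var.res x)
      fun i => ⟨x.1 i, IntermediateField.subset_adjoin _ _ ⟨i, rfl⟩⟩)

/-- evaluation -/
def EV : Prop := ∀ (k : Type) [Field k] [CharZero k] (X : Var k) (n : ℕ), X.Nice n → 3 ≤ n → EvApi X

/-- classes of `X.Brauer` satisfy the hypotheses of Theorem K on every chart -/
def HK : Prop := ∀ (k : Type) [Field k] [CharZero k] (X : Var k) (K : Type) [Field K] [Algebra k K]
  (σ : Type) [Fintype σ] (c : Chart K σ X.N (X.IK K)) (F' : Type) [Field F']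
  [Algebra (RF (Option σ) K) F'] [Algebra k F'] (θ : F') (γ : X.F →+* F'), c.GI → X.Fld c F' θ γ →
  ∀ a ∈ X.Brauer, c.H1 F' (rs γ a) ∧ c.H2 F' θ (rs γ a)

/-- the Lefschetz property -/
def LEF : Prop := ∀ (k : Type) [Field k] [CharZero k] (X : Var k) (n : ℕ), X.Nice n → 4 ≤ n →
  ∀ (Y : Gen k X.N) (f : Fm X.N k), Y.var.Nice (n - 1) → X.Sec Y f → X.Lef n Y f →
  ∀ a ∈ Y.var.Brauer, ∃ b, X.Match Y a b

end Pool.Agent.ZCy
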