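import Pool.Agent.Lib.MP_751085_ag.ZC.CAl1

/-! Lines, good lines and their certificate. -/

namespace Pool.Agent.ZCy

open scoped Classical Polynomial
open MvPolynomial Set

section ring

variable {R S T : Type} [CommRing R] [CommRing S] [CommRing T] {ι : Type}

@[simp] theorem line_C (φ : R →+* S) (a b : ι → S) (r : R) :
    line φ a b (C r) = Polynomial.C (φ r) := by simp [line]

@[simp] theorem line_X (φ : R →+* S) (a b : ι → S) (i : ι) :
    line φ a b (X i) = Polynomial.C (a i) + Polynomial.C (b i) * Polynomial.X := by simp [line]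

theorem map_line (ψ : S →+* T) (φ : R →+* S) (a b : ι → S) (G : MP ι R) :
    (line φ a b G).map ψ = line (ψ.comp φ) (fun i => ψ (a i)) (fun i => ψ (b i)) G := by
  have : (Polynomial.mapRingHom ψ).comp (line φ a b) =
      line (ψ.comp φ) (fun i => ψ (a i)) fun i => ψ (b i) := by
    ext : 1
    · ext : 1; simp
    · simp
  exact DFunLike.congr_fun this G

theorem line_map (ψ : S →+* T) (φ : R →+* S) (a b : ι → T) (G : MP ι R) :
    line ψ a b (map φ G) = line (ψ.comp φ) a b G := by
  have : (line ψ a b).comp (map φ) = line (ψ.comp φ) a b := by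
    ext : 1
    · ext : 1; simp
    · simp
  exact DFunLike.congr_fun this G

theorem eval_line (φ : R →+* S) (a b : ι → S) (G : MP ι R) (t : S) :
    (line φ a b G).eval t = eval₂ φ (fun i => a i + b i * t) G := by
  have : (Polynomial.evalRingHom t).comp (line φ a b) = eval₂Hom φ fun i => a i + b i * t := by
    ext <;> simp
  exact DFunLike.congr_fun this G

theorem coeff_line_zero (φ : R →+* S) (a b : ι → S) (G : MP ι R) :
    (line φ a b G).coeff 0 = eval₂ φ a G := by
  rw [Polynomial.coeff_zero_eq_eval_zero, eval_line]; simp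

theorem line_monomial_aux (φ : R →+* S) (a b : ι → S) (m : ι →₀ ℕ) (r : R) :
    (line φ a b (monomial m r)).natDegree ≤ m.degree ∧
      (line φ a b (monomial m r)).coeff m.degree = eval₂ φ b (monomial m r) := by
  have h1 : ∀ i, (Polynomial.C (a i) + Polynomial.C (b i) * Polynomial.X).natDegree ≤ 1 := fun i => by
    compute_degree
  have h2 : ∀ i ∈ m.support, ((Polynomial.C (a i) + Polynomial.C (b i) * Polynomial.X) ^ m i).natDegree
      ≤ m i := fun i _ => (Polynomial.natDegree_pow_le_of_le _ (h1 i)).trans (mul_one _).le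
  rw [line, coe_eval₂Hom, eval₂_monomial, eval₂_monomial, RingHom.comp_apply, Finsupp.prod,
    Finsupp.prod, Finsupp.degree_apply]
  refine ⟨(Polynomial.natDegree_C_mul_le _ _).trans ((Polynomial.natDegree_prod_le _ _).trans
    (Finset.sum_le_sum h2)), ?_⟩
  rw [Polynomial.coeff_C_mul]
  congr 1
  induction m.support using Finset.induction_on with
  | empty => simp
  | insert i s hi ih =>
    have h3 : ∀ i, ((Polynomial.C (a i) + Polynomial.C (b i) * Polynomial.X) ^ m i).natDegree
      ≤ m i := fun i => (Polynomial.natDegree_pow_le_of_le _ (h1 i)).trans (mul_one _).le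
    rw [Finset.prod_insert hi, Finset.prod_insert hi, Finset.sum_insert hi,
      Polynomial.coeff_mul_add_eq_of_natDegree_le (h3 i) ((Polynomial.natDegree_prod_le _ _).trans
        (Finset.sum_le_sum fun j _ => h3 j)), ih]
    have h4 := Polynomial.coeff_pow_of_natDegree_le (m := m i) (h1 i)
    rw [mul_one] at h4
    rw [h4]
    simp

theorem natDegree_line_le (φ : R →+* S) (a b : ι → S) (G : MP ι R) :
    (line φ a b G).natDegree ≤ G.totalDegree := by
  conv_lhs => rw [G.as_sum, map_sum]
  exact Polynomial.natDegree_sum_le_of_forall_le _ _ fun m hm =>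
    (line_monomial_aux φ a b m _).1.trans (le_totalDegree hm)

/-- the top coefficient of the restriction to a line depends only on the direction -/
theorem coeff_line_top (φ : R →+* S) (a b : ι → S) {G : MP ι R} {E : ℕ} (h : G.totalDegree ≤ E) :
    (line φ a b G).coeff E = eval₂ φ b (homogeneousComponent E G) := by
  rw [homogeneousComponent_apply, Finset.sum_filter, eval₂_sum]
  conv_lhs => rw [G.as_sum, map_sum, Polynomial.finsetSum_coeff]
  refine Finset.sum_congr rfl fun m hm => ?_
  split_ifs with h1
  · rw [← h1]; exact (line_monomial_aux φ a b m _).2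
  · rw [eval₂_zero]
    exact Polynomial.coeff_eq_zero_of_natDegree_lt ((line_monomial_aux φ a b m _).1.trans_lt
      (lt_of_le_of_ne ((le_totalDegree hm).trans h) h1))

theorem X_mul_derivative_line (φ : R →+* S) (a : ι → R) (b : ι → S) (G : MP ι R) :
    Polynomial.X * Polynomial.derivative (line φ (fun i => φ (a i)) b G) =
      line φ (fun i => φ (a i)) b (mkDerivation R (fun i => (X i - C (a i) : MP ι R)) G) := by
  induction G using MvPolynomial.induction_on with
  | C r => simp [derivation_C]
  | add p q hp hq => simp only [map_add, mul_add, hp, hq]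
  | mul_X p i hp =>
    rw [Derivation.leibniz, mkDerivation_X, smul_eq_mul, smul_eq_mul, RingHom.map_add,
      RingHom.map_mul, RingHom.map_mul, RingHom.map_mul, ← hp, Polynomial.derivative_mul]
    simp
    ring

/-- the certificate of a good line -/
noncomputable def glc (E : ℕ) (φ : R →+* S) (G : MP ι R) (a b : ι → S) : S :=
  eval₂ φ a G * (line φ a b G).coeff E *
    Polynomial.resultant (line φ a b G) (Polynomial.derivative (line φ a b G)) E (E - 1)

theorem map_glc (ψ : S →+* T) (E : ℕ) (φ : R →+* S) (G : MP ι R) (a b : ι → S) :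
    ψ (glc E φ G a b) = glc E (ψ.comp φ) G (fun i => ψ (a i)) fun i => ψ (b i) := by
  rw [glc, glc, map_mul, map_mul, eval₂_comp_left, ← map_line, Polynomial.coeff_map,
    Polynomial.derivative_map, Polynomial.resultant_map_map]
  rfl

theorem totalDegree_map_inj {φ : R →+* S} (h : Function.Injective φ) (G : MP ι R) :
    (map φ G).totalDegree = G.totalDegree := by
  rw [totalDegree, totalDegree, support_map_of_injective _ h]

theorem GoodLine.map {Θ : MP ι R} {a b : ι → R} (h : GoodLine Θ a b) {φ : R →+* S}
    (hφ : Function.Injective φ) : GoodLine (map φ Θ) (fun i => φ (a i)) fun i => φ (b i) := by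
  have e : line (RingHom.id S) (fun i => φ (a i)) (fun i => φ (b i)) (MvPolynomial.map φ Θ) =
      (line (RingHom.id R) a b Θ).map φ := by
    rw [line_map, map_line]; rfl
  refine ⟨?_, ?_, ?_⟩
  · have h1 := h.1.map φ
    rwa [← eval₂_id, eval₂_comp_left, RingHom.comp_id, eval₂_eq_eval_map] at h1
  · rw [e]; exact h.2.1.map
  · rw [e, totalDegree_map_inj hφ, Polynomial.coeff_map]; exact h.2.2.map φ

theorem tp_pderiv {σ : Type} (p : MP (Option σ) R) :
    tp (pderiv none p) = Polynomial.derivative (tp p) := by
  induction p using MvPolynomial.induction_on with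
  | C r => simp
  | add p q hp hq => simp only [map_add, hp, hq]
  | mul_X p i hp =>
    rw [Derivation.leibniz, smul_eq_mul, smul_eq_mul]
    simp only [tp] at hp ⊢
    rw [map_add, map_mul (optionEquivLeft R σ), map_mul (optionEquivLeft R σ),
      map_mul (optionEquivLeft R σ), hp, Polynomial.derivative_mul]
    cases i <;> simp [pderiv_X]
    · ring
    · ring

end ring

variable {K Ω : Type} [Field K] [Field Ω] {ι : Type}

theorem goodLine_iff_glc [CharZero Ω] {φ : K →+* Ω} {G : MP ι K} {a b : ι → Ω} :
    GoodLine (map φ G) a b ↔ glc G.totalDegree φ G a b ≠ 0 := by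
  rw [GoodLine, glc, totalDegree_map_inj φ.injective, line_map, RingHom.id_comp, isUnit_iff_ne_zero,
    isUnit_iff_ne_zero, mul_ne_zero_iff, mul_ne_zero_iff, ← eval₂_eq_eval_map, and_assoc,
    and_congr_right_iff, and_comm, and_congr_right_iff]
  intro _ h
  have h1 : (line φ a b G).natDegree = G.totalDegree :=
    le_antisymm (natDegree_line_le _ _ _ _) (Polynomial.le_natDegree_of_ne_zero h)
  have h2 : line φ a b G ≠ 0 := fun h0 => h (by rw [h0, Polynomial.coeff_zero])
  rw [← h1, ← Polynomial.natDegree_derivative, Ne, Polynomial.resultant_eq_zero_iff,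
    Polynomial.Separable]
  tauto

theorem goodLine_iff [CharZero K] {G : MP ι K} {a b : ι → K} :
    GoodLine G a b ↔ glc G.totalDegree (RingHom.id K) G a b ≠ 0 := by
  rw [← goodLine_iff_glc, map_id]

theorem exists_double_root {P : Polynomial Ω} (h : ¬P.Separable) :
    ∃ t : AlgebraicClosure Ω, Polynomial.aeval t P = 0 ∧
      Polynomial.aeval t (Polynomial.derivative P) = 0 := by
  by_contra h1
  refine h ((Polynomial.isCoprime_iff_aeval_ne_zero_of_isAlgClosed _ (AlgebraicClosure Ω) _ _).2
    fun t => ?_)
  by_contra h2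
  push Not at h2
  exact h1 ⟨t, h2⟩

variable [Fintype ι] [CharZero K]

/-- a generic line through a point off a squarefree hypersurface is good -/
theorem goodLine_generic [Algebra K Ω] {G : MP ι K} (hG : Squarefree G) {a : ι → K}
    (ha : eval a G ≠ 0) {b : ι → Ω} (hb : AlgebraicIndependent K b) :
    GoodLine (map (algebraMap K Ω) G) (fun i => algebraMap K Ω (a i)) b := by
  have e0 : ∀ (L : Type) [Field L] (φ : K →+* L) (p : MP ι K),
      eval₂ φ (fun i => φ (a i)) p = φ (eval a p) := fun L _ φ p => by
    rw [← eval₂_id, eval₂_comp_left, RingHom.comp_id]; rfl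
  rw [GoodLine, totalDegree_map_inj (algebraMap K Ω).injective, line_map, RingHom.id_comp,
    isUnit_iff_ne_zero, isUnit_iff_ne_zero, ← eval₂_eq_eval_map, e0, coeff_line_top _ _ _ le_rfl]
  refine ⟨(map_ne_zero _).2 ha, ?_, fun h => ?_⟩
  · by_contra h
    obtain ⟨t, h1, h2⟩ := exists_double_root h
    let L := AlgebraicClosure Ω
    have : CharZero L := charZero_of_injective_algebraMap (algebraMap K L).injective
    rw [Polynomial.aeval_def, Polynomial.eval₂_eq_eval_map] at h1 h2
    rw [← Polynomial.derivative_map] at h2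
    rw [map_line, ← IsScalarTower.algebraMap_eq] at h1 h2
    simp only [← IsScalarTower.algebraMap_apply] at h1 h2
    have h3 : t ≠ 0 := fun h0 => ha (by
      rwa [h0, ← Polynomial.coeff_zero_eq_eval_zero, coeff_line_zero, e0, map_eq_zero] at h1)
    have h4 := congrArg (Polynomial.eval t)
      (X_mul_derivative_line (algebraMap K L) a (fun i => algebraMap Ω L (b i)) G)
    rw [Polynomial.eval_mul, h2, mul_zero, eval_line] at h4
    rw [eval_line] at h1
    set y : ι → L := fun i => algebraMap K L (a i) + algebraMap Ω L (b i) * t with hy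
    have h5 : (Fintype.card ι : ℕ∞) ≤ rk K (range y) + 1 := by
      refine (rk_range_iff.2 (hb.map' (f := IsScalarTower.toAlgHom K Ω L)
        (algebraMap Ω L).injective)).trans ((rk_le_of_acl ?_).trans (rk_insert_le t _))
      rintro _ ⟨i, rfl⟩
      have e1 : algebraMap Ω L (b i) = (y i - algebraMap K L (a i)) / t := by
        simp only [hy, add_sub_cancel_left, mul_div_cancel_right₀ _ h3]
      change algebraMap Ω L (b i) ∈ acl K _
      rw [e1]
      exact div_mem (sub_mem (mem_acl_of_mem (Or.inr ⟨i, rfl⟩)) (IntermediateField.algebraMap_mem _ _))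
        (mem_acl_of_mem (Or.inl rfl))
    obtain ⟨m, -, h6, h7, h8⟩ := exists_factor_der hG h5 h1
    have h9 := map_dvd (line (algebraMap K L) (fun i => algebraMap K L (a i))
      fun i => algebraMap Ω L (b i)) (h8 _ h4.symm)
    rw [← X_mul_derivative_line] at h9
    set Q := line (algebraMap K L) (fun i => algebraMap K L (a i))
      (fun i => algebraMap Ω L (b i)) m with hQ
    have h10 : Q.coeff 0 ≠ 0 := by
      rw [hQ, coeff_line_zero, e0, map_ne_zero]
      exact fun h0 => ha (eq_zero_of_zero_dvd (h0 ▸ map_dvd (eval a) h6))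
    have h11 : Q ∣ Polynomial.derivative Q :=
      ((Polynomial.irreducible_X.isCoprime_or_dvd Q).resolve_right fun h0 =>
        h10 (Polynomial.X_dvd_iff.1 h0)).symm.dvd_of_dvd_mul_left h9
    have h12 := Polynomial.eq_C_of_derivative_eq_zero (Polynomial.dvd_derivative_iff.1 h11)
    have h13 : Q.eval t = 0 := by rw [hQ, eval_line]; exact h7
    rw [h12, Polynomial.eval_C] at h13
    exact h10 h13
  · have h1 := hb.eq_zero_of_aeval_eq_zero _ h
    obtain ⟨m, hm, h2⟩ := Finset.exists_mem_eq_sup _ (support_nonempty.2 hG.ne_zero)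
      fun s : ι →₀ ℕ => s.sum fun _ e => e
    have h3 := congrArg (coeff m) h1
    rw [coeff_homogeneousComponent, if_pos (show m.degree = G.totalDegree from h2.symm),
      coeff_zero] at h3
    exact mem_support_iff.1 hm h3

/-- the directions of the good lines through a given point -/
theorem sq1 {G : MP ι K} (hG : Squarefree G) {a : ι → K} (ha : eval a G ≠ 0) :
    ∃ Q : MP ι K, Q ≠ 0 ∧ ∀ b, eval b Q ≠ 0 → GoodLine G a b := by
  refine ⟨glc G.totalDegree C G (fun i => C (a i)) X, fun h => ?_, fun b hb => ?_⟩
  · have : CharZero (RF ι K) := charZero_of_injective_algebraMap (algebraMap K _).injective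
    have h1 : AlgebraicIndependent K fun i => algebraMap (MP ι K) (RF ι K) (X i) :=
      (algebraicIndependent_X ι K).map' (f := IsScalarTower.toAlgHom K (MP ι K) (RF ι K))
        (IsFractionRing.injective _ _)
    have h2 := congrArg (algebraMap (MP ι K) (RF ι K)) h
    rw [map_glc, map_zero] at h2
    exact goodLine_iff_glc.1 (goodLine_generic hG ha h1) h2
  · rw [map_glc] at hb
    refine goodLine_iff.2 ?_
    convert hb using 2 <;> ext <;> simp

/-- good lines are generic -/
theorem sq2 {G : MP ι K} (hG : Squarefree G) :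
    ∃ Q : MP (ι ⊕ ι) K, Q ≠ 0 ∧ ∀ a b, eval (Sum.elim a b) Q ≠ 0 ↔ GoodLine G a b := by
  have e : ∀ a b : ι → K, eval (Sum.elim a b) (glc G.totalDegree C G (fun i => X (Sum.inl i))
      fun i => X (Sum.inr i)) = glc G.totalDegree (RingHom.id K) G a b := fun a b => by
    rw [map_glc]
    congr 1 <;> ext <;> simp
  refine ⟨_, fun h => ?_, fun a b => by rw [e, goodLine_iff]⟩
  obtain ⟨a, ha⟩ : ∃ a, eval a G ≠ 0 := by
    by_contra h1
    push Not at h1
    exact hG.ne_zero (MvPolynomial.funext fun x => by rw [h1, map_zero])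
  obtain ⟨Q, h1, h2⟩ := sq1 hG ha
  obtain ⟨b, hb⟩ : ∃ b, eval b Q ≠ 0 := by
    by_contra h3
    push Not at h3
    exact h1 (MvPolynomial.funext fun x => by rw [h3, map_zero])
  exact goodLine_iff.1 (h2 b hb) (by rw [← e, h, map_zero])

/-- a squarefree polynomial that is monic in `τ` is separable over the rational function field -/
theorem separable_tp {Ψ : MP (Option ι) K} (hΨ : Squarefree Ψ) (hm : (tp Ψ).Monic) :
    ((tp Ψ).map (algebraMap (MP ι K) (RF ι K))).Separable := by
  by_contra h
  obtain ⟨t, h1, h2⟩ := exists_double_root h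
  let L := AlgebraicClosure (RF ι K)
  have e1 : eval₂Hom (algebraMap K L) (fun i => toE (MP ι K) L (X i)) = toE (MP ι K) L := by
    ext : 1
    · ext : 1
      rw [RingHom.comp_apply, RingHom.comp_apply, eval₂Hom_C]; rfl
    · rw [eval₂Hom_X']
  have e2 : ∀ p : MP (Option ι) K, aeval (fun o => o.elim t fun i => toE (MP ι K) L (X i)) p =
      Polynomial.aeval t ((tp p).map (algebraMap (MP ι K) (RF ι K))) := fun p => by
    rw [aeval_def, eval₂_tp, ev_def, Polynomial.aeval_def, Polynomial.eval₂_map]
    exact congrArg (fun f => (tp p).eval₂ f t) e1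
  have hi : Function.Injective (toE (MP ι K) L) :=
    (algebraMap (RF ι K) L).injective.comp (IsFractionRing.injective _ _)
  have h3 : AlgebraicIndependent K fun i => toE (MP ι K) L (X i) := by
    rwa [← injective_eval₂Hom, e1]
  obtain ⟨m, h4, h5, -, h6⟩ := exists_factor_der hΨ
    (y := fun o => o.elim t fun i => toE (MP ι K) L (X i)) (by
      rw [Fintype.card_option, Nat.cast_add, Nat.cast_one]
      refine add_le_add_left ((rk_range_iff.2 h3).trans (rk_mono ?_)) 1
      rintro _ ⟨i, rfl⟩
      exact ⟨some i, rfl⟩) ((e2 Ψ).trans h1)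
  have h7 := pderiv_eq_zero_of_dvd (h6 (pderiv none) (by
    rw [e2, tp_pderiv, ← Polynomial.derivative_map]; exact h2))
  have h8 : Polynomial.derivative (tp m) = 0 := by rw [← tp_pderiv, h7]; exact map_zero _
  have h9 := map_dvd (optionEquivLeft K ι) h5
  refine h4.not_isUnit ((MulEquiv.isUnit_map (optionEquivLeft K ι)).1 ?_)
  by_contra h10
  exact (Polynomial.natDegree_pos_iff_degree_pos.2
    (Polynomial.degree_pos_of_not_isUnit_of_dvd_monic hm h10 h9)).ne'
    (Polynomial.derivative_eq_zero.1 h8)

theorem resultant_tp_ne_zero {Ψ : MP (Option ι) K} (hΨ : Squarefree Ψ) (hm : (tp Ψ).Monic) :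
    Polynomial.resultant (tp Ψ) (Polynomial.derivative (tp Ψ)) ≠ 0 := fun h => by
  have h1 := congrArg (algebraMap (MP ι K) (RF ι K)) h
  have hi := IsFractionRing.injective (MP ι K) (RF ι K)
  rw [← Polynomial.resultant_map_map, map_zero, ← Polynomial.natDegree_map_eq_of_injective hi,
    ← Polynomial.natDegree_map_eq_of_injective hi (Polynomial.derivative _),
    Polynomial.resultant_eq_zero_iff, ← Polynomial.derivative_map] at h1
  exact h1.2 (separable_tp hΨ hm)

end Pool.Agent.ZCy
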