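import Pool.Agent.Lib.MP_751085_ag.ZC.CBase
import Pool.Agent.Lib.MP_751085_ag.ZC.CAl2

/-! Affine changes of coordinates that keep the direction of `τ`. -/

namespace Pool.Agent.ZCy

open scoped Classical Polynomial
open MvPolynomial

variable {R S : Type} [CommRing R] [CommRing S] {ι σ : Type} [Fintype ι] [Fintype σ] {N : ℕ}

/-- the substitution `ξ ↦ p + L ξ` -/
noncomputable def aff (p : ι → R) (L : Matrix ι ι R) : MP ι R →ₐ[R] MP ι R :=
  aeval fun i => C (p i) + ∑ j, C (L i j) * X j

theorem eval₂_aff (φ : R →+* S) (p : ι → R) (L : Matrix ι ι R) (y : ι → S) (G : MP ι R) :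
    eval₂ φ y (aff p L G) = eval₂ φ (fun i => φ (p i) + ∑ j, φ (L i j) * y j) G := by
  have : (eval₂Hom φ y).comp (aff p L : MP ι R →+* MP ι R) =
      eval₂Hom φ fun i => φ (p i) + ∑ j, φ (L i j) * y j := by
    ext a <;> simp [aff]
  exact RingHom.congr_fun this G

theorem aff_aff (p p' : ι → R) (L L' : Matrix ι ι R) (G : MP ι R) :
    aff p' L' (aff p L G) = aff (p + L.mulVec p') (L * L') G := by
  have : (aff p' L').comp (aff p L) = aff (p + L.mulVec p') (L * L') := by
    ext1 i
    simp only [aff, AlgHom.comp_apply, aeval_X, map_add, map_sum, map_mul, aeval_C, algebraMap_eq,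
      Pi.add_apply, Matrix.mulVec, dotProduct, Matrix.mul_apply, mul_add, Finset.sum_add_distrib,
      Finset.mul_sum, Finset.sum_mul, add_assoc, mul_assoc]
    rw [Finset.sum_comm]
  exact AlgHom.congr_fun this G

theorem aff_one (G : MP ι R) : aff 0 1 G = G := by
  have : aff (0 : ι → R) (1 : Matrix ι ι R) = AlgHom.id R _ := by
    ext1 i
    simp [aff, Matrix.one_apply, apply_ite C]
  exact AlgHom.congr_fun this G

theorem totalDegree_aff_le (p : ι → R) (L : Matrix ι ι R) (G : MP ι R) :
    (aff p L G).totalDegree ≤ G.totalDegree := by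
  exact totalDegree_eval₂_le (RingHom.id R) (fun i => (totalDegree_add _ _).trans (max_le (by simp)
    (totalDegree_finsetSum_le fun j _ => (isHomogeneous_C_mul_X _ _).totalDegree_le))) G

theorem caff_left (p : ι → R) {L L' : Matrix ι ι R} (h : L * L' = 1) (G : MP ι R) :
    aff (-(L'.mulVec p)) L' (aff p L G) = G := by
  rw [aff_aff, Matrix.mulVec_neg, Matrix.mulVec_mulVec, h, Matrix.one_mulVec, add_neg_cancel,
    aff_one]

theorem totalDegree_aff (p : ι → R) {L L' : Matrix ι ι R} (h : L * L' = 1) (G : MP ι R) :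
    (aff p L G).totalDegree = G.totalDegree := by
  refine le_antisymm (totalDegree_aff_le p L G) ?_
  conv_lhs => rw [← caff_left p h G]
  exact totalDegree_aff_le _ _ _

theorem squarefree_aff (p : ι → R) {L L' : Matrix ι ι R} (h : L * L' = 1) {G : MP ι R}
    (hG : Squarefree G) : Squarefree (aff p L G) := by
  intro x hx
  have h1 := map_dvd (aff (-(L'.mulVec p)) L') hx
  rw [caff_left p h, map_mul] at h1
  have h2 := (hG _ h1).map (aff p L)
  rwa [aff_aff, neg_add_cancel, mul_eq_one_comm.1 h, aff_one] at h2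

theorem line_aff (p : ι → R) (L : Matrix ι ι R) (a b : ι → R) (G : MP ι R) :
    line (RingHom.id R) a b (aff p L G) =
      line (RingHom.id R) (p + L.mulVec a) (L.mulVec b) G := by
  rw [line, line, coe_eval₂Hom, coe_eval₂Hom, eval₂_aff]
  refine congrArg (fun s => eval₂ _ s G) (funext fun i => ?_)
  simp only [RingHom.comp_apply, RingHom.id_apply, Pi.add_apply, Matrix.mulVec, dotProduct, map_add,
    map_sum, map_mul, mul_add, Finset.sum_add_distrib, Finset.sum_mul, add_assoc, mul_assoc]

theorem goodLine_aff (p : ι → R) {L L' : Matrix ι ι R} (h : L * L' = 1) (a b : ι → R)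
    (G : MP ι R) : GoodLine (aff p L G) a b ↔ GoodLine G (p + L.mulVec a) (L.mulVec b) := by
  have e : eval a (aff p L G) = eval (p + L.mulVec a) G := eval₂_aff (RingHom.id R) p L a G
  rw [GoodLine, GoodLine, e, line_aff, totalDegree_aff p h]

/-- the extension of `L` by the identity on the variable `none` -/
def extM (L : Matrix σ σ R) : Matrix (Option σ) (Option σ) R :=
  fun i j => i.elim (j.elim 1 fun _ => 0) fun i => j.elim 0 fun j => L i j

theorem extM_mul (L L' : Matrix σ σ R) : extM L * extM L' = extM (L * L') := by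
  ext i j
  cases i <;> cases j <;> simp [extM, Matrix.mul_apply, Fintype.sum_option]

theorem extM_one : extM (1 : Matrix σ σ R) = 1 := by
  ext i j
  cases i <;> cases j <;> simp [extM, Matrix.one_apply]

theorem extM_mulVec (L : Matrix σ σ R) (y : Option σ → R) :
    (extM L).mulVec y = fun i => i.elim (y none) (L.mulVec fun j => y (some j)) := by
  funext i
  cases i <;> simp [extM, Matrix.mulVec, dotProduct, Fintype.sum_option]

/-- both sides are ring homomorphisms in `G` -/
theorem tp_aff (p : Option σ → R) (L : Matrix σ σ R) (G : MP (Option σ) R) :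
    tp (aff p (extM L) G) = ((tp G).map (aff (fun j => p (some j)) L : MP σ R →+* MP σ R)).comp
      (Polynomial.X + Polynomial.C (C (p none))) := by
  have : ((optionEquivLeft R σ : MP (Option σ) R →+* (MP σ R)[X])).comp
      (aff p (extM L) : MP (Option σ) R →+* MP (Option σ) R) =
      (Polynomial.compRingHom (Polynomial.X + Polynomial.C (C (p none)))).comp
        ((Polynomial.mapRingHom (aff (fun j => p (some j)) L : MP σ R →+* MP σ R)).comp
          (optionEquivLeft R σ : MP (Option σ) R →+* (MP σ R)[X])) := by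
    ext : 1
    · ext : 1; simp [aff]
    · rename_i i
      cases i <;> simp [aff, extM, Fintype.sum_option, add_comm]
  exact DFunLike.congr_fun this G

theorem aff_up (p : Option σ → R) (L : Matrix σ σ R) (G : MP σ R) :
    aff p (extM L) (up G) = up (aff (fun j => p (some j)) L G) := by
  apply (optionEquivLeft R σ).injective
  change tp _ = tp _
  rw [tp_aff, tp_up, tp_up, Polynomial.map_C, Polynomial.C_comp]
  rfl

omit [Fintype σ] in
theorem caff_line (G : MP (Option σ) R) (m : ℕ) : coeff (Finsupp.single none m) G =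
    (line (RingHom.id R) 0 (Pi.single none 1) G).coeff m := by
  have : line (RingHom.id R) 0 (Pi.single none 1) = (Polynomial.mapRingHom constantCoeff).comp
      (optionEquivLeft R σ : MP (Option σ) R →+* (MP σ R)[X]) := by
    ext : 1
    · ext : 1; simp [line]
    · rename_i i
      cases i <;> simp [line]
  rw [this, coeff_single_none]
  exact (Polynomial.coeff_map _ _).symm

theorem caff_top (p : Option σ → R) (L : Matrix σ σ R) {G : MP (Option σ) R} {m : ℕ}
    (h : G.totalDegree ≤ m) :
    coeff (Finsupp.single none m) (aff p (extM L) G) = coeff (Finsupp.single none m) G := by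
  have e : (extM L).mulVec (Pi.single none 1) = Pi.single none 1 := by
    funext i
    cases i <;> simp [extM]
  rw [caff_line, caff_line, line_aff, e, coeff_line_top _ _ _ h, coeff_line_top _ _ _ h]

/-- The transported hypersurface chart. For `sep`: if `q.totalDegree ≤ m` then
`coeff (single none m) q` is the coefficient of degree `m` of `line id a (Pi.single none 1) q` for
any `a` (`coeff_line_top`), so it is not changed by `aff p (extM L)` (`line_aff`). -/
theorem PChart.exists_aff [Nontrivial R] (c : PChart R σ) (p : Option σ → R) (L : Matrix σ σ R) :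
    ∃ c' : PChart R σ, c'.δ = c.δ ∧
      c'.χ = c.χ.map (aff p (extM L) : MP (Option σ) R →+* MP (Option σ) R) ∧
      c'.D = aff p (extM L) c.D ∧ c'.Ψ = aff p (extM L) c.Ψ ∧
      c'.Φ = aff (fun j => p (some j)) L c.Φ := by
  let A : MP (Option σ) R →+* MP (Option σ) R := aff p (extM L)
  let B : MP σ R →+* MP σ R := aff (fun j => p (some j)) L
  refine ⟨⟨c.δ, c.χ.map A, A c.D, A c.Ψ, B c.Φ, c.monic.map _,
    by rw [c.monic.natDegree_map, c.deg], c.pos, fun i => ?_, ?_, ?_, ⟨?_, ?_⟩, ?_, ?_⟩,
    rfl, rfl, rfl, rfl, rfl⟩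
  · rw [Polynomial.coeff_map]
    exact (totalDegree_aff_le _ _ _).trans (c.wt i)
  · obtain ⟨α, β, h⟩ := c.bez
    refine ⟨α.map A, β.map A, ?_⟩
    rw [Polynomial.derivative_map, ← Polynomial.map_mul, ← Polynomial.map_mul,
      ← Polynomial.map_add, ← h, Polynomial.map_C]
  · obtain ⟨r, h⟩ := c.dvd
    exact ⟨r, by rw [← map_pow]; exact map_dvd _ h⟩
  · exact (tp_aff p L c.Ψ).symm ▸ (c.tm.1.map _).comp_X_add_C _
  · refine (totalDegree_aff_le _ _ _).trans (c.tm.2.trans (le_of_eq ?_))
    refine Eq.trans ?_ (congrArg Polynomial.natDegree (tp_aff p L c.Ψ).symm)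
    rw [← Polynomial.taylor_apply, Polynomial.natDegree_taylor, c.tm.1.natDegree_map]
  · obtain ⟨α, β, h⟩ := c.bezΦ
    refine ⟨(α.map B).comp (Polynomial.X + Polynomial.C (C (p none))),
      (β.map B).comp (Polynomial.X + Polynomial.C (C (p none))), ?_⟩
    have e : tp (A c.Ψ) = ((tp c.Ψ).map B).comp (Polynomial.X + Polynomial.C (C (p none))) :=
      tp_aff p L c.Ψ
    rw [e, Polynomial.derivative_comp, Polynomial.derivative_X_add_C, one_mul,
      Polynomial.derivative_map, ← Polynomial.mul_comp, ← Polynomial.mul_comp,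
      ← Polynomial.add_comp, ← Polynomial.map_mul, ← Polynomial.map_mul,
      ← Polynomial.map_add, ← h, Polynomial.map_C, Polynomial.C_comp]
  · have e : ∀ i, coeff (Finsupp.single none (c.δ - i)) ((c.χ.map A).coeff i) =
        coeff (Finsupp.single none (c.δ - i)) (c.χ.coeff i) := fun i => by
      rw [Polynomial.coeff_map]
      exact caff_top p L (c.wt i)
    simp only [e]
    exact c.sep

theorem caff_inv [DecidableEq ι] {M M' : Matrix ι ι R} (h : M * M' = 1) (φ : R →+* S) (y : ι → S)
    (i : ι) :
    ∑ j, φ (M i j) * ∑ l, φ (M' j l) * y l = y i := by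
  have e : (M.map φ).mulVec ((M'.map φ).mulVec y) = y := by
    rw [Matrix.mulVec_mulVec, ← Matrix.map_mul, h, Matrix.map_one _ (map_zero φ) (map_one φ),
      Matrix.one_mulVec]
  exact congrFun e i

theorem caff_ev (φ : R →+* S) (p : ι → R) (L : Matrix ι ι R) (y : ι → S) (θ : S)
    (q : (MP ι R)[X]) : ev φ y θ (q.map (aff p L : MP ι R →+* MP ι R)) =
      ev φ (fun i => φ (p i) + ∑ j, φ (L i j) * y j) θ q := by
  rw [ev_def, ev_def, Polynomial.eval₂_map]
  exact congrArg (fun ψ => Polynomial.eval₂ ψ θ q) (RingHom.ext fun G => eval₂_aff φ p L y G)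

/-- The transported chart: the old coordinates are `p + extM L ξ`, so the new forms are
`f'_0 = f_0`, `f'_i = ∑ j, extM L' i j • (f_j - p j • f_0)`, `pp' j = (pp j).map (aff ..)`. In
`int` substitute `T_0 ↦ T_0`, `T_i ↦ p i T_0 + ∑ j, extM L i j T_j`. -/
theorem Chart.exists_aff [Nontrivial R] {GG : Set (Fm N R)} (c : Chart R σ N GG)
    (p : Option σ → R) {L L' : Matrix σ σ R} (h : L * L' = 1) :
    ∃ c' : Chart R σ N GG, c'.br = aff p (extM L) c.br ∧ c'.f none = c.f none ∧
      ∀ i, c'.f (some i) = ∑ j, C (extM L' i j) * (c.f (some j) - C (p j) * c.f none) := by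
  obtain ⟨q, -, hχ, hD, hΨ, hΦ⟩ := c.toPChart.exists_aff p L
  have h1 : extM L * extM L' = 1 := by rw [extM_mul, h, extM_one]
  have h2 : extM L' * extM L = 1 := mul_eq_one_comm.1 h1
  let A : MP (Option σ) R →+* MP (Option σ) R := aff p (extM L)
  have e : ∀ G, sb (fun j => (c.pp j).map A) G = (sb c.pp G).map A := fun G => by
    rw [map_sb (RingHom.id R) A (fun a => by simp [A, aff]) c.pp G, map_id]
  let f' : Option (Option σ) → Fm N R := fun i => i.elim (c.f none) fun i =>
    ∑ j, C (extM L' i j) * (c.f (some j) - C (p j) * c.f none)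
  have hf' : ∀ (Ω : Type) [Field Ω] (φ : R →+* Ω) (x : Fin (N + 1) → Ω) (i : Option σ),
      ∑ j, φ (extM L i j) * eval₂ φ x (f' (some j)) =
        eval₂ φ x (c.f (some i)) - φ (p i) * eval₂ φ x (c.f none) := fun Ω _ φ x i => by
    simp only [f', Option.elim_some, eval₂_sum, eval₂_mul, eval₂_C, eval₂_sub]
    exact caff_inv h1 φ (fun j => eval₂ φ x (c.f (some j)) - φ (p j) * eval₂ φ x (c.f none)) i
  refine ⟨⟨q, c.d, f', c.th, c.l0, fun j => (c.pp j).map A, c.dpos, fun i => ?_, c.hth, c.hl,
    fun G hG => ?_, fun i => ?_, ?_, fun Ω _ φ ξ θ => ?_, fun Ω _ φ x ξ θ hx h3 h4 h5 => ?_,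
    fun j => ?_⟩, ?_, rfl, fun _ => rfl⟩
  · cases i with
    | none => exact c.hf none
    | some i =>
      exact IsHomogeneous.sum _ _ _ fun j _ => ((c.hf _).sub ((c.hf _).C_mul _)).C_mul _
  · rw [e, hχ]
    exact Polynomial.map_dvd A (c.dv_on G hG)
  · have h3 : ∀ j, q.χ ∣ sb (fun j => (c.pp j).map A) (c.f (some j)) -
        Polynomial.C (C (p j) + ∑ l, C (extM L j l) * X l) *
          sb (fun j => (c.pp j).map A) (c.f none) := fun j => by
      have h4 := Polynomial.map_dvd A (c.dv_f j)
      rw [Polynomial.map_sub, Polynomial.map_mul, ← e, ← e, ← hχ, Polynomial.map_C] at h4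
      simpa only [A, aff, RingHom.coe_coe, aeval_X] using h4
    have h5 := Finset.dvd_sum fun j (_ : j ∈ Finset.univ) =>
      (h3 j).mul_left (Polynomial.C (C (extM L' i j)))
    have h6 := congrArg Polynomial.C (caff_inv h2 (C : R →+* MP (Option σ) R) X i)
    refine h5.trans (dvd_of_eq ?_)
    have h7 : ∀ a : R, sb (fun j => (c.pp j).map A) (C a) = Polynomial.C (C a) := fun a => by
      simp [sb]
    simp only [f', Option.elim_some, Option.elim_none, map_sum, map_mul, map_sub, h7]
    rw [← h6, map_sum, Finset.sum_mul, ← Finset.sum_sub_distrib]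
    refine Finset.sum_congr rfl fun j _ => ?_
    rw [map_add, map_mul]
    ring
  · have h3 := Polynomial.map_dvd A c.dv_th
    rwa [Polynomial.map_sub, Polynomial.map_mul, ← e, ← e, ← hχ, Polynomial.map_X] at h3
  · change _ → _ → ev φ ξ θ (sb _ (c.f none)) ≠ 0 ∧ _
    rw [e, e, hχ, hD, caff_ev, caff_ev, caff_ev, eval₂_aff]
    exact c.ne Ω _ _ θ
  · simp only [hχ, hD, A, caff_ev, eval₂_aff]
    refine c.fro Ω φ x _ θ hx h3 (fun i => ?_) h5
    have h6 := hf' Ω φ x i
    simp only [h4] at h6
    rw [add_mul, Finset.sum_mul]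
    simp only [mul_assoc]
    exact (sub_eq_iff_eq_add'.1 h6.symm)
  · obtain ⟨m, H, h3, h4, h5, h6⟩ := c.int j
    let s : Option (Option σ) → MP (Option (Option σ)) R := fun i =>
      i.elim (X none) fun i => C (p i) * X none + ∑ l, C (extM L i l) * X (some l)
    refine ⟨m, H.map (eval₂Hom C s), h3.map _, by rw [h3.natDegree_map, h4],
      fun i => ?_, fun Ω _ φ x hx => ?_⟩
    · rw [Polynomial.coeff_map]
      have h7 := (h5 i).eval₂ (n := 1) C s (fun r => isHomogeneous_C _ r) fun i => by
        cases i with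
        | none => exact isHomogeneous_X _ _
        | some i =>
          exact (isHomogeneous_C_mul_X _ _).add
            (IsHomogeneous.sum _ _ _ fun l _ => isHomogeneous_C_mul_X _ _)
      rwa [one_mul] at h7
    · rw [ev_map, ← h6 Ω φ x hx]
      congr 2
      · ext; simp
      · funext i
        cases i with
        | none => simp [s, f']
        | some i =>
          simp only [s, coe_eval₂Hom, eval₂_X, Option.elim_some, eval₂_add, eval₂_mul, eval₂_C,
            eval₂_sum, hf']
          exact add_sub_cancel _ _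
  · change q.Ψ * up q.Φ = aff p (extM L) (c.Ψ * up c.Φ)
    rw [map_mul, aff_up, hΨ, hΦ]

end Pool.Agent.ZCy
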