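import Pool.Agent.Lib.MP_751085_ag.ZC.CGn

/-! The rank of the Jacobian matrix at points over any field. -/

namespace Pool.Agent.ZCy

open scoped Classical Polynomial
open MvPolynomial Module

set_option linter.unusedSectionVars false

variable {k : Type} [Field k] {X : Var k} {n : ℕ} {Ω : Type} [Field Ω] [Algebra k Ω]
  {x : Fin (X.N + 1) → Ω}

/-- finitely many equations -/
theorem Var.exists_GG (X : Var k) : ∃ GG : Finset (Fm X.N k), (GG : Set (Fm X.N k)) ⊆ X.I ∧
    ∀ G ∈ X.I, G ∈ Ideal.span (GG : Set (Fm X.N k)) := by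
  obtain ⟨s, h1, h2⟩ := (Submodule.fg_span_iff_fg_span_finset_subset (R := Fm X.N k) X.I).1
    (IsNoetherian.noetherian _)
  exact ⟨s, h1, fun G hG => h2.le (Submodule.subset_span hG)⟩

/-- gradients of elements of the ideal at a zero of the generators -/
theorem grad_mem_span {ι : Type} {GG : Set (MP ι k)} {y : ι → Ω} (hy : ∀ G ∈ GG, aeval y G = 0)
    {G : MP ι k} (hG : G ∈ Ideal.span GG) :
    aeval y G = 0 ∧ grad y G ∈ Submodule.span Ω (grad y '' GG) := by
  induction hG using Submodule.span_induction with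
  | mem G h => exact ⟨hy G h, Submodule.subset_span ⟨G, h, rfl⟩⟩
  | zero =>
    have : grad y (0 : MP ι k) = 0 := by funext i; simp [grad]
    exact ⟨map_zero _, this ▸ zero_mem _⟩
  | add a b _ _ ha hb =>
    have : grad y (a + b) = grad y a + grad y b := by funext i; simp [grad]
    exact ⟨by rw [map_add, ha.1, hb.1, add_zero], this ▸ add_mem ha.2 hb.2⟩
  | smul c a _ ha =>
    have : grad y (c • a) = aeval y c • grad y a := by funext i; simp [grad, ha.1]
    exact ⟨by rw [smul_eq_mul, map_mul, ha.1, mul_zero], this ▸ Submodule.smul_mem _ _ ha.2⟩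

theorem Var.jac_eq_span {GG : Set (Fm X.N k)} (h1 : GG ⊆ X.I) (h2 : ∀ G ∈ X.I, G ∈ Ideal.span GG)
    (hx : ∀ G ∈ GG, aeval x G = 0) : X.jac x = Submodule.span Ω (grad x '' GG) := by
  refine le_antisymm (Submodule.span_le.2 ?_) (Submodule.span_mono (Set.image_mono h1))
  rintro _ ⟨G, hG, rfl⟩
  exact (grad_mem_span hx (h2 G hG)).2

theorem jac_smul_le (c : Ω) : X.jac (c • x) ≤ X.jac x := by
  refine Submodule.span_le.2 ?_
  rintro _ ⟨G, hG, rfl⟩
  obtain ⟨m, hm⟩ := hG.1
  rw [grad_smul_hom hm]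
  exact Submodule.smul_mem _ _ (Submodule.subset_span ⟨G, hG, rfl⟩)

theorem Var.jac_smul {c : Ω} (hc : c ≠ 0) : X.jac (c • x) = X.jac x := by
  refine le_antisymm (jac_smul_le c) ?_
  have h := jac_smul_le (x := c • x) c⁻¹
  rwa [inv_smul_smul₀ hc] at h

theorem jac_basis (x : Fin (X.N + 1) → Ω) : ∃ (r : ℕ) (G : Fin r → Fm X.N k), (∀ t, G t ∈ X.I) ∧
    LinearIndependent Ω (fun t => grad x (G t)) ∧
      Submodule.span Ω (Set.range fun t => grad x (G t)) = X.jac x := by
  obtain ⟨κ, a, -, h2, h3⟩ := exists_linearIndependent' Ω fun G : X.I => grad x G.1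
  have : Finite κ := h3.finite
  obtain ⟨r, ⟨e⟩⟩ := Finite.exists_equiv_fin κ
  refine ⟨r, fun t => (a (e.symm t)).1, fun t => (a _).2, h3.comp e.symm e.symm.injective, ?_⟩
  rw [Var.jac, Set.image_eq_range, ← h2]
  exact congrArg _ (e.symm.surjective.range_comp ((fun G : X.I => grad x G.1) ∘ a))

theorem jac_inv {ι κ : Type} [Fintype ι] [Fintype κ] [DecidableEq κ] {v : κ → ι → Ω}
    (h : LinearIndependent Ω v) :
    ∃ A : κ × ι → Ω, ∀ s t, ∑ j, A (s, j) * v t j = if t = s then 1 else 0 := by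
  obtain ⟨g, hg⟩ := (Fintype.linearCombination Ω v).exists_leftInverse_of_injective
    (LinearMap.ker_eq_bot.2 h.fintypeLinearCombination_injective)
  refine ⟨fun p => g (fun j => if p.2 = j then 1 else 0) p.1, fun s t => ?_⟩
  have e := congrFun (LinearMap.congr_fun hg (Pi.single t 1)) s
  rw [LinearMap.comp_apply, Fintype.linearCombination_apply_single, one_smul,
    LinearMap.pi_apply_eq_sum_univ] at e
  simp only [Finset.sum_apply, Pi.smul_apply, smul_eq_mul, LinearMap.id_apply, Pi.single_apply] at e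
  simp only [mul_comm, e, eq_comm]

theorem jac_indep {ι κ : Type} [Fintype ι] [Fintype κ] [DecidableEq κ] {v : κ → ι → Ω}
    {A : κ × ι → Ω} (h : ∀ s t, ∑ j, A (s, j) * v t j = if t = s then 1 else 0) :
    LinearIndependent Ω v := by
  refine Fintype.linearIndependent_iff.2 fun a ha s => ?_
  have e : ∑ j, A (s, j) * (∑ t, a t • v t) j = ∑ t, a t * ∑ j, A (s, j) * v t j := by
    simp only [Finset.sum_apply, Pi.smul_apply, smul_eq_mul, Finset.mul_sum]
    rw [Finset.sum_comm]
    exact Finset.sum_congr rfl fun _ _ => Finset.sum_congr rfl fun _ _ => by ring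
  rw [ha] at e
  simpa [h] using e.symm

theorem jac_finrank_one (hX : X.Nice n) (hx : X.Zr x) {i : Fin (X.N + 1)} (hi : x i = 1) :
    finrank Ω (X.jac x) + n = X.N := by
  obtain ⟨GG, h1, h2⟩ := X.exists_GG
  obtain ⟨r, G, hG, hl, hs⟩ := jac_basis x
  obtain ⟨A, hA⟩ := jac_inv hl
  have hc : ∀ E : GG, ∃ c : Fin r → Ω, ∑ t, c t • grad x (G t) = grad x E.1 := fun E =>
    (Submodule.mem_span_range_iff_exists_fun Ω).1
      (hs.ge (Submodule.subset_span ⟨E.1, h1 E.2, rfl⟩))
  choose c hc using hc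
  obtain ⟨z, hz⟩ := exists_spec (K := k) (AlgebraicClosure k)
    (Sum.elim x (Sum.elim A fun p : GG × Fin r => c p.1 p.2))
  have hx' : X.Zr (z ∘ Sum.inl) := fun E hE => by
    rw [← aeval_rename]
    exact hz _ (by rw [aeval_rename]; exact hx E hE)
  have hi' : (z ∘ Sum.inl) i = 1 := by
    have := hz (MvPolynomial.X (Sum.inl i) - 1) (by simp [hi])
    simpa [sub_eq_zero] using this
  have hl' : LinearIndependent (AlgebraicClosure k) fun t => grad (z ∘ Sum.inl) (G t) := by
    refine jac_indep (A := fun p => z (Sum.inr (Sum.inl p))) fun s t => ?_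
    have := hz (∑ j, MvPolynomial.X (Sum.inr (Sum.inl (s, j))) * rename Sum.inl (pderiv j (G t)) -
      if t = s then 1 else 0) (by
        simp only [map_sub, map_sum, map_mul, aeval_X, aeval_rename, sub_eq_zero]
        rw [apply_ite (aeval _), map_one, map_zero]
        exact hA s t)
    simp only [map_sub, map_sum, map_mul, aeval_X, aeval_rename, sub_eq_zero] at this
    rw [apply_ite (aeval z), map_one, map_zero] at this
    exact this
  have hs' : Submodule.span (AlgebraicClosure k) (Set.range fun t => grad (z ∘ Sum.inl) (G t)) =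
      X.jac (z ∘ Sum.inl) := by
    refine le_antisymm (Submodule.span_mono ?_) ?_
    · rintro _ ⟨t, rfl⟩
      exact ⟨G t, hG t, rfl⟩
    · rw [Var.jac_eq_span h1 h2 fun E hE => hx' E (h1 hE)]
      refine Submodule.span_le.2 ?_
      rintro _ ⟨E, hE, rfl⟩
      refine (Submodule.mem_span_range_iff_exists_fun _).2
        ⟨fun t => z (Sum.inr (Sum.inr (⟨E, hE⟩, t))), funext fun j => ?_⟩
      have := hz (∑ t, MvPolynomial.X (Sum.inr (Sum.inr (⟨E, hE⟩, t))) *
        rename Sum.inl (pderiv j (G t)) - rename Sum.inl (pderiv j E)) (by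
          have e := congrFun (hc ⟨E, hE⟩) j
          simp only [grad, Finset.sum_apply, Pi.smul_apply, smul_eq_mul] at e
          simp [aeval_rename, e])
      simp only [map_sub, map_sum, map_mul, aeval_X, aeval_rename, sub_eq_zero] at this
      simpa [grad] using this
  have e : finrank (AlgebraicClosure k) (X.jac (z ∘ Sum.inl)) + n = X.N :=
    hX.smooth ⟨z ∘ Sum.inl, ⟨i, hi'⟩, hx'⟩
  rw [← hs', finrank_span_eq_card hl'] at e
  rw [← hs, finrank_span_eq_card hl, e]

theorem Var.Nice.finrank_jac (hX : X.Nice n) (hx : X.On x) : finrank Ω (X.jac x) + n = X.N := by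
  obtain ⟨i, hi⟩ := Function.ne_iff.1 hx.1
  rw [← Var.jac_smul (inv_ne_zero hi)]
  exact jac_finrank_one hX (hx.zr.smul _) (i := i) (inv_mul_cancel₀ hi)

theorem Var.Nice.exists_basis_jac (hX : X.Nice n) (hx : X.On x) :
    ∃ (r : ℕ) (G : Fin r → Fm X.N k), r + n = X.N ∧ (∀ t, G t ∈ X.I) ∧
      LinearIndependent Ω (fun t => grad x (G t)) ∧
      Submodule.span Ω (Set.range fun t => grad x (G t)) = X.jac x := by
  obtain ⟨r, G, hG, hl, hs⟩ := jac_basis x
  have e := hX.finrank_jac hx
  rw [← hs, finrank_span_eq_card hl, Fintype.card_fin] at e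
  exact ⟨r, G, e, hG, hl, hs⟩

end Pool.Agent.ZCy
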