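import Pool.Agent.Lib.MP_751085_ag.ZC.CRk

/-! Counting constants. -/

namespace Pool.Agent.ZCy

open scoped Classical Polynomial
open Set

set_option linter.unusedSectionVars false

variable {K Ω ι ε : Type} [Field K] [Field Ω] [Algebra K Ω] [Fintype ι] [Fintype ε]

theorem cnt_det_mem (L : IntermediateField K Ω) {A : Matrix ε ε Ω} (h : ∀ i j, A i j ∈ L) :
    A.det ∈ L := by
  rw [Matrix.det_apply']
  exact sum_mem fun σ _ => mul_mem (intCast_mem _ _) (prod_mem fun i _ => h _ _)

theorem cnt_solve (L : IntermediateField K Ω) {A : Matrix ε ε Ω} (h : ∀ i j, A i j ∈ L)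
    (hA : IsUnit A) {x : ε → Ω} (hb : ∀ e, A.mulVec x e ∈ L) (e : ε) : x e ∈ L := by
  have h0 : A.det ≠ 0 := ((Matrix.isUnit_iff_isUnit_det A).1 hA).ne_zero
  have h1 : A.det • x = Matrix.cramer A (A.mulVec x) := by
    refine Matrix.mulVec_injective_iff_isUnit.2 hA ?_
    rw [Matrix.mulVec_cramer, Matrix.mulVec_smul]
  have h2 : x e = (A.updateCol e (A.mulVec x)).det / A.det := by
    rw [eq_div_iff h0, mul_comm, ← Matrix.cramer_apply, ← h1]
    rfl
  rw [h2]
  refine div_mem (cnt_det_mem L fun i j => ?_) (cnt_det_mem L h)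
  rw [Matrix.updateCol_apply]
  split_ifs
  · exact hb i
  · exact h i j

theorem cnt_cols (M : ε → ι → Ω) (hs : ∀ w : ε → Ω, ∃ c : ι → Ω, ∀ e, ∑ i, c i * M e i = w e) :
    ∃ j : ε → ι, Function.Injective j ∧ IsUnit (Matrix.of fun e e' => M e (j e')) := by
  obtain ⟨κ, b, hb, h1, h2⟩ := exists_linearIndependent' Ω fun i e => M e i
  have h3 : Submodule.span Ω (range fun i e => M e i) = ⊤ := by
    refine eq_top_iff.2 fun w _ => ?_
    obtain ⟨c, hc⟩ := hs w
    refine (Submodule.mem_span_range_iff_exists_fun Ω).2 ⟨c, funext fun e => ?_⟩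
    rw [← hc e, Finset.sum_apply]
    rfl
  have : Fintype κ := Fintype.ofInjective b hb
  have h4 : Fintype.card ε = Fintype.card κ := by
    rw [← finrank_span_eq_card h2, h1, h3, finrank_top, Module.finrank_fintype_fun_eq_card]
  let σ : ε ≃ κ := Fintype.equivOfCardEq h4
  refine ⟨b ∘ σ, hb.comp σ.injective, Matrix.linearIndependent_cols_iff_isUnit.1 ?_⟩
  exact h2.comp σ σ.injective

/-- Independent linear equations lower the rank. -/
theorem count (s : Set Ω) (M : ε → ι → Ω) (a : ι → Ω) (hM : ∀ e i, M e i ∈ acl K s)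
    (hb : ∀ e, ∑ i, a i * M e i ∈ acl K s)
    (hs : ∀ w : ε → Ω, ∃ c : ι → Ω, ∀ e, ∑ i, c i * M e i = w e) :
    rk K (s ∪ range a) + Fintype.card ε ≤ rk K s + Fintype.card ι := by
  obtain ⟨j, hj, hA⟩ := cnt_cols M hs
  let T : Finset ι := (Finset.univ.image j)ᶜ
  have hT : T.card + Fintype.card ε = Fintype.card ι := by
    rw [← Finset.card_univ (α := ε), ← Finset.card_image_of_injective _ hj, add_comm]
    exact Finset.card_add_card_compl _
  have hle : acl K s ≤ acl K (s ∪ a '' T) := acl_mono subset_union_left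
  have hT' : ∀ i ∈ T, a i ∈ acl K (s ∪ a '' T) := fun i hi =>
    mem_acl_of_mem (Or.inr ⟨i, hi, rfl⟩)
  have h1 : ∀ e, a (j e) ∈ acl K (s ∪ a '' T) := by
    refine cnt_solve _ (A := Matrix.of fun e e' => M e (j e')) (fun e e' => hle (hM e (j e'))) hA
      (x := fun e => a (j e)) fun e => ?_
    have e1 : (Matrix.of fun e e' => M e (j e')).mulVec (fun e => a (j e)) e =
        ∑ i, a i * M e i - ∑ i ∈ T, a i * M e i := by
      rw [eq_sub_iff_add_eq, ← Finset.sum_add_sum_compl (Finset.univ.image j),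
        Finset.sum_image fun _ _ _ _ h => hj h]
      simp [Matrix.mulVec, dotProduct, mul_comm, T]
    exact e1.symm ▸ sub_mem (hle (hb e)) (sum_mem fun i hi => mul_mem (hT' i hi) (hle (hM e i)))
  have h2 : rk K (s ∪ range a) ≤ rk K s + T.card := by
    refine (rk_le_of_acl (t := s ∪ a '' T) ?_).trans
      ((rk_union_le _ _).trans (add_le_add le_rfl (rk_image_le a T)))
    rintro _ (h | ⟨i, rfl⟩)
    · exact mem_acl_of_mem (Or.inl h)
    · by_cases hi : i ∈ T
      · exact hT' i hi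
      · obtain ⟨e, -, rfl⟩ := Finset.mem_image.1 (not_not.1 fun h => hi (Finset.mem_compl.2 h))
        exact h1 e
  rw [← hT, Nat.cast_add, ← add_assoc]
  exact add_le_add h2 le_rfl

/-- independent unknowns satisfy few equations -/
theorem count_indep (s : Set Ω) (M : ε → ι → Ω) (a : ι → Ω) (hM : ∀ e i, M e i ∈ acl K s)
    (hb : ∀ e, ∑ i, a i * M e i ∈ acl K s)
    (hs : ∀ w : ε → Ω, ∃ c : ι → Ω, ∀ e, ∑ i, c i * M e i = w e) (ha : AlgebraicIndependent K a)
    {r : ℕ} (hr : rk K s ≤ r) : Fintype.card ε ≤ r := by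
  have h1 := count s M a hM hb hs
  have h2 : (Fintype.card ι : ℕ∞) ≤ rk K (s ∪ range a) :=
    (rk_range_iff.2 ha).trans (rk_mono subset_union_right)
  have h3 : (Fintype.card ι : ℕ∞) + Fintype.card ε ≤ r + Fintype.card ι :=
    ((add_le_add h2 le_rfl).trans h1).trans (add_le_add hr le_rfl)
  have h4 : Fintype.card ι + Fintype.card ε ≤ r + Fintype.card ι := by exact_mod_cast h3
  omega

/-- independent rows give a surjective system -/
theorem surj_of_indep (M : ε → ι → Ω) (h : LinearIndependent Ω M) (w : ε → Ω) :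
    ∃ c : ι → Ω, ∀ e, ∑ i, c i * M e i = w e := by
  have h1 : (Matrix.of M).rank = Fintype.card ε := LinearIndependent.rank_matrix (M := Matrix.of M) h
  have h2 : LinearMap.range (Matrix.of M).mulVecLin = ⊤ :=
    Submodule.eq_top_of_finrank_eq (h1.trans (Module.finrank_fintype_fun_eq_card Ω).symm)
  obtain ⟨c, hc⟩ : w ∈ LinearMap.range (Matrix.of M).mulVecLin := h2 ▸ Submodule.mem_top
  refine ⟨c, fun e => ?_⟩
  rw [← hc]
  simp [Matrix.mulVec, dotProduct, mul_comm]

end Pool.Agent.ZCy
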