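import Mathlib

/-! Transcendence rank of subsets of a field. -/

namespace Pool.Agent.ZCy

open scoped Classical
open Set

variable (K : Type) [Field K] {Ω : Type} [Field Ω] [Algebra K Ω]

/-- the transcendence degree of the field generated by `s` -/
noncomputable def rk (s : Set Ω) : ℕ∞ := (AlgebraicIndependent.matroid K Ω).eRk s

/-- the elements that are algebraic over the field generated by `s` -/
noncomputable def acl (s : Set Ω) : IntermediateField K Ω :=
  (algebraicClosure (IntermediateField.adjoin K s) Ω).restrictScalars K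

variable {K}

theorem mem_acl {s : Set Ω} {a : Ω} :
    a ∈ acl K s ↔ IsAlgebraic (IntermediateField.adjoin K s) a := mem_algebraicClosure_iff

theorem coe_acl (s : Set Ω) :
    (acl K s : Set Ω) = (AlgebraicIndependent.matroid K Ω).closure s := by
  ext a
  rw [AlgebraicIndependent.matroid_closure_eq, SetLike.mem_coe, SetLike.mem_coe, mem_acl,
    Subalgebra.mem_algebraicClosure, IntermediateField.isAlgebraic_adjoin_iff]

theorem subset_acl (s : Set Ω) : s ⊆ acl K s := by
  rw [coe_acl]; exact Matroid.subset_closure _ _ (subset_univ _)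

theorem mem_acl_of_mem {s : Set Ω} {a : Ω} (h : a ∈ s) : a ∈ acl K s := subset_acl s h

theorem acl_mono {s t : Set Ω} (h : s ⊆ t) : acl K s ≤ acl K t := fun a ha => by
  have : (acl K s : Set Ω) ⊆ acl K t := by
    rw [coe_acl, coe_acl]; exact Matroid.closure_subset_closure _ h
  exact this ha

theorem acl_le {s t : Set Ω} (h : s ⊆ acl K t) : acl K s ≤ acl K t := fun a ha => by
  have : (acl K s : Set Ω) ⊆ acl K t := by
    rw [coe_acl] at h
    rw [coe_acl, coe_acl]; exact Matroid.closure_subset_closure_of_subset_closure h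
  exact this ha

theorem mem_acl_of_isAlgebraic (s : Set Ω) {a : Ω} (h : IsAlgebraic K a) : a ∈ acl K s :=
  mem_acl.2 (h.extendScalars (algebraMap K _).injective)

/-- a root of a nonzero polynomial with coefficients in `acl K s` -/
theorem mem_acl_of_root {s : Set Ω} {P : Polynomial Ω} (h0 : P ≠ 0)
    (hc : ∀ i, P.coeff i ∈ acl K s) {a : Ω} (ha : P.eval a = 0) : a ∈ acl K s := by
  have h1 : IsAlgebraic (algebraicClosure (IntermediateField.adjoin K s) Ω) a := by
    obtain ⟨Q, hQ⟩ : P ∈ Polynomial.lifts
        (algebraMap (algebraicClosure (IntermediateField.adjoin K s) Ω) Ω) :=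
      (Polynomial.lifts_iff_coeff_lifts _).2 fun i => ⟨⟨P.coeff i, hc i⟩, rfl⟩
    refine ⟨Q, fun h => h0 (by rw [← hQ, h, map_zero]), ?_⟩
    rw [Polynomial.aeval_def, Polynomial.eval₂_eq_eval_map]
    exact (congrArg (Polynomial.eval a) hQ).trans ha
  exact mem_acl.2 (h1.restrictScalars _)

theorem aeval_mem_acl {σ : Type} {s : Set Ω} {y : σ → Ω} (hy : ∀ i, y i ∈ acl K s)
    (P : MvPolynomial σ K) : MvPolynomial.aeval y P ∈ acl K s := by
  induction P using MvPolynomial.induction_on with
  | C c => rw [MvPolynomial.aeval_C]; exact (acl K s).algebraMap_mem c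
  | add p q hp hq => rw [map_add]; exact add_mem hp hq
  | mul_X p i hp => rw [map_mul, MvPolynomial.aeval_X]; exact mul_mem hp (hy i)

theorem rk_mono {s t : Set Ω} (h : s ⊆ t) : rk K s ≤ rk K t := Matroid.eRk_mono _ h

theorem rk_acl (s : Set Ω) : rk K (acl K s : Set Ω) = rk K s := by
  rw [coe_acl]; exact Matroid.eRk_closure_eq _ _

theorem rk_le_of_acl {s t : Set Ω} (h : s ⊆ acl K t) : rk K s ≤ rk K t :=
  (rk_mono h).trans (rk_acl t).le

theorem rk_union_le (s t : Set Ω) : rk K (s ∪ t) ≤ rk K s + rk K t :=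
  Matroid.eRk_union_le_eRk_add_eRk _ _ _

theorem rk_le_encard (s : Set Ω) : rk K s ≤ s.encard := Matroid.eRk_le_encard _ _

theorem rk_insert_le (a : Ω) (s : Set Ω) : rk K (insert a s) ≤ rk K s + 1 :=
  Matroid.eRk_insert_le_add_one _ _ _

theorem rk_empty : rk K (∅ : Set Ω) = 0 := Matroid.eRk_empty _

theorem rk_range_le {ι : Type} [Fintype ι] (y : ι → Ω) : rk K (range y) ≤ Fintype.card ι := by
  refine (rk_le_encard _).trans ?_
  rw [← image_univ]
  exact (encard_image_le _ _).trans (by simp)

theorem rk_image_le {ι : Type} (y : ι → Ω) (T : Finset ι) : rk K (y '' T) ≤ T.card :=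
  (rk_le_encard _).trans ((encard_image_le _ _).trans (by simp))

theorem rk_eq_zero {s : Set Ω} (h : ∀ a ∈ s, IsAlgebraic K a) : rk K s = 0 :=
  le_antisymm ((rk_le_of_acl fun a ha => mem_acl_of_isAlgebraic ∅ (h a ha)).trans rk_empty.le)
    bot_le

theorem rk_range_iff {ι : Type} [Fintype ι] {y : ι → Ω} :
    (Fintype.card ι : ℕ∞) ≤ rk K (range y) ↔ AlgebraicIndependent K y := by
  constructor
  · intro h
    have h1 : (range y).encard ≤ Fintype.card ι := by
      rw [← image_univ]
      exact (encard_image_le _ _).trans (by simp)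
    have h2 : Function.Injective y := by
      refine injOn_univ.1 (finite_univ.injOn_of_encard_image_eq ?_)
      rw [image_univ]
      exact le_antisymm (by simpa using h1) (by simpa using h.trans (rk_le_encard _))
    have h3 := (Matroid.indep_iff_eRk_eq_encard_of_finite (finite_range y)).2
      (le_antisymm (rk_le_encard (K := K) _) (h1.trans h))
    exact (algebraicIndependent_subtype_range h2).1 h3
  · intro h
    have h1 : (AlgebraicIndependent.matroid K Ω).Indep (range y) :=
      (algebraicIndependent_subtype_range h.injective).2 h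
    rw [rk, h1.eRk_eq_encard, ← image_univ, h.injective.encard_image]
    simp

/-- a polynomial relation lowers the rank -/
theorem rk_add_one_le {σ : Type} [Fintype σ] {y : σ → Ω} {P : MvPolynomial σ K} (h0 : P ≠ 0)
    (h : MvPolynomial.aeval y P = 0) : rk K (range y) + 1 ≤ Fintype.card σ := by
  refine Order.add_one_le_of_lt (lt_of_not_ge fun h1 => h0 ?_)
  exact (rk_range_iff.1 h1).eq_zero_of_aeval_eq_zero P h

/-- a large rank gives an independent subfamily -/
theorem exists_indep_of_le_rk {σ : Type} {y : σ → Ω} {r : ℕ} (h : (r : ℕ∞) ≤ rk K (range y)) :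
    ∃ T : Finset σ, T.card = r ∧ AlgebraicIndependent K fun i : T => y i := by
  obtain ⟨I, hI, h1, h2⟩ := Matroid.le_eRk_iff.1 h
  obtain ⟨T, hT, rfl⟩ : ∃ T : Set σ, InjOn y T ∧ y '' T = I := by
    obtain ⟨T, h4, h3⟩ := exists_image_eq_injOn_of_subset_range hI
    exact ⟨T, h3, h4⟩
  rw [hT.encard_image] at h2
  have hf : T.Finite := finite_of_encard_eq_coe h2
  refine ⟨hf.toFinset, ?_, ?_⟩
  · rw [hf.encard_eq_coe_toFinset_card] at h2
    exact_mod_cast h2
  · refine rk_range_iff.1 ?_
    have e : range (fun i : hf.toFinset => y i) = y '' T := by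
      ext z; simp
    rw [e, rk, h1.eRk_eq_encard, hT.encard_image, hf.encard_eq_coe_toFinset_card]
    simp

/-- rank in a tower -/
theorem rk_add_le {Ω' : Type} [Field Ω'] [Algebra Ω Ω'] [Algebra K Ω'] [IsScalarTower K Ω Ω']
    (s : Set Ω) (t : Set Ω') : rk K s + rk Ω t ≤ rk K (algebraMap Ω Ω' '' s ∪ t) := by
  obtain ⟨I, hI⟩ := (AlgebraicIndependent.matroid K Ω).exists_isBasis s
  obtain ⟨J, hJ⟩ := (AlgebraicIndependent.matroid Ω Ω').exists_isBasis t
  have h1 : AlgebraicIndependent K (Subtype.val : I → Ω) := hI.indep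
  have h2 : AlgebraicIndependent Ω (Subtype.val : J → Ω') := hJ.indep
  have h3 := h1.sumElim_comp h2
  have h4 : (AlgebraicIndependent.matroid K Ω').Indep (range _) :=
    (algebraicIndependent_subtype_range h3.injective).2 h3
  rw [rk, rk, hI.eRk_eq_encard, hJ.eRk_eq_encard]
  refine le_trans (le_of_eq ?_) (h4.encard_le_eRk_of_subset ?_)
  · rw [← image_univ, h3.injective.encard_image, encard_univ, ENat.card_sum]
    simp [add_comm]
  · rintro _ ⟨i | i, rfl⟩
    · exact Or.inr (hJ.subset i.2)
    · exact Or.inl ⟨i, hI.subset i.2, rfl⟩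

/-- rank is invariant under embeddings -/
theorem rk_image {Ω' : Type} [Field Ω'] [Algebra K Ω'] (j : Ω →ₐ[K] Ω') (s : Set Ω) :
    rk K (j '' s) = rk K s := by
  obtain ⟨I, hI⟩ := (AlgebraicIndependent.matroid K Ω).exists_isBasis s
  have h1 : AlgebraicIndependent K (Subtype.val : I → Ω) := hI.indep
  have h3 := h1.map' (f := j) j.injective
  have h4 : (AlgebraicIndependent.matroid K Ω').Indep (range _) :=
    (algebraicIndependent_subtype_range h3.injective).2 h3
  have e : range (j ∘ (Subtype.val : I → Ω)) = j '' I := by ext z; simp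
  rw [e] at h4
  have hj : Function.Injective j := j.injective
  refine le_antisymm ?_ ?_
  · rw [rk, rk, hI.eRk_eq_encard, ← hj.encard_image I, ← h4.eRk_eq_encard]
    refine rk_le_of_acl ?_
    rintro _ ⟨a, ha, rfl⟩
    have h5 : a ∈ acl K I := by
      rw [← SetLike.mem_coe, coe_acl]; exact hI.subset_closure ha
    obtain ⟨P, h0, hP⟩ := mem_acl.1 h5
    refine mem_acl_of_root (P := P.map ((j : Ω →+* Ω').comp (algebraMap _ Ω)))
      (Polynomial.map_ne_zero h0) (fun i => ?_) ?_
    · rw [Polynomial.coeff_map]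
      have h6 : (IntermediateField.adjoin K I).map j ≤ acl K (j '' I) := by
        rw [IntermediateField.adjoin_map, IntermediateField.adjoin_le_iff]
        exact subset_acl _
      exact h6 ⟨_, (P.coeff i).2, rfl⟩
    · rw [Polynomial.eval_map, ← RingHom.coe_coe j, ← Polynomial.hom_eval₂,
        ← Polynomial.aeval_def, hP, map_zero]
  · rw [rk, hI.eRk_eq_encard, ← hj.encard_image I]
    exact h4.encard_le_eRk_of_subset (image_mono hI.subset)

/-- the rank over a larger field is smaller -/
theorem rk_le_of_tower {K' : Type} [Field K'] [Algebra K K'] [Algebra K' Ω] [IsScalarTower K K' Ω]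
    (s : Set Ω) : rk K' s ≤ rk K s := by
  have h := rk_add_le (K := K) (Ω := K') ∅ s
  rwa [rk_empty, zero_add, image_empty, empty_union] at h

end Pool.Agent.ZCy
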