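import Pool.Agent.Lib.MP_751085_ag.ZC.CBase
import Pool.Agent.Lib.MP_751085_ag.ZC.CRk

/-! Dimension of points, generic points. -/

namespace Pool.Agent.ZCy

open scoped Classical Polynomial
open MvPolynomial Set

set_option linter.unusedSectionVars false

variable {k : Type} [Field k] {X : Var k} {n : ℕ} {Ω : Type} [Field Ω] [Algebra k Ω]
  {x : Fin (X.N + 1) → Ω}

theorem Var.rk_univ (hn : Algebra.trdeg k X.F = n) : rk k (univ : Set X.F) = n := by
  rw [rk, Matroid.eRk_univ_eq, ← Matroid.toENat_cRank_eq, AlgebraicIndependent.matroid_cRank_eq, hn]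
  simp

theorem Var.mem_acl_g (a : X.F) : a ∈ acl k (range X.g) := by
  have h : IntermediateField.adjoin k (range X.g) ≤ acl k (range X.g) :=
    IntermediateField.adjoin_le_iff.2 (subset_acl _)
  rw [X.gen] at h
  exact h IntermediateField.mem_top

theorem Var.rk_g (hn : Algebra.trdeg k X.F = n) : rk k (range X.g) = n := by
  rw [← Var.rk_univ hn]
  exact le_antisymm (rk_mono (subset_univ _)) (rk_le_of_acl fun a _ => Var.mem_acl_g a)

/-- if `x i ≠ 0` then `X.g i ≠ 0` -/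
theorem Var.Zr.g_ne (hx : X.Zr x) {i : Fin (X.N + 1)} (h : x i ≠ 0) : X.g i ≠ 0 := fun h0 =>
  h (by simpa using hx (MvPolynomial.X i) ⟨⟨1, isHomogeneous_X _ _⟩, by simpa using h0⟩)

/-- homogenisation -/
theorem dim_hom {ι : Type} (P : MP ι k) (i : ι) : ∃ (Q : MP ι k) (D : ℕ), Q.IsHomogeneous D ∧
    ∀ (S : Type) [CommRing S] [Algebra k S] (y : ι → S), y i = 1 → aeval y Q = aeval y P := by
  refine ⟨∑ m ∈ Finset.range (P.totalDegree + 1),
    homogeneousComponent m P * MvPolynomial.X i ^ (P.totalDegree - m), P.totalDegree,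
    IsHomogeneous.sum _ _ _ fun m hm => ?_, fun S _ _ y hy => ?_⟩
  · have h := (homogeneousComponent_isHomogeneous m P).mul
      (isHomogeneous_X_pow (R := k) i (P.totalDegree - m))
    rwa [Nat.add_sub_cancel' (Nat.lt_succ_iff.1 (Finset.mem_range.1 hm))] at h
  · conv_rhs => rw [← sum_homogeneousComponent P]
    simp only [map_sum, map_mul, map_pow, aeval_X, hy, one_pow, mul_one]

/-- Specialisation. -/
theorem Var.Zr.spec (hx : X.Zr x) {i : Fin (X.N + 1)} (h1 : x i = 1) {P : Fm X.N k}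
    (hP : aeval (fun j => X.g j / X.g i) P = 0) : aeval x P = 0 := by
  have hg : X.g i ≠ 0 := hx.g_ne (h1 ▸ one_ne_zero)
  obtain ⟨Q, D, hQ, hy⟩ := dim_hom P i
  rw [← hy Ω x h1]
  refine hx Q ⟨⟨D, hQ⟩, ?_⟩
  have e : X.g = X.g i • fun j => X.g j / X.g i :=
    funext fun j => (mul_div_cancel₀ _ hg).symm
  rw [e, aeval_smul_hom hQ, hy _ _ (div_self hg), hP, mul_zero]

theorem dim_indep (hx : X.Zr x) {i : Fin (X.N + 1)} (h1 : x i = 1) {T : Finset (Fin (X.N + 1))}
    (hT : AlgebraicIndependent k fun j : T => x j) :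
    AlgebraicIndependent k fun j : T => X.g j / X.g i := by
  refine algebraicIndependent_iff.2 fun p hp => hT.eq_zero_of_aeval_eq_zero p ?_
  have h := hx.spec h1 (P := rename Subtype.val p) (by rw [aeval_rename]; exact hp)
  rwa [aeval_rename] at h

theorem Var.On.rk_le (hn : Algebra.trdeg k X.F = n) (hx : X.On x) {i : Fin (X.N + 1)}
    (h1 : x i = 1) : rk k (range x) ≤ n := by
  by_contra h
  obtain ⟨T, hc, hT⟩ := exists_indep_of_le_rk (K := k) (y := x) (r := n + 1)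
    (by rw [Nat.cast_add, Nat.cast_one]; exact Order.add_one_le_of_lt (lt_of_not_ge h))
  have h2 := ((rk_range_iff.2 (dim_indep hx.zr h1 hT)).trans (rk_mono (subset_univ _))).trans
    (Var.rk_univ hn).le
  rw [Fintype.card_coe, hc] at h2
  have h3 : n + 1 ≤ n := by exact_mod_cast h2
  omega

theorem dim_norm (hx : X.On x) : ∃ i, x i ≠ 0 ∧ X.On ((x i)⁻¹ • x) ∧ ((x i)⁻¹ • x) i = 1 ∧
    rk k (range x) ≤ rk k (range ((x i)⁻¹ • x)) + 1 := by
  obtain ⟨i, hi⟩ := Function.ne_iff.1 hx.1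
  refine ⟨i, hi, hx.smul (inv_ne_zero hi), inv_mul_cancel₀ hi,
    (rk_le_of_acl ?_).trans (rk_insert_le (x i) _)⟩
  rintro _ ⟨j, rfl⟩
  have e : x j = x i * ((x i)⁻¹ • x) j := (mul_inv_cancel_left₀ hi _).symm
  rw [e]
  exact mul_mem (mem_acl_of_mem (mem_insert _ _)) (mem_acl_of_mem (mem_insert_of_mem _ ⟨j, rfl⟩))

theorem Var.On.rk_le' (hn : Algebra.trdeg k X.F = n) (hx : X.On x) :
    rk k (range x) ≤ n + 1 := by
  obtain ⟨i, -, h1, h2, h3⟩ := dim_norm hx
  exact h3.trans (add_le_add (h1.rk_le hn h2) le_rfl)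

theorem dim_ker (hn : Algebra.trdeg k X.F = n) (hx : X.On x) {i : Fin (X.N + 1)}
    (h1 : x i = 1) (hr : (n : ℕ∞) ≤ rk k (range x)) {P : Fm X.N k} (hP : aeval x P = 0) :
    aeval (fun j => X.g j / X.g i) P = 0 := by
  obtain ⟨T, hc, hT⟩ := exists_indep_of_le_rk hr
  have h2 := (dim_indep hx.zr h1 hT).isTranscendenceBasis_of_trdeg_le_of_finite
    (by rw [hn, Cardinal.mk_fintype, Fintype.card_coe, hc])
  by_contra h0
  obtain ⟨t, ht, r, hr0, e⟩ := (h2.isAlgebraic.isAlgebraic _).exists_nonzero_eq_adjoin_mul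
    (mem_nonZeroDivisors_of_ne_zero h0)
  have h3 : ∀ b : Algebra.adjoin k (range fun j : T => X.g j / X.g i),
      ∃ q : MP T k, aeval (fun j : T => X.g j / X.g i) q = b.1 := fun b =>
    (Algebra.adjoin_range_eq_range_aeval k _).le b.2
  have h4 : ∀ q : MP T k, aeval (fun j => X.g j / X.g i) (rename Subtype.val q) =
      aeval (fun j : T => X.g j / X.g i) q := fun q => by rw [aeval_rename]; rfl
  obtain ⟨Q, hQ⟩ : ∃ Q : Fm X.N k, aeval (fun j => X.g j / X.g i) Q = t := by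
    clear e
    induction ht using Algebra.adjoin_induction with
    | mem a ha => exact ⟨P, ha.symm⟩
    | algebraMap b =>
      obtain ⟨q, hq⟩ := h3 b
      exact ⟨_, (h4 q).trans hq⟩
    | add a b _ _ ha hb =>
      obtain ⟨p, rfl⟩ := ha
      obtain ⟨q, rfl⟩ := hb
      exact ⟨p + q, map_add _ _ _⟩
    | mul a b _ _ ha hb =>
      obtain ⟨p, rfl⟩ := ha
      obtain ⟨q, rfl⟩ := hb
      exact ⟨p * q, map_mul _ _ _⟩
  obtain ⟨q, hq⟩ := h3 r
  have h5 := hx.zr.spec h1 (P := rename Subtype.val q - P * Q)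
    (by rw [map_sub, map_mul, h4, hq, hQ, e]; exact sub_self _)
  rw [map_sub, map_mul, hP, zero_mul, sub_zero, aeval_rename] at h5
  rw [hT.eq_zero_of_aeval_eq_zero q h5, map_zero] at hq
  exact hr0 (Subtype.ext hq.symm)

theorem dim_gen {i : Fin (X.N + 1)} (hg : X.g i ≠ 0) :
    IntermediateField.adjoin k (range fun j => X.g j / X.g i) = ⊤ := by
  obtain ⟨l, hl⟩ := X.one
  rw [eq_top_iff, ← X.gen, IntermediateField.adjoin_le_iff]
  rintro _ ⟨j, rfl⟩
  have e : X.g j = (X.g j / X.g i) / (X.g l / X.g i) := by rw [hl]; field_simp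
  rw [e]
  exact div_mem (IntermediateField.subset_adjoin _ _ ⟨j, rfl⟩)
    (IntermediateField.subset_adjoin _ _ ⟨l, rfl⟩)

/-- A point of rank `n` is generic. -/
theorem Var.On.exists_dom (hn : Algebra.trdeg k X.F = n) (hx : X.On x) {i : Fin (X.N + 1)}
    (h1 : x i = 1) (hr : (n : ℕ∞) ≤ rk k (range x)) : ∃ γ : X.F →+* Ω, X.Dom γ x := by
  have hg : X.g i ≠ 0 := hx.zr.g_ne (h1 ▸ one_ne_zero)
  let π : Fm X.N k →ₐ[k] X.F := aeval fun j => X.g j / X.g i
  have hs : Function.Surjective π.rangeRestrict := π.rangeRestrict_surjective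
  let φ : π.range →ₐ[k] Ω := AlgHom.liftOfSurjective _ hs (aeval x) fun P hP =>
    hx.zr.spec h1 (congrArg Subtype.val hP)
  have hφ : ∀ P, φ (π.rangeRestrict P) = aeval x P := AlgHom.liftOfSurjective_apply _ _ _ _
  have hi : Function.Injective (φ : π.range →+* Ω) := (injective_iff_map_eq_zero _).2 fun a ha => by
    obtain ⟨P, rfl⟩ := hs a
    exact Subtype.ext (dim_ker hn hx h1 hr ((hφ P).symm.trans ha))
  have : IsFractionRing π.range X.F := IsFractionRing.of_field _ _ fun z => by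
    obtain ⟨p, q, e⟩ := (IntermediateField.mem_adjoin_range_iff k _ z).1
      (dim_gen hg ▸ IntermediateField.mem_top)
    exact ⟨π.rangeRestrict p, π.rangeRestrict q, e⟩
  have hγ : ∀ P, IsFractionRing.lift (K := X.F) hi (π P) = aeval x P := fun P =>
    (IsFractionRing.lift_algebraMap hi (π.rangeRestrict P)).trans (hφ P)
  refine ⟨IsFractionRing.lift hi, fun a => ?_, (IsFractionRing.lift hi (X.g i))⁻¹,
    inv_ne_zero ((map_ne_zero _).2 hg), fun j => ?_⟩
  · simpa [π] using hγ (C a)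
  · have h := hγ (MvPolynomial.X j)
    simp only [π, aeval_X, map_div₀] at h
    rw [← h, div_eq_inv_mul]

theorem Var.Dom.smul {γ : X.F →+* Ω} (h : X.Dom γ x) {c : Ω} (hc : c ≠ 0) :
    X.Dom γ (c • x) := by
  obtain ⟨h1, u, hu, h2⟩ := h
  exact ⟨h1, c * u, mul_ne_zero hc hu, fun j => by rw [mul_assoc, ← h2]; rfl⟩

/-- the same for a point of the cone -/
theorem Var.On.exists_dom' (hn : Algebra.trdeg k X.F = n) (hx : X.On x)
    (hr : (n : ℕ∞) + 1 ≤ rk k (range x)) : ∃ γ : X.F →+* Ω, X.Dom γ x := by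
  obtain ⟨i, hi, h1, h2, h3⟩ := dim_norm hx
  obtain ⟨γ, hγ⟩ := h1.exists_dom hn h2
    ((ENat.add_le_add_iff_right ENat.one_ne_top).1 (hr.trans h3))
  have h := hγ.smul hi
  rw [smul_inv_smul₀ hi] at h
  exact ⟨γ, h⟩

theorem Var.Dom.aeval_ne {γ : X.F →+* Ω} (h : X.Dom γ x) {H : Fm X.N k} {m : ℕ}
    (hH : H.IsHomogeneous m) (hg : aeval X.g H ≠ 0) : aeval x H ≠ 0 := by
  obtain ⟨h1, u, hu, h2⟩ := h
  let ψ : X.F →ₐ[k] Ω := ⟨γ, h1⟩
  have e : x = u • fun j => ψ (X.g j) := funext h2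
  rw [e, aeval_smul_hom hH, ← comp_aeval_apply]
  exact mul_ne_zero (pow_ne_zero _ hu) ((map_ne_zero ψ).2 hg)

theorem Var.On.rk_lt (hn : Algebra.trdeg k X.F = n) (hx : X.On x) {i : Fin (X.N + 1)}
    (h1 : x i = 1) {H : Fm X.N k} {m : ℕ} (hH : H.IsHomogeneous m) (hg : aeval X.g H ≠ 0)
    (h0 : aeval x H = 0) : rk k (range x) + 1 ≤ n := by
  refine Order.add_one_le_of_lt (lt_of_not_ge fun hr => ?_)
  obtain ⟨γ, hγ⟩ := hx.exists_dom hn h1 hr
  exact hγ.aeval_ne hH hg h0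

end Pool.Agent.ZCy
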