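import Pool.Agent.Lib.MP_751085_ag.ZC.CBase

/-! Forms with prescribed values and gradients. -/

namespace Pool.Agent.ZCy

open scoped Classical Polynomial
open MvPolynomial

set_option linter.unusedSectionVars false

variable {Ω : Type} [Field Ω] {N d : ℕ}

/-- the linear form with coefficients `u` -/
noncomputable def jet_L (u : Fin (N + 1) → Ω) : Fm N Ω := ∑ j, C (u j) * X j

theorem jet_L_hom (u : Fin (N + 1) → Ω) : (jet_L u).IsHomogeneous 1 :=
  IsHomogeneous.sum _ _ _ fun _ _ => isHomogeneous_C_mul_X _ _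

theorem jet_L_eval (u x : Fin (N + 1) → Ω) : eval x (jet_L u) = u ⬝ᵥ x := by
  simp [jet_L, dotProduct]

theorem jet_L_der (u : Fin (N + 1) → Ω) (i : Fin (N + 1)) : pderiv i (jet_L u) = C (u i) := by
  simp [jet_L, pderiv_X, Pi.single_apply]

theorem jet_vec {x x' : Fin (N + 1) → Ω} (h : ∀ ζ : Ω, x' ≠ ζ • x) :
    ∃ u : Fin (N + 1) → Ω, u ⬝ᵥ x = 0 ∧ u ⬝ᵥ x' = 1 := by
  have hx : x' ∉ Submodule.span Ω {x} := fun hm => by
    obtain ⟨ζ, hζ⟩ := Submodule.mem_span_singleton.1 hm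
    exact h ζ hζ.symm
  obtain ⟨f, hf, hb⟩ := Submodule.exists_dual_map_eq_bot_of_notMem hx inferInstance
  have h0 : f x = 0 := by
    have : f x ∈ (Submodule.span Ω {x}).map f :=
      Submodule.mem_map_of_mem (Submodule.mem_span_singleton_self x)
    rwa [hb, Submodule.mem_bot] at this
  have e : ∀ y : Fin (N + 1) → Ω,
      (fun j => (f x')⁻¹ * f fun i => if j = i then 1 else 0) ⬝ᵥ y = (f x')⁻¹ * f y := fun y => by
    rw [LinearMap.pi_apply_eq_sum_univ f y, Finset.mul_sum, dotProduct]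
    refine Finset.sum_congr rfl fun j _ => ?_
    rw [smul_eq_mul]
    ring
  exact ⟨_, by rw [e, h0, mul_zero], by rw [e, inv_mul_cancel₀ hf]⟩

theorem jet_one {x : Fin (N + 1) → Ω} (hx : x ≠ 0) : ∃ u : Fin (N + 1) → Ω, u ⬝ᵥ x = 1 := by
  obtain ⟨u, -, hu⟩ := jet_vec (x := 0) (x' := x) fun ζ => by rwa [smul_zero]
  exact ⟨u, hu⟩

theorem jet_grad_apply (x : Fin (N + 1) → Ω) (f : Fm N Ω) (i : Fin (N + 1)) :
    grad x f i = eval x (pderiv i f) := by
  rw [grad, aeval_eq_eval]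

/-- a linear form that vanishes at `x` and not at `x'` -/
theorem jet_lin {x x' : Fin (N + 1) → Ω} (h : ∀ ζ : Ω, x' ≠ ζ • x) :
    ∃ m : Fm N Ω, m.IsHomogeneous 1 ∧ eval x m = 0 ∧ eval x' m = 1 := by
  obtain ⟨u, h0, h1⟩ := jet_vec h
  exact ⟨jet_L u, jet_L_hom u, (jet_L_eval u x).trans h0, (jet_L_eval u x').trans h1⟩

/-- one value -/
theorem jet_val {x : Fin (N + 1) → Ω} (hx : x ≠ 0) (d : ℕ) (c : Ω) :
    ∃ f : Fm N Ω, f.IsHomogeneous d ∧ eval x f = c := by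
  obtain ⟨u, hu⟩ := jet_one hx
  refine ⟨C c * jet_L u ^ d, ?_, ?_⟩
  · simpa using (isHomogeneous_C _ c).mul ((jet_L_hom u).pow d)
  · rw [map_mul, map_pow, jet_L_eval, hu, eval_C, one_pow, mul_one]

/-- two values differ -/
theorem jet_sep {x x' : Fin (N + 1) → Ω} (h : ∀ ζ : Ω, x' ≠ ζ • x) (hd : 0 < d) :
    ∃ f : Fm N Ω, f.IsHomogeneous d ∧ eval x f ≠ eval x' f := by
  obtain ⟨m, hm, h0, h1⟩ := jet_lin h
  refine ⟨m ^ d, by simpa using hm.pow d, ?_⟩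
  rw [map_pow, map_pow, h0, h1, zero_pow hd.ne', one_pow]
  exact zero_ne_one

/-- A gradient. -/
theorem jet_grad [CharZero Ω] {x : Fin (N + 1) → Ω} (hx : x ≠ 0) (hd : 0 < d)
    (w : Fin (N + 1) → Ω) : ∃ f : Fm N Ω, f.IsHomogeneous d ∧ grad x f = w := by
  obtain ⟨l, hl⟩ := jet_one hx
  obtain ⟨e, rfl⟩ : ∃ e, d = e + 1 := ⟨d - 1, by omega⟩
  have he : (e : Ω) + 1 ≠ 0 := by exact_mod_cast Nat.succ_ne_zero e
  refine ⟨jet_L l ^ e * jet_L (w - ((e : Ω) / (e + 1) * (w ⬝ᵥ x)) • l), ?_, ?_⟩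
  · simpa using ((jet_L_hom l).pow e).mul (jet_L_hom _)
  · funext i
    rw [jet_grad_apply, Derivation.leibniz, Derivation.leibniz_pow]
    simp only [jet_L_der, smul_eq_mul, nsmul_eq_mul, map_add, map_mul, map_pow, map_natCast,
      jet_L_eval, hl, eval_C, one_pow, sub_dotProduct, smul_dotProduct, Pi.sub_apply,
      Pi.smul_apply]
    field_simp
    ring

/-- A value and one derivative in a direction that is not radial. -/
theorem jet_val_der [CharZero Ω] {x v : Fin (N + 1) → Ω} (hx : x ≠ 0) (hv : ∀ ζ : Ω, v ≠ ζ • x)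
    (hd : 0 < d) (α β : Ω) :
    ∃ f : Fm N Ω, f.IsHomogeneous d ∧ eval x f = α ∧ grad x f ⬝ᵥ v = β := by
  obtain ⟨u, hu0, hu1⟩ := jet_vec hv
  obtain ⟨l, hl⟩ := jet_one hx
  have hd' : (d : Ω) ≠ 0 := by exact_mod_cast hd.ne'
  obtain ⟨f, hf, hg⟩ := jet_grad hx hd
    (((d : Ω) * α) • l + (β - (d : Ω) * α * (l ⬝ᵥ v)) • u)
  refine ⟨f, hf, ?_, ?_⟩
  · have h := grad_dot_self hf x
    rw [hg, aeval_eq_eval] at h
    simp only [add_dotProduct, smul_dotProduct, hl, hu0, smul_eq_mul, mul_one, mul_zero,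
      add_zero] at h
    exact (mul_left_cancel₀ hd' h).symm
  · rw [hg]
    simp only [add_dotProduct, smul_dotProduct, hu1, smul_eq_mul]
    ring

/-- A gradient at `x'` and a value at `x`. -/
theorem jet_grad_val [CharZero Ω] {x x' : Fin (N + 1) → Ω} (hx' : x' ≠ 0) (h : ∀ ζ : Ω, x ≠ ζ • x')
    (hd : 2 ≤ d) (w : Fin (N + 1) → Ω) (c : Ω) :
    ∃ f : Fm N Ω, f.IsHomogeneous d ∧ grad x' f = w ∧ eval x f = c := by
  obtain ⟨f, hf, hg⟩ := jet_grad hx' (d := d) (by omega) w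
  obtain ⟨m, hm, h0, h1⟩ := jet_lin h
  obtain ⟨e, rfl⟩ : ∃ e, d = e + 2 := ⟨d - 2, by omega⟩
  refine ⟨f + C (c - eval x f) * m ^ (e + 2), ?_, ?_, ?_⟩
  · refine hf.add ?_
    simpa using (isHomogeneous_C _ (c - eval x f)).mul (hm.pow (e + 2))
  · funext i
    rw [← hg, jet_grad_apply, jet_grad_apply, map_add, map_add, pderiv_C_mul,
      Derivation.leibniz_pow]
    simp [h0]
  · rw [map_add, map_mul, map_pow, h1, eval_C]
    ring

end Pool.Agent.ZCy
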