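import Pool.Agent.Lib.MP_751085_ag.ZC.CGn
import Pool.Agent.Lib.MP_751085_ag.ZC.CCount
import Pool.Agent.Lib.MP_751085_ag.ZC.CDim
import Pool.Agent.Lib.MP_751085_ag.ZC.CJet

/-! Generic forms have no common zero. -/

namespace Pool.Agent.ZCy

open scoped Classical Polynomial
open MvPolynomial Set

set_option linter.unusedSectionVars false

variable {k : Type} [Field k] {X : Var k} {n : ℕ} {ι : Type} [Fintype ι]

/-- forms with independent coefficients that vanish at `x` -/
theorem cb1_count {Ω : Type} [Field Ω] [Algebra k Ω] {N d r : ℕ} {a : ι × Mon N d → Ω}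
    (ha : AlgebraicIndependent k a) {x : Fin (N + 1) → Ω} (hx : x ≠ 0)
    (h0 : ∀ i, eval₂ (RingHom.id Ω) x (forms a i) = 0) (hr : rk k (range x) ≤ r) :
    Fintype.card ι ≤ r := by
  have e : ∀ (c : ι × Mon N d → Ω) (i : ι), ∑ p : ι × Mon N d,
      c p * (if p.1 = i then eval x (monomial p.2.1 1) else 0) =
        eval₂ (RingHom.id Ω) x (forms c i) := fun c i => by
    rw [forms, eval₂_form, Fintype.sum_prod_type, Finset.sum_eq_single i]
    · simp
    · intro b _ hb
      simp [hb]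
    · simp
  refine count_indep (range x) (fun i p => if p.1 = i then eval x (monomial p.2.1 1) else 0) a
    (fun i p => ?_) (fun i => ?_) (fun w => ?_) ha hr
  · split_ifs
    · have h := aeval_mem_acl (K := k) (fun j => mem_acl_of_mem (mem_range_self (f := x) j))
        (monomial p.2.1 1)
      rw [aeval_monomial, map_one] at h
      rwa [eval_monomial]
    · exact zero_mem _
  · rw [e, h0]
    exact zero_mem _
  · choose f hf hw using fun i => jet_val hx d (w i)
    refine ⟨fun p => coeff p.2.1 (f p.1), fun i => ?_⟩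
    rw [e, forms, form_coeff (hf i)]
    exact hw i

theorem Var.gn_cut (HH : Set (Fm X.N k)) (hH : ∀ H ∈ HH, ∃ m, H.IsHomogeneous m) (r d : ℕ)
    (hr : ∀ (Ω : Type) [Field Ω] [Algebra k Ω] (x : Fin (X.N + 1) → Ω) (i : Fin (X.N + 1)), X.On x →
      x i = 1 → (∀ H ∈ HH, aeval x H = 0) → rk k (range x) + 1 ≤ r) (hι : r ≤ Fintype.card ι) :
    Gn k fun a : ι × Mon X.N d → k => ∀ (Ω : Type) [Field Ω] [Algebra k Ω]
      (x : Fin (X.N + 1) → Ω), X.On x → (∀ H ∈ HH, aeval x H = 0) →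
        ∃ i, aeval x (forms a i) ≠ 0 := by
  let U : ι → MP ((ι × Mon X.N d) ⊕ Fin (X.N + 1)) k := fun i =>
    ∑ m : Mon X.N d, MvPolynomial.X (Sum.inl (i, m)) * rename Sum.inr (monomial m.1 1)
  have e1 : ∀ (Ω : Type) [Field Ω] [Algebra k Ω] (a : ι × Mon X.N d → Ω) (z : Fin (X.N + 1) → Ω)
      (G : Fm X.N k), aeval (Sum.elim a z) (rename Sum.inr G) = aeval z G := fun Ω _ _ a z G => by
    rw [aeval_rename, Sum.elim_comp_inr]
  have e2 : ∀ (Ω : Type) [Field Ω] [Algebra k Ω] (a : ι × Mon X.N d → Ω) (z : Fin (X.N + 1) → Ω)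
      (i : ι), aeval (Sum.elim a z) (U i) = eval₂ (RingHom.id Ω) z (forms a i) := by
    intro Ω _ _ a z i
    rw [forms, eval₂_form, map_sum]
    refine Finset.sum_congr rfl fun m _ => ?_
    rw [map_mul, e1, aeval_X, aeval_monomial, map_one, eval_monomial]
    rfl
  have key : ∀ j : Fin (X.N + 1), Gn k fun a : ι × Mon X.N d → k => ∀ (Ω : Type) [Field Ω]
      [Algebra k Ω] (x : Fin (X.N + 1) → Ω), X.On x → (∀ H ∈ HH, aeval x H = 0) →
        (∀ i, aeval x (forms a i) = 0) → x j = 0 := by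
    intro j
    obtain ⟨q, hq, h⟩ := generic (rename Sum.inr '' (X.I ∪ HH) ∪ range U)
      (MvPolynomial.X (Sum.inr j)) (fun Ω _ _ a z ha hE => by
        rw [aeval_X, Sum.elim_inr]
        by_contra hz
        have h1 : X.On z := ⟨fun h => hz (congrFun h j), fun G hG =>
          (e1 Ω a z G).symm.trans (hE _ (Or.inl ⟨G, Or.inl hG, rfl⟩))⟩
        have h2 := h1.smul (inv_ne_zero hz)
        have h3 := hr Ω _ j h2 (inv_mul_cancel₀ hz) fun H hH' => by
          obtain ⟨m, hm⟩ := hH H hH'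
          rw [aeval_smul_hom hm, ← e1 Ω a z, hE _ (Or.inl ⟨H, Or.inr hH', rfl⟩), mul_zero]
        cases r with
        | zero => simp at h3
        | succ r =>
          rw [Nat.cast_succ, ENat.add_le_add_iff_right ENat.one_ne_top] at h3
          have h4 := cb1_count ha h2.1 (fun i => by
            rw [eval₂_smul_hom (forms_hom a i), ← e2, hE _ (Or.inr ⟨i, rfl⟩), mul_zero]) h3
          omega)
    refine ⟨q, hq, fun a ha Ω _ _ x hx h1 h2 => ?_⟩
    have h3 := h Ω (algebraMap k Ω ∘ a) x (by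
      rw [aeval_algebraMap_apply, map_ne_zero]
      exact ha) (by
      rintro _ (⟨G, hG | hG, rfl⟩ | ⟨i, rfl⟩)
      · rw [e1, hx.2 G hG]
      · rw [e1, h1 G hG]
      · rw [e2, ← h2 i, aeval_def, ← RingHom.id_comp (algebraMap k Ω), ← eval₂_map, map_forms]
        rfl)
    rwa [aeval_X, Sum.elim_inr] at h3
  refine (Gn.all key).mono fun a ha Ω _ _ x hx h1 => ?_
  by_contra hn
  exact hx.1 (funext fun j => ha j Ω x hx h1 fun i => not_not.1 fun h => hn ⟨i, h⟩)

theorem Var.gn_b1 (hn : Algebra.trdeg k X.F = n) (hι : Fintype.card ι = n + 1) (d : ℕ) :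
    Gn k fun a : ι × Mon X.N d → k => X.B1 (forms a) :=
  (Var.gn_cut (X := X) ∅ (fun _ h => h.elim) (n + 1) d (fun _ _ _ _ _ hx h1 _ => by
    rw [Nat.cast_succ]
    exact add_le_add_left (hx.rk_le hn h1) 1) hι.ge).mono
      fun _ ha Ω _ _ x hx => ha Ω x hx fun _ h => h.elim

/-- one prescribed form -/
theorem Var.gn_b1_opt (hn : Algebra.trdeg k X.F = n) (hι : Fintype.card ι = n) {H : Fm X.N k}
    {m : ℕ} (hH : H.IsHomogeneous m) (hg : aeval X.g H ≠ 0) (d : ℕ) :
    Gn k fun a : ι × Mon X.N d → k => X.B1 fun i : Option ι => i.elim H (forms a) := by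
  refine (Var.gn_cut (X := X) {H} (fun _ h => ⟨m, h ▸ hH⟩) n d
    (fun _ _ _ _ _ hx h1 h => hx.rk_lt hn h1 hH hg (h H rfl)) hι.ge).mono
      fun a ha Ω _ _ x hx => ?_
  by_cases h : aeval x H = 0
  · obtain ⟨i, hi⟩ := ha Ω x hx fun _ h' => h' ▸ h
    exact ⟨some i, hi⟩
  · exact ⟨none, h⟩

end Pool.Agent.ZCy
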