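import Pool.Agent.Lib.MP_751085_ag.ZC.CBase

/-! Uniqueness of lifts, extension of points. -/

namespace Pool.Agent.ZCy

open scoped Classical Polynomial
open MvPolynomial

set_option linter.unusedSectionVars false

/-- divided differences (induction on `P`) -/
theorem exists_div_diff {k B Λ ζ : Type} [CommRing k] [CommRing B] [Algebra k B] [CommRing Λ]
    [Algebra k Λ] [Fintype ζ] (ψ : B →ₐ[k] Λ) (z z' : ζ → B) (hψ : ∀ j, ψ (z j) = ψ (z' j))
    (P : MP ζ k) : ∃ Q : ζ → B, aeval z' P - aeval z P = ∑ j, Q j * (z' j - z j) ∧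
      ∀ j, ψ (Q j) = grad (fun i => ψ (z i)) P j := by
  induction P using MvPolynomial.induction_on with
  | C a => exact ⟨0, by simp, fun j => by simp [grad]⟩
  | add p q hp hq =>
    obtain ⟨Q, h1, h2⟩ := hp
    obtain ⟨Q', h3, h4⟩ := hq
    refine ⟨Q + Q', ?_, fun j => ?_⟩
    · simp only [Pi.add_apply, add_mul, Finset.sum_add_distrib, ← h1, ← h3, map_add]
      ring
    · simp only [Pi.add_apply, map_add, h2, h4, grad]
  | mul_X p i hp =>
    obtain ⟨Q, h1, h2⟩ := hp
    refine ⟨fun j => Q j * z' i + if j = i then aeval z p else 0, ?_, fun j => ?_⟩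
    · simp only [add_mul, Finset.sum_add_distrib, ite_mul, zero_mul, Finset.sum_ite_eq',
        Finset.mem_univ, if_true, mul_right_comm _ (z' i), ← Finset.sum_mul, ← h1, map_mul, aeval_X]
      ring
    · have h5 : ψ (aeval z p) = aeval (fun i => ψ (z i)) p := by
        rw [← AlgHom.comp_apply, comp_aeval]
      simp only [map_add, map_mul, h2, ← hψ, grad, Derivation.leibniz, pderiv_X, smul_eq_mul,
        aeval_X, Pi.single_apply, apply_ite ψ, h5, map_zero,
        apply_ite (aeval fun i => ψ (z i) : MP ζ k →ₐ[k] Λ), map_one, eq_comm (a := j)]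
      split_ifs <;> ring

theorem cnu_functional {κ : Type} [Field κ] {m : ℕ} {T : Submodule κ (Fin m → κ)} (hT : T ≠ ⊤) :
    ∃ w : Fin m → κ, w ≠ 0 ∧ ∀ x ∈ T, x ⬝ᵥ w = 0 := by
  obtain ⟨f, hf, hle⟩ := Submodule.exists_le_ker_of_lt_top T hT.lt_top
  have key : ∀ x : Fin m → κ, (x ⬝ᵥ fun a => f fun j => if a = j then 1 else 0) = f x := fun x => by
    rw [LinearMap.pi_apply_eq_sum_univ f x]
    rfl
  refine ⟨fun a => f fun j => if a = j then 1 else 0, fun h0 => hf (LinearMap.ext fun x => ?_),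
    fun x hx => by rw [key]; exact hle hx⟩
  rw [← key, LinearMap.zero_apply, h0, dotProduct_zero]

theorem cnu_minor {κ ι : Type} [Field κ] {m : ℕ} (u : ι → Fin m → κ)
    (h : ∀ w : Fin m → κ, (∀ i, u i ⬝ᵥ w = 0) → w = 0) :
    ∃ a : Fin m → ι, (Matrix.of fun k => u (a k)).det ≠ 0 := by
  have htop : Submodule.span κ (Set.range u) = ⊤ := by
    by_contra hT
    obtain ⟨w, hw, hw'⟩ := cnu_functional hT
    exact hw (h w fun i => hw' _ (Submodule.subset_span ⟨i, rfl⟩))
  have hr : Module.finrank κ (Submodule.span κ (Set.range u)) = m := by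
    rw [htop, finrank_top, Module.finrank_fin_fun]
  obtain ⟨f, hf, -, hli⟩ := Submodule.exists_fun_fin_finrank_span_eq κ (Set.range u)
  choose a ha using hf
  refine ⟨fun k => a (Fin.cast hr.symm k), ?_⟩
  have h1 : LinearIndependent κ (Matrix.of fun k => u (a (Fin.cast hr.symm k))).row := by
    have h2 := hli.comp (Fin.cast hr.symm) (Fin.cast_injective _)
    have h3 : (Matrix.of fun k => u (a (Fin.cast hr.symm k))).row = f ∘ Fin.cast hr.symm :=
      funext fun k => ha _
    rw [h3]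
    exact h2
  exact ((Matrix.isUnit_iff_isUnit_det _).1 (Matrix.linearIndependent_rows_iff_isUnit.1 h1)).ne_zero

/-- The matrix of divided differences of `m` suitable polynomials kills `z' - z` and its
determinant has nonzero image. -/
theorem newton_unique {k B Λ : Type} [CommRing k] [CommRing B] [IsDomain B] [Algebra k B] [Field Λ]
    [Algebra k Λ] {m : ℕ} (ψ : B →ₐ[k] Λ) (PP : Set (MP (Fin m) k)) (z z' : Fin m → B)
    (h : ∀ P ∈ PP, aeval z P = aeval z' P) (hψ : ∀ j, ψ (z j) = ψ (z' j))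
    (het : ∀ v : Fin m → Λ, (∀ P ∈ PP, grad (fun i => ψ (z i)) P ⬝ᵥ v = 0) → v = 0) :
    z = z' := by
  obtain ⟨a, ha⟩ := cnu_minor (fun P : PP => grad (fun i => ψ (z i)) P.1)
    fun w hw => het w fun P hP => hw ⟨P, hP⟩
  choose Q h1 h2 using fun l => exists_div_diff ψ z z' hψ (a l).1
  have hd : (Matrix.of Q).det ≠ 0 := fun h0 => ha (by
    have : (Matrix.of fun l => grad (fun i => ψ (z i)) (a l).1) =
        (ψ : B →+* Λ).mapMatrix (Matrix.of Q) := Matrix.ext fun l j => (h2 l j).symm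
    rw [this, ← RingHom.map_det, h0, map_zero])
  refine (sub_eq_zero.1 (Matrix.eq_zero_of_mulVec_eq_zero hd (funext fun l => ?_))).symm
  exact (h1 l).symm.trans (sub_eq_zero.2 (h _ (a l).2).symm)

/-- A point with values in an algebraically closed field extends to an integral extension. -/
theorem exists_ext_int {A B Λ : Type} [CommRing A] [CommRing B] [Algebra A B]
    [Algebra.IsIntegral A B] (hinj : Function.Injective (algebraMap A B)) [Field Λ] [IsAlgClosed Λ]
    (φ : A →+* Λ) : ∃ ψ : B →+* Λ, ∀ a, ψ (algebraMap A B a) = φ a := by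
  have := RingHom.ker_isPrime φ
  obtain ⟨Q, -, hQ, hQc⟩ := Ideal.exists_ideal_over_prime_of_isIntegral (RingHom.ker φ)
    (⊥ : Ideal B) (((RingHom.injective_iff_ker_eq_bot _).1 hinj).le.trans bot_le)
  have : (Q.comap (algebraMap A B)).IsPrime := hQc ▸ RingHom.ker_isPrime φ
  let χ : A ⧸ Q.comap (algebraMap A B) →+* Λ :=
    Ideal.Quotient.lift _ φ fun a ha => by rw [hQc] at ha; exact ha
  have hχ : Function.Injective χ := by
    rw [injective_iff_map_eq_zero]
    intro a ha
    obtain ⟨a, rfl⟩ := Ideal.Quotient.mk_surjective a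
    rw [Ideal.Quotient.eq_zero_iff_mem, hQc]
    exact ha
  let := χ.toAlgebra
  have : Module.IsTorsionFree (A ⧸ Q.comap (algebraMap A B)) Λ :=
    Module.isTorsionFree_iff_algebraMap_injective.2 hχ
  have : Module.IsTorsionFree (A ⧸ Q.comap (algebraMap A B)) (B ⧸ Q) :=
    Module.isTorsionFree_iff_algebraMap_injective.2 Ideal.quotientMap_injective
  let l : (B ⧸ Q) →ₐ[A ⧸ Q.comap (algebraMap A B)] Λ := IsAlgClosed.lift
  exact ⟨(l : (B ⧸ Q) →+* Λ).comp (Ideal.Quotient.mk Q),
    fun r => l.commutes (Ideal.Quotient.mk _ r)⟩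

end Pool.Agent.ZCy
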