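import Pool.Agent.Lib.MP_751085_ag.ZC.CLift
import Pool.Agent.Lib.MP_751085_ag.ZC.CNu

/-! A cover is unramified over a point with a good fibre. -/

namespace Pool.Agent.ZCy

open scoped Classical Polynomial
open MvPolynomial

set_option linter.unusedSectionVars false

variable {k : Type} [Field k] {X : Var k} {ι : Type} (c : Cover X ι) {Λ : Type} [Field Λ]
  [Algebra k Λ] [IsAlgClosed Λ]

theorem et_core {B Ω : Type} [CommRing B] [IsDomain B] [Algebra k B] [Field Ω] [IsAlgClosed Ω]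
    [Algebra k Ω] [Algebra B Ω] [IsScalarTower k B Ω] (hinj : Function.Injective (algebraMap B Ω))
    (hcl : ∀ w : Ω, IsIntegral B w → ∃ b, algebraMap B Ω b = w) (t : ι → B) (ψ : B →ₐ[k] Λ)
    (σ : Λ →+* B) (hσ : ∀ a, ψ (σ a) = a) (hD : aeval (fun i => algebraMap B Ω (t i)) c.D ≠ 0)
    {y : ι → Λ} (ht : ∀ i, ψ (t i) = y i) (hy : y ≠ 0) (het : X.Et c.f y)
    (hsep : X.Sep c.f c.th y) (hl : ∀ x ∈ X.Fib c.f y, aeval x c.l ≠ 0) : aeval y c.D ≠ 0 := by
  have hj : ∀ (x : Fin (X.N + 1) → B) (G : Fm X.N k),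
      aeval (fun j => algebraMap B Ω (x j)) G = algebraMap B Ω (aeval x G) := fun x G =>
    (comp_aeval_apply x (IsScalarTower.toAlgHom k B Ω) G).symm
  have hm : (c.χ.map (eval₂Hom (algebraMap k B) t)).Monic := c.monic.map _
  have e1 : (c.χ.map (eval₂Hom (algebraMap k B) t)).map (algebraMap B Ω) =
      c.χ.map (eval₂Hom (algebraMap k Ω) fun i => algebraMap B Ω (t i)) := by
    rw [Polynomial.map_map, comp_eval₂Hom, ← IsScalarTower.algebraMap_eq]
  have e2 : (c.χ.map (eval₂Hom (algebraMap k B) t)).map (ψ : B →+* Λ) =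
      c.χ.map (eval₂Hom (algebraMap k Λ) y) := by
    rw [Polynomial.map_map, comp_eval₂Hom, AlgHom.comp_algebraMap]
    exact congrArg (fun u => c.χ.map (eval₂Hom (algebraMap k Λ) u)) (funext ht)
  have hs := c.separable hD
  rw [← e1] at hs
  have K : ∀ b : B, ev (algebraMap k Ω) (fun i => algebraMap B Ω (t i)) (algebraMap B Ω b) c.χ = 0 →
      ∃ x : Fin (X.N + 1) → B, X.Zr x ∧ (∀ i, aeval x (c.f i) = t i) ∧ aeval x c.th = b := by
    intro b hb
    obtain ⟨x', ⟨h1, h2⟩, h3⟩ := c.lift hb hD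
    choose x hx using fun j => hcl _ (c.int.isIntegral_pt c.dpos h1.zr t h2 j)
    obtain rfl : (fun j => algebraMap B Ω (x j)) = x' := funext hx
    exact ⟨x, fun G hG => hinj (by rw [← hj, map_zero]; exact h1.2 G hG),
      fun i => hinj (by rw [← hj, h2]), hinj (by rw [← hj, h3])⟩
  have F : ∀ x : Fin (X.N + 1) → B, X.Zr x → (∀ i, aeval x (c.f i) = t i) →
      (fun j => ψ (x j)) ∈ X.Fib c.f y := by
    intro x h1 h2
    have h3 : ∀ i, aeval (fun j => ψ (x j)) (c.f i) = y i := fun i => by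
      rw [← comp_aeval_apply, h2, ht]
    refine ⟨⟨fun h0 => hy (funext fun i => ?_), h1.map ψ⟩, h3⟩
    rw [← h3, h0, ← zero_smul Λ (0 : Fin (X.N + 1) → Λ), aeval_smul_hom (c.hf i),
      zero_pow c.dpos.ne', zero_mul, Pi.zero_apply]
  obtain ⟨s, hs'⟩ : ∃ s : Multiset B, s.map (algebraMap B Ω) =
      ((c.χ.map (eval₂Hom (algebraMap k B) t)).map (algebraMap B Ω)).roots := by
    refine ⟨Multiset.map (Function.invFun (algebraMap B Ω))
      ((c.χ.map (eval₂Hom (algebraMap k B) t)).map (algebraMap B Ω)).roots, ?_⟩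
    rw [Multiset.map_map]
    refine (Multiset.map_congr rfl fun w hw => Function.invFun_eq (hcl w ⟨_, hm, ?_⟩)).trans
      (Multiset.map_id _)
    rw [Polynomial.eval₂_eq_eval_map]
    exact (Polynomial.mem_roots (hm.map _).ne_zero).1 hw
  have K' : ∀ b ∈ s, ∃ x : Fin (X.N + 1) → B, X.Zr x ∧ (∀ i, aeval x (c.f i) = t i) ∧
      aeval x c.th = b := fun b hb => K b (by
    rw [ev_eq_eval, ← e1]
    exact (Polynomial.mem_roots (hm.map _).ne_zero).1 (hs' ▸ Multiset.mem_map_of_mem _ hb))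
  have e3 : c.χ.map (eval₂Hom (algebraMap k B) t) =
      (s.map fun b => Polynomial.X - Polynomial.C b).prod := by
    refine Polynomial.map_injective _ hinj ?_
    rw [(IsAlgClosed.splits _).eq_prod_roots_of_monic (hm.map (algebraMap B Ω)), ← hs',
      Polynomial.map_multiset_prod, Multiset.map_map, Multiset.map_map]
    simp
  have e4 : (c.χ.map (eval₂Hom (algebraMap k Λ) y)).roots = s.map ψ := by
    rw [← e2, e3, ← Polynomial.roots_multiset_prod_X_sub_C (s.map ψ),
      Polynomial.map_multiset_prod, Multiset.map_map, Multiset.map_map]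
    simp
  have n1 : (s.map ψ).Nodup := by
    refine Multiset.Nodup.map_on (fun b hb b' hb' e => ?_)
      (Multiset.Nodup.of_map _ (hs' ▸ Polynomial.nodup_roots hs))
    obtain ⟨x, h1, h2, rfl⟩ := K' b hb
    obtain ⟨x', h1', h2', rfl⟩ := K' b' hb'
    obtain ⟨ζ, hζ⟩ := hsep _ (F x h1 h2) _ (F x' h1' h2') (by
      rw [← comp_aeval_apply, ← comp_aeval_apply, e])
    obtain ⟨i, hi⟩ := Function.ne_iff.1 hy
    have h3 := (F x' h1' h2').2 i
    rw [hζ, aeval_smul_hom (c.hf i), (F x h1 h2).2 i] at h3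
    have h4 : σ ζ ^ c.d = 1 := by rw [← map_pow, (mul_eq_right₀ hi).1 h3, map_one]
    have h5 : x' = σ ζ • x := by
      refine newton_unique ψ (X.I ∪ Set.range c.f) x' _ ?_ (fun j => ?_) fun v hv =>
        het _ (F x' h1' h2') v (fun G hG => hv G (Or.inl hG)) fun i => hv _ (Or.inr ⟨i, rfl⟩)
      · rintro P (hP | ⟨i, rfl⟩)
        · rw [h1' P hP, h1.smul _ P hP]
        · rw [aeval_smul_hom (c.hf i), h4, one_mul, h2, h2']
      · rw [Pi.smul_apply, smul_eq_mul, map_mul, hσ]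
        exact congrFun hζ j
    rw [h5, aeval_smul_hom c.hth, h4, one_mul]
  have hm' : (c.χ.map (eval₂Hom (algebraMap k Λ) y)).Monic := c.monic.map _
  have n2 := (Polynomial.nodup_roots_iff_of_splits hm'.ne_zero (IsAlgClosed.splits _)).1 (e4 ▸ n1)
  refine c.tight Λ y fun z hz => ?_
  rw [ev_eq_eval] at hz
  have h0 : ev (algebraMap k Λ) y z (Polynomial.derivative c.χ) ≠ 0 := by
    rw [ev_derivative]
    exact n2.eval₂_derivative_ne_zero (RingHom.id Λ) hz
  obtain ⟨b, hb, rfl⟩ := Multiset.mem_map.1 (e4 ▸ (Polynomial.mem_roots hm'.ne_zero).2 hz)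
  obtain ⟨x, h1, h2, rfl⟩ := K' b hb
  have h3 := F x h1 h2
  have h4 := c.fro Λ _ h3.1.zr
  rw [funext h3.2, ← comp_aeval_apply] at h4
  rw [map_mul, ev_sb, funext h4]
  exact mul_ne_zero h0 ((eval₂_smul_hom c.hl _ _ _).trans_ne (mul_ne_zero
    (pow_ne_zero _ (mul_ne_zero h0 (pow_ne_zero _ (hl _ h3)))) (hl _ h3)))

/-- `A = MP ι Λ`, `Ω` the algebraic closure of `RF ι Λ`, `T i` the image of `X i`,
`B = integralClosure A Ω`, `ψ : B → Λ` over `eval y` (`exists_ext_int`). `D(T) ≠ 0`, so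
`χ(T, ·)` has distinct roots (`separable`); they lie in `B`. For a root `z`, `lift` gives
`x ∈ X.Fib c.f T` with coordinates in `B` (`isIntegral_pt`); `ψ x ∈ X.Fib c.f y` (`y ≠ 0`, `dpos`).
If `ψ z = ψ z'` then `ψ x' = ζ • ψ x`, `ζ ^ d = 1`; `newton_unique` for `x'` and `ζ • x` with
`PP = X.I ∪ range c.f` gives `x' = ζ • x`, `z' = z`. So `χ(y, ·)` is the product of the `X - ψ z`
with distinct `ψ z`: every root is simple and equals `th (ψ x)`; `fro` gives
`l(pp) = χ' * l (ψ x) ^ d ≠ 0`; `tight`. -/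
theorem Cover.D_ne_of_et {y : ι → Λ} (hy : y ≠ 0) (het : X.Et c.f y) (hsep : X.Sep c.f c.th y)
    (hl : ∀ x ∈ X.Fib c.f y, aeval x c.l ≠ 0) : aeval y c.D ≠ 0 := by
  have hA : Function.Injective
      (algebraMap (MP ι Λ) (AlgebraicClosure (FractionRing (MP ι Λ)))) :=
    (algebraMap (FractionRing (MP ι Λ)) (AlgebraicClosure (FractionRing (MP ι Λ)))).injective.comp
      (IsFractionRing.injective (MP ι Λ) (FractionRing (MP ι Λ)))
  obtain ⟨ψ, hψ⟩ := exists_ext_int (A := MP ι Λ)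
    (B := integralClosure (MP ι Λ) (AlgebraicClosure (FractionRing (MP ι Λ))))
    (fun a b e => hA (congrArg Subtype.val e)) (eval y)
  have e : ∀ p : MP ι k, aeval (MvPolynomial.X : ι → MP ι Λ) p = map (algebraMap k Λ) p :=
    fun p => by induction p using MvPolynomial.induction_on <;> simp [*]
  refine et_core c (Ω := AlgebraicClosure (FractionRing (MP ι Λ))) Subtype.val_injective
    (fun w hw => ⟨⟨w, isIntegral_trans w hw⟩, rfl⟩)
    (fun i => algebraMap (MP ι Λ) _ (MvPolynomial.X i))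
    ⟨ψ, fun a => (hψ (C (algebraMap k Λ a))).trans (eval_C _)⟩
    ((algebraMap (MP ι Λ) _).comp C) (fun a => (hψ (C a)).trans (eval_C _)) (fun h0 => ?_)
    (fun i => (hψ _).trans (eval_X _)) hy het hsep hl
  have h1 := (comp_aeval_apply (MvPolynomial.X : ι → MP ι Λ) (IsScalarTower.toAlgHom k (MP ι Λ)
    (AlgebraicClosure (FractionRing (MP ι Λ)))) c.D).trans h0
  rw [e] at h1
  exact c.D_ne (map_injective _ (algebraMap k Λ).injective
    ((hA (h1.trans (map_zero _).symm)).trans (map_zero _).symm))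

end Pool.Agent.ZCy
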