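import Pool.Agent.Lib.MP_751085_ag.ZC.CHat

/-! Forms without common zero give a finite projection. -/

namespace Pool.Agent.ZCy

open scoped Classical Polynomial
open MvPolynomial

set_option linter.unusedSectionVars false

variable {k : Type} [Field k] {X : Var k} {ι : Type} {f : ι → Fm X.N k} {d : ℕ}

theorem Var.B1.pow_mem (h : X.B1 f) (j : Fin (X.N + 1)) :
    ∃ M : ℕ, (MvPolynomial.X j : Fm X.N k) ^ M ∈ Ideal.span (X.I ∪ Set.range f) := by
  by_contra hc
  have h1 : (MvPolynomial.X j : Fm X.N k) ∉ (Ideal.span (X.I ∪ Set.range f)).radical := hc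
  rw [Ideal.radical_eq_sInf, Ideal.mem_sInf] at h1
  push Not at h1
  obtain ⟨p, ⟨hp, hpr⟩, hj⟩ := h1
  let ψ : Fm X.N k →ₐ[k] FractionRing (Fm X.N k ⧸ p) :=
    (IsScalarTower.toAlgHom k (Fm X.N k ⧸ p) _).comp (Ideal.Quotient.mkₐ k p)
  have hψ : ∀ P, ψ P = 0 ↔ P ∈ p := fun P =>
    (map_eq_zero_iff (algebraMap (Fm X.N k ⧸ p) (FractionRing (Fm X.N k ⧸ p)))
      (IsFractionRing.injective _ _)).trans Ideal.Quotient.eq_zero_iff_mem
  have e : (aeval fun i => ψ (MvPolynomial.X i)) = ψ := algHom_ext fun i => aeval_X _ _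
  obtain ⟨i, hi⟩ := h _ (fun i => ψ (MvPolynomial.X i))
    ⟨fun e0 => hj ((hψ _).1 (congrFun e0 j)), fun G hG => by
      rw [e, hψ]
      exact hp (Ideal.subset_span (Or.inl hG))⟩
  rw [e] at hi
  exact hi ((hψ _).2 (hp (Ideal.subset_span (Or.inr ⟨i, rfl⟩))))

theorem int_comp (hf : ∀ i, (f i).IsHomogeneous d) (hd : 0 < d)
    (W : Submodule (MP ι k) (X.Hat f)) (r : ℕ)
    (ih : ∀ m < r, ∀ P : Fm X.N k, P.IsHomogeneous m → X.cone f P ∈ W) {Q : Fm X.N k}
    (hQ : Q ∈ Ideal.span (X.I ∪ Set.range f)) (H : Fm X.N k) :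
    X.cone f (homogeneousComponent r (H * Q)) ∈ W := by
  induction hQ using Submodule.span_induction generalizing H with
  | mem Q hQ =>
    rcases hQ with hQ | ⟨i, rfl⟩
    · have h0 : X.cone f (H * Q) = 0 := by
        rw [map_mul, ← X.aeval_gh f Q, X.zr_gh f Q hQ, mul_zero]
      rw [X.cone_comp f h0]
      exact zero_mem _
    · rw [← sum_homogeneousComponent H, Finset.sum_mul, map_sum, map_sum]
      refine sum_mem fun m _ => ?_
      rw [homogeneousComponent_of_mem ((homogeneousComponent_isHomogeneous m H).mul (hf i))]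
      split_ifs with hr
      · have e : X.cone f (homogeneousComponent m H * f i) =
            (MvPolynomial.X i : MP ι k) • X.cone f (homogeneousComponent m H) := by
          rw [Algebra.smul_def, X.hat_alg, aeval_X, map_mul, mul_comm]
        rw [e]
        exact W.smul_mem _ (ih m (by omega) _ (homogeneousComponent_isHomogeneous m H))
      · rw [map_zero]
        exact zero_mem _
  | zero =>
    rw [mul_zero, map_zero, map_zero]
    exact zero_mem _
  | add a b _ _ ha hb =>
    rw [mul_add, map_add, map_add]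
    exact add_mem (ha H) (hb H)
  | smul a b _ hb =>
    rw [smul_eq_mul, ← mul_assoc]
    exact hb _

theorem Var.B1.isIntegral (h : X.B1 f) (hf : ∀ i, (f i).IsHomogeneous d) (hd : 0 < d)
    (P : Fm X.N k) : IsIntegral (MP ι k) (X.cone f P) := by
  choose M hM using h.pow_mem
  let g : ((j : Fin (X.N + 1)) → Fin (M j)) → X.Hat f := fun a =>
    X.cone f (monomial (Finsupp.equivFunOnFinite.symm fun j => (a j : ℕ)) 1)
  let W : Submodule (MP ι k) (X.Hat f) := Submodule.span _ (Set.range g)
  have key : ∀ (r : ℕ) (P : Fm X.N k), P.IsHomogeneous r → X.cone f P ∈ W := by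
    intro r
    induction r using Nat.strong_induction_on with
    | _ r ih =>
      intro P hP
      rw [P.as_sum, map_sum]
      refine sum_mem fun α hα => ?_
      have hm : (monomial α (coeff α P) : Fm X.N k).IsHomogeneous r :=
        isHomogeneous_monomial _ (by
          by_contra hne
          exact mem_support_iff.1 hα (hP.coeff_eq_zero hne))
      by_cases hlt : ∀ j, α j < M j
      · have e : (monomial α (coeff α P) : Fm X.N k) = coeff α P • monomial α 1 := by
          rw [smul_monomial, smul_eq_mul, mul_one]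
        rw [e, map_smul]
        refine W.smul_of_tower_mem _ (Submodule.subset_span ⟨fun j => ⟨α j, hlt j⟩, ?_⟩)
        have e2 : (Finsupp.equivFunOnFinite.symm fun j => α j) = α :=
          Finsupp.equivFunOnFinite_symm_coe α
        simp only [g, e2]
      · push Not at hlt
        obtain ⟨j, hj⟩ := hlt
        have e : (monomial α (coeff α P) : Fm X.N k) =
            monomial (α - Finsupp.single j (M j)) (coeff α P) * MvPolynomial.X j ^ M j := by
          rw [X_pow_eq_monomial, monomial_mul, mul_one,
            tsub_add_cancel_of_le (Finsupp.single_le_iff.2 hj)]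
        rw [← homogeneousComponent_eq_self hm, e]
        exact int_comp hf hd W r ih (hM j) _
  have all : ∀ P : Fm X.N k, X.cone f P ∈ W := fun P => by
    rw [← sum_homogeneousComponent P, map_sum]
    exact sum_mem fun m _ => key m _ (homogeneousComponent_isHomogeneous m P)
  refine isIntegral_of_smul_mem_submodule W (fun e => ?_)
    (Submodule.fg_span (Set.finite_range g)) _ fun n hn => ?_
  · have h1 := all 1
    rw [e, map_one, Submodule.mem_bot] at h1
    exact one_ne_zero h1
  · induction hn using Submodule.span_induction with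
    | mem _ hn =>
      obtain ⟨a, rfl⟩ := hn
      rw [smul_eq_mul, ← map_mul]
      exact all _
    | zero =>
      rw [smul_zero]
      exact zero_mem _
    | add a b _ _ ha hb =>
      rw [smul_add]
      exact add_mem ha hb
    | smul a b _ hb =>
      rw [smul_eq_mul, mul_smul_comm]
      exact W.smul_mem _ hb

theorem Var.B1.int (h : X.B1 f) (hf : ∀ i, (f i).IsHomogeneous d) (hd : 0 < d) : X.Int d f := by
  intro j
  obtain ⟨p, hp, hp0⟩ := h.isIntegral hf hd (MvPolynomial.X j ^ d)
  obtain ⟨h1, h2⟩ := Monic_whc hp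
  refine ⟨whc p.natDegree p, h1, by rw [h2]; exact wh_whc _ _, fun S _ _ x hx => ?_⟩
  have h3 := hx.ev_eq (Var.extract (H := 0) hd hf (isHomogeneous_X_pow j d)
    (isHomogeneous_zero _ _ (d * p.natDegree)) (hp0.trans (map_zero _).symm))
  rwa [map_pow, aeval_X, map_zero] at h3

end Pool.Agent.ZCy
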