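import Pool.Agent.Lib.MP_751085_ag.ZC.CDefs

/-! Images of charts under ring homomorphisms and restriction to the hyperplane `ξ_1 = 0`. -/

namespace Pool.Agent.ZCy

open scoped Classical Polynomial
open MvPolynomial

set_option linter.unusedSectionVars false

section basic

variable {R S T : Type} [CommRing R] [CommRing S] [CommRing T] {σ ι ι' : Type} {N : ℕ}

@[simp] theorem ev_C (φ : R →+* S) (ξ : ι → S) (θ : S) (p : MP ι R) :
    ev φ ξ θ (Polynomial.C p) = eval₂ φ ξ p := by simp [ev]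

@[simp] theorem ev_X (φ : R →+* S) (ξ : ι → S) (θ : S) : ev φ ξ θ Polynomial.X = θ := by simp [ev]

theorem ev_def (φ : R →+* S) (ξ : ι → S) (θ : S) (p : (MP ι R)[X]) :
    ev φ ξ θ p = Polynomial.eval₂ (eval₂Hom φ ξ) θ p := rfl

theorem ev_eq_eval (φ : R →+* S) (ξ : ι → S) (θ : S) (p : (MP ι R)[X]) :
    ev φ ξ θ p = (p.map (eval₂Hom φ ξ)).eval θ := Polynomial.eval₂_eq_eval_map _

theorem map_ev (ψ : S →+* T) (φ : R →+* S) (ξ : ι → S) (θ : S) (p : (MP ι R)[X]) :
    ψ (ev φ ξ θ p) = ev (ψ.comp φ) (fun i => ψ (ξ i)) (ψ θ) p := by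
  rw [ev_def, ev_def, Polynomial.hom_eval₂, comp_eval₂Hom]

/-- evaluation after a substitution in the coefficients -/
theorem ev_map (ψ : S →+* T) (ξ : ι' → T) (θ : T) (h : MP ι R →+* MP ι' S) (p : (MP ι R)[X]) :
    ev ψ ξ θ (p.map h) = ev (((eval₂Hom ψ ξ).comp h).comp C) (fun i => eval₂ ψ ξ (h (X i))) θ p := by
  rw [ev_def, ev_def, Polynomial.eval₂_map]
  congr 1
  ext <;> simp

theorem ev_mq (ψ : S →+* T) (φ : R →+* S) (ξ : ι → T) (θ : T) (p : (MP ι R)[X]) :
    ev ψ ξ θ (mq φ p) = ev (ψ.comp φ) ξ θ p := by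
  rw [Polynomial.coe_mapRingHom, ev_def, ev_def, Polynomial.eval₂_map]
  congr 1
  ext <;> simp

theorem ev_sb (φ : R →+* S) (ξ : ι → S) (θ : S) (p : Fin (N + 1) → (MP ι R)[X]) (G : Fm N R) :
    ev φ ξ θ (sb p G) = eval₂ φ (fun j => ev φ ξ θ (p j)) G := by
  rw [sb, coe_eval₂Hom, eval₂_comp_left]
  congr 1
  ext; simp

theorem map_sb (φ : R →+* S) (h : MP ι R →+* MP ι' S) (hC : ∀ a, h (C a) = C (φ a))
    (p : Fin (N + 1) → (MP ι R)[X]) (G : Fm N R) :
    (sb p G).map h = sb (fun j => (p j).map h) (map φ G) := by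
  have : (Polynomial.mapRingHom h).comp (sb p) = (sb fun j => (p j).map h).comp (map φ) := by
    ext : 1
    · ext : 1; simp [sb, hC]
    · simp [sb]
  exact DFunLike.congr_fun this G

theorem Zer.map_image {GG : Set (Fm N R)} {φ : R →+* S} {ψ : S →+* T} {x : Fin (N + 1) → T} :
    Zer (map φ '' GG) ψ x ↔ Zer GG (ψ.comp φ) x := by
  simp only [Zer, Set.forall_mem_image, eval₂_map]

theorem Zer.comp {GG : Set (Fm N R)} {φ : R →+* S} {x : Fin (N + 1) → S} (h : Zer GG φ x)
    (ψ : S →+* T) : Zer GG (ψ.comp φ) fun i => ψ (x i) := fun G hG => by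
  have := congrArg ψ (h G hG)
  rwa [eval₂_comp_left, map_zero] at this

theorem Zer.span {GG : Set (Fm N R)} {φ : R →+* S} {x : Fin (N + 1) → S} (h : Zer GG φ x)
    {G : Fm N R} (hG : G ∈ Ideal.span GG) : eval₂ φ x G = 0 :=
  (Ideal.span_le (I := RingHom.ker (eval₂Hom φ x))).2 h hG

theorem totalDegree_eval₂_le (φ : R →+* S) {s : ι → MP ι' S} (hs : ∀ i, (s i).totalDegree ≤ 1)
    (p : MP ι R) : (eval₂ (C.comp φ) s p).totalDegree ≤ p.totalDegree := by
  rw [eval₂_eq]
  refine totalDegree_finsetSum_le fun m hm => (totalDegree_mul _ _).trans ?_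
  rw [RingHom.comp_apply, totalDegree_C, zero_add]
  refine (totalDegree_finsetProd _ _).trans (le_trans ?_ (le_totalDegree hm))
  exact Finset.sum_le_sum fun i _ => (totalDegree_pow _ _).trans
    ((Nat.mul_le_mul_left _ (hs i)).trans (mul_one _).le)

theorem totalDegree_X_le (i : ι) : (X i : MP ι R).totalDegree ≤ 1 :=
  (isHomogeneous_X R i).totalDegree_le

theorem totalDegree_map_le' (φ : R →+* S) (p : MP ι R) : (map φ p).totalDegree ≤ p.totalDegree :=
  Finset.sup_mono (support_map_subset _ _)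

theorem coeff_single_none (p : MP (Option σ) R) (m : ℕ) :
    coeff (Finsupp.single none m) p = constantCoeff ((tp p).coeff m) := by
  rw [← optionEquivLeft_coeff_some_coeff_none]
  simp [constantCoeff_eq]

@[simp] theorem tp_up (p : MP σ R) : tp (up p) = Polynomial.C p := by
  have : ((optionEquivLeft R σ : MP (Option σ) R →+* (MP σ R)[X])).comp
      (rename some : MP σ R →ₐ[R] _).toRingHom = Polynomial.C := by
    ext : 1
    · ext : 1; simp
    · simp
  exact DFunLike.congr_fun this p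

/-- substitution in the variables other than `τ` -/
noncomputable def subO {σ' : Type} (φ : R →+* S) (s : σ → MP σ' S) :
    MP (Option σ) R →+* MP (Option σ') S :=
  eval₂Hom (C.comp φ) fun i => i.elim (X none) fun j => up (s j)

theorem tp_subO {σ' : Type} (φ : R →+* S) (s : σ → MP σ' S) (p : MP (Option σ) R) :
    tp (subO φ s p) = (tp p).map (eval₂Hom (C.comp φ) s) := by
  have : ((optionEquivLeft S σ' : MP (Option σ') S →+* (MP σ' S)[X])).comp (subO φ s) =
      (Polynomial.mapRingHom (eval₂Hom (C.comp φ) s)).comp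
        (optionEquivLeft R σ : MP (Option σ) R →+* (MP σ R)[X]) := by
    ext : 1
    · ext : 1; simp [subO]
    · rename_i i
      cases i <;> simp [subO]
  exact DFunLike.congr_fun this p

theorem subO_X (φ : R →+* S) : subO φ (X : σ → MP σ S) = map φ := by
  ext : 1
  · ext : 1; simp [subO]
  · rename_i i
    cases i <;> simp [subO]

theorem subO_hyp : subO (RingHom.id R) (fun i : Option σ => i.elim 0 X) = hyp := by
  ext : 1
  · ext : 1; simp [subO, hyp]
  · rename_i i
    rcases i with _ | _ | i <;> simp [subO, hyp]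

theorem eval₂Hom_X_eq_map (φ : R →+* S) : eval₂Hom (C.comp φ) (X : σ → MP σ S) = map φ := by
  ext : 1
  · ext : 1; simp
  · simp

theorem tp_map (φ : R →+* S) (p : MP (Option σ) R) : tp (map φ p) = (tp p).map (map φ) := by
  rw [← subO_X, tp_subO, eval₂Hom_X_eq_map]

theorem tp_hyp (p : MP (Option (Option σ)) R) : tp (hyp p) = (tp p).map hyp0 := by
  rw [← subO_hyp, tp_subO]; rfl

theorem totalDegree_subO_le {σ' : Type} (φ : R →+* S) {s : σ → MP σ' S}
    (hs : ∀ i, (s i).totalDegree ≤ 1) (p : MP (Option σ) R) :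
    (subO φ s p).totalDegree ≤ p.totalDegree :=
  totalDegree_eval₂_le φ (fun i => by
    cases i with
    | none => exact totalDegree_X_le _
    | some j => exact (totalDegree_rename_le _ _).trans (hs j)) p

theorem hyp_up (p : MP (Option σ) R) : hyp (up p) = up (hyp0 p) := by
  apply (optionEquivLeft R σ).injective
  change tp _ = tp _
  rw [tp_hyp, tp_up, tp_up, Polynomial.map_C]

theorem map_up (φ : R →+* S) (p : MP σ R) : map φ (up p) = up (map φ p) := map_rename _ _ _

theorem eval₂_tp (φ : R →+* S) (ξ : Option σ → S) (p : MP (Option σ) R) :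
    eval₂ φ ξ p = ev φ (fun i => ξ (some i)) (ξ none) (tp p) := by
  have : eval₂Hom φ ξ = (ev φ (fun i => ξ (some i)) (ξ none)).comp
      (optionEquivLeft R σ : MP (Option σ) R →+* (MP σ R)[X]) := by
    ext : 1
    · ext : 1; simp
    · rename_i i
      cases i <;> simp
  exact DFunLike.congr_fun this p

theorem eval₂_up (φ : R →+* S) (ξ : Option σ → S) (p : MP σ R) :
    eval₂ φ ξ (up p) = eval₂ φ (fun i => ξ (some i)) p := eval₂_rename _ _ _ _

/-- the point of the hyperplane `ξ_1 = 0` -/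
def ext0 {A : Type} [Zero A] (ξ : Option σ → A) : Option (Option σ) → A :=
  fun i => i.elim (ξ none) fun j => j.elim 0 fun l => ξ (some l)

theorem eval₂_hyp (φ : R →+* S) (ξ : Option σ → S) (p : MP (Option (Option σ)) R) :
    eval₂ φ ξ (hyp p) = eval₂ φ (ext0 ξ) p := by
  have : (eval₂Hom φ ξ).comp hyp = eval₂Hom φ (ext0 ξ) := by
    ext : 1
    · ext : 1; simp [hyp]
    · rename_i i
      rcases i with _ | _ | i <;> simp [hyp, ext0]
  exact DFunLike.congr_fun this p

theorem eval₂_hyp0 (φ : R →+* S) (ξ : σ → S) (p : MP (Option σ) R) :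
    eval₂ φ ξ (hyp0 p) = eval₂ φ (fun i => i.elim 0 ξ) p := by
  have : (eval₂Hom φ ξ).comp hyp0 = eval₂Hom φ fun i => i.elim 0 ξ := by
    ext : 1
    · ext : 1; simp [hyp0]
    · rename_i i
      cases i <;> simp [hyp0]
  exact DFunLike.congr_fun this p

theorem ev_hyp (φ : R →+* S) (ξ : Option σ → S) (θ : S) (p : (MP (Option (Option σ)) R)[X]) :
    ev φ ξ θ (p.map hyp) = ev φ (ext0 ξ) θ p := by
  rw [ev_def, ev_def, Polynomial.eval₂_map]
  congr 1
  exact RingHom.ext fun q => eval₂_hyp φ ξ q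

end basic

variable {R S : Type} [CommRing R] [CommRing S] {σ : Type} {N : ℕ}

theorem TMonic.subO [Nontrivial S] {σ' : Type} {p : MP (Option σ) R} (h : TMonic p) (φ : R →+* S)
    {s : σ → MP σ' S} (hs : ∀ i, (s i).totalDegree ≤ 1) : TMonic (subO φ s p) := by
  refine ⟨?_, ?_⟩ <;> rw [tp_subO]
  · exact h.1.map _
  · rw [h.1.natDegree_map]
    exact (totalDegree_subO_le φ hs p).trans h.2

/-- pull-back of a hypersurface chart along a linear substitution -/
noncomputable def PChart.sub [Nontrivial S] {σ' : Type} (c : PChart R σ) (φ : R →+* S)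
    (s : σ → MP σ' S) (hs : ∀ i, (s i).totalDegree ≤ 1) (h0 : ∀ i, constantCoeff (s i) = 0) :
    PChart S σ' where
  δ := c.δ
  χ := c.χ.map (subO φ s)
  D := subO φ s c.D
  Ψ := subO φ s c.Ψ
  Φ := eval₂Hom (C.comp φ) s c.Φ
  monic := c.monic.map _
  deg := by rw [c.monic.natDegree_map, c.deg]
  pos := c.pos
  wt := fun i => by
    rw [Polynomial.coeff_map]
    exact (totalDegree_subO_le φ hs _).trans (c.wt i)
  bez := by
    obtain ⟨α, β, h⟩ := c.bez
    refine ⟨α.map (subO φ s), β.map (subO φ s), ?_⟩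
    rw [Polynomial.derivative_map, ← Polynomial.map_mul, ← Polynomial.map_mul,
      ← Polynomial.map_add, ← h, Polynomial.map_C]
  dvd := by
    obtain ⟨r, h⟩ := c.dvd
    exact ⟨r, by rw [← map_pow]; exact map_dvd _ h⟩
  tm := c.tm.subO φ hs
  bezΦ := by
    obtain ⟨α, β, h⟩ := c.bezΦ
    refine ⟨α.map (eval₂Hom (C.comp φ) s), β.map (eval₂Hom (C.comp φ) s), ?_⟩
    rw [tp_subO, Polynomial.derivative_map, ← Polynomial.map_mul, ← Polynomial.map_mul,
      ← Polynomial.map_add, ← h, Polynomial.map_C]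
  sep := by
    have h := c.sep.map (f := φ)
    rw [Polynomial.map_sum] at h
    convert h using 2 with i
    rw [Polynomial.map_monomial, Polynomial.coeff_map, coeff_single_none, coeff_single_none,
      tp_subO, Polynomial.coeff_map]
    congr 1
    have : (constantCoeff : MP σ' S →+* S).comp (eval₂Hom (C.comp φ) s) = φ.comp constantCoeff := by
      ext <;> simp [h0]
    exact DFunLike.congr_fun this _

theorem PChart.exists_map [Nontrivial S] (c : PChart R σ) (φ : R →+* S) :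
    ∃ c' : PChart S σ, c.IsMap φ c' :=
  ⟨c.sub φ X totalDegree_X_le (fun i => constantCoeff_X S i),
    rfl, by simp [PChart.sub, subO_X], by simp [PChart.sub, subO_X], by simp [PChart.sub, subO_X],
    DFunLike.congr_fun (eval₂Hom_X_eq_map φ) _⟩

theorem PChart.exists_hyp [Nontrivial R] (c : PChart R (Option σ)) :
    ∃ c' : PChart R σ, c.IsHyp c' :=
  ⟨c.sub (RingHom.id R) (fun i => i.elim 0 X)
    (fun i => by cases i; exacts [by simp, totalDegree_X_le _]) (fun i => by cases i <;> simp),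
    rfl, by simp [PChart.sub, subO_hyp], by simp [PChart.sub, subO_hyp],
    by simp [PChart.sub, subO_hyp], rfl⟩

theorem PChart.IsMap.br {c : PChart R σ} {φ : R →+* S} {c' : PChart S σ} (h : c.IsMap φ c') :
    c'.br = map φ c.br := by
  rw [PChart.br, PChart.br, h.Ψ, h.Φ, map_mul, map_up]

theorem PChart.IsMap.top {c : PChart R σ} {φ : R →+* S} {c' : PChart S σ} (h : c.IsMap φ c') :
    c'.top = c.top.map φ := by
  rw [PChart.top, PChart.top, h.δ, h.χ, Polynomial.map_sum]
  refine Finset.sum_congr rfl fun i _ => ?_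
  rw [Polynomial.map_monomial, Polynomial.coe_mapRingHom, Polynomial.coeff_map, coeff_map]

theorem PChart.IsHyp.br {c : PChart R (Option σ)} {c' : PChart R σ} (h : c.IsHyp c') :
    c'.br = hyp c.br := by
  rw [PChart.br, PChart.br, h.Ψ, h.Φ, map_mul, hyp_up]

theorem PChart.IsMap.trans {T : Type} [CommRing T] {c : PChart R σ} {φ : R →+* S}
    {c' : PChart S σ} (h : c.IsMap φ c') {ψ : S →+* T} {c'' : PChart T σ} (h' : c'.IsMap ψ c'') :
    c.IsMap (ψ.comp φ) c'' :=
  ⟨h'.δ.trans h.δ, by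
    rw [h'.χ, h.χ, Polynomial.coe_mapRingHom, Polynomial.coe_mapRingHom, Polynomial.coe_mapRingHom,
      Polynomial.map_map]
    congr 1
    exact RingHom.ext fun p => map_map _ _ _,
    by rw [h'.D, h.D, map_map], by rw [h'.Ψ, h.Ψ, map_map], by rw [h'.Φ, h.Φ, map_map]⟩

namespace Chart

variable {GG : Set (Fm N R)} (c : Chart R σ N GG)

/-- the image of a chart; the new equations lie in the ideal of the old ones and cut out
no more points -/
theorem exists_map [Nontrivial S] (φ : R →+* S) {GG' : Set (Fm N S)}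
    (h1 : ∀ G ∈ GG', G ∈ Ideal.span (map φ '' GG))
    (h2 : ∀ (Ω : Type) [Field Ω] (ψ : S →+* Ω) (x : Fin (N + 1) → Ω), Zer GG' ψ x →
      Zer GG (ψ.comp φ) x) : ∃ c' : Chart S σ N GG', c.IsMap φ c' := by
  obtain ⟨p, hp⟩ := c.toPChart.exists_map φ
  have e : ∀ G, sb (fun j => mq φ (c.pp j)) (map φ G) = mq φ (sb c.pp G) := fun G =>
    (map_sb φ (map φ) (fun a => map_C _ a) c.pp G).symm
  refine ⟨⟨p, c.d, fun i => map φ (c.f i), map φ c.th, map φ c.l0, fun j => mq φ (c.pp j), c.dpos,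
    fun i => (c.hf i).map φ, c.hth.map φ, c.hl.map φ, fun G hG => ?_, fun i => ?_, ?_,
    fun Ω _ ψ ξ θ => ?_, fun Ω _ ψ x ξ θ hx => ?_, fun j => ?_⟩,
    hp, rfl, fun _ => rfl, rfl, rfl, fun _ => rfl⟩
  · rw [← Ideal.mem_span_singleton, ← Ideal.mem_comap]
    refine Ideal.span_le.2 ?_ (h1 G hG)
    rintro _ ⟨G₀, h0, rfl⟩
    rw [SetLike.mem_coe, Ideal.mem_comap, Ideal.mem_span_singleton, e, hp.χ]
    exact map_dvd _ (c.dv_on G₀ h0)
  · have h := map_dvd (mq φ) (c.dv_f i)
    rw [map_sub, map_mul, ← e, ← e, ← hp.χ] at h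
    simpa using h
  · have h := map_dvd (mq φ) c.dv_th
    rw [map_sub, map_mul, ← e, ← e, ← hp.χ] at h
    simpa using h
  · rw [e, e, hp.χ, hp.D, ev_mq, ev_mq, ev_mq, eval₂_map]
    exact c.ne Ω _ ξ θ
  · simp only [hp.χ, hp.D, ev_mq, eval₂_map]
    exact c.fro Ω _ x ξ θ (h2 Ω ψ x hx)
  · obtain ⟨m, H, h3, h4, h5, h6⟩ := c.int j
    refine ⟨m, mq φ H, h3.map _, by rw [Polynomial.coe_mapRingHom, h3.natDegree_map, h4],
      fun i => ?_, fun Ω _ ψ x hx => ?_⟩
    · rw [Polynomial.coe_mapRingHom, Polynomial.coeff_map]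
      exact (h5 i).map φ
    · simp only [ev_mq, eval₂_map]
      exact h6 Ω _ x (h2 Ω ψ x hx)

theorem exists_map_image [Nontrivial S] (φ : R →+* S) :
    ∃ c' : Chart S σ N (map φ '' GG), c.IsMap φ c' :=
  c.exists_map φ (fun _ h => Ideal.subset_span h) fun _ _ _ _ h => Zer.map_image.1 h

/-- change of the equations -/
theorem exists_transfer [Nontrivial R] {GG' : Set (Fm N R)} (h1 : ∀ G ∈ GG', G ∈ Ideal.span GG)
    (h2 : ∀ (Ω : Type) [Field Ω] (ψ : R →+* Ω) (x : Fin (N + 1) → Ω), Zer GG' ψ x → Zer GG ψ x) :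
    ∃ c' : Chart R σ N GG', c.IsMap (RingHom.id R) c' :=
  c.exists_map _ (fun G h => by simpa [map_id] using h1 G h) fun Ω _ ψ x h => h2 Ω ψ x h

variable {c} {GG' : Set (Fm N S)} {c' : Chart S σ N GG'} {φ : R →+* S}

theorem IsMap.xi (h : c.IsMap φ c') {Ω : Type} [Field Ω] (ψ : S →+* Ω) (x : Fin (N + 1) → Ω) :
    c'.xi ψ x = c.xi (ψ.comp φ) x := by
  funext i
  rw [Chart.xi, Chart.xi, h.f, h.f, eval₂_map, eval₂_map]

theorem IsMap.tht (h : c.IsMap φ c') {Ω : Type} [Field Ω] (ψ : S →+* Ω) (x : Fin (N + 1) → Ω) :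
    c'.tht ψ x = c.tht (ψ.comp φ) x := by
  rw [Chart.tht, Chart.tht, h.f, h.th, eval₂_map, eval₂_map]

theorem IsMap.pv (h : c.IsMap φ c') {T : Type} [CommRing T] (ψ : S →+* T) (ξ : Option σ → T)
    (θ : T) : c'.pv ψ ξ θ = c.pv (ψ.comp φ) ξ θ := by
  funext j
  rw [Chart.pv, Chart.pv, h.pp, ev_mq]

theorem IsMap.off (h : c.IsMap φ c') (Θ : MP (Option σ) R) {Ω : Type} [Field Ω] (ψ : S →+* Ω)
    (x : Fin (N + 1) → Ω) : c'.Off (map φ Θ) ψ x ↔ c.Off Θ (ψ.comp φ) x := by
  rw [Chart.Off, Chart.Off, h.xi, h.f, eval₂_map, eval₂_map]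

theorem IsMap.U (h : c.IsMap φ c') {Ω : Type} [Field Ω] (ψ : S →+* Ω) (x : Fin (N + 1) → Ω) :
    c'.U ψ x ↔ c.U (ψ.comp φ) x := by
  rw [Chart.U, Chart.U, h.p.br, h.off]

theorem IsMap.trans {T : Type} [CommRing T] (h : c.IsMap φ c') {ψ : S →+* T}
    {GG'' : Set (Fm N T)} {c'' : Chart T σ N GG''} (h' : c'.IsMap ψ c'') :
    c.IsMap (ψ.comp φ) c'' :=
  ⟨h.p.trans h'.p, h'.d.trans h.d, fun i => by rw [h'.f, h.f, map_map],
    by rw [h'.th, h.th, map_map], by rw [h'.l0, h.l0, map_map], fun j => by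
    rw [h'.pp, h.pp, Polynomial.coe_mapRingHom, Polynomial.coe_mapRingHom,
      Polynomial.coe_mapRingHom, Polynomial.map_map]
    congr 1
    exact RingHom.ext fun p => map_map _ _ _⟩

end Chart

/-- the restriction of a chart to the section `f_1 = 0` -/
theorem Chart.exists_hyp [Nontrivial R] {GG GG' : Set (Fm N R)} (c : Chart R (Option σ) N GG)
    (h1 : ∀ G ∈ GG', ∀ c' : PChart R σ, c.toPChart.IsHyp c' →
      c'.χ ∣ sb (fun j => (c.pp j).map hyp) G)
    (h2 : ∀ (Ω : Type) [Field Ω] (ψ : R →+* Ω) (x : Fin (N + 1) → Ω), Zer GG' ψ x →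
      Zer GG ψ x ∧ eval₂ ψ x (c.f (some (some none))) = 0) :
    ∃ c' : Chart R σ N GG', c.IsHyp c' := by
  obtain ⟨p, hp⟩ := c.toPChart.exists_hyp
  have e : ∀ G, sb (fun j => (c.pp j).map hyp) G = (sb c.pp G).map hyp := fun G => by
    rw [map_sb (RingHom.id R) hyp (fun a => by simp [hyp]) c.pp G, map_id]
  refine ⟨⟨p, c.d, fun i => c.f (Option.map skip i), c.th, c.l0, fun j => (c.pp j).map hyp, c.dpos,
    fun i => c.hf _, c.hth, c.hl, fun G hG => h1 G hG p hp, fun i => ?_, ?_,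
    fun Ω _ ψ ξ θ => ?_, fun Ω _ ψ x ξ θ hx h3 h4 h5 => ?_, fun j => ?_⟩,
    hp, rfl, fun _ => rfl, rfl, rfl, fun _ => rfl⟩
  · have h := Polynomial.map_dvd hyp (c.dv_f (skip i))
    rw [Polynomial.map_sub, Polynomial.map_mul, ← e, ← e, ← hp.χ, Polynomial.map_C] at h
    have e1 : (hyp (X (skip i)) : MP (Option σ) R) = X i := by cases i <;> simp [hyp, skip]
    rwa [e1] at h
  · have h := Polynomial.map_dvd hyp c.dv_th
    rwa [Polynomial.map_sub, Polynomial.map_mul, ← e, ← e, ← hp.χ, Polynomial.map_X] at h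
  · rw [e, e, hp.χ, hp.D, ev_hyp, ev_hyp, ev_hyp, eval₂_hyp]
    exact c.ne Ω _ _ θ
  · simp only [hp.χ, hp.D, ev_hyp, eval₂_hyp]
    refine c.fro Ω ψ x (ext0 ξ) θ (h2 Ω ψ x hx).1 h3 (fun i => ?_) h5
    rcases i with _ | _ | i
    · exact h4 none
    · exact (h2 Ω ψ x hx).2.trans (zero_mul _).symm
    · exact h4 (some i)
  · obtain ⟨m, H, h3, h4, h5, h6⟩ := c.int j
    let s : Option (Option (Option σ)) → MP (Option (Option σ)) R := fun i =>
      i.elim (X none) fun j => j.elim (X (some none)) fun l => l.elim 0 fun r => X (some (some r))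
    refine ⟨m, H.map (eval₂Hom C s), h3.map _, by rw [h3.natDegree_map, h4],
      fun i => ?_, fun Ω _ ψ x hx => ?_⟩
    · rw [Polynomial.coeff_map]
      have h := (h5 i).eval₂ (n := 1) C s (fun r => isHomogeneous_C _ r) fun i => by
        rcases i with _ | _ | _ | i
        exacts [isHomogeneous_X _ _, isHomogeneous_X _ _, isHomogeneous_zero _ _ _,
          isHomogeneous_X _ _]
      rwa [one_mul] at h
    · rw [ev_map, ← h6 Ω ψ x (h2 Ω ψ x hx).1]
      congr 2
      · ext; simp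
      · funext i
        rcases i with _ | _ | _ | i <;> simp [s, skip, (h2 Ω ψ x hx).2]

/-- the divisibility needed in `exists_hyp` for the old equations and for `f_1` -/
theorem Chart.hyp_dvd {GG : Set (Fm N R)} (c : Chart R (Option σ) N GG) {c' : PChart R σ}
    (hp : c.toPChart.IsHyp c') {G : Fm N R}
    (hG : G ∈ Ideal.span (insert (c.f (some (some none))) GG)) :
    c'.χ ∣ sb (fun j => (c.pp j).map hyp) G := by
  have e : ∀ G, sb (fun j => (c.pp j).map hyp) G = (sb c.pp G).map hyp := fun G => by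
    rw [map_sb (RingHom.id R) hyp (fun a => by simp [hyp]) c.pp G, map_id]
  rw [← Ideal.mem_span_singleton, ← Ideal.mem_comap]
  refine Ideal.span_le.2 ?_ hG
  intro G₀ h0
  rw [SetLike.mem_coe, Ideal.mem_comap, Ideal.mem_span_singleton, e, hp.χ]
  rcases h0 with rfl | h0
  · have h := Polynomial.map_dvd hyp (c.dv_f (some none))
    rw [Polynomial.map_sub, Polynomial.map_mul, Polynomial.map_C] at h
    simpa [hyp] using h
  · exact Polynomial.map_dvd hyp (c.dv_on G₀ h0)

theorem Chart.exists_hyp_insert [Nontrivial R] {GG : Set (Fm N R)} (c : Chart R (Option σ) N GG) :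
    ∃ c' : Chart R σ N (insert (c.f (some (some none))) GG), c.IsHyp c' :=
  c.exists_hyp (fun _ hG _ hp => c.hyp_dvd hp (Ideal.subset_span hG)) fun _ _ _ _ hx =>
    ⟨fun G hG => hx G (Or.inr hG), hx _ (Or.inl rfl)⟩

end Pool.Agent.ZCy
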