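import Pool.Agent.Lib.MP_751085_ag.ZC.CGn
import Pool.Agent.Lib.MP_751085_ag.ZC.CJet
import Pool.Agent.Lib.MP_751085_ag.ZC.CMap

/-! Finite fibres, separating forms. -/

namespace Pool.Agent.ZCy

open scoped Classical Polynomial
open MvPolynomial

set_option linter.unusedSectionVars false

variable {k : Type} [Field k] {X : Var k} {d : ℕ} {ι : Type} {f : ι → Fm X.N k}
  {Ω : Type} [Field Ω] [Algebra k Ω]

theorem csep_eval {N e : ℕ} {g : Fm N Ω} (hg : g.IsHomogeneous e) (x : Fin (N + 1) → Ω) :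
    eval x g = ∑ m : Mon N e, coeff m.1 g * eval x (monomial m.1 1) := by
  conv_lhs => rw [← form_coeff hg]
  exact eval₂_form (RingHom.id Ω) x _

theorem csep_ne {N : ℕ} (e : ℕ) {x : Fin (N + 1) → Ω} (hx : x ≠ 0) :
    (fun m : Mon N e => eval x (monomial m.1 1)) ≠ 0 := by
  intro h
  obtain ⟨j, hj⟩ := Function.ne_iff.1 hx
  have := congrFun h (Mon.mk' (Finsupp.single j e) (Finsupp.degree_single j e))
  rw [eval_monomial, one_mul] at this
  exact pow_ne_zero e hj
    ((Finsupp.prod_single_index (h := fun n e => x n ^ e) (pow_zero _)).symm.trans this)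

/-- `x j` is a root of the nonzero polynomial `((H j).map (aeval y)).comp (X ^ d)`
(`ev_eq_eval`, `Set.Finite.pi'`) -/
theorem Var.Int.finite_fib (h : X.Int d f) (hd : 0 < d) (y : ι → Ω) : (X.Fib f y).Finite := by
  choose H hm _ hH using h
  refine (Set.Finite.pi' (t := fun j => {z : Ω |
    (((H j).map (eval₂Hom (algebraMap k Ω) y)).comp (Polynomial.X ^ d)).IsRoot z})
    fun j => Polynomial.finite_setOfPred_isRoot ?_).subset fun x hx j => ?_
  · exact (((hm j).map _).comp (Polynomial.monic_X_pow d)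
      (by rw [Polynomial.natDegree_X_pow]; omega)).ne_zero
  · have e := hH j Ω x hx.1.zr
    rw [funext hx.2, ev_eq_eval] at e
    simpa [Polynomial.eval_comp] using e

/-- `Gn.ball` over the pairs of points of the fibre; `Gn.lin` with
`c m = eval x (monomial m 1) - eval x' (monomial m 1)`, nonzero by `jet_sep`, `form_coeff`,
`eval₂_form` -/
theorem Var.Int.gn_sep (h : X.Int d f) (hd : 0 < d) (y : ι → Ω) :
    Gn k fun a : Mon X.N d → k => X.Sep f (form a) y := by
  have hf := h.finite_fib hd y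
  refine (Gn.ball hf fun x _ => Gn.ball hf
    (S := fun x' (a : Mon X.N d → k) => aeval x (form a) = aeval x' (form a) → ∃ ζ : Ω, x' = ζ • x)
    fun x' _ => ?_).mono fun a ha => ha
  by_cases hz : ∃ ζ : Ω, x' = ζ • x
  · exact Gn.of_forall fun _ _ => hz
  · obtain ⟨g, hg, hne⟩ := jet_sep (fun ζ e => hz ⟨ζ, e⟩) hd
    have hc : (fun m : Mon X.N d =>
        MvPolynomial.eval x (monomial m.1 1) - MvPolynomial.eval x' (monomial m.1 1)) ≠ 0 := by
      intro e
      apply hne
      rw [csep_eval hg x, csep_eval hg x']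
      exact Finset.sum_congr rfl fun m _ => by rw [sub_eq_zero.1 (congrFun e m)]
    refine (Gn.lin hc).mono fun a ha e => (ha ?_).elim
    rw [aeval_def, aeval_def, eval₂_form, eval₂_form] at e
    simp only [mul_sub, Finset.sum_sub_distrib, e, sub_self]

/-- a generic form does not vanish at a given point (`Gn.lin`, `jet_val`) -/
theorem gn_ne {N : ℕ} (e : ℕ) {x : Fin (N + 1) → Ω} (hx : x ≠ 0) :
    Gn k fun a : Mon N e → k => aeval x (form a) ≠ 0 :=
  (Gn.lin (csep_ne e hx)).mono fun a ha => by rwa [aeval_def, eval₂_form]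

/-- the same for one member of a family -/
theorem gn_ne' {N : ℕ} [Fintype ι] (e : ℕ) {x : Fin (N + 1) → Ω} (hx : x ≠ 0) (i : ι) :
    Gn k fun a : ι × Mon N e → k => aeval x (forms a i) ≠ 0 := by
  have hc : (fun p : ι × Mon N e =>
      if p.1 = i then eval x (monomial p.2.1 1) else 0) ≠ 0 := fun h =>
    csep_ne e hx (funext fun m => by simpa using congrFun h (i, m))
  refine (Gn.lin hc).mono fun a ha => ?_
  rw [forms, aeval_def, eval₂_form]
  rw [Fintype.sum_prod_type, Finset.sum_eq_single i (fun j _ hj => by simp [hj]) (by simp)] at ha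
  simpa using ha

theorem Var.Int.gn_l (h : X.Int d f) (hd : 0 < d) (y : ι → Ω) :
    Gn k fun a : Mon X.N 1 → k => ∀ x ∈ X.Fib f y, aeval x (form a) ≠ 0 :=
  Gn.ball (h.finite_fib hd y) fun _ hx => gn_ne 1 hx.1.1

end Pool.Agent.ZCy
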