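import Pool.Agent.Lib.MP_751085_ag.ZC.CBase

/-! Generic properties and specialisation. -/

namespace Pool.Agent.ZCy

open scoped Classical Polynomial
open MvPolynomial

set_option linter.unusedSectionVars false

variable {k : Type} [Field k] {ι κ : Type} {S T : (ι → k) → Prop}

theorem Gn.mono (h : Gn k S) (hST : ∀ a, S a → T a) : Gn k T := by
  obtain ⟨r, h0, hr⟩ := h
  exact ⟨r, h0, fun a ha => hST a (hr a ha)⟩

theorem Gn.of_forall (h : ∀ a, S a) : Gn k S := ⟨1, one_ne_zero, fun a _ => h a⟩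

theorem Gn.and (h : Gn k S) (h' : Gn k T) : Gn k fun a => S a ∧ T a := by
  obtain ⟨r, h0, hr⟩ := h
  obtain ⟨r', h0', hr'⟩ := h'
  refine ⟨r * r', mul_ne_zero h0 h0', fun a ha => ?_⟩
  rw [map_mul] at ha
  exact ⟨hr a (left_ne_zero_of_mul ha), hr' a (right_ne_zero_of_mul ha)⟩

theorem Gn.ball {s : Set κ} (hs : s.Finite) {S : κ → (ι → k) → Prop} (h : ∀ j ∈ s, Gn k (S j)) :
    Gn k fun a => ∀ j ∈ s, S j a := by
  induction s, hs using Set.Finite.induction_on with
  | empty => exact Gn.of_forall fun _ _ hj => hj.elim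
  | insert _ _ ih =>
    exact ((h _ (Or.inl rfl)).and (ih fun j hj => h j (Or.inr hj))).mono fun a ha j hj =>
      hj.elim (fun e => e ▸ ha.1) (ha.2 j)

theorem Gn.all [Finite κ] {S : κ → (ι → k) → Prop} (h : ∀ j, Gn k (S j)) :
    Gn k fun a => ∀ j, S j a :=
  (Gn.ball Set.finite_univ fun j _ => h j).mono fun _ ha j => ha j trivial

theorem Gn.exists [Infinite k] (h : Gn k S) : ∃ a, S a := by
  obtain ⟨r, h0, hr⟩ := h
  by_contra hn
  exact h0 (MvPolynomial.funext fun a => by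
    rw [map_zero]
    by_contra ha
    exact hn ⟨a, hr a ha⟩)

/-- A certificate over an extension field. Apply a `k`-linear functional `Λ → k` that does not kill
one coefficient of `r` to all coefficients. -/
theorem Gn.of_ext {Λ : Type} [Field Λ] [Algebra k Λ] {r : MP ι Λ} (h : r ≠ 0) :
    Gn k fun a => eval (fun i => algebraMap k Λ (a i)) r ≠ 0 := by
  obtain ⟨m, hm⟩ := ne_zero_iff.1 h
  obtain ⟨lam, hl⟩ := Module.Projective.exists_dual_ne_zero k hm
  refine ⟨∑ e ∈ r.support, monomial e (lam (coeff e r)), fun h0 => hl ?_, fun a ha h0 => ha ?_⟩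
  · have h1 := congrArg (coeff m) h0
    rw [coeff_sum, Finset.sum_eq_single m (fun b _ hb => by rw [coeff_monomial, if_neg hb])
      (fun hb => (hb (mem_support_iff.2 hm)).elim)] at h1
    simpa using h1
  · have h1 := congrArg lam h0
    rw [eval_eq, map_sum, map_zero] at h1
    rw [map_sum, ← h1]
    refine Finset.sum_congr rfl fun e _ => ?_
    simp only [← map_pow, ← map_prod]
    rw [eval_monomial, mul_comm (coeff e r), ← Algebra.smul_def, map_smul, smul_eq_mul, mul_comm]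
    rfl

/-- a nonzero linear condition over an extension field -/
theorem Gn.lin {Λ : Type} [Field Λ] [Algebra k Λ] [Fintype ι] {c : ι → Λ} (h : c ≠ 0) :
    Gn k fun a => ∑ i, algebraMap k Λ (a i) * c i ≠ 0 := by
  refine (Gn.of_ext (k := k) (r := ∑ i, X i * C (c i)) fun h0 => h (funext fun j => ?_)).mono
    fun a ha => by simpa using ha
  simpa [Pi.single_apply] using congrArg (eval (Pi.single j (1 : Λ))) h0

/-- every point specialises to a point over an algebraically closed field -/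
theorem exists_spec {K Ω ζ : Type} (Λ : Type) [Field K] [Field Λ] [IsAlgClosed Λ] [Algebra K Λ]
    [CommRing Ω] [Nontrivial Ω] [Algebra K Ω] [Finite ζ] (z : ζ → Ω) :
    ∃ z' : ζ → Λ, ∀ P : MP ζ K, aeval z P = 0 → aeval z' P = 0 := by
  obtain ⟨J, hJ, hle⟩ := Ideal.exists_le_maximal _ (RingHom.ker_ne_top (aeval (R := K) z))
  obtain ⟨z', rfl⟩ := eq_vanishingIdeal_singleton_of_isMaximal Λ hJ
  exact ⟨z', fun P hP => (mem_vanishingIdeal_singleton_iff z' P).1 (hle hP)⟩

/-- An implication between polynomial equations that holds for independent parameters holds off a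
hypersurface. (If no `r u^m` lies in the ideal of `E`, take a prime above it that avoids them.) -/
theorem generic {Λ ζ : Type} [Field Λ] (E : Set (MP (ι ⊕ ζ) Λ)) (u : MP (ι ⊕ ζ) Λ)
    (h : ∀ (Ω : Type) [Field Ω] [Algebra Λ Ω] (a : ι → Ω) (z : ζ → Ω), AlgebraicIndependent Λ a →
      (∀ P ∈ E, aeval (Sum.elim a z) P = 0) → aeval (Sum.elim a z) u = 0) :
    ∃ r : MP ι Λ, r ≠ 0 ∧ ∀ (Ω : Type) [Field Ω] [Algebra Λ Ω] (a : ι → Ω) (z : ζ → Ω),
      aeval a r ≠ 0 → (∀ P ∈ E, aeval (Sum.elim a z) P = 0) → aeval (Sum.elim a z) u = 0 := by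
  have key (Ω : Type) [CommRing Ω] [Algebra Λ Ω] (a : ι → Ω) (z : ζ → Ω) (r : MP ι Λ) :
      aeval (Sum.elim a z) (rename Sum.inl r) = aeval a r := aeval_rename _ _ _
  let W : Submonoid (MP (ι ⊕ ζ) Λ) :=
    { carrier := {w | ∃ (r : MP ι Λ) (m : ℕ), r ≠ 0 ∧ w = rename Sum.inl r * u ^ m}
      one_mem' := ⟨1, 0, one_ne_zero, by simp⟩
      mul_mem' := by
        rintro _ _ ⟨r, m, h0, rfl⟩ ⟨r', m', h0', rfl⟩
        exact ⟨r * r', m + m', mul_ne_zero h0 h0', by rw [map_mul]; ring⟩ }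
  by_cases hd : Disjoint (Ideal.span E : Set (MP (ι ⊕ ζ) Λ)) W
  · obtain ⟨p, hp, hle, hdis⟩ := Ideal.exists_le_prime_disjoint _ W hd
    let π : MP (ι ⊕ ζ) Λ →ₐ[Λ] FractionRing (MP (ι ⊕ ζ) Λ ⧸ p) :=
      (IsScalarTower.toAlgHom Λ (MP (ι ⊕ ζ) Λ ⧸ p) _).comp (Ideal.Quotient.mkₐ Λ p)
    have hπ (P : MP (ι ⊕ ζ) Λ) : π P = 0 ↔ P ∈ p :=
      (map_eq_zero_iff _ (IsFractionRing.injective (MP (ι ⊕ ζ) Λ ⧸ p) _)).trans
        Ideal.Quotient.eq_zero_iff_mem
    have he : aeval (Sum.elim (fun i => π (X (Sum.inl i))) fun j => π (X (Sum.inr j))) = π :=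
      algHom_ext fun i => by cases i <;> simp
    have h1 := h _ (fun i => π (X (Sum.inl i))) (fun j => π (X (Sum.inr j)))
      (algebraicIndependent_iff.2 fun r hr => by
        by_contra h0
        rw [← key _ _ fun j => π (X (Sum.inr j)), he, hπ] at hr
        exact Set.disjoint_left.1 hdis hr ⟨r, 0, h0, by simp⟩)
      fun P hP => by rw [he, hπ]; exact hle (Ideal.subset_span hP)
    rw [he, hπ] at h1
    exact (Set.disjoint_left.1 hdis h1 ⟨1, 1, one_ne_zero, by simp⟩).elim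
  · obtain ⟨_, hw, r, m, h0, rfl⟩ := Set.not_disjoint_iff.1 hd
    refine ⟨r, h0, fun Ω _ _ a z hr hE => ?_⟩
    have h1 : aeval (Sum.elim a z) (rename Sum.inl r * u ^ m) = 0 :=
      (Ideal.span_le (I := RingHom.ker (aeval (R := Λ) (Sum.elim a z)))).2 hE hw
    rw [map_mul, map_pow, key] at h1
    exact eq_zero_of_pow_eq_zero ((mul_eq_zero.1 h1).resolve_left hr)

end Pool.Agent.ZCy
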