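import Pool.Agent.Lib.MP_751085_ag.ZC.CLd1
import Pool.Agent.Lib.MP_751085_ag.ZC.CNu
import Pool.Agent.Lib.MP_751085_ag.ZC.CGn

/-! Regular and free extensions are linearly disjoint. -/

namespace Pool.Agent.ZCy

open scoped Classical Polynomial
open MvPolynomial Set

set_option linter.unusedSectionVars false

variable {k F K Ω : Type} [Field k] [Field F] [Field K] [Field Ω] [Algebra k F] [Algebra k K]
  [Algebra k Ω] [Algebra K Ω] [IsScalarTower k K Ω] {n : ℕ}

/-- a prime ideal is the centre of a valuation ring -/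
theorem ld2_place {A : Type} [CommRing A] (f : A →+* Ω) (p : Ideal A) [p.IsPrime]
    (h : ∀ a, f a = 0 → a ∈ p) : ∃ (V : ValuationSubring Ω) (hV : ∀ a, f a ∈ V),
      ∀ a, IsLocalRing.residue V ⟨f a, hV a⟩ = 0 ↔ a ∈ p := by
  let g : Localization.AtPrime p →+* Ω := IsLocalization.lift (M := p.primeCompl) (g := f)
    fun y => isUnit_iff_ne_zero.2 fun e => y.2 (h _ e)
  have hg : ∀ a, g (algebraMap A _ a) = f a := fun a => IsLocalization.lift_eq _ a
  obtain ⟨V, hV, hl⟩ := IsLocalRing.exists_factor_valuationRing g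
  refine ⟨V, fun a => hg a ▸ hV _, fun a => ?_⟩
  rw [← not_iff_not, ← Ne, IsLocalRing.residue_ne_zero_iff_isUnit]
  have e : (⟨f a, hg a ▸ hV _⟩ : V) = g.codRestrict V.toSubring hV (algebraMap A _ a) :=
    Subtype.ext (hg a).symm
  rw [e]
  exact (isUnit_map_iff (g.codRestrict V.toSubring hV) _).trans
    (IsLocalization.AtPrime.isUnit_to_map_iff (Localization.AtPrime p) p a)

/-- a free transcendence basis -/
theorem exists_free_basis (hn : rk k (univ : Set F) ≤ n) (γ : F →ₐ[k] Ω)
    (hγ : (n : ℕ∞) ≤ rk K (range γ)) : ∃ t : Fin n → F, (AlgebraicIndependent K fun i => γ (t i)) ∧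
      ∀ a : F, IsAlgebraic (Algebra.adjoin k (range t)) a := by
  obtain ⟨T, hT, h⟩ := exists_indep_of_le_rk hγ
  let e : Fin n ≃ T := (T.equivFinOfCardEq hT).symm
  have h1 : AlgebraicIndependent K fun i => γ (e i : F) := h.comp e e.injective
  refine ⟨fun i => e i, h1, fun a => ?_⟩
  have h2 : AlgebraicIndependent k fun i => (e i : F) :=
    AlgebraicIndependent.of_comp γ (h1.restrictScalars (algebraMap k K).injective)
  by_contra ha
  have h3 := (rk_range_iff.2 ((h2.option_iff_transcendental a).2 ha)).trans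
    ((rk_mono (subset_univ _)).trans hn)
  rw [Fintype.card_option, Fintype.card_fin, Nat.cast_le] at h3
  omega

/-- Specialise the coefficients to algebraic values, keeping a free transcendence basis generic,
and extend to a place. -/
theorem ld_free [CharZero k] (hk : ∀ a : F, IsAlgebraic k a → a ∈ (algebraMap k F).range)
    (hn : rk k (univ : Set F) ≤ n) (γ : F →ₐ[k] Ω) (hγ : (n : ℕ∞) ≤ rk K (range γ)) {α : Type}
    [Fintype α] {b : α → F} (hb : LinearIndependent k b) {c : α → K}
    (h : ∑ i, algebraMap K Ω (c i) * γ (b i) = 0) (i : α) : c i = 0 := by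
  by_contra hi
  wlog h1 : c i = 1 generalizing c
  · refine this (c := fun j => (c i)⁻¹ * c j) ?_ (by simp [hi]) (by simp [hi])
    simp only [map_mul, mul_assoc, ← Finset.mul_sum, h, mul_zero]
  obtain ⟨t, ht, halg⟩ := exists_free_basis hn γ hγ
  obtain ⟨c', hc'⟩ := exists_spec (K := k) (AlgebraicClosure k) c
  let f : MP (Fin n) (MP α k) →+* Ω :=
    eval₂Hom ((algebraMap K Ω).comp (aeval c : MP α k →ₐ[k] K).toRingHom) fun j => γ (t j)
  let φ : MP (Fin n) (MP α k) →ₐ[k] MP (Fin n) (AlgebraicClosure k) := mapAlgHom (aeval c')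
  have : (RingHom.ker φ).IsPrime := RingHom.ker_isPrime φ
  obtain ⟨V, hV, hres⟩ := ld2_place f (RingHom.ker φ) fun a ha => by
    have h2 : map (aeval c : MP α k →ₐ[k] K).toRingHom a = 0 :=
      ht.eq_zero_of_aeval_eq_zero _ (by rw [aeval_def, eval₂_map]; exact ha)
    rw [RingHom.mem_ker]
    ext m
    have h3 := congrArg (coeff m) h2
    rw [coeff_map] at h3
    exact (coeff_map _ _ _).trans (hc' _ h3)
  have hf : ∀ Q : MP (Fin n) k, f (map C Q) = γ (aeval t Q) := fun Q => by
    have e : f.comp (map C) = (γ : F →+* Ω).comp (aeval t : MP (Fin n) k →ₐ[k] F).toRingHom := by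
      ext x
      · simp [f, ← IsScalarTower.algebraMap_apply]
      · simp [f]
    exact RingHom.congr_fun e Q
  have hφ : ∀ Q : MP (Fin n) k, φ (map C Q) = map (algebraMap k _) Q := fun Q => by
    ext m
    exact (coeff_map _ _ _).trans (by simp [coeff_map])
  have hB : ∀ y : Algebra.adjoin k (range t), ∃ Q : MP (Fin n) k, aeval t Q = y := fun y =>
    (Algebra.adjoin_range_eq_range_aeval k t).le y.2
  have hγV : ∀ a, (γ : F →+* Ω) a ∈ V := fun a => by
    obtain ⟨y, hy, hint⟩ := (halg a).exists_integral_multiple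
    let ψ : Algebra.adjoin k (range t) →+* V :=
      ((γ : F →+* Ω).comp (algebraMap _ F)).codRestrict V fun x => by
        obtain ⟨Q, hQ⟩ := hB x
        have := hV (map C Q)
        rwa [hf, hQ] at this
    obtain ⟨z, hz⟩ := IsIntegrallyClosed.isIntegral_iff.1
      (IsIntegral.map_of_comp_eq ψ (γ : F →+* Ω) rfl hint)
    obtain ⟨Q, hQ⟩ := hB y
    have hQ0 : Q ≠ 0 := fun e => hy (Subtype.ext (by rw [← hQ, e, map_zero]; rfl))
    have hu : IsUnit (⟨f (map C Q), hV _⟩ : V) := by
      rw [← IsLocalRing.residue_ne_zero_iff_isUnit, Ne, hres, RingHom.mem_ker, hφ]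
      exact fun e => hQ0 (map_injective _ (algebraMap k _).injective (e.trans (map_zero _).symm))
    obtain ⟨w, hw⟩ := hu.exists_left_inv
    have h4 : (w : Ω) * γ y = 1 := by
      rw [← hQ, ← hf]; exact congrArg Subtype.val hw
    have h5 : (z : Ω) = γ y * γ a := hz.trans (map_mul γ (y : F) a)
    have h6 : (γ : F →+* Ω) a = w * z := by
      rw [h5, ← mul_assoc, h4, one_mul]; rfl
    rw [h6]
    exact mul_mem w.2 z.2
  let γ₁ : F →+* IsLocalRing.ResidueField V :=
    (IsLocalRing.residue V).comp ((γ : F →+* Ω).codRestrict V hγV)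
  let _ : Algebra k (IsLocalRing.ResidueField V) := (γ₁.comp (algebraMap k F)).toAlgebra
  let ρ : MP (Fin n) (MP α k) →ₐ[k] IsLocalRing.ResidueField V :=
    ⟨(IsLocalRing.residue V).comp (f.codRestrict V hV), fun x =>
      congrArg (IsLocalRing.residue V) (Subtype.ext (by
        have := hf (C x)
        rw [map_C, aeval_C] at this
        exact this))⟩
  have hρ : ∀ a, ρ a = 0 ↔ φ a = 0 := hres
  have hX : ∀ j, φ (C (X j)) = C (c' j) := fun j => by simp [φ]
  have h7 := ld_alg hk ⟨γ₁, fun _ => rfl⟩ hb (c := fun j => ρ (C (X j))) (fun j => by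
    obtain ⟨q, hq, h0⟩ := Algebra.IsAlgebraic.isAlgebraic (R := k) (c' j)
    refine ⟨q, hq, ?_⟩
    rw [Polynomial.aeval_algHom_apply, hρ, ← Polynomial.aeval_algHom_apply, hX, ← algebraMap_eq,
      Polynomial.aeval_algebraMap_apply, h0, map_zero]) (by
    have e : ∑ j, (f.codRestrict V hV (C (X j)) * (γ : F →+* Ω).codRestrict V hγV (b j)) = 0 :=
      Subtype.ext (by
        rw [AddSubmonoidClass.coe_finsetSum]
        refine Eq.trans (Finset.sum_congr rfl fun j _ => ?_) h
        simp [f])
    have e' := congrArg (IsLocalRing.residue V) e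
    rw [map_sum, map_zero] at e'
    simp only [map_mul] at e'
    exact e') i
  rw [hρ, hX, C_eq_zero] at h7
  have h8 := hc' (X i - 1) (by simp [h1])
  simp [h7] at h8

end Pool.Agent.ZCy
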