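import Pool.Agent.Lib.MP_751085_ag.ZC.CSp1
import Pool.Agent.Lib.MP_751085_ag.ZC.CAl2

/-! Spreading out of charts and of good lines. -/

namespace Pool.Agent.ZCy

open scoped Classical Polynomial
open MvPolynomial Filter

section aux

/-- an identity that holds at the points of the cone with chart coordinates off `D = 0` -/
def csp2_F {R τ : Type} [CommRing R] {N : ℕ} (GG : Set (Fm N R)) (f : Option τ → Fm N R)
    (th : Fm N R) (D : MP τ R) (a b : (MP τ R)[X]) (i j : Fin (N + 1)) : Prop :=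
  ∀ (Ω : Type) [Field Ω] (φ : R →+* Ω) (x : Fin (N + 1) → Ω) (ξ : τ → Ω) (θ : Ω),
    Zer GG φ x → eval₂ φ x (f none) ≠ 0 →
    (∀ i, eval₂ φ x (f (some i)) = ξ i * eval₂ φ x (f none)) →
    eval₂ φ x th = θ * eval₂ φ x (f none) → eval₂ φ ξ D ≠ 0 →
      ev φ ξ θ a * x i = ev φ ξ θ b * x j

/-- the equations -/
noncomputable def csp2_e {R τ J : Type} [CommRing R] {N : ℕ} (g : J → Fm N R)
    (f : Option τ → Fm N R) (th : Fm N R) : J ⊕ Option τ → (MP τ (Fm N R))[X] :=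
  Sum.elim (fun G => Polynomial.C (C (g G))) fun o =>
    o.elim (Polynomial.C (C th) - Polynomial.X * Polynomial.C (C (f none))) fun i =>
      Polynomial.C (C (f (some i))) - Polynomial.C (X i) * Polynomial.C (C (f none))

/-- the conclusion -/
noncomputable def csp2_q {R τ : Type} [CommRing R] {N : ℕ} (f : Fm N R) (D : MP τ R)
    (a b : (MP τ R)[X]) (i j : Fin (N + 1)) : (MP τ (Fm N R))[X] :=
  Polynomial.C (C f) * mq C (Polynomial.C D) *
    (mq C a * Polynomial.C (C (X i)) - mq C b * Polynomial.C (C (X j)))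

theorem csp2_mq {R S τ : Type} [CommRing R] [CommRing S] {N : ℕ} (φ : R →+* S) (p : (MP τ R)[X]) :
    mq (map φ : Fm N R →+* Fm N S) (mq C p) = mq C (mq φ p) := by
  have : (mq (ι := τ) (map φ : Fm N R →+* Fm N S)).comp (mq C) = (mq C).comp (mq φ) := by
    refine Polynomial.ringHom_ext' (MvPolynomial.ringHom_ext (fun r => ?_) fun i => ?_) ?_ <;> simp
  exact DFunLike.congr_fun this p

theorem csp2_ev_q {R τ Ω : Type} [CommRing R] [CommRing Ω] {N : ℕ} (f : Fm N R) (D : MP τ R)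
    (a b : (MP τ R)[X]) (i j : Fin (N + 1)) (φ : R →+* Ω) (x : Fin (N + 1) → Ω) (ξ : τ → Ω)
    (θ : Ω) : ev (eval₂Hom φ x) ξ θ (csp2_q f D a b i j) =
      eval₂ φ x f * eval₂ φ ξ D * (ev φ ξ θ a * x i - ev φ ξ θ b * x j) := by
  simp only [csp2_q, map_mul, map_sub, ev_mq, eval₂Hom_comp_C, ev_C, eval₂_C, coe_eval₂Hom, eval₂_X]

theorem csp2_ev_e {R τ J Ω : Type} [CommRing R] [CommRing Ω] {N : ℕ} (g : J → Fm N R)
    (f : Option τ → Fm N R) (th : Fm N R) (φ : R →+* Ω) (x : Fin (N + 1) → Ω) (ξ : τ → Ω)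
    (θ : Ω) : (∀ o, ev (eval₂Hom φ x) ξ θ (csp2_e g f th o) = 0) ↔
      (∀ G, eval₂ φ x (g G) = 0) ∧ eval₂ φ x th = θ * eval₂ φ x (f none) ∧
        ∀ i, eval₂ φ x (f (some i)) = ξ i * eval₂ φ x (f none) := by
  simp only [csp2_e, Sum.forall, Option.forall, Sum.elim_inl, Sum.elim_inr, Option.elim, map_mul,
    map_sub, ev_C, ev_X, eval₂_C, coe_eval₂Hom, eval₂_X, sub_eq_zero]

theorem csp2_hom {R Ω τ : Type} [CommRing R] [CommRing Ω] (ψ : MP τ R →+* Ω) :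
    ψ = eval₂Hom (ψ.comp C) fun i => ψ (X i) := by
  ext <;> simp

variable {V T : Type} [CommRing T] {𝓕 : Filter V} {S : V → Type} [∀ v, CommRing (S v)]
  {ι : ∀ v, S v →+* T} (he : ∀ t, ∀ᶠ v in 𝓕, t ∈ (ι v).range)
  (hi : ∀ v, Function.Injective (ι v)) {σ τ : Type} {N : ℕ} {GG : Set (Fm N T)}

include hi

theorem csp2_i1 (τ : Type) (v : V) : Function.Injective (map (σ := τ) (ι v)) :=
  map_injective _ (hi v)

theorem csp2_i2 (τ : Type) (v : V) : Function.Injective (mq (ι := τ) (ι v)) :=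
  Polynomial.map_injective _ (map_injective _ (hi v))

include he

theorem csp2_p (c : PChart T σ) : ∀ᶠ v in 𝓕, ∃ c' : PChart (S v) σ, c'.IsMap (ι v) c := by
  obtain ⟨r, hr⟩ := c.dvd
  filter_upwards [lf_mq he c.χ, lf_mp he c.D, lf_mp he c.Ψ, lf_mp he c.Φ,
    lf_bez (ι := fun v => mq (ι v)) (lf_mq he) (csp2_i2 hi _) c.bez,
    lf_dvd (ι := fun v => map (ι v)) (lf_mp he) (csp2_i1 hi _) hr,
    lf_bez (ι := fun v => mq (ι v)) (lf_mq he) (csp2_i2 hi _) c.bezΦ,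
    lf_sep he hi c.sep] with v ⟨χ, hχ⟩ ⟨D, hD⟩ ⟨Ψ, hΨ⟩ ⟨Φ, hΦ⟩ h1 h2 h3 h4
  have eχ : χ.map (map (ι v)) = c.χ := hχ
  have eΨ : (tp Ψ).map (map (ι v)) = tp c.Ψ := by rw [← tp_map, hΨ]
  refine ⟨⟨c.δ, χ, D, Ψ, Φ, Polynomial.monic_of_injective (csp2_i1 hi _ v) (eχ ▸ c.monic), ?_,
    c.pos, fun i => ?_, h1 _ _ _ ?_ hχ ?_, ⟨r, h2 _ _ hD (by rw [map_pow, hΨ])⟩,
    ⟨Polynomial.monic_of_injective (csp2_i1 hi _ v) (eΨ ▸ c.tm.1), ?_⟩, h3 _ _ _ ?_ eΨ ?_,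
    h4 _ ?_⟩, rfl, hχ.symm, hD.symm, hΨ.symm, hΦ.symm⟩
  · rw [← Polynomial.natDegree_map_eq_of_injective (csp2_i1 hi _ v), eχ, c.deg]
  · rw [← totalDegree_map_inj (hi v), ← Polynomial.coeff_map, eχ]
    exact c.wt i
  · rw [Polynomial.coe_mapRingHom, Polynomial.map_C, hD]
  · rw [Polynomial.coe_mapRingHom, ← Polynomial.derivative_map, eχ]
  · rw [← totalDegree_map_inj (hi v), ← Polynomial.natDegree_map_eq_of_injective (csp2_i1 hi _ v),
      eΨ, hΨ]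
    exact c.tm.2
  · rw [Polynomial.coe_mapRingHom, Polynomial.map_C, hΦ]
  · rw [Polynomial.coe_mapRingHom, ← Polynomial.derivative_map, eΨ]
  · rw [Polynomial.map_sum]
    refine Finset.sum_congr rfl fun i _ => ?_
    rw [Polynomial.map_monomial, ← eχ, Polynomial.coeff_map, coeff_map]

theorem csp2_ne {χ g : (MP τ T)[X]} {D : MP τ T}
    (h : ∀ (Ω : Type) [Field Ω] (φ : T →+* Ω) (ξ : τ → Ω) (θ : Ω), ev φ ξ θ χ = 0 →
      eval₂ φ ξ D ≠ 0 → ev φ ξ θ g ≠ 0) :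
    ∀ᶠ v in 𝓕, ∀ χ' g' (D' : MP τ (S v)), mq (ι v) χ' = χ → mq (ι v) g' = g →
      map (ι v) D' = D →
      ∀ (Ω : Type) [Field Ω] (φ : S v →+* Ω) (ξ : τ → Ω) (θ : Ω), ev φ ξ θ χ' = 0 →
        eval₂ φ ξ D' ≠ 0 → ev φ ξ θ g' ≠ 0 := by
  filter_upwards [spr (fun v => mq (ι v)) (csp2_i2 hi τ) (lf_mq he) ![χ, g] (Polynomial.C D)
    fun Ω _ ψ hψ => by
      have h0 := hψ 0
      have h1 := hψ 1
      rw [eq_ev ψ] at h0 h1 ⊢
      rw [ev_C]
      by_contra h2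
      exact h Ω _ _ _ h0 h2 h1] with v hv χ' g' D' h1 h2 h3 Ω _ φ ξ θ h4 h5 h6
  refine h5 ((ev_C φ ξ θ D').symm.trans (hv ![χ', g'] (Polynomial.C D') (fun j => ?_) ?_ Ω
    (ev φ ξ θ) fun j => ?_))
  · fin_cases j
    exacts [h1, h2]
  · rw [Polynomial.coe_mapRingHom, Polynomial.map_C, h3]
  · fin_cases j
    exacts [h4, h6]

omit hi in
theorem csp2_lift (hG : GG.Finite) :
    ∀ᶠ v in 𝓕, ∃ g : GG → Fm N (S v), ∀ G, map (ι v) (g G) = G := by
  filter_upwards [(eventually_all_finite hG).2 fun G _ => lf_mp he G] with v hv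
  choose g hg using fun G : GG => hv G G.2
  exact ⟨g, hg⟩

theorem csp2_zer (hG : GG.Finite) {q : Fm N T}
    (h : ∀ (Ω : Type) [Field Ω] (φ : T →+* Ω) (x : Fin (N + 1) → Ω), Zer GG φ x →
      eval₂ φ x q = 0) :
    ∀ᶠ v in 𝓕, ∀ q' : Fm N (S v), map (ι v) q' = q → ∀ (Ω : Type) [Field Ω] (φ : S v →+* Ω)
      (x : Fin (N + 1) → Ω), Zer (map (ι v) ⁻¹' GG) φ x → eval₂ φ x q' = 0 := by
  have := hG.to_subtype
  filter_upwards [csp2_lift he hG, spr (fun v => map (ι v)) (csp2_i1 hi _) (lf_mp he)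
    (fun G : GG => G.1) q fun Ω _ ψ hψ => by
      rw [csp2_hom ψ] at hψ ⊢
      exact h Ω _ _ fun G hG => hψ ⟨G, hG⟩] with v ⟨g, hg⟩ hv q' h1 Ω _ φ x hx
  exact hv g q' hg h1 Ω (eval₂Hom φ x) fun G => hx _ (by rw [Set.mem_preimage, hg]; exact G.2)

theorem csp2_fro [Finite τ] (hG : GG.Finite) {f : Option τ → Fm N T} {th : Fm N T} {D : MP τ T}
    {a b : (MP τ T)[X]} {i j : Fin (N + 1)} (h : csp2_F GG f th D a b i j) :
    ∀ᶠ v in 𝓕, ∀ (f' : Option τ → Fm N (S v)) (th' : Fm N (S v)) (D' : MP τ (S v)) a' b',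
      (∀ i, map (ι v) (f' i) = f i) → map (ι v) th' = th →
      map (ι v) D' = D → mq (ι v) a' = a → mq (ι v) b' = b →
        csp2_F (map (ι v) ⁻¹' GG) f' th' D' a' b' i j := by
  have := hG.to_subtype
  filter_upwards [csp2_lift he hG, spr (fun v => mq (map (ι v))) (csp2_i2 (csp2_i1 hi _) τ)
    (lf_mq (lf_mp he)) (csp2_e (fun G : GG => G.1) f th) (csp2_q (f none) D a b i j)
    fun Ω _ ψ hψ => by
      rw [eq_ev ψ, csp2_hom ((ψ.comp Polynomial.C).comp C)] at hψ ⊢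
      rw [csp2_ev_e] at hψ
      rw [csp2_ev_q]
      by_contra h0
      rw [← Ne, mul_ne_zero_iff, mul_ne_zero_iff] at h0
      exact h0.2 (sub_eq_zero.2 (h Ω _ _ _ _ (fun G hG => hψ.1 ⟨G, hG⟩) h0.1.1 hψ.2.2 hψ.2.1
        h0.1.2))] with v ⟨g, hg⟩ hv f' th' D' a' b' h1 h2 h3 h4 h5 Ω _ φ x ξ θ hx e1 e2 e3 e4
  have h6 := hv (csp2_e g f' th') (csp2_q (f' none) D' a' b' i j) (fun o => ?_) ?_ Ω
    (ev (eval₂Hom φ x) ξ θ) ((csp2_ev_e _ _ _ _ _ _ _).2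
      ⟨fun G => hx _ (by rw [Set.mem_preimage, hg]; exact G.2), e3, e2⟩)
  · rw [csp2_ev_q] at h6
    exact sub_eq_zero.1 ((mul_eq_zero.1 h6).resolve_left (mul_ne_zero e1 e4))
  · rcases o with G | _ | o <;> simp [csp2_e, hg, h1, h2]
  · simp only [csp2_q, map_mul, map_sub, csp2_mq, h4, h5]
    simp [h1, h3]

theorem csp2_c [Finite σ] (hG : GG.Finite) (c : Chart T σ N GG) :
    ∀ᶠ v in 𝓕, ∃ c' : Chart (S v) σ N (map (ι v) ⁻¹' GG), c'.IsMap (ι v) c := by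
  choose m H H1 H2 H3 H4 using c.int
  have f1 : ∀ i, csp2_F GG c.f c.th 1 c.χ 0 i i := fun i Ω _ φ x ξ θ h1 h2 h3 h4 _ => by
    rw [(c.fro Ω φ x ξ θ h1 h2 h3 h4).1, map_zero]
  have f2 : ∀ i j, csp2_F GG c.f c.th c.D (c.pp j) (c.pp i) i j :=
    fun i j Ω _ φ x ξ θ h1 h2 h3 h4 h5 => by
      obtain ⟨u, hu⟩ := (c.fro Ω φ x ξ θ h1 h2 h3 h4).2 h5
      rw [hu, hu, mul_right_comm]
  have ee : ∀ {R Ω : Type} [CommRing R] [CommRing Ω] (φ : R →+* Ω) (x : Fin (N + 1) → Ω)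
      (f : Option (Option σ) → Fm N R) (j : Fin (N + 1)) (p : (MP (Option (Option σ)) R)[X]),
      eval₂ φ x (ev C f (X j ^ c.d) p) = ev φ (fun i => eval₂ φ x (f i)) (x j ^ c.d) p := by
    intro R Ω _ _ φ x f j p
    rw [← coe_eval₂Hom, map_ev, eval₂Hom_comp_C, map_pow, eval₂Hom_X']
  filter_upwards [csp2_p he hi c.toPChart, eventually_all.2 fun i => lf_mp he (c.f i),
    lf_mp he c.th, lf_mp he c.l0, eventually_all.2 fun j => lf_mq he (c.pp j),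
    eventually_all.2 fun j => lf_mq he (H j),
    csp2_ne he hi fun Ω _ φ ξ θ h1 h2 => (c.ne Ω φ ξ θ h1 h2).1,
    csp2_ne he hi fun Ω _ φ ξ θ h1 h2 => (c.ne Ω φ ξ θ h1 h2).2,
    eventually_all.2 fun i => csp2_fro he hi hG (f1 i),
    eventually_all.2 fun i => eventually_all.2 fun j => csp2_fro he hi hG (f2 i j),
    eventually_all.2 fun j => csp2_zer he hi hG (q := ev C c.f (X j ^ c.d) (H j))
      fun Ω _ φ x hx => (ee φ x _ _ _).trans (H4 j Ω φ x hx)]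
    with v ⟨p, hp⟩ hf ⟨th, hth⟩ ⟨l0, hl⟩ hpp hH n1 n2 g1 g2 g3
  choose f hf using hf
  choose pp hpp using hpp
  choose H' hH using hH
  have e : ∀ G, mq (ι v) (sb pp G) = sb c.pp (map (ι v) G) := fun G =>
    (map_sb (ι v) (map (ι v)) (fun a => map_C _ a) pp G).trans
      (by rw [show (fun j => (pp j).map (map (ι v))) = c.pp from funext hpp])
  have dv : ∀ y, c.χ ∣ mq (ι v) y → p.χ ∣ y := fun y hy =>
    (Polynomial.map_dvd_map _ (csp2_i1 hi _ v) p.monic).1 (by rwa [hp.χ] at hy)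
  have hf0 : (f none).IsHomogeneous c.d := IsHomogeneous.of_map (hi v) (hf none ▸ c.hf none)
  refine ⟨⟨p, c.d, f, th, l0, pp, c.dpos, fun i => IsHomogeneous.of_map (hi v) (hf i ▸ c.hf i),
    IsHomogeneous.of_map (hi v) (hth ▸ c.hth), IsHomogeneous.of_map (hi v) (hl ▸ c.hl),
    fun G hG => dv _ (e G ▸ c.dv_on _ hG), fun i => dv _ ?_, dv _ ?_,
    fun Ω _ φ ξ θ h1 h2 => ⟨n1 _ _ _ hp.χ.symm (by rw [e, hf]) hp.D.symm Ω φ ξ θ h1 h2,
      n2 _ _ _ hp.χ.symm (by rw [e, hl]) hp.D.symm Ω φ ξ θ h1 h2⟩,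
    fun Ω _ φ x ξ θ h1 h2 h3 h4 => ?_, fun j => ⟨m j, H' j, ?_, ?_, fun i => ?_,
      fun Ω _ φ x hx => ?_⟩⟩, hp, rfl, fun i => (hf i).symm, hth.symm, hl.symm,
    fun j => (hpp j).symm⟩
  · rw [map_sub, map_mul, e, e, hf, hf]
    simpa using c.dv_f i
  · rw [map_sub, map_mul, e, e, hf, hth]
    simpa using c.dv_th
  · obtain ⟨i, hx⟩ : ∃ i, x i ≠ 0 := by
      by_contra h0
      push Not at h0
      refine h2 ?_
      rw [show x = 0 from funext h0, eval₂_zero_apply, constantCoeff_eq,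
        hf0.coeff_eq_zero (by simpa using c.dpos.ne), map_zero]
    refine ⟨?_, fun h5 => ⟨ev φ ξ θ (pp i) / x i, fun j => ?_⟩⟩
    · have h5 := g1 i f th 1 p.χ 0 hf hth (map_one _) hp.χ.symm (map_zero _) Ω φ x ξ θ h1 h2 h3 h4
        (by simp)
      rw [map_zero, zero_mul] at h5
      exact (mul_eq_zero.1 h5).resolve_right hx
    · rw [div_mul_eq_mul_div, eq_div_iff hx]
      exact g2 i j f th p.D _ _ hf hth hp.D.symm (hpp j) (hpp i) Ω φ x ξ θ h1 h2 h3 h4 h5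
  · exact Polynomial.monic_of_injective (csp2_i1 hi _ v)
      ((show (H' j).map (map (ι v)) = H j from hH j) ▸ H1 j)
  · rw [← Polynomial.natDegree_map_eq_of_injective (csp2_i1 hi _ v), ← H2 j, ← hH j,
      Polynomial.coe_mapRingHom]
  · refine IsHomogeneous.of_map (hi v) ?_
    rw [← Polynomial.coeff_map, show (H' j).map (map (ι v)) = H j from hH j]
    exact H3 j i
  · refine (ee φ x _ _ _).symm.trans (g3 j _ ?_ Ω φ x hx)
    rw [map_ev, ← hH j, ev_mq, map_pow, map_X, funext hf]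
    congr 2
    ext : 1
    simp

end aux

variable {V k : Type} [Field k] {𝓕 : Filter V} {R : V → Subring k}
  (hR : ∀ t, ∀ᶠ v in 𝓕, t ∈ (R v).subtype.range) {σ : Type} [Finite σ] {N : ℕ}

include hR

/-- Lift `χ, D, Ψ, Φ` (`lf_mq`, `lf_mp`); monic, degrees and total degrees pass through injective
maps (`totalDegree_map_inj`, `Polynomial.monic_of_injective`, `tp_map`); `bez`, `dvd`, `bezΦ`,
`sep` by `lf_bez`, `lf_dvd`, `lf_sep`. -/
theorem PChart.spread (c : PChart k σ) :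
    ∀ᶠ v in 𝓕, ∃ c' : PChart (R v) σ, c'.IsMap (R v).subtype c := by
  exact csp2_p hR (fun v => (R v).subtype_injective) c

/-- Lift `f, th, l0, pp` and the `H` of `c.int` (`IsHomogeneous.of_map`). The divisibilities by
the monic `χ` descend by `Polynomial.map_dvd_map` and `map_sb`. The pointwise conditions descend
by `spr`: `ne` in `T = (MP (Option σ) k)[X]` (equations `χ`, `sb pp f_0`, conclusion `C D`; use
`eq_ev`); `int` in `T = Fm N k` (equations `G ∈ GG`, conclusion `ev C f (X j ^ d) H`); `fro` in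
`T = (MP (Option σ) (Fm N k))[X]`, where `ψ = ev (eval₂Hom φ x) ξ θ`, with equations `C (C G)`,
`C (C (f i) - X i * C f_0)`, `C (C th) - X * C (C f_0)` and conclusions `f_0 χ` and
`f_0 D (pp_j x_i - pp_i x_j)` (`χ` enters as `mq C χ`, see `ev_mq`); `x ≠ 0` as `f_0` is
homogeneous of degree `d > 0`. -/
theorem Chart.spread {GG : Set (Fm N k)} (hG : GG.Finite) (c : Chart k σ N GG) :
    ∀ᶠ v in 𝓕, ∃ c' : Chart (R v) σ N (map (R v).subtype ⁻¹' GG), c'.IsMap (R v).subtype c := by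
  exact csp2_c hR (fun v => (R v).subtype_injective) hG c

/-- `lf_unit`, `lf_sep`, `map_line`, `line_map`, `totalDegree_map_inj`. -/
theorem GoodLine.spread {ι : Type} {Θ : MP ι k} {a b : ι → k} (h : GoodLine Θ a b) :
    ∀ᶠ v in 𝓕, ∀ (Θ' : MP ι (R v)) (a' b' : ι → R v), MvPolynomial.map (R v).subtype Θ' = Θ →
      (∀ i, (a' i : k) = a i) → (∀ i, (b' i : k) = b i) → GoodLine Θ' a' b' := by
  have hi : ∀ v, Function.Injective (R v).subtype := fun v => (R v).subtype_injective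
  filter_upwards [lf_unit hR hi h.1, lf_sep hR hi h.2.1, lf_unit hR hi h.2.2]
    with v h1 h2 h3 Θ' a' b' e1 e2 e3
  have e : (line (RingHom.id (R v)) a' b' Θ').map (R v).subtype = line (RingHom.id k) a b Θ := by
    rw [map_line, ← e1, line_map, ← funext e2, ← funext e3]
    rfl
  refine ⟨h1 _ ?_, h2 _ e, h3 _ ?_⟩
  · rw [← eval₂_id, eval₂_comp_left, RingHom.comp_id, eval₂_eq_eval_map, e1, ← funext e2]
    rfl
  · rw [← Polynomial.coeff_map, e, ← e1, totalDegree_map_inj (hi v)]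

end Pool.Agent.ZCy
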