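import Pool.Agent.Lib.MP_751085_ag.ZC.CRk
import Pool.Agent.Lib.MP_751085_ag.ZC.CMap

/-! Points of corank one, generic points of hypersurfaces, squarefree polynomials. -/

namespace Pool.Agent.ZCy

open scoped Classical Polynomial
open MvPolynomial Set

variable {K Ω : Type} [Field K] [Field Ω] [Algebra K Ω] {σ : Type}

theorem dvd_of_root {A : Type} [CommRing A] [IsDomain A] [IsGCDMonoid A] {φ : A →+* Ω}
    (hi : Function.Injective φ) {z : Ω} {P Q : A[X]} (hP : Irreducible P)
    (h1 : P.eval₂ φ z = 0) (h2 : Q.eval₂ φ z = 0) : P ∣ Q := by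
  have hj : (IsFractionRing.lift (K := Fr A) hi).comp (algebraMap A _) = φ :=
    RingHom.ext fun a => IsFractionRing.lift_algebraMap hi a
  have h4 : P.natDegree ≠ 0 := fun h => by
    rw [Polynomial.eq_C_of_natDegree_eq_zero h, Polynomial.eval₂_C, map_eq_zero_iff _ hi] at h1
    exact hP.ne_zero (by rw [Polynomial.eq_C_of_natDegree_eq_zero h, h1, map_zero])
  have h5 := hP.isPrimitive h4
  have h6 := (h5.irreducible_iff_irreducible_map_fraction_map (K := Fr A)).1 hP
  refine h5.dvd_of_fraction_map_dvd_fraction_map (K := Fr A)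
    ((h6.isCoprime_or_dvd _).resolve_left fun h => ?_)
  have h7 := h.map (Polynomial.eval₂RingHom (IsFractionRing.lift (K := Fr A) hi) z)
  rw [Polynomial.coe_eval₂RingHom, Polynomial.eval₂_map, Polynomial.eval₂_map, hj, h1, h2] at h7
  exact not_isCoprime_zero_zero h7

theorem injective_eval₂Hom {y : σ → Ω} :
    Function.Injective (eval₂Hom (algebraMap K Ω) y) ↔ AlgebraicIndependent K y := by
  rw [algebraicIndependent_iff_injective_aeval, funext (aeval_eq_eval₂Hom y)]

theorem ht1_opt {y : Option σ → Ω} (hy : AlgebraicIndependent K fun i => y (some i))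
    {P Q : MP (Option σ) K} (hP : Irreducible P) (h1 : aeval y P = 0) (h2 : aeval y Q = 0) :
    P ∣ Q := by
  rw [aeval_def, eval₂_tp, ev_def] at h1 h2
  rw [← map_dvd_iff (optionEquivLeft K σ)]
  exact dvd_of_root (injective_eval₂Hom.2 hy) (hP.map (optionEquivLeft K σ)) h1 h2

variable [Fintype σ]

theorem exists_indep_compl {y : σ → Ω} (h : (Fintype.card σ : ℕ∞) ≤ rk K (range y) + 1)
    (h0 : 0 < Fintype.card σ) :
    ∃ j, AlgebraicIndependent K fun i : {i // i ≠ j} => y i.1 := by
  obtain ⟨r, hr⟩ : ∃ r, Fintype.card σ = r + 1 := ⟨_, (Nat.succ_pred_eq_of_pos h0).symm⟩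
  rw [hr, Nat.cast_add, Nat.cast_one, ENat.add_le_add_iff_right ENat.one_ne_top] at h
  obtain ⟨T, h1, h2⟩ := exists_indep_of_le_rk h
  obtain ⟨j, hj⟩ := Finset.card_eq_one.1 (show Tᶜ.card = 1 by
    rw [Finset.card_compl, hr, h1, Nat.add_sub_cancel_left])
  have h3 : ∀ i, i ≠ j → i ∈ T := fun i hi => by
    by_contra h4
    exact hi (Finset.mem_singleton.1 (hj ▸ Finset.mem_compl.2 h4))
  exact ⟨j, h2.comp (fun i : {i // i ≠ j} => ⟨i, h3 i i.2⟩) fun a b h => Subtype.ext
    (congrArg (fun z : T => z.1) h)⟩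

/-- the ideal of a point of corank at most one is principal -/
theorem ht1 {y : σ → Ω} (h : (Fintype.card σ : ℕ∞) ≤ rk K (range y) + 1) {P Q : MP σ K}
    (hP : Irreducible P) (h1 : aeval y P = 0) (h2 : aeval y Q = 0) : P ∣ Q := by
  have h3 := rk_add_one_le hP.ne_zero h1
  obtain ⟨j, hj⟩ := exists_indep_compl h (by
    have : (1 : ℕ∞) ≤ Fintype.card σ := le_add_self.trans h3
    exact_mod_cast this)
  let e := (Equiv.optionSubtypeNe j).symm
  rw [← map_dvd_iff (renameEquiv K e)]
  have h4 : ∀ p : MP σ K, aeval (y ∘ e.symm) (renameEquiv K e p) = aeval y p := fun p => by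
    rw [renameEquiv_apply, aeval_rename]
    congr 2
    funext i
    simp
  exact ht1_opt (y := y ∘ e.symm) hj (hP.map _) ((h4 P).trans h1) ((h4 Q).trans h2)

/-- a hypersurface has a point of corank one -/
theorem exists_generic {m : MP σ K} (h0 : m ≠ 0) (hu : ¬IsUnit m) :
    ∃ (Ω : Type) (_ : Field Ω) (_ : Algebra K Ω) (y : σ → Ω), IsAlgClosed Ω ∧ aeval y m = 0 ∧
      (Fintype.card σ : ℕ∞) ≤ rk K (range y) + 1 := by
  obtain ⟨j, hj⟩ : m.vars.Nonempty := by
    by_contra h
    rw [Finset.not_nonempty_iff_eq_empty, vars_eq_empty_iff_eq_C] at h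
    refine hu (h ▸ (IsUnit.mk0 _ fun h1 => h0 ?_).map C)
    rw [h, h1, map_zero]
  let e := (Equiv.optionSubtypeNe j).symm
  let A := MP {i // i ≠ j} K
  let L := AlgebraicClosure (Fr A)
  have hi : Function.Injective (toE A L) :=
    (algebraMap (Fr A) L).injective.comp (IsFractionRing.injective A _)
  have h1 : ((tp (rename e m)).map (toE A L)).degree ≠ 0 := by
    rw [Polynomial.degree_map_eq_of_injective hi]
    intro h
    have h2 := Polynomial.natDegree_eq_of_degree_eq_some (n := 0) h
    rw [natDegree_optionEquivLeft, show (none : Option {i // i ≠ j}) = e j by simp [e],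
      degreeOf_rename_of_injective e.injective] at h2
    exact (mem_vars_iff_degreeOf_ne_zero.1 hj) h2
  obtain ⟨z, hz⟩ := IsAlgClosed.exists_root _ h1
  have e1 : eval₂Hom (algebraMap K L) (fun i => toE A L (X i)) = toE A L := by
    ext : 1
    · ext : 1
      rw [RingHom.comp_apply, RingHom.comp_apply, eval₂Hom_C]; rfl
    · rw [eval₂Hom_X']
  refine ⟨L, inferInstance, inferInstance, (fun o => o.elim z fun i => toE A L (X i)) ∘ e,
    inferInstance, ?_, ?_⟩
  · rw [← aeval_rename, aeval_def, eval₂_tp, ev_eq_eval]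
    exact (congrArg (fun f => ((tp (rename e m)).map f).eval z) e1).trans hz
  · have h2 : AlgebraicIndependent K fun i => toE A L (X i) := by
      rwa [← injective_eval₂Hom, e1]
    rw [Fintype.card_congr e, Fintype.card_option, Nat.cast_add, Nat.cast_one]
    refine add_le_add_left ((rk_range_iff.2 h2).trans (rk_mono ?_)) 1
    rintro _ ⟨i, rfl⟩
    exact ⟨e.symm (some i), by simp⟩

/-- A squarefree polynomial and its images under derivations vanish together at a point of
corank one: some irreducible factor divides its own images. -/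
theorem exists_factor_der {G : MP σ K} (hG : Squarefree G) {y : σ → Ω}
    (h : (Fintype.card σ : ℕ∞) ≤ rk K (range y) + 1) (h0 : aeval y G = 0) :
    ∃ m, Irreducible m ∧ m ∣ G ∧ aeval y m = 0 ∧
      ∀ D : Derivation K (MP σ K) (MP σ K), aeval y (D G) = 0 → m ∣ D m := by
  obtain ⟨m, h1, h2, h3⟩ : ∃ m, Irreducible m ∧ m ∣ G ∧ aeval y m = 0 := by
    have hp : (RingHom.ker (aeval y : MP σ K →ₐ[K] Ω)).IsPrime := RingHom.ker_isPrime _
    obtain ⟨u, hu⟩ := (UniqueFactorizationMonoid.factors_prod hG.ne_zero).symm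
    have h1 : (UniqueFactorizationMonoid.factors G).prod ∈ RingHom.ker (aeval y : _ →ₐ[K] Ω) :=
      hu ▸ Ideal.mul_mem_right _ _ h0
    obtain ⟨m, h2, h3⟩ := hp.multiset_prod_mem_iff_exists_mem _ |>.1 h1
    exact ⟨m, UniqueFactorizationMonoid.irreducible_of_factor _ h2,
      UniqueFactorizationMonoid.dvd_of_mem_factors h2, h3⟩
  refine ⟨m, h1, h2, h3, fun D hD => ?_⟩
  obtain ⟨w, rfl⟩ := h2
  have h4 := ht1 h h1 h3 hD
  rw [D.leibniz, smul_eq_mul, smul_eq_mul, dvd_add_right (dvd_mul_right _ _)] at h4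
  refine (h1.prime.dvd_or_dvd h4).resolve_left fun h5 => h1.not_isUnit (hG m ?_)
  exact mul_dvd_mul_left _ h5

omit [Fintype σ] in
theorem pderiv_eq_zero_of_dvd {m : MP σ K} {i : σ} (h : m ∣ pderiv i m) : pderiv i m = 0 := by
  by_contra h0
  have h1 := totalDegree_le_of_dvd_of_isDomain h h0
  obtain ⟨s, hs, h2⟩ := Finset.exists_mem_eq_sup _ (support_nonempty.2 h0)
    fun s : σ →₀ ℕ => s.sum fun _ e => e
  rw [mem_support_iff, coeff_pderiv] at hs
  have h3 := le_totalDegree (mem_support_iff.2 (left_ne_zero_of_mul hs))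
  rw [Finsupp.sum_add_index' (fun _ => rfl) fun _ _ _ => rfl, Finsupp.sum_single_index rfl] at h3
  have h4 : (pderiv i m).totalDegree = s.sum fun _ e => e := h2
  omega

omit [Fintype σ] in
theorem notMem_vars_of_pderiv [CharZero K] {m : MP σ K} {i : σ} (h : pderiv i m = 0) :
    i ∉ m.vars := fun hi => by
  obtain ⟨s, hs, h1⟩ := (mem_vars_iff_mem_support i).1 hi
  have h2 := congrArg (coeff (s - Finsupp.single i 1)) h
  rw [coeff_pderiv, tsub_add_cancel_of_le (Finsupp.single_le_iff.2
    (Nat.one_le_iff_ne_zero.2 (Finsupp.mem_support_iff.1 h1))), coeff_zero] at h2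
  exact mul_ne_zero (mem_support_iff.1 hs) (Nat.cast_add_one_ne_zero _) h2

/-- singular points of a squarefree polynomial have corank at least two -/
theorem sing [CharZero K] {G : MP σ K} (hG : Squarefree G) {y : σ → Ω}
    (h : (Fintype.card σ : ℕ∞) ≤ rk K (range y) + 1) (h0 : aeval y G = 0) :
    ∃ i, aeval y (pderiv i G) ≠ 0 := by
  by_contra h1
  push Not at h1
  obtain ⟨m, h2, -, h3, h4⟩ := exists_factor_der hG h h0
  have h5 : m = C (coeff 0 m) := vars_eq_empty_iff_eq_C.1 (Finset.eq_empty_of_forall_notMem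
    fun i => notMem_vars_of_pderiv (pderiv_eq_zero_of_dvd (h4 _ (h1 i))))
  rw [h5, aeval_C, map_eq_zero] at h3
  exact h2.ne_zero (by rw [h5, h3, map_zero])

/-- squarefree polynomials stay squarefree over an extension field -/
theorem squarefree_map [CharZero K] {G : MP σ K} (hG : Squarefree G) :
    Squarefree (map (algebraMap K Ω) G) := by
  intro m hm
  by_contra hu
  have h0 : m ≠ 0 := by
    rintro rfl
    rw [mul_zero, zero_dvd_iff, map_eq_zero_iff _ (map_injective _ (algebraMap K Ω).injective)]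
      at hm
    exact hG.ne_zero hm
  obtain ⟨L, _, _, y, -, h1, h2⟩ := exists_generic h0 hu
  let _ : Algebra K L := ((algebraMap Ω L).comp (algebraMap K Ω)).toAlgebra
  have : IsScalarTower K Ω L := IsScalarTower.of_algebraMap_eq fun _ => rfl
  obtain ⟨w, hw⟩ := hm
  obtain ⟨i, hi⟩ := sing hG (h2.trans (add_le_add_left (rk_le_of_tower _) 1)) (by
    rw [← aeval_map_algebraMap Ω, hw, map_mul, map_mul, h1, zero_mul, zero_mul])
  refine hi ?_
  rw [← aeval_map_algebraMap Ω, ← pderiv_map, hw]
  simp [h1]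

/-- a squarefree polynomial divides every polynomial that vanishes on its zeros -/
theorem dvd_of_zeros [IsAlgClosed K] {P Q : MP σ K} (hP : Squarefree P)
    (h : ∀ y : σ → K, eval y P = 0 → eval y Q = 0) : P ∣ Q := by
  have h1 : Q ∈ (Ideal.span {P}).radical := by
    rw [← vanishingIdeal_zeroLocus_eq_radical (K := K)]
    intro y hy
    exact h y (hy P (Ideal.mem_span_singleton_self P))
  obtain ⟨r, hr⟩ := h1
  exact hP.isRadical r Q (Ideal.mem_span_singleton.1 hr)

omit [Fintype σ] in
/-- the radical -/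
theorem exists_radical {P : MP σ K} (h : P ≠ 0) :
    ∃ (Q : MP σ K) (r : ℕ), Squarefree Q ∧ Q ∣ P ∧ P ∣ Q ^ r := by
  let _ : StrongNormalizationMonoid (MP σ K) := UniqueFactorizationMonoid.strongNormalizationMonoid
  obtain ⟨r, hr⟩ := UniqueFactorizationMonoid.exists_dvd_radical_self_pow h
  exact ⟨_, r, UniqueFactorizationMonoid.squarefree_radical,
    UniqueFactorizationMonoid.radical_dvd_self, hr⟩

end Pool.Agent.ZCy
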