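import Pool.Agent.Lib.MP_796ce4_ag.ZY.CvQ

/-! Amalgamation and descent of principal divisors. -/

namespace Pool.Agent.ZCy.U

open Polynomial Pool.Agent.ZeroCyc
open scoped Classical

/-- two fields over a common domain embed in a common algebraically closed field -/
theorem exists_amalg {R A B : Type} [CommRing R] [Field A] [Field B] (f : R →+* A) (g : R →+* B)
    (h : RingHom.ker f = RingHom.ker g) : ∃ (Ω : Type) (_ : Field Ω) (_ : IsAlgClosed Ω)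
      (a : A →+* Ω) (b : B →+* Ω), a.comp f = b.comp g := by
  let f' : R ⧸ RingHom.ker f →+* A := RingHom.kerLift f
  let g' : R ⧸ RingHom.ker f →+* B := Ideal.Quotient.lift _ g fun x hx => by
    rw [h] at hx; exact hx
  have hf : Function.Injective f' := RingHom.kerLift_injective f
  have hg : Function.Injective g' := RingHom.lift_injective_of_ker_le_ideal _ _ h.ge
  let := f'.toAlgebra
  let := g'.toAlgebra
  have := Algebra.TensorProduct.nontrivial_of_algebraMap_injective_of_isDomain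
    (R ⧸ RingHom.ker f) A B hf hg
  obtain ⟨m, hm⟩ := Ideal.exists_maximal (TensorProduct (R ⧸ RingHom.ker f) A B)
  let := Ideal.Quotient.field m
  let π : TensorProduct (R ⧸ RingHom.ker f) A B →+* AlgebraicClosure (_ ⧸ m) :=
    (algebraMap _ _).comp (Ideal.Quotient.mk m)
  refine ⟨AlgebraicClosure (_ ⧸ m), inferInstance, inferInstance,
    π.comp Algebra.TensorProduct.includeLeftRingHom,
    π.comp (Algebra.TensorProduct.includeRight (R := R ⧸ RingHom.ker f) (A := A)).toRingHom,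
    RingHom.ext fun x => congrArg π ?_⟩
  have h1 := DFunLike.congr_fun (Algebra.TensorProduct.includeLeftRingHom_comp_algebraMap
    (R := R ⧸ RingHom.ker f) (A := A) (B := B)) (Ideal.Quotient.mk _ x)
  exact h1

/-- the Nullstellensatz: a finitely generated subalgebra has a point -/
theorem exists_retract {𝕜 Ω : Type} [Field 𝕜] [IsAlgClosed 𝕜] [Field Ω] (ι : 𝕜 →+* Ω)
    (S : Finset Ω) : ∃ (V : Subring Ω) (ι₀ : 𝕜 →+* V) (ψ : V →+* 𝕜), (∀ x ∈ S, x ∈ V) ∧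
      V.subtype.comp ι₀ = ι ∧ ψ.comp ι₀ = RingHom.id 𝕜 := by
  let := ι.toAlgebra
  let W : Subalgebra 𝕜 Ω := Algebra.adjoin 𝕜 (S : Set Ω)
  have : Algebra.FiniteType 𝕜 W := (Subalgebra.fg_iff_finiteType W).1 (Subalgebra.fg_adjoin_finset S)
  obtain ⟨m, hm⟩ := Ideal.exists_maximal W
  let := Ideal.Quotient.field m
  have := finite_of_finite_type_of_isJacobsonRing 𝕜 (W ⧸ m)
  let φ : W →ₐ[𝕜] 𝕜 := (IsAlgClosed.lift : (W ⧸ m) →ₐ[𝕜] 𝕜).comp (Ideal.Quotient.mkₐ 𝕜 m)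
  exact ⟨W.toSubring, algebraMap 𝕜 W, φ.toRingHom, fun x hx => Algebra.subset_adjoin hx,
    RingHom.ext fun _ => rfl, RingHom.ext fun x => φ.commutes x⟩

/-- the kernel of the evaluation at a point with transcendental first coordinate -/
theorem ker_e2 {𝕜 A : Type} [Field 𝕜] [Field A] (ι : 𝕜 →+* A) {χ : 𝕜[X][X]} (hm : χ.Monic)
    (hi : Irreducible χ) {τ η : A} (hτ : ∀ u : 𝕜[X], u.eval₂ ι τ = 0 → u = 0)
    (h : e2 ι τ η χ = 0) : RingHom.ker (e2 ι τ η) = Ideal.span {χ} := by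
  let : Algebra 𝕜[X] A := (eval₂RingHom ι τ).toAlgebra
  have hinj : Function.Injective (algebraMap 𝕜[X] A) := (injective_iff_map_eq_zero _).2 hτ
  have : Module.IsTorsionFree 𝕜[X] A := Module.isTorsionFree_iff_algebraMap_injective.2 hinj
  have he : ∀ a : 𝕜[X][X], e2 ι τ η a = aeval η a := fun a => rfl
  have hint : IsIntegral 𝕜[X] η := ⟨χ, hm, h⟩
  obtain ⟨q, hq⟩ := minpoly.isIntegrallyClosed_dvd hint ((he χ).symm.trans h)
  have hu : IsUnit q := (hi.isUnit_or_isUnit hq).resolve_left (minpoly.not_isUnit _ η)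
  ext a
  rw [RingHom.mem_ker, he, minpoly.isIntegrallyClosed_dvd_iff hint, Ideal.mem_span_singleton, hq,
    hu.mul_right_dvd]

/-- divisibility modulo principal divisors descends to an algebraically closed subfield -/
theorem descend_PP {𝕜 Ω : Type} [Field 𝕜] [IsAlgClosed 𝕜] [Field Ω] [IsAlgClosed Ω] (c : Cv 𝕜)
    (ι : 𝕜 →+* Ω) {D : 𝕜 × 𝕜 →₀ ℤ} {M : ℕ} {E : Ω × Ω →₀ ℤ} (hE : E ∈ (c.map ι).Dv)
    (h : psh (pm ι) D - M • E ∈ (c.map ι).PP) : ∃ E' ∈ c.Dv, D - M • E' ∈ c.PP := by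
  obtain ⟨S, hS⟩ := Cv.exists_spec c ι h
  obtain ⟨V, ι₀, ψ, hV, h1, h2⟩ := exists_retract ι (S ∪ (E.support.image Prod.fst ∪
    (E.support.image Prod.snd ∪ E.support.image fun Q => ((c.map ι).ρ.eval Q.1)⁻¹)))
  have h3 := hS V ι₀ 𝕜 ψ (fun x hx => hV x (Finset.mem_union_left _ hx)) h1
  have h4 : ∀ x, xt V ψ (ι x) = x := fun x => by
    rw [← h1]
    exact (xt_coe V ψ (ι₀ x)).trans (DFunLike.congr_fun h2 x)
  have h5 : psh (pm (xt V ψ)) (psh (pm ι) D) = D := by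
    rw [psh_psh]
    refine (psh_congr fun Q _ => ?_).trans (psh_id D)
    exact Prod.ext (h4 _) (h4 _)
  rw [h2, Cv.map_id, map_sub, map_nsmul, h5] at h3
  refine ⟨_, fun Q' e => ?_, h3⟩
  obtain ⟨Q, hQ, rfl⟩ := psh_ne_zero e
  have hs := Finsupp.mem_support_iff.2 hQ
  have m1 : Q.1 ∈ V := hV _ (Finset.mem_union_right _ (Finset.mem_union_left _
    (Finset.mem_image_of_mem _ hs)))
  have m2 : Q.2 ∈ V := hV _ (Finset.mem_union_right _ (Finset.mem_union_right _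
    (Finset.mem_union_left _ (Finset.mem_image_of_mem _ hs))))
  have m3 : ((c.map ι).ρ.eval Q.1)⁻¹ ∈ V := hV _ (Finset.mem_union_right _
    (Finset.mem_union_right _ (Finset.mem_union_right _ (Finset.mem_image_of_mem _ hs))))
  obtain ⟨g1, g2⟩ := hE Q hQ
  have e0 : pm (xt V ψ) Q = pm ψ ((⟨Q.1, m1⟩, ⟨Q.2, m2⟩) : V × V) :=
    Prod.ext (xt_coe V ψ ⟨Q.1, m1⟩) (xt_coe V ψ ⟨Q.2, m2⟩)
  have e1 : ∀ a : 𝕜[X][X], (ee ((⟨Q.1, m1⟩, ⟨Q.2, m2⟩) : V × V) (mp ι₀ a) : Ω) =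
      ee Q (mp ι a) := fun a => by
    refine (map_ee V.subtype _ _).trans ?_
    rw [mp_mp, h1]
    rfl
  have e2 : ∀ a : 𝕜[X][X], ψ (ee ((⟨Q.1, m1⟩, ⟨Q.2, m2⟩) : V × V) (mp ι₀ a)) =
      ee (pm (xt V ψ) Q) a := fun a => by
    rw [map_ee, mp_mp, h2, e0]
    simp
  refine ⟨?_, fun h0 => ?_⟩
  · have e3 : ee ((⟨Q.1, m1⟩, ⟨Q.2, m2⟩) : V × V) (mp ι₀ c.χ) = 0 :=
      Subtype.ext ((e1 _).trans g1)
    rw [On, ← e2, e3, map_zero]
  · have e3 : ee ((⟨Q.1, m1⟩, ⟨Q.2, m2⟩) : V × V) (mp ι₀ (C c.ρ)) * ⟨_, m3⟩ = 1 := by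
      refine Subtype.ext ?_
      rw [Subring.coe_mul, e1, mp_C, ee_C]
      exact mul_inv_cancel₀ g2
    have e4 := congrArg ψ e3
    rw [map_mul, e2, ee_C, h0, zero_mul, map_one] at e4
    exact zero_ne_one e4

end Pool.Agent.ZCy.U
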