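import Pool.Agent.Lib.MP_751085_ag.ZC.PDefs

/-! Forms with given coefficients, generic properties, gradients, homogeneous covers. -/

namespace Pool.Agent.ZCy

open scoped Classical Polynomial
open MvPolynomial

set_option linter.unusedSectionVars false

/-- `S` holds off a hypersurface -/
def Gn (k : Type) [Field k] {ι : Type} (S : (ι → k) → Prop) : Prop :=
  ∃ r : MP ι k, r ≠ 0 ∧ ∀ a, eval a r ≠ 0 → S a

/-- monomials of degree `d` -/
abbrev Mon (N d : ℕ) : Type := ↥((Finset.univ : Finset (Fin (N + 1))).finsuppAntidiag d)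

section

variable {R S : Type} [CommRing R] [CommRing S] {N d : ℕ} {ι κ : Type}

/-- the form with coefficients `a` -/
noncomputable def form (a : Mon N d → R) : Fm N R := ∑ m, monomial m.1 (a m)

/-- the family of forms with coefficients `a` -/
noncomputable def forms (a : ι × Mon N d → R) (i : ι) : Fm N R := form fun m => a (i, m)

/-- the gradient of `G` at `x` -/
noncomputable def grad [Algebra R S] (x : ι → S) (G : MP ι R) : ι → S :=
  fun i => aeval x (pderiv i G)

/-- the substitution `y ↦ u x`, `u` a new variable -/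
noncomputable def scl (R : Type) [CommRing R] [Algebra R S] (x : ι → S) : MP ι R →ₐ[R] S[X] :=
  aeval fun j => Polynomial.C (x j) * Polynomial.X

/-- homogeneous of degree `m` in the variables `T` and `Z` -/
def WH (m : ℕ) (p : (MP ι R)[X]) : Prop := ((optionEquivLeft R ι).symm p).IsHomogeneous m

/-- the linear substitution `T = M T'` -/
noncomputable def lin [Fintype κ] (M : Matrix ι κ R) : MP ι R →ₐ[R] MP κ R :=
  aeval fun i => ∑ j, C (M i j) * X j

/-- the substitution `T_0 = 1` -/
noncomputable def deh : MP (Option ι) R →ₐ[R] MP ι R := aeval fun i => i.elim 1 X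

theorem Mon.degree (m : Mon N d) : m.1.degree = d := by
  rw [Finsupp.degree_eq_sum]
  exact (Finset.mem_finsuppAntidiag.1 m.2).1

/-- the monomial given by an exponent of degree `d` -/
def Mon.mk' (m : Fin (N + 1) →₀ ℕ) (h : m.degree = d) : Mon N d :=
  ⟨m, Finset.mem_finsuppAntidiag.2 ⟨by rwa [Finsupp.degree_eq_sum] at h, Finset.subset_univ _⟩⟩

theorem form_hom (a : Mon N d → R) : (form a).IsHomogeneous d :=
  IsHomogeneous.sum _ _ _ fun m _ => isHomogeneous_monomial _ m.degree

theorem forms_hom (a : ι × Mon N d → R) (i : ι) : (forms a i).IsHomogeneous d := form_hom _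

theorem coeff_form (a : Mon N d → R) (m : Mon N d) : coeff m.1 (form a) = a m := by
  rw [form, coeff_sum, Finset.sum_eq_single m]
  · simp
  · intro b _ hb
    rw [coeff_monomial, if_neg fun h => hb (Subtype.ext h)]
  · simp

theorem form_coeff {f : Fm N R} (hf : f.IsHomogeneous d) :
    form (fun m : Mon N d => coeff m.1 f) = f := by
  ext m
  by_cases h : m.degree = d
  · exact coeff_form _ (Mon.mk' m h)
  · rw [hf.coeff_eq_zero h, (form_hom _).coeff_eq_zero h]

theorem map_form (φ : R →+* S) (a : Mon N d → R) : map φ (form a) = form fun m => φ (a m) := by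
  simp [form, map_monomial]

theorem map_forms (φ : R →+* S) (a : ι × Mon N d → R) (i : ι) :
    map φ (forms a i) = forms (fun m => φ (a m)) i := map_form _ _

theorem form_add (a b : Mon N d → R) : form (a + b) = form a + form b := by
  simp [form, Finset.sum_add_distrib]

theorem form_smul (c : R) (a : Mon N d → R) : form (c • a) = C c * form a := by
  simp [form, Finset.mul_sum, C_mul_monomial]

/-- the value of a form is linear in the coefficients -/
theorem eval₂_form (φ : R →+* S) (x : Fin (N + 1) → S) (a : Mon N d → R) :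
    eval₂ φ x (form a) = ∑ m, φ (a m) * eval x (monomial m.1 1) := by
  simp [form, eval₂_sum, eval₂_monomial, eval_monomial]

/-- the gradient of a form is linear in the coefficients -/
theorem eval₂_pderiv_form (φ : R →+* S) (x : Fin (N + 1) → S) (a : Mon N d → R) (j : Fin (N + 1)) :
    eval₂ φ x (pderiv j (form a)) = ∑ m, φ (a m) * eval x (pderiv j (monomial m.1 1)) := by
  simp [form, eval₂_sum, pderiv_monomial, eval₂_monomial, eval_monomial, mul_assoc]

theorem eval₂_smul_hom {G : MP ι R} {m : ℕ} (hG : G.IsHomogeneous m) (φ : R →+* S) (c : S)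
    (x : ι → S) : eval₂ φ (c • x) G = c ^ m * eval₂ φ x G := by
  rw [eval₂_eq, eval₂_eq, Finset.mul_sum]
  refine Finset.sum_congr rfl fun e he => ?_
  simp only [Pi.smul_apply, smul_eq_mul, mul_pow, Finset.prod_mul_distrib,
    Finset.prod_pow_eq_pow_sum]
  rw [← hG.degree_eq_sum_deg_support he]
  ring

theorem aeval_smul_hom [Algebra R S] {G : MP ι R} {m : ℕ} (hG : G.IsHomogeneous m) (c : S)
    (x : ι → S) : aeval (c • x) G = c ^ m * aeval x G := eval₂_smul_hom hG _ c x

theorem grad_smul_hom [Algebra R S] {G : MP ι R} {m : ℕ} (hG : G.IsHomogeneous m) (c : S)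
    (x : ι → S) : grad (c • x) G = c ^ (m - 1) • grad x G :=
  funext fun _ => aeval_smul_hom hG.pderiv c x

/-- Euler's identity -/
theorem grad_dot_self [Fintype ι] [Algebra R S] {G : MP ι R} {m : ℕ} (hG : G.IsHomogeneous m)
    (x : ι → S) : grad x G ⬝ᵥ x = m * aeval x G := by
  have h := congrArg (aeval x) hG.sum_X_mul_pderiv
  simpa [dotProduct, grad, mul_comm] using h

theorem scl_hom [Algebra R S] {G : MP ι R} {m : ℕ} (hG : G.IsHomogeneous m) (x : ι → S) :
    scl R x G = Polynomial.monomial m (aeval x G) := by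
  have e : (fun j => Polynomial.C (x j) * Polynomial.X) =
      (Polynomial.X : S[X]) • fun j => (Polynomial.CAlgHom (R := R) (x j)) := by
    funext j; exact mul_comm _ _
  rw [scl, e, aeval_smul_hom hG, ← comp_aeval_apply, ← Polynomial.C_mul_X_pow_eq_monomial, mul_comm]
  rfl

theorem coeff_scl [Algebra R S] (x : ι → S) (G : MP ι R) (m : ℕ) :
    (scl R x G).coeff m = aeval x (homogeneousComponent m G) := by
  conv_lhs => rw [← sum_homogeneousComponent G, map_sum, Polynomial.finsetSum_coeff]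
  simp only [scl_hom (homogeneousComponent_isHomogeneous _ G), Polynomial.coeff_monomial,
    Finset.sum_ite_eq', Finset.mem_range]
  split_ifs with h
  · rfl
  · rw [homogeneousComponent_eq_zero _ _ (by omega), map_zero]

theorem lin_hom [Fintype κ] (M : Matrix ι κ R) {G : MP ι R} {m : ℕ} (hG : G.IsHomogeneous m) :
    (lin M G).IsHomogeneous m := by
  simpa [lin] using hG.aeval (n := 1) (fun i => ∑ j, C (M i j) * X j) fun i =>
    IsHomogeneous.sum _ _ _ fun j _ => isHomogeneous_C_mul_X _ _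

theorem eval₂_lin [Fintype κ] (M : Matrix ι κ R) (φ : R →+* S) (y : κ → S) (G : MP ι R) :
    eval₂ φ y (lin M G) = eval₂ φ (fun i => ∑ j, φ (M i j) * y j) G := by
  have : (eval₂Hom φ y).comp (lin M : MP ι R →+* MP κ R) =
      eval₂Hom φ fun i => ∑ j, φ (M i j) * y j := by
    ext a <;> simp [lin]
  exact RingHom.congr_fun this G

theorem eval₂_deh (φ : R →+* S) (y : ι → S) (G : MP (Option ι) R) :
    eval₂ φ y (deh G) = eval₂ φ (fun i => i.elim 1 y) G := by
  have : (eval₂Hom φ y).comp (deh : MP (Option ι) R →ₐ[R] MP ι R).toRingHom =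
      eval₂Hom φ fun i => i.elim 1 y := by
    ext a
    · simp
    · cases a <;> simp [deh]
  exact RingHom.congr_fun this G

end

variable {k : Type} [Field k] (X : Var k) {ι : Type}

/-- `x` is a zero of the equations of `X` -/
def Var.Zr {S : Type} [CommRing S] [Algebra k S] (x : Fin (X.N + 1) → S) : Prop :=
  ∀ G ∈ X.I, aeval x G = 0

/-- the span of the gradients of the equations -/
noncomputable def Var.jac {Ω : Type} [Field Ω] [Algebra k Ω] (x : Fin (X.N + 1) → Ω) :
    Submodule Ω (Fin (X.N + 1) → Ω) := Submodule.span Ω (grad x '' X.I)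

/-- the forms `f` have no common zero on `X` -/
def Var.B1 (f : ι → Fm X.N k) : Prop :=
  ∀ (Ω : Type) [Field Ω] [Algebra k Ω] (x : Fin (X.N + 1) → Ω), X.On x → ∃ i, aeval x (f i) ≠ 0

/-- the section by `f` is smooth -/
def Var.Sm (f : Fm X.N k) : Prop :=
  ∀ (Ω : Type) [Field Ω] [Algebra k Ω] (x : Fin (X.N + 1) → Ω), X.On x → grad x f ∉ X.jac x

/-- the points of the cone over `X` that are mapped to `y` -/
def Var.Fib (f : ι → Fm X.N k) {Ω : Type} [Field Ω] [Algebra k Ω] (y : ι → Ω) :
    Set (Fin (X.N + 1) → Ω) := {x | X.On x ∧ ∀ i, aeval x (f i) = y i}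

/-- `f` is unramified along the fibre over `y` -/
def Var.Et (f : ι → Fm X.N k) {Ω : Type} [Field Ω] [Algebra k Ω] (y : ι → Ω) : Prop :=
  ∀ x ∈ X.Fib f y, ∀ v : Fin (X.N + 1) → Ω, (∀ G ∈ X.I, grad x G ⬝ᵥ v = 0) →
    (∀ i, grad x (f i) ⬝ᵥ v = 0) → v = 0

/-- `th` separates the points of the fibre over `y` -/
def Var.Sep (f : ι → Fm X.N k) (th : Fm X.N k) {Ω : Type} [Field Ω] [Algebra k Ω] (y : ι → Ω) :
    Prop := ∀ x ∈ X.Fib f y, ∀ x' ∈ X.Fib f y, aeval x th = aeval x' th → ∃ ζ : Ω, x' = ζ • x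

/-- the coordinates are integral over the forms `f` of degree `d` -/
def Var.Int (d : ℕ) (f : ι → Fm X.N k) : Prop :=
  ∀ j, ∃ H : (MP ι k)[X], H.Monic ∧ WH H.natDegree H ∧ ∀ (S : Type) [CommRing S] [Algebra k S]
    (x : Fin (X.N + 1) → S), X.Zr x →
      ev (algebraMap k S) (fun i => aeval x (f i)) (x j ^ d) H = 0

/-- the generic point of the affine space with coordinates `ι` -/
noncomputable def gpt (k ι : Type) [Field k] (i : ι) : AlgebraicClosure (RF ι k) :=
  toE (MP ι k) _ (MvPolynomial.X i)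

/-- A finite projection of `X` in homogeneous form. -/
structure Cover (X : Var k) (ι : Type) where
  d : ℕ
  δ : ℕ
  γ : ℕ
  f : ι → Fm X.N k
  th : Fm X.N k
  l : Fm X.N k
  χ : (MP ι k)[X]
  pp : Fin (X.N + 1) → (MP ι k)[X]
  D : MP ι k
  G : MP ι k
  dpos : 0 < d
  hf : ∀ i, (f i).IsHomogeneous d
  hth : th.IsHomogeneous d
  hl : l.IsHomogeneous 1
  monic : χ.Monic
  deg : χ.natDegree = δ
  pos : 0 < δ
  wχ : WH δ χ
  wp : ∀ j, WH δ (pp j)
  hG : G.IsHomogeneous γ
  sqf : Squarefree G
  dvd : ∃ r : ℕ, D ∣ G ^ r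
  dvd' : G ∣ D
  bez : ∃ β, χ ∣ Polynomial.C D - β * (Polynomial.derivative χ * sb pp l)
  tight : ∀ (Ω : Type) [Field Ω] [Algebra k Ω] [IsAlgClosed Ω] (y : ι → Ω),
    (∀ z, ev (algebraMap k Ω) y z χ = 0 →
      ev (algebraMap k Ω) y z (Polynomial.derivative χ * sb pp l) ≠ 0) → aeval y D ≠ 0
  dv_on : ∀ E ∈ X.I, χ ∣ sb pp E
  dv_f : ∀ i, χ ∣ sb pp (f i) -
    Polynomial.C (MvPolynomial.X i) * (Polynomial.derivative χ * sb pp l ^ (d - 1))
  dv_th : χ ∣ sb pp th - Polynomial.X * (Polynomial.derivative χ * sb pp l ^ (d - 1))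
  root : ∀ (S : Type) [CommRing S] [Algebra k S] (x : Fin (X.N + 1) → S), X.Zr x →
    ev (algebraMap k S) (fun i => aeval x (f i)) (aeval x th) χ = 0
  fro : ∀ (S : Type) [CommRing S] [Algebra k S] (x : Fin (X.N + 1) → S), X.Zr x → ∀ j,
    ev (algebraMap k S) (fun i => aeval x (f i)) (aeval x th) (pp j) =
      ev (algebraMap k S) (fun i => aeval x (f i)) (aeval x th) (Polynomial.derivative χ) *
        aeval x l ^ (d - 1) * x j
  int : X.Int d f

variable {X}

theorem Var.On.zr {M : Type} [Field M] [Algebra k M] {x : Fin (X.N + 1) → M} (h : X.On x) :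
    X.Zr x := h.2

theorem Var.Zr.map {S T : Type} [CommRing S] [Algebra k S] [CommRing T] [Algebra k T]
    {x : Fin (X.N + 1) → S} (h : X.Zr x) (ψ : S →ₐ[k] T) : X.Zr fun j => ψ (x j) := fun G hG => by
  rw [← comp_aeval_apply, h G hG, map_zero]

theorem Var.Zr.smul {S : Type} [CommRing S] [Algebra k S] {x : Fin (X.N + 1) → S} (h : X.Zr x)
    (c : S) : X.Zr (c • x) := fun G hG => by
  obtain ⟨m, hm⟩ := hG.1
  rw [aeval_smul_hom hm, h G hG, mul_zero]

theorem Var.On.smul {M : Type} [Field M] [Algebra k M] {x : Fin (X.N + 1) → M} (h : X.On x)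
    {c : M} (hc : c ≠ 0) : X.On (c • x) := ⟨smul_ne_zero hc h.1, h.zr.smul c⟩

theorem Var.On.map {M M' : Type} [Field M] [Algebra k M] [Field M'] [Algebra k M']
    {x : Fin (X.N + 1) → M} (h : X.On x) (ψ : M →ₐ[k] M') : X.On fun j => ψ (x j) :=
  ⟨fun e => h.1 (funext fun j => ψ.injective ((congrFun e j).trans (map_zero ψ).symm)), h.zr.map ψ⟩

theorem Var.on_g : X.On X.g := by
  obtain ⟨i, hi⟩ := X.one
  exact ⟨fun e => one_ne_zero (hi.symm.trans (congrFun e i)), fun _ hG => hG.2⟩

/-- a polynomial that vanishes at the generic point of the cone vanishes on the cone -/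
theorem Var.Zr.aeval_eq_zero {S : Type} [CommRing S] [Algebra k S] {x : Fin (X.N + 1) → S}
    (h : X.Zr x) {P : Fm X.N k} (hP : scl k X.g P = 0) : aeval x P = 0 := by
  rw [← sum_homogeneousComponent P, map_sum]
  refine Finset.sum_eq_zero fun m _ => h _ ⟨⟨m, homogeneousComponent_isHomogeneous m P⟩, ?_⟩
  rw [← coeff_scl, hP, Polynomial.coeff_zero]

theorem Var.IK_self : X.IK k = X.I := by
  simp [Var.IK, map_id]

theorem Var.zer_IK {K S : Type} [Field K] [Algebra k K] [CommRing S] [Algebra k S] (φ : K →+* S)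
    (hφ : ∀ a, φ (algebraMap k K a) = algebraMap k S a) {x : Fin (X.N + 1) → S} :
    Zer (X.IK K) φ x ↔ X.Zr x := by
  have e : φ.comp (algebraMap k K) = algebraMap k S := RingHom.ext hφ
  simp only [Zer, Var.IK, Set.forall_mem_image, eval₂_map, e, Var.Zr, aeval_def]

theorem Cover.D_ne (c : Cover X ι) : c.D ≠ 0 := fun h => by
  obtain ⟨r, hr⟩ := c.dvd
  exact c.sqf.ne_zero (eq_zero_of_pow_eq_zero (zero_dvd_iff.1 (h ▸ hr)))

end Pool.Agent.ZCy
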