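import Pool.Agent.Lib.MP_751085_ag.ZC.A2
import Pool.Agent.Lib.MP_751085_ag.ZC.G2
import Pool.Agent.Lib.MP_751085_ag.ZC.G4

/-! Consequences of Hilbert 90. -/

namespace Pool.Agent.ZCy

open scoped Classical
open groupCohomology

section aux

variable {K E E' Ω G G' : Type} [Field K] [Field E] [Field E'] [Field Ω]

theorem a2b_map_inj (j : E →+* E') : Function.Injective (Units.map (j : E →* E')) :=
  Units.map_injective j.injective

theorem a2b_unit (j : E →+* E') {u : E'ˣ} (h : (u : E') ∈ j.range) :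
    ∃ v : Eˣ, Units.map (j : E →* E') v = u := by
  obtain ⟨x, hx⟩ := h
  exact ⟨Units.mk0 x fun h0 => u.ne_zero (by rw [← hx, h0, map_zero]), Units.ext hx⟩

theorem a2b_pull_inj (j : E →+* E') {r : G' → G} (hr : Function.Surjective r) {c c' : G × G → Eˣ}
    (h : pull j r c = pull j r c') : c = c' := by
  funext ⟨g, g'⟩
  obtain ⟨g, rfl⟩ := hr g
  obtain ⟨g', rfl⟩ := hr g'
  exact a2b_map_inj j (congrFun h (g, g'))

/-- the kernel of a map of pairs -/
theorem a2b_ker [Group G] [Group G'] [MulSemiringAction G E] [MulSemiringAction G' E']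
    [FaithfulSMul G E] {j : E →+* E'} {r : G' → G} (hr : ∀ g x, j (r g • x) = g • j x) :
    ∃ N : Subgroup G', (∀ g, g ∈ N ↔ r g = 1) ∧ (∀ g, ∀ i ∈ N, g * i * g⁻¹ ∈ N) ∧
      ∀ g g', r g = r g' → g⁻¹ * g' ∈ N := by
  let ρ : G' →* G := MonoidHom.mk' r (lk_mul hr)
  refine ⟨ρ.ker, fun _ => Iff.rfl, fun g i hi => ρ.normal_ker.conj_mem i hi g, fun g g' h => ?_⟩
  have h' : ρ g = ρ g' := h
  rw [MonoidHom.mem_ker, map_mul, map_inv, h', inv_mul_cancel]

variable [Algebra K E] [Algebra K Ω]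

theorem a2b_gen [FiniteDimensional K E] (j : E →ₐ[K] Ω) :
    ∃ s : Finset Ω, (∀ y ∈ s, ∃ x, j x = y) ∧
      ∀ L : Submodule K Ω, (∀ y ∈ s, y ∈ L) → ∀ x, j x ∈ L := by
  let b := Module.finBasis K E
  refine ⟨Finset.univ.image fun i => j (b i), fun y hy => ?_, fun L hL x => ?_⟩
  · obtain ⟨i, -, rfl⟩ := Finset.mem_image.1 hy
    exact ⟨_, rfl⟩
  · rw [← b.sum_repr x, map_sum]
    refine L.sum_mem fun i _ => ?_
    rw [map_smul]
    exact L.smul_mem _ (hL _ (Finset.mem_image_of_mem _ (Finset.mem_univ i)))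

/-- An embedding into a subfield that contains a suitable finite set. -/
theorem a2b_level [FiniteDimensional K E] (j : E →ₐ[K] Ω) :
    ∃ s : Finset Ω, ∀ L : IntermediateField K Ω, (∀ y ∈ s, y ∈ L) →
      ∃ φ : E →ₐ[K] L, ∀ x, algebraMap L Ω (φ x) = j x := by
  obtain ⟨s, -, hs⟩ := a2b_gen j
  exact ⟨s, fun L hL => ⟨j.codRestrict L.toSubalgebra (hs L.toSubalgebra.toSubmodule hL),
    fun _ => rfl⟩⟩

theorem a2b_res (L : IntermediateField K Ω) [Normal K L] (g : Ω ≃ₐ[K] Ω) (x : L) :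
    algebraMap L Ω (AlgEquiv.restrictNormalHom L g • x) = g • algebraMap L Ω x :=
  AlgEquiv.restrictNormalHom_apply L g x

/-- An automorphism that fixes `L ∩ T` agrees on `L` with an automorphism over `T`. -/
theorem a2b_lift {T : Type} [Field T] [Algebra K T] [Algebra T Ω] [IsScalarTower K T Ω]
    [IsGalois T Ω] (L : IntermediateField K Ω) [FiniteDimensional K L] [Normal K L]
    (g : Ω ≃ₐ[K] Ω) (hg : ∀ t, algebraMap T Ω t ∈ L → g (algebraMap T Ω t) = algebraMap T Ω t) :
    ∃ g' : Ω ≃ₐ[T] Ω, ∀ y ∈ L, g' y = g y := by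
  let ρ : (Ω ≃ₐ[T] Ω) →* (L ≃ₐ[K] L) := (AlgEquiv.restrictNormalHom L).comp
    (MonoidHom.mk' (fun g => g.restrictScalars K) fun _ _ => rfl)
  have h1 : ∀ g' (y : L), (ρ g' y : Ω) = g' y := fun g' y =>
    AlgEquiv.restrictNormalHom_apply L (g'.restrictScalars K) y
  have h2 : AlgEquiv.restrictNormalHom L g ∈ ρ.range := by
    rw [← IntermediateField.fixingSubgroup_fixedField ρ.range,
      IntermediateField.mem_fixingSubgroup_iff]
    intro y hy
    obtain ⟨t, ht⟩ := IntermediateField.mem_bot.1 ((InfiniteGalois.mem_bot_iff_fixed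
      (k := T) (y : Ω)).2 fun g' => (h1 g' y).symm.trans
        (congrArg Subtype.val (hy ⟨ρ g', g', rfl⟩)))
    refine Subtype.ext ((AlgEquiv.restrictNormalHom_apply L g y).trans ?_)
    rw [← ht]
    exact hg t (ht ▸ y.2)
  obtain ⟨g', hg'⟩ := h2
  exact ⟨g', fun y hy => (h1 g' ⟨y, hy⟩).symm.trans
    (hg' ▸ AlgEquiv.restrictNormalHom_apply L g ⟨y, hy⟩)⟩

/-- The restriction computed with an algebraic closure of the base. -/
theorem a2b_omega [CharZero K] {T : Type} [Field T] [Algebra K T] [Algebra T (AlgebraicClosure K)]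
    [IsScalarTower K T (AlgebraicClosure K)] [IsAlgClosure T (AlgebraicClosure K)]
    {x : Gm K × Gm K → (AlgebraicClosure K)ˣ} (hx : x ∈ Z2 K _) :
    rs (algebraMap K T) (cl K _ x) = 0 ↔
      pull (RingHom.id _) (fun g : AlgebraicClosure K ≃ₐ[T] AlgebraicClosure K =>
        g.restrictScalars K) x ∈ B2 T (AlgebraicClosure K) := by
  have : CharZero T := charZero_of_injective_ringHom (algebraMap K T).injective
  have h1 : Lk (algebraMap K T) (RingHom.id (AlgebraicClosure K))
      fun g : AlgebraicClosure K ≃ₐ[T] AlgebraicClosure K => g.restrictScalars K :=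
    ⟨fun a => IsScalarTower.algebraMap_apply K T _ a, fun _ _ => rfl⟩
  rw [← cl_eq_zero (h1.mem_Z2 hx), ← h1.res_cl hx, ← RingHom.id_comp (algebraMap K T),
    ← res_res (Ω' := AlgebraicClosure T) (Ω'' := AlgebraicClosure K), RingHom.id_comp]
  exact (map_eq_zero_iff _ (res_injective_of_bijective Function.bijective_id)).symm

theorem a2b_up [CharZero K] [Algebra K E'] (φ : E →ₐ[K] E') {a : BR K}
    (h : rs (algebraMap K E) a = 0) : rs (algebraMap K E') a = 0 := by
  have : CharZero E := charZero_of_injective_ringHom (algebraMap K E).injective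
  rw [← φ.comp_algebraMap, ← res_res (Ω' := AlgebraicClosure E), h, map_zero]

end aux

variable {K E E' G G' : Type} [Field K] [Field E] [Field E'] [Algebra K E] [Algebra K E'] [Group G]
  [Group G'] [MulSemiringAction G E] [MulSemiringAction G' E'] [CharZero K] [Finite G]
  [IsGaloisGroup G K E] {c c' : G × G → Eˣ}

omit [CharZero K] in
/-- For two pairs over the same base: `r` is onto, and an element fixed by the kernel of `r` comes
from `E`. -/
theorem pair_onto [Finite G'] [IsGaloisGroup G' K E'] {j : E →+* E'}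
    (hj : ∀ a, j (algebraMap K E a) = algebraMap K E' a) {r : G' → G}
    (hr : ∀ g x, j (r g • x) = g • j x) :
    Function.Surjective r ∧ ∀ y : E', (∀ g, r g = 1 → g • y = y) → y ∈ j.range := by
  let : Algebra E E' := j.toAlgebra
  have : IsScalarTower K E E' := IsScalarTower.of_algebraMap_eq fun a => (hj a).symm
  have : FaithfulSMul G E := IsGaloisGroup.faithful K
  have := IsGaloisGroup.isGalois G' K E'
  refine ⟨fun σ => ?_, fun y hy => ?_⟩
  · obtain ⟨g, hg⟩ := (IsGaloisGroup.mulEquivAlgEquiv G' K E').surjective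
      ((IsGaloisGroup.mulEquivAlgEquiv G K E σ).liftNormal E')
    refine ⟨g, eq_of_smul_eq_smul fun x : E => j.injective ?_⟩
    rw [hr]
    exact (AlgEquiv.congr_fun hg (j x)).trans (AlgEquiv.liftNormal_commutes _ E' x)
  · refine (IsGaloisGroup.of_isScalarTower G' K E' E).isInvariant.isInvariant y fun g => ?_
    refine hy g (eq_of_smul_eq_smul fun x : E => j.injective ?_)
    rw [hr, one_smul]
    exact g.2 ⟨j x, x, rfl⟩

omit [CharZero K] in
/-- inflation is injective -/
theorem a2b_desc [Finite G'] [IsGaloisGroup G' K E'] {j : E →+* E'}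
    (hj : ∀ a, j (algebraMap K E a) = algebraMap K E' a) {r : G' → G}
    (hr : ∀ g x, j (r g • x) = g • j x) {e : G' → E'ˣ} (h : pull j r c = dd e) :
    ∃ e, c = dd e := by
  have : FaithfulSMul G E := IsGaloisGroup.faithful K
  have : FaithfulSMul G' E' := IsGaloisGroup.faithful K
  obtain ⟨h1, h2⟩ := pair_onto hj hr
  obtain ⟨N, hN, hn, hq⟩ := a2b_ker hr
  have hI : Infl ⊤ N (pull j r c) := ⟨fun g _ g' _ i hi i' hi' => by
    simp only [pull, lk_mul hr, (hN i).1 hi, (hN i').1 hi', mul_one], fun g _ g' _ i hi => by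
    rw [pull, ← lk_units hr, (hN i).1 hi, one_smul]⟩
  obtain ⟨e', h3, h4, h5⟩ := inf_inj le_top (fun g _ => hn g) (h90 N) hI (h ▸ cobOn_dd ⊤ e)
  choose s hs using h1
  choose e₀ he₀ using fun σ => a2b_unit j (h2 (e' (s σ)) fun g hg =>
    congrArg Units.val (h5 (s σ) trivial g ((hN g).2 hg)))
  refine ⟨e₀, a2b_pull_inj j (fun σ => ⟨_, hs σ⟩) ?_⟩
  rw [pull_dd hr]
  have h6 : (fun g => Units.map (j : E →* E') (e₀ (r g))) = e' := funext fun g => by
    rw [he₀, ← h4 _ trivial _ (hq _ _ (hs (r g))), mul_inv_cancel_left]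
  rw [h6]
  exact funext fun p => h3 p.1 trivial p.2 trivial

theorem cls_eq_zero (hc : IsMulCocycle₂ c) : cls K c = 0 ↔ ∃ e, c = dd e := by
  refine ⟨fun h => ?_, fun ⟨e, h⟩ => h ▸ cls_dd e⟩
  have : FaithfulSMul G E := IsGaloisGroup.faithful K
  have := IsGaloisGroup.finiteDimensional G K E
  let j : E →ₐ[K] AlgebraicClosure K := IsAlgClosed.lift
  obtain ⟨r, hr⟩ := exists_pull (G := G) (G' := Gm K) (γ := RingHom.id K)
    (j := (j : E →+* AlgebraicClosure K)) j.commutes
  have hz := pull_mem_Z2 hr hc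
  rw [cls_eq_cl (j := (j : E →+* AlgebraicClosure K)) j.commutes hr hc, cl_eq_zero hz] at h
  obtain ⟨e, he, h⟩ := h
  obtain ⟨s, hs⟩ := a2b_level j
  obtain ⟨L, _, _, -, e₀, h1, -, h2⟩ := exists_descent hz.2 he s
  obtain ⟨φ, hφ⟩ := hs L h1
  obtain ⟨r', hr'⟩ := exists_pull (G := G) (G' := L ≃ₐ[K] L) (γ := RingHom.id K)
    (j := (φ : E →+* L)) φ.commutes
  have h3 : ∀ g, r g = r' (AlgEquiv.restrictNormalHom L g) := fun g =>
    eq_of_smul_eq_smul fun x : E => j.injective ((hr g x).trans (by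
      refine Eq.trans ?_ (hφ (_ • x))
      refine Eq.trans ?_ (congrArg (algebraMap L _) (hr' _ x)).symm
      rw [a2b_res]
      exact congrArg g (hφ x).symm))
  refine a2b_desc φ.commutes hr' (e := e₀) (a2b_pull_inj (algebraMap L (AlgebraicClosure K))
    (AlgEquiv.restrictNormalHom_surjective (AlgebraicClosure K)) ?_)
  rw [pull_dd (a2b_res L), ← h2]
  funext p
  refine Eq.trans (Units.ext ?_) (h p.1 p.2)
  simp only [pull, h3]
  exact hφ _

theorem cls_eq_iff (hc : IsMulCocycle₂ c) (hc' : IsMulCocycle₂ c') :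
    cls K c = cls K c' ↔ ∃ e, c = c' * dd e := by
  rw [← sub_eq_zero, ← cls_div hc hc', cls_eq_zero (coc_div hc hc')]
  exact exists_congr fun e => div_eq_iff_eq_mul'

/-- The restriction to a subfield `M` vanishes iff the cocycle is a coboundary on the subgroup that
fixes `M`. -/
theorem rs_cls_eq_zero {M : Type} [Field M] [Algebra K M] (φ : M →ₐ[K] E) (hc : IsMulCocycle₂ c) :
    rs (algebraMap K M) (cls K c) = 0 ↔ CobOn (fixingSubgroup G (Set.range φ)) c := by
  let : Algebra M E := (φ : M →+* E).toAlgebra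
  have : IsScalarTower K M E := IsScalarTower.of_algebraMap_eq fun a => (φ.commutes a).symm
  have : CharZero M := charZero_of_injective_ringHom (algebraMap K M).injective
  have : FaithfulSMul G E := IsGaloisGroup.faithful K
  have : IsGaloisGroup (fixingSubgroup G (Set.range φ)) M E :=
    IsGaloisGroup.of_isScalarTower G K E M
  have hr : ∀ (g : fixingSubgroup G (Set.range φ)) (x : E),
      RingHom.id E (g.1 • x) = g • RingHom.id E x := fun _ _ => rfl
  rw [rs_cls (algebraMap K M) (j := RingHom.id E) (fun a => (φ.commutes a).symm) hr hc,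
    cls_eq_zero (pull_coc hr hc)]
  refine ⟨fun ⟨e, he⟩ => ⟨fun g => if h : g ∈ fixingSubgroup G (Set.range φ) then e ⟨g, h⟩ else 1,
    fun g hg g' hg' => ?_⟩, fun ⟨e, he⟩ => ⟨fun g => e g.1, funext fun p => he _ p.1.2 _ p.2.2⟩⟩
  rw [dd_apply, dif_pos hg, dif_pos hg', dif_pos (mul_mem hg hg')]
  exact congrFun he (⟨g, hg⟩, ⟨g', hg'⟩)

variable (G E) in
theorem exists_cls_of_rs {a : BR K} (h : rs (algebraMap K E) a = 0) :
    ∃ c : G × G → Eˣ, IsMulCocycle₂ c ∧ cls K c = a := by
  have : FaithfulSMul G E := IsGaloisGroup.faithful K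
  have := IsGaloisGroup.finiteDimensional G K E
  obtain ⟨s, hs⟩ := a2b_level (IsAlgClosed.lift : E →ₐ[K] AlgebraicClosure K)
  obtain ⟨L, _, _, x, h1, hx, rfl⟩ := exists_cls a s
  obtain ⟨φ, -⟩ := hs L h1
  obtain ⟨r, hr⟩ := exists_pull (G := G) (G' := L ≃ₐ[K] L) (γ := RingHom.id K)
    (j := (φ : E →+* L)) φ.commutes
  obtain ⟨h2, h3⟩ := pair_onto φ.commutes hr
  obtain ⟨N, hN, hn, hq⟩ := a2b_ker hr
  have h4 : CobOn N x := ((rs_cls_eq_zero φ hx).1 h).mono fun g hg => by
    rintro ⟨_, y, rfl⟩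
    refine (hr g y).symm.trans ?_
    rw [(hN g).1 hg, one_smul]
    rfl
  obtain ⟨e, he⟩ := inf_res le_top (fun g _ => hn g) (h90 N) (coc_iff.1 hx) h4
  choose t ht using h2
  choose c hc using fun p : G × G => a2b_unit (φ : E →+* L) (h3 ((x * dd e) (t p.1, t p.2))
    fun g hg => congrArg Units.val (he.fix _ trivial _ trivial g ((hN g).2 hg)))
  have h5 : pull (φ : E →+* L) r c = x * dd e := funext fun p => by
    have h7 := he.eq (t (r p.1)) trivial (t (r p.2)) trivial _ (hq _ _ (ht (r p.1))) _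
      (hq _ _ (ht (r p.2)))
    rw [mul_inv_cancel_left, mul_inv_cancel_left] at h7
    exact (hc _).trans h7.symm
  have h6 : IsMulCocycle₂ c := fun g g' k => a2b_map_inj (φ : E →+* L) (by
    have h7 := (h5 ▸ coc_mul hx (dd_coc e) : IsMulCocycle₂ (pull (φ : E →+* L) r c))
      (t g) (t g') (t k)
    simp only [pull, lk_mul hr, ht] at h7
    have h8 := lk_units hr (t g) (c (g', k))
    rw [ht] at h8
    rw [map_mul, map_mul, h8]
    exact h7)
  refine ⟨c, h6, ?_⟩
  have h9 := rs_cls (RingHom.id K) (j := (φ : E →+* L)) φ.commutes hr h6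
  rw [res_id, h5] at h9
  exact h9.trans (cls_mul_dd hx e)

theorem finrank_smul_of_rs {M : Type} [Field M] [Algebra K M] [FiniteDimensional K M] {a : BR K}
    (h : rs (algebraMap K M) a = 0) : Module.finrank K M • a = 0 := by
  obtain ⟨s, hs⟩ := a2b_level (IsAlgClosed.lift : M →ₐ[K] AlgebraicClosure K)
  obtain ⟨L, _, _, x, h1, hx, rfl⟩ := exists_cls a s
  obtain ⟨φ, -⟩ := hs L h1
  have h2 := ((rs_cls_eq_zero φ hx).1 h).transfer le_top (coc_iff.1 hx)
  have h3 : (fixingSubgroup (L ≃ₐ[K] L) (Set.range φ)).index = Module.finrank K M := by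
    let : Algebra M L := (φ : M →+* L).toAlgebra
    have : IsScalarTower K M L := IsScalarTower.of_algebraMap_eq fun a => (φ.commutes a).symm
    have : IsGaloisGroup (fixingSubgroup (L ≃ₐ[K] L) (Set.range φ)) M L :=
      IsGaloisGroup.of_isScalarTower _ K L M
    have h4 := (fixingSubgroup (L ≃ₐ[K] L) (Set.range φ)).index_mul_card
    rw [IsGaloisGroup.card_eq_finrank (L ≃ₐ[K] L) K L, ← Module.finrank_mul_finrank K M L,
      ← IsGaloisGroup.card_eq_finrank (fixingSubgroup (L ≃ₐ[K] L) (Set.range φ)) M L] at h4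
    exact Nat.eq_of_mul_eq_mul_right Nat.card_pos h4
  rw [Subgroup.relIndex_top_right, h3, cobOn_top] at h2
  rw [← cls_pow hx, cls_eq_zero (coc_pow hx _)]
  exact h2

theorem exists_finite_of_rs {T : Type} [Field T] [Algebra K T] [Algebra.IsAlgebraic K T] {a : BR K}
    (h : rs (algebraMap K T) a = 0) :
    ∃ S : IntermediateField K T, FiniteDimensional K S ∧ rs (algebraMap K S) a = 0 := by
  obtain ⟨x, hx, rfl⟩ := exists_cl a
  let j : T →ₐ[K] AlgebraicClosure K := IsAlgClosed.lift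
  let : Algebra T (AlgebraicClosure K) := (j : T →+* AlgebraicClosure K).toAlgebra
  have : IsScalarTower K T (AlgebraicClosure K) :=
    IsScalarTower.of_algebraMap_eq fun a => (j.commutes a).symm
  have : Algebra.IsAlgebraic T (AlgebraicClosure K) := Algebra.IsAlgebraic.tower_top (K := K) T
  have : IsAlgClosure T (AlgebraicClosure K) := ⟨inferInstance, inferInstance⟩
  have : CharZero T := charZero_of_injective_ringHom (algebraMap K T).injective
  obtain ⟨e, he, h1⟩ := (a2b_omega hx).1 h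
  have hf : (Set.range fun g => (e g : AlgebraicClosure K)).Finite := by
    refine (he.finite.image Units.val).subset ?_
    rintro _ ⟨g, rfl⟩
    exact ⟨_, ⟨fun _ => g, rfl⟩, rfl⟩
  obtain ⟨s₁, hs₁⟩ := hx.2
  obtain ⟨s₂, hs₂⟩ := he
  obtain ⟨L, _, _, hL⟩ := exists_level (K := K) (s₁ ∪ (s₂ ∪ hf.toFinset))
  have hx' : ∀ g g' k k' : Gm K, (∀ y ∈ L, g y = g' y) → (∀ y ∈ L, k y = k' y) →
      x (g, k) = x (g', k') := fun g g' k k' h2 h3 => hs₁ ![g, k] ![g', k'] fun i y hy => by
    fin_cases i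
    exacts [h2 y (hL y (Finset.mem_union_left _ hy)), h3 y (hL y (Finset.mem_union_left _ hy))]
  have he' : ∀ g g', (∀ y ∈ L, g y = g' y) → e g = e g' := fun g g' h2 =>
    hs₂ (fun _ => g) (fun _ => g') fun _ y hy =>
      h2 y (hL y (Finset.mem_union_right _ (Finset.mem_union_left _ hy)))
  have hv : ∀ g, (e g : AlgebraicClosure K) ∈ L := fun g =>
    hL _ (Finset.mem_union_right _ (Finset.mem_union_right _ (hf.mem_toFinset.2 ⟨g, rfl⟩)))
  refine ⟨L.comap j, FiniteDimensional.of_injective (K := K) (V₂ := L)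
    ((j.comp (L.comap j).val).codRestrict L.toSubalgebra fun t => t.2).toLinearMap
    fun _ _ h => Subtype.ext (j.injective (congrArg Subtype.val h)), ?_⟩
  have : Algebra.IsAlgebraic (L.comap j) (AlgebraicClosure K) :=
    Algebra.IsAlgebraic.tower_top (K := K) _
  have : IsAlgClosure (L.comap j) (AlgebraicClosure K) := ⟨inferInstance, inferInstance⟩
  choose τ hτ using fun g : AlgebraicClosure K ≃ₐ[L.comap j] AlgebraicClosure K =>
    a2b_lift (T := T) L (g.restrictScalars K) fun t ht => g.commutes ⟨t, ht⟩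
  obtain ⟨s, -, hs⟩ := a2b_gen L.val
  refine (a2b_omega hx).2 ⟨fun g => e (τ g), ⟨s, fun g g' h2 => he' _ _ fun y hy => ?_⟩,
    fun g g' => ?_⟩
  · rw [hτ _ y hy, hτ _ y hy]
    exact hs (LinearMap.eqLocus ((g 0).restrictScalars K).toLinearMap
      ((g' 0).restrictScalars K).toLinearMap) (h2 0) ⟨y, hy⟩
  · have h2 : e (τ (g * g')) = e (τ g * τ g') := he' _ _ fun y hy => by
      have h3 : g'.restrictScalars K y ∈ L := by
        rw [← AlgEquiv.restrictNormalHom_apply L (g'.restrictScalars K) ⟨y, hy⟩]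
        exact Subtype.mem _
      rw [hτ _ y hy, AlgEquiv.mul_apply, hτ _ y hy, hτ _ _ h3]
      rfl
    have h3 : g • e (τ g') = τ g • e (τ g') := Units.ext (hτ g _ (hv _)).symm
    beta_reduce
    rw [h2, h3, ← h1]
    exact congrArg _ (hx' _ _ _ _ (fun y hy => (hτ g y hy).symm) fun y hy => (hτ g' y hy).symm)

theorem exists_cls_split {T : Type} [Field T] [Algebra K T] [IsGalois K T] {a : BR K}
    (h : rs (algebraMap K T) a = 0) : ∃ (S : IntermediateField K T) (_ : FiniteDimensional K S)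
      (_ : IsGalois K S) (c : (S ≃ₐ[K] S) × (S ≃ₐ[K] S) → Sˣ), IsMulCocycle₂ c ∧ cls K c = a := by
  obtain ⟨S, _, hS⟩ := exists_finite_of_rs h
  refine ⟨IntermediateField.normalClosure K S T, inferInstance, inferInstance,
    exists_cls_of_rs _ _ ?_⟩
  exact a2b_up (IntermediateField.inclusion S.le_normalClosure) hS

end Pool.Agent.ZCy
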