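import Pool.Agent.Lib.MP_751085_ag.ZC.R0b
import Pool.Agent.Lib.MP_751085_ag.ZC.R1

/-! The values of the residue. -/

namespace Pool.Agent.ZCy

open scoped Classical WithZero
open groupCohomology

variable {K K' Ω Ω' : Type} [Field K] [Field K'] [Field Ω] [Field Ω'] [CharZero K] {v : Vl K}
  {ρ : v.integer →+* Ω} {a a' : BR K} {γ γ' : Ω ≃+* Ω} {q q' : AddCircle (1 : ℚ)}

omit [CharZero K] in
theorem IsRD.resAt {E : Type} [Field E] [Algebra K E] [FiniteDimensional K E] [IsGalois K E]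
    {w : Vl E} {e : ℚ} {c : (E ≃ₐ[K] E) × (E ≃ₐ[K] E) → Eˣ} {lam : (E ≃ₐ[K] E) → ℚ}
    (h : IsRD v a w e c lam) {ρ' : w.integer →+* Ω} (hρ : IsRed w ρ')
    (hc : Cmp (algebraMap K E) ρ ρ' id) {d : E ≃ₐ[K] E} (hd : d ∈ Dec K w) (hγ : Cmp d ρ' ρ' γ) :
    ResAt v ρ a γ (lam d : ℚ) := ⟨h.rd, ρ', d, hρ, hc, hd, hγ, rfl⟩

omit [CharZero K] in
theorem ResAt.fix (h : ResAt v ρ a γ q) (x : v.integer) : γ (ρ x) = ρ x := by
  obtain ⟨R, ρ', d, -, hc, -, hγ, -⟩ := h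
  let y : R.w.integer := ⟨algebraMap K R.E x, (R.idq.isOver R.e_pos x).2 x.2⟩
  have h1 : ρ' y = ρ x := hc x y rfl
  have h2 : ρ' y = γ (ρ' y) := hγ y y (d.commutes x).symm
  rw [← h1, ← h2]

omit [CharZero K] in
theorem ResAt.isRed (h : ResAt v ρ a γ q) : IsRed v ρ := by
  obtain ⟨R, ρ', d, hρ, hc, -⟩ := h
  exact IsRed.of_cmp (R.idq.isOver R.e_pos) hρ (ι := RingHom.id Ω) hc

omit [CharZero K] in
/-- an automorphism that fixes the residue field comes from the decomposition group -/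
theorem r3_dec {E : Type} [Field E] [Algebra K E] [FiniteDimensional K E] [IsGalois K E]
    {w : Vl E} (hw : Over (algebraMap K E) v w) {ρ' : w.integer →+* Ω} (hρ : IsRed w ρ')
    (hc : Cmp (algebraMap K E) ρ ρ' id) (hγ : ∀ x, γ (ρ x) = ρ x) :
    ∃ d ∈ Dec K w, Cmp d ρ' ρ' γ :=
  exists_dec hρ (γ : Ω →+* Ω) fun a y hy => by
    have ha : v a ≤ 1 := (hw a).1 (hy ▸ y.2)
    have h1 : ρ' y = ρ ⟨a, ha⟩ := hc ⟨a, ha⟩ y hy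
    rw [h1]
    exact hγ _

omit [CharZero K] in
/-- the value does not change under base change -/
theorem r3_up {E E' : Type} [Field E] [Algebra K E] [FiniteDimensional K E] [IsGalois K E]
    [Field E'] [Algebra K' E'] {w : Vl E} {e : ℚ} {c : (E ≃ₐ[K] E) × (E ≃ₐ[K] E) → Eˣ}
    {lam : (E ≃ₐ[K] E) → ℚ} (h : IsRD v a w e c lam) {ρ₁ : w.integer →+* Ω} (hρ : IsRed w ρ₁)
    {d : E ≃ₐ[K] E} (hd : d ∈ Dec K w) (hγ : Cmp d ρ₁ ρ₁ γ) {j : E →+* E'}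
    {r : (E' ≃ₐ[K'] E') → E ≃ₐ[K] E} (hr : ∀ g x, j (r g x) = g (j x)) {w' : Vl E'}
    (hw : Over j w w') {ρ₂ : w'.integer →+* Ω'} {ι : Ω →+* Ω'} (hc : Cmp j ρ₁ ρ₂ ι)
    {δ : Ω' ≃+* Ω'} (hδ : ∀ x, δ (ι x) = ι (γ x)) {d' : E' ≃ₐ[K'] E'} (hd' : d' ∈ Dec K' w')
    (hγ' : Cmp d' ρ₂ ρ₂ δ) : lam (r d') = lam d := by
  have h1 : r d' ∈ Dec K w := (dec_up hr hw).1 d' hd'
  have h2 : Cmp (r d') ρ₁ ρ₁ γ := fun x y hy => ι.injective <| by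
    let x' : w'.integer := ⟨j x, (hw x).2 x.2⟩
    let y' : w'.integer := ⟨j y, (hw y).2 y.2⟩
    have e1 : ρ₂ x' = ι (ρ₁ x) := hc x x' rfl
    have e2 : ρ₂ y' = ι (ρ₁ y) := hc y y' rfl
    have e3 : ρ₂ y' = δ (ρ₂ x') := hγ' x' y' ((congrArg j hy).trans (hr d' x))
    rw [← e2, e3, e1, hδ]
  have h3 := h.lam_ine d hd _ (ine_of_cmp hρ hd h1 hγ h2)
  rwa [mul_inv_cancel_left] at h3

omit [CharZero K] in
theorem r3_mul {E : Type} [Field E] [Algebra K E] {w : Vl E} {ρ' : w.integer →+* Ω}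
    {d d' : E ≃ₐ[K] E} (hd' : d' ∈ Dec K w) (h : Cmp d ρ' ρ' γ) (h' : Cmp d' ρ' ρ' γ') :
    Cmp (d * d' : E ≃ₐ[K] E) ρ' ρ' (γ * γ' : Ω ≃+* Ω) := fun x y hy => by
  let z : w.integer := ⟨d' x, (hd' x).trans_le x.2⟩
  have e1 : ρ' z = γ' (ρ' x) := h' x z rfl
  have e2 : ρ' y = γ (ρ' z) := h z y hy
  rw [e2, e1]
  rfl

/-- Two data on one field. -/
theorem ResAt.common [IsAlgClosed Ω] (h : ResAt v ρ a γ q) (h' : ResAt v ρ a' γ' q') :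
    ∃ (E : Type) (_ : Field E) (_ : Algebra K E) (_ : FiniteDimensional K E) (_ : IsGalois K E)
      (w : Vl E) (ρ' : w.integer →+* Ω) (e e' : ℚ) (c c' : (E ≃ₐ[K] E) × (E ≃ₐ[K] E) → Eˣ)
      (lam lam' : (E ≃ₐ[K] E) → ℚ), IsRD v a w e c lam ∧ IsRD v a' w e' c' lam' ∧ IsRed w ρ' ∧
      Cmp (algebraMap K E) ρ ρ' id ∧ (∀ d ∈ Dec K w, Cmp d ρ' ρ' γ → q = (lam d : ℚ)) ∧
      ∀ d ∈ Dec K w, Cmp d ρ' ρ' γ' → q' = (lam' d : ℚ) := by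
  obtain ⟨R, ρ₁, d, hρ₁, hc₁, hd, hγ, rfl⟩ := h
  obtain ⟨R', ρ₂, d', hρ₂, hc₂, hd', hγ', rfl⟩ := h'
  have hw := R.idq.isOver R.e_pos
  have hw' := R'.idq.isOver R'.e_pos
  obtain ⟨E, _, _, _, _, j, j₁, w, ρ', hj, ho, ho₁, hρ', hc, hc'⟩ :=
    exists_above_red (RingHom.id K) hρ₁ hρ₂ (fun a => (hw' a).trans (hw a).symm)
      fun a y y₁ hy hy₁ => by
        have ha : v a ≤ 1 := (hw a).1 (hy ▸ y.2)
        exact (hc₂ ⟨a, ha⟩ y₁ hy₁).trans (hc₁ ⟨a, ha⟩ y hy).symm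
  obtain ⟨r, hr⟩ := exists_lk_of (γ := RingHom.id K) hj
  obtain ⟨r₁, hr₁⟩ := exists_lk_of (γ := RingHom.id K) (j := (j₁ : R'.E →+* E)) j₁.commutes
  obtain ⟨e, he⟩ := R.isRD.up_id hj hr.comm ho
  obtain ⟨e', he'⟩ := R'.isRD.up_id (j := (j₁ : R'.E →+* E)) j₁.commutes hr₁.comm ho₁
  refine ⟨E, _, _, inferInstance, inferInstance, w, ρ', e, e', _, _, _, _, he, he', hρ',
    fun x y hy => ?_, fun g hg hγg => ?_, fun g hg hγg => ?_⟩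
  · let z : R.w.integer := ⟨algebraMap K R.E x, (hw x).2 x.2⟩
    exact (hc z y (hy.trans (hj x).symm)).trans (hc₁ x z rfl)
  · rw [r3_up R.isRD hρ₁ hd hγ hr.comm ho (ι := RingHom.id Ω) hc (fun _ => rfl) hg hγg]
  · rw [r3_up R'.isRD hρ₂ hd' hγ' hr₁.comm ho₁ (ι := RingHom.id Ω) hc' (fun _ => rfl) hg hγg]

theorem ResAt.uniq [IsAlgClosed Ω] (h : ResAt v ρ a γ q) (h' : ResAt v ρ a γ q') : q = q' := by
  obtain ⟨E, _, _, _, _, w, ρ', e, e', c, c', lam, lam', h1, h2, hρ, hc, hq, hq'⟩ := h.common h'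
  obtain ⟨d, hd, hγ⟩ := r3_dec (h1.idq.isOver h1.e_pos) hρ hc h.fix
  rw [hq d hd hγ, hq' d hd hγ, h1.cmp h2 d hd]

theorem ResAt.add [IsAlgClosed Ω] (h : ResAt v ρ a γ q) (h' : ResAt v ρ a' γ q') :
    ResAt v ρ (a + a') γ (q + q') := by
  obtain ⟨E, _, _, _, _, w, ρ', e, e', c, c', lam, lam', h1, h2, hρ, hc, hq, hq'⟩ := h.common h'
  obtain ⟨d, hd, hγ⟩ := r3_dec (h1.idq.isOver h1.e_pos) hρ hc h.fix
  rw [hq d hd hγ, hq' d hd hγ, ← AddCircle.coe_add]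
  exact (h1.mul h2).resAt hρ hc hd hγ

theorem ResAt.sub [IsAlgClosed Ω] (h : ResAt v ρ a γ q) (h' : ResAt v ρ a' γ q') :
    ResAt v ρ (a - a') γ (q - q') := by
  obtain ⟨E, _, _, _, _, w, ρ', e, e', c, c', lam, lam', h1, h2, hρ, hc, hq, hq'⟩ := h.common h'
  obtain ⟨d, hd, hγ⟩ := r3_dec (h1.idq.isOver h1.e_pos) hρ hc h.fix
  rw [hq d hd hγ, hq' d hd hγ, ← AddCircle.coe_sub]
  exact (h1.div h2).resAt hρ hc hd hγ

theorem resAt_zero (hρ : IsRed v ρ) (hγ : ∀ x, γ (ρ x) = ρ x) : ResAt v ρ 0 γ 0 := by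
  have h : IsRD v 0 v 1 (1 : (K ≃ₐ[K] K) × (K ≃ₐ[K] K) → Kˣ) 0 :=
    { e_pos := one_pos
      idq := fun x _ => (one_mul _).symm
      coc := coc_one
      cls_eq := cls_one
      infl := ⟨fun _ _ _ _ _ _ _ _ => rfl, fun _ _ _ _ i _ => smul_one i⟩
      ord_eq := fun g _ g' _ => by simp [ord_one] }
  exact h.resAt hρ (fun x y hy => congrArg ρ (Subtype.ext hy)) (one_mem _)
    fun x y hy => (congrArg ρ (Subtype.ext hy)).trans (hγ x).symm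

theorem ResAt.nsmul [IsAlgClosed Ω] (h : ResAt v ρ a γ q) (n : ℕ) :
    ResAt v ρ (n • a) γ (n • q) := by
  induction n with
  | zero =>
    rw [show (0 : ℕ) • a = 0 from zero_nsmul a, zero_nsmul]
    exact resAt_zero h.isRed h.fix
  | succ n ih =>
    rw [show (n + 1) • a = n • a + a from succ_nsmul a n, succ_nsmul]
    exact ih.add h

theorem ResAt.mul [IsAlgClosed Ω] (h : ResAt v ρ a γ q) (h' : ResAt v ρ a γ' q') :
    ResAt v ρ a (γ * γ') (q + q') := by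
  obtain ⟨E, _, _, _, _, w, ρ', e, e', c, c', lam, lam', h1, h2, hρ, hc, hq, hq'⟩ := h.common h'
  obtain ⟨d, hd, hγ⟩ := r3_dec (h1.idq.isOver h1.e_pos) hρ hc h.fix
  obtain ⟨d', hd', hγ'⟩ := r3_dec (h1.idq.isOver h1.e_pos) hρ hc h'.fix
  rw [hq d hd hγ, hq' d' hd' hγ', ← h1.cmp h2 d' hd', ← h1.lam_mul d hd d' hd']
  exact h1.resAt hρ hc (mul_mem hd hd') (r3_mul hd' hγ hγ')

omit [CharZero K] in
theorem ResAt.pow (h : ResAt v ρ a γ q) (n : ℕ) : ResAt v ρ a (γ ^ n) (n • q) := by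
  obtain ⟨R, ρ', d, hρ, hc, hd, hγ, rfl⟩ := h
  rw [← R.isRD.lam_pow d hd n]
  refine R.isRD.resAt hρ hc (pow_mem hd n) ?_
  induction n with
  | zero =>
    rw [pow_zero, pow_zero]
    exact fun x y hy => congrArg ρ' (Subtype.ext hy)
  | succ n ih =>
    rw [pow_succ, pow_succ]
    exact r3_mul hd ih hγ

omit [CharZero K] in
theorem HasRes.resAt [IsAlgClosed Ω] (h : HasRes v a) (hρ : IsRed v ρ) (hγ : ∀ x, γ (ρ x) = ρ x) :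
    ∃ q, ResAt v ρ a γ q := by
  obtain ⟨R⟩ := h
  have hw := R.idq.isOver R.e_pos
  obtain ⟨ρ', hρ', hc⟩ := vn_redext hw hρ
  obtain ⟨d, hd, hd'⟩ := r3_dec hw hρ' hc hγ
  exact ⟨_, R.isRD.resAt hρ' hc hd hd'⟩

omit [CharZero K] in
theorem Unram.resAt [IsAlgClosed Ω] (h : Unram v a) (hρ : IsRed v ρ) (hγ : ∀ x, γ (ρ x) = ρ x) :
    ResAt v ρ a γ 0 := by
  obtain ⟨R, hu⟩ := h
  have hw := R.idq.isOver R.e_pos
  obtain ⟨ρ', hρ', hc⟩ := vn_redext hw hρ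
  obtain ⟨d, hd, hd'⟩ := r3_dec hw hρ' hc hγ
  have h1 := R.isRD.resAt hρ' hc hd hd'
  rwa [R.isRD.lam_unit hu d hd] at h1

theorem ResAt.map [IsAlgClosed Ω'] (φ : K →+* K') {v' : Vl K'} {ρ' : v'.integer →+* Ω'} {e : ℕ}
    (he : 0 < e) (hi : Idq φ v v' e) (hρ' : IsRed v' ρ') {ι : Ω →+* Ω'} (hc : Cmp φ ρ ρ' ι)
    {γ' : Ω' ≃+* Ω'} (hγ : ∀ x, γ' (ι x) = ι (γ x)) (hγ' : ∀ x, γ' (ρ' x) = ρ' x)
    (h : ResAt v ρ a γ q) : ResAt v' ρ' (rs φ a) γ' (e • q) := by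
  have := charZero_of_injective_ringHom φ.injective
  obtain ⟨R, ρ₁, d, hρ₁, hc₁, hd, hdγ, rfl⟩ := h
  have he' : (0 : ℚ) < e := Nat.cast_pos.2 he
  have hw := R.idq.isOver R.e_pos
  have hv := hi.isOver he'
  obtain ⟨E, _, _, _, _, j, j₁, w, ρ₂, hj, ho, ho₁, hρ₂, hc₂, hc₃⟩ :=
    exists_above_red φ (E₁ := K') (hρ₁.comp ι) hρ' (fun a => (hv a).trans (hw a).symm)
      fun a y y₁ hy hy₁ => by
        have ha : v a ≤ 1 := (hw a).1 (hy ▸ y.2)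
        exact (hc ⟨a, ha⟩ y₁ hy₁).trans (congrArg ι (hc₁ ⟨a, ha⟩ y hy).symm)
  have ho₂ : Over (algebraMap K' E) v' w := fun x => by
    rw [← j₁.commutes x]
    exact ho₁ x
  have hc₄ : Cmp (algebraMap K' E) ρ' ρ₂ id := fun x y hy =>
    hc₃ x y (hy.trans (j₁.commutes x).symm)
  obtain ⟨r, hr⟩ := exists_lk_of hj
  obtain ⟨e', h1⟩ := R.isRD.up φ he' hi hj hr.comm ho ho₂
  obtain ⟨d', hd', hdγ'⟩ := r3_dec ho₂ hρ₂ hc₄ hγ'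
  have h2 := h1.resAt hρ₂ hc₄ hd' hdγ'
  rw [r3_up R.isRD hρ₁ hd hdγ hr.comm ho (ι := ι) hc₂ hγ hd' hdγ'] at h2
  rwa [← AddCircle.coe_nsmul, nsmul_eq_mul]

theorem unram_of_resAt [IsAlgClosed Ω] (hv : Nrm v) (ha : HasRes v a) (hρ : IsRed v ρ)
    (h : ∀ γ : Ω ≃+* Ω, (∀ x, γ (ρ x) = ρ x) → ResAt v ρ a γ 0) : Unram v a := by
  obtain ⟨R⟩ := ha
  obtain ⟨ρ', hρ', hc⟩ := vn_redext (R.idq.isOver R.e_pos) hρ
  refine R.isRD.unram hv fun g hg => ?_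
  obtain ⟨δ, hδ⟩ := exists_aut hρ' hg
  have h1 := R.isRD.resAt hρ' hc hg hδ
  exact h1.uniq (h δ h1.fix)

/-- descent along an extension of index one with the same residue field -/
theorem Unram.descend (φ : K →+* K') {v' : Vl K'} (hv : Nrm v) (hi : Idq φ v v' 1)
    (hs : ∀ y, v' y ≤ 1 → ∃ x, v x ≤ 1 ∧ v' (y - φ x) < 1) (ha : HasRes v a)
    (h : Unram v' (rs φ a)) : Unram v a := by
  have := charZero_of_injective_ringHom φ.injective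
  have ho := hi.isOver one_pos
  obtain ⟨Ω, _, _, ρ', hρ'⟩ := exists_redc v'
  obtain ⟨ρ, hρ, hc⟩ := ho.red hρ'
  refine unram_of_resAt hv ha hρ fun γ hγ => ?_
  obtain ⟨q, hq⟩ := ha.resAt hρ hγ
  have hγ' : ∀ y, γ (ρ' y) = ρ' y := fun y => by
    obtain ⟨x, hx, hxy⟩ := hs y y.2
    let z : v'.integer := ⟨φ x, (ho x).2 hx⟩
    have e1 : ρ' z = ρ ⟨x, hx⟩ := hc ⟨x, hx⟩ z rfl
    have e2 : ρ' (y - z) = 0 := (hρ' _).2 hxy
    rw [map_sub, sub_eq_zero] at e2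
    rw [e2, e1, hγ]
  have h1 := hq.map φ (e := 1) one_pos (by rwa [Nat.cast_one]) hρ' (ι := RingHom.id Ω) hc
    (fun _ => rfl) hγ'
  have h2 := h1.uniq (h.resAt hρ' hγ')
  rw [one_nsmul] at h2
  rwa [h2] at hq

end Pool.Agent.ZCy
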