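import Pool.Agent.Lib.MP_751085_ag.ZC.G1

/-! Cocycles of cyclic groups. -/

namespace Pool.Agent.ZCy

open scoped Classical
open groupCohomology Subgroup

variable {G G' A A' : Type} [Group G] [CommGroup A] [MulDistribMulAction G A] [Group G']
  [CommGroup A'] [MulDistribMulAction G' A'] {s g h : G}

theorem xp_lt (hs : IsOfFinOrder s) (g : G) : xp s g < orderOf s := by
  unfold xp
  split_ifs with e
  · exact e.choose_spec.1
  · exact hs.orderOf_pos

theorem xp_spec (hs : IsOfFinOrder s) (hg : g ∈ zpowers s) : s ^ xp s g = g := by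
  obtain ⟨i, rfl⟩ := hs.mem_powers_iff_mem_zpowers.2 hg
  have e : ∃ j, j < orderOf s ∧ s ^ j = s ^ i :=
    ⟨i % orderOf s, Nat.mod_lt _ hs.orderOf_pos, pow_mod_orderOf s i⟩
  change s ^ xp s (s ^ i) = s ^ i
  rw [xp, dif_pos e]
  exact e.choose_spec.2

theorem xp_pow (hs : IsOfFinOrder s) (i : ℕ) : xp s (s ^ i) = i % orderOf s := by
  have e := pow_eq_pow_iff_modEq.1 (xp_spec hs (npow_mem_zpowers s i))
  rw [Nat.ModEq, Nat.mod_eq_of_lt (xp_lt hs _)] at e
  exact e

theorem g3_mod (hs : IsOfFinOrder s) (hg : g ∈ zpowers s) (hh : h ∈ zpowers s) :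
    xp s (g * h) = (xp s g + xp s h) % orderOf s := by
  rw [← xp_pow hs, pow_add, xp_spec hs hg, xp_spec hs hh]

theorem g3_div (hs : IsOfFinOrder s) (hg : g ∈ zpowers s) (hh : h ∈ zpowers s) :
    (xp s g + xp s h - xp s (g * h)) / orderOf s = (xp s g + xp s h) / orderOf s := by
  rw [g3_mod hs hg hh]
  generalize xp s g + xp s h = a
  conv_lhs => rw [Nat.sub_eq_of_eq_add (Nat.div_add_mod a (orderOf s)).symm]
  exact Nat.mul_div_cancel_left _ hs.orderOf_pos

theorem xp_carry (hs : IsOfFinOrder s) (hg : g ∈ zpowers s) (hh : h ∈ zpowers s) :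
    xp s g + xp s h = xp s (g * h) +
      orderOf s * ((xp s g + xp s h - xp s (g * h)) / orderOf s) := by
  rw [g3_div hs hg hh, g3_mod hs hg hh, Nat.mod_add_div]

omit [MulDistribMulAction G A] in
theorem cyc_mul (s : G) (f f' : A) : cyc s (f * f') = cyc s f * cyc s f' := funext fun _ => mul_pow _ _ _

theorem g3_fix {f : A} (hf : s • f = f) (hg : g ∈ zpowers s) : g • f = f :=
  (zpowers_le (H := MulAction.stabilizer G f)).2 hf hg

omit [MulDistribMulAction G A] in
theorem g3_per {u : ℕ → A} {f : A} {n : ℕ} (hu : ∀ a, u (n + a) = f * u a) (m : ℕ) :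
    u m = f ^ (m / n) * u (m % n) := by
  have e : ∀ k a, u (n * k + a) = f ^ k * u a := fun k a => by
    induction k with
    | zero => simp
    | succ k ih => rw [Nat.mul_succ, add_comm (n * k), add_assoc, hu, ih, pow_succ', mul_assoc]
  rw [← e, Nat.div_add_mod]

theorem g3_dd (hs : IsOfFinOrder s) {u : ℕ → A} {f : A} (hu : ∀ a, u (orderOf s + a) = f * u a)
    {c : G × G → A} (hc : ∀ a b, u a * s ^ a • u b * c (s ^ a, s ^ b) = u (a + b))
    (hg : g ∈ zpowers s) (hh : h ∈ zpowers s) :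
    cyc s f (g, h) = dd (fun x => u (xp s x)) (g, h) * c (g, h) := by
  have e := hc (xp s g) (xp s h)
  rw [xp_spec hs hg, xp_spec hs hh, g3_per hu (xp s g + xp s h), ← g3_mod hs hg hh,
    ← g3_div hs hg hh, ← div_eq_iff_eq_mul] at e
  simp only [cyc, dd]
  rw [← e]
  apply Additive.ofMul.injective
  simp only [ofMul_mul, ofMul_div]
  abel

theorem cyc_coc (hs : IsOfFinOrder s) {f : A} (hf : s • f = f) : CocOn (zpowers s) (cyc s f) := fun g hg h hh j hj => by
  have e1 := xp_carry hs (mul_mem hg hh) hj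
  have e2 := xp_carry hs hg hh
  have e3 := xp_carry hs hh hj
  have e4 := xp_carry hs hg (mul_mem hh hj)
  simp only [cyc]
  rw [smul_pow', g3_fix hf hg, ← pow_add, ← pow_add]
  congr 1
  refine Nat.eq_of_mul_eq_mul_left hs.orderOf_pos ?_
  rw [mul_add, mul_add]
  rw [mul_assoc g h j] at e1 ⊢
  omega

/-- `e g = ∏ j < xp s g, s ^ j • x` -/
theorem cyc_norm (hs : IsOfFinOrder s) (x : A) :
    CobOn (zpowers s) (cyc s (∏ i ∈ Finset.range (orderOf s), s ^ i • x)) := by
  refine ⟨fun y => ∏ j ∈ Finset.range (xp s y), s ^ j • x, fun g hg h hh => ?_⟩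
  refine (g3_dd hs (u := fun i => ∏ j ∈ Finset.range i, s ^ j • x) (c := 1) (fun a => ?_)
    (fun a b => ?_) hg hh).trans (mul_one _)
  · simp only [Finset.prod_range_add, pow_add, pow_orderOf_eq_one, one_mul]
  · simp only [Finset.prod_range_add, pow_add, mul_smul, Finset.smul_prod', Pi.one_apply, mul_one]

/-- `u i = (c (1, 1))⁻¹ * ∏ j < i, c (s ^ j, s)`, `f = ∏ j < orderOf s, c (s ^ j, s)`. By induction
on `b`: `u a * s ^ a • u b * c (s ^ a, s ^ b) = u (a + b)`; and `u (n + a) = f * u a`. Then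
`c * dd (u ∘ xp s) = cyc s f`. -/
theorem exists_cyc (hs : IsOfFinOrder s) {c : G × G → A} (hc : CocOn (zpowers s) c) :
    ∃ f : A, s • f = f ∧ CobOn (zpowers s) (c / cyc s f) := by
  let u : ℕ → A := fun i => (c (1, 1))⁻¹ * ∏ j ∈ Finset.range i, c (s ^ j, s)
  have h1 : ∀ a, u (orderOf s + a) = (∏ j ∈ Finset.range (orderOf s), c (s ^ j, s)) * u a :=
    fun a => by
      simp only [u, Finset.prod_range_add, pow_add, pow_orderOf_eq_one, one_mul]
      rw [mul_left_comm]
  have h0 : ∀ b, u (b + 1) = u b * c (s ^ b, s) := fun b => by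
    simp only [u, Finset.prod_range_succ, mul_assoc]
  have hz : u 0 = (c (1, 1))⁻¹ := by simp [u]
  have h2 : ∀ a b, u a * s ^ a • u b * c (s ^ a, s ^ b) = u (a + b) := fun a b => by
    induction b with
    | zero => rw [hz, pow_zero, hc.one_right (npow_mem_zpowers s a), smul_inv', add_zero,
        inv_mul_cancel_right]
    | succ b ih =>
      have e := hc _ (npow_mem_zpowers s a) _ (npow_mem_zpowers s b) _ (mem_zpowers s)
      rw [← add_assoc, h0, h0, ← ih, smul_mul', pow_succ, pow_add, mul_assoc (u a),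
        mul_assoc (s ^ a • u b), ← e]
      ac_rfl
  refine ⟨∏ j ∈ Finset.range (orderOf s), c (s ^ j, s), ?_, (fun x => u (xp s x))⁻¹,
    fun g hg h hh => ?_⟩
  swap
  · rw [Pi.div_apply, g3_dd hs h1 h2 hg hh, dd_inv, Pi.inv_apply, div_mul_cancel_right]
  · have e := h2 1 (orderOf s)
    have e0 := h1 0
    rw [add_zero, hz] at e0
    rw [add_comm, h1, e0, pow_one, pow_orderOf_eq_one, hc.one_right (mem_zpowers s), smul_mul',
      smul_inv', mul_assoc, inv_mul_cancel_right, mul_comm] at e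
    exact mul_right_cancel e

/-- `e g = r ^ xp s (ρ g)` -/
theorem cyc_root (hs : IsOfFinOrder s) {H : Subgroup G'} {ρ : G' → G}
    (hρ : ∀ g ∈ H, ∀ h ∈ H, ρ (g * h) = ρ g * ρ h) (hm : ∀ g ∈ H, ρ g ∈ zpowers s) {r : A'}
    (hr : ∀ g ∈ H, g • r = r) : CobOn H fun p => cyc s (r ^ orderOf s) (ρ p.1, ρ p.2) := by
  refine ⟨fun g => r ^ xp s (ρ g), fun g hg h hh => ?_⟩
  have e := xp_carry hs (hm g hg) (hm h hh)
  simp only [cyc, dd]
  rw [smul_pow', hr g hg, hρ g hg h hh, ← pow_mul, div_mul_eq_mul_div, ← pow_add,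
    eq_div_iff_mul_eq', ← pow_add]
  congr 1
  omega

/-- if every fixed element is a norm, every cocycle is a coboundary -/
theorem cob_of_norm (hs : IsOfFinOrder s)
    (hn : ∀ f : A, s • f = f → ∃ x : A, f = ∏ i ∈ Finset.range (orderOf s), s ^ i • x)
    {c : G × G → A} (hc : CocOn (zpowers s) c) : CobOn (zpowers s) c := by
  obtain ⟨f, hf, h1⟩ := exists_cyc hs hc
  obtain ⟨x, rfl⟩ := hn f hf
  have := h1.mul (cyc_norm hs x)
  rwa [div_mul_cancel] at this

/-- For a finite field `E` every cocycle is a coboundary: `G` is cyclic (it is the Galois group of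
`E` over the fixed field), and the norm is onto (`FiniteField.norm_surjective`,
`Algebra.norm_eq_prod_automorphisms`). -/
theorem cob_of_finite {E : Type} [Field E] [Finite E] [MulSemiringAction G E] [FaithfulSMul G E]
    {c : G × G → Eˣ} (hc : IsMulCocycle₂ c) : ∃ e, c = dd e := by
  have : Finite G := Finite.of_injective _ (MulAction.toPerm_injective (α := G) (β := E))
  let φ := FixedPoints.toAlgAutMulEquiv G E
  have : IsCyclic G := isCyclic_of_surjective φ.symm φ.symm.surjective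
  obtain ⟨s, hs⟩ := IsCyclic.exists_generator (α := G)
  have ho := isOfFinOrder_of_finite s
  have ht : zpowers s = ⊤ := eq_top_iff.2 fun x _ => hs x
  rw [← cobOn_top, ← ht]
  refine cob_of_norm ho (fun f hf => ?_) (.of_coc hc _)
  have hm : (f : E) ∈ FixedPoints.subfield G E := fun g =>
    congrArg Units.val (g3_fix hf (hs g))
  obtain ⟨y, hy⟩ := FiniteField.norm_surjective (FixedPoints.subfield G E) E ⟨f, hm⟩
  have e := Algebra.norm_eq_prod_automorphisms (FixedPoints.subfield G E) y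
  rw [hy] at e
  have e1 : (f : E) = ∏ i ∈ Finset.range (orderOf s), s ^ i • y := by
    refine e.trans (Finset.prod_bij (fun i _ => φ (s ^ i)) (fun _ _ => Finset.mem_univ _)
      (fun a ha b hb u => ?_) (fun σ _ => ?_) fun _ _ => rfl).symm
    · have := congrArg (xp s) (φ.injective u)
      rwa [xp_pow ho, xp_pow ho, Nat.mod_eq_of_lt (Finset.mem_range.1 ha),
        Nat.mod_eq_of_lt (Finset.mem_range.1 hb)] at this
    · exact ⟨xp s (φ.symm σ), Finset.mem_range.2 (xp_lt ho _), by
        rw [xp_spec ho (hs _), φ.apply_symm_apply]⟩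
  have h0 : y ≠ 0 := by
    rintro rfl
    exact f.ne_zero (e1.trans (Finset.prod_eq_zero (Finset.mem_range.2 ho.orderOf_pos)
      (smul_zero _)))
  refine ⟨Units.mk0 y h0, Units.ext ?_⟩
  rw [e1, Units.coe_prod]
  rfl

end Pool.Agent.ZCy
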