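import Pool.Agent.Lib.MP_751085_ag.ZC.CBase
import Pool.Agent.Lib.MP_751085_ag.ZC.CAl1

/-! The variety defined by a geometrically irreducible chart. -/

namespace Pool.Agent.ZCy

open scoped Classical Polynomial
open MvPolynomial

variable {k : Type} [Field k] {σ : Type} {N : ℕ}

/-- the forms that vanish on the hypersurface of the chart -/
def chJ {ι R : Type} [CommRing R] (χ : (MP ι R)[X]) (pp : Fin (N + 1) → (MP ι R)[X]) :
    Set (Fm N R) := {G | (∃ m, G.IsHomogeneous m) ∧ χ ∣ sb pp G}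

theorem PChart.D_ne_zero {R : Type} [CommRing R] [Nontrivial R] (c : PChart R σ) : c.D ≠ 0 := by
  intro h
  obtain ⟨r, hr⟩ := c.dvd
  rw [h, zero_dvd_iff] at hr
  refine (c.tm.1.pow (n := r)).ne_zero ?_
  simp only [tp]
  rw [← map_pow, hr, map_zero]

theorem PChart.GI.irreducible {c : PChart k σ} (h : c.GI) : Irreducible c.χ :=
  Polynomial.Monic.irreducible_of_irreducible_map _ _ c.monic h

section

variable {A F : Type} [CommRing A] [IsDomain A] [Field F] [Algebra (Fr A) F]

theorem cy2_inj : Function.Injective (toE A F) :=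
  (algebraMap (Fr A) F).injective.comp (IsFractionRing.injective A _)

theorem cy2_int {χ : A[X]} (hm : χ.Monic) {θ : F} (h : χ.eval₂ (toE A F) θ = 0) :
    IsIntegral (Fr A) θ :=
  ⟨χ.map (algebraMap A _), hm.map _, by rw [Polynomial.eval₂_map, h]⟩

/-- clearing denominators -/
theorem cy2_repr {χ : A[X]} (hm : χ.Monic) {θ : F} (h : χ.eval₂ (toE A F) θ = 0)
    (h2 : IntermediateField.adjoin (Fr A) {θ} = ⊤) (a : F) :
    ∃ (b : A) (Q : A[X]), b ≠ 0 ∧ Q.degree < χ.degree ∧ Q.eval₂ (toE A F) θ = toE A F b * a := by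
  have h3 : a ∈ Algebra.adjoin (Fr A) {θ} := by
    rw [← IntermediateField.adjoin_simple_toSubalgebra_of_isAlgebraic (cy2_int hm h).isAlgebraic,
      h2]
    trivial
  rw [Algebra.adjoin_singleton_eq_range_aeval] at h3
  obtain ⟨P, rfl⟩ := h3
  obtain ⟨b, hb, e⟩ := IsLocalization.integerNormalization_spec (nonZeroDivisors A) P
  refine ⟨b, _ %ₘ χ, nonZeroDivisors.ne_zero hb, Polynomial.degree_modByMonic_lt
    (IsLocalization.integerNormalization (nonZeroDivisors A) P) hm, ?_⟩
  rw [Polynomial.eval₂_modByMonic_eq_self_of_root h, ← Polynomial.eval₂_map, e,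
    ← IsScalarTower.algebraMap_smul (Fr A) b P, Polynomial.eval₂_smul]
  rfl

theorem cy2_top {θ : F} (h2 : IntermediateField.adjoin (Fr A) {θ} = ⊤) (S : Subfield F)
    (h3 : ∀ p, toE A F p ∈ S) (h4 : θ ∈ S) (a : F) : a ∈ S := by
  have h5 : (IntermediateField.adjoin (Fr A) {θ}).toSubfield ≤ S := by
    rw [IntermediateField.adjoin_toSubfield, Subfield.closure_le]
    rintro _ (⟨y, rfl⟩ | rfl)
    · obtain ⟨p, q, -, rfl⟩ := IsFractionRing.div_surjective (A := A) y
      rw [map_div₀]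
      exact div_mem (h3 p) (h3 q)
    · exact h4
  rw [h2] at h5
  exact h5 trivial

theorem cy2_trdeg [Algebra k A] [Algebra k F] [IsScalarTower k (Fr A) F] {χ : A[X]} (hm : χ.Monic)
    {θ : F} (h : χ.eval₂ (toE A F) θ = 0) (h2 : IntermediateField.adjoin (Fr A) {θ} = ⊤) :
    Algebra.trdeg k F = Algebra.trdeg k A := by
  have h3 := IntermediateField.adjoin.finiteDimensional (cy2_int hm h)
  rw [h2] at h3
  have : FiniteDimensional (Fr A) F :=
    (IntermediateField.topEquiv (F := Fr A) (E := F)).toLinearEquiv.finiteDimensional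
  have : Algebra.IsAlgebraic A (Fr A) := IsLocalization.isAlgebraic _ (nonZeroDivisors A)
  rw [← trdeg_add_eq k (Fr A) (A := F), ← trdeg_add_eq k A (A := Fr A), trdeg_eq_zero (A := F),
    trdeg_eq_zero (A := Fr A), add_zero, add_zero]

end

theorem cy2_eval {ι F Ω : Type} [Field F] [Field Ω] [Algebra (RF ι k) F] [Algebra k F]
    [IsScalarTower k (RF ι k) F] (φ : k →+* Ω) (j : F →+* Ω) (h : ∀ a, j (algebraMap k F a) = φ a) :
    eval₂Hom φ (fun i => j (toE (MP ι k) F (X i))) = j.comp (toE (MP ι k) F) := by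
  ext : 1
  · ext a : 1
    rw [RingHom.comp_apply, RingHom.comp_apply, eval₂Hom_C, ← h,
      IsScalarTower.algebraMap_apply k (RF ι k) F]
    rfl
  · rw [eval₂Hom_X']; rfl

theorem cy2_alg {Ω : Type} [Field Ω] [Algebra k Ω] {K : Type} [Field K] [IsAlgClosed K]
    [Algebra k K] [Algebra K Ω] [IsScalarTower k K Ω] {a : Ω} (ha : IsAlgebraic k a) :
    a ∈ (algebraMap K Ω).range :=
  minpoly.mem_range_of_degree_eq_one K a (IsAlgClosed.degree_eq_one_of_irreducible K
    (minpoly.irreducible ha.isIntegral.tower_top))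

/-- `k` is algebraically closed in the field generated by a root of `χ` -/
theorem PChart.GI.geom [Fintype σ] {c : PChart k σ} (h : c.GI) {F : Type} [Field F]
    [Algebra (RF (Option σ) k) F] [Algebra k F] [IsScalarTower k (RF (Option σ) k) F] {θ : F}
    (hF : c.FF F θ) (a : F) (ha : IsAlgebraic k a) : a ∈ (algebraMap k F).range := by
  let K := AlgebraicClosure k
  let Ω := AlgebraicClosure F
  let u : K →ₐ[k] Ω := IsAlgClosed.lift
  let _ : Algebra K Ω := u.toRingHom.toAlgebra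
  have : IsScalarTower k K Ω := .of_algebraMap_eq fun a => (u.commutes a).symm
  let j := algebraMap F Ω
  have e1 := cy2_eval (ι := Option σ) (algebraMap k Ω) j
    fun a => (IsScalarTower.algebraMap_apply k F Ω a).symm
  set ξ := fun i : Option σ => j (toE (MP (Option σ) k) F (X i))
  have h1 : AlgebraicIndependent k ξ := by
    rw [← injective_eval₂Hom, e1, RingHom.coe_comp]
    exact j.injective.comp cy2_inj
  have h2 := injective_eval₂Hom.2 (h1.extendScalars K)
  have e2 : (eval₂Hom (algebraMap K Ω) ξ).comp (map (algebraMap k K)) =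
      j.comp (toE (MP (Option σ) k) F) := by
    rw [← e1, IsScalarTower.algebraMap_eq k K Ω]
    exact RingHom.ext fun p => eval₂Hom_map_hom _ _ _ _
  have e3 : ∀ P : (MP (Option σ) k)[X], (mq (algebraMap k K) P).eval₂
      (eval₂Hom (algebraMap K Ω) ξ) (j θ) = j (P.eval₂ (toE (MP (Option σ) k) F) θ) := fun P => by
    rw [Polynomial.coe_mapRingHom, Polynomial.eval₂_map, e2, Polynomial.hom_eval₂]
  obtain ⟨z, hz⟩ := cy2_alg (K := K) (ha.algHom (IsScalarTower.toAlgHom k F Ω))
  obtain ⟨b, Q, hb, hQ, e4⟩ := cy2_repr c.monic hF.1 hF.2 a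
  have h3 : mq (algebraMap k K) c.χ ∣
      mq (algebraMap k K) Q - Polynomial.C (map (algebraMap k K) b * C z) := by
    refine dvd_of_root h2 h (by rw [e3, hF.1, map_zero]) ?_
    rw [Polynomial.eval₂_sub, e3, e4, Polynomial.eval₂_C, map_mul, map_mul, eval₂Hom_C, hz,
      ← RingHom.comp_apply _ (map _), e2]
    exact sub_self _
  have h4 := Polynomial.eq_zero_of_dvd_of_degree_lt h3 (by
    rw [Polynomial.coe_mapRingHom, c.monic.degree_map]
    refine (Polynomial.degree_sub_le _ _).trans_lt (max_lt (Polynomial.degree_map_le.trans_lt hQ)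
      (Polynomial.degree_C_le.trans_lt ?_))
    rw [← Polynomial.natDegree_pos_iff_degree_pos, c.deg]
    exact c.pos)
  obtain ⟨m, hm⟩ := ne_zero_iff.1 hb
  have h5 := congrArg (fun P => coeff m (Polynomial.coeff P 0)) (sub_eq_zero.1 h4)
  simp only [Polynomial.coe_mapRingHom, Polynomial.coeff_map, Polynomial.coeff_C_zero,
    mul_comm _ (C z), coeff_C_mul, coeff_map] at h5
  refine ⟨coeff m (Q.coeff 0) / coeff m b, j.injective ?_⟩
  rw [← IsScalarTower.algebraMap_apply k F Ω, IsScalarTower.algebraMap_apply k K Ω, map_div₀, h5,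
    mul_div_cancel_right₀ _ ((map_ne_zero _).2 hm)]
  exact hz

theorem cy2_gen {GG : Set (Fm N k)} (c : Chart k σ N GG) (h : c.GI) {F : Type} [Field F]
    [Algebra (RF (Option σ) k) F] [Algebra k F] [IsScalarTower k (RF (Option σ) k) F] {θ : F}
    (hF : c.FF F θ) : ∃ g : Fin (N + 1) → F, (∃ i, g i = 1) ∧
      IntermediateField.adjoin k (Set.range g) = ⊤ ∧
      ∀ G : Fm N k, (∃ m, G.IsHomogeneous m) → (aeval g G = 0 ↔ c.χ ∣ sb c.pp G) := by
  have e1 := cy2_eval (ι := Option σ) (algebraMap k F) (RingHom.id F) fun _ => rfl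
  rw [RingHom.id_comp] at e1
  set ξ := fun i : Option σ => RingHom.id F (toE (MP (Option σ) k) F (X i))
  have h1 : ev (algebraMap k F) ξ θ c.χ = 0 := by rw [ev_def, e1, hF.1]
  have h2 : ∀ p, ev (algebraMap k F) ξ θ p = 0 ↔ c.χ ∣ p := fun p => ⟨fun hp =>
    dvd_of_root cy2_inj h.irreducible hF.1 (by rwa [ev_def, e1] at hp), fun ⟨q, hq⟩ => by
      rw [hq, map_mul, h1, zero_mul]⟩
  have h3 : ∀ G, aeval (c.pv (algebraMap k F) ξ θ) G = ev (algebraMap k F) ξ θ (sb c.pp G) :=
    fun G => (ev_sb _ _ _ _ _).symm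
  set x := c.pv (algebraMap k F) ξ θ
  have h4 : aeval x (c.f none) ≠ 0 := by
    rw [h3]
    refine (c.ne F _ ξ θ h1 ?_).1
    rw [← coe_eval₂Hom, e1]
    exact (map_ne_zero_iff _ cy2_inj).2 c.D_ne_zero
  obtain ⟨i, hi⟩ : ∃ i, x i ≠ 0 := by
    by_contra h5
    have h6 : x = (0 : F) • x := funext fun i => by
      rw [not_not.1 fun h7 => h5 ⟨i, h7⟩, zero_smul, Pi.zero_apply]
    exact h4 (by rw [h6, aeval_smul_hom (c.hf none), zero_pow c.dpos.ne', zero_mul])
  refine ⟨(x i)⁻¹ • x, ⟨i, inv_mul_cancel₀ hi⟩, eq_top_iff.2 fun a _ => ?_, fun G ⟨m, hm⟩ => ?_⟩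
  · set S := IntermediateField.adjoin k (Set.range ((x i)⁻¹ • x))
    have h5 : ∀ {ι : Type} (y : ι → F), (∀ i, y i ∈ S) → ∀ G : MP ι k, aeval y G ∈ S :=
      fun y hy G => by
        induction G using MvPolynomial.induction_on with
        | C c => rw [aeval_C]; exact S.algebraMap_mem c
        | add p q hp hq => rw [map_add]; exact add_mem hp hq
        | mul_X p i hp => rw [map_mul, aeval_X]; exact mul_mem hp (hy i)
    have h6 : ∀ (G : Fm N k) (t : F), G.IsHomogeneous c.d →
        aeval x G - t * aeval x (c.f none) = 0 → t ∈ S := fun G t hG ht => by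
      have h7 := h5 _ fun i => IntermediateField.subset_adjoin k _ ⟨i, rfl⟩
      have h8 := div_mem (h7 G) (h7 (c.f none))
      rwa [aeval_smul_hom hG, aeval_smul_hom (c.hf none), mul_div_mul_left _ _
        (pow_ne_zero _ (inv_ne_zero hi)), sub_eq_zero.1 ht, mul_div_cancel_right₀ _ h4] at h8
    refine cy2_top hF.2 S.toSubfield (fun p => ?_) (h6 c.th θ c.hth ?_) a
    · rw [← e1]
      refine h5 ξ (fun j => h6 _ _ (c.hf (some j)) ?_) p
      have h7 := (h2 _).2 (c.dv_f j)
      rwa [map_sub, map_mul, ev_C, eval₂_X, ← h3, ← h3] at h7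
    · have h7 := (h2 _).2 c.dv_th
      rwa [map_sub, map_mul, ev_X, ← h3, ← h3] at h7
  · rw [aeval_smul_hom hm, mul_eq_zero, or_iff_right (pow_ne_zero _ (inv_ne_zero hi)), h3, h2]

theorem Chart.exists_gen [Fintype σ] {GG : Set (Fm N k)} (c : Chart k σ N GG) (h : c.GI) :
    ∃ Y : Gen k N, (∀ a : Y.F, IsAlgebraic k a → a ∈ (algebraMap k Y.F).range) ∧
      Algebra.trdeg k Y.F = (Fintype.card σ + 1 : ℕ) ∧ Y.var.I = chJ c.χ c.pp := by
  let p := c.χ.map (algebraMap _ (RF (Option σ) k))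
  have : Fact (Irreducible p) :=
    ⟨c.monic.irreducible_iff_irreducible_map_fraction_map.1 h.irreducible⟩
  have hF : c.FF (AdjoinRoot p) (AdjoinRoot.root p) :=
    ⟨by rw [← Polynomial.eval₂_map]; exact AdjoinRoot.eval₂_root p,
      IntermediateField.adjoin_root_eq_top p⟩
  obtain ⟨g, h1, h2, h3⟩ := cy2_gen c h hF
  refine ⟨⟨AdjoinRoot p, g, h1, h2⟩, h.geom hF, ?_, Set.ext fun G =>
    and_congr_right fun hG => h3 G hG⟩
  rw [cy2_trdeg c.monic hF.1 hF.2, MvPolynomial.trdeg_of_isDomain]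
  simp

end Pool.Agent.ZCy
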