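import Pool.Agent.Lib.MP_751085_ag.ZC.VDefs

/-! Charts. The variables are indexed by `Option σ`, the variable `none` is `τ`. -/

namespace Pool.Agent.ZCy

open scoped Classical Polynomial

set_option linter.unusedSectionVars false

/-- polynomial rings -/
abbrev MP (σ R : Type) [CommRing R] : Type := MvPolynomial σ R

/-- rational function fields -/
abbrev RF (σ K : Type) [CommRing K] : Type := Fr (MP σ K)

/-- forms on `ℙ^N` -/
abbrev Fm (N : ℕ) (R : Type) [CommRing R] : Type := MP (Fin (N + 1)) R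

section

variable {R S : Type} [CommRing R] [CommRing S] {σ : Type} {N : ℕ}

/-- as a polynomial in `τ` -/
noncomputable abbrev tp (p : MP (Option σ) R) : (MP σ R)[X] := MvPolynomial.optionEquivLeft R σ p

/-- a polynomial free of `τ` -/
noncomputable abbrev up (p : MP σ R) : MP (Option σ) R := MvPolynomial.rename some p

/-- monic in `τ` of degree equal to the total degree -/
def TMonic (p : MP (Option σ) R) : Prop := (tp p).Monic ∧ p.totalDegree ≤ (tp p).natDegree

/-- evaluation of a polynomial in `ξ` and `Z` -/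
noncomputable def ev {ι : Type} (φ : R →+* S) (ξ : ι → S) (θ : S) : (MP ι R)[X] →+* S :=
  Polynomial.eval₂RingHom (MvPolynomial.eval₂Hom φ ξ) θ

/-- map on coefficients -/
noncomputable abbrev mq {ι : Type} (φ : R →+* S) : (MP ι R)[X] →+* (MP ι S)[X] :=
  Polynomial.mapRingHom (MvPolynomial.map φ)

/-- substitution of `p` for the homogeneous coordinates -/
noncomputable def sb {ι : Type} (p : Fin (N + 1) → (MP ι R)[X]) : Fm N R →+* (MP ι R)[X] :=
  MvPolynomial.eval₂Hom (Polynomial.C.comp MvPolynomial.C) p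

/-- `x` is a zero of the equations `GG` -/
def Zer (GG : Set (Fm N R)) (φ : R →+* S) (x : Fin (N + 1) → S) : Prop :=
  ∀ G ∈ GG, MvPolynomial.eval₂ φ x G = 0

/-- restriction of a polynomial to the line `a + τ b` -/
noncomputable def line {ι : Type} (φ : R →+* S) (a b : ι → S) : MP ι R →+* S[X] :=
  MvPolynomial.eval₂Hom (Polynomial.C.comp φ) fun i =>
    Polynomial.C (a i) + Polynomial.C (b i) * Polynomial.X

/-- the line `a + τ b` meets `Θ = 0` transversally in `deg Θ` points, and `a` is off `Θ = 0` -/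
def GoodLine {ι : Type} (Θ : MP ι R) (a b : ι → R) : Prop :=
  IsUnit (MvPolynomial.eval a Θ) ∧ (line (RingHom.id R) a b Θ).Separable ∧
    IsUnit ((line (RingHom.id R) a b Θ).coeff Θ.totalDegree)

end

/-- The hypersurface `χ(ξ, Z) = 0` with its branch data. -/
structure PChart (R : Type) [CommRing R] (σ : Type) where
  δ : ℕ
  χ : (MP (Option σ) R)[X]
  D : MP (Option σ) R
  Ψ : MP (Option σ) R
  Φ : MP σ R
  monic : χ.Monic
  deg : χ.natDegree = δ
  pos : 0 < δ
  wt : ∀ i, (χ.coeff i).totalDegree ≤ δ - i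
  bez : ∃ α β, Polynomial.C D = α * χ + β * Polynomial.derivative χ
  dvd : ∃ r : ℕ, D ∣ Ψ ^ r
  tm : TMonic Ψ
  bezΦ : ∃ α β, Polynomial.C Φ = α * tp Ψ + β * Polynomial.derivative (tp Ψ)
  sep : (∑ i ∈ Finset.range (δ + 1), Polynomial.monomial i
    (MvPolynomial.coeff (Finsupp.single none (δ - i)) (χ.coeff i))).Separable

namespace PChart

variable {R S : Type} [CommRing R] [CommRing S] {σ : Type} (c : PChart R σ)

/-- the top form of `χ` in the direction of `τ` -/
noncomputable def top : R[X] := ∑ i ∈ Finset.range (c.δ + 1), Polynomial.monomial i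
  (MvPolynomial.coeff (Finsupp.single none (c.δ - i)) (c.χ.coeff i))

/-- the fixed branch locus -/
noncomputable def br : MP (Option σ) R := c.Ψ * up c.Φ

/-- `c'` is the image of `c` under `φ` -/
structure IsMap (φ : R →+* S) (c' : PChart S σ) : Prop where
  δ : c'.δ = c.δ
  χ : c'.χ = mq φ c.χ
  D : c'.D = MvPolynomial.map φ c.D
  Ψ : c'.Ψ = MvPolynomial.map φ c.Ψ
  Φ : c'.Φ = MvPolynomial.map φ c.Φ

end PChart

/-- restriction to the hyperplane `ξ_1 = 0`, `ξ_1` the variable `some none` -/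
noncomputable def hyp {R : Type} [CommRing R] {σ : Type} :
    MP (Option (Option σ)) R →+* MP (Option σ) R :=
  MvPolynomial.eval₂Hom MvPolynomial.C fun i =>
    i.elim (MvPolynomial.X none) fun j => j.elim 0 fun l => MvPolynomial.X (some l)

/-- restriction to the hyperplane where the variable `none` vanishes -/
noncomputable def hyp0 {R : Type} [CommRing R] {σ : Type} : MP (Option σ) R →+* MP σ R :=
  MvPolynomial.eval₂Hom MvPolynomial.C fun i => i.elim 0 MvPolynomial.X

/-- `c'` is the restriction of `c` to the hyperplane `ξ_1 = 0` -/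
structure PChart.IsHyp {R : Type} [CommRing R] {σ : Type} (c : PChart R (Option σ))
    (c' : PChart R σ) : Prop where
  δ : c'.δ = c.δ
  χ : c'.χ = c.χ.map hyp
  D : c'.D = hyp c.D
  Ψ : c'.Ψ = hyp c.Ψ
  Φ : c'.Φ = hyp0 c.Φ

namespace PChart

variable {K : Type} [Field K] {σ : Type} (c : PChart K σ)

/-- geometrically irreducible -/
def GI : Prop := Irreducible (mq (algebraMap K (AlgebraicClosure K)) c.χ)

/-- `F` is generated over the rational function field by a root `θ` of `χ` -/
def FF (F : Type) [Field F] [Algebra (RF (Option σ) K) F] (θ : F) : Prop :=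
  Polynomial.eval₂ (toE (MP (Option σ) K) F) θ c.χ = 0 ∧
    IntermediateField.adjoin (RF (Option σ) K) {θ} = ⊤

/-- the constants of the Laurent series field at infinity -/
noncomputable def cst (σ M : Type) [Field M] : MP σ M →+* LaurentSeries (RF σ M) :=
  (HahnSeries.C : RF σ M →+* LaurentSeries (RF σ M)).comp (algebraMap _ _)

/-- `j` is the expansion at the point at infinity given by the root `z` of the top form -/
structure InfEmb {F M : Type} [Field F] [Algebra (RF (Option σ) K) F] (θ : F) [Field M]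
    [Algebra K M] (z : M) (j : F →+* LaurentSeries (RF σ M)) : Prop where
  cst : ∀ p : MP σ K, j (toE (MP (Option σ) K) F (up p)) =
    cst σ M (MvPolynomial.map (algebraMap K M) p)
  tau : j (toE (MP (Option σ) K) F (MvPolynomial.X none)) = HahnSeries.single (-1) 1
  th : ∃ η : PowerSeries (RF σ M), j θ * HahnSeries.single 1 1 = (η : LaurentSeries (RF σ M)) ∧
    PowerSeries.constantCoeff η = algebraMap (MP σ M) _ (MvPolynomial.C z)

end PChart

/-- A chart of the cone of zeros of `GG`: a finite projection `f` to `ℙ^n` with primitive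
element `th / f_0` and inverse `pp`. The form `f none` is `f_0`, `f (some none)` is `f_n`. -/
structure Chart (R : Type) [CommRing R] (σ : Type) (N : ℕ) (GG : Set (Fm N R))
    extends PChart R σ where
  d : ℕ
  f : Option (Option σ) → Fm N R
  th : Fm N R
  l0 : Fm N R
  pp : Fin (N + 1) → (MP (Option σ) R)[X]
  dpos : 0 < d
  hf : ∀ i, (f i).IsHomogeneous d
  hth : th.IsHomogeneous d
  hl : l0.IsHomogeneous 1
  dv_on : ∀ G ∈ GG, χ ∣ sb pp G
  dv_f : ∀ i, χ ∣ sb pp (f (some i)) - Polynomial.C (MvPolynomial.X i) * sb pp (f none)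
  dv_th : χ ∣ sb pp th - Polynomial.X * sb pp (f none)
  ne : ∀ (Ω : Type) [Field Ω] (φ : R →+* Ω) (ξ : Option σ → Ω) (θ : Ω), ev φ ξ θ χ = 0 →
    MvPolynomial.eval₂ φ ξ D ≠ 0 → ev φ ξ θ (sb pp (f none)) ≠ 0 ∧ ev φ ξ θ (sb pp l0) ≠ 0
  fro : ∀ (Ω : Type) [Field Ω] (φ : R →+* Ω) (x : Fin (N + 1) → Ω) (ξ : Option σ → Ω) (θ : Ω),
    Zer GG φ x → MvPolynomial.eval₂ φ x (f none) ≠ 0 →
    (∀ i, MvPolynomial.eval₂ φ x (f (some i)) = ξ i * MvPolynomial.eval₂ φ x (f none)) →
    MvPolynomial.eval₂ φ x th = θ * MvPolynomial.eval₂ φ x (f none) →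
      ev φ ξ θ χ = 0 ∧ (MvPolynomial.eval₂ φ ξ D ≠ 0 → ∃ u : Ω, ∀ j, ev φ ξ θ (pp j) = u * x j)
  int : ∀ j, ∃ (m : ℕ) (H : (MP (Option (Option σ)) R)[X]), H.Monic ∧ H.natDegree = m ∧
    (∀ i, (H.coeff i).IsHomogeneous (m - i)) ∧ ∀ (Ω : Type) [Field Ω] (φ : R →+* Ω)
      (x : Fin (N + 1) → Ω), Zer GG φ x →
        ev φ (fun i => MvPolynomial.eval₂ φ x (f i)) (x j ^ d) H = 0

namespace Chart

variable {R S : Type} [CommRing R] [CommRing S] {σ : Type} {N : ℕ} {GG : Set (Fm N R)}
  (c : Chart R σ N GG)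

/-- the affine coordinates of the image of `x` -/
noncomputable def xi {Ω : Type} [Field Ω] (φ : R →+* Ω) (x : Fin (N + 1) → Ω) (i : Option σ) : Ω :=
  MvPolynomial.eval₂ φ x (c.f (some i)) / MvPolynomial.eval₂ φ x (c.f none)

/-- the value of the primitive element at `x` -/
noncomputable def tht {Ω : Type} [Field Ω] (φ : R →+* Ω) (x : Fin (N + 1) → Ω) : Ω :=
  MvPolynomial.eval₂ φ x c.th / MvPolynomial.eval₂ φ x (c.f none)

/-- the point with chart coordinates `(ξ, θ)` -/
noncomputable def pv (φ : R →+* S) (ξ : Option σ → S) (θ : S) : Fin (N + 1) → S :=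
  fun j => ev φ ξ θ (c.pp j)

/-- `f_0 Θ(ξ)` does not vanish at `x` -/
def Off (Θ : MP (Option σ) R) {Ω : Type} [Field Ω] (φ : R →+* Ω) (x : Fin (N + 1) → Ω) : Prop :=
  MvPolynomial.eval₂ φ x (c.f none) ≠ 0 ∧ MvPolynomial.eval₂ φ (c.xi φ x) Θ ≠ 0

/-- the good open set `f_0 Ψ Φ ≠ 0` -/
def U {Ω : Type} [Field Ω] (φ : R →+* Ω) (x : Fin (N + 1) → Ω) : Prop := c.Off c.br φ x

/-- `c'` is the image of `c` under `φ` -/
structure IsMap (φ : R →+* S) {GG' : Set (Fm N S)} (c' : Chart S σ N GG') : Prop where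
  p : c.toPChart.IsMap φ c'.toPChart
  d : c'.d = c.d
  f : ∀ i, c'.f i = MvPolynomial.map φ (c.f i)
  th : c'.th = MvPolynomial.map φ c.th
  l0 : c'.l0 = MvPolynomial.map φ c.l0
  pp : ∀ j, c'.pp j = mq φ (c.pp j)

end Chart

/-- the index map of the hyperplane `ξ_1 = 0` -/
def skip {σ : Type} : Option σ → Option (Option σ) := Option.map some

/-- `c'` is the restriction of `c` to the section `f_1 = 0`, `f_1 = c.f (some (some none))` -/
structure Chart.IsHyp {R : Type} [CommRing R] {σ : Type} {N : ℕ} {GG GG' : Set (Fm N R)}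
    (c : Chart R (Option σ) N GG) (c' : Chart R σ N GG') : Prop where
  p : c.toPChart.IsHyp c'.toPChart
  d : c'.d = c.d
  f : ∀ i, c'.f i = c.f (Option.map skip i)
  th : c'.th = c.th
  l0 : c'.l0 = c.l0
  pp : ∀ j, c'.pp j = (c.pp j).map hyp

/-- `t Θ(ξ)` as a form, written in the coordinates `x_i = ξ_i / τ`, `t = 1 / τ`:
the polynomial `t ^ (deg Θ + 1) Θ(x / t, 1 / t)`, the variable `none` now being `t` -/
noncomputable def flp {R : Type} [CommRing R] {σ : Type} [Fintype σ] (Θ : MP (Option σ) R) :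
    MP (Option σ) R :=
  ∑ m ∈ Θ.support, MvPolynomial.monomial
    (m.update none (Θ.totalDegree + 1 - m.degree)) (Θ.coeff m)

/-- The certificates for the Lefschetz theorem along the hyperplane `ξ_1 = 0`. -/
structure LefData (K : Type) [Field K] (σ : Type) [Fintype σ] where
  Θ : MP (Option (Option σ)) K
  Δ : MP (Option σ) K
  b : Option (Option σ) → K
  a' : Option σ → K
  b' : Option σ → K
  one : MvPolynomial.constantCoeff Θ = 1
  hb : b (some none) = 0
  hbn : b none = 1
  c2 : GoodLine Θ 0 b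
  bez : ∃ (r : ℕ) (α β : (MP (Option σ) K)[X]), Polynomial.C (Δ ^ r) =
    α * tp (flp Θ) + β * Polynomial.derivative (tp (flp Θ))
  ha' : a' none = 0
  hb' : b' none = 0
  nb' : b' ≠ 0
  c3 : GoodLine Δ a' b'

end Pool.Agent.ZCy
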