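import Pool.Agent.Lib.MP_751085_ag.ZC.Defs
import Pool.Agent.Lib.MP_751085_ag.ZC.CDefs

/-! Points, values of classes at points, hypersurface sections, the local conclusion. -/

namespace Pool.Agent.ZCy

open scoped Classical

variable {k : Type} [Field k]

/-- a variety in a fixed projective space -/
structure Gen (k : Type) [Field k] (N : ℕ) where
  F : Type
  [field : Field F]
  [alg : Algebra k F]
  g : Fin (N + 1) → F
  one : ∃ i, g i = 1
  gen : IntermediateField.adjoin k (Set.range g) = ⊤

attribute [instance] Gen.field Gen.alg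

/-- the underlying variety -/
@[reducible] def Gen.var {N : ℕ} (Y : Gen k N) : Var k := ⟨N, Y.F, Y.g, Y.one, Y.gen⟩

variable (X : Var k)

/-- `x` is a vector of homogeneous coordinates of a point of `X` -/
def Var.On {M : Type} [Field M] [Algebra k M] (x : Fin (X.N + 1) → M) : Prop :=
  x ≠ 0 ∧ ∀ G ∈ X.I, MvPolynomial.aeval x G = 0

/-- the value of a class at a point with coordinates in `M` -/
noncomputable def Var.val (α : Br X.F (AlgebraicClosure X.F)) (M : Type) [Field M] [Algebra k M]
    (x : Fin (X.N + 1) → M) : Br M (AlgebraicClosure M) :=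
  Classical.epsilon fun β => ∃ (r : ℕ) (γ : X.F →+* FractionRing (MvPowerSeries (Fin r) M)),
    X.Germ γ x ∧ X.Const γ α β

/-- the equations of `X` over an extension field -/
def Var.IK (K : Type) [Field K] [Algebra k K] : Set (Fm X.N K) :=
  MvPolynomial.map (algebraMap k K) '' X.I

/-- `γ` is the embedding of the function field given by the dominant point `x` -/
def Var.Dom {M : Type} [Field M] [Algebra k M] (γ : X.F →+* M) (x : Fin (X.N + 1) → M) : Prop :=
  (∀ a, γ (algebraMap k _ a) = algebraMap k M a) ∧ ∃ u : M, u ≠ 0 ∧ ∀ i, x i = u * γ (X.g i)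

/-- `Y` is the section of `X` by the form `f` -/
def Var.Sec (Y : Gen k X.N) (f : Fm X.N k) : Prop :=
  ∀ (M : Type) [Field M] [Algebra k M] (x : Fin (X.N + 1) → M),
    Y.var.On x ↔ X.On x ∧ MvPolynomial.aeval x f = 0

/-- the class `a` on `Y` and the class `b` on `X` have the same values on `Y` -/
def Var.Match (Y : Gen k X.N) (a : Br Y.F (AlgebraicClosure Y.F))
    (b : Br X.F (AlgebraicClosure X.F)) : Prop :=
  a ∈ Y.var.Brauer ∧ b ∈ X.Brauer ∧ ∀ (M : Type) [Field M] [Algebra k M]
    (x : Fin (X.N + 1) → M), Y.var.On x → Y.var.val a M x = X.val b M x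

/-- killed by a power of `Λ` -/
def Prim {A : Type} [AddCommGroup A] (Λ : ℕ) (a : A) : Prop := ∃ r : ℕ, Λ ^ r • a = 0

/-- killed by an integer prime to `Λ` -/
def Cop {A : Type} [AddCommGroup A] (Λ : ℕ) (a : A) : Prop := ∃ m : ℕ, m.Coprime Λ ∧ m • a = 0

/-- The local conclusion over the field `K`: a cycle of degree one on `Y_K` that pairs like `z`
with the `Λ`-primary classes and like `p / deg p` with the classes of order prime to `Λ`. -/
def Var.Loc (Y : Gen k X.N) (Λ : ℕ) (K : Type) [Field K] [Algebra k K] (z : X.Cyc K)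
    (p : Y.var.Cyc K) : Prop :=
  ∃ z' : Y.var.Cyc K, Var.deg z' = 1 ∧
    (∀ a b, X.Match Y a b → Prim Λ a → Prim Λ b → Var.pair z' a = Var.pair z b) ∧
    ∀ a ∈ Y.var.Brauer, Cop Λ a → Var.deg p • Var.pair z' a = Var.pair p a

/-- the forms of degree `d` over `K` that vanish at all `K̄`-points above the point `x₀` -/
def Van {N : ℕ} (x₀ : Fin (N + 1) → AlgebraicClosure k) (K : Type) [Field K] [Algebra k K] (d : ℕ)
    (f : Fm N K) : Prop :=
  f.IsHomogeneous d ∧ ∀ j : AlgebraicClosure k →ₐ[k] AlgebraicClosure K,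
    MvPolynomial.aeval (fun i => j (x₀ i)) f = 0

/-- `GG` is a model of `X` over a subring `O` of `K` -/
def Var.Model {O K : Type} [CommRing O] [Field K] [Algebra k K] [Algebra O K]
    (GG : Set (Fm X.N O)) : Prop :=
  (∀ G ∈ GG, ∃ m, G.IsHomogeneous m) ∧
    Ideal.span (MvPolynomial.map (algebraMap O K) '' GG) = Ideal.span (X.IK K)

end Pool.Agent.ZCy
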