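import Pool.Agent.Lib.MP_751085_ag.ZC.UXa
import Pool.Agent.Lib.MP_796ce4_ag.ZY.CvJ

/-! Functions defined over a subfield. -/

namespace Pool.Agent.ZCy.U

open Polynomial Module Pool.Agent.ZeroCyc
open scoped Classical IntermediateField

set_option linter.unusedSectionVars false

variable {K Λ : Type} [Field K] [CharZero K] [Field Λ] [IsAlgClosed Λ] [Algebra K Λ] [IsGalois K Λ]
  {L : IntermediateField K Λ} [FiniteDimensional K L]

/-- a family contains a member that is the identity on the larger field -/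
theorem over_fam_id {L' : IntermediateField K Λ} [FiniteDimensional K L'] {n : ℕ}
    {s : Fin n → Λ ≃ₐ[K] Λ} (h : Fam L L' s) : n ≠ 0 ∧ ∃ t, Fix L' (s t) := by
  have hn : n ≠ 0 := fun e => by
    have h1 := h.card
    rw [Fintype.card_fin, e, zero_mul] at h1
    exact (finrank_pos (R := K) (M := L')).ne h1
  obtain ⟨ρ, hρ⟩ := h.perm _ (h.fix ⟨0, Nat.pos_of_ne_zero hn⟩).inv
  refine ⟨hn, ρ ⟨0, Nat.pos_of_ne_zero hn⟩, fun x hx => ?_⟩
  rw [← hρ _ x hx]
  exact (s _).symm_apply_apply x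

/-- the product of the conjugates is defined over the smaller field -/
theorem over_prod {L' : IntermediateField K Λ} {n : ℕ} {s : Fin n → Λ ≃ₐ[K] Λ} (h : Fam L L' s)
    {u : Λ[X]} (hu : Over L' u) : Over L (∏ t, u.map (s t : Λ →+* Λ)) := fun i => by
  refine mem_of_fixed fun σ hσ => ?_
  obtain ⟨ρ, hρ⟩ := h.perm σ hσ
  have e : (∏ t, u.map (s t : Λ →+* Λ)).map (σ : Λ →+* Λ) = ∏ t, u.map (s t : Λ →+* Λ) := by
    rw [Polynomial.map_prod, ← Equiv.prod_comp ρ fun t => u.map (s t : Λ →+* Λ)]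
    refine Finset.prod_congr rfl fun t _ => ?_
    ext j
    rw [coeff_map, coeff_map, coeff_map]
    exact hρ t _ (hu j)
  conv_rhs => rw [← e, coeff_map]
  rfl

/-- vanishing along an invariant divisor is preserved by conjugation -/
theorem over_vanZ {χ G : Λ[X][X]} (hm : χ.Monic) (hχ : Ovv L χ) {Z : Λ × Λ →₀ ℤ}
    {σ : Λ ≃ₐ[K] Λ} (hσ : Fix L σ) (hZ : psh (pm σ) Z = Z) (h : VanZ χ Z G) {Q : Λ × Λ}
    (hQ : Z Q ≠ 0) : Van χ Q (Z Q).toNat (mp (σ : Λ →+* Λ) G) := by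
  have hinj : Function.Injective (pm (σ : Λ → Λ)) := σ.injective.prodMap σ.injective
  obtain ⟨Q', rfl⟩ : ∃ Q', pm (σ : Λ → Λ) Q' = Q := (σ.surjective.prodMap σ.surjective) Q
  have e : Z (pm (σ : Λ → Λ) Q') = Z Q' := by
    conv_lhs => rw [← hZ]
    exact psh_apply_inj hinj Z Q'
  rw [e] at hQ ⊢
  have h1 := Van.map hm (h Q' hQ).1 (σ : Λ →+* Λ) (h Q' hQ).2
  rw [hχ.map_eq hσ] at h1
  exact h1

/-- `Cv.exists_u` gives `u₀`; multiply the minimal polynomials over `L` of the roots of `u₀`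
(with multiplicity); conjugates over `L` of a non-root of `ρ` are non-roots -/
theorem exists_u_over {c : Cv Λ} (hρ : Over L c.ρ) {D : Λ × Λ →₀ ℤ} (hD : D ∈ c.Dv) :
    ∃ u : Λ[X], u.Monic ∧ IsCoprime u c.ρ ∧ Over L u ∧ D ≤ dv c.χ (C u) := by
  obtain ⟨u₀, hm, hc, hle⟩ := Cv.exists_u hD
  obtain ⟨L', hL, hf, hmem⟩ := exists_fld (L := L) u₀.finite_range_coeff.toFinset
  have hu : Over L' u₀ := fun i => hmem _ (by simp)
  obtain ⟨n, s, hs⟩ := exists_fam hL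
  obtain ⟨-, t, ht⟩ := over_fam_id hs
  have hm' : (∏ t, u₀.map (s t : Λ →+* Λ)).Monic := monic_prod_of_monic _ _ fun i _ => hm.map _
  refine ⟨_, hm', IsCoprime.prod_left fun i _ => ?_, over_prod hs hu, hle.trans ?_⟩
  · have h2 := hc.map (mapRingHom (s i : Λ →+* Λ))
    rwa [coe_mapRingHom, hρ.map_eq (hs.fix i)] at h2
  · have h2 := Finset.dvd_prod_of_mem (fun i => u₀.map (s i : Λ →+* Λ)) (Finset.mem_univ t)
    rw [hu.map_eq ht] at h2
    obtain ⟨v, hv⟩ := h2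
    rw [hv] at hm' ⊢
    rw [map_mul, Lead.dv_mul c.wt (lead_C hm) (lead_C (hm.of_mul_monic_left hm'))]
    exact le_add_of_nonneg_right (dv_nonneg _ _)

/-- `Cv.exists_G`, then the average of the conjugates of `a` over `exists_fam` -/
theorem exists_G_over {c : Cv Λ} (hi : Irreducible c.χ) (hχ : Ovv L c.χ) (hρ : Over L c.ρ)
    {Z : Λ × Λ →₀ ℤ} (hZ : Z ∈ c.Dv) (h0 : 0 ≤ Z) (hinv : ∀ σ, Fix L σ → psh (pm σ) Z = Z)
    {m : ℕ} (hd : Z.degree + c.c0 ≤ c.δ * m) {u : Λ[X]} (hu : Over L u) :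
    ∃ a ∈ Wsp c.b c.δ c.w m, Ovv L a ∧ VanZ c.χ Z (c.G u a) := by
  have : CharZero Λ := charZero_of_injective_algebraMap (algebraMap K Λ).injective
  obtain ⟨a, ha, hv⟩ := Cv.exists_G hi hZ h0 hd u
  obtain ⟨L', hL, hf, hmem⟩ := exists_fld (L := L)
    (a.support.biUnion fun i => (a.coeff i).finite_range_coeff.toFinset)
  have hov : Ovv L' a := fun i j => by
    by_cases h : i ∈ a.support
    · exact hmem _ (Finset.mem_biUnion.2 ⟨i, h, by simp⟩)
    · rw [notMem_support_iff.1 h, coeff_zero]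
      exact L'.zero_mem
  obtain ⟨n, s, hs⟩ := exists_fam hL
  have hn : (n : Λ) ≠ 0 := Nat.cast_ne_zero.2 (over_fam_id hs).1
  refine ⟨(n : Λ)⁻¹ • ∑ t, mp (s t : Λ →+* Λ) a, Submodule.smul_mem _ _
    (Submodule.sum_mem _ fun t _ => ⟨degree_map_le.trans_lt ha.1, ha.2.map _⟩), fun i j => ?_,
    fun Q hQ => ⟨(hZ Q hQ).et, ?_⟩⟩
  · rw [coeff_smul, coeff_smul, finsetSum_coeff, finsetSum_coeff, smul_eq_mul]
    refine L.mul_mem (L.inv_mem (natCast_mem L n)) ?_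
    have h1 := hs.sum_mem (hov i j)
    refine (Finset.sum_congr rfl fun t _ => ?_ : _ = ∑ t, s t ((a.coeff i).coeff j)) ▸ h1
    rw [coe_mapRingHom, coeff_map, coe_mapRingHom, coeff_map]
    rfl
  · have e1 : ∀ t, mp (s t : Λ →+* Λ) (c.G u a) = c.G u (mp (s t : Λ →+* Λ) a) := fun t => by
      rw [Cv.G, Cv.G, map_add, map_mul, mp_C, mp_C, hu.map_eq (hs.fix t), hρ.map_eq (hs.fix t)]
    have e2 : (C (C (n : Λ)⁻¹) : Λ[X][X]) * n = 1 := by
      rw [← map_natCast (C : Λ[X] →+* Λ[X][X]), ← map_natCast (C : Λ →+* Λ[X]), ← map_mul,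
        ← map_mul, inv_mul_cancel₀ hn, map_one, map_one]
    have e3 : ∀ b : Λ[X][X], (n : Λ)⁻¹ • b = C (C (n : Λ)⁻¹) * b := fun b => by
      rw [Algebra.smul_def]; rfl
    have e : c.G u ((n : Λ)⁻¹ • ∑ t, mp (s t : Λ →+* Λ) a) =
        C (C (n : Λ)⁻¹) * ∑ t, mp (s t : Λ →+* Λ) (c.G u a) := by
      rw [Finset.sum_congr rfl fun t _ => e1 t, e3]
      simp only [Cv.G]
      rw [Finset.sum_add_distrib, ← Finset.mul_sum, Finset.sum_const, Finset.card_univ,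
        Fintype.card_fin, nsmul_eq_mul]
      linear_combination (-C u) * e2
    rw [e]
    refine Van.mul_left ?_ _
    unfold Van
    rw [map_sum]
    exact Finset.dvd_sum fun t _ => over_vanZ c.wt.monic hχ (hs.fix t) (hinv _ (hs.fix t)) hv hQ

end Pool.Agent.ZCy.U
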