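import Pool.Agent.Lib.MP_751085_ag.ZC.UXc
import Pool.Agent.Lib.MP_751085_ag.ZC.UOver
import Pool.Agent.Lib.MP_751085_ag.ZC.UBddA

/-! The classes of degree zero on a geometrically irreducible curve are bounded. -/

namespace Pool.Agent.ZCy.U

open Polynomial Module Pool.Agent.ZeroCyc
open scoped Classical IntermediateField

set_option linter.unusedSectionVars false

theorem bddc_fib {A B M : Type} [AddCommMonoid M] (H : AddSubmonoid M) (g : A → M) (κ : A → B)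
    (s : Finset A)
    (h : ∀ a ∈ s, ∀ t : Finset A, (∀ b, b ∈ t ↔ b ∈ s ∧ κ b = κ a) → ∑ b ∈ t, g b ∈ H) :
    ∑ a ∈ s, g a ∈ H := by
  rw [← Finset.sum_fiberwise_of_maps_to (t := s.image κ)
    (fun a ha => Finset.mem_image_of_mem κ ha)]
  refine sum_mem fun c hc => ?_
  obtain ⟨a, ha, rfl⟩ := Finset.mem_image.1 hc
  exact h a ha _ fun b => Finset.mem_filter

variable {K Λ : Type} [Field K] [CharZero K] [Field Λ] [IsAlgClosed Λ] [Algebra K Λ] [IsGalois K Λ]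
  {N : ℕ} {J : Ideal (MvPolynomial (Fin (N + 1)) K)} {L : IntermediateField K Λ}
  [FiniteDimensional K L]

theorem bddc_orb {A ι : Type} [Fintype ι] (crd : A → ι → Λ) (hinj : Function.Injective crd)
    (act : (Λ ≃ₐ[K] Λ) → A → A) (hact : ∀ σ a, crd (act σ a) = σ ∘ crd a)
    (D : A →₀ ℤ) (h0 : 0 ≤ D)
    (hD : ∀ σ, Fix L σ → psh (act σ) D = D) (f : A → PY Λ N →₀ ℤ)
    (hf : ∀ σ a, Fix L σ → D a ≠ 0 → f (act σ a) = galC σ (f a)) (H : AddSubmonoid (VV Λ J))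
    (hH : ∀ a, D a ≠ 0 → ∀ L', L ≤ L' → FiniteDimensional K L' → (∀ i, crd a i ∈ L') →
      clL J L' (f a) ∈ H) : clL J L (D.sum fun a n => n • f a) ∈ H := by
  have hai : ∀ σ, Function.Injective (act σ) := fun σ a b e => hinj (by
    have := congrArg crd e
    rw [hact, hact] at this
    exact σ.injective.comp_left this)
  have hDa : ∀ σ a, Fix L σ → D (act σ a) = D a := fun σ a hσ => by
    conv_lhs => rw [← hD σ hσ]
    exact psh_apply_inj (hai σ) D a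
  rw [Finsupp.sum, map_sum]
  refine bddc_fib H _ (fun a => MulAction.orbit L.fixingSubgroup (crd a)) _ fun a ha t ht => ?_
  have ha0 := Finsupp.mem_support_iff.1 ha
  obtain ⟨L', h1, h2, h3, h4⟩ := orb_fld (crd a) L
  have key : ∀ b, MulAction.orbit L.fixingSubgroup (crd b) =
      MulAction.orbit L.fixingSubgroup (crd a) ↔ ∃ σ, Fix L σ ∧ act σ a = b := by
    intro b
    rw [MulAction.orbit_eq_iff]
    constructor
    · rintro ⟨σ, hσ⟩
      exact ⟨σ, orb_fix_iff.1 σ.2, hinj ((hact σ a).trans hσ)⟩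
    · rintro ⟨σ, hσ, rfl⟩
      exact ⟨⟨σ, orb_fix_iff.2 hσ⟩, (hact σ a).symm⟩
  have hc : t.card = (MulAction.orbit L.fixingSubgroup (crd a)).ncard := by
    rw [← Set.ncard_coe_finset, ← Set.ncard_image_of_injective _ hinj]
    congr 1
    ext z
    constructor
    · rintro ⟨b, hb, rfl⟩
      exact MulAction.orbit_eq_iff.1 ((ht b).1 hb).2
    · rintro ⟨σ, rfl⟩
      have hσ := orb_fix_iff.1 σ.2
      exact ⟨act σ a, (ht _).2 ⟨Finsupp.mem_support_iff.2 (by rwa [hDa _ _ hσ]),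
        (key _).2 ⟨σ, hσ, rfl⟩⟩, hact σ a⟩
  rw [Finset.sum_congr rfl (g := fun _ => D a • clL J L (f a)) fun b hb => ?_, Finset.sum_const,
    hc, smul_comm, ← clL_eq_nsmul h4]
  · obtain ⟨n, hn⟩ := Int.eq_ofNat_of_zero_le (show (0 : ℤ) ≤ D a from h0 a)
    rw [hn, natCast_zsmul]
    exact nsmul_mem (hH a ha0 L' h1 h2 h3) _
  · obtain ⟨σ, hσ, rfl⟩ := (key b).1 ((ht b).1 hb).2
    rw [map_zsmul, hDa _ _ hσ, hf σ a hσ ha0, clL_gal]

namespace XC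

variable {𝒳 : XC Λ J}

/-- the proof of `orb_mem` for a submonoid and an effective divisor -/
theorem Ov.cl_mem_eff (h : 𝒳.Ov L) {D : Λ × Λ →₀ ℤ} (hD : D ∈ 𝒳.c.Dv) (h0 : 0 ≤ D)
    (hinv : ∀ σ, Fix L σ → psh (pm σ) D = D) : 𝒳.cl L D ∈ EffM Λ J := by
  have key := bddc_orb (J := J) (fun Q : Λ × Λ => ![Q.1, Q.2])
    (fun a b e => Prod.ext (congrFun e 0) (congrFun e 1)) (fun σ => pm σ) (fun σ a => by
      funext i
      fin_cases i <;> rfl) D h0 hinv (fun Q => Finsupp.single (pj (𝒳.pv Q)) 1)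
    (fun σ Q hσ _ => by rw [galC_single, galY_pj, h.pv_gal hσ]) (EffM Λ J)
    fun Q hQ L' h1 h2 h3 => pc_mem_eff ((h.mono h1).ptL (hD Q hQ) (h3 0) (h3 1))
  simp only [Finsupp.smul_single, smul_eq_mul, mul_one] at key
  exact key

/-- a generator `[Q]_{L'}` is the class over `L` of `∑ t, s t Q` for a family `s` -/
theorem Ov.exists_inv (h : 𝒳.Ov L) {w : VV Λ J} (hw : w ∈ 𝒳.A L) :
    ∃ D ∈ 𝒳.c.Dv, (∀ σ, Fix L σ → psh (pm σ) D = D) ∧ w = 𝒳.cl L D := by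
  induction hw using AddSubgroup.closure_induction with
  | zero => exact ⟨0, zero_mem _, fun _ _ => map_zero _, (map_zero _).symm⟩
  | add a b _ _ ha hb =>
    obtain ⟨D, h1, h2, rfl⟩ := ha
    obtain ⟨D', h1', h2', rfl⟩ := hb
    exact ⟨D + D', add_mem h1 h1', fun σ hσ => by rw [map_add, h2 σ hσ, h2' σ hσ],
      (map_add _ _ _).symm⟩
  | neg a _ ha =>
    obtain ⟨D, h1, h2, rfl⟩ := ha
    exact ⟨-D, neg_mem h1, fun σ hσ => by rw [map_neg, h2 σ hσ], (map_neg _ _).symm⟩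
  | mem a ha =>
    obtain ⟨L', Q, hL, hfin, hQ, h₁, h₂, rfl⟩ := ha
    obtain ⟨n, s, hs⟩ := exists_fam hL
    refine ⟨∑ t, Finsupp.single (pm (s t) Q) 1, sum_mem fun t _ Q' hQ' => ?_, fun σ hσ => ?_, ?_⟩
    · rw [(Finsupp.single_apply_ne_zero.1 hQ').1]
      exact (h.inv (hs.fix t)).gp (s t).injective hQ
    · obtain ⟨ρ, hρ⟩ := hs.perm σ hσ
      rw [map_sum, ← Equiv.sum_comp ρ fun t => Finsupp.single (pm (s t) Q) (1 : ℤ)]
      refine Finset.sum_congr rfl fun t _ => ?_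
      rw [psh_single]
      congr 1
      exact Prod.ext (hρ t _ h₁) (hρ t _ h₂)
    · have e : ∀ t, 𝒳.cl L (Finsupp.single (pm (s t) Q) 1) = pc J L (𝒳.pv Q) := fun t => by
        rw [cl_single, h.pv_gal (hs.fix t), pc, pc, ← galY_pj, ← galC_single, clL_gal]
      rw [map_sum, Finset.sum_congr rfl fun t _ => e t, Finset.sum_const, Finset.card_univ]
      exact clL_eq_nsmul hs.card _

theorem Ov.bddc_inv (h : 𝒳.Ov L) {u : Λ[X]} {a : Λ[X][X]} (hw : 𝒳.c.Wit u a) (hu : Over L u)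
    (ha : Ovv L a) {σ : Λ ≃ₐ[K] Λ} (hσ : Fix L σ) :
    psh (pm σ) (dv 𝒳.c.χ (𝒳.c.G u a)) = dv 𝒳.c.χ (𝒳.c.G u a) := by
  have e := (h.inv hσ).dv_map hw.lead hw.adm
  rw [Cv.G, map_add, map_mul, mp_C, mp_C, hu.map_eq hσ, h.ρ.map_eq hσ, ha.map_eq hσ] at e
  exact e.symm

/-- the part of degree zero is bounded -/
theorem Ov.bddZ (h : 𝒳.Ov L) (hi : Irreducible 𝒳.c.χ) : BddZ (𝒳.A L) := by
  refine ⟨A_le h, ?_⟩
  by_cases hg : ∃ Q, 𝒳.c.Gp Q
  swap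
  · refine ⟨0, fun w hw => ?_⟩
    obtain ⟨D, hD, -, rfl⟩ := h.exists_inv hw.1
    have : D = 0 := Finsupp.ext fun Q => by_contra fun e => hg ⟨Q, hD Q e⟩
    rw [this, map_zero, add_zero]
    exact zero_mem _
  obtain ⟨Q, hQ⟩ := hg
  obtain ⟨u₀, m₀, c₀, o₀, l₀⟩ := exists_u_over (D := Finsupp.single Q (𝒳.c.c0 : ℤ)) h.ρ
    fun Q' e => (Finsupp.single_apply_ne_zero.1 e).1 ▸ hQ
  have d₀ := cvj_degree_nonneg (sub_nonneg.2 l₀)
  rw [map_sub, Cv.degree_dv_C m₀ c₀, Finsupp.degree_single] at d₀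
  refine ⟨𝒳.cl L (dv 𝒳.c.χ (C u₀)), fun w hw => ?_⟩
  obtain ⟨D, hD, hinv, rfl⟩ := h.exists_inv hw.1
  have hdeg : D.degree = 0 := by
    have e : (𝒳.cl L D).2 = 0 := hw.2
    rw [cl_snd, mul_eq_zero] at e
    rcases e with e | e
    · exact absurd (Nat.cast_eq_zero.1 e) finrank_pos.ne'
    · exact Int.cast_eq_zero.1 e
  obtain ⟨u, m, c, o, l⟩ := exists_u_over h.ρ hD
  have hz : Ovv L (0 : Λ[X][X]) := fun i n => by
    rw [coeff_zero, coeff_zero]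
    exact zero_mem _
  have hu : ∀ σ, Fix L σ → psh (pm σ) (dv 𝒳.c.χ (C u)) = dv 𝒳.c.χ (C u) := fun σ hσ => by
    have e := h.bddc_inv ⟨m, c, WL_zero⟩ o hz hσ
    rwa [Cv.cvp_G_zero] at e
  have hZ : dv 𝒳.c.χ (C u) - D ∈ 𝒳.c.Dv := sub_mem (Cv.dv_C_mem m c) hD
  have hZi : ∀ σ, Fix L σ → psh (pm σ) (dv 𝒳.c.χ (C u) - D) = dv 𝒳.c.χ (C u) - D :=
    fun σ hσ => by rw [map_sub, hu σ hσ, hinv σ hσ]
  obtain ⟨a, ha, oa, va⟩ := exists_G_over hi h.χ h.ρ hZ (sub_nonneg.2 l) hZi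
    (m := (u * u₀).natDegree) (by
      rw [map_sub, Cv.degree_dv_C m c, hdeg, m.natDegree_mul m₀]
      push_cast
      linarith) (o.mul o₀)
  have hw' : 𝒳.c.Wit (u * u₀) a := ⟨m.mul m₀, c.mul_left c₀, ha.2⟩
  have key := h.cl_mem_eff (sub_mem hw'.dv_mem hZ) (sub_nonneg.2 (hw'.lead.le_dv 𝒳.c.wt va))
    fun σ hσ => by rw [map_sub, h.bddc_inv hw' (o.mul o₀) oa hσ, hZi σ hσ]
  rw [map_sub, map_sub, h.rel hw' (o.mul o₀) oa, C_mul,
    (lead_C m).dv_mul 𝒳.c.wt (lead_C m₀), map_add] at key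
  rwa [← sub_add, add_sub_cancel_left, add_comm] at key

end XC

end Pool.Agent.ZCy.U
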