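import Pool.Agent.Lib.MP_751085_ag.ZC.UBddB
import Pool.Agent.Lib.MP_751085_ag.ZC.UBddC
import Pool.Agent.Lib.MP_751085_ag.ZC.UCh

/-! Every class of degree zero generates a bounded group. -/

namespace Pool.Agent.ZCy.U

open Polynomial Module Pool.Agent.ZeroCyc
open scoped Classical IntermediateField

variable {k K Λ : Type} [Field k] [Field K] [CharZero K] [Field Λ] [IsAlgClosed Λ] [Algebra k K]
  [Algebra k Λ] [Algebra K Λ] [IsScalarTower k K Λ] [IsGalois K Λ] {N n : ℕ}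
  {J : Ideal (MvPolynomial (Fin (N + 1)) K)}

theorem pair_tr {Θ : MvPolynomial (Fin n) Λ} (h : Θ ≠ 0) (y : Fin n → Λ) :
    ∃ Θ₁ : MvPolynomial (Fin n) Λ, Θ₁ ≠ 0 ∧
      ∀ z, MvPolynomial.eval z Θ₁ = MvPolynomial.eval (fun i => z i - y i) Θ := by
  have e : ∀ z, MvPolynomial.eval z (MvPolynomial.eval₂ MvPolynomial.C
      (fun i => MvPolynomial.X i - MvPolynomial.C (y i)) Θ) =
        MvPolynomial.eval (fun i => z i - y i) Θ := fun z => by
    rw [MvPolynomial.eval_eval₂]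
    simp only [map_sub, MvPolynomial.eval_X, MvPolynomial.eval_C]
    exact MvPolynomial.eval₂Hom_congr (RingHom.ext fun x => by simp) rfl rfl
  refine ⟨_, fun h0 => h (MvPolynomial.funext fun x => ?_), e⟩
  have h1 := e (x + y)
  rw [h0] at h1
  simpa using h1.symm

theorem pair_half (𝒞 : LCh k Λ J n) {L L' : IntermediateField K Λ} [FiniteDimensional K L]
    [FiniteDimensional K L'] (hL : L ≤ L') {v : Fin (N + 1) → Λ} (h : PtL J L v) (hv : 𝒞.In v)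
    {z : Fin n → Λ} (hz : ∀ i, z i ∈ L) {t : Λ} (ht : t ∈ L')
    (h0 : ev2 (algebraMap k Λ) z t 𝒞.χ = 0) (hD : MvPolynomial.eval₂ (algebraMap k Λ) z 𝒞.D ≠ 0)
    (hi : Irreducible (𝒞.crv (algebraMap k Λ) (𝒞.xi v) fun i => z i - 𝒞.xi v i).χ) :
    ∃ H, Bdd H ∧ pc J L' v - pc J L' (𝒞.pv (algebraMap k Λ) z t) ∈ H := by
  obtain ⟨h1, h2⟩ := 𝒞.xi_mem h.mem
  obtain ⟨c, hc, e⟩ := hv.pv h.on
  refine ⟨_, ((𝒞.line_ov h1 fun i => sub_mem (hz i) (h1 i)).bddZ hi).2, AddSubgroup.mem_inf.2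
    ⟨sub_mem (AddSubgroup.subset_closure
      ⟨L', (0, 𝒞.th v), hL, inferInstance, ?_, zero_mem _, hL h2, ?_⟩)
      (AddSubgroup.subset_closure ⟨L', (1, t), hL, inferInstance, ?_, one_mem _, ht, ?_⟩), ?_⟩⟩
  · refine (𝒞.gp_crv _ _ _ _).2 ?_
    simp only [zero_mul, add_zero]
    exact ⟨hv.on h.on, hv.2⟩
  · rw [𝒞.line_pv]
    simp only [zero_mul, add_zero]
    rw [e, pc_smul hc]
  · refine (𝒞.gp_crv _ _ _ _).2 ?_
    simp only [one_mul, add_sub_cancel]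
    exact ⟨h0, hD⟩
  · rw [𝒞.line_pv]
    simp only [one_mul, add_sub_cancel]
  · show (pc J L' v).2 - (pc J L' _).2 = 0
    rw [pc_snd, pc_snd, sub_self]

/-- Sketch: one chart for `v`, `v'`; `y = xi v`, `y' = xi v'`, `Θ`, `Θ'` from `exists_dir`.
`exists_eval_ne` gives `z` over `K` with `Θ(z - y) Θ'(z - y') D(z) ≠ 0` (translation is an
automorphism of the polynomial ring; `D ≠ 0` since `D(y) ≠ 0`). `h` a root of `χ(z, T)`
(`δ > 0`), `L'` generated by `L` and `h`. On `line y (z - y)` the points `(0, th v)` and `(1, h)`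
are good, so `[v]_{L'} - [pv z h]_{L'}` lies in `A L ⊓ deg0`; the same for `v'`.
`pc_nsmul`, `Bdd.sup`, `Bdd.of_nsmul`. -/
theorem Charts.bdd_pair (hJ : Charts k Λ J n) (L : IntermediateField K Λ)
    (v v' : Fin (N + 1) → Λ) (hL : FiniteDimensional K L) (h : PtL J L v) (h' : PtL J L v') :
    Bdd (AddSubgroup.zmultiples (pc J L v - pc J L v')) := by
  obtain ⟨𝒞, h𝒞⟩ := hJ.ex {v, v'} fun w hw => by
    rcases Finset.mem_insert.1 hw with rfl | hw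
    · exact ⟨h.ne, h.on⟩
    · rw [Finset.mem_singleton.1 hw]
      exact ⟨h'.ne, h'.on⟩
  have hv := h𝒞 v (by simp)
  have hv' := h𝒞 v' (by simp)
  obtain ⟨Θ, h1, h2⟩ := LCh.exists_dir (𝒞 := 𝒞) hv.2
  obtain ⟨Θ', h1', h2'⟩ := LCh.exists_dir (𝒞 := 𝒞) hv'.2
  obtain ⟨Θ₁, h3, h4⟩ := pair_tr h1 (𝒞.xi v)
  obtain ⟨Θ₁', h3', h4'⟩ := pair_tr h1' (𝒞.xi v')
  have hD : MvPolynomial.map (algebraMap k Λ) 𝒞.D ≠ 0 := fun h0 => hv.2 (by
    rw [MvPolynomial.aeval_def, ← MvPolynomial.eval_map, h0, map_zero])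
  obtain ⟨z, hz⟩ := exists_eval_ne (K := K) (mul_ne_zero (mul_ne_zero h3 h3') hD)
  rw [map_mul, map_mul, h4, h4', MvPolynomial.eval_map, mul_ne_zero_iff, mul_ne_zero_iff] at hz
  obtain ⟨t, ht⟩ := IsAlgClosed.exists_root (𝒞.χ.map (MvPolynomial.eval₂Hom (algebraMap k Λ)
      fun i => algebraMap K Λ (z i))) fun h0 => by
    have h5 := hv.on h.on
    rw [𝒞.monic.degree_map] at h0
    rw [𝒞.monic.degree_le_zero_iff_eq_one.1 h0.le, map_one] at h5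
    exact one_ne_zero h5
  obtain ⟨L', hLL, _, hL'⟩ := exists_fld (L := L) {t}
  have ht' := hL' t (Finset.mem_singleton_self t)
  rw [IsRoot, ← ev2_eq_eval] at ht
  obtain ⟨H, hH, k1⟩ := pair_half 𝒞 hLL h hv (fun i => L.algebraMap_mem (z i)) ht' ht hz.2
    (h2 _ hz.1.1)
  obtain ⟨H', hH', k2⟩ := pair_half 𝒞 hLL h' hv' (fun i => L.algebraMap_mem (z i)) ht' ht hz.2
    (h2' _ hz.1.2)
  obtain ⟨r, hr, -, e⟩ := pc_nsmul (J := J) hLL
  refine (hH.sup hH').of_nsmul (sub_mem (pc_mem_atot h) (pc_mem_atot h')) hr ?_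
  rw [nsmul_sub, ← e, ← e]
  simpa using sub_mem (AddSubgroup.mem_sup_left k1) (AddSubgroup.mem_sup_right k2)

theorem Charts.bdd_one (hJ : Charts k Λ J n) {g : VV Λ J} (hg : g ∈ Azero Λ J) :
    Bdd (AddSubgroup.zmultiples g) := bdd_one_of_pair hJ.bdd_pair hg

theorem Charts.bdd_fg (hJ : Charts k Λ J n) (s : Finset (VV Λ J)) (h : ∀ g ∈ s, g ∈ Azero Λ J) :
    Bdd (AddSubgroup.closure (s : Set (VV Λ J))) :=
  bdd_closure s fun g hg => hJ.bdd_one (h g hg)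

end Pool.Agent.ZCy.U
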