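import Pool.Agent.Lib.MP_751085_ag.ZC.UArc1
import Pool.Agent.Lib.MP_751085_ag.ZC.UPair

/-! Classes of centres of arcs on a curve are bounded. -/

namespace Pool.Agent.ZCy.U

open Polynomial Module Pool.Agent.ZeroCyc
open scoped Classical IntermediateField

set_option linter.unusedSectionVars false

variable {k K Λ : Type} [Field k] [Field K] [CharZero K] [Field Λ] [IsAlgClosed Λ] [Algebra k K]
  [Algebra k Λ] [Algebra K Λ] [IsScalarTower k K Λ] [IsGalois K Λ] {N n : ℕ}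
  {J : Ideal (MvPolynomial (Fin (N + 1)) K)}

/-- a component -/
noncomputable def XC.factor (𝒳 : XC Λ J) (χ₁ χ₂ : Λ[X][X]) (h : 𝒳.c.χ = χ₁ * χ₂) (h₁ : χ₁.Monic)
    (h₂ : χ₂.Monic) : XC Λ J where
  c := 𝒳.c.factor χ₁ χ₂ h h₁ h₂
  q := 𝒳.q
  on := fun F hF => (Dvd.intro _ h.symm).trans (𝒳.on F hF)
  ne := fun Q hQ => 𝒳.ne Q ⟨by
    have h0 : ee Q χ₁ = 0 := hQ.1
    unfold On
    rw [h, map_mul, h0, zero_mul], hQ.2⟩

/-- `σ χ₁` is a monic irreducible factor through `Q`; if it differs from `χ₁` it divides `χ₂`,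
against `et_mul`; `mem_of_fixed`, `cvb_eq_of_dvd`, `cvb_irr_mp` -/
theorem ovv_comp {L : IntermediateField K Λ} {χ₁ χ₂ : Λ[X][X]} (h : Ovv L (χ₁ * χ₂))
    (h₁ : χ₁.Monic) (hi : Irreducible χ₁) {Q : Λ × Λ} (hQ : Et (χ₁ * χ₂) Q) (hQ₁ : On χ₁ Q)
    (m₁ : Q.1 ∈ L) (m₂ : Q.2 ∈ L) : Ovv L χ₁ := by
  have hn2 : ¬On χ₂ Q := fun h => by
    rcases et_mul.1 hQ with h3 | h3
    exacts [h3.2 h, h3.2 hQ₁]
  have key : ∀ σ : Λ ≃ₐ[K] Λ, Fix L σ → mp (σ : Λ →+* Λ) χ₁ = χ₁ := fun σ hσ => by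
    have h4 : Irreducible (mp (σ : Λ →+* Λ) χ₁) := cvb_irr_mp σ.bijective hi
    have h5 : mp (σ : Λ →+* Λ) χ₁ ∣ χ₁ * χ₂ :=
      ⟨mp (σ : Λ →+* Λ) χ₂, by rw [← map_mul, h.map_eq hσ]⟩
    have hq : pm (σ : Λ →+* Λ) Q = Q := Prod.ext (hσ _ m₁) (hσ _ m₂)
    have h6 : On (mp (σ : Λ →+* Λ) χ₁) Q := by
      rw [On, ← hq, ← map_ee, hQ₁, map_zero]
    rcases h4.prime.dvd_or_dvd h5 with h7 | ⟨g, h7⟩
    · exact cvb_eq_of_dvd (h₁.map _) h₁ h4 hi h7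
    · exact absurd (by rw [On, h7, map_mul, h6, zero_mul]) hn2
  intro i j
  refine mem_of_fixed fun σ hσ => ?_
  have h8 := congrArg (fun p => (p.coeff i).coeff j) (key σ hσ)
  simpa only [coe_mapRingHom, coeff_map, RingHom.coe_coe] using h8

/-- the field generated by the coefficients -/
theorem arc_fld (L₀ : IntermediateField K Λ) [FiniteDimensional K L₀] (G : Λ[X][X]) :
    ∃ L₁ : IntermediateField K Λ, L₀ ≤ L₁ ∧ FiniteDimensional K L₁ ∧ Ovv L₁ G ∧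
      ∀ L, L₀ ≤ L → Ovv L G → L₁ ≤ L := by
  obtain ⟨L', h1, h2, h3⟩ := exists_fld (L := L₀) (G.support.biUnion fun i => (G.coeff i).coeffs)
  have h4 : Ovv L' G := fun i j => by
    by_cases h0 : (G.coeff i).coeff j = 0
    · rw [h0]
      exact zero_mem _
    · refine h3 _ (Finset.mem_biUnion.2 ⟨i, mem_support_iff.2 fun e => h0 ?_, coeff_mem_coeffs h0⟩)
      rw [e, coeff_zero]
  have h5 : sInf {L | L₀ ≤ L ∧ Ovv L G} ≤ L' := sInf_le ⟨h1, h4⟩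
  exact ⟨sInf {L | L₀ ≤ L ∧ Ovv L G}, le_sInf fun L hL => hL.1,
    FiniteDimensional.of_injective (IntermediateField.inclusion h5).toLinearMap
      (IntermediateField.inclusion_injective h5),
    fun i j => IntermediateField.mem_sInf.2 fun L hL => hL.2 i j, fun L h h' => sInf_le ⟨h, h'⟩⟩

/-- the classes of the points on one component -/
theorem arc_comp {𝒳 : XC Λ J} {L₀ : IntermediateField K Λ} [FiniteDimensional K L₀]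
    (h : 𝒳.Ov L₀) (χ₁ : Λ[X][X]) : ∃ B : AddSubgroup (VV Λ J), BddZ B ∧
      (χ₁.Monic → Irreducible χ₁ → χ₁ ∣ 𝒳.c.χ → ∀ (L : IntermediateField K Λ) (Q : Λ × Λ),
        L₀ ≤ L → FiniteDimensional K L → 𝒳.c.Gp Q → On χ₁ Q → Q.1 ∈ L → Q.2 ∈ L →
          pc J L (𝒳.pv Q) ∈ B) := by
  by_cases h0 : χ₁.Monic ∧ Irreducible χ₁ ∧ χ₁ ∣ 𝒳.c.χ
  · obtain ⟨h₁, hi, χ₂, e⟩ := h0
    have h₂ : χ₂.Monic := h₁.of_mul_monic_left (e ▸ 𝒳.c.wt.monic)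
    obtain ⟨L₁, h1, h2, h3, h4⟩ := arc_fld L₀ χ₁
    have h5 : (𝒳.factor χ₁ χ₂ e h₁ h₂).Ov L₁ := ⟨h3, h.ρ.mono h1, fun i => (h.q i).mono h1⟩
    refine ⟨_, h5.bddZ hi, fun _ _ _ L Q hL hf hQ hQ₁ m₁ m₂ => AddSubgroup.subset_closure
      ⟨L, Q, h4 L hL ?_, hf, ⟨hQ₁, hQ.2⟩, m₁, m₂, rfl⟩⟩
    exact ovv_comp (e ▸ h.χ.mono hL) h₁ hi (e ▸ hQ.et) hQ₁ m₁ m₂
  · exact ⟨⊥, bddZ_bot, fun a b c => absurd ⟨a, b, c⟩ h0⟩

/-- Sketch: the monic irreducible factors `χ₁` of `χ` form a finite set (`cvb_card_le`); let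
`L(χ₁) = L₀ ⊔ adjoin K (coefficients of χ₁)`. A generator of `A L₀` lies in `A L(χ₁)` of the
component through the point (`cvb_exists_irr`, `ovv_comp`). `Ov.bddZ`, `BddZ.biSup`. -/
theorem Charts.bddZ (hJ : Charts k Λ J n) {𝒳 : XC Λ J} {L₀ : IntermediateField K Λ}
    [FiniteDimensional K L₀] (h : 𝒳.Ov L₀) : BddZ (𝒳.A L₀) := by
  choose B hB hB' using arc_comp h
  have hfin : {a : Λ[X][X] | a.Monic ∧ Irreducible a ∧ a ∣ 𝒳.c.χ}.Finite := by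
    by_contra hinf
    obtain ⟨s, hs, hc⟩ := Set.Infinite.exists_subset_card_eq hinf (𝒳.c.χ.natDegree + 1)
    have := cvb_card_le s _ 𝒳.c.wt.monic fun a ha => hs ha
    omega
  refine (BddZ.biSup (fun g hg => hJ.bdd_one hg) hfin.toFinset fun t _ => hB t).mono ?_
  refine (AddSubgroup.closure_le _).2 ?_
  rintro w ⟨L, Q, hL, hf, hQ, m₁, m₂, rfl⟩
  obtain ⟨χ₁, χ₂, e, h₁, -, hi, hon⟩ := cvb_exists_irr _ _ 𝒳.c.wt.monic rfl hQ.1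
  have hd : χ₁ ∣ 𝒳.c.χ := ⟨χ₂, e⟩
  exact (le_iSup₂_of_le (f := fun t (_ : t ∈ hfin.toFinset) => B t) χ₁
    (hfin.mem_toFinset.2 ⟨h₁, hi, hd⟩) le_rfl) (hB' χ₁ h₁ hi hd L Q hL hf hQ hon m₁ m₂)

/-- classes of degree zero of centres of arcs off finitely many values of `τ` are bounded -/
theorem Charts.bdd_arc (hJ : Charts k Λ J n) {F : Type} [Field F] [Algebra K F] {τ : F}
    (hτ : Transcendental K τ) [FiniteDimensional K⟮τ⟯ F] {g : Fin (N + 1) → F} (hg : g ≠ 0)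
    (hc : ∀ r : F, OnX J (r • g)) : ∃ ρ : K[X], ρ ≠ 0 ∧ BddZ (arcA (Λ := Λ) J τ g ρ) := by
  obtain ⟨𝒳, ρ, h0, h1, h2⟩ := exists_xc (Λ := Λ) hτ hg hc
  refine ⟨ρ, h0, (hJ.bddZ h1).mono (AddSubgroup.closure_mono ?_)⟩
  rintro w ⟨L, t, x, hf, ha, ht, rfl⟩
  obtain ⟨Q, hQ, m₁, m₂, e⟩ := h2 L t x ha ht
  exact ⟨L, Q, bot_le, hf, hQ, m₁, m₂, by rw [pc, pc, e]⟩

end Pool.Agent.ZCy.U
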