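import Pool.Agent.Lib.MP_751085_ag.ZC.UMain
import Pool.Agent.Lib.MP_751085_ag.ZC.UArc

/-! The local conclusion from a bounded group of classes that detects the non-constant classes. -/

namespace Pool.Agent.ZCy.U

open Module Pool.Agent.ZeroCyc
open scoped Classical

theorem det_char (c : AddCircle (1 : ℚ) →+ AddCircle (1 : ℚ)) {M : ℕ} (hM : 0 < M) :
    ∃ n : ℕ, ∀ x, M • x = 0 → c x = n • x := by
  have h1 : M • (((1 : ℚ) / M : ℚ) : AddCircle (1 : ℚ)) = 0 := by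
    rw [← AddCircle.coe_nsmul, nsmul_eq_mul, mul_one_div_cancel (Nat.cast_ne_zero.2 hM.ne')]
    exact AddCircle.coe_period 1
  have h2 : ∀ m : ℕ, (((m : ℚ) / M * 1 : ℚ) : AddCircle (1 : ℚ)) =
      m • (((1 : ℚ) / M : ℚ) : AddCircle (1 : ℚ)) := fun m => by
    rw [← AddCircle.coe_nsmul, nsmul_eq_mul, mul_one, mul_one_div]
  obtain ⟨n, -, hn⟩ := (AddCircle.nsmul_eq_zero_iff hM).1
    (show M • c (((1 : ℚ) / M : ℚ) : AddCircle (1 : ℚ)) = 0 by rw [← map_nsmul, h1, map_zero])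
  refine ⟨n, fun x hx => ?_⟩
  obtain ⟨m, -, rfl⟩ := (AddCircle.nsmul_eq_zero_iff hM).1 hx
  rw [h2, map_nsmul, ← hn, h2, smul_comm]

/-- duality for finite families of maps of bounded exponent -/
theorem det_dual {W B I : Type} [AddCommGroup W] [AddCommGroup B] [Fintype I]
    {j : B →+ AddCircle (1 : ℚ)} (hj : Function.Injective j) (φ : I → W →+ B) (τ : I → B) {M : ℕ}
    (hM : 0 < M) (hφ : ∀ i w, M • φ i w = 0) (hτ : ∀ i, M • τ i = 0)
    (h : ∀ n : I → ℕ, (∀ w, ∑ i, n i • φ i w = 0) → ∑ i, n i • τ i = 0) :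
    ∃ w, ∀ i, φ i w = τ i := by
  let Φ : W →+ I → AddCircle (1 : ℚ) := AddMonoidHom.pi fun i => j.comp (φ i)
  by_contra hne
  have h0 : (QuotientAddGroup.mk' Φ.range) (fun i => j (τ i)) ≠ 0 := fun e => by
    obtain ⟨w, hw⟩ := (QuotientAddGroup.eq_zero_iff _).1 e
    exact hne ⟨w, fun i => hj (congrFun hw i)⟩
  obtain ⟨c₀, hc⟩ := CharacterModule.exists_character_apply_ne_zero_of_ne_zero h0
  let c : (I → AddCircle (1 : ℚ)) →+ AddCircle (1 : ℚ) :=
    AddMonoidHom.comp c₀ (QuotientAddGroup.mk' Φ.range)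
  choose n hn using fun i => det_char (c.comp (AddMonoidHom.single (fun _ => _) i)) hM
  have key : ∀ t : I → B, (∀ i, M • t i = 0) → c (fun i => j (t i)) = j (∑ i, n i • t i) := by
    intro t ht
    rw [← Finset.univ_sum_single fun i => j (t i), map_sum, map_sum]
    refine Finset.sum_congr rfl fun i _ => ?_
    rw [map_nsmul]
    exact hn i _ (by rw [← map_nsmul, ht, map_zero])
  refine hc ((key τ hτ).trans ?_)
  rw [h n fun w => hj ?_, map_zero]
  rw [← key _ fun i => hφ i w, map_zero]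
  change c₀ (QuotientAddGroup.mk' Φ.range (Φ w)) = 0
  rw [QuotientAddGroup.mk'_apply, (QuotientAddGroup.eq_zero_iff _).2
    (AddMonoidHom.mem_range.2 ⟨w, rfl⟩), map_zero]

/-- an element of degree one -/
theorem det_one {W : Type} [AddCommGroup W] (d : W →+ ℤ) {Λ r : ℕ} {p : W}
    (hp : d p ∣ (Λ : ℤ) ^ r) (h : ∀ l : ℕ, l.Prime → l ∣ Λ → ∃ y, ¬(l : ℤ) ∣ d y) :
    ∃ y, d y = 1 := by
  obtain ⟨g, hg⟩ := Int.subgroup_cyclic d.range
  have hd : ∀ y, g ∣ d y := fun y => by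
    obtain ⟨m, hm⟩ := AddSubgroup.mem_closure_singleton.1 (hg.le ⟨y, rfl⟩)
    exact ⟨m, by rw [← hm, zsmul_eq_mul, mul_comm]; rfl⟩
  obtain ⟨y, hy⟩ := hg.ge (AddSubgroup.mem_closure_singleton_self g)
  have h1 : g.natAbs = 1 := by
    by_contra hne
    obtain ⟨l, hl, hlg⟩ := Nat.exists_prime_and_dvd hne
    have hlg' : (l : ℤ) ∣ g := Int.natCast_dvd.2 hlg
    obtain ⟨y', hy'⟩ := h l hl (hl.dvd_of_dvd_pow (n := r) (by
      exact_mod_cast hlg'.trans ((hd p).trans hp)))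
    exact hy' (hlg'.trans (hd y'))
  rcases Int.natAbs_eq_iff.1 h1 with e | e
  · exact ⟨y, hy.trans e⟩
  · exact ⟨-y, by rw [map_neg, hy, e, neg_neg, Nat.cast_one]⟩

variable {k K : Type} [Field k] [CharZero k] [Field K] [CharZero K] [Algebra k K]

/-- the degree as an additive map -/
noncomputable def degH (X : Var k) (K : Type) [Field K] [CharZero K] [Algebra k K] :
    X.Cyc K →+ ℤ := AddMonoidHom.mk' Var.deg lk2_deg_add

/-- the pairing as an additive map -/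
noncomputable def pairH {X : Var k} (K : Type) [Field K] [CharZero K] [Algebra k K]
    (a : BR X.F) : X.Cyc K →+ BR K :=
  AddMonoidHom.mk' (fun z : X.Cyc K => Var.pair z a) fun z z' => pair_add z z' a

/-- cycles on the section are cycles on the variety -/
theorem exists_push (h1 : EV) {X : Var k} {n n' : ℕ} (hX : X.Nice n) (hn : 3 ≤ n)
    {Y : Gen k X.N} (hY : Y.var.Nice n') (hn' : 3 ≤ n') {f : Fm X.N k} (hf : X.Sec Y f)
    (y : Y.var.Cyc K) : ∃ y' : X.Cyc K, Var.deg y' = Var.deg y ∧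
      ∀ a b, X.Match Y a b → Var.pair y' b = Var.pair y a := by
  induction y using Finsupp.induction_linear with
  | zero => exact ⟨0, rfl, fun _ _ _ => rfl⟩
  | add a b ha hb =>
    obtain ⟨a', h1, h2⟩ := ha
    obtain ⟨b', h3, h4⟩ := hb
    exact ⟨a' + b', by rw [lk2_deg_add, lk2_deg_add, h1, h3], fun c d hm => by
      rw [pair_add, pair_add, h2 c d hm, h4 c d hm]⟩
  | single x m =>
    obtain ⟨x, hx⟩ := x
    have hx' := ((hf _ x).1 ⟨lk2_ne (X := Y.var) ⟨x, hx⟩, hx.2⟩).1.2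
    refine ⟨Finsupp.single ⟨x, hx.1, hx'⟩ m, ?_, fun a b hm => ?_⟩
    · rw [lk2_deg_single, lk2_deg_single]
      rfl
    · rw [pair_single, pair_single, (h1 k X n hX hn).eval b hm.2.1,
        (h1 k Y.var n' hY hn').eval a hm.1, hm.2.2 _ _ (lk2_on (X := Y.var) ⟨x, hx⟩)]
      rfl

theorem match_sum (h1 : EV) (h2 : WBC) {X : Var k} {n n' : ℕ} (hX : X.Nice n) (hn : 3 ≤ n)
    {Y : Gen k X.N} (hY : Y.var.Nice n') (hn' : 3 ≤ n') {f : Fm X.N k} (hf : X.Sec Y f) {I : Type}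
    (s : Finset I) {a : I → BR Y.F} {b : I → BR X.F} (h : ∀ i, X.Match Y (a i) (b i)) :
    X.Match Y (∑ i ∈ s, a i) (∑ i ∈ s, b i) ∧
      (∀ w : Y.var.Cyc K, Var.pair w (∑ i ∈ s, a i) = ∑ i ∈ s, Var.pair w (a i)) ∧
      ∀ w : X.Cyc K, Var.pair w (∑ i ∈ s, b i) = ∑ i ∈ s, Var.pair w (b i) := by
  have EX := h1 k X n hX hn
  have EY := h1 k Y.var n' hY hn'
  induction s using Finset.induction_on with
  | empty =>
    simp only [Finset.sum_empty]
    refine ⟨⟨EY.zero, EX.zero, fun M _ _ x hx => ?_⟩, fun w => ?_, fun w => ?_⟩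
    · have e1 := EY.val_nsmul 0 EY.zero 0 M x hx
      have e2 := EX.val_nsmul 0 EX.zero 0 M x ((hf M x).1 hx).1
      rw [zero_nsmul, zero_nsmul] at e1 e2
      exact e1.trans e2.symm
    · have e := pair_nsmul h1 h2 hY hn' w EY.zero 0
      rwa [zero_nsmul, zero_nsmul] at e
    · have e := pair_nsmul h1 h2 hX hn w EX.zero 0
      rwa [zero_nsmul, zero_nsmul] at e
  | insert i s hi ih =>
    obtain ⟨m, e1, e2⟩ := ih
    simp only [Finset.sum_insert hi]
    refine ⟨⟨EY.add _ (h i).1 _ m.1, EX.add _ (h i).2.1 _ m.2.1, fun M _ _ x hx => ?_⟩,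
      fun w => ?_, fun w => ?_⟩
    · rw [EY.val_add _ (h i).1 _ m.1 M x hx, EX.val_add _ (h i).2.1 _ m.2.1 M x ((hf M x).1 hx).1,
        (h i).2.2 M x hx, m.2.2 M x hx]
    · rw [(h2 k Y.var n' hY hn' K).2.2 w _ (h i).1 _ m.1, e1]
    · rw [(h2 k X n hX hn K).2.2 w _ (h i).2.1 _ m.2.1, e2]

theorem prim_bound {A I : Type} [AddCommGroup A] [Fintype I] {l : ℕ} {a : I → A}
    (h : ∀ i, Prim l (a i)) : ∃ r : ℕ, ∀ e, r ≤ e → ∀ i, l ^ e • a i = 0 := by
  choose r hr using h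
  refine ⟨∑ i, r i, fun e he i => ?_⟩
  obtain ⟨c, rfl⟩ := Nat.exists_eq_add_of_le
    ((Finset.single_le_sum (fun _ _ => Nat.zero_le _) (Finset.mem_univ i)).trans he)
  rw [pow_add, mul_comm, mul_nsmul', hr, nsmul_zero]

theorem prim_sum {A I : Type} [AddCommGroup A] [Fintype I] {l e : ℕ} {a : I → A}
    (h : ∀ i, l ^ e • a i = 0) (m : I → ℕ) : Prim l (∑ i, m i • a i) :=
  ⟨e, by
    rw [Finset.smul_sum]
    exact Finset.sum_eq_zero fun q _ => by rw [smul_comm, h, smul_zero]⟩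

/-- For each prime `l ∣ Λ`: a cycle of degree prime to `l` on the section, and a bounded group
such that a matching `l`-primary pair that kills its part of degree zero kills all cycles of degree
zero on `X`. -/
theorem loc_of_det [TopologicalSpace K] (h1 : N1) (h2 : CHF) (h3 : EV) (h4 : WBC) (h5 : N2)
    (h6 : TOR) (hK : IsLoc K (AlgebraicClosure K)) {X : Var k} {n : ℕ} (hX : X.Nice n)
    (hn : 4 ≤ n) {Y : Gen k X.N} (hY : Y.var.Nice (n - 1)) {f : Fm X.N k} (hf : X.Sec Y f) {Λ : ℕ}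
    (hΛ : Λ ≠ 0) {j : BR K →+ AddCircle (1 : ℚ)} (hj : Function.Injective j) {z : X.Cyc K}
    (hz : Var.deg z = 1) {p : Y.var.Cyc K} (hp : ∃ r : ℕ, Var.deg p ∣ (Λ : ℤ) ^ r)
    (h : ∀ l : ℕ, l.Prime → l ∣ Λ → (∃ y : Y.var.Cyc K, ¬(l : ℤ) ∣ Var.deg y) ∧
      ∃ H : AddSubgroup (VV (AlgebraicClosure K) (Y.var.JK K)), BddZ H ∧
        ∀ a b, X.Match Y a b → Prim l a → Prim l b →
          (∀ w : Y.var.Cyc K, Y.var.cyc K w ∈ H → Var.deg w = 0 → Var.pair w a = 0) →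
          ∀ w : X.Cyc K, Var.deg w = 0 → Var.pair w b = 0) :
    X.Loc Y Λ K z p := by
  have hn3 : 3 ≤ n := by omega
  have hn' : 3 ≤ n - 1 := by omega
  obtain ⟨y, hy⟩ := hp.elim fun r hr => det_one (degH Y.var K) hr fun l a b => (h l a b).1
  replace hy : Var.deg y = 1 := hy
  obtain ⟨y', hy1, hy2⟩ := exists_push h3 hX hn3 hY hn' hf y
  choose! H hH hdet using fun l a b => (h l a b).2
  have hB := BddZ.biSup (fun g hg => (charts_of Y.var K h1 h2 hY hn').bdd_one hg) Λ.primeFactors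
    fun l hl => hH l (Nat.prime_of_mem_primeFactors hl) (Nat.dvd_of_mem_primeFactors hl)
  refine loc_of_bdd h1 h2 h3 h4 h5 h6 hK hX hn hY hf hΛ hj z hp hB hy fun l hl hd s hs => ?_
  let W : AddSubgroup (Y.var.Cyc K) := (H l).comap (Y.var.cyc K) ⊓ (degH Y.var K).ker
  obtain ⟨r₁, hr₁⟩ := prim_bound fun q : s => (hs q q.2).2.1
  obtain ⟨r₂, hr₂⟩ := prim_bound fun q : s => (hs q q.2).2.2
  have k1 := hr₁ (r₁ + r₂) (Nat.le_add_right _ _)
  have k2 := hr₂ (r₁ + r₂) (Nat.le_add_left _ _)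
  have z1 : ∀ w : Y.var.Cyc K, Var.pair w 0 = 0 := fun w => by
    have e := pair_nsmul h3 h4 hY hn' w (h3 k Y.var _ hY hn').zero 0
    rwa [zero_nsmul, zero_nsmul] at e
  have z2 : ∀ w : X.Cyc K, Var.pair w 0 = 0 := fun w => by
    have e := pair_nsmul h3 h4 hX hn3 w (h3 k X _ hX hn3).zero 0
    rwa [zero_nsmul, zero_nsmul] at e
  obtain ⟨w, hw⟩ := det_dual hj (fun q : s => (pairH K q.1.1).comp W.subtype)
    (fun q => pairH K q.1.2 (z - y')) (pow_pos hl.pos (r₁ + r₂))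
    (fun q w => by
      change l ^ (r₁ + r₂) • Var.pair w.1 q.1.1 = 0
      rw [← pair_nsmul h3 h4 hY hn' _ (hs q q.2).1.1, k1, z1])
    (fun q => by
      change l ^ (r₁ + r₂) • Var.pair (z - y') q.1.2 = 0
      rw [← pair_nsmul h3 h4 hX hn3 _ (hs q q.2).1.2.1, k2, z2])
    fun m hm => by
      obtain ⟨mt, e1, e2⟩ := match_sum (K := K) h3 h4 hX hn3 hY hn' hf Finset.univ
        fun q : s => match_nsmul h3 hX hn3 hY hn' hf (hs q q.2).1 (m q)
      have := hdet l hl hd _ _ mt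
        (prim_sum k1 m) (prim_sum k2 m)
        (fun w a b => by
          rw [e1, ← hm ⟨w, a, b⟩]
          exact Finset.sum_congr rfl fun q _ => pair_nsmul h3 h4 hY hn' _ (hs q q.2).1.1 _)
        (z - y') (by
          change degH X K (z - y') = 0
          rw [map_sub]
          exact sub_eq_zero.2 (hz.trans (hy1.trans hy).symm))
      rw [← this, e2]
      exact Finset.sum_congr rfl fun q _ => (pair_nsmul h3 h4 hX hn3 _ (hs q q.2).1.2.1 _).symm
  refine ⟨w.1, (le_iSup₂_of_le (f := fun t (_ : t ∈ Λ.primeFactors) => H t) l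
    (Nat.mem_primeFactors.2 ⟨hl, hd, hΛ⟩) le_rfl) w.2.1, w.2.2, fun q hq => ?_⟩
  rw [← hy2 _ _ (hs q hq).1]
  exact (hw ⟨q, hq⟩).trans (map_sub (pairH K q.2) z y')

end Pool.Agent.ZCy.U
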