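import Pool.Agent.Lib.MP_751085_ag.ZC.CY2

/-! The upper bound for the rank of the Jacobian matrix. -/

namespace Pool.Agent.ZCy

open scoped Classical Polynomial
open MvPolynomial

variable {k : Type} [Field k] {σ : Type} [Fintype σ] {N : ℕ}

/-- first order Taylor expansion in the dual numbers -/
theorem snd_aeval {F ι : Type} [Field F] [Algebra k F] [Fintype ι] (z : ι → DualNumber F)
    (G : MP ι k) : (aeval z G).fst = aeval (fun i => (z i).fst) G ∧
      (aeval z G).snd = grad (fun i => (z i).fst) G ⬝ᵥ fun i => (z i).snd := by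
  refine ⟨comp_aeval_apply z (TrivSqZeroExt.fstHom k F F) G, ?_⟩
  induction G using MvPolynomial.induction_on with
  | C a => simp [grad, dotProduct, TrivSqZeroExt.algebraMap_eq_inl']
  | add p q hp hq =>
    rw [map_add, TrivSqZeroExt.snd_add, hp, hq, ← add_dotProduct]
    congr 1
    funext j
    simp [grad]
  | mul_X p i hp =>
    have h1 : (aeval z p).fst = aeval (fun i => (z i).fst) p :=
      comp_aeval_apply z (TrivSqZeroExt.fstHom k F F) p
    have h2 : grad (fun i => (z i).fst) (p * X i) = (z i).fst • grad (fun i => (z i).fst) p +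
        Pi.single i (aeval (fun i => (z i).fst) p) := by
      funext j
      by_cases h : i = j
      · subst h
        simp [grad, add_comm]
      · simp [grad, h, Ne.symm h]
    rw [map_mul, aeval_X, DualNumber.snd_mul, hp, h1, h2, add_dotProduct, smul_dotProduct,
      single_dotProduct, smul_eq_mul]
    ring

theorem cy4_fst {F ι : Type} [Field F] [Algebra k F] (ξ : ι → DualNumber F) (θ : DualNumber F)
    (p : (MP ι k)[X]) : (ev (algebraMap k _) ξ θ p).fst =
      ev (algebraMap k F) (fun i => (ξ i).fst) θ.fst p :=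
  map_ev (TrivSqZeroExt.fstHom k F F).toRingHom _ ξ θ p

theorem cy4_dvd {S ι : Type} [CommRing S] [Algebra k S] {ξ : ι → S} {θ : S} {χ p : (MP ι k)[X]}
    (h0 : ev (algebraMap k S) ξ θ χ = 0) (h : χ ∣ p) : ev (algebraMap k S) ξ θ p = 0 := by
  obtain ⟨q, rfl⟩ := h
  rw [map_mul, h0, zero_mul]

/-- a simple root lifts to the dual numbers -/
theorem cy4_lift {F ι : Type} [Field F] [Algebra k F] (ξ : ι → DualNumber F) {θ : F}
    {χ : (MP ι k)[X]} (h0 : ev (algebraMap k F) (fun i => (ξ i).fst) θ χ = 0)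
    (h1 : ev (algebraMap k F) (fun i => (ξ i).fst) θ (Polynomial.derivative χ) ≠ 0) :
    ∃ θ' : DualNumber F, θ'.fst = θ ∧ ev (algebraMap k _) ξ θ' χ = 0 := by
  have e0 := cy4_fst ξ (TrivSqZeroExt.inl θ) χ
  have e1 := cy4_fst ξ (TrivSqZeroExt.inl θ) (Polynomial.derivative χ)
  rw [TrivSqZeroExt.fst_inl] at e0 e1
  rw [← e1] at h1
  rw [← e0] at h0
  refine ⟨TrivSqZeroExt.inl θ + TrivSqZeroExt.inr
    (-(ev (algebraMap k _) ξ (TrivSqZeroExt.inl θ) χ).snd /
      (ev (algebraMap k _) ξ (TrivSqZeroExt.inl θ) (Polynomial.derivative χ)).fst), by simp, ?_⟩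
  rw [ev_eq_eval, Polynomial.eval_add_of_sq_eq_zero _ _ _
    (by rw [sq, TrivSqZeroExt.inr_mul_inr]), Polynomial.derivative_map, ← ev_eq_eval, ← ev_eq_eval]
  ext
  · simp [h0]
  · simp [div_mul_cancel₀ _ h1]

/-- Tangent vectors at a point `x = pv(ξ, θ)` with `D(ξ) ≠ 0`. For `i : Option σ` put
`ξ' = ξ + ε e_i`, `θ' = θ + ε η` in `DualNumber F` with `η` chosen so that `ev ξ' θ' χ = 0`
(`χ'(θ) ≠ 0` by `c.bez`; `ev ξ' (θ + ε η) χ = ev ξ' θ χ + ε η χ'(θ)`), and `w (some i) = snd` of
`pv ξ' θ'`; `w none = x` (Euler, `grad_dot_self`). Independence: apply the linear forms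
`grad x (f (some j)) - ξ j • grad x (f none)`, which kill `x` and take the value
`δ_ij f_0(x)` on `w (some i)` by `dv_f`; and `x ≠ 0`. -/
theorem Chart.exists_tangent {GG : Set (Fm N k)} (c : Chart k σ N GG) {F : Type} [Field F]
    [Algebra k F] (ξ : Option σ → F) (θ : F) (h0 : ev (algebraMap k F) ξ θ c.χ = 0)
    (hD : aeval ξ c.D ≠ 0) : ∃ w : Option (Option σ) → Fin (N + 1) → F, LinearIndependent F w ∧
      ∀ G ∈ chJ c.χ c.pp, ∀ i, grad (c.pv (algebraMap k F) ξ θ) G ⬝ᵥ w i = 0 := by
  have h1 : ev (algebraMap k F) ξ θ (Polynomial.derivative c.χ) ≠ 0 := fun h => hD (by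
    obtain ⟨α, β, e⟩ := c.bez
    have := congrArg (ev (algebraMap k F) ξ θ) e
    rwa [ev_C, map_add, map_mul, map_mul, h0, h, mul_zero, mul_zero, add_zero] at this)
  let ξ' : Option σ → Option σ → DualNumber F := fun i j => (ξ j, if j = i then 1 else 0)
  choose θ' h2 h3 using fun i => cy4_lift (ξ' i) h0 h1
  set x := c.pv (algebraMap k F) ξ θ with hx
  have ex : ∀ G, ev (algebraMap k F) ξ θ (sb c.pp G) = aeval x G := fun G => ev_sb _ _ _ _ G
  let z : Option σ → Fin (N + 1) → DualNumber F := fun i => c.pv (algebraMap k _) (ξ' i) (θ' i)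
  have ez : ∀ i G, ev (algebraMap k _) (ξ' i) (θ' i) (sb c.pp G) = aeval (z i) G := fun i G =>
    ev_sb _ _ _ _ G
  have h4 : ∀ i, (fun j => (z i j).fst) = x := fun i => funext fun j =>
    (cy4_fst _ _ _).trans (by rw [h2]; rfl)
  have h5 : ∀ i (G : Fm N k), (aeval (z i) G).fst = aeval x G ∧
      (aeval (z i) G).snd = grad x G ⬝ᵥ fun j => (z i j).snd := fun i G => h4 i ▸ snd_aeval (z i) G
  have f0 : aeval x (c.f none) ≠ 0 := ex _ ▸ (c.ne F _ ξ θ h0 hD).1
  refine ⟨fun i => i.elim x fun i j => (z i j).snd, Fintype.linearIndependent_iff.2 fun g hg => ?_,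
    fun G hG i => ?_⟩
  · have h6 : ∀ j, g (some j) = 0 := fun j => by
      have e1 := cy4_dvd h0 (c.dv_f j)
      rw [map_sub, map_mul, ex, ex, ev_C, eval₂_X, sub_eq_zero] at e1
      have e2 : ∀ i, (grad x (c.f (some j)) - ξ j • grad x (c.f none)) ⬝ᵥ
          (fun l => (z i l).snd) = (if j = i then 1 else 0) * aeval x (c.f none) := fun i => by
        have e := cy4_dvd (h3 i) (c.dv_f j)
        rw [map_sub, map_mul, ez, ez, ev_C, eval₂_X, sub_eq_zero] at e
        have e' := congrArg TrivSqZeroExt.snd e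
        rw [DualNumber.snd_mul, (h5 i _).1, (h5 i _).2, (h5 i _).2] at e'
        rw [sub_dotProduct, smul_dotProduct, e', smul_eq_mul]
        exact add_sub_cancel_left _ _
      have e3 := congrArg ((grad x (c.f (some j)) - ξ j • grad x (c.f none)) ⬝ᵥ ·) hg
      rw [Fintype.sum_option] at e3
      simp only [dotProduct_add, dotProduct_sum, dotProduct_smul, Option.elim, e2,
        dotProduct_zero] at e3
      rw [sub_dotProduct, smul_dotProduct, grad_dot_self (c.hf _), grad_dot_self (c.hf _), e1] at e3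
      simpa [-Fintype.sum_option, mul_left_comm, f0] using e3
    rw [Fintype.sum_option] at hg
    simp only [h6, zero_smul, Finset.sum_const_zero, add_zero, Option.elim, smul_eq_zero] at hg
    have h7 : x ≠ 0 := fun h => f0 (by
      rw [h, ← zero_smul F (0 : Fin (N + 1) → F), aeval_smul_hom (c.hf _), zero_pow c.dpos.ne',
        zero_mul])
    rintro (_ | j)
    exacts [hg.resolve_right h7, h6 j]
  · obtain ⟨⟨m, hm⟩, hG⟩ := hG
    rcases i with _ | i
    · exact (grad_dot_self hm x).trans (by rw [← ex, cy4_dvd h0 hG, mul_zero])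
    · exact (h5 i G).2.symm.trans (by rw [← ez, cy4_dvd (h3 i) hG, TrivSqZeroExt.snd_zero])

/-- independent rows have a nonzero maximal minor -/
theorem cy4_minor {M ι : Type} [Field M] [Fintype ι] {r : ℕ} {A : Matrix (Fin r) ι M}
    (h : LinearIndependent M A.row) : ∃ s : Fin r → ι, (A.submatrix id s).det ≠ 0 := by
  obtain ⟨κ, a, ha, h1, h2⟩ := exists_linearIndependent' M A.col
  have := Fintype.ofInjective a ha
  have h3 := h.rank_matrix
  rw [Matrix.rank_eq_finrank_span_cols, ← h1, finrank_span_eq_card h2] at h3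
  let e := Fintype.equivOfCardEq h3
  refine ⟨a ∘ e.symm, (Matrix.isUnit_iff_isUnit_det _).1
    (Matrix.linearIndependent_cols_iff_isUnit.1 ?_) |>.ne_zero⟩
  exact h2.comp e.symm e.symm.injective

/-- If the gradients of `G_1, …, G_r` are independent at `x`, some `r × r` minor, a form, does
not vanish at `x`; so it does not vanish at `z`. -/
theorem indep_grad {M F : Type} [Field M] [Algebra k M] [Field F] [Algebra k F]
    {x : Fin (N + 1) → M} {z : Fin (N + 1) → F}
    (h : ∀ G : Fm N k, (∃ m, G.IsHomogeneous m) → aeval z G = 0 → aeval x G = 0) {r : ℕ}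
    {G : Fin r → Fm N k} (hG : ∀ i, ∃ m, (G i).IsHomogeneous m)
    (hi : LinearIndependent M fun i => grad x (G i)) :
    LinearIndependent F fun i => grad z (G i) := by
  choose m hm using hG
  obtain ⟨s, hs⟩ := cy4_minor (A := Matrix.of fun i => grad x (G i)) hi
  let B : Matrix (Fin r) (Fin r) (Fm N k) := Matrix.of fun j i => pderiv (s j) (G i)
  have h1 : B.det.IsHomogeneous (∑ i, (m i - 1)) := by
    rw [Matrix.det_apply]
    refine IsHomogeneous.sum _ _ _ fun τ _ => ?_
    have := IsHomogeneous.prod Finset.univ (fun i => B (τ i) i) _ fun i _ => (hm i).pderiv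
    rcases Int.units_eq_one_or (Equiv.Perm.sign τ) with e | e <;> rw [e]
    · rwa [one_smul]
    · rw [Units.neg_smul, one_smul]
      exact this.neg
  have h2 : aeval z B.det ≠ 0 := fun e => hs (by
    have := h _ ⟨_, h1⟩ e
    rw [AlgHom.map_det, ← Matrix.det_transpose] at this
    exact this)
  rw [AlgHom.map_det] at h2
  exact LinearIndependent.of_comp (LinearMap.funLeft F F s)
    (Matrix.linearIndependent_cols_iff_isUnit.2 ((Matrix.isUnit_iff_isUnit_det _).2 h2.isUnit))

theorem cy4_orth {F ι κ τ : Type} [Field F] [Fintype ι] [Fintype κ] [Fintype τ] {u : ι → τ → F}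
    {w : κ → τ → F} (hu : LinearIndependent F u) (hw : LinearIndependent F w)
    (h : ∀ i j, u i ⬝ᵥ w j = 0) : Fintype.card ι + Fintype.card κ ≤ Fintype.card τ := by
  have h5 := Matrix.rank_add_rank_le_card_of_mul_eq_zero (A := Matrix.of u)
    (B := (Matrix.of w).transpose) (Matrix.ext h)
  rwa [Matrix.rank_transpose, LinearIndependent.rank_matrix (M := Matrix.of u) hu,
    LinearIndependent.rank_matrix (M := Matrix.of w) hw] at h5

/-- Take `F` an algebraic closure of `RF (Option σ) k`, `ξ` the variables, `θ` a root of `χ`,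
`z = pv ξ θ`; a form that vanishes at `z` lies in `chJ` (`dvd_of_root`). Choose a basis of the
span among the gradients, use `indep_grad` and `exists_tangent`: `r` independent vectors that are
orthogonal to `card σ + 2` independent vectors in dimension `N + 1`. -/
theorem Chart.jac_le {GG : Set (Fm N k)} (c : Chart k σ N GG) (hχ : Irreducible c.χ) {M : Type}
    [Field M] [Algebra k M] {x : Fin (N + 1) → M} (hx : ∀ G ∈ chJ c.χ c.pp, aeval x G = 0) :
    Module.finrank M (Submodule.span M (grad x '' chJ c.χ c.pp)) + (Fintype.card σ + 1) ≤ N := by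
  have hφ : Function.Injective (toE (MP (Option σ) k) (AlgebraicClosure (RF (Option σ) k))) :=
    (algebraMap (RF (Option σ) k) _).injective.comp (IsFractionRing.injective _ _)
  have e : eval₂Hom (algebraMap k _) (gpt k (Option σ)) =
      toE (MP (Option σ) k) (AlgebraicClosure (RF (Option σ) k)) := by
    ext : 1
    · ext : 1
      rw [RingHom.comp_apply, eval₂Hom_C]
      rfl
    · rw [eval₂Hom_X']
      rfl
  rw [← e] at hφ
  obtain ⟨θ, h0⟩ := IsAlgClosed.exists_eval₂_eq_zero_of_injective _ hφ c.χ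
    (Polynomial.natDegree_pos_iff_degree_pos.1 (c.deg ▸ c.pos)).ne'
  obtain ⟨w, hw, h1⟩ := c.exists_tangent (gpt k (Option σ)) θ h0
    ((map_ne_zero_iff _ hφ).2 c.D_ne_zero)
  obtain ⟨κ, a, -, h2, h3⟩ := exists_linearIndependent' M fun G : chJ c.χ c.pp => grad x G.1
  have := h3.finite
  have := Fintype.ofFinite κ
  rw [Set.image_eq_range, ← h2, finrank_span_eq_card h3]
  let b := (Fintype.equivFin κ).symm
  have h4 := indep_grad (z := c.pv (algebraMap k _) (gpt k (Option σ)) θ)
    (G := fun i => (a (b i)).1) (fun G hG h => hx G ⟨hG, dvd_of_root hφ hχ h0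
      ((ev_sb _ _ _ c.pp G).trans h)⟩) (fun i => (a (b i)).2.1) (h3.comp b b.injective)
  have h5 := cy4_orth h4 hw fun i j => h1 _ (a (b i)).2 j
  rw [Fintype.card_fin, Fintype.card_fin, Fintype.card_option, Fintype.card_option] at h5
  omega

end Pool.Agent.ZCy
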