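import Pool.Agent.Lib.MP_751085_ag.ZC.CY3
import Pool.Agent.Lib.MP_751085_ag.ZC.CY4
import Pool.Agent.Lib.MP_751085_ag.ZC.CJac

/-! The section `f_1 = 0` as a nice variety with a chart. -/

namespace Pool.Agent.ZCy

open scoped Classical Polynomial
open MvPolynomial

variable {k : Type} [Field k] {σ : Type} [Fintype σ] {X : Var k} {n : ℕ}

/-- `c₁` from `Chart.exists_hyp_insert`, `Y` from `Chart.exists_gen c₁`, so that
`Y.var.I = chJ c₁.χ c₁.pp`. `X.I` and `f_1` lie in `chJ` by `Chart.hyp_dvd` (`Var.IK_self`); the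
converse inclusion of points is `Chart.sec` (`hyp c.D = c₁.D ≠ 0` by `PChart.D_ne_zero`).
Smoothness: `≤` is `Chart.jac_le c₁`; for `≥`, the span of the gradients of `Y.var.I` contains
`X.jac x` and `grad x f_1 ∉ X.jac x`, so it is strictly larger than `X.jac x`
(`Submodule.finrank_lt_finrank_of_lt`, `Var.Nice.finrank_jac`). The chart `c'` comes from
`Chart.exists_hyp` (`Var.zer_IK`, `Var.IK_self`). -/
theorem Var.Nice.sec_chart (hX : X.Nice n) (hσ : Fintype.card σ + 2 = n)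
    (c : Chart k (Option σ) X.N (X.IK k))
    (hgi : ∀ c' : PChart k σ, c.toPChart.IsHyp c' → c'.GI)
    (hsm : X.Sm (c.f (some (some none)))) :
    ∃ Y : Gen k X.N, Y.var.Nice (n - 1) ∧ X.Sec Y (c.f (some (some none))) ∧
      ∃ c' : Chart k σ X.N (Y.var.IK k), c.IsHyp c' := by
  obtain ⟨c₁, h₁⟩ := c.exists_hyp_insert
  obtain ⟨Y, g1, g2, g3⟩ := c₁.exists_gen (hgi _ h₁.p)
  have epp : c₁.pp = fun j => (c.pp j).map hyp := funext h₁.pp
  have hsp : ∀ G ∈ insert (c.f (some (some none))) (X.IK k), c₁.χ ∣ sb c₁.pp G := fun G hG =>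
    epp ▸ c.hyp_dvd h₁.p (Ideal.subset_span hG)
  have hsub : X.I ⊆ chJ c₁.χ c₁.pp := fun G hG => ⟨hG.1, hsp G (Or.inr (X.IK_self ▸ hG))⟩
  have hf : c.f (some (some none)) ∈ chJ c₁.χ c₁.pp := ⟨⟨_, c.hf _⟩, hsp _ (Or.inl rfl)⟩
  have hsec : X.Sec Y (c.f (some (some none))) := fun M _ _ x =>
    ⟨fun hx => ⟨⟨hx.1, fun G hG => hx.2 G (g3 ▸ hsub hG)⟩, hx.2 _ (g3 ▸ hf)⟩, fun hx =>
      ⟨hx.1.1, fun G hG => c.sec X (h₁.p.D ▸ c₁.D_ne_zero) (by rwa [← h₁.p.χ, ← epp, ← g3])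
        hx.1.2 hx.2⟩⟩
  refine ⟨Y, ⟨g1, by rw [g2, ← hσ]; rfl, fun x => ?_⟩, hsec, c.exists_hyp (fun G hG c' hc' => ?_)
    fun Ω _ ψ x hx => ?_⟩
  · obtain ⟨x, ⟨i, hi⟩, hx⟩ := x
    have hX' : X.On x := ((hsec _ x).1 ⟨fun e => by simp [e] at hi, hx⟩).1
    have h1 := c₁.jac_le (hgi _ h₁.p).irreducible (x := x) (g3 ▸ hx)
    have h2 := hX.finrank_jac hX'
    have h3 : X.jac x < Submodule.span _ (grad x '' chJ c₁.χ c₁.pp) :=
      lt_of_le_of_ne (Submodule.span_mono (Set.image_mono hsub)) fun e =>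
        hsm _ x hX' (e ▸ Submodule.subset_span ⟨_, hf, rfl⟩)
    have h4 := Submodule.finrank_lt_finrank_of_lt h3
    rw [← g3] at h1 h4
    exact (by omega : ∀ a b, a + (Fintype.card σ + 1) ≤ X.N → b + n = X.N → b < a →
      a + (n - 1) = X.N) _ _ h1 h2 h4
  · rw [Var.IK_self, g3] at hG
    rw [hc'.χ, ← h₁.p.χ, ← epp]
    exact hG.2
  · rw [Var.IK_self, g3] at hx
    exact ⟨fun G hG => hx G (hsub (X.IK_self ▸ hG)), hx _ hf⟩

end Pool.Agent.ZCy
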