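import Pool.Agent.Lib.MP_751085_ag.ZC.G1

/-! Continuous cochains. -/

namespace Pool.Agent.ZCy

open scoped Classical Topology
open groupCohomology

variable {K Ω K' Ω' : Type} [Field K] [Field Ω] [Algebra K Ω] [Field K'] [Field Ω']
  [Algebra K' Ω']

/-- `stabilizer_isOpen_of_isIntegral` -/
theorem lc_apply [Algebra.IsAlgebraic K Ω] (x : Ω) : IsLocallyConstant fun g : Ω ≃ₐ[K] Ω => g x := by
  refine (IsLocallyConstant.iff_eventually_eq _).2 fun g₀ => ?_
  have h := ((stabilizer_isOpen_of_isIntegral (K := K) x).preimage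
    (continuous_const_mul g₀⁻¹)).mem_nhds (x := g₀) (by simp)
  filter_upwards [h] with g hg
  have e : g₀⁻¹ (g x) = x := hg
  simpa using congrArg g₀ e

theorem lc_smul [Algebra.IsAlgebraic K Ω] {X : Type} [TopologicalSpace X] {f : X → Ω ≃ₐ[K] Ω}
    (hf : Continuous f) {a : X → Ωˣ} (ha : IsLocallyConstant a) :
    IsLocallyConstant fun x => f x • a x := by
  refine (IsLocallyConstant.iff_eventually_eq _).2 fun x₀ => ?_
  filter_upwards [ha.eventually_eq x₀,
    ((lc_apply (K := K) (a x₀ : Ω)).comp_continuous hf).eventually_eq x₀] with x h1 h2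
  rw [h1]
  exact Units.ext h2

theorem lc_pi {X S A : Type} [TopologicalSpace X] [Finite S] {f : X → S → A}
    (h : ∀ s, IsLocallyConstant fun x => f x s) : IsLocallyConstant f := by
  refine (IsLocallyConstant.iff_eventually_eq _).2 fun x₀ => ?_
  filter_upwards [Filter.eventually_all.2 fun s => (h s).eventually_eq x₀] with x hx
  exact funext hx

/-- the sets of automorphisms that agree with `g₀` on a finite set are a basis at `g₀` -/
theorem a0_nhds {g₀ : Ω ≃ₐ[K] Ω} {U : Set (Ω ≃ₐ[K] Ω)} (hU : U ∈ 𝓝 g₀) :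
    ∃ s : Finset Ω, ∀ g : Ω ≃ₐ[K] Ω, (∀ x ∈ s, g x = g₀ x) → g ∈ U := by
  have h1 : (fun g => g₀ * g) ⁻¹' U ∈ 𝓝 1 :=
    (continuous_const_mul g₀).continuousAt.preimage_mem_nhds (by rwa [mul_one])
  obtain ⟨E, hE, h2⟩ := (krullTopology_mem_nhds_one_iff K Ω _).1 h1
  let b := Module.finBasis K E
  refine ⟨Finset.univ.image fun i => (b i : Ω), fun g hg => ?_⟩
  have h3 : (g₀⁻¹ * g).toLinearMap ∘ₗ E.val.toLinearMap = E.val.toLinearMap :=
    b.ext fun i => by
      have e : g (b i) = g₀ (b i) := hg _ (Finset.mem_image_of_mem _ (Finset.mem_univ i))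
      simp [e]
  have h4 : g₀⁻¹ * g ∈ E.fixingSubgroup :=
    (E.mem_fixingSubgroup_iff _).2 fun x hx => LinearMap.congr_fun h3 ⟨x, hx⟩
  simpa using h2 h4

/-- a map to the Galois group is continuous if all values `f x a` are locally constant
(`krullTopology_mem_nhds_one_iff`, a finite extension has a finite basis) -/
theorem continuous_gal [Algebra.IsAlgebraic K Ω] {X : Type} [TopologicalSpace X]
    {f : X → Ω ≃ₐ[K] Ω} (h : ∀ a, IsLocallyConstant fun x => f x a) : Continuous f := by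
  refine continuous_iff_continuousAt.2 fun x₀ U hU => ?_
  obtain ⟨s, hs⟩ := a0_nhds hU
  exact ((Filter.eventually_all_finset s).2 fun a _ => (h a).eventually_eq x₀).mono
    fun x hx => hs _ hx

theorem a0_ev [Algebra.IsAlgebraic K Ω] {n : ℕ} (s : Finset Ω) (g₀ : Fin n → (Ω ≃ₐ[K] Ω)) :
    ∀ᶠ g in 𝓝 g₀, ∀ i, ∀ x ∈ s, g i x = g₀ i x :=
  Filter.eventually_all.2 fun i => (Filter.eventually_all_finset s).2 fun x _ =>
    ((lc_apply (K := K) x).comp_continuous (continuous_apply i)).eventually_eq g₀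

/-- Left to right: `lc_apply`. Right to left: the sets of tuples that agree with `g` on a finite
set form a basis of neighbourhoods; compactness of the Galois group gives one finite set. -/
theorem locConst_iff [IsGalois K Ω] {A : Type} {n : ℕ} {c : (Fin n → (Ω ≃ₐ[K] Ω)) → A} :
    LocConst K Ω n c ↔ IsLocallyConstant c := by
  refine ⟨fun ⟨s, hs⟩ => (IsLocallyConstant.iff_eventually_eq _).2 fun g₀ =>
    (a0_ev s g₀).mono fun g hg => hs _ _ hg, fun hc => ?_⟩
  have h1 : ∀ g₀ : Fin n → (Ω ≃ₐ[K] Ω), ∃ s : Finset Ω,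
      ∀ g, (∀ i, ∀ x ∈ s, g i x = g₀ i x) → c g = c g₀ := fun g₀ => by
    have h := hc.eventually_eq g₀
    rw [nhds_pi] at h
    obtain ⟨I, -, t, ht, hI⟩ := Filter.mem_pi.1 h
    choose s hs using fun i => a0_nhds (ht i)
    exact ⟨Finset.univ.biUnion s, fun g hg => hI fun i _ => hs i _ fun x hx =>
      hg i x (Finset.mem_biUnion.2 ⟨i, Finset.mem_univ i, hx⟩)⟩
  choose s hs using h1
  obtain ⟨t, -, ht⟩ := isCompact_univ.elim_nhds_subcover
    (fun g₀ => {g | ∀ i, ∀ x ∈ s g₀, g i x = g₀ i x}) fun g₀ _ => a0_ev (s g₀) g₀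
  refine ⟨t.biUnion s, fun g h e => ?_⟩
  obtain ⟨g₀, h0, hg⟩ := Set.mem_iUnion₂.1 (ht (Set.mem_univ g))
  rw [hs g₀ g hg, hs g₀ h fun i x hx =>
    (e i x (Finset.mem_biUnion.2 ⟨g₀, h0, hx⟩)).symm.trans (hg i x hx)]

theorem locConst_two [IsGalois K Ω] {A : Type} {c : (Ω ≃ₐ[K] Ω) × (Ω ≃ₐ[K] Ω) → A} :
    (LocConst K Ω 2 fun g => c (g 0, g 1)) ↔ IsLocallyConstant c := by
  rw [locConst_iff]
  exact ⟨fun h => h.comp_continuous (f := fun p : _ × _ => ![p.1, p.2]) (by fun_prop),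
    fun h => h.comp_continuous (f := fun g : Fin 2 → _ => (g 0, g 1)) (by fun_prop)⟩

theorem locConst_one [IsGalois K Ω] {A : Type} {e : (Ω ≃ₐ[K] Ω) → A} :
    (LocConst K Ω 1 fun g => e (g 0)) ↔ IsLocallyConstant e := by
  rw [locConst_iff]
  exact ⟨fun h => h.comp_continuous (f := fun g _ => g) (by fun_prop),
    fun h => h.comp_continuous (continuous_apply 0)⟩

theorem mem_Z2 [IsGalois K Ω] {c : (Ω ≃ₐ[K] Ω) × (Ω ≃ₐ[K] Ω) → Ωˣ} :
    c ∈ Z2 K Ω ↔ IsMulCocycle₂ c ∧ IsLocallyConstant c := by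
  exact and_congr_right' locConst_two

theorem mem_B2 [IsGalois K Ω] {c : (Ω ≃ₐ[K] Ω) × (Ω ≃ₐ[K] Ω) → Ωˣ} :
    c ∈ B2 K Ω ↔ ∃ e, IsLocallyConstant e ∧ c = dd e := by
  exact exists_congr fun e => and_congr locConst_one
    ⟨fun h => funext fun p => h p.1 p.2, fun h g g' => congrFun h (g, g')⟩

theorem lc_dd [Algebra.IsAlgebraic K Ω] {e : (Ω ≃ₐ[K] Ω) → Ωˣ} (he : IsLocallyConstant e) :
    IsLocallyConstant (dd e) := by
  exact ((lc_smul continuous_fst (he.comp_continuous continuous_snd)).div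
    (he.comp_continuous continuous_mul)).mul (he.comp_continuous continuous_fst)

theorem Lk.continuous [Algebra.IsAlgebraic K Ω] [Algebra.IsAlgebraic K' Ω'] {γ : K →+* K'}
    {j : Ω →+* Ω'} {r : (Ω' ≃ₐ[K'] Ω') → Ω ≃ₐ[K] Ω} (h : Lk γ j r) : Continuous r := by
  refine continuous_gal fun a => IsLocallyConstant.desc _ j ?_ j.injective
  have e : (j ∘ fun g => r g a) = fun g : Ω' ≃ₐ[K'] Ω' => g (j a) := funext fun g => h.comm g a
  rw [e]
  exact lc_apply _

end Pool.Agent.ZCy
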