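import Pool.Agent.Lib.MP_751085_ag.ZC.A0

/-! Classes of continuous cocycles and restriction. -/

namespace Pool.Agent.ZCy

open scoped Classical
open groupCohomology

variable {K Ω K' Ω' K'' Ω'' : Type} [Field K] [Field Ω] [Algebra K Ω] [Field K'] [Field Ω']
  [Algebra K' Ω'] [Field K''] [Field Ω''] [Algebra K'' Ω'']

section cl

variable {c c' : (Ω ≃ₐ[K] Ω) × (Ω ≃ₐ[K] Ω) → Ωˣ}

theorem exists_cl (a : Br K Ω) : ∃ c ∈ Z2 K Ω, cl K Ω c = a :=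
  ⟨_, a.toMul.out.2, (cl_eq a.toMul.out.2).trans
    (congrArg Additive.ofMul (QuotientGroup.out_eq' a.toMul))⟩

theorem cl_out (a : Br K Ω) : cl K Ω (a.toMul.out).1 = a :=
  (cl_eq a.toMul.out.2).trans (congrArg Additive.ofMul (QuotientGroup.out_eq' a.toMul))

theorem cl_mul (h : c ∈ Z2 K Ω) (h' : c' ∈ Z2 K Ω) : cl K Ω (c * c') = cl K Ω c + cl K Ω c' := by
  rw [cl_eq (mul_mem h h'), cl_eq h, cl_eq h']
  rfl

theorem cl_one : cl K Ω 1 = 0 := cl_eq (one_mem _)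

theorem cl_div (h : c ∈ Z2 K Ω) (h' : c' ∈ Z2 K Ω) : cl K Ω (c / c') = cl K Ω c - cl K Ω c' := by
  rw [cl_eq (div_mem h h'), cl_eq h, cl_eq h']
  rfl

theorem cl_pow (h : c ∈ Z2 K Ω) (n : ℕ) : cl K Ω (c ^ n) = n • cl K Ω c := by
  rw [cl_eq (pow_mem h n), cl_eq h]
  rfl

theorem cl_prod {ι : Type} (s : Finset ι) {c : ι → (Ω ≃ₐ[K] Ω) × (Ω ≃ₐ[K] Ω) → Ωˣ}
    (h : ∀ i ∈ s, c i ∈ Z2 K Ω) : cl K Ω (∏ i ∈ s, c i) = ∑ i ∈ s, cl K Ω (c i) := by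
  induction s using Finset.induction_on with
  | empty => exact cl_one
  | insert i s hi ih =>
    have h' : ∀ i ∈ s, c i ∈ Z2 K Ω := fun i hi => h i (Finset.mem_insert_of_mem hi)
    rw [Finset.prod_insert hi, Finset.sum_insert hi,
      cl_mul (h i (Finset.mem_insert_self _ _)) (prod_mem h'), ih h']

theorem cl_eq_zero (h : c ∈ Z2 K Ω) : cl K Ω c = 0 ↔ c ∈ B2 K Ω := by
  rw [cl_eq h]
  exact QuotientGroup.eq_one_iff (⟨c, h⟩ : Z2 K Ω)

theorem cl_eq_iff (h : c ∈ Z2 K Ω) (h' : c' ∈ Z2 K Ω) : cl K Ω c = cl K Ω c' ↔ c / c' ∈ B2 K Ω := by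
  rw [← sub_eq_zero, ← cl_div h h', cl_eq_zero (div_mem h h')]

theorem cl_mul_dd [IsGalois K Ω] (h : c ∈ Z2 K Ω) {e : (Ω ≃ₐ[K] Ω) → Ωˣ}
    (he : IsLocallyConstant e) : c * dd e ∈ Z2 K Ω ∧ cl K Ω (c * dd e) = cl K Ω c := by
  have h1 : dd e ∈ Z2 K Ω := mem_Z2.2 ⟨dd_coc e, lc_dd he⟩
  refine ⟨mul_mem h h1, ?_⟩
  rw [cl_mul h h1, (cl_eq_zero h1).2 (mem_B2.2 ⟨e, he, rfl⟩)]
  exact add_zero (cl K Ω c)

end cl

section res

variable [CharZero K] [IsAlgClosure K Ω] [IsAlgClosure K' Ω'] [IsAlgClosure K'' Ω'']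

omit [IsAlgClosure K' Ω'] in
/-- two links over `γ` differ by an inner automorphism -/
theorem a1_indep {γ : K →+* K'} {j j₂ : Ω →+* Ω'} {r r₂ : (Ω' ≃ₐ[K'] Ω') → Ω ≃ₐ[K] Ω}
    (h : Lk γ j r) (h₂ : Lk γ j₂ r₂) {c : (Ω ≃ₐ[K] Ω) × (Ω ≃ₐ[K] Ω) → Ωˣ} (hc : c ∈ Z2 K Ω) :
    cl K' Ω' (pull j₂ r₂ c) = cl K' Ω' (pull j r c) := by
  obtain ⟨σ, hσ⟩ : ∃ σ : Ω ≃ₐ[K] Ω, ∀ x, j (σ x) = j₂ x := by
    let : Algebra K Ω' := ((algebraMap K' Ω').comp γ).toAlgebra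
    let : Algebra Ω Ω' := j.toAlgebra
    have : IsScalarTower K Ω Ω' := IsScalarTower.of_algebraMap_eq fun a => (h.base a).symm
    let φ : Ω →ₐ[K] Ω' := { j₂ with commutes' := h₂.base }
    exact ⟨φ.restrictNormal' Ω, fun x => φ.restrictNormal_commutes Ω x⟩
  have e : ∀ g, r₂ g = σ⁻¹ * r g * σ := fun g => by
    rw [mul_assoc, eq_inv_mul_iff_mul_eq]
    ext x
    apply j.injective
    rw [AlgEquiv.mul_apply, AlgEquiv.mul_apply, hσ, h₂.comm, h.comm, hσ]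
  obtain ⟨h1, h2⟩ := mem_Z2.1 hc
  have h3 : IsLocallyConstant (conjE c σ) :=
    (h2.comp_continuous (f := fun g => (σ, σ⁻¹ * g * σ)) (by fun_prop)).div
      (h2.comp_continuous (f := fun g => (g, σ)) (by fun_prop))
  obtain ⟨h4, h5⟩ := cl_mul_dd hc h3
  rw [← h.map_cl hc, ← h5, h.map_cl h4]
  congr 1
  funext p
  rw [pull, pull, Pi.mul_apply, ← (coc_iff.1 h1).conj trivial trivial trivial, e, e]
  exact Units.ext (hσ _).symm

theorem Lk.res_cl {γ : K →+* K'} {j : Ω →+* Ω'} {r : (Ω' ≃ₐ[K'] Ω') → Ω ≃ₐ[K] Ω} (h : Lk γ j r)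
    {c : (Ω ≃ₐ[K] Ω) × (Ω ≃ₐ[K] Ω) → Ωˣ} (hc : c ∈ Z2 K Ω) :
    res γ (cl K Ω c) = cl K' Ω' (pull j r c) :=
  (Lk.map_cl _ hc).trans (a1_indep h (have := IsAlgClosure.isAlgClosed K' (K := Ω')
    (exists_lk (Ω := Ω) (Ω' := Ω') γ).choose_spec.choose_spec) hc)

theorem isRes_iff {γ : K →+* K'} {a : Br K Ω} {b : Br K' Ω'} : IsRes γ a b ↔ b = res γ a := by
  constructor
  · rintro ⟨j, r, c, h1, h2, rfl, rfl⟩
    exact (Lk.res_cl ⟨h1, h2⟩ c.2).symm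
  · rintro rfl
    have := IsAlgClosure.isAlgClosed K' (K := Ω')
    obtain ⟨c, hc, rfl⟩ := exists_cl a
    obtain ⟨j, r, h⟩ := exists_lk (Ω := Ω) (Ω' := Ω') γ
    exact ⟨j, r, ⟨c, hc⟩, h.base, h.comm, rfl, h.res_cl hc⟩

theorem res_id (a : Br K Ω) : res (RingHom.id K) a = a := by
  obtain ⟨c, hc, rfl⟩ := exists_cl a
  exact Lk.res_cl (γ := RingHom.id K) (j := RingHom.id Ω) (r := id) ⟨fun _ => rfl, fun _ _ => rfl⟩ hc

theorem res_res (γ : K →+* K') (γ' : K' →+* K'') (a : Br K Ω) :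
    (res γ' (res γ a : Br K' Ω') : Br K'' Ω'') = res (γ'.comp γ) a := by
  have := charZero_of_injective_ringHom γ.injective
  have := IsAlgClosure.isAlgClosed K' (K := Ω')
  have := IsAlgClosure.isAlgClosed K'' (K := Ω'')
  obtain ⟨c, hc, rfl⟩ := exists_cl a
  obtain ⟨j, r, h⟩ := exists_lk (Ω := Ω) (Ω' := Ω') γ
  obtain ⟨j', r', h'⟩ := exists_lk (Ω := Ω') (Ω' := Ω'') γ'
  rw [h.res_cl hc, h'.res_cl (h.mem_Z2 hc)]
  exact (Lk.res_cl (j := j'.comp j) (r := r ∘ r')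
    ⟨fun a => (congrArg j' (h.base a)).trans (h'.base _),
      fun g x => (congrArg j' (h.comm _ x)).trans (h'.comm _ _)⟩ hc).symm

theorem res_injective_of_bijective {γ : K →+* K'} (h : Function.Bijective γ) :
    Function.Injective (res γ : Br K Ω → Br K' Ω') := by
  refine Function.LeftInverse.injective
    (g := res ((RingEquiv.ofBijective γ h).symm : K' →+* K)) fun a => ?_
  rw [res_res, show ((RingEquiv.ofBijective γ h).symm : K' →+* K).comp γ = RingHom.id K from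
    RingHom.ext (RingEquiv.ofBijective γ h).symm_apply_apply, res_id]

theorem res_surjective_of_bijective {γ : K →+* K'} (h : Function.Bijective γ) :
    Function.Surjective (res γ : Br K Ω → Br K' Ω') := fun b => by
  have := charZero_of_injective_ringHom γ.injective
  refine ⟨res ((RingEquiv.ofBijective γ h).symm : K' →+* K) b, ?_⟩
  rw [res_res, show γ.comp ((RingEquiv.ofBijective γ h).symm : K' →+* K) = RingHom.id K' from
    RingHom.ext (RingEquiv.ofBijective γ h).apply_symm_apply, res_id]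

/-- an algebraically closed field has no classes -/
theorem br_eq_zero [IsAlgClosed K] (a : Br K Ω) : a = 0 := by
  obtain ⟨c, hc, rfl⟩ := exists_cl a
  have e : ∀ g : Ω ≃ₐ[K] Ω, g = 1 := fun g => AlgEquiv.ext fun x => by
    obtain ⟨y, rfl⟩ := (IsAlgClosed.algebraMap_bijective_of_isIntegral (k := K) (K := Ω)).2 x
    exact g.commutes y
  refine (cl_eq_zero hc).2 ⟨fun _ => c (1, 1), ⟨∅, fun _ _ _ => rfl⟩, fun g h => ?_⟩
  rw [e g, e h, one_smul, div_mul_cancel]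

end res

end Pool.Agent.ZCy
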