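import Pool.Agent.Lib.MP_751085_ag.ZC.A1
import Pool.Agent.Lib.MP_751085_ag.ZC.G4

/-! Corestriction. -/

namespace Pool.Agent.ZCy

open scoped Classical
open groupCohomology MulAction

variable {K M : Type} [Field K] [Field M] [Algebra K M] [CharZero K] [FiniteDimensional K M]
  {b b' : Gm K × Gm K → Ind (AlgebraicClosure K)ˣ (Em K M)} {β β' : BR M}

omit [CharZero K] in
/-- `lc_apply` on a finite basis of `M` -/
theorem em_lc (j : Em K M) : IsLocallyConstant fun g : Gm K => g • j := by
  refine IsLocallyConstant.desc _ (fun (i : Em K M) n => i.hom (Module.finBasis K M n))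
    (lc_pi fun n => lc_apply (j.hom (Module.finBasis K M n))) fun i i' e => ?_
  exact AlgHom.toLinearMap_injective ((Module.finBasis K M).ext fun n => congrFun e n)

omit [CharZero K] [FiniteDimensional K M] in
/-- the action on the embeddings is transitive -/
theorem em_trans [Algebra.IsAlgebraic K M] (j j' : Em K M) : ∃ g : Gm K, g • j = j' := by
  let : Algebra M (AlgebraicClosure K) := (j.hom : M →+* AlgebraicClosure K).toAlgebra
  have : IsScalarTower K M (AlgebraicClosure K) :=
    IsScalarTower.of_algebraMap_eq fun a => (j.hom.commutes a).symm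
  refine ⟨AlgEquiv.ofBijective (j'.hom.liftNormal (AlgebraicClosure K))
    (Algebra.IsAlgebraic.algHom_bijective _), AlgHom.ext fun x => ?_⟩
  exact j'.hom.liftNormal_commutes (AlgebraicClosure K) x

omit [CharZero K] [FiniteDimensional K M] in
theorem a3_bij {j : Em K M} {J : AlgebraicClosure K →+* AlgebraicClosure M}
    (hJ : ∀ x, J (j.hom x) = algebraMap M _ x) : Function.Bijective J := by
  let : Algebra M (AlgebraicClosure K) := (j.hom : M →+* AlgebraicClosure K).toAlgebra
  let : Algebra (AlgebraicClosure K) (AlgebraicClosure M) := J.toAlgebra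
  have : IsScalarTower M (AlgebraicClosure K) (AlgebraicClosure M) :=
    IsScalarTower.of_algebraMap_eq fun a => (hJ a).symm
  have : Algebra.IsAlgebraic (AlgebraicClosure K) (AlgebraicClosure M) :=
    Algebra.IsAlgebraic.tower_top (K := M) _
  exact IsAlgClosed.algebraMap_bijective_of_isIntegral

omit [CharZero K] [FiniteDimensional K M] in
theorem a3_exJ (j : Em K M) : ∃ J : AlgebraicClosure K ≃+* AlgebraicClosure M,
    ∀ x, J (j.hom x) = algebraMap M _ x := by
  let : Algebra M (AlgebraicClosure K) := (j.hom : M →+* AlgebraicClosure K).toAlgebra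
  have : IsScalarTower K M (AlgebraicClosure K) :=
    IsScalarTower.of_algebraMap_eq fun a => (j.hom.commutes a).symm
  have : Algebra.IsAlgebraic M (AlgebraicClosure K) := Algebra.IsAlgebraic.tower_top (K := K) _
  let J : AlgebraicClosure K →ₐ[M] AlgebraicClosure M := IsAlgClosed.lift
  have hJ : ∀ x, (J : AlgebraicClosure K →+* AlgebraicClosure M) (j.hom x) = algebraMap M _ x :=
    fun x => J.commutes x
  exact ⟨RingEquiv.ofBijective _ (a3_bij hJ), hJ⟩

omit [CharZero K] [FiniteDimensional K M] in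
theorem a3_lk {L : Type} [Field L] {φ : M →+* L} {j : Em K M}
    {J : AlgebraicClosure K →+* AlgebraicClosure L} {r : Gm L → Gm K}
    (hJ : ∀ x, J (j.hom x) = algebraMap L _ (φ x)) (hr : ∀ g x, J (r g x) = g (J x)) :
    Lk (φ.comp (algebraMap K M)) J r :=
  ⟨fun a => by rw [← j.hom.commutes a, hJ]; rfl, hr⟩

omit [CharZero K] [FiniteDimensional K M] in
theorem a3_stab {L : Type} [Field L] {φ : M →+* L} {j : Em K M}
    {J : AlgebraicClosure K →+* AlgebraicClosure L} {r : Gm L → Gm K}
    (hJ : ∀ x, J (j.hom x) = algebraMap L _ (φ x)) (hr : ∀ g x, J (r g x) = g (J x)) (g : Gm L) :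
    r g ∈ stabilizer (Gm K) j :=
  AlgHom.ext fun x => J.injective ((hr g (j.hom x)).trans (by rw [hJ, g.commutes]; exact (hJ x).symm))

omit [CharZero K] in
/-- `J` is bijective, `r` is injective with image the stabiliser of `j`, and its inverse `q` is
continuous on the stabiliser (`continuous_gal`). -/
theorem em_link (j : Em K M) : ∃ (J : AlgebraicClosure K ≃+* AlgebraicClosure M) (r : Gm M → Gm K)
    (q : Gm K → Gm M), (∀ x, J (j.hom x) = algebraMap M _ x) ∧ (∀ g x, J (r g x) = g (J x)) ∧
      (∀ g, r g ∈ stabilizer (Gm K) j) ∧ (∀ g ∈ stabilizer (Gm K) j, ∀ x, q g (J x) = J (g x)) ∧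
      Continuous r ∧ Continuous fun g : stabilizer (Gm K) j => q g := by
  obtain ⟨J, hJ⟩ := a3_exJ j
  have hK : ∀ a, J (algebraMap K _ a) = algebraMap M _ (algebraMap K M a) := fun a => by
    rw [← j.hom.commutes a, hJ]
  let r : Gm M → Gm K := fun g =>
    AlgEquiv.ofRingEquiv (f := J.trans (g.toRingEquiv.trans J.symm)) fun a => by
      change J.symm (g (J _)) = _
      rw [hK, g.commutes, ← hK, J.symm_apply_apply]
  let q : Gm K → Gm M := fun g => if h : g ∈ stabilizer (Gm K) j then
    AlgEquiv.ofRingEquiv (f := J.symm.trans (g.toRingEquiv.trans J)) fun a => by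
      change J (g (J.symm _)) = _
      rw [← hJ, J.symm_apply_apply, ← Em.smul_hom, mem_stabilizer_iff.1 h] else 1
  have hr : ∀ g x, J (r g x) = g (J x) := fun g x => J.apply_symm_apply _
  have hq : ∀ g ∈ stabilizer (Gm K) j, ∀ y, q g y = J (g (J.symm y)) := fun g hg y => by
    simp only [q, dif_pos hg]
    rfl
  refine ⟨J, r, q, hJ, hr, a3_stab (φ := RingHom.id M) (J := (J : _ →+* _)) hJ hr,
    fun g hg x => by rw [hq g hg, J.symm_apply_apply],
    continuous_gal fun a => (lc_apply (J a)).comp J.symm, continuous_gal fun a => ?_⟩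
  have e : (fun g : stabilizer (Gm K) j => q g a) = fun g => J (g.1 (J.symm a)) :=
    funext fun g => hq g g.2 a
  rw [e]
  exact ((lc_apply (J.symm a)).comp_continuous continuous_subtype_val).comp J

section pair

variable {G G' E E' : Type} [Group G] [Group G'] [Field E] [Field E'] [MulSemiringAction G E]
  [MulSemiringAction G' E'] [FaithfulSMul G E] {j : E →+* E'} {r : G' → G}

/-- the map on units -/
abbrev a3_um (j : E →+* E') : Eˣ →* E'ˣ := Units.map (j : E →* E')

theorem a3_pull_coc (h : ∀ g x, j (r g • x) = g • j x) {H : Subgroup G} (hm : ∀ g, r g ∈ H)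
    {c : G × G → Eˣ} (hc : CocOn H c) : IsMulCocycle₂ (pull j r c) := fun g g' k => by
  simp only [pull, lk_mul h, ← lk_units h, ← map_mul]
  rw [hc _ (hm _) _ (hm _) _ (hm _)]

theorem a3_pull_dd (h : ∀ g x, j (r g • x) = g • j x) (c : G × G → Eˣ) (e : G → Eˣ) (p : G' × G') :
    a3_um j (c (r p.1, r p.2) * dd e (r p.1, r p.2)) =
      (pull j r c * dd fun g => a3_um j (e (r g))) p := by
  rw [← pull_dd h, ← pull_mul]
  rfl

end pair

omit [CharZero K] [FiniteDimensional K M] in
theorem a3_cocOn (hb : IsMulCocycle₂ b) (j : Em K M) :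
    CocOn (stabilizer (Gm K) j) fun p => b p j := fun g hg g' _ k _ => by
  have h := congrFun (hb g g' k) j
  rwa [Ind.mul_apply, Ind.mul_apply, Ind.smul_apply, mem_stabilizer_iff.1 (inv_mem hg)] at h

section link

variable {J : AlgebraicClosure K ≃+* AlgebraicClosure M} {r : Gm M → Gm K} {q : Gm K → Gm M}
  {H : Subgroup (Gm K)}

omit [Algebra K M] [CharZero K] [FiniteDimensional K M]

theorem a3_rq (hr : ∀ g x, J (r g x) = g (J x)) (hq : ∀ g ∈ H, ∀ x, q g (J x) = J (g x))
    {g : Gm K} (hg : g ∈ H) : r (q g) = g :=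
  AlgEquiv.ext fun x => J.injective (by rw [hr, hq g hg])

theorem a3_qr (hr : ∀ g x, J (r g x) = g (J x)) (hq : ∀ g ∈ H, ∀ x, q g (J x) = J (g x))
    {g : Gm M} (hg : r g ∈ H) : q (r g) = g :=
  AlgEquiv.ext fun y => by
    obtain ⟨x, rfl⟩ := J.surjective y
    rw [hq _ hg, hr]

theorem a3_qmul (hq : ∀ g ∈ H, ∀ x, q g (J x) = J (g x)) {g h : Gm K} (hg : g ∈ H) (hh : h ∈ H) :
    q (g * h) = q g * q h :=
  AlgEquiv.ext fun y => by
    obtain ⟨x, rfl⟩ := J.surjective y
    rw [hq _ (mul_mem hg hh), AlgEquiv.mul_apply, AlgEquiv.mul_apply, hq _ hh, hq _ hg]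

theorem a3_qsmul (hq : ∀ g ∈ H, ∀ x, q g (J x) = J (g x)) {g : Gm K} (hg : g ∈ H)
    (u : (AlgebraicClosure M)ˣ) :
    a3_um (J.symm : AlgebraicClosure M →+* AlgebraicClosure K) (q g • u) =
      g • a3_um (J.symm : AlgebraicClosure M →+* AlgebraicClosure K) u :=
  Units.ext (J.injective (by
    change J (J.symm (q g u)) = J (g (J.symm u))
    rw [← hq g hg, J.apply_symm_apply, J.apply_symm_apply]))

theorem a3_qcont (hc : Continuous fun g : H => q g) {X : Type} [TopologicalSpace X]
    {f : X → Gm K} (hf : Continuous f) (hm : ∀ x, f x ∈ H) : Continuous fun x => q (f x) :=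
  hc.comp (hf.subtype_mk hm)

end link

omit [CharZero K] in
theorem a3_lc_smul {X : Type} [TopologicalSpace X] {f : X → Gm K} (hf : Continuous f)
    {u : X → Em K M} (hu : IsLocallyConstant u) : IsLocallyConstant fun x => f x • u x :=
  ((lc_pi (f := fun x (s : Em K M) => f x • s) fun s => (em_lc s).comp_continuous hf).prodMk
    hu).comp fun p => p.1 p.2

omit [CharZero K] in
theorem a3_rh (T : Sec (Gm K) (Em K M)) {X : Type} [TopologicalSpace X] {f : X → Gm K}
    (hf : Continuous f) {u : X → Em K M} (hu : IsLocallyConstant u) :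
    Continuous fun x => T.rh (f x) (u x) :=
  (hu.comp T.t).continuous.inv.mul (hf.mul ((a3_lc_smul hf.inv hu).comp T.t).continuous)

theorem shap_cmp_mem (hb : IsMulCocycle₂ b) (hl : IsLocallyConstant b) {L : Type} [Field L]
    {φ : M →+* L} {j : Em K M} {J : AlgebraicClosure K →+* AlgebraicClosure L} {r : Gm L → Gm K}
    (hJ : ∀ x, J (j.hom x) = algebraMap L _ (φ x)) (hr : ∀ g x, J (r g x) = g (J x)) :
    (pull J r fun p => b p j) ∈ Z2 L (AlgebraicClosure L) := by
  have hk := a3_lk hJ hr
  obtain ⟨s, hs⟩ := hk.locConst (locConst_two.2 hl)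
  exact ⟨a3_pull_coc hr (a3_stab hJ hr) (a3_cocOn hb j), s, fun g g' e => congrArg
    (fun a : Ind (AlgebraicClosure K)ˣ (Em K M) => a3_um J (a j)) (hs g g' e)⟩

/-- One component is enough. For another triple `(j', J', r')` there is `σ` with `J' = J ∘ σ`
(both maps are bijective; `σ = J⁻¹ J'` fixes `K`), then `j = σ j'`, `r' g = σ⁻¹ (r g) σ`;
`ind_conj`. -/
theorem shap_of_cmp (hb : IsMulCocycle₂ b) (hl : IsLocallyConstant b) {j : Em K M}
    {J : AlgebraicClosure K →+* AlgebraicClosure M} {r : Gm M → Gm K}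
    (hJ : ∀ x, J (j.hom x) = algebraMap M _ x) (hr : ∀ g x, J (r g x) = g (J x))
    (h : β = cl M _ (pull J r fun p => b p j)) : Shap b β := by
  have : CharZero M := charZero_of_injective_ringHom (algebraMap K M).injective
  refine ⟨hb, locConst_two.2 hl, fun j' J' r' hJ' hr' => ?_⟩
  have hk := a3_lk (φ := RingHom.id M) hJ hr
  have hk' := a3_lk (φ := RingHom.id M) hJ' hr'
  let σ : Gm K := AlgEquiv.ofRingEquiv (f := (RingEquiv.ofBijective J' (a3_bij hJ')).trans
    (RingEquiv.ofBijective J (a3_bij hJ)).symm) fun a => J.injective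
      (((RingEquiv.ofBijective J (a3_bij hJ)).apply_symm_apply _).trans
        ((hk'.base a).trans (hk.base a).symm))
  have hσ : ∀ x, J (σ x) = J' x := fun x =>
    (RingEquiv.ofBijective J (a3_bij hJ)).apply_symm_apply _
  have e1 : j' = σ⁻¹ • j := eq_inv_smul_iff.2
    (AlgHom.ext fun x => J.injective ((hσ (j'.hom x)).trans ((hJ' x).trans (hJ x).symm)))
  have e2 : ∀ g, r' g = σ⁻¹ * r g * σ := fun g => by
    rw [mul_assoc, eq_inv_mul_iff_mul_eq]
    exact AlgEquiv.ext fun x => J.injective (by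
      rw [AlgEquiv.mul_apply, AlgEquiv.mul_apply, hσ, hr', hr, hσ])
  have e3 : (pull J' r' fun p => b p j') = (pull J r fun p => b p j) *
      dd fun g => a3_um J (conjE b σ (r g) j) := funext fun p => by
    refine Eq.trans ?_ ((congrArg (a3_um J) (ind_conj hb σ (a3_stab (φ := RingHom.id M) hJ hr p.1)
      (a3_stab (φ := RingHom.id M) hJ hr p.2))).trans
        (a3_pull_dd hr (fun p => b p j) (fun x => conjE b σ x j) p))
    rw [← e2, ← e2, ← e1]
    exact Units.ext (hσ _).symm
  have hc := hk.continuous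
  rw [e3, (cl_mul_dd (shap_cmp_mem (φ := RingHom.id M) hb hl hJ hr) ?_).2, h]
  exact ((hl.comp_continuous (continuous_const.prodMk
    ((continuous_const.mul hc).mul continuous_const))).div
      (hl.comp_continuous (hc.prodMk continuous_const))).comp
    fun a : Ind (AlgebraicClosure K)ˣ (Em K M) => a3_um J (a j)

/-- Transport a cocycle of `β` to the stabiliser of `rep j` by `em_link`, induce (`Sec.ind_coc`,
`Sec.ind_stab`, `CocOn.conj`); all `rep j` are equal by `em_trans`. -/
theorem exists_shap (β : BR M) : ∃ b, Shap (K := K) b β := by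
  have : CharZero M := charZero_of_injective_ringHom (algebraMap K M).injective
  obtain ⟨c, hc, rfl⟩ := exists_cl β
  obtain ⟨hc1, hc2⟩ := mem_Z2.1 hc
  obtain ⟨T⟩ := exists_sec (Gm K) (Em K M)
  choose J r q hJ hr hm hq cr cq using em_link (K := K) (M := M)
  let a : Em K M → Gm K × Gm K → (AlgebraicClosure K)ˣ := fun s =>
    pull ((J s).symm : _ →+* _) (q s) c
  have ha : ∀ s, CocOn (stabilizer (Gm K) s) (a s) := fun s g hg g' hg' k hk => by
    simp only [a, pull, a3_qmul (hq s) hg hg', a3_qmul (hq s) hg' hk, ← a3_qsmul (hq s) hg,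
      ← map_mul]
    rw [hc1]
  have hl : ∀ s {X : Type} [TopologicalSpace X] {f f' : X → Gm K}, Continuous f → Continuous f' →
      (∀ x, f x ∈ stabilizer (Gm K) s) → (∀ x, f' x ∈ stabilizer (Gm K) s) →
      IsLocallyConstant fun x => a s (f x, f' x) := fun s X _ f f' h1 h2 m1 m2 =>
    (hc2.comp_continuous ((a3_qcont (cq s) h1 m1).prodMk (a3_qcont (cq s) h2 m2))).comp
      (a3_um ((J s).symm : AlgebraicClosure M →+* AlgebraicClosure K))
  have hb := T.ind_coc (b := a) fun s => ha _
  have hlb : IsLocallyConstant (T.ind a) := lc_pi fun s =>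
    (hl (T.rep s) (a3_rh T continuous_fst (IsLocallyConstant.const s))
      (a3_rh T continuous_snd (a3_lc_smul continuous_fst.inv (IsLocallyConstant.const s)))
      (fun p => T.rh_mem _ _) fun p => T.rep_smul p.1⁻¹ s ▸ T.rh_mem _ _).comp (T.t s • ·)
  let j0 : Em K M := (IsAlgClosed.lift : M →ₐ[K] AlgebraicClosure K)
  obtain ⟨j, hj⟩ : ∃ j, T.rep j = j := ⟨_, T.rep_rep j0⟩
  have ht : T.t j ∈ stabilizer (Gm K) j := by
    have := T.t_smul j
    rwa [hj] at this
  refine ⟨T.ind a, shap_of_cmp hb hlb (J := (J j : _ →+* _)) (hJ j) (hr j) ?_⟩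
  have e : (pull (J j : _ →+* _) (r j) fun p => T.ind a p j) = c *
      dd fun g => a3_um (J j : _ →+* _) (conjE (a j) (T.t j) (r j g)) := by
    have e0 : c = pull (J j : _ →+* _) (r j) (a j) := funext fun p => by
      simp only [a, pull, a3_qr (hr j) (hq j) (hm j _)]
      exact Units.ext ((J j).apply_symm_apply _).symm
    funext p
    have e1 := T.ind_stab a (hm j p.1) (hm j p.2)
    rw [hj, (ha j).conj ht (hm j p.1) (hm j p.2)] at e1
    have e2 := a3_pull_dd (j := (J j : AlgebraicClosure K →+* AlgebraicClosure M)) (r := r j)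
      (hr j) (a j) (conjE (a j) (T.t j)) p
    rw [← e0] at e2
    exact (congrArg (a3_um (J j : AlgebraicClosure K →+* AlgebraicClosure M)) e1).trans e2
  rw [e, (cl_mul_dd hc ?_).2]
  exact ((hl j continuous_const ((continuous_const.mul (cr j)).mul continuous_const) (fun _ => ht)
    fun g => mul_mem (mul_mem (inv_mem ht) (hm j g)) ht).div
      (hl j (cr j) continuous_const (hm j) fun _ => ht)).comp (a3_um _)

theorem Shap.prod_mem (h : Shap b β) : (fun p => ∏ j, b p j) ∈ Z2 K (AlgebraicClosure K) :=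
  mem_Z2.2 ⟨ind_prod_coc h.coc, (locConst_two.1 h.lc).comp
    fun a : Ind (AlgebraicClosure K)ˣ (Em K M) => ∏ j, a j⟩

theorem Shap.mul (h : Shap b β) (h' : Shap b' β') : Shap (b * b') (β + β') := by
  have l := locConst_two.1 h.lc
  have l' := locConst_two.1 h'.lc
  refine ⟨coc_mul h.coc h'.coc, locConst_two.2 (l.mul l'), fun j J r hJ hr => ?_⟩
  rw [h.cmp j J r hJ hr, h'.cmp j J r hJ hr, ← cl_mul
    (shap_cmp_mem (φ := RingHom.id M) h.coc l hJ hr)
    (shap_cmp_mem (φ := RingHom.id M) h'.coc l' hJ hr), ← pull_mul]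
  rfl

theorem Shap.div (h : Shap b β) (h' : Shap b' β') : Shap (b / b') (β - β') := by
  have l := locConst_two.1 h.lc
  have l' := locConst_two.1 h'.lc
  refine ⟨coc_div h.coc h'.coc, locConst_two.2 (l.div l'), fun j J r hJ hr => ?_⟩
  rw [h.cmp j J r hJ hr, h'.cmp j J r hJ hr, ← cl_div
    (shap_cmp_mem (φ := RingHom.id M) h.coc l hJ hr)
    (shap_cmp_mem (φ := RingHom.id M) h'.coc l' hJ hr)]
  exact congrArg _ (funext fun p => (map_div _ _ _).symm)

/-- `em_link`, `cl_eq_zero`, `Sec.dd_hom`, `ind_prod_dd`; the homotopy is locally constant. -/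
theorem Shap.zero (h : Shap b 0) : cl K _ (fun p => ∏ j, b p j) = 0 := by
  have : CharZero M := charZero_of_injective_ringHom (algebraMap K M).injective
  have l := locConst_two.1 h.lc
  obtain ⟨T⟩ := exists_sec (Gm K) (Em K M)
  choose J r q hJ hr hm hq cr cq using em_link (K := K) (M := M)
  choose e he hd using fun s => mem_B2.1 ((cl_eq_zero (shap_cmp_mem (φ := RingHom.id M) h.coc l
    (J := (J s : _ →+* _)) (hJ s) (hr s))).1 (h.cmp s (J s : _ →+* _) (r s) (hJ s) (hr s)).symm)
  let e' : Em K M → Gm K → (AlgebraicClosure K)ˣ := fun s g =>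
    a3_um ((J s).symm : _ →+* _) (e s (q s g))
  have h1 : ∀ s, ∀ g ∈ stabilizer (Gm K) s, ∀ g' ∈ stabilizer (Gm K) s,
      b (g, g') s = dd (e' s) (g, g') := fun s g hg g' hg' => by
    have h2 := congrFun (hd s) (q s g, q s g')
    simp only [pull, a3_rq (hr s) (hq s) hg, a3_rq (hr s) (hq s) hg', dd_apply] at h2
    simp only [e', dd_apply, a3_qmul (hq s) hg hg', ← a3_qsmul (hq s) hg, ← map_div, ← map_mul]
    rw [← h2]
    exact Units.ext ((J s).symm_apply_apply _).symm
  have h3 := T.dd_hom h.coc (e := e') fun s => h1 _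
  refine (cl_eq_zero h.prod_mem).2 (mem_B2.2 ⟨fun g => ∏ s, T.hom b e' g s, ?_, ?_⟩)
  · refine (lc_pi (f := T.hom b e') fun s => ?_).comp fun a : Em K M → _ => ∏ s, a s
    have c1 := a3_rh T continuous_id (IsLocallyConstant.const s)
    have c2 := ((a3_lc_smul continuous_id.inv (IsLocallyConstant.const s)).comp T.t).continuous
    exact (((l.comp_continuous (continuous_id.prodMk c2)).comp
      fun a : Ind (AlgebraicClosure K)ˣ (Em K M) => a s).div
      ((l.comp_continuous (continuous_const.prodMk c1)).comp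
        fun a : Ind (AlgebraicClosure K)ˣ (Em K M) => a s)).mul
      ((((he (T.rep s)).comp_continuous (a3_qcont (cq _) c1 fun g => T.rh_mem g s)).comp
        (a3_um _)).comp (T.t s • ·))
  · rw [← ind_prod_dd, ← h3]

theorem Shap.corF_eq (h : Shap b β) : corF K M β = cl K _ fun p => ∏ j, b p j := by
  obtain ⟨b', h', e⟩ := Classical.epsilon_spec
    (p := fun a => ∃ b, Shap b β ∧ a = cl K _ fun p => ∏ j, b p j) ⟨_, b, h, rfl⟩
  have h0 := h'.div h
  rw [show β - β = 0 from sub_self β] at h0
  have h1 := h0.zero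
  rw [show (fun p => ∏ j, (b' / b) p j) = (fun p => ∏ j, b' p j) / fun p => ∏ j, b p j from
    funext fun p => Finset.prod_div_distrib _ _, cl_div h'.prod_mem h.prod_mem] at h1
  exact e.trans (sub_eq_zero.1 h1)

theorem corF_add (β β' : BR M) : corF K M (β + β') = corF K M β + corF K M β' := by
  obtain ⟨b, h⟩ := exists_shap (K := K) β
  obtain ⟨b', h'⟩ := exists_shap (K := K) β'
  rw [(h.mul h').corF_eq, h.corF_eq, h'.corF_eq, ← cl_mul h.prod_mem h'.prod_mem]
  exact congrArg _ (funext fun p => Finset.prod_mul_distrib)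

variable (K M) in
/-- corestriction -/
noncomputable def cor : BR M →+ BR K := AddMonoidHom.mk' (corF K M) corF_add

theorem cor_apply (β : BR M) : cor K M β = corF K M β := rfl

/-- components after a restriction: factor `J` through the bijection of `em_link` -/
theorem Shap.cmp_rs (h : Shap b β) {L : Type} [Field L] {φ : M →+* L} {j : Em K M}
    {J : AlgebraicClosure K →+* AlgebraicClosure L} {r : Gm L → Gm K}
    (hJ : ∀ x, J (j.hom x) = algebraMap L _ (φ x)) (hr : ∀ g x, J (r g x) = g (J x)) :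
    rs φ β = cl L _ (pull J r fun p => b p j) := by
  have : CharZero M := charZero_of_injective_ringHom (algebraMap K M).injective
  obtain ⟨J0, r0, q, hJ0, hr0, -, hq, -, -⟩ := em_link j
  have hk : Lk φ (J.comp (J0.symm : _ →+* _)) fun g => q (r g) := by
    refine ⟨fun a => ?_, fun g y => ?_⟩
    · rw [← hJ0, ← hJ]
      exact congrArg J (J0.symm_apply_apply _)
    · obtain ⟨x, rfl⟩ := J0.surjective y
      rw [hq _ (a3_stab hJ hr g)]
      change J (J0.symm (J0 _)) = g (J (J0.symm (J0 _)))
      rw [J0.symm_apply_apply, J0.symm_apply_apply, hr]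
  rw [h.cmp j (J0 : _ →+* _) r0 hJ0 hr0, hk.res_cl (shap_cmp_mem (φ := RingHom.id M) h.coc
    (locConst_two.1 h.lc) (J := (J0 : _ →+* _)) hJ0 hr0)]
  refine congrArg _ (funext fun p => ?_)
  simp only [pull, a3_rq hr0 hq (a3_stab hJ hr _)]
  exact Units.ext (congrArg J (J0.symm_apply_apply _))

end Pool.Agent.ZCy
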