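import Pool.Agent.Lib.MP_751085_ag.ZC.A3

/-! The corestriction of the statement; the double coset formula. -/

namespace Pool.Agent.ZCy

open scoped Classical
open groupCohomology MulAction

instance midAlgClosure {L : Type} [Field L] (M : IntermediateField L (AlgebraicClosure L)) :
    IsAlgClosure M (AlgebraicClosure L) := ⟨inferInstance, inferInstance⟩

variable {K K' M : Type} [Field K] [Field K'] [Field M] [Algebra K M] [CharZero K] [CharZero K']
  [FiniteDimensional K M]

/-- an element of the fixing subgroup as an automorphism over the subfield -/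
noncomputable def a3b_q {Ω : Type} [Field Ω] [Algebra K Ω] (M : IntermediateField K Ω)
    (g : Ω ≃ₐ[K] Ω) : Ω ≃ₐ[M] Ω :=
  if h : g ∈ M.fixingSubgroup then M.fixingSubgroupEquiv ⟨g, h⟩ else 1

omit [CharZero K] in
theorem a3b_q_apply {Ω : Type} [Field Ω] [Algebra K Ω] (M : IntermediateField K Ω)
    {g : Ω ≃ₐ[K] Ω} (h : g ∈ M.fixingSubgroup) (x : Ω) : a3b_q M g x = g x := by
  rw [a3b_q, dif_pos h]
  rfl

omit [CharZero K] in
theorem a3b_q_mul {Ω : Type} [Field Ω] [Algebra K Ω] (M : IntermediateField K Ω)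
    {g g' : Ω ≃ₐ[K] Ω} (h : g ∈ M.fixingSubgroup) (h' : g' ∈ M.fixingSubgroup) :
    a3b_q M (g * g') = a3b_q M g * a3b_q M g' := AlgEquiv.ext fun x => by
  rw [a3b_q_apply M (mul_mem h h'), AlgEquiv.mul_apply, AlgEquiv.mul_apply, a3b_q_apply M h,
    a3b_q_apply M h']

omit [CharZero K] in
theorem a3b_q_inv {Ω : Type} [Field Ω] [Algebra K Ω] (M : IntermediateField K Ω)
    {g : Ω ≃ₐ[K] Ω} (h : g ∈ M.fixingSubgroup) : a3b_q M g⁻¹ = (a3b_q M g)⁻¹ := by
  refine eq_inv_of_mul_eq_one_left ?_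
  rw [← a3b_q_mul M (inv_mem h) h, inv_mul_cancel]
  exact AlgEquiv.ext fun x => a3b_q_apply M (one_mem _) x

omit [CharZero K] in
theorem a3b_q_smul {Ω : Type} [Field Ω] [Algebra K Ω] (M : IntermediateField K Ω)
    {g : Ω ≃ₐ[K] Ω} (h : g ∈ M.fixingSubgroup) (u : Ωˣ) : a3b_q M g • u = g • u :=
  Units.ext (a3b_q_apply M h u)

omit [CharZero K] in
theorem a3b_res_mem {Ω : Type} [Field Ω] [Algebra K Ω] (M : IntermediateField K Ω)
    (g : Ω ≃ₐ[M] Ω) : g.restrictScalars K ∈ M.fixingSubgroup :=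
  (IntermediateField.mem_fixingSubgroup_iff _ _).2 fun x hx => g.commutes ⟨x, hx⟩

omit [CharZero K] in
theorem a3b_q_res {Ω : Type} [Field Ω] [Algebra K Ω] (M : IntermediateField K Ω)
    (g : Ω ≃ₐ[M] Ω) : a3b_q M (g.restrictScalars K) = g :=
  AlgEquiv.ext fun x => a3b_q_apply M (a3b_res_mem M g) x

/-- the inclusion as an embedding -/
noncomputable def a3b_j (M : IntermediateField K (AlgebraicClosure K)) : Em K M := M.val

omit [CharZero K] in
theorem a3b_stab (M : IntermediateField K (AlgebraicClosure K)) :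
    stabilizer (Gm K) (a3b_j M) = M.fixingSubgroup := by
  ext g
  rw [mem_stabilizer_iff, IntermediateField.mem_fixingSubgroup_iff]
  exact ⟨fun h x hx => congrArg (fun j : Em K M => j.hom ⟨x, hx⟩) h,
    fun h => AlgHom.ext fun x => h x x.2⟩

omit [CharZero K] in
theorem a3b_out (M : IntermediateField K (AlgebraicClosure K)) (g : Gm K) :
    (g : Gm K ⧸ M.fixingSubgroup).out • a3b_j M = g • a3b_j M := by
  obtain ⟨h, hh⟩ := QuotientGroup.mk_out_eq_mul M.fixingSubgroup g
  have h2 : (h : Gm K) ∈ stabilizer (Gm K) (a3b_j M) := by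
    rw [a3b_stab]
    exact h.2
  rw [hh, mul_smul, mem_stabilizer_iff.1 h2]

omit [CharZero K] in
theorem a3b_equiv (M : IntermediateField K (AlgebraicClosure K)) :
    ∃ e : (Gm K ⧸ M.fixingSubgroup) ≃ Em K M, (∀ y, e y = y.out • a3b_j M) ∧
      ∀ (g : Gm K) y, e (g • y) = g • e y := by
  refine ⟨Equiv.ofBijective (fun y => y.out • a3b_j M) ⟨fun y y' h => ?_, fun j => ?_⟩,
    fun _ => rfl, fun g y => ?_⟩
  · have h1 : y.out⁻¹ * y'.out ∈ stabilizer (Gm K) (a3b_j M) := by
      rw [mem_stabilizer_iff, mul_smul, inv_smul_eq_iff]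
      exact h.symm
    rw [← QuotientGroup.out_eq' y, ← QuotientGroup.out_eq' y', QuotientGroup.eq]
    exact (a3b_stab M).le h1
  · obtain ⟨g, hg⟩ := em_trans (a3b_j M) j
    exact ⟨g, (a3b_out M g).trans hg⟩
  · induction y using QuotientGroup.induction_on with
    | H a =>
      show (g • (a : Gm K ⧸ M.fixingSubgroup)).out • a3b_j M =
        g • (a : Gm K ⧸ M.fixingSubgroup).out • a3b_j M
      rw [MulAction.Quotient.smul_mk, a3b_out, a3b_out, smul_eq_mul, mul_smul]

/-- Let `j₀` be the inclusion. `y ↦ y.out • j₀` is an equivariant bijection from the cosets to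
`Em K M`; it gives `T : Sec` with `rep = j₀`, `t (y.out • j₀) = y.out`. With
`b₀ (g, h) = β.out (g, h)` for `g, h` in `M.fixingSubgroup` the integrand of `cores` at `y` is
`T.ind b₀ (g, h)` at `(g h y).out • j₀`; reindex the product. `shap_of_cmp` at `j₀` with the link
of `res (RingHom.id M)`, `Sec.ind_stab`, `CocOn.conj`. -/
theorem cores_eq (M : IntermediateField K (AlgebraicClosure K)) [FiniteDimensional K M]
    (β : Br M (AlgebraicClosure K)) : cores M β = cor K M (res (RingHom.id M) β) := by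
  have : CharZero M := charZero_of_injective_ringHom (algebraMap K M).injective
  obtain ⟨e, he, hs⟩ := a3b_equiv M
  let T : Sec (Gm K) (Em K M) :=
    { rep := fun _ => a3b_j M
      t := fun s => (e.symm s).out
      t_smul := fun s => (he _).symm.trans (e.apply_symm_apply s)
      rep_smul := fun _ _ => rfl }
  have hTt : ∀ y, T.t (e y) = y.out := fun y => congrArg Quotient.out (e.symm_apply_apply y)
  have hmem : ∀ g s, T.rh g s ∈ M.fixingSubgroup := fun g s => by
    rw [← a3b_stab]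
    exact T.rh_mem g s
  obtain ⟨c, hc⟩ : ∃ c, c = (β.toMul.out).1 := ⟨_, rfl⟩
  have hcZ : c ∈ Z2 M (AlgebraicClosure K) := hc ▸ (β.toMul.out).2
  have hcβ : cl M _ c = β := hc ▸ cl_out β
  have hcl : IsLocallyConstant c := (mem_Z2.1 hcZ).2
  let b₀ : Gm K × Gm K → (AlgebraicClosure K)ˣ := fun p => c (a3b_q M p.1, a3b_q M p.2)
  have hB : IsMulCocycle₂ (T.ind fun _ => b₀) := by
    refine T.ind_coc fun s g hg g' hg' k hk => ?_
    replace hg : g ∈ M.fixingSubgroup := a3b_stab M ▸ hg
    replace hg' : g' ∈ M.fixingSubgroup := a3b_stab M ▸ hg'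
    replace hk : k ∈ M.fixingSubgroup := a3b_stab M ▸ hk
    simp only [b₀]
    rw [a3b_q_mul M hg hg', a3b_q_mul M hg' hk, ← a3b_q_smul M hg]
    exact hcZ.1 _ _ _
  have hBl : IsLocallyConstant (T.ind fun _ => b₀) := by
    refine lc_pi fun s => ?_
    have key : ∀ {f : Gm K × Gm K → Gm K} {u : Gm K × Gm K → Em K M}, Continuous f →
        IsLocallyConstant u → IsLocallyConstant (fun p => (f p)⁻¹ • u p) →
        Continuous fun p => a3b_q M (T.rh (f p) (u p)) := by
      intro f u hf hu hu'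
      refine continuous_gal fun a => ?_
      simp only [a3b_q_apply M (hmem _ _)]
      refine (lc_apply a).comp_continuous (f := fun p => T.rh (f p) (u p)) ?_
      exact (hu.comp T.t).continuous.inv.mul (hf.mul (hu'.comp T.t).continuous)
    have l1 : IsLocallyConstant fun p : Gm K × Gm K => p.1⁻¹ • s :=
      (em_lc s).comp_continuous continuous_fst.inv
    have l2 : IsLocallyConstant fun p : Gm K × Gm K => p.2⁻¹ • p.1⁻¹ • s := by
      simp only [← mul_smul]
      exact (em_lc s).comp_continuous (continuous_snd.inv.mul continuous_fst.inv)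
    exact (hcl.comp_continuous ((key continuous_fst (IsLocallyConstant.const s) l1).prodMk
      (key continuous_snd l1 l2))).comp fun a => T.t s • a
  obtain ⟨J, r, hJ⟩ := exists_lk (Ω := AlgebraicClosure K) (Ω' := AlgebraicClosure M)
    (RingHom.id M)
  have ht : T.t (a3b_j M) ∈ M.fixingSubgroup := by
    rw [← a3b_stab]
    exact T.t_smul (a3b_j M)
  have hlc : IsLocallyConstant (conjE c (a3b_q M (T.t (a3b_j M)))) :=
    (hcl.comp_continuous (continuous_const.prodMk
      ((continuous_const.mul continuous_id).mul continuous_const))).div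
      (hcl.comp_continuous (continuous_id.prodMk continuous_const))
  obtain ⟨m1, m2⟩ := cl_mul_dd hcZ hlc
  have hS : Shap (T.ind fun _ => b₀) (res (RingHom.id M) β) := by
    refine shap_of_cmp hB hBl (j := a3b_j M) (J := J) (r := fun g => (r g).restrictScalars K)
      (fun x => hJ.base x) (fun g x => hJ.comm g x) ?_
    rw [← hcβ, ← m2, hJ.res_cl m1]
    congr 1
    funext p
    have s1 : ∀ g, (r g).restrictScalars K ∈ stabilizer (Gm K) (a3b_j M) := fun g => by
      rw [a3b_stab]
      exact a3b_res_mem M _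
    have s2 : ∀ g, a3b_q M ((T.t (a3b_j M))⁻¹ * (r g).restrictScalars K * T.t (a3b_j M)) =
        (a3b_q M (T.t (a3b_j M)))⁻¹ * r g * a3b_q M (T.t (a3b_j M)) := fun g => by
      rw [a3b_q_mul M (mul_mem (inv_mem ht) (a3b_res_mem M _)) ht,
        a3b_q_mul M (inv_mem ht) (a3b_res_mem M _), a3b_q_inv M ht, a3b_q_res]
    simp only [pull]
    rw [T.ind_stab _ (s1 _) (s1 _)]
    simp only [b₀]
    rw [s2, s2, ← a3b_q_smul M ht,
      (coc_iff.1 hcZ.1).conj (Subgroup.mem_top _) (Subgroup.mem_top _) (Subgroup.mem_top _)]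
    rfl
  rw [cor_apply, hS.corF_eq, cores, ← hc]
  congr 1
  funext p
  have : Fintype (Gm K ⧸ M.fixingSubgroup) := Fintype.ofEquiv _ e.symm
  rw [finprod_eq_prod_of_fintype]
  refine Fintype.prod_equiv ((MulAction.toPerm (p.1 * p.2)).trans e) _ _ fun y => ?_
  have k1 : ∀ (g : Gm K) y, a3b_q M (T.rh g (e (g • y))) = rho M g y := fun g y => by
    refine AlgEquiv.ext fun x => ?_
    rw [a3b_q_apply M (hmem _ _), Sec.rh, hTt, hs, inv_smul_smul, hTt]
    rfl
  show _ = T.t (e ((p.1 * p.2) • y)) • c (a3b_q M (T.rh p.1 (e ((p.1 * p.2) • y))),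
    a3b_q M (T.rh p.2 (p.1⁻¹ • e ((p.1 * p.2) • y))))
  rw [hTt, mul_smul, k1, hs p.1, inv_smul_smul, k1]

omit [CharZero K] [CharZero K'] in
/-- an embedding over `γ` factors through the link -/
theorem a3b_lift {γ : K →+* K'} {J : AlgebraicClosure K →+* AlgebraicClosure K'}
    (hJ : ∀ a, J (algebraMap K _ a) = algebraMap K' _ (γ a)) (τ : M →+* AlgebraicClosure K')
    (hτ : ∀ a, τ (algebraMap K M a) = algebraMap K' _ (γ a)) :
    ∃ u : Em K M, ∀ x, J (u.hom x) = τ x := by
  let : Algebra K (AlgebraicClosure K') := ((algebraMap K' _).comp γ).toAlgebra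
  let J' : AlgebraicClosure K →ₐ[K] AlgebraicClosure K' := { J with commutes' := hJ }
  let τ' : M →ₐ[K] AlgebraicClosure K' := { τ with commutes' := hτ }
  have hr : ∀ x, τ' x ∈ J'.range := fun x =>
    ((Algebra.IsIntegral.isIntegral (R := K) x).map τ').mem_range_algHom_of_minpoly_splits
      (IsAlgClosed.splits _) J'
  have hi : Function.Injective J' := J.injective
  refine ⟨((AlgEquiv.ofInjective J' hi).symm : J'.range →ₐ[K] _).comp (τ'.codRestrict _ hr),
    fun x => ?_⟩
  exact congrArg Subtype.val ((AlgEquiv.ofInjective J' hi).apply_symm_apply ⟨τ' x, hr x⟩)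

/-- Fix a link `(J, r)` over `γ` and `b` with `Shap b β`. For `ψ : Em K' (M' i)` let `u ψ` be the
embedding with `J ∘ u ψ = ψ ∘ φ i`. Then `b' p ψ = J (b (r p.1, r p.2) (u ψ))` satisfies
`Shap b' (rs (φ i) β)` by `Shap.cmp_rs`; regroup the product by fibres (`Finset.prod_fiberwise`),
`cl_prod`, `cl_pow`, `Lk.res_cl`. -/
theorem cor_mk {ι : Type} [Fintype ι] (γ : K →+* K') (M' : ι → Type) [∀ i, Field (M' i)]
    [∀ i, Algebra K' (M' i)] [∀ i, FiniteDimensional K' (M' i)] (φ : ∀ i, M →+* M' i)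
    (hφ : ∀ i a, φ i (algebraMap K M a) = algebraMap K' (M' i) (γ a)) (n : ℕ)
    (h : ∀ τ : M →+* AlgebraicClosure K', (∀ a, τ (algebraMap K M a) = algebraMap K' _ (γ a)) →
      Nat.card {q : Σ i, Em K' (M' i) // ∀ x, q.2.hom (φ q.1 x) = τ x} = n) (β : BR M) :
    ∑ i, cor K' (M' i) (rs (φ i) β) = n • rs γ (cor K M β) := by
  obtain ⟨J, r, hJ⟩ := exists_lk (Ω := AlgebraicClosure K) (Ω' := AlgebraicClosure K') γ
  obtain ⟨b, hb⟩ := exists_shap (K := K) β
  have hU : ∀ i (ψ : Em K' (M' i)), ∃ u : Em K M, ∀ x, J (u.hom x) = ψ.hom (φ i x) := fun i ψ =>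
    a3b_lift hJ.base ((ψ.hom : M' i →+* AlgebraicClosure K').comp (φ i)) fun a => by
      rw [RingHom.comp_apply, hφ]
      exact ψ.hom.commutes (γ a)
  choose U hU using hU
  have hc : ∀ (g : Gm K') (x : AlgebraicClosure K), J (r g • x) = g • J x := hJ.comm
  have hu : ∀ (g : Gm K') (u : (AlgebraicClosure K)ˣ),
      Units.map (J : AlgebraicClosure K →* AlgebraicClosure K') (r g • u) =
        g • Units.map (J : AlgebraicClosure K →* AlgebraicClosure K') u :=
    fun g u => Units.ext (hJ.comm g u)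
  have hinv : ∀ g, r g⁻¹ = (r g)⁻¹ := fun g =>
    eq_inv_of_mul_eq_one_left (by rw [← lk_mul hc, inv_mul_cancel, lk_one hc])
  have hUs : ∀ i (g : Gm K') ψ, U i (g • ψ) = r g • U i ψ := fun i g ψ =>
    AlgHom.ext fun x => J.injective (by
      show J ((U i (g • ψ)).hom x) = J (r g ((U i ψ).hom x))
      rw [hU, hJ.comm, hU]
      rfl)
  let b' : ∀ i, Gm K' × Gm K' → Ind (AlgebraicClosure K')ˣ (Em K' (M' i)) := fun i p ψ =>
    Units.map (J : AlgebraicClosure K →* AlgebraicClosure K') (b (r p.1, r p.2) (U i ψ))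
  have hb' : ∀ i, Shap (b' i) (rs (φ i) β) := fun i => by
    refine ⟨fun g g' k => funext fun ψ => ?_, ?_, fun ψ J' r' h1 h2 => ?_⟩
    · have := congrFun (hb.coc (r g) (r g') (r k)) (U i ψ)
      simp only [Ind.mul_apply, Ind.smul_apply] at this ⊢
      simp only [b', lk_mul hc, hUs, hinv]
      have h2 := congrArg (Units.map (J : AlgebraicClosure K →* AlgebraicClosure K')) this
      rw [map_mul, map_mul, hu] at h2
      exact h2
    · obtain ⟨s, hs⟩ := hJ.locConst hb.lc
      exact ⟨s, fun g g' e => funext fun ψ =>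
        congrArg (fun a : Ind (AlgebraicClosure K)ˣ (Em K M) =>
          Units.map (J : AlgebraicClosure K →* AlgebraicClosure K') (a (U i ψ))) (hs g g' e)⟩
    · exact hb.cmp_rs (φ := φ i) (j := U i ψ) (J := J'.comp J) (r := fun g => r (r' g))
        (fun x => by rw [RingHom.comp_apply, hU, h1])
        (fun g x => by rw [RingHom.comp_apply, RingHom.comp_apply, hJ.comm, h2])
  rw [cor_apply, hb.corF_eq, hJ.res_cl hb.prod_mem, ← cl_pow (hJ.mem_Z2 hb.prod_mem),
    Finset.sum_congr rfl fun i _ => (cor_apply _).trans (hb' i).corF_eq,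
    ← cl_prod _ fun i _ => (hb' i).prod_mem]
  congr 1
  funext p
  have hcard : ∀ j : Em K M,
      (Finset.univ.filter fun q : Σ i, Em K' (M' i) => U q.1 q.2 = j).card = n := fun j => by
    rw [← h (J.comp (j.hom : M →+* AlgebraicClosure K)) fun a =>
      (congrArg J (j.hom.commutes a)).trans (hJ.base a), Nat.card_eq_fintype_card,
      Fintype.card_subtype]
    congr 1
    refine Finset.filter_congr fun q _ => ⟨fun e x => ?_, fun e => ?_⟩
    · rw [← hU, e]
      rfl
    · exact AlgHom.ext fun x => J.injective ((hU _ _ x).trans (e x))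
  rw [Finset.prod_apply, Pi.pow_apply, pull, map_prod, ← Finset.prod_pow,
    Finset.prod_sigma' Finset.univ (fun _ => Finset.univ) (fun i ψ => b' i p ψ),
    Finset.univ_sigma_univ,
    ← Finset.prod_fiberwise (g := fun q : Σ i, Em K' (M' i) => U q.1 q.2)]
  refine Finset.prod_congr rfl fun j _ => ?_
  rw [← hcard j, ← Finset.prod_const]
  refine Finset.prod_congr rfl fun q hq => ?_
  rw [← (Finset.mem_filter.1 hq).2]

end Pool.Agent.ZCy
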