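import Pool.Agent.Lib.MP_751085_ag.ZC.A2b
import Pool.Agent.Lib.MP_751085_ag.ZC.G3
import Pool.Agent.Lib.MP_751085_ag.ZC.A5a

/-! Tsen's theorem. -/

namespace Pool.Agent.ZCy

open scoped Classical IntermediateField
open groupCohomology

theorem a5b_mem {K F M : Type} [Field K] [Field F] [Field M] [Algebra K F] (φ : F →+* M)
    (R : Subfield M) {s : Set F} (h0 : ∀ x : K, φ (algebraMap K F x) ∈ R) (hs : ∀ x ∈ s, φ x ∈ R)
    {x : F} (hx : x ∈ IntermediateField.adjoin K s) : φ x ∈ R := by
  have h : (IntermediateField.adjoin K s).toSubfield ≤ R.comap φ := by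
    rw [IntermediateField.adjoin_toSubfield, Subfield.closure_le]
    rintro y (⟨z, rfl⟩ | hy)
    exacts [h0 z, hs y hy]
  exact h hx

theorem a5b_hom {K k F M : Type} [Field K] [Field k] [Field F] [Field M] [Algebra K F]
    [Algebra k M] (φ : F →+* M) (τ : F)
    (h : ∀ x : K, ∃ y : k, φ (algebraMap K F x) = algebraMap k M y) :
    ∃ ι : K⟮τ⟯ →+* k⟮φ τ⟯, ∀ y, algebraMap k⟮φ τ⟯ M (ι y) = φ (algebraMap K⟮τ⟯ F y) := by
  have hm : ∀ y : K⟮τ⟯, (φ.comp (algebraMap K⟮τ⟯ F)) y ∈ k⟮φ τ⟯ := fun y =>
    a5b_mem φ (k⟮φ τ⟯).toSubfield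
      (fun x => by
        obtain ⟨z, hz⟩ := h x
        rw [hz]
        exact (k⟮φ τ⟯).algebraMap_mem z)
      (by
        rintro _ rfl
        exact IntermediateField.mem_adjoin_simple_self k _) y.2
  exact ⟨(φ.comp (algebraMap K⟮τ⟯ F)).codRestrict _ hm, fun _ => rfl⟩

theorem a5b_tower {A L F M : Type} [Field A] [Field L] [Field F] [Field M] [Algebra A F]
    [Algebra F M] [Algebra L M] [FiniteDimensional A F] [FiniteDimensional F M] (ι : A →+* L)
    (h : ∀ y, algebraMap L M (ι y) = algebraMap F M (algebraMap A F y)) :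
    FiniteDimensional L M := by
  let : Algebra A L := ι.toAlgebra
  let : Algebra A M := ((algebraMap F M).comp (algebraMap A F)).toAlgebra
  have : IsScalarTower A F M := IsScalarTower.of_algebraMap_eq fun _ => rfl
  have : IsScalarTower A L M := IsScalarTower.of_algebraMap_eq fun y => (h y).symm
  have : FiniteDimensional A M := Module.Finite.trans F M
  exact Module.Finite.of_restrictScalars_finite A L M

/-- norms are onto for all finite Galois extensions of finite extensions -/
def a5b_Good (F : Type) [Field F] : Prop :=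
  ∀ (M E : Type) [Field M] [Algebra F M] [FiniteDimensional F M] [Field E] [Algebra M E]
    [FiniteDimensional M E] [IsGalois M E] (f : M), ∃ x : E, Algebra.norm M x = f

theorem a5b_good_up {F : Type} [Field F] (h : a5b_Good F) (F' : Type) [Field F'] [Algebra F F']
    [FiniteDimensional F F'] : a5b_Good F' := by
  intro M E _ _ _ _ _ _ _ f
  let : Algebra F M := ((algebraMap F' M).comp (algebraMap F F')).toAlgebra
  have : IsScalarTower F F' M := IsScalarTower.of_algebraMap_eq fun _ => rfl
  have : FiniteDimensional F M := Module.Finite.trans F' M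
  exact h M E f

theorem a5b_good {k F : Type} [Field k] [IsAlgClosed k] [Field F] [Algebra k F] (τ : F)
    [FiniteDimensional k⟮τ⟯ F] : a5b_Good F := by
  intro M E _ _ _ _ _ _ _ f
  let : Algebra k M := ((algebraMap F M).comp (algebraMap k F)).toAlgebra
  obtain ⟨ι, hι⟩ := a5b_hom (K := k) (k := k) (algebraMap F M) τ fun x => ⟨x, rfl⟩
  have := a5b_tower (F := F) ι hι
  exact tsen_norm (k := k) (algebraMap F M τ) f

theorem a5b_cyc {F E G : Type} [Field F] [CharZero F] [Field E] [Algebra F E] [Group G] [Finite G]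
    [MulSemiringAction G E] [IsGaloisGroup G F E] [IsCyclic G]
    (hN : ∀ f : F, ∃ x : E, Algebra.norm F x = f) {a : BR F} (h : rs (algebraMap F E) a = 0) :
    a = 0 := by
  obtain ⟨c, hc, rfl⟩ := exists_cls_of_rs E G h
  obtain ⟨s, hs⟩ := IsCyclic.exists_generator (α := G)
  have hfin : IsOfFinOrder s := isOfFinOrder_of_finite s
  have := IsGaloisGroup.isGalois G F E
  have := IsGaloisGroup.finiteDimensional G F E
  have := Fintype.ofFinite G
  have hn : ∀ f : Eˣ, s • f = f →
      ∃ x : Eˣ, f = ∏ i ∈ Finset.range (orderOf s), s ^ i • x := by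
    intro f hf
    have hfix : ∀ g : G, g • (f : E) = f := fun g => by
      have h1 : Subgroup.zpowers s ≤ MulAction.stabilizer G f := by
        rw [Subgroup.zpowers_le]
        exact hf
      exact congrArg Units.val (h1 (hs g))
    obtain ⟨y, hy⟩ := (IsGaloisGroup.isInvariant (G := G) (A := F) (B := E)).isInvariant _ hfix
    obtain ⟨x, hx⟩ := hN y
    have h2 : (f : E) = ∏ g : G, g • x := by
      rw [← hy, ← hx, Algebra.norm_eq_prod_automorphisms]
      exact (Fintype.prod_equiv (IsGaloisGroup.mulEquivAlgEquiv G F E).toEquiv _ _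
        fun g => rfl).symm
    have hx0 : x ≠ 0 := by
      rintro rfl
      exact f.ne_zero (h2.trans (Finset.prod_eq_zero (Finset.mem_univ 1) (smul_zero _)))
    refine ⟨Units.mk0 x hx0, Units.ext ?_⟩
    rw [h2, Units.coe_prod]
    symm
    refine Finset.prod_bij (fun i _ => s ^ i) (fun _ _ => Finset.mem_univ _)
      (fun i hi j hj e => pow_injOn_Iio_orderOf (Finset.mem_range.1 hi) (Finset.mem_range.1 hj) e)
      (fun g _ => ⟨xp s g, Finset.mem_range.2 (xp_lt hfin g), xp_spec hfin (hs g)⟩) fun i _ => rfl
  obtain ⟨e, he⟩ := cob_of_norm hfin hn (c := c) fun g _ g' _ j _ => hc g g' j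
  obtain rfl : c = dd e := funext fun p => he _ (hs _) _ (hs _)
  exact cls_dd e

theorem a5b_pgroup (p : ℕ) [hp : Fact p.Prime] (n : ℕ) : ∀ (F E : Type) [Field F] [CharZero F]
    [Field E] [Algebra F E] [FiniteDimensional F E] [IsGalois F E], a5b_Good F →
      Module.finrank F E = p ^ n → ∀ a : BR F, rs (algebraMap F E) a = 0 → a = 0 := by
  induction n with
  | zero =>
    intro F E _ _ _ _ _ _ _ hn a ha
    have := finrank_smul_of_rs ha
    rwa [hn, pow_zero, one_nsmul] at this
  | succ n ih =>
    intro F E _ _ _ _ _ _ hg hn a ha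
    have hc : Nat.card (E ≃ₐ[F] E) = p ^ (n + 1) := (IsGalois.card_aut_eq_finrank F E).trans hn
    obtain ⟨H, hH⟩ := Sylow.exists_subgroup_card_pow_prime (G := E ≃ₐ[F] E) p (n := n)
      (hc ▸ pow_dvd_pow p n.le_succ)
    have hi : H.index = p := by
      have h1 := H.card_mul_index
      rw [hH, hc, pow_succ] at h1
      exact Nat.eq_of_mul_eq_mul_left (pow_pos hp.out.pos n) h1
    have : H.Normal := Subgroup.normal_of_index_eq_minFac_card (by
      rw [hi, hc, hp.out.pow_minFac n.succ_ne_zero])
    have h1 : Module.finrank (IntermediateField.fixedField H) E = p ^ n :=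
      (IntermediateField.finrank_fixedField_eq_card H).trans hH
    have h2 : Module.finrank F (IntermediateField.fixedField H) = p := by
      have h3 := Module.finrank_mul_finrank F (IntermediateField.fixedField H) E
      rw [h1, hn, pow_succ'] at h3
      exact Nat.eq_of_mul_eq_mul_right (pow_pos hp.out.pos n) h3
    have h3 : rs (algebraMap F (IntermediateField.fixedField H)) a = 0 := by
      refine ih (IntermediateField.fixedField H) E (a5b_good_up hg _) h1 _ ?_
      rw [res_res, ← IsScalarTower.algebraMap_eq]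
      exact ha
    have : IsCyclic (IntermediateField.fixedField H ≃ₐ[F] IntermediateField.fixedField H) :=
      isCyclic_of_prime_card ((IsGalois.card_aut_eq_finrank F _).trans h2)
    exact a5b_cyc (G := IntermediateField.fixedField H ≃ₐ[F] IntermediateField.fixedField H)
      (hg F _) h3

theorem a5b_zero {F : Type} [Field F] [CharZero F] (hg : a5b_Good F) (a : BR F) : a = 0 := by
  obtain ⟨L, _, _, hL⟩ := exists_dies a
  by_contra h
  have h1 : addOrderOf a ≠ 1 := fun e => h (AddMonoid.addOrderOf_eq_one_iff.1 e)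
  have hp : Fact (addOrderOf a).minFac.Prime := ⟨Nat.minFac_prime h1⟩
  obtain ⟨P⟩ : Nonempty (Sylow (addOrderOf a).minFac (L ≃ₐ[F] L)) := inferInstance
  obtain ⟨n, hn⟩ := P.isPGroup'.exists_card_eq
  have h2 : rs (algebraMap F (IntermediateField.fixedField P.toSubgroup)) a = 0 := by
    refine a5b_pgroup _ n (IntermediateField.fixedField P.toSubgroup) L (a5b_good_up hg _)
      ((IntermediateField.finrank_fixedField_eq_card _).trans hn) _ ?_
    rw [res_res, ← IsScalarTower.algebraMap_eq]
    exact hL
  have h3 := addOrderOf_dvd_of_nsmul_eq_zero (finrank_smul_of_rs h2)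
  rw [IntermediateField.finrank_eq_fixingSubgroup_index,
    IntermediateField.fixingSubgroup_fixedField] at h3
  exact P.not_dvd_index ((Nat.minFac_dvd _).trans h3)

/-- Induction on `n`: for `E / F` Galois of degree `p ^ n` every `cls F c` is zero. Take a normal
subgroup of index `p` with fixed field `F'`; the restriction to `F'` is zero by induction (`rs_cls`),
so the class comes from the cyclic group of `F' / F` (`exists_cls_of_rs`); `cob_of_norm`,
`tsen_norm`. In general restrict to the fixed field of a Sylow subgroup, `finrank_smul_of_rs`, and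
look at a prime factor of `addOrderOf a`. -/
theorem tsen {k F : Type} [Field k] [IsAlgClosed k] [CharZero k] [Field F] [Algebra k F] (τ : F)
    [FiniteDimensional k⟮τ⟯ F] (a : BR F) : a = 0 := by
  have : CharZero F := charZero_of_injective_algebraMap (algebraMap k F).injective
  exact a5b_zero (a5b_good (k := k) τ) a

/-- the compositum with an algebraically closed field of constants -/
theorem a5b_comp {K k F Ω : Type} [Field K] [CharZero K] [Field k] [IsAlgClosed k] [Field F]
    [Field Ω] [Algebra K F] [Algebra F Ω] (τ : F) [FiniteDimensional K⟮τ⟯ F] (J : k →+* Ω)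
    (h : ∀ x : K, ∃ y : k, algebraMap F Ω (algebraMap K F x) = J y)
    (a : BR (IntermediateField.adjoin F (Set.range J))) : a = 0 := by
  have : CharZero F := charZero_of_injective_algebraMap (algebraMap K F).injective
  have : CharZero Ω := charZero_of_injective_algebraMap (algebraMap F Ω).injective
  have : CharZero k := J.charZero
  set T := IntermediateField.adjoin F (Set.range J) with hT
  let : Algebra k T := (J.codRestrict T fun y =>
    IntermediateField.subset_adjoin F _ (Set.mem_range_self y)).toAlgebra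
  obtain ⟨ι, hι⟩ := a5b_hom (K := K) (k := k) (algebraMap F T) τ fun x => by
    obtain ⟨y, hy⟩ := h x
    exact ⟨y, Subtype.ext hy⟩
  obtain ⟨θ, hθ⟩ := Field.exists_primitive_element K⟮τ⟯ F
  have hi : IsIntegral k⟮algebraMap F T τ⟯ (algebraMap F T θ) :=
    IsIntegral.map_of_comp_eq ι (algebraMap F T) (RingHom.ext hι)
      (Algebra.IsIntegral.isIntegral θ)
  have hfd := IntermediateField.adjoin.finiteDimensional hi
  set W := k⟮algebraMap F T τ⟯⟮algebraMap F T θ⟯ with hW
  have h1 : ∀ y : F, algebraMap F T y ∈ W := fun y =>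
    a5b_mem (K := K⟮τ⟯) (s := {θ}) (algebraMap F T) W.toSubfield
      (fun x => by
        rw [← hι]
        exact W.algebraMap_mem _)
      (by
        rintro _ rfl
        exact IntermediateField.mem_adjoin_simple_self _ _) (by rw [hθ]; trivial)
  have h2 : W = ⊤ := by
    refine eq_top_iff.2 fun x _ => ?_
    obtain ⟨w, hw, e⟩ := a5b_mem (K := F) (s := Set.range J) (RingHom.id Ω)
      (W.toSubfield.map (algebraMap T Ω)) (fun y => ⟨_, h1 y, rfl⟩)
      (by
        rintro _ ⟨y, rfl⟩
        exact ⟨algebraMap k T y, W.algebraMap_mem (algebraMap k _ y), rfl⟩) x.2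
    obtain rfl : w = x := Subtype.ext e
    exact hw
  rw [h2] at hfd
  have : FiniteDimensional k⟮algebraMap F T τ⟯ T :=
    IntermediateField.topEquiv.toLinearEquiv.finiteDimensional
  exact tsen (k := k) (algebraMap F T τ) _

theorem a5b_range {K K' T : Type} [Field K] [Field K'] [Field T] [Algebra K K'] [Normal K K']
    (ψ χ : K' →+* T) (h : ∀ x, χ (algebraMap K K' x) = ψ (algebraMap K K' x)) (x : K') :
    ∃ y, ψ y = χ x := by
  let : Algebra K' T := ψ.toAlgebra
  let : Algebra K T := (ψ.comp (algebraMap K K')).toAlgebra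
  have : IsScalarTower K K' T := IsScalarTower.of_algebraMap_eq fun _ => rfl
  let χ' : K' →ₐ[K] T := { χ with commutes' := h }
  exact ⟨χ'.restrictNormal K' x, χ'.restrictNormal_commutes K' x⟩

/-- Let `J` embed the closure of `K` into the closure of `F`, `T₀ = F(J K̄)`. It is finite over
`K̄⟮τ⟯`; `tsen`, `exists_finite_of_rs`. The finite subextension lies in `F(J K')` for a finite
Galois `K'`. Extend `φ` to the closures; on the normal extension `K'` the two embeddings have the
same range, so `φ` factors through the finite subextension. -/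
theorem tsen_dies {K F : Type} [Field K] [CharZero K] [Field F] [Algebra K F] (τ : F)
    [FiniteDimensional K⟮τ⟯ F] (a : BR F) :
    ∃ (K' : IntermediateField K (AlgebraicClosure K)) (_ : FiniteDimensional K K')
      (_ : IsGalois K K'), ∀ (T : Type) [Field T] (φ : F →+* T) (ψ : K' →+* T),
        (∀ x, ψ (algebraMap K K' x) = φ (algebraMap K F x)) → rs φ a = 0 := by
  have : CharZero F := charZero_of_injective_algebraMap (algebraMap K F).injective
  let J : AlgebraicClosure K →ₐ[K] AlgebraicClosure F := IsAlgClosed.lift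
  have hJ : ∀ x : K, algebraMap F (AlgebraicClosure F) (algebraMap K F x) =
      (J : AlgebraicClosure K →+* AlgebraicClosure F) (algebraMap K _ x) := fun x =>
    (J.commutes x).symm
  have h0 := fun b => a5b_comp τ (J : AlgebraicClosure K →+* AlgebraicClosure F)
    (fun x => ⟨_, hJ x⟩) b
  generalize (J : AlgebraicClosure K →+* AlgebraicClosure F) = j at hJ h0
  set T₀ := IntermediateField.adjoin F (Set.range j) with hT₀
  obtain ⟨S, _, hS⟩ := exists_finite_of_rs (T := T₀) (a := a) (h0 _)
  obtain ⟨θ, hθ⟩ := Field.exists_primitive_element F S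
  obtain ⟨t, ht, hθt⟩ := IntermediateField.exists_finset_of_mem_adjoin θ.1.2
  obtain ⟨K', _, _, hK'⟩ := exists_level (K := K) (t.preimage j j.injective.injOn)
  refine ⟨K', inferInstance, inferInstance, fun T _ φ ψ hφ => ?_⟩
  have : CharZero T := charZero_of_injective_ringHom φ.injective
  obtain ⟨Φ, -, hΦ, -⟩ := exists_lk (Ω := AlgebraicClosure F) (Ω' := AlgebraicClosure T) φ
  let R := (algebraMap T (AlgebraicClosure T)).fieldRange
  have h1 : ∀ y : F, Φ (algebraMap F _ y) ∈ R := fun y => ⟨φ y, (hΦ y).symm⟩
  have h2 : ∀ y ∈ (t : Set (AlgebraicClosure F)), Φ y ∈ R := by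
    intro y hy
    obtain ⟨z, rfl⟩ := ht hy
    obtain ⟨w, hw⟩ := a5b_range (K := K) ((algebraMap T (AlgebraicClosure T)).comp ψ)
      ((Φ.comp j).comp (algebraMap K' (AlgebraicClosure K)))
      (fun x => by
        rw [RingHom.comp_apply, RingHom.comp_apply, RingHom.comp_apply, hφ, ← hΦ, hJ]
        rfl) ⟨z, hK' z (Finset.mem_preimage.2 hy)⟩
    exact ⟨ψ w, hw⟩
  let η : S →+* AlgebraicClosure T :=
    (Φ.comp (algebraMap T₀ (AlgebraicClosure F))).comp (algebraMap S T₀)
  have h3 : ∀ y : S, η y ∈ R := fun y =>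
    a5b_mem (K := F) (s := {θ}) η R h1
      (by
        rintro _ rfl
        exact a5b_mem Φ R h1 h2 hθt) (by rw [hθ]; trivial)
  have h4 : (algebraMap T (AlgebraicClosure T)).rangeRestrictField.comp φ =
      (η.codRestrict R h3).comp (algebraMap F S) :=
    RingHom.ext fun y => Subtype.ext (hΦ y).symm
  apply res_injective_of_bijective (Ω' := AlgebraicClosure R)
    (algebraMap T (AlgebraicClosure T)).rangeRestrictField_bijective
  rw [res_res, h4, ← res_res (Ω' := AlgebraicClosure S), map_zero]
  exact (congrArg _ hS).trans (map_zero _)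

end Pool.Agent.ZCy
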