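import Pool.Agent.Lib.MP_751085_ag.ZC.A2b
import Pool.Agent.Lib.MP_751085_ag.ZC.VDefs

/-! Constant classes do not die over power series fields. -/

namespace Pool.Agent.ZCy

open scoped Classical PowerSeries
open groupCohomology

variable {M : Type} [Field M] [CharZero M]

theorem a6_abs {L A B G : Type} [Field L] [Algebra M L] [Group G] [Finite G]
    [MulSemiringAction G L] [IsGaloisGroup G M L] [CommRing A] [IsDomain A] [CommRing B]
    [IsDomain B] [Algebra A B] [FaithfulSMul A B] [MulSemiringAction G B] [IsGaloisGroup G A B]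
    (a : M →+* A) (b : L →+* B) (hab : ∀ x, b (algebraMap M L x) = algebraMap A B (a x))
    (hb : ∀ (g : G) x, b (g • x) = g • b x) (l : B →* L) (hl0 : ∀ x, x ≠ 0 → l x ≠ 0)
    (hlb : ∀ x, l (b x) = x) (hl : ∀ (g : G) x, l (g • x) = g • l x) {c : G × G → Lˣ}
    (hc : IsMulCocycle₂ c) (h : rs ((algebraMap A (Fr A)).comp a) (cls M c) = 0) :
    cls M c = 0 := by
  let := FractionRing.liftAlgebra A (Fr B)
  let := IsFractionRing.mulSemiringAction G B (Fr B)
  have : IsGaloisGroup G (Fr A) (Fr B) := IsGaloisGroup.to_isFractionRing G A B _ _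
  have : CharZero (Fr A) :=
    charZero_of_injective_ringHom ((algebraMap A (Fr A)).comp a).injective
  have : FaithfulSMul G L := IsGaloisGroup.faithful M
  have hs : ∀ (g : G) (x : B), algebraMap B (Fr B) (g • x) = g • algebraMap B (Fr B) x :=
    fun g x => algebraMap.coe_smul' g x (Fr B)
  have hr : ∀ (g : G) (x : L), ((algebraMap B (Fr B)).comp b) (id g • x) =
      g • ((algebraMap B (Fr B)).comp b) x := fun g x => by
    simp only [RingHom.comp_apply, id, hb, hs]
  rw [rs_cls (j := (algebraMap B (Fr B)).comp b) _ (fun x => by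
    simp only [RingHom.comp_apply, hab, ← IsScalarTower.algebraMap_apply]) hr hc,
    cls_eq_zero (pull_coc hr hc)] at h
  obtain ⟨e, he⟩ := h
  have hu : ∀ y : nonZeroDivisors B, IsUnit (l y) := fun y =>
    (hl0 y (nonZeroDivisors.ne_zero y.2)).isUnit
  let l' : Fr B →* L := (IsLocalization.toLocalizationMap (nonZeroDivisors B) (Fr B)).lift hu
  have h1 : ∀ x : B, l' (algebraMap B (Fr B) x) = l x := fun x =>
    (IsLocalization.toLocalizationMap (nonZeroDivisors B) (Fr B)).lift_eq hu x
  have h2 : ∀ (g : G) z, l' (g • z) = g • l' z := by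
    intro g z
    obtain ⟨⟨x, y⟩, hz⟩ := IsLocalization.surj (nonZeroDivisors B) z
    have h3 := congrArg l' hz
    have h4 := congrArg (fun t => l' (g • t)) hz
    simp only [smul_mul', ← hs, map_mul, h1, hl] at h3 h4
    rw [← h3, smul_mul'] at h4
    exact mul_right_cancel₀ ((smul_ne_zero_iff_ne g).2 (hu y).ne_zero) h4
  have h5 : ∀ (g : G) (u : (Fr B)ˣ), Units.map l' (g • u) = g • Units.map l' u :=
    fun g u => Units.ext (h2 g u)
  refine (cls_eq_zero hc).2 ⟨fun g => Units.map l' (e g), funext fun p => ?_⟩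
  have h6 : Units.map l' (pull ((algebraMap B (Fr B)).comp b) id c p) = c p :=
    Units.ext ((h1 _).trans (hlb _))
  rw [← h6, he]
  simp only [dd, map_mul, map_div, h5]

section lead

open MvPowerSeries

variable {σ L : Type} [Field L]

/-- the action on the coefficients -/
@[reducible] noncomputable def a6Act (σ L G : Type) [Field L] [Group G] [MulSemiringAction G L] :
    MulSemiringAction G (MvPowerSeries σ L) where
  smul g f := map (MulSemiringAction.toRingHom G L g) f
  one_smul f := MvPowerSeries.ext fun d => one_smul G (coeff d f)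
  mul_smul g h f := MvPowerSeries.ext fun d => mul_smul g h (coeff d f)
  smul_zero _ := map_zero _
  smul_add _ := map_add _
  smul_one _ := map_one _
  smul_mul _ := map_mul _

variable [LinearOrder σ] [WellFoundedGT σ]

theorem a6_ord_C {x : L} (hx : x ≠ 0) :
    lexOrder (C x : MvPowerSeries σ L) = toLex (0 : σ →₀ ℕ) := by
  refine le_antisymm (lexOrder_le_of_coeff_ne_zero (by simpa using hx)) (le_lexOrder_iff.2 ?_)
  intro d hd
  rw [coeff_C, if_neg]
  rintro rfl
  exact lt_irrefl _ hd

theorem a6_ord_map (φ : L →+* L) (f : MvPowerSeries σ L) : lexOrder (map φ f) = lexOrder f := by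
  refine le_antisymm (le_lexOrder_iff.2 fun d hd => ?_) (le_lexOrder_iff.2 fun d hd => ?_)
  · have h := coeff_eq_zero_of_lt_lexOrder hd
    rwa [coeff_map, _root_.map_eq_zero] at h
  · rw [coeff_map, coeff_eq_zero_of_lt_lexOrder hd, map_zero]

/-- the leading coefficient -/
noncomputable def a6Lead (f : MvPowerSeries σ L) : L := coeff (ofLex ((lexOrder f).untopD 0)) f

theorem a6_lead_eq {f : MvPowerSeries σ L} {d : σ →₀ ℕ} (h : lexOrder f = toLex d) :
    a6Lead f = coeff d f := by
  rw [a6Lead, h]
  rfl

theorem a6_lead_C (x : L) : a6Lead (C x : MvPowerSeries σ L) = x := by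
  by_cases hx : x = 0
  · simp [hx, a6Lead]
  · rw [a6_lead_eq (a6_ord_C hx), coeff_zero_C]

theorem a6_lead_mul (f g : MvPowerSeries σ L) : a6Lead (f * g) = a6Lead f * a6Lead g := by
  by_cases hf : f = 0
  · simp [hf, a6Lead]
  by_cases hg : g = 0
  · simp [hg, a6Lead]
  obtain ⟨p, hp⟩ := exists_finsupp_eq_lexOrder_of_ne_zero hf
  obtain ⟨q, hq⟩ := exists_finsupp_eq_lexOrder_of_ne_zero hg
  have h : lexOrder (f * g) = toLex (p + q) := by
    rw [lexOrder_mul, hp, hq]
    rfl
  rw [a6_lead_eq h, a6_lead_eq hp, a6_lead_eq hq, coeff_mul_of_add_lexOrder hp hq]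

theorem a6_lead_ne {f : MvPowerSeries σ L} (hf : f ≠ 0) : a6Lead f ≠ 0 := by
  obtain ⟨p, hp⟩ := exists_finsupp_eq_lexOrder_of_ne_zero hf
  rw [a6_lead_eq hp]
  exact coeff_ne_zero_of_lexOrder hp.symm

theorem a6_lead_map (φ : L →+* L) (f : MvPowerSeries σ L) : a6Lead (map φ f) = φ (a6Lead f) := by
  rw [a6Lead, a6_ord_map, coeff_map, a6Lead]

omit [CharZero M] [LinearOrder σ] [WellFoundedGT σ] in
theorem a6_gal [Algebra M L] {G : Type} [Group G] [MulSemiringAction G L]
    [hG : IsGaloisGroup G M L] :
    letI := a6Act σ L G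
    letI : Algebra (MvPowerSeries σ M) (MvPowerSeries σ L) := (map (algebraMap M L)).toAlgebra
    IsGaloisGroup G (MvPowerSeries σ M) (MvPowerSeries σ L) := by
  let := a6Act σ L G
  let : Algebra (MvPowerSeries σ M) (MvPowerSeries σ L) := (map (algebraMap M L)).toAlgebra
  have hC : ∀ (g : G) (x : L), (C (g • x) : MvPowerSeries σ L) = g • (C x : MvPowerSeries σ L) :=
    fun g x => (map_C (MulSemiringAction.toRingHom G L g) x).symm
  refine ⟨⟨fun {g g'} e => hG.faithful.eq_of_smul_eq_smul fun x => ?_⟩, ⟨fun g a f => ?_⟩,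
    ⟨fun f hf => ?_⟩⟩
  · exact C_injective (σ := σ) (by rw [hC, hC, e])
  · rw [Algebra.smul_def, Algebra.smul_def, smul_mul']
    refine congrArg (· * g • f) (MvPowerSeries.ext fun d => ?_)
    exact smul_algebraMap g (coeff d a)
  · have h1 : ∀ d, ∃ a, algebraMap M L a = coeff d f := fun d =>
      hG.isInvariant.isInvariant (coeff d f) fun g => congrArg (coeff d) (hf g)
    choose a ha' using h1
    exact ⟨a, MvPowerSeries.ext ha'⟩

theorem a6_mv [Algebra M L] {G : Type} [Group G] [Finite G] [MulSemiringAction G L]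
    [hG : IsGaloisGroup G M L] {c : G × G → Lˣ} (hc : IsMulCocycle₂ c)
    (h : rs ((algebraMap (MvPowerSeries σ M) (Fr (MvPowerSeries σ M))).comp C) (cls M c) = 0) :
    cls M c = 0 := by
  let := a6Act σ L G
  let : Algebra (MvPowerSeries σ M) (MvPowerSeries σ L) := (map (algebraMap M L)).toAlgebra
  have hC : ∀ (g : G) (x : L), (C (g • x) : MvPowerSeries σ L) = g • (C x : MvPowerSeries σ L) :=
    fun g x => (map_C (MulSemiringAction.toRingHom G L g) x).symm
  have : FaithfulSMul (MvPowerSeries σ M) (MvPowerSeries σ L) :=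
    (faithfulSMul_iff_algebraMap_injective _ _).2 fun f f' e => MvPowerSeries.ext fun d =>
      (algebraMap M L).injective (congrArg (coeff d) e)
  have : IsGaloisGroup G (MvPowerSeries σ M) (MvPowerSeries σ L) := a6_gal
  have : IsDomain (MvPowerSeries σ M) := NoZeroDivisors.to_isDomain _
  have : IsDomain (MvPowerSeries σ L) := NoZeroDivisors.to_isDomain _
  let l : MvPowerSeries σ L →* L := ⟨⟨a6Lead, a6_lead_C 1⟩, a6_lead_mul⟩
  exact a6_abs (A := MvPowerSeries σ M) (B := MvPowerSeries σ L) C C
    (fun x => (map_C (algebraMap M L) x).symm) hC l (fun _ => a6_lead_ne) a6_lead_C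
    (fun g f => a6_lead_map (MulSemiringAction.toRingHom G L g) f) hc h

end lead

/-- Write `β = cls M c` on `G = Gal(M'/M)`. `G` acts on `MvPowerSeries σ M'` by `map` with
invariants `MvPowerSeries σ M`, so it is a Galois group of the fraction fields
(`IsGaloisGroup.to_isFractionRing`, `IsFractionRing.mulSemiringAction`). By `rs_cls` and
`cls_eq_zero` the image of `c` is `dd e`. Apply the leading coefficient for `MvPowerSeries.lexOrder`
(`coeff_mul_of_add_lexOrder`, `lexOrder_mul`), a `G`-equivariant homomorphism from the units of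
the fraction field to the units of `M'` that is the identity on constants. -/
theorem rs_mv_injective (σ : Type) [LinearOrder σ] [WellFoundedGT σ] : Function.Injective
    (rs ((algebraMap (MvPowerSeries σ M) (Fr (MvPowerSeries σ M))).comp MvPowerSeries.C)) := by
  refine (injective_iff_map_eq_zero _).2 fun a ha => ?_
  obtain ⟨L, _, _, x, -, hx, rfl⟩ := exists_cls a ∅
  exact a6_mv hx ha

/-- choose a linear order on the finite type -/
theorem rs_mvf_injective (σ : Type) [Finite σ] : Function.Injective
    (rs ((algebraMap (MvPowerSeries σ M) (Fr (MvPowerSeries σ M))).comp MvPowerSeries.C)) := by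
  let : LinearOrder σ := LinearOrder.lift' (Finite.equivFin σ) (Finite.equivFin σ).injective
  exact rs_mv_injective σ

/-- `M⟦X⟧` is `MvPowerSeries Unit M` -/
theorem rs_ps_injective : Function.Injective (rs (algebraMap M (Fr M⟦X⟧))) := by
  have h : algebraMap M (Fr M⟦X⟧) =
      (algebraMap (MvPowerSeries Unit M) (Fr (MvPowerSeries Unit M))).comp MvPowerSeries.C :=
    IsScalarTower.algebraMap_eq M M⟦X⟧ (Fr M⟦X⟧)
  rw [h]
  exact rs_mvf_injective Unit

/-- for any algebraic closure `Ω` of `M` -/
theorem res_mv_injective {Ω : Type} [Field Ω] [Algebra M Ω] [IsAlgClosure M Ω] (r : ℕ) :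
    Function.Injective (res ((algebraMap (MvPowerSeries (Fin r) M)
      (Fr (MvPowerSeries (Fin r) M))).comp MvPowerSeries.C) : Br M Ω → BR _) := by
  intro a b h
  refine res_injective_of_bijective (γ := RingHom.id M) (Ω' := AlgebraicClosure M)
    Function.bijective_id (rs_mvf_injective (Fin r) ?_)
  rw [res_res, res_res]
  exact h

/-- polynomials embed into power series -/
theorem rs_mp_injective (σ : Type) [Finite σ] : Function.Injective
    (rs ((algebraMap (MvPolynomial σ M) (Fr (MvPolynomial σ M))).comp MvPolynomial.C)) := by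
  intro a b h
  have hi : Function.Injective ((algebraMap (MvPowerSeries σ M) (Fr (MvPowerSeries σ M))).comp
      (MvPolynomial.coeToMvPowerSeries.ringHom (σ := σ) (R := M))) :=
    (IsFractionRing.injective (MvPowerSeries σ M) _).comp (MvPolynomial.coe_injective σ M)
  have he : (frMap _ hi).comp ((algebraMap (MvPolynomial σ M) (Fr (MvPolynomial σ M))).comp
      MvPolynomial.C) =
      (algebraMap (MvPowerSeries σ M) (Fr (MvPowerSeries σ M))).comp MvPowerSeries.C := by
    ext x
    simp only [frMap, RingHom.comp_apply, IsFractionRing.lift_algebraMap,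
      MvPolynomial.coeToMvPowerSeries.ringHom_apply, MvPolynomial.coe_C]
  refine rs_mvf_injective σ ?_
  have h1 := congrArg (rs (frMap _ hi)) h
  rwa [res_res, res_res, he] at h1

end Pool.Agent.ZCy
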