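import Pool.Agent.Lib.MP_751085_ag.ZC.Defs

/-! Cocycles, restriction, the class of a cocycle of a Galois group, corestriction data. -/

namespace Pool.Agent.ZCy

open scoped Classical
open groupCohomology

attribute [scoped instance 10] Units.mulDistribMulActionRight

/-- the Brauer group of `K` -/
abbrev BR (K : Type) [Field K] : Type := Br K (AlgebraicClosure K)

/-- the group of automorphisms of the algebraic closure -/
abbrev Gm (K : Type) [Field K] : Type := AlgebraicClosure K ≃ₐ[K] AlgebraicClosure K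

section group

variable {G A S : Type} [Group G] [CommGroup A] [MulDistribMulAction G A]

/-- the coboundary of a 1-cochain -/
def dd (e : G → A) (p : G × G) : A := p.1 • e p.2 / e (p.1 * p.2) * e p.1

/-- on `D` the cochain is inflated from `D / N` and has values fixed by `N` -/
structure Infl (D N : Subgroup G) (c : G × G → A) : Prop where
  eq : ∀ g ∈ D, ∀ h ∈ D, ∀ i ∈ N, ∀ i' ∈ N, c (g * i, h * i') = c (g, h)
  fix : ∀ g ∈ D, ∀ h ∈ D, ∀ i ∈ N, i • c (g, h) = c (g, h)

/-- `c` satisfies the cocycle identity on the subgroup `H` -/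
def CocOn (H : Subgroup G) (c : G × G → A) : Prop :=
  ∀ g ∈ H, ∀ h ∈ H, ∀ j ∈ H, c (g * h, j) * c (g, h) = g • c (h, j) * c (g, h * j)

/-- `c` is a coboundary on the subgroup `H` -/
def CobOn (H : Subgroup G) (c : G × G → A) : Prop :=
  ∃ e : G → A, ∀ g ∈ H, ∀ h ∈ H, c (g, h) = dd e (g, h)

/-- the exponent of `g` with respect to `s`, in `[0, orderOf s)` -/
noncomputable def xp (s g : G) : ℕ :=
  if h : ∃ i, i < orderOf s ∧ s ^ i = g then h.choose else 0

/-- the cocycle of the cyclic algebra `(s, f)` -/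
noncomputable def cyc (s : G) (f : A) (p : G × G) : A :=
  f ^ ((xp s p.1 + xp s p.2 - xp s (p.1 * p.2)) / orderOf s)

variable (S A) in
/-- maps `S → A` with the action `(g a) s = g (a (g⁻¹ s))` -/
def Ind : Type := S → A

instance : CommGroup (Ind A S) := inferInstanceAs (CommGroup (S → A))

instance [MulAction G S] : MulDistribMulAction G (Ind A S) where
  smul g a := fun s => g • a (g⁻¹ • s)
  one_smul a := funext fun s => by
    change (1 : G) • a ((1 : G)⁻¹ • s) = a s
    rw [inv_one, one_smul, one_smul]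
  mul_smul g h a := funext fun s => by
    change (g * h) • a ((g * h)⁻¹ • s) = g • h • a (h⁻¹ • g⁻¹ • s)
    rw [mul_smul, mul_inv_rev, mul_smul]
  smul_mul g _ _ := funext fun _ => smul_mul' g _ _
  smul_one g := funext fun _ => smul_one g

theorem Ind.smul_apply [MulAction G S] (g : G) (a : Ind A S) (s : S) :
    (g • a) s = g • a (g⁻¹ • s) := rfl
theorem Ind.mul_apply (a b : Ind A S) (s : S) : (a * b) s = a s * b s := rfl
theorem Ind.div_apply (a b : Ind A S) (s : S) : (a / b) s = a s / b s := rfl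
theorem Ind.inv_apply (a : Ind A S) (s : S) : a⁻¹ s = (a s)⁻¹ := rfl
theorem Ind.one_apply (s : S) : (1 : Ind A S) s = 1 := rfl
theorem Ind.pow_apply (a : Ind A S) (n : ℕ) (s : S) : (a ^ n) s = a s ^ n := rfl

variable (G S) in
/-- representatives of the orbits and transporters -/
structure Sec [MulAction G S] where
  rep : S → S
  t : S → G
  t_smul : ∀ s, t s • rep s = s
  rep_smul : ∀ (g : G) s, rep (g • s) = rep s

/-- the element `t(s)⁻¹ g t(g⁻¹ s)` of the stabiliser of `rep s` -/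
def Sec.rh [MulAction G S] (T : Sec G S) (g : G) (s : S) : G := (T.t s)⁻¹ * (g * T.t (g⁻¹ • s))

/-- the induced cocycle -/
def Sec.ind [MulAction G S] (T : Sec G S) (b : S → G × G → A) (p : G × G) : Ind A S :=
  fun s => T.t s • b (T.rep s) (T.rh p.1 s, T.rh p.2 (p.1⁻¹ • s))

end group

/-- pull-back of a cochain along a map of pairs -/
def pull {G G' E E' : Type} [Field E] [Field E'] (j : E →+* E') (r : G' → G) (c : G × G → Eˣ)
    (p : G' × G') : E'ˣ := Units.map (j : E →* E') (c (r p.1, r p.2))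

section pair

variable {G G' E E' : Type} [Group G] [Group G'] [Field E] [Field E'] [MulSemiringAction G E]
  [MulSemiringAction G' E'] {j : E →+* E'} {r : G' → G}

theorem lk_mul [FaithfulSMul G E] (h : ∀ g x, j (r g • x) = g • j x) (g g' : G') :
    r (g * g') = r g * r g' :=
  eq_of_smul_eq_smul fun x : E => j.injective (by rw [h, mul_smul, mul_smul, h, h])

theorem lk_one [FaithfulSMul G E] (h : ∀ g x, j (r g • x) = g • j x) : r 1 = 1 :=
  eq_of_smul_eq_smul fun x : E => j.injective (by rw [h, one_smul, one_smul])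

theorem lk_units (h : ∀ g x, j (r g • x) = g • j x) (g : G') (u : Eˣ) :
    Units.map (j : E →* E') (r g • u) = g • Units.map (j : E →* E') u := Units.ext (h g u)

theorem pull_coc [FaithfulSMul G E] (h : ∀ g x, j (r g • x) = g • j x) {c : G × G → Eˣ}
    (hc : IsMulCocycle₂ c) : IsMulCocycle₂ (pull j r c) := fun g g' k => by
  simp only [pull, lk_mul h, ← lk_units h, ← map_mul]
  rw [hc]

theorem pull_dd [FaithfulSMul G E] (h : ∀ g x, j (r g • x) = g • j x) (e : G → Eˣ) :
    pull j r (dd e) = dd fun g => Units.map (j : E →* E') (e (r g)) := funext fun p => by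
  simp only [pull, dd, lk_mul h, ← lk_units h, map_mul, map_div]

omit [Group G] [Group G'] [MulSemiringAction G E] [MulSemiringAction G' E'] in
theorem pull_mul (c c' : G × G → Eˣ) : pull j r (c * c') = pull j r c * pull j r c' :=
  funext fun p => by simp only [pull, Pi.mul_apply, map_mul]

end pair

section res

variable {K Ω K' Ω' : Type} [Field K] [Field Ω] [Algebra K Ω] [Field K'] [Field Ω'] [Algebra K' Ω']

/-- `j` lies over `γ` and `r` is the induced map of the groups -/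
structure Lk (γ : K →+* K') (j : Ω →+* Ω') (r : (Ω' ≃ₐ[K'] Ω') → Ω ≃ₐ[K] Ω) : Prop where
  base : ∀ a, j (algebraMap K Ω a) = algebraMap K' Ω' (γ a)
  comm : ∀ g x, j (r g x) = g (j x)

theorem exists_lk_of [Normal K Ω] {γ : K →+* K'} {j : Ω →+* Ω'}
    (h : ∀ a, j (algebraMap K Ω a) = algebraMap K' Ω' (γ a)) : ∃ r, Lk γ j r := by
  let : Algebra K Ω' := ((algebraMap K' Ω').comp γ).toAlgebra
  let : Algebra Ω Ω' := j.toAlgebra
  have : IsScalarTower K Ω Ω' := IsScalarTower.of_algebraMap_eq fun a => (h a).symm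
  let φ : (Ω' ≃ₐ[K'] Ω') → Ω' →ₐ[K] Ω' := fun g =>
    { (g : Ω' →+* Ω') with commutes' := fun a => g.commutes (γ a) }
  exact ⟨fun g => (φ g).restrictNormal' Ω, h, fun g x => (φ g).restrictNormal_commutes Ω x⟩

theorem exists_lk [Normal K Ω] [IsAlgClosed Ω'] (γ : K →+* K') :
    ∃ (j : Ω →+* Ω') (r : _), Lk γ j r := by
  let : Algebra K Ω' := ((algebraMap K' Ω').comp γ).toAlgebra
  let j : Ω →ₐ[K] Ω' := IsAlgClosed.lift
  obtain ⟨r, hr⟩ := exists_lk_of (γ := γ) (j := (j : Ω →+* Ω')) fun a => j.commutes a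
  exact ⟨j, r, hr⟩

theorem Lk.locConst {γ : K →+* K'} {j : Ω →+* Ω'} {r : (Ω' ≃ₐ[K'] Ω') → Ω ≃ₐ[K] Ω}
    (h : Lk γ j r) {A : Type} {n : ℕ} {c : (Fin n → (Ω ≃ₐ[K] Ω)) → A} (hc : LocConst K Ω n c) :
    LocConst K' Ω' n fun g => c fun i => r (g i) := by
  obtain ⟨s, hs⟩ := hc
  refine ⟨s.image j, fun g g' e => hs _ _ fun i x hx => j.injective ?_⟩
  rw [h.comm, h.comm]
  exact e i _ (Finset.mem_image_of_mem _ hx)

theorem Lk.mem_Z2 {γ : K →+* K'} {j : Ω →+* Ω'} {r : (Ω' ≃ₐ[K'] Ω') → Ω ≃ₐ[K] Ω}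
    (h : Lk γ j r) {c : (Ω ≃ₐ[K] Ω) × (Ω ≃ₐ[K] Ω) → Ωˣ} (hc : c ∈ Z2 K Ω) :
    pull j r c ∈ Z2 K' Ω' := by
  refine ⟨pull_coc h.comm hc.1, ?_⟩
  obtain ⟨s, hs⟩ := h.locConst hc.2
  exact ⟨s, fun g g' e => congrArg (Units.map (j : Ω →* Ω')) (hs g g' e)⟩

theorem Lk.mem_B2 {γ : K →+* K'} {j : Ω →+* Ω'} {r : (Ω' ≃ₐ[K'] Ω') → Ω ≃ₐ[K] Ω}
    (h : Lk γ j r) {c : (Ω ≃ₐ[K] Ω) × (Ω ≃ₐ[K] Ω) → Ωˣ} (hc : c ∈ B2 K Ω) :
    pull j r c ∈ B2 K' Ω' := by
  obtain ⟨e, he, hc⟩ := hc
  obtain rfl : c = dd e := funext fun p => hc p.1 p.2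
  obtain ⟨s, hs⟩ := h.locConst he
  exact ⟨fun g => Units.map (j : Ω →* Ω') (e (r g)),
    ⟨s, fun g g' u => congrArg (Units.map (j : Ω →* Ω')) (hs g g' u)⟩,
    fun g g' => congrFun (pull_dd h.comm e) (g, g')⟩

/-- the map on cohomology given by a link -/
noncomputable def Lk.map {γ : K →+* K'} {j : Ω →+* Ω'} {r : (Ω' ≃ₐ[K'] Ω') → Ω ≃ₐ[K] Ω}
    (h : Lk γ j r) : Br K Ω →+ Br K' Ω' :=
  MonoidHom.toAdditive (QuotientGroup.map _ _
    (MonoidHom.mk' (fun c : Z2 K Ω => (⟨pull j r c.1, h.mem_Z2 c.2⟩ : Z2 K' Ω'))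
      fun a b => Subtype.ext (pull_mul a.1 b.1)) fun _ hc => h.mem_B2 hc)

theorem cl_eq {c : (Ω ≃ₐ[K] Ω) × (Ω ≃ₐ[K] Ω) → Ωˣ} (h : c ∈ Z2 K Ω) :
    cl K Ω c = Additive.ofMul (QuotientGroup.mk ⟨c, h⟩) := dif_pos h

theorem Lk.map_cl {γ : K →+* K'} {j : Ω →+* Ω'} {r : (Ω' ≃ₐ[K'] Ω') → Ω ≃ₐ[K] Ω}
    (h : Lk γ j r) {c : (Ω ≃ₐ[K] Ω) × (Ω ≃ₐ[K] Ω) → Ωˣ} (hc : c ∈ Z2 K Ω) :
    h.map (cl K Ω c) = cl K' Ω' (pull j r c) := by
  rw [cl_eq hc, cl_eq (h.mem_Z2 hc)]
  rfl

/-- restriction along `γ`, between any algebraic closures -/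
noncomputable def res [IsAlgClosure K Ω] [IsAlgClosure K' Ω'] (γ : K →+* K') :
    Br K Ω →+ Br K' Ω' :=
  haveI := IsAlgClosure.isAlgClosed K' (K := Ω')
  (exists_lk (Ω := Ω) (Ω' := Ω') γ).choose_spec.choose_spec.map

end res

variable (K : Type) [Field K]

/-- restriction along `γ` for the standard algebraic closures -/
noncomputable abbrev rs {K K' : Type} [Field K] [Field K'] (γ : K →+* K') : BR K →+ BR K' := res γ

/-- the class of a cocycle of a group `G` acting on `E` with fixed field `K` -/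
noncomputable def cls {G E : Type} [Group G] [Field E] [Algebra K E] [MulSemiringAction G E]
    (c : G × G → Eˣ) : BR K :=
  if h : ∃ q : (E →ₐ[K] AlgebraicClosure K) × (Gm K → G), ∀ g x, q.1 (q.2 g • x) = g (q.1 x) then
    cl K _ (pull (h.choose.1 : E →+* AlgebraicClosure K) h.choose.2 c) else 0

variable (M : Type) [Field M] [Algebra K M]

/-- the embeddings of `M` into the algebraic closure of `K` -/
def Em : Type := M →ₐ[K] AlgebraicClosure K

noncomputable instance : MulAction (Gm K) (Em K M) where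
  smul g j := (g : AlgebraicClosure K →ₐ[K] AlgebraicClosure K).comp j
  one_smul _ := rfl
  mul_smul _ _ _ := rfl

noncomputable instance [FiniteDimensional K M] : Fintype (Em K M) :=
  inferInstanceAs (Fintype (M →ₐ[K] AlgebraicClosure K))

variable {K M}

/-- the underlying homomorphism -/
def Em.hom (j : Em K M) : M →ₐ[K] AlgebraicClosure K := j

theorem Em.smul_hom (g : Gm K) (j : Em K M) (x : M) : (g • j).hom x = g (j.hom x) := rfl

/-- `b` is a continuous cocycle with values in maps on the embeddings, with components `β` -/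
structure Shap (b : Gm K × Gm K → Ind (AlgebraicClosure K)ˣ (Em K M)) (β : BR M) : Prop where
  coc : IsMulCocycle₂ b
  lc : LocConst K (AlgebraicClosure K) 2 fun g => b (g 0, g 1)
  cmp : ∀ (j : Em K M) (J : AlgebraicClosure K →+* AlgebraicClosure M) (r : Gm M → Gm K),
    (∀ x, J (j.hom x) = algebraMap M _ x) → (∀ g x, J (r g x) = g (J x)) →
      β = cl M _ (pull J r fun p => b p j)

variable (K M)

/-- corestriction as a function; the additive map is `cor` -/
noncomputable def corF [FiniteDimensional K M] (β : BR M) : BR K :=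
  Classical.epsilon fun a => ∃ b, Shap b β ∧ a = cl K _ fun p => ∏ j, b p j

end Pool.Agent.ZCy
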