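import Pool.Agent.Lib.MP_751085_ag.ZC.CHat
import Pool.Agent.Lib.MP_751085_ag.ZC.CDim

/-! The function field of the cone is algebraic over the base. -/

namespace Pool.Agent.ZCy

open scoped Classical Polynomial
open MvPolynomial Set

set_option linter.unusedSectionVars false

variable {k : Type} [Field k] {X : Var k} {ι : Type} {f : ι → Fm X.N k} {d n : ℕ}

theorem alg_eq : algebraMap (MP ι k) (X.Hat f) =
    eval₂Hom (algebraMap k (X.Hat f)) fun i => aeval (X.gh f) (f i) := by
  refine MvPolynomial.ringHom_ext (fun a => ?_) fun i => ?_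
  · rw [eval₂Hom_C, ← algebraMap_eq, ← IsScalarTower.algebraMap_apply]
  · rw [eval₂Hom_X', X.hat_alg, aeval_X, X.aeval_gh]

theorem alg_gh (X : Var k) (f : ι → Fm X.N k) (j : Fin (X.N + 1)) :
    (X.gh f j : RatFunc X.F) = algebraMap X.F (RatFunc X.F) (X.g j) * RatFunc.X := by
  show algebraMap X.F[X] (RatFunc X.F) (scl k X.g (MvPolynomial.X j)) = _
  rw [scl, aeval_X, map_mul, RatFunc.algebraMap_X, RatFunc.algebraMap_C, RatFunc.algebraMap_eq_C]
  rfl

theorem alg_adjoin (X : Var k) (y : Fin (X.N + 1) → RatFunc X.F)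
    (hy : ∀ j, y j = algebraMap X.F (RatFunc X.F) (X.g j) * RatFunc.X) :
    IntermediateField.adjoin k (range y) = ⊤ := by
  obtain ⟨i, hi⟩ := X.one
  have hm : ∀ j, y j ∈ IntermediateField.adjoin k (range y) := fun j =>
    IntermediateField.subset_adjoin _ _ ⟨j, rfl⟩
  have hX : RatFunc.X ∈ IntermediateField.adjoin k (range y) := by
    have := hm i
    rwa [hy, hi, map_one, one_mul] at this
  have hC : ∀ a : X.F, algebraMap X.F (RatFunc X.F) a ∈ IntermediateField.adjoin k (range y) := by
    intro a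
    have h1 : IntermediateField.adjoin k (range X.g) ≤ (IntermediateField.adjoin k (range y)).comap
        (IsScalarTower.toAlgHom k X.F (RatFunc X.F)) := by
      rw [IntermediateField.adjoin_le_iff]
      rintro _ ⟨j, rfl⟩
      show algebraMap X.F (RatFunc X.F) (X.g j) ∈ IntermediateField.adjoin k (range y)
      rw [← mul_div_cancel_right₀ (algebraMap X.F (RatFunc X.F) (X.g j)) RatFunc.X_ne_zero, ← hy]
      exact div_mem (hm j) hX
    rw [X.gen] at h1
    exact h1 IntermediateField.mem_top
  have hP : ∀ p : X.F[X],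
      algebraMap X.F[X] (RatFunc X.F) p ∈ IntermediateField.adjoin k (range y) := by
    intro p
    induction p using Polynomial.induction_on' with
    | add p q hp hq => rw [map_add]; exact add_mem hp hq
    | monomial m a =>
      rw [← Polynomial.C_mul_X_pow_eq_monomial, map_mul, map_pow, RatFunc.algebraMap_X,
        RatFunc.algebraMap_C, ← RatFunc.algebraMap_eq_C]
      exact mul_mem (hC a) (pow_mem hX m)
  rw [eq_top_iff]
  intro x _
  rw [← RatFunc.num_div_denom x]
  exact div_mem (hP _) (hP _)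

/-- `h j` at `x = X.gh f`, `IsIntegral.of_pow`, induction on `P` -/
theorem Var.Int.isIntegral (h : X.Int d f) (hd : 0 < d) (P : Fm X.N k) :
    IsIntegral (MP ι k) (X.cone f P) := by
  induction P using MvPolynomial.induction_on with
  | C c =>
    rw [← algebraMap_eq, AlgHom.commutes, IsScalarTower.algebraMap_apply k (MP ι k) (X.Hat f)]
    exact isIntegral_algebraMap
  | add p q hp hq => rw [map_add]; exact hp.add hq
  | mul_X p j hp =>
    rw [map_mul]
    refine hp.mul (IsIntegral.of_pow hd ?_)
    obtain ⟨H, hH, -, h0⟩ := h j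
    refine ⟨H, hH, ?_⟩
    have h1 := h0 _ (X.gh f) (X.zr_gh f)
    rwa [ev_def, ← alg_eq] at h1

/-- With `g i = 1`: `gh i` is the variable, `gh j / gh i` is the constant `g j`; use `X.gen`
(`IntermediateField.adjoin_induction` or `comap`) and `RatFunc.induction_on`. -/
theorem Var.adjoin_gh (X : Var k) (f : ι → Fm X.N k) :
    IntermediateField.adjoin k (range (X.gh f)) = ⊤ :=
  alg_adjoin X (X.gh f) (alg_gh X f)

/-- `rk_add_le` for `k ⊆ X.F ⊆ RatFunc X.F`, `rk_g`, `RatFunc.transcendental_X` -/
theorem Var.rk_gh (hn : Algebra.trdeg k X.F = n) (f : ι → Fm X.N k) :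
    (n : ℕ∞) + 1 ≤ rk k (range (X.gh f)) := by
  have h1 := rk_add_le (K := k) (Ω' := RatFunc X.F) (range X.g) (range fun _ : Unit => RatFunc.X)
  have h2 : ((Fintype.card Unit : ℕ) : ℕ∞) ≤
      rk X.F (range fun _ : Unit => (RatFunc.X : RatFunc X.F)) :=
    rk_range_iff.2 (algebraicIndependent_unique_type_iff.2 RatFunc.transcendental_X)
  rw [Fintype.card_unit, Nat.cast_one] at h2
  rw [Var.rk_g hn] at h1
  have h3 : rk k (univ : Set (X.Hat f)) ≤ rk k (range (X.gh f)) := rk_le_of_acl fun a _ =>
    mem_acl.2 (isAlgebraic_algebraMap (R := IntermediateField.adjoin k (range (X.gh f)))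
      ⟨a, by rw [X.adjoin_gh f]; trivial⟩)
  exact ((add_le_add_right h2 _).trans (h1.trans (rk_mono (subset_univ _)))).trans h3

/-- `gh j ∈ acl k (range fun i => X.cone f (f i))` by `mem_acl_of_root`; `rk_range_iff` -/
theorem Var.Int.inj [Fintype ι] (h : X.Int d f) (hd : 0 < d) (hn : Algebra.trdeg k X.F = n)
    (hι : Fintype.card ι = n + 1) : Function.Injective (algebraMap (MP ι k) (X.Hat f)) := by
  have e : ∀ a : MP ι k, algebraMap (MP ι k) (X.Hat f) a = aeval (fun i => X.cone f (f i)) a :=
    fun a => by rw [X.hat_alg, comp_aeval_apply]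
  have h1 : rk k (range (X.gh f)) ≤ rk k (range fun i => X.cone f (f i)) := by
    refine rk_le_of_acl ?_
    rintro _ ⟨j, rfl⟩
    obtain ⟨p, hp, h0⟩ := h.isIntegral hd (MvPolynomial.X j)
    refine mem_acl_of_root (P := p.map (algebraMap _ _)) (hp.map _).ne_zero (fun i => ?_) ?_
    · rw [Polynomial.coeff_map, e]
      exact aeval_mem_acl (fun i => mem_acl_of_mem (mem_range_self i)) _
    · rw [Polynomial.eval_map]
      exact h0
  have h2 : AlgebraicIndependent k fun i => X.cone f (f i) :=
    rk_range_iff.1 (by rw [hι]; push_cast; exact (Var.rk_gh hn f).trans h1)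
  intro a b hab
  rw [e, e] at hab
  exact h2 hab

theorem Var.Int.isAlgebraic (h : X.Int d f) (hd : 0 < d) {L : Type} [Field L] [Algebra (MP ι k) L]
    [Algebra L (X.Hat f)] [IsScalarTower (MP ι k) L (X.Hat f)] :
    Algebra.IsAlgebraic L (X.Hat f) := by
  refine ⟨fun x => ?_⟩
  have hx : x ∈ IntermediateField.adjoin k (range (X.gh f)) := by rw [X.adjoin_gh f]; trivial
  induction hx using IntermediateField.adjoin_induction with
  | mem x hx =>
    obtain ⟨j, rfl⟩ := hx
    exact ((h.isIntegral hd (MvPolynomial.X j)).tower_top (A := L)).isAlgebraic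
  | algebraMap c =>
    rw [IsScalarTower.algebraMap_apply k (MP ι k) (X.Hat f),
      IsScalarTower.algebraMap_apply (MP ι k) L (X.Hat f)]
    exact isAlgebraic_algebraMap _
  | add x y _ _ hx hy => exact hx.add hy
  | inv x _ hx => exact hx.inv
  | mul x y _ _ hx hy => exact hx.mul hy

end Pool.Agent.ZCy
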