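import Pool.Agent.Lib.MP_751085_ag.ZC.CLift

/-! From covers to charts. -/

namespace Pool.Agent.ZCy

open scoped Classical Polynomial
open MvPolynomial

set_option linter.unusedSectionVars false

variable {R : Type} [CommRing R] {ι σ : Type}

theorem totalDegree_deh_le {P : MP (Option ι) R} {m : ℕ} (h : P.IsHomogeneous m) :
    (deh P).totalDegree ≤ m := by
  refine le_trans ?_ h.totalDegree_le
  refine totalDegree_eval₂_le (RingHom.id R) (s := fun i : Option ι => i.elim 1 X) (fun i => ?_) P
  cases i with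
  | none => exact totalDegree_one.le.trans zero_le_one
  | some j => exact totalDegree_X_le _

theorem cch_deh_mon (α : Option ι →₀ ℕ) (a : R) :
    deh (monomial α a) = (monomial α.some a : MP ι R) := by
  rw [deh, aeval_monomial, Finsupp.prod_option_index _ _ (fun _ => pow_zero _)
    fun _ _ _ => pow_add _ _ _, monomial_eq]
  simp

theorem cch_mon {α : Option ι →₀ ℕ} {m : ℕ} (h : α.degree = m) (a : R) (t : ι) :
    coeff (Finsupp.single t m) (deh (monomial α a)) =
      eval (Pi.single (some t) 1) (monomial α a) := by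
  rw [cch_deh_mon, coeff_monomial, eval_monomial]
  by_cases e : α = Finsupp.single (some t) m
  · rw [if_pos (by rw [e, Finsupp.some_single_some]), e,
      Finsupp.prod_single_index (by exact pow_zero _), Pi.single_eq_same, one_pow, mul_one]
  · rw [if_neg]
    · have h1 : ¬α.support ⊆ {some t} := fun h1 => by
        have h2 := Finsupp.support_subset_singleton.1 h1
        rw [h2, Finsupp.degree_single] at h
        exact e (h ▸ h2)
      obtain ⟨i, hi, hi'⟩ := Finset.not_subset.1 h1
      rw [Finsupp.prod, Finset.prod_eq_zero hi, mul_zero]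
      rw [Pi.single_eq_of_ne (Finset.notMem_singleton.1 hi'),
        zero_pow (Finsupp.mem_support_iff.1 hi)]
    · intro h1
      have h2 : α = Finsupp.single (some t) m + Finsupp.single none (α none) := by
        ext i
        cases i with
        | none => simp
        | some j =>
          rw [← Finsupp.some_apply, h1]
          simp [Finsupp.single_apply]
      rw [h2, map_add, Finsupp.degree_single, Finsupp.degree_single] at h
      have h3 : α none = 0 := by omega
      rw [h3, Finsupp.single_zero, add_zero] at h2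
      exact e h2

/-- the top coefficient in one variable (expand `P` in monomials: `deh (monomial α a) =
monomial α.some a`) -/
theorem coeff_single_deh {P : MP (Option ι) R} {m : ℕ} (h : P.IsHomogeneous m) (t : ι) :
    coeff (Finsupp.single t m) (deh P) = eval (Pi.single (some t) 1) P := by
  conv_lhs => rw [P.as_sum, map_sum, coeff_sum]
  conv_rhs => rw [P.as_sum, map_sum]
  refine Finset.sum_congr rfl fun α hα => cch_mon ?_ _ t
  exact (h.degree_eq_sum_deg_support hα).symm

/-- a polynomial of total degree at most `m` with coefficient `1` at `τ ^ m` -/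
theorem tmonic_of_coeff [Nontrivial R] {p : MP (Option σ) R} {m : ℕ} (h : p.totalDegree ≤ m)
    (h1 : coeff (Finsupp.single none m) p = 1) : TMonic p ∧ (tp p).natDegree = m := by
  have h2 : (tp p).natDegree ≤ m := by
    rw [tp, natDegree_optionEquivLeft]
    exact (degreeOf_le_totalDegree _ _).trans h
  have h3 : m ≤ p.totalDegree := by
    have := le_totalDegree (mem_support_iff.2 (h1 ▸ one_ne_zero : coeff _ p ≠ 0))
    rwa [Finsupp.sum_single_index rfl] at this
  have h4 := totalDegree_coeff_optionEquivLeft_add_le _ _ p m h3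
  have h5 : (tp p).coeff m = 1 := by
    rw [totalDegree_eq_zero_iff_eq_C.1 (show ((tp p).coeff m).totalDegree = 0 by
      change _ + m ≤ _ at h4; unfold tp; omega)]
    rw [coeff_single_none] at h1
    exact (congrArg C h1).trans C_1
  have h6 : (tp p).natDegree = m :=
    Polynomial.natDegree_eq_of_le_of_coeff_ne_zero h2 (h5 ▸ one_ne_zero)
  exact ⟨⟨Polynomial.monic_of_natDegree_le_of_coeff_eq_one _ h2 h5, h6 ▸ h⟩, h6⟩

theorem cch_single {P : MP (Option (Option σ)) R} {m : ℕ} (h : P.IsHomogeneous m) :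
    coeff (Finsupp.single none m) (deh P) = eval (Pi.single (some none) 1) P :=
  (coeff_single_deh h none).trans (congrArg
    (fun d => eval (@Pi.single _ (fun _ => R) _ d (some none) 1) P) (Subsingleton.elim _ _))

theorem cch_ev {S : Type} [CommRing S] (φ : R →+* S) (ξ : ι → S) (θ : S)
    (p : (MP (Option ι) R)[X]) :
    ev φ ξ θ (p.map (deh : MP (Option ι) R →ₐ[R] MP ι R).toRingHom) =
      ev φ (fun i => i.elim 1 ξ) θ p := by
  rw [ev_def, ev_def, Polynomial.eval₂_map]
  exact congrArg (fun f => Polynomial.eval₂ f θ p) (RingHom.ext fun q => eval₂_deh φ ξ q)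

theorem cch_sb {N : ℕ} (pp : Fin (N + 1) → (MP (Option ι) R)[X]) (G : Fm N R) :
    sb (fun j => (pp j).map (deh : MP (Option ι) R →ₐ[R] MP ι R).toRingHom) G =
      (sb pp G).map (deh : MP (Option ι) R →ₐ[R] MP ι R).toRingHom := by
  rw [map_sb (RingHom.id R) _ (fun a => by simp [deh]) pp G, map_id]

theorem cch_bez [Nontrivial R] {p : R[X]} {m : ℕ} (hm : p.Monic) (h : p.natDegree = m) :
    ∃ α β, Polynomial.C (p.resultant (Polynomial.derivative p) m (m - 1)) =
      α * p + β * Polynomial.derivative p := by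
  by_cases h0 : m = 0
  · refine ⟨Polynomial.C (p.resultant (Polynomial.derivative p) m (m - 1)), 0, ?_⟩
    have h1 : p = 1 := hm.natDegree_eq_zero.1 (h.trans h0)
    rw [zero_mul, add_zero]
    exact ((congrArg _ h1).trans (mul_one _)).symm
  · obtain ⟨a, b, -, -, e⟩ := Polynomial.exists_mul_add_mul_eq_C_resultant p
      (Polynomial.derivative p) h.le (h ▸ Polynomial.natDegree_derivative_le p) (Or.inl h0)
    exact ⟨a, b, by rw [← e]; ring⟩

variable {k : Type} [Field k] {X : Var k}

/-- All data are mapped by `deh`. With `W = χ' * sb pp l ^ (d - 1)` one has `sb pp (f none) ≡ W`,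
`sb pp (f (some i)) ≡ X i * W`, `sb pp th ≡ Z * W` modulo `χ`. `fro`: `WH.ev_smul` with
`c = f none x`. `sep`: the top form is `χ.map (eval q)`, `Cover.separable`. `bezΦ`:
`exists_mul_add_mul_eq_C_resultant`, and `Ψ = 1` if `γ = 0`. For the pointwise fields use
`letI := φ.toAlgebra`, `Var.zer_IK`, `Var.IK_self`. -/
theorem Cover.exists_chart (c : Cover X (Option (Option σ)))
    (hq : eval (Pi.single (some none) 1) c.G ≠ 0) :
    ∃ e : Chart k σ X.N (X.IK k), e.d = c.d ∧ e.δ = c.δ ∧ e.f = c.f ∧ e.th = c.th ∧ e.l0 = c.l ∧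
      e.χ = c.χ.map (deh : MP (Option (Option σ)) k →ₐ[k] MP (Option σ) k).toRingHom ∧
      e.D = deh c.D ∧ e.Ψ = C (eval (Pi.single (some none) 1) c.G)⁻¹ * deh c.G ∧
      (tp e.Ψ).natDegree = c.γ ∧
      e.Φ = (tp e.Ψ).resultant (Polynomial.derivative (tp e.Ψ)) c.γ (c.γ - 1) := by
  set dh := (deh : MP (Option (Option σ)) k →ₐ[k] MP (Option σ) k).toRingHom with hdh
  have htm : TMonic (C (eval (Pi.single (some none) 1) c.G)⁻¹ * deh c.G : MP (Option σ) k) ∧ _ :=
    tmonic_of_coeff (m := c.γ) ((totalDegree_mul _ _).trans (by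
      rw [totalDegree_C, zero_add]
      exact totalDegree_deh_le c.hG)) (by
      rw [coeff_C_mul, cch_single c.hG, inv_mul_cancel₀ hq])
  have e : ∀ G, sb (fun j => (c.pp j).map dh) G = (sb c.pp G).map dh := cch_sb c.pp
  have x0 : dh (MvPolynomial.X none) = 1 := by simp [hdh, deh]
  have x1 : ∀ i, dh (MvPolynomial.X (some i)) = MvPolynomial.X i := fun i => by simp [hdh, deh]
  have f0 := Polynomial.map_dvd dh (c.dv_f none)
  rw [Polynomial.map_sub, Polynomial.map_mul, Polynomial.map_C, x0, Polynomial.C_1, one_mul] at f0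
  have hz : ∀ (Ω : Type) [Field Ω] (φ : k →+* Ω) (x : Fin (X.N + 1) → Ω), Zer (X.IK k) φ x →
      (letI := φ.toAlgebra; X.Zr x) := fun Ω _ φ x hx => by
    let _ := φ.toAlgebra
    exact (Var.zer_IK φ fun _ => rfl).1 hx
  refine ⟨⟨⟨c.δ, c.χ.map dh, deh c.D, C (eval (Pi.single (some none) 1) c.G)⁻¹ * deh c.G, _,
    c.monic.map _, by rw [c.monic.natDegree_map, c.deg], c.pos, fun i => ?_, ?_, ?_, htm.1,
    cch_bez htm.1.1 htm.2, ?_⟩, c.d, c.f, c.th, c.l, fun j => (c.pp j).map dh, c.dpos, c.hf,
    c.hth, c.hl, fun G hG => ?_, fun i => ?_, ?_, fun Ω _ φ ξ θ h1 h2 => ?_,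
    fun Ω _ φ x ξ θ hx h1 h2 h3 => ?_, fun j => ?_⟩,
    rfl, rfl, rfl, rfl, rfl, rfl, rfl, rfl, htm.2, rfl⟩
  · rw [Polynomial.coeff_map]
    exact totalDegree_deh_le (c.wχ.coeff i)
  · obtain ⟨β, α, h⟩ := c.bez
    refine ⟨α.map dh, (β * sb c.pp c.l).map dh, ?_⟩
    rw [Polynomial.derivative_map, ← Polynomial.map_mul, ← Polynomial.map_mul,
      ← Polynomial.map_add, show α * c.χ + β * sb c.pp c.l * Polynomial.derivative c.χ =
        Polynomial.C c.D by rw [mul_comm α, ← h]; ring, Polynomial.map_C]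
    rfl
  · obtain ⟨r, h⟩ := c.dvd
    refine ⟨r, ?_⟩
    rw [mul_pow, ← map_pow deh]
    exact (map_dvd _ h).mul_left _
  · have h1 := c.separable (Ω := k) (y := Pi.single (some none) 1)
      ((c.D_ne_iff _).2 (by rwa [aeval_eq_eval]))
    rw [Polynomial.as_sum_range' (c.χ.map _) (c.δ + 1)
      (Nat.lt_succ_of_le (Polynomial.natDegree_map_le.trans c.deg.le))] at h1
    refine Eq.mp (congrArg Polynomial.Separable (Finset.sum_congr rfl fun i _ => ?_)) h1
    rw [Polynomial.coeff_map, Polynomial.coeff_map]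
    exact congrArg _ (cch_single (c.wχ.coeff i)).symm
  · rw [e]
    rw [Var.IK_self] at hG
    exact Polynomial.map_dvd dh (c.dv_on G hG)
  · have h := Polynomial.map_dvd dh (c.dv_f (some i))
    rw [Polynomial.map_sub, Polynomial.map_mul, Polynomial.map_C, x1] at h
    have h2 := dvd_sub h (f0.mul_left (Polynomial.C (MvPolynomial.X i)))
    rwa [mul_sub, sub_sub_sub_cancel_right, ← e, ← e] at h2
  · have h := Polynomial.map_dvd dh c.dv_th
    rw [Polynomial.map_sub, Polynomial.map_mul, Polynomial.map_X] at h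
    have h2 := dvd_sub h (f0.mul_left Polynomial.X)
    rwa [mul_sub, sub_sub_sub_cancel_right, ← e, ← e] at h2
  · rw [cch_ev] at h1
    rw [eval₂_deh] at h2
    rw [e, e, cch_ev, cch_ev]
    obtain ⟨β, α, h⟩ := c.bez
    have h3 := congrArg (ev φ (fun i => i.elim 1 ξ) θ) h
    rw [map_mul, h1, zero_mul, map_sub, sub_eq_zero, ev_C, map_mul, map_mul] at h3
    rw [h3] at h2
    have h4 := right_ne_zero_of_mul h2
    obtain ⟨α', h'⟩ := c.dv_f none
    have h5 := congrArg (ev φ (fun i => i.elim 1 ξ) θ) h'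
    rw [map_mul, h1, zero_mul, map_sub, sub_eq_zero, map_mul, map_mul, map_pow, ev_C,
      eval₂_X] at h5
    refine ⟨?_, right_ne_zero_of_mul h4⟩
    rw [h5]
    exact mul_ne_zero one_ne_zero (mul_ne_zero (left_ne_zero_of_mul h4)
      (pow_ne_zero _ (right_ne_zero_of_mul h4)))
  · have hx' := hz Ω φ x hx
    let _ := φ.toAlgebra
    have h4 : (fun i => aeval x (c.f i)) =
        eval₂ φ x (c.f none) • fun i : Option (Option σ) => i.elim 1 ξ := by
      funext i
      cases i with
      | none => exact (mul_one _).symm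
      | some i => exact (h2 i).trans (mul_comm _ _)
    have h5 : aeval x c.th = eval₂ φ x (c.f none) * θ := h3.trans (mul_comm _ _)
    have h6 := pow_ne_zero c.δ h1
    refine ⟨?_, fun _ => ?_⟩
    · have h7 := c.root Ω x hx'
      rw [h4, h5, c.wχ.ev_smul] at h7
      rw [cch_ev]
      exact (mul_eq_zero.1 h7).resolve_left h6
    · refine ⟨(eval₂ φ x (c.f none) ^ c.δ)⁻¹ * (ev (algebraMap k Ω) (fun i => aeval x (c.f i))
        (aeval x c.th) (Polynomial.derivative c.χ) * aeval x c.l ^ (c.d - 1)), fun j => ?_⟩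
      rw [cch_ev, mul_assoc, ← c.fro Ω x hx' j, h4, h5, (c.wp j).ev_smul, inv_mul_cancel_left₀ h6]
      rfl
  · obtain ⟨H, h1, h2, h3⟩ := c.int j
    refine ⟨H.natDegree, H, h1, rfl, h2.coeff, fun Ω _ φ x hx => ?_⟩
    have hx' := hz Ω φ x hx
    let _ := φ.toAlgebra
    exact h3 Ω x hx'

end Pool.Agent.ZCy
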