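import Pool.Agent.Lib.MP_751085_ag.ZC.CGen
import Pool.Agent.Lib.MP_751085_ag.ZC.CMap

/-! Charts are geometrically irreducible and give the function field. -/

namespace Pool.Agent.ZCy

open scoped Classical Polynomial
open MvPolynomial Set

set_option linter.unusedSectionVars false

variable {k K σ : Type} [Field k] [CharZero k] [Field K] [Algebra k K] [Fintype σ] {X : Var k}
  {n : ℕ} (c : Chart K σ X.N (X.IK K))

theorem chf_D_ne (c : PChart K σ) : c.D ≠ 0 := fun h => by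
  obtain ⟨r, hr⟩ := c.dvd
  have h0 : c.Ψ = 0 := eq_zero_of_pow_eq_zero (zero_dvd_iff.1 (h ▸ hr))
  exact c.tm.1.ne_zero (by rw [h0]; exact map_zero _)

theorem chf_ne {ι K' Ω : Type} [Field K'] [Field Ω] [Algebra K K'] [Algebra K' Ω] [Algebra K Ω]
    [IsScalarTower K K' Ω] {ξ : ι → Ω} (hξ : AlgebraicIndependent K' ξ) {p : MP ι K} (hp : p ≠ 0) :
    eval₂ (algebraMap K Ω) ξ p ≠ 0 := fun h => hp (map_injective _ (algebraMap K K').injective (by
  rw [map_zero]
  refine hξ.eq_zero_of_aeval_eq_zero _ ?_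
  rw [aeval_map_algebraMap]
  exact h))

theorem chf_ev_dvd {R S ι : Type} [CommRing R] [CommRing S] {φ : R →+* S} {ξ : ι → S} {θ : S}
    {p q : (MP ι R)[X]} (hp : ev φ ξ θ p = 0) (h : p ∣ q) : ev φ ξ θ q = 0 := by
  obtain ⟨r, rfl⟩ := h
  rw [map_mul, hp, zero_mul]

theorem chf_ev_C {R S ι : Type} [CommRing R] [CommRing S] (φ : R →+* S) (ξ : ι → S) (θ : S)
    (p : MP ι R) : ev φ ξ θ (Polynomial.C p) = eval₂ φ ξ p := by
  rw [ev_def, Polynomial.eval₂_C]; rfl

theorem chf_toE {ι F : Type} [Field F] [Algebra (RF ι K) F] :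
    eval₂Hom ((toE (MP ι K) F).comp C) (fun i => toE (MP ι K) F (MvPolynomial.X i)) =
      toE (MP ι K) F := by
  refine ringHom_ext (fun a => ?_) fun i => ?_
  · rw [eval₂Hom_C]; rfl
  · rw [eval₂Hom_X']

theorem chf_ind {ι F : Type} [Field F] [Algebra (RF ι K) F] [Algebra K F]
    (h : algebraMap K F = (toE (MP ι K) F).comp C) :
    AlgebraicIndependent K fun i => toE (MP ι K) F (MvPolynomial.X i) := by
  refine algebraicIndependent_iff.2 fun p hp => ?_
  rw [aeval_def, h, ← coe_eval₂Hom, chf_toE] at hp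
  exact ((algebraMap (RF ι K) F).injective.comp (IsFractionRing.injective (MP ι K) (RF ι K)))
    (hp.trans (map_zero (toE (MP ι K) F)).symm)

/-- The point of a root of `χ` over independent `ξ`. `D ≠ 0` because `D ∣ Ψ ^ r`, `Ψ` monic; `c.ne`,
`dv_on`, `dv_f`, `dv_th`, `ev_sb`. After scaling to `x i = 1` the `ξ j` are quotients of values of
forms of the same degree, so lie in `acl K' (range x)` (`aeval_mem_acl`). -/
theorem Chart.gen_pt (hσ : Fintype.card σ + 1 = n) {K' Ω : Type} [Field K'] [Field Ω] [Algebra K K']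
    [Algebra K' Ω] [Algebra K Ω] [Algebra k Ω] [IsScalarTower K K' Ω] [IsScalarTower k K Ω]
    {ξ : Option σ → Ω} {θ : Ω} (hξ : AlgebraicIndependent K' ξ)
    (hθ : ev (algebraMap K Ω) ξ θ c.χ = 0) : ∃ (x : Fin (X.N + 1) → Ω) (u : Ω)
      (i : Fin (X.N + 1)), u ≠ 0 ∧ c.pv (algebraMap K Ω) ξ θ = u • x ∧ X.On x ∧ x i = 1 ∧
      (n : ℕ∞) ≤ rk K' (range x) ∧ aeval x (c.f none) ≠ 0 ∧
      (∀ j, aeval x (c.f (some j)) = ξ j * aeval x (c.f none)) ∧
      aeval x c.th = θ * aeval x (c.f none) := by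
  have hD := chf_ne hξ (chf_D_ne c.toPChart)
  have hsb : ∀ G, ev (algebraMap K Ω) ξ θ (sb c.pp G) = aeval (c.pv (algebraMap K Ω) ξ θ) G :=
    fun G => ev_sb _ _ _ _ G
  have h0 := (c.ne Ω _ ξ θ hθ hD).1
  rw [hsb] at h0
  generalize c.pv (algebraMap K Ω) ξ θ = y at hsb h0
  have hy : y ≠ 0 := fun e => h0 (by
    have := aeval_smul_hom (c.hf none) (0 : Ω) y
    rwa [zero_pow c.dpos.ne', zero_mul, zero_smul, ← e] at this)
  obtain ⟨i, hi⟩ := Function.ne_iff.1 hy
  have hi' : (y i)⁻¹ ≠ 0 := inv_ne_zero hi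
  have hon : X.On y := ⟨hy, (Var.zer_IK (algebraMap K Ω)
    (fun a => (IsScalarTower.algebraMap_apply k K Ω a).symm)).1 fun G hG =>
      (hsb G).symm.trans (chf_ev_dvd hθ (c.dv_on G hG))⟩
  have e0 : aeval ((y i)⁻¹ • y) (c.f none) ≠ 0 := by
    rw [aeval_smul_hom (c.hf none)]
    exact mul_ne_zero (pow_ne_zero _ hi') h0
  have e1 : ∀ j, aeval ((y i)⁻¹ • y) (c.f (some j)) = ξ j * aeval ((y i)⁻¹ • y) (c.f none) :=
    fun j => by
    have := chf_ev_dvd hθ (c.dv_f j)
    rw [map_sub, map_mul, hsb, hsb, chf_ev_C, eval₂_X, sub_eq_zero] at this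
    rw [aeval_smul_hom (c.hf none), aeval_smul_hom (c.hf _), this, mul_left_comm]
  have e2 : aeval ((y i)⁻¹ • y) c.th = θ * aeval ((y i)⁻¹ • y) (c.f none) := by
    have := chf_ev_dvd hθ c.dv_th
    rw [map_sub, map_mul, hsb, hsb, ev_def, Polynomial.eval₂_X, sub_eq_zero] at this
    rw [aeval_smul_hom (c.hf none), aeval_smul_hom c.hth, this, mul_left_comm]
  refine ⟨(y i)⁻¹ • y, y i, i, hi, (smul_inv_smul₀ hi y).symm, hon.smul hi',
    inv_mul_cancel₀ hi, ?_, e0, e1, e2⟩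
  have hr := rk_range_iff.2 hξ
  rw [Fintype.card_option, hσ] at hr
  refine hr.trans (rk_le_of_acl ?_)
  rintro _ ⟨j, rfl⟩
  have hm : ∀ P : Fm X.N K, aeval ((y i)⁻¹ • y) P ∈ acl K' (range ((y i)⁻¹ • y)) := fun P => by
    rw [← aeval_map_algebraMap K']
    exact aeval_mem_acl (fun l => mem_acl_of_mem (mem_range_self l)) _
  rw [SetLike.mem_coe, ← mul_div_cancel_right₀ (ξ j) e0, ← e1]
  exact div_mem (hm _) (hm _)

theorem chf_irr (hX : X.Nice n) (hσ : Fintype.card σ + 1 = n) {K' Ω : Type} [Field K'] [Field Ω]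
    [IsAlgClosed Ω] [Algebra K K'] [Algebra k K'] [Algebra K' Ω] [Algebra K Ω] [Algebra k Ω]
    [IsScalarTower K K' Ω] [IsScalarTower k K Ω] [IsScalarTower k K' Ω] {ξ : Option σ → Ω}
    (hξ : AlgebraicIndependent K' ξ) : Irreducible (mq (algebraMap K K') c.χ) := by
  have hm : (mq (algebraMap K K') c.χ).Monic := c.monic.map _
  have hev : ∀ θ p, ev (algebraMap K' Ω) ξ θ (mq (algebraMap K K') p) =
      ev (algebraMap K Ω) ξ θ p := fun θ p => by
    rw [ev_mq, ← IsScalarTower.algebraMap_eq]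
  refine hm.irreducible_iff_natDegree.2 ⟨fun e => ?_, fun f g hf hg e => ?_⟩
  · have h1 : (mq (algebraMap K K') c.χ).natDegree = c.δ := (c.monic.natDegree_map _).trans c.deg
    rw [e, Polynomial.natDegree_one] at h1
    exact c.pos.ne h1
  by_contra hne
  rw [not_or] at hne
  have hi : Function.Injective (eval₂Hom (algebraMap K' Ω) ξ) :=
    algebraicIndependent_iff_injective_aeval.1 hξ
  have hroot : ∀ p : (MP (Option σ) K')[X], p.natDegree ≠ 0 →
      ∃ θ, ev (algebraMap K' Ω) ξ θ p = 0 := fun p hp =>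
    IsAlgClosed.exists_eval₂_eq_zero_of_injective _ hi p fun h =>
      hp (Polynomial.natDegree_eq_of_degree_eq_some h)
  obtain ⟨θ₁, h1⟩ := hroot f hne.1
  obtain ⟨θ₂, h2⟩ := hroot g hne.2
  have c1 : ev (algebraMap K Ω) ξ θ₁ c.χ = 0 := by rw [← hev, ← e, map_mul, h1, zero_mul]
  have c2 : ev (algebraMap K Ω) ξ θ₂ c.χ = 0 := by rw [← hev, ← e, map_mul, h2, mul_zero]
  obtain ⟨x₁, -, i₁, -, -, a1, a2, a3, -, a5, a6⟩ := c.gen_pt hσ hξ c1
  obtain ⟨x₂, -, -, -, -, b1, -, -, b4, b5, b6⟩ := c.gen_pt hσ hξ c2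
  obtain ⟨M, P, hP, hcl⟩ := exists_clear (d := c.d) ((optionEquivLeft K' (Option σ)).symm f)
    (e := fun i => i.elim (map (algebraMap K K') c.th) fun j => map (algebraMap K K') (c.f (some j)))
    (s := map (algebraMap K K') (c.f none))
    (fun i => by cases i; exacts [c.hth.map _, (c.hf _).map _]) ((c.hf none).map _)
  have key : ∀ (x : Fin (X.N + 1) → Ω) (θ : Ω),
      (∀ j, aeval x (c.f (some j)) = ξ j * aeval x (c.f none)) →
      aeval x c.th = θ * aeval x (c.f none) →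
      aeval x P = aeval x (c.f none) ^ M * ev (algebraMap K' Ω) ξ θ f := fun x θ e1 e2 => by
    rw [hcl Ω x (fun i => i.elim θ ξ) fun i => by
      cases i <;> simp only [Option.elim, aeval_map_algebraMap]
      exacts [e2, e1 _], aeval_map_algebraMap, aeval_def (fun i : Option (Option σ) => i.elim θ ξ),
      eval₂_tp, tp, AlgEquiv.apply_symm_apply]
    rfl
  have hs := hX.gen_span a1 a2 a3 hP (by rw [key x₁ θ₁ a5 a6, h1, mul_zero])
  have hz : aeval x₂ P = 0 := Zer.span ((Var.zer_IK (algebraMap K' Ω)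
    (fun a => (IsScalarTower.algebraMap_apply k K' Ω a).symm)).2 b1.zr) hs
  rw [key x₂ θ₂ b5 b6] at hz
  have h3 := (mul_eq_zero.1 hz).resolve_left (pow_ne_zero _ b4)
  obtain ⟨α, β, hb⟩ := c.bez
  have h4 := congrArg (ev (algebraMap K Ω) ξ θ₂) hb
  have h5 : ev (algebraMap K Ω) ξ θ₂ (Polynomial.derivative c.χ) = 0 := by
    rw [← hev, Polynomial.coe_mapRingHom, ← Polynomial.derivative_map,
      ← Polynomial.coe_mapRingHom, ← e, Polynomial.derivative_mul, map_add, map_mul, map_mul, h2,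
      h3, mul_zero, zero_mul, add_zero]
  rw [chf_ev_C, map_add, map_mul, map_mul, c2, h5, mul_zero, mul_zero, add_zero] at h4
  exact chf_ne hξ (chf_D_ne c.toPChart) h4

/-- `K' = AlgebraicClosure K`, `Ω` the algebraic closure of `RF (Option σ) K'`, `ξ` the variables. If
`mq χ = χ₁ χ₂` with monic factors of positive degree (`Monic.irreducible_iff_natDegree`), take roots
`θ₁`, `θ₂` in `Ω` and the points `x₁`, `x₂` of `gen_pt`. `exists_clear` for
`Q = (optionEquivLeft _ _).symm χ₁` (`eval₂_tp`) gives a form over `K'` that vanishes at `x₁`, so lies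
in the span of `X.IK K'` (`gen_span`), so vanishes at `x₂`. Then `θ₂` is a double root of `χ`,
against `bez` and `D ≠ 0`. -/
theorem Var.Nice.chart_gi (hX : X.Nice n) (hσ : Fintype.card σ + 1 = n) : c.GI :=
  chf_irr c hX hσ (Ω := AlgebraicClosure (RF (Option σ) (AlgebraicClosure K))) (chf_ind rfl)

/-- `gen_pt` with `K' = K`, `exists_dom`, `Dom.smul` -/
theorem Var.Nice.chart_dom (hX : X.Nice n) (hσ : Fintype.card σ + 1 = n) {F' : Type} [Field F']
    [Algebra (RF (Option σ) K) F'] [Algebra k F'] {θ : F'}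
    (hθ : Polynomial.eval₂ (toE (MP (Option σ) K) F') θ c.χ = 0)
    (ha : ∀ a : k, algebraMap k F' a = toE (MP (Option σ) K) F' (C (algebraMap k K a))) :
    ∃ γ : X.F →+* F', X.Dom γ (c.pv ((toE (MP (Option σ) K) F').comp C)
      (fun i => toE (MP (Option σ) K) F' (MvPolynomial.X i)) θ) := by
  let : Algebra K F' := ((toE (MP (Option σ) K) F').comp C).toAlgebra
  have : IsScalarTower k K F' := IsScalarTower.of_algebraMap_eq ha
  have hθ' : ev (algebraMap K F') (fun i => toE (MP (Option σ) K) F' (MvPolynomial.X i)) θ c.χ =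
      0 := by
    rw [ev_def, ← hθ]
    exact congrArg (fun φ => Polynomial.eval₂ φ θ c.χ) chf_toE
  obtain ⟨x, u, i, hu, e, a1, a2, a3, -⟩ := c.gen_pt hσ (K' := K) (chf_ind rfl) hθ'
  obtain ⟨γ, hγ⟩ := a1.exists_dom hX.dim a2 (a3.trans (rk_le_of_tower _))
  refine ⟨γ, ?_⟩
  have := hγ.smul hu
  rwa [← e] at this

end Pool.Agent.ZCy
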