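import Pool.Agent.Lib.MP_751085_ag.ZC.CN1
import Pool.Agent.Lib.MP_751085_ag.ZC.CSp2

/-! Finitely many charts cover the variety and almost all its reductions. -/

namespace Pool.Agent.ZCy

open scoped Classical Polynomial
open MvPolynomial Filter

set_option linter.unusedSectionVars false

section

variable {R S : Type} [CommRing R] [CommRing S] {σ : Type} {N : ℕ} {GG : Set (Fm N R)}

/-- the form that defines the complement of the good open set -/
noncomputable def Chart.uf (c : Chart R σ N GG) : Fm N R :=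
  c.f none * ∑ r ∈ Finset.range (c.br.totalDegree + 1),
    eval₂ C (fun i => c.f (some i)) (homogeneousComponent r c.br) *
      c.f none ^ (c.br.totalDegree - r)

theorem Chart.U_iff (c : Chart R σ N GG) {Ω : Type} [Field Ω] (φ : R →+* Ω) (x : Fin (N + 1) → Ω) :
    c.U φ x ↔ eval₂ φ x c.uf ≠ 0 := by
  rw [Chart.U, Chart.Off, Chart.uf, eval₂_mul, mul_ne_zero_iff, and_congr_right_iff]
  intro h
  have e : eval₂ φ x (∑ r ∈ Finset.range (c.br.totalDegree + 1),
      eval₂ C (fun i => c.f (some i)) (homogeneousComponent r c.br) *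
        c.f none ^ (c.br.totalDegree - r)) =
      eval₂ φ x (c.f none) ^ c.br.totalDegree * eval₂ φ (c.xi φ x) c.br := by
    conv_rhs => rw [← sum_homogeneousComponent c.br]
    rw [eval₂_sum, eval₂_sum, sum_homogeneousComponent, Finset.mul_sum]
    refine Finset.sum_congr rfl fun r hr => ?_
    have e1 : (fun i => eval₂Hom φ x (c.f (some i))) = eval₂ φ x (c.f none) • c.xi φ x :=
      funext fun i => (mul_div_cancel₀ _ h).symm
    rw [eval₂_mul, eval₂_pow, ← coe_eval₂Hom φ x, ← coe_eval₂Hom C, map_eval₂Hom,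
      show (eval₂Hom φ x).comp C = φ from RingHom.ext fun a => eval₂Hom_C _ _ a, e1, coe_eval₂Hom,
      coe_eval₂Hom, eval₂_smul_hom (homogeneousComponent_isHomogeneous r _), mul_right_comm,
      ← pow_add, Nat.add_sub_cancel' (Nat.lt_succ_iff.1 (Finset.mem_range.1 hr))]
  rw [e, mul_ne_zero_iff, and_iff_right (pow_ne_zero _ h)]

theorem Chart.IsMap.uf {GG' : Set (Fm N S)} {c : Chart R σ N GG} {c' : Chart S σ N GG'}
    {φ : R →+* S} (h : c.IsMap φ c') (hφ : Function.Injective φ) : c'.uf = map φ c.uf := by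
  rw [Chart.uf, Chart.uf, h.p.br, totalDegree_map_inj hφ, map_mul, map_sum, h.f]
  congr 1
  refine Finset.sum_congr rfl fun r _ => ?_
  have e : homogeneousComponent r (map φ c.br) = map φ (homogeneousComponent r c.br) := by
    ext m
    rw [coeff_map, coeff_homogeneousComponent, coeff_homogeneousComponent, coeff_map]
    split_ifs <;> simp
  rw [map_mul, map_pow, e, eval₂_map, eval₂_comp_left]
  congr 2
  · exact RingHom.ext fun a => (map_C φ a).symm
  · exact funext fun i => h.f _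

theorem CHv.map (h : CHv σ GG) (ρ : R →+* S) : CHv σ (map ρ '' GG) := fun Ω _ φ x h0 hx => by
  have := φ.domain_nontrivial
  obtain ⟨c, h1, h2⟩ := h Ω (φ.comp ρ) x h0 (Zer.map_image.1 hx)
  obtain ⟨c', hc⟩ := c.exists_map_image ρ
  exact ⟨c', by simpa [hc.p.δ] using h1.map ρ, (hc.U φ x).2 h2⟩

end

variable {k : Type} [Field k] [CharZero k] {X : Var k} {n : ℕ} {σ : Type} [Fintype σ]

/-- a chart with a given index type that is good at a given point -/
theorem Var.Nice.exists_chart_U (hX : X.Nice n) (hσ : Fintype.card σ + 1 = n) {M : Type} [Field M]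
    [Algebra k M] {x : Fin (X.N + 1) → M} (hx : X.On x) :
    ∃ c : Chart k σ X.N (X.IK k), c.U (algebraMap k M) x := by
  obtain ⟨a, c, -, -, -, h⟩ := (hX.cover_S (ι := Option (Option σ)) (by simp; omega) (d := 2) le_rfl
    (q := fun _ => 1) (fun h => one_ne_zero (congrFun h none)) (Set.finite_singleton x)
    fun _ h => h ▸ hx).exists
  obtain ⟨q, h3, h4⟩ := (Gn.and ⟨MvPolynomial.X (some none) * c.G,
    mul_ne_zero (X_ne_zero _) c.sqf.ne_zero, fun _ h => h⟩
    (c.gn_at (h x rfl).1 ((h x rfl).2 none))).exists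
  simp only [map_mul, eval_X, mul_ne_zero_iff] at h3
  obtain ⟨e, -, h5, -⟩ := c.chart_at h3.1 h3.2
  exact ⟨e, h5 M x h4.1 h4.2⟩

/-- finitely many charts cover `X` -/
theorem Var.Nice.exists_atlas (hX : X.Nice n) (hσ : Fintype.card σ + 1 = n) {GG : Set (Fm X.N k)}
    (h1 : GG ⊆ X.I) (h2 : ∀ G ∈ X.I, G ∈ Ideal.span GG) : ∃ s : Set (Chart k σ X.N GG), s.Finite ∧
      ∀ (Ω : Type) [Field Ω] (φ : k →+* Ω) (x : Fin (X.N + 1) → Ω), Zer GG φ x →
        (∀ c ∈ s, eval₂ φ x c.uf = 0) → x = 0 := by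
  obtain ⟨t, ht, hs⟩ := (Submodule.fg_span_iff_fg_span_finset_subset (R := Fm X.N k)
    (Set.range fun c : Chart k σ X.N GG => c.uf)).1 (IsNoetherian.noetherian _)
  obtain ⟨s, -, hf, he⟩ := Set.Finite.exists_subset_finite_image_eq t.finite_toSet
    (s := Set.univ) (f := fun c : Chart k σ X.N GG => c.uf) (by rwa [Set.image_univ])
  refine ⟨s, hf, fun Ω _ φ x hx h => by_contra fun h0 => ?_⟩
  let _ := φ.toAlgebra
  obtain ⟨c, hc⟩ := hX.exists_chart_U hσ (x := x) ⟨h0, fun G hG => hx.span (h2 G hG)⟩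
  obtain ⟨c', hc'⟩ := c.exists_transfer (GG' := GG)
    (fun G hG => Ideal.subset_span (X.IK_self ▸ h1 hG)) fun _ _ _ _ hy G hG =>
      hy.span (h2 G (X.IK_self ▸ hG))
  have h3 : c'.uf ∈ Ideal.span (t : Set (Fm X.N k)) := by
    rw [Ideal.span, ← hs]; exact Submodule.subset_span ⟨c', rfl⟩
  refine (c'.U_iff φ x).1 ((hc'.U φ x).2 hc) (Zer.span (fun G hG => ?_) h3)
  obtain ⟨e, h4, rfl⟩ := he.symm ▸ hG
  exact h e h4

variable {V : Type} {𝓕 : Filter V} {R : V → Subring k}

/-- almost all reductions are covered by charts -/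
theorem Var.Nice.chv_spread (hR : ∀ t, ∀ᶠ v in 𝓕, t ∈ (R v).subtype.range) (hX : X.Nice n)
    (hσ : Fintype.card σ + 1 = n) {GG : Set (Fm X.N k)} (hG : GG.Finite) (h1 : GG ⊆ X.I)
    (h2 : ∀ G ∈ X.I, G ∈ Ideal.span GG) :
    ∀ᶠ v in 𝓕, CHv σ (map (R v).subtype ⁻¹' GG) := by
  obtain ⟨s, hs, h⟩ := hX.exists_atlas hσ h1 h2
  have := hG.to_subtype
  have := hs.to_subtype
  have hi (v : V) := (R v).subtype_injective
  have e (A Ω : Type) [CommRing A] [CommRing Ω] (ψ : Fm X.N A →+* Ω) (P : Fm X.N A) :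
      MvPolynomial.eval₂ (ψ.comp C) (fun i => ψ (MvPolynomial.X i)) P = ψ P := by
    conv_rhs => rw [← eval₂_eta P, eval₂_comp_left]
    rfl
  filter_upwards [eventually_all.2 fun c : s => Chart.spread hR hG c.1,
    eventually_all.2 fun c : s => lf_unit hR hi (t := (c.1.δ.factorial : k))
      (Nat.cast_ne_zero.2 (Nat.factorial_ne_zero _)).isUnit,
    eventually_all.2 fun G : GG => lf_mp hR G.1,
    eventually_all.2 fun i => spr (fun v => map (σ := Fin (X.N + 1)) (R v).subtype)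
      (fun v => map_injective _ (hi v)) (lf_mp hR) (Sum.elim (fun G : GG => G.1) fun c : s => c.1.uf)
      (MvPolynomial.X i) fun Ω _ ψ hψ => congrFun (h Ω (ψ.comp C) (fun i => ψ (MvPolynomial.X i))
        (fun G hG => (e _ _ ψ G).trans (hψ (Sum.inl ⟨G, hG⟩)))
        fun c hc => (e _ _ ψ _).trans (hψ (Sum.inr ⟨c, hc⟩))) i] with v h3 h4 h5 h6 Ω _ φ x h0 hx
  choose c' hc' using h3
  choose G' hG' using h5
  by_contra h7
  refine h0 (funext fun i => ?_)
  have h8 := h6 i (Sum.elim G' fun c => (c' c).uf) (MvPolynomial.X i)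
    (by rintro (G | c); exacts [hG' G, ((hc' c).uf (hi v)).symm]) (map_X _ _) Ω (eval₂Hom φ x) (by
      rintro (G | c)
      · exact hx _ (show map _ (G' G) ∈ GG from (hG' G).symm ▸ G.2)
      · by_contra h9
        exact h7 ⟨c' c, h4 c _ (by rw [map_natCast, (hc' c).p.δ]), ((c' c).U_iff φ x).2 h9⟩)
  rwa [eval₂Hom_X'] at h8

/-- the model given by the lifts of finitely many equations -/
theorem Var.model_spread (hR : ∀ t, ∀ᶠ v in 𝓕, t ∈ (R v).subtype.range) {GG : Set (Fm X.N k)}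
    (hG : GG.Finite) (h1 : GG ⊆ X.I) (h2 : ∀ G ∈ X.I, G ∈ Ideal.span GG) :
    ∀ᶠ v in 𝓕, ∀ (O K : Type) [CommRing O] [Field K] [Algebra k K] [Algebra O K]
      (ρ : R v →+* O), (∀ a, algebraMap O K (ρ a) = algebraMap k K a) →
        X.Model (K := K) (MvPolynomial.map ρ '' (MvPolynomial.map (R v).subtype ⁻¹' GG)) := by
  filter_upwards [lf_image (ι := fun v => MvPolynomial.map (σ := Fin (X.N + 1)) (R v).subtype)
    (lf_mp hR) hG] with v hv O K _ _ _ _ ρ hρ
  refine ⟨?_, ?_⟩
  · rintro _ ⟨G, hG, rfl⟩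
    obtain ⟨m, hm⟩ := (h1 hG).1
    exact ⟨m, (hm.of_map (R v).subtype_injective).map ρ⟩
  · have e : MvPolynomial.map (algebraMap O K) '' (MvPolynomial.map ρ ''
        (MvPolynomial.map (R v).subtype ⁻¹' GG)) = MvPolynomial.map (algebraMap k K) '' GG := by
      conv_rhs => rw [← hv]
      rw [Set.image_image, Set.image_image]
      refine Set.image_congr fun G _ => ?_
      rw [MvPolynomial.map_map, MvPolynomial.map_map,
        show (algebraMap O K).comp ρ = (algebraMap k K).comp (R v).subtype from RingHom.ext hρ]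
    rw [e, Var.IK, ← Ideal.map_span, ← Ideal.map_span,
      le_antisymm (Ideal.span_mono h1) (Ideal.span_le.2 h2)]

end Pool.Agent.ZCy
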