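import Pool.Agent.Lib.MP_751085_ag.ZC.CWh

/-! Elimination, divisors and radicals of forms. -/

namespace Pool.Agent.ZCy

open scoped Classical Polynomial
open MvPolynomial

set_option linter.unusedSectionVars false

variable {k : Type} [Field k] {ι : Type}

theorem res_hom {P : MP ι k} {m : ℕ} (h : P.IsHomogeneous m) :
    aeval (fun i => C 2 * X i) P = (C 2 : MP ι k) ^ m * P := by
  have := aeval_smul_hom h (C 2 : MP ι k) X
  rw [aeval_X_left_apply] at this
  exact this

theorem res_coeff (P : MP ι k) (α : ι →₀ ℕ) :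
    coeff α (aeval (fun i => (C 2 * X i : MP ι k)) P) = 2 ^ α.degree * coeff α P := by
  induction P using MvPolynomial.induction_on' with
  | monomial β a =>
    rw [res_hom (isHomogeneous_monomial a rfl), ← map_pow, coeff_C_mul, coeff_monomial]
    split_ifs with h
    · rw [h]
    · rw [mul_zero, mul_zero]
  | add p q hp hq => rw [map_add, coeff_add, coeff_add, hp, hq, mul_add]

/-- compare coefficients: `2 ^ deg α = 2 ^ m` -/
theorem hom_of_scale [CharZero k] {P : MP ι k} {m : ℕ}
    (h : aeval (fun i => C 2 * X i) P = C (2 ^ m) * P) : P.IsHomogeneous m := by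
  intro α hα
  have h1 := congrArg (coeff α) h
  rw [res_coeff, coeff_C_mul] at h1
  have h2 : (2 : k) ^ α.degree = 2 ^ m := mul_right_cancel₀ hα h1
  have h3 : (2 : ℕ) ^ α.degree = 2 ^ m := by exact_mod_cast h2
  have h4 : α.degree = m := Nat.pow_right_injective le_rfl h3
  rw [← h4, Finsupp.degree_eq_weight_one]
  rfl

theorem res_map {h : (MP ι k)[X]} {m : ℕ} (wh : WH m h) :
    h.map (aeval (fun i => (C 2 * X i : MP ι k)) : MP ι k →ₐ[k] MP ι k).toRingHom =
      Polynomial.C (C 2 ^ (m - h.natDegree)) * h.scaleRoots (C 2) := by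
  ext i : 1
  rw [Polynomial.coeff_map, Polynomial.coeff_C_mul, Polynomial.coeff_scaleRoots]
  by_cases hi : i ≤ h.natDegree
  · have h1 := wh.natDegree_le
    have h2 : m - i = (m - h.natDegree) + (h.natDegree - i) := by omega
    refine (res_hom (wh.coeff i)).trans ?_
    rw [h2, pow_add]
    ring
  · rw [Polynomial.coeff_eq_zero_of_natDegree_lt (not_le.1 hi), map_zero, zero_mul, mul_zero]

/-- `D` is the resultant -/
theorem exists_elim [CharZero k] {χ h : (MP ι k)[X]} {δ m : ℕ} (hm : χ.Monic) (hδ : χ.natDegree = δ)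
    (h0 : 0 < δ) (wχ : WH δ χ) (wh : WH m h) : ∃ D : MP ι k, D.IsHomogeneous (m * δ) ∧
      (∃ β, χ ∣ Polynomial.C D - β * h) ∧ ∀ (Ω : Type) [Field Ω] [Algebra k Ω] [IsAlgClosed Ω]
        (y : ι → Ω), (∀ z, ev (algebraMap k Ω) y z χ = 0 → ev (algebraMap k Ω) y z h ≠ 0) →
          aeval y D ≠ 0 := by
  subst hδ
  refine ⟨Polynomial.resultant χ h, hom_of_scale ?_, ?_, fun Ω _ _ _ y hy => ?_⟩
  · have h1 := Polynomial.resultant_map_map χ h χ.natDegree h.natDegree
      (aeval (fun i => (C 2 * X i : MP ι k)) : MP ι k →ₐ[k] MP ι k).toRingHom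
    have h2 := Polynomial.resultant_scaleRoots χ h (C 2 : MP ι k)
    rw [Polynomial.natDegree_scaleRoots, Polynomial.natDegree_scaleRoots] at h2
    rw [res_map wχ, res_map wh, Nat.sub_self, pow_zero, map_one, one_mul,
      Polynomial.resultant_C_mul_right, h2] at h1
    refine h1.symm.trans ?_
    have h3 := wh.natDegree_le
    have h4 : m * χ.natDegree = (m - h.natDegree) * χ.natDegree + χ.natDegree * h.natDegree := by
      rw [mul_comm χ.natDegree, ← add_mul, Nat.sub_add_cancel h3]
    rw [h4, map_pow, pow_add, ← pow_mul, mul_assoc]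
  · obtain ⟨p, q, -, -, e⟩ := Polynomial.exists_mul_add_mul_eq_C_resultant χ h le_rfl le_rfl
      (Or.inl h0.ne')
    exact ⟨q, p, by rw [← e]; ring⟩
  · have h1 := Polynomial.resultant_map_map χ h χ.natDegree h.natDegree
      (eval₂Hom (algebraMap k Ω) y)
    have hm' : (χ.map (eval₂Hom (algebraMap k Ω) y)).Monic := hm.map _
    have h2 := Polynomial.resultant_eq_prod_eval (χ.map (eval₂Hom (algebraMap k Ω) y))
      (h.map (eval₂Hom (algebraMap k Ω) y)) h.natDegree Polynomial.natDegree_map_le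
      (IsAlgClosed.splits _)
    rw [hm.natDegree_map, h1, hm'.leadingCoeff, one_pow, one_mul] at h2
    rw [aeval_def, ← coe_eval₂Hom, h2]
    refine Multiset.prod_ne_zero fun hz => ?_
    obtain ⟨z, hz1, hz2⟩ := Multiset.mem_map.1 hz
    refine hy z ?_ ?_
    · rw [ev_eq_eval]
      exact (Polynomial.mem_roots hm'.ne_zero).1 hz1
    · rw [ev_eq_eval]
      exact hz2

/-- A divisor of a form is a form. -/
theorem hom_of_dvd {R : Type} [CommRing R] [IsDomain R] {P D : MP ι R} {m : ℕ}
    (hD : D.IsHomogeneous m) (h0 : D ≠ 0) (h : P ∣ D) : ∃ γ, P.IsHomogeneous γ := by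
  obtain ⟨Q, rfl⟩ := h
  have h1 := scl_hom (S := MP ι R) hD X
  rw [map_mul, aeval_X_left_apply] at h1
  have hne : scl R (X : ι → MP ι R) P * scl R X Q ≠ 0 := by
    rw [h1]
    exact fun e => h0 (Polynomial.monomial_eq_zero_iff _ _ |>.1 e)
  have hP := left_ne_zero_of_mul hne
  have hQ := right_ne_zero_of_mul hne
  have h2 := Polynomial.natDegree_mul hP hQ
  have h3 := Polynomial.natTrailingDegree_mul hP hQ
  rw [h1, Polynomial.natDegree_monomial_eq _ h0] at h2
  rw [h1, Polynomial.natTrailingDegree_monomial h0] at h3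
  have h4 := Polynomial.natTrailingDegree_le_natDegree (scl R (X : ι → MP ι R) P)
  have h5 := Polynomial.natTrailingDegree_le_natDegree (scl R (X : ι → MP ι R) Q)
  refine ⟨(scl R (X : ι → MP ι R) P).natDegree, ?_⟩
  rw [← sum_homogeneousComponent P]
  refine IsHomogeneous.sum _ _ _ fun r _ => ?_
  rw [sum_homogeneousComponent P]
  by_cases hr : r = (scl R (X : ι → MP ι R) P).natDegree
  · rw [← hr]
    exact homogeneousComponent_isHomogeneous r P
  · have h6 : (scl R (X : ι → MP ι R) P).coeff r = 0 := by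
      rcases lt_or_gt_of_ne hr with h7 | h7
      · exact Polynomial.coeff_eq_zero_of_lt_natTrailingDegree (by omega)
      · exact Polynomial.coeff_eq_zero_of_natDegree_lt h7
    rw [coeff_scl, aeval_X_left_apply] at h6
    rw [h6]
    exact isHomogeneous_zero _ _ _

theorem exists_rad_hom {D : MP ι k} {m : ℕ} (hD : D.IsHomogeneous m) (h0 : D ≠ 0) :
    ∃ (G : MP ι k) (γ r : ℕ), G.IsHomogeneous γ ∧ Squarefree G ∧ G ∣ D ∧ D ∣ G ^ r := by
  obtain ⟨G, r, h1, h2, h3⟩ := exists_squarefree_dvd_pow_of_ne_zero h0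
  obtain ⟨γ, hγ⟩ := hom_of_dvd hD h0 h2
  exact ⟨G, γ, r, hγ, h1, h2, h3⟩

end Pool.Agent.ZCy
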