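import Pool.Agent.Lib.MP_751085_ag.ZC.CAlg
import Pool.Agent.Lib.MP_751085_ag.ZC.CPrim
import Pool.Agent.Lib.MP_751085_ag.ZC.CRes

/-! Construction of covers. -/

namespace Pool.Agent.ZCy

open scoped Classical Polynomial
open MvPolynomial

set_option linter.unusedSectionVars false

variable {k : Type} [Field k] [CharZero k] {X : Var k} {ι : Type} [Fintype ι] {n d : ℕ}

open scoped IntermediateField

section

variable {f : ι → Fm X.N k} {th l : Fm X.N k}

theorem cov_sb (z : X.Hat f) {pp : Fin (X.N + 1) → (MP ι k)[X]} {W : X.Hat f}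
    (h : ∀ j, Polynomial.aeval z (pp j) = W * X.gh f j) {E : Fm X.N k} {m : ℕ}
    (hE : E.IsHomogeneous m) : Polynomial.aeval z (sb pp E) = W ^ m * X.cone f E := by
  have e (p : (MP ι k)[X]) : Polynomial.aeval z p =
      ev (algebraMap k _) (fun i => X.cone f (f i)) z p := by
    rw [Polynomial.aeval_def, ev_def]
    congr 1
    refine ringHom_ext (fun a => ?_) fun i => ?_
    · rw [eval₂Hom_C]; exact (IsScalarTower.algebraMap_apply k (MP ι k) (X.Hat f) a).symm
    · rw [eval₂Hom_X', X.hat_alg, aeval_X]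
  rw [e, ev_sb, ← X.aeval_gh, ← aeval_smul_hom hE, aeval_def]
  congr 1
  funext j
  rw [← e, h]; rfl

variable [Algebra (RF ι k) (X.Hat f)] [IsScalarTower (MP ι k) (RF ι k) (X.Hat f)]

theorem cov_emb (j : X.Hat f →ₐ[RF ι k] AlgebraicClosure (RF ι k)) :
    (fun i => j (X.gh f i)) ∈ X.Fib f (gpt k ι) ∧
      ∀ P, aeval (fun i => j (X.gh f i)) P = j (X.cone f P) := by
  have : IsScalarTower k (RF ι k) (X.Hat f) := IsScalarTower.of_algebraMap_eq fun a => by
    rw [IsScalarTower.algebraMap_apply k (MP ι k) (RF ι k), ← IsScalarTower.algebraMap_apply,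
      ← IsScalarTower.algebraMap_apply]
  have e (P : Fm X.N k) : aeval (fun i => j (X.gh f i)) P = j (X.cone f P) := by
    rw [← X.aeval_gh]
    exact (comp_aeval_apply _ (j.restrictScalars k) P).symm
  refine ⟨⟨(X.on_gh f).map (j.restrictScalars k), fun i => ?_⟩, e⟩
  rw [e, ← aeval_X (R := k) f i, ← X.hat_alg, IsScalarTower.algebraMap_apply _ (RF ι k),
    AlgHom.commutes]
  rfl

theorem cov_prim [Nonempty ι] [Algebra.IsAlgebraic (RF ι k) (X.Hat f)]
    (hf : ∀ i, (f i).IsHomogeneous d) (hsep : X.Sep f th (gpt k ι)) {E : Fm X.N k}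
    (hE : E.IsHomogeneous d) : X.cone f E ∈ (RF ι k)⟮X.cone f th⟯ := by
  have : CharZero (RF ι k) := algebraRat.charZero _
  refine mem_adjoin_of_emb (AlgebraicClosure (RF ι k)) fun j j' h => ?_
  obtain ⟨h1, e⟩ := cov_emb j
  obtain ⟨h1', e'⟩ := cov_emb j'
  obtain ⟨ζ, hζ⟩ := hsep _ h1 _ h1' (by rw [e, e', h])
  obtain ⟨i⟩ := ‹Nonempty ι›
  have h2 := h1'.2 i
  rw [hζ, aeval_smul_hom (hf i), h1.2 i] at h2
  have h3 : gpt k ι i ≠ 0 := (map_ne_zero (algebraMap (RF ι k) _)).2
    ((map_ne_zero_iff _ (IsFractionRing.injective (MP ι k) (RF ι k))).2 (X_ne_zero i))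
  rw [← e, ← e', hζ, aeval_smul_hom hE, (mul_eq_right₀ h3).1 h2, one_mul]

end

/-- The cover given by forms without common zero and a separating form. -/
theorem Var.exists_cover (hn : Algebra.trdeg k X.F = n) (hι : Fintype.card ι = n + 1)
    {f : ι → Fm X.N k} {th l : Fm X.N k} (hd : 0 < d) (hf : ∀ i, (f i).IsHomogeneous d)
    (hth : th.IsHomogeneous d) (hl : l.IsHomogeneous 1) (hint : X.Int d f) (hg : aeval X.g l ≠ 0)
    (hsep : X.Sep f th (gpt k ι)) :
    ∃ c : Cover X ι, c.d = d ∧ c.f = f ∧ c.th = th ∧ c.l = l := by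
  have : Nonempty ι := Fintype.card_pos_iff.1 (by omega)
  have : FaithfulSMul (MP ι k) (X.Hat f) :=
    (faithfulSMul_iff_algebraMap_injective _ _).2 (hint.inj hd hn hι)
  let _ : Algebra (RF ι k) (X.Hat f) := FractionRing.liftAlgebra _ _
  have : IsScalarTower (MP ι k) (RF ι k) (X.Hat f) := FractionRing.isScalarTower_liftAlgebra _ _
  have : Algebra.IsAlgebraic (RF ι k) (X.Hat f) := hint.isAlgebraic hd
  have : CharZero (RF ι k) := algebraRat.charZero _
  have hz := hint.isIntegral hd th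
  obtain ⟨χ, hχ⟩ : ∃ χ, χ = minpoly (MP ι k) (X.cone f th) := ⟨_, rfl⟩
  have hm : χ.Monic := hχ ▸ minpoly.monic hz
  have h0 : Polynomial.aeval (X.cone f th) χ = X.cone f 0 := by rw [hχ, minpoly.aeval, map_zero]
  have hdv {p : (MP ι k)[X]} (h : Polynomial.aeval (X.cone f th) p = 0) : χ ∣ p :=
    hχ ▸ minpoly.isIntegrallyClosed_dvd hz h
  have hpos : 0 < χ.natDegree := hχ ▸ minpoly.natDegree_pos hz
  have wχ : WH χ.natDegree χ := by
    have h1 := Var.extract (r := χ.natDegree) hd hf hth (isHomogeneous_zero _ _ _) h0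
    have h2 := Polynomial.eq_of_monic_of_dvd_of_natDegree_le hm (Monic_whc hm).1
      (hdv (h1.trans (map_zero _))) (Monic_whc hm).2.le
    have h3 := wh_whc χ.natDegree χ
    rwa [h2] at h3
  have hχ' : Polynomial.aeval (X.cone f th) (Polynomial.derivative χ) ≠ 0 :=
    hχ ▸ aeval_derivative_minpoly_ne (L := RF ι k) hz
  have hl0 : X.cone f l ≠ 0 := fun h => hg ((X.cone_hom_eq_zero f hl).1 h)
  have hpp (j : Fin (X.N + 1)) : ∃ p : (MP ι k)[X], WH χ.natDegree p ∧ Polynomial.aeval (X.cone f th) p =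
      X.cone f (ev C f th (Polynomial.derivative χ) * (l ^ (d - 1) * MvPolynomial.X j)) := by
    have h1 : (l ^ (d - 1) * MvPolynomial.X j).IsHomogeneous d := by
      have h := (hl.pow (d - 1)).mul (isHomogeneous_X k j)
      rwa [show 1 * (d - 1) + 1 = d by omega] at h
    obtain ⟨p, hp⟩ := exists_diff hz (hint.isIntegral hd _) (cov_prim hf hsep h1)
    refine ⟨_, wh_whc _ p, Var.extract hd hf hth ?_ ?_⟩
    · have h := (wχ.derivative.ev_hom hf hth).mul h1
      rwa [← Nat.mul_succ, Nat.succ_eq_add_one, Nat.sub_add_cancel hpos] at h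
    · rw [hp, ← hχ, X.aeval_cone, ← map_mul]
  choose pp wp hpp using hpp
  have hW (j : Fin (X.N + 1)) : Polynomial.aeval (X.cone f th) (pp j) =
      Polynomial.aeval (X.cone f th) (Polynomial.derivative χ) * X.cone f l ^ (d - 1) *
        X.gh f j := by
    rw [hpp, map_mul, map_mul, map_pow, ← X.aeval_cone, mul_assoc]; rfl
  obtain ⟨e, rfl⟩ : ∃ e, d = e + 1 := ⟨d - 1, by omega⟩
  simp only [Nat.add_sub_cancel] at hpp hW
  have hV : Polynomial.aeval (X.cone f th) (Polynomial.derivative χ * sb pp l ^ e) =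
      (Polynomial.aeval (X.cone f th) (Polynomial.derivative χ) * X.cone f l ^ e) ^ (e + 1) := by
    rw [map_mul, map_pow, cov_sb _ hW hl]; ring
  obtain ⟨D, hD, hbez, htight⟩ := exists_elim hm rfl hpos wχ (wχ.derivative.mul (WH.sb wp hl))
  have hD0 : D ≠ 0 := by
    refine fun h => htight _ (gpt k ι) (fun z hz' => ?_) (by rw [h, map_zero])
    have e1 (p : (MP ι k)[X]) (y : AlgebraicClosure (RF ι k)) :
        ev (algebraMap k _) (gpt k ι) y p = Polynomial.aeval y p := by
      rw [Polynomial.aeval_def, ev_def]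
      congr 1
      refine ringHom_ext (fun a => ?_) fun i => ?_
      · rw [eval₂Hom_C]; exact IsScalarTower.algebraMap_apply k (MP ι k) _ a
      · rw [eval₂Hom_X']; rfl
    obtain ⟨j, rfl⟩ : ∃ j : X.Hat f →ₐ[RF ι k] AlgebraicClosure (RF ι k),
        j (X.cone f th) = z := exists_emb_root (by
      rw [minpoly.isIntegrallyClosed_eq_field_fractions' (RF ι k) hz, Polynomial.aeval_map_algebraMap,
        ← hχ, ← e1, hz'])
    rw [e1, ← AlgHom.restrictScalars_apply (MP ι k) j, Polynomial.aeval_algHom_apply,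
      map_ne_zero, map_mul, cov_sb _ hW hl]
    exact mul_ne_zero hχ' (mul_ne_zero (pow_ne_zero _ (mul_ne_zero hχ' (pow_ne_zero _ hl0))) hl0)
  obtain ⟨G, γ, r, hG, sqf, hGD, hDG⟩ := exists_rad_hom hD hD0
  refine ⟨{
    d := e + 1, δ := χ.natDegree, γ := γ, f := f, th := th, l := l, χ := χ, pp := pp, D := D
    G := G, dpos := hd, hf := hf, hth := hth, hl := hl, monic := hm, deg := rfl, pos := hpos
    wχ := wχ, wp := wp, hG := hG, sqf := sqf, dvd := ⟨r, hDG⟩, dvd' := hGD, bez := hbez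
    tight := htight, int := hint
    dv_on := fun E hE => ?_, dv_f := fun i => hdv ?_, dv_th := hdv ?_
    root := fun S _ _ x hx => (hx.ev_eq h0).trans (map_zero _)
    fro := fun S _ _ x hx j => ?_ }, rfl, rfl, rfl, rfl⟩
  · obtain ⟨m, hm⟩ := hE.1
    exact hdv (by rw [cov_sb _ hW hm, (X.cone_hom_eq_zero f hm).2 hE.2, mul_zero])
  · rw [Nat.add_sub_cancel, map_sub, cov_sb _ hW (hf i), map_mul _ (Polynomial.C _), hV,
      Polynomial.aeval_C, X.hat_alg, aeval_X, mul_comm, sub_self]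
  · rw [Nat.add_sub_cancel, map_sub, cov_sb _ hW hth, map_mul _ Polynomial.X, hV,
      Polynomial.aeval_X, mul_comm, sub_self]
  · rw [hx.ev_eq (hpp j), map_mul, map_mul, map_pow, aeval_ev, aeval_X, mul_assoc,
      Nat.add_sub_cancel]

end Pool.Agent.ZCy
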