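import Pool.Agent.Lib.MP_751085_ag.ZC.CCount
import Pool.Agent.Lib.MP_751085_ag.ZC.CDim
import Pool.Agent.Lib.MP_751085_ag.ZC.CJac

/-! The rank of a point with a tangent vector. -/

namespace Pool.Agent.ZCy

open scoped Classical Polynomial
open MvPolynomial Set

set_option linter.unusedSectionVars false

variable {k : Type} [Field k] {X : Var k} {n : ℕ} {Ω : Type} [Field Ω] [Algebra k Ω]

/-- `count` for the unknown `v` over `s`, `ε = Option (Fin r)`: rows `grad x (G t)` from
`exists_basis_jac` and `Pi.single j 1`. The rows are independent because `v` kills the first ones and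
not the last (`linearIndependent_option`, `surj_of_indep`); `r + n = N`. -/
theorem Var.Nice.rk_tan (hX : X.Nice n) {K : Type} [Field K] [Algebra k K] [Algebra K Ω]
    [IsScalarTower k K Ω] {x v : Fin (X.N + 1) → Ω} (hx : X.On x) {s : Set Ω}
    (hs : ∀ i, x i ∈ acl K s) (hv : ∀ G ∈ X.I, grad x G ⬝ᵥ v = 0) {j : Fin (X.N + 1)}
    (hj : v j = 1) {r : ℕ} (hr : rk K s ≤ r) : rk K (s ∪ range v) ≤ (r + n : ℕ) := by
  obtain ⟨m, G, hm, hG, hi, -⟩ := hX.exists_basis_jac hx
  let M : Option (Fin m) → Fin (X.N + 1) → Ω := fun e =>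
    e.elim (Pi.single j 1) fun t => grad x (G t)
  have hind : LinearIndependent Ω M := by
    refine linearIndependent_option.2 ⟨hi, fun h => ?_⟩
    have h1 : ∀ w ∈ Submodule.span Ω (range fun t => grad x (G t)), w ⬝ᵥ v = 0 := fun w hw => by
      induction hw using Submodule.span_induction with
      | mem w hw => obtain ⟨t, rfl⟩ := hw; exact hv _ (hG t)
      | zero => exact zero_dotProduct v
      | add a b _ _ ha hb => rw [add_dotProduct, ha, hb, add_zero]
      | smul c a _ ha => rw [smul_dotProduct, ha, smul_zero]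
    have h2 : (Pi.single j 1 : Fin (X.N + 1) → Ω) ⬝ᵥ v = 0 := h1 _ h
    rw [single_one_dotProduct, hj] at h2
    exact one_ne_zero h2
  have hM : ∀ e i, M e i ∈ acl K s := by
    rintro (_ | t) i
    · change (Pi.single j 1 : Fin (X.N + 1) → Ω) i ∈ acl K s
      rw [Pi.single_apply]
      split_ifs
      · exact one_mem _
      · exact zero_mem _
    · change aeval x (pderiv i (G t)) ∈ acl K s
      rw [← aeval_map_algebraMap K]
      exact aeval_mem_acl hs _
  have hb : ∀ e, ∑ i, v i * M e i ∈ acl K s := by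
    rintro (_ | t)
    · change v ⬝ᵥ (Pi.single j 1 : Fin (X.N + 1) → Ω) ∈ acl K s
      rw [dotProduct_single_one, hj]
      exact one_mem _
    · change v ⬝ᵥ grad x (G t) ∈ acl K s
      rw [dotProduct_comm, hv _ (hG t)]
      exact zero_mem _
  have h := (count s M v hM hb (surj_of_indep M hind)).trans (add_le_add_left hr _)
  rw [Fintype.card_option, Fintype.card_fin, Fintype.card_fin] at h
  have e : (r : ℕ∞) + ((X.N + 1 : ℕ) : ℕ∞) = ((r + n : ℕ) : ℕ∞) + ((m + 1 : ℕ) : ℕ∞) := by
    rw [← Nat.cast_add, ← Nat.cast_add]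
    congr 1
    omega
  rw [e] at h
  exact (WithTop.add_le_add_iff_right (ENat.natCast_ne_top _)).1 h

end Pool.Agent.ZCy
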