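import Pool.Agent.Lib.MP_751085_ag.ZC.CGn
import Pool.Agent.Lib.MP_751085_ag.ZC.CTan
import Pool.Agent.Lib.MP_751085_ag.ZC.CJet

/-! Generic projections are unramified along given fibres. -/

namespace Pool.Agent.ZCy

open scoped Classical Polynomial
open MvPolynomial Set

set_option linter.unusedSectionVars false

section

variable {S T : Type} [CommRing S] [CommRing T] {N d : ℕ} {ι : Type} [Fintype ι]

/-- the rows of the linear system for the coefficients -/
noncomputable def etgRow (x v : Fin (N + 1) → S) : ι ⊕ ι → ι × Mon N d → S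
  | .inl i, p => if p.1 = i then eval x (monomial p.2.1 1) else 0
  | .inr i, p => if p.1 = i then ∑ j, eval x (pderiv j (monomial p.2.1 1)) * v j else 0

theorem etg_inl (x v : Fin (N + 1) → S) (a : ι × Mon N d → S) (i : ι) :
    ∑ p, a p * etgRow x v (.inl i) p = eval x (forms a i) := by
  rw [← eval₂_id, forms, eval₂_form]
  simp [etgRow, Fintype.sum_prod_type]

theorem etg_inr (x v : Fin (N + 1) → S) (a : ι × Mon N d → S) (i : ι) :
    ∑ p, a p * etgRow x v (.inr i) p = grad x (forms a i) ⬝ᵥ v := by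
  have h : ∀ j, grad x (forms a i) j = ∑ m, a (i, m) * eval x (pderiv j (monomial m.1 1)) :=
    fun j => eval₂_pderiv_form (RingHom.id S) x _ j
  simp only [etgRow, Fintype.sum_prod_type, Finset.sum_comm (γ := ι), mul_ite, mul_zero,
    Finset.sum_ite_eq', Finset.mem_univ, if_true, dotProduct, h, Finset.sum_mul, Finset.mul_sum,
    mul_assoc]
  exact Finset.sum_comm

/-- the equations -/
noncomputable def etgEq {k : Type} [Field k] (I : Set (Fm N k)) (φ : k →+* S) (y : ι → S)
    (a : ι × Mon N d → S) (x v : Fin (N + 1) → S) : (I ⊕ I) ⊕ ι ⊕ ι → S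
  | .inl (.inl G) => eval₂ φ x G.1
  | .inl (.inr G) => ∑ j, eval₂ φ x (pderiv j G.1) * v j
  | .inr (.inl i) => eval x (forms a i) - y i
  | .inr (.inr i) => ∑ j, eval x (pderiv j (forms a i)) * v j

theorem etg_map {k : Type} [Field k] (I : Set (Fm N k)) (φ : k →+* S) (ψ : S →+* T) (y : ι → S)
    (a : ι × Mon N d → S) (x v : Fin (N + 1) → S) (e : (I ⊕ I) ⊕ ι ⊕ ι) :
    ψ (etgEq I φ y a x v e) =
      etgEq I (ψ.comp φ) (ψ ∘ y) (fun m => ψ (a m)) (ψ ∘ x) (ψ ∘ v) e := by
  rcases e with (G | G) | i | i <;>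
    simp only [etgEq, map_sum, map_mul, map_sub, eval₂_comp_left, map_eval, ← map_forms,
      pderiv_map, Function.comp_apply]

end

variable {k : Type} [Field k] [CharZero k] {X : Var k} {n d : ℕ} {ι : Type} [Fintype ι]
  {Λ : Type} [Field Λ] [Algebra k Λ]

theorem etg_indep (hX : X.Nice n) (hι : Fintype.card ι = n + 1) (hd : 0 < d) {y : ι → Λ}
    (hy : y ≠ 0) {Ω : Type} [Field Ω] [Algebra Λ Ω] [Algebra k Ω] [IsScalarTower k Λ Ω]
    {a : ι × Mon X.N d → Ω} (ha : AlgebraicIndependent Λ a) {x v : Fin (X.N + 1) → Ω}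
    (h1 : X.Zr x) (h2 : ∀ G ∈ X.I, grad x G ⬝ᵥ v = 0)
    (h3 : ∀ i, eval x (forms a i) = algebraMap Λ Ω (y i))
    (h4 : ∀ i, grad x (forms a i) ⬝ᵥ v = 0) {j : Fin (X.N + 1)} (hj : v j = 1) : False := by
  have : CharZero Ω := charZero_of_injective_algebraMap (algebraMap k Ω).injective
  obtain ⟨i, hi⟩ := Function.ne_iff.1 hy
  have hi' : aeval x (forms a i) ≠ 0 := fun h =>
    hi ((map_eq_zero (algebraMap Λ Ω)).1 ((h3 i).symm.trans h))
  have hx : X.On x := ⟨fun h => hi' (by
    rw [h, ← zero_smul Ω x, aeval_smul_hom (forms_hom a i), zero_pow hd.ne', zero_mul]), h1⟩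
  have hv : ∀ ζ : Ω, v ≠ ζ • x := by
    rintro ζ rfl
    have h := h4 i
    rw [dotProduct_smul, grad_dot_self (forms_hom a i), smul_eq_mul] at h
    rw [(mul_eq_zero.1 h).resolve_right (mul_ne_zero (Nat.cast_ne_zero.2 hd.ne') hi'),
      zero_smul] at hj
    exact zero_ne_one hj
  have hm : ∀ j, x j ∈ acl Λ (range x ∪ range v) := fun j => mem_acl_of_mem (Or.inl ⟨j, rfl⟩)
  have h := count_indep (K := Λ) (range x ∪ range v) (etgRow x v) a ?_ ?_ ?_ ha
    (hX.rk_tan hx (fun i => mem_acl_of_mem (mem_range_self i)) h2 hj (r := n + 1)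
      ((rk_le_of_tower (K := k) _).trans (by exact_mod_cast hx.rk_le' hX.dim)))
  · rw [Fintype.card_sum, hι] at h
    omega
  · rintro (e | e) p <;> rw [etgRow] <;> split_ifs
    · simpa [aeval_monomial, eval_monomial] using aeval_mem_acl hm (monomial p.2.1 1)
    · exact zero_mem _
    · refine sum_mem fun j _ => mul_mem ?_ (mem_acl_of_mem (Or.inr ⟨j, rfl⟩))
      simpa [pderiv_monomial, aeval_monomial, eval_monomial] using
        aeval_mem_acl hm (pderiv j (monomial p.2.1 1))
    · exact zero_mem _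
  · rintro (e | e)
    · rw [etg_inl, h3]
      exact IntermediateField.algebraMap_mem _ _
    · rw [etg_inr, h4]
      exact zero_mem _
  · intro w
    choose f hf hf₁ hf₂ using fun i => jet_val_der hx.1 hv hd (w (.inl i)) (w (.inr i))
    have e : ∀ i, forms (d := d) (fun p => coeff p.2.1 (f p.1)) i = f i := fun i => form_coeff (hf i)
    refine ⟨fun p => coeff p.2.1 (f p.1), ?_⟩
    rintro (i | i)
    · rw [etg_inl, e, hf₁]
    · rw [etg_inr, e, hf₂]

theorem etg_aeval {A ζ Ω : Type} [Field Ω] [Algebra Λ Ω] [Algebra k Ω] [IsScalarTower k Λ Ω]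
    (z : A ⊕ ζ → Ω) : (aeval z : MP (A ⊕ ζ) Λ →ₐ[Λ] Ω).toRingHom.comp
      (C.comp (algebraMap k Λ)) = algebraMap k Ω := by
  ext c
  simp [← IsScalarTower.algebraMap_apply]

/-- The fibre over a fixed point. -/
theorem Var.Nice.gn_et0 (hX : X.Nice n) (hι : Fintype.card ι = n + 1) (hd : 0 < d) {y : ι → Λ}
    (hy : y ≠ 0) : Gn k fun a : ι × Mon X.N d → k => X.Et (forms a) y := by
  have key : ∀ (Ω : Type) [Field Ω] [Algebra Λ Ω] [Algebra k Ω] [IsScalarTower k Λ Ω]
      (a : ι × Mon X.N d → Ω) (z : Fin (X.N + 1) ⊕ Fin (X.N + 1) → Ω) e,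
      aeval (Sum.elim a z) (etgEq X.I (C.comp (algebraMap k Λ)) (fun i => C (y i))
        (fun m => MvPolynomial.X (.inl m)) (fun j => MvPolynomial.X (.inr (.inl j)))
        (fun j => MvPolynomial.X (.inr (.inr j))) e) = etgEq X.I (algebraMap k Ω)
          (fun i => algebraMap Λ Ω (y i)) a (fun j => z (.inl j)) (fun j => z (.inr j)) e := by
    intro Ω _ _ _ _ a z e
    refine (etg_map X.I _ (aeval (Sum.elim a z) : MP _ Λ →ₐ[Λ] Ω).toRingHom _ _ _ _ e).trans ?_
    rw [etg_aeval]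
    simp [Function.comp_def]
  have h : ∀ j, Gn k fun a : ι × Mon X.N d → k => ∀ x ∈ X.Fib (forms a) y,
      ∀ v : Fin (X.N + 1) → Λ, (∀ G ∈ X.I, grad x G ⬝ᵥ v = 0) →
        (∀ i, grad x (forms a i) ⬝ᵥ v = 0) → v j = 0 := fun j => by
    obtain ⟨r, h0, hr⟩ := generic (ι := ι × Mon X.N d) (ζ := Fin (X.N + 1) ⊕ Fin (X.N + 1))
      (range (etgEq X.I (C.comp (algebraMap k Λ)) (fun i => C (y i))
      (fun m : ι × Mon X.N d => MvPolynomial.X (.inl m)) (fun j => MvPolynomial.X (.inr (.inl j)))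
      fun j => MvPolynomial.X (.inr (.inr j)))) (MvPolynomial.X (.inr (.inr j))) (by
        intro Ω _ _ a z ha hE
        let := ((algebraMap Λ Ω).comp (algebraMap k Λ)).toAlgebra
        have : IsScalarTower k Λ Ω := .of_algebraMap_eq fun _ => rfl
        have hE' := fun e => (key Ω a z e).symm.trans (hE _ ⟨e, rfl⟩)
        rw [aeval_X, Sum.elim_inr]
        by_contra hn
        refine etg_indep hX hι hd hy ha (x := fun j => z (.inl j))
          (v := (z (.inr j))⁻¹ • fun j => z (.inr j)) (fun G hG => hE' (.inl (.inl ⟨G, hG⟩)))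
          (fun G hG => ?_) (fun i => sub_eq_zero.1 (hE' (.inr (.inl i)))) (fun i => ?_)
          (inv_mul_cancel₀ hn)
        · rw [dotProduct_smul]
          exact smul_eq_zero_of_right _ (hE' (.inl (.inr ⟨G, hG⟩)))
        · rw [dotProduct_smul]
          exact smul_eq_zero_of_right _ (hE' (.inr (.inr i))))
    refine (Gn.of_ext h0).mono fun a ha x hx v h2 h4 => ?_
    have := hr Λ (fun m => algebraMap k Λ (a m)) (Sum.elim x v) ha ?_
    · rwa [aeval_X] at this
    rintro _ ⟨e, rfl⟩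
    rw [key]
    rcases e with (G | G) | i | i
    · exact hx.1.2 G G.2
    · exact h2 G G.2
    · rw [etgEq, ← map_forms, eval_map]
      exact sub_eq_zero.2 (hx.2 i)
    · simp only [etgEq, ← map_forms, pderiv_map, eval_map]
      exact h4 i
  exact (Gn.all h).mono fun a ha x hx v h2 h4 => funext fun j => ha j x hx v h2 h4

end Pool.Agent.ZCy
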