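import Pool.Agent.Lib.MP_751085_ag.ZC.CGn
import Pool.Agent.Lib.MP_751085_ag.ZC.CTan
import Pool.Agent.Lib.MP_751085_ag.ZC.CJet

/-! Generic projections are unramified along the fibre through a point. -/

namespace Pool.Agent.ZCy

open scoped Classical Polynomial
open MvPolynomial Set

set_option linter.unusedSectionVars false

variable {k : Type} [Field k] [CharZero k] {X : Var k} {n d : ℕ} {ι : Type} [Fintype ι]
  {Λ : Type} [Field Λ] [Algebra k Λ]

section

variable {Ω : Type} [Field Ω] [Algebra Λ Ω] {N : ℕ}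

/-- linear conditions on forms with independent coefficients -/
theorem eth_count {ε : Type} [Fintype ε] (L : ε → Fm N Ω → Ω) (s : Set Ω)
    (hl : ∀ t (c : Mon N d → Ω), L t (form c) = ∑ m, c m * L t (monomial m.1 1))
    (hL : ∀ t (m : Mon N d), L t (monomial m.1 1) ∈ acl Λ s) {a : ι × Mon N d → Ω}
    (ha : AlgebraicIndependent Λ a) (h0 : ∀ t i, L t (forms a i) = 0)
    (hs : ∀ w : ε → Ω, ∃ f : Fm N Ω, f.IsHomogeneous d ∧ ∀ t, L t f = w t) {r : ℕ}
    (hr : rk Λ s ≤ r) : Fintype.card ι * Fintype.card ε ≤ r := by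
  have h1 : ∀ (c : ι × Mon N d → Ω) (e : ι × ε), ∑ p : ι × Mon N d,
      c p * (if p.1 = e.1 then L e.2 (monomial p.2.1 1) else 0) = L e.2 (forms c e.1) := by
    intro c e
    rw [Fintype.sum_prod_type, Finset.sum_eq_single e.1 (fun i _ hi => by simp [hi]) (by simp),
      forms, hl]
    simp
  rw [← Fintype.card_prod]
  refine count_indep s (fun (e : ι × ε) (p : ι × Mon N d) =>
    if p.1 = e.1 then L e.2 (monomial p.2.1 1) else 0) a (fun e p => ?_) (fun e => ?_)
    (fun w => ?_) ha hr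
  · split_ifs
    · exact hL _ _
    · exact zero_mem _
  · rw [h1, h0]
    exact zero_mem _
  · choose f hf hf' using fun i => hs fun t => w (i, t)
    exact ⟨fun p => coeff p.2.1 (f p.1), fun e => by rw [h1, forms, form_coeff (hf _), hf']⟩

theorem eth_val (x : Fin (N + 1) → Ω) (c : Mon N d → Ω) :
    eval x (form c) = ∑ m, c m * eval x (monomial m.1 1) := eval₂_form (RingHom.id Ω) x c

theorem eth_der (x v : Fin (N + 1) → Ω) (c : Mon N d → Ω) :
    grad x (form c) ⬝ᵥ v = ∑ m, c m * (grad x (monomial m.1 (1 : Ω)) ⬝ᵥ v) := by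
  have h : ∀ j, grad x (form c) j = ∑ m, c m * grad x (monomial m.1 (1 : Ω)) j := fun j =>
    eval₂_pderiv_form (RingHom.id Ω) x c j
  simp only [dotProduct, h, Finset.sum_mul, Finset.mul_sum, mul_assoc]
  exact Finset.sum_comm

theorem eth_val_mem {s : Set Ω} {x : Fin (N + 1) → Ω} (hx : ∀ i, x i ∈ acl Λ s)
    (P : Fm N Λ) : eval x (map (algebraMap Λ Ω) P) ∈ acl Λ s := by
  rw [eval_map]
  exact aeval_mem_acl hx P

theorem eth_mon_mem {s : Set Ω} {x : Fin (N + 1) → Ω} (hx : ∀ i, x i ∈ acl Λ s)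
    (m : Fin (N + 1) →₀ ℕ) : eval x (monomial m (1 : Ω)) ∈ acl Λ s := by
  simpa only [map_monomial, map_one] using eth_val_mem hx (monomial m 1)

theorem eth_der_mem {s : Set Ω} {x v : Fin (N + 1) → Ω} (hx : ∀ i, x i ∈ acl Λ s)
    (hv : ∀ i, v i ∈ acl Λ s) (m : Fin (N + 1) →₀ ℕ) :
    grad x (monomial m (1 : Ω)) ⬝ᵥ v ∈ acl Λ s := by
  refine sum_mem fun j _ => mul_mem ?_ (hv j)
  have h := eth_val_mem hx (pderiv j (monomial m 1))
  rw [← pderiv_map, map_monomial, map_one] at h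
  exact h

end

/-- the case of independent coefficients -/
theorem eth_indep (hX : X.Nice n) (hι : Fintype.card ι = n + 1) (hd : 2 ≤ d) {Ω : Type} [Field Ω]
    [Algebra Λ Ω] [Algebra k Ω] [IsScalarTower k Λ Ω] {x₀ x' v : Fin (X.N + 1) → Ω}
    (hx : X.On x₀) (hx₀ : ∀ s i, x₀ i ∈ acl Λ s) (hx' : X.On x') {a : ι × Mon X.N d → Ω}
    (ha : AlgebraicIndependent Λ a) (h1 : ∀ G ∈ X.I, grad x' G ⬝ᵥ v = 0)
    (h2 : ∀ i, eval x' (forms a i) - eval x₀ (forms a i) = 0)
    (h3 : ∀ i, grad x' (forms a i) ⬝ᵥ v = 0) {j : Fin (X.N + 1)} (hj : v j = 1) : False := by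
  have : CharZero Ω := charZero_of_injective_algebraMap (algebraMap k Ω).injective
  by_cases h : ∃ ζ : Ω, x₀ = ζ • x'
  · obtain ⟨ζ, rfl⟩ := h
    have hr := hX.rk_tan (K := Λ) (s := ∅) (r := 0) hx (hx₀ _) (fun G hG => by
      obtain ⟨m, hm⟩ := hG.1
      rw [grad_smul_hom hm, smul_dotProduct, h1 G hG, smul_zero]) hj (by simp [rk_empty])
    have h4 := eth_count (fun (_ : Unit) f => grad (ζ • x') f ⬝ᵥ v) _ (fun _ => eth_der _ _)
      (fun _ m => eth_der_mem (hx₀ _) (fun i => mem_acl_of_mem (Or.inr ⟨i, rfl⟩)) _) ha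
      (fun _ i => by rw [grad_smul_hom (forms_hom a i), smul_dotProduct, h3, smul_zero])
      (fun w => by
        obtain ⟨f, hf, hf'⟩ := jet_grad hx.1 (by omega : 0 < d) (Pi.single j (w ()))
        exact ⟨f, hf, fun _ => by rw [hf', single_dotProduct, hj, mul_one]⟩) hr
    rw [hι, Fintype.card_unit] at h4
    omega
  · push Not at h
    have hr := hX.rk_tan (K := Λ) (s := range x') (r := n + 1) hx'
      (fun i => mem_acl_of_mem ⟨i, rfl⟩) h1 hj
      ((rk_le_of_tower _).trans (by exact_mod_cast hx'.rk_le' hX.dim))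
    have m1 : ∀ i, x' i ∈ acl Λ (range x' ∪ range v) := fun i => mem_acl_of_mem (Or.inl ⟨i, rfl⟩)
    have m2 : ∀ i, v i ∈ acl Λ (range x' ∪ range v) := fun i => mem_acl_of_mem (Or.inr ⟨i, rfl⟩)
    have h4 := eth_count (d := d) (fun (t : Bool) f =>
      bif t then grad x' f ⬝ᵥ v else eval x' f - eval x₀ f) _
      (fun t c => by
        cases t
        · simp only [cond_false, eth_val, mul_sub, Finset.sum_sub_distrib]
        · exact eth_der _ _ _)
      (fun t m => by
        cases t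
        · exact sub_mem (eth_mon_mem m1 _) (eth_mon_mem (hx₀ _) _)
        · exact eth_der_mem m1 m2 _) ha
      (fun t i => by
        cases t
        · exact h2 i
        · exact h3 i)
      (fun w => by
        obtain ⟨f, hf, hf', hf''⟩ := jet_grad_val hx'.1 h hd (Pi.single j (w true))
          (w true * x' j / d - w false)
        refine ⟨f, hf, fun t => ?_⟩
        cases t
        · have h5 := grad_dot_self hf x'
          have h6 : (d : Ω) ≠ 0 := Nat.cast_ne_zero.2 (by omega)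
          rw [hf', single_dotProduct, aeval_eq_eval] at h5
          rw [cond_false, hf'', h5, mul_div_cancel_left₀ _ h6, sub_sub_cancel]
        · rw [cond_true, hf', single_dotProduct, hj, mul_one]) hr
    rw [hι, Fintype.card_bool] at h4
    omega

variable (X) in
/-- the equations -/
noncomputable def ethEq {S : Type} [CommRing S] [Algebra k S] (x₀ : Fin (X.N + 1) → S)
    (a : ι × Mon X.N d → S) (x' v : Fin (X.N + 1) → S) : (X.I ⊕ X.I) ⊕ ι ⊕ ι → S
  | .inl (.inl G) => aeval x' G.1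
  | .inl (.inr G) => grad x' G.1 ⬝ᵥ v
  | .inr (.inl i) => eval x' (forms a i) - eval x₀ (forms a i)
  | .inr (.inr i) => grad x' (forms a i) ⬝ᵥ v

theorem ethEq_map {S T : Type} [CommRing S] [Algebra k S] [CommRing T] [Algebra k T]
    (ψ : S →ₐ[k] T) (x₀ : Fin (X.N + 1) → S) (a : ι × Mon X.N d → S) (x' v : Fin (X.N + 1) → S)
    (t : (X.I ⊕ X.I) ⊕ ι ⊕ ι) : ψ (ethEq X x₀ a x' v t) =
      ethEq X (fun i => ψ (x₀ i)) (fun i => ψ (a i)) (fun i => ψ (x' i)) (fun i => ψ (v i)) t := by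
  have h1 : ∀ (y : Fin (X.N + 1) → S) (P : Fm X.N S), ψ (eval y P) =
      eval (fun i => ψ (y i)) (map (ψ : S →+* T) P) := fun y P => map_eval (ψ : S →+* T) y P
  rcases t with (G | G) | (i | i)
  · exact comp_aeval_apply x' ψ G.1
  · simp only [ethEq, dotProduct, grad, map_sum, map_mul, comp_aeval_apply]
  · simp only [ethEq, map_sub, h1, map_forms, RingHom.coe_coe]
  · simp only [ethEq, dotProduct, grad, map_sum, map_mul, aeval_eq_eval, h1, ← pderiv_map,
      map_forms, RingHom.coe_coe]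

variable (X ι d) in
/-- the universal equations -/
def ethSet (x : Fin (X.N + 1) → Λ) :
    Set (MP ((ι × Mon X.N d) ⊕ Fin (X.N + 1) ⊕ Fin (X.N + 1)) Λ) :=
  range (ethEq X (fun i => C (x i)) (fun p => MvPolynomial.X (.inl p))
    (fun i => MvPolynomial.X (.inr (.inl i))) fun i => MvPolynomial.X (.inr (.inr i)))

theorem ethSet_iff (x : Fin (X.N + 1) → Λ) {Ω : Type} [Field Ω] [Algebra Λ Ω] [Algebra k Ω]
    [IsScalarTower k Λ Ω] (a : ι × Mon X.N d → Ω) (z : Fin (X.N + 1) ⊕ Fin (X.N + 1) → Ω) :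
    (∀ P ∈ ethSet X d ι x, aeval (Sum.elim a z) P = 0) ↔ ∀ t, ethEq X
      (fun i => algebraMap Λ Ω (x i)) a (fun i => z (.inl i)) (fun i => z (.inr i)) t = 0 := by
  refine forall_mem_range.trans (forall_congr' fun t => Eq.congr_left ?_)
  refine (ethEq_map ((aeval (R := Λ) (Sum.elim a z)).restrictScalars k) _ _ _ _ t).trans ?_
  simp only [AlgHom.coe_restrictScalars', aeval_C, aeval_X, Sum.elim_inl, Sum.elim_inr]

theorem eth_gen (hX : X.Nice n) (hι : Fintype.card ι = n + 1) (hd : 2 ≤ d)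
    {x : Fin (X.N + 1) → Λ} (hx : X.On x) (j j' : Fin (X.N + 1)) :
    ∃ r : MP (ι × Mon X.N d) Λ, r ≠ 0 ∧ ∀ (a : ι × Mon X.N d → Λ) (x' v : Fin (X.N + 1) → Λ),
      eval a r ≠ 0 → (∀ t, ethEq X x a x' v t = 0) → x' j * v j' = 0 := by
  obtain ⟨r, hr, hr'⟩ := generic (ethSet X d ι x)
    (MvPolynomial.X (.inr (.inl j)) * MvPolynomial.X (.inr (.inr j'))) (by
      intro Ω _ _ a z ha h
      let : Algebra k Ω := ((algebraMap Λ Ω).comp (algebraMap k Λ)).toAlgebra
      have : IsScalarTower k Λ Ω := .of_algebraMap_eq fun _ => rfl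
      rw [ethSet_iff] at h
      by_contra hne
      rw [map_mul, aeval_X, aeval_X] at hne
      have h2 : z (.inr j') ≠ 0 := right_ne_zero_of_mul hne
      refine eth_indep hX hι hd (x' := fun i => z (.inl i))
        (v := (z (.inr j'))⁻¹ • fun i => z (.inr i)) (hx.map (IsScalarTower.toAlgHom k Λ Ω))
        (fun s i => (acl Λ s).algebraMap_mem _)
        ⟨fun e => left_ne_zero_of_mul hne (congrFun e j), fun G hG => h (.inl (.inl ⟨G, hG⟩))⟩
        ha (fun G hG => ?_) (fun i => h (.inr (.inl i))) (fun i => ?_) (inv_mul_cancel₀ h2)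
      · rw [dotProduct_smul]
        exact smul_eq_zero_of_right _ (h (.inl (.inr ⟨G, hG⟩)))
      · rw [dotProduct_smul]
        exact smul_eq_zero_of_right _ (h (.inr (.inr i))))
  refine ⟨r, hr, fun a x' v ha h => ?_⟩
  have h4 := hr' Λ a (Sum.elim x' v) (by rwa [aeval_eq_eval]) ((ethSet_iff x _ _).2 h)
  rwa [map_mul, aeval_X, aeval_X] at h4

/-- generic projections are unramified along the fibre through `x` -/
theorem Var.Nice.gn_et (hX : X.Nice n) (hι : Fintype.card ι = n + 1) (hd : 2 ≤ d)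
    {x : Fin (X.N + 1) → Λ} (hx : X.On x) :
    Gn k fun a : ι × Mon X.N d → k => X.Et (forms a) fun i => aeval x (forms a i) := by
  choose r hr hr' using fun p : Fin (X.N + 1) × Fin (X.N + 1) => eth_gen hX hι hd hx p.1 p.2
  refine (Gn.all fun p => Gn.of_ext (k := k) (hr p)).mono fun a ha x' hx' v h2 h3 => ?_
  by_contra hv
  obtain ⟨j', hj'⟩ := Function.ne_iff.1 hv
  obtain ⟨j, hj⟩ := Function.ne_iff.1 hx'.1.1
  refine mul_ne_zero hj hj' (hr' (j, j') (fun i => algebraMap k Λ (a i)) x' v (ha _) ?_)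
  rintro ((G | G) | (i | i))
  · exact hx'.1.2 G.1 G.2
  · exact h2 G.1 G.2
  · simp only [ethEq, ← map_forms, eval_map, ← aeval_def]
    exact sub_eq_zero.2 (hx'.2 i)
  · simp only [ethEq, ← map_forms]
    refine Eq.trans (congrArg (· ⬝ᵥ v) (funext fun l => ?_)) (h3 i)
    rw [grad, grad, pderiv_map, aeval_map_algebraMap]

end Pool.Agent.ZCy
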