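import Pool.Agent.Lib.MP_751085_ag.ZC.CInt
import Pool.Agent.Lib.MP_751085_ag.ZC.CCov
import Pool.Agent.Lib.MP_751085_ag.ZC.CEt
import Pool.Agent.Lib.MP_751085_ag.ZC.CSep
import Pool.Agent.Lib.MP_751085_ag.ZC.CB1
import Pool.Agent.Lib.MP_751085_ag.ZC.CEtg
import Pool.Agent.Lib.MP_751085_ag.ZC.CEth

/-! Existence of covers. -/

namespace Pool.Agent.ZCy

open scoped Classical Polynomial
open MvPolynomial

set_option linter.unusedSectionVars false

variable {k : Type} [Field k] [CharZero k] {X : Var k} {ι : Type} [Fintype ι] {n d : ℕ}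

/-- choose `th` and `l` by `gn_sep` (at `gpt` and at the points of `S`), `gn_l`, `gn_ne` -/
theorem Var.cover_of_B1 (hn : Algebra.trdeg k X.F = n) (hι : Fintype.card ι = n + 1)
    {f : ι → Fm X.N k} (hd : 0 < d) (hf : ∀ i, (f i).IsHomogeneous d) (hb : X.B1 f) {Λ : Type}
    [Field Λ] [Algebra k Λ] [IsAlgClosed Λ] {S : Set (ι → Λ)} (hS : S.Finite)
    (h : ∀ y ∈ S, y ≠ 0 ∧ X.Et f y) :
    ∃ c : Cover X ι, c.d = d ∧ c.f = f ∧ ∀ y ∈ S, aeval y c.G ≠ 0 := by
  have hint : X.Int d f := hb.int hf hd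
  obtain ⟨a, ha, ha'⟩ := ((hint.gn_sep hd (gpt k ι)).and
    (Gn.ball hS fun y _ => hint.gn_sep hd y)).exists
  obtain ⟨b, hb0, hb'⟩ := ((gn_ne (k := k) 1 X.on_g.1).and
    (Gn.ball hS fun y _ => hint.gn_l hd y)).exists
  obtain ⟨c, h1, h2, h3, h4⟩ := Var.exists_cover hn hι hd hf (form_hom a) (form_hom b) hint hb0 ha
  refine ⟨c, h1, h2, fun y hy h0 => ?_⟩
  have hD : aeval y c.D ≠ 0 := by
    refine c.D_ne_of_et (h y hy).1 ?_ ?_ ?_
    · rw [h2]; exact (h y hy).2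
    · rw [h2, h3]; exact ha' y hy
    · rw [h2, h4]; exact hb' y hy
  obtain ⟨E, hE⟩ := c.dvd'
  exact hD (by rw [hE, map_mul, h0, zero_mul])

theorem covs_aeval_map {σ M Λ : Type} [Field M] [Algebra k M] [Field Λ] [Algebra k Λ]
    (ψ : M →ₐ[k] Λ) (x : σ → M) (P : MP σ k) : aeval (fun j => ψ (x j)) P = ψ (aeval x P) :=
  (comp_aeval_apply x ψ P).symm

theorem covs_ne {σ Λ : Type} [Field Λ] [Algebra k Λ] {q : σ → k} (hq : q ≠ 0) :
    (fun i => algebraMap k Λ (q i)) ≠ 0 := fun e =>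
  hq (funext fun i => (algebraMap k Λ).injective ((congrFun e i).trans (map_zero _).symm))

theorem covs_eval {σ Λ : Type} [Field Λ] [Algebra k Λ] {q : σ → k} {P : MP σ k}
    (h : aeval (fun i => algebraMap k Λ (q i)) P ≠ 0) : MvPolynomial.eval q P ≠ 0 := fun e => h (by
  have h1 := covs_aeval_map (Algebra.ofId k Λ) q P
  rw [aeval_eq_eval, e, map_zero] at h1
  exact h1)

/-- generic forms give a cover that is unramified over a given rational point -/
theorem Var.Nice.gn_cover (hX : X.Nice n) (hι : Fintype.card ι = n + 1) (hd : 0 < d) {q : ι → k}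
    (hq : q ≠ 0) : Gn k fun a : ι × Mon X.N d → k =>
      ∃ c : Cover X ι, c.d = d ∧ c.f = forms a ∧ MvPolynomial.eval q c.G ≠ 0 := by
  have hy := covs_ne (Λ := AlgebraicClosure k) hq
  refine ((Var.gn_b1 hX.dim hι d).and (hX.gn_et0 hι hd hy)).mono fun a ha => ?_
  obtain ⟨c, h1, h2, h3⟩ := Var.cover_of_B1 hX.dim hι hd (forms_hom a) ha.1
    (Set.finite_singleton fun i => algebraMap k (AlgebraicClosure k) (q i))
    (fun y hy' => by rw [Set.mem_singleton_iff.1 hy']; exact ⟨hy, ha.2⟩)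
  exact ⟨c, h1, h2, covs_eval (h3 _ rfl)⟩

/-- generic forms give a cover that is unramified over a given rational point and along the fibres
through finitely many points -/
theorem Var.Nice.cover_S (hX : X.Nice n) (hι : Fintype.card ι = n + 1) (hd : 2 ≤ d) {q : ι → k}
    (hq : q ≠ 0) {M : Type} [Field M] [Algebra k M] {S : Set (Fin (X.N + 1) → M)} (hS : S.Finite)
    (h : ∀ x ∈ S, X.On x) : Gn k fun a : ι × Mon X.N d → k =>
      ∃ c : Cover X ι, c.d = d ∧ c.f = forms a ∧ MvPolynomial.eval q c.G ≠ 0 ∧ ∀ x ∈ S,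
        aeval (fun i => aeval x (c.f i)) c.G ≠ 0 ∧ ∀ i, aeval x (c.f i) ≠ 0 := by
  have hd0 : 0 < d := by omega
  let ψ : M →ₐ[k] AlgebraicClosure M := IsScalarTower.toAlgHom k M _
  have hy := covs_ne (Λ := AlgebraicClosure M) hq
  obtain ⟨i0⟩ : Nonempty ι := Fintype.card_pos_iff.1 (by omega)
  refine (((Var.gn_b1 hX.dim hι d).and (hX.gn_et0 hι hd0 hy)).and
    (Gn.ball hS fun x hx => (hX.gn_et hι hd ((h x hx).map ψ)).and
      (Gn.all fun i => gn_ne' (k := k) d (h x hx).1 i))).mono fun a ha => ?_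
  obtain ⟨⟨a1, a2⟩, a3⟩ := ha
  obtain ⟨c, h1, h2, h3⟩ := Var.cover_of_B1 hX.dim hι hd0 (forms_hom a) a1
    ((hS.image fun x i => aeval (fun j => ψ (x j)) (forms a i)).insert
      fun i => algebraMap k (AlgebraicClosure M) (q i))
    (by
      rintro y (rfl | ⟨x, hx, rfl⟩)
      · exact ⟨hy, a2⟩
      · refine ⟨fun e => (a3 x hx).2 i0 (ψ.injective ?_), (a3 x hx).1⟩
        exact ((covs_aeval_map ψ x _).symm.trans (congrFun e i0)).trans (map_zero ψ).symm)
  refine ⟨c, h1, h2, covs_eval (h3 _ (Or.inl rfl)), fun x hx => ⟨fun e => ?_, ?_⟩⟩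
  · refine h3 _ (Or.inr ⟨x, hx, rfl⟩) ?_
    simp only [covs_aeval_map]
    rw [← h2, e, map_zero]
  · rw [h2]; exact (a3 x hx).2

end Pool.Agent.ZCy
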