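import Pool.Agent.Lib.MP_751085_ag.ZC.VDefs

/-! The degree of a norm as a sum of residue degrees. -/

namespace Pool.Agent.ZCy

open scoped Classical Polynomial
open Polynomial

set_option linter.unusedSectionVars false

theorem cy1_len {k A : Type} [Field k] [CommRing A] [Algebra k A] (Γ : AddSubgroup ℤ)
    (h : ∀ 𝔪 : Ideal A, 𝔪.IsMaximal → (Module.finrank k (A ⧸ 𝔪) : ℤ) ∈ Γ) {M : Type}
    [AddCommGroup M] [Module A M] (hM : IsFiniteLength A M) :
    ∀ [Module k M] [IsScalarTower k A M] [Module.Finite k M], (Module.finrank k M : ℤ) ∈ Γ := by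
  induction hM with
  | of_subsingleton =>
    intro _ _ _
    rw [Module.finrank_zero_of_subsingleton]
    exact Γ.zero_mem
  | @of_simple_quotient M _ _ N hs _ ih =>
    intro _ _ _
    obtain ⟨I, hI, ⟨e⟩⟩ := isSimpleModule_iff_quot_maximal.1 hs
    have : Module.Finite k N := Module.Finite.of_injective (N.subtype.restrictScalars k)
      Subtype.val_injective
    have e1 := (N.restrictScalars k).finrank_quotient_add_finrank
    rw [(Submodule.Quotient.restrictScalarsEquiv k N).finrank_eq,
      (e.restrictScalars k).finrank_eq] at e1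
    rw [← e1, Nat.cast_add]
    exact Γ.add_mem (h I hI) ih

/-- Induction on the dimension of the module `M` (start with `M = A`): a nonzero finite module has a
maximal proper submodule, the quotient is simple, so isomorphic to `A ⧸ 𝔪`
(`isSimpleModule_iff_quot_maximal`); or `isFiniteLength_iff_isNoetherian_isArtinian` and induction on
`IsFiniteLength`. -/
theorem finrank_mem_of_max {k A : Type} [Field k] [CommRing A] [Algebra k A] [Module.Finite k A]
    (Γ : AddSubgroup ℤ) (h : ∀ 𝔪 : Ideal A, 𝔪.IsMaximal → (Module.finrank k (A ⧸ 𝔪) : ℤ) ∈ Γ) :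
    (Module.finrank k A : ℤ) ∈ Γ := by
  exact cy1_len Γ h (isFiniteLength_iff_isNoetherian_isArtinian.2
    ⟨isNoetherian_of_tower k inferInstance, isArtinian_of_tower k inferInstance⟩)

theorem cy1_zero {k V : Type} [Field k] [AddCommGroup V] [Module k V] (h : ¬Module.Finite k V) :
    Module.finrank k V = 0 := Module.finrank_of_not_finite h

/-- `B = integralClosure k[X] F` is finite and free over `k[X]` (`IsIntegralClosure.finite`,
`IsIntegralClosure.module_free`); `Algebra.finrank_quotient_span_eq_natDegree_norm`; the norm of `u`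
in `B` maps to the norm in `F` (`Algebra.norm_localization`, `IsIntegralClosure.isLocalization`);
`finrank_mem_of_max` for `B ⧸ span {u}`, `κ` the quotient by a maximal ideal. -/
theorem natDegree_norm_mem {k L F : Type} [Field k] [CharZero k] [Field L] [Field F] [Algebra k L]
    [Algebra k[X] L] [IsScalarTower k k[X] L] [IsFractionRing k[X] L] [Algebra L F]
    [FiniteDimensional L F] [Algebra k F] [Algebra k[X] F] [IsScalarTower k[X] L F]
    [IsScalarTower k k[X] F] {u : F} (hu : IsIntegral k[X] u) {Q : k[X]} (h0 : Q ≠ 0)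
    (hQ : algebraMap k[X] L Q = Algebra.norm L u) (Γ : AddSubgroup ℤ)
    (h : ∀ (κ : Type) [Field κ] [Algebra k κ] [FiniteDimensional k κ]
      (ψ : integralClosure k[X] F →ₐ[k] κ), ψ ⟨u, hu⟩ = 0 → (Module.finrank k κ : ℤ) ∈ Γ) :
    (Q.natDegree : ℤ) ∈ Γ := by
  have : CharZero L := charZero_of_injective_algebraMap (algebraMap k L).injective
  have : Module.IsTorsionFree k[X] F := .trans_faithfulSMul k[X] L F
  have := IsIntegralClosure.finite k[X] L F (integralClosure k[X] F)
  have := IsIntegralClosure.module_free k[X] L F (integralClosure k[X] F)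
  have := IsIntegralClosure.isLocalization k[X] L F (integralClosure k[X] F)
  have e : Q = Algebra.norm k[X] (⟨u, hu⟩ : integralClosure k[X] F) :=
    IsFractionRing.injective k[X] L (hQ.trans
      (Algebra.norm_localization k[X] (nonZeroDivisors k[X]) (⟨u, hu⟩ : integralClosure k[X] F)))
  have hu0 : (⟨u, hu⟩ : integralClosure k[X] F) ≠ 0 := fun h1 =>
    h0 (by rw [e, h1, Algebra.norm_zero])
  rw [e, ← finrank_quotient_span_eq_natDegree_norm
    (Module.Free.chooseBasis k[X] (integralClosure k[X] F)) hu0]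
  by_cases hf : Module.Finite k
    (integralClosure k[X] F ⧸ Ideal.span {(⟨u, hu⟩ : integralClosure k[X] F)})
  · refine finrank_mem_of_max Γ fun 𝔪 _ => ?_
    let := Ideal.Quotient.field 𝔪
    refine h _ ((Ideal.Quotient.mkₐ k 𝔪).comp (Ideal.Quotient.mkₐ k _)) ?_
    rw [AlgHom.comp_apply, Ideal.Quotient.mkₐ_eq_mk k (Ideal.span _),
      Ideal.Quotient.eq_zero_iff_mem.2 (Ideal.mem_span_singleton_self _), map_zero]
  · rw [cy1_zero hf]
    exact Γ.zero_mem

theorem cy1_tr {k : Type} [Field k] (t : k) :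
    Transcendental k (RatFunc.X - RatFunc.C t : RatFunc k) := fun h =>
  RatFunc.transcendental_X (by simpa using h.add (isAlgebraic_algebraMap t))

theorem cy1_ne {k : Type} [Field k] (t : k) : (RatFunc.X - RatFunc.C t : RatFunc k) ≠ 0 :=
  fun h => cy1_tr t (h ▸ isAlgebraic_zero)

theorem cy1_inj {k : Type} [Field k] (t : k) :
    Function.Injective (aeval (RatFunc.X - RatFunc.C t : RatFunc k)⁻¹ : k[X] →ₐ[k] RatFunc k) :=
  transcendental_iff_injective.1 fun h => cy1_tr t (IsAlgebraic.inv_iff.1 h)

theorem cy1_refl {k : Type} [Field k] (t : k) (P : k[X]) {N : ℕ} (hN : P.natDegree ≤ N) :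
    aeval (RatFunc.X - RatFunc.C t : RatFunc k)⁻¹ (reflect N (taylor t P)) *
      (RatFunc.X - RatFunc.C t) ^ N = aeval RatFunc.X P := by
  let := invertibleOfNonzero (cy1_ne t)
  have h := eval₂_reflect_mul_pow (algebraMap k (RatFunc k)) (RatFunc.X - RatFunc.C t) N
    (taylor t P) (by rwa [natDegree_taylor])
  rw [invOf_eq_inv, ← aeval_def, ← aeval_def] at h
  rw [h, taylor_apply, aeval_comp]
  simp

/-- Change of the point at infinity. In `L = RatFunc k` with `s = (X - C t)⁻¹`: `aeval s` is
injective and makes `L` the fraction field of `k[X]`. -/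
theorem isFractionRing_inv {k : Type} [Field k] (t : k) :
    letI := (aeval (RatFunc.X - RatFunc.C t : RatFunc k)⁻¹ : k[X] →ₐ[k] RatFunc k).toRingHom.toAlgebra
    IsFractionRing k[X] (RatFunc k) := by
  let := (aeval (RatFunc.X - RatFunc.C t : RatFunc k)⁻¹ :
    k[X] →ₐ[k] RatFunc k).toRingHom.toAlgebra
  have := (faithfulSMul_iff_algebraMap_injective k[X] (RatFunc k)).2 (cy1_inj t)
  refine IsFractionRing.of_field _ _ fun z => ⟨reflect (z.num.natDegree + z.denom.natDegree)
    (taylor t z.num), reflect (z.num.natDegree + z.denom.natDegree) (taylor t z.denom), ?_⟩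
  have h1 := cy1_refl t z.num (Nat.le_add_right _ z.denom.natDegree)
  have h2 := cy1_refl t z.denom (Nat.le_add_left _ z.num.natDegree)
  rw [RatFunc.aeval_X_left_eq_algebraMap] at h1 h2
  refine z.num_div_denom.symm.trans ?_
  rw [← h1, ← h2]
  exact mul_div_mul_right _ _ (pow_ne_zero _ (cy1_ne t))

/-- `s ^ e * P (t + 1 / s)` is the value at `s` of `reflect e (taylor t P)`, of degree `e = deg P`
with leading coefficient `P t`; so `Q * X ^ e = X ^ m * reflect e (taylor t P)`. -/
theorem natDegree_of_inv {k : Type} [Field k] (t : k) {P Q : k[X]} (hP : P.eval t ≠ 0) {m : ℕ}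
    (h : aeval (RatFunc.X - RatFunc.C t : RatFunc k)⁻¹ Q =
      (RatFunc.X - RatFunc.C t : RatFunc k)⁻¹ ^ m * aeval RatFunc.X P) :
    Q ≠ 0 ∧ Q.natDegree = m := by
  have h1 : Q * X ^ P.natDegree = X ^ m * reflect P.natDegree (taylor t P) := cy1_inj t (by
    rw [map_mul, map_mul, map_pow, map_pow, aeval_X, h, ← cy1_refl t P le_rfl, mul_assoc, mul_assoc,
      ← mul_pow, mul_inv_cancel₀ (cy1_ne t), one_pow, mul_one])
  have h2 : (reflect P.natDegree (taylor t P)).coeff P.natDegree ≠ 0 := by
    rwa [coeff_reflect, revAt_le le_rfl, Nat.sub_self, taylor_coeff_zero]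
  have h3 : (reflect P.natDegree (taylor t P)).natDegree = P.natDegree :=
    natDegree_eq_of_le_of_coeff_ne_zero
      (natDegree_reflect_le.trans (by rw [natDegree_taylor, max_self])) h2
  have h4 : reflect P.natDegree (taylor t P) ≠ 0 := fun h' => h2 (by rw [h', coeff_zero])
  have h5 : Q ≠ 0 := by
    rintro rfl
    exact mul_ne_zero (pow_ne_zero _ X_ne_zero) h4 (h1.symm.trans (zero_mul _))
  have h6 := congrArg natDegree h1
  rw [natDegree_mul h5 (pow_ne_zero _ X_ne_zero), natDegree_mul (pow_ne_zero _ X_ne_zero) h4,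
    natDegree_X_pow, natDegree_X_pow, h3] at h6
  exact ⟨h5, Nat.add_right_cancel h6⟩

end Pool.Agent.ZCy
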