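import Pool.Agent.Lib.MP_751085_ag.ZC.CWh

/-! Points of a cover. -/

namespace Pool.Agent.ZCy

open scoped Classical Polynomial
open MvPolynomial

set_option linter.unusedSectionVars false

theorem lift_ev_dvd {R S ι : Type} [CommRing R] [CommRing S] {φ : R →+* S} {y : ι → S} {z : S}
    {χ p q : (MP ι R)[X]} (hz : ev φ y z χ = 0) (h : χ ∣ p - q) : ev φ y z p = ev φ y z q := by
  obtain ⟨g, hg⟩ := h
  rw [← sub_eq_zero, ← map_sub, hg, map_mul, hz, zero_mul]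

theorem lift_zero {R S ι : Type} [CommRing R] [CommRing S] (φ : R →+* S) {G : MP ι R} {m : ℕ}
    (hG : G.IsHomogeneous m) (hm : 0 < m) : eval₂ φ (0 : ι → S) G = 0 := by
  rw [← zero_smul S (0 : ι → S), eval₂_smul_hom hG, zero_pow hm.ne', zero_mul]

theorem lift_ev_zero {R S ι : Type} [CommRing R] [CommRing S] (φ : R →+* S) {H : (MP ι R)[X]}
    (h1 : H.Monic) (h2 : WH H.natDegree H) (z : S) : ev φ 0 z H = z ^ H.natDegree := by
  conv_lhs => rw [h1.as_sum]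
  rw [map_add, map_pow, ev_X, map_sum, Finset.sum_eq_zero fun i hi => ?_, add_zero]
  rw [map_mul, ev_C, lift_zero φ (h2.coeff i) (Nat.sub_pos_of_lt (Finset.mem_range.1 hi)), zero_mul]

variable {k : Type} [Field k] {X : Var k} {ι : Type} (c : Cover X ι) {Ω : Type} [Field Ω]
  [Algebra k Ω]

/-- the point given by a root of `χ` -/
theorem Cover.pt {y : ι → Ω} {z : Ω} (hz : ev (algebraMap k Ω) y z c.χ = 0) (hD : aeval y c.D ≠ 0) :
    ∃ W : Ω, W ≠ 0 ∧ X.On (fun j => ev (algebraMap k Ω) y z (c.pp j)) ∧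
      (∀ i, aeval (fun j => ev (algebraMap k Ω) y z (c.pp j)) (c.f i) = W * y i) ∧
      aeval (fun j => ev (algebraMap k Ω) y z (c.pp j)) c.th = W * z := by
  obtain ⟨β, hβ⟩ := c.bez
  have h1 := lift_ev_dvd hz hβ
  rw [ev_C, ← aeval_def, map_mul, map_mul] at h1
  rw [h1] at hD
  have h2 := right_ne_zero_of_mul hD
  refine ⟨ev (algebraMap k Ω) y z (Polynomial.derivative c.χ * sb c.pp c.l ^ (c.d - 1)), ?_,
    ⟨fun e => ?_, fun E hE => ?_⟩, fun i => ?_, ?_⟩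
  · rw [map_mul, map_pow]
    exact mul_ne_zero (left_ne_zero_of_mul h2) (pow_ne_zero _ (right_ne_zero_of_mul h2))
  · refine right_ne_zero_of_mul h2 ?_
    rw [ev_sb, e]
    exact lift_zero _ c.hl one_pos
  · rw [aeval_def, ← ev_sb, lift_ev_dvd (q := 0) hz (by rw [sub_zero]; exact c.dv_on E hE), map_zero]
  · rw [aeval_def, ← ev_sb, lift_ev_dvd hz (c.dv_f i), map_mul, ev_C, eval₂_X, mul_comm]
  · rw [aeval_def, ← ev_sb, lift_ev_dvd hz c.dv_th, map_mul, ev_X, mul_comm]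

/-- rescale by a `d`-th root of `W⁻¹` -/
theorem Cover.lift [IsAlgClosed Ω] {y : ι → Ω} {z : Ω} (hz : ev (algebraMap k Ω) y z c.χ = 0)
    (hD : aeval y c.D ≠ 0) : ∃ x ∈ X.Fib c.f y, aeval x c.th = z := by
  obtain ⟨W, hW, h1, h2, h3⟩ := c.pt hz hD
  obtain ⟨u, hu⟩ := IsAlgClosed.exists_pow_nat_eq W⁻¹ c.dpos
  have hu0 : u ≠ 0 := fun e => inv_ne_zero hW (by rw [← hu, e, zero_pow c.dpos.ne'])
  refine ⟨u • fun j => ev (algebraMap k Ω) y z (c.pp j), ⟨h1.smul hu0, fun i => ?_⟩, ?_⟩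
  · rw [aeval_smul_hom (c.hf i), h2, hu, inv_mul_cancel_left₀ hW]
  · rw [aeval_smul_hom c.hth, h3, hu, inv_mul_cancel_left₀ hW]

/-- off `D = 0` the roots are simple -/
theorem Cover.separable {y : ι → Ω} (hD : aeval y c.D ≠ 0) :
    (c.χ.map (eval₂Hom (algebraMap k Ω) y)).Separable := by
  obtain ⟨β, g, hg⟩ := c.bez
  have h1 := congrArg (Polynomial.map (eval₂Hom (algebraMap k Ω) y)) hg
  simp only [Polynomial.map_sub, Polynomial.map_mul, Polynomial.map_C, coe_eval₂Hom,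
    ← aeval_def] at h1
  have h2 : Polynomial.C (aeval y c.D)⁻¹ * Polynomial.C (aeval y c.D) = 1 := by
    rw [← map_mul, inv_mul_cancel₀ hD, map_one]
  refine ⟨Polynomial.C (aeval y c.D)⁻¹ * g.map (eval₂Hom (algebraMap k Ω) y),
    Polynomial.C (aeval y c.D)⁻¹ * (β.map (eval₂Hom (algebraMap k Ω) y) *
      (sb c.pp c.l).map (eval₂Hom (algebraMap k Ω) y)), ?_⟩
  rw [Polynomial.derivative_map]
  linear_combination h2 - Polynomial.C (aeval y c.D)⁻¹ * h1

theorem Cover.D_ne_iff (y : ι → Ω) : aeval y c.D ≠ 0 ↔ aeval y c.G ≠ 0 := by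
  obtain ⟨r, a, ha⟩ := c.dvd
  obtain ⟨b, hb⟩ := c.dvd'
  refine ⟨fun h e => h (by rw [hb, map_mul, e, zero_mul]), fun h e => pow_ne_zero r h ?_⟩
  rw [← map_pow, ha, map_mul, e, zero_mul]

/-- the forms have no common zero -/
theorem Var.Int.b1 {d : ℕ} {f : ι → Fm X.N k} (h : X.Int d f) : X.B1 f := by
  intro Ω _ _ x hx
  by_contra hc
  have h0 : (fun i => aeval x (f i)) = 0 := funext fun i => not_not.1 fun e => hc ⟨i, e⟩
  obtain ⟨j, hj⟩ := Function.ne_iff.1 hx.1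
  obtain ⟨H, h1, h2, h3⟩ := h j
  have h4 := h3 Ω x hx.zr
  rw [h0, lift_ev_zero _ h1 h2] at h4
  exact pow_ne_zero _ (pow_ne_zero _ hj) h4

/-- the coordinates of a point of the cone are integral over the values of the forms -/
theorem Var.Int.isIntegral_pt {d : ℕ} {f : ι → Fm X.N k} (h : X.Int d f) (hd : 0 < d) {A S : Type}
    [CommRing A] [CommRing S] [Algebra k A] [Algebra k S] [Algebra A S] [IsScalarTower k A S]
    {x : Fin (X.N + 1) → S} (hx : X.Zr x) (t : ι → A)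
    (ht : ∀ i, aeval x (f i) = algebraMap A S (t i)) (j : Fin (X.N + 1)) : IsIntegral A (x j) := by
  obtain ⟨H, h1, -, h3⟩ := h j
  refine IsIntegral.of_pow hd ⟨H.map (eval₂Hom (algebraMap k A) t), h1.map _, ?_⟩
  rw [Polynomial.eval₂_map, comp_eval₂Hom, ← IsScalarTower.algebraMap_eq, ← ev_def, ← h3 S x hx]
  simp only [ht]

end Pool.Agent.ZCy
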