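import Pool.Agent.Lib.MP_751085_ag.ZC.CCy1
import Pool.Agent.Lib.MP_751085_ag.ZC.CLift

/-! Cycles of controlled degree on hypersurface sections. -/

namespace Pool.Agent.ZCy

open scoped Classical Polynomial
open MvPolynomial

set_option linter.unusedSectionVars false

variable {k : Type} [Field k] [CharZero k] {X : Var k} {ι : Type}

/-- the degrees of the cycles supported on `f = 0` -/
def Var.degs (X : Var k) (f : Fm X.N k) : AddSubgroup ℤ where
  carrier := {m | ∃ p : X.Cyc k, (∀ x ∈ p.support, aeval x.1 f = 0) ∧ Var.deg p = m}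
  zero_mem' := ⟨0, by simp, by simp [Var.deg]⟩
  add_mem' := by
    rintro _ _ ⟨p, hp, rfl⟩ ⟨q, hq, rfl⟩
    refine ⟨p + q, fun x hx => ?_, Finsupp.sum_add_index' (by simp) fun _ _ _ => add_mul _ _ _⟩
    exact (Finset.mem_union.1 (Finsupp.support_add hx)).elim (hp x) (hq x)
  neg_mem' := by
    rintro _ ⟨p, hp, rfl⟩
    refine ⟨-p, fun x hx => hp x (by rwa [Finsupp.support_neg] at hx), ?_⟩
    rw [Var.deg, Finsupp.sum_neg_index (by simp)]
    simp [Var.deg, Finsupp.sum]

/-- Scale `x` to have a coordinate `1`, embed `κ` into the algebraic closure by `j`; `Var.res` of the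
image point is contained in the range of `j`, so its degree divides `finrank k κ`; take a multiple
of the point. -/
theorem Var.finrank_mem_degs {f : Fm X.N k} {d : ℕ} (hf : f.IsHomogeneous d) {κ : Type} [Field κ]
    [Algebra k κ] [FiniteDimensional k κ] {x : Fin (X.N + 1) → κ} (hx : X.On x)
    (h0 : aeval x f = 0) : (Module.finrank k κ : ℤ) ∈ X.degs f := by
  obtain ⟨i, hi⟩ := Function.ne_iff.1 hx.1
  have hi' : x i ≠ 0 := hi
  let j : κ →ₐ[k] AlgebraicClosure k := IsAlgClosed.lift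
  let P : X.Pt (AlgebraicClosure k) := ⟨fun m => j (((x i)⁻¹ • x) m),
    ⟨i, by simp [inv_mul_cancel₀ hi']⟩, (hx.zr.smul _).map j⟩
  have h1 : Var.res P ≤ j.fieldRange := by
    refine IntermediateField.adjoin_le_iff.2 ?_
    rintro _ ⟨m, rfl⟩
    exact ⟨_, rfl⟩
  obtain ⟨n, hn⟩ := IntermediateField.finrank_dvd_of_le_right h1
  rw [← j.equivFieldRange.toLinearEquiv.finrank_eq] at hn
  refine ⟨Finsupp.single P n, fun y hy => ?_, ?_⟩
  · rw [Finset.mem_singleton.1 (Finsupp.support_single_subset hy)]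
    show aeval (fun m => j (((x i)⁻¹ • x) m)) f = 0
    rw [← comp_aeval_apply, aeval_smul_hom hf, h0, mul_zero, map_zero]
  · rw [Var.deg, Finsupp.sum_single_index (zero_mul _), hn]
    push_cast
    ring

/-- A curve on `X`: `L = RatFunc k`, `T = p + τ q` with `i₁ ≠ i₂`, `D p * p i₁ ≠ 0` and
`q = Pi.single i₂ 1`, `F = AdjoinRoot` of an
irreducible factor of `χ(T, ·)`, `z = W⁻¹ • pp` from `Cover.pt`. -/
theorem Cover.exists_curve [Fintype ι] (c : Cover X ι) (hd : c.d = 1) (hι : 2 ≤ Fintype.card ι) :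
    ∃ (F : Type) (_ : Field F) (_ : Algebra k F) (_ : Algebra (RatFunc k) F)
      (_ : IsScalarTower k (RatFunc k) F) (_ : FiniteDimensional (RatFunc k) F)
      (z : Fin (X.N + 1) → F) (p q : ι → k) (i₁ i₂ : ι), X.On z ∧ p i₁ ≠ 0 ∧ q i₁ = 0 ∧
      q i₂ ≠ 0 ∧ ∀ i, aeval z (c.f i) =
        algebraMap (RatFunc k) F (RatFunc.C (p i) + RatFunc.X * RatFunc.C (q i)) := by
  obtain ⟨i₁, i₂, hne⟩ := Fintype.exists_pair_of_one_lt_card hι
  obtain ⟨p, hp⟩ : ∃ p : ι → k, MvPolynomial.eval p (c.D * MvPolynomial.X i₁) ≠ 0 := by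
    by_contra h
    push Not at h
    exact mul_ne_zero c.D_ne (X_ne_zero i₁)
      (MvPolynomial.funext fun p => (h p).trans (map_zero _).symm)
  rw [map_mul, eval_X, mul_ne_zero_iff] at hp
  let q : ι → k := Pi.single i₂ 1
  let y : ι → RatFunc k := fun i => RatFunc.C (p i) + RatFunc.X * RatFunc.C (q i)
  have hy : aeval y c.D ≠ 0 := by
    have h1 : y = fun i => IsScalarTower.toAlgHom k k[X] (RatFunc k)
        (Polynomial.C (p i) + Polynomial.X * Polynomial.C (q i)) := by
      funext i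
      simp only [y, map_add, map_mul, IsScalarTower.coe_toAlgHom', RatFunc.algebraMap_C,
        RatFunc.algebraMap_X]
    rw [h1, ← comp_aeval_apply, IsScalarTower.coe_toAlgHom', ne_eq,
      FaithfulSMul.algebraMap_eq_zero_iff]
    intro h2
    have h3 := congrArg (Polynomial.aeval (0 : k)) h2
    rw [comp_aeval_apply, map_zero] at h3
    simp only [map_add, map_mul, Polynomial.aeval_X, zero_mul, add_zero, Polynomial.aeval_C,
      Algebra.algebraMap_self, RingHom.id_apply] at h3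
    exact hp.1 h3
  have hm := c.monic.map (eval₂Hom (algebraMap k (RatFunc k)) y)
  obtain ⟨g, hg, hdv⟩ := Polynomial.exists_irreducible_of_natDegree_pos
    (f := c.χ.map (eval₂Hom (algebraMap k (RatFunc k)) y))
    (by rw [c.monic.natDegree_map, c.deg]; exact c.pos)
  have : Fact (Irreducible g) := ⟨hg⟩
  let ψ := IsScalarTower.toAlgHom k (RatFunc k) (AdjoinRoot g)
  have hz : ev (algebraMap k (AdjoinRoot g)) (fun i => ψ (y i)) (AdjoinRoot.root g) c.χ = 0 := by
    have h4 := Polynomial.eval₂_eq_zero_of_dvd_of_eval₂_eq_zero (AdjoinRoot.of g)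
      (AdjoinRoot.root g) hdv (AdjoinRoot.eval₂_root g)
    rw [Polynomial.eval₂_map, comp_eval₂Hom] at h4
    exact h4
  have hD : aeval (fun i => ψ (y i)) c.D ≠ 0 := by
    rw [← comp_aeval_apply]
    exact (_root_.map_ne_zero ψ).2 hy
  obtain ⟨W, hW, h5, h6, -⟩ := c.pt hz hD
  refine ⟨AdjoinRoot g, inferInstance, inferInstance, inferInstance, inferInstance,
    (AdjoinRoot.powerBasis hg.ne_zero).finite, _, p, q, i₁, i₂, h5.smul (inv_ne_zero hW), hp.2,
    Pi.single_eq_of_ne hne _, by simp [q], fun i => ?_⟩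
  rw [aeval_smul_hom (c.hf i), h6, hd, pow_one, inv_mul_cancel_left₀ hW]
  rfl

end Pool.Agent.ZCy
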