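import Pool.Agent.Lib.MP_751085_ag.ZC.CCy2

/-! Cycles of controlled degree on hypersurface sections, end. -/

namespace Pool.Agent.ZCy

open scoped Classical Polynomial
open MvPolynomial

set_option linter.unusedSectionVars false

variable {k : Type} [Field k] [CharZero k] {X : Var k} {ι : Type}

/-- the norm of a form at a point that is integral over a polynomial ring -/
theorem cy3_norm {L F : Type} [Field L] [Field F] [Algebra k L] [Algebra L F] [Algebra k F]
    [IsScalarTower k L F] [FiniteDimensional L F] (σ : k[X] →ₐ[k] L)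
    (hσ : letI := σ.toRingHom.toAlgebra; IsFractionRing k[X] L) {d : ℕ} {f : ι → Fm X.N k}
    (h : X.Int d f) (hd : 0 < d) {z : Fin (X.N + 1) → F} (hz : X.Zr z) (T : ι → k[X])
    (hT : ∀ i, aeval z (f i) = algebraMap L F (σ (T i))) (e : Fm X.N k) :
    ∃ Q : k[X], σ Q = Algebra.norm L (aeval z e) ∧ (Q ≠ 0 → ∀ Γ : AddSubgroup ℤ,
      (∀ (κ : Type) [Field κ] [Algebra k κ] [FiniteDimensional k κ] (x : Fin (X.N + 1) → κ) (a : κ),
        (∀ i, aeval x (f i) = Polynomial.aeval a (T i)) → (∀ g : Fm X.N k, aeval z g = 0 →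
          aeval x g = 0) → aeval x e = 0 → (Module.finrank k κ : ℤ) ∈ Γ) →
      (Q.natDegree : ℤ) ∈ Γ) := by
  let _ := σ.toRingHom.toAlgebra
  let _ : Algebra k[X] F := ((algebraMap L F).comp σ.toRingHom).toAlgebra
  have : IsScalarTower k k[X] L := .of_algebraMap_eq fun a => (σ.commutes a).symm
  have : IsScalarTower k[X] L F := .of_algebraMap_eq fun _ => rfl
  have : IsScalarTower k k[X] F := .of_algebraMap_eq fun a => by
    rw [IsScalarTower.algebraMap_apply k L F, ← σ.commutes a]; rfl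
  have hi : ∀ j, IsIntegral k[X] (z j) := h.isIntegral_pt hd hz T hT
  let z' : Fin (X.N + 1) → integralClosure k[X] F := fun j => ⟨z j, hi j⟩
  have hv : ∀ g : Fm X.N k, ((aeval z' g : integralClosure k[X] F) : F) = aeval z g := fun g =>
    comp_aeval_apply z' ((integralClosure k[X] F).val.restrictScalars k) g
  have hu : IsIntegral k[X] (aeval z e) := hv e ▸ (aeval z' e).2
  obtain ⟨Q, hQ⟩ := IsIntegrallyClosed.algebraMap_eq_of_integral (Algebra.isIntegral_norm L hu)
  refine ⟨Q, hQ, fun h0 Γ hΓ => natDegree_norm_mem hu h0 hQ Γ fun κ _ _ _ ψ hψ => ?_⟩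
  have hx : ∀ g : Fm X.N k, aeval (fun j => ψ (z' j)) g = ψ (aeval z' g) := fun g =>
    (comp_aeval_apply z' ψ g).symm
  refine hΓ κ (fun j => ψ (z' j)) (ψ (algebraMap k[X] _ Polynomial.X)) (fun i => ?_)
    (fun g hg => ?_) ?_
  · have e1 : aeval z' (f i) = algebraMap k[X] _ (T i) := Subtype.ext ((hv _).trans (hT i))
    rw [hx, e1, Polynomial.aeval_algHom_apply, Polynomial.aeval_algebraMap_apply,
      Polynomial.aeval_X_left_apply]
  · rw [hx, show aeval z' g = 0 from Subtype.ext ((hv g).trans hg), map_zero]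
  · rw [hx, ← hψ]
    exact congrArg ψ (Subtype.ext (hv e))

theorem cy3_frac : letI := (Polynomial.aeval RatFunc.X : k[X] →ₐ[k] RatFunc k).toRingHom.toAlgebra
    IsFractionRing k[X] (RatFunc k) := by
  have h := (isLocalization_iff_isLocalizationMap (nonZeroDivisors k[X]) (RatFunc k)).1
    inferInstance
  rw [← funext RatFunc.aeval_X_left_eq_algebraMap] at h
  exact @IsLocalization'.mk _ _ _ _ _ (RingHom.toAlgebra _) h

theorem cy3_main (c : Cover X ι) (hd : c.d = 1) {F : Type} [Field F] [Algebra k F]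
    [Algebra (RatFunc k) F] [IsScalarTower k (RatFunc k) F] [FiniteDimensional (RatFunc k) F]
    {z : Fin (X.N + 1) → F} {p q : ι → k} {i₁ i₂ : ι} (hz : X.On z) (hp : p i₁ ≠ 0)
    (hq₁ : q i₁ = 0) (hq₂ : q i₂ ≠ 0) (hf : ∀ i, aeval z (c.f i) =
      algebraMap (RatFunc k) F (RatFunc.C (p i) + RatFunc.X * RatFunc.C (q i)))
    {e f : Fm X.N k} {m d : ℕ} (he : e.IsHomogeneous m) (hf' : f.IsHomogeneous d)
    (h0 : aeval z e ≠ 0) (hef : e = f ∨ aeval z f = 0) :
    ((m * Module.finrank (RatFunc k) F : ℕ) : ℤ) ∈ X.degs f := by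
  have h1 : ∀ i, (c.f i).IsHomogeneous 1 := fun i => by simpa only [hd] using c.hf i
  obtain ⟨P, hP, -⟩ := cy3_norm (Polynomial.aeval RatFunc.X) cy3_frac c.int c.dpos hz.zr
    (fun i => Polynomial.C (p i) + Polynomial.X * Polynomial.C (q i))
    (fun i => by
      simp only [hf, map_add, map_mul, Polynomial.aeval_C, Polynomial.aeval_X,
        RatFunc.algebraMap_eq_C]) e
  have hP0 : P ≠ 0 := by
    rintro rfl
    exact Algebra.norm_ne_zero_iff.2 h0 (by rw [← hP, map_zero])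
  obtain ⟨t, ht⟩ : ∃ t, P.eval t ≠ 0 := by
    by_contra hc
    exact hP0 (P.zero_of_eval_zero fun t => not_not.1 fun ht => hc ⟨t, ht⟩)
  have hs : (RatFunc.X - RatFunc.C t : RatFunc k) ≠ 0 := by
    rw [← RatFunc.algebraMap_X, ← RatFunc.algebraMap_C, ← map_sub]
    exact RatFunc.algebraMap_ne_zero (Polynomial.X_sub_C_ne_zero t)
  set s : RatFunc k := (RatFunc.X - RatFunc.C t)⁻¹ with hs'
  obtain ⟨Q, hQ, H⟩ := cy3_norm (Polynomial.aeval s) (isFractionRing_inv t) c.int c.dpos
    (hz.zr.smul (algebraMap (RatFunc k) F s))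
    (fun i => Polynomial.C (p i + t * q i) * Polynomial.X + Polynomial.C (q i))
    (fun i => by
      rw [aeval_smul_hom (h1 i), hf, pow_one, ← map_mul]
      congr 1
      simp only [map_add, map_mul, Polynomial.aeval_C, Polynomial.aeval_X, RatFunc.algebraMap_eq_C]
      linear_combination RatFunc.C (q i) * inv_mul_cancel₀ hs) e
  rw [aeval_smul_hom he, map_mul, map_pow, Algebra.norm_algebraMap, ← pow_mul, ← hP,
    mul_comm _ m] at hQ
  obtain ⟨hQ0, hQd⟩ := natDegree_of_inv t ht hQ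
  rw [← hQd]
  refine H hQ0 _ fun κ _ _ _ x a hx hg hxe => Var.finrank_mem_degs hf' (x := x)
    ⟨fun hx0 => ?_, fun G hG => hg G (hz.zr.smul _ G hG)⟩ ?_
  · have h2 : ∀ i, algebraMap k κ (p i + t * q i) * a + algebraMap k κ (q i) = 0 := fun i => by
      have h3 := aeval_smul_hom (h1 i) (0 : κ) x
      rw [zero_smul, ← hx0, pow_one, zero_mul, hx] at h3
      simpa only [map_add, map_mul, Polynomial.aeval_C, Polynomial.aeval_X] using h3
    have h3 : a = 0 := by simpa [hq₁, hp] using h2 i₁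
    exact hq₂ (by simpa [h3] using h2 i₂)
  · rcases hef with rfl | hef
    · exact hxe
    · exact hg f (by rw [aeval_smul_hom hf', hef, mul_zero])

theorem Cover.cyc [Fintype ι] (c : Cover X ι) (hd : c.d = 1) (hι : 2 ≤ Fintype.card ι) :
    ∃ δ : ℕ, 0 < δ ∧ ∀ (d : ℕ) (f : Fm X.N k), f.IsHomogeneous d →
      ((d * δ : ℤ) ∈ X.degs f ∨ (δ : ℤ) ∈ X.degs f) := by
  obtain ⟨F, _, _, _, _, _, z, p, q, i₁, i₂, hz, hp, hq₁, hq₂, hf⟩ := c.exists_curve hd hι
  refine ⟨Module.finrank (RatFunc k) F, Module.finrank_pos, fun d f hf' => ?_⟩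
  by_cases h0 : aeval z f = 0
  · have h1 : aeval z (c.f i₁) ≠ 0 := by simp [hf, hq₁, hp]
    have h2 := cy3_main c hd hz hp hq₁ hq₂ hf (c.hf i₁) hf' h1 (.inr h0)
    rw [hd, one_mul] at h2
    exact .inr h2
  · have h2 := cy3_main c hd hz hp hq₁ hq₂ hf hf' hf' h0 (.inl rfl)
    rw [Nat.cast_mul] at h2
    exact .inl h2

end Pool.Agent.ZCy
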