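import Pool.Agent.Lib.MP_751085_ag.ZC.Iface
import Pool.Agent.Lib.MP_751085_ag.ZC.CChf
import Pool.Agent.Lib.MP_751085_ag.ZC.CCy3
import Pool.Agent.Lib.MP_751085_ag.ZC.CInt
import Pool.Agent.Lib.MP_751085_ag.ZC.CCovS

/-! Two statements of the interface. -/

namespace Pool.Agent.ZCy

open scoped Classical

theorem chf_thm : CHF := fun _ _ _ _ _ hX _ _ _ _ _ c hσ =>
  ⟨hX.chart_gi c hσ, fun _ _ _ _ _ hF ha =>
    (hX.chart_dom c hσ hF.1 ha).imp fun _ h => ⟨hF, ha, h⟩⟩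

theorem cyc_thm : CYC := fun k _ _ X n hX hn => by
  obtain ⟨a, c, h1, -⟩ := (hX.gn_cover (ι := Fin (n + 1)) (d := 1) (Fintype.card_fin _) one_pos
    (q := fun _ => 1) fun h => one_ne_zero (congrFun h 0)).exists
  obtain ⟨δ, h0, h⟩ := c.cyc h1 (by rw [Fintype.card_fin]; omega)
  refine ⟨δ, h0, fun d f hf _ => ?_⟩
  rcases h d f hf with ⟨p, h2, h3⟩ | ⟨p, h2, h3⟩
  exacts [⟨p, h2, Or.inl h3⟩, ⟨p, h2, Or.inr h3⟩]

end Pool.Agent.ZCy
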