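import Pool.Agent.Lib.MP_751085_ag.ZC.CAl2

/-! The pencil of lines through the origin; moving good lines. -/

namespace Pool.Agent.ZCy

open scoped Classical Polynomial
open MvPolynomial Filter

set_option linter.unusedSectionVars false

section ring

variable {R S : Type} [CommRing R] [CommRing S] {σ : Type}

section

variable [Fintype σ]

theorem line_dir (Θ : MP (Option σ) R) :
    line C 0 (fun i : Option σ => i.elim 1 X) Θ = ∑ m ∈ Θ.support,
      Polynomial.monomial m.degree (monomial m.some (coeff m Θ)) := by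
  conv_lhs => rw [Θ.as_sum, map_sum]
  refine Finset.sum_congr rfl fun m _ => ?_
  rw [line, coe_eval₂Hom, eval₂_monomial, Finsupp.prod_fintype _ _ fun _ => pow_zero _,
    Finsupp.degree_eq_sum, monomial_eq, Finsupp.prod_fintype _ _ fun _ => pow_zero _,
    ← Polynomial.C_mul_X_pow_eq_monomial]
  simp [mul_pow, Finset.prod_mul_distrib, Finset.prod_pow_eq_pow_sum, Fintype.prod_option,
    Fintype.sum_option, pow_add]
  ring

theorem tp_flp (Θ : MP (Option σ) R) : tp (flp Θ) =
    Polynomial.reflect (Θ.totalDegree + 1) (line C 0 (fun i : Option σ => i.elim 1 X) Θ) := by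
  rw [line_dir, flp]
  simp only [tp]
  rw [map_sum]
  have e : ∀ (s : Finset (Option σ →₀ ℕ)) (F : (Option σ →₀ ℕ) → (MP σ R)[X]) (n : ℕ),
      Polynomial.reflect n (∑ m ∈ s, F m) = ∑ m ∈ s, Polynomial.reflect n (F m) := fun s F n => by
    induction s using Finset.induction_on with
    | empty => simp
    | insert a s ha ih => rw [Finset.sum_insert ha, Finset.sum_insert ha, Polynomial.reflect_add, ih]
  rw [e]
  refine Finset.sum_congr rfl fun m hm => ?_
  have h : m.degree ≤ Θ.totalDegree + 1 := (le_totalDegree hm).trans (Nat.le_succ _)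
  rw [optionEquivLeft_monomial, ← Polynomial.C_mul_X_pow_eq_monomial,
    ← Polynomial.C_mul_X_pow_eq_monomial, Polynomial.reflect_C_mul_X_pow, Polynomial.revAt_le h]
  congr 3
  · ext i; simp
  · simp

theorem map_tp_flp (Θ : MP (Option σ) R) (ψ : MP σ R →+* S) : (tp (flp Θ)).map ψ =
    Polynomial.X * Polynomial.reflect Θ.totalDegree
      (line (ψ.comp C) 0 (fun i : Option σ => i.elim 1 fun j => ψ (X j)) Θ) := by
  rw [tp_flp, ← Polynomial.reflect_map, map_line]
  have e1 : (fun i : Option σ => ψ ((0 : Option σ → MP σ R) i)) = 0 := by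
    funext i; simp
  have e2 : (fun i : Option σ => ψ (i.elim 1 X)) = fun i => i.elim 1 fun j => ψ (X j) := by
    funext i; cases i <;> simp
  rw [e1, e2, add_comm]
  have h := Polynomial.reflect_mul (F := 1) 1 _ (by simp) (natDegree_line_le (ψ.comp C) 0
    (fun i : Option σ => i.elim 1 fun j => ψ (X j)) Θ)
  rwa [one_mul, Polynomial.reflect_one, pow_one] at h

theorem natDegree_tp_flp (Θ : MP (Option σ) R) : (tp (flp Θ)).natDegree ≤ Θ.totalDegree + 1 := by
  rw [tp_flp]
  exact Polynomial.natDegree_reflect_le.trans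
    (max_le le_rfl ((natDegree_line_le _ _ _ _).trans (Nat.le_succ _)))

end

theorem line_smul (φ : R →+* S) (a b : σ → S) (c : S) (G : MP σ R) :
    line φ a (c • b) G = (line φ a b G).comp (Polynomial.C c * Polynomial.X) := by
  have : line φ a (c • b) =
      (Polynomial.compRingHom (Polynomial.C c * Polynomial.X)).comp (line φ a b) := by
    ext : 1
    · ext : 1; simp
    · simp; ring
  exact DFunLike.congr_fun this G

theorem separable_comp {P : R[X]} (h : P.Separable) {c : R} (hc : IsUnit c) :
    (P.comp (Polynomial.C c * Polynomial.X)).Separable := by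
  have h1 := IsCoprime.map h (Polynomial.compRingHom (Polynomial.C c * Polynomial.X))
  rw [Polynomial.Separable, Polynomial.derivative_comp, Polynomial.derivative_C_mul_X]
  exact (isCoprime_mul_unit_left_right (hc.map Polynomial.C) _ _).2 h1

theorem GoodLine.smul {G : MP σ R} {a b : σ → R} (h : GoodLine G a b) {c : R} (hc : IsUnit c) :
    GoodLine G a (c • b) := by
  refine ⟨h.1, ?_, ?_⟩ <;> rw [line_smul]
  · exact separable_comp h.2.1 hc
  · rw [Polynomial.comp_C_mul_X_coeff]
    exact h.2.2.mul (hc.pow _)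

end ring

variable {K : Type} [Field K]

theorem squarefree_of_reflect {P : K[X]} {E : ℕ} (hE : P.natDegree ≤ E) (h0 : P.coeff 0 ≠ 0)
    (h : Squarefree (Polynomial.reflect E P)) : Squarefree P := by
  rintro m ⟨w, rfl⟩
  have h1 : m * m * w ≠ 0 := fun h1 => h0 (by rw [h1, Polynomial.coeff_zero])
  have hm : m ≠ 0 := left_ne_zero_of_mul (left_ne_zero_of_mul h1)
  rw [Polynomial.natDegree_mul (left_ne_zero_of_mul h1) (right_ne_zero_of_mul h1),
    Polynomial.natDegree_mul hm hm] at hE
  obtain ⟨F, rfl⟩ : ∃ F, E = m.natDegree + m.natDegree + F := ⟨E - (m.natDegree + m.natDegree), by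
    omega⟩
  rw [Polynomial.reflect_mul _ _ (Polynomial.natDegree_mul_le) (by omega),
    Polynomial.reflect_mul _ _ le_rfl le_rfl] at h
  have h2 := Polynomial.natDegree_eq_zero_of_isUnit (h _ (dvd_mul_right _ _))
  have h3 : (Polynomial.reflect m.natDegree m).coeff m.natDegree ≠ 0 := by
    rw [Polynomial.coeff_reflect, Polynomial.revAt_le le_rfl, Nat.sub_self]
    intro h3
    exact h0 (by simp [Polynomial.mul_coeff_zero, h3])
  have h4 := Polynomial.le_natDegree_of_ne_zero h3
  exact Polynomial.isUnit_iff_degree_eq_zero.2 (by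
    rw [Polynomial.degree_eq_natDegree hm, show m.natDegree = 0 by omega]; rfl)

variable [CharZero K] {σ ι : Type}

theorem separable_X_mul_reflect {P : K[X]} {E : ℕ} (hE : P.natDegree ≤ E) (h0 : P.coeff 0 ≠ 0) :
    (Polynomial.X * Polynomial.reflect E P).Separable ↔ P.Separable ∧ P.coeff E ≠ 0 := by
  have e : (Polynomial.reflect E P).coeff 0 = P.coeff E := by
    rw [Polynomial.coeff_reflect, Polynomial.revAt_zero]
  rw [PerfectField.separable_iff_squarefree, PerfectField.separable_iff_squarefree,
    squarefree_mul_iff, Polynomial.irreducible_X.isRelPrime_iff_not_dvd, Polynomial.X_dvd_iff, e]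
  refine ⟨fun h => ⟨squarefree_of_reflect hE h0 h.2.2, h.1⟩, fun h =>
    ⟨h.2, Polynomial.irreducible_X.squarefree, squarefree_of_reflect (E := E)
      (Polynomial.natDegree_reflect_le.trans (max_le le_rfl hE)) (e ▸ h.2) ?_⟩⟩
  rw [Polynomial.reflect_reflect]
  exact h.1

theorem goodLine_iff_flp [Fintype σ] {Θ : MP (Option σ) K} (h1 : constantCoeff Θ = 1) (x : σ → K) :
    GoodLine Θ 0 (fun i => i.elim 1 x) ↔ ((tp (flp Θ)).map (eval x)).Separable := by
  have e : (eval x).comp (C : K →+* MP σ K) = RingHom.id K := by ext; simp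
  have e0 : eval (0 : Option σ → K) Θ = 1 := by rw [eval_zero, h1]
  rw [map_tp_flp, e, separable_X_mul_reflect (natDegree_line_le _ _ _ _) (by
    rw [coeff_line_zero, eval₂_id, e0]; exact one_ne_zero), GoodLine, e0,
    isUnit_iff_ne_zero (a := Polynomial.coeff _ _)]
  simp

theorem goodLine_of_bez [Fintype σ] {Θ : MP (Option σ) K} (h1 : constantCoeff Θ = 1) {Δ : MP σ K} {r : ℕ}
    {α β : (MP σ K)[X]} (h : Polynomial.C (Δ ^ r) =
      α * tp (flp Θ) + β * Polynomial.derivative (tp (flp Θ))) {x : σ → K} (hx : eval x Δ ≠ 0) :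
    GoodLine Θ 0 fun i => i.elim 1 x := by
  rw [goodLine_iff_flp h1]
  have h2 := congrArg (Polynomial.map (eval x)) h
  rw [Polynomial.map_C, Polynomial.map_add, Polynomial.map_mul, Polynomial.map_mul,
    ← Polynomial.derivative_map, map_pow] at h2
  refine ⟨Polynomial.C ((eval x Δ ^ r)⁻¹) * α.map (eval x),
    Polynomial.C ((eval x Δ ^ r)⁻¹) * β.map (eval x), ?_⟩
  rw [mul_assoc, mul_assoc, ← mul_add, ← h2, ← map_mul, inv_mul_cancel₀ (pow_ne_zero _ hx), map_one]

theorem ev_root {P : K[X]} (h : P ≠ 0) : ∀ᶠ s in cofinite, P.eval s ≠ 0 := by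
  rw [eventually_cofinite]
  refine (Polynomial.finite_setOfPred_isRoot h).subset fun s hs => ?_
  simpa using hs

/-- a polynomial that does not vanish at `z` vanishes at finitely many points of a line -/
theorem ev_eval_line {Q : MP ι K} {z : ι → K} (h : eval z Q ≠ 0) (u : ι → K) :
    ∀ᶠ s : K in cofinite, eval (z + s • u) Q ≠ 0 := by
  filter_upwards [ev_root (P := line (RingHom.id K) z u Q) fun h0 => h (by
    rw [← eval₂_id, ← coeff_line_zero _ z u, h0, Polynomial.coeff_zero])] with s hs
  rw [eval_line, eval₂_id] at hs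
  rwa [show z + s • u = fun i => z i + u i * s from funext fun i => by simp [mul_comm]]

/-- a good line stays good under almost all moves in a given direction -/
theorem GoodLine.ev {G : MP ι K} {a b : ι → K} (h : GoodLine G a b) (u v : ι → K) :
    ∀ᶠ s : K in cofinite, GoodLine G (a + s • u) (b + s • v) := by
  have e : ∀ s : K, Polynomial.eval s (glc G.totalDegree Polynomial.C G
      (fun i => Polynomial.C (a i) + Polynomial.C (u i) * Polynomial.X)
      fun i => Polynomial.C (b i) + Polynomial.C (v i) * Polynomial.X) =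
      glc G.totalDegree (RingHom.id K) G (a + s • u) (b + s • v) := fun s => by
    rw [← Polynomial.coe_evalRingHom, map_glc]
    congr 1
    · ext; simp
    · funext i; simp [mul_comm s]
    · funext i; simp [mul_comm s]
  filter_upwards [ev_root (P := glc G.totalDegree Polynomial.C G
      (fun i => Polynomial.C (a i) + Polynomial.C (u i) * Polynomial.X)
      fun i => Polynomial.C (b i) + Polynomial.C (v i) * Polynomial.X) fun h0 =>
    goodLine_iff.1 h (by simpa [h0] using (e 0).symm)] with s hs
  exact goodLine_iff.2 (e s ▸ hs)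

theorem ev_shift {p : K → Prop} (h : ∀ᶠ s in cofinite, p s) (s₀ : K) :
    ∀ᶠ s in cofinite, p (s - s₀) :=
  (Function.Injective.tendsto_cofinite (sub_left_injective (b := s₀))).eventually h

theorem exists_goodLine [Fintype ι] {G : MP ι K} (hG : Squarefree G) {a : ι → K}
    (ha : eval a G ≠ 0) (i : ι) : ∃ b, b i = 1 ∧ GoodLine G a b := by
  obtain ⟨Q, h1, h2⟩ := sq1 hG ha
  obtain ⟨b, hb⟩ : ∃ b, eval b (Q * X i) ≠ 0 := by
    by_contra h3
    push Not at h3
    exact mul_ne_zero h1 (X_ne_zero i) (MvPolynomial.funext fun x => by rw [h3, map_zero])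
  rw [map_mul, eval_X, mul_ne_zero_iff] at hb
  exact ⟨(b i)⁻¹ • b, inv_mul_cancel₀ hb.2, (h2 b hb.1).smul (inv_ne_zero hb.2).isUnit⟩

theorem exists_eval_ne {G : MP ι K} (hG : G ≠ 0) : ∃ a, eval a G ≠ 0 := by
  by_contra h
  push Not at h
  exact hG (MvPolynomial.funext fun x => by rw [h, map_zero])

/-- the discriminant of the pencil of lines through the origin -/
theorem exists_delta [Fintype σ] {Θ : MP (Option σ) K} (hs : Squarefree Θ) (h1 : constantCoeff Θ = 1) :
    ∃ (Δ : MP σ K) (r : ℕ) (α β : (MP σ K)[X]), Squarefree Δ ∧ Polynomial.C (Δ ^ r) =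
      α * tp (flp Θ) + β * Polynomial.derivative (tp (flp Θ)) := by
  obtain ⟨b, hb, h2⟩ := exists_goodLine hs (a := 0) (by rw [eval_zero, h1]; exact one_ne_zero) none
  have e : b = fun i => i.elim 1 fun j => b (some j) := by
    funext i; cases i; exacts [hb, rfl]
  rw [e] at h2
  have h3 := (goodLine_iff_flp h1 _).1 h2
  obtain ⟨p, q, -, -, h4⟩ := Polynomial.exists_mul_add_mul_eq_C_resultant (tp (flp Θ))
    (Polynomial.derivative (tp (flp Θ))) (natDegree_tp_flp Θ) (n := Θ.totalDegree)
    ((Polynomial.natDegree_derivative_le _).trans (by have := natDegree_tp_flp Θ; omega))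
    (Or.inl (Nat.succ_ne_zero _))
  have h5 : ((tp (flp Θ)).map (eval fun j => b (some j))).natDegree = Θ.totalDegree + 1 := by
    refine le_antisymm (Polynomial.natDegree_map_le.trans (natDegree_tp_flp Θ))
      (Polynomial.le_natDegree_of_ne_zero ?_)
    rw [map_tp_flp, Polynomial.coeff_X_mul, Polynomial.coeff_reflect, Polynomial.revAt_le le_rfl,
      Nat.sub_self, coeff_line_zero, eval₂_zero_apply, h1, map_one]
    exact one_ne_zero
  obtain ⟨Δ, r, h6, -, w, h7⟩ := exists_radical (P := (tp (flp Θ)).resultant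
      (Polynomial.derivative (tp (flp Θ))) (Θ.totalDegree + 1) Θ.totalDegree) fun h => by
    have h6 := congrArg (eval fun j => b (some j)) h
    rw [← Polynomial.resultant_map_map, map_zero, ← Polynomial.derivative_map] at h6
    have h7 := Polynomial.natDegree_derivative ((tp (flp Θ)).map (eval fun j => b (some j)))
    rw [h5, Nat.add_sub_cancel] at h7
    refine Polynomial.resultant_ne_zero _ _ h3 ?_
    rw [h5, h7, h6]
  refine ⟨Δ, r, Polynomial.C w * p, Polynomial.C w * q, h6, ?_⟩
  rw [h7, map_mul, ← h4]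
  ring

end Pool.Agent.ZCy
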