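import Pool.Agent.Lib.MP_751085_ag.ZC.CGn
import Pool.Agent.Lib.MP_751085_ag.ZC.CCount
import Pool.Agent.Lib.MP_751085_ag.ZC.CDim
import Pool.Agent.Lib.MP_751085_ag.ZC.CJet
import Pool.Agent.Lib.MP_751085_ag.ZC.CJac

/-! Bertini. -/

namespace Pool.Agent.ZCy

open scoped Classical Polynomial
open MvPolynomial Set

set_option linter.unusedSectionVars false

variable {k : Type} [Field k] [CharZero k] {X : Var k} {n : ℕ}

theorem sm_eval {Ω : Type} [Field Ω] [Algebra k Ω] {N : ℕ} (x : Fin (N + 1) → Ω) (i : Fin (N + 1))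
    (m : Fin (N + 1) →₀ ℕ) :
    MvPolynomial.eval x (pderiv i (monomial m (1 : Ω))) = aeval x (pderiv i (monomial m (1 : k))) := by
  simp [pderiv_monomial, aeval_monomial, eval_monomial]

theorem sm_grad {R Ω : Type} [Field R] [Field Ω] [Algebra k Ω] [Algebra R Ω] {N d : ℕ}
    (x : Fin (N + 1) → Ω) (a : Mon N d → R) (i : Fin (N + 1)) :
    grad x (form a) i =
      ∑ m, algebraMap R Ω (a m) * aeval x (pderiv i (monomial m.1 (1 : k))) := by
  rw [grad, aeval_def, eval₂_pderiv_form]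
  simp only [sm_eval (k := k)]

theorem sm_norm (hX : X.Nice n) {d : ℕ} (hd : 0 < d) {Ω : Type} [Field Ω] [Algebra k Ω]
    {a : Mon X.N d → Ω} (ha : AlgebraicIndependent k a) {x : Fin (X.N + 1) → Ω} (hx : X.On x)
    {j : Fin (X.N + 1)} (h1 : x j = 1) : grad x (form a) ∉ X.jac x := by
  intro h
  have : CharZero Ω := charZero_of_injective_algebraMap (algebraMap k Ω).injective
  obtain ⟨r, G, hr, -, -, hsp⟩ := hX.exists_basis_jac hx
  rw [← hsp, Submodule.mem_span_range_iff_exists_fun] at h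
  obtain ⟨c, hc⟩ := h
  have hxs : ∀ i, x i ∈ acl k (range x ∪ range c) := fun i => mem_acl_of_mem (Or.inl ⟨i, rfl⟩)
  have h2 := count_indep (K := k) (range x ∪ range c)
    (fun (i : Fin (X.N + 1)) (m : Mon X.N d) => aeval x (pderiv i (monomial m.1 (1 : k)))) a
    (fun i m => aeval_mem_acl hxs _) (fun i => ?_) (fun w => ?_) ha (r := n + r) ?_
  · rw [Fintype.card_fin] at h2
    omega
  · have h3 := (congrFun hc i).trans (sm_grad (k := k) x a i)
    simp only [Finset.sum_apply, Pi.smul_apply, smul_eq_mul, Algebra.algebraMap_self,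
      RingHom.id_apply] at h3
    rw [← h3]
    exact sum_mem fun t _ => mul_mem (mem_acl_of_mem (Or.inr ⟨t, rfl⟩)) (aeval_mem_acl hxs _)
  · obtain ⟨f, hf, hw⟩ := jet_grad hx.1 hd w
    refine ⟨fun m => coeff m.1 f, fun i => ?_⟩
    have h3 := sm_grad (k := k) x (fun m : Mon X.N d => coeff m.1 f) i
    rw [form_coeff hf, hw] at h3
    exact h3.symm
  · refine (rk_union_le _ _).trans ?_
    rw [Nat.cast_add]
    refine add_le_add (hx.rk_le hX.dim h1) ((rk_range_le c).trans ?_)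
    rw [Fintype.card_fin]

theorem sm_indep (hX : X.Nice n) {d : ℕ} (hd : 0 < d) {Ω : Type} [Field Ω] [Algebra k Ω]
    {a : Mon X.N d → Ω} (ha : AlgebraicIndependent k a) {x : Fin (X.N + 1) → Ω} (hx : X.On x) :
    grad x (form a) ∉ X.jac x := by
  intro h
  obtain ⟨j, hj⟩ := Function.ne_iff.1 hx.1
  have hj' : x j ≠ 0 := hj
  refine sm_norm hX hd ha (hx.smul (inv_ne_zero hj')) (j := j) (inv_mul_cancel₀ hj') ?_
  rw [Var.jac_smul (inv_ne_zero hj'), grad_smul_hom (form_hom a)]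
  exact Submodule.smul_mem _ _ h

/-- the equations of a singular point of the universal section -/
noncomputable def sm_eqs {N : ℕ} (d : ℕ) (GG : Finset (Fm N k)) :
    Set (MP (Mon N d ⊕ (Fin (N + 1) ⊕ GG)) k) :=
  (range fun G : GG => rename (Sum.inr ∘ Sum.inl) G.1) ∪ range fun i : Fin (N + 1) =>
    ∑ G : GG, MvPolynomial.X (Sum.inr (Sum.inr G)) * rename (Sum.inr ∘ Sum.inl) (pderiv i G.1) -
      ∑ m : Mon N d, MvPolynomial.X (Sum.inl m) *
        rename (Sum.inr ∘ Sum.inl) (pderiv i (monomial m.1 (1 : k)))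

theorem sm_eqs_iff {N d : ℕ} (GG : Finset (Fm N k)) {Ω : Type} [Field Ω] [Algebra k Ω]
    (a : Mon N d → Ω) (x : Fin (N + 1) → Ω) (c : GG → Ω) :
    (∀ P ∈ sm_eqs d GG, aeval (Sum.elim a (Sum.elim x c)) P = 0) ↔
      (∀ G ∈ (GG : Set (Fm N k)), aeval x G = 0) ∧
        ∑ G : GG, c G • grad x G.1 = grad x (form a) := by
  have e : (Sum.elim a (Sum.elim x c)) ∘ (Sum.inr ∘ Sum.inl) = x := rfl
  simp only [sm_eqs, mem_union, or_imp, forall_and, forall_mem_range, map_sub, map_sum, map_mul,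
    aeval_X, aeval_rename, e, Sum.elim_inl, Sum.elim_inr, sub_eq_zero, Subtype.forall,
    Finset.mem_coe, funext_iff, Finset.sum_apply, Pi.smul_apply, smul_eq_mul, sm_grad (k := k),
    Algebra.algebraMap_self, RingHom.id_apply]
  rfl

theorem sm_span {N : ℕ} (GG : Finset (Fm N k)) {Ω : Type} [Field Ω] [Algebra k Ω]
    (x w : Fin (N + 1) → Ω) : w ∈ Submodule.span Ω (grad x '' (GG : Set (Fm N k))) ↔
      ∃ c : GG → Ω, ∑ G : GG, c G • grad x G.1 = w := by
  rw [image_eq_range]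
  exact Submodule.mem_span_range_iff_exists_fun Ω

/-- Bertini: apply `generic` to the equations `sm_eqs`. -/
theorem Var.Nice.gn_sm (hX : X.Nice n) {d : ℕ} (hd : 0 < d) :
    Gn k fun a : Mon X.N d → k => X.Sm (form a) := by
  obtain ⟨GG, h1, h2⟩ := X.exists_GG
  have key : ∀ j : Fin (X.N + 1), Gn k fun a : Mon X.N d → k => ∀ (Ω : Type) [Field Ω] [Algebra k Ω]
      (x : Fin (X.N + 1) → Ω), X.On x → grad x (form a) ∈ X.jac x → x j = 0 := by
    intro j
    obtain ⟨r, h0, hr⟩ := generic (sm_eqs d GG) (MvPolynomial.X (Sum.inr (Sum.inl j)))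
      fun Ω _ _ a z ha hz => by
        rw [← Sum.elim_comp_inl_inr z] at hz
        obtain ⟨h3, h4⟩ := (sm_eqs_iff GG a _ _).1 hz
        rw [aeval_X, Sum.elim_inr]
        by_contra hj
        refine sm_indep hX hd ha (x := z ∘ Sum.inl) ⟨fun e => hj (congrFun e j), fun G hG =>
          (grad_mem_span h3 (h2 G hG)).1⟩ ?_
        rw [Var.jac_eq_span h1 h2 h3, sm_span]
        exact ⟨_, h4⟩
    refine ⟨r, h0, fun a ha Ω _ _ x hx h => ?_⟩
    have h3 : ∀ G ∈ (GG : Set (Fm X.N k)), aeval x G = 0 := fun G hG => hx.2 G (h1 hG)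
    rw [Var.jac_eq_span h1 h2 h3, sm_span] at h
    obtain ⟨c, hc⟩ := h
    have h4 := hr Ω (algebraMap k Ω ∘ a) (Sum.elim x c) ?_
      ((sm_eqs_iff GG _ x c).2 ⟨h3, hc.trans (funext fun i => ?_)⟩)
    · simpa using h4
    · rw [aeval_algebraMap_apply, aeval_eq_eval]
      exact (map_ne_zero _).2 ha
    · rw [sm_grad (k := k), sm_grad (k := k)]
      rfl
  exact (Gn.all key).mono fun a ha Ω _ _ x hx h => hx.1 (funext fun j => ha j Ω x hx h)

end Pool.Agent.ZCy
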