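import Pool.Agent.Lib.MP_751085_ag.ZC.CFl
import Pool.Agent.Lib.MP_751085_ag.ZC.CCovS
import Pool.Agent.Lib.MP_751085_ag.ZC.CChart
import Pool.Agent.Lib.MP_751085_ag.ZC.CSm

/-! General tuples of forms. -/

namespace Pool.Agent.ZCy

open scoped Classical Polynomial
open MvPolynomial Filter

theorem cgd_sep {R : Type} [CommRing R] {P : R[X]} (h : P.Separable) {c : R}
    (hc : IsUnit c) (a : R) :
    (P.comp (Polynomial.C c * Polynomial.X - Polynomial.C a)).Separable := by
  have h1 := IsCoprime.map h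
    (Polynomial.compRingHom (Polynomial.C c * Polynomial.X - Polynomial.C a))
  rw [Polynomial.Separable, Polynomial.derivative_comp, Polynomial.derivative_sub,
    Polynomial.derivative_C_mul_X, Polynomial.derivative_C, sub_zero]
  exact (isCoprime_mul_unit_left_right (hc.map Polynomial.C) _ _).2 h1

variable {k : Type} [Field k] [CharZero k] {σ : Type} [Fintype σ] {X : Var k} {n : ℕ}

omit [CharZero k] in
theorem Gn.comp {ι κ : Type} {S : (ι → k) → Prop} (h : Gn k S) {e : ι → κ}
    (he : Function.Injective e) : Gn k fun a : κ → k => S (a ∘ e) := by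
  obtain ⟨r, h0, h⟩ := h
  exact ⟨rename e r, fun h1 => h0 (rename_injective e he (by rw [h1, map_zero])),
    fun a ha => h _ (by rwa [eval_rename] at ha)⟩

theorem reflect_line {ι : Type} {G : MP ι k} {m : ℕ} (hG : G.IsHomogeneous m) (h0 : G ≠ 0)
    (a b : ι → k) : Polynomial.reflect m (line (RingHom.id k) b a G) = line (RingHom.id k) a b G := by
  refine Polynomial.eq_of_infinite_eval_eq _ _ (((Set.finite_singleton (0 : k)).infinite_compl).mono
    fun t ht => ?_)
  have ht : t ≠ 0 := ht
  let _ : Invertible t⁻¹ := invertibleOfNonzero (inv_ne_zero ht)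
  have h1 := Polynomial.eval₂_reflect_mul_pow (RingHom.id k) t⁻¹ m (line (RingHom.id k) b a G)
    ((natDegree_line_le _ _ _ _).trans (hG.totalDegree h0).le)
  rw [invOf_eq_inv, inv_inv, Polynomial.eval₂_id, Polynomial.eval₂_id, eval_line] at h1
  have h2 : (fun i => b i + a i * t⁻¹) = t⁻¹ • fun i => a i + b i * t := by
    funext i
    simp only [Pi.smul_apply, smul_eq_mul]
    field_simp
    ring
  rw [h2, eval₂_smul_hom hG, mul_comm] at h1
  show Polynomial.eval t _ = Polynomial.eval t _
  rw [eval_line]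
  exact mul_left_cancel₀ (pow_ne_zero _ (inv_ne_zero ht)) h1

theorem GoodLine.swap {ι : Type} {G : MP ι k} {m : ℕ} (hG : G.IsHomogeneous m) {a b : ι → k}
    (h : GoodLine G a b) : GoodLine G b a := by
  have h0 : G ≠ 0 := fun h0 => h.1.ne_zero (by rw [h0, map_zero])
  have e := hG.totalDegree h0
  have h1 : ∀ a b : ι → k, (line (RingHom.id k) a b G).coeff G.totalDegree = eval b G := fun a b => by
    rw [coeff_line_top _ _ _ le_rfl, e, homogeneousComponent_eq_self hG, eval₂_id]
  have h2 : IsUnit (eval b G) := h1 a b ▸ h.2.2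
  refine ⟨h2, PerfectField.separable_iff_squarefree.2 (squarefree_of_reflect (E := m)
    ((natDegree_line_le _ _ _ _).trans e.le) ?_ ?_), (h1 b a).symm ▸ h.1⟩
  · rw [coeff_line_zero, eval₂_id]
    exact h2.ne_zero
  · rw [reflect_line hG h0]
    exact h.2.1.squarefree

omit [Fintype σ] in
/-- the branch polynomial does not vanish at the foot of a good line through the centre -/
theorem Cover.exists_chart_br (c : Cover X (Option (Option σ)))
    (hq : MvPolynomial.eval (Pi.single (some none) 1) c.G ≠ 0) :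
    ∃ e : Chart k σ X.N (X.IK k), e.f = c.f ∧ ∀ (Ω : Type) [Field Ω] [Algebra k Ω]
      (η : Option (Option σ) → Ω), η none ≠ 0 →
      GoodLine (map (algebraMap k Ω) c.G) η (Pi.single (some none) 1) →
      eval₂ (algebraMap k Ω) (fun i => η (some i) / η none) e.br ≠ 0 := by
  obtain ⟨e, -, -, hf, -, -, -, -, hΨ, hγ, hΦ⟩ := c.exists_chart hq
  refine ⟨e, hf, fun Ω _ _ η h0 hg => ?_⟩
  have : CharZero Ω := charZero_of_injective_algebraMap (algebraMap k Ω).injective
  have hu : algebraMap k Ω (MvPolynomial.eval (Pi.single (some none) 1) c.G)⁻¹ *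
      (η none)⁻¹ ^ c.γ ≠ 0 :=
    mul_ne_zero ((map_ne_zero _).2 (inv_ne_zero hq)) (pow_ne_zero _ (inv_ne_zero h0))
  have h1 : ∀ (y : Option σ → Ω) (z : Option (Option σ) → Ω), z none = η none →
      (∀ i, z (some i) = η none * y i) → eval₂ (algebraMap k Ω) y e.Ψ =
      algebraMap k Ω (MvPolynomial.eval (Pi.single (some none) 1) c.G)⁻¹ * (η none)⁻¹ ^ c.γ *
        eval₂ (algebraMap k Ω) z c.G := fun y z h1 h2 => by
    rw [hΨ, eval₂_mul, eval₂_C, eval₂_deh, mul_assoc, ← eval₂_smul_hom c.hG]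
    congr 2
    funext i
    cases i <;> simp [h0, h1, h2]
  have h2 : (tp e.Ψ).map (eval₂Hom (algebraMap k Ω) fun j => η (some (some j)) / η none) =
      Polynomial.C (algebraMap k Ω (MvPolynomial.eval (Pi.single (some none) 1) c.G)⁻¹ *
        (η none)⁻¹ ^ c.γ) * (line (algebraMap k Ω) η (Pi.single (some none) 1) c.G).comp
          (Polynomial.C (η none) * Polynomial.X - Polynomial.C (η (some none))) := by
    refine Polynomial.funext fun s => ?_
    rw [← ev_eq_eval, Polynomial.eval_C_mul, Polynomial.eval_comp, eval_line,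
      ← h1 (fun i => i.elim s fun j => η (some (some j)) / η none) _ (by simp) fun i => by
        cases i <;> simp [mul_div_cancel₀, h0], eval₂_tp]
    rfl
  have h3 := hg.2.1
  rw [line_map, RingHom.id_comp] at h3
  have h4 := (cgd_sep h3 h0.isUnit (η (some none))).unit_mul (hu.isUnit.map Polynomial.C)
  rw [← h2] at h4
  rw [PChart.br, eval₂_mul, eval₂_up, h1 _ η rfl fun i => (mul_div_cancel₀ _ h0).symm]
  refine mul_ne_zero (mul_ne_zero hu (by rw [eval₂_eq_eval_map]; exact hg.1.ne_zero)) ?_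
  rw [hΦ, ← coe_eval₂Hom, ← Polynomial.resultant_map_map, ← Polynomial.derivative_map, ← hγ,
    ← e.tm.1.natDegree_map (eval₂Hom (algebraMap k Ω) fun j => η (some (some j)) / η none),
    ← Polynomial.natDegree_derivative, Ne, Polynomial.resultant_eq_zero_iff]
  exact fun h => h.2 h4

/-- a cover that is unramified somewhere over the centre gives a chart with `br ≠ 0` -/
theorem Cover.exists_chart_rad (c : Cover X (Option (Option σ)))
    (hq : MvPolynomial.eval (Pi.single (some none) 1) c.G ≠ 0) :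
    ∃ (e : Chart k σ X.N (X.IK k)) (Θ : MP (Option σ) k), e.f = c.f ∧ Squarefree Θ ∧
      ∃ r : ℕ, e.br ∣ Θ ^ r := by
  obtain ⟨e, he, h⟩ := c.exists_chart_br hq
  obtain ⟨η, h1, h2⟩ := exists_goodLine c.sqf hq none
  have h3 := h k η (by rw [h1]; exact one_ne_zero) (by
    rw [Algebra.algebraMap_self, MvPolynomial.map_id]; exact h2.swap c.hG)
  obtain ⟨Θ, r, h4, -, h5⟩ := exists_radical (P := e.br) fun h0 => h3 (by rw [h0, eval₂_zero])
  exact ⟨e, Θ, he, h4, r, h5⟩

theorem Var.Nice.exists_gd [e : DecidableEq (Option (Option σ))] (hX : X.Nice n)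
    (hσ : Fintype.card σ + 1 = n) {d : ℕ} (hd : 0 < d) (i₁ : Option (Option σ)) :
    ∃ Gd : (Option (Option σ) → Fm X.N k) → Prop,
    (∃ F, (∀ i, (F i).IsHomogeneous d) ∧ Gd F ∧ Gd (F ∘ Equiv.swap none i₁)) ∧
    (∀ F i h, Gd F → ∀ᶠ s in cofinite, Gd (Function.update F i (F i + C s * h))) ∧
    ∀ F, (∀ i, (F i).IsHomogeneous d) → Gd F → X.Sm (F i₁) ∧
      ∃ (c : Chart k σ X.N (X.IK k)) (Θ : MP (Option σ) k), c.f = F ∧ Squarefree Θ ∧
        ∃ r : ℕ, c.br ∣ Θ ^ r := by
  obtain rfl : e = fun a b => Option.instDecidableEq a b := Subsingleton.elim _ _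
  have hι : Fintype.card (Option (Option σ)) = n + 1 := by simp [← hσ]
  obtain ⟨r, h0, hr⟩ := (hX.gn_cover hι hd (q := Pi.single (some none) 1) (by simp)).and
    ((hX.gn_sm hd).comp (e := fun m => (i₁, m)) fun _ _ h => congrArg Prod.snd h)
  refine ⟨fun F => MvPolynomial.eval (fun p => coeff p.2.1 (F p.1)) r ≠ 0, ?_, fun F i h hF => ?_,
    fun F hF h => ?_⟩
  · have g : Gn k fun a => MvPolynomial.eval a r ≠ 0 := ⟨r, h0, fun _ h => h⟩
    obtain ⟨a, h1, h2⟩ := (g.and (g.comp (e := Prod.map (Equiv.swap none i₁) id)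
      ((Equiv.injective _).prodMap Function.injective_id))).exists
    refine ⟨forms a, forms_hom a, ?_, ?_⟩
    · simpa only [forms, coeff_form] using h1
    · simp only [forms, coeff_form, Function.comp]
      exact h2
  · refine (ev_eval_line hF fun p => if p.1 = i then coeff p.2.1 h else 0).mono fun s hs => ?_
    refine fun h1 => hs (Eq.trans ?_ h1)
    refine congrArg (fun a => MvPolynomial.eval a r) (funext fun p => ?_)
    by_cases hp : p.1 = i
    · simp [hp]
    · simp [hp]
  · obtain ⟨⟨c, -, h1, h2⟩, h3⟩ := hr _ h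
    have e : forms (d := d) (fun p => coeff p.2.1 (F p.1)) = F := by
      funext i
      simp only [forms]
      exact form_coeff (hF i)
    rw [e] at h1
    rw [← form_coeff (hF i₁), ← h1]
    exact ⟨h1 ▸ h3, c.exists_chart_rad h2⟩

end Pool.Agent.ZCy
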