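import Pool.Agent.Lib.MP_751085_ag.ZC.CLd2
import Pool.Agent.Lib.MP_751085_ag.ZC.CDim

/-! Generic points over extension fields. -/

namespace Pool.Agent.ZCy

open scoped Classical Polynomial
open MvPolynomial Set

set_option linter.unusedSectionVars false

variable {k F K Ω : Type} [Field k] [Field F] [Field K] [Field Ω] [Algebra k F] [Algebra k K]
  [Algebra k Ω] [Algebra K Ω] [IsScalarTower k K Ω] {n : ℕ}

theorem gen_repr {ι V : Type} [AddCommGroup V] [Module k V] (β : Module.Basis ι k V)
    {T : Finset ι} {v : V} (h : (β.repr v).support ⊆ T) : ∑ j ∈ T, β.repr v j • β j = v := by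
  conv_rhs => rw [← β.linearCombination_repr v, Finsupp.linearCombination_apply]
  exact (Finsupp.sum_of_support_subset _ h (fun j a => a • β j) fun _ _ => zero_smul k _).symm

/-- a relation over `K` gives relations over `k` -/
theorem ld_fun [CharZero k] (hk : ∀ a : F, IsAlgebraic k a → a ∈ (algebraMap k F).range)
    (hn : rk k (univ : Set F) ≤ n) (γ : F →ₐ[k] Ω) (hγ : (n : ℕ∞) ≤ rk K (range γ)) {α : Type}
    (s : Finset α) (z : α → F) (c : α → K) (h : ∑ i ∈ s, algebraMap K Ω (c i) * γ (z i) = 0)
    (lam : K →ₗ[k] k) : ∑ i ∈ s, lam (c i) • z i = 0 := by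
  let β := Module.Basis.ofVectorSpace k F
  let T := s.biUnion fun i => (β.repr (z i)).support
  have hT : ∀ i ∈ s, (β.repr (z i)).support ⊆ T := fun i hi =>
    Finset.subset_biUnion_of_mem (fun i => (β.repr (z i)).support) hi
  have key : ∀ j : T, ∑ i ∈ s, β.repr (z i) j • c i = 0 := by
    refine ld_free hk hn γ hγ (b := fun j : T => β j)
      (β.linearIndependent.comp _ Subtype.val_injective) ?_
    rw [Finset.sum_coe_sort T fun j => algebraMap K Ω (∑ i ∈ s, β.repr (z i) j • c i) * γ (β j),
      ← h]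
    simp only [map_sum, Finset.sum_mul]
    rw [Finset.sum_comm]
    refine Finset.sum_congr rfl fun i hi => ?_
    conv_rhs => rw [← gen_repr β (hT i hi), map_sum, Finset.mul_sum]
    refine Finset.sum_congr rfl fun j _ => ?_
    rw [Algebra.smul_def, Algebra.smul_def, map_mul, map_mul, γ.commutes,
      ← IsScalarTower.algebraMap_apply]
    ring
  rw [Finset.sum_congr rfl fun i hi => by rw [← gen_repr β (hT i hi), Finset.smul_sum],
    Finset.sum_comm]
  refine Finset.sum_eq_zero fun j hj => ?_
  have e := congrArg lam (key ⟨j, hj⟩)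
  rw [map_sum, map_zero] at e
  rw [Finset.sum_congr rfl (g := fun i => lam (β.repr (z i) j • c i) • β j) fun i _ => by
    rw [map_smul, smul_smul, smul_eq_mul, mul_comm], ← Finset.sum_smul, e, zero_smul]

/-- a form over `K` that vanishes at a point of rank `n` over `K` is in the ideal of `X` -/
theorem Var.Nice.gen_span [CharZero k] {X : Var k} (hX : X.Nice n) {x : Fin (X.N + 1) → Ω}
    (hx : X.On x) {i : Fin (X.N + 1)} (h1 : x i = 1) (hr : (n : ℕ∞) ≤ rk K (range x))
    {G : Fm X.N K} {m : ℕ} (hG : G.IsHomogeneous m) (h0 : aeval x G = 0) :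
    G ∈ Ideal.span (X.IK K) := by
  obtain ⟨γ₀, hc, u, hu, hxu⟩ := hx.exists_dom hX.dim h1 (hr.trans (rk_le_of_tower _))
  let γ : X.F →ₐ[k] Ω := { γ₀ with commutes' := hc }
  have hi : X.g i ≠ 0 := hx.zr.g_ne (h1 ▸ one_ne_zero)
  have hγ : ∀ j, γ (X.g j / X.g i) = x j := fun j => by
    change γ₀ _ = _
    rw [map_div₀, ← mul_div_mul_left _ _ hu, ← hxu, ← hxu, h1, div_one]
  have hI : ∀ lam : K →ₗ[k] k, ∑ e ∈ G.support, monomial e (lam (coeff e G)) ∈ X.I := fun lam => by
    have hh : (∑ e ∈ G.support, monomial e (lam (coeff e G)) : Fm X.N k).IsHomogeneous m :=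
      IsHomogeneous.sum _ _ _ fun e he =>
        isHomogeneous_monomial _ (by_contra fun hne => mem_support_iff.1 he (hG.coeff_eq_zero hne))
    have key := ld_fun hX.geom (X.rk_univ hX.dim).le γ
      (hr.trans (rk_mono (range_subset_iff.2 fun j => ⟨_, hγ j⟩))) G.support
      (fun e => aeval (fun j => X.g j / X.g i) (monomial e (1 : k))) (fun e => coeff e G) (by
        rw [← h0]
        conv_rhs => rw [G.as_sum, map_sum]
        refine Finset.sum_congr rfl fun e _ => ?_
        rw [comp_aeval_apply, funext hγ, aeval_monomial, aeval_monomial, map_one, one_mul]) lam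
    refine ⟨⟨m, hh⟩, ?_⟩
    have e1 : X.g = X.g i • fun j => X.g j / X.g i :=
      funext fun j => (mul_div_cancel₀ _ hi).symm
    rw [e1, aeval_smul_hom hh, map_sum, Finset.sum_congr rfl fun e _ => ?_, key, mul_zero]
    rw [← map_smul, smul_monomial, smul_eq_mul, mul_one]
  let κ := Module.Basis.ofVectorSpace k K
  let T := G.support.biUnion fun e => (κ.repr (coeff e G)).support
  have e2 : G = ∑ t ∈ T, C (κ t) *
      map (algebraMap k K) (∑ e ∈ G.support, monomial e (κ.coord t (coeff e G))) := by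
    simp only [map_sum, Finset.mul_sum, map_monomial, C_mul_monomial]
    rw [Finset.sum_comm]
    conv_lhs => rw [G.as_sum]
    refine Finset.sum_congr rfl fun e he => ?_
    rw [← map_sum]
    congr 1
    conv_lhs => rw [← gen_repr κ (T := T)
      (Finset.subset_biUnion_of_mem (fun e => (κ.repr (coeff e G)).support) he)]
    exact Finset.sum_congr rfl fun t _ => by rw [Algebra.smul_def, mul_comm]; rfl
  rw [e2]
  exact sum_mem fun t _ => Ideal.mul_mem_left _ _ (Ideal.subset_span ⟨_, hI _, rfl⟩)

/-- clearing denominators -/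
theorem exists_clear {ι κ : Type} {d : ℕ} (Q : MP κ K) {e : κ → MP ι K} {s : MP ι K}
    (he : ∀ i, (e i).IsHomogeneous d) (hs : s.IsHomogeneous d) : ∃ (M : ℕ) (P : MP ι K),
      P.IsHomogeneous (d * M) ∧ ∀ (L : Type) [Field L] [Algebra K L] (x : ι → L) (y : κ → L),
        (∀ i, aeval x (e i) = y i * aeval x s) → aeval x P = aeval x s ^ M * aeval y Q := by
  refine ⟨Q.totalDegree, ∑ r ∈ Finset.range (Q.totalDegree + 1),
    aeval e (homogeneousComponent r Q) * s ^ (Q.totalDegree - r),
    IsHomogeneous.sum _ _ _ fun r hr => ?_, fun L _ _ x y h => ?_⟩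
  · have h := ((homogeneousComponent_isHomogeneous r Q).aeval e he).mul
      (hs.pow (Q.totalDegree - r))
    rwa [← mul_add, Nat.add_sub_cancel' (Nat.lt_succ_iff.1 (Finset.mem_range.1 hr))] at h
  · have e1 : (fun i => aeval x (e i)) = aeval x s • y := funext fun i => (h i).trans (mul_comm _ _)
    rw [← congrArg (aeval y) (sum_homogeneousComponent Q), map_sum, map_sum, Finset.mul_sum]
    refine Finset.sum_congr rfl fun r hr => ?_
    rw [map_mul, map_pow, comp_aeval_apply, e1,
      aeval_smul_hom (homogeneousComponent_isHomogeneous r Q), mul_right_comm, ← pow_add,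
      Nat.add_sub_cancel' (Nat.lt_succ_iff.1 (Finset.mem_range.1 hr))]

end Pool.Agent.ZCy
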