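import Pool.Agent.Lib.MP_751085_ag.ZC.CWh

/-! The function field of the cone. -/

namespace Pool.Agent.ZCy

open scoped Classical Polynomial
open MvPolynomial

set_option linter.unusedSectionVars false

variable {k : Type} [Field k] (X : Var k) {ι : Type} (f : ι → Fm X.N k)

/-- the function field of the cone over `X` -/
def Var.Hat (_ : ι → Fm X.N k) : Type := RatFunc X.F

noncomputable instance : Field (X.Hat f) := inferInstanceAs (Field (RatFunc X.F))

noncomputable instance : Algebra k (X.Hat f) := inferInstanceAs (Algebra k (RatFunc X.F))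

/-- evaluation at the generic point of the cone -/
noncomputable def Var.cone : Fm X.N k →ₐ[k] X.Hat f :=
  (IsScalarTower.toAlgHom k X.F[X] (RatFunc X.F)).comp (scl k X.g)

noncomputable instance : Algebra (MP ι k) (X.Hat f) :=
  ((X.cone f).comp (aeval f)).toRingHom.toAlgebra

theorem Var.hat_alg (a : MP ι k) : algebraMap (MP ι k) (X.Hat f) a = X.cone f (aeval f a) := rfl

instance : IsScalarTower k (MP ι k) (X.Hat f) :=
  IsScalarTower.of_algebraMap_eq fun a => (((X.cone f).comp (aeval f)).commutes a).symm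

/-- the generic point of the cone -/
noncomputable def Var.gh (j : Fin (X.N + 1)) : X.Hat f := X.cone f (MvPolynomial.X j)

theorem Var.aeval_gh (P : Fm X.N k) : aeval (X.gh f) P = X.cone f P := by
  have : aeval (X.gh f) = X.cone f := algHom_ext fun j => by rw [aeval_X]; rfl
  rw [this]

theorem Var.cone_eq_zero {P : Fm X.N k} : X.cone f P = 0 ↔ scl k X.g P = 0 :=
  map_eq_zero_iff (algebraMap X.F[X] (RatFunc X.F)) (IsFractionRing.injective _ _)

theorem Var.cone_hom_eq_zero {P : Fm X.N k} {m : ℕ} (h : P.IsHomogeneous m) :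
    X.cone f P = 0 ↔ aeval X.g P = 0 := by
  rw [X.cone_eq_zero, scl_hom h, Polynomial.monomial_eq_zero_iff]

theorem Var.zr_gh : X.Zr (X.gh f) := fun G hG => by
  obtain ⟨m, hm⟩ := hG.1
  rw [X.aeval_gh, X.cone_hom_eq_zero f hm]
  exact hG.2

theorem Var.on_gh : X.On (X.gh f) := by
  obtain ⟨i, hi⟩ := X.one
  refine ⟨fun e => ?_, X.zr_gh f⟩
  have h := (X.cone_hom_eq_zero f (isHomogeneous_X k i)).1 (congrFun e i)
  rw [aeval_X, hi] at h
  exact one_ne_zero h

theorem Var.cone_comp {P : Fm X.N k} (h : X.cone f P = 0) (m : ℕ) :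
    X.cone f (homogeneousComponent m P) = 0 := by
  rw [X.cone_hom_eq_zero f (homogeneousComponent_isHomogeneous m P), ← coeff_scl,
    (X.cone_eq_zero f).1 h, Polynomial.coeff_zero]

theorem Var.aeval_cone (e : Fm X.N k) (p : (MP ι k)[X]) :
    Polynomial.aeval (X.cone f e) p = X.cone f (ev C f e p) := by
  rw [Polynomial.aeval_def, ev_def, ← AlgHom.coe_toRingHom, Polynomial.hom_eval₂]
  rfl

variable {X f}

theorem aeval_ev {S : Type} [CommRing S] [Algebra k S] {κ : Type} (x : κ → S) (f : ι → MP κ k)
    (e : MP κ k) (p : (MP ι k)[X]) :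
    aeval x (ev C f e p) = ev (algebraMap k S) (fun i => aeval x (f i)) (aeval x e) p := by
  have h := map_ev (aeval x : MP κ k →ₐ[k] S).toRingHom C f e p
  rwa [show (aeval x : MP κ k →ₐ[k] S).toRingHom.comp C = algebraMap k S from
    RingHom.ext fun a => by simp] at h

/-- an identity at the generic point of the cone holds on the cone -/
theorem Var.Zr.ev_eq {S : Type} [CommRing S] [Algebra k S] {x : Fin (X.N + 1) → S} (hx : X.Zr x)
    {e H : Fm X.N k} {p : (MP ι k)[X]} (h : Polynomial.aeval (X.cone f e) p = X.cone f H) :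
    ev (algebraMap k S) (fun i => aeval x (f i)) (aeval x e) p = aeval x H := by
  rw [X.aeval_cone, ← sub_eq_zero, ← map_sub, X.cone_eq_zero] at h
  have h1 := hx.aeval_eq_zero h
  rwa [map_sub, sub_eq_zero, aeval_ev] at h1

/-- an identity between homogeneous elements may be taken homogeneous -/
theorem Var.extract {d r : ℕ} (hd : 0 < d) (hf : ∀ i, (f i).IsHomogeneous d) {e H : Fm X.N k}
    (he : e.IsHomogeneous d) (hH : H.IsHomogeneous (d * r)) {p : (MP ι k)[X]}
    (h : Polynomial.aeval (X.cone f e) p = X.cone f H) :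
    Polynomial.aeval (X.cone f e) (whc r p) = X.cone f H := by
  rw [X.aeval_cone, ← sub_eq_zero, ← map_sub] at h ⊢
  have h1 := X.cone_comp f h (d * r)
  rwa [map_sub, comp_ev_hom hd hf he, homogeneousComponent_eq_self hH] at h1

end Pool.Agent.ZCy
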