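import Pool.Agent.Lib.MP_751085_ag.ZC.CGn
import Pool.Agent.Lib.MP_751085_ag.ZC.CMap

/-! Absolute irreducibility. -/

namespace Pool.Agent.ZCy

open scoped Classical Polynomial
open MvPolynomial

set_option linter.unusedSectionVars false

theorem irr_mq_mq {R S T ι : Type} [CommRing R] [CommRing S] [CommRing T] (ψ : S →+* T)
    (φ : R →+* S) (p : (MP ι R)[X]) : mq ψ (mq φ p) = mq (ψ.comp φ) p := by
  ext i m
  simp [Polynomial.coeff_map, coeff_map]

theorem irr_lift {A S ι : Type} [CommRing A] [CommRing S] (π : A →+* S) {p : (MP ι S)[X]}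
    (hp : p.Monic) (h : ∀ i m, coeff m (p.coeff i) ≠ 0 → coeff m (p.coeff i) ∈ Set.range π) :
    ∃ p' : (MP ι A)[X], mq π p' = p ∧ p'.natDegree = p.natDegree ∧ p'.Monic := by
  refine Polynomial.lifts_and_natDegree_eq_and_monic
    ((Polynomial.lifts_iff_coeff_lifts _).2 fun i => ?_) hp
  refine mem_range_map_iff_coeffs_subset.2 fun a ha => ?_
  obtain ⟨m, hm, rfl⟩ := mem_coeffs_iff.1 ha
  exact h i m (mem_support_iff.1 hm)

/-- irreducibility over an algebraically closed field passes to extension fields -/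
theorem irr_ext {K K' ι : Type} [Field K] [IsAlgClosed K] [Field K'] (φ : K →+* K')
    {χ : (MP ι K)[X]} (hm : χ.Monic) (h : Irreducible χ) : Irreducible (mq φ χ) := by
  letI : Algebra K K' := φ.toAlgebra
  have hm' : (mq φ χ).Monic := hm.map _
  obtain ⟨h1, h2⟩ := hm.irreducible_iff_natDegree.1 h
  refine hm'.irreducible_iff_natDegree.2 ⟨fun e => h1 ?_, fun p q hp hq e => ?_⟩
  · refine hm.natDegree_eq_zero.1 ?_
    rw [← hm.natDegree_map (map φ)]
    exact hm'.natDegree_eq_zero.2 e
  · set s : Finset K' := (p.coeffs ∪ q.coeffs).biUnion coeffs with hs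
    obtain ⟨z', hz'⟩ := exists_spec (K := K) K (fun a : s => (a : K'))
    set π : MP s K →+* K' := (aeval fun a : s => (a : K') : MP s K →ₐ[K] K').toRingHom with hπ
    set π' : MP s K →+* K := (aeval z' : MP s K →ₐ[K] K).toRingHom with hπ'
    have hr : ∀ r : (MP ι K')[X], r.coeffs ⊆ p.coeffs ∪ q.coeffs → ∀ i m,
        coeff m (r.coeff i) ≠ 0 → coeff m (r.coeff i) ∈ Set.range π := fun r hr i m h0 => by
      have h3 : r.coeff i ≠ 0 := fun e0 => h0 (by rw [e0, coeff_zero])
      refine ⟨X ⟨_, Finset.mem_biUnion.2 ⟨r.coeff i, hr (Polynomial.coeff_mem_coeffs h3),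
        coeff_mem_coeffs m h0⟩⟩, by simp [hπ]⟩
    obtain ⟨p', hp1, hp2, hp3⟩ := irr_lift π hp (hr p Finset.subset_union_left)
    obtain ⟨q', hq1, hq2, hq3⟩ := irr_lift π hq (hr q Finset.subset_union_right)
    have c1 : π.comp C = φ := RingHom.ext fun a => by simp [hπ, RingHom.algebraMap_toAlgebra]
    have c2 : π'.comp C = RingHom.id K := RingHom.ext fun a => by simp [hπ']
    have e1 : mq π (p' * q' - mq C χ) = 0 := by
      rw [map_sub, map_mul, hp1, hq1, irr_mq_mq, c1, e, sub_self]
    have e2 : mq π' (p' * q' - mq C χ) = 0 := by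
      refine Polynomial.ext fun i => MvPolynomial.ext _ _ fun m => ?_
      have e3 := congrArg (fun r : (MP ι K')[X] => coeff m (r.coeff i)) e1
      simp only [Polynomial.coe_mapRingHom, Polynomial.coeff_map, coeff_map, Polynomial.coeff_zero,
        coeff_zero] at e3 ⊢
      exact hz' _ e3
    have e4 : mq (RingHom.id K) χ = χ := by
      ext i m
      simp [Polynomial.coeff_map, coeff_map]
    rw [map_sub, map_mul, irr_mq_mq, c2, e4, sub_eq_zero] at e2
    have e5 := h2 _ _ (hp3.map (map π')) (hq3.map (map π')) e2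
    rwa [hp3.natDegree_map, hq3.natDegree_map, hp2, hq2] at e5

/-- geometric irreducibility passes to extension fields -/
theorem PChart.GI.map {K K' σ : Type} [Field K] [Field K'] {c : PChart K σ} (h : c.GI)
    {φ : K →+* K'} {c' : PChart K' σ} (hc : c.IsMap φ c') : c'.GI := by
  letI : Algebra K (AlgebraicClosure K') :=
    ((algebraMap K' (AlgebraicClosure K')).comp φ).toAlgebra
  let j : AlgebraicClosure K →ₐ[K] AlgebraicClosure K' := IsAlgClosed.lift
  have e : (j : AlgebraicClosure K →+* AlgebraicClosure K').comp (algebraMap K _) =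
      (algebraMap K' (AlgebraicClosure K')).comp φ := RingHom.ext fun a => j.commutes a
  have h1 := irr_ext (j : AlgebraicClosure K →+* AlgebraicClosure K') (c.monic.map _) h
  unfold PChart.GI
  rw [hc.χ, irr_mq_mq, ← e, ← irr_mq_mq]
  exact h1

end Pool.Agent.ZCy
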