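import Pool.Agent.Lib.MP_751085_ag.ZC.CRk

/-! Regular extensions are linearly disjoint from algebraic extensions. -/

namespace Pool.Agent.ZCy

open scoped Classical Polynomial
open Polynomial

set_option linter.unusedSectionVars false

variable {k F Ω : Type} [Field k] [Field F] [Field Ω] [Algebra k F] [Algebra k Ω]

/-- a polynomial over `F` of degree less than the degree of `α` over `k` that kills `α` is zero -/
theorem eq_zero_of_geom (hk : ∀ a : F, IsAlgebraic k a → a ∈ (algebraMap k F).range)
    (γ : F →ₐ[k] Ω) {α : Ω} (hα : IsIntegral k α) {p : F[X]}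
    (hp : p.natDegree < (minpoly k α).natDegree) (h0 : p.eval₂ (γ : F →+* Ω) α = 0) : p = 0 := by
  let : Algebra F Ω := (γ : F →+* Ω).toAlgebra
  have : IsScalarTower k F Ω := IsScalarTower.of_algebraMap_eq fun a => (γ.commutes a).symm
  by_contra hp0
  have hF : IsIntegral F α := hα.tower_top
  have h1 : (minpoly F α).degree ≤ p.degree := minpoly.degree_le_of_ne_zero F α hp0 h0
  have hl : minpoly F α ∈ Polynomial.lifts (algebraMap k F) :=
    (lifts_iff_coeff_lifts _).2 fun n => hk _ (Polynomial.isIntegral_coeff_of_dvd (minpoly k α)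
      (minpoly F α) (minpoly.monic hα) (minpoly.monic hF)
      (minpoly.dvd_map_of_isScalarTower k F α) n).isAlgebraic
  obtain ⟨q, hq, hd, hm⟩ := lifts_and_degree_eq_and_monic hl (minpoly.monic hF)
  have h2 : (minpoly k α).degree ≤ q.degree :=
    minpoly.min k α hm (by rw [← aeval_map_algebraMap F, hq, minpoly.aeval])
  exact hp.not_ge (natDegree_le_natDegree (h2.trans (hd.le.trans h1)))

theorem ld_alg [CharZero k] (hk : ∀ a : F, IsAlgebraic k a → a ∈ (algebraMap k F).range)
    (γ : F →ₐ[k] Ω) {α : Type} [Fintype α] {b : α → F} (hb : LinearIndependent k b) {c : α → Ω}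
    (hc : ∀ i, IsAlgebraic k (c i)) (h : ∑ i, c i * γ (b i) = 0) (i : α) : c i = 0 := by
  let L := IntermediateField.adjoin k (Set.range c)
  have : FiniteDimensional k L := IntermediateField.finiteDimensional_adjoin (by
    rintro _ ⟨j, rfl⟩
    exact (hc j).isIntegral)
  let pb := Field.powerBasisOfFiniteOfSeparable k L
  choose q hq hcq using fun j =>
    pb.exists_eq_aeval (⟨c j, IntermediateField.subset_adjoin _ _ ⟨j, rfl⟩⟩ : L)
  have he : ∀ j, c j = aeval (L.val pb.gen) (q j) := fun j => by
    rw [aeval_algHom_apply, ← hcq]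
    rfl
  have hP : ∑ j, C (b j) * (q j).map (algebraMap k F) = 0 := by
    refine eq_zero_of_geom hk γ (α := L.val pb.gen) (pb.isIntegral_gen.map L.val) ?_ ?_
    · rw [minpoly.algHom_eq L.val L.val.injective, pb.natDegree_minpoly]
      refine lt_of_le_of_lt (natDegree_sum_le_of_forall_le (n := pb.dim - 1) _ _ fun j _ => ?_)
        (Nat.sub_one_lt pb.dim_pos.ne')
      exact (natDegree_C_mul_le _ _).trans (natDegree_map_le.trans (Nat.le_sub_one_of_lt (hq j)))
    · rw [eval₂_finsetSum, ← h]
      refine Finset.sum_congr rfl fun j _ => ?_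
      rw [eval₂_mul, eval₂_C, eval₂_map, γ.comp_algebraMap, ← aeval_def, ← he, mul_comm]
      rfl
  have hz : q i = 0 := Polynomial.ext fun n => by
    refine Fintype.linearIndependent_iff.1 hb (fun j => (q j).coeff n) ?_ i
    have := congrArg (fun P => P.coeff n) hP
    simp only [finsetSum_coeff, coeff_C_mul, coeff_map, coeff_zero] at this
    rw [← this]
    exact Finset.sum_congr rfl fun j _ => by rw [Algebra.smul_def, mul_comm]
  rw [he, hz, map_zero]

end Pool.Agent.ZCy
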