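import Pool.Agent.Lib.MP_751085_ag.ZC.CAff
import Pool.Agent.Lib.MP_751085_ag.ZC.CFl

/-! The Lefschetz certificates for a general hyperplane through a point off the branch locus. -/

namespace Pool.Agent.ZCy

open scoped Classical Polynomial
open MvPolynomial Filter

variable {k : Type} [Field k] [CharZero k] {σ : Type} [Fintype σ] {N : ℕ} {GG : Set (Fm N k)}

/-- the hyperplane `x none + ∑ l j x (some j) = 0` contains a good line of `Δ` -/
def HasL (Δ : MP (Option σ) k) (l : σ → k) : Prop :=
  ∃ A B, B ≠ 0 ∧ GoodLine Δ A B ∧ A none + ∑ j, l j * A (some j) = 0 ∧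
    B none + ∑ j, l j * B (some j) = 0

omit [CharZero k] in
theorem clef_sum {S : Type} [CommRing S] (φ : k →+* S) (a b : σ) (x y : k) (F : σ → S) :
    ∑ j, φ ((Pi.single a x + Pi.single b y : σ → k) j) * F j = φ x * F a + φ y * F b := by
  simp [add_mul, Finset.sum_add_distrib, Pi.single_apply, apply_ite φ]

/-- A good line that lies in one hyperplane of the family is moved in the direction `none`. -/
theorem hasL_ev {Δ : MP (Option σ) k} (h : Squarefree Δ) {a b : σ} (hab : a ≠ b) (t : k) :
    ∀ᶠ s in cofinite, ∀ᶠ s' in cofinite,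
      HasL Δ (Pi.single a (s + t * s') + Pi.single b s') := by
  obtain ⟨A, hA⟩ := exists_eval_ne (mul_ne_zero h.ne_zero (X_ne_zero (some a)))
  rw [map_mul, eval_X, mul_ne_zero_iff] at hA
  obtain ⟨Q, h1, h2⟩ := sq1 h hA.1
  obtain ⟨B, hB⟩ := exists_eval_ne (mul_ne_zero h1 (show (C (A (some a)) * X (some b) -
      C (A (some b)) * X (some a) : MP (Option σ) k) ≠ 0 from fun e => hA.2 (by
    simpa [hab] using congrArg (eval (Pi.single (some b) 1)) e)))
  rw [map_mul, mul_ne_zero_iff] at hB
  have hD : A (some a) * B (some b) - A (some b) * B (some a) ≠ 0 := by simpa using hB.2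
  obtain ⟨u, v, h3, h4⟩ : ∃ u v, A none + ((u + t * v) * A (some a) + v * A (some b)) = 0 ∧
      B none + ((u + t * v) * B (some a) + v * B (some b)) = 0 := by
    obtain ⟨w, hw⟩ := hD.isUnit.exists_right_inv
    exact ⟨(A (some b) * B none - A none * B (some b) - t * (A none * B (some a) -
      A (some a) * B none)) * w, (A none * B (some a) - A (some a) * B none) * w,
      by linear_combination -A none * hw, by linear_combination -B none * hw⟩
  filter_upwards [ev_shift ((h2 B hB.1).ev (Pi.single none (-A (some a)))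
    (Pi.single none (-B (some a)))) u] with s hs
  filter_upwards [ev_shift (hs.ev (Pi.single none (-(t * A (some a) + A (some b))))
    (Pi.single none (-(t * B (some a) + B (some b))))) v] with s' hs'
  refine ⟨_, _, fun e => hD ?_, hs', ?_, ?_⟩
  · have ea := congrFun e (some a)
    have eb := congrFun e (some b)
    simp at ea eb
    simp [ea, eb]
  · refine (congrArg _ (clef_sum (RingHom.id k) a b _ _ _)).trans ?_
    simp
    linear_combination h3
  · refine (congrArg _ (clef_sum (RingHom.id k) a b _ _ _)).trans ?_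
    simp
    linear_combination h4

/-- the shear `(L x) none = x none - ∑ l j x (some j)`, `(L x) (some j) = x (some j)` -/
noncomputable def shr {R : Type} [CommRing R] (l : σ → R) : Matrix (Option σ) (Option σ) R :=
  fun i j => i.elim (j.elim 1 fun j => -l j) fun i => j.elim 0 fun j => if i = j then 1 else 0

theorem shr_mul {R : Type} [CommRing R] (l : σ → R) : shr l * shr (-l) = 1 := by
  ext i j
  cases i <;> cases j <;> simp [shr, Matrix.mul_apply, Fintype.sum_option, Matrix.one_apply]

theorem clef_one {R ι : Type} [CommRing R] (d d' : DecidableEq ι) :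
    @OfNat.ofNat (Matrix ι ι R) 1 (@One.toOfNat1 _ (@Matrix.one _ _ d _ _)) =
      @OfNat.ofNat (Matrix ι ι R) 1 (@One.toOfNat1 _ (@Matrix.one _ _ d' _ _)) := by
  rw [Subsingleton.elim d d']

/-- `flp` commutes with linear changes of the coordinates other than `τ` -/
theorem tp_flp_aff {R ι : Type} [CommRing R] [Fintype ι] {L L' : Matrix ι ι R} (h : L * L' = 1)
    (Θ : MP (Option ι) R) : tp (flp (aff 0 (extM L) Θ)) =
      (tp (flp Θ)).map (aff 0 L : MP ι R →+* MP ι R) := by
  have e : (line C 0 fun i : Option ι => i.elim 1 X).comp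
      (aff 0 (extM L) : MP (Option ι) R →+* MP (Option ι) R) =
      (Polynomial.mapRingHom (aff 0 L : MP ι R →+* MP ι R)).comp
        (line C 0 fun i : Option ι => i.elim 1 X) := by
    ext : 1
    · ext : 1; simp [aff]
    · rename_i i
      cases i <;> simp [aff, extM, Fintype.sum_option, Finset.sum_mul, mul_assoc]
  rw [tp_flp, tp_flp, ← Polynomial.reflect_map, totalDegree_aff (L' := extM L') _ (by
    rw [extM_mul, h]; exact (extM_one (σ := ι) (R := R)).trans (clef_one _ _))]
  exact congrArg _ (DFunLike.congr_fun e Θ)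

theorem clef_cc {R ι : Type} [CommRing R] [Fintype ι] (p : ι → R) (L : Matrix ι ι R) (G : MP ι R) :
    constantCoeff (aff p L G) = eval p G := by
  simpa using eval₂_aff (RingHom.id R) p L 0 G

/-- Move `p` to the origin and the hyperplane to `ξ_1 = 0`. -/
theorem Chart.lef (c : Chart k (Option σ) N GG) {Θ : MP (Option (Option σ)) k} (hs : Squarefree Θ)
    (hr : ∃ r : ℕ, c.br ∣ Θ ^ r) {p : Option (Option σ) → k} (hp : eval p Θ ≠ 0) :
    ∃ Δ : MP (Option σ) k, Squarefree Δ ∧ ∀ l : σ → k, HasL Δ l →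
      ∃ (c' : Chart k (Option σ) N GG) (Λ : LefData k σ), (∃ r : ℕ, c'.br ∣ Λ.Θ ^ r) ∧
        c'.f (some (some none)) = c.f (some (some none)) - C (p (some none)) * c.f none +
          ∑ j, C (l j) * (c.f (some (some (some j))) - C (p (some (some j))) * c.f none) := by
  obtain ⟨T, h1, h2, h3⟩ : ∃ T : MP (Option (Option σ)) k, Squarefree T ∧ constantCoeff T = 1 ∧
      ∀ M, aff p M Θ ∣ aff 0 M T := by
    refine ⟨_, (squarefree_aff p (one_mul _) hs).squarefree_of_dvd
      (((IsUnit.mk0 _ (inv_ne_zero hp)).map C).mul_left_dvd.2 dvd_rfl), ?_, fun M => ?_⟩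
    · rw [map_mul, clef_cc, constantCoeff_C, inv_mul_cancel₀ hp]
    · rw [map_mul, aff_aff, Matrix.mulVec_zero, add_zero, one_mul]
      exact dvd_mul_left _ _
  obtain ⟨Δ, r, α, β, h4, h5⟩ := exists_delta h1 h2
  refine ⟨Δ, h4, fun l ⟨A, B, h6, h7, h8, h9⟩ => ?_⟩
  have e : shr l * shr (-l) = @OfNat.ofNat _ 1 (@One.toOfNat1 _ (@Matrix.one _ _
      (fun a b => Classical.propDecidable (a = b)) _ _)) := (shr_mul l).trans (clef_one _ _)
  have e1 : ∀ y, (shr l).mulVec ((shr (-l)).mulVec y) = y := fun y => by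
    rw [Matrix.mulVec_mulVec, shr_mul, Matrix.one_mulVec]
  have e2 : ∀ y : Option σ → k, (shr (-l)).mulVec y none = y none + ∑ j, l j * y (some j) :=
    fun y => by simp [shr, Matrix.mulVec, dotProduct, Fintype.sum_option]
  obtain ⟨c', h10, -, h11⟩ := c.exists_aff p e
  have g1 : constantCoeff (aff 0 (extM (shr l)) T) = 1 := by rw [clef_cc, eval_zero, h2]
  have g2 : GoodLine (aff 0 (shr l) Δ) ((shr (-l)).mulVec A) ((shr (-l)).mulVec B) := by
    rwa [goodLine_aff 0 e, e1, e1, zero_add]
  have g3 := congrArg (Polynomial.map (aff 0 (shr l) : MP (Option σ) k →+* MP (Option σ) k)) h5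
  rw [Polynomial.map_C, Polynomial.map_add, Polynomial.map_mul, Polynomial.map_mul,
    ← Polynomial.derivative_map, map_pow, ← tp_flp_aff e] at g3
  refine ⟨c', ⟨_, _, fun i => i.elim 1 ((shr (-l)).mulVec A), _, _, g1, (e2 A).trans h8, rfl,
    goodLine_of_bez g1 g3 g2.1.ne_zero, ⟨r, _, _, g3⟩, (e2 A).trans h8, (e2 B).trans h9,
    fun h => h6 (by rw [← e1 B, h, Matrix.mulVec_zero]), g2⟩, ?_, ?_⟩
  · obtain ⟨n, hn⟩ := hr
    refine ⟨n, h10 ▸ (map_dvd _ hn).trans ?_⟩
    rw [map_pow]
    exact pow_dvd_pow_of_dvd (h3 _) n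
  · simp [h11, extM, shr, Fintype.sum_option]

/-- `Chart.lef` and `hasL_ev` -/
theorem Chart.lef2 (c : Chart k (Option σ) N GG) {Θ : MP (Option (Option σ)) k}
    (hs : Squarefree Θ) (hr : ∃ r : ℕ, c.br ∣ Θ ^ r) {p : Option (Option σ) → k}
    (hp : eval p Θ ≠ 0) {a b : σ} (hab : a ≠ b) (t : k) :
    ∀ᶠ s in cofinite, ∀ᶠ s' in cofinite,
      ∃ (c' : Chart k (Option σ) N GG) (Λ : LefData k σ), (∃ r : ℕ, c'.br ∣ Λ.Θ ^ r) ∧
        c'.f (some (some none)) = c.f (some (some none)) - C (p (some none)) * c.f none +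
          C (s + t * s') * (c.f (some (some (some a))) - C (p (some (some a))) * c.f none) +
          C s' * (c.f (some (some (some b))) - C (p (some (some b))) * c.f none) := by
  obtain ⟨Δ, h1, h2⟩ := c.lef hs hr hp
  filter_upwards [hasL_ev h1 hab t] with s h3
  filter_upwards [h3] with s' h4
  obtain ⟨c', Λ, h5, h6⟩ := h2 _ h4
  exact ⟨c', Λ, h5, by rw [h6, clef_sum, ← add_assoc]⟩

end Pool.Agent.ZCy
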