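import Pool.Agent.Lib.MP_751085_ag.ZC.CWh

/-! Linear changes of coordinates in the target of a cover. -/

namespace Pool.Agent.ZCy

open scoped Classical Polynomial
open MvPolynomial

set_option linter.unusedSectionVars false

variable {R : Type} [CommRing R] {ι κ μ : Type} [Fintype ι] [Fintype κ] [Fintype μ]

theorem lin_X (M : Matrix ι κ R) (i : ι) : lin M (X i) = ∑ j, C (M i j) * X j := aeval_X _ _

theorem lin_lin (M : Matrix ι κ R) (M' : Matrix κ μ R) (P : MP ι R) :
    lin M' (lin M P) = lin (M * M') P := by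
  have : (lin M').comp (lin M) = lin (M * M') := by
    refine algHom_ext fun i => ?_
    rw [AlgHom.comp_apply, lin_X, lin_X, map_sum]
    simp only [map_mul, algHom_C, algebraMap_eq, lin_X, Matrix.mul_apply, map_sum,
      Finset.mul_sum, Finset.sum_mul, mul_assoc]
    exact Finset.sum_comm
  exact DFunLike.congr_fun this P

theorem lin_one (P : MP ι R) : lin (1 : Matrix ι ι R) P = P := by
  have : lin (1 : Matrix ι ι R) = AlgHom.id R _ := by
    refine algHom_ext fun i => ?_
    rw [lin_X, AlgHom.id_apply, Finset.sum_eq_single i]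
    · simp
    · intro j _ hj
      rw [Matrix.one_apply_ne hj.symm, map_zero, zero_mul]
    · simp
  exact DFunLike.congr_fun this P

theorem lin_C (M : Matrix ι κ R) (a : R) : lin M (C a : MP ι R) = C a := algHom_C _ _

theorem lin_ev {S : Type} [CommRing S] (M : Matrix ι κ R) (φ : R →+* S) (y : κ → S) (z : S)
    (p : (MP ι R)[X]) : ev φ y z (p.map (lin M : MP ι R →+* MP κ R)) =
      ev φ (fun i => ∑ j, φ (M i j) * y j) z p := by
  rw [ev_def, ev_def, Polynomial.eval₂_map]
  congr 1
  exact RingHom.ext fun q => eval₂_lin M φ y q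

theorem lin_sb {N : ℕ} (M : Matrix ι κ R) (pp : Fin (N + 1) → (MP ι R)[X]) (E : Fm N R) :
    (sb pp E).map (lin M : MP ι R →+* MP κ R) =
      sb (fun j => (pp j).map (lin M : MP ι R →+* MP κ R)) E := by
  rw [map_sb (RingHom.id R) (lin M : MP ι R →+* MP κ R) (lin_C M), map_id]

theorem lin_comb {S : Type} [CommRing S] (φ : R →+* S) (M : Matrix ι κ R) (M' : Matrix κ ι R)
    (h1 : M * M' = 1) (a : ι → S) (i : ι) :
    ∑ j, φ (M i j) * ∑ i', φ (M' j i') * a i' = a i := by
  simp only [Finset.mul_sum]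
  rw [Finset.sum_comm]
  have e : ∀ i', ∑ j, φ (M i j) * (φ (M' j i') * a i') = φ ((M * M') i i') * a i' := by
    intro i'
    rw [Matrix.mul_apply, map_sum, Finset.sum_mul]
    exact Finset.sum_congr rfl fun j _ => by rw [map_mul, mul_assoc]
  simp only [e, h1]
  rw [Finset.sum_eq_single i]
  · simp
  · intro j _ hj
    rw [Matrix.one_apply_ne hj.symm, map_zero, zero_mul]
  · simp

theorem lin_sqf (M : Matrix ι κ R) (M' : Matrix κ ι R) (h1 : M * M' = 1) (h2 : M' * M = 1)
    {G : MP ι R} (hG : Squarefree G) : Squarefree (lin M G) := by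
  intro x hx
  have h3 : lin M' x * lin M' x ∣ G := by
    have := map_dvd (lin M') hx
    rwa [map_mul, lin_lin, h1, lin_one] at this
  have h4 := (hG _ h3).map (lin M)
  rwa [lin_lin, h2, lin_one] at h4

variable {k : Type} [Field k] {X : Var k}

/-- All data are mapped by `lin M`, an isomorphism with inverse `lin M'`. `map_sb`, `ev_map`,
`eval₂_lin`, `WH.map`, `lin_hom`, `Polynomial.map_dvd`, `Polynomial.derivative_map`;
`Squarefree` is invariant under a `MulEquiv`. For `tight` at `y'` use `c.tight` at `M y'`. -/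
theorem Cover.exists_lin (c : Cover X ι) (M : Matrix ι κ k) (M' : Matrix κ ι k) (h1 : M * M' = 1)
    (h2 : M' * M = 1) : ∃ c' : Cover X κ, c'.d = c.d ∧ c'.δ = c.δ ∧ c'.γ = c.γ ∧
      (∀ j, c'.f j = ∑ i, C (M' j i) * c.f i) ∧ c'.th = c.th ∧ c'.l = c.l ∧ c'.G = lin M c.G ∧
      c'.D = lin M c.D ∧ c'.χ = c.χ.map (lin M : MP ι k →+* MP κ k) := by
  have hh : ∀ (a : MP ι k) (r : ℕ), a.IsHomogeneous r →
      ((lin M : MP ι k →+* MP κ k) a).IsHomogeneous r := fun a r ha => lin_hom M ha
  have hf : ∀ (S : Type) [CommRing S] [Algebra k S] (x : Fin (X.N + 1) → S),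
      (fun i => ∑ j, algebraMap k S (M i j) * aeval x (∑ i', C (M' j i') * c.f i')) =
        fun i => aeval x (c.f i) := by
    intro S _ _ x
    funext i
    simp only [map_sum, map_mul, algHom_C]
    exact lin_comb (algebraMap k S) M M' h1 _ i
  have hq : ∀ e : ℕ, (Polynomial.derivative c.χ * sb c.pp c.l ^ e).map
      (lin M : MP ι k →+* MP κ k) =
      Polynomial.derivative (c.χ.map (lin M : MP ι k →+* MP κ k)) *
        sb (fun j => (c.pp j).map (lin M : MP ι k →+* MP κ k)) c.l ^ e := by
    intro e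
    rw [Polynomial.map_mul, Polynomial.map_pow, lin_sb, Polynomial.derivative_map]
  have hq1 : (Polynomial.derivative c.χ * sb c.pp c.l).map (lin M : MP ι k →+* MP κ k) =
      Polynomial.derivative (c.χ.map (lin M : MP ι k →+* MP κ k)) *
        sb (fun j => (c.pp j).map (lin M : MP ι k →+* MP κ k)) c.l := by
    simpa only [pow_one] using hq 1
  refine ⟨{ d := c.d, δ := c.δ, γ := c.γ, f := fun j => ∑ i, C (M' j i) * c.f i, th := c.th,
            l := c.l, χ := c.χ.map (lin M : MP ι k →+* MP κ k),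
            pp := fun j => (c.pp j).map (lin M : MP ι k →+* MP κ k),
            D := lin M c.D, G := lin M c.G, dpos := c.dpos, hf := ?_, hth := c.hth, hl := c.hl,
            monic := c.monic.map _, deg := ?_, pos := c.pos, wχ := c.wχ.map _ hh,
            wp := fun j => (c.wp j).map _ hh, hG := lin_hom M c.hG,
            sqf := lin_sqf M M' h1 h2 c.sqf, dvd := ?_, dvd' := map_dvd _ c.dvd', bez := ?_,
            tight := ?_, dv_on := ?_, dv_f := ?_, dv_th := ?_, root := ?_, fro := ?_,
            int := ?_ }, rfl, rfl, rfl, fun _ => rfl, rfl, rfl, rfl, rfl, rfl⟩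
  · intro j
    exact IsHomogeneous.sum _ _ _ fun i _ => (c.hf i).C_mul _
  · rw [c.monic.natDegree_map, c.deg]
  · obtain ⟨r, hr⟩ := c.dvd
    exact ⟨r, by rw [← map_pow]; exact map_dvd _ hr⟩
  · obtain ⟨β, hβ⟩ := c.bez
    refine ⟨β.map (lin M : MP ι k →+* MP κ k), ?_⟩
    have := Polynomial.map_dvd (lin M : MP ι k →+* MP κ k) hβ
    rwa [Polynomial.map_sub, Polynomial.map_C, Polynomial.map_mul, hq1] at this
  · intro Ω _ _ _ y hy
    rw [aeval_def, eval₂_lin]
    refine c.tight Ω _ fun z hz => ?_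
    rw [← lin_ev, hq1]
    exact hy z (by rw [lin_ev]; exact hz)
  · intro E hE
    rw [← lin_sb]
    exact Polynomial.map_dvd _ (c.dv_on E hE)
  · intro j
    have e1 : (MvPolynomial.X j : MP κ k) =
        ∑ i, C (M' j i) * (lin M : MP ι k →+* MP κ k) (MvPolynomial.X i) := by
      have := lin_comb (C : k →+* MP κ k) M' M h2 MvPolynomial.X j
      rw [← this]
      exact Finset.sum_congr rfl fun i _ => by rw [← lin_X]; rfl
    have e2 : ∀ a : k, sb (fun j => (c.pp j).map (lin M : MP ι k →+* MP κ k)) (C a) =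
        Polynomial.C (C a) := fun a => by simp [sb]
    rw [e1, map_sum, map_sum, Finset.sum_mul, ← Finset.sum_sub_distrib]
    refine Finset.dvd_sum fun i _ => ?_
    have := Polynomial.map_dvd (lin M : MP ι k →+* MP κ k) (c.dv_f i)
    rw [Polynomial.map_sub, Polynomial.map_mul, Polynomial.map_C, hq, lin_sb] at this
    rw [map_mul, map_mul, e2, mul_assoc, ← mul_sub]
    exact this.mul_left _
  · have := Polynomial.map_dvd (lin M : MP ι k →+* MP κ k) c.dv_th
    rwa [Polynomial.map_sub, Polynomial.map_mul, Polynomial.map_X, hq, lin_sb] at this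
  · intro S _ _ x hx
    rw [lin_ev, hf]
    exact c.root S x hx
  · intro S _ _ x hx j
    rw [Polynomial.derivative_map, lin_ev, lin_ev, hf]
    exact c.fro S x hx j
  · intro j
    obtain ⟨H, hm, hw, hH⟩ := c.int j
    refine ⟨H.map (lin M : MP ι k →+* MP κ k), hm.map _, ?_, fun S _ _ x hx => ?_⟩
    · rw [hm.natDegree_map]
      exact hw.map _ hh
    · rw [lin_ev, hf]
      exact hH S x hx

end Pool.Agent.ZCy
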