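import Pool.Agent.Lib.MP_751085_ag.ZC.CW
import Pool.Agent.Lib.MP_751085_ag.ZC.CBase
import Pool.Agent.Lib.MP_751085_ag.ZC.Iface

/-! The steps of the sieve. -/

namespace Pool.Agent.ZCy

open scoped Classical Polynomial WithZero Topology
open MvPolynomial Filter NumberField IsDedekindDomain

variable {k : Type} [Field k] [NumberField k] {N : ℕ}

/-- the data of the sieve: open local conditions -/
structure Sv (k : Type) [Field k] [NumberField k] (N : ℕ) where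
  S : Finset (HeightOneSpectrum (𝓞 k))
  Wv : ∀ v : HeightOneSpectrum (𝓞 k), Set ((Fin (N + 1) →₀ ℕ) → v.adicCompletion k)
  Ww : ∀ w : InfinitePlace k, Set ((Fin (N + 1) →₀ ℕ) → w.Completion)
  Ok : HeightOneSpectrum (𝓞 k) → Fm N k → Prop
  add : ∀ v f, Ok v f → ∃ γ : ℤᵐ⁰, γ ≠ 0 ∧
    ∀ g : Fm N k, (∀ m, v.valuation k (coeff m g) < γ) → Ok v (f + g)
  smul : ∀ v f, Ok v f → ∀ c : k, c ≠ 0 → Ok v (C c * f)

section

variable {K : Type} [Field K] [TopologicalSpace K] [IsTopologicalRing K] (φ : k →+* K)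
  {W : Set ((Fin (N + 1) →₀ ℕ) → K)}

omit [NumberField k] in
theorem cs_form {d : ℕ} {f : Fm N K} (h : f.IsHomogeneous d ∧ W ∈ 𝓝 (cf f)) :
    ∃ U : Mon N d → Set K, (∀ m, U m ∈ 𝓝 (coeff m.1 f)) ∧
      ∀ a : Mon N d → k, (∀ m, φ (a m) ∈ U m) → W ∈ 𝓝 (cf (map φ (form a))) := by
  have hc : Continuous fun a : Mon N d → K => cf (form a) := continuous_pi fun m => by
    simp only [cf, form, coeff_sum, coeff_monomial]
    refine continuous_finsetSum _ fun i _ => ?_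
    split_ifs <;> fun_prop
  have e := hc.continuousAt (x := fun m => coeff m.1 f)
  rw [ContinuousAt, form_coeff h.1, nhds_pi] at e
  obtain ⟨I, -, U, hU, hI⟩ := Filter.mem_pi.1 (e (interior_mem_nhds.2 h.2))
  refine ⟨U, hU, fun a ha => ?_⟩
  rw [map_form]
  exact mem_interior_iff_mem_nhds.1 (hI fun m _ => ha m)

omit [NumberField k] in
theorem cs_line {g : Fm N k} (h : Fm N k) (hg : W ∈ 𝓝 (cf (map φ g))) :
    ∃ U ∈ 𝓝 (0 : K), ∀ l : k, φ l ∈ U → W ∈ 𝓝 (cf (map φ (g + C l * h))) := by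
  have hc : Continuous fun t : K => cf (map φ g + C t * map φ h) := continuous_pi fun m => by
    simp only [cf, coeff_add, coeff_C_mul]
    fun_prop
  have e := hc.continuousAt (x := 0)
  rw [ContinuousAt, C_0, zero_mul, add_zero] at e
  refine ⟨_, e (interior_mem_nhds.2 hg), fun l hl => ?_⟩
  rw [map_add, map_mul, map_C]
  exact mem_interior_iff_mem_nhds.1 hl

end

omit [NumberField k] in
theorem cs_bound (v : Valuation k ℤᵐ⁰) (h : Fm N k) {γ : ℤᵐ⁰} (hγ : γ ≠ 0) :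
    ∃ δ : ℤᵐ⁰, δ ≠ 0 ∧ ∀ l, v l < δ → ∀ m, v (coeff m (C l * h)) < γ := by
  obtain ⟨B, hB⟩ := (insert 1 (h.support.image fun m => v (coeff m h))).exists_le
  have h0 : 0 < B := zero_lt_one.trans_le (hB 1 (Finset.mem_insert_self _ _))
  refine ⟨γ / B, div_ne_zero hγ h0.ne', fun l hl m => ?_⟩
  rw [coeff_C_mul, map_mul]
  refine (mul_le_mul_right ?_ _).trans_lt ((lt_div_iff₀ h0).1 hl)
  by_cases e : m ∈ h.support
  · exact hB _ (Finset.mem_insert_of_mem (Finset.mem_image_of_mem _ e))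
  · rw [notMem_support_iff.1 e, map_zero]
    exact h0.le

namespace Sv

variable (s : Sv k N)

/-- the conditions at `S`, at infinity and at `T` -/
def St (T : Set (HeightOneSpectrum (𝓞 k))) (g : Fm N k) : Prop :=
  (∀ v ∈ s.S, s.Wv v ∈ 𝓝 (cf (map (algebraMap k (v.adicCompletion k)) g))) ∧
    (∀ w, s.Ww w ∈ 𝓝 (cf (map (algebraMap k (InfinitePlace.Completion w)) g))) ∧
    ∀ v ∈ T, v ∉ s.S → s.Ok v g

/-- Weak approximation for each of the finitely many coefficients (`Mon N d`, `form`,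
`form_coeff`, `weak_approx_val` with the finite set `T \ S`, `t v = coeff m h`). The map
`a ↦ cf (form a)` is continuous; use `eventually_eventually_nhds` or `interior`, and `nhds_pi`. -/
theorem start {d : ℕ} (fv : ∀ v : HeightOneSpectrum (𝓞 k), Fm N (v.adicCompletion k))
    (fw : ∀ w : InfinitePlace k, Fm N w.Completion)
    (hv : ∀ v ∈ s.S, (fv v).IsHomogeneous d ∧ s.Wv v ∈ 𝓝 (cf (fv v)))
    (hw : ∀ w, (fw w).IsHomogeneous d ∧ s.Ww w ∈ 𝓝 (cf (fw w)))
    {T : Set (HeightOneSpectrum (𝓞 k))} (hT : T.Finite) {h : Fm N k} (hd : h.IsHomogeneous d)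
    (hh : ∀ v ∈ T, v ∉ s.S → s.Ok v h) : ∃ g : Fm N k, g.IsHomogeneous d ∧ s.St T g := by
  have h1 := fun v (e : v ∈ s.S) => cs_form (algebraMap k (v.adicCompletion k)) (hv v e)
  choose! Uv hUv hv' using h1
  choose Uw hUw hw' using fun w : InfinitePlace k => cs_form (algebraMap k w.Completion) (hw w)
  have h2 : ∀ v : HeightOneSpectrum (𝓞 k), ∃ γ : ℤᵐ⁰, γ ≠ 0 ∧ (v ∈ T → v ∉ s.S →
      ∀ g : Fm N k, (∀ m, v.valuation k (coeff m g) < γ) → s.Ok v (h + g)) := fun v => by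
    by_cases e : v ∈ T ∧ v ∉ s.S
    · exact (s.add v h (hh v e.1 e.2)).imp fun _ u => ⟨u.1, fun _ _ => u.2⟩
    · exact ⟨1, one_ne_zero, fun a b => (e ⟨a, b⟩).elim⟩
  choose γ hγ hγ' using h2
  choose a ha using fun m : Mon N d => (weak_approx_val s.S (hT.toFinset \ s.S)
    Finset.disjoint_sdiff (fun v => coeff m.1 (fv v)) (fun v => Uv v m) (fun w => coeff m.1 (fw w))
    (fun w => Uw w m) (fun v e => hUv v e m) (fun w => hUw w m) (fun _ => coeff m.1 h) γ hγ).nonempty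
  refine ⟨form a, form_hom a, fun v e => hv' v e a fun m => (ha m).1 v e,
    fun w => hw' w a fun m => (ha m).2.1 w, fun v e e' => ?_⟩
  rw [← add_sub_cancel h (form a)]
  refine hγ' v e e' _ fun m => ?_
  rw [coeff_sub]
  by_cases u : m.degree = d
  · have := (ha (Mon.mk' m u)).2.2 v (Finset.mem_sdiff.2 ⟨hT.mem_toFinset.2 e, e'⟩)
    rwa [← coeff_form a] at this
  · rw [(form_hom a).coeff_eq_zero u, hd.coeff_eq_zero u, sub_zero, map_zero]
    exact zero_lt_iff.2 (hγ v)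

/-- `weak_approx_val`: `l` close to `0` at `S`, at infinity and at `T \ S`, with a pole of large
order at `T' \ (T ∪ S)`, where `g + l h = l (h + l⁻¹ g)`. -/
theorem step {T T' : Set (HeightOneSpectrum (𝓞 k))} (hT : T.Finite) (hT' : T'.Finite)
    {g h : Fm N k} (hg : s.St T g) (hh : ∀ v ∈ T', v ∉ s.S → v ∉ T → s.Ok v h)
    {p : k → Prop} (hp : ∀ᶠ l in cofinite, p l) :
    ∃ l, p l ∧ s.St (T ∪ T') (g + C l * h) := by
  have h1 := fun v (e : v ∈ s.S) => cs_line (algebraMap k (v.adicCompletion k)) h (hg.1 v e)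
  choose! Uv hUv hv' using h1
  choose Uw hUw hw' using fun w : InfinitePlace k =>
    cs_line (algebraMap k w.Completion) h (hg.2.1 w)
  have h2 : ∀ v : HeightOneSpectrum (𝓞 k), ∃ (t : k) (γ : ℤᵐ⁰), γ ≠ 0 ∧ (v ∈ T ∪ T' → v ∉ s.S →
      ∀ l, v.valuation k (l - t) < γ → s.Ok v (g + C l * h)) := fun v => by
    by_cases e : v ∈ T ∪ T' ∧ v ∉ s.S
    swap
    · exact ⟨0, 1, one_ne_zero, fun a b => (e ⟨a, b⟩).elim⟩
    by_cases e' : v ∈ T
    · obtain ⟨γ, h0, hγ⟩ := s.add v g (hg.2.2 v e' e.2)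
      obtain ⟨δ, h0', hδ⟩ := cs_bound (v.valuation k) h h0
      exact ⟨0, δ, h0', fun _ _ l hl => hγ _ (hδ l (by rwa [sub_zero] at hl))⟩
    · obtain ⟨γ, h0, hγ⟩ := s.add v h (hh v (e.1.resolve_left e') e.2 e')
      obtain ⟨δ, h0', hδ⟩ := cs_bound (v.valuation k) g h0
      obtain ⟨t, ht⟩ := v.valuation_surjective k (δ * WithZero.exp (-1))⁻¹
      have h3 : v.valuation k t ≠ 0 := ht ▸ inv_ne_zero (mul_ne_zero h0' WithZero.exp_ne_zero)
      refine ⟨t, _, h3, fun _ _ l hl => ?_⟩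
      have h4 := Valuation.map_eq_of_sub_lt _ hl
      have h5 : l ≠ 0 := fun u => h3 (by rw [← h4, u, map_zero])
      have h6 := s.smul v _ (hγ _ (hδ l⁻¹ (by
        rw [map_inv₀, h4, ht, inv_inv]
        exact mul_lt_of_lt_one_right (zero_lt_iff.2 h0') (by decide)))) l h5
      rwa [mul_add, ← mul_assoc, ← C_mul, mul_inv_cancel₀ h5, C_1, one_mul, add_comm] at h6
  choose t γ hγ hγ' using h2
  obtain ⟨l, hl, hl'⟩ := (weak_approx_val s.S ((hT.union hT').toFinset \ s.S) Finset.disjoint_sdiff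
    (fun _ => 0) Uv (fun _ => 0) Uw hUv hUw t γ hγ).exists_notMem_finite (eventually_cofinite.1 hp)
  exact ⟨l, not_not.1 hl', fun v e => hv' v e l (hl.1 v e), fun w => hw' w l (hl.2.1 w),
    fun v e e' => hγ' v e e' l
      (hl.2.2 v (Finset.mem_sdiff.2 ⟨(hT.union hT').mem_toFinset.2 e, e'⟩))⟩

end Sv

end Pool.Agent.ZCy
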