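import Pool.Agent.Lib.MP_751085_ag.ZC.CSp3
import Pool.Agent.Lib.MP_751085_ag.ZC.CChv

/-! The passage to the completion. -/

namespace Pool.Agent.ZCy

open scoped Classical Polynomial WithZero
open MvPolynomial Filter NumberField IsDedekindDomain

variable {k : Type} [Field k] [NumberField k] {σ : Type} [Fintype σ]

/-- the map to the completed valuation ring -/
theorem exists_toO (v : HeightOneSpectrum (𝓞 k)) :
    ∃ ρ : Rv v →+* v.adicCompletionIntegers k, Function.Injective ρ ∧ IsLocalHom ρ ∧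
      ∀ a, algebraMap _ (v.adicCompletion k) (ρ a) = algebraMap k (v.adicCompletion k) a := by
  have e (a : k) : Valued.v (algebraMap k (v.adicCompletion k) a) = v.valuation k a :=
    v.valuedAdicCompletion_eq_valuation' a
  refine ⟨((algebraMap k (v.adicCompletion k)).comp (Rv v).subtype).codRestrict
    (v.adicCompletionIntegers k) fun a => (e a).le.trans a.2, fun a b h => Subtype.ext
      ((algebraMap k (v.adicCompletion k)).injective (congrArg Subtype.val h)), ⟨fun a h => ?_⟩,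
    fun _ => rfl⟩
  by_contra h0
  exact Valuation.Integer.not_isUnit_iff_valuation_lt_one.2
    ((e a).le.trans_lt (Valuation.Integer.not_isUnit_iff_valuation_lt_one.1 h0)) h

theorem Hv.map {O O' : Type} [CommRing O] [IsLocalRing O] [CommRing O'] [IsLocalRing O'] {N : ℕ}
    {GG : Set (Fm N O)} {f : Fm N O} (h : Hv σ GG f) {ρ : O →+* O'} (hi : Function.Injective ρ)
    [IsLocalHom ρ] : Hv σ (map ρ '' GG) (map ρ f) := by
  obtain ⟨c, Θ, a, b, μ, j, e, h1, ⟨r, h2⟩, h3, ⟨i, h4⟩, h5, h6, h7, h8⟩ := h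
  obtain ⟨c', hc⟩ := c.exists_map_image ρ
  refine ⟨c', MvPolynomial.map ρ Θ, _, _, fun j => ρ (μ j), j, e, by simpa [hc.p.δ] using h1.map ρ,
    ⟨r, by simpa [hc.p.br] using map_dvd (MvPolynomial.map ρ) h2⟩, h3.map hi, ⟨i, h4.map ρ⟩,
    h5.map ρ, by simpa using congrArg ρ h6, by simpa using congrArg ρ h7, fun m => ?_⟩
  have h9 := map_nonunit ρ _ (h8 m)
  rw [← coeff_map] at h9
  simpa only [map_sub, map_mul, map_pow, map_sum, map_C, hc.l0, hc.f] using h9

theorem Var.Nice.ev_goodAt {X : Var k} {n Λ : ℕ} (hX : X.Nice n) (hσ : Fintype.card σ + 1 = n)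
    (hΛ : Λ ≠ 0) {GG : Set (Fm X.N k)} (hG : GG.Finite) (h1 : GG ⊆ X.I)
    (h2 : ∀ G ∈ X.I, G ∈ Ideal.span GG) :
    ∀ᶠ v : HeightOneSpectrum (𝓞 k) in cofinite, ∀ f, Ok σ GG v f →
      X.GoodAt n Λ f (v.adicCompletionIntegers k) (v.adicCompletion k) := by
  filter_upwards [hX.chv_spread ev_Rv hσ hG h1 h2, Var.model_spread ev_Rv hG h1 h2,
    lf_unit ev_Rv (fun v => (Rv v).subtype_injective) (t := (Λ : k))
      (Nat.cast_ne_zero.2 hΛ).isUnit] with v h3 h4 h5 f ⟨u, f', hu, e, h6⟩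
  obtain ⟨ρ, hi, _, hρ⟩ := exists_toO v
  refine ⟨by simpa using (h5 Λ (map_natCast _ _)).map ρ, σ, _, _, map ρ f',
    algebraMap k _ u, hσ, h4 _ _ ρ hρ, (map_ne_zero _).2 hu, ?_, h3.map ρ, h6.map hi⟩
  rw [MvPolynomial.map_map, show (algebraMap _ (v.adicCompletion k)).comp ρ =
    (algebraMap k _).comp (Rv v).subtype from RingHom.ext hρ, ← MvPolynomial.map_map, e, map_mul,
    map_C]

end Pool.Agent.ZCy
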