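import Pool.Agent.Lib.MP_751085_ag.ZC.CGd
import Pool.Agent.Lib.MP_751085_ag.ZC.CLef
import Pool.Agent.Lib.MP_751085_ag.ZC.CY5
import Pool.Agent.Lib.MP_751085_ag.ZC.CSp4
import Pool.Agent.Lib.MP_751085_ag.ZC.CS

/-! The choice of the section. -/

namespace Pool.Agent.ZCy

open scoped Classical Polynomial Topology
open MvPolynomial Filter NumberField IsDedekindDomain

section

variable {k : Type} [Field k] [CharZero k] {ι : Type} {Θ : MP ι k}

theorem GoodLine.ev_update [DecidableEq ι] {a b : ι → k} (h : GoodLine Θ a b) (i : ι) {c : k}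
    (hc : c ≠ 0) :
    ∀ᶠ s in cofinite, ∀ᶠ t in cofinite,
      GoodLine Θ (Function.update a i (-s)) (Function.update b i (-(t * c))) := by
  refine (ev_shift (h.ev (Pi.single i (-1)) 0) (-a i)).mono fun s hs =>
    (ev_shift (hs.ev 0 (Pi.single i (-c))) (-b i / c)).mono fun t ht => ?_
  have e1 : a + (s - -a i) • Pi.single i (-1 : k) + (t - -b i / c) • (0 : ι → k) =
      Function.update a i (-s) := by
    funext j
    by_cases hj : j = i
    · simp [hj]
    · simp [hj]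
  have e2 : b + (s - -a i) • (0 : ι → k) + (t - -b i / c) • Pi.single i (-c) =
      Function.update b i (-(t * c)) := by
    funext j
    by_cases hj : j = i
    · simp only [hj, Pi.add_apply, smul_zero, add_zero, Pi.smul_apply, Pi.single_eq_same,
        smul_eq_mul, Function.update_self]
      field_simp
      ring
    · simp [hj]
  rwa [e1, e2] at ht

theorem ev_in3 [Fintype ι] (hs : Squarefree Θ) {i j : ι} (hij : i ≠ j) :
    ∀ᶠ s in cofinite, ∀ᶠ t in cofinite,
      ∃ a b, GoodLine Θ a b ∧ b j ≠ 0 ∧ In3 a b i j s t := by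
  obtain ⟨a, ha⟩ := exists_eval_ne hs.ne_zero
  obtain ⟨b, h1, h⟩ := exists_goodLine hs ha j
  refine (ev_shift (h.ev (Pi.single i (-1)) 0) (b i * a j - a i)).mono fun s hs =>
    (ev_shift (hs.ev (Pi.single i (-a j)) (Pi.single i (-1))) (-b i)).mono fun t ht =>
      ⟨_, _, ht, ?_, ?_, ?_⟩
  · simp [hij.symm, h1]
  · simp only [Pi.add_apply, Pi.smul_apply, Pi.single_eq_same, smul_eq_mul,
      Pi.single_eq_of_ne hij.symm]
    ring
  · simp [hij.symm, h1]

end

variable {k : Type} [Field k] [NumberField k] {X : Var k} {GG : Set (Fm X.N k)}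

omit [NumberField k] in
theorem Chart.exists_fin {σ : Type} (h1 : GG ⊆ X.I) (h2 : ∀ G ∈ X.I, G ∈ Ideal.span GG)
    (c : Chart k σ X.N (X.IK k)) : ∃ c' : Chart k σ X.N GG, c'.f = c.f ∧ c'.br = c.br := by
  obtain ⟨c', h⟩ := c.exists_transfer (GG' := GG)
    (fun G hG => Ideal.subset_span (Var.IK_self (X := X) ▸ h1 hG))
    fun Ω _ ψ x hx G hG => hx.span (h2 G (Var.IK_self (X := X) ▸ hG))
  exact ⟨c', funext fun i => (h.f i).trans (MvPolynomial.map_id _),
    h.p.br.trans (MvPolynomial.map_id _)⟩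

theorem cMain_of (hC : CHF) (hZ : Z1L) : CMain := by
  intro k _ _ X n hX hn Λ hΛ
  obtain ⟨m, rfl⟩ : ∃ m, n = m + 2 + 2 := ⟨n - 4, by omega⟩
  obtain ⟨G0, h1, h2⟩ := X.exists_GG
  have hG := G0.finite_toSet
  have hσ : Fintype.card (Option (Fin (m + 2))) + 1 = m + 2 + 2 := by simp
  have hab : (0 : Fin (m + 2)) ≠ 1 := zero_ne_one
  have n1 : (some none : Option (Option (Fin (m + 2)))) ≠ some (some 0) := by simp
  have n2 : (some (some 1) : Option (Option (Fin (m + 2)))) ≠ some (some 0) := by simp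
  have n3 : (some none : Option (Option (Fin (m + 2)))) ≠ some (some 1) := by simp
  have E1 := hX.ev_goodAt hσ hΛ hG h1 h2
  obtain ⟨l, f₁, hl, hf₁, E2⟩ : ∃ l f₁ : Fm X.N k, l.IsHomogeneous 1 ∧ f₁.IsHomogeneous 1 ∧
      ∀ᶠ v in cofinite, ∀ e : ℕ, Ok (Option (Fin (m + 2))) G0 v (l ^ e * f₁) := by
    obtain ⟨Gd, ⟨F, hF, g1, -⟩, -, g3⟩ := hX.exists_gd hσ one_pos none
    obtain ⟨-, c, Θ, rfl, hs, hr⟩ := g3 F hF g1
    obtain ⟨c', e1, e2⟩ := c.exists_fin h1 h2
    obtain ⟨s, hs⟩ := (ev_in3 hs n1).exists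
    obtain ⟨t, a, b, ht, hb, h⟩ := hs.exists
    rw [← e1] at hF
    exact ⟨c'.l0, _, c'.hl, ((hF _).add ((hF _).C_mul _)).add ((hF _).C_mul _),
      c'.ev_ok_hp hG (e2 ▸ hr) ht (fun e => hb (congrFun e _)) n1 h⟩
  have hS := eventually_cofinite.1 (E1.and E2)
  refine ⟨hS.toFinset, 1, fun d hd fv Wv fw Ww hv hw => ?_⟩
  have hS' := fun v (h : v ∉ hS.toFinset) => not_not.1 (mt hS.mem_toFinset.2 h)
  let sv : Sv k X.N := ⟨hS.toFinset, Wv, Ww, Ok (Option (Fin (m + 2))) G0, fun _ _ h => h.add,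
    fun _ _ h _ hc => h.smul hc⟩
  obtain ⟨Gd, ⟨F, hF, g1, g1'⟩, g2, g3⟩ := hX.exists_gd hσ hd (some (some none))
  -- the form `u`
  obtain ⟨F₁, hF₁, g4, E3⟩ : ∃ F₁, (∀ i, (F₁ i).IsHomogeneous d) ∧ Gd F₁ ∧
      ∀ᶠ v in cofinite, sv.Ok v (F₁ none) := by
    obtain ⟨-, c, Θ, rfl, hs, hr⟩ := g3 F hF g1
    obtain ⟨c', e1, e2⟩ := c.exists_fin h1 h2
    obtain ⟨s, hs, g4⟩ := ((ev_in3 hs n1).and (g2 _ none (c.f none) g1')).exists
    obtain ⟨t, ⟨a, b, ht, hb, h⟩, g5⟩ :=
      (hs.and (g2 _ none (c.f (some (some (some 0)))) g4)).exists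
    refine ⟨_, fun i => ?_, g5, (c'.ev_ok_hp hG (e2 ▸ hr) ht (fun e => hb (congrFun e _)) n1 h).mono
      fun v hv => ?_⟩
    · by_cases hi : i = none
      · simp only [hi, Function.update_self]
        exact ((hF _).add ((hF _).C_mul _)).add ((hF _).C_mul _)
      · simp only [Function.update_of_ne hi]
        exact hF _
    · have h0 := hv 0
      rw [pow_zero, one_mul, Chart.hp, e1] at h0
      simpa only [Function.update_self, Function.comp, Equiv.swap_apply_left] using h0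
  have hT₁ := eventually_cofinite.1 E3
  -- the form `w`
  obtain ⟨w₀, hw₀, s0⟩ := sv.start fv fw hv hw hT₁ (h := l ^ (d - 1) * f₁)
    (by simpa [Nat.sub_add_cancel hd] using (hl.pow (d - 1)).mul hf₁) fun v _ h => (hS' v h).2 _
  obtain ⟨F₂, hF₂, g5, e0, s1⟩ : ∃ F₂, (∀ i, (F₂ i).IsHomogeneous d) ∧ Gd F₂ ∧ F₂ none = F₁ none ∧
      sv.St _ (F₂ (some (some none))) := by
    obtain ⟨s, hs, s1⟩ := sv.step hT₁ Set.finite_empty s0 (h := F₁ (some (some none)) - w₀)
      (fun _ h => h.elim) (ev_shift (g2 _ (some (some none)) (F₁ (some (some none)) - w₀) g4) 1)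
    refine ⟨_, fun i => ?_, hs, by simp, ?_⟩
    · by_cases hi : i = some (some none)
      · simp only [hi, Function.update_self]
        exact (hF₁ _).add (((hF₁ _).sub hw₀).C_mul _)
      · simp only [Function.update_of_ne hi]
        exact hF₁ _
    · rw [Set.union_empty] at s1
      rw [Function.update_self, map_sub, map_one]
      exact (by ring : w₀ + C s * (F₁ (some (some none)) - w₀) = F₁ (some (some none)) +
        (C s - 1) * (F₁ (some (some none)) - w₀)) ▸ s1
  obtain ⟨-, c, Θ, rfl, hs, hr⟩ := g3 F₂ hF₂ g5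
  obtain ⟨c', e1, e2⟩ := c.exists_fin h1 h2
  obtain ⟨μ, hμ⟩ := (ev_in3 hs n2).exists
  obtain ⟨t, β, B, hL, hB, i1⟩ := hμ.exists
  have E4 := (c'.ev_ok_hp hG (e2 ▸ hr) hL (fun e => hB (congrFun e _)) n2 i1).mono fun v hv => hv 0
  simp only [pow_zero, one_mul] at E4
  have hT₂ := eventually_cofinite.1 E4
  obtain ⟨l₀, ⟨p1, g6⟩, s2⟩ := sv.step hT₁ hT₂ s1 (h := c.f none)
    (fun v _ _ h => e0 ▸ not_not.1 h)
    ((hL.ev_update (some none) hB).and (g2 _ (some (some none)) (c.f none) g5))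
  obtain ⟨l₁, ⟨⟨p2, p3⟩, g7⟩, s3⟩ := sv.step (hT₁.union hT₂) Set.finite_empty s2
    (h := c.f (some (some (some 0))) - C (β (some (some 0))) * c.f none) (fun _ h => h.elim)
    ((p1.and (c.lef2 hs hr p1.exists.choose_spec.1.ne_zero hab t)).and (g2 _ (some (some none))
      (c.f (some (some (some 0))) - C (β (some (some 0))) * c.f none) g6))
  have E5 := c'.ev_ok_pencil hG (e2 ▸ hr) p2 (fun e => hB (by
    simpa using congrFun e (some (some 0)))) n1 n2 n3
    (s := l₀ - l₁ * β (some (some 0))) (t := l₁) (s' := μ) (t' := t)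
    ⟨by simp [← add_sub_assoc], by simp⟩ (by simpa [In3] using i1)
  have hT₃ := eventually_cofinite.1 E5
  obtain ⟨l₂, ⟨⟨cL, Λ', hr', ef⟩, g8⟩, s4⟩ := sv.step ((hT₁.union hT₂).union Set.finite_empty) hT₃ s3
    (h := c'.hp (some (some 1)) (some (some 0)) μ t)
    (fun v _ _ h => not_not.1 fun h' => h (Or.inl (Or.inr h')))
    (p3.and (g2 _ (some (some none)) (c'.hp (some (some 1)) (some (some 0)) μ t) g7))
  simp only [Function.update_self, Function.update_idem] at g8
  have eμ : μ = -β (some (some 1)) - t * β (some (some 0)) := by linear_combination i1.1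
  have ef' : c.f (some (some none)) + C l₀ * c.f none + C l₁ * (c.f (some (some (some 0))) -
      C (β (some (some 0))) * c.f none) + C l₂ * c'.hp (some (some 1)) (some (some 0)) μ t =
      cL.f (some (some none)) := by
    rw [ef, Chart.hp, e1, eμ]
    simp only [Function.update_self, Function.update_of_ne n1.symm, Function.update_of_ne n3.symm,
      map_add, map_sub, map_mul, map_neg]
    ring
  have ef'' : c'.hp (some none) (some (some 0)) (l₀ - l₁ * β (some (some 0))) l₁ +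
      C l₂ * c'.hp (some (some 1)) (some (some 0)) μ t = cL.f (some (some none)) := by
    rw [← ef', Chart.hp, e1]
    simp only [map_sub, map_mul]
    ring
  have hom : (cL.f (some (some none))).IsHomogeneous d := by
    rw [← ef'', Chart.hp, Chart.hp, e1]
    exact (((hF₂ _).add ((hF₂ _).C_mul _)).add ((hF₂ _).C_mul _)).add
      ((((hF₂ _).add ((hF₂ _).C_mul _)).add ((hF₂ _).C_mul _)).C_mul _)
  rw [ef'] at g8 s4
  have hsm := (g3 _ (fun i => by
    by_cases hi : i = some (some none)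
    · simpa only [hi, Function.update_self] using hom
    · simpa only [Function.update_of_ne hi] using hF₂ i) g8).1
  rw [Function.update_self] at hsm
  have hc : Fintype.card (Fin (m + 2)) + 2 = m + 2 + 2 := by simp
  obtain ⟨Y, hY, hsec, c'', hh⟩ := hX.sec_chart hc cL (fun c' hc' => hZ k _ _ c' Λ'.Θ 0 Λ'.b
    (hC k X _ hX k _ cL hσ).1 hc' hr' rfl Λ'.hb
    (fun e => one_ne_zero (Λ'.hbn.symm.trans (congrFun e none))) Λ'.c2) hsm
  refine ⟨_, Y, hom, fun v h => mem_of_mem_nhds (s4.1 v h), fun w => mem_of_mem_nhds (s4.2.1 w), hY,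
    hsec, ⟨_, _, cL, Λ', c'', hc, rfl, hr', hh⟩, fun v h => (hS' v h).1 _ ?_⟩
  by_contra h0
  exact h0 (s4.2.2 v (Or.inr fun h' => h0 (ef'' ▸ h' l₂)) h)

end Pool.Agent.ZCy
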