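import Pool.Agent.Lib.MP_751085_ag.ZC.CLift
import Pool.Agent.Lib.MP_751085_ag.ZC.CRes
import Pool.Agent.Lib.MP_751085_ag.ZC.CDim

/-! The image of a hypersurface section. -/

namespace Pool.Agent.ZCy

open scoped Classical Polynomial
open MvPolynomial Set

set_option linter.unusedSectionVars false

variable {k : Type} [Field k] [CharZero k] {X : Var k} {ι : Type} [Fintype ι] {n : ℕ}

/-- the generic point is independent -/
theorem cnorm_gpt (k ι : Type) [Field k] : AlgebraicIndependent k (gpt k ι) := by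
  have e : (aeval (gpt k ι) : MP ι k →ₐ[k] AlgebraicClosure (RF ι k)) =
      (IsScalarTower.toAlgHom k (RF ι k) (AlgebraicClosure (RF ι k))).comp
        (IsScalarTower.toAlgHom k (MP ι k) (RF ι k)) :=
    algHom_ext fun i => by rw [aeval_X]; rfl
  rw [algebraicIndependent_iff_injective_aeval, e]
  exact (algebraMap (RF ι k) (AlgebraicClosure (RF ι k))).injective.comp
    (IsFractionRing.injective (MP ι k) (RF ι k))

/-- the value of `sb c.pp H` at the image of a point of the cone -/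
theorem Cover.cnorm_ev (c : Cover X ι) {H : Fm X.N k} {m : ℕ} (hH : H.IsHomogeneous m) {S : Type}
    [CommRing S] [Algebra k S] {x : Fin (X.N + 1) → S} (hx : X.Zr x) : ∃ u : S,
    (fun j => ev (algebraMap k S) (fun i => aeval x (c.f i)) (aeval x c.th) (c.pp j)) = u • x ∧
    ev (algebraMap k S) (fun i => aeval x (c.f i)) (aeval x c.th) (sb c.pp H) =
      u ^ m * aeval x H := by
  have e : (fun j => ev (algebraMap k S) (fun i => aeval x (c.f i)) (aeval x c.th) (c.pp j)) =
      (ev (algebraMap k S) (fun i => aeval x (c.f i)) (aeval x c.th) (Polynomial.derivative c.χ) *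
        aeval x c.l ^ (c.d - 1)) • x := funext fun j => c.fro S x hx j
  exact ⟨_, e, by rw [ev_sb, e, eval₂_smul_hom hH, aeval_def x H]⟩

/-- `exists_elim` for `h = sb c.pp H`. At a point `x` of the cone `fro` gives `pp = u • x`, so
`h = u ^ m * H x`. Nonzero: at `y = gpt k ι` the point of `Cover.pt` is a multiple of the point `x` of
`Cover.lift`, whose coordinates have rank `≥ n + 1` (`aeval_mem_acl`, `rk_range_iff`), so it is
dominant (`exists_dom'`, `Dom.aeval_ne`). -/
theorem Cover.exists_norm (c : Cover X ι) (hn : Algebra.trdeg k X.F = n)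
    (hι : Fintype.card ι = n + 1) {H : Fm X.N k} {m : ℕ} (hH : H.IsHomogeneous m)
    (hg : aeval X.g H ≠ 0) : ∃ (Nm : MP ι k) (e : ℕ), Nm ≠ 0 ∧ Nm.IsHomogeneous e ∧
      ∀ (S : Type) [CommRing S] [Algebra k S] (x : Fin (X.N + 1) → S), X.Zr x → aeval x H = 0 →
        aeval (fun i => aeval x (c.f i)) Nm = 0 := by
  obtain ⟨D, hD, ⟨β, hβ⟩, ht⟩ := exists_elim c.monic c.deg c.pos c.wχ (WH.sb c.wp hH)
  refine ⟨D, _, fun h0 => ?_, hD, fun S _ _ x hx h => ?_⟩
  · have hy := cnorm_gpt k ι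
    have hc : aeval (gpt k ι) c.D ≠ 0 := fun h => c.D_ne (hy.eq_zero_of_aeval_eq_zero _ h)
    refine ht _ (gpt k ι) (fun z hz => ?_) (by rw [h0, map_zero])
    obtain ⟨x, ⟨hx, hf⟩, hth⟩ := c.lift hz hc
    obtain ⟨-, -, hon, -⟩ := c.pt hz hc
    have hr : (n : ℕ∞) + 1 ≤ rk k (range x) := by
      have h1 := rk_range_iff.2 hy
      rw [hι, Nat.cast_add, Nat.cast_one] at h1
      refine h1.trans (rk_le_of_acl ?_)
      rintro _ ⟨i, rfl⟩
      rw [← hf i]
      exact aeval_mem_acl (fun j => mem_acl_of_mem (mem_range_self j)) _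
    obtain ⟨γ, hγ⟩ := hx.exists_dom' hn hr
    obtain ⟨u, h1, h2⟩ := c.cnorm_ev hH hx.zr
    rw [funext hf, hth] at h1 h2
    rw [h2]
    refine mul_ne_zero (pow_ne_zero _ fun hu => hon.1 ?_) (hγ.aeval_ne hH hg)
    rw [h1, hu, zero_smul]
  · obtain ⟨u, -, h2⟩ := c.cnorm_ev hH hx
    have h3 := map_dvd (ev (algebraMap k S) (fun i => aeval x (c.f i)) (aeval x c.th)) hβ
    rwa [c.root S x hx, zero_dvd_iff, map_sub, map_mul, h2, h, mul_zero, mul_zero, sub_zero,
      ev_C, ← aeval_def] at h3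

end Pool.Agent.ZCy
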