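import Pool.Agent.Lib.MP_751085_ag.ZC.Iface
import Pool.Agent.Lib.MP_751085_ag.ZC.CCovS
import Pool.Agent.Lib.MP_751085_ag.ZC.CChart
import Pool.Agent.Lib.MP_751085_ag.ZC.CLin
import Pool.Agent.Lib.MP_751085_ag.ZC.CNorm
import Pool.Agent.Lib.MP_751085_ag.ZC.CAl2

/-! Charts that are good at given points. -/

namespace Pool.Agent.ZCy

open scoped Classical Polynomial
open MvPolynomial

set_option linter.unusedSectionVars false

variable {k : Type} [Field k] {ι : Type} [Fintype ι]

/-- the matrix with column `q` at `i₀` and unit columns elsewhere -/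
noncomputable def colM (i₀ : ι) (q : ι → k) : Matrix ι ι k := (1 : Matrix ι ι k).updateCol i₀ q

/-- the vector `y` with the coordinate `i₀` replaced by zero -/
noncomputable def upd0 {S : Type} [Zero S] (y : ι → S) (i₀ : ι) : ι → S := Function.update y i₀ 0

theorem upd0_self {S : Type} [Zero S] (y : ι → S) (i₀ : ι) : upd0 y i₀ i₀ = 0 :=
  Function.update_self _ _ _

theorem upd0_ne {S : Type} [Zero S] (y : ι → S) {i₀ i : ι} (h : i ≠ i₀) : upd0 y i₀ i = y i :=
  Function.update_of_ne h _ _

theorem colM_mulVec {S : Type} [CommRing S] (φ : k →+* S) (i₀ : ι) (q : ι → k) (y : ι → S) (i : ι) :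
    ∑ j, φ (colM i₀ q i j) * y j = upd0 y i₀ i + y i₀ * φ (q i) := by
  rw [← Finset.add_sum_erase _ _ (Finset.mem_univ i₀), colM, Matrix.updateCol_self, add_comm,
    mul_comm, Finset.sum_congr rfl fun j hj => by
      rw [Matrix.updateCol_ne (Finset.ne_of_mem_erase hj)]]
  by_cases h : i = i₀
  · subst h
    rw [upd0_self, Finset.sum_eq_zero fun j hj => by
      rw [Matrix.one_apply_ne (Finset.ne_of_mem_erase hj).symm, map_zero, zero_mul]]
  · rw [upd0_ne _ h, Finset.sum_eq_single_of_mem i (by simpa using h) fun j _ hj => by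
      rw [Matrix.one_apply_ne hj.symm, map_zero, zero_mul], Matrix.one_apply_eq, map_one, one_mul]

theorem colM_inv {i₀ : ι} {q : ι → k} (h : q i₀ ≠ 0) :
    ∃ M' : Matrix ι ι k, colM i₀ q * M' = 1 ∧ M' * colM i₀ q = 1 := by
  have h1 : IsUnit (colM i₀ q).det := by
    rw [colM, ← Matrix.cramer_apply, Matrix.cramer_one]
    exact h.isUnit
  exact ⟨_, Matrix.mul_nonsing_inv _ h1, Matrix.nonsing_inv_mul _ h1⟩

theorem cn1_mul {S : Type} [CommRing S] {A B : Matrix ι ι k} (h : A * B = 1) (φ : k →+* S)
    (y : ι → S) (i : ι) : ∑ j, φ (A i j) * ∑ l, φ (B j l) * y l = y i := by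
  have h1 := congrFun (Matrix.mulVec_mulVec y (A.map φ) (B.map φ)) i
  rwa [← Matrix.map_mul, h, Matrix.map_one _ (map_zero φ) (map_one φ), Matrix.one_mulVec] at h1

theorem cn1_sep {M : Type} [Field M] [CharZero M] {P Q : M[X]} (hP : P.Separable) {c u w : M}
    (hu : u ≠ 0) (hc : c ≠ 0) (h : ∀ t, Q.eval t = c * P.eval (u * t + w)) : Q.Separable := by
  let _ := invertibleOfNonzero hu
  have e : Q = Polynomial.C c * Polynomial.algEquivCMulXAddC u w P :=
    Polynomial.funext fun t => by simp [h, ← Polynomial.comp_eq_aeval, Polynomial.eval_comp]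
  rw [e]
  refine Polynomial.Separable.unit_mul (Polynomial.isUnit_C.2 hc.isUnit) ?_
  rw [PerfectField.separable_iff_squarefree] at hP ⊢
  intro a ha
  have h1 := map_dvd (Polynomial.algEquivCMulXAddC u w).symm ha
  rw [AlgEquiv.symm_apply_apply, map_mul] at h1
  exact (MulEquiv.isUnit_map _).1 (hP _ h1)

variable [CharZero k] {X : Var k} {σ : Type} [Fintype σ]

/-- The chart whose lines pass through the point `q`. -/
theorem Cover.chart_at (c : Cover X (Option (Option σ))) {q : Option (Option σ) → k}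
    (h1 : q (some none) ≠ 0) (h2 : eval q c.G ≠ 0) : ∃ e : Chart k σ X.N (X.IK k), e.δ = c.δ ∧
      (∀ (M : Type) [Field M] [Algebra k M] (x : Fin (X.N + 1) → M),
        aeval x (c.f none) * algebraMap k M (q (some none)) ≠
          aeval x (c.f (some none)) * algebraMap k M (q none) →
        GoodLine (map (algebraMap k M) c.G) (fun i => aeval x (c.f i))
          (fun i => algebraMap k M (q i)) → e.U (algebraMap k M) x) ∧
      ∀ (M : Type) [Field M] [Algebra k M] (x : Fin (X.N + 1) → M),
        (∀ i, aeval x (e.f (skip i)) = 0) →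
          ∃ t : M, (fun i => aeval x (c.f i)) = t • fun i => algebraMap k M (q i) := by
  obtain ⟨M', hM, hM'⟩ := colM_inv h1
  obtain ⟨c', -, hδ, hγ, hf, -, -, hG, -⟩ := c.exists_lin _ M' hM hM'
  have hq : eval (Pi.single (some none) 1) c'.G = eval q c.G := by
    rw [hG, ← eval₂_id, eval₂_lin, ← eval₂_id]
    congr 1
    funext i
    rw [colM_mulVec]
    by_cases h : i = some none <;> simp [h, upd0_self, upd0_ne]
  obtain ⟨e, -, eδ, ef, -, -, -, -, eΨ, eγ, eΦ⟩ := c'.exists_chart (hq ▸ h2)
  have key (M : Type) [Field M] [Algebra k M] (x : Fin (X.N + 1) → M) (i : Option (Option σ)) :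
      aeval x (c.f i) = upd0 (fun j => aeval x (e.f j)) (some none) i +
        aeval x (e.f (some none)) * algebraMap k M (q i) := by
    rw [← colM_mulVec (algebraMap k M) (some none) q fun j => aeval x (e.f j)]
    simp only [ef, hf, map_sum, map_mul, aeval_C]
    exact (cn1_mul hM (algebraMap k M) (fun l => aeval x (c.f l)) i).symm
  refine ⟨e, eδ.trans hδ, fun M _ _ x h3 h4 => ?_, fun M _ _ x hx =>
    ⟨aeval x (e.f (some none)), funext fun i => ?_⟩⟩
  · have : CharZero M := charZero_of_injective_algebraMap (algebraMap k M).injective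
    have h0 : aeval x (e.f none) ≠ 0 := fun h => h3 (by
      rw [key M x none, key M x (some none), upd0_self, upd0_ne _ (by simp), h]
      ring)
    have hc : (algebraMap k M (eval q c.G))⁻¹ * (aeval x (e.f none))⁻¹ ^ c.γ ≠ 0 :=
      mul_ne_zero (inv_ne_zero ((map_ne_zero _).2 h2)) (pow_ne_zero _ (inv_ne_zero h0))
    have h5 (t : M) : ((tp e.Ψ).map (eval₂Hom (algebraMap k M) fun j =>
        e.xi (algebraMap k M) x (some j))).eval t = (algebraMap k M (eval q c.G))⁻¹ *
          (aeval x (e.f none))⁻¹ ^ c.γ * (line (RingHom.id M) (fun i => aeval x (c.f i))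
            (fun i => algebraMap k M (q i)) (map (algebraMap k M) c.G)).eval
            (aeval x (e.f none) * t + -aeval x (e.f (some none))) := by
      rw [← ev_eq_eval, eval_line, eval₂_map, RingHom.id_comp, mul_assoc, ← eval₂_smul_hom c.hG]
      refine (eval₂_tp _ (fun i => i.elim t fun j => e.xi (algebraMap k M) x (some j)) _).symm.trans ?_
      rw [eΨ, eval₂_mul, eval₂_C, hq, map_inv₀, eval₂_deh, hG, eval₂_lin]
      congr 2
      funext i
      rw [colM_mulVec, Pi.smul_apply, key M x i, smul_eq_mul]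
      rcases i with _ | _ | i
      · rw [upd0_ne _ (by simp), upd0_ne _ (by simp)]
        simp only [Option.elim]
        field_simp
        ring
      · simp only [upd0_self, Option.elim]
        field_simp
        ring
      · rw [upd0_ne _ (by simp), upd0_ne _ (by simp)]
        simp only [Option.elim, Chart.xi, ← aeval_def]
        field_simp
        ring
    have h6 := cn1_sep h4.2.1 h0 hc h5
    refine ⟨h0, ?_⟩
    rw [PChart.br, eval₂_mul, eval₂_up]
    refine mul_ne_zero ?_ ?_
    · rw [eval₂_tp, ev_eq_eval, h5, Chart.xi, ← aeval_def, ← aeval_def, mul_div_cancel₀ _ h0,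
        add_neg_cancel, ← Polynomial.coeff_zero_eq_eval_zero, coeff_line_zero]
      exact mul_ne_zero hc h4.1.ne_zero
    · have h7 := (e.tm.1.natDegree_map (eval₂Hom (algebraMap k M) fun j =>
        e.xi (algebraMap k M) x (some j))).trans eγ
      rw [eΦ, ← coe_eval₂Hom, ← Polynomial.resultant_map_map, ← Polynomial.derivative_map, ← h7,
        ← Polynomial.natDegree_derivative]
      exact Polynomial.resultant_ne_zero _ _ h6
  · rw [key M x i]
    rcases i with _ | _ | i
    · simp [upd0_ne, show aeval x (e.f none) = 0 from hx none]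
    · simp [upd0_self]
    · simp [upd0_ne, show aeval x (e.f (some (some i))) = 0 from hx (some i)]

/-- generic points `q` give charts that are good at a given point -/
theorem Cover.gn_at (c : Cover X (Option (Option σ))) {M : Type} [Field M] [Algebra k M]
    {x : Fin (X.N + 1) → M} (h1 : aeval (fun i => aeval x (c.f i)) c.G ≠ 0)
    (h2 : aeval x (c.f none) ≠ 0) : Gn k fun q : Option (Option σ) → k =>
      aeval x (c.f none) * algebraMap k M (q (some none)) ≠
        aeval x (c.f (some none)) * algebraMap k M (q none) ∧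
      GoodLine (map (algebraMap k M) c.G) (fun i => aeval x (c.f i))
        fun i => algebraMap k M (q i) := by
  have : CharZero M := charZero_of_injective_algebraMap (algebraMap k M).injective
  obtain ⟨Q, h3, h4⟩ := sq1 (squarefree_map (Ω := M) c.sqf) (a := fun i => aeval x (c.f i))
    (by rwa [eval_map, ← aeval_def])
  refine Gn.and ((Gn.of_ext (k := k) (r := C (aeval x (c.f none)) * MvPolynomial.X (some none) -
    C (aeval x (c.f (some none))) * MvPolynomial.X none) fun h => h2 ?_).mono fun q hq => ?_)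
    ((Gn.of_ext h3).mono fun q hq => h4 _ hq)
  · have h5 := congrArg (eval (Pi.single (some none) (1 : M))) h
    simp only [map_sub, map_mul, eval_C, eval_X, map_zero] at h5
    simpa using h5
  · simp only [map_sub, map_mul, eval_C, eval_X] at hq
    exact sub_ne_zero.1 hq

theorem n1_thm : N1 := fun k _ _ X n hX hn M _ _ S hS H ⟨m, hH⟩ hI => by
  have hι : Fintype.card (Option (Option (Fin (n - 1)))) = n + 1 := by simp; omega
  obtain ⟨a, c, -, -, -, h⟩ := (hX.cover_S hι (d := 2) le_rfl (q := fun _ => 1)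
    (fun h => one_ne_zero (congrFun h none)) S.finite_toSet hS).exists
  obtain ⟨Nm, e, h0, h1, h2⟩ := c.exists_norm hX.dim hι hH fun h => hI ⟨⟨m, hH⟩, h⟩
  obtain ⟨q, h3, h4⟩ := (Gn.and ⟨MvPolynomial.X (some none) * c.G * Nm,
    mul_ne_zero (mul_ne_zero (X_ne_zero _) c.sqf.ne_zero) h0, fun _ h => h⟩
    (Gn.ball S.finite_toSet fun x hx => c.gn_at (h x hx).1 ((h x hx).2 none))).exists
  simp only [map_mul, eval_X, mul_ne_zero_iff] at h3
  obtain ⟨e, -, h5, h6⟩ := c.chart_at h3.1.1 h3.1.2
  refine ⟨_, inferInstance, e, by simp; omega, fun x hx => h5 M x (h4 x hx).1 (h4 x hx).2,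
    fun Ω _ _ x hx h7 h8 => ?_⟩
  obtain ⟨t, ht⟩ := h6 Ω x h7
  obtain ⟨i, hi⟩ := c.int.b1 Ω x hx
  have h9 := h2 Ω x hx.zr h8
  rw [ht, aeval_smul_hom h1, show aeval (fun i => algebraMap k Ω (q i)) Nm = _ from
    aeval_algebraMap_apply Ω q Nm, aeval_eq_eval] at h9
  refine (mul_ne_zero (pow_ne_zero _ fun h => hi ?_) ((map_ne_zero _).2 h3.2)) h9
  rw [congrFun ht i, h, zero_smul]; rfl

end Pool.Agent.ZCy
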