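import Pool.Agent.Lib.MP_751085_ag.ZC.CMap

/-! Spreading out: polynomials, identities and pointwise implications over a field descend to
almost all members of a family of subrings. -/

namespace Pool.Agent.ZCy

open scoped Classical Polynomial
open MvPolynomial Filter

/-- A pointwise implication over all fields descends. -/
theorem spr {V T : Type} [CommRing T] {𝓕 : Filter V} {S : V → Type} [∀ v, CommRing (S v)]
    (ι : ∀ v, S v →+* T) (hi : ∀ v, Function.Injective (ι v))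
    (he : ∀ t, ∀ᶠ v in 𝓕, t ∈ (ι v).range) {J : Type} [Finite J] (p : J → T) (q : T)
    (h : ∀ (Ω : Type) [Field Ω] (ψ : T →+* Ω), (∀ j, ψ (p j) = 0) → ψ q = 0) :
    ∀ᶠ v in 𝓕, ∀ (p' : J → S v) (q' : S v), (∀ j, ι v (p' j) = p j) → ι v q' = q →
      ∀ (Ω : Type) [Field Ω] (ψ : S v →+* Ω), (∀ j, ψ (p' j) = 0) → ψ q' = 0 := by
  have := Fintype.ofFinite J
  have h1 : q ∈ (Ideal.span (Set.range p)).radical := by
    rw [Ideal.radical_eq_sInf, Ideal.mem_sInf]
    rintro P ⟨h1, h2⟩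
    have h3 := h (Fr (T ⧸ P)) ((algebraMap (T ⧸ P) _).comp (Ideal.Quotient.mk P)) fun j => by
      rw [RingHom.comp_apply, Ideal.Quotient.eq_zero_iff_mem.2 (h1 (Ideal.subset_span ⟨j, rfl⟩)),
        map_zero]
    rwa [RingHom.comp_apply, map_eq_zero_iff _ (IsFractionRing.injective _ _),
      Ideal.Quotient.eq_zero_iff_mem] at h3
  obtain ⟨m, hm⟩ := h1
  obtain ⟨a, ha⟩ := Ideal.mem_span_range_iff_exists_fun.1 hm
  filter_upwards [eventually_all.2 fun j => he (a j)] with v hv p' q' hp hq Ω _ ψ hψ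
  choose a' ha' using hv
  have h2 : ∑ j, a' j * p' j = q' ^ m := hi v (by simp [ha', hp, hq, ha])
  have h3 := congrArg ψ h2
  simp only [map_sum, map_mul, hψ, mul_zero, Finset.sum_const_zero, map_pow] at h3
  exact eq_zero_of_pow_eq_zero h3.symm

section lift

variable {V T : Type} [CommRing T] {𝓕 : Filter V} {S : V → Type} [∀ v, CommRing (S v)]
  {ι : ∀ v, S v →+* T} (he : ∀ t, ∀ᶠ v in 𝓕, t ∈ (ι v).range)

include he

theorem lf_mp {τ : Type} (p : MP τ T) : ∀ᶠ v in 𝓕, p ∈ (map (σ := τ) (ι v)).range := by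
  filter_upwards [(eventually_all_finset p.coeffs).2 fun t _ => he t] with v hv
  exact mem_range_map_iff_coeffs_subset.2 fun t ht => hv t ht

theorem lf_poly (p : T[X]) : ∀ᶠ v in 𝓕, p ∈ (Polynomial.mapRingHom (ι v)).range := by
  filter_upwards [(eventually_all_finset p.support).2 fun i _ => he (p.coeff i)] with v hv
  refine (Polynomial.lifts_iff_coeff_lifts p).2 fun i => ?_
  by_cases h : i ∈ p.support
  · exact hv i h
  · exact ⟨0, by rw [map_zero, Polynomial.notMem_support_iff.1 h]⟩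

theorem lf_mq {τ : Type} (p : (MP τ T)[X]) : ∀ᶠ v in 𝓕, p ∈ (mq (ι := τ) (ι v)).range :=
  lf_poly (ι := fun v => map (σ := τ) (ι v)) (lf_mp he) p

theorem lf_unit (hi : ∀ v, Function.Injective (ι v)) {t : T} (h : IsUnit t) :
    ∀ᶠ v in 𝓕, ∀ s, ι v s = t → IsUnit s := by
  obtain ⟨u, hu⟩ := h.exists_right_inv
  filter_upwards [he u] with v ⟨u', hu'⟩ s hs
  exact IsUnit.of_mul_eq_one u' (hi v (by rw [map_mul, hs, hu', hu, map_one]))

theorem lf_dvd (hi : ∀ v, Function.Injective (ι v)) {a b : T} (h : a ∣ b) :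
    ∀ᶠ v in 𝓕, ∀ a' b', ι v a' = a → ι v b' = b → a' ∣ b' := by
  obtain ⟨u, hu⟩ := h
  filter_upwards [he u] with v ⟨u', hu'⟩ a' b' ha hb
  exact ⟨u', hi v (by rw [map_mul, ha, hb, hu', hu])⟩

theorem lf_bez (hi : ∀ v, Function.Injective (ι v)) {t a b : T} (h : ∃ α β, t = α * a + β * b) :
    ∀ᶠ v in 𝓕, ∀ t' a' b', ι v t' = t → ι v a' = a → ι v b' = b → ∃ α β, t' = α * a' + β * b' := by
  obtain ⟨α, β, h⟩ := h
  filter_upwards [he α, he β] with v ⟨α', hα⟩ ⟨β', hβ⟩ t' a' b' ht ha hb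
  exact ⟨α', β', hi v (by rw [map_add, map_mul, map_mul, ht, ha, hb, hα, hβ, h])⟩

theorem lf_sep (hi : ∀ v, Function.Injective (ι v)) {p : T[X]} (h : p.Separable) :
    ∀ᶠ v in 𝓕, ∀ p' : (S v)[X], p'.map (ι v) = p → p'.Separable := by
  obtain ⟨α, β, h⟩ := h
  filter_upwards [lf_bez (ι := fun v => Polynomial.mapRingHom (ι v)) (lf_poly he)
    (fun v => Polynomial.map_injective _ (hi v)) ⟨α, β, h.symm⟩] with v hv p' hp
  obtain ⟨α', β', h'⟩ := hv 1 p' (Polynomial.derivative p') (map_one _) hp (by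
    rw [Polynomial.coe_mapRingHom, ← Polynomial.derivative_map, hp])
  exact ⟨α', β', h'.symm⟩

/-- the elements of a finite set lift -/
theorem lf_image {G : Set T} (hG : G.Finite) : ∀ᶠ v in 𝓕, ι v '' (ι v ⁻¹' G) = G := by
  filter_upwards [(eventually_all_finite hG).2 fun t _ => he t] with v hv
  exact Set.image_preimage_eq_of_subset fun t ht => hv t ht

end lift

theorem eq_ev {R Ω ι : Type} [CommRing R] [CommRing Ω] (ψ : (MP ι R)[X] →+* Ω) :
    ψ = ev ((ψ.comp Polynomial.C).comp C) (fun i => ψ (Polynomial.C (X i))) (ψ Polynomial.X) := by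
  ext <;> simp

end Pool.Agent.ZCy
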