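import Mathlib

/-! Weak approximation at finite and infinite places of a number field. -/

namespace Pool.Agent.ZCy

open scoped Classical Topology WithZero
open NumberField IsDedekindDomain Filter

variable {k : Type} [Field k] [NumberField k]

omit [NumberField k] in
theorem cw_ball {L : Type} [NormedField L] (f : k →+* L) (hf : DenseRange f) {t : L} {U : Set L}
    (hU : U ∈ 𝓝 t) : ∃ (a : k) (ε : ℝ), 0 < ε ∧ ∀ z, ‖f (z - a)‖ < ε → f z ∈ U := by
  obtain ⟨δ, hδ, h⟩ := Metric.mem_nhds_iff.1 hU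
  obtain ⟨a, ha⟩ := hf.exists_dist_lt t (half_pos hδ)
  refine ⟨a, δ / 2, half_pos hδ, fun z hz => h ?_⟩
  rw [map_sub, ← dist_eq_norm] at hz
  exact dist_triangle_right (f z) t (f a) |>.trans_lt (by linarith)

omit [NumberField k] in
theorem cw_abs {ι : Type} [Finite ι] {A : ι → AbsoluteValue k ℝ} (h : ∀ i, (A i).IsNontrivial)
    (hA : Pairwise fun i j => ¬(A i).IsEquiv (A j)) (a : ι → k) {ε : ι → ℝ} (hε : ∀ i, 0 < ε i) :
    ∃ z, ∀ i, A i (z - a i) < ε i := by
  obtain ⟨z, hz⟩ := (AbsoluteValue.denseRange_algebraMap_pi h hA).exists_mem_open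
    (isOpen_set_pi (s := fun i => Metric.ball (WithAbs.toAbs (A i) (a i)) (ε i)) Set.finite_univ
      fun _ _ => Metric.isOpen_ball) ⟨_, fun i _ => Metric.mem_ball_self (hε i)⟩
  exact ⟨z, fun i => mem_ball_iff_norm.1 (hz i trivial)⟩

theorem cw_lt (v : HeightOneSpectrum (𝓞 k)) (x : 𝓞 k) :
    HeightOneSpectrum.adicAbv k v (algebraMap _ k x) < 1 ↔ x ∈ v.asIdeal := by
  rw [← FinitePlace.norm_embedding, FinitePlace.norm_lt_one_iff_mem]

theorem cw_inf (v : HeightOneSpectrum (𝓞 k)) (w : InfinitePlace k) :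
    ¬(HeightOneSpectrum.adicAbv k v).IsEquiv w.1 := fun h => by
  have := h.le_one_iff.1 (HeightOneSpectrum.adicAbv_natCast_le_one k v 2)
  rw [← InfinitePlace.coe_apply, InfinitePlace.map_natCast] at this
  norm_num at this

/-- Weak approximation: the image of `k` is dense in a finite product of completions. -/
theorem weak_approx_one (S : Finset (HeightOneSpectrum (𝓞 k)))
    (tv : ∀ v : HeightOneSpectrum (𝓞 k), v.adicCompletion k)
    (Uv : ∀ v : HeightOneSpectrum (𝓞 k), Set (v.adicCompletion k))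
    (tw : ∀ w : InfinitePlace k, w.Completion) (Uw : ∀ w : InfinitePlace k, Set w.Completion)
    (hv : ∀ v ∈ S, Uv v ∈ 𝓝 (tv v)) (hw : ∀ w, Uw w ∈ 𝓝 (tw w)) :
    ∃ z : k, (∀ v ∈ S, algebraMap k _ z ∈ Uv v) ∧ ∀ w, algebraMap k _ z ∈ Uw w := by
  choose a ε hε ha using fun v : S =>
    cw_ball (algebraMap k _) (v.1.denseRange_algebraMap k) (hv v v.2)
  choose b δ hδ hb using fun w : InfinitePlace k => cw_ball (algebraMap k w.Completion)
    ((InfinitePlace.Completion.denseRange_coe w).mono (by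
      rintro _ ⟨x, rfl⟩
      exact ⟨x.ofAbs, rfl⟩)) (hw w)
  obtain ⟨z, hz⟩ := cw_abs (ι := S ⊕ InfinitePlace k)
    (A := Sum.elim (fun v => HeightOneSpectrum.adicAbv k v.1) fun w => w.1) (by
      rintro (v | w)
      · obtain ⟨x, hx, h0⟩ := Submodule.exists_mem_ne_zero_of_ne_bot v.1.ne_bot
        exact ⟨algebraMap _ k x, by simpa using h0, ((cw_lt v.1 x).2 hx).ne⟩
      · exact w.isNontrivial) (by
      rintro (v | w) (v' | w') hne h
      · exact hne (congrArg _ (Subtype.ext (HeightOneSpectrum.ext (Ideal.ext fun x =>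
          (cw_lt v.1 x).symm.trans (h.lt_one_iff.trans (cw_lt v'.1 x))))))
      · exact cw_inf _ _ h
      · exact cw_inf _ _ h.symm
      · exact hne (congrArg _ (InfinitePlace.eq_iff_isEquiv.2 h))) (Sum.elim a b)
    (ε := Sum.elim ε δ) (by rintro (v | w); exacts [hε v, hδ w])
  exact ⟨z, fun v h => ha ⟨v, h⟩ z ((FinitePlace.norm_embedding v _).trans_lt (hz (.inl ⟨v, h⟩))),
    fun w => hb w z ((InfinitePlace.Completion.norm_coe w (WithAbs.toAbs _ _)).trans_lt
      (hz (.inr w)))⟩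

/-- The set of approximations is infinite. -/
theorem weak_approx_inf (S : Finset (HeightOneSpectrum (𝓞 k)))
    (tv : ∀ v : HeightOneSpectrum (𝓞 k), v.adicCompletion k)
    (Uv : ∀ v : HeightOneSpectrum (𝓞 k), Set (v.adicCompletion k))
    (tw : ∀ w : InfinitePlace k, w.Completion) (Uw : ∀ w : InfinitePlace k, Set w.Completion)
    (hv : ∀ v ∈ S, Uv v ∈ 𝓝 (tv v)) (hw : ∀ w, Uw w ∈ 𝓝 (tw w)) :
    {z : k | (∀ v ∈ S, algebraMap k _ z ∈ Uv v) ∧ ∀ w, algebraMap k _ z ∈ Uw w}.Infinite := by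
  intro hZ
  obtain ⟨w₀⟩ : Nonempty (InfinitePlace k) := inferInstance
  let : NontriviallyNormedField w₀.Completion := ⟨algebraMap k _ 2, by
    rw [show ‖algebraMap k w₀.Completion 2‖ = w₀ (2 : ℕ) from
      InfinitePlace.Completion.norm_coe w₀ (WithAbs.toAbs _ _), InfinitePlace.map_natCast]
    norm_num⟩
  have hF := hZ.image (algebraMap k w₀.Completion)
  obtain ⟨t, h1, h2⟩ := (infinite_of_mem_nhds _ (interior_mem_nhds.2 (hw w₀))).exists_notMem_finite hF
  obtain ⟨z, h3, h4⟩ := weak_approx_one S tv Uv (Function.update tw w₀ t)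
    (Function.update Uw w₀ (Uw w₀ ∩ (_)ᶜ)) hv fun w => by
      by_cases e : w = w₀
      · subst e
        simp only [Function.update_self]
        exact inter_mem (mem_interior_iff_mem_nhds.1 h1) (hF.isClosed.isOpen_compl.mem_nhds h2)
      · simp only [Function.update_of_ne e, hw]
  have h5 := h4 w₀
  rw [Function.update_self] at h5
  refine h5.2 ⟨z, ⟨h3, fun w => ?_⟩, rfl⟩
  by_cases e : w = w₀
  · exact e ▸ h5.1
  · simpa only [Function.update_of_ne e] using h4 w

/-- a ball for the valuation of `k` comes from a neighbourhood in the completion -/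
theorem exists_nhds_val (v : HeightOneSpectrum (𝓞 k)) (t : k) {γ : ℤᵐ⁰} (hγ : γ ≠ 0) :
    ∃ U ∈ 𝓝 (algebraMap k (v.adicCompletion k) t),
      ∀ z : k, algebraMap k (v.adicCompletion k) z ∈ U → v.valuation k (z - t) < γ := by
  refine ⟨_, Metric.ball_mem_nhds _ (NNReal.coe_pos.2
    (WithZeroMulInt.toNNReal_pos (HeightOneSpectrum.absNorm_ne_zero v) hγ)), fun z hz => ?_⟩
  rw [mem_ball_iff_norm, ← map_sub] at hz
  exact (WithZeroMulInt.toNNReal_strictMono (HeightOneSpectrum.one_lt_absNorm_nnreal v)).lt_iff_lt.1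
    (NNReal.coe_lt_coe.1 ((FinitePlace.norm_embedding' v _).symm.trans_lt hz))

/-- The form used in the sieve: neighbourhoods at `S` and at infinity, balls at `T`. -/
theorem weak_approx_val (S T : Finset (HeightOneSpectrum (𝓞 k))) (hST : Disjoint S T)
    (tv : ∀ v : HeightOneSpectrum (𝓞 k), v.adicCompletion k)
    (Uv : ∀ v : HeightOneSpectrum (𝓞 k), Set (v.adicCompletion k))
    (tw : ∀ w : InfinitePlace k, w.Completion) (Uw : ∀ w : InfinitePlace k, Set w.Completion)
    (hv : ∀ v ∈ S, Uv v ∈ 𝓝 (tv v)) (hw : ∀ w, Uw w ∈ 𝓝 (tw w))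
    (t : HeightOneSpectrum (𝓞 k) → k) (γ : HeightOneSpectrum (𝓞 k) → ℤᵐ⁰) (hγ : ∀ v, γ v ≠ 0) :
    {z : k | (∀ v ∈ S, algebraMap k _ z ∈ Uv v) ∧ (∀ w, algebraMap k _ z ∈ Uw w) ∧
      ∀ v ∈ T, v.valuation k (z - t v) < γ v}.Infinite := by
  choose U hU h using fun v => exists_nhds_val v (t v) (hγ v)
  refine (weak_approx_inf (S ∪ T) (fun v => if v ∈ S then tv v else algebraMap k _ (t v))
    (fun v => if v ∈ S then Uv v else U v) tw Uw (fun v _ => ?_) hw).mono
    fun z hz => ⟨fun v e => ?_, hz.2, fun v e => h v z ?_⟩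
  · split_ifs with e
    exacts [hv v e, hU v]
  · simpa only [if_pos e] using hz.1 v (Finset.mem_union_left _ e)
  · simpa only [if_neg (Finset.disjoint_right.1 hST e)] using hz.1 v (Finset.mem_union_right _ e)

/-- an element of `k` is integral at almost all places -/
theorem ev_val_le_one (z : k) :
    ∀ᶠ v : HeightOneSpectrum (𝓞 k) in cofinite, v.valuation k z ≤ 1 :=
  (HeightOneSpectrum.Support.finite (𝓞 k) z).subset fun v h =>
    (not_le.1 (h : ¬v.valuation k z ≤ 1) : 1 < v.valuation k z)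

end Pool.Agent.ZCy
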