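import Pool.Agent.Lib.MP_751085_ag.ZC.CSp2
import Pool.Agent.Lib.MP_751085_ag.ZC.CW
import Pool.Agent.Lib.MP_751085_ag.ZC.Iface

/-! The certificate `Hv` over the valuation ring of `k` at a finite place. -/

namespace Pool.Agent.ZCy

open scoped Classical Polynomial WithZero
open MvPolynomial Filter NumberField IsDedekindDomain

variable {k : Type} [Field k] [NumberField k] {N : ℕ}

/-- the valuation ring of `k` at `v` -/
noncomputable abbrev Rv (v : HeightOneSpectrum (𝓞 k)) : Subring k := (v.valuation k).integer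

/-- the integral equations among `GG` -/
abbrev GGv (GG : Set (Fm N k)) (v : HeightOneSpectrum (𝓞 k)) : Set (Fm N (Rv v)) :=
  map (Rv v).subtype ⁻¹' GG

theorem ev_Rv (t : k) :
    ∀ᶠ v : HeightOneSpectrum (𝓞 k) in cofinite, t ∈ (Rv v).subtype.range :=
  (ev_val_le_one t).mono fun _ h => ⟨⟨t, h⟩, rfl⟩

/-- a multiple of `f` is integral at `v` and has the certificate `Hv` -/
def Ok (σ : Type) [Fintype σ] (GG : Set (Fm N k)) (v : HeightOneSpectrum (𝓞 k)) (f : Fm N k) :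
    Prop := ∃ (u : k) (f' : Fm N (Rv v)), u ≠ 0 ∧ map (Rv v).subtype f' = C u * f ∧
      Hv σ (GGv GG v) f'

variable {σ : Type} [Fintype σ] {GG : Set (Fm N k)} {v : HeightOneSpectrum (𝓞 k)}

theorem Ok.add {f : Fm N k} (h : Ok σ GG v f) : ∃ γ : ℤᵐ⁰, γ ≠ 0 ∧
    ∀ g : Fm N k, (∀ m, v.valuation k (coeff m g) < γ) → Ok σ GG v (f + g) := by
  obtain ⟨u, f', hu, e, c, Θ, a, b, μ, j₀, n, h1, h2, h3, h4, h5, h6, h7, h8⟩ := h
  have hv : v.valuation k u ≠ 0 := (Valuation.ne_zero_iff _).2 hu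
  refine ⟨(v.valuation k u)⁻¹, inv_ne_zero hv, fun g hg => ?_⟩
  have hl : ∀ m, v.valuation k (coeff m (C u * g)) < 1 := fun m => by
    rw [coeff_C_mul, map_mul, ← mul_inv_cancel₀ hv]
    exact mul_lt_mul_of_pos_left (hg m) (zero_lt_iff.2 hv)
  obtain ⟨g', hg'⟩ : C u * g ∈ Set.range (MvPolynomial.map (Rv v).subtype) :=
    mem_range_map_iff_coeffs_subset.2 fun t ht => by
      obtain ⟨m, -, rfl⟩ := mem_coeffs_iff.1 (Finset.mem_coe.1 ht)
      exact ⟨⟨_, (hl m).le⟩, rfl⟩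
  refine ⟨u, f' + g', hu, by rw [map_add, e, hg', mul_add], c, Θ, a, b, μ, j₀, n, h1, h2, h3, h4,
    h5, h6, h7, fun m => ?_⟩
  rw [add_sub_right_comm, coeff_add]
  refine add_mem (h8 m) (Valuation.Integer.not_isUnit_iff_valuation_lt_one.2 ?_)
  have := hl m
  rwa [← hg', coeff_map] at this

theorem Ok.smul {f : Fm N k} (h : Ok σ GG v f) {c : k} (hc : c ≠ 0) : Ok σ GG v (C c * f) := by
  obtain ⟨u, f', hu, e, h⟩ := h
  refine ⟨u / c, f', div_ne_zero hu hc, ?_, h⟩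
  rw [e, ← mul_assoc, ← C_mul, div_mul_cancel₀ _ hc]

theorem csp3_data {V : Type} {𝓕 : Filter V} {R : V → Subring k}
    (hR : ∀ t, ∀ᶠ v in 𝓕, t ∈ (R v).subtype.range) (hG : GG.Finite) (c : Chart k σ N GG)
    {Θ : MP (Option σ) k} (hr : ∃ r : ℕ, c.br ∣ Θ ^ r) {a b : Option σ → k} (h : GoodLine Θ a b)
    (hb : b ≠ 0) : ∀ᶠ v in 𝓕, ∃ (c' : Chart (R v) σ N (map (R v).subtype ⁻¹' GG))
      (Θ' : MP (Option σ) (R v)) (a' b' : Option σ → R v), c'.IsMap (R v).subtype c ∧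
      IsUnit (c'.δ.factorial : R v) ∧ (∃ r : ℕ, c'.br ∣ Θ' ^ r) ∧ GoodLine Θ' a' b' ∧
      (∃ i, IsUnit (b' i)) ∧ (∀ i, (R v).subtype (a' i) = a i) ∧
      ∀ i, (R v).subtype (b' i) = b i := by
  obtain ⟨r, hr⟩ := hr
  obtain ⟨i, hi⟩ := Function.ne_iff.1 hb
  have inj : ∀ v, Function.Injective (R v).subtype := fun v => (R v).subtype_injective
  have hδ : IsUnit (c.δ.factorial : k) := (Nat.cast_ne_zero.2 (Nat.factorial_ne_zero _)).isUnit
  filter_upwards [Chart.spread hR hG c, lf_mp hR Θ, eventually_all.2 fun i => hR (a i),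
    eventually_all.2 fun i => hR (b i), GoodLine.spread hR h,
    lf_dvd (ι := fun v => MvPolynomial.map (R v).subtype) (lf_mp hR) (csp2_i1 inj _) hr,
    lf_unit hR inj hδ, lf_unit hR inj (Ne.isUnit hi)]
    with v ⟨c', hc⟩ ⟨Θ', hΘ⟩ ha hb' h1 h2 h3 h4
  choose a' ha using ha
  choose b' hb' using hb'
  exact ⟨c', Θ', a', b', hc, h3 _ (by rw [map_natCast, hc.p.δ]),
    ⟨r, h2 _ _ hc.p.br.symm (by rw [map_pow, hΘ])⟩, h1 Θ' a' b' hΘ ha hb', ⟨i, h4 _ (hb' i)⟩, ha, hb'⟩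

omit [NumberField k] in
theorem csp3_hv {O : Type} [CommRing O] [IsLocalRing O] {φ : O →+* k} (inj : Function.Injective φ)
    {GG' : Set (Fm N O)} {c : Chart k σ N GG} {c' : Chart O σ N GG'} {Θ' : MP (Option σ) O}
    {a b : Option σ → k} {a' b' : Option σ → O} (hc : c'.IsMap φ c)
    (h1 : IsUnit (c'.δ.factorial : O)) (h2 : ∃ r : ℕ, c'.br ∣ Θ' ^ r) (h3 : GoodLine Θ' a' b')
    (h4 : ∃ i, IsUnit (b' i)) (ha : ∀ i, φ (a' i) = a i) (hb : ∀ i, φ (b' i) = b i)
    {μ : Option (Option σ) → k} {μ' : Option (Option σ) → O} (hμ : ∀ j, φ (μ' j) = μ j)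
    {j₀ : Option σ} (h6 : μ (some j₀) = 1) (h7 : μ none + ∑ j, μ (some j) * a j = 0)
    (h8 : ∑ j, μ (some j) * b j = 0) (e : ℕ) :
    ∃ f' : Fm N O, map φ f' = C 1 * (c.l0 ^ e * ∑ j, C (μ j) * c.f j) ∧ Hv σ GG' f' := by
  refine ⟨c'.l0 ^ e * ∑ j, C (μ' j) * c'.f j, ?_, c', Θ', a', b', μ', j₀, e, h1, h2, h3, h4, ?_,
    inj ?_, inj ?_, fun m => ?_⟩
  · simp only [map_mul, map_pow, map_sum, map_C, hμ, ← hc.l0, ← hc.f, C_1, one_mul]
  · rw [show μ' (some j₀) = 1 from inj (by rw [hμ, h6, map_one])]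
    exact isUnit_one
  · simpa only [map_add, map_sum, map_mul, hμ, ha, map_zero] using h7
  · simpa only [map_sum, map_mul, hμ, hb, map_zero] using h8
  · rw [sub_self, coeff_zero]
    exact zero_mem _

/-- spreading out of a chart with a good line -/
theorem Chart.ev_ok (hG : GG.Finite) (c : Chart k σ N GG) {Θ : MP (Option σ) k}
    (hr : ∃ r : ℕ, c.br ∣ Θ ^ r) {a b : Option σ → k} (h : GoodLine Θ a b) (hb : b ≠ 0) :
    ∀ᶠ v : HeightOneSpectrum (𝓞 k) in cofinite, ∀ (μ : Option (Option σ) → k) (j₀ : Option σ),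
      (∀ j, v.valuation k (μ j) ≤ 1) → μ (some j₀) = 1 → μ none + ∑ j, μ (some j) * a j = 0 →
      ∑ j, μ (some j) * b j = 0 → ∀ e : ℕ, Ok σ GG v (c.l0 ^ e * ∑ j, C (μ j) * c.f j) := by
  filter_upwards [csp3_data ev_Rv hG c hr h hb] with v ⟨c', Θ', a', b', hc, h1, h2, h3, h4, ha, hb⟩
    μ j₀ h5 h6 h7 h8 e
  obtain ⟨f', e1, e2⟩ := csp3_hv (Rv v).subtype_injective hc h1 h2 h3 h4 ha hb
    (μ' := fun j => ⟨μ j, h5 j⟩) (fun _ => rfl) h6 h7 h8 e
  exact ⟨1, f', one_ne_zero, e1, e2⟩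

/-- the hyperplane section `ξ_i + s + t ξ_j` -/
noncomputable def Chart.hp (c : Chart k σ N GG) (i j : Option σ) (s t : k) : Fm N k :=
  c.f (some i) + C s * c.f none + C t * c.f (some j)

/-- the line `a + τ b` lies in the hyperplane `ξ_i + s + t ξ_j = 0` -/
def In3 {ι : Type} (a b : ι → k) (i j : ι) (s t : k) : Prop :=
  a i + s + t * a j = 0 ∧ b i + t * b j = 0

/-- the coefficients of the hyperplane `ξ_i + s + t ξ_j` -/
noncomputable def csp3_mu {ι : Type} (i j : ι) (s t : k) : Option ι → k :=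
  Pi.single (some i) 1 + Pi.single none s + Pi.single (some j) t

omit [NumberField k] in
theorem csp3_none {ι : Type} (i j : ι) (s t : k) : csp3_mu i j s t none = s := by
  simp [csp3_mu]

omit [NumberField k] in
theorem csp3_self {ι : Type} {i j : ι} (h : i ≠ j) (s t : k) : csp3_mu i j s t (some i) = 1 := by
  simp [csp3_mu, h]

omit [NumberField k] in
theorem csp3_ne {ι : Type} {i j l : ι} (h : l ≠ i) (h' : l ≠ j) (s t : k) :
    csp3_mu i j s t (some l) = 0 := by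
  simp [csp3_mu, h, h']

omit [NumberField k] in
theorem csp3_sum {ι : Type} [Fintype ι] (i j : ι) (s t : k) (a : ι → k) :
    ∑ l, csp3_mu i j s t (some l) * a l = a i + t * a j := by
  simp [csp3_mu, add_mul, Finset.sum_add_distrib, Pi.single_apply]

omit [NumberField k] in
theorem csp3_hp (c : Chart k σ N GG) (i j : Option σ) (s t : k) :
    ∑ l, C (csp3_mu i j s t l) * c.f l = c.hp i j s t := by
  simp only [csp3_mu, Chart.hp, Pi.add_apply, C_add, add_mul, Finset.sum_add_distrib,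
    Pi.single_apply, apply_ite C, C_0, C_1, ite_mul, zero_mul, one_mul, Finset.sum_ite_eq',
    Finset.mem_univ, if_true]

theorem csp3_mem {ι : Type} (i j : ι) {s t : k} (hs : s ∈ Rv v) (ht : t ∈ Rv v) (l : Option ι) :
    csp3_mu i j s t l ∈ Rv v := by
  have e : ∀ (o : Option ι) (x : k), x ∈ Rv v → (Pi.single o x : Option ι → k) l ∈ Rv v :=
    fun o x hx => by
      rw [Pi.single_apply]
      split_ifs
      exacts [hx, zero_mem _]
  exact add_mem (add_mem (e _ _ (one_mem _)) (e _ _ hs)) (e _ _ ht)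

theorem Chart.ev_ok_hp (hG : GG.Finite) (c : Chart k σ N GG) {Θ : MP (Option σ) k}
    (hr : ∃ r : ℕ, c.br ∣ Θ ^ r) {a b : Option σ → k} (h : GoodLine Θ a b) (hb : b ≠ 0)
    {i j : Option σ} (hij : i ≠ j) {s t : k} (h1 : In3 a b i j s t) :
    ∀ᶠ v : HeightOneSpectrum (𝓞 k) in cofinite, ∀ e : ℕ,
      Ok σ GG v (c.l0 ^ e * c.hp i j s t) := by
  filter_upwards [c.ev_ok hG hr h hb, ev_val_le_one s, ev_val_le_one t] with v hv hs ht e
  rw [← csp3_hp]
  refine hv _ i (csp3_mem i j hs ht) (csp3_self hij s t) ?_ ?_ e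
  · rw [csp3_none, csp3_sum, ← h1.1]
    ring
  · rw [csp3_sum, h1.2]

theorem Chart.ev_ok_pencil (hG : GG.Finite) (c : Chart k σ N GG) {Θ : MP (Option σ) k}
    (hr : ∃ r : ℕ, c.br ∣ Θ ^ r) {a b : Option σ → k} (h : GoodLine Θ a b) (hb : b ≠ 0)
    {i i' j : Option σ} (hij : i ≠ j) (hij' : i' ≠ j) (hii : i ≠ i') {s t s' t' : k}
    (h1 : In3 a b i j s t) (h2 : In3 a b i' j s' t') :
    ∀ᶠ v : HeightOneSpectrum (𝓞 k) in cofinite, ∀ l : k,
      Ok σ GG v (c.hp i j s t + C l * c.hp i' j s' t') := by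
  filter_upwards [c.ev_ok hG hr h hb, ev_val_le_one s, ev_val_le_one t, ev_val_le_one s',
    ev_val_le_one t'] with v hv hs ht hs' ht' l
  have key : ∀ α β : k, α ∈ Rv v → β ∈ Rv v → ∀ j₀,
      α * csp3_mu i j s t (some j₀) + β * csp3_mu i' j s' t' (some j₀) = 1 →
      Ok σ GG v (C α * c.hp i j s t + C β * c.hp i' j s' t') := fun α β hα hβ j₀ h0 => by
    have h3 := hv (fun o => α * csp3_mu i j s t o + β * csp3_mu i' j s' t' o) j₀
      (fun o => (add_mem (mul_mem hα (csp3_mem i j hs ht o)) (mul_mem hβ (csp3_mem i' j hs' ht' o)) :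
        _ ∈ Rv v)) h0 (by
        simp only [add_mul, mul_assoc, Finset.sum_add_distrib, ← Finset.mul_sum, csp3_sum,
          csp3_none]
        linear_combination α * h1.1 + β * h2.1) (by
        simp only [add_mul, mul_assoc, Finset.sum_add_distrib, ← Finset.mul_sum, csp3_sum]
        linear_combination α * h1.2 + β * h2.2) 0
    simpa only [pow_zero, one_mul, C_add, C_mul, add_mul, mul_assoc, Finset.sum_add_distrib,
      ← Finset.mul_sum, csp3_hp] using h3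
  by_cases hl : v.valuation k l ≤ 1
  · have h3 := key 1 l (one_mem _) hl i (by
      rw [csp3_self hij, csp3_ne hii hij, mul_zero, add_zero, mul_one])
    rwa [C_1, one_mul] at h3
  · have h0 : l ≠ 0 := fun e => hl (by rw [e, map_zero]; exact zero_le_one)
    have h4 : v.valuation k l⁻¹ ≤ 1 := by
      rw [map_inv₀]
      exact inv_le_one_of_one_le₀ (not_le.1 hl).le
    have h3 := (key l⁻¹ 1 h4 (one_mem _) i' (by
      rw [csp3_self hij', csp3_ne hii.symm hij', mul_zero, zero_add, mul_one])).smul h0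
    rwa [C_1, one_mul, mul_add, ← mul_assoc, ← C_mul, mul_inv_cancel₀ h0, C_1, one_mul] at h3

end Pool.Agent.ZCy
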