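import Pool.Agent.Lib.MP_751085_ag.ZC.CBase
import Pool.Agent.Lib.MP_751085_ag.ZC.CMap

/-! Homogeneous polynomials in `T` and `Z`. -/

namespace Pool.Agent.ZCy

open scoped Classical Polynomial
open MvPolynomial

set_option linter.unusedSectionVars false

variable {R S : Type} [CommRing R] [CommRing S] {ι κ : Type} {m m' : ℕ} {p q : (MP ι R)[X]}

theorem wh_deg (d : ι →₀ ℕ) (i : ℕ) : (d.optionElim i).degree = i + d.degree := by
  have : d.optionElim i = Finsupp.single none i + d.mapDomain some := by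
    ext (_ | a)
    · simp [Finsupp.mapDomain_of_notMem_range]
    · simp [Finsupp.mapDomain_apply (Option.some_injective _)]
  rw [this, map_add, Finsupp.degree_single, Finsupp.degree_mapDomain]

theorem wh_hom_iff {σ : Type} {f : MP σ R} :
    f.IsHomogeneous m ↔ ∀ d, coeff d f ≠ 0 → d.degree = m := by
  rw [Finsupp.degree_eq_weight_one]
  exact Iff.rfl

theorem wh_coeff (p : (MP ι R)[X]) (i : ℕ) (d : ι →₀ ℕ) :
    coeff d (p.coeff i) = coeff (d.optionElim i) ((optionEquivLeft R ι).symm p) := by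
  rw [← optionEquivLeft_coeff_coeff, AlgEquiv.apply_symm_apply]

theorem wh_iff : WH m p ↔ ∀ i d, coeff d (p.coeff i) ≠ 0 → i + d.degree = m := by
  rw [WH, wh_hom_iff]
  refine ⟨fun h i d hd => ?_, fun h d hd => ?_⟩
  · rw [← wh_deg]
    exact h _ (by rwa [← wh_coeff])
  · rw [← Finsupp.optionElim_some d] at hd ⊢
    rw [wh_deg]
    exact h _ _ (by rwa [wh_coeff])

theorem wh_ev (φ : R →+* S) (y : ι → S) (z : S) (p : (MP ι R)[X]) :
    ev φ y z p = eval₂ φ (fun o : Option ι => o.elim z y) ((optionEquivLeft R ι).symm p) := by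
  rw [eval₂_tp, tp, AlgEquiv.apply_symm_apply]
  rfl

theorem wh_eval₂_smul {σ : Type} {f : MP σ R} (hf : f.IsHomogeneous m) (φ : R →+* S) (c : S)
    (y : σ → S) : eval₂ φ (fun i => c * y i) f = c ^ m * eval₂ φ y f := by
  rw [eval₂_eq, eval₂_eq, Finset.mul_sum]
  refine Finset.sum_congr rfl fun d hd => ?_
  rw [← wh_hom_iff.1 hf d (mem_support_iff.1 hd), Finsupp.degree_apply,
    ← Finset.prod_pow_eq_pow_sum, mul_left_comm, ← Finset.prod_mul_distrib]
  simp only [mul_pow]

theorem WH.zero : WH m (0 : (MP ι R)[X]) := by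
  rw [WH, map_zero]
  exact isHomogeneous_zero _ _ _

theorem WH.one : WH 0 (1 : (MP ι R)[X]) := by
  rw [WH, map_one]
  exact isHomogeneous_one _ _

theorem WH.add (hp : WH m p) (hq : WH m q) : WH m (p + q) := by
  rw [WH, map_add]
  exact IsHomogeneous.add hp hq

theorem WH.sub (hp : WH m p) (hq : WH m q) : WH m (p - q) := by
  rw [WH, map_sub]
  exact IsHomogeneous.sub hp hq

theorem WH.mul (hp : WH m p) (hq : WH m' q) : WH (m + m') (p * q) := by
  rw [WH, map_mul]
  exact IsHomogeneous.mul hp hq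

theorem WH.pow (hp : WH m p) (e : ℕ) : WH (m * e) (p ^ e) := by
  rw [WH, map_pow]
  exact IsHomogeneous.pow hp e

theorem WH.X : WH 1 (Polynomial.X : (MP ι R)[X]) := by
  rw [WH, optionEquivLeft_symm_X]
  exact isHomogeneous_X _ _

theorem WH.C {a : MP ι R} (h : a.IsHomogeneous m) : WH m (Polynomial.C a) := by
  rw [WH, ← tp_up, tp, AlgEquiv.symm_apply_apply]
  exact h.rename_isHomogeneous

theorem WH.coeff (hp : WH m p) (i : ℕ) : (p.coeff i).IsHomogeneous (m - i) :=
  wh_hom_iff.2 fun d hd => by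
    have := wh_iff.1 hp i d hd
    omega

theorem WH.natDegree_le (hp : WH m p) : p.natDegree ≤ m :=
  Polynomial.natDegree_le_iff_coeff_eq_zero.2 fun i hi => MvPolynomial.ext _ _ fun d => by
    by_contra hd
    have := wh_iff.1 hp i d hd
    omega

theorem WH.of_coeff (h1 : p.natDegree ≤ m) (h2 : ∀ i ≤ m, (p.coeff i).IsHomogeneous (m - i)) :
    WH m p :=
  wh_iff.2 fun i d hd => by
    have hi : i ≤ m := (Polynomial.le_natDegree_of_ne_zero fun h => hd (by
      rw [h, coeff_zero])).trans h1
    have := wh_hom_iff.1 (h2 i hi) d hd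
    omega

theorem WH.derivative (hp : WH m p) : WH (m - 1) (Polynomial.derivative p) := by
  refine WH.of_coeff ((Polynomial.natDegree_derivative_le p).trans
    (Nat.sub_le_sub_right hp.natDegree_le 1)) fun i _ => ?_
  have h1 : ((i : MP ι R) + 1).IsHomogeneous 0 := by
    have := isHomogeneous_C ι ((i : R) + 1)
    rwa [map_add, map_natCast, map_one] at this
  have h2 := (hp.coeff (i + 1)).mul h1
  rw [Polynomial.coeff_derivative, show m - 1 - i = m - (i + 1) + 0 by omega]
  exact h2

theorem WH.sb {N e : ℕ} {pp : Fin (N + 1) → (MP ι R)[X]} (h : ∀ j, WH m (pp j)) {E : Fm N R}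
    (hE : E.IsHomogeneous e) : WH (m * e) (sb pp E) := by
  have e : (optionEquivLeft R ι).symm (ZCy.sb pp E) =
      eval₂ MvPolynomial.C (fun j => (optionEquivLeft R ι).symm (pp j)) E := by
    have : ((optionEquivLeft R ι).symm : (MP ι R)[X] →+* MP (Option ι) R).comp (ZCy.sb pp) =
        eval₂Hom MvPolynomial.C fun j => (optionEquivLeft R ι).symm (pp j) := by
      ext : 1
      · ext : 1; simp [ZCy.sb]
      · simp [ZCy.sb]
    exact DFunLike.congr_fun this E
  rw [WH, e]
  exact hE.eval₂ _ _ (isHomogeneous_C _) h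

theorem WH.ev_smul (hp : WH m p) (φ : R →+* S) (c : S) (y : ι → S) (z : S) :
    ev φ (c • y) (c * z) p = c ^ m * ev φ y z p := by
  rw [wh_ev, wh_ev, ← wh_eval₂_smul hp]
  refine congrArg (fun ξ => eval₂ φ ξ _) (funext fun o => ?_)
  cases o <;> rfl

/-- substitution of forms of degree `d` -/
theorem WH.ev_hom (hp : WH m p) {d : ℕ} {f : ι → MP κ R} {e : MP κ R}
    (hf : ∀ i, (f i).IsHomogeneous d) (he : e.IsHomogeneous d) :
    (ev MvPolynomial.C f e p).IsHomogeneous (d * m) := by
  rw [wh_ev]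
  refine IsHomogeneous.eval₂ hp _ _ (isHomogeneous_C _) fun o => ?_
  cases o
  exacts [he, hf _]

/-- a map of the coefficients that keeps the degrees -/
theorem WH.map (hp : WH m p) (h : MP ι R →+* MP κ S)
    (hh : ∀ (a : MP ι R) (r : ℕ), a.IsHomogeneous r → (h a).IsHomogeneous r) : WH m (p.map h) :=
  WH.of_coeff (Polynomial.natDegree_map_le.trans hp.natDegree_le) fun i _ => by
    rw [Polynomial.coeff_map]
    exact hh _ _ (hp.coeff i)

/-- the part of degree `m` -/
noncomputable def whc (m : ℕ) (p : (MP ι R)[X]) : (MP ι R)[X] :=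
  tp (homogeneousComponent m ((optionEquivLeft R ι).symm p))

theorem wh_whc (m : ℕ) (p : (MP ι R)[X]) : WH m (whc m p) := by
  rw [WH, whc, tp, AlgEquiv.symm_apply_apply]
  exact homogeneousComponent_isHomogeneous _ _

theorem coeff_whc (m : ℕ) (p : (MP ι R)[X]) {i : ℕ} (h : i ≤ m) :
    (whc m p).coeff i = homogeneousComponent (m - i) (p.coeff i) := by
  ext d
  rw [whc, tp, optionEquivLeft_coeff_coeff, coeff_homogeneousComponent, coeff_homogeneousComponent,
    wh_deg, wh_coeff]
  exact if_congr (by omega) rfl rfl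

theorem Monic_whc [Nontrivial R] (hp : p.Monic) :
    (whc p.natDegree p).Monic ∧ (whc p.natDegree p).natDegree = p.natDegree := by
  have h1 : (whc p.natDegree p).coeff p.natDegree = 1 := by
    rw [coeff_whc _ _ le_rfl, hp.coeff_natDegree, Nat.sub_self]
    exact homogeneousComponent_eq_self (isHomogeneous_one _ _)
  have h2 := (wh_whc p.natDegree p).natDegree_le
  exact ⟨Polynomial.monic_of_natDegree_le_of_coeff_eq_one _ h2 h1,
    Polynomial.natDegree_eq_of_le_of_coeff_ne_zero h2 (h1 ▸ one_ne_zero)⟩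

/-- components commute with the substitution of forms of degree `d > 0` -/
theorem comp_aeval_hom {d : ℕ} (hd : 0 < d) {e : ι → MP κ R} (he : ∀ i, (e i).IsHomogeneous d)
    (Q : MP ι R) (r : ℕ) :
    homogeneousComponent (d * r) (aeval e Q) = aeval e (homogeneousComponent r Q) := by
  induction Q using MvPolynomial.induction_on' with
  | monomial s c =>
    have h1 : (monomial s c : MP ι R).IsHomogeneous s.degree := isHomogeneous_monomial c rfl
    rw [homogeneousComponent_of_mem h1, homogeneousComponent_of_mem (h1.aeval e he)]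
    by_cases h : r = s.degree
    · rw [if_pos h, if_pos (by rw [h])]
    · rw [if_neg h, if_neg fun h' => h (Nat.eq_of_mul_eq_mul_left hd h'), map_zero]
  | add a b ha hb => simp only [map_add, ha, hb]

theorem comp_ev_hom {d : ℕ} (hd : 0 < d) {f : ι → MP κ R} {e : MP κ R}
    (hf : ∀ i, (f i).IsHomogeneous d) (he : e.IsHomogeneous d) (p : (MP ι R)[X]) (r : ℕ) :
    homogeneousComponent (d * r) (ev MvPolynomial.C f e p) = ev MvPolynomial.C f e (whc r p) := by
  rw [wh_ev, wh_ev, whc, tp, AlgEquiv.symm_apply_apply]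
  refine comp_aeval_hom hd (e := fun o : Option ι => o.elim e f) (fun o => ?_) _ r
  cases o
  exacts [he, hf _]

theorem ev_derivative (φ : R →+* S) (y : ι → S) (z : S) (p : (MP ι R)[X]) :
    ev φ y z (Polynomial.derivative p) =
      (Polynomial.derivative (p.map (eval₂Hom φ y))).eval z := by
  rw [ev_eq_eval, Polynomial.derivative_map]

end Pool.Agent.ZCy
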