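import Pool.Agent.Lib.MP_751085_ag.ZC.CY2

/-! Every point of the section `f_1 = 0` lies in the closure of the restricted chart. -/

namespace Pool.Agent.ZCy

open scoped Classical Polynomial
open MvPolynomial

variable {k : Type} [Field k] {σ : Type} [Fintype σ] (X : Var k)

theorem cy3_zero {ι : Type} {P : MP ι k} (h : ∀ y : ι → AlgebraicClosure k, aeval y P = 0) :
    P = 0 := by
  apply map_injective (algebraMap k (AlgebraicClosure k)) (RingHom.injective _)
  refine MvPolynomial.funext fun y => ?_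
  rw [map_zero, map_zero, eval_map]
  exact h y

omit [Fintype σ] in
theorem cy3_pt (c : Chart k σ X.N (X.IK k)) {Ω : Type} [Field Ω] [IsAlgClosed Ω] [Algebra k Ω]
    {t : Ω} (ht : t ≠ 0) {ξ : Option σ → Ω} (hD : aeval ξ c.D ≠ 0) :
    ∃ x : Fin (X.N + 1) → Ω, X.Zr x ∧ ∀ i, aeval x (c.f i) = i.elim t fun j => t * ξ j := by
  obtain ⟨θ, hθ⟩ := IsAlgClosed.exists_root (c.χ.map (eval₂Hom (algebraMap k Ω) ξ)) (by
    rw [c.monic.degree_map, Polynomial.degree_eq_natDegree c.monic.ne_zero, c.deg]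
    exact_mod_cast c.pos.ne')
  have r : ev (algebraMap k Ω) ξ θ c.χ = 0 := (ev_eq_eval _ _ _ _).trans hθ
  have dv : ∀ p, c.χ ∣ p → ev (algebraMap k Ω) ξ θ p = 0 := fun p hp => by
    simpa only [r, zero_dvd_iff] using map_dvd (ev (algebraMap k Ω) ξ θ) hp
  have hx : X.Zr (c.pv (algebraMap k Ω) ξ θ) := (Var.zer_IK (K := k) _ fun _ => rfl).1
    fun G hG => (ev_sb _ _ _ _ _).symm.trans (dv _ (c.dv_on G hG))
  have h0 : aeval (c.pv (algebraMap k Ω) ξ θ) (c.f none) ≠ 0 := fun e =>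
    (c.ne Ω _ ξ θ r hD).1 ((ev_sb _ _ _ _ _).trans e)
  obtain ⟨u, hu⟩ := IsAlgClosed.exists_pow_nat_eq
    (t / aeval (c.pv (algebraMap k Ω) ξ θ) (c.f none)) c.dpos
  refine ⟨u • c.pv (algebraMap k Ω) ξ θ, hx.smul u, fun i => ?_⟩
  rw [aeval_smul_hom (c.hf i), hu]
  cases i with
  | none => exact div_mul_cancel₀ _ h0
  | some j =>
    have e := dv _ (c.dv_f j)
    rw [map_sub, map_mul, ev_sb, ev_sb, ev_C, eval₂_X, sub_eq_zero] at e
    have e' : aeval (c.pv (algebraMap k Ω) ξ θ) (c.f (some j)) =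
      ξ j * aeval (c.pv (algebraMap k Ω) ξ θ) (c.f none) := e
    rw [e', Option.elim_some]
    field_simp

/-- The forms of a chart are algebraically independent on the cone over `X`. Let `Ω` be an
algebraic closure of `RF (Option (Option σ)) k`, `T i` the variables, `ξ i = T (some i) / T none`
(independent, so `D(ξ) ≠ 0` by `D_ne_zero`), `θ` a root of `χ(ξ, Z)` (monic, `δ > 0`),
`x = c.pv _ ξ θ`, a zero of `X.I` by `dv_on`, with `f_0(x) ≠ 0` (`c.ne`) and `f_i(x) = ξ i f_0(x)`.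
Scale `x` by a `d`-th root of `T none / f_0(x)`: then `f_i(x) = T i`, and
`Var.Zr.aeval_eq_zero` gives `P(T) = 0`. -/
theorem Chart.indep (c : Chart k σ X.N (X.IK k)) (P : MP (Option (Option σ)) k)
    (h : scl k X.g (aeval c.f P) = 0) : P = 0 := by
  have h1 : (MvPolynomial.X none * up c.D) * aeval (fun i : Option (Option σ) => i.elim
      (MvPolynomial.X none) fun j => MvPolynomial.X none * MvPolynomial.X (some j)) P = 0 := by
    refine cy3_zero fun y => ?_
    rw [map_mul, map_mul, aeval_X, aeval_rename]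
    by_cases h0 : y none = 0
    · rw [h0, zero_mul, zero_mul]
    by_cases hD : aeval (y ∘ some) c.D = 0
    · rw [hD, mul_zero, zero_mul]
    obtain ⟨x, hx, e⟩ := cy3_pt X c h0 hD
    have h2 := hx.aeval_eq_zero h
    rw [comp_aeval_apply] at h2 ⊢
    refine mul_eq_zero_of_right _ (Eq.trans (congrArg (fun t => aeval t P) (funext fun i => ?_)) h2)
    rw [e]
    cases i <;> simp
  have h2 := (mul_eq_zero.1 h1).resolve_left (mul_ne_zero (X_ne_zero _)
    ((map_ne_zero_iff _ (rename_injective _ (Option.some_injective _))).2 c.D_ne_zero))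
  have h3 : MvPolynomial.X none * P = 0 := by
    refine cy3_zero fun y => ?_
    rw [map_mul, aeval_X]
    by_cases h0 : y none = 0
    · rw [h0, zero_mul]
    have h4 := congrArg (aeval fun i : Option (Option σ) => i.elim (y none) fun j =>
      y (some j) / y none) h2
    rw [comp_aeval_apply, map_zero] at h4
    refine mul_eq_zero_of_right _ (Eq.trans (congrArg (fun t => aeval t P) (funext fun i => ?_)) h4)
    cases i
    · simp
    · simp [mul_div_cancel₀ _ h0]
  exact (mul_eq_zero.1 h3).resolve_left (X_ne_zero _)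

theorem cy3_gen {ι : Type} (q : Ideal (MP ι k)) [q.IsPrime] : ∃ (M : Type) (_ : Field M)
    (_ : Algebra k M) (z : ι → M), ∀ G : MP ι k, aeval z G = 0 ↔ G ∈ q := by
  let ψ : MP ι k →ₐ[k] Fr (MP ι k ⧸ q) :=
    (IsScalarTower.toAlgHom k (MP ι k ⧸ q) _).comp (Ideal.Quotient.mkₐ k q)
  refine ⟨Fr (MP ι k ⧸ q), inferInstance, inferInstance, ψ ∘ MvPolynomial.X, fun G => ?_⟩
  rw [← aeval_unique ψ, ← Ideal.Quotient.eq_zero_iff_mem]
  exact map_eq_zero_iff _ (IsFractionRing.injective (MP ι k ⧸ q) (Fr (MP ι k ⧸ q)))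

theorem cy3_gd {A ι : Type} [CommRing A] [IsDomain A] [IsIntegrallyClosed A] [Algebra k A]
    (f : A →ₐ[k] MP ι k) (p₀ p : Ideal (MP ι k)) [p₀.IsPrime] [p.IsPrime]
    (hi : ∀ a, f a ∈ p₀ → a = 0) {d : ℕ} (hd : 0 < d)
    (hint : ∀ j, ∃ H : A[X], H.Monic ∧ H.eval₂ f.toRingHom (MvPolynomial.X j ^ d) ∈ p₀)
    (h : p₀ ≤ p) {π : A} (hπ : Prime π) (hp : f π ∈ p) :
    ∃ q : Ideal (MP ι k), q.IsPrime ∧ p₀ ≤ q ∧ q ≤ p ∧ ∀ a, f a ∈ q ↔ π ∣ a := by
  let _ : Algebra A (MP ι k ⧸ p₀) := ((Ideal.Quotient.mk p₀).comp f.toRingHom).toAlgebra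
  have ea : ∀ a, algebraMap A (MP ι k ⧸ p₀) a = Ideal.Quotient.mk p₀ (f a) := fun _ => rfl
  have : FaithfulSMul A (MP ι k ⧸ p₀) := (faithfulSMul_iff_algebraMap_injective _ _).2
    ((injective_iff_map_eq_zero _).2 fun a ha => hi a (Ideal.Quotient.eq_zero_iff_mem.1 ha))
  have : Algebra.IsIntegral A (MP ι k ⧸ p₀) := ⟨fun b => by
    obtain ⟨G, rfl⟩ := Ideal.Quotient.mk_surjective b
    induction G using MvPolynomial.induction_on with
    | C a =>
      rw [← algebraMap_eq, ← f.commutes, ← ea]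
      exact isIntegral_algebraMap
    | add p q hp hq => exact (map_add (Ideal.Quotient.mk p₀) p q).symm ▸ hp.add hq
    | mul_X p j hp =>
      rw [map_mul]
      obtain ⟨H, hm, hH⟩ := hint j
      refine hp.mul (IsIntegral.of_pow hd ⟨H, hm, ?_⟩)
      rw [← map_pow]
      exact (Polynomial.hom_eval₂ H f.toRingHom (Ideal.Quotient.mk p₀) _).symm.trans
        (Ideal.Quotient.eq_zero_iff_mem.2 hH)⟩
  have q1 : (p.map (Ideal.Quotient.mk p₀)).IsPrime :=
    Ideal.map_isPrime_of_surjective Ideal.Quotient.mk_surjective (by rwa [Ideal.mk_ker])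
  have q2 : (Ideal.span {π}).IsPrime := (Ideal.span_singleton_prime hπ.ne_zero).2 hπ
  obtain ⟨q, h1, h2, h3⟩ := Ideal.exists_ideal_le_liesOver_of_le (p := Ideal.span {π})
    (q := (p.map (Ideal.Quotient.mk p₀)).under A) (p.map (Ideal.Quotient.mk p₀))
    ((Ideal.span_singleton_le_iff_mem _).2 (Ideal.mem_map_of_mem _ hp))
  refine ⟨q.comap (Ideal.Quotient.mk p₀), inferInstance, fun G hG => ?_, fun G hG => ?_,
    fun a => ?_⟩
  · rw [Ideal.mem_comap, Ideal.Quotient.eq_zero_iff_mem.2 hG]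
    exact q.zero_mem
  · exact (Ideal.mem_quotient_iff_mem h).1 (h1 hG)
  · rw [← Ideal.mem_span_singleton, h3.over]
    rfl

/-- Going down. `𝔓 = ker (scl k X.g)` is prime, `B = Fm N k ⧸ 𝔓`, `A = MP (Option (Option ι)) k`
acts by `T i ↦ f i`, faithfully by `indep`; `B` is integral over `A` (`c.int` at the point of
`Frac B` given by the classes of the variables; `IsIntegral.of_pow`). The kernel `𝔭` of
`B → M`, `y ↦ x`, lies over a prime that contains the prime element `X i₁`, so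
`Ideal.exists_ideal_le_liesOver_of_le` gives a prime `𝔮 ≤ 𝔭` over `span {X i₁}`. Take
`M' = Frac (B ⧸ 𝔮)`. -/
theorem Chart.exists_generisation (c : Chart k σ X.N (X.IK k)) (i₁ : Option (Option σ))
    {M : Type} [Field M] [Algebra k M] {x : Fin (X.N + 1) → M} (hx : X.Zr x)
    (hf : aeval x (c.f i₁) = 0) :
    ∃ (M' : Type) (_ : Field M') (_ : Algebra k M') (z : Fin (X.N + 1) → M'), X.Zr z ∧
      (∀ P : MP (Option (Option σ)) k, aeval (fun i => aeval z (c.f i)) P = 0 ↔ MvPolynomial.X i₁ ∣ P) ∧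
      ∀ G : Fm X.N k, aeval z G = 0 → aeval x G = 0 := by
  have p1 : (RingHom.ker (scl k X.g)).IsPrime := RingHom.ker_isPrime _
  have p2 : (RingHom.ker (aeval x : Fm X.N k →ₐ[k] M)).IsPrime := RingHom.ker_isPrime _
  have hI : ∀ G ∈ X.I, G ∈ RingHom.ker (scl k X.g) := by
    rintro G ⟨⟨m, hm⟩, hG⟩
    rw [RingHom.mem_ker, scl_hom hm, hG, map_zero]
  obtain ⟨Ω, _, _, w, hw⟩ := cy3_gen (RingHom.ker (scl k X.g))
  have hz : Zer (X.IK k) (algebraMap k Ω) w :=
    (Var.zer_IK _ fun _ => rfl).2 fun G hG => (hw G).2 (hI G hG)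
  obtain ⟨q, _, h1, h2, h3⟩ := cy3_gd (aeval c.f) (RingHom.ker (scl k X.g))
    (RingHom.ker (aeval x : Fm X.N k →ₐ[k] M)) (fun a ha => c.indep X a ha) c.dpos (fun j => by
      obtain ⟨m, H, hm, -, -, hH⟩ := c.int j
      refine ⟨H, hm, (hw _).1 ?_⟩
      rw [← hH Ω _ w hz, ev_def]
      refine (Polynomial.hom_eval₂ H _ (aeval w : Fm X.N k →ₐ[k] Ω).toRingHom _).trans ?_
      congr 1
      · ext <;> simp [aeval_def]
      · simp) (fun G hG => hx.aeval_eq_zero hG) (π := MvPolynomial.X i₁) X_prime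
    (by rw [RingHom.mem_ker, aeval_X, hf])
  obtain ⟨M', _, _, z, hq⟩ := cy3_gen q
  refine ⟨M', inferInstance, inferInstance, z, fun G hG => (hq G).2 (h1 (hI G hG)), fun P => ?_,
    fun G hG => h2 ((hq G).1 hG)⟩
  rw [← h3, ← hq, comp_aeval_apply]

theorem cy3_hmg {ι : Type} (D : MP ι k) : ∃ (E : ℕ) (P : MP (Option ι) k), deh P = D ∧
    ∀ (Ω : Type) [Field Ω] [Algebra k Ω] (T : Option ι → Ω), T none ≠ 0 →
      aeval T P = T none ^ E * aeval (fun i => T (some i) / T none) D := by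
  induction D using MvPolynomial.induction_on with
  | C a => exact ⟨0, C a, by simp [deh], fun _ _ _ _ _ => by simp⟩
  | add p q hp hq =>
    obtain ⟨E, P, e, h⟩ := hp
    obtain ⟨E', P', e', h'⟩ := hq
    refine ⟨E + E', P * MvPolynomial.X none ^ E' + P' * MvPolynomial.X none ^ E, ?_,
      fun Ω _ _ T hT => ?_⟩
    · rw [map_add, map_mul, map_mul, e, e']
      simp [deh]
    · simp only [map_add, map_mul, map_pow, aeval_X, h Ω T hT, h' Ω T hT]
      ring
  | mul_X p i hp =>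
    obtain ⟨E, P, e, h⟩ := hp
    refine ⟨E + 1, P * MvPolynomial.X (some i), ?_, fun Ω _ _ T hT => ?_⟩
    · rw [map_mul, e]
      simp [deh]
    · simp only [map_mul, aeval_X, h Ω T hT]
      field_simp
      ring

/-- Take `z` from `exists_generisation` with `i₁ = some (some none)`. Then `f_0(z) ≠ 0`,
`ξ = c.xi _ z` has `ξ (some none) = 0`, and `D(ξ) ≠ 0`: the sum of the
`T_0 ^ (E - m) * rename some (homogeneousComponent m D)` vanishes at `f(z)` if `D(ξ) = 0`, so is
divisible by `X i₁`; put `T_0 = 1`, `ξ_1 = 0` to get `hyp D = 0`. By `c.fro`, `pv = u • z` with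
`u ≠ 0` (`c.ne`), and `G(pv) = 0` by `ev_hyp`, `ev_sb`. -/
theorem Chart.sec (c : Chart k (Option σ) X.N (X.IK k)) (hD : hyp c.D ≠ 0) {G : Fm X.N k}
    (hG : G ∈ chJ (c.χ.map hyp) fun j => (c.pp j).map hyp) {M : Type} [Field M] [Algebra k M]
    {x : Fin (X.N + 1) → M} (hx : X.Zr x) (hf : aeval x (c.f (some (some none))) = 0) :
    aeval x G = 0 := by
  obtain ⟨M', _, _, z, hz, h1, h2⟩ := c.exists_generisation X (some (some none)) hx hf
  obtain ⟨⟨m, hm⟩, hG⟩ := hG
  have h0 : eval₂ (algebraMap k M') z (c.f none) ≠ 0 := fun e => by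
    have := (h1 (MvPolynomial.X none)).1 (by rw [aeval_X]; exact e)
    simp at this
  have hξ : ext0 (fun i => c.xi (algebraMap k M') z (skip i)) = c.xi (algebraMap k M') z := by
    funext i
    rcases i with _ | _ | i
    · rfl
    · have := (h1 _).2 dvd_rfl
      rw [aeval_X, aeval_def] at this
      rw [Chart.xi, this, zero_div]
      rfl
    · rfl
  have hD' : eval₂ (algebraMap k M') (c.xi (algebraMap k M') z) c.D ≠ 0 := fun e => by
    obtain ⟨E, P, e1, e2⟩ := cy3_hmg c.D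
    have e3 := e2 M' (fun i => aeval z (c.f i)) h0
    obtain ⟨Q, rfl⟩ := (h1 P).1 (e3.trans (mul_eq_zero_of_right _ e))
    apply hD
    rw [← e1, map_mul, map_mul]
    simp [deh, hyp]
  obtain ⟨r, hu⟩ := c.fro M' (algebraMap k M') z (c.xi _ z) (c.tht _ z)
    ((Var.zer_IK _ fun _ => rfl).2 hz) h0 (fun i => (div_mul_cancel₀ _ h0).symm)
    (div_mul_cancel₀ _ h0).symm
  obtain ⟨u, hu⟩ := hu hD'
  have hu' : (fun j => ev (algebraMap k M') (c.xi (algebraMap k M') z)
      (c.tht (algebraMap k M') z) (c.pp j)) = u • z := funext hu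
  have u0 : u ≠ 0 := fun e => by
    have := (c.ne M' _ _ _ r hD').1
    rw [ev_sb, hu', eval₂_smul_hom (c.hf none), e, zero_pow c.dpos.ne', zero_mul] at this
    exact this rfl
  have e := map_dvd (ev (algebraMap k M') (fun i => c.xi (algebraMap k M') z (skip i))
    (c.tht (algebraMap k M') z)) hG
  rw [ev_hyp, hξ, r, zero_dvd_iff, ev_sb] at e
  simp only [ev_hyp, hξ] at e
  rw [hu', eval₂_smul_hom hm] at e
  exact h2 G ((mul_eq_zero.1 e).resolve_left (pow_ne_zero _ u0))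

end Pool.Agent.ZCy
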