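import Mathlib

/-! Brauer groups, zero-cycles and the statement (ZC). -/

namespace Pool.Agent.ZCy

open scoped Classical IntermediateField
open NumberField IsDedekindDomain

section brauer

variable (K Ω : Type) [Field K] [Field Ω] [Algebra K Ω]

/-- the cochain depends only on the action on a finite subset of `Ω` -/
def LocConst {A : Type} (n : ℕ) (c : (Fin n → (Ω ≃ₐ[K] Ω)) → A) : Prop :=
  ∃ s : Finset Ω, ∀ g h, (∀ i, ∀ x ∈ s, g i x = h i x) → c g = c h

/-- continuous 2-cocycles of the Galois group with values in `Ωˣ` -/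
def Z2 : Subgroup ((Ω ≃ₐ[K] Ω) × (Ω ≃ₐ[K] Ω) → Ωˣ) where
  carrier := {c | groupCohomology.IsMulCocycle₂ c ∧ LocConst K Ω 2 fun g => c (g 0, g 1)}
  one_mem' := ⟨fun g h j => by simp, ∅, fun _ _ _ => rfl⟩
  mul_mem' := by
    rintro a b ⟨ha, s, hs⟩ ⟨hb, t, ht⟩
    refine ⟨fun g h j => ?_, s ∪ t, fun g h e => ?_⟩
    · simp only [Pi.mul_apply, smul_mul']
      rw [mul_mul_mul_comm, ha g h j, hb g h j, mul_mul_mul_comm]
    · have h1 := hs g h fun i x hx => e i x (Finset.mem_union_left _ hx)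
      have h2 := ht g h fun i x hx => e i x (Finset.mem_union_right _ hx)
      simp only [Pi.mul_apply] at h1 h2 ⊢
      rw [h1, h2]
  inv_mem' := by
    rintro a ⟨ha, s, hs⟩
    refine ⟨fun g h j => ?_, s, fun g h e => ?_⟩
    · simp only [Pi.inv_apply, smul_inv']
      rw [← mul_inv, ha g h j, mul_inv]
    · have h1 := hs g h e
      simp only [Pi.inv_apply] at h1 ⊢
      rw [h1]

/-- coboundaries of continuous 1-cochains -/
def B2 : Subgroup ((Ω ≃ₐ[K] Ω) × (Ω ≃ₐ[K] Ω) → Ωˣ) where
  carrier := {c | ∃ e : (Ω ≃ₐ[K] Ω) → Ωˣ, LocConst K Ω 1 (fun g => e (g 0)) ∧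
    ∀ g h, c (g, h) = g • e h / e (g * h) * e g}
  one_mem' := ⟨1, ⟨∅, fun _ _ _ => rfl⟩, fun g h => by simp⟩
  mul_mem' := by
    rintro a b ⟨e, ⟨s, hs⟩, he⟩ ⟨f, ⟨t, ht⟩, hf⟩
    refine ⟨e * f, ⟨s ∪ t, fun g h u => ?_⟩, fun g h => ?_⟩
    · have h1 := hs g h fun i x hx => u i x (Finset.mem_union_left _ hx)
      have h2 := ht g h fun i x hx => u i x (Finset.mem_union_right _ hx)
      simp only [Pi.mul_apply] at h1 h2 ⊢
      rw [h1, h2]
    · simp only [Pi.mul_apply, he, hf, smul_mul', div_eq_mul_inv, mul_inv]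
      ac_rfl
  inv_mem' := by
    rintro a ⟨e, ⟨s, hs⟩, he⟩
    refine ⟨e⁻¹, ⟨s, fun g h u => ?_⟩, fun g h => ?_⟩
    · have h1 := hs g h u
      simp only [Pi.inv_apply] at h1 ⊢
      rw [h1]
    · simp only [Pi.inv_apply, he, smul_inv', div_eq_mul_inv, mul_inv]

/-- `H²(Gal(Ω/K), Ωˣ)`, the Brauer group of `K` when `Ω` is an algebraic closure of `K` -/
abbrev Br : Type := Additive (Z2 K Ω ⧸ (B2 K Ω).subgroupOf (Z2 K Ω))

/-- the group structure of the quotient -/
@[reducible] noncomputable def brGroup : AddCommGroup (Br K Ω) := inferInstance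

/-- the underlying structures -/
@[reducible] noncomputable def brMonoid : AddCommMonoid (Br K Ω) := (brGroup K Ω).toAddCommMonoid
@[reducible] noncomputable def brAddZero : AddZero (Br K Ω) :=
  (brMonoid K Ω).toAddMonoid.toAddZeroClass.toAddZero
@[reducible] noncomputable def brZero : Zero (Br K Ω) := (brAddZero K Ω).toZero
@[reducible] noncomputable def brSMul : SMul ℤ (Br K Ω) := ⟨(brGroup K Ω).zsmul⟩

attribute [local instance] brGroup brMonoid brAddZero brZero brSMul

/-- the class of an element of `Z` in `Z / (B ∩ Z)` -/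
@[reducible] def qMk {A : Type} [Group A] (Z B : Subgroup A) (c : Z) :
    Additive (Z ⧸ B.subgroupOf Z) := Additive.ofMul (QuotientGroup.mk c)

/-- a chosen representative of a class in `Z / (B ∩ Z)` -/
@[reducible] noncomputable def qOut {A : Type} [Group A] (Z B : Subgroup A)
    (β : Additive (Z ⧸ B.subgroupOf Z)) : Z := β.toMul.out

/-- the class of a function: its cohomology class if it is a cocycle -/
noncomputable def cl (c : (Ω ≃ₐ[K] Ω) × (Ω ≃ₐ[K] Ω) → Ωˣ) : Br K Ω :=
  if h : c ∈ Z2 K Ω then qMk (Z2 K Ω) (B2 K Ω) ⟨c, h⟩ else 0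

variable {K Ω} {K' Ω' : Type} [Field K'] [Field Ω'] [Algebra K' Ω']

/-- `β` is the image of `α` under the map induced by `γ` -/
def IsRes (γ : K →+* K') (α : Br K Ω) (β : Br K' Ω') : Prop :=
  ∃ (j : Ω →+* Ω') (r : (Ω' ≃ₐ[K'] Ω') → Ω ≃ₐ[K] Ω) (c : Z2 K Ω),
    (∀ a, j (algebraMap K Ω a) = algebraMap K' Ω' (γ a)) ∧ (∀ g x, j (r g x) = g (j x)) ∧
      α = cl K Ω c ∧ β = cl K' Ω' fun p => Units.map j (c.1 (r p.1, r p.2))

/-- the element `t(g y)⁻¹ g t(y)` of `Gal(Ω/M)`, `t` the chosen coset representatives -/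
noncomputable def rho (M : IntermediateField K Ω) (g : Ω ≃ₐ[K] Ω)
    (y : (Ω ≃ₐ[K] Ω) ⧸ M.fixingSubgroup) : Ω ≃ₐ[M] Ω :=
  M.fixingSubgroupEquiv ⟨(g • y).out⁻¹ * (g * y.out), QuotientGroup.eq.1 (by
    rw [QuotientGroup.out_eq', ← smul_eq_mul, ← MulAction.Quotient.smul_mk,
      QuotientGroup.out_eq'])⟩

/-- corestriction -/
noncomputable def cores (M : IntermediateField K Ω) (β : Br M Ω) : Br K Ω :=
  cl K Ω fun p => ∏ᶠ y : (Ω ≃ₐ[K] Ω) ⧸ M.fixingSubgroup,
    ((p.1 * p.2) • y).out • (qOut (Z2 M Ω) (B2 M Ω) β).1 (rho M p.1 (p.2 • y), rho M p.2 y)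

end brauer

attribute [local instance] brGroup brMonoid brAddZero brZero brSMul

/-- An integral closed subvariety of `ℙ^N` over `k`, given by its function field `F` and the
homogeneous coordinates `g` of its generic point. -/
structure Var (k : Type) [Field k] where
  N : ℕ
  F : Type
  [field : Field F]
  [alg : Algebra k F]
  g : Fin (N + 1) → F
  one : ∃ i, g i = 1
  gen : IntermediateField.adjoin k (Set.range g) = ⊤

attribute [instance] Var.field Var.alg

variable {k : Type} [Field k] (X : Var k)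

/-- the forms that vanish on `X` -/
def Var.I : Set (MvPolynomial (Fin (X.N + 1)) k) :=
  {G | (∃ m, G.IsHomogeneous m) ∧ MvPolynomial.aeval X.g G = 0}

/-- points with coordinates in `Ω`, one of them equal to `1` -/
def Var.Pt (Ω : Type) [Field Ω] [Algebra k Ω] : Type :=
  {x : Fin (X.N + 1) → Ω // (∃ i, x i = 1) ∧ ∀ G ∈ X.I, MvPolynomial.aeval x G = 0}

/-- the rank of the Jacobian matrix of the forms vanishing on `X` at a point -/
@[reducible] noncomputable def Var.jacRank (Ω : Type) [Field Ω] [Algebra k Ω] (x : X.Pt Ω) : ℕ :=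
  Module.finrank Ω (Submodule.span Ω ((fun G i =>
    MvPolynomial.aeval x.1 (MvPolynomial.pderiv i G)) '' X.I))

/-- smooth and geometrically integral of dimension `n` -/
structure Var.Nice (n : ℕ) : Prop where
  geom : ∀ a : X.F, IsAlgebraic k a → a ∈ (algebraMap k X.F).range
  dim : Algebra.trdeg k X.F = n
  smooth : ∀ x : X.Pt (AlgebraicClosure k), X.jacRank (AlgebraicClosure k) x + n = X.N

/-- a point of `X` over `M⟦t_1, …, t_r⟧` with closed point `x` that is dominant: it comes from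
the embedding `γ` of the function field -/
def Var.Germ {M : Type} [Field M] [Algebra k M] {r : ℕ}
    (γ : X.F →+* FractionRing (MvPowerSeries (Fin r) M)) (x : Fin (X.N + 1) → M) : Prop :=
  (∀ a, γ (algebraMap k _ a) = algebraMap (MvPowerSeries (Fin r) M) _
    (MvPowerSeries.C (algebraMap k M a))) ∧ x ≠ 0 ∧
  ∃ (c : FractionRing (MvPowerSeries (Fin r) M)) (y : Fin (X.N + 1) → MvPowerSeries (Fin r) M),
    ∀ i, algebraMap _ _ (y i) = c * γ (X.g i) ∧ MvPowerSeries.constantCoeff (y i) = x i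

/-- the pull-back of `α` along `γ` comes from `β` in the Brauer group of the field of constants -/
def Var.Const {M Ω : Type} [Field M] [Field Ω] [Algebra M Ω] {r : ℕ}
    (γ : X.F →+* FractionRing (MvPowerSeries (Fin r) M))
    (α : Br X.F (AlgebraicClosure X.F)) (β : Br M Ω) : Prop :=
  ∃ δ : Br (FractionRing (MvPowerSeries (Fin r) M))
      (AlgebraicClosure (FractionRing (MvPowerSeries (Fin r) M))),
    IsRes γ α δ ∧ IsRes ((algebraMap (MvPowerSeries (Fin r) M) _).comp MvPowerSeries.C) β δ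

/-- the Brauer group of `X` inside the Brauer group of its function field -/
def Var.Brauer : Set (Br X.F (AlgebraicClosure X.F)) :=
  {α | ∀ (M : Type) [Field M] [Algebra k M] (r : ℕ)
    (γ : X.F →+* FractionRing (MvPowerSeries (Fin r) M)) (x : Fin (X.N + 1) → M),
      X.Germ γ x → ∃ β : Br M (AlgebraicClosure M), X.Const γ α β}

section cycles

variable (L : Type) [Field L] [Algebra k L]

/-- zero-cycles on `X_L`, a closed point being named by a geometric point above it -/
abbrev Var.Cyc : Type := X.Pt (AlgebraicClosure L) →₀ ℤ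

variable {X L}

/-- the residue field -/
noncomputable def Var.res (x : X.Pt (AlgebraicClosure L)) :
    IntermediateField L (AlgebraicClosure L) := IntermediateField.adjoin L (Set.range x.1)

/-- the degree -/
noncomputable def Var.deg (z : X.Cyc L) : ℤ := z.sum fun x n => n * Module.finrank L (Var.res x)

/-- the value of `α` at a closed point -/
noncomputable def Var.eval (α : Br X.F (AlgebraicClosure X.F)) (x : X.Pt (AlgebraicClosure L)) :
    Br (Var.res x) (AlgebraicClosure L) :=
  Classical.epsilon fun β => ∃ (r : ℕ) (γ : X.F →+* FractionRing (MvPowerSeries (Fin r) (Var.res x))),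
    X.Germ γ (fun i => ⟨x.1 i, IntermediateField.subset_adjoin _ _ ⟨i, rfl⟩⟩) ∧ X.Const γ α β

/-- the pairing with the Brauer group -/
noncomputable def Var.pair (z : X.Cyc L) (α : Br X.F (AlgebraicClosure X.F)) :
    Br L (AlgebraicClosure L) := z.sum fun x n => n • cores (Var.res x) (Var.eval α x)

end cycles

variable [NumberField k]

/-- local invariants: injective homomorphisms to `ℚ/ℤ` -/
structure Inv (k : Type) [Field k] [NumberField k] where
  fin : ∀ v : HeightOneSpectrum (𝓞 k),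
    Br (v.adicCompletion k) (AlgebraicClosure (v.adicCompletion k)) →+ AddCircle (1 : ℚ)
  inf : ∀ w : InfinitePlace k, Br w.Completion (AlgebraicClosure w.Completion) →+ AddCircle (1 : ℚ)
  fin_inj : ∀ v, Function.Injective (fin v)
  inf_inj : ∀ w, Function.Injective (inf w)

/-- the property (ZC) -/
def Var.ZC (j : Inv k) : Prop :=
  (∃ (z : ∀ v : HeightOneSpectrum (𝓞 k), X.Cyc (v.adicCompletion k))
    (z' : ∀ w : InfinitePlace k, X.Cyc w.Completion),
      (∀ v, Var.deg (z v) = 1) ∧ (∀ w, Var.deg (z' w) = 1) ∧ ∀ α ∈ X.Brauer,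
        ∑ᶠ v, j.fin v (Var.pair (z v) α) + ∑ w, j.inf w (Var.pair (z' w) α) = 0) →
  ∃ z : X.Cyc k, Var.deg z = 1

end Pool.Agent.ZCy
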