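import Pool.Agent.Lib.MP_751085_ag.ZC.ADefs

/-! Elementary identities for cochains. -/

namespace Pool.Agent.ZCy

open scoped Classical
open groupCohomology

variable {G G' A A' : Type} [Group G] [CommGroup A] [MulDistribMulAction G A] [Group G']
  [CommGroup A'] [MulDistribMulAction G' A']

theorem dd_apply (e : G → A) (g h : G) : dd e (g, h) = g • e h / e (g * h) * e g := rfl

theorem g1_comm (a b c d e f : A) : a * b / (c * d) * (e * f) = a / c * e * (b / d * f) := by
  simp only [div_eq_mul_inv, mul_inv]; ac_rfl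

theorem dd_mul (e e' : G → A) : dd (e * e') = dd e * dd e' := funext fun p => by
  simp only [dd, Pi.mul_apply, smul_mul', g1_comm]

theorem dd_one : dd (1 : G → A) = 1 := funext fun p => by simp [dd]

theorem dd_inv (e : G → A) : dd e⁻¹ = (dd e)⁻¹ :=
  eq_inv_of_mul_eq_one_left (by rw [← dd_mul, inv_mul_cancel, dd_one])

theorem dd_div (e e' : G → A) : dd (e / e') = dd e / dd e' := by
  rw [div_eq_mul_inv, dd_mul, dd_inv, div_eq_mul_inv]

theorem dd_pow (e : G → A) (n : ℕ) : dd (e ^ n) = dd e ^ n := by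
  induction n with
  | zero => rw [pow_zero, pow_zero, dd_one]
  | succ n ih => rw [pow_succ, pow_succ, dd_mul, ih]

theorem dd_coc (e : G → A) : IsMulCocycle₂ (dd e) := fun g h j => by
  simp only [dd, smul_mul', mul_smul, mul_assoc g h j, div_eq_mul_inv, smul_inv']
  apply Additive.ofMul.injective
  simp only [ofMul_mul, ofMul_inv]
  abel

theorem coc_iff {c : G × G → A} : IsMulCocycle₂ c ↔ CocOn ⊤ c :=
  ⟨fun h g _ g' _ j _ => h g g' j, fun h g g' j => h g trivial g' trivial j trivial⟩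

theorem CocOn.of_coc {c : G × G → A} (h : IsMulCocycle₂ c) (H : Subgroup G) : CocOn H c :=
  fun g _ g' _ j _ => h g g' j

theorem CocOn.mono {H H' : Subgroup G} {c : G × G → A} (h : CocOn H c) (e : H' ≤ H) : CocOn H' c :=
  fun g hg g' hg' j hj => h g (e hg) g' (e hg') j (e hj)

theorem CocOn.mul {H : Subgroup G} {c c' : G × G → A} (h : CocOn H c) (h' : CocOn H c') :
    CocOn H (c * c') := fun g hg g' hg' j hj => by
  simp only [Pi.mul_apply, smul_mul']
  rw [mul_mul_mul_comm, h g hg g' hg' j hj, h' g hg g' hg' j hj, mul_mul_mul_comm]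

theorem CocOn.inv {H : Subgroup G} {c : G × G → A} (h : CocOn H c) : CocOn H c⁻¹ :=
  fun g hg g' hg' j hj => by
    simp only [Pi.inv_apply, smul_inv']
    rw [← mul_inv, h g hg g' hg' j hj, mul_inv]

theorem CocOn.div {H : Subgroup G} {c c' : G × G → A} (h : CocOn H c) (h' : CocOn H c') :
    CocOn H (c / c') := by rw [div_eq_mul_inv]; exact h.mul h'.inv

theorem CocOn.congr {H : Subgroup G} {c c' : G × G → A} (h : CocOn H c)
    (e : ∀ g ∈ H, ∀ g' ∈ H, c' (g, g') = c (g, g')) : CocOn H c' := fun g hg g' hg' j hj => by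
  rw [e _ (mul_mem hg hg') _ hj, e _ hg _ hg', e _ hg' _ hj, e _ hg _ (mul_mem hg' hj)]
  exact h g hg g' hg' j hj

theorem coc_one : IsMulCocycle₂ (1 : G × G → A) := fun g h j => by simp

theorem coc_mul {c c' : G × G → A} (h : IsMulCocycle₂ c) (h' : IsMulCocycle₂ c') :
    IsMulCocycle₂ (c * c') := coc_iff.2 ((coc_iff.1 h).mul (coc_iff.1 h'))

theorem coc_inv {c : G × G → A} (h : IsMulCocycle₂ c) : IsMulCocycle₂ c⁻¹ :=
  coc_iff.2 (coc_iff.1 h).inv

theorem coc_div {c c' : G × G → A} (h : IsMulCocycle₂ c) (h' : IsMulCocycle₂ c') :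
    IsMulCocycle₂ (c / c') := coc_iff.2 ((coc_iff.1 h).div (coc_iff.1 h'))

theorem coc_pow {c : G × G → A} (h : IsMulCocycle₂ c) (n : ℕ) : IsMulCocycle₂ (c ^ n) := by
  induction n with
  | zero => rw [pow_zero]; exact coc_one
  | succ n ih => rw [pow_succ]; exact coc_mul ih h

theorem CocOn.pow {H : Subgroup G} {c : G × G → A} (h : CocOn H c) (n : ℕ) : CocOn H (c ^ n) := by
  induction n with
  | zero => rw [pow_zero]; exact .of_coc coc_one H
  | succ n ih => rw [pow_succ]; exact ih.mul h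

theorem CocOn.one_left {H : Subgroup G} {c : G × G → A} (h : CocOn H c) {g : G} (hg : g ∈ H) :
    c (1, g) = c (1, 1) := by
  have := h 1 (one_mem _) 1 (one_mem _) g hg
  rw [one_mul, one_mul, one_smul] at this
  exact (mul_left_cancel this).symm

theorem CocOn.one_right {H : Subgroup G} {c : G × G → A} (h : CocOn H c) {g : G} (hg : g ∈ H) :
    c (g, 1) = g • c (1, 1) := by
  have := h g hg 1 (one_mem _) 1 (one_mem _)
  rw [mul_one, mul_one] at this
  exact mul_right_cancel this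

theorem CobOn.mono {H H' : Subgroup G} {c : G × G → A} (h : CobOn H c) (e : H' ≤ H) : CobOn H' c :=
  h.imp fun _ h g hg g' hg' => h g (e hg) g' (e hg')

theorem CobOn.mul {H : Subgroup G} {c c' : G × G → A} (h : CobOn H c) (h' : CobOn H c') :
    CobOn H (c * c') := by
  obtain ⟨e, he⟩ := h
  obtain ⟨e', he'⟩ := h'
  exact ⟨e * e', fun g hg g' hg' => by rw [dd_mul, Pi.mul_apply, Pi.mul_apply, he g hg g' hg',
    he' g hg g' hg']⟩

theorem CobOn.inv {H : Subgroup G} {c : G × G → A} (h : CobOn H c) : CobOn H c⁻¹ := by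
  obtain ⟨e, he⟩ := h
  exact ⟨e⁻¹, fun g hg g' hg' => by rw [dd_inv, Pi.inv_apply, Pi.inv_apply, he g hg g' hg']⟩

theorem CobOn.pow {H : Subgroup G} {c : G × G → A} (h : CobOn H c) (n : ℕ) : CobOn H (c ^ n) := by
  obtain ⟨e, he⟩ := h
  exact ⟨e ^ n, fun g hg g' hg' => by rw [dd_pow, Pi.pow_apply, Pi.pow_apply, he g hg g' hg']⟩

theorem CobOn.congr {H : Subgroup G} {c c' : G × G → A} (h : CobOn H c)
    (e : ∀ g ∈ H, ∀ g' ∈ H, c' (g, g') = c (g, g')) : CobOn H c' :=
  h.imp fun _ h g hg g' hg' => (e g hg g' hg').trans (h g hg g' hg')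

theorem cobOn_dd (H : Subgroup G) (e : G → A) : CobOn H (dd e) := ⟨e, fun _ _ _ _ => rfl⟩

theorem cobOn_top {c : G × G → A} : CobOn ⊤ c ↔ ∃ e, c = dd e :=
  ⟨fun h => h.imp fun _ h => funext fun p => h p.1 trivial p.2 trivial,
    fun ⟨e, h⟩ => h ▸ cobOn_dd ⊤ e⟩

/-- coprime powers are coboundaries -/
theorem CobOn.of_coprime {H : Subgroup G} {c : G × G → A} {m n : ℕ} (hm : CobOn H (c ^ m))
    (hn : CobOn H (c ^ n)) (h : m.Coprime n) : CobOn H c := by
  rcases Nat.eq_zero_or_pos n with rfl | h0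
  · rwa [(Nat.coprime_zero_right m).1 h, pow_one] at hm
  obtain ⟨a, -, ha⟩ := Nat.exists_mul_mod_eq_of_coprime 1 h h0.ne'
  rcases Nat.lt_or_ge 1 n with h1 | h1
  · have e : c * (c ^ n) ^ (m * a / n) = (c ^ m) ^ a := by
      rw [← pow_mul, ← pow_mul, ← pow_succ']
      congr 1
      have := Nat.div_add_mod (m * a) n
      rw [ha, Nat.mod_eq_of_lt h1] at this
      exact this
    have := (hm.pow a).mul (hn.pow (m * a / n)).inv
    rwa [← e, mul_inv_cancel_right] at this
  · obtain rfl : n = 1 := le_antisymm h1 h0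
    rwa [pow_one] at hn

/-- the order of a finite subgroup kills cocycles -/
theorem CocOn.pow_card {H : Subgroup G} [Fintype H] {c : G × G → A} (h : CocOn H c) {g g' : G}
    (hg : g ∈ H) (hg' : g' ∈ H) :
    c (g, g') ^ Fintype.card H = dd (fun x => ∏ j : H, c (x, j)) (g, g') := by
  have e1 : ∏ j : H, c (g, g' * j) = ∏ j : H, c (g, j) :=
    Fintype.prod_equiv (Equiv.mulLeft (⟨g', hg'⟩ : H)) _ _ fun _ => rfl
  have e2 : ∏ j : H, (c (g * g', j) * c (g, g')) = ∏ j : H, (g • c (g', j) * c (g, g' * j)) :=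
    Finset.prod_congr rfl fun j _ => h g hg g' hg' j j.2
  rw [Finset.prod_mul_distrib, Finset.prod_mul_distrib, e1, Finset.prod_const, Finset.card_univ,
    ← Finset.smul_prod'] at e2
  rw [dd_apply, div_mul_eq_mul_div, ← e2, mul_div_cancel_left]

theorem CocOn.cob_card {H : Subgroup G} [Finite H] {c : G × G → A} (h : CocOn H c) :
    CobOn H (c ^ Nat.card H) := by
  have := Fintype.ofFinite H
  rw [Nat.card_eq_fintype_card]
  exact ⟨_, fun g hg g' hg' => h.pow_card hg hg'⟩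

/-- the homotopy for an inner automorphism -/
def conjE (c : G × G → A) (σ g : G) : A := c (σ, σ⁻¹ * g * σ) / c (g, σ)

/-- inner automorphisms act trivially -/
theorem CocOn.conj {H : Subgroup G} {c : G × G → A} (h : CocOn H c) {σ g g' : G} (hσ : σ ∈ H)
    (hg : g ∈ H) (hg' : g' ∈ H) :
    σ • c (σ⁻¹ * g * σ, σ⁻¹ * g' * σ) = c (g, g') * dd (conjE c σ) (g, g') := by
  have m := mul_mem (mul_mem (inv_mem hσ) hg) hσ
  have m' := mul_mem (mul_mem (inv_mem hσ) hg') hσ
  have e1 := h σ hσ _ m _ m'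
  have e2 := h g hg σ hσ _ m'
  have e3 := h g hg g' hg' σ hσ
  have u1 : σ * (σ⁻¹ * g * σ) = g * σ := by group
  have u2 : σ⁻¹ * g * σ * (σ⁻¹ * g' * σ) = σ⁻¹ * (g * g') * σ := by group
  have u3 : σ * (σ⁻¹ * g' * σ) = g' * σ := by group
  rw [u1, u2] at e1
  rw [u3] at e2
  simp only [dd, conjE, smul_div']
  rw [← div_eq_iff_eq_mul] at e1 e3
  rw [← eq_div_iff_mul_eq'] at e2
  rw [← e1, ← e3, e2]
  apply Additive.ofMul.injective
  simp only [ofMul_mul, ofMul_div]
  abel

theorem Infl.mul {D N : Subgroup G} {c c' : G × G → A} (h : Infl D N c) (h' : Infl D N c') :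
    Infl D N (c * c') :=
  ⟨fun g hg g' hg' i hi i' hi' => by
    rw [Pi.mul_apply, Pi.mul_apply, h.eq g hg g' hg' i hi i' hi', h'.eq g hg g' hg' i hi i' hi'],
  fun g hg g' hg' i hi => by rw [Pi.mul_apply, smul_mul', h.fix g hg g' hg' i hi,
    h'.fix g hg g' hg' i hi]⟩

theorem Infl.inv {D N : Subgroup G} {c : G × G → A} (h : Infl D N c) : Infl D N c⁻¹ :=
  ⟨fun g hg g' hg' i hi i' hi' => by rw [Pi.inv_apply, Pi.inv_apply, h.eq g hg g' hg' i hi i' hi'],
  fun g hg g' hg' i hi => by rw [Pi.inv_apply, smul_inv', h.fix g hg g' hg' i hi]⟩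

theorem Infl.div {D N : Subgroup G} {c c' : G × G → A} (h : Infl D N c) (h' : Infl D N c') :
    Infl D N (c / c') := by rw [div_eq_mul_inv]; exact h.mul h'.inv

theorem infl_bot (D : Subgroup G) (c : G × G → A) : Infl D ⊥ c :=
  ⟨fun g _ g' _ i hi i' hi' => by rw [Subgroup.mem_bot.1 hi, Subgroup.mem_bot.1 hi', mul_one,
    mul_one], fun g _ g' _ i hi => by rw [Subgroup.mem_bot.1 hi, one_smul]⟩

/-- a homomorphism from a finite group to `ℚ` vanishes -/
theorem hom_rat_zero {D : Subgroup G} [Finite D] {l : G → ℚ}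
    (h : ∀ g ∈ D, ∀ g' ∈ D, l (g * g') = l g + l g') {g : G} (hg : g ∈ D) : l g = 0 := by
  have := Fintype.ofFinite D
  have e1 : ∑ j : D, l (g * j) = ∑ j : D, l j :=
    Fintype.sum_equiv (Equiv.mulLeft (⟨g, hg⟩ : D)) _ _ fun _ => rfl
  rw [Finset.sum_congr rfl fun (j : D) _ => h g hg j j.2, Finset.sum_add_distrib, Finset.sum_const,
    add_eq_right, nsmul_eq_mul, mul_eq_zero] at e1
  exact e1.resolve_left (Nat.cast_ne_zero.2 (Finset.card_ne_zero_of_mem (Finset.mem_univ 1)))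

/-- a rational cocycle with trivial action on a finite group is a coboundary -/
theorem exists_lam {D : Subgroup G} [Finite D] {x : G × G → ℚ}
    (h : ∀ g ∈ D, ∀ g' ∈ D, ∀ j ∈ D, x (g * g', j) + x (g, g') = x (g', j) + x (g, g' * j)) :
    ∃ l : G → ℚ, ∀ g ∈ D, ∀ g' ∈ D, x (g, g') = l g + l g' - l (g * g') := by
  have := Fintype.ofFinite D
  have hc : (Fintype.card D : ℚ) ≠ 0 := Nat.cast_ne_zero.2 Fintype.card_ne_zero
  refine ⟨fun g => (∑ j : D, x (g, j)) / Fintype.card D, fun g hg g' hg' => ?_⟩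
  have e1 : ∑ j : D, x (g, g' * j) = ∑ j : D, x (g, j) :=
    Fintype.sum_equiv (Equiv.mulLeft (⟨g', hg'⟩ : D)) _ _ fun _ => rfl
  have e2 : ∑ j : D, (x (g * g', j) + x (g, g')) = ∑ j : D, (x (g', j) + x (g, g' * j)) :=
    Finset.sum_congr rfl fun j _ => h g hg g' hg' j j.2
  rw [Finset.sum_add_distrib, Finset.sum_add_distrib, e1, Finset.sum_const, Finset.card_univ,
    nsmul_eq_mul] at e2
  field_simp
  linarith

end Pool.Agent.ZCy
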