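import Pool.Agent.Lib.MP_751085_ag.ZC.R0b
import Pool.Agent.Lib.MP_751085_ag.ZC.R1

/-! Unramified classes. -/

namespace Pool.Agent.ZCy

open scoped Classical WithZero
open groupCohomology

variable {K K' E : Type} [Field K] [Field K'] [Field E] [Algebra K E] [CharZero K] {v : Vl K}
  {a : BR K}

theorem Unram.map (h : Unram v a) (φ : K →+* K') {v' : Vl K'} (hv : Over φ v v') :
    Unram v' (rs φ a) := by
  obtain ⟨R, hU⟩ := h
  have : CharZero K' := charZero_of_injective_ringHom φ.injective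
  obtain ⟨E', _, _, _, _, j, w', hj, ho, ho'⟩ := exists_above φ hv (R.idq.isOver R.e_pos)
  obtain ⟨r, hr⟩ := exists_lk_of hj
  obtain ⟨e₀, he₀, hi⟩ := hv.idq
  obtain ⟨e', h'⟩ := R.isRD.up φ he₀ hi hj hr.comm ho ho'
  have hd := (dec_up hr.comm ho).1
  exact ⟨h'.rd, fun g hg g' hg' => (ho.eq_one _).2 (hU _ (hd g hg) _ (hd g' hg'))⟩

theorem Unram.comap (γ : K →+* K') {v : Vl K'} (h : Unram (v.comap γ) a) : Unram v (rs γ a) :=
  h.map γ (over_comap γ v)

theorem Unram.congr (h : Unram v a) {v' : Vl K} (hv : Over (RingHom.id K) v v') : Unram v' a :=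
  res_id a ▸ h.map (RingHom.id K) hv

theorem unram_triv (hv : ∀ x, x ≠ 0 → v x = 1) (a : BR K) : Unram v a := by
  obtain ⟨L, _, _, x, -, hx, rfl⟩ := exists_cls a ∅
  obtain ⟨w, hw⟩ := vn_exists (E := L) v
  have h1 : ∀ y : L, y ≠ 0 → w y = 1 := fun y hy => Triv.algebraic
    (fun z hz => (hw.eq_one z).2 (hv z hz)) (Algebra.IsAlgebraic.isAlgebraic y) hy
  refine isRD_unit hw hx ?_ fun g _ g' _ => h1 _ (Units.ne_zero _)
  rw [(ine_triv h1).2]
  exact infl_bot _ _

theorem unram_const (φ : K →+* K') {v' : Vl K'} (h : Triv φ v') (a : BR K) : Unram v' (rs φ a) :=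
  (unram_triv (v := v'.comap φ) h a).comap φ

variable [FiniteDimensional K E] [IsGalois K E] {w : Vl E} {c : (E ≃ₐ[K] E) × (E ≃ₐ[K] E) → Eˣ}

/-- residue data above any given extension -/
theorem Unram.up (h : Unram v a) (hw : Over (algebraMap K E) v w) :
    ∃ (R : RD v a) (j : E →ₐ[K] R.E), R.Unit ∧ Over (j : E →+* R.E) w R.w := by
  obtain ⟨R, hU⟩ := h
  have : CharZero E := charZero_of_injective_ringHom (algebraMap K E).injective
  obtain ⟨E₁, _, _, _, _, j₀, w₁, hj₀, ho₀, ho₁⟩ :=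
    exists_above (algebraMap K E) hw (R.idq.isOver R.e_pos)
  let : Algebra K E₁ := ((algebraMap E E₁).comp (algebraMap K E)).toAlgebra
  have : IsScalarTower K E E₁ := IsScalarTower.of_algebraMap_eq fun _ => rfl
  have : FiniteDimensional K E₁ := FiniteDimensional.trans K E E₁
  obtain ⟨E', _, _, _, _, j, hj, -⟩ := exists_big (E := E₁) (RingHom.id K) ∅
  let : Algebra E₁ E' := j.toAlgebra
  have : IsScalarTower K E₁ E' := IsScalarTower.of_algebraMap_eq fun a => (hj a).symm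
  have : FiniteDimensional E₁ E' := FiniteDimensional.right K E₁ E'
  obtain ⟨w', hw'⟩ := vn_exists (E := E') w₁
  obtain ⟨r, hr⟩ := exists_lk_of (γ := RingHom.id K) (j := j.comp j₀)
    fun a => (congrArg j (hj₀ a)).trans (hj a)
  have ho : Over (j.comp j₀) R.w w' := ho₀.comp hw'
  obtain ⟨e', h'⟩ := R.isRD.up_id hr.base hr.comm ho
  have hd := (dec_up hr.comm ho).1
  exact ⟨h'.rd, { j.comp (algebraMap E E₁) with commutes' := hj },
    fun g hg g' hg' => (ho.eq_one _).2 (hU _ (hd g hg) _ (hd g' hg')), ho₁.comp hw'⟩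

/-- the orders of a cocycle on an unramified extension form an integral coboundary -/
theorem Unram.int (h : Unram v a) (hw : Over (algebraMap K E) v w) (hI : Ine K w = ⊥)
    (hc : IsMulCocycle₂ c) (e : cls K c = a) :
    ∃ lam : (E ≃ₐ[K] E) → ℤ, ∀ g ∈ Dec K w, ∀ h ∈ Dec K w,
      ord w (c (g, h) : E) = lam g + lam h - lam (g * h) := by
  obtain ⟨R, j, hU, ho⟩ := h.up hw
  obtain ⟨r, hr⟩ := exists_lk_of (γ := RingHom.id K) (j := (j : E →+* R.E)) j.commutes
  have hm := lk_mul (j := (j : E →+* R.E)) (r := r) hr.comm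
  have hd := dec_up hr.comm ho
  have h1 : ∀ i ∈ Ine K R.w, r i = 1 := fun i hi => Subgroup.mem_bot.1 (hI ▸ hd.2 i hi)
  obtain ⟨e₀, he₀⟩ := (cls_eq_iff (pull_coc (r := r) hr.comm hc) R.coc).1
    ((rs_cls (RingHom.id K) hr.base hr.comm hc).symm.trans
      ((res_id _).trans (e.trans R.cls_eq.symm)))
  have hi : Infl (Dec K R.w) (Ine K R.w) (pull (j : E →+* R.E) r c) :=
    ⟨fun g _ g' _ i hi i' hi' => by simp only [pull, hm, h1 i hi, h1 i' hi', mul_one],
      fun g _ g' _ i hi => Units.ext ((hr.comm i _).symm.trans (by rw [h1 i hi]; rfl))⟩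
  have h9 : H1z R.Eˣ (Ine K R.w) := h90 _
  obtain ⟨e', q1, -, q3⟩ := inf_inj ine_le_dec ine_conj h9 (hi.div R.infl)
    ⟨e₀, fun g _ g' _ => by rw [he₀, mul_div_cancel_left]; rfl⟩
  obtain ⟨ε, hε, hq⟩ := ho.idq
  have : ∀ g, ∃ z : ℤ, g ∈ Dec K R.w → (ord R.w (e' g : R.E) : ℚ) = ε * z := fun g => by
    by_cases hg : g ∈ Dec K R.w
    · obtain ⟨y, hy⟩ := vn_fix (K := K) (w := R.w) (x := e' g)
        fun i hi => congrArg Units.val (q3 g hg i hi)
      have h0 : y ≠ 0 := by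
        rintro rfl
        simp at hy
      refine ⟨ord w (algebraMap K E y), fun _ => ?_⟩
      rw [ord_congr hy, ← hq _ ((map_ne_zero _).2 h0), ← j.commutes]
      rfl
    · exact ⟨0, fun h => absurd h hg⟩
  choose l hl using this
  have key : ∀ g ∈ Dec K R.w, ∀ g' ∈ Dec K R.w,
      ord w (c (r g, r g') : E) = l g + l g' - l (g * g') := fun g hg g' hg' => by
    have a1 := congrArg (fun u : R.Eˣ => (ord R.w (u : R.E) : ℚ)) (q1 g hg g' hg')
    simp only [Pi.div_apply, Units.val_div_eq_div_val] at a1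
    rw [ord_div (Units.ne_zero _) (Units.ne_zero _), ord_dd hg,
      (ord_eq_zero (Units.ne_zero _)).2 (hU g hg g' hg'), sub_zero] at a1
    push_cast at a1
    rw [hl g hg, hl g' hg', hl _ (mul_mem hg hg'), ← mul_add, ← mul_sub] at a1
    exact_mod_cast mul_left_cancel₀ hε.ne' ((hq _ (Units.ne_zero (c (r g, r g')))).symm.trans a1)
  obtain ⟨N, n1, -, n2⟩ := a2b_ker (j := (j : E →+* R.E)) (r := r) hr.comm
  have k1 : ∀ n ∈ N ⊓ Dec K R.w, l n = ord w (c (1, 1) : E) := fun n hn => by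
    have := hom_rat_zero (l := fun g => ((l g - ord w (c (1, 1) : E) : ℤ) : ℚ))
      (fun g hg g' hg' => by
        have := key g hg.2 g' hg'.2
        rw [(n1 g).1 hg.1, (n1 g').1 hg'.1] at this
        exact_mod_cast (by omega)) hn
    exact sub_eq_zero.1 (by exact_mod_cast this)
  have k2 : ∀ g ∈ Dec K R.w, ∀ g' ∈ Dec K R.w, r g = r g' → l g = l g' := fun g hg g' hg' q => by
    have hn : g⁻¹ * g' ∈ N ⊓ Dec K R.w :=
      Subgroup.mem_inf.2 ⟨n2 g g' q, mul_mem (inv_mem hg) hg'⟩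
    have := key g hg _ hn.2
    rw [(n1 _).1 hn.1, k1 _ hn, mul_inv_cancel_left,
      (CocOn.of_coc hc ⊤).one_right (Subgroup.mem_top _)] at this
    have a1 := ord_dec (hd.1 g hg) (c (1, 1) : E)
    change ord w (r g (c (1, 1) : E)) = _ at this
    omega
  choose! s s1 s2 using (vn_up j hr.comm ho).1
  refine ⟨fun g => l (s g), fun g hg g' hg' => ?_⟩
  have := key _ (s1 g hg) _ (s1 g' hg')
  rwa [s2 g hg, s2 g' hg', k2 _ (mul_mem (s1 g hg) (s1 g' hg')) _ (s1 _ (mul_mem hg hg'))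
    (by rw [hm, s2 g hg, s2 g' hg', s2 _ (mul_mem hg hg')])] at this

end Pool.Agent.ZCy
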