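import Pool.Agent.Lib.MP_751085_ag.ZC.RDefs
import Pool.Agent.Lib.MP_751085_ag.ZC.V.Coh
import Pool.Agent.Lib.MP_751085_ag.ZC.V.Cf

/-! Facts on complete valuation rings in the form used for residues. -/

namespace Pool.Agent.ZCy

open scoped Classical WithZero PowerSeries

variable {K E : Type} [Field K] [Field E] [Algebra K E]

theorem vn_isVR (O : Type) [CommRing O] [IsDomain O] [IsDiscreteValuationRing O] [Algebra O K]
    [IsFractionRing O K] : ∃ v : Vl K, IsVR (algebraMap O K) v := exists_isVR (isFr_alg O K)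

theorem vn_hens (O : Type) [CommRing O] [IsDomain O] [CDVR O] [Algebra O K] [IsFractionRing O K]
    {v : Vl K} (h : IsVR (algebraMap O K) v) : Hens v := fun _ _ _ _ _ _ ho =>
  h.cpl.dec_top h.1 ho

theorem vn_cdvr (R : Type) [CommRing R] [IsDomain R] [CDVR R] [Algebra R K] [IsFractionRing R K]
    [Algebra R E] [IsScalarTower R K E] [FiniteDimensional K E] [Algebra.IsSeparable K E] :
    CDVR (integralClosure R E) ∧ Module.Finite R (integralClosure R E) ∧
      IsLocalHom (algebraMap R (integralClosure R E)) := cdvr_integralClosure (K := K) R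

theorem vn_ps (κ : Type) [Field κ] : CDVR κ⟦X⟧ := cdvr_ps κ

theorem vn_compl (O : Type) [CommRing O] [IsDomain O] [IsDiscreteValuationRing O] :
    ∃ (R : Type) (_ : CommRing R) (_ : IsDomain R) (_ : CDVR R) (φ : O →+* R),
      Function.Injective φ ∧ (IsLocalRing.maximalIdeal O).map φ = IsLocalRing.maximalIdeal R ∧
      ∀ y : R, ∃ x : O, y - φ x ∈ IsLocalRing.maximalIdeal R := by
  obtain ⟨R, _, _, _, φ, h1, h2, h3⟩ := exists_cmp_ring O
  refine ⟨R, _, ‹_›, ‹_›, φ, h1, h2, fun y => ?_⟩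
  obtain ⟨x, hx⟩ := h3 y
  exact ⟨x, (IsLocalRing.residue_eq_zero_iff _).1 (by rw [map_sub, hx, sub_self])⟩

theorem vn_coh (R : Type) [CommRing R] [IsDomain R] [CDVR R] (k : Type) [Field k] [CharZero k]
    (φ : k →+* R) : ∃ (κ : Type) (_ : Field κ) (ι : k →+* κ) (e : R ≃+* κ⟦X⟧),
      ∀ a, e (φ a) = PowerSeries.C (ι a) := by
  obtain ⟨σ, h1, h2⟩ := exists_section φ
  obtain ⟨π, hπ⟩ := IsDiscreteValuationRing.exists_irreducible R
  obtain ⟨e, he, -⟩ := exists_ps_equiv σ (fun y => ⟨_, h1 _⟩) hπ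
  exact ⟨_, _, (IsLocalRing.residue R).comp φ, e.symm, fun a =>
    e.symm_apply_eq.2 ((h2 a).symm.trans (he _).symm)⟩

end Pool.Agent.ZCy
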