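import Pool.Agent.Lib.MP_751085_ag.ZC.R6b
import Pool.Agent.Lib.MP_751085_ag.ZC.VNeedC

/-! The valuation of a power series ring. -/

namespace Pool.Agent.ZCy

open scoped Classical WithZero PowerSeries

variable {κ M : Type} [Field κ] [Field M] {φ : κ⟦X⟧ →+* M} {w : Vl M}

theorem rp_unit {A : Type} [CommRing A] {f : A →+* M} (h : IsVR f w) (a : A) :
    w (f a) = 1 ↔ IsUnit a := by
  refine ⟨fun e => ?_, fun e => ?_⟩
  · obtain ⟨b, hb⟩ := (h.2.2 (f a)⁻¹).1 (by rw [map_inv₀, e, inv_one])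
    refine .of_mul_eq_one b (h.2.1 ?_)
    rw [map_mul, hb, map_one, mul_inv_cancel₀ ((Valuation.ne_zero_iff w).1 (e ▸ one_ne_zero))]
  · obtain ⟨b, hb⟩ := e.exists_right_inv
    have h1 : w (f a) * w (f b) = 1 := by rw [← map_mul, ← map_mul, hb, map_one, map_one]
    exact le_antisymm ((h.2.2 _).2 ⟨a, rfl⟩)
      (h1.symm.trans_le (mul_le_of_le_one_right' ((h.2.2 _).2 ⟨b, rfl⟩)))

theorem rp_lt {A : Type} [CommRing A] {f : A →+* M} (h : IsVR f w) (a : A) :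
    w (f a) < 1 ↔ ¬IsUnit a := by
  rw [← rp_unit h, lt_iff_le_and_ne, and_iff_right ((h.2.2 _).2 ⟨a, rfl⟩)]

theorem rp_le_exp {x : M} (h : w x < 1) : w x ≤ WithZero.exp (-1) := by
  rcases eq_or_ne x 0 with rfl | h0
  · rw [map_zero]
    exact zero_le
  · rw [ord_eq h0, WithZero.exp_le_exp, neg_le_neg_iff]
    exact (ord_pos h0).2 h

theorem IsVR.le (h : IsVR φ w) (a : κ⟦X⟧) : w (φ a) ≤ 1 := (h.2.2 _).2 ⟨a, rfl⟩

/-- a unit has value one; an element of value one has its inverse in the range -/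
theorem IsVR.lt (h : IsVR φ w) (a : κ⟦X⟧) : w (φ a) < 1 ↔ PowerSeries.constantCoeff a = 0 := by
  rw [rp_lt h, PowerSeries.isUnit_iff_constantCoeff, isUnit_iff_ne_zero, not_not]

theorem IsVR.val_X (h : IsVR φ w) : w (φ PowerSeries.X) = WithZero.exp (-1) := by
  obtain ⟨π, hπ⟩ := h.1
  have h1 : w π < 1 := hπ ▸ WithZero.exp_lt_exp.2 neg_one_lt_zero
  obtain ⟨a, rfl⟩ := (h.2.2 π).1 h1.le
  obtain ⟨b, rfl⟩ := PowerSeries.X_dvd_iff.2 ((h.lt a).1 h1)
  refine le_antisymm (rp_le_exp ((h.lt _).2 PowerSeries.constantCoeff_X)) ?_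
  rw [← hπ, map_mul, map_mul]
  exact mul_le_of_le_one_right' (h.le b)

theorem IsVR.triv (h : IsVR φ w) : Triv (φ.comp PowerSeries.C) w := fun _ hx =>
  (rp_unit h _).2 (hx.isUnit.map PowerSeries.C)

/-- divide by the coordinate of largest value -/
theorem IsVR.scale (h : IsVR φ w) {ι : Type} [Finite ι] {x : ι → M} (hx : x ≠ 0) :
    ∃ (c : M) (y : ι → κ⟦X⟧), c ≠ 0 ∧ (∀ i, φ (y i) = c * x i) ∧
      (fun i => PowerSeries.constantCoeff (y i)) ≠ 0 := by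
  obtain ⟨j, hj⟩ := Function.ne_iff.1 hx
  have : Nonempty ι := ⟨j⟩
  obtain ⟨i₀, hi⟩ := Finite.exists_max fun i => w (x i)
  have h0 : 0 < w (x i₀) := (zero_lt_iff.2 ((Valuation.ne_zero_iff w).2 hj)).trans_le (hi j)
  have h1 : x i₀ ≠ 0 := (Valuation.ne_zero_iff w).1 h0.ne'
  choose y hy using fun i => (h.2.2 ((x i₀)⁻¹ * x i)).1 (by
    rw [map_mul, map_inv₀, inv_mul_le_one₀ h0]
    exact hi i)
  refine ⟨_, y, inv_ne_zero h1, hy, Function.ne_iff.2 ⟨i₀, ?_⟩⟩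
  rw [h.2.1 ((hy i₀).trans ((inv_mul_cancel₀ h1).trans φ.map_one.symm)), map_one]
  exact one_ne_zero

/-- the constant coefficient as a residue map -/
theorem IsVR.red (h : IsVR φ w) {Ω : Type} [Field Ω] (ι : κ →+* Ω) : ∃ ρ : w.integer →+* Ω,
    IsRed w ρ ∧ ∀ (a : κ⟦X⟧) (y : w.integer), (y : M) = φ a →
      ρ y = ι (PowerSeries.constantCoeff a) := by
  let e := RingEquiv.ofBijective (φ.codRestrict w.integer h.le)
    ⟨fun a b e => h.2.1 (congrArg Subtype.val e),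
      fun y => ((h.2.2 y).1 y.2).imp fun _ => Subtype.ext⟩
  refine ⟨ι.comp (PowerSeries.constantCoeff.comp (e.symm : w.integer →+* κ⟦X⟧)), fun y => ?_,
    fun a y hy => ?_⟩
  · obtain ⟨a, rfl⟩ := e.surjective y
    simp only [RingHom.comp_apply, RingHom.coe_coe, RingEquiv.symm_apply_apply, map_eq_zero]
    exact (h.lt a).symm
  · obtain rfl : y = e a := Subtype.ext hy
    simp only [RingHom.comp_apply, RingHom.coe_coe, RingEquiv.symm_apply_apply]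

variable (κ) in
theorem exists_psV : ∃ w : Vl (Fr κ⟦X⟧), IsVR (algebraMap κ⟦X⟧ (Fr κ⟦X⟧)) w ∧ Hens w := by
  have := vn_ps κ
  obtain ⟨w, hw⟩ := vn_isVR (K := Fr κ⟦X⟧) κ⟦X⟧
  exact ⟨w, hw, vn_hens _ hw⟩

/-- `Polynomial.Monic.irreducible_of_irreducible_map` with the constant coefficient, then Gauss
(`Polynomial.Monic.irreducible_iff_irreducible_map_fraction_map`) -/
theorem ps_irreducible (p : Polynomial κ) (hm : p.Monic) (hp : Irreducible p) :
    Irreducible (p.map (algebraMap κ (Fr κ⟦X⟧))) := by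
  have h1 := (hm.map (PowerSeries.C (R := κ))).irreducible_of_irreducible_map
    PowerSeries.constantCoeff _ (by
      rwa [Polynomial.map_map, PowerSeries.constantCoeff_comp_C, Polynomial.map_id])
  rwa [(hm.map _).irreducible_iff_irreducible_map_fraction_map (K := Fr κ⟦X⟧),
    Polynomial.map_map] at h1

/-- `Nrm.dvr`, `vn_compl`, `vn_coh`; the image of a uniformiser generates the maximal ideal -/
theorem exists_arc {k K : Type} [Field k] [CharZero k] [Field K] (ψ : k →+* K) {v : Vl K}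
    (hv : Nrm v) (ht : Triv ψ v) : ∃ (κ : Type) (_ : Field κ) (ι : k →+* κ) (j : K →+* Fr κ⟦X⟧)
      (w : Vl (Fr κ⟦X⟧)), IsVR (algebraMap κ⟦X⟧ (Fr κ⟦X⟧)) w ∧ Idq j v w 1 ∧
      (∀ a, j (ψ a) = algebraMap κ (Fr κ⟦X⟧) (ι a)) ∧
      ∀ y, w y ≤ 1 → ∃ x, v x ≤ 1 ∧ w (y - j x) < 1 := by
  have := hv.dvr
  obtain ⟨R, _, _, _, f, hf, hm, hd⟩ := vn_compl v.integer
  have hψ : ∀ a, ψ a ∈ v.integer := fun a => by
    rcases eq_or_ne a 0 with rfl | h0
    · rw [map_zero]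
      exact zero_mem _
    · exact (ht a h0).le
  obtain ⟨κ, _, ι, e, he⟩ := vn_coh R k (f.comp (ψ.codRestrict _ hψ))
  obtain ⟨w, hw, -⟩ := exists_psV κ
  obtain ⟨j, hj⟩ : ∃ j : K →+* Fr κ⟦X⟧, ∀ a : v.integer, j a = algebraMap κ⟦X⟧ _ (e (f a)) :=
    ⟨IsFractionRing.lift (g := (algebraMap κ⟦X⟧ _).comp ((e : R →+* κ⟦X⟧).comp f))
      (hw.2.1.comp (e.injective.comp hf)), fun a => IsFractionRing.lift_algebraMap _ a⟩
  have hO : IsVR v.integer.subtype v :=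
    ⟨hv, Subtype.val_injective, fun x => ⟨fun h => ⟨⟨x, h⟩, rfl⟩, fun ⟨y, hy⟩ => hy ▸ y.2⟩⟩
  have hR : ∀ r ∈ IsLocalRing.maximalIdeal R, w (algebraMap κ⟦X⟧ _ (e r)) < 1 := fun r hr =>
    (rp_lt hw _).2 fun h => hr ((MulEquiv.isUnit_map e).1 h)
  obtain ⟨π, hπ⟩ := hv
  have p1 : v π < 1 := hπ ▸ WithZero.exp_lt_exp.2 neg_one_lt_zero
  have p0 : π ≠ 0 := (Valuation.ne_zero_iff v).1 (hπ ▸ WithZero.exp_ne_zero)
  have p2 : w (j π) = WithZero.exp (-1) := by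
    rw [hj ⟨π, p1.le⟩]
    refine le_antisymm (rp_le_exp (hR _ (hm ▸ Ideal.mem_map_of_mem f ((rp_lt hO _).1 p1)))) ?_
    have h1 : IsLocalRing.maximalIdeal R ≤ Ideal.span {f ⟨π, p1.le⟩} := by
      rw [← hm, Ideal.map_le_iff_le_comap]
      intro a ha
      refine Ideal.mem_span_singleton.2 (map_dvd f ⟨⟨π⁻¹ * a, ?_⟩, Subtype.ext
        (mul_inv_cancel_left₀ p0 (a : K)).symm⟩)
      rw [Valuation.mem_integer_iff, map_mul, map_inv₀, hπ,
        inv_mul_le_one₀ (zero_lt_iff.2 WithZero.exp_ne_zero)]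
      exact rp_le_exp ((rp_lt hO a).2 ha)
    obtain ⟨b, hb⟩ := Ideal.mem_span_singleton.1 (h1 (x := e.symm PowerSeries.X) fun h =>
      PowerSeries.X_prime.not_isUnit ((MulEquiv.isUnit_map e.symm).1 h))
    rw [← hw.val_X, (RingEquiv.symm_apply_eq e).1 hb, map_mul, map_mul, map_mul]
    exact mul_le_of_le_one_right' (hw.le _)
  refine ⟨κ, inferInstance, ι, j, w, hw, fun x hx => ?_, fun a => ?_, fun y hy => ?_⟩
  · have o1 : ord v π = 1 := by rw [ord, hπ, WithZero.log_exp, neg_neg]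
    have o2 : ord w (j π) = 1 := by rw [ord, p2, WithZero.log_exp, neg_neg]
    have u0 := div_ne_zero hx (zpow_ne_zero (ord v x) p0)
    have u1 : v (x / π ^ ord v x) = 1 := (ord_eq_zero u0).1 (by
      rw [ord_div hx (zpow_ne_zero _ p0), ord_zpow, o1, mul_one, sub_self])
    have u2 : w (j (x / π ^ ord v x)) = 1 := by
      rw [hj ⟨_, u1.le⟩]
      exact (rp_unit hw _).2 ((((rp_unit hO ⟨_, u1.le⟩).1 u1).map f).map e)
    rw [← ord_eq_zero ((map_ne_zero j).2 u0), map_div₀, map_zpow₀,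
      ord_div ((map_ne_zero j).2 hx) (zpow_ne_zero _ ((map_ne_zero j).2 p0)), ord_zpow, o2,
      mul_one, sub_eq_zero] at u2
    rw [u2, one_mul]
  · exact (hj ⟨_, hψ a⟩).trans (congrArg _ (he a))
  · obtain ⟨a, rfl⟩ := (hw.2.2 y).1 hy
    obtain ⟨r, rfl⟩ := e.surjective a
    obtain ⟨x, hx⟩ := hd r
    exact ⟨x, x.2, by rw [hj, ← map_sub, ← map_sub]; exact hR _ hx⟩

/-- `vn_cdvr`, `vn_coh` for the integral closure `S` of `κ⟦X⟧`; `M` is the fraction field of `S`;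
`κ'` is the residue field of `S`, finite over `κ` -/
theorem ps_finext [CharZero κ] [Algebra (Fr κ⟦X⟧) M] [FiniteDimensional (Fr κ⟦X⟧) M]
    {w₀ : Vl (Fr κ⟦X⟧)} (h₀ : IsVR (algebraMap κ⟦X⟧ (Fr κ⟦X⟧)) w₀) :
    ∃ (κ' : Type) (_ : Field κ') (_ : Algebra κ κ') (_ : FiniteDimensional κ κ')
      (e : Fr κ'⟦X⟧ ≃+* M) (w : Vl M),
      IsVR ((e : Fr κ'⟦X⟧ →+* M).comp (algebraMap κ'⟦X⟧ (Fr κ'⟦X⟧))) w ∧
      Over (algebraMap (Fr κ⟦X⟧) M) w₀ w ∧ ∀ z : κ, e (algebraMap κ' _ (algebraMap κ κ' z)) =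
        algebraMap (Fr κ⟦X⟧) M (algebraMap κ _ z) := by
  have := vn_ps κ
  have : CharZero (Fr κ⟦X⟧) := charZero_of_injective_ringHom (algebraMap κ _).injective
  let : Algebra κ⟦X⟧ M := ((algebraMap (Fr κ⟦X⟧) M).comp (algebraMap κ⟦X⟧ _)).toAlgebra
  have : IsScalarTower κ⟦X⟧ (Fr κ⟦X⟧) M := .of_algebraMap_eq fun _ => rfl
  obtain ⟨_, hfin, hl⟩ := vn_cdvr (K := Fr κ⟦X⟧) (E := M) κ⟦X⟧
  have := integralClosure.isFractionRing_of_finite_extension (A := κ⟦X⟧) (Fr κ⟦X⟧) M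
  obtain ⟨κ', _, ι, e, he⟩ := vn_coh (integralClosure κ⟦X⟧ M) κ
    ((algebraMap κ⟦X⟧ _).comp PowerSeries.C)
  obtain ⟨w, hw⟩ := vn_isVR (K := M) (integralClosure κ⟦X⟧ M)
  have h1 : ι.comp PowerSeries.constantCoeff = (PowerSeries.constantCoeff.comp
      (e : _ →+* κ'⟦X⟧)).comp (algebraMap κ⟦X⟧ (integralClosure κ⟦X⟧ M)) := by
    refine RingHom.ext fun a => ?_
    have h2 : ¬IsUnit (e (algebraMap κ⟦X⟧ _ (a - PowerSeries.C (PowerSeries.constantCoeff a)))) :=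
      fun h => by
        have h3 := hl.1 _ ((MulEquiv.isUnit_map e).1 h)
        rw [PowerSeries.isUnit_iff_constantCoeff, map_sub, PowerSeries.constantCoeff_C,
          sub_self] at h3
        exact not_isUnit_zero h3
    rw [PowerSeries.isUnit_iff_constantCoeff, isUnit_iff_ne_zero, not_not, map_sub, map_sub,
      map_sub, sub_eq_zero] at h2
    exact (h2.trans ((congrArg _ (he _)).trans (PowerSeries.constantCoeff_C _))).symm
  have h4 : ι.Finite := .of_comp_finite (f := PowerSeries.constantCoeff) (by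
    rw [h1]
    exact .comp (.of_surjective _ (PowerSeries.constantCoeff_surj.comp e.surjective))
      (RingHom.finite_algebraMap.2 hfin))
  have h5 := IsFractionRing.ringEquivOfRingEquiv_algebraMap (K := Fr κ'⟦X⟧) (L := M) e.symm
  refine ⟨κ', inferInstance, ι.toAlgebra, h4, IsFractionRing.ringEquivOfRingEquiv e.symm, w,
    ⟨hw.1, fun a b h => e.symm.injective (hw.2.1 ((h5 a).symm.trans (h.trans (h5 b)))),
      fun x => (hw.2.2 x).trans
      ⟨fun ⟨s, hs⟩ => ⟨e s, (h5 _).trans (by rw [e.symm_apply_apply, hs])⟩,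
        fun ⟨a, ha⟩ => ⟨e.symm a, (h5 a).symm.trans ha⟩⟩⟩, fun x => ?_, fun z => ?_⟩
  · rw [hw.2.2, h₀.2.2, RingHom.mem_range, RingHom.mem_range,
      ← IsIntegrallyClosed.isIntegral_iff (R := κ⟦X⟧),
      ← isIntegral_algebraMap_iff (algebraMap (Fr κ⟦X⟧) M).injective]
    exact ⟨fun ⟨s, hs⟩ => hs ▸ s.2, fun h => ⟨⟨_, h⟩, rfl⟩⟩
  · exact (h5 (PowerSeries.C (ι z))).trans (by rw [← he, e.symm_apply_apply]; rfl)

end Pool.Agent.ZCy
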