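import Pool.Agent.Lib.MP_751085_ag.ZC.R2
import Pool.Agent.Lib.MP_751085_ag.ZC.R3
import Pool.Agent.Lib.MP_751085_ag.ZC.R3b
import Pool.Agent.Lib.MP_751085_ag.ZC.RP

/-! Classes of the Brauer group of a variety are unramified. -/

namespace Pool.Agent.ZCy

open scoped Classical WithZero PowerSeries

/-- a class that is constant along all arcs is unramified -/
theorem unram_of_arc {k K : Type} [Field k] [CharZero k] [Field K] (ψ : k →+* K) {v : Vl K}
    (ht : Triv ψ v) {a : BR K} (h : ∀ (κ : Type) [Field κ] (ι : k →+* κ) (j : K →+* Fr κ⟦X⟧),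
      (∀ x, j (ψ x) = algebraMap κ (Fr κ⟦X⟧) (ι x)) →
        ∃ b : BR κ, rs j a = rs (algebraMap κ (Fr κ⟦X⟧)) b) : Unram v a := by
  have := charZero_of_injective_ringHom ψ.injective
  rcases triv_or_nrm v with h0 | ⟨u, hu, h1, h2⟩
  · exact unram_triv h0 a
  have ht' : Triv ψ u := fun x hx => (h1.eq_one (ψ x)).2 (ht x hx)
  obtain ⟨κ, _, ι, j, w, hw, hi, hj, hs⟩ := exists_arc ψ hu ht'
  obtain ⟨b, hb⟩ := h κ ι j hj
  have := charZero_of_injective_ringHom ι.injective
  exact (Unram.descend j hu hi hs (hasRes_of_char0 (fun n hn => ht'.nat hn) a)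
    (hb ▸ unram_const _ hw.triv b)).congr h2

/-- an arc is a germ in one variable -/
theorem unram_of_brauer {k K' : Type} [Field k] [CharZero k] [Field K'] {X : Var k} {a : BR X.F}
    (ha : a ∈ X.Brauer) (γ : X.F →+* K') {v : Vl K'} (hv : Triv (γ.comp (algebraMap k X.F)) v) :
    Unram v (rs γ a) := by
  refine unram_of_arc _ hv fun κ _ ι j hj => ?_
  let := ι.toAlgebra
  have := charZero_of_injective_ringHom ι.injective
  have := charZero_of_injective_ringHom (algebraMap k X.F).injective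
  have := charZero_of_injective_ringHom γ.injective
  have := charZero_of_injective_ringHom j.injective
  let e : κ⟦X⟧ ≃+* MvPowerSeries (Fin 1) κ :=
    (MvPowerSeries.renameEquiv κ (Equiv.ofUnique Unit (Fin 1))).toRingEquiv
  let ε : Fr κ⟦X⟧ ≃+* FractionRing (MvPowerSeries (Fin 1) κ) :=
    IsFractionRing.ringEquivOfRingEquiv e
  have hε : ∀ y, ε (algebraMap κ⟦X⟧ _ y) = algebraMap _ _ (e y) :=
    IsFractionRing.ringEquivOfRingEquiv_algebraMap e
  have hC : ∀ z, ε (algebraMap κ _ z) = algebraMap (MvPowerSeries (Fin 1) κ) _ (MvPowerSeries.C z) :=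
    fun z => (hε (MvPowerSeries.C z)).trans (congrArg _ (MvPowerSeries.rename_C _ z))
  obtain ⟨w, hw, -⟩ := exists_psV κ
  obtain ⟨c, y, -, h1, h2⟩ := hw.scale (x := fun i => j (γ (X.g i))) fun h0 => by
    obtain ⟨i, hi⟩ := X.one
    simpa [hi] using congrFun h0 i
  obtain ⟨β, δ, h3, h4⟩ := ha κ 1 (ε.toRingHom.comp (j.comp γ)) _
    ⟨fun z => (congrArg ε (hj z)).trans (hC _), h2, ε c, fun i => e (y i), fun i =>
      ⟨(hε _).symm.trans ((congrArg ε (h1 i)).trans (map_mul ε _ _)),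
        MvPowerSeries.constantCoeff_rename _ _⟩⟩
  refine ⟨β, res_injective_of_bijective (γ := ε.toRingHom)
    (Ω' := AlgebraicClosure (FractionRing (MvPowerSeries (Fin 1) κ))) ε.bijective ?_⟩
  have h5 : ε.toRingHom.comp (algebraMap κ _) =
      (algebraMap (MvPowerSeries (Fin 1) κ) _).comp MvPowerSeries.C := RingHom.ext hC
  rewrite [res_res γ j, res_res (j.comp γ)]
  exact (isRes_iff.1 h3).symm.trans ((isRes_iff.1 (h5 ▸ h4)).trans (res_res _ _ β).symm)

end Pool.Agent.ZCy
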