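import Pool.Agent.Lib.MP_751085_ag.ZC.R3b

/-! Cocycles in roots of unity and normalised splittings over the inertia group. -/

namespace Pool.Agent.ZCy

open scoped Classical WithZero
open groupCohomology

/-- With `t g` the representative of `g N` put `e g = c (t g, (t g)⁻¹ g)`. -/
theorem infl_of_norm {G A : Type} [Group G] [CommGroup A] [MulDistribMulAction G A]
    {D N : Subgroup G} {c : G × G → A} (hN : N ≤ D) (hn : ∀ g ∈ D, ∀ i ∈ N, g * i * g⁻¹ ∈ N)
    (hc : CocOn D c) (h1 : ∀ i ∈ N, ∀ i' ∈ N, c (i, i') = 1)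
    (h2 : ∀ g ∈ D, ∀ n ∈ N, ∀ n' ∈ N, g * n' = n * g → c (g, n') = c (n, g)) :
    ∃ e : G → A, (∀ g, ∃ p, e g = c p) ∧ Infl D N (c * dd e) := by
  have cj : ∀ g ∈ D, ∀ i ∈ N, g⁻¹ * i * g ∈ N := fun g hg i hi => by
    simpa only [inv_inv] using hn _ (inv_mem hg) i hi
  obtain ⟨t, t1, t2⟩ : ∃ t : G → G, (∀ g, (t g)⁻¹ * g ∈ N) ∧ ∀ g, ∀ i ∈ N, t (g * i) = t g :=
    ⟨fun g => (g : G ⧸ N).out, fun g => QuotientGroup.eq.1 (Quotient.out_eq _),
      fun g i hi => congrArg Quotient.out (QuotientGroup.mk_mul_of_mem g hi)⟩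
  have t3 : ∀ {H : Subgroup G}, N ≤ H → ∀ g ∈ H, t g ∈ H := fun hH g hg => by
    simpa using mul_mem hg (inv_mem (hH (t1 g)))
  obtain ⟨e, he⟩ : ∃ e : G → A, ∀ g, e g = c (t g, (t g)⁻¹ * g) := ⟨_, fun _ => rfl⟩
  have e1 : ∀ i ∈ N, e i = 1 := fun i hi => by rw [he, h1 _ (t3 le_rfl i hi) _ (t1 i)]
  refine ⟨e, fun g => ⟨_, he g⟩, infl_of_one hN hn (hc.mul (.of_coc (dd_coc e) D))
    (fun g hg i hi => ?_) fun g hg i hi => ?_⟩
  · have k := hc _ (t3 hN g hg) _ (hN (t1 g)) i (hN hi)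
    rw [h1 _ (t1 g) i hi, smul_one, one_mul, mul_inv_cancel_left, mul_assoc] at k
    rw [Pi.mul_apply, dd_apply, e1 i hi, smul_one, he, he, t2 g i hi, ← k]
    apply Additive.ofMul.injective
    simp only [ofMul_mul, ofMul_div, ofMul_one]
    abel
  · have tD := t3 hN g hg
    have k1 := hc i (hN hi) _ tD _ (hN (t1 g))
    have k2 := hc _ tD _ (hN (cj _ tD i hi)) _ (hN (t1 g))
    have k5 : t g * ((t g)⁻¹ * i * t g) = i * t g := by group
    have k3 := h2 _ tD i hi _ (cj _ tD i hi) k5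
    have k4 : t (i * g) = t g := by
      rw [show i * g = g * (g⁻¹ * i * g) by group, t2 g _ (cj g hg i hi)]
    rw [mul_inv_cancel_left, ← div_eq_iff_eq_mul] at k1
    rw [h1 _ (cj _ tD i hi) _ (t1 g), smul_one, one_mul, k5,
      show (t g)⁻¹ * i * t g * ((t g)⁻¹ * g) = (t g)⁻¹ * (i * g) by group] at k2
    rw [Pi.mul_apply, dd_apply, e1 i hi, he, he, k4, ← k1, ← k2, k3]
    apply Additive.ofMul.injective
    simp only [ofMul_mul, ofMul_div, ofMul_one]
    abel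

theorem r8_val {E : Type} [Field E] {w : Vl E} {m : ℕ} (hm : w (m : E) = 1) {u : Eˣ}
    (h : u ^ m = 1) : w (u : E) = 1 := by
  have h0 : (m : ℤ) ≠ 0 := fun h0 => by simp [Nat.cast_eq_zero.1 h0] at hm
  have := ord_pow (v := w) (u : E) m
  rw [← Units.val_pow_eq_pow_val, h, Units.val_one, ord_one, eq_comm, mul_eq_zero] at this
  exact (ord_eq_zero u.ne_zero).1 (this.resolve_left h0)

theorem r8_dd {G A : Type} [Group G] [CommGroup A] [MulDistribMulAction G A] {e : G → A} {m : ℕ}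
    (h : ∀ g, e g ^ m = 1) (p : G × G) : dd e p ^ m = 1 := by
  rw [← Pi.pow_apply, ← dd_pow, show e ^ m = 1 from funext h, dd_one, Pi.one_apply]

variable {K E : Type} [Field K] [Field E] [Algebra K E] [CharZero K] [FiniteDimensional K E]
  [IsGalois K E] {v : Vl K} {w : Vl E} {c : (E ≃ₐ[K] E) × (E ≃ₐ[K] E) → Eˣ}

/-- apply `infl_of_norm` to `c / dd e` -/
theorem unram_of_norm (hw : Over (algebraMap K E) v w) (hc : IsMulCocycle₂ c) {m : ℕ}
    (hm : w (m : E) = 1) (hp : ∀ p, c p ^ m = 1) {e : (E ≃ₐ[K] E) → Eˣ} (he : ∀ g, e g ^ m = 1)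
    (hs : ∀ g ∈ Ine K w, ∀ h ∈ Ine K w, c (g, h) = dd e (g, h))
    (hn : ∀ g ∈ Dec K w, ∀ n ∈ Ine K w, ∀ n' ∈ Ine K w, g * n' = n * g →
      c (g, n') / g • e n' = c (n, g) / e n) : Unram v (cls K c) := by
  have h1 := coc_div hc (dd_coc e)
  have p1 : ∀ p, (c / dd e) p ^ m = 1 := fun p => by
    rw [Pi.div_apply, div_pow, hp, r8_dd he, div_one]
  obtain ⟨e', h2, h3⟩ := infl_of_norm ine_le_dec ine_conj (CocOn.of_coc h1 (Dec K w))
    (fun i hi j hj => by rw [Pi.div_apply, hs i hi j hj, div_self']) fun g hg n hi n' hi' k => by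
      have k1 : n • e g = e g := Units.ext (ine_kum hi (r8_val hm (he g)) hm (by
        rw [← Units.val_pow_eq_pow_val, he, Units.val_one, map_one]))
      have k2 := hn g hg n hi n' hi' k
      rw [div_eq_iff_eq_mul] at k2
      rw [Pi.div_apply, Pi.div_apply, dd_apply, dd_apply, k, k1, k2]
      apply Additive.ofMul.injective
      simp only [ofMul_mul, ofMul_div]
      abel
  have := isRD_unit hw (coc_mul h1 (dd_coc e')) h3 fun g _ g' _ => r8_val hm (by
    rw [Pi.mul_apply, mul_pow, p1, one_mul]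
    exact r8_dd (fun g => by obtain ⟨p, k⟩ := h2 g; rw [k, p1]) _)
  have k1 : cls K (c / dd e) = cls K c := by
    rw [div_eq_mul_inv, ← dd_inv]; exact cls_mul_dd hc _
  have k : cls K (c / dd e * dd e') = cls K (c / dd e) := cls_mul_dd h1 e'
  rwa [k, k1] at this

/-- the quotient of the two sides has the form `M • z / z` with `z` a unit above -/
theorem Unram.norm (hw : Over (algebraMap K E) v w) (hc : IsMulCocycle₂ c) {m : ℕ}
    (hm : w (m : E) = 1) (hp : ∀ p, c p ^ m = 1) (hu : Unram v (cls K c))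
    {I : Subgroup (E ≃ₐ[K] E)} (hI : I ≤ Ine K w) {e : (E ≃ₐ[K] E) → Eˣ} (he : ∀ g, e g ^ m = 1)
    (hs : ∀ g ∈ I, ∀ h ∈ I, c (g, h) = dd e (g, h)) {g n n' : E ≃ₐ[K] E} (hg : g ∈ Dec K w)
    (hn : n ∈ I) (hn' : n' ∈ I) (hgn : g * n' = n * g) :
    c (g, n') / g • e n' = c (n, g) / e n := by
  obtain ⟨R, j, hR, hj⟩ := hu.up hw
  obtain ⟨r, hr⟩ := exists_pull (G := E ≃ₐ[K] E) (G' := R.E ≃ₐ[K] R.E) (γ := RingHom.id K)
    (j := (j : E →+* R.E)) j.commutes
  have hm' : R.w (m : R.E) = 1 := by simpa using (hj.eq_one m).2 hm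
  obtain ⟨b, hb⟩ := (cls_eq_iff (K := K) (pull_coc hr hc) R.coc).1 (by
    rw [← rs_cls (RingHom.id K) (j := (j : E →+* R.E)) j.commutes hr hc, R.cls_eq]; exact res_id _)
  have b1 : ∀ G ∈ Dec K R.w, R.w (b G : R.E) = 1 := fun G hG => by
    refine (ord_eq_zero (b G).ne_zero).1 ?_
    refine Int.cast_eq_zero.1 (hom_rat_zero (l := fun G => (ord R.w (b G : R.E) : ℚ))
      (fun G hG H hH => ?_) hG)
    have k : R.w (pull (j : E →+* R.E) r c (G, H) : R.Eˣ) = 1 :=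
      r8_val hm' (by rw [pull, ← map_pow, hp, map_one])
    rw [hb, Pi.mul_apply, Units.val_mul, map_mul, hR G hG H hH, one_mul,
      ← ord_eq_zero (Units.ne_zero _)] at k
    exact_mod_cast (sub_eq_zero.1 ((ord_dd hG H).symm.trans k)).symm
  obtain ⟨G, hG, rfl⟩ := (vn_up j hr hj).1 g hg
  obtain ⟨M, hM, rfl⟩ := (vn_up j hr hj).2 n (hI hn)
  let ρ := MonoidHom.mk' r (lk_mul hr)
  have hM' : G⁻¹ * M * G ∈ Ine K R.w := by simpa using ine_conj _ (inv_mem hG) M hM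
  obtain rfl : r (G⁻¹ * M * G) = n' := by
    change ρ _ = _
    rw [map_mul, map_mul, map_inv, mul_assoc, inv_mul_eq_iff_eq_mul]
    exact hgn.symm
  have d1 := one_mem (Dec K R.w)
  have n1 := one_mem (Ine K R.w)
  have cD := CocOn.of_coc R.coc (Dec K R.w)
  obtain ⟨J, hJ⟩ : ∃ J, J = Units.map ((j : E →+* R.E) : E →* R.E) := ⟨_, rfl⟩
  have hb' : ∀ G H, J (c (r G, r H)) = R.c (G, H) * dd b (G, H) := fun G H => by
    rw [hJ]; exact congrFun hb (G, H)
  have hs' : ∀ G u, J (r G • u) = G • J u := fun G u => by rw [hJ]; exact lk_units hr G u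
  obtain ⟨f, hf⟩ : ∃ f : (R.E ≃ₐ[K] R.E) → R.Eˣ, ∀ i, f i = R.c (1, 1) * b i / J (e (r i)) :=
    ⟨_, fun _ => rfl⟩
  have f1 : ∀ i ∈ Ine K R.w ⊓ I.comap ρ, ∀ i' ∈ Ine K R.w ⊓ I.comap ρ,
      f (i * i') = i • f i' * f i := fun i hi i' hi' => by
    have k := hb' i i'
    have k1 := R.infl.eq 1 d1 1 d1 i hi.1 i' hi'.1
    rw [one_mul, one_mul] at k1
    rw [hs (r i) hi.2 (r i') hi'.2, dd_apply, dd_apply, map_mul, map_div, k1, ← lk_mul hr, hs',
      div_mul_eq_mul_div, div_eq_iff_eq_mul, mul_comm (_ * _), ← div_eq_iff_eq_mul] at k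
    rw [hf, hf, hf, smul_div', smul_mul', R.infl.fix 1 d1 1 d1 i hi.1, ← k]
    apply Additive.ofMul.injective
    simp only [ofMul_mul, ofMul_div]
    abel
  obtain ⟨x, hx⟩ : ∃ x : R.Eˣ, ∀ i ∈ Ine K R.w ⊓ I.comap ρ, f i = i • x / x := h90 _ f f1
  have key : J (c (r G, r (G⁻¹ * M * G)) / r G • e (r (G⁻¹ * M * G)) / (c (r M, r G) / e (r M))) =
      M • (G • x / x / b G) / (G • x / x / b G) := by
    have k1 := R.infl.eq G hG 1 d1 1 n1 _ hM'
    have k2 := R.infl.eq 1 d1 G hG M hM 1 n1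
    have k3 := congrArg (G • ·) (hx _ ⟨hM', hn'⟩)
    have k4 := hx _ ⟨hM, hn⟩
    have k5 : G * (G⁻¹ * M * G) = M * G := by group
    rw [mul_one, one_mul, cD.one_right hG] at k1
    rw [mul_one, one_mul, cD.one_left hG] at k2
    simp only [hf, smul_div', smul_mul', ← mul_smul, k5, div_eq_iff_eq_mul] at k3 k4
    rw [mul_comm (_ / _), ← div_eq_iff_eq_mul] at k3 k4
    simp only [map_div, hb', hs', k1, k2, dd_apply, k5, ← k3, ← k4, smul_div', ← mul_smul]
    apply Additive.ofMul.injective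
    simp only [ofMul_mul, ofMul_div]
    abel
  rw [← div_eq_one]
  refine a2b_map_inj (j : E →+* R.E) ?_
  rw [← hJ, map_one]
  refine Units.ext (mu_eq_one hm' ?_ ?_)
  · rw [← Units.val_pow_eq_pow_val, ← map_pow]
    simp only [div_pow, hp, he, ← smul_pow', smul_one, div_one, map_one, Units.val_one]
  · rw [key, Units.val_div_eq_div_val]
    refine ine_unit hM ?_
    have k : R.w ((G • x : R.Eˣ) : R.E) = R.w x := hG x
    simp only [Units.val_div_eq_div_val, map_div₀, k, b1 G hG, div_one]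
    exact div_self (by simp)

end Pool.Agent.ZCy
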