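import Pool.Agent.Lib.MP_751085_ag.ZC.VNeed

/-! Elementary facts on orders, indices and residue maps. -/

namespace Pool.Agent.ZCy

open scoped Classical WithZero

variable {K K' K'' E E' Ω Ω' : Type} [Field K] [Field K'] [Field K''] [Field E] [Field E'] [Field Ω]
  [Field Ω'] {v : Vl K} {v' : Vl K'} {v'' : Vl K''} {φ : K →+* K'} {ψ : K' →+* K''} {x y : K}

theorem r0_ne (v : Vl K) (hx : x ≠ 0) : v x ≠ 0 := v.ne_zero_iff.2 hx

theorem ord_eq (hx : x ≠ 0) : v x = WithZero.exp (-ord v x) := by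
  rw [ord, neg_neg, WithZero.exp_log (r0_ne v hx)]

theorem ord_mul (hx : x ≠ 0) (hy : y ≠ 0) : ord v (x * y) = ord v x + ord v y := by
  rw [ord, ord, ord, map_mul, WithZero.log_mul (r0_ne v hx) (r0_ne v hy), neg_add]

theorem ord_one : ord v 1 = 0 := by
  rw [ord, map_one, WithZero.log_one, neg_zero]

theorem ord_inv (x : K) : ord v x⁻¹ = -ord v x := by
  rw [ord, ord, map_inv₀, WithZero.log_inv]

theorem ord_div (hx : x ≠ 0) (hy : y ≠ 0) : ord v (x / y) = ord v x - ord v y := by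
  rw [div_eq_mul_inv, ord_mul hx (inv_ne_zero hy), ord_inv, sub_eq_add_neg]

theorem ord_zpow (x : K) (n : ℤ) : ord v (x ^ n) = n * ord v x := by
  rw [ord, ord, map_zpow₀, WithZero.log_zpow, smul_eq_mul, mul_neg]

theorem ord_pow (x : K) (n : ℕ) : ord v (x ^ n) = n * ord v x := by
  rw [← zpow_natCast, ord_zpow]

theorem ord_eq_zero (hx : x ≠ 0) : ord v x = 0 ↔ v x = 1 := by
  rw [ord_eq hx, WithZero.exp_eq_one, neg_eq_zero]

theorem ord_nonneg (hx : x ≠ 0) : 0 ≤ ord v x ↔ v x ≤ 1 := by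
  rw [ord_eq hx, ← WithZero.exp_zero, WithZero.exp_le_exp, neg_nonpos]

theorem ord_pos (hx : x ≠ 0) : 0 < ord v x ↔ v x < 1 := by
  rw [ord_eq hx, ← WithZero.exp_zero, WithZero.exp_lt_exp, neg_lt_zero]

theorem ord_congr {y : K'} (h : v x = v' y) : ord v x = ord v' y := by
  rw [ord, ord, h]

theorem Nrm.exists_ord (h : Nrm v) : ∃ π : K, π ≠ 0 ∧ ord v π = 1 := by
  obtain ⟨π, hπ⟩ := h
  refine ⟨π, fun h0 => ?_, by rw [ord, hπ, WithZero.log_exp, neg_neg]⟩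
  rw [h0, map_zero] at hπ
  exact WithZero.exp_ne_zero hπ.symm

theorem r0_lt (v : Vl K) (hx : x ≠ 0) : v x < 1 ↔ ¬v x⁻¹ ≤ 1 := by
  rw [← ord_pos hx, ← ord_nonneg (inv_ne_zero hx), ord_inv]
  omega

theorem Over.lt (h : Over φ v v') (x : K) : v' (φ x) < 1 ↔ v x < 1 := by
  by_cases hx : x = 0
  · simp [hx]
  · rw [r0_lt v hx, r0_lt v' ((map_ne_zero φ).2 hx), ← map_inv₀, h]

theorem Over.comp (h : Over φ v v') (h' : Over ψ v' v'') : Over (ψ.comp φ) v v'' :=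
  fun x => (h' (φ x)).trans (h x)

theorem over_comap (φ : K →+* K') (v' : Vl K') : Over φ (v'.comap φ) v' := fun _ => Iff.rfl

theorem r0_idq (h : Over φ v v') {π : K} (h0 : π ≠ 0) (hx : x ≠ 0) :
    ord v π * ord v' (φ x) = ord v' (φ π) * ord v x := by
  have hy : x ^ ord v π / π ^ ord v x ≠ 0 := div_ne_zero (zpow_ne_zero _ hx) (zpow_ne_zero _ h0)
  have h1 : ord v (x ^ ord v π / π ^ ord v x) = 0 := by
    rw [ord_div (zpow_ne_zero _ hx) (zpow_ne_zero _ h0), ord_zpow, ord_zpow]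
    ring
  have h2 := (ord_eq_zero ((map_ne_zero φ).2 hy)).2 ((h.eq_one _).2 ((ord_eq_zero hy).1 h1))
  rw [map_div₀, map_zpow₀, map_zpow₀, ord_div (zpow_ne_zero _ ((map_ne_zero φ).2 hx))
    (zpow_ne_zero _ ((map_ne_zero φ).2 h0)), ord_zpow, ord_zpow] at h2
  linarith

theorem r0_pos (h : Over φ v v') {π : K} (h0 : π ≠ 0) (hπ : 0 < ord v π) : 0 < ord v' (φ π) :=
  (ord_pos ((map_ne_zero φ).2 h0)).2 ((h.lt π).2 ((ord_pos h0).1 hπ))

theorem r0_cases (v : Vl K) : (∀ x, x ≠ 0 → v x = 1) ∨ ∃ π : K, π ≠ 0 ∧ 0 < ord v π := by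
  by_cases h : ∀ x, x ≠ 0 → v x = 1
  · exact Or.inl h
  · push Not at h
    obtain ⟨x, hx, h1⟩ := h
    rw [Ne, ← ord_eq_zero hx] at h1
    rcases lt_or_gt_of_ne h1 with h2 | h2
    · exact Or.inr ⟨x⁻¹, inv_ne_zero hx, by rw [ord_inv]; omega⟩
    · exact Or.inr ⟨x, hx, h2⟩

theorem Over.idq (h : Over φ v v') : ∃ e : ℚ, 0 < e ∧ Idq φ v v' e := by
  rcases r0_cases v with ht | ⟨π, h0, hπ⟩
  · refine ⟨1, one_pos, fun x hx => ?_⟩
    rw [(ord_eq_zero hx).2 (ht x hx),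
      (ord_eq_zero ((map_ne_zero φ).2 hx)).2 ((h.eq_one x).2 (ht x hx)), one_mul]
  · have h1 : (0 : ℚ) < ord v π := by exact_mod_cast hπ
    have h2 : (0 : ℚ) < ord v' (φ π) := by exact_mod_cast r0_pos h h0 hπ
    refine ⟨ord v' (φ π) / ord v π, div_pos h2 h1, fun x hx => ?_⟩
    have h3 : (ord v π : ℚ) * ord v' (φ x) = ord v' (φ π) * ord v x := by
      exact_mod_cast r0_idq h h0 hx
    field_simp
    linarith

theorem Over.idq_nat (h : Over φ v v') (hv : Nrm v) : ∃ e : ℕ, 0 < e ∧ Idq φ v v' e := by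
  obtain ⟨π, h0, hπ⟩ := hv.exists_ord
  have h2 := r0_pos h h0 (by rw [hπ]; exact one_pos)
  refine ⟨(ord v' (φ π)).toNat, by omega, fun x hx => ?_⟩
  have h3 := r0_idq h h0 hx
  rw [hπ, one_mul, ← Int.toNat_of_nonneg h2.le] at h3
  exact_mod_cast h3

theorem Idq.isOver {e : ℚ} (h : Idq φ v v' e) (he : 0 < e) : Over φ v v' := fun x => by
  by_cases hx : x = 0
  · simp [hx]
  · rw [← ord_nonneg hx, ← ord_nonneg ((map_ne_zero φ).2 hx), ← Int.cast_nonneg_iff (R := ℚ),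
      h x hx, mul_nonneg_iff_of_pos_left he, Int.cast_nonneg_iff]

theorem Idq.comp {e e' : ℚ} (h : Idq φ v v' e) (h' : Idq ψ v' v'' e') :
    Idq (ψ.comp φ) v v'' (e' * e) := fun x hx => by
  rw [RingHom.comp_apply, h' _ ((map_ne_zero φ).2 hx), h x hx, mul_assoc]

theorem Idq.unique {e e' : ℚ} (h : Idq φ v v' e) (h' : Idq φ v v' e') (hv : Nrm v) : e = e' := by
  obtain ⟨π, h0, hπ⟩ := hv.exists_ord
  have h1 := (h π h0).symm.trans (h' π h0)
  simpa [hπ] using h1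

theorem idx_iff {e : ℕ} : Idx φ v v' e ↔ Idq φ v v' e := by
  refine forall_congr' fun x => forall_congr' fun hx => ?_
  rw [← map_pow, ord_eq ((map_ne_zero φ).2 hx), ord_eq (pow_ne_zero e hx), WithZero.exp_inj,
    neg_inj, ord_pow]
  exact ⟨fun h => by exact_mod_cast h, fun h => by exact_mod_cast h⟩

/-- the valuation is trivial or equivalent to a normalised one -/
theorem triv_or_nrm (v : Vl K) : (∀ x, x ≠ 0 → v x = 1) ∨
    ∃ w : Vl K, Nrm w ∧ Over (RingHom.id K) v w ∧ Over (RingHom.id K) w v := by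
  refine (r0_cases v).imp_right fun ⟨π, h0, hπ⟩ => ?_
  obtain ⟨w, hw, h⟩ := vn_nrm (w := v) h0 ((ord_pos h0).1 hπ)
  exact ⟨w, hw, h, fun x => (h x).symm⟩

theorem r0_alg [Algebra K E] {w : Vl E} (h : Triv (algebraMap K E) w) {x : E}
    (hx : IsAlgebraic K x) : w x ≤ 1 := by
  have hm : ∀ a : K, algebraMap K E a ∈ w.integer := fun a => by
    by_cases ha : a = 0
    · rw [ha, map_zero]
      exact zero_mem _
    · exact (h a ha).le
  let : Algebra K w.integer := ((algebraMap K E).codRestrict w.integer hm).toAlgebra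
  have : IsScalarTower K w.integer E := IsScalarTower.of_algebraMap_eq fun _ => rfl
  exact (Valuation.integer.integers w).mem_of_integral (hx.isIntegral.tower_top (A := w.integer))

/-- a valuation that is trivial on `K` is trivial on algebraic elements -/
theorem Triv.algebraic [Algebra K E] {w : Vl E} (h : Triv (algebraMap K E) w) {x : E}
    (hx : IsAlgebraic K x) (h0 : x ≠ 0) : w x = 1 :=
  eq_iff_le_not_lt.2 ⟨r0_alg h hx, fun h1 => (r0_lt w h0).1 h1 (r0_alg h hx.inv)⟩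

theorem Triv.nat [CharZero K] (h : Triv φ v') {n : ℕ} (hn : n ≠ 0) : v' (n : K') = 1 := by
  rw [← map_natCast φ]
  exact h _ (Nat.cast_ne_zero.2 hn)

/-- the sum of the powers `u ^ i`, `i < m`, is congruent to `m` -/
theorem mu_eq_one {u : K} {m : ℕ} (hm : v (m : K) = 1) (hu : u ^ m = 1) (h : v (u - 1) < 1) :
    u = 1 := by
  by_contra h1
  have h2 : ∀ i : ℕ, v (1 - u ^ i) < 1 := fun i => by
    induction i with
    | zero => simp
    | succ i ih =>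
      have e : 1 - u ^ (i + 1) = (1 - u ^ i) + ((1 - u ^ i) * (u - 1) - (u - 1)) := by ring
      rw [e]
      refine v.map_add_lt ih (v.map_sub_lt ?_ h)
      rw [map_mul]
      exact mul_lt_one_of_nonneg_of_lt_one_left zero_le ih h.le
  have h3 : ∑ i ∈ Finset.range m, u ^ i = 0 := by
    have := geom_sum_mul u m
    rw [hu, sub_self] at this
    exact (mul_eq_zero.1 this).resolve_right (sub_ne_zero.2 h1)
  have h4 := v.map_sum_lt (s := Finset.range m) one_ne_zero fun i _ => h2 i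
  rw [Finset.sum_sub_distrib, h3, sub_zero, Finset.sum_const, Finset.card_range, nsmul_eq_mul,
    mul_one, hm] at h4
  exact lt_irrefl _ h4

/-- `X ^ n - a` is the product of the `X - y`; evaluate at `1` -/
theorem exists_root_near {a : K} {n : ℕ} (hn : n ≠ 0) (ha : v (a - 1) < 1)
    (hs : (Polynomial.X ^ n - Polynomial.C a).Splits) : ∃ y : K, y ^ n = a ∧ v (y - 1) < 1 := by
  by_contra h
  push Not at h
  have hm := Polynomial.monic_X_pow_sub_C a hn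
  have h1 := congrArg v (hs.eval_eq_prod_roots_of_monic hm 1)
  rw [map_multiset_prod, Multiset.map_map] at h1
  have h2 : 1 ≤ v (1 - a) := by
    simp only [Polynomial.eval_sub, Polynomial.eval_pow, Polynomial.eval_X, Polynomial.eval_C,
      one_pow] at h1
    rw [h1]
    refine Multiset.one_le_prod_of_one_le fun z hz => ?_
    obtain ⟨y, hy, rfl⟩ := Multiset.mem_map.1 hz
    have h3 := (Polynomial.mem_roots hm.ne_zero).1 hy
    simp only [Polynomial.IsRoot, Polynomial.eval_sub, Polynomial.eval_pow, Polynomial.eval_X,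
      Polynomial.eval_C, sub_eq_zero] at h3
    rw [Function.comp_apply, Valuation.map_sub_swap]
    exact h y h3
  rw [Valuation.map_sub_swap] at h2
  exact absurd ha (not_lt.2 h2)

theorem r0_comp {ρ : v.integer →+* Ω} (h : IsRed v ρ) (ι : Ω →+* Ω') : IsRed v (ι.comp ρ) :=
  fun x => by rw [RingHom.comp_apply, map_eq_zero, h]

section

variable [Algebra K E] [Algebra K' E'] {w : Vl E} {w' : Vl E'}

theorem ine_conj : ∀ g ∈ Dec K w, ∀ i ∈ Ine K w, g * i * g⁻¹ ∈ Ine K w := fun g hg i hi =>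
  ⟨mul_mem (mul_mem hg hi.1) (inv_mem hg), fun x hx => by
    have e : (g * i * g⁻¹) x - x = g (i (g⁻¹ x) - g⁻¹ x) := by
      rw [map_sub, ← AlgEquiv.mul_apply g g⁻¹, mul_inv_cancel]
      rfl
    rw [e, hg]
    exact hi.2 _ ((inv_mem hg x).trans_le hx)⟩

theorem ord_dec {g : E ≃ₐ[K] E} (hg : g ∈ Dec K w) (x : E) : ord w (g x) = ord w x :=
  ord_congr (hg x)

theorem ord_dd {e : (E ≃ₐ[K] E) → Eˣ} {g : E ≃ₐ[K] E} (hg : g ∈ Dec K w) (h : E ≃ₐ[K] E) :
    ord w (dd e (g, h) : Eˣ) = ord w (e g : E) + ord w (e h : E) - ord w (e (g * h) : E) := by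
  have e1 : ((dd e (g, h) : Eˣ) : E) = g (e h) / e (g * h) * e g := by
    rw [dd, Units.val_mul, Units.val_div_eq_div_val]
    rfl
  have h1 : g (e h) ≠ 0 := (map_ne_zero g).2 (e h).ne_zero
  rw [e1, ord_mul (div_ne_zero h1 (e _).ne_zero) (e _).ne_zero, ord_div h1 (e _).ne_zero,
    ord_dec hg]
  ring

theorem ine_unit {g : E ≃ₐ[K] E} (hg : g ∈ Ine K w) {x : E} (hx : w x = 1) :
    w (g x / x - 1) < 1 := by
  have h0 : x ≠ 0 := fun h => by simp [h] at hx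
  rw [div_sub_one h0, map_div₀, hx, div_one]
  exact hg.2 x hx.le

theorem ine_kum {g : E ≃ₐ[K] E} (hg : g ∈ Ine K w) {x : E} (hx : w x = 1) {n : ℕ}
    (hn : w (n : E) = 1) (h : g (x ^ n) = x ^ n) : g x = x := by
  have h0 : x ≠ 0 := fun h => by simp [h] at hx
  refine (div_eq_one_iff_eq h0).1 (mu_eq_one hn ?_ (ine_unit hg hx))
  rw [div_pow, ← map_pow, h, div_self (pow_ne_zero n h0)]

theorem ine_triv (h : ∀ x, x ≠ 0 → w x = 1) : Dec K w = ⊤ ∧ Ine K w = ⊥ := by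
  refine ⟨eq_top_iff.2 fun g _ x => ?_, eq_bot_iff.2 fun g hg => AlgEquiv.ext fun x => ?_⟩
  · by_cases hx : x = 0
    · rw [hx, map_zero]
    · rw [h x hx, h _ ((map_ne_zero g).2 hx)]
  · by_contra h1
    have h2 : w x ≤ 1 := by
      by_cases hx : x = 0
      · simp [hx]
      · exact (h x hx).le
    exact (hg.2 x h2).ne (h _ (sub_ne_zero.2 h1))

/-- base change: `vn_dec` -/
theorem dec_up [FiniteDimensional K E] {j : E →+* E'} {r : (E' ≃ₐ[K'] E') → E ≃ₐ[K] E}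
    (hr : ∀ g x, j (r g x) = g (j x)) (h : Over j w w') :
    (∀ g ∈ Dec K' w', r g ∈ Dec K w) ∧ ∀ g ∈ Ine K' w', r g ∈ Ine K w := by
  have h1 : ∀ g ∈ Dec K' w', r g ∈ Dec K w := fun g hg =>
    vn_dec fun x => by rw [← h, hr, hg, h]
  refine ⟨h1, fun g hg => ⟨h1 g hg.1, fun x hx => ?_⟩⟩
  rw [← h.lt, map_sub, hr]
  exact hg.2 _ ((h x).2 hx)

/-- two elements with the same action on residues -/
theorem ine_of_cmp {ρ : w.integer →+* Ω} (hρ : IsRed w ρ) {d d' : E ≃ₐ[K] E} (hd : d ∈ Dec K w)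
    (hd' : d' ∈ Dec K w) {γ : Ω → Ω} (h : Cmp d ρ ρ γ) (h' : Cmp d' ρ ρ γ) : d⁻¹ * d' ∈ Ine K w :=
  ⟨mul_mem (inv_mem hd) hd', fun x hx => by
    have e : d ((d⁻¹ * d') x - x) = d' x - d x := by
      rw [map_sub, ← AlgEquiv.mul_apply, mul_inv_cancel_left]
    have h1 := h ⟨x, hx⟩ ⟨d x, (hd x).trans_le hx⟩ rfl
    have h2 := h' ⟨x, hx⟩ ⟨d' x, (hd' x).trans_le hx⟩ rfl
    rw [← hd, e]
    exact (hρ (⟨d' x, (hd' x).trans_le hx⟩ - ⟨d x, (hd x).trans_le hx⟩)).1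
      (by rw [map_sub, h1, h2, sub_self])⟩

theorem mem_ine_iff {ρ : w.integer →+* Ω} (hρ : IsRed w ρ) {d : E ≃ₐ[K] E} (hd : d ∈ Dec K w) :
    d ∈ Ine K w ↔ Cmp d ρ ρ id := by
  refine ⟨fun h x y e => ?_, fun h => ?_⟩
  · rw [id, ← sub_eq_zero, ← map_sub, hρ]
    have := h.2 x x.2
    rwa [← e] at this
  · have := ine_of_cmp hρ (one_mem _) hd (fun x y e => congrArg ρ (Subtype.ext e)) h
    rwa [inv_one, one_mul] at this

/-- `vn_red` for `ρ` and `γ ∘ ρ` -/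
theorem exists_dec [FiniteDimensional K E] [IsGalois K E] {ρ : w.integer →+* Ω} (hρ : IsRed w ρ)
    (γ : Ω →+* Ω) (hγ : ∀ (a : K) (y : w.integer), (y : E) = algebraMap K E a → γ (ρ y) = ρ y) :
    ∃ d ∈ Dec K w, Cmp d ρ ρ γ :=
  vn_red hρ (r0_comp hρ γ) fun a y e => (hγ a y e).symm

end

theorem Cmp.comp {Ω'' : Type} [Field Ω''] {ρ : v.integer →+* Ω} {ρ' : v'.integer →+* Ω'}
    {ρ'' : v''.integer →+* Ω''} {f : K → K'} {f' : K' → K''} {ι : Ω → Ω'} {ι' : Ω' → Ω''}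
    (h : Cmp f ρ ρ' ι) (h' : Cmp f' ρ' ρ'' ι') (hf : ∀ x, v x ≤ 1 → v' (f x) ≤ 1) :
    Cmp (f' ∘ f) ρ ρ'' (ι' ∘ ι) := fun x y e => by
  rw [h' ⟨f x, hf x x.2⟩ y e, h x ⟨f x, hf x x.2⟩ rfl]
  rfl

theorem IsRed.of_cmp {ρ : v.integer →+* Ω} {ρ' : v'.integer →+* Ω'} (h : Over φ v v')
    (h' : IsRed v' ρ') {ι : Ω →+* Ω'} (hc : Cmp φ ρ ρ' ι) : IsRed v ρ := fun x => by
  rw [← map_eq_zero ι, ← hc x ⟨φ x, (h x).2 x.2⟩ rfl, h', h.lt]

/-- the restriction of a residue map -/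
theorem Over.red (h : Over φ v v') {ρ' : v'.integer →+* Ω} (h' : IsRed v' ρ') :
    ∃ ρ : v.integer →+* Ω, IsRed v ρ ∧ Cmp φ ρ ρ' id := by
  have hc : Cmp φ (ρ'.comp (φ.restrict v.integer v'.integer fun x hx => (h x).2 hx)) ρ'
      (RingHom.id Ω) := fun x y e => congrArg ρ' (Subtype.ext e)
  exact ⟨_, IsRed.of_cmp h h' hc, hc⟩

theorem exists_redc (v : Vl K) : ∃ (Ω : Type) (_ : Field Ω) (_ : IsAlgClosed Ω)
    (ρ : v.integer →+* Ω), IsRed v ρ := by
  refine ⟨AlgebraicClosure (IsLocalRing.ResidueField v.integer), inferInstance, inferInstance,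
    _, IsRed.comp (ρ := IsLocalRing.residue v.integer) (fun x => ?_) (algebraMap _ _)⟩
  rw [IsLocalRing.residue_eq_zero_iff, IsLocalRing.mem_maximalIdeal, mem_nonunits_iff,
    Valuation.Integer.not_isUnit_iff_valuation_lt_one]

/-- the residue field as a subfield -/
theorem IsRed.subfield {ρ : v.integer →+* Ω} (h : IsRed v ρ) :
    ∃ L : Subfield Ω, ∀ z, z ∈ L ↔ z ∈ ρ.range := by
  refine ⟨{ ρ.range with inv_mem' := ?_ }, fun _ => Iff.rfl⟩
  rintro _ ⟨x, rfl⟩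
  by_cases hx : IsUnit x
  · obtain ⟨u, rfl⟩ := hx
    exact ⟨(u⁻¹ : v.integerˣ), map_units_inv ρ u⟩
  · exact ⟨0, by
      rw [(h x).2 (Valuation.Integer.not_isUnit_iff_valuation_lt_one.1 hx), inv_zero, map_zero]⟩

end Pool.Agent.ZCy
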