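import Pool.Agent.Lib.MP_751085_ag.ZC.R0

/-! Composita with valuations and residue maps; the tame inertia group. -/

namespace Pool.Agent.ZCy

open scoped Classical WithZero

variable {K K' E Ω : Type} [Field K] [Field K'] [Field E] [Field Ω] [Algebra K E]

/-- An automorphism of a subfield extends: take a transcendence basis `T` of `Ω` over `L`; `Ω` is an
algebraic closure of `MvPolynomial T L` (or of `Algebra.adjoin L (range T)`);
`IsAlgClosure.equivOfEquiv`, `IsAlgClosure.equivOfEquiv_algebraMap`. -/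
theorem exists_aut_ext [IsAlgClosed Ω] (L : Subfield Ω) (σ : L ≃+* L) :
    ∃ γ : Ω ≃+* Ω, ∀ x : L, γ x = σ x := by
  obtain ⟨T, hT⟩ := exists_isTranscendenceBasis L Ω
  have := IsAlgClosed.isAlgClosure_of_transcendence_basis _ hT
  let e := hT.1.aevalEquiv.symm.toRingEquiv.trans
    ((MvPolynomial.mapEquiv T σ).trans hT.1.aevalEquiv.toRingEquiv)
  have he : ∀ x : L, e (algebraMap L _ x) = algebraMap L _ (σ x) := fun x => by
    change hT.1.aevalEquiv (MvPolynomial.mapEquiv T σ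
      (hT.1.aevalEquiv.symm (algebraMap L _ x))) = _
    rw [AlgEquiv.commutes, MvPolynomial.algebraMap_eq, MvPolynomial.mapEquiv_apply,
      MvPolynomial.map_C, ← MvPolynomial.algebraMap_eq, AlgEquiv.commutes]
    rfl
  refine ⟨IsAlgClosure.equivOfEquiv Ω Ω e, fun x => ?_⟩
  have h := IsAlgClosure.equivOfEquiv_algebraMap Ω Ω e (algebraMap L _ x)
  rw [he] at h
  exact h

/-- the action of the decomposition group on the residue field -/
theorem exists_redAct {w : Vl E} {ρ : w.integer →+* Ω} (hρ : IsRed w ρ) {L : Subfield Ω}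
    (hL : ∀ z, z ∈ L ↔ z ∈ ρ.range) : ∃ act : Dec K w →* (L ≃+* L),
      ∀ (d : Dec K w) (x y : w.integer) (z : L), (y : E) = d.1 x → (z : Ω) = ρ x →
        (act d z : Ω) = ρ y := by
  let ρ' : w.integer →+* L := ρ.codRestrict L fun x => (hL _).2 ⟨x, rfl⟩
  have hs : Function.Surjective ρ' := fun z => by
    obtain ⟨x, hx⟩ := (hL _).1 z.2
    exact ⟨x, Subtype.ext hx⟩
  let gi : Dec K w → w.integer →+* w.integer := fun g =>
    ((g.1 : E →+* E).comp w.integer.subtype).codRestrict w.integer fun x =>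
      (g.2 x).trans_le x.2
  have hk : ∀ g, RingHom.ker ρ' ≤ RingHom.ker (ρ'.comp (gi g)) := fun g x hx => by
    have h1 : ρ x = 0 := congrArg Subtype.val hx
    exact Subtype.ext ((hρ _).2 ((g.2 x).trans_lt ((hρ x).1 h1)))
  let f : Dec K w → L →+* L := fun g => ρ'.liftOfSurjective hs ⟨ρ'.comp (gi g), hk g⟩
  have hl : ∀ g x, f g (ρ' x) = ρ' (gi g x) := fun g x =>
    ρ'.liftOfSurjective_comp_apply hs ⟨ρ'.comp (gi g), hk g⟩ x
  have hm : ∀ g g' z, f (g * g') z = f g (f g' z) := fun g g' z => by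
    obtain ⟨x, rfl⟩ := hs z
    rw [hl, hl, hl]
    rfl
  have h1 : ∀ z, f 1 z = z := fun z => by
    obtain ⟨x, rfl⟩ := hs z
    rw [hl]
    rfl
  let a : Dec K w → L ≃+* L := fun g => RingEquiv.ofRingHom (f g) (f g⁻¹)
    (RingHom.ext fun z => by rw [RingHom.comp_apply, ← hm, mul_inv_cancel, h1]; rfl)
    (RingHom.ext fun z => by rw [RingHom.comp_apply, ← hm, inv_mul_cancel, h1]; rfl)
  refine ⟨MonoidHom.mk' a fun g g' => RingEquiv.ext fun z => hm g g' z, fun d x y z hy hz => ?_⟩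
  obtain rfl : z = ρ' x := Subtype.ext hz
  obtain rfl : y = gi d x := Subtype.ext hy
  exact congrArg Subtype.val (hl d x)

theorem exists_aut [IsAlgClosed Ω] {w : Vl E} {ρ : w.integer →+* Ω} (hρ : IsRed w ρ)
    {d : E ≃ₐ[K] E} (hd : d ∈ Dec K w) : ∃ γ : Ω ≃+* Ω, Cmp d ρ ρ γ := by
  obtain ⟨L, hL⟩ := hρ.subfield
  obtain ⟨act, ha⟩ := exists_redAct (K := K) hρ hL
  obtain ⟨γ, hγ⟩ := exists_aut_ext L (act ⟨d, hd⟩)
  exact ⟨γ, fun x y hy => ((hγ ⟨ρ x, (hL _).2 ⟨x, rfl⟩⟩).trans (ha ⟨d, hd⟩ x y _ hy rfl)).symm⟩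

/-- A finite Galois extension of `K'` that contains `E` and splits given polynomials over `E`: lift
`E` to the algebraic closure of `K'`, adjoin the image of a basis and the roots, `exists_level`
(file A2) or `IntermediateField.normalClosure`. -/
theorem exists_big [CharZero K'] [FiniteDimensional K E] (φ : K →+* K') (s : Finset (Polynomial E)) :
    ∃ (E' : Type) (_ : Field E') (_ : Algebra K' E') (_ : FiniteDimensional K' E')
      (_ : IsGalois K' E') (j : E →+* E'), (∀ a, j (algebraMap K E a) = algebraMap K' E' (φ a)) ∧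
      ∀ p ∈ s, (p.map j).Splits := by
  let _ : Algebra K (AlgebraicClosure K') := ((algebraMap K' _).comp φ).toAlgebra
  let j₀ : E →ₐ[K] AlgebraicClosure K' := IsAlgClosed.lift
  let b := Module.finBasis K E
  let S : Finset (AlgebraicClosure K') := Finset.univ.image (fun i => j₀ (b i)) ∪
    s.biUnion fun p => (p.map (j₀ : E →+* AlgebraicClosure K')).roots.toFinset
  let F := FiniteGaloisIntermediateField.adjoin K' (S : Set (AlgebraicClosure K'))
  have hS : ∀ x ∈ S, x ∈ F.toIntermediateField := fun x hx =>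
    FiniteGaloisIntermediateField.subset_adjoin K' _ hx
  have hj : ∀ x, (j₀ : E →+* AlgebraicClosure K') x ∈ F.toIntermediateField := fun x => by
    rw [← b.sum_repr x, map_sum]
    refine sum_mem fun i _ => ?_
    rw [Algebra.smul_def, map_mul]
    refine mul_mem ?_ (hS _ (Finset.mem_union_left _ (Finset.mem_image_of_mem _ (Finset.mem_univ i))))
    exact (j₀.commutes _).symm ▸ F.toIntermediateField.algebraMap_mem (φ _)
  refine ⟨F.toIntermediateField, inferInstance, inferInstance, inferInstance, inferInstance,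
    (j₀ : E →+* AlgebraicClosure K').codRestrict F.toIntermediateField hj,
    fun a => Subtype.ext (j₀.commutes a), fun p hp => ?_⟩
  refine Polynomial.Splits.of_splits_map (algebraMap F.toIntermediateField (AlgebraicClosure K'))
    (IsAlgClosed.splits _) fun a ha => ?_
  rw [Polynomial.map_map] at ha
  exact ⟨⟨a, hS a (Finset.mem_union_right _
    (Finset.mem_biUnion.2 ⟨p, hp, Multiset.mem_toFinset.2 ha⟩))⟩, rfl⟩

theorem r0b_tower {F : Type} [Field F] [Algebra K F] [FiniteDimensional K F] (j : E →+* F)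
    (hj : ∀ a, j (algebraMap K E a) = algebraMap K F a) :
    letI := j.toAlgebra
    IsScalarTower K E F ∧ FiniteDimensional E F := by
  let _ := j.toAlgebra
  have : IsScalarTower K E F := .of_algebraMap_eq fun a => (hj a).symm
  exact ⟨this, Module.Finite.of_restrictScalars_finite K E F⟩

theorem r0b_ext {F : Type} [Field F] [Algebra K F] [FiniteDimensional K F] (j : E →+* F)
    (hj : ∀ a, j (algebraMap K E a) = algebraMap K F a) (w : Vl E) : ∃ w' : Vl F, Over j w w' := by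
  let _ := j.toAlgebra
  have := (r0b_tower j hj).2
  exact vn_exists w

theorem r0b_over {F : Type} [Field F] [Algebra K F] {j : E →+* F}
    (hj : ∀ a, j (algebraMap K E a) = algebraMap K F a) {v : Vl K} {w : Vl E} {w' : Vl F}
    (h : Over (algebraMap K E) v w) (h' : Over j w w') : Over (algebraMap K F) v w' := fun a => by
  rw [← hj]
  exact (h' _).trans (h a)

/-- `exists_big`, any `w'` over `v'`; then `w'.comap j` lies over `v`; correct `j` by `vn_conj`. -/
theorem exists_above [CharZero K'] [FiniteDimensional K E] [IsGalois K E] (φ : K →+* K') {v : Vl K}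
    {v' : Vl K'} (h : Over φ v v') {w : Vl E} (hw : Over (algebraMap K E) v w) :
    ∃ (E' : Type) (_ : Field E') (_ : Algebra K' E') (_ : FiniteDimensional K' E')
      (_ : IsGalois K' E') (j : E →+* E') (w' : Vl E'),
      (∀ a, j (algebraMap K E a) = algebraMap K' E' (φ a)) ∧ Over j w w' ∧
      Over (algebraMap K' E') v' w' := by
  obtain ⟨E', _, _, _, _, j, hj, -⟩ := exists_big (E := E) φ ∅
  obtain ⟨w', hw'⟩ := vn_exists (E := E') v'
  have h1 : Over (algebraMap K E) v (w'.comap j) := fun a => by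
    rw [Valuation.comap_apply, hj]
    exact (hw' _).trans (h a)
  obtain ⟨g, hg⟩ := vn_conj h1 hw
  refine ⟨E', inferInstance, inferInstance, inferInstance, inferInstance, j.comp (g : E →+* E), w',
    fun a => ?_, fun x => (hg x).symm, hw'⟩
  rw [← hj]
  exact congrArg j (g.commutes a)

/-- The same above a given finite extension `E₁` of `K'`, with residue maps. First make `E'` Galois
over `K'` above `E₁` (`exists_big`, `vn_exists`, `vn_redext`), large enough to contain `E`; correct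
the embedding of `E` by `vn_conj`, then by `vn_red`. -/
theorem exists_above_red [CharZero K'] [IsAlgClosed Ω] [FiniteDimensional K E] [IsGalois K E]
    (φ : K →+* K') {E₁ : Type} [Field E₁] [Algebra K' E₁] [FiniteDimensional K' E₁] {w : Vl E}
    {w₁ : Vl E₁} {ρ : w.integer →+* Ω} {ρ₁ : w₁.integer →+* Ω} (hρ : IsRed w ρ) (hρ₁ : IsRed w₁ ρ₁)
    (h : ∀ a : K, w₁ (algebraMap K' E₁ (φ a)) ≤ 1 ↔ w (algebraMap K E a) ≤ 1)
    (hc : ∀ (a : K) (y : w.integer) (y₁ : w₁.integer), (y : E) = algebraMap K E a →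
      (y₁ : E₁) = algebraMap K' E₁ (φ a) → ρ₁ y₁ = ρ y) :
    ∃ (E' : Type) (_ : Field E') (_ : Algebra K' E') (_ : FiniteDimensional K' E')
      (_ : IsGalois K' E') (j : E →+* E') (j₁ : E₁ →ₐ[K'] E') (w' : Vl E') (ρ' : w'.integer →+* Ω),
      (∀ a, j (algebraMap K E a) = algebraMap K' E' (φ a)) ∧ Over j w w' ∧
      Over (j₁ : E₁ →+* E') w₁ w' ∧ IsRed w' ρ' ∧ Cmp j ρ ρ' id ∧ Cmp j₁ ρ₁ ρ' id := by
  have : CharZero E₁ := charZero_of_injective_ringHom (algebraMap K' E₁).injective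
  obtain ⟨F, _, _, _, _, i, u, hi, hu, hu₁⟩ := exists_above ((algebraMap K' E₁).comp φ)
    (v := w.comap (algebraMap K E)) (v' := w₁) h (over_comap _ w)
  let _ : Algebra K' F := ((algebraMap E₁ F).comp (algebraMap K' E₁)).toAlgebra
  have : IsScalarTower K' E₁ F := .of_algebraMap_eq fun _ => rfl
  have : FiniteDimensional K' F := Module.Finite.trans E₁ F
  obtain ⟨E', _, _, _, _, i', hi', -⟩ := exists_big (E := F) (RingHom.id K') ∅
  obtain ⟨w', hw'⟩ := r0b_ext i' hi' u
  let j₁ : E₁ →ₐ[K'] E' := { i'.comp (algebraMap E₁ F) with commutes' := hi' }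
  have o₁ : Over (j₁ : E₁ →+* E') w₁ w' := hu₁.comp hw'
  have o : Over (i'.comp i) w w' := hu.comp hw'
  obtain ⟨ρ', hρ', c₁⟩ : ∃ ρ' : w'.integer →+* Ω, IsRed w' ρ' ∧ Cmp j₁ ρ₁ ρ' id := by
    let _ := (j₁ : E₁ →+* E').toAlgebra
    have := (r0b_tower (j₁ : E₁ →+* E') j₁.commutes).2
    exact vn_redext o₁ hρ₁
  obtain ⟨ρ₂, hρ₂, c₂⟩ := o.red hρ'
  obtain ⟨d, hd, c⟩ := vn_red (K := K) hρ₂ hρ fun a y hy => by
    have h1 : w₁ (algebraMap K' E₁ (φ a)) ≤ 1 := (h a).2 (hy ▸ y.2)
    have h2 := c₁ ⟨_, h1⟩ ⟨_, (o₁ _).2 h1⟩ rfl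
    have h3 := c₂ y ⟨_, (o₁ _).2 h1⟩ (by
      rw [hy]
      exact congrArg i' (hi a).symm)
    exact h3.symm.trans (h2.trans (hc a y ⟨_, h1⟩ hy rfl))
  refine ⟨E', inferInstance, inferInstance, inferInstance, inferInstance,
    (i'.comp i).comp (d : E →+* E), j₁, w', ρ', fun a => ?_, fun x => ?_, o₁, hρ',
    c.comp c₂ fun x hx => (hd x).trans_le hx, c₁⟩
  · exact (congrArg (i'.comp i) (d.commutes a)).trans ((congrArg i' (hi a)).trans (hi' (φ a)))
  · exact (o (d x)).trans (by rw [hd x])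

/-- principal units -/
def r0b_U (w : Vl E) : Subgroup Eˣ where
  carrier := {x | w ((x : E) - 1) < 1}
  one_mem' := by simp
  mul_mem' := fun {x y} hx hy => by
    have h1 : w (x : E) = 1 := by simpa using w.map_one_add_of_lt hx
    have : ((x * y : Eˣ) : E) - 1 = x * (y - 1) + (x - 1) := by push_cast; ring
    change w _ < 1
    rw [this]
    exact w.map_add_lt (by rw [map_mul, h1, one_mul]; exact hy) hx
  inv_mem' := fun {x} hx => by
    have h1 : w (x : E) = 1 := by simpa using w.map_one_add_of_lt hx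
    have : ((x⁻¹ : Eˣ) : E) - 1 = -((x : E)⁻¹ * (x - 1)) := by
      rw [Units.val_inv_eq_inv_val]
      field_simp
      ring
    change w _ < 1
    rw [this, Valuation.map_neg, map_mul, map_inv₀, h1, inv_one, one_mul]
    exact hx

/-- the class of `g x / x` -/
noncomputable def r0b_psi (w : Vl E) (g : E ≃ₐ[K] E) : Eˣ →* Eˣ ⧸ r0b_U w :=
  (QuotientGroup.mk' _).comp (Units.map (g : E →* E) / MonoidHom.id _)

theorem r0b_psi_eq {w : Vl E} {g : E ≃ₐ[K] E} {x : Eˣ} :
    r0b_psi w g x = 1 ↔ w (g x / x - 1) < 1 := by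
  refine (QuotientGroup.eq_one_iff _).trans ?_
  change w (((Units.map (g : E →* E) x / x : Eˣ) : E) - 1) < 1 ↔ _
  rw [Units.val_div_eq_div_val]
  rfl

theorem r0b_psi_mul {w : Vl E} {g h : E ≃ₐ[K] E} (hg : g ∈ Ine K w) (hh : h ∈ Ine K w) (x : Eˣ) :
    r0b_psi w (g * h) x = r0b_psi w g x * r0b_psi w h x := by
  have h1 : r0b_psi w g (Units.map (h : E →* E) x / x) = 1 := r0b_psi_eq.2 (ine_unit hg (by
    rw [Units.val_div_eq_div_val, map_div₀]
    exact (div_eq_one_iff_eq (w.ne_zero_iff.2 x.ne_zero)).2 (hh.1 x)))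
  rw [map_div, div_eq_one] at h1
  rw [← h1]
  refine Eq.trans ?_ (map_mul (QuotientGroup.mk' (r0b_U w)) _ _)
  exact congrArg _ (div_mul_div_cancel _ _ _).symm

theorem r0b_dvd [FiniteDimensional K E] {w : Vl E} (hw : Nrm w) {s : E ≃ₐ[K] E} (hs : s ∈ Ine K w)
    (ho : w (orderOf s : E) = 1) {f : E} (hf : f ≠ 0) (h : s f = f) :
    ∃ x : E, x ≠ 0 ∧ w (f / x ^ orderOf s) = 1 := by
  obtain ⟨π, h0, hπ⟩ := hw.exists_ord
  let p := Units.mk0 π h0
  let θ : Ine K w →* Eˣ ⧸ r0b_U w :=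
    MonoidHom.mk' (fun g => r0b_psi w g.1 p) fun g g' => r0b_psi_mul g.2 g'.2 p
  have hu : w (f / π ^ ord w f) = 1 := by
    rw [← ord_eq_zero (div_ne_zero hf (zpow_ne_zero _ h0)), ord_div hf (zpow_ne_zero _ h0),
      ord_zpow, hπ, mul_one, sub_self]
  have h1 : r0b_psi w s (Units.mk0 f hf / p ^ ord w f) = 1 := r0b_psi_eq.2 (ine_unit hs (by
    rw [Units.val_div_eq_div_val, Units.val_zpow_eq_zpow_val]
    exact hu))
  have h2 : r0b_psi w s (Units.mk0 f hf) = 1 := r0b_psi_eq.2 (by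
    rw [Units.val_mk0, h, div_self hf, sub_self, map_zero]
    exact zero_lt_one)
  rw [map_div, div_eq_one, h2, map_zpow] at h1
  have h3 : θ (⟨s, hs⟩ ^ ord w f) = 1 := (map_zpow θ _ _).trans h1.symm
  have h4 : s ^ ord w f = 1 := by
    refine vn_theta (π := π) (by rw [ord_eq h0, hπ]) (zpow_mem hs _) ?_ (r0b_psi_eq.1 h3)
    obtain ⟨k, hk⟩ := orderOf_dvd_of_mem_zpowers (Subgroup.zpow_mem_zpowers s (ord w f))
    rw [hk, Nat.cast_mul, map_mul] at ho
    have a : ∀ n : ℕ, w (n : E) ≤ 1 := fun n => natCast_mem w.integer n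
    exact le_antisymm (a _) (ho.symm.trans_le (mul_le_of_le_one_right' (a k)))
  obtain ⟨c, hc⟩ := orderOf_dvd_iff_zpow_eq_one.2 h4
  refine ⟨π ^ c, zpow_ne_zero _ h0, ?_⟩
  rw [← zpow_natCast, ← zpow_mul, mul_comm, ← hc]
  exact hu

/-- Normalise `w` (`triv_or_nrm`, `vn_congr`); `f = u π ^ m`, so `(s π / π) ^ m ≡ 1`, and
`s ^ m π / π ≡ (s π / π) ^ m`; `vn_theta` gives `s ^ m = 1`. -/
theorem ine_dvd [FiniteDimensional K E] {w : Vl E} {s : E ≃ₐ[K] E} (hs : s ∈ Ine K w)
    (ho : w (orderOf s : E) = 1) {f : E} (hf : f ≠ 0) (h : s f = f) :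
    ∃ x : E, x ≠ 0 ∧ w f = w x ^ orderOf s := by
  rcases triv_or_nrm w with ht | ⟨w', hw', h1, h2⟩
  · exact ⟨1, one_ne_zero, by rw [ht f hf, map_one, one_pow]⟩
  · obtain ⟨x, hx, e⟩ := r0b_dvd hw' ((vn_congr (K := K) h1).2 ▸ hs) ((h1.eq_one _).2 ho) hf h
    have e' : w (f / x ^ orderOf s) = 1 := (h1.eq_one _).1 e
    rw [map_div₀, map_pow, div_eq_one_iff_eq (pow_ne_zero _ (w.ne_zero_iff.2 hx))] at e'
    exact ⟨x, hx, e'⟩

/-- `Ine` is cyclic of order `o`; `ine_dvd` for a uniformiser of `K` gives `o ∣ e`; the product of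
the conjugates of a uniformiser of `E` under `Ine` has order `o`, `vn_fix` gives `e ∣ o`. -/
theorem card_ine [FiniteDimensional K E] [IsGalois K E] {v : Vl K} {w : Vl E} (hv : Nrm v)
    (hw : Nrm w) {e : ℕ} (h : Idq (algebraMap K E) v w e) (ht : Tame K w) :
    Nat.card (Ine K w) = e := by
  have := vn_cyclic ht
  obtain ⟨s, hs⟩ := IsCyclic.exists_ofOrder_eq_natCard (α := Ine K w)
  have hs' : orderOf s.1 = Nat.card (Ine K w) := (Subgroup.orderOf_coe s).trans hs
  refine Nat.dvd_antisymm (Int.natCast_dvd_natCast.1 ?_) (Int.natCast_dvd_natCast.1 ?_)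
  · obtain ⟨ϖ, h0, hϖ⟩ := hv.exists_ord
    obtain ⟨x, -, hx⟩ := ine_dvd s.2 (hs' ▸ ht) ((map_ne_zero (algebraMap K E)).2 h0)
      (s.1.commutes ϖ)
    have h1 := h ϖ h0
    rw [← map_pow] at hx
    rw [ord_congr hx, ord_pow, hϖ, hs', Int.cast_one, mul_one] at h1
    exact ⟨ord w x, by exact_mod_cast h1.symm⟩
  · obtain ⟨π, h0, hπ⟩ := hw.exists_ord
    let _ := Fintype.ofFinite (Ine K w)
    obtain ⟨y, hy⟩ := vn_fix (K := K) (w := w) (x := ∏ g : Ine K w, g.1 π) fun g hg => by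
      rw [map_prod]
      exact Fintype.prod_equiv (Equiv.mulLeft (⟨g, hg⟩ : Ine K w)) _ _ fun _ => rfl
    have h1 : w (∏ g : Ine K w, g.1 π) = w (π ^ Nat.card (Ine K w)) := by
      rw [map_prod, map_pow, Finset.prod_congr rfl fun (g : Ine K w) _ => g.2.1 π,
        Finset.prod_const, Nat.card_eq_fintype_card, Finset.card_univ]
    have hy0 : y ≠ 0 := by
      rintro rfl
      rw [h1, map_zero, map_zero, w.zero_iff] at hy
      exact pow_ne_zero _ h0 hy
    have h2 := h y hy0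
    rw [← ord_congr (h1.symm.trans hy), ord_pow, hπ, mul_one] at h2
    exact ⟨ord v y, by exact_mod_cast h2⟩

/-- `exists_big` over `K` above a Galois extension of `E` -/
theorem Hens.ext [CharZero K] [FiniteDimensional K E] {v : Vl K} {w : Vl E} (h : Hens v)
    (hw : Over (algebraMap K E) v w) : Hens w := by
  intro F _ _ _ _ u hu
  let _ : Algebra K F := ((algebraMap E F).comp (algebraMap K E)).toAlgebra
  have : IsScalarTower K E F := .of_algebraMap_eq fun _ => rfl
  have : FiniteDimensional K F := Module.Finite.trans E F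
  obtain ⟨E', _, _, _, _, j, hj, -⟩ := exists_big (E := F) (RingHom.id K) ∅
  obtain ⟨w', hw'⟩ := r0b_ext j hj u
  have ht := h E' w' (r0b_over hj (hw.comp hu) hw')
  let _ := j.toAlgebra
  have := (r0b_tower j hj).1
  refine eq_top_iff.2 fun g _ => vn_dec fun x => ?_
  have h1 : (g.restrictScalars K).liftNormal E' ∈ Dec K w' := by rw [ht]; trivial
  have h2 : w' (j (g x)) = w' (j x) :=
    (congrArg w' ((g.restrictScalars K).liftNormal_commutes E' x).symm).trans (h1 _)
  rw [← hw' (g x), h2]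
  exact hw' x

/-- the prolongation is unique -/
theorem Hens.uniq [CharZero K] [FiniteDimensional K E] {v : Vl K} {w w' : Vl E} (h : Hens v)
    (hw : Over (algebraMap K E) v w) (hw' : Over (algebraMap K E) v w') (x : E) :
    w' x ≤ 1 ↔ w x ≤ 1 := by
  obtain ⟨E', _, _, _, _, j, hj, -⟩ := exists_big (E := E) (RingHom.id K) ∅
  obtain ⟨u, hu⟩ := r0b_ext j hj w
  obtain ⟨u', hu'⟩ := r0b_ext j hj w'
  obtain ⟨g, hg⟩ := vn_conj (r0b_over hj hw hu) (r0b_over hj hw' hu')
  have h1 : g ∈ Dec K u := by rw [h E' u (r0b_over hj hw hu)]; trivial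
  rw [← hu' x, hg, h1]
  exact hu x

end Pool.Agent.ZCy
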