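import Pool.Agent.Lib.MP_751085_ag.ZC.R0b
import Pool.Agent.Lib.MP_751085_ag.ZC.R1
import Pool.Agent.Lib.MP_751085_ag.ZC.G3

/-! In residue characteristic zero every class has a residue. -/

namespace Pool.Agent.ZCy

open scoped Classical WithZero
open groupCohomology Subgroup Polynomial

variable {K : Type} [Field K] [CharZero K] {v : Vl K}

omit [CharZero K] in
theorem r2_unit {E : Type} [Field E] [Algebra K E] [FiniteDimensional K E] {w : Vl E}
    {c : (E ≃ₐ[K] E) × (E ≃ₐ[K] E) → Eˣ} (hc : IsMulCocycle₂ c) {s : E ≃ₐ[K] E} (hs : s ∈ Ine K w)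
    (ho : w (orderOf s : E) = 1) :
    ∃ f : Eˣ, w f = 1 ∧ s • f = f ∧ CobOn (zpowers s) (c / cyc s f) := by
  have hf := isOfFinOrder_of_finite s
  obtain ⟨f, h1, h2⟩ := exists_cyc hf (.of_coc hc _)
  obtain ⟨x, x0, hx⟩ := ine_dvd hs ho f.ne_zero (congrArg Units.val h1)
  have h3 := cyc_norm hf (Units.mk0 x x0)
  generalize hN : ∏ i ∈ Finset.range (orderOf s), s ^ i • Units.mk0 x x0 = N at h3
  have h4 : s • N = N := by
    have := Finset.prod_range_succ' (fun i => s ^ i • Units.mk0 x x0) (orderOf s)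
    rw [Finset.prod_range_succ, pow_orderOf_eq_one, pow_zero, mul_left_inj, hN] at this
    refine .trans ?_ this.symm
    simp only [← hN, Finset.smul_prod', pow_succ', mul_smul]
  have h5 : w N = w f := by
    rw [hx, ← hN, Units.coe_prod, map_prod, ← Finset.card_range (orderOf s), ← Finset.prod_const,
      Finset.card_range]
    exact Finset.prod_congr rfl fun i _ => pow_mem hs.1 i x
  refine ⟨f / N, ?_, by rw [smul_div', h1, h4], (h2.mul h3).congr fun g _ g' _ => ?_⟩
  · rw [Units.val_div_eq_div_val, map_div₀, h5, div_self (w.ne_zero_of_unit f)]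
  · simp only [Pi.mul_apply, Pi.div_apply, cyc, div_pow, div_div_eq_mul_div, div_mul_eq_mul_div]

/-- kill the cocycle on the inertia group by adjoining roots of units -/
theorem hasRes_of_char0 (h0 : ∀ n : ℕ, n ≠ 0 → v (n : K) = 1) (a : BR K) : HasRes v a := by
  obtain ⟨L, _, _, c, -, hc, rfl⟩ := exists_cls a ∅
  obtain ⟨w₀, hw₀⟩ := vn_exists (E := L) v
  have n0 : ∀ s : L ≃ₐ[K] L, orderOf s ≠ 0 := fun s => (orderOf_pos s).ne'
  have hn : ∀ {E : Type} [Field E] [Algebra K E] {w : Vl E}, Over (algebraMap K E) v w →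
      ∀ n : ℕ, n ≠ 0 → w (n : E) = 1 := fun h n hn => by
    rw [← map_natCast (algebraMap K _), h.eq_one, h0 n hn]
  choose! f h1 h2 h3 using fun s (hs : s ∈ Ine K w₀) => r2_unit hc hs (hn hw₀ _ (n0 s))
  obtain ⟨E, _, _, _, _, j, hj, hs⟩ := exists_big (E := L) (RingHom.id K)
    (Finset.univ.image fun s => X ^ orderOf s - C (f s : L))
  obtain ⟨r, -, hr⟩ := exists_lk_of hj
  let := j.toAlgebra
  have : IsScalarTower K L E := .of_algebraMap_eq fun a => (hj a).symm
  have : FiniteDimensional L E := Module.Finite.of_restrictScalars_finite K L E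
  obtain ⟨w, hw⟩ := vn_exists (E := E) w₀
  have hw' : Over (algebraMap K E) v w := fun x => (hj x ▸ hw _ :).trans (hw₀ x)
  obtain ⟨t, ht⟩ := (vn_cyclic (K := K) (hn hw' _ Nat.card_pos.ne')).exists_generator
  have hs' := (dec_up hr hw).2 _ t.2
  obtain ⟨y, hy⟩ := (hs _ (Finset.mem_image_of_mem _ (Finset.mem_univ (r t)))).exists_eval_eq_zero
    (by rw [degree_map, degree_X_pow_sub_C (orderOf_pos _)]; exact Nat.cast_ne_zero.2 (n0 _))
  simp only [Polynomial.map_sub, Polynomial.map_pow, map_X, map_C, eval_sub, eval_pow, eval_X,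
    eval_C, sub_eq_zero] at hy
  have y0 : y ≠ 0 := fun h => (f (r t)).ne_zero (j.injective (by
    rw [← hy, h, zero_pow (n0 _), map_zero]))
  have y1 : t.1 y = y := ine_kum t.2 ((pow_eq_one_iff_of_nonneg zero_le (n0 (r t))).1 (by
    rw [← map_pow, hy]; exact (hw.eq_one _).2 (h1 _ hs'))) (hn hw' _ (n0 (r t))) (by
    rw [hy, ← hr]; exact congrArg (fun u : Lˣ => j u) (h2 _ hs'))
  have hz : ∀ g ∈ Ine K w, g ∈ zpowers t.1 := fun g hg =>
    (ht ⟨g, hg⟩).imp fun _ h => congrArg Subtype.val h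
  have hm : ∀ g ∈ Ine K w, r g ∈ zpowers (r t) := fun g hg =>
    (hz g hg).imp fun k h => ((map_zpow (MonoidHom.mk' r (lk_mul hr)) _ k).symm.trans (congrArg r h))
  have h4 := cyc_root (isOfFinOrder_of_finite (r t)) (fun g _ h _ => lk_mul hr g h) hm
    (r := Units.mk0 y y0) fun g hg => g3_fix (Units.ext y1) (hz g hg)
  obtain ⟨e, he⟩ := h3 _ hs'
  rw [← res_id (cls K c), ← rs, rs_cls _ hj hr hc]
  refine hasRes_of_cob hw' (pull_coc hr hc) (((cobOn_dd _ fun g =>
    Units.map (j : L →* E) (e (r g))).mul h4).congr fun g hg g' hg' => ?_)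
  have h5 : _ = Units.map (j : L →* E) (dd e (r g, r g')) := (congrFun (pull_dd hr e) (g, g')).symm
  have h6 : Units.mk0 y y0 ^ orderOf (r t) = Units.map (j : L →* E) (f (r t)) := Units.ext hy
  refine .trans ?_ (congrArg (· * _) h5.symm)
  simp only [pull, cyc, h6, ← map_pow, ← map_mul, ← he _ (hm g hg) _ (hm g' hg'), Pi.div_apply,
    div_mul_cancel]

end Pool.Agent.ZCy
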