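import Pool.Agent.Lib.MP_751085_ag.ZC.R0b
import Pool.Agent.Lib.MP_751085_ag.ZC.R1
import Pool.Agent.Lib.MP_751085_ag.ZC.G3

/-! Unramified classes over local fields vanish. -/

namespace Pool.Agent.ZCy

open scoped Classical WithZero
open groupCohomology


theorem cob_of_act {G L : Type} [Group G] [Field L] [Finite L] (act : G →* (L ≃+* L))
    {c : G × G → Lˣ} (hc : ∀ g h j, c (g * h, j) * c (g, h) =
      Units.map (act g : L →* L) (c (h, j)) * c (g, h * j))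
    (hi : ∀ g h g' h', act g = act g' → act h = act h' → c (g, h) = c (g', h')) :
    ∃ e : G → Lˣ, ∀ g h, c (g, h) = Units.map (act g : L →* L) (e h) / e (g * h) * e g := by
  choose σ hσ using fun h : act.range => h.2
  have hm (g h : act.range) : act (σ g * σ h) = act (σ (g * h)) := by
    rw [map_mul, hσ, hσ, hσ]; rfl
  obtain ⟨e, he⟩ := cob_of_finite (G := act.range) (c := fun p => c (σ p.1, σ p.2)) fun g h j => by
    have := hc (σ g) (σ h) (σ j)
    rw [hi _ _ _ _ (hm g h) rfl, hi _ _ _ _ rfl (hm h j), hσ] at this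
    exact this
  refine ⟨fun g => e (act.rangeRestrict g), fun g h => ?_⟩
  simp only [hi g h _ _ (hσ (act.rangeRestrict g)).symm (hσ (act.rangeRestrict h)).symm, map_mul]
  exact congrFun he (_, _)

variable {K E Ω : Type} [Field K] [Field E] [Field Ω] [Algebra K E] [FiniteDimensional K E]
  {v : Vl K} {w : Vl E} {ρ : v.integer →+* Ω} {ρ' : w.integer →+* Ω} {s : ℕ}

theorem finite_range (hw : Over (algebraMap K E) v w) (hρ : IsRed v ρ)
    (hc : Cmp (algebraMap K E) ρ ρ' id) (h : Finite ρ.range) : Finite ρ'.range := by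
  let n := Module.finrank K E
  let P : (Fin (n + 1) → ρ.range) → Polynomial Ω := fun a => ∑ i, Polynomial.monomial i.1 (a i).1
  refine (Set.finite_iUnion fun a => (P a).rootSet_finite Ω).subset (t := (ρ'.range : Set Ω)) ?_
  rintro _ ⟨y, rfl⟩
  obtain ⟨g, h1, i, h2⟩ := Fintype.not_linearIndependent_iff.1
    fun h : LinearIndependent K fun i : Fin (n + 1) => (y : E) ^ i.1 =>
      absurd h.fintype_card_le_finrank (by simp [n])
  obtain ⟨m, hm⟩ := Finite.exists_max fun i => v (g i)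
  have h0 : 0 < v (g m) := ((v.pos_iff).2 h2).trans_le (hm i)
  have h3 (i) : v (g i / g m) ≤ 1 := by rw [map_div₀, div_le_one₀ h0]; exact hm i
  let a : Fin (n + 1) → ρ.range := fun i => ρ.rangeRestrict ⟨g i / g m, h3 i⟩
  refine Set.mem_iUnion.2 ⟨a, Polynomial.mem_rootSet.2 ⟨fun h => ?_, ?_⟩⟩
  · have := congrArg (Polynomial.coeff · m.1) h
    simp only [P, Polynomial.finsetSum_coeff, Polynomial.coeff_monomial, Fin.val_inj,
      Finset.sum_ite_eq', Finset.mem_univ, if_true, Polynomial.coeff_zero] at this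
    have e : (⟨g m / g m, h3 m⟩ : v.integer) = 1 := Subtype.ext (div_self (v.pos_iff.1 h0))
    simp [a, e] at this
  · have e : ∑ i : Fin (n + 1), (⟨algebraMap K E (g i / g m), (hw _).2 (h3 i)⟩ : w.integer) *
        y ^ i.1 = 0 := Subtype.ext (by
      push_cast
      simp only [div_mul_eq_mul_div, ← Finset.sum_div, ← Algebra.smul_def, h1, zero_div])
    have := congrArg ρ' e
    rw [map_sum, map_zero] at this
    simp only [P, map_sum, Polynomial.aeval_monomial, ← this, map_mul, map_pow]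
    exact Finset.sum_congr rfl fun i _ => congrArg (· * _) (hc ⟨_, h3 i⟩ _ rfl).symm

theorem exists_frob_pow (hw : Over (algebraMap K E) v w) (hρ : IsRed w ρ')
    (hc : Cmp (algebraMap K E) ρ ρ' id) (hs : Nat.card ρ.range = s) (h0 : 0 < s) {d : E ≃ₐ[K] E}
    (hd : d ∈ Dec K w) : ∃ i : ℕ, Cmp d ρ' ρ' fun x => x ^ s ^ i := by
  have h1 : IsRed v ρ := IsRed.of_cmp hw hρ (ι := RingHom.id Ω) hc
  have h2 : Finite ρ.range := Nat.finite_of_card_ne_zero (hs ▸ h0.ne')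
  have h3 := finite_range hw h1 hc h2
  obtain ⟨L, hL⟩ := hρ.subfield
  obtain ⟨k, hk⟩ := h1.subfield
  obtain ⟨act, ha⟩ := exists_redAct (K := K) hρ hL
  have : Finite L := Finite.of_equiv _ (Equiv.subtypeEquivRight fun z => (hL z).symm)
  have e : k ≃ ρ.range := Equiv.subtypeEquivRight hk
  have : Finite k := Finite.of_equiv _ e.symm
  have h4 (x : v.integer) : ρ' ⟨algebraMap K E x, (hw _).2 x.2⟩ = ρ x := hc x _ rfl
  have hkL : k ≤ L := fun z hz => by
    obtain ⟨x, rfl⟩ := (hk z).1 hz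
    exact (hL _).2 ⟨_, h4 x⟩
  let := (Subfield.inclusion hkL).toAlgebra
  obtain ⟨p, hp⟩ := CharP.exists k
  have : Fact p.Prime := ⟨CharP.char_is_prime k p⟩
  obtain ⟨i, hi⟩ := FiniteField.exists_forall_apply_eq_pow k p L
    (AlgEquiv.ofRingEquiv (f := act ⟨d, hd⟩) fun z => Subtype.ext (by
      obtain ⟨x, hx⟩ := (hk z).1 z.2
      exact (ha ⟨d, hd⟩ _ _ _ (d.commutes x).symm ((h4 x).trans hx).symm).trans ((h4 x).trans hx)))
  refine ⟨i, fun x y hy => ?_⟩
  rw [← ha ⟨d, hd⟩ x y ⟨ρ' x, (hL _).2 ⟨x, rfl⟩⟩ hy rfl, ← hs, ← Nat.card_congr e]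
  exact congrArg Subtype.val (hi _)

/-- principal units -/
def r4_U (w : Vl E) : Subgroup Eˣ where
  carrier := {u | w (u - 1 : E) < 1}
  one_mem' := by simp
  mul_mem' := fun {a b} ha hb => by
    have e : ((a * b : Eˣ) : E) - 1 = a * (b - 1) + (a - 1) := by push_cast; ring
    have h : w a = 1 := (w.map_eq_of_sub_lt (w.map_one ▸ ha)).trans w.map_one
    change w _ < 1
    rw [e]
    exact w.map_add_lt (by rwa [map_mul, h, one_mul]) ha
  inv_mem' := fun {a} ha => by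
    have e : ((a⁻¹ : Eˣ) : E) - 1 = -(a - 1) / a := by push_cast; field_simp; ring
    have h : w a = 1 := (w.map_eq_of_sub_lt (w.map_one ▸ ha)).trans w.map_one
    change w _ < 1
    rwa [e, map_div₀, h, div_one, w.map_neg]

omit [FiniteDimensional K E] in
theorem r4_smul {g : E ≃ₐ[K] E} (hg : g ∈ Dec K w) {u : Eˣ} (h : u ∈ r4_U w) : g • u ∈ r4_U w := by
  change w (g u - 1) < 1
  rwa [← map_one g, ← map_sub, hg]

theorem r4_split {N : ℕ} (hN : v (N : K) = 1) (n : ℕ) :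
    n ≠ 0 → ∃ a b : ℕ, n = a * b ∧ v (a : K) = 1 ∧ b.Coprime N := by
  induction n using Nat.recOnMul with
  | zero => exact fun h => (h rfl).elim
  | one => exact fun _ => ⟨1, 1, rfl, by simp, by simp⟩
  | prime p hp =>
    intro _
    by_cases h : p ∣ N
    · obtain ⟨m, rfl⟩ := h
      have h1 (k : ℕ) : v (k : K) ≤ 1 := natCast_mem v.integer k
      rw [Nat.cast_mul, map_mul] at hN
      exact ⟨p, 1, by simp, (h1 p).antisymm (hN ▸ mul_le_of_le_one_right' (h1 m)), by simp⟩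
    · exact ⟨1, p, by simp, by simp, hp.coprime_iff_not_dvd.2 h⟩
  | mul a b ha hb =>
    intro h
    obtain ⟨a₁, a₂, rfl, h1, h2⟩ := ha (left_ne_zero_of_mul h)
    obtain ⟨b₁, b₂, rfl, h3, h4⟩ := hb (right_ne_zero_of_mul h)
    exact ⟨a₁ * b₁, a₂ * b₂, by ring, by rw [Nat.cast_mul, map_mul, h1, h3, one_mul],
      h2.mul_left h4⟩

omit [Algebra K E] [FiniteDimensional K E] in
/-- the graph of the residue map on units -/
theorem r4_graph (hρ : IsRed w ρ') (L : Subfield Ω) : ∃ Γ : Subgroup (Eˣ × Lˣ),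
    ∀ u z, (u, z) ∈ Γ ↔ ∃ y : w.integer, (y : E) = u ∧ ρ' y = (z : L) := by
  refine ⟨⟨⟨⟨{p | ∃ y : w.integer, (y : E) = p.1 ∧ ρ' y = (p.2 : L)}, ?_⟩, 1, rfl, map_one _⟩, ?_⟩,
    fun _ _ => Iff.rfl⟩
  · rintro a b ⟨x, h1, h2⟩ ⟨y, h3, h4⟩
    exact ⟨x * y, by simp [h1, h3], by simp [h2, h4]⟩
  · rintro a ⟨x, h1, h2⟩
    have h0 : ρ' x ≠ 0 := by simp [h2]
    have h : w a.1 = 1 := h1 ▸ le_antisymm x.2 (not_lt.1 (mt (hρ x).2 h0))
    let y : w.integer := ⟨(a.1 : E)⁻¹, show w _ ≤ 1 by rw [map_inv₀, h, inv_one]⟩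
    have e : y * x = 1 := Subtype.ext (by simp [y, h1])
    refine ⟨y, by simp [y], ?_⟩
    rw [eq_inv_of_mul_eq_one_left ((map_mul ρ' y x).symm.trans (by rw [e, map_one])), h2]
    simp

variable [CharZero K] [IsGalois K E]

theorem cls_eq_zero_of_near (hv : Hens v) (hw : Over (algebraMap K E) v w)
    {c : (E ≃ₐ[K] E) × (E ≃ₐ[K] E) → Eˣ} (hc : IsMulCocycle₂ c) (h1 : ∀ p, w (c p - 1 : E) < 1)
    {N : ℕ} (hN : v (N : K) = 1) (h : N • cls K c = 0) : cls K c = 0 := by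
  obtain ⟨a, b, e, ha, hb⟩ := r4_split hN (Fintype.card (⊤ : Subgroup (E ≃ₐ[K] E)))
    Fintype.card_ne_zero
  have a0 : a ≠ 0 := by rintro rfl; simp at ha
  let e₁ : (E ≃ₐ[K] E) → Eˣ := fun x => ∏ j : (⊤ : Subgroup (E ≃ₐ[K] E)), c (x, j)
  have h2 : (c ^ b) ^ a = dd e₁ := funext fun p => by
    rw [← pow_mul, mul_comm, ← e]
    exact (coc_iff.1 hc).pow_card trivial trivial
  obtain ⟨E', _, _, _, _, j, hj, hs⟩ := exists_big (E := E) (RingHom.id K)
    (Finset.univ.image fun g => Polynomial.X ^ a - Polynomial.C (e₁ g : E))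
  obtain ⟨w', hw'⟩ := vn_exists (E := E') v
  have h3 : Over j w w' := hv.uniq hw (w' := w'.comap j) fun x => by
    rw [Valuation.comap_apply, hj]; exact hw' x
  have h4 {u : Eˣ} (hu : u ∈ r4_U w) : Units.map (j : E →* E') u ∈ r4_U w' := by
    change w' (j u - 1) < 1
    rwa [← map_one j, ← map_sub, h3.lt]
  obtain ⟨r, hr⟩ := exists_pull (G := E ≃ₐ[K] E) (G' := E' ≃ₐ[K] E') hj
  have h5 (g) : ∃ u ∈ r4_U w', u ^ a = Units.map (j : E →* E') (e₁ g) := by
    obtain ⟨y, h6, h7⟩ := exists_root_near (v := w') a0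
      (h4 (prod_mem fun k _ => h1 (g, k) : e₁ g ∈ r4_U w))
      (by simpa [e₁, Polynomial.map_prod] using
        hs _ (Finset.mem_image_of_mem _ (Finset.mem_univ g)))
    exact ⟨Units.mk0 y (by rintro rfl; rw [zero_pow a0] at h6; exact Units.ne_zero _ h6.symm), h7,
      Units.ext h6⟩
  choose u hu hu' using h5
  have h6 : pull j r (c ^ b) = dd fun g => u (r g) := funext fun p => by
    have hd : p.1 ∈ Dec K w' := hv E' w' hw' ▸ trivial
    refine div_eq_one.1 (Units.ext (mu_eq_one (v := w') (m := a) ?_ ?_ ?_))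
    · rw [← map_natCast (algebraMap K E'), hw'.eq_one, ha]
    · rw [← Units.val_pow_eq_pow_val, div_pow, ← Pi.pow_apply (dd _), ← dd_pow, pull, ← map_pow,
        ← Pi.pow_apply, h2, Units.val_eq_one, div_eq_one]
      exact (congrFun (pull_dd hr e₁) p).trans (by simp only [← hu']; rfl)
    · exact (div_mem (h4 (pow_mem (h1 _) b)) (mul_mem (div_mem (r4_smul hd (hu _)) (hu _)) (hu _)) :
        _ ∈ r4_U w')
  have h7 : b • cls K c = 0 := by
    rw [← cls_pow hc, ← res_id (cls K (c ^ b)), rs_cls _ hj hr (coc_pow hc b), h6]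
    exact cls_dd _
  exact AddMonoid.addOrderOf_eq_one_iff.1 (Nat.eq_one_of_dvd_coprimes hb
    (addOrderOf_dvd_of_nsmul_eq_zero h7) (addOrderOf_dvd_of_nsmul_eq_zero h))

theorem LocV.eq_zero (hv : LocV v ρ s) {a : BR K} {N : ℕ} (hN : v (N : K) = 1) (ha : N • a = 0)
    (h : Unram v a) : a = 0 := by
  obtain ⟨R, hR⟩ := h
  have hw := R.idq.isOver R.e_pos
  have hd (g) : g ∈ Dec K R.w := hv.hens R.E R.w hw ▸ trivial
  have h1 := hv.red.comp (algebraMap Ω (AlgebraicClosure Ω))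
  obtain ⟨ρ', h2, h3⟩ := vn_redext hw h1
  have : Finite ρ.range := Nat.finite_of_card_ne_zero (hv.card ▸ hv.pos.ne')
  have h4 := finite_range hw h1 h3 (Finite.of_surjective (fun z : ρ.range =>
    (⟨algebraMap Ω _ z.1, z.2.imp fun _ h => congrArg (algebraMap Ω _) h⟩ :
      ((algebraMap Ω (AlgebraicClosure Ω)).comp ρ).range))
    fun ⟨_, x, hx⟩ => ⟨⟨_, x, rfl⟩, Subtype.ext hx⟩)
  obtain ⟨L, hL⟩ := h2.subfield
  have : Finite L := Finite.of_equiv _ (Equiv.subtypeEquivRight fun z => (hL z).symm)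
  obtain ⟨act₀, hact⟩ := exists_redAct (K := K) h2 hL
  let act := act₀.comp ((MonoidHom.id _).codRestrict _ hd)
  obtain ⟨Γ, hΓ⟩ := r4_graph h2 L
  have g1 (p) : ∃ z, (R.c p, z) ∈ Γ := by
    have e := hR _ (hd p.1) _ (hd p.2)
    exact ⟨Units.mk0 ⟨ρ' ⟨_, e.le⟩, (hL _).2 ⟨_, rfl⟩⟩
      fun h => ((h2 _).1 (congrArg Subtype.val h)).ne e, (hΓ _ _).2 ⟨_, rfl, rfl⟩⟩
  have g2 (z) : ∃ u, (u, z) ∈ Γ := by
    obtain ⟨y, hy⟩ := (hL _).1 z.1.2
    exact ⟨Units.mk0 y fun h => z.ne_zero (Subtype.ext (hy.symm.trans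
      ((h2 y).2 (by rw [h, map_zero]; exact zero_lt_one)))), (hΓ _ _).2 ⟨y, rfl, hy⟩⟩
  have g3 {u u' z z'} (h : (u, z) ∈ Γ) (h' : (u', z') ∈ Γ) (e : u = u') : z = z' := by
    obtain ⟨y, h5, h6⟩ := (hΓ _ _).1 h
    obtain ⟨y', h7, h8⟩ := (hΓ _ _).1 h'
    obtain rfl : y = y' := Subtype.ext (by rw [h5, h7, e])
    exact Units.ext (Subtype.ext (h6.symm.trans h8))
  have g4 {u z} (g) (h : (u, z) ∈ Γ) : (g • u, Units.map (act g : L →* L) z) ∈ Γ := by
    obtain ⟨y, h5, h6⟩ := (hΓ _ _).1 h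
    exact (hΓ _ _).2 ⟨⟨g y, (hd g y).trans_le y.2⟩, congrArg g h5,
      (hact ⟨g, hd g⟩ y _ _ rfl h6.symm).symm⟩
  have g5 {g g'} (h : act g = act g') : g⁻¹ * g' ∈ Ine K R.w :=
    (mem_ine_iff h2 (hd _)).2 fun x y hy => by
      have e : act (g⁻¹ * g') = 1 := by rw [map_mul, map_inv, h, inv_mul_cancel]
      rw [← hact ⟨_, hd _⟩ x y ⟨ρ' x, (hL _).2 ⟨x, rfl⟩⟩ hy rfl]
      exact congrArg (fun f : L ≃+* L => (f _ : AlgebraicClosure Ω)) e
  choose c hc using g1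
  choose l hl using g2
  obtain ⟨e, he⟩ := cob_of_act act (c := c)
    (fun g h j => g3 (mul_mem (hc _) (hc _)) (mul_mem (g4 g (hc _)) (hc _)) (R.coc g h j))
    fun g h g' h' e e' => g3 (hc _) (hc _) (by
      rw [← R.infl.eq g (hd _) h (hd _) _ (g5 e) _ (g5 e'), mul_inv_cancel_left,
        mul_inv_cancel_left])
  have hcc := coc_div R.coc (dd_coc fun g => l (e g))
  have h5 : cls K (R.c / dd fun g => l (e g)) = a :=
    (cls_div R.coc (dd_coc _)).trans ((congrArg₂ _ R.cls_eq (cls_dd _)).trans (sub_zero a))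
  rw [← h5] at ha ⊢
  refine cls_eq_zero_of_near hv.hens hw hcc (fun p => ?_) hN ha
  obtain ⟨y, h6, h7⟩ := (hΓ _ _).1 (div_mem (hc p)
    (mul_mem (div_mem (g4 p.1 (hl (e p.2))) (hl (e (p.1 * p.2)))) (hl (e p.1))))
  have h8 : ρ' (y - 1) = 0 := by
    rw [map_sub, map_one, h7, sub_eq_zero]
    change ((c p / _ : Lˣ) : L).1 = 1
    rw [he p.1 p.2]
    exact congrArg (fun z : Lˣ => z.1.1) (div_self' _)
  exact (congrArg (fun x => R.w (x - 1)) h6).symm.trans_lt ((h2 _).1 h8)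

theorem LocV.unram (hv : LocV v ρ s) {γ : Ω ≃+* Ω} (hγ : ∀ x, γ x = x ^ s) {a : BR K}
    (h : ResAt v ρ a γ 0) : Unram v a := by
  obtain ⟨R, ρ', d, h1, h2, hd, h3, h4⟩ := h
  have h5 (i : ℕ) : Cmp (⇑(d ^ i)) ρ' ρ' fun x => x ^ s ^ i := by
    induction i with
    | zero => exact fun x y h => by simp [show y = x from Subtype.ext h]
    | succ i ih =>
      intro x y h
      simp only [pow_succ, pow_mul, ← hγ]
      exact ih.comp h3 (fun x hx => (pow_mem hd i x).trans_le hx) x y (by rw [h, pow_succ']; rfl)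
  refine R.isRD.unram hv.nrm fun g hg => ?_
  obtain ⟨i, hi⟩ := exists_frob_pow (R.idq.isOver R.e_pos) h1 h2 hv.card hv.pos hg
  rw [← mul_inv_cancel_left (d ^ i) g, R.isRD.lam_ine _ (pow_mem hd i) _
    (ine_of_cmp h1 (pow_mem hd i) hg (h5 i) hi), R.isRD.lam_pow d hd, ← h4, smul_zero]

theorem LocV.eq_zero_of_frob (hv : LocV v ρ s) {γ : Ω ≃+* Ω} (hγ : ∀ x, γ x = x ^ s) {a : BR K}
    {N : ℕ} (hN : v (N : K) = 1) (ha : N • a = 0) (h : ResAt v ρ a γ 0) : a = 0 :=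
  hv.eq_zero hN ha (hv.unram hγ h)

end Pool.Agent.ZCy
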