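import Pool.Agent.Lib.MP_751085_ag.ZC.R4

/-! Unramified extensions of local fields and classes with given residue. -/

namespace Pool.Agent.ZCy

open scoped Classical WithZero
open groupCohomology

variable {K Ω : Type} [Field K] [Field Ω] {v : Vl K} {ρ : v.integer →+* Ω} {s : ℕ}

theorem r6_sub (h : IsRed v ρ) : ∃ L : Subfield Ω, (∀ z, z ∈ L ↔ z ∈ ρ.range) ∧
    Nat.card L = Nat.card ρ.range :=
  h.subfield.imp fun _ hL => ⟨hL, Nat.card_congr (Equiv.subtypeEquivRight hL)⟩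

theorem LocV.two_le (hv : LocV v ρ s) : 2 ≤ s := by
  have : Finite ρ.range := Nat.finite_of_card_ne_zero (hv.card ▸ hv.pos.ne')
  exact hv.card ▸ Finite.one_lt_card

/-- `ρ s = 0` -/
theorem LocV.val_lt (hv : LocV v ρ s) : v (s : K) < 1 := by
  have : Finite ρ.range := Nat.finite_of_card_ne_zero (hv.card ▸ hv.pos.ne')
  have := Fintype.ofFinite ρ.range
  have h := congrArg ρ.range.subtype (Nat.cast_card_eq_zero ρ.range)
  rw [← Nat.card_eq_fintype_card, hv.card, map_natCast, map_zero, ← map_natCast ρ] at h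
  simpa using (hv.red _).1 h

theorem LocV.pow_eq (hv : LocV v ρ s) (x : v.integer) : ρ x ^ s = ρ x := by
  obtain ⟨L, hL, hc⟩ := r6_sub hv.red
  have : Finite L := Nat.finite_of_card_ne_zero (hc ▸ hv.card ▸ hv.pos.ne')
  have := Fintype.ofFinite L
  have h := congrArg L.subtype (FiniteField.pow_card (⟨ρ x, (hL _).2 ⟨x, rfl⟩⟩ : L))
  rwa [← Nat.card_eq_fintype_card, hc, hv.card, map_pow] at h

theorem r6_frob (hv : LocV v ρ s) : ∃ γ : Ω →+* Ω, ∀ x, γ x = x ^ s := by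
  obtain ⟨L, hL, hc⟩ := r6_sub hv.red
  have : Finite L := Nat.finite_of_card_ne_zero (hc ▸ hv.card ▸ hv.pos.ne')
  have := Fintype.ofFinite L
  obtain ⟨p, _, n, hp, h⟩ := FiniteField.card' L
  have := (RingHom.charP_iff_charP L.subtype p).1 inferInstance
  have := Fact.mk hp
  rw [← Nat.card_eq_fintype_card, hc, hv.card] at h
  exact ⟨iterateFrobenius Ω p n, fun x => h ▸ rfl⟩

theorem r6_pow {E : Type} [Field E] [Algebra K E] {w : Vl E} {ρ' : w.integer →+* Ω}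
    {σ : E ≃ₐ[K] E} (hσ : σ ∈ Dec K w) (h : Cmp σ ρ' ρ' fun x => x ^ s) (i : ℕ) :
    Cmp (σ ^ i : E ≃ₐ[K] E) ρ' ρ' fun x => x ^ s ^ i := by
  induction i with
  | zero => exact fun x y e => by simp [show y = x from Subtype.ext e]
  | succ i ih =>
    intro x y e
    rw [pow_succ', AlgEquiv.mul_apply] at e
    rw [h ⟨(σ ^ i) x, (pow_mem hσ i x).trans_le x.2⟩ y e, ih x _ rfl]
    simp only [pow_succ, pow_mul]

variable [CharZero K] [IsAlgClosed Ω]

theorem r6_unr (hv : LocV v ρ s) {m : ℕ} (hm : 0 < m) :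
    ∃ (E : Type) (_ : Field E) (_ : Algebra K E) (_ : FiniteDimensional K E) (_ : IsGalois K E)
      (w : Vl E) (ρ' : w.integer →+* Ω) (σ : E ≃ₐ[K] E), (Over (algebraMap K E) v w ∧ IsRed w ρ' ∧
      Cmp (algebraMap K E) ρ ρ' id ∧ Dec K w = ⊤ ∧ Ine K w = ⊥ ∧ Subgroup.zpowers σ = ⊤ ∧
      orderOf σ = m ∧ Cmp σ ρ' ρ' fun x => x ^ s) ∧ Nrm w ∧ Idq (algebraMap K E) v w 1 := by
  have h2 := hv.two_le
  obtain ⟨n, hn⟩ : ∃ n, s ^ m = n + 1 := ⟨s ^ m - 1, by have := Nat.pow_pos (n := m) hv.pos; omega⟩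
  have hn0 : n ≠ 0 := by have := Nat.one_lt_pow hm.ne' h2; omega
  have : NeZero n := ⟨hn0⟩
  let E := CyclotomicField n K
  have := IsCyclotomicExtension.finiteDimensional {n} K E
  have := IsCyclotomicExtension.isGalois {n} K E
  obtain ⟨ζ, hζ⟩ : ∃ ζ : E, IsPrimitiveRoot ζ n := ⟨_, IsCyclotomicExtension.zeta_spec n K E⟩
  obtain ⟨π, hπ0, hπ⟩ := hv.nrm.exists_ord
  obtain ⟨w₀, hw₀⟩ := vn_exists (E := E) v
  obtain ⟨w, hw, he⟩ := vn_nrm ((map_ne_zero (algebraMap K E)).2 hπ0)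
    ((hw₀.lt π).2 ((ord_pos hπ0).1 (by omega)))
  have ho : Over (algebraMap K E) v w := fun x => (he _).trans (hw₀ x)
  obtain ⟨ρ', hρ, hc⟩ := vn_redext ho hv.red
  have hd := hv.hens E w ho
  have hdm : ∀ g, g ∈ Dec K w := fun g => hd ▸ Subgroup.mem_top g
  have hwn : w (n : E) = 1 := by
    rw [← map_natCast (algebraMap K E), ho.eq_one]
    have h3 : (n : K) = -(1 - (s : K) ^ m) := by
      rw [← Nat.cast_pow, hn]; push_cast; ring
    rw [h3, Valuation.map_neg, Valuation.map_one_sub_of_lt]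
    rw [map_pow]
    exact pow_lt_one₀ zero_le hv.val_lt hm.ne'
  have hwζ : w ζ = 1 := (pow_eq_one_iff_of_nonneg zero_le hn0).1 (by
    rw [← map_pow, hζ.pow_eq_one, map_one])
  have hi : Ine K w = ⊥ := eq_bot_iff.2 fun g hg => by
    have h3 := ine_kum hg hwζ hwn (by rw [hζ.pow_eq_one, map_one])
    exact AlgEquiv.coe_toAlgHom_injective (AlgHom.ext_of_adjoin_eq_top
      (IsCyclotomicExtension.adjoin_primitive_root_eq_top (A := K) hζ) (by rintro _ rfl; exact h3))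
  obtain ⟨γ, hγ⟩ := r6_frob hv
  obtain ⟨σ, -, hσ⟩ := exists_dec (K := K) hρ γ fun a y e => by
    rw [hc ⟨a, (ho a).1 (e ▸ y.2)⟩ y e, hγ]
    exact hv.pow_eq _
  rw [show (γ : Ω → Ω) = fun x => x ^ s from funext hγ] at hσ
  have hz : ∀ i, (σ ^ i) ζ = ζ ^ s ^ i := fun i => by
    have h0 : ζ ^ s ^ i ≠ 0 := pow_ne_zero _ (hζ.ne_zero hn0)
    rw [← div_eq_one_iff_eq h0]
    refine mu_eq_one hwn ?_ ?_
    · rw [div_pow, ← map_pow, ← pow_mul, mul_comm, pow_mul, hζ.pow_eq_one, map_one, one_pow,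
        div_one]
    · have h3 := r6_pow (hdm σ) hσ i ⟨ζ, hwζ.le⟩ ⟨(σ ^ i) ζ, (hdm _ ζ).trans_le hwζ.le⟩ rfl
      beta_reduce at h3
      rw [← map_pow, ← sub_eq_zero, ← map_sub, hρ] at h3
      rw [div_sub_one h0, map_div₀, map_pow, hwζ, one_pow, div_one]
      exact h3
  refine ⟨E, inferInstance, inferInstance, inferInstance, inferInstance, w, ρ', σ,
    ⟨ho, hρ, hc, hd, hi, eq_top_iff.2 fun d _ => ?_, (orderOf_eq_iff hm).2 ⟨?_, fun i h3 h4 h5 => ?_⟩,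
      hσ⟩, hw, ?_⟩
  · obtain ⟨i, h3⟩ := exists_frob_pow ho hρ hc hv.card hv.pos (hdm d)
    have h4 := ine_of_cmp hρ (hdm d) (hdm _) h3 (r6_pow (hdm σ) hσ i)
    rw [hi, Subgroup.mem_bot, inv_mul_eq_one] at h4
    exact h4 ▸ Subgroup.npow_mem_zpowers σ i
  · refine AlgEquiv.coe_toAlgHom_injective (AlgHom.ext_of_adjoin_eq_top
      (IsCyclotomicExtension.adjoin_primitive_root_eq_top (A := K) hζ) ?_)
    rintro _ rfl
    refine (hz m).trans ?_
    rw [hn, pow_succ, hζ.pow_eq_one, one_mul]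
    rfl
  · obtain ⟨k, hk⟩ : ∃ k, s ^ i = k + 1 :=
      ⟨s ^ i - 1, by have := Nat.pow_pos (n := i) hv.pos; omega⟩
    have h6 := hz i
    rw [h5, hk, pow_succ, AlgEquiv.one_apply, eq_comm, mul_eq_right₀ (hζ.ne_zero hn0)] at h6
    have h7 := Nat.one_lt_pow h4.ne' h2
    have h8 := Nat.le_of_dvd (by omega) (hζ.dvd_of_pow_eq_one k h6)
    have h9 := Nat.pow_lt_pow_right h2 h3
    omega
  · obtain ⟨e, -, he⟩ := ho.idq_nat hv.nrm
    obtain ⟨ϖ, h0, h1⟩ := hw.exists_ord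
    obtain ⟨y, hy⟩ := vn_fix (K := K) (w := w) (x := ϖ) fun g hg => by
      rw [hi, Subgroup.mem_bot] at hg
      rw [hg, AlgEquiv.one_apply]
    have h3 := he y fun h => h0 (by simpa [h] using hy)
    rw [← ord_congr hy, h1] at h3
    have h4 : (e : ℤ) * ord v y = 1 := by exact_mod_cast h3.symm
    have h5 : e = 1 := by exact_mod_cast Int.eq_one_of_mul_eq_one_right (by omega) h4
    rwa [h5, Nat.cast_one] at he

theorem LocV.exists_unr (hv : LocV v ρ s) {m : ℕ} (hm : 0 < m) :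
    ∃ (E : Type) (_ : Field E) (_ : Algebra K E) (_ : FiniteDimensional K E) (_ : IsGalois K E)
      (w : Vl E) (ρ' : w.integer →+* Ω) (σ : E ≃ₐ[K] E), Over (algebraMap K E) v w ∧ IsRed w ρ' ∧
      Cmp (algebraMap K E) ρ ρ' id ∧ Dec K w = ⊤ ∧ Ine K w = ⊥ ∧ Subgroup.zpowers σ = ⊤ ∧
      orderOf σ = m ∧ Cmp σ ρ' ρ' fun x => x ^ s := by
  obtain ⟨E, _, _, _, _, w, ρ', σ, h, -⟩ := r6_unr hv hm
  exact ⟨E, _, _, ‹_›, ‹_›, w, ρ', σ, h⟩

/-- the same field as a local field -/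
theorem LocV.exists_ext (hv : LocV v ρ s) {m : ℕ} (hm : 0 < m) :
    ∃ (E : Type) (_ : Field E) (_ : Algebra K E) (_ : FiniteDimensional K E) (_ : IsGalois K E)
      (w : Vl E) (ρ' : w.integer →+* Ω), Idq (algebraMap K E) v w 1 ∧
      Cmp (algebraMap K E) ρ ρ' id ∧ LocV w ρ' (s ^ m) ∧ Module.finrank K E = m := by
  obtain ⟨E, _, _, _, _, w, ρ', σ, ⟨ho, hρ, hc, hd, hi, hz, hσ, hf⟩, hw, he⟩ := r6_unr hv hm
  refine ⟨E, _, _, ‹_›, ‹_›, w, ρ', he, hc, ⟨hw, hv.hens.ext ho, hρ, ?_, Nat.pow_pos hv.pos⟩, by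
    rw [← IsGalois.card_aut_eq_finrank, ← orderOf_eq_card_of_zpowers_eq_top hz, hσ]⟩
  have h2 := hv.two_le
  have hdm : ∀ g, g ∈ Dec K w := fun g => hd ▸ Subgroup.mem_top g
  obtain ⟨L, hL, hLc⟩ := r6_sub hv.red
  obtain ⟨L', hL', hLc'⟩ := r6_sub hρ
  have := finite_range ho hv.red hc (Nat.finite_of_card_ne_zero (hv.card ▸ hv.pos.ne'))
  have : Finite L' := Nat.finite_of_card_ne_zero (hLc' ▸ Nat.card_pos.ne')
  have := Fintype.ofFinite L'
  have hle : L ≤ L' := fun z hz => by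
    obtain ⟨x, rfl⟩ := (hL z).1 hz
    exact (hL' _).2 ⟨⟨algebraMap K E x, (ho x).2 x.2⟩, hc x _ rfl⟩
  let _ := (Subfield.inclusion hle).toAlgebra
  have h3 : Nat.card L' = s ^ Module.finrank L L' := by
    rw [Module.natCard_eq_pow_finrank (K := L), hLc, hv.card]
  have h4 : 0 < Module.finrank L L' := Module.finrank_pos
  generalize Module.finrank L L' = f at h3 h4
  have h5 : m ∣ f := by
    rw [← hσ, orderOf_dvd_iff_pow_eq_one, ← Subgroup.mem_bot, ← hi, mem_ine_iff hρ (hdm _)]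
    intro x y e
    have h := congrArg L'.subtype (FiniteField.pow_card (⟨ρ' x, (hL' _).2 ⟨x, rfl⟩⟩ : L'))
    rw [← Nat.card_eq_fintype_card, h3, map_pow] at h
    exact (r6_pow (hdm σ) hf f x y e).trans h
  have h6 : s ^ f - 1 ∣ s ^ m - 1 := by
    rw [← h3, Nat.card_eq_fintype_card, ← FiniteField.forall_pow_eq_one_iff]
    intro u
    obtain ⟨x, hx⟩ := (hL' _).1 u.1.2
    have h := r6_pow (hdm σ) hf m x x (by rw [← hσ, pow_orderOf_eq_one]; rfl)
    refine mul_right_cancel (b := u) (Units.ext (Subtype.ext ?_))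
    rw [← pow_succ, Nat.sub_add_cancel (Nat.pow_pos hv.pos), one_mul]
    rw [hx] at h
    simpa using h.symm
  have h7 := Nat.one_lt_pow hm.ne' h2
  have h8 := Nat.le_of_dvd (by omega) h6
  have h9 := Nat.pow_le_pow_right hv.pos (Nat.le_of_dvd h4 h5)
  omega

/-- `q = k / N`; the cocycle `cyc σ (π ^ k)` on the unramified extension of degree `N` -/
theorem LocV.exists_class (hv : LocV v ρ s) {γ : Ω ≃+* Ω} (hγ : ∀ x, γ x = x ^ s) {N : ℕ}
    (hN : 0 < N) {q : AddCircle (1 : ℚ)} (hq : N • q = 0) :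
    ∃ b : BR K, N • b = 0 ∧ ResAt v ρ b γ q := by
  obtain ⟨E, _, _, _, _, w, ρ', σ, ⟨ho, hρ, hc, hd, hi, hz, hσ, hf⟩, hw, he⟩ := r6_unr hv hN
  obtain ⟨k, hk, rfl⟩ := (AddCircle.nsmul_eq_zero_iff hN).1 hq
  obtain ⟨π, h0, h1⟩ := hv.nrm.exists_ord
  have hfin := isOfFinOrder_of_finite σ
  have hzm : ∀ g, g ∈ Subgroup.zpowers σ := fun g => hz ▸ Subgroup.mem_top g
  let f : Eˣ := Units.mk0 (algebraMap K E (π ^ k)) ((map_ne_zero _).2 (pow_ne_zero _ h0))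
  have hco : IsMulCocycle₂ (cyc σ f) :=
    coc_iff.2 (hz ▸ cyc_coc hfin (Units.ext (σ.commutes _)))
  have hR : IsRD v (cls K (cyc σ f)) w 1 (cyc σ f) fun g => k * xp σ g / N := by
    refine ⟨one_pos, he, hco, rfl, hi ▸ infl_bot _ _, fun g _ h _ => ?_⟩
    have h2 := congrArg (Nat.cast : ℕ → ℚ) (xp_carry hfin (hzm g) (hzm h))
    have h3 := he (π ^ k) (pow_ne_zero _ h0)
    have h4 : (N : ℚ) ≠ 0 := Nat.cast_ne_zero.2 hN.ne'
    rw [ord_pow, h1] at h3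
    rw [cyc, Units.val_pow_eq_pow_val, ord_pow, Int.cast_mul, Units.val_mk0, h3]
    rw [hσ] at h2 ⊢
    generalize (xp σ g + xp σ h - xp σ (g * h)) / N = c at h2 ⊢
    push_cast at h2 ⊢
    field_simp
    linear_combination (-k : ℚ) * h2
  refine ⟨_, ?_, hR.rd, ρ', σ, hρ, hc, hd ▸ Subgroup.mem_top σ, ?_, ?_⟩
  · rw [← hσ, orderOf_eq_card_of_zpowers_eq_top hz]
    exact card_smul_cls hco
  · rwa [show (γ : Ω → Ω) = fun x => x ^ s from funext hγ]
  · have h2 := xp_pow hfin 1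
    rw [pow_one, hσ] at h2
    congr 1
    simp only [h2]
    rcases Nat.lt_or_ge 1 N with h | h
    · rw [Nat.mod_eq_of_lt h]; simp
    · simp [show k = 0 by omega]

end Pool.Agent.ZCy
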