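import Pool.Agent.Lib.MP_751085_ag.ZC.R0b

/-! The degree of an extension of local fields. -/

namespace Pool.Agent.ZCy

open scoped Classical WithZero

variable {K K' Ω : Type} [Field K] [Field K'] [Field Ω] [Algebra K K'] {v : Vl K} {v' : Vl K'}

theorem Nrm.dvr (hv : Nrm v) : IsDiscreteValuationRing v.integer := by
  obtain ⟨π, hπ⟩ := hv
  have : v.IsNontrivial := ⟨π, hπ ▸ WithZero.exp_ne_zero, by
    rw [hπ, ← WithZero.exp_zero, Ne, WithZero.exp_inj]
    decide⟩
  exact v.valuationSubring_isDiscreteValuationRing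

theorem r6b_int (ho : Over (algebraMap K K') v v') (x : K') : IsIntegral v.integer x ↔
    ∃ p : Polynomial K, p.Monic ∧ (∀ i, v (p.coeff i) ≤ 1) ∧ Polynomial.aeval x p = 0 := by
  have _ := ho
  constructor
  · rintro ⟨p, hm, h0⟩
    refine ⟨p.map (algebraMap v.integer K), hm.map _, fun i => ?_, ?_⟩
    · rw [Polynomial.coeff_map]
      exact (p.coeff i).2
    · rwa [Polynomial.aeval_map_algebraMap]
  · rintro ⟨p, hm, h1, h0⟩
    obtain ⟨q, rfl, -, hq⟩ := Polynomial.lifts_and_natDegree_eq_and_monic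
      ((Polynomial.lifts_iff_coeff_lifts (f := algebraMap v.integer K) p).2
        fun i => ⟨⟨_, h1 i⟩, rfl⟩) hm
    exact ⟨q, hq, by rwa [Polynomial.aeval_map_algebraMap] at h0⟩

theorem r6b_max [IsLocalRing v.integer] {π : v.integer} (hπ : v π = WithZero.exp (-1)) :
    IsLocalRing.maximalIdeal v.integer = Ideal.span {π} := Ideal.ext fun x => by
  rw [IsLocalRing.mem_maximalIdeal, mem_nonunits_iff,
    Valuation.Integer.not_isUnit_iff_valuation_lt_one, Ideal.mem_span_singleton,
    (Valuation.integer.integers v).dvd_iff_le]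
  change _ ↔ v x ≤ v π
  rw [hπ, ← WithZero.lt_mul_exp_iff_le WithZero.exp_ne_zero, ← WithZero.exp_add, neg_add_cancel,
    WithZero.exp_zero]

theorem r6b_card [IsLocalRing v.integer] {ρ : v.integer →+* Ω} (h : IsRed v ρ) :
    Nat.card (v.integer ⧸ IsLocalRing.maximalIdeal v.integer) = Nat.card ρ.range := by
  have : IsLocalRing.maximalIdeal v.integer = RingHom.ker ρ := Ideal.ext fun x => by
    rw [IsLocalRing.mem_maximalIdeal, mem_nonunits_iff,
      Valuation.Integer.not_isUnit_iff_valuation_lt_one, RingHom.mem_ker, h x]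
  rw [this]
  exact Nat.card_congr ρ.quotientKerEquivRange.toEquiv

variable [CharZero K] [FiniteDimensional K K']

theorem Hens.isIntegral (hv : Hens v) (ho : Over (algebraMap K K') v v') (x : K') :
    v' x ≤ 1 ↔
      ∃ p : Polynomial K, p.Monic ∧ (∀ i, v (p.coeff i) ≤ 1) ∧ Polynomial.aeval x p = 0 := by
  constructor
  · intro hx
    obtain ⟨E, _, _, _, _, j, hj, -⟩ := exists_big (E := K') (RingHom.id K) ∅
    let := j.toAlgebra
    have : IsScalarTower K K' E := IsScalarTower.of_algebraMap_eq fun a => (hj a).symm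
    have := FiniteDimensional.right K K' E
    obtain ⟨w, hw⟩ := vn_exists (E := E) v'
    have hw' := ho.comp hw
    rw [← IsScalarTower.algebraMap_eq] at hw'
    have hD := hv E w hw'
    obtain ⟨p, hp, -, hm⟩ := Polynomial.lifts_and_natDegree_eq_and_monic
      ((Polynomial.lifts_iff_coeff_lifts (f := algebraMap K E) _).2 fun i =>
        (IsGalois.mem_range_algebraMap_iff_fixed _).2
          (MulSemiringAction.smul_coeff_charpoly (algebraMap K' E x) i))
      (MulSemiringAction.monic_charpoly _ _)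
    refine ⟨p, hm, fun i => (hw' _).1 ?_, (algebraMap K' E).injective ?_⟩
    · have h1 : ∀ g : E ≃ₐ[K] E, g • algebraMap K' E x ∈ w.integer := fun g =>
        ((hD.ge (Subgroup.mem_top g)) _).trans_le ((hw x).2 hx)
      have h2 : MulSemiringAction.charpoly (E ≃ₐ[K] E) (algebraMap K' E x) =
          (∏ g : E ≃ₐ[K] E, (Polynomial.X - Polynomial.C (⟨_, h1 g⟩ : w.integer))).map
            w.integer.subtype := by
        simp only [MulSemiringAction.charpoly_eq, Polynomial.map_prod, Polynomial.map_sub,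
          Polynomial.map_X, Polynomial.map_C]
        rfl
      rw [← Polynomial.coeff_map, hp, h2, Polynomial.coeff_map]
      exact SetLike.coe_mem (p := w.integer) _
    · rw [← Polynomial.aeval_algebraMap_apply, ← Polynomial.eval_map_algebraMap, hp,
        MulSemiringAction.eval_charpoly, map_zero]
  · rintro ⟨p, hm, h1, h0⟩
    refine (Valuation.integer.integers v').isIntegral_iff_v_le_one.1
      ((r6b_int (v := v') (v' := v') (fun _ => Iff.rfl) x).2
        ⟨p.map (algebraMap K K'), hm.map _, fun i => ?_, ?_⟩)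
    · rw [Polynomial.coeff_map]
      exact (ho _).2 (h1 i)
    · rwa [Polynomial.coe_aeval_eq_eval, Polynomial.eval_map_algebraMap]

theorem LocV.ef {ρ : v.integer →+* Ω} {ρ' : v'.integer →+* Ω} {s s' : ℕ} (hv : LocV v ρ s)
    (hv' : LocV v' ρ' s') (ho : Over (algebraMap K K') v v') :
    ∃ e f : ℕ, 0 < e ∧ Idq (algebraMap K K') v v' e ∧ s' = s ^ f ∧
      e * f = Module.finrank K K' := by
  have := hv.nrm.dvr
  have := hv'.nrm.dvr
  have := (Valuation.integer.integers v).isFractionRing
  have := (Valuation.integer.integers v').isFractionRing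
  let : Algebra v.integer v'.integer := (((algebraMap K K').comp v.integer.subtype).codRestrict
    v'.integer fun x => (ho x.1).2 x.2).toAlgebra
  have : IsScalarTower v.integer v'.integer K' := IsScalarTower.of_algebraMap_eq fun _ => rfl
  have : IsIntegralClosure v'.integer v.integer K' := ⟨Subtype.val_injective, fun {x} => by
    rw [r6b_int ho, ← hv.hens.isIntegral ho]
    exact ⟨fun h => ⟨⟨x, h⟩, rfl⟩, fun ⟨y, hy⟩ => hy ▸ y.2⟩⟩
  have := IsIntegralClosure.finite v.integer K K' v'.integer
  have : (IsLocalRing.maximalIdeal v'.integer).LiesOver (IsLocalRing.maximalIdeal v.integer) :=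
    ⟨Ideal.ext fun x => by
      rw [Ideal.mem_under, IsLocalRing.mem_maximalIdeal, IsLocalRing.mem_maximalIdeal,
        mem_nonunits_iff, mem_nonunits_iff, Valuation.Integer.not_isUnit_iff_valuation_lt_one,
        Valuation.Integer.not_isUnit_iff_valuation_lt_one]
      exact (ho.lt x).symm⟩
  obtain ⟨e, he, hq⟩ := ho.idq_nat hv.nrm
  obtain ⟨π, hπ⟩ := hv.nrm
  obtain ⟨π', hπ'⟩ := hv'.nrm
  have h1 : WithZero.exp (-1 : ℤ) ≤ 1 := by
    rw [← WithZero.exp_zero, WithZero.exp_le_exp]
    decide
  have h0 : π ≠ 0 := v.ne_zero_iff.1 (hπ ▸ WithZero.exp_ne_zero)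
  have hval : v' (algebraMap K K' π) = WithZero.exp (-(e : ℤ)) := by
    have := hq π h0
    rw [show ord v π = 1 by rw [ord, hπ, WithZero.log_exp, neg_neg], Int.cast_one, mul_one] at this
    rw [ord_eq ((map_ne_zero _).2 h0), show ord v' (algebraMap K K' π) = e by exact_mod_cast this]
  have hle : ∀ n : ℕ, (IsLocalRing.maximalIdeal v.integer).map (algebraMap v.integer v'.integer) ≤
      IsLocalRing.maximalIdeal v'.integer ^ n ↔ n ≤ e := fun n => by
    rw [r6b_max (π := ⟨π, hπ.trans_le h1⟩) hπ, r6b_max (π := ⟨π', hπ'.trans_le h1⟩) hπ',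
      Ideal.map_span, Set.image_singleton, Ideal.span_singleton_pow,
      Ideal.span_singleton_le_span_singleton, (Valuation.integer.integers v').dvd_iff_le]
    change v' (algebraMap K K' π) ≤ v' (π' ^ n) ↔ _
    rw [hval, map_pow, hπ', ← WithZero.exp_nsmul, WithZero.exp_le_exp]
    simp
  have hef := Ideal.ramificationIdx_mul_inertiaDeg_of_isLocalRing v'.integer K K'
    (IsDiscreteValuationRing.not_a_field v.integer)
  rw [Ideal.ramificationIdx'_spec ((hle e).2 le_rfl) (mt (hle _).1 (Nat.not_succ_le_self e)),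
    Ideal.inertiaDeg'_algebraMap] at hef
  refine ⟨e, _, he, hq, ?_, hef⟩
  let := Ideal.Quotient.field (IsLocalRing.maximalIdeal v.integer)
  rw [← hv.card, ← hv'.card, ← r6b_card hv.red, ← r6b_card hv'.red]
  exact Module.natCard_eq_pow_finrank

end Pool.Agent.ZCy
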