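import Pool.Agent.Lib.MP_751085_ag.ZC.R3
import Pool.Agent.Lib.MP_751085_ag.ZC.R6
import Pool.Agent.Lib.MP_751085_ag.ZC.R6b
import Pool.Agent.Lib.MP_751085_ag.ZC.A3c

/-! Corestriction and the value at Frobenius. -/

namespace Pool.Agent.ZCy

open scoped Classical WithZero

variable {K K' Ω : Type} [Field K] [Field K'] [Field Ω] [CharZero K] [IsAlgClosed Ω] [Algebra K K']
  [FiniteDimensional K K'] {v : Vl K} {v' : Vl K'} {ρ : v.integer →+* Ω} {ρ' : v'.integer →+* Ω}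
  {s s' : ℕ}

/-- `n = n₁ n₂`, `n₁ ∣ N ^ k`, `n₂` prime to `N`; `q = n₁ q₁`, `u n₂ ≡ 1` modulo `N n₁`, `q₀ = u q₁` -/
theorem exists_div_coprime {n N : ℕ} (hn : 0 < n) (hN : 0 < N) {q : AddCircle (1 : ℚ)}
    (hq : N • q = 0) : ∃ (q₀ : AddCircle (1 : ℚ)) (k : ℕ), n • q₀ = q ∧ N ^ (k + 1) • q₀ = 0 := by
  induction n using induction_on_primes with
  | zero => exact absurd hn (lt_irrefl 0)
  | one => exact ⟨q, 0, one_nsmul q, by rwa [zero_add, pow_one]⟩
  | prime_mul p a hp ih =>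
    obtain ⟨q₀, k, rfl, h⟩ := ih (Nat.pos_of_mul_pos_left hn)
    by_cases hd : p ∣ N
    · obtain ⟨c, rfl⟩ := hd
      obtain ⟨x, rfl⟩ := QuotientAddGroup.mk_surjective q₀
      have e : p • ((x / p : ℚ) : AddCircle (1 : ℚ)) = (x : ℚ) := by
        rw [← QuotientAddGroup.mk_nsmul, nsmul_eq_mul,
          mul_div_cancel₀ _ (Nat.cast_ne_zero.2 hp.ne_zero)]
      refine ⟨(x / p : ℚ), k + 1, by rw [mul_nsmul, e], ?_⟩
      rw [pow_succ', mul_assoc, mul_nsmul, e, mul_nsmul', h, nsmul_zero]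
    · obtain ⟨u, w, e⟩ := Nat.isCoprime_iff_coprime.2
        (((Nat.Prime.coprime_iff_not_dvd hp).2 hd).pow_right (k + 1))
      refine ⟨u • q₀, k, ?_, by rw [smul_comm, h, smul_zero]⟩
      rw [mul_nsmul, ← natCast_zsmul _ p, ← mul_zsmul, mul_comm, eq_sub_of_add_eq e, sub_zsmul,
        one_zsmul, mul_zsmul, natCast_zsmul, h, smul_zero, neg_zero, add_zero]

/-- a finite extension of a local field is a local field: `vn_exists`, `triv_or_nrm`, `vn_redext`,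
`Hens.ext`, `finite_range` -/
theorem LocV.ext (hv : LocV v ρ s) : ∃ (v' : Vl K') (ρ' : v'.integer →+* Ω) (s' : ℕ),
    LocV v' ρ' s' ∧ Over (algebraMap K K') v v' ∧ Cmp (algebraMap K K') ρ ρ' id := by
  obtain ⟨w, hw⟩ := vn_exists (E := K') v
  obtain ⟨π, π0, hπ⟩ := hv.nrm.exists_ord
  rcases triv_or_nrm w with h | ⟨w', hn, h, -⟩
  · exact absurd (h _ ((map_ne_zero _).2 π0)) ((hw.lt π).2 ((ord_pos π0).1 (hπ ▸ one_pos))).ne
  have ho : Over (algebraMap K K') v w' := hw.comp h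
  obtain ⟨ρ', h1, h2⟩ := vn_redext ho hv.red
  have := finite_range ho hv.red h2 (Nat.finite_of_card_ne_zero (hv.card ▸ hv.pos.ne'))
  exact ⟨w', ρ', _, ⟨hn, hv.hens.ext ho, h1, rfl, Nat.card_pos⟩, ho, h2⟩

/-- `N q = 0` (`ResAt.nsmul`, `resAt_zero`, `ResAt.uniq`). Take `q₀` with `[K':K] q₀ = q` and `b₀`
with the value `q₀` (`LocV.exists_class`). `γ' = γ ^ f`; `ResAt.pow`, `ResAt.map`, `ResAt.sub`,
`LocV.eq_zero_of_frob` give `b = rs b₀`; `cor_res`. -/
theorem LocV.resAt_cor (hv : LocV v ρ s) (hv' : LocV v' ρ' s') (ho : Over (algebraMap K K') v v')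
    (hc : Cmp (algebraMap K K') ρ ρ' id) {γ γ' : Ω ≃+* Ω} (hγ : ∀ x, γ x = x ^ s)
    (hγ' : ∀ x, γ' x = x ^ s') {b : BR K'} {N : ℕ} (hN : v (N : K) = 1) (hb : N • b = 0)
    {q : AddCircle (1 : ℚ)} (h : ResAt v' ρ' b γ' q) : ResAt v ρ (corF K K' b) γ q := by
  have := charZero_of_injective_ringHom (algebraMap K K').injective
  have N0 : 0 < N := Nat.pos_of_ne_zero fun h => by simp [h] at hN
  have hq : N • q = 0 := (hb ▸ h.nsmul N).uniq (resAt_zero h.isRed h.fix)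
  obtain ⟨q₀, k, rfl, h0⟩ := exists_div_coprime (Module.finrank_pos (R := K) (M := K')) N0 hq
  obtain ⟨b₀, b1, b2⟩ := hv.exists_class hγ (pow_pos N0 _) h0
  obtain ⟨e, f, he, hi, rfl, ef⟩ := hv.ef hv' ho
  have hp : ∀ (f : ℕ) (x : Ω), (γ ^ f) x = x ^ s ^ f := fun f => by
    induction f with
    | zero => simp
    | succ f ih => exact fun x => by rw [pow_succ', RingAut.mul_apply, hγ, ih, pow_succ s, pow_mul]
  have m := (b2.pow f).map (algebraMap K K') he hi hv'.red (ι := RingHom.id Ω) hc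
    (fun x => (hγ' x).trans (hp f x).symm) h.fix
  rw [← mul_nsmul', ef] at m
  have z : N ^ (k + 1) • b = N ^ (k + 1) • rs (algebraMap K K') b₀ := by
    rw [← map_nsmul, b1, map_zero, pow_succ', mul_nsmul, hb]
    exact nsmul_zero (M := BR K') _
  have := hv'.eq_zero_of_frob hγ' (N := N ^ (k + 1))
    (by rw [← map_natCast (algebraMap K K'), ho.eq_one, Nat.cast_pow, map_pow, hN, one_pow])
    ((nsmul_sub b _ _).trans (sub_eq_zero_of_eq z))
    (sub_self (G := AddCircle (1 : ℚ)) _ ▸ h.sub m)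
  rw [show b = _ from sub_eq_zero.1 this, ← cor_apply, cor_res]
  exact b2.nsmul _

end Pool.Agent.ZCy
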