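import Pool.Agent.Lib.MP_751085_ag.ZC.UCrv1
import Pool.Agent.Lib.MP_751085_ag.ZC.UDet

/-! Finitely many curves on the section that lift the curve over the line. -/

namespace Pool.Agent.ZCy.U

open Polynomial Pool.Agent.ZeroCyc IsLocalRing
open scoped Classical IntermediateField PowerSeries

theorem crv_fact {F E Ω : Type} [Field F] [Field E] [Field Ω] (i : F →+* Ω) (e : E →+* Ω)
    (h : ∀ x, i x ∈ e.range) : ∃ j : F →+* E, ∀ x, e (j x) = i x := by
  choose j hj using h
  exact ⟨⟨⟨⟨j, e.injective (by rw [hj, map_one, map_one])⟩, fun x y => e.injective (by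
    rw [hj, map_mul, map_mul, hj, hj])⟩, e.injective (by rw [hj, map_zero, map_zero]),
    fun x y => e.injective (by rw [hj, map_add, map_add, hj, hj])⟩, hj⟩

theorem crv_fin {K F : Type} [Field K] [Field F] [Algebra K F] [Algebra (RatFunc K) F]
    [IsScalarTower K (RatFunc K) F] [FiniteDimensional (RatFunc K) F] :
    Transcendental K (algebraMap (RatFunc K) F RatFunc.X) ∧
      FiniteDimensional K⟮algebraMap (RatFunc K) F RatFunc.X⟯ F := by
  refine ⟨(transcendental_algebraMap_iff (algebraMap (RatFunc K) F).injective).2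
    RatFunc.transcendental_X, ?_⟩
  have hp : ∀ p : K[X], algebraMap (RatFunc K) F (algebraMap K[X] _ p) ∈
      K⟮algebraMap (RatFunc K) F RatFunc.X⟯ := fun p => by
    rw [← RatFunc.aeval_X_left_eq_algebraMap, ← aeval_algebraMap_apply]
    exact IntermediateField.algebra_adjoin_le_adjoin _ _ (Polynomial.aeval_mem_adjoin_singleton _ _)
  have h : ∀ r, algebraMap (RatFunc K) F r ∈ K⟮algebraMap (RatFunc K) F RatFunc.X⟯ := fun r => by
    rw [← r.num_div_denom, map_div₀]
    exact div_mem (hp _) (hp _)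
  let _ : Algebra (RatFunc K) K⟮algebraMap (RatFunc K) F RatFunc.X⟯ :=
    ((algebraMap (RatFunc K) F).codRestrict _ h).toAlgebra
  have : IsScalarTower (RatFunc K) K⟮algebraMap (RatFunc K) F RatFunc.X⟯ F :=
    IsScalarTower.of_algebraMap_eq fun _ => rfl
  exact Module.Finite.of_restrictScalars_finite (RatFunc K) _ F

variable {k K O σ : Type} [Field k] [CharZero k] [Field K] [CharZero K] [Algebra k K] [CommRing O]
  [IsLocalRing O] [Algebra O K] [Fintype σ] {X : Var k} {Y : Gen k X.N} {f : Fm X.N k}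
  {GG : Set (Fm X.N O)} {fO : Fm X.N O} {u : K} {c : Chart O σ X.N GG} {n : ℕ}

set_option linter.unusedSectionVars false

/-- the structure map of an extension of `K` -/
abbrev oM (O K M : Type) [CommRing O] [Field K] [Algebra O K] [CommRing M] [Algebra K M] :
    O →+* M := (algebraMap K M).comp (algebraMap O K)

theorem on_pv (hf : X.Sec Y f) (hG : X.Model (K := K) GG) (hu : u ≠ 0)
    (hfO : MvPolynomial.map (algebraMap O K) fO =
      MvPolynomial.C u * MvPolynomial.map (algebraMap k K) f)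
    {M : Type} [Field M] [Algebra k M] [Algebra K M] [IsScalarTower k K M] {ξ : Option σ → M}
    {θ : M} (h1 : ev (oM O K M) ξ θ c.χ = 0) (h2 : ev (oM O K M) ξ θ (sb c.pp fO) = 0)
    (h3 : MvPolynomial.eval₂ (oM O K M) ξ c.D ≠ 0) : Y.var.On (c.pv (oM O K M) ξ θ) := by
  have hk : ∀ G : Fm X.N k, MvPolynomial.aeval (c.pv (oM O K M) ξ θ) G =
      MvPolynomial.eval₂ (algebraMap K M) (c.pv (oM O K M) ξ θ)
        (MvPolynomial.map (algebraMap k K) G) := fun G => by
    rw [MvPolynomial.eval₂_map, ← IsScalarTower.algebraMap_eq, MvPolynomial.aeval_def]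
  refine (hf M _).2 ⟨⟨fun h0 => (c.ne M _ ξ θ h1 h3).2 ?_, fun G hG' => ?_⟩, ?_⟩
  · rw [ev_sb]
    change MvPolynomial.eval₂ _ (c.pv (oM O K M) ξ θ) _ = 0
    rw [h0, MvPolynomial.eval₂_zero_apply, MvPolynomial.constantCoeff_eq,
      c.hl.coeff_eq_zero (by simp), map_zero]
  · have hz : Zer (MvPolynomial.map (algebraMap O K) '' GG) (algebraMap K M)
        (c.pv (oM O K M) ξ θ) := Zer.map_image.2 fun G hG => by
      obtain ⟨q, hq⟩ := c.dv_on G hG
      have := ev_sb (oM O K M) ξ θ c.pp G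
      rw [hq, map_mul, h1, zero_mul] at this
      exact this.symm
    rw [hk]
    exact hz.span (hG.2 ▸ Ideal.subset_span ⟨G, hG', rfl⟩)
  · rw [ev_sb, ← MvPolynomial.eval₂_map, hfO, MvPolynomial.eval₂_mul, MvPolynomial.eval₂_C] at h2
    rw [hk]
    exact (mul_eq_zero.1 h2).resolve_left ((_root_.map_ne_zero _).2 hu)

/-- the closure of the rational function field -/
abbrev OK (K : Type) [Field K] : Type := AlgebraicClosure (RatFunc K)

variable (c fO) {a b : Option σ → O} {j₀ : Option σ} {Θ : MP (Option σ) O}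

variable (a b j₀) in
/-- a solution of the two equations off `D = 0` -/
structure Sol {S : Type} [CommRing S] (φ : O →+* S) (τ s θ : S) : Prop where
  h1 : ev φ (pl φ a b j₀ τ s) θ c.χ = 0
  h2 : ev φ (pl φ a b j₀ τ s) θ (sb c.pp fO) = 0
  h3 : MvPolynomial.eval₂ φ (pl φ a b j₀ τ s) c.D ≠ 0

variable {c fO}

theorem Sol.iff {S T : Type} [CommRing S] [CommRing T] {ψ : S →+* T} (hψ : Function.Injective ψ)
    {φ : O →+* S} {τ s θ : S} :
    Sol fO c a b j₀ (ψ.comp φ) (ψ τ) (ψ s) (ψ θ) ↔ Sol fO c a b j₀ φ τ s θ := by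
  have e1 := fun p => map_ev_pl ψ φ a b j₀ τ s θ p
  have e2 := map_eval_pl ψ φ a b j₀ τ s c.D
  exact ⟨fun h => ⟨hψ (by rw [e1, h.h1, map_zero]), hψ (by rw [e1, h.h2, map_zero]),
      fun e => h.h3 (by rw [← e2, e, map_zero])⟩,
    fun h => ⟨by rw [← e1, h.h1, map_zero], by rw [← e1, h.h2, map_zero],
      fun e => h.h3 (hψ (by rw [e2, e, map_zero]))⟩⟩

/-- one curve -/
theorem crv_one (hJ : Charts k (AlgebraicClosure K) (Y.var.JK K) n) (hf : X.Sec Y f)
    (hG : X.Model (K := K) GG) (hu : u ≠ 0) (hfO : MvPolynomial.map (algebraMap O K) fO =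
      MvPolynomial.C u * MvPolynomial.map (algebraMap k K) f) {s z : OK K}
    (h : Sol fO c a b j₀ (oM O K (OK K)) (algebraMap (RatFunc K) _ RatFunc.X) s z) :
    ∃ (B : AddSubgroup (VV (AlgebraicClosure K) (Y.var.JK K))) (ρ : K[X]), BddZ B ∧ ρ ≠ 0 ∧
      ∀ (L : IntermediateField K (AlgebraicClosure K)) [FiniteDimensional K L] (t : L)
        (s' z' : L⟦X⟧) (Ω : Type) [Field Ω] (e : Fr L⟦X⟧ →+* Ω) (i : OK K →+* Ω),
        (∀ x, i (algebraMap K _ x) = e (algebraMap L⟦X⟧ _ (algebraMap K _ x))) →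
        i (algebraMap (RatFunc K) _ RatFunc.X) =
          e (algebraMap L⟦X⟧ _ (PowerSeries.C t + PowerSeries.X)) →
        i s = e (algebraMap L⟦X⟧ _ s') → i z = e (algebraMap L⟦X⟧ _ z') → aeval t ρ ≠ 0 →
        ∀ x : Fin (X.N + 1) → L, x ≠ 0 → x = c.pv (oM O K L) (pl (oM O K L) a b j₀ t
          (PowerSeries.constantCoeff s')) (PowerSeries.constantCoeff z') →
        pc (Y.var.JK K) L (fun l => (x l : AlgebraicClosure K)) ∈ B := by
  let F := IntermediateField.adjoin (RatFunc K) {s, z}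
  have : FiniteDimensional (RatFunc K) F :=
    IntermediateField.finiteDimensional_adjoin fun _ _ => Algebra.IsIntegral.isIntegral _
  let _ : Algebra k F := ((algebraMap K F).comp (algebraMap k K)).toAlgebra
  have : IsScalarTower k K F := IsScalarTower.of_algebraMap_eq fun _ => rfl
  let s₀ : F := ⟨s, IntermediateField.subset_adjoin _ _ (by simp)⟩
  let z₀ : F := ⟨z, IntermediateField.subset_adjoin _ _ (by simp)⟩
  let τ : F := algebraMap (RatFunc K) F RatFunc.X
  have h₀ : Sol fO c a b j₀ (oM O K F) τ s₀ z₀ := (Sol.iff (algebraMap F (OK K)).injective).1 h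
  have hon := on_pv hf hG hu hfO h₀.h1 h₀.h2 h₀.h3
  obtain ⟨hτ, hfin⟩ := crv_fin (K := K) (F := F)
  obtain ⟨ρ, hρ, hB⟩ := hJ.bdd_arc hτ hon.1 fun r =>
    onX_smul Y.var K ((onX_JK Y.var K _).2 hon.2) r
  refine ⟨_, ρ, hB, hρ, fun L _ t s' z' Ω _ e i h1 h2 h3 h4 h5 x hx hx' =>
    AddSubgroup.subset_closure ⟨L, t, _, inferInstance, ⟨fun h0 => hx (funext fun l =>
      Subtype.ext (congrFun h0 l)), ?_⟩, ?_, rfl⟩⟩
  · have hp : ∀ p : K[X], i (algebraMap (RatFunc K) _ (algebraMap K[X] _ p)) ∈ e.fieldRange := by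
      intro p
      induction p using Polynomial.induction_on with
      | C y => exact ⟨_, (h1 y).symm⟩
      | add p q hp hq =>
        rw [map_add, map_add, map_add]
        exact add_mem hp hq
      | monomial m y hm =>
        rw [pow_succ, ← mul_assoc, map_mul, map_mul, map_mul]
        exact mul_mem hm ⟨_, h2.symm⟩
    obtain ⟨j, hj⟩ := crv_fact (i.comp (algebraMap F (OK K))) e fun y => by
      obtain ⟨y, hy⟩ := y
      change i y ∈ e.fieldRange
      induction hy using IntermediateField.adjoin_induction with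
      | mem y hy =>
        rcases hy with rfl | rfl
        exacts [⟨_, h3.symm⟩, ⟨_, h4.symm⟩]
      | algebraMap r =>
        rw [← r.num_div_denom, map_div₀, map_div₀]
        exact div_mem (hp _) (hp _)
      | add _ _ _ _ h h' =>
        rw [map_add]
        exact add_mem h h'
      | inv _ _ h =>
        rw [map_inv₀]
        exact inv_mem h
      | mul _ _ _ _ h h' =>
        rw [map_mul]
        exact mul_mem h h'
    have j1 : ∀ y, j (algebraMap K F y) = algebraMap L⟦X⟧ _ (algebraMap K _ y) := fun y =>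
      e.injective ((hj _).trans (h1 y))
    have j2 : j τ = algebraMap L⟦X⟧ _ (PowerSeries.C t + PowerSeries.X) :=
      e.injective ((hj _).trans h2)
    have j3 : j s₀ = algebraMap L⟦X⟧ _ s' := e.injective ((hj _).trans h3)
    have j4 : j z₀ = algebraMap L⟦X⟧ _ z' := e.injective ((hj _).trans h4)
    let v : L⟦X⟧ →ₐ[K] AlgebraicClosure K :=
      ⟨(algebraMap L _).comp PowerSeries.constantCoeff, fun _ => rfl⟩
    refine ⟨L⟦X⟧, Fr L⟦X⟧, inferInstance, inferInstance, inferInstance, inferInstance,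
      inferInstance, inferInstance, inferInstance, j, v, PowerSeries.C t + PowerSeries.X, 1,
      c.pv (oM O K _) (pl (oM O K _) a b j₀ (PowerSeries.C t + PowerSeries.X) s') z',
      fun y => (PowerSeries.constantCoeff y).2, j1, j2, ?_, fun l => ⟨?_, ?_⟩⟩
    · change ((PowerSeries.constantCoeff (PowerSeries.C t + PowerSeries.X) : L) :
        AlgebraicClosure K) = t
      rw [map_add, PowerSeries.constantCoeff_C, PowerSeries.constantCoeff_X, add_zero]
    · have e1 : j.comp (oM O K F) = (algebraMap L⟦X⟧ (Fr L⟦X⟧)).comp (oM O K _) :=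
        RingHom.ext fun y => j1 _
      rw [one_mul, Chart.pv, Chart.pv, map_ev_pl, map_ev_pl, e1, j2, j3, j4]
    · refine congrArg Subtype.val (?_ : PowerSeries.constantCoeff _ = x l)
      rw [hx', Chart.pv, Chart.pv, map_ev_pl, map_add, PowerSeries.constantCoeff_C,
        PowerSeries.constantCoeff_X, add_zero]
      rfl
  · change aeval (algebraMap L (AlgebraicClosure K) t) ρ ≠ 0
    rwa [aeval_algebraMap_apply, _root_.map_ne_zero]

theorem sol_finite (hO : Function.Injective (algebraMap O K)) (h : Hd c fO Θ a b j₀) :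
    ∃ P : (OK K)[X], P ≠ 0 ∧ (∀ (Ω : Type) [Field Ω] (i : OK K →+* Ω) (s z : Ω),
      Sol fO c a b j₀ (i.comp (oM O K _)) (i (algebraMap (RatFunc K) _ RatFunc.X)) s z →
        (P.map i).IsRoot s) ∧
      {p : OK K × OK K | Sol fO c a b j₀ (oM O K _) (algebraMap (RatFunc K) _ RatFunc.X)
        p.1 p.2}.Finite := by
  obtain ⟨P, hP, hr⟩ := h.exists_res
  let ψ : O[X] →+* OK K := eval₂RingHom (oM O K _) (algebraMap (RatFunc K) _ RatFunc.X)
  have hψ : Function.Injective ψ := by
    have e : ψ = ((algebraMap (RatFunc K) _).comp (algebraMap K[X] _)).comp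
        (mapRingHom (algebraMap O K)) := by
      ext y
      · simp only [ψ, RingHom.comp_apply, coe_eval₂RingHom, eval₂_C, coe_mapRingHom, map_C]
        rfl
      · simp [ψ]
    rw [e]
    exact ((algebraMap (RatFunc K) _).injective.comp (IsFractionRing.injective K[X] _)).comp
      (map_injective _ hO)
  have h0 : P.map ψ ≠ 0 := (Polynomial.map_ne_zero_iff hψ).2 hP
  have hroot : ∀ (Ω : Type) [Field Ω] (i : OK K →+* Ω) (s z : Ω),
      Sol fO c a b j₀ (i.comp (oM O K _)) (i (algebraMap (RatFunc K) _ RatFunc.X)) s z →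
        ((P.map ψ).map i).IsRoot s := fun Ω _ i s z hs => by
    have e : i.comp ψ = eval₂RingHom (i.comp (oM O K _))
        (i (algebraMap (RatFunc K) _ RatFunc.X)) := by
      ext y <;> simp [ψ]
    rw [IsRoot.def, Polynomial.map_map, ← eval₂_eq_eval_map, e]
    exact hr _ _ _ _ _ hs.h1 hs.h2
  refine ⟨_, h0, hroot, ((finite_setOfPred_isRoot h0).biUnion fun s _ =>
    (finite_setOfPred_isRoot (c.monic.map (MvPolynomial.eval₂Hom (oM O K _) (pl (oM O K _) a b j₀
      (algebraMap (RatFunc K) _ RatFunc.X) s))).ne_zero).image fun z => (s, z)).subset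
    fun p hp => Set.mem_biUnion (t := fun s => _) (x := p.1) ?_ ⟨p.2, ?_, rfl⟩⟩
  · simpa using hroot _ (RingHom.id _) p.1 p.2 hp
  · exact (ev_eq_eval _ _ _ _).symm.trans hp.h1

/-- lifting a simple point of the reduced curve -/
theorem crv_lift (h : Hd c fO Θ a b j₀) {R : Type} [CommRing R] [IsLocalRing R]
    [IsAdicComplete (maximalIdeal R) R] (φ : O →+* R) [IsLocalHom φ] {t θ : R}
    (h1 : ev φ (pl φ a b j₀ t 0) θ c.χ ∈ maximalIdeal R)
    (h2 : IsUnit (MvPolynomial.eval₂ φ (pl φ a b j₀ t 0) Θ)) :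
    ∃ x : Fin 2 → R, x 0 ∈ maximalIdeal R ∧ x 1 - θ ∈ maximalIdeal R ∧
      (∀ l, MvPolynomial.eval₂ (eval₂RingHom φ t) x (sysF c fO a b j₀ l) = 0) ∧
      IsUnit (jac (eval₂RingHom φ t) (sysF c fO a b j₀) x).det ∧
      IsUnit (MvPolynomial.eval₂ φ (pl φ a b j₀ t (x 0)) Θ) := by
  have hψ : ∀ x ∈ maximalIdeal O, ((residue R).comp φ) x = 0 := fun x hx =>
    (residue_eq_zero_iff _).2 (map_nonunit φ x hx)
  have er : (residue R).comp (eval₂RingHom φ t) =
      eval₂RingHom ((residue R).comp φ) (residue R t) := by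
    ext y <;> simp
  have a1 := map_ev_pl (residue R) φ a b j₀ t 0 θ
  have a2 := map_eval_pl (residue R) φ a b j₀ t 0 Θ
  rw [map_zero] at a1 a2
  obtain ⟨g1, g2⟩ := h.jac_ne _ hψ (t := residue R t) (θ := residue R θ)
    ((a1 _).symm.trans ((residue_eq_zero_iff _).2 h1)) (a2 ▸ (h2.map _).ne_zero)
  have hdet : ∀ x : Fin 2 → R, x 0 ∈ maximalIdeal R → x 1 - θ ∈ maximalIdeal R →
      IsUnit (jac (eval₂RingHom φ t) (sysF c fO a b j₀) x).det := fun x x0 x1 => by
    rw [← residue_ne_zero_iff_isUnit, RingHom.map_det, RingHom.mapMatrix_apply, map_jac, er]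
    have : (fun l => residue R (x l)) = ![0, residue R θ] := by
      funext l
      fin_cases l
      · exact (residue_eq_zero_iff _).2 x0
      · exact Ideal.Quotient.eq.2 x1
    rwa [this]
  have b0 := eval_onPl φ t ![0, θ] a b j₀
  simp only [Matrix.cons_val_zero, Matrix.cons_val_one] at b0
  obtain ⟨x, hx, hx'⟩ := newton_det (maximalIdeal R) (eval₂RingHom φ t) (sysF c fO a b j₀) ![0, θ]
    (Fin.forall_fin_two.2 ⟨(b0 c.χ).symm ▸ h1,
      (residue_eq_zero_iff _).1 ((congrArg _ (b0 (sb c.pp fO))).trans ((a1 _).trans g1))⟩)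
    (hdet _ (zero_mem _) (by simp))
  have x0 : x 0 ∈ maximalIdeal R := by simpa using hx' 0
  refine ⟨x, x0, hx' 1, hx, hdet x x0 (hx' 1), ?_⟩
  rw [← residue_ne_zero_iff_isUnit, map_eval_pl, (residue_eq_zero_iff _).2 x0, ← a2]
  exact (h2.map _).ne_zero

/-- the branch at a simple point -/
theorem crv_branch {L : Type} [Field L] (φ : O →+* L) {t : L} {x : Fin 2 → L}
    (h1 : ∀ l, MvPolynomial.eval₂ (eval₂RingHom φ t) x (sysF c fO a b j₀ l) = 0)
    (h2 : IsUnit (jac (eval₂RingHom φ t) (sysF c fO a b j₀) x).det)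
    (h3 : MvPolynomial.eval₂ φ (pl φ a b j₀ t (x 0)) c.D ≠ 0) :
    ∃ y : Fin 2 → L⟦X⟧, (∀ l, PowerSeries.constantCoeff (y l) = x l) ∧
      Sol fO c a b j₀ (PowerSeries.C.comp φ) (PowerSeries.C t + PowerSeries.X) (y 0) (y 1) := by
  set T : L⟦X⟧ := PowerSeries.C t + PowerSeries.X with hT
  have cT : PowerSeries.constantCoeff T = t := by simp [hT]
  have ec : (PowerSeries.constantCoeff (R := L)).comp (PowerSeries.C.comp φ) = φ := rfl
  have ec' : (PowerSeries.constantCoeff (R := L)).comp (eval₂RingHom (PowerSeries.C.comp φ) T) =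
      eval₂RingHom φ t := by
    ext1
    · ext1 y
      simp
    · simp [cT]
  obtain ⟨y, hy, hy'⟩ := newton_det (Ideal.span {PowerSeries.X})
    (eval₂RingHom (PowerSeries.C.comp φ) T) (sysF c fO a b j₀) (fun l => PowerSeries.C (x l))
    (fun l => by
      rw [Ideal.mem_span_singleton, PowerSeries.X_dvd_iff, MvPolynomial.eval₂_comp_left, ec']
      exact h1 l)
    (by
      rw [PowerSeries.isUnit_iff_constantCoeff, RingHom.map_det, RingHom.mapMatrix_apply, map_jac,
        ec']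
      exact h2)
  have cy : ∀ l, PowerSeries.constantCoeff (y l) = x l := fun l => by
    have := PowerSeries.X_dvd_iff.1 (Ideal.mem_span_singleton.1 (hy' l))
    rwa [map_sub, PowerSeries.constantCoeff_C, sub_eq_zero] at this
  refine ⟨y, cy, (eval_onPl _ T y a b j₀ _).symm.trans (hy 0),
    (eval_onPl _ T y a b j₀ _).symm.trans (hy 1), fun e => h3 ?_⟩
  have := map_eval_pl PowerSeries.constantCoeff (PowerSeries.C.comp φ) a b j₀ T (y 0) c.D
  rw [e, map_zero, ec, cT, cy] at this
  exact this.symm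

theorem crv_emb (K L : Type) [Field K] [Field L] [Algebra K L] (t : L) :
    ∃ (Ω : Type) (_ : Field Ω) (e : Fr L⟦X⟧ →+* Ω) (I : OK K →+* Ω),
      (∀ x, I (algebraMap K _ x) = e (algebraMap L⟦X⟧ _ (algebraMap K _ x))) ∧
      I (algebraMap (RatFunc K) _ RatFunc.X) =
        e (algebraMap L⟦X⟧ _ (PowerSeries.C t + PowerSeries.X)) := by
  let Ω := AlgebraicClosure (Fr L⟦X⟧)
  let e : Fr L⟦X⟧ →+* Ω := algebraMap _ _
  let e' : L⟦X⟧ →+* Ω := e.comp (algebraMap _ _)
  have he' : Function.Injective e' := e.injective.comp (IsFractionRing.injective _ _)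
  let w : K[X] →+* Ω := (e'.comp (sh t)).comp (mapRingHom (algebraMap K L))
  have hw : Function.Injective w := (he'.comp fun p q hpq => taylor_injective t
    (Polynomial.coe_injective L (by rw [← sh_eq_taylor, ← sh_eq_taylor, hpq]))).comp
      (map_injective _ (algebraMap K L).injective)
  let _ : Algebra (RatFunc K) Ω := (IsFractionRing.lift hw).toAlgebra
  let I : OK K →ₐ[RatFunc K] Ω := IsAlgClosed.lift
  have hI : ∀ p : K[X], I (algebraMap (RatFunc K) _ (algebraMap K[X] _ p)) = w p := fun p =>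
    (I.commutes _).trans (IsFractionRing.lift_algebraMap hw p)
  refine ⟨Ω, inferInstance, e, I, fun r => (hI (C r)).trans ?_, (hI Polynomial.X).trans ?_⟩
  · simp only [w, sh, RingHom.comp_apply, coe_mapRingHom, map_C, coe_eval₂RingHom, eval₂_C]
    rw [PowerSeries.algebraMap_apply]
    rfl
  · simp only [w, sh, RingHom.comp_apply, coe_mapRingHom, map_X, coe_eval₂RingHom, eval₂_X]
    rfl

/-- T5: simple points of the reduced curve lift to points of the section whose classes lie in one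
bounded group -/
theorem exists_curve (hO : Function.Injective (algebraMap O K))
    (hJ : Charts k (AlgebraicClosure K) (Y.var.JK K) n) (hf : X.Sec Y f)
    (hG : X.Model (K := K) GG) (hu : u ≠ 0) (hfO : MvPolynomial.map (algebraMap O K) fO =
      MvPolynomial.C u * MvPolynomial.map (algebraMap k K) f) (h : Hd c fO Θ a b j₀) :
    ∃ (H : AddSubgroup (VV (AlgebraicClosure K) (Y.var.JK K))) (ρ : K[X]), BddZ H ∧ ρ ≠ 0 ∧
      ∀ (L : IntermediateField K (AlgebraicClosure K)) [FiniteDimensional K L] [Algebra k L]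
        [IsScalarTower k K L] (R : Type) [CommRing R] [IsLocalRing R]
        [IsAdicComplete (maximalIdeal R) R] (φ : O →+* R) [IsLocalHom φ] (i : R →+* L),
        i.comp φ = oM O K L → ∀ t θ : R,
        ev φ (fun l => φ (a l) + φ (b l) * t) θ c.χ ∈ maximalIdeal R →
        IsUnit (MvPolynomial.eval₂ φ (fun l => φ (a l) + φ (b l) * t) Θ) → aeval (i t) ρ ≠ 0 →
        ∃ (ξ : Option σ → R) (θ' : R), (∀ l, ξ l - (φ (a l) + φ (b l) * t) ∈ maximalIdeal R) ∧
          θ' - θ ∈ maximalIdeal R ∧ ev φ ξ θ' c.χ = 0 ∧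
          Y.var.On (fun l => i (c.pv φ ξ θ' l)) ∧
          pc (Y.var.JK K) L (fun l => (i (c.pv φ ξ θ' l) : AlgebraicClosure K)) ∈ H := by
  obtain ⟨P, hP, hroot, hfin⟩ := sol_finite hO h
  choose! B ρ hB hρ hp using fun (p : OK K × OK K) (hs : p ∈ hfin.toFinset) =>
    crv_one hJ hf hG hu hfO (hfin.mem_toFinset.1 hs)
  refine ⟨_, ∏ p ∈ hfin.toFinset, ρ p, BddZ.biSup (fun g hg => hJ.bdd_one hg) _ hB,
    Finset.prod_ne_zero_iff.2 hρ, fun L _ _ _ R _ _ _ φ _ i hi t θ h1 h2 h3 => ?_⟩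
  rw [← pl_zero φ a b j₀] at h1 h2
  obtain ⟨x, x0, x1, hx, hd, e3⟩ := crv_lift h φ h1 h2
  have e1 : ev φ (pl φ a b j₀ t (x 0)) (x 1) c.χ = 0 := (eval_onPl φ t x a b j₀ _).symm.trans (hx 0)
  have e2 : ev φ (pl φ a b j₀ t (x 0)) (x 1) (sb c.pp fO) = 0 :=
    (eval_onPl φ t x a b j₀ _).symm.trans (hx 1)
  have m1 := map_ev_pl i φ a b j₀ t (x 0) (x 1)
  have m2 := map_eval_pl i φ a b j₀ t (x 0) Θ
  have er : i.comp (eval₂RingHom φ t) = eval₂RingHom (i.comp φ) (i t) := by
    ext1
    · ext1 y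
      simp
    · simp
  rw [hi] at m1 m2 er
  have hD := h.D_ne (oM O K L) (m2 ▸ (e3.map i).ne_zero)
  have epv : (fun l => i (c.pv φ (pl φ a b j₀ t (x 0)) (x 1) l)) =
      c.pv (oM O K L) (pl (oM O K L) a b j₀ (i t) (i (x 0))) (i (x 1)) := funext fun l => m1 _
  have hon := on_pv hf hG hu hfO (by rw [← m1, e1, map_zero]) (by rw [← m1, e2, map_zero]) hD
  rw [← epv] at hon
  refine ⟨_, x 1, fun l => ?_, x1, e1, hon, ?_⟩
  · rw [pl, add_sub_cancel_left]
    split_ifs
    exacts [x0, zero_mem _]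
  obtain ⟨y, cy, hA⟩ := crv_branch (c := c) (fO := fO) (oM O K L) (t := i t) (x := fun l => i (x l))
    (fun l => by
      have := MvPolynomial.eval₂_comp_left i (eval₂RingHom φ t) x (sysF c fO a b j₀ l)
      rw [hx, map_zero, er] at this
      exact this.symm)
    (by
      have := hd.map i
      rwa [RingHom.map_det, RingHom.mapMatrix_apply, map_jac, er] at this) hD
  obtain ⟨Ω, _, e, I, I1, I2⟩ := crv_emb K L (i t)
  have hΩ := (Sol.iff (ψ := e.comp (algebraMap L⟦X⟧ _))
    (e.injective.comp (IsFractionRing.injective _ _))).2 hA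
  have e4 : (e.comp (algebraMap L⟦X⟧ _)).comp (PowerSeries.C.comp (oM O K L)) =
      I.comp (oM O K (OK K)) := RingHom.ext fun r => by
    have := I1 (algebraMap O K r)
    rw [PowerSeries.algebraMap_apply] at this
    exact this.symm
  simp only [e4, RingHom.comp_apply, ← I2] at hΩ
  obtain ⟨s, hs⟩ := (IsAlgClosed.splits P).mem_range_of_isRoot hP (hroot Ω I _ _ hΩ)
  rw [← hs] at hΩ
  obtain ⟨z, hz⟩ := (IsAlgClosed.splits _).mem_range_of_isRoot (i := I)
    (c.monic.map (MvPolynomial.eval₂Hom (oM O K (OK K)) (pl (oM O K (OK K)) a b j₀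
      (algebraMap (RatFunc K) (OK K) RatFunc.X) s))).ne_zero (by
      rw [IsRoot.def, Polynomial.map_map, MvPolynomial.comp_eval₂Hom, map_pl, ← ev_eq_eval]
      exact hΩ.h1)
  rw [← hz] at hΩ
  have hm : (s, z) ∈ hfin.toFinset := hfin.mem_toFinset.2 ((Sol.iff I.injective).1 hΩ)
  rw [map_prod] at h3
  exact (le_iSup₂_of_le (f := fun p (_ : p ∈ hfin.toFinset) => B p) (s, z) hm le_rfl)
    (hp _ hm L (i t) (y 0) (y 1) Ω e I I1 I2 hs hz (Finset.prod_ne_zero_iff.1 h3 _ hm) _ hon.1
      (by rw [cy, cy, epv]))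

end Pool.Agent.ZCy.U
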