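import Pool.Agent.Lib.MP_751085_ag.ZC.Iface
import Pool.Agent.Lib.MP_751085_ag.ZC.A3c

/-! The pairing in terms of values and corestriction; base change. -/

namespace Pool.Agent.ZCy

open scoped Classical
open Module IntermediateField

variable {k : Type} [Field k] [CharZero k] {X : Var k} {L : Type} [Field L] [Algebra k L]

omit [CharZero k] in
theorem Var.res_fin (x : X.Pt (AlgebraicClosure L)) : FiniteDimensional L (Var.res x) :=
  finiteDimensional_adjoin fun _ _ => Algebra.IsIntegral.isIntegral _

instance (x : X.Pt (AlgebraicClosure L)) : FiniteDimensional L (Var.res x) := Var.res_fin x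

/-- the coordinates in the residue field -/
noncomputable def Var.crd (x : X.Pt (AlgebraicClosure L)) : Fin (X.N + 1) → Var.res x :=
  fun i => ⟨x.1 i, IntermediateField.subset_adjoin _ _ ⟨i, rfl⟩⟩

omit [CharZero k] in
theorem w5_on {M : Type} [Field M] [Algebra k M] (φ : L →ₐ[k] M) {x : Fin (X.N + 1) → L} :
    X.On (φ ∘ x) ↔ X.On x :=
  and_congr (not_congr (by simp only [funext_iff, Function.comp, Pi.zero_apply, map_eq_zero]))
    (forall₂_congr fun G _ => by
      rw [← map_eq_zero φ (a := MvPolynomial.aeval x G), ← AlgHom.comp_apply,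
        MvPolynomial.comp_aeval]
      rfl)

omit [CharZero k] in
theorem Var.crd_on (x : X.Pt (AlgebraicClosure L)) : X.On (Var.crd x) :=
  (w5_on ((Var.res x).val.restrictScalars k)).1 ⟨fun h => by
    obtain ⟨i, hi⟩ := x.2.1
    exact one_ne_zero (hi.symm.trans (congrFun h i)), x.2.2⟩

omit [CharZero k] in
theorem Var.deg_add (z z' : X.Cyc L) : Var.deg (z + z') = Var.deg z + Var.deg z' :=
  Finsupp.sum_add_index' (fun _ => zero_mul _) fun _ _ _ => add_mul _ _ _

omit [CharZero k] in
theorem Var.deg_single (x : X.Pt (AlgebraicClosure L)) (n : ℤ) :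
    Var.deg (Finsupp.single x n : X.Cyc L) = n * finrank L (Var.res x) :=
  Finsupp.sum_single_index (zero_mul _)

omit [CharZero k] in
theorem Var.pair_add (z z' : X.Cyc L) (a : BR X.F) :
    Var.pair (z + z') a = Var.pair z a + Var.pair z' a :=
  Finsupp.sum_add_index' (fun _ => zero_zsmul _) fun _ _ _ => add_zsmul (_ : BR L) _ _

theorem EvApi.pair_single (h : EvApi X) {a : BR X.F} (ha : a ∈ X.Brauer)
    (x : X.Pt (AlgebraicClosure L)) (n : ℤ) : Var.pair (Finsupp.single x n : X.Cyc L) a =
      n • corF L (Var.res x) (X.val a (Var.res x) (Var.crd x)) := by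
  have : CharZero L := charZero_of_injective_algebraMap (algebraMap k L).injective
  refine (Finsupp.sum_single_index (zero_zsmul _)).trans ?_
  rw [cores_eq, h.eval a ha, res_res, RingHom.id_comp, res_id]
  rfl

/-- a point given over an abstract field -/
theorem EvApi.pair_pt (h : EvApi X) {M : Type} [Field M] [Algebra L M] [Algebra k M]
    [IsScalarTower k L M] [FiniteDimensional L M] (u : M →ₐ[L] AlgebraicClosure L)
    {x₀ : Fin (X.N + 1) → M} (hg : IntermediateField.adjoin L (Set.range x₀) = ⊤)
    (x : X.Pt (AlgebraicClosure L)) (hx : x.1 = u ∘ x₀) :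
    finrank L (Var.res x) = finrank L M ∧ ∀ a ∈ X.Brauer,
      Var.pair (Finsupp.single x 1 : X.Cyc L) a = corF L M (X.val a M x₀) := by
  have : CharZero L := charZero_of_injective_algebraMap (algebraMap k L).injective
  have h1 : IntermediateField.map u ⊤ = Var.res x := by
    rw [← hg, adjoin_map, ← Set.range_comp, ← hx, Var.res]
  let e : M ≃ₐ[L] Var.res x := (topEquiv.symm.trans (equivMap ⊤ u)).trans (equivOfEq h1)
  have h2 : Var.crd x = (e : M →ₐ[L] Var.res x).restrictScalars k ∘ x₀ :=
    funext fun i => Subtype.ext (congrFun hx i)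
  refine ⟨e.toLinearEquiv.finrank_eq.symm, fun a ha => ?_⟩
  rw [h.pair_single ha, one_zsmul, h2, h.val_map a ha _ _ _ _ ((w5_on _).1 (h2 ▸ Var.crd_on x))]
  exact cor_equiv e _

theorem w5_top {F Ω ι : Type} [Field F] [Field Ω] [Algebra F Ω] {S : IntermediateField F Ω}
    {y : ι → S} (h : S ≤ adjoin F (Set.range fun i => (y i : Ω))) : adjoin F (Set.range y) = ⊤ :=
  lift_injective S (by
    rw [lift_adjoin, lift_top, ← Set.range_comp]
    exact le_antisymm (adjoin_le_iff.2 (Set.range_subset_iff.2 fun i => (y i).2)) h)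

theorem w5_pt (h : EvApi X) (x : X.Pt (AlgebraicClosure k))
    (τ : EmO (Var.res x) (algebraMap k L)) : ∃ y : X.Pt (AlgebraicClosure L),
      finrank L (Var.res y) = finrank L τ.fld ∧ ∀ a ∈ X.Brauer,
        Var.pair (Finsupp.single y 1 : X.Cyc L) a =
          corF L τ.fld (rs τ.hom (X.val a (Var.res x) (Var.crd x))) := by
  let φ : Var.res x →ₐ[k] τ.fld := ⟨τ.hom, fun a =>
    (a3c_hom_base τ a).trans (IsScalarTower.algebraMap_apply k L τ.fld a).symm⟩
  let ψ := (τ.fld.val.restrictScalars k).comp φ
  have h1 : adjoin L (Set.range (φ ∘ Var.crd x)) = ⊤ := w5_top (adjoin_le_iff.2 (by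
    rintro _ ⟨m, rfl⟩
    have : m ∈ adjoin k (Set.range (Var.crd x)) := (w5_top le_rfl).ge mem_top
    exact (adjoin_le_iff (T := ((adjoin L _).restrictScalars k).comap ψ)).2
      (Set.range_subset_iff.2 fun i => subset_adjoin L _ (Set.mem_range_self i)) this))
  obtain ⟨h2, h3⟩ := h.pair_pt τ.fld.val h1 ⟨ψ ∘ Var.crd x, x.2.1.imp fun i hi =>
    (congrArg ψ (Subtype.ext hi)).trans (map_one ψ), ((w5_on ψ).2 (Var.crd_on x)).2⟩ rfl
  exact ⟨_, h2, fun a ha => (h3 a ha).trans
    (congrArg _ (h.val_map a ha _ _ φ _ (Var.crd_on x)))⟩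

theorem wbc_of (h : EV) : WBC := fun k _ _ X n hn h3 K _ _ => by
  have E := h k X n hn h3
  have : CharZero K := charZero_of_injective_algebraMap (algebraMap k K).injective
  let D : X.Cyc K →+ ℤ := .mk' Var.deg Var.deg_add
  let P : BR X.F → X.Cyc K →+ BR K := fun a => .mk' (fun z : X.Cyc K => Var.pair z a) (Var.pair_add · · a)
  refine ⟨fun p => ?_, fun z b => ?_, fun z a ha b hb => ?_⟩
  · induction p using Finsupp.induction_linear with
    | zero => exact ⟨0, rfl, fun a _ => (map_zero _).symm⟩
    | add p q hp hq =>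
      obtain ⟨p', h1, h2⟩ := hp
      obtain ⟨q', h1', h2'⟩ := hq
      exact ⟨p' + q', by rw [Var.deg_add, Var.deg_add, h1, h1'], fun a ha => by
        rw [Var.pair_add, Var.pair_add, map_add, h2 a ha, h2' a ha]⟩
    | single x m =>
      obtain ⟨T, -, h1, h2⟩ := cor_orbits (Var.res x) (algebraMap k K)
      choose y h4 h5 using w5_pt (L := K) E x
      refine ⟨m • ∑ τ ∈ T, .single (y τ) 1, ?_, fun a ha => ?_⟩
      · refine (map_zsmul D _ _).trans ?_
        rw [map_sum, Var.deg_single, ← h1, Nat.cast_sum]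
        exact congrArg (m * ·) (Finset.sum_congr rfl fun τ _ =>
          (Var.deg_single _ _).trans (by rw [one_mul, h4]))
      · refine (map_zsmul (P a) _ _).trans ?_
        rw [map_sum, E.pair_single ha]
        exact (congrArg (m • ·) ((Finset.sum_congr rfl fun τ _ => h5 τ a ha).trans
          (h2 _).symm)).trans (map_zsmul (rs (algebraMap k K)) m _).symm
  · induction z using Finsupp.induction_linear with
    | zero => exact (zero_zsmul (_ : BR K)).symm
    | add p q hp hq =>
      rw [Var.pair_add, Var.deg_add, hp, hq]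
      exact (add_zsmul (_ : BR K) _ _).symm
    | single x m =>
      rw [E.pair_single (E.const b), E.val_const b _ _ (Var.crd_on x), Var.deg_single,
        IsScalarTower.algebraMap_eq k K (Var.res x), rs, ← res_res (Ω' := AlgebraicClosure K),
        ← cor_apply, cor_res]
      exact ((mul_zsmul (_ : BR K) _ _).trans (congrArg _ (natCast_zsmul _ _))).symm
  · induction z using Finsupp.induction_linear with
    | zero => exact (add_zero _).symm
    | add p q hp hq =>
      rw [Var.pair_add, Var.pair_add, Var.pair_add, hp, hq]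
      exact add_add_add_comm (_ : BR K) _ _ _
    | single x m =>
      rw [E.pair_single (E.add a ha b hb), E.pair_single ha, E.pair_single hb,
        E.val_add a ha b hb _ _ (Var.crd_on x), corF_add]
      exact zsmul_add (_ : BR K) _ _

end Pool.Agent.ZCy
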