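import Pool.Agent.Lib.MP_751085_ag.ZC.UNet

/-! A local field of characteristic zero has finitely many extensions of bounded degree. -/

namespace Pool.Agent.ZCy.U

open Polynomial Module
open scoped Classical IntermediateField

set_option linter.unusedSectionVars false

variable {K Λ : Type} [NontriviallyNormedField K] [ProperSpace K] [CharZero K] [NormedField Λ]
  [IsUltrametricDist Λ] [NormedAlgebra K Λ] [IsAlgClosed Λ] [IsGalois K Λ]

/-- Sketch: with `y = σ x - x` the sum of the `σ ^ i y`, `i < m`, is zero. If `‖σ y - y‖ ≤ r`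
then `‖σ ^ i y - y‖ ≤ r` for all `i`, so `‖m y‖ = ‖∑ (y - σ ^ i y)‖ ≤ r`. -/
theorem norm_move (hσ : ∀ (σ : Λ ≃ₐ[K] Λ) x, ‖σ x‖ = ‖x‖) (σ : Λ ≃ₐ[K] Λ) {x : Λ} {m : ℕ}
    (h : (σ ^ m) x = x) : ‖(m : Λ)‖ * ‖σ x - x‖ ≤ ‖σ (σ x - x) - (σ x - x)‖ := by
  obtain ⟨y, hy⟩ : ∃ y, y = σ x - x := ⟨_, rfl⟩
  rw [← hy]
  have h1 : ∀ i : ℕ, ‖(σ ^ i) y - y‖ ≤ ‖σ y - y‖ := by
    intro i
    induction i with
    | zero => simp
    | succ i ih =>
      have e : (σ ^ (i + 1)) y - y = (σ ^ i) (σ y - y) + ((σ ^ i) y - y) := by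
        rw [pow_succ, AlgEquiv.mul_apply, map_sub]; ring
      rw [e]
      exact (IsUltrametricDist.norm_add_le_max _ _).trans (max_le (hσ _ _).le ih)
  have h2 : ∑ i ∈ Finset.range m, (σ ^ i) y = 0 := by
    have e : ∀ i : ℕ, (σ ^ i) y = (σ ^ (i + 1)) x - (σ ^ i) x := fun i => by
      rw [hy, pow_succ, AlgEquiv.mul_apply, map_sub]
    rw [Finset.sum_congr rfl fun i _ => e i, Finset.sum_range_sub (fun i => (σ ^ i) x), h]
    simp
  have h3 : (m : Λ) * y = -∑ i ∈ Finset.range m, ((σ ^ i) y - y) := by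
    rw [Finset.sum_sub_distrib, h2]
    simp
  rw [← norm_mul, h3, norm_neg]
  exact IsUltrametricDist.norm_sum_le_of_forall_le_of_nonneg (norm_nonneg _) fun i _ => h1 i

/-- the conjugates of `x` are roots of the minimal polynomial; pigeonhole -/
theorem exists_period (σ : Λ ≃ₐ[K] Λ) (x : Λ) :
    ∃ m, 0 < m ∧ m ≤ (minpoly K x).natDegree ∧ (σ ^ m) x = x := by
  have hx : IsIntegral K x := Algebra.IsIntegral.isIntegral x
  have hc : ((minpoly K x).aroots Λ).toFinset.card <
      (Finset.range ((minpoly K x).natDegree + 1)).card := by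
    rw [Finset.card_range, Nat.lt_succ_iff]
    refine (Multiset.toFinset_card_le _).trans ((card_roots' _).trans ?_)
    exact natDegree_map_le
  obtain ⟨i, hi, j, hj, hne, he⟩ := Finset.exists_ne_map_eq_of_card_lt_of_maps_to hc
    (f := fun i => (σ ^ i) x) fun i _ => by
      rw [Finset.mem_coe, Multiset.mem_toFinset, mem_aroots]
      refine ⟨minpoly.ne_zero hx, ?_⟩
      rw [← minpoly.algEquiv_eq (σ ^ i) x]
      exact minpoly.aeval K _
  rw [Finset.mem_range] at hi hj
  have key : ∀ a b : ℕ, a < b → (σ ^ a) x = (σ ^ b) x → (σ ^ (b - a)) x = x := by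
    intro a b hab h
    apply (σ ^ a).injective
    rw [← AlgEquiv.mul_apply, ← pow_add, Nat.add_sub_cancel' hab.le, h]
  rcases lt_or_gt_of_ne hne with h | h
  · exact ⟨j - i, by omega, by omega, key i j h he⟩
  · exact ⟨i - j, by omega, by omega, key j i h he.symm⟩

theorem uf1_deg (L : IntermediateField K Λ) [FiniteDimensional K L] {w : Λ} (hw : w ∈ L) :
    (minpoly K w).natDegree ≤ finrank K L := by
  have h := minpoly.natDegree_le (A := K) (⟨w, hw⟩ : L)
  rwa [← minpoly.algHom_eq L.val Subtype.val_injective] at h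

theorem uf1_min [CharZero Λ] (γ : ℕ) :
    ∃ c : ℝ, 0 < c ∧ ∀ m : ℕ, 0 < m → m ≤ γ → c ≤ ‖(m : Λ)‖ := by
  induction γ with
  | zero => exact ⟨1, one_pos, fun m h1 h2 => by omega⟩
  | succ γ ih =>
    obtain ⟨c, hc, h⟩ := ih
    refine ⟨min c ‖((γ + 1 : ℕ) : Λ)‖, lt_min hc (norm_pos_iff.2 (Nat.cast_ne_zero.2 (by omega))),
      fun m h1 h2 => ?_⟩
    rcases h2.eq_or_lt with rfl | h3
    · exact min_le_right _ _
    · exact (min_le_left _ _).trans (h m h1 (by omega))

/-- All these fields lie in the field generated by a finite net. -/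
theorem finite_ext (hσ : ∀ (σ : Λ ≃ₐ[K] Λ) x, ‖σ x‖ = ‖x‖) (γ : ℕ) :
    {L : IntermediateField K Λ | FiniteDimensional K L ∧ finrank K L ≤ γ}.Finite := by
  have : CharZero Λ := charZero_of_injective_algebraMap (algebraMap K Λ).injective
  obtain ⟨c, hc, hcm⟩ := uf1_min (Λ := Λ) γ
  obtain ⟨t, ht⟩ := NormedField.exists_one_lt_norm K
  have ht0 : 0 < ‖t‖ := one_pos.trans ht
  obtain ⟨R, hR⟩ := exists_net hσ (γ * γ) (ε := c * (1 / ‖t‖)) (by positivity)
  have hE : FiniteDimensional K (IntermediateField.adjoin K (R : Set Λ)) :=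
    IntermediateField.finiteDimensional_adjoin fun x _ => Algebra.IsIntegral.isIntegral x
  have hle : ∀ L : IntermediateField K Λ, FiniteDimensional K L → finrank K L ≤ γ →
      L ≤ IntermediateField.adjoin K (R : Set Λ) := by
    intro L hL hγ x hx
    rw [← InfiniteGalois.fixedField_fixingSubgroup (IntermediateField.adjoin K (R : Set Λ)),
      IntermediateField.mem_fixedField_iff]
    intro σ hs
    by_contra hne
    obtain ⟨d, -, h1, h2, -⟩ := rescale_to_shell ht one_pos (sub_ne_zero.2 hne)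
    have hx' : d • x ∈ L := L.smul_mem hx
    have e : d • (σ x - x) = σ (d • x) - d • x := by
      simp only [Algebra.smul_def, map_mul, AlgEquiv.commutes, mul_sub]
    rw [e] at h1 h2
    generalize d • x = w at hx' h1 h2
    obtain ⟨m, hm0, hm, hw⟩ := exists_period σ w
    have h3 := norm_move hσ σ hw
    have h4 := hcm m hm0 (hm.trans ((uf1_deg L hx').trans hγ))
    have hL' : FiniteDimensional K (L.map (σ : Λ →ₐ[K] Λ)) :=
      (L.equivMap (σ : Λ →ₐ[K] Λ)).toLinearEquiv.finiteDimensional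
    have hr : finrank K (L.map (σ : Λ →ₐ[K] Λ)) = finrank K L :=
      (L.equivMap (σ : Λ →ₐ[K] Λ)).toLinearEquiv.finrank_eq.symm
    have hy : σ w - w ∈ L.map (σ : Λ →ₐ[K] Λ) ⊔ L :=
      sub_mem ((le_sup_left : L.map (σ : Λ →ₐ[K] Λ) ≤ _) ⟨w, hx', rfl⟩)
        ((le_sup_right : L ≤ _) hx')
    have hd : (minpoly K (σ w - w)).natDegree ≤ γ * γ := by
      refine (uf1_deg _ hy).trans ((IntermediateField.finrank_sup_le _ _).trans ?_)
      rw [hr]
      exact Nat.mul_le_mul hγ hγ
    obtain ⟨z, hz, h5⟩ := hR _ h1.le hd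
    have hz' : σ z = z := (IntermediateField.mem_fixingSubgroup_iff _ σ).1 hs z
      (IntermediateField.subset_adjoin K _ hz)
    generalize σ w - w = y at h2 h3 h5
    have e2 : σ y - y = σ (y - z) + -(y - z) := by rw [map_sub, hz']; ring
    have h6 : ‖σ y - y‖ ≤ ‖y - z‖ := by
      rw [e2]
      exact (IsUltrametricDist.norm_add_le_max _ _).trans (max_le (hσ _ _).le (norm_neg _).le)
    have h7 : c * (1 / ‖t‖) ≤ ‖(m : Λ)‖ * ‖y‖ :=
      mul_le_mul h4 h2 (by positivity) (norm_nonneg _)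
    linarith
  generalize IntermediateField.adjoin K (R : Set Λ) = E at hE hle
  have hfin : Finite (IntermediateField K E) :=
    Field.finite_intermediateField_of_exists_primitive_element K E
      (Field.exists_primitive_element K E)
  refine (Set.finite_range (fun M : IntermediateField K E => IntermediateField.lift M)).subset ?_
  rintro L ⟨hL, hγ⟩
  exact ⟨_, IntermediateField.lift_restrict (hle L hL hγ)⟩

end Pool.Agent.ZCy.U
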