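import Pool.Agent.Lib.MP_751085_ag.ZC.UDefs
import Pool.Agent.Lib.MP_751085_ag.ZC.UF1

/-! The spectral norm on the closure of a local field. -/

namespace Pool.Agent.ZCy.U

open Polynomial Module Pool.Agent.ZeroCyc
open scoped Classical IntermediateField

set_option linter.unusedSectionVars false

section

variable (K Λ : Type) [NontriviallyNormedField K] [ProperSpace K] [CharZero K]

theorem abv_gal [NormedField Λ] [IsUltrametricDist Λ] [NormedAlgebra K Λ] [IsGalois K Λ]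
    (σ : Λ ≃ₐ[K] Λ) (x : Λ) : ‖σ x‖ = ‖x‖ := by
  have : IsUltrametricDist K := IsUltrametricDist.isUltrametricDist_of_forall_norm_add_le_max_norm
    fun x y => by
      rw [← norm_algebraMap' Λ, ← norm_algebraMap' Λ x, ← norm_algebraMap' Λ y, map_add]
      exact IsUltrametricDist.norm_add_le_max _ _
  rw [NormedAlgebra.norm_eq_spectralNorm K, NormedAlgebra.norm_eq_spectralNorm K x]
  exact (spectralNorm_eq_of_equiv σ x).symm

theorem abv_proper [NormedField Λ] [NormedAlgebra K Λ] (L : IntermediateField K Λ)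
    (hL : FiniteDimensional K L) : ProperSpace L :=
  have : FiniteDimensional K L.toSubalgebra.toSubmodule := hL
  FiniteDimensional.proper K L.toSubalgebra.toSubmodule

theorem abv_compact [NormedField Λ] [NormedAlgebra K Λ] (L : IntermediateField K Λ)
    (hL : FiniteDimensional K L) : IsCompact {x : Λ | x ∈ L ∧ ‖x‖ ≤ 1} := by
  have := abv_proper K Λ L hL
  have h := (isCompact_closedBall (0 : L) 1).image continuous_subtype_val
  have : {x : Λ | x ∈ L ∧ ‖x‖ ≤ 1} = Subtype.val '' Metric.closedBall (0 : L) 1 := by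
    ext x
    constructor
    · rintro ⟨h1, h2⟩
      exact ⟨⟨x, h1⟩, mem_closedBall_zero_iff.2 h2, rfl⟩
    · rintro ⟨y, hy, rfl⟩
      exact ⟨y.2, mem_closedBall_zero_iff.1 hy⟩
  rw [this]
  exact h

/-- `NormedAlgebra.norm_eq_spectralNorm`, `spectralNorm_eq_of_equiv`, `FiniteDimensional.proper`,
`finite_ext`; needs `IsUltrametricDist K` (from the isometric `algebraMap`) -/
theorem locF_of_normed [NormedField Λ] [IsUltrametricDist Λ] [NormedAlgebra K Λ] [IsAlgClosed Λ]
    [IsGalois K Λ] : (∀ (σ : Λ ≃ₐ[K] Λ) x, ‖σ x‖ = ‖x‖) ∧ LocF K Λ := by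
  refine ⟨abv_gal K Λ, abv_proper K Λ, ?_, continuous_algebraMap K Λ, finite_ext (abv_gal K Λ)⟩
  obtain ⟨c, hc⟩ := NontriviallyNormedField.non_trivial (α := K)
  exact ⟨c, by rwa [norm_algebraMap']⟩

/-- copy the proof of `loc_of_padic` in `ZY/LocInst.lean` -/
theorem loc_of_normed [NormedField Λ] [IsUltrametricDist Λ] [NormedAlgebra K Λ] [IsAlgClosed Λ]
    [IsGalois K Λ] {p : ℕ} (hp : p.Prime) (h : ‖(p : K)‖ < 1) : Loc p K Λ := by
  have e : (p : Λ) = algebraMap K Λ p := by simp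
  have hp1 : ‖(p : Λ)‖ < 1 := by rwa [e, norm_algebraMap']
  have hp0 : (p : Λ) ≠ 0 := by
    rw [e, _root_.map_ne_zero]
    exact_mod_cast hp.ne_zero
  refine ⟨hp, hp1, abv_gal K Λ, fun L hL => ?_, fun L hL => ?_, fun L hL => ?_⟩
  · have : FiniteDimensional K L.toSubalgebra.toSubmodule := hL
    exact L.toSubalgebra.toSubmodule.complete_of_finiteDimensional
  · have h := (abv_compact K Λ L hL).inter_right (IsUltrametricDist.isClosed_ball (0 : Λ) 1)
    have hm : (p : Λ) ∈ {x : Λ | x ∈ L ∧ ‖x‖ ≤ 1} ∩ Metric.ball 0 1 :=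
      ⟨⟨natCast_mem L p, hp1.le⟩, by simpa using hp1⟩
    obtain ⟨w, hw, hmax⟩ := h.exists_isMaxOn ⟨_, hm⟩ continuous_norm.continuousOn
    refine ⟨w, hw.1.1, fun hc => ?_, by simpa using hw.2, fun x hx h1 =>
      hmax (show x ∈ {x : Λ | x ∈ L ∧ ‖x‖ ≤ 1} ∩ Metric.ball 0 1 from
        ⟨⟨hx, h1.le⟩, by simpa using h1⟩)⟩
    have h2 : ‖(p : Λ)‖ ≤ ‖w‖ := hmax hm
    rw [hc, norm_zero] at h2
    exact hp0 (norm_le_zero_iff.1 h2)
  · obtain ⟨t, h1, h2, h3⟩ := (abv_compact K Λ L hL).finite_cover_balls one_pos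
    refine ⟨h2.toFinset, fun x hx => h1 (h2.mem_toFinset.1 hx), fun x hx hx1 => ?_⟩
    obtain ⟨y, hy, hxy⟩ := Set.mem_iUnion₂.1 (h3 ⟨hx, hx1⟩)
    exact ⟨y, h2.mem_toFinset.2 hy, by rwa [Metric.mem_ball, dist_eq_norm] at hxy⟩

/-- the spectral norm (`spectralMulAlgNorm`, `isNonarchimedean_spectralNorm`,
`spectralNorm_extends`) as an absolute value -/
theorem exists_abv [IsUltrametricDist K] [Field Λ] [Algebra K Λ] [IsAlgClosed Λ] [IsGalois K Λ] :
    ∃ ν : AbsoluteValue Λ ℝ, (∀ x : K, ν (algebraMap K Λ x) = ‖x‖) ∧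
      letI := ν.toNormedField
      IsUltrametricDist Λ ∧ LocF K Λ ∧ ∀ p : ℕ, p.Prime → ‖(p : K)‖ < 1 → Loc p K Λ := by
  let ν : AbsoluteValue Λ ℝ :=
    { toFun := spectralNorm K Λ
      map_mul' := map_mul (spectralMulAlgNorm K Λ)
      nonneg' := spectralNorm_nonneg
      eq_zero' := fun _ => map_eq_zero_iff_eq_zero (spectralMulAlgNorm K Λ)
      add_le' := map_add_le_add (spectralMulAlgNorm K Λ) }
  have h : ∀ x : K, ν (algebraMap K Λ x) = ‖x‖ := spectralNorm_extends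
  refine ⟨ν, h, ?_⟩
  let := ν.toNormedField
  have hu : IsUltrametricDist Λ :=
    IsUltrametricDist.isUltrametricDist_of_forall_norm_add_le_max_norm
      (isNonarchimedean_spectralNorm (K := K) (L := Λ))
  let : NormedAlgebra K Λ :=
    { (inferInstance : Algebra K Λ) with
      norm_smul_le := fun a x => by
        rw [Algebra.smul_def, norm_mul]
        exact (congrArg (· * ‖x‖) (h a)).le }
  exact ⟨hu, (locF_of_normed K Λ).2, fun p hp h => loc_of_normed K Λ hp h⟩

end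

end Pool.Agent.ZCy.U
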