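import Pool.Agent.Lib.MP_796ce4_ag.ZY.CvW

/-! A plane model of a function field. -/

namespace Pool.Agent.ZCy.U

open Polynomial Module Pool.Agent.ZeroCyc
open scoped Classical IntermediateField

set_option linter.unusedSectionVars false

/-- `b` and `w` large enough (`exists_WL`; for `wt` take `b` above the degrees of all
coefficients) -/
theorem exists_cv {R : Type} [CommRing R] {χ α β : R[X][X]} {ρ : R[X]} (hm : χ.Monic)
    (h : C ρ = α * χ + β * derivative χ) : ∃ c : Cv R, c.χ = χ ∧ c.ρ = ρ := by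
  obtain ⟨m, hw⟩ := exists_WL (χ.support.sup fun i => (χ.coeff i).natDegree)
    ((χ.support.sup fun i => (χ.coeff i).natDegree) * χ.natDegree) β
  refine ⟨⟨χ, α, β, ρ, χ.natDegree, χ.support.sup fun i => (χ.coeff i).natDegree,
    m + ρ.natDegree, ⟨hm, rfl, fun i j e => ?_⟩, h, by omega, hw.mono (by omega)⟩, rfl, rfl⟩
  have h2 : χ.coeff i ≠ 0 := fun h0 => e (by rw [h0, coeff_zero])
  rcases (le_natDegree_of_ne_zero h2).eq_or_lt with rfl | hi
  · rw [hm.coeff_natDegree, coeff_one] at e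
    have : j = 0 := by_contra fun hj => e (if_neg hj)
    omega
  · have h3 := (le_natDegree_of_ne_zero e).trans
      (Finset.le_sup (f := fun i => (χ.coeff i).natDegree) (mem_support_iff.2 h2))
    have h4 := Nat.mul_le_mul_left (χ.support.sup fun i => (χ.coeff i).natDegree)
      (Nat.succ_le_of_lt hi)
    rw [Nat.mul_succ] at h4
    omega

/-- An integral primitive element over a domain. -/
theorem model_prim (A E F : Type) [CommRing A] [IsDomain A] [Field E] [CharZero E] [Field F]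
    [Algebra A E] [IsFractionRing A E] [Algebra E F] [Algebra A F] [IsScalarTower A E F]
    [FiniteDimensional E F] : ∃ θ : F, IsIntegral A θ ∧
      ∀ x : F, ∃ (r : A) (q : A[X]), r ≠ 0 ∧ aeval θ q = algebraMap A F r * x := by
  obtain ⟨z, hz⟩ := Field.exists_primitive_element E F
  obtain ⟨y, hy, hi⟩ := ((IsFractionRing.isAlgebraic_iff A E F).2
    (Algebra.IsAlgebraic.isAlgebraic z)).exists_integral_multiple
  refine ⟨y • z, hi, fun x => ?_⟩
  have h0 : algebraMap A E y ≠ 0 := fun e => hy (IsFractionRing.injective A E (by rw [e, map_zero]))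
  have h1 : z ∈ Algebra.adjoin E {y • z} := by
    have := (Algebra.adjoin E {y • z}).smul_mem (Algebra.self_mem_adjoin_singleton E (y • z))
      (algebraMap A E y)⁻¹
    rwa [← algebraMap_smul E y z, smul_smul, inv_mul_cancel₀ h0, one_smul, algebraMap_smul] at this
  have h2 : x ∈ Algebra.adjoin E {z} := by
    rw [← IntermediateField.adjoin_simple_toSubalgebra_of_isAlgebraic
      (Algebra.IsAlgebraic.isAlgebraic z), hz]
    trivial
  obtain ⟨t, ht⟩ := multiple_mem_adjoin_of_mem_localization_adjoin (nonZeroDivisors A) E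
    {y • z} x (Algebra.adjoin_le (Set.singleton_subset_iff.2 h1) h2)
  rw [Algebra.adjoin_singleton_eq_range_aeval] at ht
  obtain ⟨q, hq⟩ := ht
  exact ⟨t, q, nonZeroDivisors.ne_zero t.2, hq.trans (Algebra.smul_def (t : A) x)⟩

variable {K F : Type} [Field K] [CharZero K] [Field F] [Algebra K F] {N : ℕ}

/-- Sketch: make `F` an algebra over `K[X]` by `aeval τ` (injective), `K⟮τ⟯` is its fraction
field. A primitive element of `F / K⟮τ⟯` times a polynomial in `τ` is an integral primitive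
element `θ`; `χ = minpoly K[X] θ` (`minpoly.isIntegrallyClosed_dvd`). Every element of `F` is
`q(τ, θ) / r(τ)`. Apply this to the `g i`, to the inverse of `χ'(τ, θ) ≠ 0` and to the inverse
of `q i₀ (τ, θ)`; `ρ` is the product of the denominators. -/
theorem exists_model {τ : F} (hτ : Transcendental K τ) [FiniteDimensional K⟮τ⟯ F]
    {g : Fin (N + 1) → F} (hg : g ≠ 0) : ∃ (c : Cv K) (θ r : F) (q : Fin (N + 1) → K[X][X])
      (i₀ : Fin (N + 1)) (q' : K[X][X]), c.ρ ≠ 0 ∧
      (∀ a, e2 (algebraMap K F) τ θ a = 0 ↔ c.χ ∣ a) ∧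
      (∀ i, e2 (algebraMap K F) τ θ (q i) = r * g i) ∧ c.χ ∣ q i₀ * q' - C c.ρ := by
  let _ : Algebra K[X] F := (eval₂RingHom (algebraMap K F) τ).toAlgebra
  let _ : Algebra K[X] K⟮τ⟯ :=
    (eval₂RingHom (algebraMap K K⟮τ⟯) (IntermediateField.AdjoinSimple.gen K τ)).toAlgebra
  have hinj : Function.Injective (algebraMap K[X] F) := transcendental_iff_injective.1 hτ
  have : IsScalarTower K[X] K⟮τ⟯ F := IsScalarTower.of_algebraMap_eq fun u =>
    (aeval_algebraMap_apply F (IntermediateField.AdjoinSimple.gen K τ) u)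
  have : FaithfulSMul K[X] F := (faithfulSMul_iff_algebraMap_injective _ _).2 hinj
  have : FaithfulSMul K[X] K⟮τ⟯ := (faithfulSMul_iff_algebraMap_injective _ _).2 fun u v e =>
    hinj (by rw [IsScalarTower.algebraMap_apply K[X] K⟮τ⟯ F, e, ← IsScalarTower.algebraMap_apply])
  have : IsFractionRing K[X] K⟮τ⟯ := IsFractionRing.of_field K[X] K⟮τ⟯ fun z => by
    obtain ⟨r, s, e⟩ := (IntermediateField.mem_adjoin_simple_iff K z.1).1 z.2
    refine ⟨r, s, (algebraMap K⟮τ⟯ F).injective ?_⟩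
    rw [map_div₀, ← IsScalarTower.algebraMap_apply, ← IsScalarTower.algebraMap_apply]
    exact e
  obtain ⟨θ, hθ, H⟩ := model_prim K[X] K⟮τ⟯ F
  have hd := minpoly.isIntegrallyClosed_dvd_iff hθ
  have hne : ∀ {u : K[X]}, u ≠ 0 → algebraMap K[X] F u ≠ 0 := fun hu e =>
    hu (hinj (by rw [e, map_zero]))
  have hder : aeval θ (derivative (minpoly K[X] θ)) ≠ 0 := fun e => by
    have h1 := (minpoly.natDegree_pos hθ).ne'
    exact h1 (derivative_eq_zero.1
      (eq_zero_of_dvd_of_natDegree_lt ((hd _).1 e) (natDegree_derivative_lt h1)))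
  choose r q₀ hr hq using fun i => H (g i)
  obtain ⟨i₀, hi⟩ := Function.ne_iff.1 hg
  have hq' : ∀ i, aeval θ (C (∏ j ∈ Finset.univ.erase i, r j) * q₀ i) =
      algebraMap K[X] F (∏ j, r j) * g i := fun i => by
    rw [map_mul, aeval_C, hq, ← mul_assoc, ← map_mul,
      Finset.prod_erase_mul _ _ (Finset.mem_univ i)]
  have hz : algebraMap K[X] F (∏ j, r j) * g i₀ ≠ 0 :=
    mul_ne_zero (hne (Finset.prod_ne_zero_iff.2 fun j _ => hr j)) hi
  obtain ⟨r₁, q₁, h₁, e₁⟩ := H (algebraMap K[X] F (∏ j, r j) * g i₀)⁻¹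
  obtain ⟨r₂, q₂, h₂, e₂⟩ := H (aeval θ (derivative (minpoly K[X] θ)))⁻¹
  obtain ⟨α, hα⟩ := (hd (C (r₁ * r₂) - C r₁ * q₂ * derivative (minpoly K[X] θ))).1 (by
    rw [map_sub, map_mul (aeval θ), map_mul (aeval θ), aeval_C, aeval_C, e₂, map_mul, mul_assoc,
      mul_assoc, inv_mul_cancel₀ hder, mul_one, sub_self])
  obtain ⟨c, hc, hρ⟩ := exists_cv (α := α) (β := C r₁ * q₂) (ρ := r₁ * r₂) (minpoly.monic hθ)
    (by rw [mul_comm α, ← hα, sub_add_cancel])
  refine ⟨c, θ, _, fun i => C (∏ j ∈ Finset.univ.erase i, r j) * q₀ i, i₀, C r₂ * q₁,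
    hρ ▸ mul_ne_zero h₁ h₂, fun a => hc ▸ hd a, hq', ?_⟩
  rw [hc, hρ, ← hd, map_sub, map_mul (aeval θ), hq', map_mul (aeval θ), aeval_C, aeval_C, e₁,
    map_mul, mul_left_comm, mul_left_comm _ (algebraMap K[X] F r₁), mul_inv_cancel₀ hz, mul_one,
    mul_comm, sub_self]

end Pool.Agent.ZCy.U
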