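import Pool.Agent.Lib.MP_751085_ag.ZC.UXc
import Pool.Agent.Lib.MP_751085_ag.ZC.UModel

/-! Centres of arcs are good points of a plane model. -/

namespace Pool.Agent.ZCy.U

open Polynomial Module Pool.Agent.ZeroCyc
open scoped Classical IntermediateField

set_option linter.unusedSectionVars false

variable {K F : Type} [Field K] [CharZero K] [Field F] [Algebra K F] {N : ℕ}

variable {Λ : Type} [Field Λ] [IsAlgClosed Λ] [Algebra K Λ] [IsGalois K Λ]
  {J : Ideal (MvPolynomial (Fin (N + 1)) K)}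

theorem arc1_aeval {S T : Type} [CommRing S] [CommRing T] [Algebra K S] [Algebra K T]
    (ψ : S →+* T) (h : ∀ a, ψ (algebraMap K S a) = algebraMap K T a) (q : Fin (N + 1) → S)
    (G : MvPolynomial (Fin (N + 1)) K) :
    ψ (MvPolynomial.aeval q G) = MvPolynomial.aeval (fun i => ψ (q i)) G := by
  have e : ψ.comp (algebraMap K S) = algebraMap K T := RingHom.ext h
  rw [MvPolynomial.map_aeval, MvPolynomial.aeval_eq_eval₂Hom, e]

theorem arc1_pj {x v : Fin (N + 1) → Λ} (hx : x ≠ 0) (hv : v ≠ 0)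
    (h : ∀ i i', x i * v i' = x i' * v i) : pj x = pj v := by
  obtain ⟨i, hi⟩ := Function.ne_iff.1 hx
  have hi' : x i ≠ 0 := hi
  have e : v = (v i / x i) • x := funext fun i' => by
    rw [Pi.smul_apply, smul_eq_mul, div_mul_eq_mul_div, eq_div_iff hi', mul_comm, h i i', mul_comm]
  have h0 : v i / x i ≠ 0 := fun h0 => hv (by rw [e, h0, zero_smul])
  rw [e, pj_smul h0]

/-- Sketch: `exists_model`; `𝒳.c = c.map (algebraMap K Λ)`. `on`: `hc` gives `OnX J (r • g)`.
For an arc, `j θ` is integral over `A`, so `j θ = algebraMap η`; `Q = (t, ev η)`. In `A`: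
`y i * q i' (s, η) = y i' * q i (s, η)`; apply `ev`; `x ≠ 0` and `q(Q) ≠ 0`, so the vectors are
proportional. -/
theorem exists_xc {τ : F} (hτ : Transcendental K τ) [FiniteDimensional K⟮τ⟯ F]
    {g : Fin (N + 1) → F} (hg : g ≠ 0) (hc : ∀ r : F, OnX J (r • g)) :
    ∃ (𝒳 : XC Λ J) (ρ : K[X]), ρ ≠ 0 ∧ 𝒳.Ov ⊥ ∧ ∀ (L : IntermediateField K Λ) t x,
      Arc τ g L t x → aeval t ρ ≠ 0 →
        ∃ Q, 𝒳.c.Gp Q ∧ Q.1 ∈ L ∧ Q.2 ∈ L ∧ pj x = pj (𝒳.pv Q) := by
  obtain ⟨c, θ, r, q, i₀, q', hρ, hker, hq, w, hw⟩ := exists_model hτ hg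
  have hon : ∀ G ∈ J, (c.map (algebraMap K Λ)).χ ∣
      MvPolynomial.aeval (fun i => mp (algebraMap K Λ) (q i)) G := by
    intro G hG
    rw [← arc1_aeval (mp (algebraMap K Λ)) (fun a => by simp [Polynomial.algebraMap_apply])]
    refine map_dvd (mp (algebraMap K Λ)) ((hker _).1 ?_)
    rw [arc1_aeval (e2 (algebraMap K F) τ θ)
      (fun a => by simp [Polynomial.algebraMap_apply, e2_C])]
    simp only [hq]
    exact hc r G hG
  have hne : ∀ Q, (c.map (algebraMap K Λ)).Gp Q →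
      (fun i => ee Q (mp (algebraMap K Λ) (q i))) ≠ 0 := by
    intro Q hQ h0
    have h1 : ee Q (mp (algebraMap K Λ) (q i₀)) = 0 := congrFun h0 i₀
    have h2 : ee Q (mp (algebraMap K Λ) c.χ) = 0 := hQ.1
    have h3 := congrArg (fun a => ee Q (mp (algebraMap K Λ) a)) hw
    simp only [map_sub, map_mul, h1, h2, zero_mul, zero_sub, neg_eq_zero] at h3
    rw [mp_C, ee_C] at h3
    exact hQ.2 h3
  have hb : ∀ a, algebraMap K Λ a ∈ (⊥ : IntermediateField K Λ) := fun a =>
    IntermediateField.algebraMap_mem _ a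
  refine ⟨⟨c.map (algebraMap K Λ), fun i => mp (algebraMap K Λ) (q i), hon, hne⟩, c.ρ, hρ,
    ⟨ovv_mp hb _, fun n => ?_, fun i => ovv_mp hb _⟩, ?_⟩
  · show (c.ρ.map (algebraMap K Λ)).coeff n ∈ _
    rw [coeff_map]
    exact hb _
  rintro L t x ⟨hx, A, E, _, _, _, _, _, _, _, j, ev, s, cc, y, hev, hj, hs, ht, hy⟩ hρt
  have hj' : j.comp (algebraMap K F) = (algebraMap A E).comp (algebraMap K A) := RingHom.ext hj
  have hχ : e2 (algebraMap K F) τ θ c.χ = 0 := (hker _).2 dvd_rfl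
  have hint : IsIntegral A (j θ) := by
    refine ⟨c.χ.map (eval₂RingHom (algebraMap K A) s), c.wt.monic.map _, ?_⟩
    have h1 := congrArg j hχ
    rw [map_e2, map_zero, hj', hs] at h1
    have h2 : (algebraMap A E).comp (eval₂RingHom (algebraMap K A) s) =
        eval₂RingHom ((algebraMap A E).comp (algebraMap K A)) (algebraMap A E s) := by
      ext <;> simp
    rw [eval₂_map, h2]
    exact h1
  obtain ⟨η, hη⟩ := IsIntegrallyClosed.isIntegral_iff.1 hint
  have k1 : ∀ a, algebraMap A E (e2 (algebraMap K A) s η a) = j (e2 (algebraMap K F) τ θ a) :=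
    fun a => by rw [map_e2, map_e2, hj', hs, hη]
  have k2 : ∀ a, ev (e2 (algebraMap K A) s η a) = ee (t, ev η) (mp (algebraMap K Λ) a) :=
    fun a => by
      have := map_e2 (ev : A →+* Λ) (algebraMap K A) s η a
      rw [ev.comp_algebraMap] at this
      rw [ee_mp, ← ht]
      exact this
  have hinj := IsFractionRing.injective A E
  have hQ : (c.map (algebraMap K Λ)).Gp (t, ev η) := by
    refine ⟨?_, ?_⟩
    · have : e2 (algebraMap K A) s η c.χ = 0 := hinj (by rw [k1, hχ, map_zero, map_zero])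
      exact (k2 c.χ).symm.trans (by rw [this, map_zero])
    · show (c.ρ.map (algebraMap K Λ)).eval t ≠ 0
      rwa [eval_map_algebraMap]
  refine ⟨(t, ev η), hQ, ht ▸ hev s, hev η, arc1_pj hx (hne _ hQ) fun i i' => ?_⟩
  have k3 : y i * e2 (algebraMap K A) s η (q i') = y i' * e2 (algebraMap K A) s η (q i) :=
    hinj (by
      rw [map_mul, map_mul, k1, k1, hq, hq, (hy i).1, (hy i').1, map_mul, map_mul]
      ring)
  have k4 := congrArg ev k3
  rw [map_mul, map_mul, k2, k2, (hy i).2, (hy i').2] at k4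
  exact k4

end Pool.Agent.ZCy.U
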