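import Pool.Agent.Lib.MP_751085_ag.ZC.UBddA

/-! Bounded groups of classes: sums. -/

namespace Pool.Agent.ZCy.U

open Polynomial Module Pool.Agent.ZeroCyc
open scoped Classical IntermediateField

set_option linter.unusedSectionVars false

variable {K Λ : Type} [Field K] [CharZero K] [Field Λ] [IsAlgClosed Λ] [Algebra K Λ] [IsGalois K Λ]
  {N : ℕ} {J : Ideal (MvPolynomial (Fin (N + 1)) K)} {H H' A A' : AddSubgroup (VV Λ J)}

theorem bddb_mem {w : VV Λ J} : w ∈ deg0 Λ J ↔ w.2 = 0 := Iff.rfl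

section
variable {V : Type} [AddCommGroup V] {G G' : AddSubgroup V}

theorem bddb_e1 (a a' a₀ a₁ : V) (k : ℤ) :
    a + a' = (a - k • a₀) + (a' + k • a₁) + k • (a₀ - a₁) := by
  rw [smul_sub]
  abel

theorem bddb_e2 {r d D : ℕ} {x x' : V} (y : V) (h : r * d = D) (h' : x' = r • x) :
    D • x - ((d : ℕ) : ℤ) • y ∈ AddSubgroup.zmultiples (x' - y) := by
  rw [← h, mul_comm, mul_smul, ← h', natCast_zsmul, ← smul_sub]
  exact AddSubgroup.nsmul_mem_zmultiples _ _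

theorem bddb_e3 {D : ℕ} {n n' : ℤ} {w w' y : V} (h : D • w - n • y ∈ G) (h' : D • w' - n' • y ∈ G') :
    D • (w + w') - (n + n') • y ∈ G ⊔ G' := by
  rw [smul_add, add_smul, add_sub_add_comm]
  exact AddSubgroup.add_mem_sup h h'

theorem bddb_e4 {D : ℕ} {n : ℤ} {w y : V} (h : D • w - n • y ∈ G) : D • (-w) - (-n) • y ∈ G := by
  rw [smul_neg, neg_smul, neg_sub_neg, ← neg_sub]
  exact neg_mem h

theorem bddb_e5 {D : ℕ} {w y : V} (h : D • w - (0 : ℤ) • y ∈ G) : D • w ∈ G := by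
  rwa [zero_smul, sub_zero] at h

theorem bddb_e6 (D : ℕ) (y : V) : D • (0 : V) - (0 : ℤ) • y ∈ G := by simp

end

theorem bddZ_bot : BddZ (⊥ : AddSubgroup (VV Λ J)) := 
  ⟨bot_le, bdd_bot.mono inf_le_left⟩

theorem BddZ.mono (h : BddZ A) (h' : A' ≤ A) : BddZ A' := 
  ⟨h'.trans h.1, h.2.mono (inf_le_inf_right _ h')⟩

/-- Sketch: the integers `n` with `n = deg a = - deg a'` for some `a` in `A`, `a'` in `A'` form a
subgroup of `ℤ`, generated by `n₀ = deg a₀ = - deg a₀'` (`Int.subgroup_cyclic`). Then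
`(A ⊔ A') ⊓ deg0 ≤ (A ⊓ deg0) ⊔ (A' ⊓ deg0) ⊔ zmultiples (a₀ + a₀')`. -/
theorem BddZ.sup (hone : ∀ g ∈ Azero Λ J, Bdd (AddSubgroup.zmultiples g)) (h : BddZ A)
    (h' : BddZ A') : BddZ (A ⊔ A') := by
  obtain ⟨n₀, hn⟩ := Int.subgroup_cyclic ((A.map (AddMonoidHom.snd _ _) ⊓
    A'.map (AddMonoidHom.snd _ _)).comap (Int.castAddHom ℚ))
  obtain ⟨⟨a₀, h0, e0⟩, a₁, h1, e1⟩ := hn.ge (AddSubgroup.mem_closure_singleton_self n₀)
  replace e0 : a₀.2 = n₀ := e0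
  replace e1 : a₁.2 = n₀ := e1
  have hg : a₀ - a₁ ∈ Azero Λ J :=
    mem_azero.2 ⟨sub_mem (h.1 h0) (h'.1 h1), by rw [Prod.snd_sub, e0, e1, sub_self]⟩
  refine ⟨sup_le h.1 h'.1, ((h.2.sup h'.2).sup (hone _ hg)).mono fun w hw => ?_⟩
  obtain ⟨a, ha, a', ha', rfl⟩ := AddSubgroup.mem_sup.1 hw.1
  have e : a.2 + a'.2 = 0 := hw.2
  obtain ⟨n, e2⟩ := exists_int_deg (h.1 ha)
  have e3 : (-a').2 = n := by rw [Prod.snd_neg, ← e2, eq_neg_of_add_eq_zero_left e]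
  obtain ⟨k, hk⟩ := AddSubgroup.mem_closure_singleton.1
    (hn.le (show n ∈ _ from ⟨⟨a, ha, e2⟩, -a', neg_mem ha', e3⟩))
  have e4 : (n : ℚ) = k • (n₀ : ℚ) := by
    rw [← hk, zsmul_eq_mul, zsmul_eq_mul, Int.cast_mul, Int.cast_id]
  rw [bddb_e1 a a' a₀ a₁ k]
  refine add_mem (AddSubgroup.mem_sup_left (AddSubgroup.add_mem_sup
    ⟨A.sub_mem ha (A.zsmul_mem h0 k), bddb_mem.2 ?_⟩
    ⟨A'.add_mem ha' (A'.zsmul_mem h1 k), bddb_mem.2 ?_⟩))
    (AddSubgroup.mem_sup_right (AddSubgroup.zsmul_mem_zmultiples _ k))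
  · rw [Prod.snd_sub, Prod.smul_snd, e0, e2, e4, sub_self]
  · rw [Prod.snd_add, Prod.smul_snd, e1, ← e4, ← e2, add_comm, e]

theorem BddZ.biSup (hone : ∀ g ∈ Azero Λ J, Bdd (AddSubgroup.zmultiples g)) {T : Type}
    (s : Finset T) {B : T → AddSubgroup (VV Λ J)} (h : ∀ t ∈ s, BddZ (B t)) :
    BddZ (⨆ t ∈ s, B t) := by
  induction s using Finset.induction_on with
  | empty => simpa using bddZ_bot
  | insert t s _ ih =>
    rw [Finset.iSup_insert]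
    exact (h t (Finset.mem_insert_self _ _)).sup hone
      (ih fun u hu => h u (Finset.mem_insert_of_mem hu))

/-- Sketch: `g = ∑ n_i [x_i]_{L_i}`; `L` a finite extension containing all `L_i`, `D = [L : K]`.
By induction on the closure: `D g = ∑ n_i d_i [x_i]_L` lies in the group generated by the
`[x]_L` and has there total coefficient `deg g = 0`, so it is a finite sum of multiples of
differences. `bdd_closure`, `Bdd.of_nsmul`. -/
theorem bdd_one_of_pair (hp : ∀ (L : IntermediateField K Λ) (v v' : Fin (N + 1) → Λ),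
    FiniteDimensional K L → PtL J L v → PtL J L v' →
      Bdd (AddSubgroup.zmultiples (pc J L v - pc J L v'))) {g : VV Λ J} (hg : g ∈ Azero Λ J) :
    Bdd (AddSubgroup.zmultiples g) := by
  obtain ⟨hg1, hg2⟩ := mem_azero.1 hg
  by_cases hx : ∃ (L₁ : IntermediateField K Λ) (v₀ : Fin (N + 1) → Λ),
    FiniteDimensional K L₁ ∧ PtL J L₁ v₀
  swap
  · have h0 : Atot Λ J ≤ ⊥ := by
      rw [atot_eq, AddSubgroup.closure_le]
      rintro _ ⟨L, v, h1, h2, -⟩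
      exact absurd ⟨L, v, h1, h2⟩ hx
    exact bdd_bot.mono (AddSubgroup.zmultiples_le.2 (h0 hg1))
  obtain ⟨L₁, v₀, f₁, p₀⟩ := hx
  have key : ∀ w ∈ Atot Λ J, ∃ L₀ : IntermediateField K Λ, FiniteDimensional K L₀ ∧
      ∀ L, L₀ ≤ L → L₁ ≤ L → FiniteDimensional K L → ∃ (H : AddSubgroup (VV Λ J)) (n : ℤ),
        Bdd H ∧ w.2 = n ∧ finrank K L • w - n • pc J L v₀ ∈ H := by
    intro w hw
    rw [atot_eq] at hw
    induction hw using AddSubgroup.closure_induction with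
    | mem w hw =>
      obtain ⟨L', v, f', p, rfl⟩ := hw
      refine ⟨L', f', fun L h0 h1 f => ⟨_, finrank K L', hp L v v₀ f (p.mono h0) (p₀.mono h1),
        by rw [pc_snd, Int.cast_natCast], ?_⟩⟩
      obtain ⟨r, -, e1, e2⟩ := pc_nsmul (J := J) h0
      exact bddb_e2 _ e1 (e2 v)
    | zero => exact ⟨L₁, f₁, fun L _ _ _ => ⟨⊥, 0, bdd_bot, by simp, bddb_e6 _ _⟩⟩
    | add w w' _ _ ih ih' =>
      obtain ⟨L₀, f, H⟩ := ih
      obtain ⟨L₀', f', H'⟩ := ih'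
      refine ⟨L₀ ⊔ L₀', inferInstance, fun L h0 h1 fL => ?_⟩
      obtain ⟨G, n, b, e, m⟩ := H L (le_sup_left.trans h0) h1 fL
      obtain ⟨G', n', b', e', m'⟩ := H' L (le_sup_right.trans h0) h1 fL
      exact ⟨G ⊔ G', n + n', b.sup b', by rw [Prod.snd_add, e, e', Int.cast_add], bddb_e3 m m'⟩
    | neg w _ ih =>
      obtain ⟨L₀, f, H⟩ := ih
      refine ⟨L₀, f, fun L h0 h1 fL => ?_⟩
      obtain ⟨G, n, b, e, m⟩ := H L h0 h1 fL
      exact ⟨G, -n, b, by rw [Prod.snd_neg, e, Int.cast_neg], bddb_e4 m⟩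
  obtain ⟨L₀, f₀, H⟩ := key g hg1
  obtain ⟨G, n, b, e, m⟩ := H (L₀ ⊔ L₁) le_sup_left le_sup_right inferInstance
  obtain rfl : n = 0 := Int.cast_eq_zero.1 (e.symm.trans hg2)
  exact b.of_nsmul hg1 finrank_pos (bddb_e5 m)

end Pool.Agent.ZCy.U
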