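import Pool.Agent.Lib.MP_751085_ag.ZC.UUld

/-! Compactness of the set of points over a finite extension. -/

namespace Pool.Agent.ZCy.U

open Polynomial Module Pool.Agent.ZeroCyc Filter Topology
open scoped Classical IntermediateField

set_option linter.unusedSectionVars false

variable {k K Λ : Type} [Field k] [Field K] [CharZero K] [TopologicalSpace K] [NormedField Λ]
  [IsAlgClosed Λ] [Algebra k K] [Algebra k Λ] [Algebra K Λ] [IsScalarTower k K Λ] [IsGalois K Λ]
  [LocF K Λ] {N n : ℕ} {J : Ideal (MvPolynomial (Fin (N + 1)) K)}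

variable (J) in
/-- vectors of norm one on the cone -/
def sph (L : IntermediateField K Λ) : Set (Fin (N + 1) → L) := {v | ‖v‖ = 1 ∧ OnX J (up v)}

theorem cpt_mem_mulS {V : Type} [AddCommGroup V] {m : ℕ} {H : AddSubgroup V} {x : V} :
    x ∈ mulS m H ↔ ∃ y ∈ H, m • y = x := Iff.rfl

theorem cpt_cont (L : IntermediateField K Λ) (G : MvPolynomial (Fin (N + 1)) K) :
    Continuous fun v : Fin (N + 1) → L => MvPolynomial.aeval (up v) G := by
  have h : ∀ v : Fin (N + 1) → L, MvPolynomial.aeval (up v) G =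
      MvPolynomial.eval (up v) (MvPolynomial.map (algebraMap K Λ) G) := fun v => by
    rw [MvPolynomial.aeval_def, MvPolynomial.eval₂_eq_eval_map]
  simp only [h]
  refine (MvPolynomial.continuous_eval _).comp (continuous_pi fun i => ?_)
  exact continuous_subtype_val.comp (continuous_apply i)

theorem isCompact_sph (L : IntermediateField K Λ) [FiniteDimensional K L] :
    IsCompact (sph J L) := by
  have := LocF.proper (K := K) (Λ := Λ) L inferInstance
  have hcl : IsClosed {v : Fin (N + 1) → L | OnX J (up v)} := by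
    have : {v : Fin (N + 1) → L | OnX J (up v)} =
        ⋂ G ∈ J, {v : Fin (N + 1) → L | MvPolynomial.aeval (up v) G = 0} := by
      ext v
      simp only [OnX, Set.mem_ofPred_eq, Set.mem_iInter]
    rw [this]
    exact isClosed_biInter fun G _ => isClosed_eq (cpt_cont L G) continuous_const
  have : sph J L = Metric.sphere 0 1 ∩ {v : Fin (N + 1) → L | OnX J (up v)} := by
    ext v
    simp only [sph, Set.mem_ofPred_eq, Set.mem_inter_iff, mem_sphere_iff_norm, sub_zero]
  rw [this]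
  exact (isCompact_sphere 0 1).inter_right hcl

theorem ptL_of_sph {L : IntermediateField K Λ} {v : Fin (N + 1) → L} (h : v ∈ sph J L) :
    PtL J L (up v) := by
  refine ⟨fun h0 => ?_, h.2, fun i => (v i).2⟩
  have hv : v = 0 := by
    funext i
    exact Subtype.ext (congrFun h0 i)
  have h1 := h.1
  rw [hv, norm_zero] at h1
  exact zero_ne_one h1

/-- divide by a coordinate of maximal norm -/
theorem exists_sph (hc : IsCone Λ J) {L : IntermediateField K Λ} {v : Fin (N + 1) → Λ}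
    (h : PtL J L v) : ∃ v' ∈ sph J L, pc J L (up v') = pc J L v := by
  obtain ⟨i, -, hi⟩ := Finset.exists_max_image Finset.univ (fun i => ‖v i‖)
    ⟨0, Finset.mem_univ _⟩
  have hvi : v i ≠ 0 := by
    intro h0
    apply h.ne
    funext j
    have := hi j (Finset.mem_univ j)
    rw [h0, norm_zero] at this
    exact norm_le_zero_iff.1 this
  have hpos : 0 < ‖v i‖ := norm_pos_iff.2 hvi
  let v' : Fin (N + 1) → L := fun j => ⟨(v i)⁻¹ * v j, L.mul_mem (L.inv_mem (h.mem i)) (h.mem j)⟩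
  have hup : up v' = (v i)⁻¹ • v := rfl
  have hn : ∀ j, ‖v' j‖ = ‖v j‖ / ‖v i‖ := by
    intro j
    change ‖(v i)⁻¹ * v j‖ = _
    rw [norm_mul, norm_inv, div_eq_inv_mul]
  refine ⟨v', ⟨le_antisymm ?_ ?_, ?_⟩, ?_⟩
  · refine (pi_norm_le_iff_of_nonneg zero_le_one).2 fun j => ?_
    rw [hn, div_le_one hpos]
    exact hi j (Finset.mem_univ j)
  · have := norm_le_pi_norm v' i
    rwa [hn, div_self hpos.ne'] at this
  · rw [hup]
    exact hc v _ h.on
  · rw [hup]
    unfold pc
    rw [pj_smul (inv_ne_zero hvi)]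

/-- finitely many of the neighbourhoods of `uld` cover `sph` (`IsCompact.elim_nhds_subcover`) -/
theorem Charts.cover (hJ : Charts k Λ J n) (L : IntermediateField K Λ) [FiniteDimensional K L]
    {M : ℕ} (hM : 0 < M) : ∃ (T : Finset (Fin (N + 1) → L))
      (W : (Fin (N + 1) → L) → Set (Fin (N + 1) → L)),
      (∀ x ∈ T, PtL J L (up x) ∧ W x ∈ 𝓝 x) ∧ ∀ v, PtL J L v → ∃ x ∈ T, ∀ x' ∈ W x,
        OnX J (up x') → pc J L v - pc J L (up x') ∈ mulS M (GD J L) := by
  let W : (Fin (N + 1) → L) → Set (Fin (N + 1) → L) := fun x =>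
    interior {v | OnX J (up v) → pc J L (up v) - pc J L (up x) ∈ mulS M (GD J L)}
  have hW : ∀ x ∈ sph J L, W x ∈ 𝓝 x := fun x hx =>
    interior_mem_nhds.2 (hJ.uld L (ptL_of_sph hx) hM)
  obtain ⟨T, hT, hcov⟩ := (isCompact_sph (J := J) L).elim_nhds_subcover W hW
  refine ⟨T, W, fun x hx => ⟨ptL_of_sph (hT x hx), hW x (hT x hx)⟩, fun v hv => ?_⟩
  obtain ⟨v', hv', he⟩ := exists_sph hJ.cone hv
  obtain ⟨x, hx, hvx⟩ := Set.mem_iUnion₂.1 (hcov hv')
  refine ⟨x, hx, fun x' hx' hon => ?_⟩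
  have h1 := interior_subset hvx hv'.2
  have h2 := interior_subset hx' hon
  rw [← he, ← sub_sub_sub_cancel_right _ _ (pc J L (up x))]
  exact sub_mem h1 h2

/-- if every point is congruent to a point of `S` modulo `M`, then `GD ≤ I ⊔ M ^ r GD` -/
theorem GD_le_of_near {L : IntermediateField K Λ} {M : ℕ} {S : Set (Fin (N + 1) → Λ)}
    (hS : ∀ x ∈ S, PtL J L x)
    (h : ∀ v, PtL J L v → ∃ x ∈ S, pc J L v - pc J L x ∈ mulS M (GD J L)) (r : ℕ) :
    GD J L ≤ AddSubgroup.closure {w | ∃ x ∈ S, ∃ x' ∈ S, w = pc J L x - pc J L x'} ⊔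
      mulS (M ^ r) (GD J L) := by
  set I := AddSubgroup.closure {w | ∃ x ∈ S, ∃ x' ∈ S, w = pc J L x - pc J L x'} with hI
  have h1 : GD J L ≤ I ⊔ mulS M (GD J L) := by
    refine (AddSubgroup.closure_le _).2 ?_
    rintro w ⟨v, v', hv, hv', rfl⟩
    obtain ⟨x, hx, hvx⟩ := h v hv
    obtain ⟨x', hx', hvx'⟩ := h v' hv'
    have : pc J L v - pc J L v' = (pc J L x - pc J L x') +
        ((pc J L v - pc J L x) - (pc J L v' - pc J L x')) := by abel
    rw [SetLike.mem_coe, this]
    exact AddSubgroup.add_mem_sup (AddSubgroup.subset_closure ⟨x, hx, x', hx', rfl⟩)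
      (sub_mem hvx hvx')
  induction r with
  | zero =>
    intro w hw
    exact AddSubgroup.mem_sup_right (cpt_mem_mulS.2 ⟨w, hw, by rw [pow_zero, one_smul]⟩)
  | succ r ih =>
    refine ih.trans (sup_le le_sup_left ?_)
    intro w hw
    obtain ⟨y, hy, rfl⟩ := cpt_mem_mulS.1 hw
    obtain ⟨a, ha, b, hb, rfl⟩ := AddSubgroup.mem_sup.1 (h1 hy)
    obtain ⟨z, hz, rfl⟩ := cpt_mem_mulS.1 hb
    rw [nsmul_add, ← mul_nsmul, ← pow_succ']
    exact AddSubgroup.add_mem_sup (I.nsmul_mem ha _) (cpt_mem_mulS.2 ⟨z, hz, rfl⟩)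

end Pool.Agent.ZCy.U
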