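import Pool.Agent.Lib.MP_751085_ag.ZC.CMap
import Pool.Agent.Lib.MP_796ce4_ag.ZQ.HSys

/-! The section of a chart by a plane through a line of the reduction of a form. -/

namespace Pool.Agent.ZCy.U

open Polynomial Pool.Agent.ZeroCyc IsLocalRing
open scoped Classical

section

variable {O S T ι : Type} [CommRing O] [CommRing S] [CommRing T]

/-- the point `a + τ b + s e` of the plane -/
noncomputable def pl (φ : O →+* S) (a b : ι → O) (j₀ : ι) (τ s : S) : ι → S :=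
  fun i => φ (a i) + φ (b i) * τ + if i = j₀ then s else 0

theorem map_pl (ψ : S →+* T) (φ : O →+* S) (a b : ι → O) (j₀ : ι) (τ s : S) :
    (fun i => ψ (pl φ a b j₀ τ s i)) = pl (ψ.comp φ) a b j₀ (ψ τ) (ψ s) := by
  funext i
  simp only [pl, map_add, map_mul, RingHom.comp_apply, apply_ite ψ, map_zero]

theorem pl_zero (φ : O →+* S) (a b : ι → O) (j₀ : ι) (τ : S) :
    pl φ a b j₀ τ 0 = fun i => φ (a i) + φ (b i) * τ := by
  funext i
  simp only [pl, ite_self, add_zero]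

theorem map_ev_pl (ψ : S →+* T) (φ : O →+* S) (a b : ι → O) (j₀ : ι) (τ s θ : S)
    (p : (MP ι O)[X]) : ψ (ev φ (pl φ a b j₀ τ s) θ p) =
      ev (ψ.comp φ) (pl (ψ.comp φ) a b j₀ (ψ τ) (ψ s)) (ψ θ) p := by
  rw [map_ev, map_pl]

theorem map_eval_pl (ψ : S →+* T) (φ : O →+* S) (a b : ι → O) (j₀ : ι) (τ s : S) (p : MP ι O) :
    ψ (MvPolynomial.eval₂ φ (pl φ a b j₀ τ s) p) =
      MvPolynomial.eval₂ (ψ.comp φ) (pl (ψ.comp φ) a b j₀ (ψ τ) (ψ s)) p := by
  rw [MvPolynomial.eval₂_comp_left, ← map_pl]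
  rfl

theorem crv_der {R : Type} [CommRing R] [Algebra R S] (d : Derivation R S S) (φ : O →+* S)
    (ξ : ι → S) (θ : S) (h1 : ∀ x, d (φ x) = 0) (h2 : ∀ i, d (ξ i) = 0) (h3 : d θ = 1)
    (p : (MP ι O)[X]) : d (ev φ ξ θ p) = ev φ ξ θ (derivative p) := by
  have h : ∀ q : MP ι O, d (MvPolynomial.eval₂Hom φ ξ q) = 0 := fun q => by
    induction q using MvPolynomial.induction_on with
    | C x => rw [MvPolynomial.eval₂Hom_C, h1]
    | add p q hp hq => rw [map_add, map_add, hp, hq, add_zero]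
    | mul_X p i hp =>
      rw [map_mul, Derivation.leibniz, hp, MvPolynomial.eval₂Hom_X', h2, smul_zero, smul_zero,
        add_zero]
  induction p using Polynomial.induction_on' with
  | add p q hp hq => rw [map_add, map_add, hp, hq, map_add, map_add]
  | monomial n q =>
    rw [derivative_monomial, ev_def, ev_def, eval₂_monomial, eval₂_monomial, Derivation.leibniz, h,
      Derivation.leibniz_pow, h3, map_mul, map_natCast]
    simp only [smul_eq_mul, mul_zero, add_zero, nsmul_eq_mul, mul_one, mul_assoc]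

/-- restriction to the plane, in the variables `s`, `Z` over the ring of the variable `τ` -/
noncomputable def onPl (a b : ι → O) (j₀ : ι) (p : (MP ι O)[X]) : MvPolynomial (Fin 2) O[X] :=
  ev (MvPolynomial.C.comp C) (pl (MvPolynomial.C.comp C) a b j₀ (MvPolynomial.C X)
    (MvPolynomial.X 0)) (MvPolynomial.X 1) p

theorem eval_onPl (φ : O →+* S) (t : S) (x : Fin 2 → S) (a b : ι → O) (j₀ : ι) (p : (MP ι O)[X]) :
    MvPolynomial.eval₂ (eval₂RingHom φ t) x (onPl a b j₀ p) =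
      ev φ (pl φ a b j₀ t (x 0)) (x 1) p := by
  have e : (MvPolynomial.eval₂Hom (eval₂RingHom φ t) x).comp (MvPolynomial.C.comp C) = φ := by
    ext y
    simp
  have := map_ev_pl (MvPolynomial.eval₂Hom (eval₂RingHom φ t) x) (MvPolynomial.C.comp C) a b j₀
    (MvPolynomial.C X) (MvPolynomial.X 0) (MvPolynomial.X 1) p
  rw [e] at this
  simpa [onPl] using this

theorem newton_det {R σ : Type} [CommRing R] [Fintype σ] [hd : DecidableEq σ] (I : Ideal S)
    [IsAdicComplete I S] (φ : R →+* S) (F : σ → MvPolynomial σ R) (x₀ : σ → S)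
    (h0 : ∀ j, MvPolynomial.eval₂ φ x₀ (F j) ∈ I) (hu : IsUnit (jac φ F x₀).det) :
    ∃ x : σ → S, (∀ j, MvPolynomial.eval₂ φ x (F j) = 0) ∧ ∀ k, x k - x₀ k ∈ I := by
  obtain rfl : hd = Classical.decEq σ := Subsingleton.elim _ _
  obtain ⟨x, h1, h2, -⟩ := sys_newton I φ F x₀ h0 (jac φ F x₀)⁻¹ (fun j k => by
    rw [Matrix.mul_nonsing_inv _ hu, sub_self]
    exact I.zero_mem) ⊤ (fun _ => trivial) (fun _ => trivial) fun _ _ => trivial
  exact ⟨x, h1, h2⟩

end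

variable {O σ : Type} [CommRing O] [IsLocalRing O] [Fintype σ] {N : ℕ} {GG : Set (Fm N O)}

/-- the reduction of `f` contains the curve over the line `a + τ b` -/
structure Hd (c : Chart O σ N GG) (f : Fm N O) (Θ : MP (Option σ) O) (a b : Option σ → O)
    (j₀ : Option σ) : Prop where
  dvd : ∃ r : ℕ, c.br ∣ Θ ^ r
  ua : IsUnit (MvPolynomial.eval a Θ)
  ex : ∃ (μ : Option (Option σ) → O) (e : ℕ), IsUnit (μ (some j₀)) ∧
    μ none + ∑ j, μ (some j) * a j = 0 ∧ ∑ j, μ (some j) * b j = 0 ∧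
    ∀ m, MvPolynomial.coeff m (f - c.l0 ^ e * ∑ j, MvPolynomial.C (μ j) * c.f j) ∈ maximalIdeal O

variable {c : Chart O σ N GG} {f : Fm N O} {Θ : MP (Option σ) O} {a b : Option σ → O}
  {j₀ : Option σ}

theorem Hd.key (h : Hd c f Θ a b j₀) : ∃ (m : O) (e : ℕ), IsUnit m ∧
    ∀ (S : Type) [CommRing S] (ψ : O →+* S), (∀ x ∈ maximalIdeal O, ψ x = 0) → ∀ τ s θ : S,
      ∃ A, ev ψ (pl ψ a b j₀ τ s) θ (sb c.pp f) = ev ψ (pl ψ a b j₀ τ s) θ c.χ * A +
        ev ψ (pl ψ a b j₀ τ s) θ (sb c.pp c.l0) ^ e *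
          ev ψ (pl ψ a b j₀ τ s) θ (sb c.pp (c.f none)) * ψ m * s := by
  obtain ⟨μ, e, hu, h1, h2, h3⟩ := h.ex
  refine ⟨_, e, hu, fun S _ ψ hψ τ s θ => ?_⟩
  set E := ev ψ (pl ψ a b j₀ τ s) θ with hE
  have e0 : E (sb c.pp (f - c.l0 ^ e * ∑ j, MvPolynomial.C (μ j) * c.f j)) = 0 := by
    rw [hE, ev_sb, MvPolynomial.eval₂_eq]
    exact Finset.sum_eq_zero fun m _ => by rw [hψ _ (h3 m), zero_mul]
  have eC : ∀ x, E (sb c.pp (MvPolynomial.C x)) = ψ x := fun x => by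
    rw [hE, ev_sb, MvPolynomial.eval₂_C]
  have eX : ∀ i, E (C (MvPolynomial.X i)) = pl ψ a b j₀ τ s i := fun i => by
    rw [hE, ev_def, eval₂_C, MvPolynomial.eval₂Hom_X']
  choose q hq using c.dv_f
  have ef : ∀ i, E (sb c.pp (c.f (some i))) =
      pl ψ a b j₀ τ s i * E (sb c.pp (c.f none)) + E c.χ * E (q i) := fun i => by
    rw [← map_mul, ← hq i, map_sub, map_mul, eX]
    ring
  have es : ψ (μ none) + ∑ j, ψ (μ (some j)) * pl ψ a b j₀ τ s j = ψ (μ (some j₀)) * s := by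
    have a1 := congrArg ψ h1
    have a2 := congrArg ψ h2
    simp only [map_add, map_sum, map_mul, map_zero] at a1 a2
    simp only [pl, mul_add, Finset.sum_add_distrib, mul_ite, mul_zero, Finset.sum_ite_eq',
      Finset.mem_univ, if_true, ← mul_assoc, ← Finset.sum_mul]
    linear_combination a1 + τ * a2
  rw [Fintype.sum_option] at e0
  simp only [map_sub, map_mul, map_pow, map_sum, eC, map_add, ef] at e0
  refine ⟨E (sb c.pp c.l0) ^ e * ∑ j, ψ (μ (some j)) * E (q j), ?_⟩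
  have e2 : ∑ j, ψ (μ (some j)) * (pl ψ a b j₀ τ s j * E (sb c.pp (c.f none)) + E c.χ * E (q j)) =
      (∑ j, ψ (μ (some j)) * pl ψ a b j₀ τ s j) * E (sb c.pp (c.f none)) +
        E c.χ * ∑ j, ψ (μ (some j)) * E (q j) := by
    rw [Finset.mul_sum, Finset.sum_mul, ← Finset.sum_add_distrib]
    exact Finset.sum_congr rfl fun j _ => by ring
  rw [e2] at e0
  linear_combination e0 + E (sb c.pp c.l0) ^ e * E (sb c.pp (c.f none)) * es

theorem Hd.D_ne (h : Hd c f Θ a b j₀) {Ω : Type} [Field Ω] (ψ : O →+* Ω) {ξ : Option σ → Ω}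
    (h0 : MvPolynomial.eval₂ ψ ξ Θ ≠ 0) : MvPolynomial.eval₂ ψ ξ c.D ≠ 0 := by
  obtain ⟨r, hr⟩ := h.dvd
  obtain ⟨r', hr'⟩ := c.dvd
  have := map_dvd (MvPolynomial.eval₂Hom ψ ξ)
    (hr'.trans (pow_dvd_pow_of_dvd ((dvd_mul_right _ _).trans hr) r'))
  rw [map_pow, map_pow] at this
  exact ne_zero_of_dvd_ne_zero (pow_ne_zero _ (pow_ne_zero _ h0)) this

omit [IsLocalRing O] [Fintype σ] in
theorem crv_der_ne {Ω : Type} [Field Ω] (ψ : O →+* Ω) {ξ : Option σ → Ω} {θ : Ω}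
    (h0 : ev ψ ξ θ c.χ = 0) (hD : MvPolynomial.eval₂ ψ ξ c.D ≠ 0) :
    ev ψ ξ θ (derivative c.χ) ≠ 0 := fun h => by
  obtain ⟨α, β, e⟩ := c.bez
  have := congrArg (ev ψ ξ θ) e
  rw [map_add, map_mul, map_mul, h0, h, mul_zero, mul_zero, add_zero, ev_def, eval₂_C] at this
  exact hD this

variable (c f a b j₀) in
/-- the two equations -/
noncomputable def sysF : Fin 2 → MvPolynomial (Fin 2) O[X] :=
  ![onPl a b j₀ c.χ, onPl a b j₀ (sb c.pp f)]

theorem Hd.jac_ne (h : Hd c f Θ a b j₀) {Ω : Type} [Field Ω] (ψ : O →+* Ω)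
    (hψ : ∀ x ∈ maximalIdeal O, ψ x = 0) {t θ : Ω} (h0 : ev ψ (pl ψ a b j₀ t 0) θ c.χ = 0)
    (hΘ : MvPolynomial.eval₂ ψ (pl ψ a b j₀ t 0) Θ ≠ 0) :
    ev ψ (pl ψ a b j₀ t 0) θ (sb c.pp f) = 0 ∧
      (jac (eval₂RingHom ψ t) (sysF c f a b j₀) ![0, θ]).det ≠ 0 := by
  obtain ⟨m, e, hm, hk⟩ := h.key
  have hD := h.D_ne ψ hΘ
  refine ⟨by
    obtain ⟨A, hA⟩ := hk Ω ψ hψ t 0 θ
    rw [hA, h0, zero_mul, mul_zero, add_zero], ?_⟩
  let φ : O →+* MvPolynomial (Fin 2) Ω := MvPolynomial.C.comp ψ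
  obtain ⟨A, hA⟩ := hk _ φ (fun x hx => by simp [φ, hψ x hx]) (MvPolynomial.C t)
    (MvPolynomial.X 0) (MvPolynomial.X 1)
  set E := ev φ (pl φ a b j₀ (MvPolynomial.C t) (MvPolynomial.X 0)) (MvPolynomial.X 1) with hE
  let v : MvPolynomial (Fin 2) Ω →+* Ω := MvPolynomial.eval ![0, θ]
  have hv : ∀ p, v (E p) = ev ψ (pl ψ a b j₀ t 0) θ p := fun p => by
    have e1 : v.comp φ = ψ := by
      ext y
      simp [v, φ]
    rw [hE, map_ev_pl, e1]
    simp [v]
  have hj : ∀ k p, MvPolynomial.eval₂ (eval₂RingHom ψ t) ![0, θ]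
      (MvPolynomial.pderiv k (onPl a b j₀ p)) = v (MvPolynomial.pderiv k (E p)) := fun k p => by
    have e1 : (MvPolynomial.map (eval₂RingHom ψ t)).comp (MvPolynomial.C.comp C) = φ := by
      ext1 y
      simp [φ]
    rw [MvPolynomial.eval₂_eq_eval_map, ← MvPolynomial.pderiv_map, onPl, map_ev_pl, e1]
    simp [hE, v]
  have hd : MvPolynomial.pderiv 1 (E c.χ) = E (derivative c.χ) :=
    crv_der _ φ _ _ (fun x => by simp [φ]) (fun i => by
      by_cases hi : i = j₀ <;> simp [pl, φ, hi]) (by simp) _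
  obtain ⟨n1, n2⟩ := c.ne Ω ψ _ θ h0 hD
  have n3 := crv_der_ne ψ h0 hD
  have n4 : ψ m ≠ 0 := (hm.map ψ).ne_zero
  rw [← hv] at n1 n2 n3 h0
  have x0 : v (MvPolynomial.X 0) = 0 := by simp [v]
  have xm : v (φ m) = ψ m := by simp [v, φ]
  set U := E (sb c.pp c.l0) ^ e * E (sb c.pp (c.f none)) * φ m with hU
  have hU0 : v U ≠ 0 := by
    rw [hU, map_mul, map_mul, map_pow, xm]
    exact mul_ne_zero (mul_ne_zero (pow_ne_zero _ n2) n1) n4
  rw [Matrix.det_fin_two]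
  simp only [jac, sysF, Matrix.of_apply, Matrix.cons_val_zero, Matrix.cons_val_one, hj, hA, map_add,
    MvPolynomial.pderiv_mul, map_mul v, h0, x0, hd, MvPolynomial.pderiv_X_self,
    MvPolynomial.pderiv_X_of_ne (zero_ne_one : (0 : Fin 2) ≠ 1), map_one, map_zero]
  intro hz
  exact mul_ne_zero n3 hU0 (by linear_combination -hz)

/-- elimination of `Z` -/
theorem Hd.exists_res (h : Hd c f Θ a b j₀) : ∃ P : O[X][X], P ≠ 0 ∧
    ∀ (S : Type) [CommRing S] (φ : O →+* S) (τ s θ : S), ev φ (pl φ a b j₀ τ s) θ c.χ = 0 →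
      ev φ (pl φ a b j₀ τ s) θ (sb c.pp f) = 0 → P.eval₂ (eval₂RingHom φ τ) s = 0 := by
  let π : MP (Option σ) O →+* O[X][X] :=
    MvPolynomial.eval₂Hom (C.comp C) (pl (C.comp C) a b j₀ (C X) X)
  have hπ : ∀ (S : Type) [CommRing S] (φ : O →+* S) (τ s : S),
      (eval₂RingHom (eval₂RingHom φ τ) s).comp π = MvPolynomial.eval₂Hom φ (pl φ a b j₀ τ s) := by
    intro S _ φ τ s
    have e1 : (eval₂RingHom (eval₂RingHom φ τ) s).comp (C.comp C) = φ := by
      ext y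
      simp
    rw [MvPolynomial.comp_eval₂Hom, map_pl, e1]
    simp
  refine ⟨resultant (c.χ.map π) ((sb c.pp f).map π) c.δ (sb c.pp f).natDegree, fun hz => ?_,
    fun S _ φ τ s θ h1 h2 => ?_⟩
  · let Ω := AlgebraicClosure (ResidueField O)
    let ψ : O →+* Ω := (algebraMap _ Ω).comp (residue O)
    have hψ : ∀ x ∈ maximalIdeal O, ψ x = 0 := fun x hx => by
      simp [ψ, (residue_eq_zero_iff x).2 hx]
    have hp : X * MvPolynomial.eval₂ (C.comp ψ) (pl (C.comp ψ) a b j₀ 0 X) Θ ≠ 0 := by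
      refine mul_ne_zero X_ne_zero fun e => (h.ua.map ψ).ne_zero ?_
      have := congrArg (evalRingHom 0) e
      rw [map_eval_pl, map_zero, coe_evalRingHom, eval_X, pl_zero] at this
      rw [← this, MvPolynomial.eval, MvPolynomial.coe_eval₂Hom, MvPolynomial.eval₂_comp_left]
      congr 1
      · ext y
        simp
      · funext i
        simp
    obtain ⟨s, hs⟩ : ∃ s, eval s (X * MvPolynomial.eval₂ (C.comp ψ)
        (pl (C.comp ψ) a b j₀ 0 X) Θ) ≠ 0 := by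
      by_contra hne
      exact hp (Polynomial.funext fun s => by
        rw [eval_zero]
        exact not_not.1 (not_exists.1 hne s))
    rw [eval_mul, eval_X, mul_ne_zero_iff, ← coe_evalRingHom, map_eval_pl] at hs
    have e1 : (evalRingHom s).comp (C.comp ψ) = ψ := by
      ext y
      simp
    rw [e1, map_zero, coe_evalRingHom, eval_X] at hs
    have e2 := resultant_map_map (c.χ.map π) ((sb c.pp f).map π) c.δ (sb c.pp f).natDegree
      (eval₂RingHom (eval₂RingHom ψ 0) s)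
    rw [hz, map_zero, Polynomial.map_map, Polynomial.map_map, hπ, ← c.deg,
      ← c.monic.natDegree_map (MvPolynomial.eval₂Hom ψ (pl ψ a b j₀ 0 s)),
      resultant_eq_prod_eval _ _ _ natDegree_map_le (IsAlgClosed.splits _),
      (c.monic.map _).leadingCoeff, one_pow, one_mul, Multiset.prod_eq_zero_iff,
      Multiset.mem_map] at e2
    obtain ⟨θ, h1, h2⟩ := e2
    have h3 : ev ψ (pl ψ a b j₀ 0 s) θ c.χ = 0 := by
      rw [ev_eq_eval]
      exact isRoot_of_mem_roots h1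
    obtain ⟨m, e, hm, hk⟩ := h.key
    obtain ⟨A, hA⟩ := hk Ω ψ hψ 0 s θ
    obtain ⟨n1, n2⟩ := c.ne Ω ψ _ θ h3 (h.D_ne ψ hs.2)
    rw [ev_eq_eval, h2, h3, zero_mul, zero_add] at hA
    exact mul_ne_zero (mul_ne_zero (mul_ne_zero (pow_ne_zero _ n2) n1) (hm.map ψ).ne_zero) hs.1
      hA.symm
  · obtain ⟨p, q, -, -, e⟩ := exists_mul_add_mul_eq_C_resultant (c.χ.map π) ((sb c.pp f).map π)
      (natDegree_map_le.trans c.deg.le) natDegree_map_le (Or.inl c.pos.ne')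
    have := congrArg (eval₂ (eval₂RingHom (eval₂RingHom φ τ) s) θ) e
    rw [eval₂_C, eval₂_add, eval₂_mul, eval₂_mul, eval₂_map, eval₂_map, hπ, ← ev_def, ← ev_def, h1,
      h2, zero_mul, zero_mul, add_zero] at this
    exact this.symm

end Pool.Agent.ZCy.U
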