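import Pool.Agent.Lib.MP_751085_ag.ZC.USys

/-! Polynomial approximations of branches. -/

namespace Pool.Agent.ZCy.U

open Polynomial Pool.Agent.ZeroCyc
open scoped Classical

theorem newton_steps {R : Type} [CommRing R] {χ : R[X]} {v η : R} (h : v ∣ χ.eval η)
    (hc : IsCoprime ((derivative χ).eval η) v) (n : ℕ) :
    ∃ η' : R, v ∣ η' - η ∧ v ^ (n + 1) ∣ χ.eval η' := by
  induction n with
  | zero => exact ⟨η, by simp, by simpa using h⟩
  | succ n ih =>
    obtain ⟨η', h1, h2⟩ := ih
    obtain ⟨e, he⟩ := h1.trans (sub_dvd_eval_sub η' η (derivative χ))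
    obtain ⟨a, b, hab⟩ := hc
    obtain ⟨k, hk⟩ := χ.binomExpansion η' (-(a * χ.eval η'))
    obtain ⟨g, hg⟩ := h2
    refine ⟨η' + -(a * χ.eval η'), ?_, ?_⟩
    · have : η' + -(a * χ.eval η') - η = (η' - η) - a * χ.eval η' := by ring
      rw [this]
      refine dvd_sub h1 (Dvd.dvd.mul_left ?_ _)
      rw [hg, pow_succ']
      exact (dvd_mul_right _ _).mul_right _
    · refine ⟨g * (b - a * e) + k * a ^ 2 * g ^ 2 * v ^ n, ?_⟩
      rw [hk, hg]
      linear_combination (-(v ^ (n + 1) * g)) * hab - (v ^ (n + 1) * g * a) * he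

/-- Lagrange interpolation followed by Newton steps and a reduction. -/
theorem exists_eta {I L : Type} [Fintype I] [Field L] {χ : L[X][X]} {M : ℕ} (hM : 0 < M)
    {Q₀ : L × L} {P : I → L × L} (h₀ : Et χ Q₀) (h : ∀ i, Et χ (P i))
    (hinj : Function.Injective fun i => (P i).1) (hne : ∀ i, (P i).1 ≠ Q₀.1) :
    ∃ η : L[X], η.degree < (M * Fintype.card I + 1 : ℕ) ∧ η.eval Q₀.1 = Q₀.2 ∧
      (∀ i, η.eval (P i).1 = (P i).2) ∧ uu M Q₀.1 (fun i => (P i).1) ∣ χ.eval η := by
  let R : Option I → L × L := fun o => o.elim Q₀ P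
  have hR : ∀ o, Et χ (R o) := fun o => by
    cases o with
    | none => exact h₀
    | some i => exact h i
  have hi : Function.Injective fun o => (R o).1 := by
    intro o o' hoo
    cases o with
    | none =>
      cases o' with
      | none => rfl
      | some j => exact absurd hoo.symm (hne j)
    | some i =>
      cases o' with
      | none => exact absurd hoo (hne i)
      | some j => exact congrArg some (hinj hoo)
  let η₀ : L[X] := Lagrange.interpolate Finset.univ (fun o => (R o).1) fun o => (R o).2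
  have hη₀ : ∀ o, η₀.eval (R o).1 = (R o).2 := fun o =>
    Lagrange.eval_interpolate_at_node _ hi.injOn (Finset.mem_univ o)
  have hev : ∀ o (G : L[X][X]), (G.eval η₀).eval (R o).1 = ee (R o) G := fun o G => by
    rw [← ee_eval, hη₀]
  let v : L[X] := ∏ o, (X - C (R o).1)
  have hv : v ∣ χ.eval η₀ :=
    Finset.prod_dvd_of_coprime ((pairwise_coprime_X_sub_C hi).set_pairwise _) fun o _ =>
      dvd_iff_isRoot.2 ((hev o χ).trans (hR o).1)
  have hc : IsCoprime ((derivative χ).eval η₀) v :=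
    IsCoprime.prod_right fun o _ => ((irreducible_X_sub_C (R o).1).coprime_iff_not_dvd.2
      fun hd => (hR o).2 ((hev o _).symm.trans (dvd_iff_isRoot.1 hd))).symm
  obtain ⟨n, rfl⟩ : ∃ n, M = n + 1 := ⟨M - 1, by omega⟩
  obtain ⟨η₁, h1, h2⟩ := newton_steps hv hc n
  set u := uu (n + 1) Q₀.1 fun i => (P i).1 with hu
  have hm : u.Monic := uu_monic _ _ _
  have huv : u ∣ v ^ (n + 1) := by
    simp only [v, Fintype.prod_option, mul_pow, ← Finset.prod_pow, hu, uu]
    exact mul_dvd_mul (dvd_pow_self _ n.succ_ne_zero) dvd_rfl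
  have hd : u ∣ η₁ %ₘ u - η₁ := by
    rw [modByMonic_eq_sub_mul_div]
    exact ⟨-(η₁ /ₘ u), by ring⟩
  have hou : ∀ o, X - C (R o).1 ∣ u := fun o => by
    cases o with
    | none => exact dvd_mul_right _ _
    | some i =>
      exact Dvd.dvd.mul_left ((dvd_pow_self _ n.succ_ne_zero).trans
        (Finset.dvd_prod_of_mem (fun i => (X - C (P i).1) ^ (n + 1)) (Finset.mem_univ i))) _
  have hfin : ∀ o, (η₁ %ₘ u).eval (R o).1 = (R o).2 := fun o => by
    have a1 := dvd_iff_isRoot.1 ((hou o).trans hd)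
    have a2 := dvd_iff_isRoot.1
      ((Finset.dvd_prod_of_mem (fun o => X - C (R o).1) (Finset.mem_univ o)).trans h1)
    simp only [IsRoot.def, eval_sub] at a1 a2
    rw [← hη₀ o]
    linear_combination a1 + a2
  refine ⟨η₁ %ₘ u, ?_, hfin none, fun i => hfin (some i), ?_⟩
  · have := degree_modByMonic_lt η₁ hm
    rwa [degree_eq_natDegree hm.ne_zero, hu, uu_natDegree] at this
  · have := (hd.trans (sub_dvd_eval_sub _ _ χ)).add (huv.trans h2)
    rwa [sub_add_cancel] at this

end Pool.Agent.ZCy.U
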