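import Pool.Agent.Lib.MP_751085_ag.ZC.UIft
import Pool.Agent.Lib.MP_796ce4_ag.ZY.CvW

/-! Points near an etale point. -/

namespace Pool.Agent.ZCy.U

open Polynomial Pool.Agent.ZeroCyc Filter Topology
open scoped Classical

variable {L : Type} [NontriviallyNormedField L] [CompleteSpace L]

omit [CompleteSpace L] in
theorem pts_der (χ : L[X][X]) (Q₀ : L × L) : ∃ D : L × L →L[L] L,
    HasStrictFDerivAt (fun Q => ee Q χ) D Q₀ ∧ ∀ w, D (0, w) = w * ee Q₀ (derivative χ) := by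
  induction χ using Polynomial.induction_on with
  | C a =>
    simp only [ee_C]
    exact ⟨_, (a.hasStrictDerivAt Q₀.1).hasStrictFDerivAt.comp Q₀ hasStrictFDerivAt_fst, by simp⟩
  | add p q hp hq =>
    obtain ⟨D, h1, h2⟩ := hp
    obtain ⟨D', h3, h4⟩ := hq
    simp only [map_add]
    exact ⟨_, h1.add h3, fun w => by simp [h2, h4, mul_add]⟩
  | monomial n a ih =>
    obtain ⟨D, h1, h2⟩ := ih
    rw [pow_succ, ← mul_assoc]
    generalize C a * X ^ n = p at h1 h2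
    simp only [derivative_mul, derivative_X, map_add, map_mul, map_one, ee_X]
    exact ⟨_, h1.mul hasStrictFDerivAt_snd, fun w => by
      simp [h2]
      ring⟩

/-- The implicit function theorem on a product. -/
theorem near_pts {χ : L[X][X]} {Q₀ : L × L} (h : Et χ Q₀) {W : Set (L × L)} (hW : W ∈ 𝓝 Q₀) :
    ∀ᶠ t in 𝓝 Q₀.1, ∃ y, (t, y) ∈ W ∧ On χ (t, y) := by
  obtain ⟨D, h1, h2⟩ := pts_der χ Q₀
  have h3 : (D ∘L .inr L L L).IsInvertible :=
    ⟨ContinuousLinearEquiv.unitsEquivAut L (Units.mk0 _ h.2), by ext; simp [h2]⟩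
  filter_upwards [h1.eventually_apply_implicitFunctionOfProdDomain h3,
    (tendsto_id.prodMk_nhds (h1.tendsto_implicitFunctionOfProdDomain h3)).eventually hW] with t h4 h5
  exact ⟨_, h5, h4.trans h.1⟩

/-- neighbourhoods are infinite, `ρ` has finitely many roots -/
theorem exists_pts {c : Cv L} {Q₀ : L × L} (h : c.Gp Q₀) : ∃ S : Set (L × L), S.Infinite ∧
    (∀ Q ∈ S, c.Gp Q ∧ Q.1 ≠ Q₀.1) ∧ Set.InjOn Prod.fst S := by
  have h1 : Et c.χ Q₀ := ⟨h.1, fun h0 => h.2 (by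
    rw [← ee_C, c.rho, map_add, map_mul, map_mul, h0, show ee Q₀ c.χ = 0 from h.1]
    simp)⟩
  have h2 := (infinite_of_mem_nhds _ ((near_pts h1 univ_mem).and
    (c.ρ.continuous.continuousAt.eventually_ne h.2))).sdiff (Set.finite_singleton Q₀.1)
  choose! y hy using fun t (ht : ∃ y, (t, y) ∈ Set.univ ∧ On c.χ (t, y)) => ht
  refine ⟨_, h2.image (f := fun t => (t, y t)) fun _ _ _ _ e => congrArg Prod.fst e, ?_, ?_⟩
  · rintro _ ⟨t, ht, rfl⟩
    exact ⟨⟨(hy t ht.1.1).2, ht.1.2⟩, ht.2⟩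
  · rintro _ ⟨t, -, rfl⟩ _ ⟨t', -, rfl⟩ (rfl : t = t')
    rfl

end Pool.Agent.ZCy.U
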