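import Pool.Agent.Lib.MP_751085_ag.ZC.USysD
import Pool.Agent.Lib.MP_751085_ag.ZC.UPts
import Pool.Agent.Lib.MP_751085_ag.ZC.UEta

/-! Uniform local divisibility on a family of plane curves. -/

namespace Pool.Agent.ZCy.U

open Polynomial Pool.Agent.ZeroCyc Filter Topology
open scoped Classical

section

variable {S T I : Type} [CommRing S] [CommRing T] {m : ℕ}

/-- the polynomial with given coefficients -/
noncomputable def pol (a : Fin m → S) : S[X] := ∑ j : Fin m, monomial (j : ℕ) (a j)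

theorem pol_map (ψ : S →+* T) (a : Fin m → S) : (pol a).map ψ = pol fun j => ψ (a j) := by
  simp [pol, Polynomial.map_sum]

theorem pol_coeff (a : Fin m → S) (j : Fin m) : (pol a).coeff j = a j := by
  simp [pol, coeff_monomial, Fin.val_inj]

theorem pol_coeff_of_le (a : Fin m → S) {j : ℕ} (h : m ≤ j) : (pol a).coeff j = 0 := by
  rw [pol, finsetSum_coeff]
  refine Finset.sum_eq_zero fun i _ => ?_
  rw [coeff_monomial, if_neg (by omega)]

theorem pol_self {η : S[X]} (h : η.degree < m) : (pol fun j : Fin m => η.coeff j) = η := by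
  ext j
  by_cases hj : j < m
  · exact pol_coeff _ ⟨j, hj⟩
  · rw [pol_coeff_of_le _ (not_lt.1 hj), eq_comm]
    exact coeff_eq_zero_of_degree_lt (h.trans_le (by exact_mod_cast not_lt.1 hj))

theorem pol_zero : (pol fun _ : Fin m => (0 : S)) = 0 := by simp [pol]

/-- the unknowns -/
abbrev Unk (m : ℕ) (I : Type) : Type := Fin m ⊕ Fin m ⊕ Fin m ⊕ I

/-- the data given by parameters and unknowns -/
noncomputable def mkd (t : I → S) (x : Fin 4 → S) (v : Unk m I → S) : Sd I S where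
  t := t
  t' := fun i => v (.inr (.inr (.inr i)))
  Q₁ := (x 0, x 1)
  Q₂ := (x 2, x 3)
  η₁ := pol fun j => v (.inl j)
  η₂ := pol fun j => v (.inr (.inl j))
  β := pol fun j => v (.inr (.inr (.inl j)))

theorem mkd_map (ψ : S →+* T) (t : I → S) (x : Fin 4 → S) (v : Unk m I → S) :
    (mkd t x v).map ψ = mkd (fun i => ψ (t i)) (fun i => ψ (x i)) fun i => ψ (v i) := by
  simp only [mkd, Sd.map, pol_map, pm, Prod.map]

/-- the base point -/
noncomputable def bas (m : ℕ) (t : I → S) (η : S[X]) : Unk m I → S :=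
  Sum.elim (fun j => η.coeff j) (Sum.elim (fun j => η.coeff j) (Sum.elim (fun _ => 0) t))

theorem mkd_bas (t : I → S) {η : S[X]} (h : η.degree < m) (Q : S × S) :
    mkd t ![Q.1, Q.2, Q.1, Q.2] (bas m t η) = ⟨t, t, Q, Q, η, η, 0⟩ := by
  simp only [mkd, bas, Sum.elim_inl, Sum.elim_inr, pol_self h, pol_zero]
  rfl

theorem eqs_bas [Fintype I] {c : Cv S} {M : ℕ} {t : I → S} {η : S[X]} {Q : S × S}
    (h : uu M Q.1 t ∣ c.χ.eval η) : (⟨t, t, Q, Q, η, η, 0⟩ : Sd I S).Eqs c M := by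
  have ha : (⟨t, t, Q, Q, η, η, 0⟩ : Sd I S).a c M = 0 := by simp [Sd.a, cmod]
  refine ⟨h, h, ?_, ha ▸ WL_zero⟩
  rw [ha]
  simp [Cv.G, Sd.u₁, Sd.u₂]

theorem opn_bas [Fintype I] {L : Type} [Field L] {c : Cv L} {P : I → L × L} {η : L[X]} {Q : L × L}
    (hQ : c.Gp Q) (hP : ∀ i, c.Gp (P i)) (h : η.eval Q.1 = Q.2) (h' : ∀ i, η.eval (P i).1 = (P i).2) :
    (⟨fun i => (P i).1, fun i => (P i).1, Q, Q, η, η, 0⟩ : Sd I L).opn c ≠ 0 := by
  have key : ∀ R : L × L, c.Gp R → η.eval R.1 = R.2 → ee (R.1, η.eval R.1) (kap c.χ η) ≠ 0 := by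
    intro R hR e
    rw [ee_eval, kap_eval, ← ee_eval, e]
    exact hR.et.2
  have k0 : ee Q (kap c.χ η) ≠ 0 := by
    have := key Q hQ h
    rwa [h] at this
  refine mul_ne_zero (mul_ne_zero (mul_ne_zero (mul_ne_zero (mul_ne_zero hQ.2 hQ.2) k0) k0)
    (key Q hQ h)) (Finset.prod_ne_zero_iff.2 fun i _ => ?_)
  exact mul_ne_zero (mul_ne_zero (hP i).2 (hP i).2) (key _ (hP i) (h' i))

theorem eqs_iff_map [Fintype I] [Nontrivial T] (d : Sd I S) (c : Cv S) (M : ℕ) (ψ : S →+* T) :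
    (∀ j, ψ (d.eqs c M j) = 0) ↔ (d.map ψ).Eqs (c.map ψ) M := by
  rw [← Sd.eqs_iff]
  exact forall_congr' fun j => by rw [← d.eqs_map c M ψ j]

variable {ι L : Type} [CommRing L]

/-- the universal curve -/
noncomputable def cU [Nontrivial L] (c : Cv (MvPolynomial ι L)) (A : Type) :
    Cv (MvPolynomial ((ι ⊕ Fin 4) ⊕ A) L) :=
  c.map (MvPolynomial.rename (Sum.inl ∘ Sum.inl)).toRingHom

/-- the universal data -/
noncomputable def dU (ι : Type) (m : ℕ) (t : I → L) :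
    Sd I (MvPolynomial ((ι ⊕ Fin 4) ⊕ Unk m I) L) :=
  mkd (fun i => MvPolynomial.C (t i)) (fun i => MvPolynomial.X (.inl (.inr i)))
    fun i => MvPolynomial.X (.inr i)

theorem cU_map [Nontrivial L] [Nontrivial T] (c : Cv (MvPolynomial ι L)) {A : Type} (φ : L →+* T)
    (x : (ι ⊕ Fin 4) ⊕ A → T) : (cU c A).map (MvPolynomial.eval₂Hom φ x) =
      c.map (MvPolynomial.eval₂Hom φ fun i => x (.inl (.inl i))) := by
  rw [cU, Cv.map_map]
  congr 1
  ext i <;> simp

theorem dU_map (t : I → L) (φ : L →+* T) (x : (ι ⊕ Fin 4) ⊕ Unk m I → T) :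
    (dU ι m t).map (MvPolynomial.eval₂Hom φ x) =
      mkd (fun i => φ (t i)) (fun i => x (.inl (.inr i))) fun i => x (.inr i) := by
  rw [dU, mkd_map]
  simp

end

theorem gp_map {L Λ : Type} [Field L] [Field Λ] (φ : L →+* Λ) {c : Cv L} {Q : L × L}
    (h : c.Gp Q) : (c.map φ).Gp (pm φ Q) := by
  refine ⟨?_, ?_⟩
  · change ee (pm φ Q) (mp φ c.χ) = 0
    rw [← map_ee, h.1, map_zero]
  · change (c.ρ.map φ).eval (φ Q.1) ≠ 0
    rw [eval_map, eval₂_at_apply, _root_.map_ne_zero]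
    exact h.2

variable {L : Type} [NontriviallyNormedField L] [CompleteSpace L]

theorem exists_base {Λ : Type} [Field Λ] [IsAlgClosed Λ] (φ : L →+* Λ) {c : Cv L} {Q₀ : L × L}
    (hQ : c.Gp Q₀) (hi : Irreducible (c.map φ).χ) {M : ℕ} (hM : 0 < M) :
    ∃ (I : Type) (_ : Fintype I) (P : I → L × L) (η : L[X]), Fintype.card I = c.g0 ∧
      (∀ i, c.Gp (P i)) ∧ η.degree < (M * Fintype.card I + 1 : ℕ) ∧ η.eval Q₀.1 = Q₀.2 ∧
      (∀ i, η.eval (P i).1 = (P i).2) ∧ uu M Q₀.1 (fun i => (P i).1) ∣ c.χ.eval η ∧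
      Base (c.map φ) M (φ Q₀.1) (fun i => φ (P i).1) (η.map φ) := by
  obtain ⟨S, hS, hg, hinj⟩ := exists_pts hQ
  have hpm : Function.Injective (pm φ) := φ.injective.prodMap φ.injective
  obtain ⟨P', hP', hP'i, hns⟩ := exists_ns hi (hS.image hpm.injOn)
    (by rintro _ ⟨Q, h, rfl⟩; exact gp_map φ (hg Q h).1)
    (by rintro _ ⟨Q, h, rfl⟩ _ ⟨Q', h', rfl⟩ e; rw [hinj h h' (φ.injective e)])
  choose P hP hPP using hP'
  have hPi : Function.Injective fun i => (P i).1 := fun i j e => hP'i (by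
    have e' : (P i).1 = (P j).1 := e
    simp only [← hPP, pm, Prod.map_fst, e'])
  obtain ⟨η, h1, h2, h3, h4⟩ := exists_eta hM hQ.et (fun i => (hg _ (hP i)).1.et) hPi
    fun i => (hg _ (hP i)).2
  refine ⟨_, inferInstance, P, η, Fintype.card_fin _, fun i => (hg _ (hP i)).1, h1, h2, h3, h4,
    ?_, ?_, φ.injective.comp hPi, ?_⟩
  · rw [Cv.cop_iff]
    intro t ht
    rw [uu, eval_mul, eval_prod, mul_eq_zero, Finset.prod_eq_zero_iff] at ht
    rcases ht with ht | ⟨i, -, ht⟩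
    · obtain rfl : t = φ Q₀.1 := by simpa [sub_eq_zero] using ht
      exact (gp_map φ hQ).2
    · obtain rfl : t = φ (P i).1 := by simpa [sub_eq_zero, hM.ne'] using ht
      exact (gp_map φ (hg _ (hP i)).1).2
  · rw [← uu_map]
    change _ ∣ (mp φ c.χ).eval _
    rw [eval_mp]
    exact Polynomial.map_dvd φ h4
  · have e : ∀ i, (φ (P i).1, (η.map φ).eval (φ (P i).1)) = P' i := fun i => by
      rw [← hPP, eval_map, eval₂_at_apply, h3]
      rfl
    simp only [e]
    exact hns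

theorem uld_cv {Λ ι : Type} [Field Λ] [IsAlgClosed Λ] [CharZero Λ] [Fintype ι] (φ : L →+* Λ)
    (c : Cv (MvPolynomial ι L)) (p₀ : ι → L) (Q₀ : L × L)
    (hQ : (c.map (MvPolynomial.eval p₀)).Gp Q₀)
    (hi : Irreducible ((c.map (MvPolynomial.eval p₀)).map φ).χ) {M : ℕ} (hM : 0 < M) :
    ∀ᶠ z : (ι → L) × (L × L) × (L × L) in 𝓝 (p₀, Q₀, Q₀),
      On (c.map (MvPolynomial.eval z.1)).χ z.2.1 → On (c.map (MvPolynomial.eval z.1)).χ z.2.2 →
        Dvs ((c.map (MvPolynomial.eval z.1)).map φ) (Set.range φ) M (pm φ z.2.1) (pm φ z.2.2) := by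
  obtain ⟨I, _, P, η, hI, hP, h1, h2, h3, h4, hb⟩ := exists_base φ hQ hi hM
  set m := M * Fintype.card I + 1 with hm
  set t : I → L := fun i => (P i).1 with ht
  have ec : ∀ (p : ι ⊕ Fin 4 → L) (v : Unk m I → L),
      (cU c (Unk m I)).map (MvPolynomial.eval (Sum.elim p v)) =
        c.map (MvPolynomial.eval fun i => p (.inl i)) := fun p v => cU_map c (RingHom.id L) _
  have ed : ∀ (p : ι ⊕ Fin 4 → L) (v : Unk m I → L),
      (dU ι m t).map (MvPolynomial.eval (Sum.elim p v)) = mkd t (fun i => p (.inr i)) v :=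
    fun p v => dU_map t (RingHom.id L) _
  have key := ift (W := {x | MvPolynomial.eval x ((dU ι m t).opn (cU c _)) ≠ 0}) φ
    ((dU ι m t).eqs (cU c _) M) (Sum.elim p₀ ![Q₀.1, Q₀.2, Q₀.1, Q₀.2]) (bas m t η)
    (by rw [card_EqI, ← hm]; simp only [Fintype.card_sum, Fintype.card_fin, hI]; rfl) ?_ ?_ ?_
  · have hc : Continuous fun z : (ι → L) × (L × L) × (L × L) =>
        (Sum.elim z.1 ![z.2.1.1, z.2.1.2, z.2.2.1, z.2.2.2] : ι ⊕ Fin 4 → L) := by
      refine continuous_pi fun i => ?_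
      rcases i with i | i
      · exact (continuous_apply i).comp continuous_fst
      · fin_cases i <;> simp <;> fun_prop
    filter_upwards [(hc.tendsto (p₀, Q₀, Q₀)).eventually key] with z ⟨v, ho, he⟩ o1 o2
    have ho' := (Sd.opn_map _ _ _).trans_ne ho
    have he' := (eqs_iff_map _ _ M _).1 he
    rw [ec, ed] at ho' he'
    exact sys_dvs φ hM ((Sd.eqs_iff _ _ M).2 he') ho' o1 o2
  · refine (eqs_iff_map _ _ M _).2 ?_
    rw [ec, ed]
    exact (mkd_bas t h1 Q₀).symm ▸ eqs_bas h4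
  · intro w hw
    have he := (eqs_iff_map (dU ι m t) (cU c _) M (MvPolynomial.eval₂Hom _ _)).1 hw
    rw [cU_map, dU_map] at he
    have e : c.map (MvPolynomial.eval₂Hom ((TrivSqZeroExt.inlHom Λ Λ).comp φ)
        fun i => TrivSqZeroExt.inl (φ (p₀ i))) =
        ((c.map (MvPolynomial.eval p₀)).map φ).map (il Λ) := by
      rw [Cv.map_map, Cv.map_map]
      congr 1
      ext i <;> simp
    have hη : (pol fun j : Fin m => φ (η.coeff j)) = η.map φ := by
      rw [← pol_map, pol_self h1]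
    obtain ⟨k1, k2⟩ := sysl hM hb (e ▸ he) (fun i => rfl) (fun i => by simp [mkd, bas, ht]) rfl rfl
      (by simp [mkd, bas, pol_map, hη]) (by simp [mkd, bas, pol_map, hη])
      (by simp [mkd, bas, pol_map, pol_zero])
      fun j hj => ⟨pol_coeff_of_le _ hj, pol_coeff_of_le _ hj, pol_coeff_of_le _ hj⟩
    funext a
    rcases a with j | j | j | i
    · simpa [mkd, pol_coeff] using (k2 j).1
    · simpa [mkd, pol_coeff] using (k2 j).2.1
    · simpa [mkd, pol_coeff] using (k2 j).2.2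
    · simpa [mkd] using k1 i
  · refine (MvPolynomial.continuous_eval _).continuousAt.eventually_ne ?_
    rw [← Sd.opn_map, ec, ed]
    exact (mkd_bas t h1 Q₀).symm ▸ opn_bas hQ hP h2 h3

end Pool.Agent.ZCy.U
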