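import Pool.Agent.Lib.MP_796ce4_ag.ZY.Cl
import Pool.Agent.Lib.MP_796ce4_ag.ZY.CvB

/-! Block U: local fields, point classes, bounded groups of classes, curves, light charts. -/

namespace Pool.Agent.ZCy.U

open Polynomial Module Pool.Agent.ZeroCyc
open scoped Classical IntermediateField

set_option linter.unusedSectionVars false

/-- What is used of a local field `K` of characteristic zero and a norm on its closure `Λ`. -/
class LocF (K Λ : Type) [Field K] [TopologicalSpace K] [NormedField Λ] [Algebra K Λ] : Prop where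
  proper : ∀ L : IntermediateField K Λ, FiniteDimensional K L → ProperSpace L
  nontriv : ∃ c : K, 1 < ‖algebraMap K Λ c‖
  cont : Continuous (algebraMap K Λ)
  fin : ∀ γ : ℕ, {L : IntermediateField K Λ | FiniteDimensional K L ∧ finrank K L ≤ γ}.Finite

/-- `Λ` carries an absolute value with the properties `LocF` -/
def IsLoc (K Λ : Type) [Field K] [TopologicalSpace K] [Field Λ] [Algebra K Λ] : Prop :=
  ∃ ν : AbsoluteValue Λ ℝ, letI := ν.toNormedField; LocF K Λ

/-- `Q₂ - Q₁` is `M` times a divisor of degree zero of good points over `S`, modulo a principal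
divisor with witnesses over `S` -/
def Dvs {Λ : Type} [Field Λ] (c : Cv Λ) (S : Set Λ) (M : ℕ) (Q₁ Q₂ : Λ × Λ) : Prop :=
  c.Gp Q₁ ∧ c.Gp Q₂ ∧ ∃ (u : Λ[X]) (a : Λ[X][X]) (E : Λ × Λ →₀ ℤ), c.Wit u a ∧
    (∀ i, u.coeff i ∈ S) ∧ (∀ i j, (a.coeff i).coeff j ∈ S) ∧
    (∀ Q, E Q ≠ 0 → c.Gp Q ∧ Q.1 ∈ S ∧ Q.2 ∈ S) ∧ E.degree = 0 ∧
    dv c.χ (c.G u a) - dv c.χ (C u) = Finsupp.single Q₂ 1 - Finsupp.single Q₁ 1 + M • E

section cls

variable {K Λ : Type} [Field K] [Field Λ] [Algebra K Λ] {N : ℕ}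
  (J : Ideal (MvPolynomial (Fin (N + 1)) K))

/-- the class `[v]_L` -/
noncomputable def pc (L : IntermediateField K Λ) (v : Fin (N + 1) → Λ) : VV Λ J :=
  clL J L (Finsupp.single (pj v) 1)

/-- `v` is a point of the variety with coordinates in `L` -/
structure PtL (L : IntermediateField K Λ) (v : Fin (N + 1) → Λ) : Prop where
  ne : v ≠ 0
  on : OnX J v
  mem : ∀ i, v i ∈ L

/-- the group generated by the differences of points over `L` -/
noncomputable def GD (L : IntermediateField K Λ) : AddSubgroup (VV Λ J) :=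
  AddSubgroup.closure {w | ∃ v v', PtL J L v ∧ PtL J L v' ∧ w = pc J L v - pc J L v'}

variable (Λ) in
/-- effective classes -/
noncomputable def EffM : AddSubmonoid (VV Λ J) :=
  AddSubmonoid.closure {w | ∃ (L : IntermediateField K Λ) (v : Fin (N + 1) → Λ),
    FiniteDimensional K L ∧ PtL J L v ∧ w = pc J L v}

variable (Λ) in
/-- classes of degree zero -/
noncomputable def deg0 : AddSubgroup (VV Λ J) := (AddMonoidHom.snd _ _).ker

variable {J}

/-- a translate of `H` consists of effective classes -/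
def Bdd (H : AddSubgroup (VV Λ J)) : Prop := ∃ c, ∀ h ∈ H, h + c ∈ EffM Λ J

/-- the part of degree zero is bounded -/
def BddZ (A : AddSubgroup (VV Λ J)) : Prop := A ≤ Atot Λ J ∧ Bdd (A ⊓ deg0 Λ J)

/-- all coefficients lie in `L` -/
def Ovv (L : IntermediateField K Λ) (G : Λ[X][X]) : Prop := ∀ i, Over L (G.coeff i)

variable (J)

variable (Λ) in
/-- the variety is a cone -/
def IsCone : Prop := ∀ (v : Fin (N + 1) → Λ) (c : Λ), OnX J v → OnX J (c • v)

variable (Λ) in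
/-- a plane curve with a map to the variety -/
structure XC where
  c : Cv Λ
  q : Fin (N + 1) → Λ[X][X]
  on : ∀ F ∈ J, c.χ ∣ MvPolynomial.aeval q F
  ne : ∀ Q, c.Gp Q → (fun i => ee Q (q i)) ≠ 0

namespace XC

variable {J} (𝒳 : XC Λ J)

/-- homogeneous coordinates of the image of `Q` -/
noncomputable def pv (Q : Λ × Λ) : Fin (N + 1) → Λ := fun i => ee Q (𝒳.q i)

/-- the curve is defined over `L` -/
structure Ov (L : IntermediateField K Λ) : Prop where
  χ : Ovv L 𝒳.c.χ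
  ρ : Over L 𝒳.c.ρ
  q : ∀ i, Ovv L (𝒳.q i)

/-- the class of a divisor on the curve -/
noncomputable def cl (L : IntermediateField K Λ) : (Λ × Λ →₀ ℤ) →+ VV Λ J :=
  (clL J L).comp (psh fun Q => pj (𝒳.pv Q))

/-- classes of good points over finite extensions of `L₀` -/
noncomputable def A (L₀ : IntermediateField K Λ) : AddSubgroup (VV Λ J) :=
  AddSubgroup.closure {w | ∃ (L : IntermediateField K Λ) (Q : Λ × Λ), L₀ ≤ L ∧
    FiniteDimensional K L ∧ 𝒳.c.Gp Q ∧ Q.1 ∈ L ∧ Q.2 ∈ L ∧ w = pc J L (𝒳.pv Q)}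

end XC

/-- `x` is the centre of an arc over `L` of the curve `(F, τ, g)`, and `τ` has the value `t` -/
def Arc {F : Type} [Field F] [Algebra K F] (τ : F) (g : Fin (N + 1) → F)
    (L : IntermediateField K Λ) (t : Λ) (x : Fin (N + 1) → Λ) : Prop :=
  x ≠ 0 ∧ ∃ (A E : Type) (_ : CommRing A) (_ : IsDomain A) (_ : IsIntegrallyClosed A)
    (_ : Algebra K A) (_ : Field E) (_ : Algebra A E) (_ : IsFractionRing A E) (j : F →+* E)
    (ev : A →ₐ[K] Λ) (s : A) (c : E) (y : Fin (N + 1) → A),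
      (∀ a, ev a ∈ L) ∧ (∀ a, j (algebraMap K F a) = algebraMap A E (algebraMap K A a)) ∧
      j τ = algebraMap A E s ∧ ev s = t ∧ ∀ i, algebraMap A E (y i) = c * j (g i) ∧ ev (y i) = x i

/-- classes of centres of arcs along which `ρ(τ)` is a unit -/
noncomputable def arcA {F : Type} [Field F] [Algebra K F] (τ : F) (g : Fin (N + 1) → F)
    (ρ : K[X]) : AddSubgroup (VV Λ J) :=
  AddSubgroup.closure {w | ∃ (L : IntermediateField K Λ) (t : Λ) (x : Fin (N + 1) → Λ),
    FiniteDimensional K L ∧ Arc τ g L t x ∧ aeval t ρ ≠ 0 ∧ w = pc J L x}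

end cls

section chart

variable (k Λ : Type) {K : Type} [Field k] [Field K] [Field Λ] [Algebra k Λ] [Algebra K Λ] {N : ℕ}

/-- A light chart: the variety as the hypersurface `χ(ξ, θ) = 0`, `ξ_i = f_i / f₀`,
`θ = fθ / f₀`, with inverse `pp`. -/
structure LCh (J : Ideal (MvPolynomial (Fin (N + 1)) K)) (n : ℕ) where
  χ : MP n k
  α : MP n k
  β : MP n k
  D : MvPolynomial (Fin n) k
  pp : Fin (N + 1) → MP n k
  f₀ : MvPolynomial (Fin (N + 1)) k
  f : Fin n → MvPolynomial (Fin (N + 1)) k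
  fθ : MvPolynomial (Fin (N + 1)) k
  l : MvPolynomial (Fin (N + 1)) k
  δ : ℕ
  b : ℕ
  d : ℕ
  monic : χ.Monic
  deg : χ.natDegree = δ
  wt : ∀ i, (χ.coeff i).totalDegree ≤ b * (δ - i)
  bez : C D = α * χ + β * derivative χ
  irr : Irreducible (mq (algebraMap k Λ) χ)
  on : ∀ G ∈ J, mq (algebraMap k Λ) χ ∣
    MvPolynomial.aeval (fun i => mq (algebraMap k Λ) (pp i)) G
  hom₀ : f₀.IsHomogeneous d
  hom : ∀ i, (f i).IsHomogeneous d
  homl : l.IsHomogeneous 1
  sec : ∀ i, χ ∣ MvPolynomial.aeval pp (f i) - C (MvPolynomial.X i) * MvPolynomial.aeval pp f₀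
  ne : ∀ y h, ev2 (algebraMap k Λ) y h χ = 0 → MvPolynomial.aeval y D ≠ 0 →
    MvPolynomial.aeval (fun i => ev2 (algebraMap k Λ) y h (pp i)) f₀ ≠ 0 ∧
      MvPolynomial.aeval (fun i => ev2 (algebraMap k Λ) y h (pp i)) l ≠ 0
  inv : ∀ v : Fin (N + 1) → Λ, OnX J v → MvPolynomial.aeval v f₀ ≠ 0 →
    MvPolynomial.aeval (fun i => MvPolynomial.aeval v (f i) / MvPolynomial.aeval v f₀) D ≠ 0 →
    ev2 (algebraMap k Λ) (fun i => MvPolynomial.aeval v (f i) / MvPolynomial.aeval v f₀)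
      (MvPolynomial.aeval v fθ / MvPolynomial.aeval v f₀) χ = 0 ∧
    ∃ c : Λ, c ≠ 0 ∧ ∀ j, ev2 (algebraMap k Λ)
      (fun i => MvPolynomial.aeval v (f i) / MvPolynomial.aeval v f₀)
      (MvPolynomial.aeval v fθ / MvPolynomial.aeval v f₀) (pp j) = c * v j

namespace LCh

variable {k Λ} {J : Ideal (MvPolynomial (Fin (N + 1)) K)} {n : ℕ} (𝒞 : LCh k Λ J n)

/-- the affine coordinates, over any field above `k` -/
noncomputable def xi {E : Type} [Field E] [Algebra k E] (v : Fin (N + 1) → E) : Fin n → E :=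
  fun i => MvPolynomial.aeval v (𝒞.f i) / MvPolynomial.aeval v 𝒞.f₀

/-- the last coordinate -/
noncomputable def th {E : Type} [Field E] [Algebra k E] (v : Fin (N + 1) → E) : E :=
  MvPolynomial.aeval v 𝒞.fθ / MvPolynomial.aeval v 𝒞.f₀

/-- the open set of the chart -/
def In (v : Fin (N + 1) → Λ) : Prop :=
  MvPolynomial.aeval v 𝒞.f₀ ≠ 0 ∧ MvPolynomial.aeval (𝒞.xi v) 𝒞.D ≠ 0

/-- homogeneous coordinates of the point `(y, h)` -/
noncomputable def pv {S : Type} [CommRing S] (φ : k →+* S) (y : Fin n → S) (h : S) :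
    Fin (N + 1) → S := fun i => ev2 φ y h (𝒞.pp i)

/-- the weight bound -/
noncomputable def W : ℕ := (exists_wl_cv 𝒞.β 𝒞.b).choose + 𝒞.b * 𝒞.δ + 𝒞.D.totalDegree

end LCh

/-- the line `y + τ e` -/
noncomputable def lin {S : Type} [CommRing S] {n : ℕ} (y e : Fin n → S) : Fin n → S[X] :=
  fun i => C (y i) + C (e i) * X

theorem natDegree_lin {S : Type} [CommRing S] {n : ℕ} (y e : Fin n → S) (i : Fin n) :
    (lin y e i).natDegree ≤ 1 := by
  unfold lin
  rw [add_comm]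
  exact natDegree_linear_le

namespace LCh

variable {k Λ} {J : Ideal (MvPolynomial (Fin (N + 1)) K)} {n : ℕ} (𝒞 : LCh k Λ J n)

/-- the plane curve over the line `y + τ e` -/
noncomputable def crv {S : Type} [CommRing S] [Nontrivial S] (φ : k →+* S) (y e : Fin n → S) :
    Cv S where
  χ := cv φ (lin y e) 𝒞.χ
  α := cv φ (lin y e) 𝒞.α
  β := cv φ (lin y e) 𝒞.β
  ρ := MvPolynomial.eval₂ (C.comp φ) (lin y e) 𝒞.D
  δ := 𝒞.δ
  b := 𝒞.b * 1
  w := 𝒞.W * 1
  wt := 𝒞.deg ▸ wt_cv φ (natDegree_lin y e) 𝒞.monic (𝒞.deg.symm ▸ 𝒞.wt)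
  rho := by
    rw [← cv_derivative, ← map_mul, ← map_mul, ← map_add, ← 𝒞.bez]
    simp [cv]
  deg := (natDegree_eval₂_le φ (natDegree_lin y e) _).trans
    (Nat.mul_le_mul_right _ (Nat.le_add_left _ _))
  wβ := ((exists_wl_cv 𝒞.β 𝒞.b).choose_spec S φ (lin y e) 1 (natDegree_lin y e)).mono (by
    unfold W
    nlinarith [Nat.zero_le 𝒞.D.totalDegree])

end LCh

/-- the variety is a cone and every finite set of points lies in one chart over `k` -/
structure Charts (J : Ideal (MvPolynomial (Fin (N + 1)) K)) (n : ℕ) : Prop where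
  cone : IsCone Λ J
  ex : ∀ s : Finset (Fin (N + 1) → Λ), (∀ v ∈ s, v ≠ 0 ∧ OnX J v) →
    ∃ 𝒞 : LCh k Λ J n, ∀ v ∈ s, 𝒞.In v

end chart

end Pool.Agent.ZCy.U
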