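import Pool.Agent.Lib.MP_751085_ag.ZC.USys

/-! Polynomials over dual numbers. -/

namespace Pool.Agent.ZCy.U

open Polynomial Pool.Agent.ZeroCyc TrivSqZeroExt
open scoped Classical DualNumber

section

variable {R : Type} [CommRing R]

/-- the constant part -/
noncomputable abbrev fs (R : Type) [CommRing R] : R[ε] →+* R := (fstHom R R R).toRingHom

/-- the inclusion -/
noncomputable abbrev il (R : Type) [CommRing R] : R →+* R[ε] := inlHom R R

theorem dual_eps (a : R) : (ε * il R a : R[ε]) = inr a := by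
  ext <;> simp

theorem dual_sq : (C ε * C ε : R[ε][X]) = 0 := by
  rw [← C_mul, DualNumber.eps_mul_eps, C_0]

theorem dual_coeff (p₀ p₁ : R[X]) (j : ℕ) : (p₀.map (il R) + C ε * p₁.map (il R)).coeff j =
    inl (p₀.coeff j) + inr (p₁.coeff j) := by
  rw [coeff_add, coeff_C_mul, coeff_map, coeff_map, dual_eps]
  rfl

theorem dual_pow {S : Type} [CommRing S] {e : S} (he : e * e = 0) (a b : S) (m : ℕ) :
    (a - e * b) ^ (m + 1) = a ^ (m + 1) - e * ((m + 1) * a ^ m * b) := by
  induction m with
  | zero => simp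
  | succ m ih =>
    rw [pow_succ, ih]
    push_cast
    linear_combination ((m + 1) * a ^ m * b * b) * he

theorem dual_prod {S I : Type} [CommRing S] {e : S} (he : e * e = 0) (a b : I → S)
    (s : Finset I) : ∏ i ∈ s, (a i - e * b i) =
      ∏ i ∈ s, a i - e * ∑ i ∈ s, b i * ∏ j ∈ s.erase i, a j := by
  induction s using Finset.induction_on with
  | empty => simp
  | insert i s hi ih =>
    have h : ∑ k ∈ s, b k * ∏ j ∈ (insert i s).erase k, a j =
        a i * ∑ k ∈ s, b k * ∏ j ∈ s.erase k, a j := by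
      rw [Finset.mul_sum]
      refine Finset.sum_congr rfl fun k hk => ?_
      rw [Finset.erase_insert_of_ne (fun h : i = k => hi (h ▸ hk)),
        Finset.prod_insert fun h => hi (Finset.mem_of_mem_erase h)]
      ring
    rw [Finset.prod_insert hi, Finset.prod_insert hi, Finset.sum_insert hi, Finset.erase_insert hi,
      ih, h]
    linear_combination (b i * ∑ k ∈ s, b k * ∏ j ∈ s.erase k, a j) * he

theorem dual_split (p : R[ε][X]) : ∃ q : R[X], (∀ j, q.coeff j = (p.coeff j).snd) ∧
    p = (p.map (fs R)).map (il R) + C ε * q.map (il R) := by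
  induction p using Polynomial.induction_on' with
  | add p p' ih ih' =>
    obtain ⟨q, h1, h2⟩ := ih
    obtain ⟨q', h3, h4⟩ := ih'
    refine ⟨q + q', fun j => by rw [coeff_add, coeff_add, snd_add, h1, h3], ?_⟩
    rw [Polynomial.map_add, Polynomial.map_add, Polynomial.map_add, mul_add, add_add_add_comm,
      ← h2, ← h4]
  | monomial n a =>
    have h : ∀ j, (monomial n a.snd).coeff j = ((monomial n a).coeff j).snd := fun j => by
      rw [coeff_monomial, coeff_monomial]
      split_ifs
      · rfl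
      · rfl
    refine ⟨monomial n a.snd, h, Polynomial.ext fun j => ?_⟩
    rw [dual_coeff, h, coeff_map]
    exact (inl_fst_add_inr_snd_eq _).symm

theorem dual_inj {p₀ p₁ q₀ q₁ : R[X]} (h : p₀.map (il R) + C ε * p₁.map (il R) =
    q₀.map (il R) + C ε * q₁.map (il R)) : p₀ = q₀ ∧ p₁ = q₁ := by
  have h1 : ∀ j, (inl (p₀.coeff j) + inr (p₁.coeff j) : R[ε]) =
      inl (q₀.coeff j) + inr (q₁.coeff j) := fun j => by
    rw [← dual_coeff, h, dual_coeff]
  refine ⟨Polynomial.ext fun j => ?_, Polynomial.ext fun j => ?_⟩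
  · simpa using congrArg fst (h1 j)
  · simpa using congrArg snd (h1 j)

theorem dual_dvd {u₀ u₁ p₀ p₁ : R[X]} (h : u₀.map (il R) + C ε * u₁.map (il R) ∣
    p₀.map (il R) + C ε * p₁.map (il R)) : ∃ q₀ q₁, p₀ = q₀ * u₀ ∧ p₁ = q₀ * u₁ + q₁ * u₀ := by
  obtain ⟨q, hq⟩ := h
  obtain ⟨q₁, -, h1⟩ := dual_split q
  refine ⟨q.map (fs R), q₁, dual_inj ?_⟩
  generalize q.map (fs R) = q₀ at h1
  rw [hq, h1]
  simp only [Polynomial.map_add, Polynomial.map_mul]
  linear_combination (u₁.map (il R) * q₁.map (il R)) * dual_sq (R := R)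

/-- Taylor expansion; `Polynomial.eval_add_of_sq_eq_zero` -/
theorem dual_eval (G : R[X][X]) (η e : R[X]) :
    (mp (il R) G).eval (η.map (il R) + C ε * e.map (il R)) =
      (G.eval η).map (il R) + C ε * ((derivative G).eval η * e).map (il R) := by
  have h1 : ∀ H : R[X][X], (mp (il R) H).eval (η.map (il R)) = (H.eval η).map (il R) :=
    fun H => by
      rw [coe_mapRingHom, eval_map, ← coe_mapRingHom, eval₂_hom, coe_mapRingHom]
  rw [Polynomial.eval_add_of_sq_eq_zero _ _ _ (by
    linear_combination (e.map (il R)) ^ 2 * dual_sq (R := R)), h1, ← mp_derivative, h1,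
    Polynomial.map_mul]
  ring

theorem dual_uu {I : Type} [Fintype I] {M : ℕ} (hM : 0 < M) (τ : R) (t s : I → R) :
    uu M (il R τ) (fun i => inl (t i) + inr (s i)) = (uu M τ t).map (il R) + C ε *
      (-(C (M : R) * uu (M - 1) τ t *
        ∑ i, C (s i) * ∏ j ∈ Finset.univ.erase i, (X - C (t j)))).map (il R) := by
  have h1 : ∀ i, (X - C (inl (t i) + inr (s i)) : R[ε][X]) =
      (X - C (t i)).map (il R) - C ε * (C (s i)).map (il R) := fun i => by
    rw [← dual_eps, Polynomial.map_sub, map_X, map_C, map_C, C_add, C_mul]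
    have : il R (t i) = inl (t i) := rfl
    rw [this]
    ring
  obtain ⟨m, rfl⟩ : ∃ m, M = m + 1 := ⟨M - 1, by omega⟩
  simp only [uu, Finset.prod_pow, h1]
  rw [dual_prod (S := R[ε][X]) dual_sq, dual_pow (S := R[ε][X]) dual_sq]
  simp only [Nat.add_sub_cancel, Polynomial.map_mul, Polynomial.map_neg, Polynomial.map_pow,
    Polynomial.map_prod, Polynomial.map_sum, map_natCast, Polynomial.map_natCast]
  rw [Polynomial.map_sub, map_X, map_C]
  push_cast
  ring

end

end Pool.Agent.ZCy.U
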