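import Pool.Agent.Lib.MP_751085_ag.ZC.UReal
import Pool.Agent.Lib.MP_751085_ag.ZC.UPair

/-! The common end of the local constructions. -/

namespace Pool.Agent.ZCy.U

open Polynomial Module Pool.Agent.ZeroCyc
open scoped Classical IntermediateField

set_option linter.unusedSectionVars false

/-- multipliers; `Int.isCoprime_iff_gcd_eq_one`, Bezout for `l ^ E` and
`m ∏_{l' ≠ l} l' ^ E`, and for `m` and `δ ∏ l ^ E` -/
theorem exists_crt {Lam : Finset ℕ} (hL : ∀ p ∈ Lam, ∀ q ∈ Lam, p ≠ q → p.Coprime q) (E : ℕ)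
    {m : ℕ} {δ : ℤ} (h : ∀ l ∈ Lam, m.Coprime l) (hδ : IsCoprime (m : ℤ) δ) :
    ∃ (a : ℕ → ℤ) (a' : ℤ), (∀ l ∈ Lam, (l : ℤ) ^ E ∣ a l - 1 ∧ (m : ℤ) ∣ a l ∧ (l : ℤ) ^ E ∣ a' ∧
      ∀ l' ∈ Lam, l' ≠ l → (l' : ℤ) ^ E ∣ a l) ∧ (m : ℤ) ∣ a' * δ - 1 := by
  have h1 : ∀ l ∈ Lam, ∃ a : ℤ, (l : ℤ) ^ E ∣ a - 1 ∧ (m : ℤ) ∣ a ∧
      ∀ l' ∈ Lam, l' ≠ l → (l' : ℤ) ^ E ∣ a := fun l hl => by
    have hc : IsCoprime ((l : ℤ) ^ E) ((m : ℤ) * ∏ l' ∈ Lam.erase l, (l' : ℤ) ^ E) := by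
      refine IsCoprime.mul_right (Nat.isCoprime_iff_coprime.2 (h l hl).symm).pow_left
        (IsCoprime.prod_right fun l' hl' => ?_)
      obtain ⟨h2, h3⟩ := Finset.mem_erase.1 hl'
      exact (Nat.isCoprime_iff_coprime.2 (hL l hl l' h3 h2.symm)).pow
    obtain ⟨x, y, e⟩ := hc
    refine ⟨y * ((m : ℤ) * ∏ l' ∈ Lam.erase l, (l' : ℤ) ^ E), ⟨-x, by rw [← e]; ring⟩,
      (dvd_mul_right _ _).mul_left _, fun l' hl' hne => ?_⟩
    exact ((Finset.dvd_prod_of_mem (fun l' : ℕ => (l' : ℤ) ^ E)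
      (Finset.mem_erase.2 ⟨hne, hl'⟩)).mul_left _).mul_left _
  choose! a ha using h1
  have hc : IsCoprime (m : ℤ) ((∏ l ∈ Lam, (l : ℤ) ^ E) * δ) :=
    IsCoprime.mul_right (IsCoprime.prod_right fun l hl =>
      (Nat.isCoprime_iff_coprime.2 (h l hl)).pow_right) hδ
  obtain ⟨x, y, e⟩ := hc
  refine ⟨a, y * ∏ l ∈ Lam, (l : ℤ) ^ E, fun l hl => ⟨(ha l hl).1, (ha l hl).2.1, ?_,
    (ha l hl).2.2⟩, ⟨-x, by rw [← e]; ring⟩⟩
  exact (Finset.dvd_prod_of_mem (fun l' : ℕ => (l' : ℤ) ^ E) hl).mul_left _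

theorem end_kill {B : Type} [AddCommGroup B] {m : ℕ} {a : ℤ} {x : B} (h : m • x = 0)
    (ha : (m : ℤ) ∣ a) : a • x = 0 := by
  obtain ⟨c, rfl⟩ := ha
  rw [mul_comm, mul_smul, natCast_zsmul, h, smul_zero]

/-- Two families of additive maps on classes: the first is primary for the pairwise coprime
numbers in `Lam`, the second is killed by integers prime to `Lam` and `δ`. -/
structure Fams {V B I₁ I₂ : Type} [AddCommGroup V] [AddCommGroup B] (A : AddSubgroup V)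
    (Lam : Finset ℕ) (δ : ℤ) (l : I₁ → ℕ) (φ₁ : I₁ → V →+ B) (φ₂ : I₂ → V →+ B) : Prop where
  pos : ∀ p ∈ Lam, 0 < p
  cop : ∀ p ∈ Lam, ∀ q ∈ Lam, p ≠ q → p.Coprime q
  mem : ∀ i, l i ∈ Lam
  kill₁ : ∀ i, ∃ e, ∀ w ∈ A, l i ^ e • φ₁ i w = 0
  kill₂ : ∀ i, ∃ m : ℕ, 0 < m ∧ (∀ p ∈ Lam, m.Coprime p) ∧ IsCoprime (m : ℤ) δ ∧
    ∀ w ∈ A, m • φ₂ i w = 0

/-- one class for finitely many maps of both families -/
theorem end_fin {V B I₁ I₂ : Type} [AddCommGroup V] [AddCommGroup B] {A H : AddSubgroup V}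
    {Lam : Finset ℕ} {δ : ℤ} {l : I₁ → ℕ} {φ₁ : I₁ → V →+ B} {φ₂ : I₂ → V →+ B}
    (hφ : Fams A Lam δ l φ₁ φ₂) (hH : H ≤ A) {τ : I₁ → B}
    (h : ∀ p ∈ Lam, ∀ s : Finset I₁, (∀ i ∈ s, l i = p) → ∃ w ∈ H, ∀ i ∈ s, φ₁ i w = τ i)
    {g : V} (hg : g ∈ A) {m : I₂ → ℕ} {c : I₂ → ℤ} (hm : ∀ i, ∀ p ∈ Lam, (m i).Coprime p)
    (hδ : ∀ i, IsCoprime (m i : ℤ) δ) (hk : ∀ i, ∀ w ∈ A, m i • φ₂ i w = 0)
    (hc : ∀ i, (m i : ℤ) ∣ c i * δ - 1) (s : Finset I₁) (s' : Finset I₂) :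
    ∃ w ∈ H ⊔ AddSubgroup.zmultiples g,
      (∀ i ∈ s, φ₁ i w = τ i) ∧ ∀ i ∈ s', φ₂ i w = c i • φ₂ i g := by
  choose e he using hφ.kill₁
  have h1 : ∀ p ∈ Lam, ∃ w ∈ H, ∀ i ∈ s, l i = p → φ₁ i w = τ i := fun p hp => by
    obtain ⟨w, hw, hw'⟩ := h p hp (s.filter fun i => l i = p) fun i hi =>
      (Finset.mem_filter.1 hi).2
    exact ⟨w, hw, fun i hi hi' => hw' i (Finset.mem_filter.2 ⟨hi, hi'⟩)⟩
  choose! w hw hw' using h1
  obtain ⟨a, a', ha, ha'⟩ := exists_crt hφ.cop (s.sup e) (m := ∏ i ∈ s', m i) (δ := δ)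
    (fun p hp => Nat.Coprime.prod_left fun i _ => hm i p hp)
    (by rw [Nat.cast_prod]; exact IsCoprime.prod_left fun i _ => hδ i)
  refine ⟨∑ p ∈ Lam, a p • w p + a' • g, add_mem (AddSubgroup.mem_sup_left
    (sum_mem fun p hp => zsmul_mem (hw p hp) _)) (AddSubgroup.mem_sup_right
      (AddSubgroup.zsmul_mem_zmultiples g a')), fun i hi => ?_, fun i hi => ?_⟩
  · have hd : ∀ {b : ℤ} {x : V}, x ∈ A → (l i : ℤ) ^ s.sup e ∣ b → b • φ₁ i x = 0 :=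
      fun {b x} hx hb => end_kill (he i x hx) (by
        rw [Nat.cast_pow]
        exact (pow_dvd_pow _ (Finset.le_sup hi)).trans hb)
    have hl := hφ.mem i
    rw [map_add, map_sum, map_zsmul, hd hg (ha _ hl).2.2.1, add_zero,
      Finset.sum_eq_single (l i)]
    · have h2 := hd (hH (hw _ hl)) (ha _ hl).1
      rw [sub_smul, one_smul, sub_eq_zero] at h2
      rw [map_zsmul, h2, hw' _ hl i hi rfl]
    · intro p hp hne
      rw [map_zsmul, hd (hH (hw p hp)) ((ha p hp).2.2.2 _ hl hne.symm)]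
    · exact fun e => absurd hl e
  · have hd : (m i : ℤ) ∣ ((∏ i ∈ s', m i : ℕ) : ℤ) :=
      Int.natCast_dvd_natCast.2 (Finset.dvd_prod_of_mem m hi)
    rw [map_add, map_sum, map_zsmul, Finset.sum_eq_zero, zero_add, ← sub_eq_zero, ← sub_smul]
    · refine end_kill (hk i g hg) ((hδ i).dvd_of_dvd_mul_right ?_)
      have h2 := dvd_sub (hd.trans ha') (hc i)
      rwa [sub_sub_sub_cancel_right, ← sub_mul] at h2
    · intro p hp
      rw [map_zsmul]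
      exact end_kill (hk i _ (hH (hw p hp))) (hd.trans (ha p hp).2.1)

section

variable {k K Λ : Type} [Field k] [Field K] [CharZero K] [TopologicalSpace K] [Field Λ]
  [IsAlgClosed Λ] [Algebra k K] [Algebra k Λ] [Algebra K Λ] [IsScalarTower k K Λ] [IsGalois K Λ]
  {N n : ℕ} {J : Ideal (MvPolynomial (Fin (N + 1)) K)}

/-- Sketch: `obtain ⟨ν, hν⟩ := hK; letI := ν.toNormedField`. `g = P - δ • y` is in `Azero`,
`H' = H ⊔ zmultiples g` is bounded. Apply `Charts.real` to the family `Sum.elim φ₁ φ₂` with target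
`τ i` and `c i • φ₂ i g`, `c i * δ ≡ 1 mod m i`. On a finite set take `E` above all exponents,
`m` the product of the `m i`, and `w = ∑ l ∈ Lam, a l • w l + a' • g` (`exists_crt`).
Then `z = y + w`. -/
theorem Charts.finish (hK : IsLoc K Λ) (hJ : Charts k Λ J n) {B I₁ I₂ : Type} [AddCommGroup B]
    {Lam : Finset ℕ} {δ : ℤ} {l : I₁ → ℕ} {φ₁ : I₁ → VV Λ J →+ B} {φ₂ : I₂ → VV Λ J →+ B}
    (hφ : Fams (Atot Λ J) Lam δ l φ₁ φ₂) {H : AddSubgroup (VV Λ J)} (hH : Bdd H)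
    (h0 : H ≤ deg0 Λ J) (τ : I₁ → B)
    (h : ∀ p ∈ Lam, ∀ s : Finset I₁, (∀ i ∈ s, l i = p) → ∃ w ∈ H, ∀ i ∈ s, φ₁ i w = τ i)
    {y P : VV Λ J} (hy : y ∈ Atot Λ J) (hy1 : y.2 = 1) (hP : P ∈ Atot Λ J) (hPδ : P.2 = δ) :
    ∃ z ∈ Atot Λ J, z.2 = 1 ∧ (∀ i, φ₁ i z = φ₁ i y + τ i) ∧ ∀ i, δ • φ₂ i z = φ₂ i P := by
  have hg : P - δ • y ∈ Azero Λ J := mem_azero.2 ⟨sub_mem hP (zsmul_mem hy _), by
    rw [Prod.snd_sub, Prod.smul_snd, hy1, hPδ, zsmul_one, sub_self]⟩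
  have hgA := (mem_azero.1 hg).1
  have hH' : Bdd (H ⊔ AddSubgroup.zmultiples (P - δ • y)) := hH.sup (hJ.bdd_one hg)
  have h0' : H ⊔ AddSubgroup.zmultiples (P - δ • y) ≤ deg0 Λ J :=
    sup_le h0 (AddSubgroup.zmultiples_le_of_mem (mem_azero.1 hg).2)
  choose e he using hφ.kill₁
  choose m hm0 hm hδ hk using hφ.kill₂
  have h1 : ∀ i, ∃ c : ℤ, (m i : ℤ) ∣ c * δ - 1 := fun i => by
    obtain ⟨x, c, e⟩ := hδ i
    exact ⟨c, -x, by rw [← e]; ring⟩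
  choose c hc using h1
  have hfin := end_fin hφ hH.le_atot h hgA hm hδ hk hc
  have hreal : ∃ w ∈ Azero Λ J, ∀ i : I₁ ⊕ I₂,
      Sum.elim φ₁ φ₂ i w = Sum.elim τ (fun i => c i • φ₂ i (P - δ • y)) i := by
    obtain ⟨ν, hν⟩ := hK
    letI := ν.toNormedField
    refine Charts.real hJ (Sum.elim φ₁ φ₂) (Sum.elim (fun i => l i ^ e i) m) ?_ ?_ hH' h0' _
      fun s => ?_
    · rintro (i | i)
      · exact pow_pos (hφ.pos _ (hφ.mem i)) _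
      · exact hm0 i
    · rintro (i | i)
      · exact he i
      · exact hk i
    · obtain ⟨w, hw, h2, h3⟩ := hfin s.toLeft s.toRight
      refine ⟨w, hw, ?_⟩
      rintro (i | i) hi
      · exact h2 i (Finset.mem_toLeft.2 hi)
      · exact h3 i (Finset.mem_toRight.2 hi)
  obtain ⟨w, hw, hw'⟩ := hreal
  obtain ⟨hwA, hw0⟩ := mem_azero.1 hw
  refine ⟨y + w, add_mem hy hwA, by rw [Prod.snd_add, hy1, hw0, add_zero], fun i => ?_,
    fun i => ?_⟩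
  · have h2 : φ₁ i w = τ i := hw' (.inl i)
    rw [map_add, h2]
  · have h2 : φ₂ i w = c i • φ₂ i (P - δ • y) := hw' (.inr i)
    have h3 := end_kill (hk i _ hgA) (hc i)
    rw [sub_smul, one_smul, sub_eq_zero, mul_comm, mul_smul, ← h2] at h3
    rw [map_add, smul_add, h3, map_sub, map_zsmul, add_sub_cancel]

end

end Pool.Agent.ZCy.U
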