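import Pool.Agent.Lib.MP_751085_ag.ZC.UAbv

/-! Completions at finite places. -/

namespace Pool.Agent.ZCy.U

open Polynomial Module Pool.Agent.ZeroCyc NumberField IsDedekindDomain
open scoped Classical IntermediateField

set_option linter.unusedSectionVars false

variable {k : Type} [Field k] [NumberField k] (v : HeightOneSpectrum (𝓞 k))

theorem exists_one_lt_adic : ∃ x : v.adicCompletion k, 1 < ‖x‖ := by
  obtain ⟨a, ha, ha0⟩ := Submodule.exists_mem_ne_zero_of_ne_bot v.ne_bot
  have h1 := (FinitePlace.norm_lt_one_iff_mem k v a).2 ha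
  have h0 : FinitePlace.embedding v (algebraMap (𝓞 k) k a) ≠ 0 := by
    rw [_root_.map_ne_zero]
    exact (FaithfulSMul.algebraMap_eq_zero_iff (𝓞 k) k).not.2 ha0
  refine ⟨(FinitePlace.embedding v (algebraMap (𝓞 k) k a))⁻¹, ?_⟩
  rw [norm_inv]
  exact (one_lt_inv₀ (norm_pos_iff.2 h0)).2 h1

/-- every element of the unit ball is congruent to an element of `𝓞 k` -/
theorem fin_approx (x : v.adicCompletion k) (hx : Valued.v x ≤ 1) :
    ∃ a : 𝓞 k, Valued.v (x - FinitePlace.embedding v (algebraMap (𝓞 k) k a)) < 1 := by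
  obtain ⟨y, hy⟩ := Metric.denseRange_iff.1 (v.denseRange_algebraMap k) x 1 one_pos
  rw [dist_eq_norm, Valued.toNormedField.norm_lt_one_iff] at hy
  change Valued.v (x - FinitePlace.embedding v y) < 1 at hy
  have hv : ∀ z : k, Valued.v (FinitePlace.embedding v z) = v.valuation k z := fun z =>
    v.valuedAdicCompletion_eq_valuation' z
  have hy1 : v.valuation k y ≤ 1 := by
    rw [← hv]
    have e : FinitePlace.embedding v y = x - (x - FinitePlace.embedding v y) := by ring
    rw [e]
    exact (Valuation.map_sub _ _ _).trans (max_le hx hy.le)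
  obtain ⟨a, ha⟩ := v.exists_valuation_sub_lt_of_integer hy1 1
  refine ⟨a, ?_⟩
  rw [Units.val_one, ← hv, map_sub] at ha
  have e : x - FinitePlace.embedding v (algebraMap (𝓞 k) k a) = (x - FinitePlace.embedding v y) -
      (FinitePlace.embedding v (algebraMap (𝓞 k) k a) - FinitePlace.embedding v y) := by ring
  rw [e]
  exact (Valuation.map_sub _ _ _).trans_lt (max_lt hy ha)

theorem proper_adic : ProperSpace (v.adicCompletion k) := by
  rw [Valued.integer.properSpace_iff_completeSpace_and_isDiscreteValuationRing_integer_and_finite_residueField]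
  refine ⟨inferInstance, inferInstanceAs (IsDiscreteValuationRing (v.adicCompletionIntegers k)), ?_⟩
  change Finite (IsLocalRing.ResidueField (v.adicCompletionIntegers k))
  have hf : Finite (𝓞 k ⧸ v.asIdeal) := v.asIdeal.finiteQuotientOfFreeOfNeBot v.ne_bot
  have hm : ∀ z : v.adicCompletionIntegers k, Valued.v (z : v.adicCompletion k) < 1 →
      IsLocalRing.residue (v.adicCompletionIntegers k) z = 0 := fun z hz => by
    rw [IsLocalRing.residue_eq_zero_iff, IsLocalRing.mem_maximalIdeal, mem_nonunits_iff,
      HeightOneSpectrum.adicCompletionIntegers.isUnit_iff_valued_eq_one]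
    exact hz.ne
  let f : 𝓞 k →+* IsLocalRing.ResidueField (v.adicCompletionIntegers k) :=
    (IsLocalRing.residue _).comp (algebraMap (𝓞 k) (v.adicCompletionIntegers k))
  have hk : ∀ a ∈ v.asIdeal, f a = 0 := fun a ha => hm _ (by
    have h1 := (FinitePlace.norm_lt_one_iff_mem k v a).2 ha
    rw [Valued.toNormedField.norm_lt_one_iff] at h1
    exact h1)
  refine Finite.of_surjective (Ideal.Quotient.lift v.asIdeal f hk) fun z => ?_
  obtain ⟨x, rfl⟩ := IsLocalRing.residue_surjective z
  obtain ⟨a, ha⟩ := fin_approx v x x.2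
  refine ⟨Ideal.Quotient.mk _ a, ?_⟩
  rw [Ideal.Quotient.lift_mk]
  have h := hm (x - algebraMap (𝓞 k) (v.adicCompletionIntegers k) a) ha
  rw [map_sub, sub_eq_zero] at h
  exact h.symm

theorem exists_abv_adic : ∃ ν : AbsoluteValue (AlgebraicClosure (v.adicCompletion k)) ℝ,
    (∀ x : v.adicCompletion k, ν (algebraMap _ _ x) = ‖x‖) ∧
      letI := ν.toNormedField
      IsUltrametricDist (AlgebraicClosure (v.adicCompletion k)) ∧
        LocF (v.adicCompletion k) (AlgebraicClosure (v.adicCompletion k)) ∧
        ∀ p : ℕ, p.Prime → (p : 𝓞 k) ∈ v.asIdeal →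
          Loc p (v.adicCompletion k) (AlgebraicClosure (v.adicCompletion k)) := by
  let _ : NontriviallyNormedField (v.adicCompletion k) :=
    { (inferInstance : NormedField (v.adicCompletion k)) with
      non_trivial := exists_one_lt_adic v }
  have : ProperSpace (v.adicCompletion k) := proper_adic v
  have : CharZero (v.adicCompletion k) :=
    charZero_of_injective_algebraMap (algebraMap k (v.adicCompletion k)).injective
  have : IsUltrametricDist (v.adicCompletion k) := by
    refine IsUltrametricDist.isUltrametricDist_of_forall_norm_add_le_max_norm fun x y => ?_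
    rcases le_max_iff.1 (Valuation.map_add (Valued.v (R := v.adicCompletion k)) x y) with h | h
    · exact le_max_of_le_left (Valued.toNormedField.norm_le_iff.2 h)
    · exact le_max_of_le_right (Valued.toNormedField.norm_le_iff.2 h)
  obtain ⟨ν, h1, h2, h3, h4⟩ :=
    exists_abv (v.adicCompletion k) (AlgebraicClosure (v.adicCompletion k))
  refine ⟨ν, h1, h2, h3, fun p hp hv => h4 p hp ?_⟩
  have h := (FinitePlace.norm_lt_one_iff_mem k v _).2 hv
  rwa [map_natCast, map_natCast] at h

theorem isLoc_adic : IsLoc (v.adicCompletion k) (AlgebraicClosure (v.adicCompletion k)) := by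
  obtain ⟨ν, -, -, h, -⟩ := exists_abv_adic v
  exact ⟨ν, h⟩

end Pool.Agent.ZCy.U
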