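import Pool.Agent.Lib.MP_751085_ag.ZC.UCh

/-! A form with simple zeros at given points. -/

namespace Pool.Agent.ZCy.U

open Polynomial Module Pool.Agent.ZeroCyc
open scoped Classical IntermediateField

set_option linter.unusedSectionVars false

/-- the coefficients of a polynomial -/
def cfs {σ K : Type} [CommRing K] (f : MvPolynomial σ K) : (σ →₀ ℕ) → K :=
  fun m => MvPolynomial.coeff m f

/-- the product of the distinct minimal polynomials -/
theorem exists_sep {K Λ T : Type} [Field K] [CharZero K] [Field Λ] [Algebra K Λ]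
    [Algebra.IsAlgebraic K Λ] [Finite T] (t : T → Λ) :
    ∃ μ : K[X], ∀ j, aeval (t j) μ = 0 ∧ aeval (t j) (derivative μ) ≠ 0 := by
  have := Fintype.ofFinite T
  have hi : ∀ j, IsIntegral K (t j) := fun j => (Algebra.IsAlgebraic.isAlgebraic (t j)).isIntegral
  have hs : (∏ p ∈ Finset.univ.image fun j => minpoly K (t j), p).Separable := by
    refine separable_prod' (fun p hp q hq hne => ?_) fun p hp => ?_
    · obtain ⟨a, -, rfl⟩ := Finset.mem_image.1 hp
      obtain ⟨b, -, rfl⟩ := Finset.mem_image.1 hq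
      refine (minpoly.irreducible (hi a)).coprime_iff_not_dvd.2 fun hd => hne ?_
      exact eq_of_monic_of_associated (minpoly.monic (hi a)) (minpoly.monic (hi b))
        ((minpoly.irreducible (hi a)).associated_of_dvd (minpoly.irreducible (hi b)) hd)
    · obtain ⟨a, -, rfl⟩ := Finset.mem_image.1 hp
      exact (minpoly.irreducible (hi a)).separable
  refine ⟨∏ p ∈ Finset.univ.image fun j => minpoly K (t j), p, fun j => ?_⟩
  have h0 : aeval (t j) (∏ p ∈ Finset.univ.image fun j => minpoly K (t j), p) = 0 := by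
    rw [map_prod]
    exact Finset.prod_eq_zero (Finset.mem_image_of_mem _ (Finset.mem_univ j)) (minpoly.aeval K _)
  exact ⟨h0, hs.aeval_derivative_ne_zero h0⟩

theorem fm_scale {K S : Type} [CommRing K] [CommRing S] (ψ : K →+* S) {p : K[X]} {m : ℕ}
    (hm : p.natDegree ≤ m) (a b : S) :
    MvPolynomial.eval₂ ψ ![a * b, b] (p.homogenize m) = b ^ m * p.eval₂ ψ a := by
  apply Polynomial.induction_with_natDegree_le
    (fun p => MvPolynomial.eval₂ ψ ![a * b, b] (p.homogenize m) = b ^ m * p.eval₂ ψ a) (N := m)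
  · simp
  · intro j r _ hj
    obtain ⟨i, rfl⟩ := Nat.exists_eq_add_of_le hj
    rw [homogenize_C_mul, homogenize_X_pow hj]
    simp
    ring
  · intro f g _ _ hf hg
    rw [homogenize_add, MvPolynomial.eval₂_add, hf, hg, eval₂_add, mul_add]
  · exact hm

theorem fm_ev {σ K S : Type} [CommRing K] [CommRing S] (ψ : K →+* S) (v : σ → S)
    (A B : MvPolynomial σ K) (g : MvPolynomial (Fin 2) K) :
    MvPolynomial.eval₂ ψ v (MvPolynomial.aeval ![A, B] g) =
      MvPolynomial.eval₂ ψ ![MvPolynomial.eval₂ ψ v A, MvPolynomial.eval₂ ψ v B] g := by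
  induction g using MvPolynomial.induction_on with
  | C r => simp
  | add p q hp hq => simp only [map_add, MvPolynomial.eval₂_add, hp, hq]
  | mul_X p i hp =>
    simp only [map_mul, MvPolynomial.eval₂_mul, hp, MvPolynomial.aeval_X, MvPolynomial.eval₂_X]
    fin_cases i <;> rfl

variable {k K Λ : Type} [Field k] [Field K] [CharZero K] [Field Λ]
  [IsAlgClosed Λ] [Algebra k K] [Algebra k Λ] [Algebra K Λ] [IsScalarTower k K Λ] [IsGalois K Λ]
  {N n : ℕ} {J : Ideal (MvPolynomial (Fin (N + 1)) K)}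

namespace LCh

variable (𝒞 : LCh k Λ J n) (i₀ : Fin n) (μ : K[X]) (e : ℕ)

/-- the form `f₀ ^ r μ(f_i / f₀) l ^ e` -/
noncomputable def fm : MvPolynomial (Fin (N + 1)) K :=
  MvPolynomial.aeval ![MvPolynomial.map (algebraMap k K) (𝒞.f i₀),
    MvPolynomial.map (algebraMap k K) 𝒞.f₀] (μ.homogenize μ.natDegree) *
    MvPolynomial.map (algebraMap k K) 𝒞.l ^ e

/-- `MvPolynomial.IsHomogeneous.aeval` -/
theorem fm_hom : (𝒞.fm i₀ μ e).IsHomogeneous (𝒞.d * μ.natDegree + e) := by
  refine MvPolynomial.IsHomogeneous.mul ((isHomogeneous_homogenize μ).aeval _ fun i => ?_) ?_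
  · fin_cases i
    exacts [(𝒞.hom i₀).map _, 𝒞.hom₀.map _]
  · simpa using (𝒞.homl.map (algebraMap k K)).pow e

/-- `sec` gives `f_i(pv) = y_i f₀(pv)`; unfold `homogenize` or use
`IsHomogeneous.eval₂`-scaling and `eval₂_homogenize_of_eq_one` -/
theorem fm_pv {S : Type} [CommRing S] (ψ : K →+* S) {y : Fin n → S} {h : S}
    (h0 : ev2 (ψ.comp (algebraMap k K)) y h 𝒞.χ = 0) :
    MvPolynomial.eval₂ ψ (𝒞.pv (ψ.comp (algebraMap k K)) y h) (𝒞.fm i₀ μ e) =
      MvPolynomial.eval₂ (ψ.comp (algebraMap k K)) (𝒞.pv (ψ.comp (algebraMap k K)) y h) 𝒞.f₀ ^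
        μ.natDegree * μ.eval₂ ψ (y i₀) *
      MvPolynomial.eval₂ (ψ.comp (algebraMap k K)) (𝒞.pv (ψ.comp (algebraMap k K)) y h) 𝒞.l ^ e := by
  have e1 : ∀ g : MvPolynomial (Fin (N + 1)) k, ev2 (ψ.comp (algebraMap k K)) y h
      (MvPolynomial.aeval 𝒞.pp g) =
        MvPolynomial.eval₂ (ψ.comp (algebraMap k K)) (𝒞.pv (ψ.comp (algebraMap k K)) y h) g := by
    intro g
    induction g using MvPolynomial.induction_on with
    | C r => simp [ev2]
    | add p q hp hq => simp only [map_add, MvPolynomial.eval₂_add, hp, hq]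
    | mul_X p i hp => simp only [map_mul, MvPolynomial.eval₂_mul, hp, MvPolynomial.aeval_X,
        MvPolynomial.eval₂_X, pv]
  have e2 := map_dvd (ev2 (ψ.comp (algebraMap k K)) y h) (𝒞.sec i₀)
  rw [h0, zero_dvd_iff, map_sub, map_mul, e1, e1, ev2_C, MvPolynomial.eval₂_X, sub_eq_zero] at e2
  rw [fm, MvPolynomial.eval₂_mul, MvPolynomial.eval₂_pow, MvPolynomial.eval₂_map, fm_ev,
    MvPolynomial.eval₂_map, MvPolynomial.eval₂_map, e2, fm_scale ψ le_rfl]

end LCh

end Pool.Agent.ZCy.U
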