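import Mathlib

/-! The implicit function theorem for polynomial systems. -/

namespace Pool.Agent.ZCy.U

open Filter Topology
open scoped DualNumber

theorem ift_der {L T σ : Type} [NontriviallyNormedField L] [CommRing T] [Fintype σ]
    (φ : L →+* T) (x₀ : σ → L) (G : MvPolynomial σ L) :
    ∃ D : (σ → L) →L[L] L, HasStrictFDerivAt (fun x => MvPolynomial.eval x G) D x₀ ∧
      ∀ w : σ → L, MvPolynomial.eval₂ ((TrivSqZeroExt.inlHom T T).comp φ)
        (fun s => (TrivSqZeroExt.inl (φ (x₀ s)) + TrivSqZeroExt.inr (φ (w s)) : T[ε])) G =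
        TrivSqZeroExt.inl (φ (MvPolynomial.eval x₀ G)) + TrivSqZeroExt.inr (φ (D w)) := by
  induction G using MvPolynomial.induction_on with
  | C a =>
    refine ⟨0, ?_, fun w => ?_⟩
    · simp only [MvPolynomial.eval_C]
      exact hasStrictFDerivAt_const a x₀
    · simp
  | add G H ihG ihH =>
    obtain ⟨D, h1, h2⟩ := ihG
    obtain ⟨E, h3, h4⟩ := ihH
    refine ⟨D + E, ?_, fun w => ?_⟩
    · simp only [map_add]
      exact h1.add h3
    · rw [MvPolynomial.eval₂_add, h2, h4]
      ext <;> simp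
  | mul_X G s ih =>
    obtain ⟨D, h1, h2⟩ := ih
    have h3 : HasStrictFDerivAt (fun x : σ → L => x s)
        (ContinuousLinearMap.proj (R := L) (φ := fun _ : σ => L) s) x₀ :=
      (ContinuousLinearMap.proj (R := L) (φ := fun _ : σ => L) s).hasStrictFDerivAt
    refine ⟨MvPolynomial.eval x₀ G •
      ContinuousLinearMap.proj (R := L) (φ := fun _ : σ => L) s + x₀ s • D, ?_, fun w => ?_⟩
    · simp only [map_mul, MvPolynomial.eval_X]
      exact h1.mul h3
    · rw [MvPolynomial.eval₂_mul, MvPolynomial.eval₂_X, h2]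
      ext
      · simp
      · simp [mul_comm, add_comm]

/-- A square polynomial system in the unknowns `A` with parameters `ι`. If it has no non-trivial
solution in dual numbers over some ring `T` above `L`, the solution `v₀` persists.
Sketch: by `MvPolynomial.induction_on`, for each `G` there is a continuous linear form `D` on
`ι ⊕ A → L` with `HasStrictFDerivAt (fun x => eval x G) D x₀` and, for all `w`,
`eval₂ (inl ∘ φ) (fun s => inl (φ (x₀ s)) + inr (φ (w s))) G = inl (φ (eval x₀ G)) + inr (φ (D w))`.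
The map `F x = (x ∘ inl, fun j => eval x (P j))` to `(ι → L) × (B → L)` has an injective, so
(equal dimensions) surjective strict derivative; `HasStrictFDerivAt.map_nhds_eq_of_surj`; then
pull `F '' W` back along `p ↦ (p, 0)`. -/
theorem ift {L T ι A B : Type} [NontriviallyNormedField L] [CompleteSpace L] [CommRing T]
    [Fintype ι] [Fintype A] [Fintype B] (φ : L →+* T) (P : B → MvPolynomial (ι ⊕ A) L)
    (p₀ : ι → L) (v₀ : A → L) (hc : Fintype.card A = Fintype.card B)
    (h0 : ∀ j, MvPolynomial.eval (Sum.elim p₀ v₀) (P j) = 0)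
    (hinj : ∀ w : A → L, (∀ j, MvPolynomial.eval₂ ((TrivSqZeroExt.inlHom T T).comp φ)
      (Sum.elim (fun i => TrivSqZeroExt.inl (φ (p₀ i)))
        fun a => (TrivSqZeroExt.inl (φ (v₀ a)) + TrivSqZeroExt.inr (φ (w a)) : T[ε])) (P j) = 0) →
      w = 0)
    {W : Set (ι ⊕ A → L)} (hW : W ∈ 𝓝 (Sum.elim p₀ v₀)) :
    ∀ᶠ p in 𝓝 p₀, ∃ v, Sum.elim p v ∈ W ∧ ∀ j, MvPolynomial.eval (Sum.elim p v) (P j) = 0 := by
  choose D hD hE using fun j => ift_der φ (Sum.elim p₀ v₀) (P j)
  let pr : ι → (ι ⊕ A → L) →L[L] L := fun i =>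
    ContinuousLinearMap.proj (R := L) (φ := fun _ : ι ⊕ A => L) (Sum.inl i)
  let F : (ι ⊕ A → L) → (ι → L) × (B → L) := fun x =>
    (fun i => x (Sum.inl i), fun j => MvPolynomial.eval x (P j))
  let F' : (ι ⊕ A → L) →L[L] (ι → L) × (B → L) :=
    (ContinuousLinearMap.pi pr).prod (ContinuousLinearMap.pi D)
  have hF : HasStrictFDerivAt F F' (Sum.elim p₀ v₀) :=
    ((ContinuousLinearMap.pi pr).hasStrictFDerivAt).prodMk (hasStrictFDerivAt_pi.2 hD)
  have hi : Function.Injective (F' : (ι ⊕ A → L) →ₗ[L] (ι → L) × (B → L)) := by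
    rw [injective_iff_map_eq_zero]
    intro u hu
    have h1 : ∀ i, u (Sum.inl i) = 0 := fun i => congrFun (congrArg Prod.fst hu) i
    have h2 : ∀ j, D j u = 0 := fun j => congrFun (congrArg Prod.snd hu) j
    have h3 : (fun a => u (Sum.inr a)) = 0 := by
      refine hinj _ fun j => ?_
      have h4 := hE j u
      rw [h0, h2, map_zero, TrivSqZeroExt.inl_zero, TrivSqZeroExt.inr_zero, add_zero] at h4
      rw [← h4]
      congr 1
      funext s
      rcases s with i | a
      · simp [h1]
      · rfl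
    funext s
    rcases s with i | a
    · exact h1 i
    · exact congrFun h3 a
  have hs : LinearMap.range (F' : (ι ⊕ A → L) →ₗ[L] (ι → L) × (B → L)) = ⊤ := by
    rw [LinearMap.range_eq_top, ← LinearMap.injective_iff_surjective_of_finrank_eq_finrank]
    · exact hi
    · simp [Module.finrank_prod, hc]
  have hm := hF.map_nhds_eq_of_surj hs
  have hF0 : F (Sum.elim p₀ v₀) = (p₀, 0) := Prod.ext rfl (funext h0)
  have h5 : F '' W ∈ 𝓝 ((p₀, 0) : (ι → L) × (B → L)) := by
    rw [← hF0, ← hm]
    exact image_mem_map hW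
  have h6 : Tendsto (fun p : ι → L => ((p, 0) : (ι → L) × (B → L))) (𝓝 p₀) (𝓝 (p₀, 0)) :=
    (continuous_id.prodMk continuous_const).tendsto p₀
  filter_upwards [h6 h5] with p hp
  obtain ⟨x, hx, hxp⟩ := hp
  have h7 : Sum.elim p (fun a => x (Sum.inr a)) = x := by
    funext s
    rcases s with i | a
    · exact (congrFun (congrArg Prod.fst hxp) i).symm
    · rfl
  refine ⟨fun a => x (Sum.inr a), ?_, fun j => ?_⟩
  · rw [h7]
    exact hx
  · rw [h7]
    exact congrFun (congrArg Prod.snd hxp) j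

end Pool.Agent.ZCy.U
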