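import Pool.Agent.Lib.MP_751085_ag.ZC.UDefs

/-! Completions at infinite places. -/

namespace Pool.Agent.ZCy.U

open Polynomial Module Pool.Agent.ZeroCyc NumberField
open scoped Classical IntermediateField

theorem inf_locF (K Λ : Type) [NontriviallyNormedField K] [LocallyCompactSpace K] [CharZero K]
    [NormedField Λ] [Algebra K Λ] [FiniteDimensional K Λ]
    (h : ∀ x : K, ‖algebraMap K Λ x‖ = ‖x‖) : LocF K Λ := by
  let _ : NormedAlgebra K Λ :=
    { norm_smul_le := fun c x => by rw [Algebra.smul_def, norm_mul, h] }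
  have : Finite (IntermediateField K Λ) :=
    Field.finite_intermediateField_of_exists_primitive_element K Λ
      (Field.exists_primitive_element K Λ)
  refine ⟨fun L _ => ?_, ?_, ?_, fun γ => Set.toFinite _⟩
  · let _ : NormedSpace K L := ⟨fun c x => norm_smul_le c (x : Λ)⟩
    exact FiniteDimensional.proper K L
  · obtain ⟨c, hc⟩ := NormedField.exists_one_lt_norm K
    exact ⟨c, by rwa [h]⟩
  · exact continuous_algebraMap K Λ

theorem inf_finite (K : Type) [Field K] [Algebra K ℂ]
    (h : ∀ x : ℝ, (x : ℂ) ∈ (algebraMap K ℂ).range) : FiniteDimensional K ℂ := by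
  refine ⟨⟨{1, Complex.I}, eq_top_iff.2 fun z _ => ?_⟩⟩
  obtain ⟨a, ha⟩ := h z.re
  obtain ⟨b, hb⟩ := h z.im
  have e : z = a • (1 : ℂ) + b • Complex.I := by
    rw [Algebra.smul_def, Algebra.smul_def, ha, hb, mul_one, Complex.re_add_im]
  rw [e]
  exact Submodule.add_mem _ (Submodule.smul_mem _ _ (Submodule.subset_span (by simp)))
    (Submodule.smul_mem _ _ (Submodule.subset_span (by simp)))

/-- `ℂ` is finite over `K`, and `Λ` embeds in `ℂ` over `K`. -/
theorem isLoc_of_complex (K Λ : Type) [NormedField K] [LocallyCompactSpace K] [CompleteSpace K]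
    [Field Λ] [Algebra K Λ] [Algebra.IsAlgebraic K Λ] (j : K →+* ℂ) (hj : Isometry j)
    (h : ∀ x : ℝ, (x : ℂ) ∈ j.range) : IsLoc K Λ := by
  let _ : Algebra K ℂ := j.toAlgebra
  have : CharZero K := j.charZero
  have : FiniteDimensional K ℂ := inf_finite K h
  let ι : Λ →ₐ[K] ℂ := IsAlgClosed.lift
  have hι : Function.Injective ι.toRingHom := ι.toRingHom.injective
  have : FiniteDimensional K Λ := FiniteDimensional.of_injective ι.toLinearMap hι
  have hn : ∀ x : K, ‖j x‖ = ‖x‖ := fun x => hj.norm_map_of_map_zero (map_zero j) x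
  let _ : NontriviallyNormedField K :=
    { (inferInstance : NormedField K) with
      non_trivial := by
        obtain ⟨c, hc⟩ := h 2
        refine ⟨c, ?_⟩
        rw [← hn, hc]
        simp }
  refine ⟨(NormedField.toAbsoluteValue ℂ).comp hι, ?_⟩
  let _ := ((NormedField.toAbsoluteValue ℂ).comp hι).toNormedField
  refine inf_locF K Λ fun x => ?_
  change ‖ι (algebraMap K Λ x)‖ = ‖x‖
  rw [ι.commutes]
  exact hn x

theorem isLoc_inf {k : Type} [Field k] (w : InfinitePlace k) :
    IsLoc w.Completion (AlgebraicClosure w.Completion) := by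
  refine isLoc_of_complex _ _ (InfinitePlace.Completion.extensionEmbedding w)
    (InfinitePlace.Completion.isometry_extensionEmbedding w) fun x => ?_
  rcases w.isReal_or_isComplex with hw | hw
  · obtain ⟨y, hy⟩ := InfinitePlace.Completion.surjective_extensionEmbeddingOfIsReal hw x
    exact ⟨y, by rw [← InfinitePlace.Completion.extensionEmbeddingOfIsReal_apply hw, hy]⟩
  · exact InfinitePlace.Completion.surjective_extensionEmbedding_of_isComplex hw x

end Pool.Agent.ZCy.U
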