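import Pool.Agent.Lib.MP_751085_ag.ZC.PDefs
import Pool.Agent.Lib.MP_796ce4_ag.ZY.Cl

/-! The class of a cycle modulo rational equivalence. -/

namespace Pool.Agent.ZCy

open Pool.Agent.ZeroCyc

variable {k : Type} [Field k] (X : Var k) (K : Type) [Field K] [Algebra k K]

/-- the ideal of `X` over `K` -/
noncomputable def Var.JK : Ideal (MvPolynomial (Fin (X.N + 1)) K) := Ideal.span (X.IK K)

/-- the class of a cycle modulo rational equivalence, and its degree -/
noncomputable def Var.cyc : X.Cyc K →+ VV (AlgebraicClosure K) (X.JK K) :=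
  Finsupp.liftAddHom (M := ℤ) fun x => zmultiplesHom _
    (clL (X.JK K) (Var.res x) (Finsupp.single (pj x.1) 1))

/-- the pairing factors through rational equivalence -/
def N2 : Prop := ∀ (k : Type) [Field k] [CharZero k] (X : Var k) (n : ℕ), X.Nice n → 3 ≤ n →
  ∀ (K : Type) [Field K] [Algebra k K], ∀ a ∈ X.Brauer, ∀ z : X.Cyc K, X.cyc K z = 0 →
    Var.pair z a = 0

end Pool.Agent.ZCy
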