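import Pool.Agent.Lib.MP_751085_ag.ZC.Iface
import Pool.Agent.Lib.MP_751085_ag.ZC.CMap
import Pool.Agent.Lib.MP_751085_ag.ZC.UN2
import Pool.Agent.Lib.MP_751085_ag.ZC.UDefs

/-! Light charts from charts. -/

namespace Pool.Agent.ZCy.U

open Pool.Agent.ZeroCyc
open scoped Classical

variable {k : Type} [Field k] (X : Var k) (K : Type) [Field K] [Algebra k K]

theorem lk1_smul {F ι : Type} [CommRing F] [Algebra k F] {G : MvPolynomial ι k} {m : ℕ}
    (h : G.IsHomogeneous m) (c : F) (v : ι → F) :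
    MvPolynomial.aeval (c • v) G = c ^ m * MvPolynomial.aeval v G := by
  rw [MvPolynomial.aeval_def, MvPolynomial.aeval_def, MvPolynomial.eval₂_eq, MvPolynomial.eval₂_eq,
    Finset.mul_sum]
  refine Finset.sum_congr rfl fun d hd => ?_
  have e : ∑ i ∈ d.support, d i = m := by
    have := h (MvPolynomial.mem_support_iff.1 hd)
    simpa [Finsupp.weight_apply, Finsupp.sum] using this
  simp only [Pi.smul_apply, smul_eq_mul, mul_pow]
  rw [Finset.prod_mul_distrib, Finset.prod_pow_eq_pow_sum, e]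
  ring

theorem lk1_aeval {S ι ι' : Type} [CommRing S] [Algebra k S] {N : ℕ}
    (h : MvPolynomial ι k →+* MvPolynomial ι' S)
    (hC : ∀ a, h (MvPolynomial.C a) = MvPolynomial.C (algebraMap k S a))
    (p : Fin (N + 1) → Polynomial (MvPolynomial ι k)) (G : MvPolynomial (Fin (N + 1)) k) :
    MvPolynomial.aeval (fun j => (p j).map h) G = (sb p G).map h := by
  induction G using MvPolynomial.induction_on with
  | C a =>
    simp [sb, hC, Polynomial.algebraMap_apply, MvPolynomial.algebraMap_apply]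
  | add p q hp hq => rw [map_add, map_add, Polynomial.map_add, hp, hq]
  | mul_X q i hq =>
    rw [map_mul, map_mul, Polynomial.map_mul, hq]
    simp [sb]

theorem lk1_ev {S ι : Type} [CommRing S] {n : ℕ} (φ : k →+* S) (e : ι → Fin n) (y : Fin n → S)
    (h : S) (p : Polynomial (MvPolynomial ι k)) :
    ev2 φ y h (p.map (MvPolynomial.rename e).toRingHom) = ev φ (fun i => y (e i)) h p := by
  rw [ev_def, ev2, Polynomial.coe_eval₂RingHom, Polynomial.eval₂_map]
  congr 1
  ext <;> simp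

theorem onX_JK {F : Type} [Field F] [Algebra k F] [Algebra K F] [IsScalarTower k K F]
    (v : Fin (X.N + 1) → F) : OnX (X.JK K) v ↔ ∀ G ∈ X.I, MvPolynomial.aeval v G = 0 := by
  constructor
  · intro h G hG
    have := h _ (Ideal.subset_span ⟨G, hG, rfl⟩)
    rwa [MvPolynomial.aeval_map_algebraMap] at this
  · intro h G hG
    refine (Ideal.span_le (I := RingHom.ker (MvPolynomial.aeval (R := K) v).toRingHom)).2 ?_ hG
    rintro _ ⟨G₀, h0, rfl⟩
    change MvPolynomial.aeval v _ = 0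
    rw [MvPolynomial.aeval_map_algebraMap]
    exact h G₀ h0

theorem onX_smul {F : Type} [Field F] [Algebra k F] [Algebra K F] [IsScalarTower k K F]
    {v : Fin (X.N + 1) → F} (h : OnX (X.JK K) v) (c : F) : OnX (X.JK K) (c • v) := by
  rw [onX_JK] at h ⊢
  intro G hG
  obtain ⟨m, hm⟩ := hG.1
  rw [lk1_smul hm, h G hG, mul_zero]

theorem lk1_mem {G : Fm X.N k} (h : G ∈ X.I) : G ∈ X.IK k :=
  ⟨G, h, MvPolynomial.map_id G⟩

theorem lk1_zer {F : Type} [Field F] [Algebra k F] {v : Fin (X.N + 1) → F}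
    (h : ∀ G ∈ X.I, MvPolynomial.aeval v G = 0) : Zer (X.IK k) (algebraMap k F) v := by
  rintro _ ⟨G, hG, rfl⟩
  have := h G hG
  simpa [MvPolynomial.aeval_def] using this

/-- all polynomials in `ξ` are renamed along `e : Option σ ≃ Fin n` -/
theorem exists_lch {Λ σ : Type} [Field Λ] [Algebra k Λ] [Algebra K Λ] [IsScalarTower k K Λ]
    [Fintype σ] (c : Chart k σ X.N (X.IK k)) {n : ℕ} (hn : Fintype.card σ + 1 = n)
    (hi : Irreducible (mq (algebraMap k Λ) c.χ)) :
    ∃ 𝒞 : LCh k Λ (X.JK K) n, ∀ v, c.U (algebraMap k Λ) v → 𝒞.In v := by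
  obtain ⟨e⟩ : Nonempty (Option σ ≃ Fin n) :=
    ⟨Fintype.equivFinOfCardEq (by rw [Fintype.card_option, hn])⟩
  obtain ⟨α, β, hb⟩ := c.bez
  obtain ⟨r, hr⟩ := c.dvd
  let ρ : MvPolynomial (Option σ) k →+* MvPolynomial (Fin n) k := (MvPolynomial.rename e).toRingHom
  have hρ : ∀ a, ρ (MvPolynomial.C a) = MvPolynomial.C (algebraMap k k a) := fun a => by simp [ρ]
  have hD : ∀ y : Fin n → Λ, MvPolynomial.aeval y (ρ c.D) =
      MvPolynomial.eval₂ (algebraMap k Λ) (fun i => y (e i)) c.D := fun y => by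
    change MvPolynomial.aeval y (MvPolynomial.rename e c.D) = _
    rw [MvPolynomial.aeval_rename, MvPolynomial.aeval_def]
    rfl
  have hne : ∀ (y : Fin n → Λ) (h : Λ), ev2 (algebraMap k Λ) y h (c.χ.map ρ) = 0 →
      MvPolynomial.aeval y (ρ c.D) ≠ 0 →
      MvPolynomial.aeval (fun i => ev2 (algebraMap k Λ) y h ((c.pp i).map ρ)) (c.f none) ≠ 0 ∧
      MvPolynomial.aeval (fun i => ev2 (algebraMap k Λ) y h ((c.pp i).map ρ)) c.l0 ≠ 0 := by
    intro y h h1 h2
    rw [hD] at h2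
    simp only [ρ, lk1_ev] at h1 ⊢
    have := c.ne Λ _ _ h h1 h2
    rwa [ev_sb, ev_sb] at this
  refine ⟨⟨c.χ.map ρ, α.map ρ, β.map ρ, ρ c.D, fun j => (c.pp j).map ρ, c.f none,
    fun i => c.f (some (e.symm i)), c.th, c.l0, c.δ, 1, c.d, c.monic.map ρ, ?_, fun i => ?_, ?_, ?_,
    fun G hG => ?_, c.hf _, fun _ => c.hf _, c.hl, fun i => ?_, hne, fun v hv h0 h1 => ?_⟩,
    fun v hv => ⟨hv.1, ?_⟩⟩
  · rw [c.monic.natDegree_map, c.deg]
  · rw [Polynomial.coeff_map, one_mul]
    exact (MvPolynomial.totalDegree_rename_le _ _).trans (c.wt i)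
  · rw [Polynomial.derivative_map, ← Polynomial.map_mul, ← Polynomial.map_mul,
      ← Polynomial.map_add, ← hb, Polynomial.map_C]
  · have h := hi.map (Polynomial.mapEquiv (MvPolynomial.renameEquiv Λ e).toRingEquiv)
    convert h using 1
    change (c.χ.map ρ).map _ = (c.χ.map _).map _
    rw [Polynomial.map_map, Polynomial.map_map]
    congr 1
    ext <;> simp [ρ]
  · let Φ : MvPolynomial (Fin (X.N + 1)) K →+* ZeroCyc.MP n Λ :=
      (MvPolynomial.aeval fun i => ZeroCyc.mq (algebraMap k Λ) ((c.pp i).map ρ)).toRingHom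
    change _ ∣ Φ G
    rw [← Ideal.mem_span_singleton, ← Ideal.mem_comap]
    refine Ideal.span_le.2 ?_ hG
    rintro _ ⟨G₀, h0, rfl⟩
    rw [SetLike.mem_coe, Ideal.mem_comap, Ideal.mem_span_singleton]
    change _ ∣ MvPolynomial.aeval _ _
    rw [MvPolynomial.aeval_map_algebraMap]
    simp only [Polynomial.coe_mapRingHom, Polynomial.map_map]
    rw [lk1_aeval _ (fun a => by simp [ρ])]
    exact Polynomial.map_dvd _ (c.dv_on G₀ (lk1_mem X h0))
  · have h := Polynomial.map_dvd ρ (c.dv_f (e.symm i))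
    rw [Polynomial.map_sub, Polynomial.map_mul, Polynomial.map_C, ← lk1_aeval ρ hρ,
      ← lk1_aeval ρ hρ] at h
    simpa [ρ] using h
  · have h2 := h1
    rw [hD] at h2
    obtain ⟨h3, h4⟩ := c.fro Λ (algebraMap k Λ) v
      (fun i => MvPolynomial.aeval v (c.f (some (e.symm (e i)))) / MvPolynomial.aeval v (c.f none))
      (MvPolynomial.aeval v c.th / MvPolynomial.aeval v (c.f none))
      (lk1_zer X ((onX_JK X K v).1 hv)) h0
      (fun i => by
        rw [e.symm_apply_apply]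
        exact (div_mul_cancel₀ _ h0).symm) (div_mul_cancel₀ _ h0).symm
    obtain ⟨u, hu⟩ := h4 h2
    have h5 : ev2 (algebraMap k Λ)
        (fun i => MvPolynomial.aeval v (c.f (some (e.symm i))) / MvPolynomial.aeval v (c.f none))
        (MvPolynomial.aeval v c.th / MvPolynomial.aeval v (c.f none)) (c.χ.map ρ) = 0 := by
      simp only [ρ, lk1_ev]
      exact h3
    refine ⟨h5, u, fun hu0 => (hne _ _ h5 h1).2 ?_, fun j => ?_⟩
    · simp only [ρ, lk1_ev, hu]
      have := lk1_smul c.hl u v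
      rw [hu0] at this ⊢
      rw [pow_one, zero_mul] at this
      exact this
    · simp only [ρ, lk1_ev]
      exact hu j
  · change MvPolynomial.aeval _ (ρ c.D) ≠ 0
    rw [hD]
    intro h
    have h1 := map_dvd (MvPolynomial.eval₂Hom (algebraMap k Λ) (c.xi (algebraMap k Λ) v)) hr
    have h2 : MvPolynomial.eval₂Hom (algebraMap k Λ) (c.xi (algebraMap k Λ) v) c.D = 0 := by
      rw [← h]
      simp only [LCh.xi, e.symm_apply_apply]
      rfl
    rw [h2, zero_dvd_iff, map_pow] at h1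
    apply hv.2
    rw [PChart.br, MvPolynomial.eval₂_mul]
    exact mul_eq_zero_of_left (eq_zero_of_pow_eq_zero h1) _

/-- `N1` with `H = 1`; `CHF` for the image of the chart over `K` (`Chart.exists_map`) -/
theorem charts_of (h1 : N1) (h2 : CHF) [CharZero k] {n : ℕ} (hX : X.Nice n) (hn : 3 ≤ n) :
    Charts k (AlgebraicClosure K) (X.JK K) n := by
  refine ⟨fun v c h => onX_smul X K h c, fun s hs => ?_⟩
  obtain ⟨σ, _, c, hσ, hU, -⟩ := h1 k X n hX hn (AlgebraicClosure K) s
    (fun v hv => ⟨(hs v hv).1, (onX_JK X K v).1 (hs v hv).2⟩) 1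
    ⟨0, MvPolynomial.isHomogeneous_one _ _⟩ (fun h => by simpa using h.2)
  obtain ⟨c', hc⟩ := c.exists_map (algebraMap k K) (GG' := X.IK K)
    (fun G hG => by
      obtain ⟨G₀, h0, rfl⟩ := hG
      exact Ideal.subset_span ⟨G₀, lk1_mem X h0, rfl⟩)
    (fun Ω _ ψ x h G hG => by
      obtain ⟨G₀, h0, rfl⟩ := hG
      have := h _ ⟨G₀, h0, rfl⟩
      rw [MvPolynomial.eval₂_map] at this
      simpa using this)
  have hi := (h2 k X n hX K σ c' hσ).1
  rw [PChart.GI, hc.p.χ, Polynomial.coe_mapRingHom, Polynomial.coe_mapRingHom,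
    Polynomial.map_map] at hi
  obtain ⟨𝒞, h⟩ := exists_lch X K (Λ := AlgebraicClosure K) c hσ (by
    convert hi using 1
    rw [Polynomial.coe_mapRingHom]
    congr 1
    refine RingHom.ext fun p => ?_
    rw [RingHom.comp_apply, MvPolynomial.map_map, ← IsScalarTower.algebraMap_eq])
  exact ⟨𝒞, fun v hv => h v (hU v hv)⟩

end Pool.Agent.ZCy.U
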