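import Pool.Agent.Lib.MP_751085_ag.ZC.UDefs
import Pool.Agent.Lib.MP_796ce4_ag.ZY.Orb

/-! Point classes, fields of definition. -/

namespace Pool.Agent.ZCy.U

open Polynomial Module Pool.Agent.ZeroCyc
open scoped Classical IntermediateField

set_option linter.unusedSectionVars false

variable {K Λ : Type} [Field K] [CharZero K] [Field Λ] [IsAlgClosed Λ] [Algebra K Λ] [IsGalois K Λ]
  {N : ℕ} {J : Ideal (MvPolynomial (Fin (N + 1)) K)} {L L' L₀ : IntermediateField K Λ}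

theorem pc_snd (L : IntermediateField K Λ) (v : Fin (N + 1) → Λ) :
    (pc J L v).2 = finrank K L := by
  rw [pc, clL_snd, Finsupp.degree_single, Int.cast_one, mul_one]

theorem pc_smul {c : Λ} (hc : c ≠ 0) (v : Fin (N + 1) → Λ) : pc J L (c • v) = pc J L v := by
  rw [pc, pc, pj_smul hc]

theorem PtL.mono {v : Fin (N + 1) → Λ} (h : PtL J L v) (hL : L ≤ L') : PtL J L' v := by
  exact ⟨h.ne, h.on, fun i => hL (h.mem i)⟩

theorem pc_mem_eff [FiniteDimensional K L] {v : Fin (N + 1) → Λ} (h : PtL J L v) :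
    pc J L v ∈ EffM Λ J := by
  exact AddSubmonoid.subset_closure ⟨L, v, inferInstance, h, rfl⟩

theorem atot_eq : Atot Λ J = AddSubgroup.closure {w | ∃ (L : IntermediateField K Λ)
    (v : Fin (N + 1) → Λ), FiniteDimensional K L ∧ PtL J L v ∧ w = pc J L v} := by
  unfold Atot
  congr 1
  ext w
  constructor
  · rintro ⟨L, y, hL, ⟨v, h0, h1, h2, rfl⟩, rfl⟩
    exact ⟨L, v, hL, ⟨h0, h1, h2⟩, rfl⟩
  · rintro ⟨L, v, hL, h, rfl⟩
    exact ⟨L, pj v, hL, ⟨v, h.ne, h.on, h.mem, rfl⟩, rfl⟩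

theorem pc_mem_atot [FiniteDimensional K L] {v : Fin (N + 1) → Λ} (h : PtL J L v) :
    pc J L v ∈ Atot Λ J := by
  rw [atot_eq]
  exact AddSubgroup.subset_closure ⟨L, v, inferInstance, h, rfl⟩

theorem eff_le_atot {w : VV Λ J} (h : w ∈ EffM Λ J) : w ∈ Atot Λ J := by
  rw [atot_eq]
  exact AddSubgroup.le_closure_toAddSubmonoid _ h

theorem mem_azero {w : VV Λ J} : w ∈ Azero Λ J ↔ w ∈ Atot Λ J ∧ w.2 = 0 := by
  exact Iff.rfl

theorem GD_le [FiniteDimensional K L] : GD J L ≤ Azero Λ J := by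
  refine (AddSubgroup.closure_le _).2 ?_
  rintro _ ⟨v, v', h, h', rfl⟩
  refine mem_azero.2 ⟨sub_mem (pc_mem_atot h) (pc_mem_atot h'), ?_⟩
  rw [Prod.snd_sub, pc_snd, pc_snd, sub_self]

/-- `clL_eq_nsmul`, `IntermediateField.finrank_dvd_of_le_right` -/
theorem pc_nsmul [FiniteDimensional K L'] (h : L ≤ L') : ∃ r : ℕ, 0 < r ∧
    r * finrank K L = finrank K L' ∧ ∀ v : Fin (N + 1) → Λ, pc J L' v = r • pc J L v := by
  obtain ⟨r, hr⟩ := IntermediateField.finrank_dvd_of_le_right h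
  rw [mul_comm] at hr
  refine ⟨r, Nat.pos_of_ne_zero fun h0 => ?_, hr.symm, fun v => clL_eq_nsmul hr.symm _⟩
  rw [h0, zero_mul] at hr
  exact (finrank_pos (R := K) (M := L')).ne' hr

/-- finitely many elements lie in a finite extension of `L` -/
theorem exists_fld [FiniteDimensional K L] (s : Finset Λ) : ∃ L' : IntermediateField K Λ,
    L ≤ L' ∧ FiniteDimensional K L' ∧ ∀ x ∈ s, x ∈ L' := by
  obtain ⟨L', h1, h2, h3, -⟩ := orb_fld (fun x : s => (x : Λ)) L
  exact ⟨L', h1, h2, fun x hx => h3 ⟨x, hx⟩⟩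

/-- `exists_fam_bot` over the base field `L` for `IntermediateField.extendScalars h`, then
`AlgEquiv.restrictScalars K`; or copy its proof -/
theorem exists_fam [FiniteDimensional K L'] (h : L ≤ L') :
    ∃ (n : ℕ) (s : Fin n → Λ ≃ₐ[K] Λ), Fam L L' s := by
  have : FiniteDimensional K (IntermediateField.extendScalars h) := ‹FiniteDimensional K L'›
  have : FiniteDimensional L (IntermediateField.extendScalars h) :=
    Module.Finite.of_restrictScalars_finite K _ _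
  obtain ⟨n, s, hs⟩ := exists_fam_bot (IntermediateField.extendScalars h)
  refine ⟨n, fun t => (s t).restrictScalars K, h, fun t x hx => (s t).commutes ⟨x, hx⟩, ?_,
    fun σ hσ => hs.perm { σ.toRingEquiv with commutes' := fun x => hσ x x.2 } (Fix.bot _)⟩
  have e := hs.card
  rw [IntermediateField.finrank_bot, mul_one] at e
  rw [e, mul_comm]
  exact finrank_mul_finrank K L (IntermediateField.extendScalars h)

theorem Ovv.map_eq {G : Λ[X][X]} (h : Ovv L G) {σ : Λ ≃ₐ[K] Λ} (hσ : Fix L σ) :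
    mp (σ : Λ →+* Λ) G = G := by
  ext1 i
  rw [coe_mapRingHom, coeff_map, coe_mapRingHom, (h i).map_eq hσ]

theorem Ovv.mono {G : Λ[X][X]} (h : Ovv L G) (hL : L ≤ L') : Ovv L' G := by
  exact fun i => (h i).mono hL

theorem Ovv.exists_mp {G : Λ[X][X]} (h : Ovv L G) :
    ∃ G₀ : L[X][X], mp (algebraMap L Λ) G₀ = G := by
  have : G ∈ Polynomial.lifts (mapRingHom (algebraMap L Λ)) :=
    (lifts_iff_coeff_lifts G).2 fun i => (h i).exists_map
  exact this

theorem ovv_mp {R : Type} [CommRing R] {φ : R →+* Λ} (h : ∀ x, φ x ∈ L) (G : R[X][X]) :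
    Ovv L (mp φ G) := by
  intro i j
  rw [coe_mapRingHom, coeff_map, coe_mapRingHom, coeff_map]
  exact h _

theorem Ovv.ee_mem {G : Λ[X][X]} (h : Ovv L G) {Q : Λ × Λ} (h₁ : Q.1 ∈ L) (h₂ : Q.2 ∈ L) :
    ee Q G ∈ L := by
  obtain ⟨G₀, rfl⟩ := h.exists_mp
  have e := map_e2 (algebraMap L Λ) (RingHom.id L) ⟨Q.1, h₁⟩ ⟨Q.2, h₂⟩ G₀
  rw [RingHom.comp_id] at e
  rw [ee_mp]
  exact e ▸ Subtype.prop _

end Pool.Agent.ZCy.U
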