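import Pool.Agent.Lib.MP_751085_ag.ZC.ULink1
import Pool.Agent.Lib.MP_751085_ag.ZC.UXa

/-! Cycles and their classes. -/

namespace Pool.Agent.ZCy.U

open Module Pool.Agent.ZeroCyc
open scoped Classical

/-- extension of an additive map with values in `ℚ / ℤ` -/
theorem exists_ext {V : Type} [AddCommGroup V] (A : AddSubgroup V)
    (f : A →+ AddCircle (1 : ℚ)) : ∃ g : V →+ AddCircle (1 : ℚ), ∀ a : A, g a = f a := by
  obtain ⟨g, hg⟩ := (Module.Baer.of_divisible (AddCircle (1 : ℚ))).extension_property_addMonoidHom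
    A.subtype A.subtype_injective f
  exact ⟨g, fun a => DFunLike.congr_fun hg a⟩

variable {k : Type} [Field k] [CharZero k] {X : Var k} {K : Type} [Field K] [CharZero K]
  [Algebra k K]

set_option linter.unusedSectionVars false

theorem cyc_single (x : X.Pt (AlgebraicClosure K)) (m : ℤ) :
    X.cyc K (Finsupp.single x m) = m • pc (X.JK K) (Var.res x) x.1 :=
  Finsupp.liftAddHom_apply_single _ _ _

theorem lk2_ne (x : X.Pt (AlgebraicClosure K)) : x.1 ≠ 0 := by
  obtain ⟨i, hi⟩ := x.2.1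
  intro h
  rw [h] at hi
  exact zero_ne_one hi

theorem ptL_res (x : X.Pt (AlgebraicClosure K)) :
    FiniteDimensional K (Var.res x) ∧ PtL (X.JK K) (Var.res x) x.1 := by
  have := (Set.finite_range x.1).to_subtype
  exact ⟨IntermediateField.finiteDimensional_adjoin fun y _ => Algebra.IsIntegral.isIntegral y,
    lk2_ne x, (onX_JK X K x.1).2 x.2.2, fun i => IntermediateField.subset_adjoin _ _ ⟨i, rfl⟩⟩

theorem lk2_deg_add (z z' : X.Cyc K) : Var.deg (z + z') = Var.deg z + Var.deg z' :=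
  Finsupp.sum_add_index' (fun _ => zero_mul _) fun _ _ _ => add_mul _ _ _

theorem lk2_deg_single (x : X.Pt (AlgebraicClosure K)) (m : ℤ) :
    Var.deg (Finsupp.single x m) = m * finrank K (Var.res x) :=
  Finsupp.sum_single_index (zero_mul _)

theorem cyc_snd (z : X.Cyc K) : (X.cyc K z).2 = Var.deg z := by
  induction z using Finsupp.induction_linear with
  | zero => rw [map_zero]; simp [Var.deg]
  | add a b ha hb => rw [map_add, Prod.snd_add, ha, hb, lk2_deg_add, Int.cast_add]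
  | single x m =>
    rw [cyc_single, Prod.smul_snd, pc_snd, lk2_deg_single, zsmul_eq_mul, Int.cast_mul,
      Int.cast_natCast]

theorem cyc_mem (z : X.Cyc K) : X.cyc K z ∈ Atot (AlgebraicClosure K) (X.JK K) := by
  induction z using Finsupp.induction_linear with
  | zero => rw [map_zero]; exact zero_mem _
  | add a b ha hb => rw [map_add]; exact add_mem ha hb
  | single x m =>
    rw [cyc_single]
    have := (ptL_res x).1
    exact zsmul_mem (pc_mem_atot (ptL_res x).2) _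

/-- divide by a non-zero coordinate -/
theorem exists_pt {L : IntermediateField K (AlgebraicClosure K)} [FiniteDimensional K L]
    {v : Fin (X.N + 1) → AlgebraicClosure K} {i : Fin (X.N + 1)} (hi : v i ≠ 0)
    (h : PtL (X.JK K) L v) : ∃ x : X.Pt (AlgebraicClosure K), x.1 = (v i)⁻¹ • v ∧
      Var.res x ≤ L ∧ ∀ r : ℕ, r * finrank K (Var.res x) = finrank K L →
        pc (X.JK K) L v = X.cyc K (Finsupp.single x r) := by
  refine ⟨⟨(v i)⁻¹ • v, ⟨i, inv_mul_cancel₀ hi⟩,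
    (onX_JK X K _).1 (onX_smul X K h.on _)⟩, rfl, ?_, fun r hr => ?_⟩
  · refine IntermediateField.adjoin_le_iff.2 ?_
    rintro _ ⟨j, rfl⟩
    exact L.mul_mem (L.inv_mem (h.mem i)) (h.mem j)
  · rw [cyc_single, natCast_zsmul, pc_smul (inv_ne_zero hi)]
    exact clL_eq_nsmul hr _

theorem lk2_rk {L L' : IntermediateField K (AlgebraicClosure K)} [FiniteDimensional K L']
    (h : L ≤ L') : ∃ r : ℕ, r * finrank K L = finrank K L' := by
  obtain ⟨r, hr⟩ := IntermediateField.finrank_dvd_of_le_right h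
  exact ⟨r, by rw [hr, mul_comm]⟩

theorem cyc_surj {w : VV (AlgebraicClosure K) (X.JK K)}
    (h : w ∈ Atot (AlgebraicClosure K) (X.JK K)) : ∃ z, X.cyc K z = w := by
  rw [atot_eq] at h
  refine (AddSubgroup.closure_le (X.cyc K).range).2 ?_ h
  rintro _ ⟨L, v, hL, hv, rfl⟩
  obtain ⟨i, hi⟩ := Function.ne_iff.1 hv.ne
  obtain ⟨x, -, h1, h2⟩ := exists_pt hi hv
  obtain ⟨r, hr⟩ := lk2_rk h1
  exact ⟨_, (h2 r hr).symm⟩

theorem pair_add (z z' : X.Cyc K) (a : BR X.F) :
    Var.pair (z + z') a = Var.pair z a + Var.pair z' a :=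
  Finsupp.sum_add_index' (fun _ => zero_zsmul _) fun x m m' =>
    add_zsmul (cores (Var.res x) (Var.eval a x)) m m'

theorem pair_single (x : X.Pt (AlgebraicClosure K)) (m : ℤ) (a : BR X.F) :
    Var.pair (Finsupp.single x m) a = m • cores (Var.res x) (Var.eval a x) :=
  Finsupp.sum_single_index (zero_zsmul _)

/-- `φ` computes the pairing with `a` -/
def Rep (j : BR K →+ AddCircle (1 : ℚ)) (a : BR X.F)
    (φ : VV (AlgebraicClosure K) (X.JK K) →+ AddCircle (1 : ℚ)) : Prop :=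
  ∀ z, φ (X.cyc K z) = j (Var.pair z a)

theorem lk2_desc {A V B : Type} [AddCommGroup A] [AddCommGroup V] [AddCommGroup B] (c : A →+ V)
    (g : A →+ B) (h : ∀ z, c z = 0 → g z = 0) :
    ∃ f : c.range →+ B, ∀ z, f ⟨c z, z, rfl⟩ = g z := by
  refine ⟨(QuotientAddGroup.lift c.ker g fun z hz => h z hz).comp
    (QuotientAddGroup.quotientKerEquivRange c).symm.toAddMonoidHom, fun z => ?_⟩
  have e : (QuotientAddGroup.quotientKerEquivRange c).symm ⟨c z, z, rfl⟩ =
      QuotientAddGroup.mk z := (AddEquiv.symm_apply_eq _).2 rfl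
  exact (congrArg (QuotientAddGroup.lift c.ker g fun z hz => h z hz) e).trans rfl

/-- the pairing descends to the range of `cyc` -/
theorem exists_rep (h : N2) {n : ℕ} (hX : X.Nice n) (hn : 3 ≤ n) (j : BR K →+ AddCircle (1 : ℚ))
    {a : BR X.F} (ha : a ∈ X.Brauer) : ∃ φ, Rep j a φ := by
  let p : X.Cyc K →+ BR K :=
    { toFun := fun z => Var.pair z a
      map_zero' := Finsupp.sum_zero_index
      map_add' := fun z z' => pair_add z z' a }
  obtain ⟨f, hf⟩ := lk2_desc (X.cyc K) (j.comp p)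
    fun z hz => (congrArg j (h k X n hX hn K a ha z hz)).trans (map_zero j)
  obtain ⟨g, hg⟩ := exists_ext _ f
  exact ⟨g, fun z => (hg ⟨X.cyc K z, z, rfl⟩).trans (hf z)⟩

theorem lk2_zero {A : Type} [AddCommGroup A] {a : A} (h : a = a + a) : a = 0 := left_eq_add.1 h

theorem pair_nsmul (h1 : EV) (h2 : WBC) {n : ℕ} (hX : X.Nice n) (hn : 3 ≤ n) (z : X.Cyc K)
    {a : BR X.F} (ha : a ∈ X.Brauer) (m : ℕ) : Var.pair z (m • a) = m • Var.pair z a := by
  have E := h1 k X n hX hn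
  have W := (h2 k X n hX hn K).2.2 z
  induction m with
  | zero =>
    have := W 0 E.zero 0 E.zero
    rw [show (0 : BR X.F) + 0 = 0 from add_zero (0 : BR X.F)] at this
    rw [zero_nsmul, zero_nsmul]
    exact lk2_zero (A := BR K) this
  | succ m ih => rw [succ_nsmul, succ_nsmul, W _ (E.nsmul a ha m) a ha, ih]

theorem Rep.kill (h1 : EV) (h2 : WBC) {n : ℕ} (hX : X.Nice n) (hn : 3 ≤ n)
    {j : BR K →+ AddCircle (1 : ℚ)} {a : BR X.F} (ha : a ∈ X.Brauer) {φ} (h : Rep j a φ) {m : ℕ}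
    (hm : m • a = 0) : ∀ w ∈ Atot (AlgebraicClosure K) (X.JK K), m • φ w = 0 := by
  intro w hw
  obtain ⟨z, rfl⟩ := cyc_surj hw
  rw [h z, ← map_nsmul, ← pair_nsmul h1 h2 hX hn z ha, hm, ← zero_nsmul a,
    pair_nsmul h1 h2 hX hn z ha, zero_nsmul, map_zero]

theorem lk2_on (x : X.Pt (AlgebraicClosure K)) : X.On (M := Var.res x)
    fun i => ⟨x.1 i, IntermediateField.subset_adjoin _ _ ⟨i, rfl⟩⟩ := by
  refine ⟨fun e => lk2_ne x (funext fun i => congrArg Subtype.val (congrFun e i)), fun G hG => ?_⟩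
  have : IsScalarTower k (Var.res x) (AlgebraicClosure K) :=
    IsScalarTower.of_algebraMap_eq fun _ => rfl
  apply (algebraMap (Var.res x) (AlgebraicClosure K)).injective
  rw [map_zero, ← MvPolynomial.aeval_algebraMap_apply]
  exact x.2.2 G hG

theorem Rep.agree (h1 : EV) {n n' : ℕ} (hX : X.Nice n) (hn : 3 ≤ n) {Y : Gen k X.N}
    (hY : Y.var.Nice n') (hn' : 3 ≤ n') {j : BR K →+ AddCircle (1 : ℚ)} {a : BR Y.F} {b : BR X.F}
    (hm : X.Match Y a b) {φ ψ} (hφ : Rep (X := Y.var) j a φ) (hψ : Rep j b ψ)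
    (L : IntermediateField K (AlgebraicClosure K)) (v : Fin (X.N + 1) → AlgebraicClosure K)
    (hL : FiniteDimensional K L) (h : PtL (X.JK K) L v) (h' : PtL (Y.var.JK K) L v) :
    φ (pc (Y.var.JK K) L v) = ψ (pc (X.JK K) L v) := by
  obtain ⟨i, hi⟩ := Function.ne_iff.1 h.ne
  obtain ⟨⟨x, hx⟩, e, h1x, h2x⟩ := exists_pt hi h
  obtain ⟨⟨y, hy⟩, e', -, h2y⟩ := exists_pt (X := Y.var) hi h'
  obtain rfl : x = y := e.trans e'.symm
  obtain ⟨r, hr⟩ := lk2_rk h1x
  rw [h2x r hr, h2y r hr, hφ, hψ, pair_single, pair_single,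
    (h1 k X n hX hn).eval b hm.2.1, (h1 k Y.var n' hY hn').eval a hm.1,
    hm.2.2 _ _ (lk2_on (X := Y.var) ⟨x, hy⟩)]
  rfl

theorem match_nsmul (h1 : EV) {n n' : ℕ} (hX : X.Nice n) (hn : 3 ≤ n) {Y : Gen k X.N}
    (hY : Y.var.Nice n') (hn' : 3 ≤ n') {f : Fm X.N k} (hf : X.Sec Y f) {a : BR Y.F} {b : BR X.F}
    (hm : X.Match Y a b) (m : ℕ) : X.Match Y (m • a) (m • b) := by
  have EX := h1 k X n hX hn
  have EY := h1 k Y.var n' hY hn'
  refine ⟨EY.nsmul a hm.1 m, EX.nsmul b hm.2.1 m, fun M _ _ x hx => ?_⟩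
  rw [EY.val_nsmul a hm.1 m M x hx, EX.val_nsmul b hm.2.1 m M x ((hf M x).1 hx).1, hm.2.2 M x hx]

end Pool.Agent.ZCy.U
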