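import Pool.Agent.Lib.MP_751085_ag.ZC.UMove
import Pool.Agent.Lib.MP_751085_ag.ZC.UEnd

/-! The local construction at a bad place. -/

namespace Pool.Agent.ZCy.U

open Polynomial Module Pool.Agent.ZeroCyc Filter Topology
open scoped Classical IntermediateField

set_option linter.unusedSectionVars false

variable {k K Λ : Type} [Field k] [Field K] [CharZero K] [TopologicalSpace K] [Field Λ]
  [IsAlgClosed Λ] [Algebra k K] [Algebra k Λ] [Algebra K Λ] [IsScalarTower k K Λ] [IsGalois K Λ]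
  {N n n' : ℕ} {J J' : Ideal (MvPolynomial (Fin (N + 1)) K)}

theorem exists_sum {w : VV Λ J} (h : w ∈ Atot Λ J) : ∃ (T : Type) (_ : Fintype T)
    (L : T → IntermediateField K Λ) (v : T → Fin (N + 1) → Λ) (c : T → ℤ),
      (∀ j, FiniteDimensional K (L j) ∧ PtL J (L j) (v j)) ∧ w = ∑ j, c j • pc J (L j) (v j) := by
  rw [atot_eq] at h
  induction h using AddSubgroup.closure_induction with
  | mem w hw =>
    obtain ⟨L, v, h1, h2, rfl⟩ := hw
    exact ⟨Unit, inferInstance, fun _ => L, fun _ => v, fun _ => 1, fun _ => ⟨h1, h2⟩, by simp⟩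
  | zero =>
    exact ⟨Empty, inferInstance, fun j => j.elim, fun j => j.elim, fun j => j.elim,
      fun j => j.elim, by simp⟩
  | add w w' _ _ h h' =>
    obtain ⟨T, _, L, v, c, hv, rfl⟩ := h
    obtain ⟨T', _, L', v', c', hv', rfl⟩ := h'
    refine ⟨T ⊕ T', inferInstance, Sum.elim L L', Sum.elim v v', Sum.elim c c', ?_, ?_⟩
    · rintro (j | j)
      · exact hv j
      · exact hv' j
    · rw [Fintype.sum_sum_type]
      rfl
  | neg w _ h =>
    obtain ⟨T, _, L, v, c, hv, rfl⟩ := h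
    refine ⟨T, inferInstance, L, v, fun j => -c j, hv, ?_⟩
    rw [← Finset.sum_neg_distrib]
    exact Finset.sum_congr rfl fun j _ => (neg_zsmul _ _).symm

theorem loc_GD_le (hK : IsLoc K Λ) {L : IntermediateField K Λ} {M : ℕ}
    {S : Set (Fin (N + 1) → Λ)} (hS : ∀ x ∈ S, PtL J L x)
    (h : ∀ v, PtL J L v → ∃ x ∈ S, pc J L v - pc J L x ∈ mulS M (GD J L)) (r : ℕ) :
    GD J L ≤ AddSubgroup.closure {w | ∃ x ∈ S, ∃ x' ∈ S, w = pc J L x - pc J L x'} ⊔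
      mulS (M ^ r) (GD J L) := by
  obtain ⟨ν, hν⟩ := hK
  let _ := ν.toNormedField
  exact GD_le_of_near hS h r

variable (J') in
/-- the class `z` on `J` can be moved to `J'` -/
def Mv (M : ℕ) (z : VV Λ J) : Prop :=
  ∀ (B I₁ I₂ : Type) [AddCommGroup B] (ψ : I₁ → VV Λ J →+ B) (φ₁ : I₁ → VV Λ J' →+ B)
    (φ₂ : I₂ → VV Λ J' →+ B) (δ : ℤ), Fams (Atot Λ J') {M} δ (fun _ => M) φ₁ φ₂ →
    (∀ i, ∃ e, ∀ w ∈ Atot Λ J, M ^ e • ψ i w = 0) →
    (∀ i (L : IntermediateField K Λ) v, FiniteDimensional K L → PtL J L v → PtL J' L v →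
      φ₁ i (pc J' L v) = ψ i (pc J L v)) → ∀ P ∈ Atot Λ J', P.2 = δ →
      ∃ z' ∈ Atot Λ J', z'.2 = 1 ∧ (∀ i, φ₁ i z' = ψ i z) ∧ ∀ i, δ • φ₂ i z' = φ₂ i P

/-- Sketch: choose `x j ∈ S j` (near `v j`), `y = ∑ c j • pc J' (L j) (x j)` has the degree of
`z`, `τ i = ψ i z - φ₁ i y = ψ i g`, `g = ∑ c j • (pc J (v j) - pc J (x j))`. `H` is generated by
the finitely many `pc J' (L j) x - pc J' (L j) x'`, `x, x' ∈ S j` (`Charts.bdd_fg`). For a finite
set of indices and `r` above the exponents, `GD_le_of_near` writes each difference as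
`w + M ^ r • g'`; by induction on the closure every such `w` has a partner `w' ∈ H` with
`φ₁ i w' = ψ i w` for all `i`. `Charts.finish`. -/
theorem mv_of_near (hK : IsLoc K Λ) (hJ' : Charts k Λ J' n') {M : ℕ} {T : Type} [Fintype T]
    {L : T → IntermediateField K Λ} {v : T → Fin (N + 1) → Λ} {c : T → ℤ}
    (hv : ∀ j, FiniteDimensional K (L j) ∧ PtL J (L j) (v j))
    (h1 : (∑ j, c j • pc J (L j) (v j)).2 = 1) (S : T → Set (Fin (N + 1) → Λ))
    (hS : ∀ j, (S j).Finite ∧ ∀ x ∈ S j, PtL J (L j) x ∧ PtL J' (L j) x)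
    (h : ∀ j u, PtL J (L j) u → ∃ x ∈ S j, pc J (L j) u - pc J (L j) x ∈ mulS M (GD J (L j))) :
    Mv J' M (∑ j, c j • pc J (L j) (v j)) := by
  intro B I₁ I₂ _ ψ φ₁ φ₂ δ hφ hψ hc P hP hPδ
  choose x hxS _hx using fun j => h j (v j) (hv j).2
  choose e he using hψ
  let U : Set (VV Λ J') :=
    ⋃ j, (fun p : (Fin (N + 1) → Λ) × (Fin (N + 1) → Λ) =>
      pc J' (L j) p.1 - pc J' (L j) p.2) '' (S j ×ˢ S j)
  have hU : U.Finite := Set.finite_iUnion fun j => ((hS j).1.prod (hS j).1).image _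
  have hUz : ∀ g ∈ U, g ∈ Azero Λ J' := by
    intro g hg
    obtain ⟨j, p, hp, rfl⟩ := Set.mem_iUnion.1 hg
    have := (hv j).1
    exact GD_le (AddSubgroup.subset_closure
      ⟨p.1, p.2, ((hS j).2 _ hp.1).2, ((hS j).2 _ hp.2).2, rfl⟩)
  have hH : Bdd (AddSubgroup.closure U) := by
    have := hJ'.bdd_fg hU.toFinset fun g hg => hUz g (hU.mem_toFinset.1 hg)
    rwa [hU.coe_toFinset] at this
  have h0 : AddSubgroup.closure U ≤ deg0 Λ J' :=
    (AddSubgroup.closure_le _).2 fun g hg => (mem_azero.1 (hUz g hg)).2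
  have hy : ∑ j, c j • pc J' (L j) (x j) ∈ Atot Λ J' := by
    refine sum_mem fun j _ => AddSubgroup.zsmul_mem _ ?_ _
    have := (hv j).1
    exact pc_mem_atot ((hS j).2 _ (hxS j)).2
  have hy1 : (∑ j, c j • pc J' (L j) (x j)).2 = 1 := by
    rw [← h1, Prod.snd_sum, Prod.snd_sum]
    refine Finset.sum_congr rfl fun j _ => ?_
    rw [Prod.smul_snd, Prod.smul_snd, pc_snd, pc_snd]
  have key : ∀ (s : Finset I₁) j, ∀ g ∈ GD J (L j), ∃ w ∈ AddSubgroup.closure U,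
      ∀ i ∈ s, φ₁ i w = ψ i g := by
    intro s j g hg
    have := (hv j).1
    obtain ⟨w, hw, g', hg', rfl⟩ := AddSubgroup.mem_sup.1
      (loc_GD_le hK (fun x hx => ((hS j).2 x hx).1) (h j) (s.sup e) hg)
    obtain ⟨g'', hg'', rfl⟩ : ∃ y ∈ GD J (L j), M ^ s.sup e • y = g' := hg'
    have hw' : ∃ w' ∈ AddSubgroup.closure U, ∀ i, φ₁ i w' = ψ i w := by
      clear hg
      induction hw using AddSubgroup.closure_induction with
      | mem w hw =>
        obtain ⟨a, ha, b, hb, rfl⟩ := hw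
        refine ⟨pc J' (L j) a - pc J' (L j) b, AddSubgroup.subset_closure
          (Set.mem_iUnion.2 ⟨j, (a, b), ⟨ha, hb⟩, rfl⟩), fun i => ?_⟩
        rw [map_sub, map_sub, hc i _ a (hv j).1 ((hS j).2 a ha).1 ((hS j).2 a ha).2,
          hc i _ b (hv j).1 ((hS j).2 b hb).1 ((hS j).2 b hb).2]
      | zero => exact ⟨0, zero_mem _, fun i => by simp⟩
      | add a b _ _ ha hb =>
        obtain ⟨a', ha', ha⟩ := ha
        obtain ⟨b', hb', hb⟩ := hb
        exact ⟨a' + b', add_mem ha' hb', fun i => by rw [map_add, map_add, ha, hb]⟩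
      | neg a _ ha =>
        obtain ⟨a', ha', ha⟩ := ha
        exact ⟨-a', neg_mem ha', fun i => by rw [map_neg, map_neg, ha]⟩
    obtain ⟨w', hw', hww⟩ := hw'
    refine ⟨w', hw', fun i hi => ?_⟩
    obtain ⟨t, ht⟩ := Nat.exists_eq_add_of_le' (Finset.le_sup (f := e) hi)
    rw [map_add, map_nsmul, hww, ht, pow_add, mul_nsmul', he i g'' (mem_azero.1 (GD_le hg'')).1,
      nsmul_zero, add_zero]
  obtain ⟨z', hz', hz1, hz2, hz3⟩ := hJ'.finish hK hφ hH h0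
    (fun i => ψ i (∑ j, c j • pc J (L j) (v j)) - φ₁ i (∑ j, c j • pc J' (L j) (x j)))
    (fun p _ s _ => by
      choose w hw hww using fun j => key s j (pc J (L j) (v j) - pc J (L j) (x j))
        (AddSubgroup.subset_closure ⟨v j, x j, (hv j).2, ((hS j).2 _ (hxS j)).1, rfl⟩)
      refine ⟨∑ j, c j • w j, sum_mem fun j _ => AddSubgroup.zsmul_mem _ (hw j) _, fun i hi => ?_⟩
      rw [map_sum, map_sum, map_sum, ← Finset.sum_sub_distrib]
      refine Finset.sum_congr rfl fun j _ => ?_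
      rw [map_zsmul, map_zsmul, map_zsmul, hww j i hi, map_sub, zsmul_sub,
        hc i _ (x j) (hv j).1 ((hS j).2 _ (hxS j)).1 ((hS j).2 _ (hxS j)).2])
    hy hy1 hP hPδ
  exact ⟨z', hz', hz1, fun i => by rw [hz2 i, add_sub_cancel], hz3⟩

/-- `exists_sum`, `Charts.cover` for each `L j`, `Charts.exists_form` for the index type
`Σ j, T j`, `mv_of_near` -/
theorem Charts.loc (hK : IsLoc K Λ) (hJ : Charts k Λ J n) (hn : 0 < n) {M : ℕ} (hM : 0 < M)
    {z : VV Λ J} (hz : z ∈ Atot Λ J) (h1 : z.2 = 1) :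
    ∃ d₁, ∀ d, d₁ ≤ d → ∃ fv : MvPolynomial (Fin (N + 1)) K, fv.IsHomogeneous d ∧
      ∀ᶠ a in 𝓝 (cfs fv), ∀ f : MvPolynomial (Fin (N + 1)) K, f.IsHomogeneous d → cfs f = a →
        ∀ (J' : Ideal (MvPolynomial (Fin (N + 1)) K)) (n' : ℕ), Charts k Λ J' n' →
          (∀ v : Fin (N + 1) → Λ, v ≠ 0 → OnX J v → MvPolynomial.aeval v f = 0 → OnX J' v) →
            Mv J' M z := by
  obtain ⟨T, _, L, v, c, hv, rfl⟩ := exists_sum hz
  obtain ⟨ν, hν⟩ := id hK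
  let _ := ν.toNormedField
  choose Tt W hW hcov using fun j => (have := (hv j).1; hJ.cover (L j) hM)
  obtain ⟨d₁, hd⟩ := hJ.exists_form hn (T := Σ j, Tt j) (fun a => L a.1) (fun a => (hv a.1).1)
    (fun a => a.2.1) (fun a => (hW a.1 a.2.1 a.2.2).1) (fun a => W a.1 a.2.1)
    (fun a => (hW a.1 a.2.1 a.2.2).2)
  refine ⟨d₁, fun d hdd => ?_⟩
  obtain ⟨fv, hfv, hev⟩ := hd d hdd
  refine ⟨fv, hfv, hev.mono fun a ha f hf hfa J' n' hJ' hsub => ?_⟩
  choose x' hxW hxP hxf using ha f hf hfa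
  refine mv_of_near hK hJ' hv h1 (fun j => Set.range fun t : Tt j => up (x' ⟨j, t⟩))
    (fun j => ⟨Set.finite_range _, ?_⟩) fun j u hu => ?_
  · rintro _ ⟨t, rfl⟩
    have hp := hxP ⟨j, t⟩
    exact ⟨hp, hp.ne, hsub _ hp.ne hp.on (hxf ⟨j, t⟩), hp.mem⟩
  · obtain ⟨x, hx, hxx⟩ := hcov j u hu
    exact ⟨_, ⟨⟨x, hx⟩, rfl⟩, hxx _ (hxW ⟨j, ⟨x, hx⟩⟩) (hxP ⟨j, ⟨x, hx⟩⟩).on⟩

end Pool.Agent.ZCy.U
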