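import Pool.Agent.Lib.MP_751085_ag.ZC.ULink2
import Pool.Agent.Lib.MP_751085_ag.ZC.ULoc
import Pool.Agent.Lib.MP_751085_ag.ZC.UFin
import Pool.Agent.Lib.MP_751085_ag.ZC.UInf

/-! Block U: the bad places, and the common end for the good places. -/

namespace Pool.Agent.ZCy.U

open Module Pool.Agent.ZeroCyc
open scoped Classical

/-- Brauer groups of fields of characteristic zero are torsion -/
def TOR : Prop := ∀ (F : Type) [Field F] [CharZero F] (a : BR F), ∃ m : ℕ, 0 < m ∧ m • a = 0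

variable {k K : Type} [Field k] [CharZero k] [Field K] [Algebra k K] [TopologicalSpace K]

/-- if `m = 0` then `Λ = 1` -/
theorem cop_pos (h : TOR) {F : Type} [Field F] [CharZero F] {Λ : ℕ} {a : BR F} (ha : Cop Λ a) :
    ∃ m : ℕ, 0 < m ∧ m.Coprime Λ ∧ m • a = 0 := by
  obtain ⟨m, hm, h0⟩ := ha
  rcases Nat.eq_zero_or_pos m with rfl | hp
  · obtain ⟨m', hm', h'⟩ := h F a
    rw [Nat.coprime_zero_left] at hm
    exact ⟨m', hm', hm ▸ Nat.coprime_one_right m', h'⟩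
  · exact ⟨m, hp, hm, h0⟩

theorem umain_cop {m Λ r : ℕ} {δ : ℤ} (hm : m.Coprime Λ) (h : δ ∣ (Λ : ℤ) ^ r) :
    IsCoprime (m : ℤ) δ :=
  (Nat.isCoprime_iff_coprime.2 hm).pow_right.of_isCoprime_of_dvd_right h

/-- an element killed by `M ≠ 0` and by the part of `M` prime to `l`, for each prime `l ∣ M` -/
theorem umain_zero {A : Type} [AddCommGroup A] {x : A} {M : ℕ} (hM : M ≠ 0) (h0 : M • x = 0)
    (h : ∀ l e c : ℕ, l.Prime → l ∣ M → M = l ^ e * c → c • x = 0) : x = 0 := by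
  by_contra hx
  obtain ⟨l, hl, hd⟩ := Nat.exists_prime_and_dvd (mt AddMonoid.addOrderOf_eq_one_iff.1 hx)
  obtain ⟨e, c, hc, he⟩ := Nat.exists_eq_pow_mul_and_not_dvd hM l hl.ne_one
  exact hc (hd.trans (addOrderOf_dvd_of_nsmul_eq_zero
    (h l e c hl (hd.trans (addOrderOf_dvd_of_nsmul_eq_zero h0)) he)))

theorem umain_end {A B C : Type} [AddCommGroup A] [AddCommGroup B] [AddCommGroup C] {Λ : ℕ}
    (hΛ : Λ ≠ 0) {a : A} {b : B} (f : A → C) (g : B → C) (ha : Prim Λ a) (hb : Prim Λ b)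
    (pa : ∀ m : ℕ, f (m • a) = m • f a) (pb : ∀ m : ℕ, g (m • b) = m • g b)
    (h : ∀ l c : ℕ, l.Prime → l ∣ Λ → Prim l (c • a) → Prim l (c • b) → f (c • a) = g (c • b)) :
    f a = g b := by
  obtain ⟨s, hs⟩ := ha
  obtain ⟨t, ht⟩ := hb
  have ea : Λ ^ (s + t) • a = 0 := by rw [pow_add, mul_comm, mul_smul, hs, smul_zero]
  have eb : Λ ^ (s + t) • b = 0 := by rw [pow_add, mul_smul, ht, smul_zero]
  refine sub_eq_zero.1 (umain_zero (pow_ne_zero (s + t) hΛ) ?_ fun l e c hl hd he => ?_)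
  · rw [smul_sub, ← pa, ← pb, ea, eb, ← zero_smul ℕ a, ← zero_smul ℕ b, pa, pb, zero_smul,
      zero_smul, sub_zero]
  · rw [smul_sub, ← pa, ← pb, sub_eq_zero]
    exact h l c hl (hl.dvd_of_dvd_pow hd) ⟨e, by rw [← mul_smul, ← he, ea]⟩
      ⟨e, by rw [← mul_smul, ← he, eb]⟩

theorem umain_sub {A B : Type} [AddCommGroup A] [AddCommGroup B] {j : A →+ B}
    (hj : Function.Injective j) {x y z : A} {u v : B} (hu : u = j x) (hv : v = j y)
    (h : u = v + j (z - y)) : x = z := by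
  rw [hu, hv, ← map_add, add_sub_cancel] at h
  exact hj h

theorem umain_zs {A B : Type} [AddCommGroup A] [AddCommGroup B] {j : A →+ B}
    (hj : Function.Injective j) {x y : A} {u v : B} {δ : ℤ} (hu : u = j x) (hv : v = j y)
    (h : δ • u = v) : δ • x = y := by
  rw [hu, hv, ← map_zsmul] at h
  exact hj h

/-- Sketch: `Charts.loc` for `X.cyc K z`, `M = Λ`; `W` is the set of the `eventually` statement.
`I₁ = {(a, b) // Match ∧ Prim Λ a ∧ Prim Λ b}`, `I₂ = {a // a ∈ Y.Brauer ∧ Cop Λ a}`;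
`exists_rep`, `Rep.kill`, `Rep.agree`, `cyc_surj`, `cyc_snd`, injectivity of `j`. -/
theorem u0_of (h1 : N1) (h2 : CHF) (h3 : EV) (h4 : WBC) (h5 : N2) (h6 : TOR)
    (hK : IsLoc K (AlgebraicClosure K)) : U0 k K := by
  intro X n hX hn Λ hΛ j hj z hz
  have : CharZero K := charZero_of_injective_algebraMap (algebraMap k K).injective
  have hn3 : 3 ≤ n := by omega
  have hn' : 3 ≤ n - 1 := by omega
  obtain ⟨d₁, hd⟩ := Charts.loc hK (charts_of X K h1 h2 hX hn3) (by omega)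
    (Nat.pos_of_ne_zero hΛ) (cyc_mem z) (by rw [cyc_snd, hz, Int.cast_one])
  refine ⟨d₁, fun d hdd => ?_⟩
  obtain ⟨fv, hfv, hev⟩ := hd d hdd
  refine ⟨fv, _, hfv, hev, fun f Y hf hW hY hS p ⟨r, hr⟩ => ?_⟩
  have : CharZero Y.F := charZero_of_injective_algebraMap (algebraMap k Y.F).injective
  have hM : Mv (Y.var.JK K) Λ (X.cyc K z) := hW _ (hf.map _) rfl _ (n - 1)
    (charts_of Y.var K h1 h2 hY hn') fun v hv hon h0 => (onX_JK Y.var K v).2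
      ((hS _ v).2 ⟨⟨hv, (onX_JK X K v).1 hon⟩, by
        rwa [MvPolynomial.aeval_map_algebraMap] at h0⟩).2
  choose ψ hψ using fun i : {q : BR Y.F × BR X.F // X.Match Y q.1 q.2 ∧ Prim Λ q.1 ∧ Prim Λ q.2} =>
    exists_rep h5 hX hn3 j i.2.1.2.1
  choose φ₁ hφ₁ using
    fun i : {q : BR Y.F × BR X.F // X.Match Y q.1 q.2 ∧ Prim Λ q.1 ∧ Prim Λ q.2} =>
      exists_rep h5 hY hn' j i.2.1.1
  choose φ₂ hφ₂ using fun i : {a : BR Y.F // a ∈ Y.var.Brauer ∧ Cop Λ a} =>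
    exists_rep h5 hY hn' j i.2.1
  obtain ⟨z', hz', hd1, ha, hb⟩ := hM _ _ _ ψ φ₁ φ₂ (Var.deg p)
    ⟨fun q hq => Finset.mem_singleton.1 hq ▸ Nat.pos_of_ne_zero hΛ,
      fun q hq q' hq' hne => absurd ((Finset.mem_singleton.1 hq).trans
        (Finset.mem_singleton.1 hq').symm) hne,
      fun _ => Finset.mem_singleton_self _,
      fun i => i.2.2.1.imp fun e he => (hφ₁ i).kill h3 h4 hY hn' i.2.1.1 he,
      fun i => by
        obtain ⟨m, hm, hc, h0⟩ := cop_pos h6 i.2.2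
        exact ⟨m, hm, fun q hq => Finset.mem_singleton.1 hq ▸ hc, umain_cop hc hr,
          (hφ₂ i).kill h3 h4 hY hn' i.2.1 h0⟩⟩
    (fun i => i.2.2.2.imp fun e he => (hψ i).kill h3 h4 hX hn3 i.2.1.2.1 he)
    (fun i L v hL h h' => Rep.agree h3 hX hn3 hY hn' i.2.1 (hφ₁ i) (hψ i) L v hL h h')
    _ (cyc_mem p) (cyc_snd p)
  obtain ⟨w, rfl⟩ := cyc_surj hz'
  refine ⟨w, by exact_mod_cast (cyc_snd w).symm.trans hd1, fun a b hm hpa hpb => hj ?_,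
    fun a hB hc => (umain_zs (A := BR K) hj (hφ₂ ⟨a, hB, hc⟩ w) (hφ₂ ⟨a, hB, hc⟩ p)
      (hb ⟨a, hB, hc⟩) :)⟩
  exact (hφ₁ ⟨(a, b), hm, hpa, hpb⟩ w).symm.trans ((ha _).trans (hψ _ z))

theorem uMain_of (h1 : N1) (h2 : CHF) (h3 : EV) (h4 : WBC) (h5 : N2) (h6 : TOR) : UMain :=
  fun _ _ _ => ⟨fun v => u0_of h1 h2 h3 h4 h5 h6 (isLoc_adic v),
    fun w => u0_of h1 h2 h3 h4 h5 h6 (isLoc_inf w)⟩

/-- Sketch: `Charts.finish` with `Lam = Λ.primeFactors`, `H ⊓ deg0`,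
`I₁ = {(l, a, b) // l ∈ Lam ∧ Match ∧ Prim l a ∧ Prim l b}`, `τ = j (pair z b - pair y a)`.
For `Λ`-primary `a`, `b` take natural numbers `c l` with `∑ c l ≡ 1 mod Λ ^ r` and
`Λ ^ r ∣ l ^ s * c l` (`exists_crt`, or induction); `a = ∑ c l • a`; `match_nsmul`,
`pair_nsmul`. -/
theorem loc_of_bdd (h1 : N1) (h2 : CHF) (h3 : EV) (h4 : WBC) (h5 : N2) (h6 : TOR)
    (hK : IsLoc K (AlgebraicClosure K)) {X : Var k} {n : ℕ} (hX : X.Nice n) (hn : 4 ≤ n)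
    {Y : Gen k X.N} (hY : Y.var.Nice (n - 1)) {f : Fm X.N k} (hf : X.Sec Y f) {Λ : ℕ} (hΛ : Λ ≠ 0)
    {j : BR K →+ AddCircle (1 : ℚ)} (hj : Function.Injective j) (z : X.Cyc K) {p : Y.var.Cyc K}
    (hp : ∃ r : ℕ, Var.deg p ∣ (Λ : ℤ) ^ r)
    {H : AddSubgroup (VV (AlgebraicClosure K) (Y.var.JK K))} (hH : BddZ H) {y : Y.var.Cyc K}
    (hy : Var.deg y = 1)
    (h : ∀ l : ℕ, l.Prime → l ∣ Λ → ∀ s : Finset (BR Y.F × BR X.F),
      (∀ q ∈ s, X.Match Y q.1 q.2 ∧ Prim l q.1 ∧ Prim l q.2) → ∃ w : Y.var.Cyc K,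
        Y.var.cyc K w ∈ H ∧ Var.deg w = 0 ∧
          ∀ q ∈ s, Var.pair w q.1 = Var.pair z q.2 - Var.pair y q.1) :
    X.Loc Y Λ K z p := by
  obtain ⟨r, hr⟩ := hp
  have : CharZero K := charZero_of_injective_algebraMap (algebraMap k K).injective
  have : CharZero Y.F := charZero_of_injective_algebraMap (algebraMap k Y.F).injective
  have hn3 : 3 ≤ n := by omega
  have hn' : 3 ≤ n - 1 := by omega
  choose φ₁ hφ₁ using fun i : {q : ℕ × BR Y.F × BR X.F // q.1 ∈ Λ.primeFactors ∧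
      X.Match Y q.2.1 q.2.2 ∧ Prim q.1 q.2.1 ∧ Prim q.1 q.2.2} =>
    exists_rep h5 hY hn' j i.2.2.1.1
  choose φ₂ hφ₂ using fun i : {a : BR Y.F // a ∈ Y.var.Brauer ∧ Cop Λ a} =>
    exists_rep h5 hY hn' j i.2.1
  have hF : Fams (Atot (AlgebraicClosure K) (Y.var.JK K)) Λ.primeFactors (Var.deg p)
      (fun i => i.1.1) φ₁ φ₂ :=
    ⟨fun q hq => (Nat.prime_of_mem_primeFactors hq).pos,
      fun q hq q' hq' hne => (Nat.coprime_primes (Nat.prime_of_mem_primeFactors hq)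
        (Nat.prime_of_mem_primeFactors hq')).2 hne,
      fun i => i.2.1,
      fun i => i.2.2.2.1.imp fun e he => (hφ₁ i).kill h3 h4 hY hn' i.2.2.1.1 he,
      fun i => by
        obtain ⟨m, hm, hc, h0⟩ := cop_pos h6 i.2.2
        exact ⟨m, hm, fun q hq => hc.coprime_dvd_right (Nat.dvd_of_mem_primeFactors hq),
          umain_cop hc hr, (hφ₂ i).kill h3 h4 hY hn' i.2.1 h0⟩⟩
  obtain ⟨z', hz', hd1, ha, hb⟩ := Charts.finish hK (charts_of Y.var K h1 h2 hY hn') hF hH.2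
    inf_le_right (fun i => j (Var.pair z i.1.2.2 - Var.pair y i.1.2.1))
    (fun l hl s hs => by
      obtain ⟨w, hw, hw0, hq⟩ := h l (Nat.prime_of_mem_primeFactors hl)
        (Nat.dvd_of_mem_primeFactors hl) (s.image fun i => i.1.2) fun q hq => by
          obtain ⟨i, hi, rfl⟩ := Finset.mem_image.1 hq
          exact hs i hi ▸ i.2.2
      refine ⟨_, ⟨hw, ?_⟩, fun i hi => ?_⟩
      · change (Y.var.cyc K w).2 = 0
        rw [cyc_snd, hw0, Int.cast_zero]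
      · rw [hφ₁, hq _ (Finset.mem_image_of_mem _ hi)])
    (cyc_mem y) (by rw [cyc_snd, hy, Int.cast_one]) (cyc_mem p) (cyc_snd p)
  obtain ⟨w, rfl⟩ := cyc_surj hz'
  refine ⟨w, by exact_mod_cast (cyc_snd w).symm.trans hd1, fun a b hm hpa hpb => ?_,
    fun a hB hc => (umain_zs (A := BR K) hj (hφ₂ ⟨a, hB, hc⟩ w) (hφ₂ ⟨a, hB, hc⟩ p)
      (hb ⟨a, hB, hc⟩) :)⟩
  refine umain_end hΛ (fun a => Var.pair w a) (fun b => Var.pair z b) hpa hpb
    (pair_nsmul h3 h4 hY hn' w hm.1) (pair_nsmul h3 h4 hX hn3 z hm.2.1) fun l c hl hd hla hlb => ?_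
  have hi := match_nsmul h3 hX hn3 hY hn' hf hm c
  have hl' := Nat.mem_primeFactors.2 ⟨hl, hd, hΛ⟩
  exact umain_sub hj (hφ₁ ⟨(l, c • a, c • b), hl', hi, hla, hlb⟩ w)
    (hφ₁ ⟨(l, c • a, c • b), hl', hi, hla, hlb⟩ y) (ha ⟨(l, c • a, c • b), hl', hi, hla, hlb⟩)

end Pool.Agent.ZCy.U
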