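import Pool.Agent.Lib.MP_751085_ag.ZC.UUld
import Pool.Agent.Lib.MP_751085_ag.ZC.UFm

/-! Moving points into a hypersurface section. -/

namespace Pool.Agent.ZCy.U

open Polynomial Module Pool.Agent.ZeroCyc Filter Topology
open scoped Classical IntermediateField DualNumber

set_option linter.unusedSectionVars false

variable {k K Λ : Type} [Field k] [Field K] [CharZero K] [TopologicalSpace K] [NormedField Λ]
  [IsAlgClosed Λ] [Algebra k K] [Algebra k Λ] [Algebra K Λ] [IsScalarTower k K Λ] [IsGalois K Λ]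
  [LocF K Λ] {N n : ℕ} {J : Ideal (MvPolynomial (Fin (N + 1)) K)}

/-- monomials of degree `d` -/
abbrev MvI (N d : ℕ) : Type := ↥((Finset.univ : Finset (Fin (N + 1))).finsuppAntidiag d)

theorem mv_sum {R S : Type} [CommRing R] [CommRing S] {d : ℕ} {f : MvPolynomial (Fin (N + 1)) R}
    (hf : f.IsHomogeneous d) (ψ : R →+* S) (v : Fin (N + 1) → S) :
    MvPolynomial.eval₂ ψ v f = ∑ m : MvI N d, ψ (cfs f m.1) * ∏ i, v i ^ m.1 i := by
  rw [MvPolynomial.eval₂_eq', Finset.sum_coe_sort _ fun m => ψ (cfs f m) * ∏ i, v i ^ m i]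
  refine Finset.sum_subset (fun m hm => ?_) fun m _ hm => ?_
  · rw [Finset.mem_finsuppAntidiag]
    refine ⟨?_, Finset.subset_univ _⟩
    by_contra h
    exact MvPolynomial.mem_support_iff.1 hm (hf.coeff_eq_zero (by rwa [Finsupp.degree_eq_sum]))
  · rw [MvPolynomial.notMem_support_iff.1 hm, map_zero, zero_mul]

theorem mv_smul {R S : Type} [CommRing R] [CommRing S] {d : ℕ} {f : MvPolynomial (Fin (N + 1)) R}
    (hf : f.IsHomogeneous d) (ψ : R →+* S) (c : S) (v : Fin (N + 1) → S) :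
    MvPolynomial.eval₂ ψ (c • v) f = c ^ d * MvPolynomial.eval₂ ψ v f := by
  rw [mv_sum hf, mv_sum hf, Finset.mul_sum]
  refine Finset.sum_congr rfl fun m _ => ?_
  have hm : ∑ i, m.1 i = d := (Finset.mem_finsuppAntidiag.1 m.2).1
  simp only [Pi.smul_apply, smul_eq_mul, mul_pow, Finset.prod_mul_distrib,
    Finset.prod_pow_eq_pow_sum, hm]
  ring

theorem mv_dual {R T : Type} [CommRing R] [Field T] (ψ : R →+* T) (p : R[X]) (a s : T)
    (h0 : p.eval₂ ((TrivSqZeroExt.inlHom T T).comp ψ)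
      (TrivSqZeroExt.inl a + TrivSqZeroExt.inr s : T[ε]) = 0)
    (h1 : (derivative p).eval₂ ψ a ≠ 0) : s = 0 := by
  have e (q : R[X]) : (q.map ((TrivSqZeroExt.inlHom T T).comp ψ)).eval (TrivSqZeroExt.inl a) =
      TrivSqZeroExt.inl (q.eval₂ ψ a) := by
    rw [← eval₂_eq_eval_map]
    exact (hom_eval₂ q ψ (TrivSqZeroExt.inlHom T T) a).symm
  rw [eval₂_eq_eval_map, eval_add_of_sq_eq_zero _ _ _ (by rw [sq, TrivSqZeroExt.inr_mul_inr]),
    derivative_map, e, e] at h0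
  have h2 := congrArg TrivSqZeroExt.snd h0
  simp only [TrivSqZeroExt.snd_add, TrivSqZeroExt.snd_inl, zero_add, TrivSqZeroExt.inl_mul_inr,
    TrivSqZeroExt.snd_inr, smul_eq_mul, TrivSqZeroExt.snd_zero] at h2
  exact (mul_eq_zero.1 h2).resolve_left h1

namespace LCh

variable (𝒞 : LCh k Λ J n) (i₀ : Fin n) (μ : K[X]) (e : ℕ)

/-- the two equations -/
noncomputable def mvE {S : Type} [CommRing S] {d : ℕ} (φ : k →+* S) (a : MvI N d → S)
    (y : Fin n → S) (h : S) : Fin 2 → S :=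
  ![ev2 φ y h 𝒞.χ, ∑ m, a m * ∏ i, 𝒞.pv φ y h i ^ m.1 i]

theorem mv_map {S T : Type} [CommRing S] [CommRing T] {d : ℕ} (φ : k →+* S) (ψ : S →+* T)
    (a : MvI N d → S) (y : Fin n → S) (h : S) (j : Fin 2) :
    ψ (𝒞.mvE φ a y h j) = 𝒞.mvE (ψ.comp φ) (fun m => ψ (a m)) (fun i => ψ (y i)) (ψ h) j := by
  fin_cases j
  · exact map_ev2 _ _ _ _ _
  · simp only [mvE, Fin.mk_one, Matrix.cons_val_one, Matrix.cons_val_zero, map_sum, map_mul,
      map_prod, map_pow, 𝒞.map_pv]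

theorem mv_der {y : Fin n → Λ} {h : Λ} (h0 : ev2 (algebraMap k Λ) y h 𝒞.χ = 0)
    (hD : MvPolynomial.aeval y 𝒞.D ≠ 0) : ev2 (algebraMap k Λ) y h (derivative 𝒞.χ) ≠ 0 := by
  intro h1
  apply hD
  rw [MvPolynomial.aeval_def, ← ev2_C _ y h, 𝒞.bez, map_add, map_mul, map_mul, h0, h1, mul_zero,
    mul_zero, add_zero]

/-- the system has no solution in dual numbers -/
theorem mv_inj {y : Fin n → Λ} {h : Λ} (h0 : ev2 (algebraMap k Λ) y h 𝒞.χ = 0)
    (hD : MvPolynomial.aeval y 𝒞.D ≠ 0) (h1 : aeval (y i₀) (derivative μ) ≠ 0) (s s' : Λ)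
    (H : ∀ j, 𝒞.mvE ((TrivSqZeroExt.inlHom Λ Λ).comp (algebraMap k Λ))
      (fun m : MvI N (𝒞.d * μ.natDegree + e) =>
        TrivSqZeroExt.inl (algebraMap K Λ (cfs (𝒞.fm i₀ μ e) m.1)))
      (Function.update (fun i => TrivSqZeroExt.inl (y i)) i₀
        (TrivSqZeroExt.inl (y i₀) + TrivSqZeroExt.inr s))
      (TrivSqZeroExt.inl h + TrivSqZeroExt.inr s' : Λ[ε]) j = 0) : s = 0 ∧ s' = 0 := by
  set Y : Fin n → Λ[ε] := Function.update (fun i => TrivSqZeroExt.inl (y i)) i₀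
    (TrivSqZeroExt.inl (y i₀) + TrivSqZeroExt.inr s) with hY
  set ψ : K →+* Λ[ε] := (TrivSqZeroExt.inlHom Λ Λ).comp (algebraMap K Λ) with hψ
  have eψ : (TrivSqZeroExt.inlHom Λ Λ).comp (algebraMap k Λ) = ψ.comp (algebraMap k K) := by
    rw [hψ, RingHom.comp_assoc, ← IsScalarTower.algebraMap_eq]
  have H0 : ev2 _ Y _ 𝒞.χ = 0 := H 0
  have H1 : ∑ m : MvI N (𝒞.d * μ.natDegree + e), ψ (cfs (𝒞.fm i₀ μ e) m.1) *
    ∏ i, 𝒞.pv _ Y _ i ^ m.1 i = 0 := H 1
  rw [eψ] at H0 H1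
  rw [← mv_sum (𝒞.fm_hom i₀ μ e), 𝒞.fm_pv i₀ μ e ψ H0] at H1
  have hu (g : MvPolynomial (Fin (N + 1)) k)
      (hg : MvPolynomial.aeval (fun i => ev2 (algebraMap k Λ) y h (𝒞.pp i)) g ≠ 0) :
      IsUnit (MvPolynomial.eval₂ (ψ.comp (algebraMap k K)) (𝒞.pv (ψ.comp (algebraMap k K)) Y
        (TrivSqZeroExt.inl h + TrivSqZeroExt.inr s')) g) := by
    let F : Λ[ε] →+* Λ := (TrivSqZeroExt.fstHom Λ Λ Λ).toRingHom
    have eF : F.comp (ψ.comp (algebraMap k K)) = algebraMap k Λ := by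
      rw [← eψ]; rfl
    have eY : (fun i => F (Y i)) = y := by
      funext i
      by_cases hi : i = i₀
      · subst hi
        simp [hY, F]
      · simp [hY, F, Function.update_of_ne hi]
    have eh : F (TrivSqZeroExt.inl h + TrivSqZeroExt.inr s') = h := by simp [F]
    rw [TrivSqZeroExt.isUnit_iff_isUnit_fst, isUnit_iff_ne_zero]
    change F _ ≠ 0
    rw [MvPolynomial.hom_eval₂]
    simp only [𝒞.map_pv, eF, eY, eh]
    exact hg
  obtain ⟨n0, nl⟩ := 𝒞.ne y h h0 hD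
  rw [((hu _ nl).pow e).mul_left_eq_zero, ((hu _ n0).pow _).mul_right_eq_zero, hY,
    Function.update_self] at H1
  have hs : s = 0 := mv_dual (algebraMap K Λ) μ _ _ H1 h1
  refine ⟨hs, mv_dual (MvPolynomial.eval₂Hom (algebraMap k Λ) y) 𝒞.χ h s' ?_ (𝒞.mv_der h0 hD)⟩
  rw [← eψ, hY, hs, TrivSqZeroExt.inr_zero, add_zero, Function.update_eq_self] at H0
  rw [MvPolynomial.comp_eval₂Hom]
  exact H0

theorem move (hc : IsCone Λ J) {L : IntermediateField K Λ} [FiniteDimensional K L]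
    {x : Fin (N + 1) → L} (hx : PtL J L (up x)) (hin : 𝒞.In (up x))
    (h0 : aeval (𝒞.xi (up x) i₀) μ = 0) (h1 : aeval (𝒞.xi (up x) i₀) (derivative μ) ≠ 0)
    {W : Set (Fin (N + 1) → L)} (hW : W ∈ 𝓝 x) :
    ∀ᶠ a in 𝓝 (cfs (𝒞.fm i₀ μ e)), ∀ f : MvPolynomial (Fin (N + 1)) K,
      f.IsHomogeneous (𝒞.d * μ.natDegree + e) → cfs f = a →
        ∃ x' ∈ W, PtL J L (up x') ∧ MvPolynomial.aeval (up x') f = 0 := by
  let := nnf L
  have : ProperSpace L := LocF.proper L inferInstance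
  set φ : L →+* Λ := algebraMap L Λ with hφ
  have hi : Function.Injective φ := φ.injective
  have ek : φ.comp (algebraMap k L) = algebraMap k Λ := rfl
  have eK : φ.comp (algebraMap K L) = algebraMap K Λ := rfl
  obtain ⟨ey, eθ⟩ := 𝒞.map_xi (⟨φ, fun _ => rfl⟩ : L →ₐ[k] Λ) x
  replace ey : (fun i => φ (𝒞.xi x i)) = 𝒞.xi (up x) := _root_.funext ey
  replace eθ : φ (𝒞.th x) = 𝒞.th (up x) := eθ
  set y := 𝒞.xi x
  set θ := 𝒞.th x
  have hon := hin.on hx.on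
  obtain ⟨c, hc0, hcx⟩ := hin.pv hx.on
  have epv (i) : φ (𝒞.pv (algebraMap k L) y θ i) = c * φ (x i) := by
    rw [𝒞.map_pv, ek, ey, eθ, hcx]; rfl
  obtain ⟨i₁, hi₁⟩ := Function.ne_iff.1 hx.ne
  replace hi₁ : φ (x i₁) ≠ 0 := hi₁
  obtain ⟨c', hc'⟩ : ∃ c' : L, φ c' = c⁻¹ := ⟨x i₁ / 𝒞.pv (algebraMap k L) y θ i₁, by
    rw [map_div₀, epv]; field_simp⟩
  let ι := MvI N (𝒞.d * μ.natDegree + e)
  let R := MvPolynomial (ι ⊕ Fin 2) L
  let Y : Fin n → R := Function.update (fun i => MvPolynomial.C (y i)) i₀ (MvPolynomial.X (.inr 0))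
  let φk : k →+* R := MvPolynomial.C.comp (algebraMap k L)
  have key {T : Type} [CommRing T] (ψ : L →+* T) (z : ι ⊕ Fin 2 → T) :
      (MvPolynomial.eval₂Hom ψ z).comp φk = ψ.comp (algebraMap k L) ∧
      (fun i => MvPolynomial.eval₂Hom ψ z (Y i)) =
        Function.update (fun i => ψ (y i)) i₀ (z (.inr 0)) := by
    refine ⟨RingHom.ext fun a => MvPolynomial.eval₂_C _ _ _, _root_.funext fun i => ?_⟩
    by_cases h : i = i₀
    · subst h
      simp [Y]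
    · simp [Y, Function.update_of_ne h]
  let P : Fin 2 → R := 𝒞.mvE φk (fun m => MvPolynomial.X (.inl m)) Y (MvPolynomial.X (.inr 1))
  have eP {T : Type} [CommRing T] (ψ : L →+* T) (z : ι ⊕ Fin 2 → T) (j) :
      MvPolynomial.eval₂ ψ z (P j) = 𝒞.mvE (ψ.comp (algebraMap k L)) (fun m => z (.inl m))
        (Function.update (fun i => ψ (y i)) i₀ (z (.inr 0))) (z (.inr 1)) j := by
    have := 𝒞.mv_map φk (MvPolynomial.eval₂Hom ψ z) (fun m : ι => MvPolynomial.X (.inl m)) Y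
      (MvPolynomial.X (.inr 1)) j
    have eX (s) : MvPolynomial.eval₂Hom ψ z (MvPolynomial.X s : R) = z s :=
      MvPolynomial.eval₂_X _ _ _
    rw [(key ψ z).1, (key ψ z).2, eX, _root_.funext fun m => eX (.inl m)] at this
    exact this
  have eP' (z : ι ⊕ Fin 2 → L) (j) : φ (MvPolynomial.eval z (P j)) =
      𝒞.mvE (algebraMap k Λ) (fun m => φ (z (.inl m)))
        (Function.update (𝒞.xi (up x)) i₀ (φ (z (.inr 0)))) (φ (z (.inr 1))) j := by
    rw [← ey, ← ek, ← eP φ (fun s => φ (z s)) j]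
    exact MvPolynomial.hom_eval₂ _ (RingHom.id L) φ z
  let g : (ι ⊕ Fin 2 → L) → Fin (N + 1) → L := fun z i =>
    c' * MvPolynomial.eval z (𝒞.pv φk Y (MvPolynomial.X (.inr 1)) i)
  have eg (z : ι ⊕ Fin 2 → L) : up (g z) = c⁻¹ • 𝒞.pv (algebraMap k Λ)
      (Function.update (𝒞.xi (up x)) i₀ (φ (z (.inr 0)))) (φ (z (.inr 1))) := by
    funext i
    have := 𝒞.map_pv φk (MvPolynomial.eval₂Hom φ fun s => φ (z s)) Y (MvPolynomial.X (.inr 1)) i
    rw [(key φ _).1, (key φ _).2, MvPolynomial.eval₂Hom_X', ek, ey] at this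
    show φ (c' * _) = c⁻¹ * _
    rw [map_mul, hc', ← this]
    exact congrArg _ (MvPolynomial.hom_eval₂ _ (RingHom.id L) φ z)
  have hg : Continuous g := continuous_pi fun i =>
    continuous_const.mul (MvPolynomial.continuous_eval _)
  let pm : ((Fin (N + 1) →₀ ℕ) → K) → ι → L := fun a m => algebraMap K L (a m.1)
  have hpm : Continuous pm := continuous_pi fun m =>
    (LocF.cont.subtype_mk fun a => L.algebraMap_mem a).comp (continuous_apply m.1)
  let v₀ : Fin 2 → L := ![y i₀, θ]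
  have e0 : Function.update (𝒞.xi (up x)) i₀ (φ (y i₀)) = 𝒞.xi (up x) := by
    rw [congrFun ey i₀, Function.update_eq_self]
  have g0 : g (Sum.elim (pm (cfs (𝒞.fm i₀ μ e))) v₀) = x := by
    funext i
    apply hi
    refine (congrFun (eg _) i).trans ?_
    show (c⁻¹ • 𝒞.pv _ (Function.update _ i₀ (φ (y i₀))) (φ θ)) i = _
    rw [e0, eθ, hcx, inv_smul_smul₀ hc0]
    rfl
  have hx0 : x ≠ 0 := fun h => hi₁ (by rw [h]; exact map_zero φ)
  have hW' : g ⁻¹' (W ∩ {0}ᶜ) ∈ 𝓝 (Sum.elim (pm (cfs (𝒞.fm i₀ μ e))) v₀) :=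
    hg.continuousAt.preimage_mem_nhds (by
      rw [g0]; exact inter_mem hW (isOpen_compl_singleton.mem_nhds hx0))
  have ekK : algebraMap k Λ = (algebraMap K Λ).comp (algebraMap k K) :=
    IsScalarTower.algebraMap_eq k K Λ
  have main := ift φ P (pm (cfs (𝒞.fm i₀ μ e))) v₀ rfl (fun j => ?_) (fun w hw => ?_) hW'
  · filter_upwards [hpm.continuousAt.eventually main] with a ha f hf hfa
    obtain ⟨v, ⟨hvW, hv0⟩, hv⟩ := ha
    have E0 := eP' (Sum.elim (pm a) v) 0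
    have E1 := eP' (Sum.elim (pm a) v) 1
    rw [hv, map_zero] at E0 E1
    refine ⟨_, hvW, ⟨fun h => hv0 (_root_.funext fun i => hi ((congrFun h i).trans (map_zero φ).symm)),
      ?_, fun i => (g _ i).2⟩, ?_⟩
    · rw [eg]
      exact hc _ _ (𝒞.onX_pv E0.symm)
    · rw [eg, MvPolynomial.aeval_def, mv_smul hf, mv_sum hf, hfa]
      exact mul_eq_zero_of_right _ E1.symm
  · apply hi
    rw [eP', map_zero]
    show 𝒞.mvE _ (fun m : ι => algebraMap K Λ (cfs (𝒞.fm i₀ μ e) m.1))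
      (Function.update _ i₀ (φ (y i₀))) (φ θ) j = 0
    rw [e0, eθ]
    fin_cases j
    · exact hon
    · refine (mv_sum (𝒞.fm_hom i₀ μ e) (algebraMap K Λ) _).symm.trans ?_
      rw [ekK] at hon ⊢
      rw [𝒞.fm_pv i₀ μ e _ hon, ← aeval_def, h0, mul_zero, zero_mul]
  · have := 𝒞.mv_inj i₀ μ e hon hin.2 h1 (φ (w 0)) (φ (w 1)) fun j => by
      have h := hw j
      rw [eP] at h
      rw [← ey, ← eθ]
      exact h
    funext j
    fin_cases j
    · exact hi (this.1.trans (map_zero φ).symm)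
    · exact hi (this.2.trans (map_zero φ).symm)

end LCh

/-- one chart for all points, `exists_sep`, `move` -/
theorem Charts.exists_form (hJ : Charts k Λ J n) (hn : 0 < n) {T : Type} [Finite T]
    (L : T → IntermediateField K Λ) (hL : ∀ j, FiniteDimensional K (L j))
    (x : ∀ j, Fin (N + 1) → L j) (hx : ∀ j, PtL J (L j) (up (x j)))
    (W : ∀ j, Set (Fin (N + 1) → L j)) (hW : ∀ j, W j ∈ 𝓝 (x j)) :
    ∃ d₁, ∀ d, d₁ ≤ d → ∃ fv : MvPolynomial (Fin (N + 1)) K, fv.IsHomogeneous d ∧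
      ∀ᶠ a in 𝓝 (cfs fv), ∀ f : MvPolynomial (Fin (N + 1)) K, f.IsHomogeneous d → cfs f = a →
        ∀ j, ∃ x' ∈ W j, PtL J (L j) (up x') ∧ MvPolynomial.aeval (up x') f = 0 := by
  obtain ⟨𝒞, h𝒞⟩ := hJ.ex (Set.finite_range fun j => up (x j)).toFinset fun v hv => by
    obtain ⟨j, rfl⟩ := (Set.Finite.mem_toFinset _).1 hv
    exact ⟨(hx j).ne, (hx j).on⟩
  obtain ⟨μ, hμ⟩ := exists_sep (K := K) fun j => 𝒞.xi (up (x j)) ⟨0, hn⟩
  refine ⟨𝒞.d * μ.natDegree, fun d hd => ?_⟩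
  obtain ⟨e, rfl⟩ := Nat.exists_eq_add_of_le hd
  refine ⟨_, 𝒞.fm_hom ⟨0, hn⟩ μ e, ?_⟩
  have h := eventually_all.2 fun j => 𝒞.move ⟨0, hn⟩ μ e hJ.cone (hx j)
    (h𝒞 _ ((Set.Finite.mem_toFinset _).2 ⟨j, rfl⟩)) (hμ j).1 (hμ j).2 (hW j)
  exact h.mono fun a ha f hf hfa j => ha j f hf hfa

end Pool.Agent.ZCy.U
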