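import Mathlib

/-! Integral elements of bounded degree form a totally bounded set. -/

namespace Pool.Agent.ZCy.U

open Polynomial Module
open scoped Classical IntermediateField

set_option linter.unusedSectionVars false

variable {K Λ : Type} [NontriviallyNormedField K] [ProperSpace K] [CharZero K] [NormedField Λ]
  [IsUltrametricDist Λ] [NormedAlgebra K Λ] [IsAlgClosed Λ] [IsGalois K Λ]

/-- The monic polynomial of degree `d` with lower coefficients `c`. -/
noncomputable def net_q {d : ℕ} (c : Fin d → K) : Λ[X] :=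
  X ^ d + ∑ i : Fin d, C (algebraMap K Λ (c i)) * X ^ (i : ℕ)

theorem net_q_lt {d : ℕ} (c : Fin d → K) :
    (∑ i : Fin d, C (algebraMap K Λ (c i)) * X ^ (i : ℕ) : Λ[X]).degree < d :=
  degree_sum_fin_lt _

theorem net_q_monic {d : ℕ} (c : Fin d → K) : (net_q (Λ := Λ) c).Monic :=
  monic_X_pow_add (net_q_lt c)

theorem net_q_deg {d : ℕ} (c : Fin d → K) : (net_q (Λ := Λ) c).natDegree = d := by
  have h : (net_q (Λ := Λ) c).degree = d := by
    unfold net_q
    rw [degree_add_eq_left_of_degree_lt, degree_X_pow]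
    rw [degree_X_pow]
    exact net_q_lt c
  exact natDegree_eq_of_degree_eq_some h

theorem net_q_eval {d : ℕ} (c : Fin d → K) (y : Λ) :
    (net_q (Λ := Λ) c).eval y = y ^ d + ∑ i : Fin d, algebraMap K Λ (c i) * y ^ (i : ℕ) := by
  simp [net_q, eval_finsetSum]

theorem net_root {q : Λ[X]} (hq : q.Monic) {ε : ℝ} (hε : 0 < ε) (y : Λ)
    (h : ‖q.eval y‖ < ε ^ q.natDegree) : ∃ z ∈ q.roots, ‖y - z‖ < ε := by
  by_contra hc
  push Not at hc
  have hs : q.Splits := IsAlgClosed.splits q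
  have h1 : q.eval y = (q.roots.map fun z => y - z).prod := by
    conv_lhs => rw [hs.eq_prod_roots_of_monic hq]
    simp [eval_multiset_prod]
  have h2 : ∀ s : Multiset Λ, (∀ z ∈ s, ε ≤ ‖y - z‖) →
      ε ^ s.card ≤ ‖(s.map fun z => y - z).prod‖ := by
    intro s
    induction s using Multiset.induction_on with
    | empty => simp
    | cons a s ih =>
      intro hs
      rw [Multiset.map_cons, Multiset.prod_cons, norm_mul, Multiset.card_cons, pow_succ']
      exact mul_le_mul (hs a (Multiset.mem_cons_self _ _))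
        (ih fun z hz => hs z (Multiset.mem_cons_of_mem hz)) (by positivity) (norm_nonneg _)
  have h3 := h2 q.roots hc
  rw [← h1, ← hs.natDegree_eq_card_roots] at h3
  exact absurd h (not_lt.mpr h3)

theorem net_coeff (hσ : ∀ (σ : Λ ≃ₐ[K] Λ) x, ‖σ x‖ = ‖x‖) {y : Λ} (hy : ‖y‖ ≤ 1) {d : ℕ}
    (hd : (minpoly K y).natDegree = d) (i : ℕ) :
    ‖(minpoly K y).coeff i‖ ≤ d.choose (d / 2) := by
  have ha : IsAlgebraic K y := Algebra.IsAlgebraic.isAlgebraic y
  have h := coeff_bdd_of_roots_le (B := 1) (algebraMap K Λ) (minpoly.monic ha.isIntegral)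
    (IsAlgClosed.splits _) hd.le (fun z hz => by
      have hz' : aeval z (minpoly K y) = 0 := by
        have := (mem_roots'.mp hz).2
        rwa [IsRoot.def, eval_map_algebraMap] at this
      obtain ⟨σ, rfl⟩ := minpoly.exists_algEquiv_of_root' ha hz'
      rw [hσ]
      exact hy) i
  simpa using h

theorem net_deg (hσ : ∀ (σ : Λ ≃ₐ[K] Λ) x, ‖σ x‖ = ‖x‖) (d : ℕ) {ε : ℝ} (hε : 0 < ε) :
    ∃ R : Finset Λ, ∀ y : Λ, ‖y‖ ≤ 1 → (minpoly K y).natDegree = d → ∃ z ∈ R, ‖y - z‖ < ε := by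
  have hη : 0 < ε ^ d / (d + 1) := by positivity
  obtain ⟨T, -, hT, hcov⟩ := (isCompact_closedBall (0 : Fin d → K)
    (d.choose (d / 2))).finite_cover_balls hη
  refine ⟨hT.toFinset.biUnion fun c => (net_q (Λ := Λ) c).roots.toFinset, fun y hy hd => ?_⟩
  have ha : IsIntegral K y := (Algebra.IsAlgebraic.isAlgebraic y).isIntegral
  set a : Fin d → K := fun i => (minpoly K y).coeff i with ha_def
  have hmem : a ∈ Metric.closedBall (0 : Fin d → K) (d.choose (d / 2)) := by
    rw [mem_closedBall_zero_iff, pi_norm_le_iff_of_nonneg (by positivity)]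
    exact fun i => net_coeff hσ hy hd i
  obtain ⟨c, hc, hac⟩ := Set.mem_iUnion₂.mp (hcov hmem)
  have h0 : y ^ d + ∑ i : Fin d, algebraMap K Λ (a i) * y ^ (i : ℕ) = 0 := by
    have h := minpoly.aeval K y
    rw [aeval_eq_sum_range, Finset.sum_range_succ, (minpoly.monic ha).coeff_natDegree, hd,
      one_smul, add_comm, Finset.sum_range] at h
    simpa [ha_def, Algebra.smul_def] using h
  have h1 : (net_q (Λ := Λ) c).eval y = ∑ i : Fin d, algebraMap K Λ (c i - a i) * y ^ (i : ℕ) := by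
    rw [net_q_eval, eq_neg_of_add_eq_zero_left h0]
    simp only [map_sub, sub_mul, Finset.sum_sub_distrib]
    ring
  have h2 : ‖(net_q (Λ := Λ) c).eval y‖ < ε ^ (net_q (Λ := Λ) c).natDegree := by
    rw [h1, net_q_deg]
    have h3 : ∀ i : Fin d, ‖algebraMap K Λ (c i - a i) * y ^ (i : ℕ)‖ ≤ ε ^ d / (d + 1) := by
      intro i
      rw [norm_mul, norm_algebraMap', norm_pow]
      have h4 : ‖c i - a i‖ ≤ ε ^ d / (d + 1) := by
        rw [← dist_eq_norm, dist_comm]
        exact (dist_le_pi_dist a c i).trans (Metric.mem_ball.mp hac).le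
      calc _ ≤ ε ^ d / (d + 1) * 1 :=
            mul_le_mul h4 (pow_le_one₀ (norm_nonneg _) hy) (by positivity) hη.le
        _ = _ := mul_one _
    calc _ ≤ ∑ i : Fin d, ‖algebraMap K Λ (c i - a i) * y ^ (i : ℕ)‖ := norm_sum_le _ _
      _ ≤ ∑ _i : Fin d, ε ^ d / (d + 1) := Finset.sum_le_sum fun i _ => h3 i
      _ = d * (ε ^ d / (d + 1)) := by simp
      _ < (d + 1) * (ε ^ d / (d + 1)) := mul_lt_mul_of_pos_right (lt_add_one _) hη
      _ = ε ^ d := by field_simp
  obtain ⟨z, hz, hyz⟩ := net_root (net_q_monic c) hε y h2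
  exact ⟨z, Finset.mem_biUnion.mpr ⟨c, hT.mem_toFinset.mpr hc, Multiset.mem_toFinset.mpr hz⟩, hyz⟩

/-- Degree by degree: roots of the monic polynomials of a finite net of coefficient vectors. -/
theorem exists_net (hσ : ∀ (σ : Λ ≃ₐ[K] Λ) x, ‖σ x‖ = ‖x‖) (Γ : ℕ) {ε : ℝ} (hε : 0 < ε) :
    ∃ R : Finset Λ, ∀ y : Λ, ‖y‖ ≤ 1 → (minpoly K y).natDegree ≤ Γ → ∃ z ∈ R, ‖y - z‖ < ε := by
  choose R hR using fun d => net_deg hσ d hε
  refine ⟨(Finset.range (Γ + 1)).biUnion R, fun y hy hd => ?_⟩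
  obtain ⟨z, hz, hyz⟩ := hR _ y hy rfl
  exact ⟨z, Finset.mem_biUnion.mpr ⟨_, Finset.mem_range.mpr (Nat.lt_succ_of_le hd), hz⟩, hyz⟩

end Pool.Agent.ZCy.U
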