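import Pool.Agent.Lib.MP_751085_ag.ZC.USys
import Pool.Agent.Lib.MP_796ce4_ag.ZY.CvJ

/-! Non-special divisors. -/

namespace Pool.Agent.ZCy.U

open Polynomial Pool.Agent.ZeroCyc
open scoped Classical

variable {Λ : Type} [Field Λ] [IsAlgClosed Λ]

/-- `E` imposes independent conditions -/
def NS (c : Cv Λ) (E : Λ × Λ →₀ ℤ) : Prop :=
  ∀ u : Λ[X], u.Monic → IsCoprime u c.ρ → E ≤ dv c.χ (C u) →
    c.Vs u.natDegree (dv c.χ (C u) - E) = ⊥

/-- Sketch: let `a₁` be in `Vs (deg u) (dv u - E)`, `s = C v * a₁`, `Z = dv v - E`. Then `s`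
vanishes along `dv u + Z` (`VanZ.mul`, `Lead.vanZ_dv`); `Cv.exists_div` with `r = 0` and the roles
`u := v`, `v := u` gives `a` in `Wsp`, `χ ∣ C u * a - s`, `VanZ Z (ρ a)`; `cvp_vanZ_cancel`, so
`a = 0`, so `χ ∣ s`, and `s` has degree `< δ`. -/
theorem ns_of_vs {c : Cv Λ} {E : Λ × Λ →₀ ℤ} {v : Λ[X]} (hv : v.Monic)
    (hv' : IsCoprime v c.ρ) (hE : E ≤ dv c.χ (C v)) (hE' : E ∈ c.Dv)
    (h : c.Vs v.natDegree (dv c.χ (C v) - E) = ⊥) : NS c E := by
  intro u hu hu' hEu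
  rw [Submodule.eq_bot_iff] at h ⊢
  intro a₁ ha₁
  have hY := sub_mem (Cv.dv_C_mem hu hu') hE'
  have hZ := sub_mem (Cv.dv_C_mem hv hv') hE'
  have h1 : VanZ c.χ (dv c.χ (C v) + (dv c.χ (C u) - E)) (C v * a₁) :=
    ((lead_C hv).vanZ_dv c.wt).mul (fun Q e => ⟨(hY Q e).et, ha₁.2 Q e⟩) (dv_nonneg _ _)
      (sub_nonneg.2 hEu)
  rw [show dv c.χ (C v) + (dv c.χ (C u) - E) = dv c.χ (C u) + (dv c.χ (C v) - E) by abel] at h1
  obtain ⟨a, ha, hd, hz⟩ := Cv.exists_div hv hu hu' 0 (s := C v * a₁)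
    (add_comm u.natDegree _ ▸ ha₁.1.2.C_mul le_rfl) (sub_nonneg.2 hE) (fun Q e => ⟨(h1 Q e).1, by
      simpa only [Cv.G, map_zero, zero_mul, zero_add] using (h1 Q e).2.mul_left (C c.ρ)⟩)
  simp only [Cv.G, map_zero, zero_mul, zero_add] at hz
  replace hd := dvd_sub_comm.1 hd
  rw [h a ⟨ha, fun Q e => (Cv.cvp_vanZ_cancel hZ hz Q e).2⟩, mul_zero, sub_zero] at hd
  have h2 : C v * a₁ = 0 := eq_zero_of_dvd_of_degree_lt hd (by
    rw [degree_C_mul hv.ne_zero, degree_eq_natDegree c.wt.monic.ne_zero, c.wt.deg]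
    exact ha₁.1.1)
  exact (mul_eq_zero.1 h2).resolve_left (C_ne_zero.2 hv.ne_zero)

/-- `Cv.exists_basis` for a finite subset of `S` with `c0` elements, then `ns_of_vs` -/
theorem exists_ns {c : Cv Λ} (hi : Irreducible c.χ) {S : Set (Λ × Λ)} (hS : S.Infinite)
    (hg : ∀ Q ∈ S, c.Gp Q) (hinj : Set.InjOn Prod.fst S) : ∃ P : Fin c.g0 → Λ × Λ,
      (∀ i, P i ∈ S) ∧ Function.Injective (fun i => (P i).1) ∧
        NS c (∑ i, Finsupp.single (P i) 1) := by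
  obtain ⟨t, ht, hc⟩ := hS.exists_subset_card_eq c.c0
  have hP : ∀ j : t, c.Gp j.1 := fun j => hg _ (ht j.2)
  have hI : Function.Injective fun j : t => j.1.1 := fun i j e =>
    Subtype.ext (hinj (ht i.2) (ht j.2) e)
  obtain ⟨T, -, hT, hV⟩ := Cv.exists_basis hi hP hI Finset.univ (by simp [hc])
  let e := (T.equivFinOfCardEq hT).symm
  refine ⟨fun i => (e i).1.1, fun i => ht (e i).1.2,
    fun i j h => e.injective (Subtype.ext (hI h)), ?_⟩
  rw [e.sum_comp fun j : T => (Finsupp.single j.1.1 1 : Λ × Λ →₀ ℤ),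
    Finset.sum_coe_sort T fun j : t => (Finsupp.single j.1 1 : Λ × Λ →₀ ℤ)]
  set u : Λ[X] := ∏ j : t, (X - C j.1.1) with hu
  have hum : u.Monic := monic_prod_of_monic _ _ fun j _ => monic_X_sub_C _
  have hud : u.natDegree = Fintype.card t := by
    rw [hu, natDegree_finsetProd_X_sub_C_eq_card, Finset.card_univ]
  have huc : IsCoprime u c.ρ := Cv.cop_iff.2 fun s hs => by
    rw [hu, eval_prod, Finset.prod_eq_zero_iff] at hs
    obtain ⟨j, _, hj⟩ := hs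
    rw [eval_sub, eval_X, eval_C, sub_eq_zero] at hj
    exact hj ▸ (hP j).2
  refine ns_of_vs hum huc (fun Q => ?_) (sum_mem fun j _ Q hQ => ?_) (hud ▸ hV)
  · by_cases hQ : ∃ j ∈ T, Q = j.1
    · obtain ⟨j, hj, rfl⟩ := hQ
      rw [Cv.cvj_sum_mem Subtype.val_injective hj, dv_C c.wt hum, if_pos (hP j).et]
      have : 0 < u.rootMultiplicity j.1.1 := (rootMultiplicity_pos hum.ne_zero).2 (by
        rw [IsRoot, hu, eval_prod]
        exact Finset.prod_eq_zero (Finset.mem_univ j) (by simp))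
      omega
    · rw [Cv.cvj_sum_not fun j hj h => hQ ⟨j, hj, h⟩]
      exact dv_nonneg _ _ Q
  · by_cases h : Q = j.1
    · exact h ▸ hP j
    · exact absurd (Finsupp.single_eq_of_ne h) hQ

end Pool.Agent.ZCy.U
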