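import Pool.Agent.Lib.MP_751085_ag.ZC.UCpt
import Pool.Agent.Lib.MP_751085_ag.ZC.UBddA

/-! Realisation of a limit of classes. -/

namespace Pool.Agent.ZCy.U

open Polynomial Module Pool.Agent.ZeroCyc Filter Topology
open scoped Classical IntermediateField Pointwise

set_option linter.unusedSectionVars false

/-- sums of `e` elements of a compact set -/
theorem isCompact_nsmul {G : Type} [AddCommGroup G] [TopologicalSpace G] [ContinuousAdd G]
    {S : Set G} (h : IsCompact S) (e : ℕ) : IsCompact (e • S) := by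
  induction e with
  | zero => rw [zero_nsmul]; exact isCompact_singleton
  | succ e ih => rw [succ_nsmul]; exact ih.add h

variable {k K Λ : Type} [Field k] [Field K] [CharZero K] [TopologicalSpace K] [NormedField Λ]
  [IsAlgClosed Λ] [Algebra k K] [Algebra k Λ] [Algebra K Λ] [IsScalarTower k K Λ] [IsGalois K Λ]
  [LocF K Λ] {N n : ℕ} {J : Ideal (MvPolynomial (Fin (N + 1)) K)}

variable (J) in
/-- classes of points over extensions of degree at most `e`, and zero -/
def gens (e : ℕ) : Set (VV Λ J) :=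
  insert 0 {w | ∃ (L : IntermediateField K Λ) (v : Fin (N + 1) → Λ),
    FiniteDimensional K L ∧ finrank K L ≤ e ∧ PtL J L v ∧ w = pc J L v}

theorem real_mono {e e' : ℕ} (h : e ≤ e') : gens (Λ := Λ) J e ⊆ gens J e' := by
  refine Set.insert_subset_insert ?_
  rintro w ⟨L, v, h1, h2, h3⟩
  exact ⟨L, v, h1, h2.trans h, h3⟩

theorem real_deg {w : VV Λ J} (h : w ∈ EffM Λ J) : ∃ e : ℕ, w.2 = e ∧ w ∈ e • gens J e := by
  induction h using AddSubmonoid.closure_induction with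
  | mem w hw =>
    obtain ⟨L, v, h1, h2, rfl⟩ := hw
    exact ⟨finrank K L, pc_snd L v, Set.subset_nsmul (Set.mem_insert _ _) finrank_pos.ne'
      (Set.mem_insert_of_mem _ ⟨L, v, h1, le_rfl, h2, rfl⟩)⟩
  | zero => exact ⟨0, by simp, Set.zero_mem_nsmul (Set.mem_insert _ _)⟩
  | add a b _ _ ha hb =>
    obtain ⟨e, h1, h2⟩ := ha
    obtain ⟨e', h1', h2'⟩ := hb
    refine ⟨e + e', by rw [Prod.snd_add, h1, h1', Nat.cast_add], ?_⟩
    rw [add_nsmul]
    exact Set.add_mem_add (Set.nsmul_subset_nsmul_left (real_mono (Nat.le_add_right _ _)) h2)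
      (Set.nsmul_subset_nsmul_left (real_mono (Nat.le_add_left _ _)) h2')

theorem mem_nsmul_gens {w : VV Λ J} (h : w ∈ EffM Λ J) {e : ℕ} (he : w.2 ≤ e) :
    w ∈ e • gens J e := by
  obtain ⟨e', h1, h2⟩ := real_deg h
  have h3 : e' ≤ e := by exact_mod_cast h1.symm.trans_le he
  exact Set.nsmul_subset_nsmul (real_mono h3) (Set.mem_insert _ _) h3 h2

theorem eff_of_mem_nsmul {w : VV Λ J} {e e' : ℕ} (h : w ∈ e • gens J e') : w ∈ EffM Λ J := by
  induction e generalizing w with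
  | zero =>
    rw [zero_nsmul, Set.mem_zero] at h
    exact h ▸ zero_mem _
  | succ e ih =>
    rw [succ_nsmul] at h
    obtain ⟨a, ha, b, hb, rfl⟩ := h
    refine add_mem (ih ha) ?_
    rcases hb with rfl | ⟨L, v, h1, -, h2, rfl⟩
    · exact zero_mem _
    · exact pc_mem_eff h2

theorem Charts.isCompact_gens (hJ : Charts k Λ J n) {ι B : Type} [AddCommGroup B]
    [TopologicalSpace B] [DiscreteTopology B] (φ : ι → VV Λ J →+ B) (m : ι → ℕ)
    (hm : ∀ i, 0 < m i) (hφ : ∀ i, ∀ w ∈ Atot Λ J, m i • φ i w = 0) (e : ℕ) :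
    IsCompact ((fun w => ((fun i => φ i w), w.2)) '' gens J e) := by
  have hg : gens J e = insert 0 (⋃ L ∈ {L : IntermediateField K Λ |
      FiniteDimensional K L ∧ finrank K L ≤ e}, (fun v => pc J L (up v)) '' sph J L) := by
    refine congrArg (insert 0) (Set.ext fun w => ?_)
    simp only [Set.mem_iUnion, Set.mem_ofPred_eq, Set.mem_image, exists_prop]
    constructor
    · rintro ⟨L, v, h1, h2, h3, rfl⟩
      exact ⟨L, ⟨h1, h2⟩, exists_sph hJ.cone h3⟩
    · rintro ⟨L, ⟨h1, h2⟩, v, h3, rfl⟩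
      exact ⟨L, _, h1, h2, ptL_of_sph h3, rfl⟩
  rw [hg, Set.image_insert_eq, Set.image_iUnion₂]
  refine IsCompact.insert ((LocF.fin e).isCompact_biUnion fun L hL => ?_) _
  have := hL.1
  rw [Set.image_image]
  refine (isCompact_sph L).image_of_continuousOn (ContinuousOn.prodMk
    (continuousOn_pi.2 fun i v₀ h₀ => ?_) ?_)
  · refine tendsto_const_nhds.congr' ?_
    filter_upwards [mem_nhdsWithin_of_mem_nhds (hJ.uld L (ptL_of_sph h₀) (hm i)),
      self_mem_nhdsWithin] with v h1 h2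
    obtain ⟨y, hy, h3⟩ := h1 h2.2
    rw [eq_comm, ← sub_eq_zero, ← map_sub, ← h3, nsmulAddMonoidHom_apply, map_nsmul]
    exact hφ i y (mem_azero.1 (GD_le hy)).1
  · simp only [pc_snd]
    exact continuousOn_const

theorem Charts.real (hJ : Charts k Λ J n) {ι B : Type} [AddCommGroup B] (φ : ι → VV Λ J →+ B)
    (m : ι → ℕ) (hm : ∀ i, 0 < m i) (hφ : ∀ i, ∀ w ∈ Atot Λ J, m i • φ i w = 0)
    {H : AddSubgroup (VV Λ J)} (hH : Bdd H) (h0 : H ≤ deg0 Λ J) (τ : ι → B)
    (h : ∀ s : Finset ι, ∃ w ∈ H, ∀ i ∈ s, φ i w = τ i) :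
    ∃ w ∈ Azero Λ J, ∀ i, φ i w = τ i := by
  obtain ⟨c, hc⟩ := hH
  have hce : c ∈ EffM Λ J := zero_add c ▸ hc 0 H.zero_mem
  obtain ⟨e, he, -⟩ := real_deg hce
  let : TopologicalSpace B := ⊥
  have : DiscreteTopology B := ⟨rfl⟩
  have : ContinuousAdd B := ⟨continuous_of_discreteTopology⟩
  let Φ : VV Λ J →+ (ι → B) × ℚ := (AddMonoidHom.pi φ).prod (AddMonoidHom.snd _ _)
  have hS : IsClosed (Φ '' (e • gens J e)) := by
    rw [Set.image_nsmul]
    exact (isCompact_nsmul (hJ.isCompact_gens φ m hm hφ e) e).isClosed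
  have key : ((fun i => τ i + φ i c), c.2) ∈ Φ '' (e • gens J e) := by
    by_contra hn
    obtain ⟨s, u, hu, hs⟩ := isOpen_pi_iff.1
      (hS.isOpen_compl.preimage (Continuous.prodMk_left c.2)) _ hn
    obtain ⟨w, hw, hw'⟩ := h s
    have h2 : (w + c).2 = c.2 := by rw [Prod.snd_add, show w.2 = 0 from h0 hw, zero_add]
    refine hs (a := fun i => φ i (w + c)) (fun i hi => ?_)
      ⟨w + c, mem_nsmul_gens (hc w hw) (h2.trans he).le, Prod.ext rfl h2⟩
    show φ i (w + c) ∈ u i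
    rw [map_add, hw' i hi]
    exact (hu i hi).2
  obtain ⟨w, hw, hw'⟩ := key
  have h2 : w.2 = c.2 := (congrArg Prod.snd hw' :)
  refine ⟨w - c, mem_azero.2 ⟨sub_mem (eff_le_atot (eff_of_mem_nsmul hw)) (eff_le_atot hce),
    sub_eq_zero.2 h2⟩, fun i => ?_⟩
  rw [map_sub, sub_eq_iff_eq_add]
  exact congrFun (congrArg Prod.fst hw') i

end Pool.Agent.ZCy.U
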