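import Pool.Agent.Lib.MP_796ce4_ag.ZY.CvW

/-! The polynomial system whose solutions divide a difference of two points by `M`. -/

namespace Pool.Agent.ZCy.U

open Polynomial Pool.Agent.ZeroCyc
open scoped Classical

/-- The data of the system: `t`, `Q₁`, `Q₂` are parameters, `t'`, `η₁`, `η₂`, `β` unknowns. -/
structure Sd (I S : Type) [CommRing S] where
  t : I → S
  t' : I → S
  Q₁ : S × S
  Q₂ : S × S
  η₁ : S[X]
  η₂ : S[X]
  β : S[X]

/-- `(X - τ) ∏ (X - t i) ^ M` -/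
noncomputable def uu {I S : Type} [Fintype I] [CommRing S] (M : ℕ) (τ : S) (t : I → S) : S[X] :=
  (X - C τ) * ∏ i, (X - C (t i)) ^ M

/-- the cofactor of the branch `η` -/
noncomputable def kap {S : Type} [CommRing S] (χ : S[X][X]) (η : S[X]) : S[X][X] :=
  χ /ₘ (X - C η)

/-- reduction of all coefficients modulo `u` -/
noncomputable def cmod {S : Type} [CommRing S] (u : S[X]) (G : S[X][X]) : S[X][X] :=
  ∑ i ∈ G.support, monomial i (G.coeff i %ₘ u)

/-- the index set of the equations -/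
abbrev EqI (m δ b w : ℕ) : Type := Fin m ⊕ Fin m ⊕ Fin m ⊕ (Σ i : Fin δ, Fin (w + b * i))

namespace Sd

variable {I S T : Type} [Fintype I] [CommRing S] [CommRing T] (d : Sd I S) (c : Cv S) (M : ℕ)

/-- change of the ring -/
noncomputable def map (ψ : S →+* T) : Sd I T where
  t := fun i => ψ (d.t i)
  t' := fun i => ψ (d.t' i)
  Q₁ := pm ψ d.Q₁
  Q₂ := pm ψ d.Q₂
  η₁ := d.η₁.map ψ
  η₂ := d.η₂.map ψ
  β := d.β.map ψ

/-- the first polynomial -/
noncomputable def u₁ : S[X] := uu M d.Q₁.1 d.t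

/-- the second polynomial -/
noncomputable def u₂ : S[X] := uu M d.Q₂.1 d.t'

/-- the function that vanishes on the other branches -/
noncomputable def a : S[X][X] := cmod (d.u₁ M) (kap c.χ d.η₁ * C d.β)

/-- the equations -/
structure Eqs : Prop where
  e₁ : d.u₁ M ∣ c.χ.eval d.η₁
  e₂ : d.u₂ M ∣ c.χ.eval d.η₂
  e₃ : d.u₂ M ∣ (c.G (d.u₁ M) (d.a c M)).eval d.η₂
  wl : WL c.b c.w (M * Fintype.card I + 1) (d.a c M)

/-- the equations as a family of elements -/
noncomputable def eqs : EqI (M * Fintype.card I + 1) c.δ c.b c.w → S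
  | .inl j => (c.χ.eval d.η₁ %ₘ d.u₁ M).coeff j
  | .inr (.inl j) => (c.χ.eval d.η₂ %ₘ d.u₂ M).coeff j
  | .inr (.inr (.inl j)) => ((c.G (d.u₁ M) (d.a c M)).eval d.η₂ %ₘ d.u₂ M).coeff j
  | .inr (.inr (.inr j)) => ((d.a c M).coeff j.1).coeff (M * Fintype.card I - j.2)

/-- the open condition is that this element is not zero -/
noncomputable def opn : S :=
  c.ρ.eval d.Q₁.1 * c.ρ.eval d.Q₂.1 * ee d.Q₁ (kap c.χ d.η₁) * ee d.Q₂ (kap c.χ d.η₂) *
    ee (d.Q₂.1, d.η₂.eval d.Q₂.1) (kap c.χ d.η₁) *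
    ∏ i, (c.ρ.eval (d.t i) * c.ρ.eval (d.t' i) * ee (d.t' i, d.η₂.eval (d.t' i)) (kap c.χ d.η₁))

end Sd

section

variable {I S T : Type} [Fintype I] [CommRing S] [CommRing T] {M : ℕ}

theorem uu_monic (M : ℕ) (τ : S) (t : I → S) : (uu M τ t).Monic :=
  (monic_X_sub_C τ).mul (monic_prod_of_monic _ _ fun i _ => (monic_X_sub_C (t i)).pow M)

theorem uu_natDegree [Nontrivial S] (M : ℕ) (τ : S) (t : I → S) :
    (uu M τ t).natDegree = M * Fintype.card I + 1 := by
  rw [uu, (monic_X_sub_C τ).natDegree_mul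
    (monic_prod_of_monic _ _ fun i _ => (monic_X_sub_C (t i)).pow M),
    natDegree_prod_of_monic _ _ fun i _ => (monic_X_sub_C (t i)).pow M, natDegree_X_sub_C]
  simp only [(monic_X_sub_C _).natDegree_pow, natDegree_X_sub_C, mul_one, Finset.sum_const,
    Finset.card_univ, smul_eq_mul]
  ring

theorem uu_map (ψ : S →+* T) (M : ℕ) (τ : S) (t : I → S) :
    (uu M τ t).map ψ = uu M (ψ τ) fun i => ψ (t i) := by
  simp [uu, Polynomial.map_prod]

theorem kap_map (ψ : S →+* T) (χ : S[X][X]) (η : S[X]) :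
    mp ψ (kap χ η) = kap (mp ψ χ) (η.map ψ) := by
  simp [kap, map_divByMonic _ (monic_X_sub_C η)]

theorem kap_spec (χ : S[X][X]) (η : S[X]) : χ = (X - C η) * kap χ η + C (χ.eval η) := by
  rw [← modByMonic_X_sub_C_eq_C_eval, add_comm, kap, modByMonic_add_div]

theorem kap_monic [Nontrivial S] {χ : S[X][X]} (hm : χ.Monic) (h : 0 < χ.natDegree) (η : S[X]) :
    (kap χ η).Monic ∧ (kap χ η).natDegree + 1 = χ.natDegree := by
  constructor
  · rw [Monic, kap, leadingCoeff_divByMonic_of_monic (monic_X_sub_C η) (by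
      rw [degree_X_sub_C, degree_eq_natDegree hm.ne_zero]; exact_mod_cast h)]
    exact hm
  · rw [kap, natDegree_divByMonic _ (monic_X_sub_C η), natDegree_X_sub_C]
    omega

theorem kap_eval (χ : S[X][X]) (η : S[X]) : (kap χ η).eval η = (derivative χ).eval η := by
  conv_rhs => rw [kap_spec χ η]
  simp

theorem ee_eval (τ : S) (η : S[X]) (G : S[X][X]) : ee (τ, η.eval τ) G = (G.eval η).eval τ := by
  rw [ee_eq_eval, eval_map]
  exact eval₂_at_apply (evalRingHom τ) η

theorem eval_mp (ψ : S →+* T) (η : S[X]) (G : S[X][X]) :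
    (mp ψ G).eval (η.map ψ) = (G.eval η).map ψ := by
  rw [coe_mapRingHom, eval_map]
  exact eval₂_at_apply (mapRingHom ψ) η

theorem cmod_coeff (u : S[X]) (G : S[X][X]) (i : ℕ) : (cmod u G).coeff i = G.coeff i %ₘ u := by
  rw [cmod, finsetSum_coeff]
  simp only [coeff_monomial, Finset.sum_ite_eq', mem_support_iff]
  split_ifs with h
  · rfl
  · rw [not_not.1 h, zero_modByMonic]

theorem cmod_map (ψ : S →+* T) {u : S[X]} (hu : u.Monic) (G : S[X][X]) :
    mp ψ (cmod u G) = cmod (u.map ψ) (mp ψ G) := by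
  refine Polynomial.ext fun i => ?_
  simp [cmod_coeff, map_modByMonic _ hu]

theorem cmod_dvd {u : S[X]} (_hu : u.Monic) (G : S[X][X]) : C u ∣ cmod u G - G := by
  rw [C_dvd_iff_dvd_coeff]
  intro i
  rw [coeff_sub, cmod_coeff, modByMonic_eq_sub_mul_div, sub_sub_cancel_left]
  exact (dvd_mul_right _ _).neg_right

theorem cmod_degree (u : S[X]) (G : S[X][X]) : (cmod u G).degree ≤ G.degree := by
  rw [degree_le_iff_coeff_zero]
  intro i hi
  rw [cmod_coeff, coeff_eq_zero_of_degree_lt hi, zero_modByMonic]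

theorem Sd.u₁_monic (d : Sd I S) (M : ℕ) : (d.u₁ M).Monic := uu_monic M _ _

theorem Sd.u₂_monic (d : Sd I S) (M : ℕ) : (d.u₂ M).Monic := uu_monic M _ _

theorem Sd.u₁_map (d : Sd I S) (M : ℕ) (ψ : S →+* T) : (d.map ψ).u₁ M = (d.u₁ M).map ψ :=
  (uu_map ψ M _ _).symm

theorem Sd.u₂_map (d : Sd I S) (M : ℕ) (ψ : S →+* T) : (d.map ψ).u₂ M = (d.u₂ M).map ψ :=
  (uu_map ψ M _ _).symm

theorem Sd.a_map [Nontrivial T] (d : Sd I S) (c : Cv S) (M : ℕ) (ψ : S →+* T) :
    (d.map ψ).a (c.map ψ) M = mp ψ (d.a c M) := by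
  rw [Sd.a, Sd.a, cmod_map ψ (d.u₁_monic M), map_mul, kap_map, mp_C, Sd.u₁_map]
  rfl

theorem Sd.a_degree [Nontrivial S] (d : Sd I S) (c : Cv S) (M : ℕ) :
    (d.a c M).degree < c.δ := by
  refine (cmod_degree _ _).trans_lt ?_
  rcases Nat.eq_zero_or_pos c.δ with h | h
  · have : c.χ = 1 := c.wt.monic.natDegree_eq_zero.1 (c.wt.deg.trans h)
    have e : kap c.χ d.η₁ = 0 := by
      rw [kap, this, divByMonic_eq_zero_iff (monic_X_sub_C _), degree_X_sub_C, degree_one]
      exact zero_lt_one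
    rw [e, zero_mul, degree_zero]
    exact WithBot.bot_lt_coe _
  · have h1 := (kap_monic c.wt.monic (c.wt.deg ▸ h) d.η₁).2
    refine (degree_le_natDegree.trans (Nat.cast_le.2 (natDegree_mul_C_le _ _))).trans_lt ?_
    exact Nat.cast_lt.2 (by rw [← c.wt.deg]; omega)

theorem Sd.eqs_map [Nontrivial T] (d : Sd I S) (c : Cv S) (M : ℕ) (ψ : S →+* T)
    (j : EqI (M * Fintype.card I + 1) c.δ c.b c.w) :
    (d.map ψ).eqs (c.map ψ) M j = ψ (d.eqs c M j) := by
  rcases j with j | j | j | j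
  · simp only [Sd.eqs]
    rw [← coeff_map, map_modByMonic _ (d.u₁_monic M), ← eval_mp, Sd.u₁_map]
    rfl
  · simp only [Sd.eqs]
    rw [← coeff_map, map_modByMonic _ (d.u₂_monic M), ← eval_mp, Sd.u₂_map]
    rfl
  · simp only [Sd.eqs]
    rw [← coeff_map, map_modByMonic _ (d.u₂_monic M), ← eval_mp, Sd.u₂_map, Cv.map_G, Sd.a_map,
      Sd.u₁_map]
    rfl
  · simp only [Sd.eqs]
    rw [Sd.a_map]
    simp

theorem Sd.opn_map [Nontrivial T] (d : Sd I S) (c : Cv S) (ψ : S →+* T) :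
    (d.map ψ).opn (c.map ψ) = ψ (d.opn c) := by
  have e : ∀ (u : S[X]) (x : S), ψ (u.eval x) = (u.map ψ).eval (ψ x) := fun u x => by
    rw [eval_map, eval₂_at_apply]
  simp only [Sd.opn, map_mul, map_prod, map_ee, kap_map, e, pm, Prod.map]
  rfl

theorem sys_mod [Nontrivial S] {u p : S[X]} (hu : u.Monic) {m : ℕ} (hm : u.natDegree = m) :
    (∀ j : Fin m, (p %ₘ u).coeff j = 0) ↔ u ∣ p := by
  rw [← modByMonic_eq_zero_iff_dvd hu]
  refine ⟨fun h => Polynomial.ext fun j => ?_, fun h j => by rw [h, coeff_zero]⟩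
  by_cases hj : j < m
  · exact h ⟨j, hj⟩
  · refine coeff_eq_zero_of_degree_lt ((degree_modByMonic_lt p hu).trans_le ?_)
    rw [degree_eq_natDegree hu.ne_zero, hm]
    exact_mod_cast not_lt.1 hj

theorem Sd.eqs_iff [Nontrivial S] (d : Sd I S) (c : Cv S) (M : ℕ) :
    (∀ j, d.eqs c M j = 0) ↔ d.Eqs c M := by
  have h1 := uu_natDegree M d.Q₁.1 d.t
  have h2 := uu_natDegree M d.Q₂.1 d.t'
  constructor
  · intro h
    refine ⟨(sys_mod (uu_monic M _ _) h1).1 fun j => h (.inl j),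
      (sys_mod (uu_monic M _ _) h2).1 fun j => h (.inr (.inl j)),
      (sys_mod (uu_monic M _ _) h2).1 fun j => h (.inr (.inr (.inl j))), fun i j hij => ?_⟩
    by_contra hc
    have hi : i < c.δ := by
      by_contra hi
      rw [coeff_eq_zero_of_degree_lt ((d.a_degree c M).trans_le
        (by exact_mod_cast not_lt.1 hi))] at hij
      exact hij (coeff_zero _)
    have hj : j < M * Fintype.card I + 1 := by
      by_contra hj
      refine hij ?_
      rw [Sd.a, cmod_coeff]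
      refine coeff_eq_zero_of_degree_lt ((degree_modByMonic_lt _ (uu_monic M _ _)).trans_le ?_)
      rw [degree_eq_natDegree (uu_monic M _ _).ne_zero, h1]
      exact_mod_cast not_lt.1 hj
    have := h (.inr (.inr (.inr ⟨⟨i, hi⟩, ⟨M * Fintype.card I - j, by simp only; omega⟩⟩)))
    simp only [Sd.eqs] at this
    rw [show M * Fintype.card I - (M * Fintype.card I - j) = j by omega] at this
    exact hij this
  · rintro ⟨e1, e2, e3, e4⟩ (j | j | j | j)
    · exact (sys_mod (uu_monic M _ _) h1).2 e1 j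
    · exact (sys_mod (uu_monic M _ _) h2).2 e2 j
    · exact (sys_mod (uu_monic M _ _) h2).2 e3 j
    · by_contra hc
      have := e4 _ _ hc
      have := j.2.2
      omega

theorem card_EqI (c : Cv S) (m : ℕ) :
    Fintype.card (EqI m c.δ c.b c.w) = m + (m + (m + c.g0)) := by
  simp [Cv.g0, Finset.sum_add_distrib, Finset.sum_range]

end

end Pool.Agent.ZCy.U
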