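import Pool.Agent.Lib.MP_751085_ag.ZC.UDefs
import Pool.Agent.Lib.MP_751085_ag.ZC.USys
import Pool.Agent.Lib.MP_796ce4_ag.ZY.CvP

/-! A solution of the system gives a principal divisor. -/

namespace Pool.Agent.ZCy.U

open Polynomial Pool.Agent.ZeroCyc
open scoped Classical

variable {I Λ : Type} [Fintype I] [Field Λ] [IsAlgClosed Λ] {M : ℕ}

/-- the divisor of the section `η` over the roots of `uu` -/
noncomputable def sec (M : ℕ) (τ : Λ) (t : I → Λ) (η : Λ[X]) : Λ × Λ →₀ ℤ :=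
  Finsupp.single (τ, η.eval τ) 1 + M • ∑ i, Finsupp.single (t i, η.eval (t i)) 1

omit [IsAlgClosed Λ] in
theorem sc_pow (a x : Λ) (n : ℕ) :
    ((X - C a) ^ n).rootMultiplicity x = if a = x then n else 0 := by
  split_ifs with h
  · rw [← h, rootMultiplicity_X_sub_C_pow]
  · refine rootMultiplicity_eq_zero fun h1 => h ?_
    rw [IsRoot.def, eval_pow, eval_sub, eval_X, eval_C] at h1
    exact (sub_eq_zero.1 (pow_eq_zero_iff'.1 h1).1).symm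

omit [Fintype I] [IsAlgClosed Λ] in
theorem sc_prod (M : ℕ) (t : I → Λ) (x : Λ) (s : Finset I) :
    (∏ i ∈ s, (X - C (t i)) ^ M).rootMultiplicity x = ∑ i ∈ s, if t i = x then M else 0 := by
  induction s using Finset.induction_on with
  | empty => exact rootMultiplicity_eq_zero (by simp)
  | insert i s hi ih =>
    rw [Finset.prod_insert hi, Finset.sum_insert hi, rootMultiplicity_mul
      (((monic_X_sub_C _).pow M).mul
        (monic_prod_of_monic _ _ fun j _ => (monic_X_sub_C _).pow M)).ne_zero, ih, sc_pow]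

omit [IsAlgClosed Λ] in
theorem sc_eval (M : ℕ) (τ : Λ) (t : I → Λ) (s : Λ) :
    (uu M τ t).eval s = (s - τ) * ∏ i, (s - t i) ^ M := by
  simp [uu, eval_prod]

omit [IsAlgClosed Λ] in
theorem sc_root {τ s : Λ} {t : I → Λ} (h : (uu M τ t).eval s = 0) : s = τ ∨ ∃ i, s = t i := by
  rw [sc_eval, mul_eq_zero, Finset.prod_eq_zero_iff] at h
  exact h.imp sub_eq_zero.1 fun ⟨i, _, hi⟩ => ⟨i, sub_eq_zero.1 (pow_eq_zero_iff'.1 hi).1⟩

omit [IsAlgClosed Λ] in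
theorem sc_on {χ : Λ[X][X]} {u η : Λ[X]} {s : Λ} (h : u ∣ χ.eval η) (h0 : u.eval s = 0) :
    On χ (s, η.eval s) := by
  rw [On, ee_eval]
  exact eval_eq_zero_of_dvd_of_eval_eq_zero h h0

omit [IsAlgClosed Λ] in
theorem sc_pt {χ : Λ[X][X]} {η : Λ[X]} {Q : Λ × Λ} {t : I → Λ} (hQ : On χ Q)
    (h : uu M Q.1 t ∣ χ.eval η) (hk : ee Q (kap χ η) ≠ 0) : (Q.1, η.eval Q.1) = Q := by
  have h1 : (χ.eval η).eval Q.1 = 0 :=
    eval_eq_zero_of_dvd_of_eval_eq_zero h (by rw [sc_eval, sub_self, zero_mul])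
  have h2 := congrArg (ee Q) (kap_spec χ η)
  rw [show ee Q χ = 0 from hQ, map_add, map_mul, map_sub, ee_C, ee_C, ee_X, h1, add_zero] at h2
  exact Prod.ext rfl (sub_eq_zero.1 ((mul_eq_zero.1 h2.symm).resolve_right hk)).symm

theorem sc_et {c : Cv Λ} {u η : Λ[X]} (hc : IsCoprime u c.ρ) (h : u ∣ c.χ.eval η) {Q : Λ × Λ}
    (h1 : Q.2 = η.eval Q.1) (h2 : u.rootMultiplicity Q.1 ≠ 0) : u.eval Q.1 = 0 ∧ Et c.χ Q := by
  have h3 : u.eval Q.1 = 0 := by_contra fun h3 => h2 (rootMultiplicity_eq_zero h3)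
  have h4 := sc_on h h3
  rw [← h1] at h4
  exact ⟨h3, Cv.Gp.et ⟨h4, Cv.cop_iff.1 hc _ h3⟩⟩

/-- `rootMultiplicity_mul`, `rootMultiplicity_X_sub_C_pow`, or `count_roots` -/
theorem sec_apply (M : ℕ) (τ : Λ) (t : I → Λ) (η : Λ[X]) (Q : Λ × Λ) : sec M τ t η Q =
    if Q.2 = η.eval Q.1 then ((uu M τ t).rootMultiplicity Q.1 : ℤ) else 0 := by
  have h1 := (uu_monic M τ t).ne_zero
  unfold uu at h1 ⊢
  rw [rootMultiplicity_mul h1, sc_prod, ← pow_one (X - C τ), sc_pow]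
  obtain ⟨x, y⟩ := Q
  simp only [sec, Finsupp.add_apply, Finsupp.smul_apply, Finsupp.finsetSum_apply,
    Finsupp.single_apply, Prod.mk.injEq]
  by_cases h : y = η.eval x
  · have h2 : ∀ a : Λ, (a = x ∧ η.eval a = y) ↔ a = x := fun a =>
      ⟨fun e => e.1, fun e => ⟨e, by rw [e, h]⟩⟩
    simp only [h2, if_pos h, nsmul_eq_mul, Finset.mul_sum]
    push_cast
    simp
  · have h2 : ∀ a : Λ, ¬ (a = x ∧ η.eval a = y) := fun a e => h (by rw [← e.2, e.1])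
    simp [h2, h]

theorem sec_degree (M : ℕ) (τ : Λ) (t : I → Λ) (η : Λ[X]) :
    (sec M τ t η).degree = (M * Fintype.card I + 1 : ℕ) := by
  simp only [sec, map_add, map_nsmul, map_sum, Finsupp.degree_single]
  simp [add_comm]

/-- vanishing on the other branches: `dv_C`, `van_of_cofactor`, `cmod_dvd`, `kap_spec` -/
theorem vanZ_cmod {c : Cv Λ} {τ : Λ} {t : I → Λ} {η : Λ[X]} (hc : IsCoprime (uu M τ t) c.ρ)
    (h : uu M τ t ∣ c.χ.eval η) (G : Λ[X][X]) :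
    0 ≤ dv c.χ (C (uu M τ t)) - sec M τ t η ∧
      (∀ Q, (dv c.χ (C (uu M τ t)) - sec M τ t η) Q ≠ 0 → ee Q (kap c.χ η) = 0) ∧
      VanZ c.χ (dv c.χ (C (uu M τ t)) - sec M τ t η) (cmod (uu M τ t) (kap c.χ η * G)) := by
  have hu := uu_monic M τ t
  have key : ∀ Q, (dv c.χ (C (uu M τ t)) - sec M τ t η) Q =
      if Et c.χ Q ∧ η.eval Q.1 ≠ Q.2 then ((uu M τ t).rootMultiplicity Q.1 : ℤ) else 0 := by
    intro Q
    rw [Finsupp.sub_apply, dv_C c.wt hu, sec_apply]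
    by_cases h0 : (uu M τ t).rootMultiplicity Q.1 = 0
    · simp [h0]
    by_cases h1 : Q.2 = η.eval Q.1
    · rw [if_pos (sc_et hc h h1 h0).2, if_pos h1, if_neg fun e => e.2 h1.symm, sub_self]
    · simp [h1, Ne.symm h1]
  have key2 : ∀ Q, (dv c.χ (C (uu M τ t)) - sec M τ t η) Q ≠ 0 → Et c.χ Q ∧
      ((dv c.χ (C (uu M τ t)) - sec M τ t η) Q).toNat = (uu M τ t).rootMultiplicity Q.1 ∧
      1 ≤ (uu M τ t).rootMultiplicity Q.1 ∧
      Van c.χ Q ((uu M τ t).rootMultiplicity Q.1) (kap c.χ η) := by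
    intro Q hQ
    rw [key] at hQ ⊢
    split_ifs at hQ ⊢ with h1
    · refine ⟨h1.1, Int.toNat_natCast _, by omega,
        van_of_cofactor c.wt.monic h1.1 hu.ne_zero h1.2 ?_⟩
      rw [sub_eq_iff_eq_add'.2 (kap_spec c.χ η)]
      exact _root_.map_dvd C h
    · exact absurd rfl hQ
  refine ⟨fun Q => ?_, fun Q hQ => ?_, fun Q hQ => ?_⟩
  · rw [key, Finsupp.zero_apply]
    positivity
  · obtain ⟨h1, -, h2, h3⟩ := key2 Q hQ
    exact (van_one c.wt.monic h1).1 (h3.mono h2)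
  · obtain ⟨h1, h2, -, h3⟩ := key2 Q hQ
    obtain ⟨W, hW⟩ := cmod_dvd hu (kap c.χ η * G)
    have h4 : Van c.χ Q ((uu M τ t).rootMultiplicity Q.1) (C (uu M τ t)) := by
      unfold Van
      rw [jq_C]
      exact cvh_dvd c.χ Q hu.ne_zero
    rw [h2, sub_eq_iff_eq_add.1 hW, mul_comm _ W, mul_comm _ G]
    exact ⟨h1, (h4.mul_left W).add (h3.mul_left G)⟩

/-- Sketch: `Cv.cop_iff` gives the witness. `G = u₁ + ρ a` vanishes along `dv u₁ - sec η₁`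
(`vanZ_cmod`) and along `sec η₂` (`van_of_dvd`); the supports are disjoint because `kap χ η₁`
vanishes on the first and not on the second (`opn`); `VanZ.add`, `Lead.dv_eq`. Finally
`kap_spec` evaluated at `Q_j` gives `Q_j.2 = η_j(Q_j.1)`. -/
theorem sysc (hM : 0 < M) {c : Cv Λ} {d : Sd I Λ} (he : d.Eqs c M) (ho : d.opn c ≠ 0)
    (h₁ : On c.χ d.Q₁) (h₂ : On c.χ d.Q₂) :
    c.Wit (d.u₁ M) (d.a c M) ∧ c.Gp d.Q₁ ∧ c.Gp d.Q₂ ∧
      (∀ i, c.Gp (d.t i, d.η₁.eval (d.t i)) ∧ c.Gp (d.t' i, d.η₂.eval (d.t' i))) ∧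
      dv c.χ (c.G (d.u₁ M) (d.a c M)) - dv c.χ (C (d.u₁ M)) =
        Finsupp.single d.Q₂ 1 - Finsupp.single d.Q₁ 1 +
          M • ∑ i, (Finsupp.single (d.t' i, d.η₂.eval (d.t' i)) 1 -
            Finsupp.single (d.t i, d.η₁.eval (d.t i)) 1) := by
  simp only [Sd.opn, ne_eq, mul_eq_zero, not_or, Finset.prod_eq_zero_iff, Finset.mem_univ,
    true_and, not_exists] at ho
  obtain ⟨⟨⟨⟨⟨r1, r2⟩, k1⟩, k2⟩, k3⟩, ho⟩ := ho
  have c1 : IsCoprime (uu M d.Q₁.1 d.t) c.ρ := Cv.cop_iff.2 fun s hs => by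
    rcases sc_root hs with rfl | ⟨i, rfl⟩
    · exact r1
    · exact (ho i).1.1
  have c2 : IsCoprime (uu M d.Q₂.1 d.t') c.ρ := Cv.cop_iff.2 fun s hs => by
    rcases sc_root hs with rfl | ⟨i, rfl⟩
    · exact r2
    · exact (ho i).1.2
  have hw : c.Wit (d.u₁ M) (d.a c M) :=
    ⟨uu_monic _ _ _, c1, by rw [Sd.u₁, uu_natDegree]; exact he.wl⟩
  have z : ∀ (τ : Λ) (t : I → Λ) (i : I), (uu M τ t).eval (t i) = 0 := fun τ t i => by
    rw [sc_eval, Finset.prod_eq_zero (Finset.mem_univ i) (by rw [sub_self, zero_pow hM.ne']),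
      mul_zero]
  refine ⟨hw, ⟨h₁, r1⟩, ⟨h₂, r2⟩, fun i => ⟨⟨sc_on he.e₁ (z _ _ i), (ho i).1.1⟩,
    ⟨sc_on he.e₂ (z _ _ i), (ho i).1.2⟩⟩, ?_⟩
  obtain ⟨n0, n1, n2⟩ := vanZ_cmod c1 he.e₁ (C d.β)
  have v0 : VanZ c.χ (dv c.χ (C (uu M d.Q₁.1 d.t)) - sec M d.Q₁.1 d.t d.η₁)
      (C (uu M d.Q₁.1 d.t)) := (lead_C hw.monic).vanZ_of_le c.wt n0 (sub_le_self _ fun Q => by
    rw [sec_apply, Finsupp.zero_apply]
    positivity)
  have v1 : VanZ c.χ (dv c.χ (C (uu M d.Q₁.1 d.t)) - sec M d.Q₁.1 d.t d.η₁)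
      (c.G (d.u₁ M) (d.a c M)) := fun Q hQ =>
    ⟨(v0 Q hQ).1, (v0 Q hQ).2.add ((n2 Q hQ).2.mul_left _)⟩
  have s2 : ∀ Q, sec M d.Q₂.1 d.t' d.η₂ Q ≠ 0 → Q.2 = d.η₂.eval Q.1 ∧
      (uu M d.Q₂.1 d.t').rootMultiplicity Q.1 ≠ 0 := fun Q hQ => by
    rw [sec_apply] at hQ
    split_ifs at hQ with h1
    · exact ⟨h1, by omega⟩
    · exact absurd rfl hQ
  have v2 : VanZ c.χ (sec M d.Q₂.1 d.t' d.η₂) (c.G (d.u₁ M) (d.a c M)) := fun Q hQ => by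
    obtain ⟨h1, h2⟩ := s2 Q hQ
    have h3 := (sc_et c2 he.e₂ h1 h2).2
    rw [sec_apply, if_pos h1, Int.toNat_natCast]
    exact ⟨h3, van_of_dvd c.wt.monic h3 (uu_monic _ _ _).ne_zero h1.symm he.e₂ he.e₃⟩
  have v3 := v1.add v2 fun Q => by
    by_contra hn
    obtain ⟨h1, h2⟩ := s2 Q (not_or.1 hn).2
    have h3 := n1 Q (not_or.1 hn).1
    rw [show Q = (Q.1, d.η₂.eval Q.1) from Prod.ext rfl h1] at h3
    rcases sc_root (sc_et c2 he.e₂ h1 h2).1 with e | ⟨i, e⟩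
    · exact k3 (e ▸ h3)
    · exact (ho i).2 (e ▸ h3)
  have e := (hw.lead.dv_eq c.wt v3 (by
    rw [map_add, map_sub, sec_degree, sec_degree, sub_add_cancel]
    exact Cv.degree_dv_C hw.monic c1)).1
  rw [e, sec, sec, sc_pt h₁ he.e₁ k1, sc_pt h₂ he.e₂ k2, Finset.sum_sub_distrib, smul_sub, Sd.u₁]
  abel

/-- `sysc` for `d.map φ`, `c.map φ`; `eqs_iff`, `eqs_map`, `opn_map`, `a_map` -/
theorem sys_dvs {L : Type} [Field L] (φ : L →+* Λ) (hM : 0 < M) {c : Cv L} {d : Sd I L}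
    (he : ∀ j, d.eqs c M j = 0) (ho : d.opn c ≠ 0) (h₁ : On c.χ d.Q₁) (h₂ : On c.χ d.Q₂) :
    Dvs (c.map φ) (Set.range φ) M (pm φ d.Q₁) (pm φ d.Q₂) := by
  obtain ⟨hw, g1, g2, g3, e⟩ := sysc hM (c := c.map φ) (d := d.map φ)
    ((Sd.eqs_iff _ _ _).1 fun j =>
      (d.eqs_map c M φ j).trans ((congrArg φ (he j)).trans (map_zero φ)))
    (by rw [Sd.opn_map]; exact (_root_.map_ne_zero φ).2 ho)
    ((map_ee φ d.Q₁ c.χ).symm.trans (by rw [show ee d.Q₁ c.χ = 0 from h₁, map_zero]))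
    ((map_ee φ d.Q₂ c.χ).symm.trans (by rw [show ee d.Q₂ c.χ = 0 from h₂, map_zero]))
  have r : ∀ (η : L[X]) (s : L), (η.map φ).eval (φ s) ∈ Set.range φ := fun η s =>
    ⟨η.eval s, by rw [eval_map, eval₂_hom]⟩
  refine ⟨g1, g2, _, _, _, hw, fun i => ?_, fun i j => ?_, fun Q hQ => ?_, ?_, e⟩
  · exact ⟨(d.u₁ M).coeff i, by rw [← coeff_map, Sd.u₁, uu_map]; rfl⟩
  · exact ⟨((d.a c M).coeff i).coeff j, by
      rw [Sd.a_map, coe_mapRingHom, coeff_map, coe_mapRingHom, coeff_map]⟩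
  · rw [Finsupp.finsetSum_apply] at hQ
    obtain ⟨i, -, hi⟩ := Finset.exists_ne_zero_of_sum_ne_zero hQ
    rw [Finsupp.sub_apply, Finsupp.single_apply, Finsupp.single_apply] at hi
    split_ifs at hi with h1 h2 h2
    · exact absurd rfl hi
    · exact h1 ▸ ⟨(g3 i).2, ⟨_, rfl⟩, r _ _⟩
    · exact h2 ▸ ⟨(g3 i).1, ⟨_, rfl⟩, r _ _⟩
    · exact absurd rfl hi
  · simp only [map_sum, map_sub, Finsupp.degree_single, sub_self, Finset.sum_const_zero]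

end Pool.Agent.ZCy.U
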