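import Pool.Agent.Lib.MP_751085_ag.ZC.USysL
import Pool.Agent.Lib.MP_751085_ag.ZC.UDual

/-! The system over dual numbers. -/

namespace Pool.Agent.ZCy.U

open Polynomial Pool.Agent.ZeroCyc TrivSqZeroExt
open scoped Classical DualNumber

theorem sysd_cmod {S : Type} [CommRing S] (u : S[X]) (r : S) (G : S[X][X]) :
    cmod u (C (C r) * G) = C (C r) * cmod u G := by
  refine Polynomial.ext fun i => ?_
  rw [cmod_coeff, coeff_C_mul, coeff_C_mul, cmod_coeff, C_mul', C_mul', smul_modByMonic]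

variable {I Λ : Type} [Fintype I] [Field Λ] [IsAlgClosed Λ] [CharZero Λ] {M : ℕ}

omit [CharZero Λ] in
theorem sysd_eta {c : Cv Λ} {τ : Λ} {t : I → Λ} {η e : Λ[X]} (hb : Base c M τ t η)
    (hd : e.degree < (M * Fintype.card I + 1 : ℕ))
    (h : (uu M τ t).map (il Λ) ∣
      (mp (il Λ) c.χ).eval (η.map (il Λ) + C ε * e.map (il Λ))) : e = 0 := by
  have h0 : (uu M τ t).map (il Λ) =
      (uu M τ t).map (il Λ) + C ε * (0 : Λ[X]).map (il Λ) := by simp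
  rw [dual_eval, h0] at h
  obtain ⟨q₀, q₁, -, h2⟩ := dual_dvd h
  refine lin_eta (uu_monic M τ t) hb.cop hb.dvd ⟨q₁, ?_⟩ (by rwa [uu_natDegree])
  rw [h2]
  ring

theorem sysl (hM : 0 < M) {c : Cv Λ} {τ : Λ} {t : I → Λ} {η : Λ[X]} (hb : Base c M τ t η)
    {d : Sd I Λ[ε]} (he : d.Eqs (c.map (il Λ)) M) (ht : ∀ i, d.t i = inl (t i))
    (ht' : ∀ i, (d.t' i).fst = t i) (h₁ : d.Q₁.1 = inl τ) (h₂ : d.Q₂.1 = inl τ)
    (hη₁ : d.η₁.map (fs Λ) = η) (hη₂ : d.η₂.map (fs Λ) = η) (hβ : d.β.map (fs Λ) = 0)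
    (hd : ∀ j, M * Fintype.card I + 1 ≤ j → d.η₁.coeff j = 0 ∧ d.η₂.coeff j = 0 ∧ d.β.coeff j = 0) :
    (∀ i, (d.t' i).snd = 0) ∧
      ∀ j, (d.η₁.coeff j).snd = 0 ∧ (d.η₂.coeff j).snd = 0 ∧ (d.β.coeff j).snd = 0 := by
  obtain ⟨e₁, c₁, s₁⟩ := dual_split d.η₁
  obtain ⟨e₂, c₂, s₂⟩ := dual_split d.η₂
  obtain ⟨β₁, c₃, s₃⟩ := dual_split d.β
  rw [hη₁] at s₁
  rw [hη₂] at s₂
  rw [hβ, Polynomial.map_zero, zero_add] at s₃
  have d₁ : e₁.degree < (M * Fintype.card I + 1 : ℕ) :=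
    (degree_lt_iff_coeff_zero _ _).2 fun j hj => by rw [c₁, (hd j hj).1, snd_zero]
  have d₂ : e₂.degree < (M * Fintype.card I + 1 : ℕ) :=
    (degree_lt_iff_coeff_zero _ _).2 fun j hj => by rw [c₂, (hd j hj).2.1, snd_zero]
  have d₃ : β₁.degree < (M * Fintype.card I + 1 : ℕ) :=
    (degree_lt_iff_coeff_zero _ _).2 fun j hj => by rw [c₃, (hd j hj).2.2, snd_zero]
  have hχ : (c.map (il Λ)).χ = mp (il Λ) c.χ := rfl
  have hρ : (c.map (il Λ)).ρ = c.ρ.map (il Λ) := rfl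
  have hu₁ : d.u₁ M = (uu M τ t).map (il Λ) := by
    rw [uu_map, Sd.u₁, h₁, show d.t = fun i => il Λ (t i) from funext ht]
    rfl
  obtain ⟨s, hs⟩ : ∃ s : I → Λ, ∀ i, s i = (d.t' i).snd := ⟨_, fun _ => rfl⟩
  have hu₂ : d.u₂ M = uu M (il Λ τ) fun i => inl (t i) + inr (s i) := by
    rw [Sd.u₂, h₂, show d.t' = fun i => inl (t i) + inr (s i) from funext fun i => by
      rw [hs, ← ht', inl_fst_add_inr_snd_eq]]
    rfl
  rw [dual_uu hM] at hu₂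
  have E₁ := he.e₁
  rw [hu₁, hχ, s₁] at E₁
  have z₁ := sysd_eta hb d₁ E₁
  rw [z₁, Polynomial.map_zero, mul_zero, add_zero] at s₁
  obtain ⟨a, ha⟩ : ∃ a, a = cmod (uu M τ t) (kap c.χ η * C β₁) := ⟨_, rfl⟩
  have hda : d.a (c.map (il Λ)) M = C (C ε) * mp (il Λ) a := by
    rw [Sd.a, hu₁, hχ, s₁, s₃, ha, cmod_map _ (uu_monic M τ t), ← sysd_cmod, map_mul (mp (il Λ)),
      kap_map, mp_C, map_mul, mul_left_comm]
  have hw : WL c.b c.w (M * Fintype.card I + 1) a := fun i j h => he.wl i j fun h0 => h (by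
    rw [hda, coeff_C_mul, coeff_C_mul, coe_mapRingHom, coeff_map, coe_mapRingHom, coeff_map] at h0
    simpa using congrArg snd h0)
  have E₃ := he.e₃
  have hG : ((c.map (il Λ)).G (d.u₁ M) (d.a (c.map (il Λ)) M)).eval d.η₂ =
      (uu M τ t).map (il Λ) + C ε * (c.ρ * a.eval η).map (il Λ) := by
    have hε : (C ε * C ε : Λ[ε][X]) = 0 := by rw [← map_mul, DualNumber.eps_mul_eps, map_zero]
    rw [Cv.G, hda, hu₁, hρ, s₂, eval_add, eval_mul, eval_mul, eval_C, eval_C, eval_C, dual_eval,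
      Polynomial.map_mul (p := c.ρ)]
    linear_combination (c.ρ.map (il Λ) * ((derivative a).eval η * e₂).map (il Λ)) * hε
  rw [hG, hu₂] at E₃
  obtain ⟨q₀, q₁, h0, h1⟩ := dual_dvd E₃
  have hq : q₀ = 1 := mul_right_cancel₀ (uu_monic M τ t).ne_zero (by rw [← h0, one_mul])
  subst ha
  obtain ⟨z₃, zs⟩ := lin_main (s := s) hM hb d₃ hw ⟨q₁, by rw [h1, hq]; ring⟩
  have E₂ := he.e₂
  simp only [zs, Pi.zero_apply, map_zero, zero_mul, Finset.sum_const_zero, mul_zero, neg_zero,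
    Polynomial.map_zero, add_zero] at hu₂
  rw [hu₂, hχ, s₂] at E₂
  have z₂ := sysd_eta hb d₂ E₂
  refine ⟨fun i => by rw [← hs, zs, Pi.zero_apply], fun j => ?_⟩
  rw [← c₁, ← c₂, ← c₃, z₁, z₂, z₃]
  exact ⟨rfl, rfl, rfl⟩

end Pool.Agent.ZCy.U
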