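import Pool.Agent.Lib.MP_751085_ag.ZC.USysC
import Pool.Agent.Lib.MP_751085_ag.ZC.UNs

/-! The linearised system. -/

namespace Pool.Agent.ZCy.U

open Polynomial Pool.Agent.ZeroCyc
open scoped Classical

variable {I Λ : Type} [Fintype I] [Field Λ] [IsAlgClosed Λ] {M : ℕ}

/-- the base point of the system -/
structure Base (c : Cv Λ) (M : ℕ) (τ : Λ) (t : I → Λ) (η : Λ[X]) : Prop where
  cop : IsCoprime (uu M τ t) c.ρ
  dvd : uu M τ t ∣ c.χ.eval η
  inj : Function.Injective t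
  ns : NS c (∑ i, Finsupp.single (t i, η.eval (t i)) 1)

/-- `C ρ = α χ + β χ'` evaluated at `η` shows that `χ'(η)` is coprime to `u` -/
theorem lin_eta {c : Cv Λ} {u η e : Λ[X]} (hu : u.Monic) (hc : IsCoprime u c.ρ)
    (h : u ∣ c.χ.eval η) (he : u ∣ (derivative c.χ).eval η * e) (hd : e.degree < u.natDegree) :
    e = 0 := by
  have h0 := congrArg (fun p => p.eval η) c.rho
  simp only [eval_C, eval_add, eval_mul] at h0
  have h1 : u ∣ c.ρ * e := by
    have : c.ρ * e = c.α.eval η * e * c.χ.eval η +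
        c.β.eval η * ((derivative c.χ).eval η * e) := by
      rw [h0]
      ring
    rw [this]
    exact dvd_add (h.mul_left _) (he.mul_left _)
  refine eq_zero_of_dvd_of_degree_lt (hc.dvd_of_dvd_mul_left h1) ?_
  rwa [degree_eq_natDegree hu.ne_zero]

omit [IsAlgClosed Λ] in
theorem sysl_uu (hM : 0 < M) (τ : Λ) (t : I → Λ) :
    uu M τ t = uu (M - 1) τ t * ∏ i, (X - C (t i)) := by
  obtain ⟨k, rfl⟩ : ∃ k, M = k + 1 := ⟨M - 1, by omega⟩
  unfold uu
  rw [Nat.add_sub_cancel, mul_assoc, ← Finset.prod_mul_distrib]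
  simp only [pow_succ]

omit [IsAlgClosed Λ] in
theorem sysl_sec (hM : 0 < M) (τ : Λ) (t : I → Λ) (η : Λ[X]) :
    sec M τ t η = sec (M - 1) τ t η + ∑ i, Finsupp.single (t i, η.eval (t i)) 1 := by
  obtain ⟨k, rfl⟩ : ∃ k, M = k + 1 := ⟨M - 1, by omega⟩
  unfold sec
  rw [Nat.add_sub_cancel, succ_nsmul, add_assoc]

/-- points of the section over roots of a divisor of `χ(η)` coprime to `ρ` are etale -/
theorem sysl_et {c : Cv Λ} {u η : Λ[X]} (hc : IsCoprime u c.ρ) (h : u ∣ c.χ.eval η) {x : Λ}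
    (hx : u.eval x = 0) : Et c.χ (x, η.eval x) := by
  refine Cv.Gp.et ⟨?_, Cv.cop_iff.1 hc x hx⟩
  obtain ⟨q, hq⟩ := h
  rw [On, ee_eval, hq, eval_mul, hx, zero_mul]

theorem sysl_van {c : Cv Λ} {τ : Λ} {t : I → Λ} {η : Λ[X]} {a : Λ[X][X]}
    (hc : IsCoprime (uu M τ t) c.ρ) (h : uu M τ t ∣ c.χ.eval η) (ha : uu M τ t ∣ a.eval η) :
    (∀ Q, sec M τ t η Q ≠ 0 → Q.2 = η.eval Q.1) ∧ VanZ c.χ (sec M τ t η) a := by
  have h1 : ∀ Q, sec M τ t η Q ≠ 0 → Q.2 = η.eval Q.1 := fun Q hQ => by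
    by_contra e
    exact hQ (by rw [sec_apply, if_neg e])
  refine ⟨h1, fun Q hQ => ?_⟩
  have e := h1 Q hQ
  have hne := (uu_monic M τ t).ne_zero
  rw [sec_apply, if_pos e] at hQ ⊢
  have hr : (uu M τ t).eval Q.1 = 0 := by
    by_contra hr
    exact hQ (by rw [rootMultiplicity_eq_zero hr, Nat.cast_zero])
  have het : Et c.χ Q := by
    have := sysl_et hc h hr
    rwa [← e] at this
  refine ⟨het, ?_⟩
  rw [Int.toNat_natCast]
  exact van_of_dvd c.wt.monic het hne e.symm h ha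

omit [IsAlgClosed Λ] in
theorem sysl_pos {c : Cv Λ} {τ : Λ} {t : I → Λ} {η : Λ[X]} (h : uu M τ t ∣ c.χ.eval η) :
    0 < c.δ := by
  refine Nat.pos_of_ne_zero fun h0 => ?_
  have h1 : c.χ = 1 := c.wt.monic.natDegree_eq_zero.1 (c.wt.deg.trans h0)
  rw [h1, eval_one] at h
  have h2 := natDegree_eq_zero_of_isUnit (isUnit_of_dvd_one h)
  rw [uu_natDegree] at h2
  omega

omit [IsAlgClosed Λ] in
theorem sysl_eval [CharZero Λ] (hM : 0 < M) {t s : I → Λ} (hi : Function.Injective t)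
    (h : ∏ i, (X - C (t i)) ∣
      C (M : Λ) * ∑ i, C (s i) * ∏ j ∈ Finset.univ.erase i, (X - C (t j))) : s = 0 := by
  funext i
  obtain ⟨q, hq⟩ := h
  have h1 := congrArg (fun p => p.eval (t i)) hq
  simp only [eval_mul, eval_C, eval_finsetSum, eval_prod, eval_sub, eval_X] at h1
  rw [Finset.prod_eq_zero (Finset.mem_univ i) (sub_self _), zero_mul,
    Finset.sum_eq_single i] at h1
  · have h2 : (M : Λ) ≠ 0 := Nat.cast_ne_zero.2 hM.ne'
    have h3 : ∏ j ∈ Finset.univ.erase i, (t i - t j) ≠ 0 :=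
      Finset.prod_ne_zero_iff.2 fun j hj e =>
        (Finset.mem_erase.1 hj).1 (hi (sub_eq_zero.1 e)).symm
    exact ((mul_eq_zero.1 ((mul_eq_zero.1 h1).resolve_left h2)).resolve_right h3)
  · intro j _ hj
    rw [Finset.prod_eq_zero (Finset.mem_erase.2 ⟨hj.symm, Finset.mem_univ i⟩) (sub_self _),
      mul_zero]
  · exact fun e => absurd (Finset.mem_univ i) e

/-- Sketch: `u = uu M`, `u' = uu (M - 1)`, `u = u' * ∏ (X - t i)`. `u' ∣ ρ a(η)`, so `u' ∣ a(η)`:
`a` vanishes along `sec (M - 1) τ t η` (`van_of_dvd`) and along `dv u - sec M τ t η`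
(`vanZ_cmod`), the supports are disjoint (`sec_apply`, `dv_C`), the sum is `dv u - E`. So `a = 0`
by `ns`. The coefficient of index `δ - 1` of `a` is `β %ₘ u` (`kap_monic`; `δ > 0` since `u` is
not a unit and divides `χ(η)`), so `β = 0`. Then cancel `u'` and evaluate at
`t i`. -/
theorem lin_main [CharZero Λ] (hM : 0 < M) {c : Cv Λ} {τ : Λ} {t : I → Λ} {η : Λ[X]}
    (hb : Base c M τ t η) {β : Λ[X]} {s : I → Λ} (hβ : β.degree < (M * Fintype.card I + 1 : ℕ))
    (hw : WL c.b c.w (M * Fintype.card I + 1) (cmod (uu M τ t) (kap c.χ η * C β)))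
    (h : uu M τ t ∣ c.ρ * (cmod (uu M τ t) (kap c.χ η * C β)).eval η +
      C (M : Λ) * uu (M - 1) τ t * ∑ i, C (s i) * ∏ j ∈ Finset.univ.erase i, (X - C (t j))) :
    β = 0 ∧ s = 0 := by
  have hδ := sysl_pos hb.dvd
  have huu := sysl_uu hM τ t
  have hdv : uu (M - 1) τ t ∣ uu M τ t := ⟨_, huu⟩
  have hc' : IsCoprime (uu (M - 1) τ t) c.ρ := hb.cop.of_isCoprime_of_dvd_left hdv
  have hm := uu_monic M τ t
  obtain ⟨hk, hkd⟩ := kap_monic c.wt.monic (c.wt.deg.symm ▸ hδ) η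
  rw [c.wt.deg] at hkd
  obtain ⟨z0, -, z2⟩ := vanZ_cmod hb.cop hb.dvd (C β)
  set a := cmod (uu M τ t) (kap c.χ η * C β) with ha
  have h1 : uu (M - 1) τ t ∣ a.eval η := by
    refine hc'.dvd_of_dvd_mul_left ?_
    have h2 := hdv.trans h
    exact (dvd_add_left ((dvd_mul_left _ _).mul_right _)).1 h2
  obtain ⟨y1, y2⟩ := sysl_van hc' (hdv.trans hb.dvd) h1
  have hdis : ∀ Q, sec (M - 1) τ t η Q = 0 ∨
      (dv c.χ (C (uu M τ t)) - sec M τ t η) Q = 0 := fun Q => by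
    by_cases e : sec (M - 1) τ t η Q = 0
    · exact Or.inl e
    · right
      rw [Finsupp.sub_apply, dv_C c.wt hm, if_pos (y2 Q e).1, sec_apply, if_pos (y1 Q e), sub_self]
  have hsum : sec (M - 1) τ t η + (dv c.χ (C (uu M τ t)) - sec M τ t η) =
      dv c.χ (C (uu M τ t)) - ∑ i, Finsupp.single (t i, η.eval (t i)) 1 := by
    rw [sysl_sec hM]
    abel
  have hv := y2.add z2 hdis
  rw [hsum] at hv
  have hs0 : 0 ≤ sec (M - 1) τ t η := fun Q => by
    rw [sec_apply]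
    split_ifs
    · exact Int.natCast_nonneg _
    · exact le_rfl
  have hle : ∑ i, Finsupp.single (t i, η.eval (t i)) (1 : ℤ) ≤ dv c.χ (C (uu M τ t)) := by
    rw [← sub_nonneg, ← hsum]
    exact add_nonneg hs0 z0
  have hdeg : a.degree < c.δ := by
    refine (cmod_degree _ _).trans_lt ((degree_mul_le _ _).trans_lt ?_)
    refine (add_le_add degree_le_natDegree degree_C_le).trans_lt ?_
    rw [add_zero, ← hkd]
    exact_mod_cast Nat.lt_succ_self _
  have ha0 : a = 0 := by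
    have hbot := hb.ns _ hm hb.cop hle
    rw [← Submodule.mem_bot Λ, ← hbot]
    exact ⟨⟨hdeg, by rw [uu_natDegree]; exact hw⟩, fun Q hQ => (hv Q hQ).2⟩
  have hβ0 : β = 0 := by
    have h2 := congrArg (fun p => p.coeff (kap c.χ η).natDegree) ha0
    simp only [ha, cmod_coeff, coeff_mul_C, coeff_zero] at h2
    rw [hk.coeff_natDegree, one_mul, (modByMonic_eq_self_iff hm).2] at h2
    · exact h2
    · rwa [degree_eq_natDegree hm.ne_zero, uu_natDegree]
  refine ⟨hβ0, sysl_eval hM hb.inj ?_⟩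
  rw [ha0, eval_zero, mul_zero, zero_add, huu, mul_comm (C (M : Λ)), mul_assoc] at h
  exact (mul_dvd_mul_iff_left (uu_monic (M - 1) τ t).ne_zero).1 h

end Pool.Agent.ZCy.U
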