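import Pool.Agent.Lib.MP_751085_ag.ZC.UCv
import Pool.Agent.Lib.MP_751085_ag.ZC.UCh

/-! Uniform local divisibility on the variety. -/

namespace Pool.Agent.ZCy.U

open Polynomial Module Pool.Agent.ZeroCyc Filter Topology
open scoped Classical IntermediateField

set_option linter.unusedSectionVars false

variable {k K Λ : Type} [Field k] [Field K] [CharZero K] [TopologicalSpace K] [NormedField Λ]
  [IsAlgClosed Λ] [Algebra k K] [Algebra k Λ] [Algebra K Λ] [IsScalarTower k K Λ] [IsGalois K Λ]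
  [LocF K Λ] {N n : ℕ} {J : Ideal (MvPolynomial (Fin (N + 1)) K)}

/-- the norm on a subextension is not trivial -/
@[reducible] noncomputable def nnf (L : IntermediateField K Λ) : NontriviallyNormedField L where
  toNormedField := inferInstance
  non_trivial := by
    obtain ⟨c, hc⟩ := LocF.nontriv (K := K) (Λ := Λ)
    exact ⟨⟨algebraMap K Λ c, L.algebraMap_mem c⟩, hc⟩

/-- the vector over `Λ` -/
abbrev up {L : IntermediateField K Λ} {σ : Type} (v : σ → L) : σ → Λ := fun i => v i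

theorem uld_cont {E σ : Type} [NormedField E] [Algebra k E] (p : MvPolynomial σ k) :
    Continuous fun v : σ → E => MvPolynomial.aeval v p := by
  simp only [MvPolynomial.aeval_def, MvPolynomial.eval₂_eq_eval_map]
  exact MvPolynomial.continuous_eval _

theorem uld_ca (𝒞 : LCh k Λ J n) {E : Type} [NormedField E] [Algebra k E] {v₀ : Fin (N + 1) → E}
    (h : MvPolynomial.aeval v₀ 𝒞.f₀ ≠ 0) :
    ContinuousAt (fun v : Fin (N + 1) → E => 𝒞.xi v) v₀ ∧
      ContinuousAt (fun v : Fin (N + 1) → E => 𝒞.th v) v₀ :=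
  ⟨continuousAt_pi.2 fun _ => (uld_cont _).continuousAt.div (uld_cont _).continuousAt h,
    (uld_cont _).continuousAt.div (uld_cont _).continuousAt h⟩

/-- the coordinates are continuous where `f₀` does not vanish -/
theorem LCh.continuousAt (𝒞 : LCh k Λ J n) {L : IntermediateField K Λ} {v₀ : Fin (N + 1) → L}
    (h : MvPolynomial.aeval v₀ 𝒞.f₀ ≠ 0) :
    ContinuousAt (fun v : Fin (N + 1) → L => 𝒞.xi v) v₀ ∧
      ContinuousAt (fun v : Fin (N + 1) → L => 𝒞.th v) v₀ := by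
  exact uld_ca 𝒞 h

theorem LCh.eventually_in (𝒞 : LCh k Λ J n) {L : IntermediateField K Λ} {v₀ : Fin (N + 1) → L}
    (h : 𝒞.In (up v₀)) : ∀ᶠ v : Fin (N + 1) → L in 𝓝 v₀, 𝒞.In (up v) := by
  have hu : Continuous fun v : Fin (N + 1) → L => up v :=
    continuous_pi fun i => continuous_subtype_val.comp (continuous_apply i)
  refine (hu.tendsto v₀).eventually (p := fun w => 𝒞.In w) ?_
  exact ((uld_cont 𝒞.f₀).continuousAt.eventually_ne h.1).and
    (((uld_cont 𝒞.D).continuousAt.comp (uld_ca 𝒞 h.1).1).eventually_ne h.2)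

/-- the lines through a fixed point near the base point -/
theorem uld_fam (𝒞 : LCh k Λ J n) {E : Type} [NontriviallyNormedField E] [CompleteSpace E]
    (a : k →+* E) (φ : E →+* Λ) (ha : φ.comp a = algebraMap k Λ) (y₀ e₀ : Fin n → E) (θ₀ : E)
    (hQ : (𝒞.crv a y₀ e₀).Gp (0, θ₀))
    (hi : Irreducible (𝒞.crv (algebraMap k Λ) (fun i => φ (y₀ i)) fun i => φ (e₀ i)).χ) {M : ℕ}
    (hM : 0 < M) : ∃ s θ : E, ∀ᶠ w : (Fin n → E) × E in 𝓝 (y₀, θ₀), ev2 a w.1 w.2 𝒞.χ = 0 →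
      ∃ e : Fin n → E, (∀ i, w.1 i + s * e i = y₀ i + s * e₀ i) ∧
        Dvs (𝒞.crv (algebraMap k Λ) (fun i => φ (w.1 i)) fun i => φ (e i)) (Set.range φ) M
          (pm φ (0, w.2)) (pm φ (s, θ)) := by
  have : CharZero Λ := charZero_of_injective_algebraMap (algebraMap K Λ).injective
  have hc : ∀ p : Fin n ⊕ Fin n → E,
      (𝒞.crv ((MvPolynomial.C : E →+* MvPolynomial (Fin n ⊕ Fin n) E).comp a)
        (fun i => MvPolynomial.X (Sum.inl i)) fun i => MvPolynomial.X (Sum.inr i)).map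
          (MvPolynomial.eval p) = 𝒞.crv a (fun i => p (Sum.inl i)) fun i => p (Sum.inr i) := by
    intro p
    rw [LCh.crv_map, show (MvPolynomial.eval p).comp (MvPolynomial.C.comp a) = a from
      RingHom.ext fun x => MvPolynomial.eval_C _]
    simp only [MvPolynomial.eval_X]
  have H := uld_cv φ _ (Sum.elim y₀ e₀) (0, θ₀) (by rw [hc]; exact hQ)
    (by rw [hc, LCh.crv_map, ha]; exact hi) hM
  have hW := (show Tendsto (fun Q : E × E => (Sum.elim y₀ e₀, ((0 : E), θ₀), Q)) (𝓝 (0, θ₀))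
    (𝓝 (Sum.elim y₀ e₀, (0, θ₀), (0, θ₀))) from
      (Continuous.tendsto (by fun_prop) _)).eventually H.eventually_nhds
  obtain ⟨s, ⟨θ, h1, h2⟩, hs⟩ := (((near_pts hQ.et hW).filter_mono
    (nhdsWithin_le_nhds (s := {(0 : E)}ᶜ))).and self_mem_nhdsWithin).exists
  have hs0 : s ≠ 0 := hs
  have hg : Continuous fun w : (Fin n → E) × E =>
      (Sum.elim w.1 fun i => s⁻¹ * (y₀ i + s * e₀ i - w.1 i), ((0 : E), w.2), (s, θ)) := by
    refine Continuous.prodMk (continuous_pi ?_) (by fun_prop)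
    rintro (i | i)
    · simp only [Sum.elim_inl]; fun_prop
    · simp only [Sum.elim_inr]; fun_prop
  have he : ∀ (y : Fin n → E) i, y i + s * (s⁻¹ * (y₀ i + s * e₀ i - y i)) = y₀ i + s * e₀ i :=
    fun y i => by rw [mul_inv_cancel_left₀ hs0, add_sub_cancel]
  have ht := hg.tendsto (y₀, θ₀)
  simp only [add_sub_cancel_left, inv_mul_cancel_left₀ hs0] at ht
  refine ⟨s, θ, (ht.eventually h1).mono fun w hw h0 => ⟨_, he w.1, ?_⟩⟩
  rw [hc, LCh.crv_map, ha, LCh.on_crv, LCh.on_crv] at hw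
  rw [LCh.on_crv] at h2
  refine hw (by simpa only [Sum.elim_inl, zero_mul, add_zero] using h0) ?_
  simpa only [Sum.elim_inl, Sum.elim_inr, he] using h2

/-- Sketch: `letI := nnf L`, `L` is proper, so complete. A chart with `In v₀`; `y₀ = xi v₀`,
`θ₀ = th v₀` over `L`; `e₀` from `exists_dir`, `exists_eval_ne`. `uld_cv` for
`c = crv (algebraMap k _) (X ∘ inl) (X ∘ inr)` over `MvPolynomial (Fin n ⊕ Fin n) L` at
`p₀ = Sum.elim y₀ e₀`, `Q₀ = (0, θ₀)`; take `eventually_eventually_nhds`. `near_pts` gives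
`Q'' = (s, θ'')` on the base curve, `s ≠ 0`, such that the property holds near `(p₀, Q₀, Q'')`.
The map `v ↦ (Sum.elim (xi v) (s⁻¹ • (y₀ + s • e₀ - xi v)), (0, th v), Q'')` tends to that point.
So for `v` near `v₀` on the variety `[x''] - [v]` lies in `mulS M GD`, `x'' = pv (y₀ + s e₀) θ''`
(`crv_map`, `on_crv`, `line_ov`, `Ov.dvs`, `line_pv`, `In.pv`, `pc_smul`); use it for `v` and
for `v₀`. -/
theorem Charts.uld (hJ : Charts k Λ J n) (L : IntermediateField K Λ) [FiniteDimensional K L]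
    {v₀ : Fin (N + 1) → L} (h : PtL J L (up v₀)) {M : ℕ} (hM : 0 < M) :
    ∀ᶠ v : Fin (N + 1) → L in 𝓝 v₀, OnX J (up v) →
      pc J L (up v) - pc J L (up v₀) ∈ mulS M (GD J L) := by
  let := nnf L
  have : IsScalarTower k L Λ := IsScalarTower.of_algebraMap_eq fun _ => rfl
  have : ProperSpace L := LocF.proper L inferInstance
  obtain ⟨𝒞, h𝒞⟩ := hJ.ex {up v₀} (by simpa using ⟨h.ne, h.on⟩)
  have hin : 𝒞.In (up v₀) := h𝒞 _ (Finset.mem_singleton_self _)
  have ha : (algebraMap L Λ).comp (algebraMap k L) = algebraMap k Λ :=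
    (IsScalarTower.algebraMap_eq k L Λ).symm
  have hx : ∀ v : Fin (N + 1) → L, (fun i => algebraMap L Λ (𝒞.xi v i)) = 𝒞.xi (up v) :=
    fun v => funext (𝒞.map_xi (IsScalarTower.toAlgHom k L Λ) v).1
  have ht : ∀ v : Fin (N + 1) → L, algebraMap L Λ (𝒞.th v) = 𝒞.th (up v) :=
    fun v => (𝒞.map_xi (IsScalarTower.toAlgHom k L Λ) v).2
  have hon : ∀ v : Fin (N + 1) → L, 𝒞.In (up v) → OnX J (up v) →
      ev2 (algebraMap k L) (𝒞.xi v) (𝒞.th v) 𝒞.χ = 0 := fun v h1 h2 =>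
    (algebraMap L Λ).injective (by rw [map_ev2, ha, hx, ht, map_zero]; exact h1.on h2)
  obtain ⟨Θ, hΘ, hirr⟩ := LCh.exists_dir (𝒞 := 𝒞) (y := 𝒞.xi (up v₀)) hin.2
  obtain ⟨e, he⟩ := exists_eval_ne (K := K) hΘ
  have hD : MvPolynomial.eval₂ (algebraMap k L) (𝒞.xi v₀) 𝒞.D ≠ 0 := fun h0 => hin.2 (by
    rw [MvPolynomial.aeval_def, ← hx, ← ha]
    exact (MvPolynomial.eval₂_comp_left _ _ _ _).symm.trans (by rw [h0, map_zero]))
  obtain ⟨s, θ, H⟩ := uld_fam 𝒞 (algebraMap k L) (algebraMap L Λ) ha (𝒞.xi v₀)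
    (fun i => algebraMap K L (e i)) (𝒞.th v₀)
    ((𝒞.gp_crv _ _ _ _).2 (by simpa only [zero_mul, add_zero] using ⟨hon v₀ hin h.on, hD⟩))
    (by rw [hx]; exact hirr _ he) hM
  have hf : MvPolynomial.aeval v₀ 𝒞.f₀ ≠ 0 := fun h0 => hin.1
    ((MvPolynomial.aeval_algebraMap_apply Λ v₀ _).trans (by rw [h0, map_zero]))
  have key : ∀ᶠ v : Fin (N + 1) → L in 𝓝 v₀, OnX J (up v) →
      pc J L (𝒞.pv (algebraMap k Λ) (fun i => algebraMap L Λ
        (𝒞.xi v₀ i + s * algebraMap K L (e i))) (algebraMap L Λ θ)) - pc J L (up v) ∈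
          mulS M (GD J L) := by
    filter_upwards [((𝒞.continuousAt hf).1.prodMk (𝒞.continuousAt hf).2).eventually H,
      𝒞.eventually_in hin] with v h1 h2 h3
    obtain ⟨e', h4, h5⟩ := h1 (hon v h2 h3)
    rw [show Set.range (algebraMap L Λ) = (L : Set Λ) from Subtype.range_coe] at h5
    have h6 := (𝒞.line_ov (fun i => (𝒞.xi v i).2) fun i => (e' i).2).dvs h5 (zero_mem L)
      (𝒞.th v).2
    obtain ⟨c, hc, h7⟩ := h2.pv h3
    rw [LCh.line_pv, LCh.line_pv] at h6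
    rw [← pc_smul hc (up v), ← h7, ← hx, ← ht]
    simp only [← h4, map_add, map_mul]
    simp only [pm, Prod.map, map_zero, zero_mul, add_zero] at h6
    exact h6
  filter_upwards [key] with v h1 h2
  have h3 := sub_mem (key.self_of_nhds h.on) (h1 h2)
  rwa [sub_sub_sub_cancel_left] at h3

end Pool.Agent.ZCy.U
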