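import Pool.Agent.Lib.MP_751085_ag.ZC.RDefs
import Pool.Agent.Lib.MP_751085_ag.ZC.V.Tam
import Pool.Agent.Lib.MP_751085_ag.ZC.V.Ext
import Pool.Agent.Lib.MP_751085_ag.ZC.V.Har

/-! Facts on valuations in the form used for residues. -/

namespace Pool.Agent.ZCy

open scoped Classical WithZero PowerSeries

variable {K E E' Ω : Type} [Field K] [Field E] [Field E'] [Field Ω] [Algebra K E] [Algebra K E']

theorem vn_exists [FiniteDimensional K E] (v : Vl K) : ∃ w : Vl E, Over (algebraMap K E) v w :=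
  exists_over v

theorem vn_conj [FiniteDimensional K E] [IsGalois K E] {v : Vl K} {w w' : Vl E}
    (h : Over (algebraMap K E) v w) (h' : Over (algebraMap K E) v w') :
    ∃ g : E ≃ₐ[K] E, ∀ x, w' x ≤ 1 ↔ w (g x) ≤ 1 := conj h h'

theorem vn_nrm {w : Vl E} {x : E} (h0 : x ≠ 0) (h : w x < 1) :
    ∃ w' : Vl E, Nrm w' ∧ ∀ x, w' x ≤ 1 ↔ w x ≤ 1 :=
  let ⟨w', _, h1, h2, h3⟩ := exists_nrm h0 h.ne
  ⟨w', h1, fun x => (h3.over h2 x).symm⟩

theorem vn_eq {w w' : Vl E} (h : Nrm w) (h' : Nrm w') (e : ∀ x, w' x ≤ 1 ↔ w x ≤ 1) : w' = w :=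
  h.eq_of_iff h' e

theorem vn_dec [FiniteDimensional K E] {w : Vl E} {g : E ≃ₐ[K] E}
    (h : ∀ x, w (g x) ≤ 1 ↔ w x ≤ 1) : g ∈ Dec K w := mem_dec.2 h

theorem vn_congr [FiniteDimensional K E] {w w' : Vl E} (e : ∀ x, w' x ≤ 1 ↔ w x ≤ 1) :
    Dec K w' = Dec K w ∧ Ine K w' = Ine K w := ⟨dec_congr e, ine_congr e⟩

theorem vn_up [FiniteDimensional K E'] [IsGalois K E] [IsGalois K E'] (j : E →ₐ[K] E')
    {r : (E' ≃ₐ[K] E') → E ≃ₐ[K] E} (hr : ∀ g x, j (r g x) = g (j x)) {w : Vl E} {w' : Vl E'}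
    (h : Over (j : E →+* E') w w') :
    (∀ g ∈ Dec K w, ∃ g' ∈ Dec K w', r g' = g) ∧ ∀ g ∈ Ine K w, ∃ g' ∈ Ine K w', r g' = g := by
  have hj : Sq (RingHom.id K) (j : E →+* E') := fun a => j.commutes a
  obtain ⟨r', hr'⟩ := exists_rs hj
  obtain rfl : r = r' := funext fun g => AlgEquiv.ext fun x => j.injective
    ((hr g x).trans (hr' g x).symm)
  exact ⟨fun _ hg => Rs.dec_onto hj hr' h hg, fun _ hg => Rs.ine_onto hj hr' h hg⟩

theorem vn_theta [FiniteDimensional K E] {w : Vl E} {π : E} (hπ : w π = WithZero.exp (-1))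
    {g : E ≃ₐ[K] E} (hg : g ∈ Ine K w) (ho : w (orderOf g : E) = 1) (h : w (g π / π - 1) < 1) :
    g = 1 := eq_one_of_theta hπ hg ho h

theorem vn_cyclic [FiniteDimensional K E] {w : Vl E} (h : Tame K w) : IsCyclic (Ine K w) :=
  ine_cyclic h

theorem vn_fix [FiniteDimensional K E] [IsGalois K E] {w : Vl E} {x : E}
    (h : ∀ g ∈ Ine K w, g x = x) : ∃ y : K, w x = w (algebraMap K E y) := e1_of_ine h

theorem vn_red [FiniteDimensional K E] [IsGalois K E] {w : Vl E} {ρ₁ ρ₂ : w.integer →+* Ω}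
    (h₁ : IsRed w ρ₁) (h₂ : IsRed w ρ₂)
    (h : ∀ (a : K) (y : w.integer), (y : E) = algebraMap K E a → ρ₁ y = ρ₂ y) :
    ∃ d ∈ Dec K w, Cmp d ρ₂ ρ₁ id := by
  obtain ⟨d, hd, e⟩ := red_conj h₁ h₂ fun a ha => (h a ⟨_, ha⟩ rfl).symm
  refine ⟨d, hd, fun x y hy => ?_⟩
  obtain ⟨y, hy'⟩ := y
  obtain rfl : y = d x := hy
  exact (e x x.2 hy').symm

theorem vn_redext [FiniteDimensional K E] [IsAlgClosed Ω] {v : Vl K} {w : Vl E}
    (h : Over (algebraMap K E) v w) {ρ : v.integer →+* Ω} (hρ : IsRed v ρ) :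
    ∃ ρ' : w.integer →+* Ω, IsRed w ρ' ∧ Cmp (algebraMap K E) ρ ρ' id := by
  obtain ⟨ρ', h1, h2⟩ := exists_red_over h hρ
  refine ⟨ρ', h1, fun x y hy => ?_⟩
  obtain rfl : y = h.int x := Subtype.ext hy
  exact h2 x

theorem vn_prime {A : Type} [CommRing A] [IsDomain A] [UniqueFactorizationMonoid A] [Algebra A K]
    [IsFractionRing A K] {P : A} (hP : Prime P) :
    ∃ v : Vl K, Cen (algebraMap A K) v P ∧ v (algebraMap A K P) = WithZero.exp (-1) :=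
  exists_vcen (isFr_alg A K) hP

theorem vn_cen {A : Type} [CommRing A] [IsDomain A] [UniqueFactorizationMonoid A] [Algebra A K]
    [IsFractionRing A K] {P : A} (hP : Prime P) {v v' : Vl K} (h : Cen (algebraMap A K) v P)
    (h' : Cen (algebraMap A K) v' P) : (∀ x, v' x ≤ 1 ↔ v x ≤ 1) ∧
      ∀ x, x ≠ 0 → ∃ z : ℤ, v x = v (algebraMap A K P) ^ z :=
  ⟨Cen.iff (isFr_alg A K) hP h h', fun _ hx => h.val_zpow (isFr_alg A K) hP hx⟩

end Pool.Agent.ZCy
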