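import Pool.Agent.Lib.MP_751085_ag.ZC.WDefs
import Pool.Agent.Lib.MP_751085_ag.ZC.R0
import Pool.Agent.Lib.MP_751085_ag.ZC.A3c

/-! Specialisation of points; the class of the conjugates of a point. -/

namespace Pool.Agent.ZCy

open scoped Classical WithZero PowerSeries
open Pool.Agent.ZeroCyc Module

variable {K : Type} [Field K] {N : ℕ} {J : Ideal (MvPolynomial (Fin (N + 1)) K)}

variable (J) in
/-- the zero set of `J` is a cone -/
def ScJ : Prop := ∀ (M : Type) [Field M] [Algebra K M] (c : M) (x : Fin (N + 1) → M),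
  OnX J x → OnX J (c • x)

/-- the point `x` specialises to `y` -/
def SpV {M Λ : Type} [Field M] [Field Λ] {w : Vl M} (ρ : w.integer →+* Λ) (x : Fin (N + 1) → M)
    (y : PY Λ N) : Prop :=
  ∃ (c : M) (hc : ∀ i, c * x i ∈ w.integer), (fun i => ρ ⟨c * x i, hc i⟩) ≠ 0 ∧
    y = pj fun i => ρ ⟨c * x i, hc i⟩

/-- `V'` is the base change of `V` -/
def EvSys.Bc {κ : Type} [Field κ] [Algebra K κ] {J' : Ideal (MvPolynomial (Fin (N + 1)) κ)}
    (V : EvSys K J) (V' : EvSys κ J') : Prop :=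
  ∀ (M : Type) [Field M] [Algebra K M] [Algebra κ M] [IsScalarTower K κ M] (x : Fin (N + 1) → M),
    OnX J x → OnX J' x ∧ V'.val M x = V.val M x

section

variable {M M' Λ : Type} [Field M] [Field M'] [Field Λ] {w : Vl M} {w' : Vl M'}
  {ρ : w.integer →+* Λ} {ρ' : w'.integer →+* Λ} {x : Fin (N + 1) → M} {y y' : PY Λ N}

/-- divide by the coordinate of largest value -/
theorem exists_spV (hρ : IsRed w ρ) (hx : x ≠ 0) : ∃ y, SpV ρ x y := by
  obtain ⟨i, hi⟩ := Finite.exists_max fun i => w (x i)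
  obtain ⟨k, hk⟩ := Function.ne_iff.1 hx
  have h0 : x i ≠ 0 := fun h => hk (by simpa [h] using hi k)
  refine ⟨_, (x i)⁻¹, fun k => ?_, fun h => one_ne_zero (α := Λ) ?_, rfl⟩
  · rw [Valuation.mem_integer_iff, map_mul, map_inv₀]
    exact inv_mul_le_one_of_le₀ (hi k) zero_le
  · rw [← map_one ρ]
    exact (congrArg ρ (Subtype.ext (inv_mul_cancel₀ h0).symm)).trans (congrFun h i)

/-- the quotient of the two factors is a unit -/
theorem SpV.unique (hρ : IsRed w ρ) (h : SpV ρ x y) (h' : SpV ρ x y') : y = y' := by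
  obtain ⟨c, hc, h0, rfl⟩ := h
  obtain ⟨c', hc', h0', rfl⟩ := h'
  obtain ⟨i, hi⟩ := Function.ne_iff.1 h0
  have h1 : w (c * x i) = 1 := le_antisymm (hc i) (not_lt.1 fun h => hi ((hρ _).2 h))
  have h2 : c * x i ≠ 0 := fun h => by simp [h] at h1
  have h3 : c' * x i / (c * x i) ∈ w.integer := by
    rw [Valuation.mem_integer_iff, map_div₀, h1, div_one]
    exact hc' i
  have e : (fun k => ρ ⟨c' * x k, hc' k⟩) = ρ ⟨_, h3⟩ • fun k => ρ ⟨c * x k, hc k⟩ :=
    funext fun k => (congrArg ρ (Subtype.ext (by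
      have := left_ne_zero_of_mul h2
      have := right_ne_zero_of_mul h2
      change c' * x k = c' * x i / (c * x i) * (c * x k)
      field_simp))).trans (map_mul ρ ⟨_, h3⟩ ⟨_, hc k⟩)
  rw [e] at h0' ⊢
  rw [pj_smul (left_ne_zero_of_smul h0')]

theorem SpV.map {j : M →+* M'} (hj : Over j w w') (hc : Cmp j ρ ρ' id) (h : SpV ρ x y) :
    SpV ρ' (j ∘ x) y := by
  obtain ⟨c, h1, h2, rfl⟩ := h
  have h3 : ∀ i, j c * (j ∘ x) i ∈ w'.integer := fun i => by
    rw [Function.comp_apply, ← map_mul]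
    exact (hj _).2 (h1 i)
  have e : (fun i => ρ' ⟨_, h3 i⟩) = fun i => ρ ⟨_, h1 i⟩ :=
    funext fun i => hc _ _ (map_mul j _ _).symm
  exact ⟨j c, h3, e ▸ h2, e ▸ rfl⟩

theorem sp_iff [Algebra K M] [Algebra K Λ] (P : Place K M Λ) :
    ZeroCyc.Sp P x y ↔ SpV P.ev x y :=
  exists₂_congr fun _ _ => ⟨fun ⟨h, e⟩ => ⟨h, e.trans (pj_eq h).symm⟩,
    fun ⟨h, e⟩ => ⟨h, e.trans (pj_eq h)⟩⟩

theorem OnX.comp [Algebra K M] [Algebra K M'] (φ : M →ₐ[K] M') (h : OnX J x) : OnX J (φ ∘ x) :=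
  fun G hG => (MvPolynomial.comp_aeval_apply x φ G).symm.trans (by rw [h G hG, map_zero])

theorem w0_of_comp [Algebra K M] [Algebra K M'] (φ : M →ₐ[K] M') (h : OnX J (φ ∘ x)) : OnX J x :=
  fun G hG => φ.injective ((MvPolynomial.comp_aeval_apply x φ G).trans (by
    rw [map_zero]; exact h G hG))

theorem w0_onX (κ : Type) [Field κ] [Algebra K κ] [Algebra K M] [Algebra κ M]
    [IsScalarTower K κ M] : OnX (J.map (MvPolynomial.map (algebraMap K κ))) x ↔ OnX J x :=
  ⟨fun h G hG => (MvPolynomial.aeval_map_algebraMap κ x G).symm.trans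
    (h _ (Ideal.mem_map_of_mem _ hG)), fun h _ hG =>
    (Ideal.map_le_iff_le_comap (K := RingHom.ker (MvPolynomial.aeval (R := κ) x))).2
      (fun G hG => (MvPolynomial.aeval_map_algebraMap κ x G).trans (h G hG)) hG⟩

/-- the composed structure -/
@[reducible] noncomputable def w0_alg (K κ M : Type) [Field K] [Field κ] [Field M] [Algebra K κ]
    [Algebra κ M] : Algebra K M := ((algebraMap κ M).comp (algebraMap K κ)).toAlgebra

theorem w0_tow (K κ M : Type) [Field K] [Field κ] [Field M] [Algebra K κ] [Algebra κ M] :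
    letI := w0_alg K κ M; IsScalarTower K κ M :=
  letI := w0_alg K κ M
  IsScalarTower.of_algebraMap_eq fun _ => rfl

theorem w0_val (V : EvSys K J) (κ : Type) [Field κ] [Algebra K κ] [i : Algebra K M] [Algebra κ M]
    [IsScalarTower K κ M] (x : Fin (N + 1) → M) :
    @EvSys.val _ _ _ _ V M _ (w0_alg K κ M) x = V.val M x := by
  rw [Algebra.algebra_ext (w0_alg K κ M) i
    fun a => (IsScalarTower.algebraMap_apply K κ M a).symm]

theorem w0_nrm (y : PY Λ N) : ∃ i, ∀ v, v ≠ 0 → pj v = y → v i ≠ 0 ∧ nrmP y = (v i)⁻¹ • v := by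
  refine ⟨Classical.epsilon fun i => y.rep i ≠ 0, fun v hv e => ?_⟩
  have h := Classical.epsilon_spec (Function.ne_iff.1 y.rep_nonzero)
  obtain ⟨c, hc, h1⟩ := cl_exists_rep v hv
  rw [← pj_eq hv, e] at h1
  rw [nrmP]
  generalize Classical.epsilon (fun i => y.rep i ≠ 0) = i at h ⊢
  rw [h1] at h ⊢
  refine ⟨right_ne_zero_of_mul h, ?_⟩
  rw [smul_smul, Pi.smul_apply, smul_eq_mul, mul_inv_rev, inv_mul_cancel_right₀ hc]

end

/-- the two structures of `K`-algebra are equal (`Algebra.algebra_ext`) -/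
theorem EvSys.bc_self (V : EvSys K J) : V.Bc V := by
  intro M _ i i' h x hx
  obtain rfl := Algebra.algebra_ext i i' fun a =>
    @IsScalarTower.algebraMap_apply K K M _ _ _ _ i' i h a
  exact ⟨hx, rfl⟩

/-- `J' = J.map (MvPolynomial.map _)`; `val M` uses the composed structure of `K`-algebra; in `arc`
the structure on `Fr M⟦X⟧` is identified by `Algebra.algebra_ext`. -/
theorem EvSys.exists_bc (V : EvSys K J) (hJ : ScJ J) (κ : Type) [Field κ] [Algebra K κ] :
    ∃ (J' : Ideal (MvPolynomial (Fin (N + 1)) κ)) (V' : EvSys κ J'), ScJ J' ∧ V.Bc V' := by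
  refine ⟨J.map (MvPolynomial.map (algebraMap K κ)),
    ⟨fun M _ _ x => @EvSys.val _ _ _ _ V M _ (w0_alg K κ M) x, fun M _ _ c x hc h0 hx => ?_,
      fun M M' _ _ _ _ φ x h0 hx => ?_, fun M _ _ y hy h0 => ?_⟩, fun M _ _ c x hx => ?_,
    fun M _ _ _ _ x hx => ⟨(w0_onX κ).2 hx, w0_val V κ x⟩⟩
  all_goals
    let := w0_alg K κ M
    have := w0_tow K κ M
  · exact V.smul M c x hc h0 ((w0_onX κ).1 hx)
  · let := w0_alg K κ M'
    have := w0_tow K κ M'
    exact V.map M M' (φ.restrictScalars K) x h0 ((w0_onX κ).1 hx)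
  · exact (w0_val V κ _).trans (V.arc M y ((w0_onX κ).1 hy) h0)
  · exact (w0_onX κ).2 (hJ M c x ((w0_onX κ).1 hx))

variable [CharZero K] {L : Type} [Field L] [Algebra K L] [FiniteDimensional K L]

theorem w0_sum {A ι : Type} [AddCommGroup A] [Fintype ι] (p : ι → Prop) (a : A) {f : ι → A}
    (h : ∀ u, f u = if p u then a else 0) : ∑ u, f u = Fintype.card {u // p u} • a := by
  rw [Fintype.card_subtype, ← Finset.sum_const, Finset.sum_filter, funext h]

omit [CharZero K] in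
theorem w0_gal (u₀ u : L →ₐ[K] AlgebraicClosure K) (x : Fin (N + 1) → L) :
    ∃ s : Gm K, pj (u ∘ x) = galY s (pj (u₀ ∘ x)) := by
  obtain ⟨s, rfl⟩ := em_trans (K := K) (M := L) u₀ u
  exact ⟨s, (galY_pj s _).symm⟩

/-- only the embeddings that give the chosen point of the orbit contribute -/
theorem EvSys.pi_emb (V : EvSys K J) (hJ : ScJ J) {x : Fin (N + 1) → L} (h0 : x ≠ 0) (hx : OnX J x) :
    V.pi (∑ u : L →ₐ[K] AlgebraicClosure K, Finsupp.single (pj (u ∘ x)) 1) =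
      cor K L (V.val L x) := by
  let u₀ : L →ₐ[K] AlgebraicClosure K := IsAlgClosed.lift
  obtain ⟨g, hg⟩ := Classical.epsilon_spec ⟨_, cl_self_mem_orb (K := K) (pj (u₀ ∘ x))⟩
  obtain ⟨u₁, h1⟩ : ∃ u₁ : L →ₐ[K] AlgebraicClosure K, ∀ u : L →ₐ[K] AlgebraicClosure K,
      Classical.epsilon (fun z => z ∈ orb K (pj (u ∘ x))) = pj (u₁ ∘ x) :=
    ⟨(g : _ →ₐ[K] _).comp u₀, fun u => by
      obtain ⟨s, hs⟩ := w0_gal u₀ u x
      rw [hs, cl_orb_gal]
      exact hg.symm.trans (galY_pj g _)⟩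
  generalize hy : pj (u₁ ∘ x) = y at h1
  have hn : ∀ u : L →ₐ[K] AlgebraicClosure K, u ∘ x ≠ 0 := fun u h =>
    h0 (funext fun i => (map_eq_zero u).1 (congrFun h i))
  obtain ⟨i, hi⟩ := w0_nrm y
  have hc : (x i)⁻¹ ≠ 0 := inv_ne_zero ((map_ne_zero u₁).1 (hi _ (hn u₁) hy).1)
  have e1 : ∀ u : L →ₐ[K] AlgebraicClosure K, u ∘ ((x i)⁻¹ • x) = (u (x i))⁻¹ • u ∘ x :=
    fun u => funext fun k => by simp
  have e2 : ∀ u : L →ₐ[K] AlgebraicClosure K, y = pj (u ∘ x) ↔ u ∘ ((x i)⁻¹ • x) = nrmP y :=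
    fun u => ⟨fun h => (e1 u).trans (hi _ (hn u) h.symm).2.symm, fun h => by
      have h2 := (hi _ (hn u₁) hy)
      rw [← hy, ← pj_smul (inv_ne_zero h2.1), ← h2.2, ← h, e1,
        pj_smul (by rw [← map_inv₀]; exact (map_ne_zero u).2 hc)]⟩
  have hle : fldP K y ≤ u₁.fieldRange := IntermediateField.adjoin_le_iff.2 (by
    rintro _ ⟨k, rfl⟩
    exact ⟨_, congrFun ((e2 u₁).1 hy.symm) k⟩)
  let φ : fldP K y →ₐ[K] L := (AlgEquiv.ofInjectiveField u₁).symm.toAlgHom.comp
    (IntermediateField.inclusion hle)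
  have hφ : ∀ z, u₁ (φ z) = z := fun z => congrArg Subtype.val
    ((AlgEquiv.ofInjectiveField u₁).apply_symm_apply (IntermediateField.inclusion hle z))
  let z : Fin (N + 1) → fldP K y := fun k =>
    ⟨nrmP y k, IntermediateField.subset_adjoin _ _ ⟨k, rfl⟩⟩
  have hz : φ ∘ z = (x i)⁻¹ • x := funext fun k =>
    u₁.injective ((hφ _).trans (congrFun ((e2 u₁).1 hy.symm) k).symm)
  let := (φ : fldP K y →+* L).toAlgebra
  have : IsScalarTower K (fldP K y) L := IsScalarTower.of_algebraMap_eq fun a => (φ.commutes a).symm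
  have := Module.Finite.right K (fldP K y) L
  have := charZero_of_injective_algebraMap (algebraMap K (fldP K y)).injective
  have hcard : Fintype.card {u : L →ₐ[K] AlgebraicClosure K // y = pj (u ∘ x)} =
      finrank (fldP K y) L := by
    rw [← AlgHom.card (fldP K y) L (AlgebraicClosure K)]
    refine Fintype.card_congr ⟨fun u => ⟨u.1, DFunLike.congr_fun
      (IntermediateField.adjoin_algHom_ext K (s := Set.range (nrmP y)) (φ₁ := u.1.comp φ)
        (φ₂ := (fldP K y).val) ?_)⟩,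
      fun ψ => ⟨ψ.restrictScalars K, (e2 _).2 (hz ▸ funext fun k => ψ.commutes (z k))⟩,
      fun _ => rfl, fun _ => rfl⟩
    rintro _ ⟨k, rfl⟩
    exact (congrArg u.1 (congrFun hz k)).trans (congrFun ((e2 _).1 u.2) k)
  have hx' := hJ L (x i)⁻¹ x hx
  rw [← V.smul L _ x hc h0 hx, ← hz, V.map _ _ φ z
      (fun h => smul_ne_zero hc h0 (by rw [← hz, h]; exact funext fun _ => map_zero φ))
      (w0_of_comp φ (hz ▸ hx')),
    cor_rs φ ((finrank_mul_finrank K (fldP K y) L).symm.trans (mul_comm _ _)), ← hcard,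
    map_sum]
  refine w0_sum (A := BR K) (fun u : L →ₐ[K] AlgebraicClosure K => y = pj (u ∘ x)) _ fun u => ?_
  rw [EvSys.pi, Finsupp.liftAddHom_apply_single, zmultiplesHom_apply, one_zsmul, h1]
  split_ifs with h
  · rw [← h]
    rfl
  · rfl

/-- the sum on the right is invariant -/
theorem avg_emb (u₀ : L →ₐ[K] AlgebraicClosure K) (x : Fin (N + 1) → L) :
    (finrank K L : ℚ) • avg K (Finsupp.single (pj (u₀ ∘ x)) 1) = incl _ N
      (∑ u : L →ₐ[K] AlgebraicClosure K, Finsupp.single (pj (u ∘ x)) 1) := by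
  rw [← avg_of_inv (K := K) fun σ => ?_, map_sum, Finset.sum_congr rfl fun u _ => ?_,
    Finset.sum_const, Finset.card_univ, AlgHom.card, Nat.cast_smul_eq_nsmul]
  · obtain ⟨s, hs⟩ := w0_gal u₀ u x
    rw [hs, ← galC_single, avg_galC]
  · rw [map_sum]
    refine Fintype.sum_equiv (MulAction.toPerm (β := Em K L) σ) _ _ fun u => ?_
    rw [galC_single, galY_pj]
    rfl

end Pool.Agent.ZCy
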