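import Pool.Agent.Lib.MP_751085_ag.ZC.R0b

/-! The number of embeddings that induce a given place. -/

namespace Pool.Agent.ZCy

open scoped Classical WithZero
open Module

theorem w1_conj {L E Λ : Type} [Field L] [Field E] [Field Λ] [Algebra L E] [FiniteDimensional L E]
    [IsGalois L E] {u : Vl L} {w w' : Vl E} {ρ₀ : u.integer →+* Λ} {ρ : w.integer →+* Λ}
    {ρ' : w'.integer →+* Λ} (h : Over (algebraMap L E) u w) (h' : Over (algebraMap L E) u w')
    (hρ : IsRed w ρ) (hρ' : IsRed w' ρ') (c : Cmp (algebraMap L E) ρ₀ ρ id)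
    (c' : Cmp (algebraMap L E) ρ₀ ρ' id) :
    ∃ g : E ≃ₐ[L] E, Over (g : E →+* E) w' w ∧ Cmp g ρ' ρ id := by
  obtain ⟨g, hg⟩ := vn_conj h h'
  have ho : Over (g.symm : E →+* E) w w' := fun x => by
    rw [hg]
    change w (g (g.symm x)) ≤ 1 ↔ _
    rw [g.apply_symm_apply]
  obtain ⟨ρ₂, h₂, c₂⟩ := ho.red hρ'
  obtain ⟨d, hd, cd⟩ := vn_red (K := L) hρ h₂ fun a y hy => by
    have ha : u a ≤ 1 := (h a).1 (hy ▸ y.2)
    have e1 := c ⟨a, ha⟩ y hy
    have e2 := c' ⟨a, ha⟩ ⟨_, (h' a).2 ha⟩ rfl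
    have e3 := c₂ y ⟨_, (h' a).2 ha⟩ (by rw [hy]; exact (g.symm.commutes a).symm)
    exact e1.trans (e2.symm.trans e3)
  refine ⟨d * g, fun x => ?_, fun x y hy => ?_⟩
  · rw [hg]
    change w (d (g x)) ≤ 1 ↔ _
    rw [hd]
  · exact (cd ⟨g x, (hg x).1 x.2⟩ y hy).trans
      (c₂ ⟨g x, (hg x).1 x.2⟩ x (g.symm_apply_apply x).symm).symm

variable {K F E Λ : Type} [Field K] [Field F] [Field E] [Field Λ] [Algebra K F] [Algebra K E]
  [CharZero K] [FiniteDimensional K F] [IsAlgClosed Λ] {v : Vl K} {P : Vl F} {w : Vl E}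
  {ρ₀ : v.integer →+* Λ} {ev : P.integer →+* Λ} {ρ : w.integer →+* Λ} {e : ℕ}

omit [IsAlgClosed Λ] [CharZero K] [FiniteDimensional K F] in
theorem w1_smul (hρ : IsRed w ρ) {i : E ≃ₐ[K] E} (hi : i ∈ Ine K w) {j : F →ₐ[K] E}
    (h : Over (j : F →+* E) P w ∧ Cmp j ev ρ id) :
    Over (((i : E →ₐ[K] E).comp j : F →ₐ[K] E) : F →+* E) P w ∧
      Cmp ((i : E →ₐ[K] E).comp j) ev ρ id :=
  ⟨fun x => (iff_of_eq (congrArg (· ≤ 1) (hi.1 (j x)))).trans (h.1 x),
    h.2.comp ((mem_ine_iff hρ hi.1).1 hi) fun x => (h.1 x).2⟩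

omit [IsAlgClosed Λ] [CharZero K] [FiniteDimensional K F] in
theorem w1_trans [FiniteDimensional K E] [IsGalois K E] [Algebra F E] [IsScalarTower K F E]
    (hρ : IsRed w ρ) (h1 : Over (algebraMap F E) P w) (h2 : Cmp (algebraMap F E) ev ρ id)
    {j : F →ₐ[K] E} (h : Over (j : F →+* E) P w ∧ Cmp j ev ρ id) :
    ∃ i ∈ Ine K w, ∀ x, i (algebraMap F E x) = j x := by
  have : FiniteDimensional F E := FiniteDimensional.right K F E
  have : IsGalois F E := IsGalois.tower_top_of_isGalois K F E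
  let g : E ≃ₐ[K] E := AlgEquiv.ofBijective (j.liftNormal E) (AlgHom.normal_bijective K E E _)
  have hg : ∀ x, g (algebraMap F E x) = j x := j.liftNormal_commutes E
  obtain ⟨ρ', hρ', c'⟩ := (over_comap (g : E →+* E) w).red hρ
  have h3 : Over (algebraMap F E) P (w.comap (g : E →+* E)) := fun x => by
    rw [← h.1 x]
    change w (g _) ≤ 1 ↔ w (j x) ≤ 1
    rw [hg]
  obtain ⟨s, hs, cs⟩ := w1_conj (ρ₀ := ev) h3 h1 hρ' hρ (fun x y hy =>
    (c' y ⟨g y, y.2⟩ rfl).symm.trans (h.2 x _ (by rw [← hg, ← hy]))) h2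
  have hd : g * s.restrictScalars K ∈ Dec K w := vn_dec hs
  refine ⟨_, (mem_ine_iff hρ hd).2 (cs.comp c' fun x => (hs x).2), fun x => ?_⟩
  change g (s _) = _
  rw [s.commutes, hg]

omit [IsAlgClosed Λ] [CharZero K] [FiniteDimensional K F] in
theorem w1_count [FiniteDimensional K E] [IsGalois K E] [Algebra F E] [IsScalarTower K F E]
    (hρ : IsRed w ρ) (h1 : Over (algebraMap F E) P w) (h2 : Cmp (algebraMap F E) ev ρ id) :
    Nat.card {j : F →ₐ[K] E // Over (j : F →+* E) P w ∧ Cmp j ev ρ id} * Nat.card (Ine F w) =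
      Nat.card (Ine K w) := by
  let : MulAction (Ine K w) {j : F →ₐ[K] E // Over (j : F →+* E) P w ∧ Cmp j ev ρ id} :=
    { smul i j := ⟨_, w1_smul hρ i.2 j.2⟩
      one_smul _ := rfl
      mul_smul _ _ _ := rfl }
  let j₀ : {j : F →ₐ[K] E // Over (j : F →+* E) P w ∧ Cmp j ev ρ id} :=
    ⟨IsScalarTower.toAlgHom K F E, h1, h2⟩
  have e1 : ∀ j, j ∈ MulAction.orbit (Ine K w) j₀ := fun j => by
    obtain ⟨i, hi, e⟩ := w1_trans hρ h1 h2 j.2
    exact ⟨⟨i, hi⟩, Subtype.ext (AlgHom.ext e)⟩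
  let e2 : Ine F w ≃ MulAction.stabilizer (Ine K w) j₀ :=
    { toFun s := ⟨⟨s.1.restrictScalars K, s.2⟩, Subtype.ext (AlgHom.ext s.1.commutes)⟩
      invFun i := ⟨{ i.1.1 with
        commutes' := fun x => AlgHom.congr_fun (congrArg Subtype.val i.2) x }, i.1.2⟩
      left_inv _ := rfl
      right_inv _ := rfl }
  rw [← Nat.card_congr (MulAction.orbitProdStabilizerEquivGroup (Ine K w) j₀), Nat.card_prod,
    Nat.card_congr e2, Nat.card_congr (Equiv.subtypeUnivEquiv e1)]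

/-- orbit and stabiliser for the action of the inertia group -/
theorem count_gal [FiniteDimensional K E] [IsGalois K E] (j₁ : F →ₐ[K] E) (hv : Nrm v) (hP : Nrm P)
    (he : Idq (algebraMap K F) v P e) (he0 : 0 < e) (hw : Over (algebraMap K E) v w)
    (h0 : ∀ n : ℕ, n ≠ 0 → v (n : K) = 1) (hev : IsRed P ev) (hρ : IsRed w ρ)
    (h1 : Cmp (algebraMap K F) ρ₀ ev id) (h2 : Cmp (algebraMap K E) ρ₀ ρ id) :
    Nat.card {j : F →ₐ[K] E // Over (j : F →+* E) P w ∧ Cmp j ev ρ id} = e := by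
  have hvP : Over (algebraMap K F) v P := he.isOver (Nat.cast_pos.2 he0)
  obtain ⟨j₀, h3, h4⟩ : ∃ j : F →ₐ[K] E, Over (j : F →+* E) P w ∧ Cmp j ev ρ id := by
    let := j₁.toRingHom.toAlgebra
    have : IsScalarTower K F E := .of_algebraMap_eq fun a => (j₁.commutes a).symm
    have : FiniteDimensional F E := FiniteDimensional.right K F E
    obtain ⟨w', hw'⟩ := vn_exists (E := E) P
    obtain ⟨ρ', hρ', c'⟩ := vn_redext hw' hev
    have e : (algebraMap F E).comp (algebraMap K F) = algebraMap K E :=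
      (IsScalarTower.algebraMap_eq K F E).symm
    obtain ⟨g, hg, cg⟩ := w1_conj hw (e ▸ hvP.comp hw') hρ hρ' h2
      (e ▸ h1.comp c' fun x => (hvP x).2)
    exact ⟨(g : E →ₐ[K] E).comp j₁, hw'.comp hg, c'.comp cg fun x => (hw' x).2⟩
  let := j₀.toRingHom.toAlgebra
  have : IsScalarTower K F E := .of_algebraMap_eq fun a => (j₀.commutes a).symm
  have : FiniteDimensional F E := FiniteDimensional.right K F E
  have : IsGalois F E := IsGalois.tower_top_of_isGalois K F E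
  have hc := w1_count (K := K) hρ h3 h4
  obtain ⟨π, hπ0, hπ⟩ := hv.exists_ord
  obtain ⟨w₀, hw₀, e₀⟩ := vn_nrm (w := w) ((map_ne_zero (algebraMap K E)).2 hπ0)
    ((hw.lt π).2 ((ord_pos hπ0).1 (by rw [hπ]; exact one_pos)))
  have hK : Over (algebraMap K E) v w₀ := fun x => (e₀ _).trans (hw x)
  have hF : Over (algebraMap F E) P w₀ := fun x => (e₀ _).trans (h3 x)
  have hn : ∀ n : ℕ, n ≠ 0 → w₀ (n : E) = 1 := fun n hn => by
    rw [← map_natCast (algebraMap K E), hK.eq_one, h0 n hn]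
  obtain ⟨e', he', hi⟩ := hF.idq_nat hP
  have hi' := he.comp hi
  rw [← IsScalarTower.algebraMap_eq, ← Nat.cast_mul] at hi'
  rw [← (vn_congr e₀).2, ← (vn_congr e₀).2, card_ine hP hw₀ hi (hn _ Nat.card_pos.ne'),
    card_ine hv hw₀ hi' (hn _ Nat.card_pos.ne'), mul_comm] at hc
  exact Nat.eq_of_mul_eq_mul_left he' hc

/-- restrict to the splitting field of a primitive element -/
theorem count_emb (hs : Nat.card (F →ₐ[K] E) = finrank K F) (hv : Nrm v) (hP : Nrm P)
    (he : Idq (algebraMap K F) v P e) (he0 : 0 < e) (hw : Over (algebraMap K E) v w)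
    (h0 : ∀ n : ℕ, n ≠ 0 → v (n : K) = 1) (hev : IsRed P ev) (hρ : IsRed w ρ)
    (h1 : Cmp (algebraMap K F) ρ₀ ev id) (h2 : Cmp (algebraMap K E) ρ₀ ρ id) :
    Nat.card {j : F →ₐ[K] E // Over (j : F →+* E) P w ∧ Cmp j ev ρ id} = e := by
  let pb := Field.powerBasisOfFiniteOfSeparable K F
  have hsp : ((minpoly K pb.gen).map (algebraMap K E)).Splits := by
    rw [Polynomial.splits_iff_card_roots]
    refine le_antisymm (Polynomial.card_roots' _) ?_
    rw [Polynomial.natDegree_map, pb.natDegree_minpoly, ← pb.finrank, ← hs,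
      Nat.card_congr pb.liftEquiv']
    refine le_trans (le_of_eq ?_) (Multiset.toFinset_card_le _)
    rw [← Nat.card_eq_finsetCard]
    exact Nat.card_congr (Equiv.subtypeEquivRight fun _ => Multiset.mem_toFinset.symm)
  let N := IntermediateField.adjoin K ((minpoly K pb.gen).rootSet E)
  have : (minpoly K pb.gen).IsSplittingField K N :=
    IntermediateField.adjoin_rootSet_isSplittingField hsp
  have : FiniteDimensional K N := Polynomial.IsSplittingField.finiteDimensional N (minpoly K pb.gen)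
  have : IsGalois K N :=
    IsGalois.of_separable_splitting_field (Algebra.IsSeparable.isSeparable K pb.gen)
  have hN : ∀ (j : F →ₐ[K] E) x, j x ∈ N.toSubalgebra := fun j x => by
    have : Algebra.adjoin K {pb.gen} ≤ N.toSubalgebra.comap j := Algebra.adjoin_le (by
      rintro _ rfl
      refine IntermediateField.subset_adjoin K _ (Polynomial.mem_rootSet.2
        ⟨minpoly.ne_zero pb.isIntegral_gen, ?_⟩)
      exact (Polynomial.aeval_algHom_apply j _ _).trans (by rw [minpoly.aeval, map_zero]))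
    exact this (pb.adjoin_gen_eq_top ▸ Algebra.mem_top)
  let eq : (F →ₐ[K] N) ≃ (F →ₐ[K] E) :=
    { toFun j := N.val.comp j
      invFun j := j.codRestrict N.toSubalgebra (hN j)
      left_inv _ := rfl
      right_inv _ := rfl }
  obtain ⟨j₁⟩ : Nonempty (F →ₐ[K] E) := (Nat.card_pos_iff.1 (hs ▸ finrank_pos)).1
  obtain ⟨ρ', hρ', c'⟩ := (over_comap (N.val : N →+* E) w).red hρ
  rw [← count_gal (w := w.comap (N.val : N →+* E)) (eq.symm j₁) hv hP he he0 hw h0 hev hρ' h1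
    fun x y hy => (c' y ⟨y.1, y.2⟩ rfl).symm.trans (h2 x _ (congrArg Subtype.val hy))]
  refine (Nat.card_congr (eq.subtypeEquiv fun j => and_congr_right fun h =>
    ⟨fun c => c.comp c' fun x => (h x).2, fun c x y hy => ?_⟩)).symm
  exact (c' y ⟨y.1, y.2⟩ rfl).symm.trans (c x _ (congrArg Subtype.val hy))

end Pool.Agent.ZCy
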