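import Pool.Agent.Lib.MP_751085_ag.ZC.R0

/-! Constant extensions and divisors of rational function fields. -/

namespace Pool.Agent.ZCy

open scoped Classical WithZero Polynomial

/-- constant extensions -/
theorem poly_gal (K K' K₀ : Type) [Field K] [Field K'] [Field K₀] [Algebra K K']
    [FiniteDimensional K K'] [IsGalois K K'] [Algebra K[X] K₀] [IsFractionRing K[X] K₀] :
    ∃ (_ : Algebra K₀ (Fr K'[X])) (_ : FiniteDimensional K₀ (Fr K'[X])) (_ : IsGalois K₀ (Fr K'[X]))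
      (r : (Fr K'[X] ≃ₐ[K₀] Fr K'[X]) ≃* (K' ≃ₐ[K] K')),
      (∀ p : K[X], algebraMap K₀ (Fr K'[X]) (algebraMap K[X] K₀ p) =
        algebraMap K'[X] _ (p.map (algebraMap K K'))) ∧
      ∀ g (p : K'[X]), g (algebraMap K'[X] _ p) = algebraMap K'[X] _ (p.map (r g : K' →+* K')) := by
  let : Algebra K[X] K'[X] := (Polynomial.mapRingHom (algebraMap K K')).toAlgebra
  have hi : Function.Injective (algebraMap K[X] (Fr K'[X])) :=
    (IsFractionRing.injective K'[X] _).comp (Polynomial.map_injective _ (algebraMap K K').injective)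
  let : Algebra K₀ (Fr K'[X]) := (IsFractionRing.lift hi : K₀ →+* _).toAlgebra
  have : IsScalarTower K[X] K₀ (Fr K'[X]) :=
    .of_algebraMap_eq fun p => (IsFractionRing.lift_algebraMap hi p).symm
  have hG : IsGaloisGroup (K' ≃ₐ[K] K') K[X] K'[X] := by
    refine ⟨⟨fun {g g'} e => AlgEquiv.ext fun x => ?_⟩, ⟨fun g a f => ?_⟩, ⟨fun f hf => ?_⟩⟩
    · simpa using congrArg (Polynomial.coeff · 0) (e (Polynomial.C x))
    · rw [Algebra.smul_def, Algebra.smul_def, smul_mul']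
      refine congrArg (· * g • f) (Polynomial.ext fun n => ?_)
      change g • (a.map (algebraMap K K')).coeff n = (a.map (algebraMap K K')).coeff n
      rw [Polynomial.coeff_map, smul_algebraMap]
    · exact (Polynomial.mem_lifts f).1 ((Polynomial.lifts_iff_coeff_lifts f).2 fun n =>
        (InfiniteGalois.mem_bot_iff_fixed _).2 fun g => congrArg (Polynomial.coeff · n) (hf g))
  let := IsFractionRing.mulSemiringAction (K' ≃ₐ[K] K') K'[X] (Fr K'[X])
  have := IsGaloisGroup.to_isFractionRing (K' ≃ₐ[K] K') K[X] K'[X] K₀ (Fr K'[X])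
  refine ⟨_, IsGaloisGroup.finiteDimensional (K' ≃ₐ[K] K') _ _,
    IsGaloisGroup.isGalois (K' ≃ₐ[K] K') _ _, (IsGaloisGroup.mulEquivAlgEquiv _ _ _).symm,
    IsFractionRing.lift_algebraMap hi, fun g p => ?_⟩
  obtain ⟨g, rfl⟩ := (IsGaloisGroup.mulEquivAlgEquiv (K' ≃ₐ[K] K') K₀ (Fr K'[X])).surjective g
  rw [MulEquiv.symm_apply_apply]
  exact (algebraMap.coe_smul' g p (Fr K'[X])).symm.trans
    (congrArg _ (congrFun (Polynomial.smul_eq_map K' g) p))

/-- monic irreducible polynomials -/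
def MI (K : Type) [Field K] : Type := {P : K[X] // P.Monic ∧ Irreducible P}

/-- the divisor of a rational function -/
theorem poly_div (K T : Type) [Field K] [Field T] [Algebra K[X] T] [IsFractionRing K[X] T] :
    ∃ w : MI K → Vl T, (∀ P, Cen (algebraMap K[X] T) (w P) P.1) ∧
      (∀ P Q : MI K, ord (w P) (algebraMap K[X] T Q.1) = if P = Q then 1 else 0) ∧
      (∀ (P : MI K) (w' : Vl T), Cen (algebraMap K[X] T) w' P.1 →
        ord w' (algebraMap K[X] T P.1) = 1 → w' = w P) ∧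
      (∀ x, {P | ord (w P) x ≠ 0}.Finite) ∧
      ∀ x, x ≠ 0 → (∀ P, ord (w P) x = 0) → ∃ z : K, x = algebraMap K[X] T (Polynomial.C z) := by
  choose w hw h1 using fun P : MI K => vn_prime (K := T) P.2.2.prime
  have hi : ∀ {a : K[X]}, a ≠ 0 → algebraMap K[X] T a ≠ 0 :=
    (map_ne_zero_iff _ (IsFractionRing.injective K[X] T)).2
  have h0 : ∀ (P : MI K) {a : K[X]}, a ≠ 0 → (ord (w P) (algebraMap K[X] T a) = 0 ↔ ¬P.1 ∣ a) :=
    fun P a ha => by
      rw [ord_eq_zero (hi ha), ← (hw P).2, not_lt]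
      exact ⟨fun e => e.ge, le_antisymm ((hw P).1 a)⟩
  have h2 : ∀ {a : K[X]}, a ≠ 0 → {P | ord (w P) (algebraMap K[X] T a) ≠ 0}.Finite := fun {a} ha =>
    ((UniqueFactorizationMonoid.normalizedFactors a).finite_toSet.preimage
      (f := fun P : MI K => P.1) Subtype.val_injective.injOn).subset fun P hP =>
      (Polynomial.mem_normalizedFactors_iff ha).2 ⟨P.2.2, P.2.1, not_not.1 ((h0 P ha).not.1 hP)⟩
  have h3 : ∀ {a b : K[X]}, a ≠ 0 → b ≠ 0 → IsRelPrime a b → (∀ P, ord (w P) (algebraMap K[X] T a) =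
      ord (w P) (algebraMap K[X] T b)) → ∃ z, IsUnit z ∧ Polynomial.C z = a :=
    fun {a b} ha hb hab e => Polynomial.isUnit_iff.1 (by
      by_contra h
      obtain ⟨P, hm, hP, hd⟩ := Polynomial.exists_monic_irreducible_factor a h
      exact (h0 ⟨P, hm, hP⟩ ha).1 ((e _).trans ((h0 ⟨P, hm, hP⟩ hb).2
        fun h' => hP.not_isUnit (hab hd h'))) hd)
  refine ⟨w, hw, fun P Q => ?_, fun P w' h e =>
    vn_eq ⟨_, h1 P⟩ ⟨algebraMap K[X] T P.1, ?_⟩
    (vn_cen P.2.2.prime (hw P) h).1, fun x => ?_, fun x hx e => ?_⟩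
  · split_ifs with h
    · rw [← h, ord, h1, WithZero.log_exp, neg_neg]
    · exact (h0 P Q.2.2.ne_zero).2 fun hd => h (Subtype.ext (Polynomial.eq_of_monic_of_associated
        P.2.1 Q.2.1 (P.2.2.associated_of_dvd Q.2.2 hd)))
  · rw [ord_eq (hi P.2.2.ne_zero), e]
  · obtain ⟨a, b, hb, rfl⟩ := IsFractionRing.div_surjective (A := K[X]) x
    by_cases ha : a = 0
    · simp [ha, ord]
    refine ((h2 ha).union (h2 (nonZeroDivisors.ne_zero hb))).subset fun P hP => ?_
    by_contra h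
    simp only [Set.mem_union, Set.mem_ofPred_eq, not_or, not_not] at h
    exact hP (by rw [ord_div (hi ha) (hi (nonZeroDivisors.ne_zero hb)), h.1, h.2, sub_self])
  · obtain ⟨a, b, hab, rfl⟩ := IsFractionRing.exists_reduced_fraction K[X] x
    rw [IsFractionRing.mk'_eq_div] at hx e ⊢
    have ha : a ≠ 0 := by rintro rfl; simp at hx
    have hb := nonZeroDivisors.ne_zero b.2
    simp only [ord_div (hi ha) (hi hb), sub_eq_zero] at e
    obtain ⟨y, -, hy⟩ := h3 ha hb hab e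
    obtain ⟨z, hz, hz'⟩ := h3 hb ha hab.symm fun P => (e P).symm
    refine ⟨y / z, ?_⟩
    rw [div_eq_iff (hi hb), ← hy, ← hz', ← map_mul, ← map_mul, div_mul_cancel₀ _ hz.ne_zero]

/-- the prime below: the minimal polynomial over `K` of the class of `X` -/
theorem exists_below {K K' : Type} [Field K] [Field K'] [Algebra K K'] [FiniteDimensional K K']
    (P' : MI K') : ∃ P : K[X], Prime P ∧ ∀ a : K[X], P'.1 ∣ a.map (algebraMap K K') ↔ P ∣ a := by
  have : Fact (Irreducible P'.1) := ⟨P'.2.2⟩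
  refine ⟨minpoly K (AdjoinRoot.root P'.1), minpoly.prime
    (isIntegral_trans _ (AdjoinRoot.isIntegral_root P'.2.2.ne_zero)), fun a => ?_⟩
  rw [minpoly.dvd_iff, ← Polynomial.aeval_map_algebraMap K', AdjoinRoot.aeval_eq,
    AdjoinRoot.mk_eq_zero]

section

variable {K K₀ : Type} [Field K] [Field K₀] [Algebra K K₀] {t : K₀} {v : Vl K₀}

theorem w2a_C (hv : Triv (algebraMap K K₀) v) (a : K) : v (algebraMap K K₀ a) ≤ 1 := by
  by_cases h : a = 0
  · simp [h]
  · exact (hv a h).le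

theorem w2a_le (hv : Triv (algebraMap K K₀) v) (h : v t < 1) (p : K[X]) :
    v (Polynomial.aeval t p) ≤ 1 := by
  rw [Polynomial.aeval_eq_sum_range]
  refine v.map_sum_le fun i _ => ?_
  rw [Algebra.smul_def, map_mul, map_pow]
  exact mul_le_one' (w2a_C hv _) (pow_le_one' h.le _)

theorem w2a_lt (hv : Triv (algebraMap K K₀) v) (h : v t < 1) (p : K[X]) :
    v (t * Polynomial.aeval t p) < 1 := by
  rw [map_mul]
  exact (mul_le_of_le_one_right' (w2a_le hv h p)).trans_lt h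

theorem w2a_eq (t : K₀) (p : K[X]) : Polynomial.aeval t p =
    algebraMap K K₀ (p.coeff 0) + t * Polynomial.aeval t p.divX := by
  conv_lhs => rw [← p.X_mul_divX_add, map_add, map_mul, Polynomial.aeval_X, Polynomial.aeval_C,
    add_comm]

theorem w2a_one (hv : Triv (algebraMap K K₀) v) (h : v t < 1) {p : K[X]} (hp : p.coeff 0 ≠ 0) :
    v (Polynomial.aeval t p) = 1 := by
  rw [w2a_eq, v.map_add_eq_of_lt_left ((w2a_lt hv h _).trans_eq (hv _ hp).symm), hv _ hp]

theorem w2a_cases (ht : IntermediateField.adjoin K {t} = ⊤) (x : K₀) : ∃ p q : K[X],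
    q.coeff 0 ≠ 0 ∧ (x = Polynomial.aeval t p / Polynomial.aeval t q ∨
      x ≠ 0 ∧ x⁻¹ = t * Polynomial.aeval t p / Polynomial.aeval t q) := by
  by_cases h0 : x = 0
  · exact ⟨0, 1, by simp, .inl (by simp [h0])⟩
  obtain ⟨r, s, e⟩ := (IntermediateField.mem_adjoin_simple_iff K x).1
    (ht ▸ IntermediateField.mem_top : x ∈ IntermediateField.adjoin K {t})
  obtain ⟨a, b, c, hab, rfl, rfl⟩ := UniqueFactorizationMonoid.exists_reduced_factors' r s
    (by rintro rfl; simp [h0] at e)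
  rw [map_mul, map_mul, mul_div_mul_left _ _ fun h => by simp [h, h0] at e] at e
  by_cases hb : b.coeff 0 = 0
  · refine ⟨b.divX, a, fun ha => Polynomial.not_isUnit_X
      (hab (Polynomial.X_dvd_iff.2 ha) (Polynomial.X_dvd_iff.2 hb)), .inr ⟨h0, ?_⟩⟩
    rw [e, inv_div, w2a_eq t b, hb, map_zero, zero_add]
  · exact ⟨a, b, hb, .inl e⟩

theorem w2a_not (hv : Triv (algebraMap K K₀) v) (h : v t < 1) {x : K₀} {p q : K[X]}
    (hq : q.coeff 0 ≠ 0) (h0 : x ≠ 0)
    (e : x⁻¹ = t * Polynomial.aeval t p / Polynomial.aeval t q) : ¬v x ≤ 1 := by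
  rw [not_le, v.one_lt_val_iff h0, e, map_div₀, w2a_one hv h hq, div_one]
  exact w2a_lt hv h p

end

/-- two valuations of `K(t)` that are trivial on `K` and positive at `t` -/
theorem ratfunc_val {K K₀ : Type} [Field K] [Field K₀] [Algebra K K₀] {t : K₀}
    (ht : IntermediateField.adjoin K {t} = ⊤) {v : Vl K₀} (hv : Triv (algebraMap K K₀) v)
    (h : v t < 1) : (∀ x, v x ≤ 1 → ∃ z : K, v (x - algebraMap K K₀ z) < 1) ∧
      ∀ v' : Vl K₀, Triv (algebraMap K K₀) v' → v' t < 1 → ∀ x, v' x ≤ 1 ↔ v x ≤ 1 := by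
  refine ⟨fun x hx => ?_, fun v' hv' h' x => ?_⟩ <;> obtain ⟨p, q, hq, e | e⟩ := w2a_cases ht x
  · have h1 := w2a_one hv h hq
    have h2 : Polynomial.aeval t q ≠ 0 := fun e => by simp [e] at h1
    refine ⟨p.coeff 0 / q.coeff 0, ?_⟩
    rw [e, div_sub' h2, map_div₀, h1, div_one, w2a_eq t p, w2a_eq t q, add_mul, ← map_mul,
      mul_div_cancel₀ _ hq, add_sub_add_left_eq_sub]
    refine v.map_sub_lt (w2a_lt hv h _) ?_
    rw [map_mul]
    exact (mul_le_of_le_one_right' (w2a_C hv _)).trans_lt (w2a_lt hv h _)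
  · exact absurd hx (w2a_not hv h hq e.1 e.2)
  · rw [e, map_div₀, map_div₀, w2a_one hv h hq, w2a_one hv' h' hq, div_one, div_one]
    exact iff_of_true (w2a_le hv' h' p) (w2a_le hv h p)
  · exact iff_of_false (w2a_not hv' h' hq e.1 e.2) (w2a_not hv h hq e.1 e.2)

end Pool.Agent.ZCy
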