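import Pool.Agent.Lib.MP_751085_ag.ZC.W3l
import Pool.Agent.Lib.MP_751085_ag.ZC.R7

/-! The corestriction of the value at a point of a curve is constant along every arc. -/

namespace Pool.Agent.ZCy

open scoped Classical WithZero PowerSeries
open Pool.Agent.ZeroCyc Module

theorem w3a_ne {A B ι : Type} [Field A] [Field B] (φ : A →+* B) {g : ι → A} (h : g ≠ 0) :
    φ ∘ g ≠ 0 := fun e => h (funext fun i => (map_eq_zero φ).1 (congrFun e i))

theorem w3a_sum {A B ι : Type} [AddCommGroup A] [AddCommGroup B] (f : A →+ B) (s : Finset ι)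
    (x : ι → A) : f (∑ i ∈ s, x i) = ∑ i ∈ s, f (x i) := map_sum f x s

section

variable {K₀ F L M : Type} [Field K₀] [Field F] [Field L] [Field M] [Algebra K₀ F] [Algebra K₀ L]
  [Algebra L M] [Algebra K₀ M] [IsScalarTower K₀ L M]

/-- the composite of `τ` with an embedding of the compositum -/
noncomputable def w3aJ (τ : EmO F (algebraMap K₀ L)) (ψ : τ.fld →ₐ[L] M) : F →ₐ[K₀] M :=
  { (ψ : τ.fld →+* M).comp τ.hom with
    commutes' := fun a => (congrArg ψ (a3c_hom_base τ a)).trans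
      ((ψ.commutes _).trans (IsScalarTower.algebraMap_apply K₀ L M a).symm) }

variable [CharZero K₀] [CharZero L] [FiniteDimensional K₀ F] [FiniteDimensional L M]

theorem w3a_card (hs : Nat.card (F →ₐ[K₀] M) = finrank K₀ F) (τ : EmO F (algebraMap K₀ L)) :
    Nat.card (τ.fld →ₐ[L] M) = finrank L τ.fld := by
  let ι : M →ₐ[L] AlgebraicClosure L := IsAlgClosed.lift
  have := a3c_finite (M := F) (algebraMap K₀ L)
  have h : Function.Bijective fun j : F →ₐ[K₀] M => a3cRes (γ := algebraMap K₀ L) (j : F →+* M)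
      (fun a => (j.commutes a).trans (IsScalarTower.algebraMap_apply K₀ L M a)) ι :=
    Function.Injective.bijective_of_nat_card_le
      (fun j j' e => AlgHom.ext fun x => ι.injective (congrArg (fun t => t.1 x) e))
      (by rw [EmO.card, hs])
  rw [← a3c_card_em]
  refine Nat.card_congr (Equiv.ofBijective (fun ψ => ι.comp ψ)
    ⟨fun ψ ψ' e => AlgHom.ext fun x => ι.injective (congrArg (fun t => t.hom x) e), fun ψ => ?_⟩)
  obtain ⟨j, hj⟩ := h.2 (a3cRes τ.hom (a3c_hom_base τ) ψ)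
  have h1 : τ.fld ≤ (ι.fieldRange.comap ψ.hom).map τ.fld.val := by
    refine IntermediateField.adjoin_le_iff.2 ?_
    rintro _ ⟨x, rfl⟩
    exact ⟨τ.hom x, ⟨j x, congrArg (fun t => t.1 x) hj⟩, rfl⟩
  refine ⟨(AlgEquiv.ofInjectiveField ι).symm.toAlgHom.comp (ψ.hom.codRestrict ι.range fun z => ?_),
    AlgHom.ext fun z => congrArg Subtype.val ((AlgEquiv.ofInjectiveField ι).apply_symm_apply _)⟩
  obtain ⟨z', h2, h3⟩ := h1 z.2
  exact (Subtype.ext h3 : z' = z) ▸ h2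

theorem w3a_bij (hs : Nat.card (F →ₐ[K₀] M) = finrank K₀ F) {T : Finset (EmO F (algebraMap K₀ L))}
    (h1 : ∀ τ : EmO F (algebraMap K₀ L), ∃! τ₀, τ₀ ∈ T ∧ ∃ g : Gm L, ∀ x, τ.1 x = g (τ₀.1 x))
    (h2 : ∑ τ ∈ T, finrank L τ.fld = finrank K₀ F) :
    Function.Bijective fun p : Σ τ : T, τ.1.fld →ₐ[L] M => w3aJ p.1.1 p.2 := by
  let ι : M →ₐ[L] AlgebraicClosure L := IsAlgClosed.lift
  refine Function.Injective.bijective_of_nat_card_le ?_ (by
    rw [hs, Nat.card_sigma, ← h2, ← Finset.sum_coe_sort]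
    simp only [w3a_card hs, le_refl])
  rintro ⟨⟨τ, hτ⟩, ψ⟩ ⟨⟨τ', hτ'⟩, ψ'⟩ e
  have e' : ∀ x, ψ (τ.hom x) = ψ' (τ'.hom x) := DFunLike.congr_fun e
  obtain rfl : τ = τ' := (h1 (a3cRes τ.hom (a3c_hom_base τ) (ι.comp ψ))).unique
    ⟨hτ, a3c_fld_orb τ (ι.comp ψ)⟩ ⟨hτ', (a3c_fld_orb τ' (ι.comp ψ')).imp fun _ hg x =>
      (congrArg ι (e' x)).trans (hg x)⟩
  obtain rfl : ψ = ψ' := IntermediateField.adjoin_algHom_ext L (s := Set.range τ.1)
    (by rintro _ ⟨x, rfl⟩; exact e' x)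
  rfl

end

variable {K : Type} [Field K] [CharZero K] {N : ℕ} {J : Ideal (MvPolynomial (Fin (N + 1)) K)}
  {K₀ F : Type} [Field K₀] [Field F] [Algebra K K₀] [Algebra K₀ F] [Algebra K F]
  [IsScalarTower K K₀ F] [FiniteDimensional K₀ F] {g : Fin (N + 1) → F}

/-- a splitting extension -/
theorem exists_split {K₀ L : Type} (F : Type) [Field K₀] [Field L] [Field F] [CharZero L]
    [Algebra K₀ F] [FiniteDimensional K₀ F] [Algebra K₀ L] :
    ∃ (M : Type) (_ : Field M) (_ : Algebra L M) (_ : FiniteDimensional L M) (_ : Algebra K₀ M)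
      (_ : IsScalarTower K₀ L M), Nat.card (F →ₐ[K₀] M) = finrank K₀ F := by
  have := (algebraMap K₀ L).charZero
  let pb := Field.powerBasisOfFiniteOfSeparable K₀ F
  refine ⟨((minpoly K₀ pb.gen).map (algebraMap K₀ L)).SplittingField, inferInstance, inferInstance,
    inferInstance, inferInstance, inferInstance, ?_⟩
  rw [AlgHom.natCard_of_powerBasis pb (Algebra.IsSeparable.isSeparable _ _), pb.finrank]
  have h := Polynomial.SplittingField.splits ((minpoly K₀ pb.gen).map (algebraMap K₀ L))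
  rwa [Polynomial.map_map, ← IsScalarTower.algebraMap_eq] at h

theorem EvSys.rs_cor (V : EvSys K J) {κ : Type} [Field κ] [Algebra K κ]
    {J' : Ideal (MvPolynomial (Fin (N + 1)) κ)} {V' : EvSys κ J'} (hJ' : ScJ J') (hV : V.Bc V')
    [Algebra K₀ (Fr κ⟦X⟧)] [IsScalarTower K K₀ (Fr κ⟦X⟧)] {M : Type} [Field M]
    [Algebra (Fr κ⟦X⟧) M] [FiniteDimensional (Fr κ⟦X⟧) M] [Algebra K₀ M]
    [IsScalarTower K₀ (Fr κ⟦X⟧) M] {w₀ : Vl (Fr κ⟦X⟧)} {w : Vl M}
    {ρ : w.integer →+* AlgebraicClosure κ} (h : PsV κ M w₀ w ρ)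
    (hs : Nat.card (F →ₐ[K₀] M) = finrank K₀ F) (h0 : g ≠ 0) (hg : OnX J g)
    {y : (F →ₐ[K₀] M) → PY (AlgebraicClosure κ) N}
    (hy : ∀ j : F →ₐ[K₀] M, SpV ρ (j ∘ g) (y j)) :
    rs (algebraMap K₀ (Fr κ⟦X⟧)) (corF K₀ F (V.val F g)) =
      rs (algebraMap κ (Fr κ⟦X⟧)) (V'.pi (∑ j, Finsupp.single (y j) 1)) := by
  have := charZero_of_injective_ringHom (algebraMap K K₀).injective
  have := charZero_of_injective_ringHom (algebraMap K κ).injective
  have := charZero_of_injective_ringHom (algebraMap κ (Fr κ⟦X⟧)).injective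
  obtain ⟨T, h1, h2, h3⟩ := cor_orbits F (algebraMap K₀ (Fr κ⟦X⟧))
  rw [← (w3a_bij hs h1 h2).sum_comp fun j => Finsupp.single (y j) (1 : ℤ), Fintype.sum_sigma]
  refine (h3 _).trans (Eq.trans ?_ (w3a_sum (B := BR (Fr κ⟦X⟧))
    ((rs (algebraMap κ (Fr κ⟦X⟧))).comp V'.pi) _ _).symm)
  rw [← Finset.sum_coe_sort T]
  refine Finset.sum_congr rfl ?_
  rintro ⟨τ, hτ⟩ -
  let φ : F →ₐ[K] τ.fld :=
    { τ.hom with
      commutes' := fun a => by
        rw [IsScalarTower.algebraMap_apply K K₀ F]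
        exact (a3c_hom_base τ _).trans (by rw [← IsScalarTower.algebraMap_apply K K₀]; rfl) }
  have : IsScalarTower K κ τ.fld := .of_algebraMap_eq fun a =>
    congrArg (algebraMap (Fr κ⟦X⟧) τ.fld) (IsScalarTower.algebraMap_apply K κ _ a)
  have h4 := hV τ.fld (φ ∘ g) (OnX.comp φ hg)
  have h6 := V'.cor_local hJ' h (w3a_card hs τ) (w3a_ne (φ : F →+* τ.fld) h0) h4.1
    (y := fun ψ => y (w3aJ τ ψ)) fun ψ => hy (w3aJ τ ψ)
  rw [RingHom.coe_coe, h4.2, V.map F τ.fld φ g h0 hg] at h6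
  exact h6

theorem EvSys.unram_cor (V : EvSys K J) (hJ : ScJ J) (h0 : g ≠ 0) (hg : OnX J g) {v : Vl K₀}
    (hv : Triv (algebraMap K K₀) v) : Unram v (corF K₀ F (V.val F g)) := by
  refine unram_of_arc _ hv fun κ _ ι j hj => ?_
  let := ι.toAlgebra
  let := j.toAlgebra
  have : IsScalarTower K K₀ (Fr κ⟦X⟧) := .of_algebraMap_eq fun a =>
    (IsScalarTower.algebraMap_apply K κ _ a).trans (hj a).symm
  have := charZero_of_injective_ringHom ι.injective
  have := charZero_of_injective_ringHom (algebraMap κ (Fr κ⟦X⟧)).injective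
  obtain ⟨J', V', hJ', hV⟩ := V.exists_bc hJ κ
  obtain ⟨M, _, _, _, _, _, hs⟩ := exists_split (K₀ := K₀) (L := Fr κ⟦X⟧) F
  obtain ⟨w₀, w, ρ, h⟩ := exists_psVM (κ := κ) M
  choose y hy using fun j : F →ₐ[K₀] M => exists_spV h.red (w3a_ne (j : F →+* M) h0)
  exact ⟨_, V.rs_cor hJ' hV h hs h0 hg hy⟩

end Pool.Agent.ZCy
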