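import Pool.Agent.Lib.MP_751085_ag.ZC.W3c
import Pool.Agent.Lib.MP_751085_ag.ZC.W2
import Pool.Agent.Lib.MP_751085_ag.ZC.A6

/-! The class of a principal divisor vanishes. -/

namespace Pool.Agent.ZCy

open scoped Classical WithZero PowerSeries IntermediateField Polynomial
open Pool.Agent.ZeroCyc Module

variable {K : Type} [Field K] {N : ℕ} {J : Ideal (MvPolynomial (Fin (N + 1)) K)}

/-- `t` is algebraic over `K⟮f⟯` (exchange: `f` is a root of a polynomial over `K[t]`), so `F` is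
finite over `K⟮f⟯` -/
theorem finite_of_transc {F : Type} [Field F] [Algebra K F] {t f : F} [FiniteDimensional K⟮t⟯ F]
    (hf : Transcendental K f) : FiniteDimensional K⟮f⟯ F := by
  have hal : IsAlgebraic K⟮f⟯ t := by
    by_cases ht : IsAlgebraic K t
    · exact ht.tower_top _
    · have h1 : IsAlgebraic K⟮t⟯ f := Algebra.IsAlgebraic.isAlgebraic f
      have h2 : IsAlgebraic (Algebra.adjoin K {f}) (algebraMap F F t) :=
        IsAlgebraic.adjoin_singleton ht hf (IntermediateField.isAlgebraic_adjoin_iff.1 h1)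
      exact IntermediateField.isAlgebraic_adjoin_iff.2 h2
  have ha := hal.isIntegral
  set E : IntermediateField K⟮f⟯ F := K⟮f⟯⟮t⟯ with hE
  have : FiniteDimensional K⟮f⟯ E := IntermediateField.adjoin.finiteDimensional ha
  have h4 : K⟮t⟯ ≤ E.restrictScalars K :=
    IntermediateField.adjoin_simple_le_iff.2 (IntermediateField.mem_adjoin_simple_self K⟮f⟯ t)
  let : Algebra K⟮t⟯ E :=
    (Subfield.inclusion (S := K⟮t⟯.toSubfield) (T := E.toSubfield) fun _ hx => h4 hx).toAlgebra
  have : IsScalarTower K⟮t⟯ E F := IsScalarTower.of_algebraMap_eq fun _ => rfl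
  have : Module.Finite E F := Module.Finite.of_restrictScalars_finite K⟮t⟯ E F
  exact Module.Finite.trans E F

theorem w3b_frac {K₀ : Type} [Field K₀] [Algebra K K₀] {t : K₀} (h : Transcendental K t)
    (ht : IntermediateField.adjoin K {t} = ⊤) :
    ∃ (_ : Algebra K[X] K₀) (_ : IsFractionRing K[X] K₀),
      ∀ p : K[X], algebraMap K[X] K₀ p = Polynomial.aeval t p := by
  let : Algebra K[X] K₀ := (Polynomial.aeval t : K[X] →ₐ[K] K₀).toRingHom.toAlgebra
  have hi : Function.Injective (algebraMap K[X] K₀) := transcendental_iff_injective.1 h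
  have : FaithfulSMul K[X] K₀ := (faithfulSMul_iff_algebraMap_injective _ _).2 hi
  refine ⟨inferInstance, IsFractionRing.of_field _ _ fun z => ?_, fun _ => rfl⟩
  have hz : z ∈ K⟮t⟯ := ht ▸ IntermediateField.mem_top
  exact (IntermediateField.mem_adjoin_simple_iff K z).1 hz



/-- the expansion in a transcendental generator -/
theorem exists_expansion {K₀ : Type} [Field K₀] [Algebra K K₀] {t : K₀} (h : Transcendental K t)
    (ht : IntermediateField.adjoin K {t} = ⊤) :
    ∃ γ : K₀ →ₐ[K] Fr K⟦X⟧, γ t = algebraMap K⟦X⟧ _ PowerSeries.X := by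
  obtain ⟨_, _, e⟩ := w3b_frac h ht
  let φ : K[X] →+* Fr K⟦X⟧ := (algebraMap K⟦X⟧ (Fr K⟦X⟧)).comp Polynomial.coeToPowerSeries.ringHom
  have hφ : Function.Injective φ :=
    (IsFractionRing.injective K⟦X⟧ (Fr K⟦X⟧)).comp (Polynomial.coe_injective K)
  let γ : K₀ →+* Fr K⟦X⟧ := IsFractionRing.lift hφ
  have hγ : ∀ p, γ (algebraMap K[X] K₀ p) = φ p := fun p => IsFractionRing.lift_algebraMap hφ p
  refine ⟨{ γ with commutes' := fun a => ?_ }, ?_⟩
  · have h1 := hγ (Polynomial.C a)
    rw [e, Polynomial.aeval_C] at h1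
    refine h1.trans ?_
    rw [IsScalarTower.algebraMap_apply K K⟦X⟧ (Fr K⟦X⟧)]
    exact congrArg (algebraMap K⟦X⟧ (Fr K⟦X⟧)) (Polynomial.coe_C a)
  · have h1 := hγ Polynomial.X
    rw [e, Polynomial.aeval_X] at h1
    exact h1.trans (congrArg (algebraMap K⟦X⟧ (Fr K⟦X⟧)) Polynomial.coe_X)

theorem w3b_const [CharZero K] (V : EvSys K J) (hJ : ScJ J) {K₀ F : Type} [Field K₀] [Field F]
    [Algebra K K₀] [Algebra K₀ F] [Algebra K F] [IsScalarTower K K₀ F] [FiniteDimensional K₀ F]
    {g : Fin (N + 1) → F} (h0 : g ≠ 0) (hg : OnX J g) {t : K₀} (h : Transcendental K t)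
    (ht : IntermediateField.adjoin K {t} = ⊤) :
    ∃ b₀ : BR K, corF K₀ F (V.val F g) = rs (algebraMap K K₀) b₀ := by
  obtain ⟨_, _, e⟩ := w3b_frac h ht
  have e' : (algebraMap K[X] K₀).comp Polynomial.C = algebraMap K K₀ := RingHom.ext fun a => by
    rw [RingHom.comp_apply, e, Polynomial.aeval_C]
  rw [← e']
  refine exists_const _ fun P v hP hc => V.unram_cor hJ h0 hg fun x hx => ?_
  rw [← e', RingHom.comp_apply]
  refine le_antisymm (hc.1 _) (not_lt.1 fun hl => hP.not_isUnit ?_)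
  exact isUnit_of_dvd_unit ((hc.2 _).1 hl) (Polynomial.isUnit_C.2 (Ne.isUnit hx))

theorem w3b_place [CharZero K] (V : EvSys K J) (hJ : ScJ J) {K₀ F : Type} [Field K₀] [Field F]
    [Algebra K K₀] [Algebra K₀ F] [Algebra K F] [IsScalarTower K K₀ F] [FiniteDimensional K₀ F]
    {g : Fin (N + 1) → F} (h0 : g ≠ 0) (hg : OnX J g) {t : K₀} (h : Transcendental K t)
    (ht : IntermediateField.adjoin K {t} = ⊤) {b₀ : BR K}
    (hb : corF K₀ F (V.val F g) = rs (algebraMap K K₀) b₀) :
    ∃ (S : Finset (Place K F (AlgebraicClosure K)))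
      (y : Place K F (AlgebraicClosure K) → PY (AlgebraicClosure K) N),
      (∀ P, P ∈ S ↔ P.v (algebraMap K₀ F t) < 1) ∧ (∀ P, SpV P.ev g (y P)) ∧
      V.pi (∑ P ∈ S, Finsupp.single (y P) (ord P.v (algebraMap K₀ F t))) = b₀ := by
  obtain ⟨γ, hγ⟩ := exists_expansion h ht
  obtain ⟨S, y, h1, h2, h3⟩ := V.rs_cor_place hJ h0 hg ht γ hγ
  refine ⟨S, y, h1, h2, rs_ps_injective ?_⟩
  rw [← h3, hb]
  have e : (γ : K₀ →+* Fr K⟦X⟧).comp (algebraMap K K₀) = algebraMap K (Fr K⟦X⟧) :=
    RingHom.ext fun a => γ.commutes a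
  rw [← e]
  exact res_res _ _ _

theorem w3b_gen_top {F : Type} [Field F] [Algebra K F] (f : F) :
    IntermediateField.adjoin K {IntermediateField.AdjoinSimple.gen K f} = ⊤ := by
  refine eq_top_iff.2 fun x _ => ?_
  obtain ⟨r, s, e⟩ := (IntermediateField.mem_adjoin_simple_iff K x.1).1 x.2
  refine (IntermediateField.mem_adjoin_simple_iff K x).2 ⟨r, s, Subtype.ext ?_⟩
  have h : ∀ p : K[X], ((Polynomial.aeval (IntermediateField.AdjoinSimple.gen K f) p : K⟮f⟯) : F) =
      Polynomial.aeval f p := fun p =>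
    (Polynomial.aeval_algebraMap_apply F (IntermediateField.AdjoinSimple.gen K f) p).symm
  rw [e, ← h, ← h]
  rfl

theorem w3b_inv_top {K₀ : Type} [Field K₀] [Algebra K K₀] {t : K₀}
    (ht : IntermediateField.adjoin K {t} = ⊤) : IntermediateField.adjoin K {t⁻¹} = ⊤ := by
  refine eq_top_iff.2 (ht ▸ IntermediateField.adjoin_simple_le_iff.2 ?_)
  have := inv_mem (IntermediateField.mem_adjoin_simple_self K t⁻¹)
  rwa [inv_inv] at this

theorem w3b_gen [CharZero K] (V : EvSys K J) (hJ : ScJ J) {F : Type} [Field F] [Algebra K F] {t : F}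
    [FiniteDimensional K⟮t⟯ F] {g : Fin (N + 1) → F} {f : F} (h0 : g ≠ 0) (hg : OnX J g)
    (hf : f ≠ 0) {D : PY (AlgebraicClosure K) N →₀ ℤ}
    (hD : ∀ y, D y = ∑ᶠ (P : Place K F (AlgebraicClosure K)) (_ : ZeroCyc.Sp P g y),
      -WithZero.log (P.v f)) : V.pi D = 0 := by
  have h1 : ∀ z (P : Place K F (AlgebraicClosure K)),
      (∑ᶠ (_ : ZeroCyc.Sp P g z), -WithZero.log (P.v f)) =
        if ZeroCyc.Sp P g z then ord P.v f else 0 := fun z P => finsum_eq_if
  simp only [h1] at hD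
  by_cases ha : IsAlgebraic K f
  · have : D = 0 := Finsupp.ext fun z => by
      rw [hD]
      refine finsum_eq_zero_of_forall_eq_zero fun P => ?_
      rw [(ord_eq_zero hf).2 ((place_facts P).2.2.algebraic ha hf), ite_self]
    rw [this]
    exact V.pi.map_zero
  have hF : FiniteDimensional K⟮f⟯ F := finite_of_transc (t := t) ha
  have ht : Transcendental K (IntermediateField.AdjoinSimple.gen K f) := fun h =>
    ha (h.algebraMap (A := F))
  have ht' : Transcendental K (IntermediateField.AdjoinSimple.gen K f)⁻¹ := fun h =>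
    ht (IsAlgebraic.inv_iff.1 h)
  obtain ⟨b₀, hb⟩ := w3b_const V hJ h0 hg ht (w3b_gen_top f)
  obtain ⟨S, y, hS, hy, e⟩ := w3b_place V hJ h0 hg ht (w3b_gen_top f) hb
  obtain ⟨S', y', hS', hy', e'⟩ := w3b_place V hJ h0 hg ht' (w3b_inv_top (w3b_gen_top f)) hb
  obtain rfl : y = y' := funext fun P => SpV.unique (place_facts P).2.1 (hy P) (hy' P)
  have u : algebraMap K⟮f⟯ F (IntermediateField.AdjoinSimple.gen K f) = f := rfl
  have u' : algebraMap K⟮f⟯ F (IntermediateField.AdjoinSimple.gen K f)⁻¹ = f⁻¹ := by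
    rw [map_inv₀, u]
  rw [u] at hS e
  rw [u'] at hS' e'
  have k : ∀ P, P ∈ S ↔ 0 < ord P.v f := fun P => (hS P).trans (ord_pos hf).symm
  have k' : ∀ P, P ∈ S' ↔ ord P.v f < 0 := fun P => by
    rw [hS' P, ← ord_pos (inv_ne_zero hf), ord_inv, neg_pos]
  have hd : Disjoint S S' := Finset.disjoint_left.2 fun P h h' =>
    lt_asymm ((k P).1 h) ((k' P).1 h')
  have hD' : D = (∑ P ∈ S, Finsupp.single (y P) (ord P.v f)) -
      ∑ P ∈ S', Finsupp.single (y P) (ord P.v f⁻¹) := by
    have h2 : (∑ P ∈ S', Finsupp.single (y P) (ord P.v f⁻¹)) =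
        -∑ P ∈ S', Finsupp.single (y P) (ord P.v f) := by
      rw [← Finset.sum_neg_distrib]
      exact Finset.sum_congr rfl fun P _ => by rw [ord_inv, Finsupp.single_neg]
    rw [h2, sub_neg_eq_add, ← Finset.sum_union hd]
    refine Finsupp.ext fun z => ?_
    rw [hD, finsum_eq_sum_of_support_subset (s := S ∪ S'), Finsupp.finsetSum_apply]
    · refine Finset.sum_congr rfl fun P _ => ?_
      rw [Finsupp.single_apply]
      refine if_congr ⟨fun h => SpV.unique (place_facts P).2.1 (hy P) ((sp_iff P).1 h),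
        fun h => (sp_iff P).2 (h ▸ hy P)⟩ rfl rfl
    · intro P hP
      have h3 : ord P.v f ≠ 0 := fun h3 => hP (by simp only [h3, ite_self])
      rw [Finset.mem_coe, Finset.mem_union, k, k']
      exact (lt_or_gt_of_ne h3).symm
  rw [hD', map_sub, e, e']
  exact sub_self b₀



/-- Induction on the closure. If `f` is algebraic all orders vanish (`Triv.algebraic`). Otherwise
`K₀ = K⟮f⟯` is a fraction field of `K[X]`; `unram_cor` and `exists_const` give
`corF K₀ F (V.val F g) = rs b₀`; `rs_cor_place` for `f` and `f⁻¹`, `res_res`, `rs_ps_injective`: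
both classes are `b₀`. `D` is the difference of the two divisors (`sp_iff`, `SpV.unique`,
`finsum_eq_sum_of_support_subset`, `ord_inv`). -/
theorem EvSys.pi_ratEq [CharZero K] (V : EvSys K J) (hJ : ScJ J)
    {D : PY (AlgebraicClosure K) N →₀ ℤ} (hD : D ∈ RatEq J (AlgebraicClosure K)) : V.pi D = 0 := by
  have h : RatEq J (AlgebraicClosure K) ≤ V.pi.ker := by
    refine (AddSubgroup.closure_le _).2 ?_
    rintro D ⟨F, _, _, t, -, _, g, f, h0, hg, hf, hD⟩
    exact w3b_gen V hJ (t := t) h0 hg hf hD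
  exact h hD

end Pool.Agent.ZCy
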