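import Pool.Agent.Lib.MP_751085_ag.ZC.W3a
import Pool.Agent.Lib.MP_751085_ag.ZC.W1
import Pool.Agent.Lib.MP_751085_ag.ZC.W2a
import Pool.Agent.Lib.MP_796ce4_ag.ZY.PlaceA

/-! The constant along a rational place is the class of the divisor of zeros. -/

namespace Pool.Agent.ZCy

open scoped Classical WithZero PowerSeries
open Pool.Agent.ZeroCyc Module

variable {K : Type} [Field K] {N : ℕ} {J : Ideal (MvPolynomial (Fin (N + 1)) K)}
  {K₀ F : Type} [Field K₀] [Field F] [Algebra K K₀] [Algebra K₀ F] [Algebra K F]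
  [IsScalarTower K K₀ F] {g : Fin (N + 1) → F}

theorem place_facts {Λ : Type} [Field Λ] [Algebra K Λ] [Algebra.IsAlgebraic K Λ] (P : Place K F Λ) :
    Nrm P.v ∧ IsRed P.v P.ev ∧ Triv (algebraMap K F) P.v :=
  ⟨P.surj _, fun x => Place.Val.eq_zero_iff (P := P) ⟨x.2, rfl⟩,
    fun _ ha => Place.placea_v_alg P ha⟩

theorem w3c_surj {w : Vl F} (h : Nrm w) : Function.Surjective w := by
  obtain ⟨π, hπ⟩ := h
  intro a
  rcases eq_or_ne a 0 with rfl | ha
  · exact ⟨0, map_zero w⟩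
  · refine ⟨π ^ (-WithZero.log a), ?_⟩
    rw [map_zpow₀, hπ, ← WithZero.exp_zsmul, smul_eq_mul, mul_neg, mul_one, neg_neg,
      WithZero.exp_log ha]

/-- the place induced by an embedding: normalise `w.comap j` (`vn_nrm`), `Over.red` -/
theorem exists_place {Λ M : Type} [Field Λ] [Algebra K Λ] [Algebra.IsAlgebraic K Λ] [Field M]
    {w : Vl M} {ρ : w.integer →+* Λ} (hρ : IsRed w ρ) (j : F →+* M)
    (hc : ∀ z : K, ∃ h, ρ ⟨j (algebraMap K F z), h⟩ = algebraMap K Λ z) {t : F} (h0 : t ≠ 0)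
    (ht : w (j t) < 1) : ∃! P : Place K F Λ, Over j P.v w ∧ Cmp j P.ev ρ id := by
  obtain ⟨w', hn, he⟩ := vn_nrm (w := w.comap j) h0 ht
  have ho : Over j w' w := fun x => (he x).symm
  obtain ⟨ρ₀, -, hc₀⟩ := ho.red hρ
  have key : ∀ P Q : Place K F Λ, Over j P.v w ∧ Cmp j P.ev ρ id →
      Over j Q.v w ∧ Cmp j Q.ev ρ id → P = Q := by
    intro P Q hP hQ
    have hv : P.v = Q.v :=
      vn_eq (place_facts Q).1 (place_facts P).1 fun x => (hP.1 x).symm.trans (hQ.1 x)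
    refine Place.ext' hv ?_
    rintro f c ⟨hf, rfl⟩
    have h1 : j f ∈ w.integer := (hP.1 f).2 hf
    have h2 : f ∈ Q.v.integer := (hQ.1 f).1 h1
    exact ⟨h2, (hQ.2 ⟨f, h2⟩ ⟨_, h1⟩ rfl).symm.trans (hP.2 ⟨f, hf⟩ ⟨_, h1⟩ rfl)⟩
  have hal : ∀ c : K, ∃ h, ρ₀ ⟨algebraMap K F c, h⟩ = algebraMap K Λ c := by
    intro c
    obtain ⟨h, e⟩ := hc c
    exact ⟨(ho _).1 h, (hc₀ ⟨_, (ho _).1 h⟩ ⟨_, h⟩ rfl).symm.trans e⟩
  exact ⟨⟨w', w3c_surj hn, ρ₀, hal⟩, ⟨ho, hc₀⟩, fun Q hQ => key _ _ hQ ⟨ho, hc₀⟩⟩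

/-- two residue maps over a rational place agree -/
theorem w3c_cmp {Λ : Type} [Field Λ] [Algebra K Λ] [Algebra.IsAlgebraic K Λ] (Q : Place K F Λ)
    {v : Vl K₀} {ρ₀ : v.integer →+* Λ} (hρ : IsRed v ρ₀) (ho : Over (algebraMap K₀ F) v Q.v)
    (hc : ∀ z : K, ∃ h, ρ₀ ⟨algebraMap K K₀ z, h⟩ = algebraMap K Λ z)
    (hr : ∀ x, v x ≤ 1 → ∃ z : K, v (x - algebraMap K K₀ z) < 1) :
    Cmp (algebraMap K₀ F) ρ₀ Q.ev id := by
  intro x y hxy
  obtain ⟨z, hz⟩ := hr x x.2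
  obtain ⟨h1, e1⟩ := hc z
  obtain ⟨h2, e2⟩ := Q.ev_alg z
  have a1 : ρ₀ (x - ⟨_, h1⟩) = 0 := (hρ _).2 hz
  have a2 : Q.ev (y - ⟨_, h2⟩) = 0 := by
    refine ((place_facts Q).2.1 _).2 ?_
    have := (ho.lt _).2 hz
    rw [map_sub, ← hxy, ← IsScalarTower.algebraMap_apply] at this
    exact this
  rw [map_sub, sub_eq_zero] at a1 a2
  exact (a2.trans e2).trans (a1.trans e1).symm

variable [CharZero K] [FiniteDimensional K₀ F]

/-- `exists_split`, `exists_psVM`, `rs_cor` with `bc_self`. Let `P j` be the place of `j`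
(`exists_place`), `S` the image. For a place `P` with `P.v t < 1` apply `count_emb` with
`v = w₀.comap γ` (`IsVR.val_X`, `ratfunc_val`, `Over.idq_nat`): the number of `j` with `P j = P` is
`ord P.v t > 0`. `SpV.map`, `Finset.sum_fiberwise_of_maps_to`. -/
theorem EvSys.rs_cor_place (V : EvSys K J) (hJ : ScJ J) (h0 : g ≠ 0) (hg : OnX J g) {t : K₀}
    (ht : IntermediateField.adjoin K {t} = ⊤) (γ : K₀ →ₐ[K] Fr K⟦X⟧)
    (hγ : γ t = algebraMap K⟦X⟧ _ PowerSeries.X) :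
    ∃ (S : Finset (Place K F (AlgebraicClosure K)))
      (y : Place K F (AlgebraicClosure K) → PY (AlgebraicClosure K) N),
      (∀ P, P ∈ S ↔ P.v (algebraMap K₀ F t) < 1) ∧ (∀ P, SpV P.ev g (y P)) ∧
      rs (γ : K₀ →+* Fr K⟦X⟧) (corF K₀ F (V.val F g)) = rs (algebraMap K (Fr K⟦X⟧))
        (V.pi (∑ P ∈ S, Finsupp.single (y P) (ord P.v (algebraMap K₀ F t)))) := by
  let _ : Algebra K₀ (Fr K⟦X⟧) := (γ : K₀ →+* Fr K⟦X⟧).toAlgebra
  have hγa : ∀ x, algebraMap K₀ (Fr K⟦X⟧) x = γ x := fun _ => rfl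
  have : IsScalarTower K K₀ (Fr K⟦X⟧) :=
    IsScalarTower.of_algebraMap_eq fun x => (γ.commutes x).symm
  have : CharZero (Fr K⟦X⟧) := charZero_of_injective_ringHom (algebraMap K _).injective
  have : CharZero K₀ := charZero_of_injective_ringHom (algebraMap K _).injective
  obtain ⟨M, _, _, _, _, _, hs⟩ := exists_split (K₀ := K₀) (L := Fr K⟦X⟧) F
  obtain ⟨w₀, w, ρ, h⟩ := exists_psVM (κ := K) M
  have hC : ∀ z : K, algebraMap K (Fr K⟦X⟧) z = algebraMap K⟦X⟧ (Fr K⟦X⟧) (PowerSeries.C z) :=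
    fun z => IsScalarTower.algebraMap_apply K K⟦X⟧ _ z
  have hM : ∀ x, algebraMap K₀ M x = algebraMap (Fr K⟦X⟧) M (γ x) :=
    fun x => IsScalarTower.algebraMap_apply K₀ (Fr K⟦X⟧) M x
  have hcz : ∀ z : K, ∃ h', ρ ⟨algebraMap K₀ M (algebraMap K K₀ z), h'⟩ = algebraMap K _ z := by
    intro z
    have e : algebraMap K₀ M (algebraMap K K₀ z) =
        algebraMap (Fr K⟦X⟧) M (algebraMap K _ z) := by rw [hM, γ.commutes]
    refine ⟨?_, h.cst z _ e⟩
    rw [Valuation.mem_integer_iff, e, h.ov, hC]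
    exact h.vr.le _
  let v : Vl K₀ := w₀.comap (γ : K₀ →+* Fr K⟦X⟧)
  have hvt : v t = WithZero.exp (-1) := by
    rw [← h.vr.val_X, ← hγ]
    rfl
  have hvt1 : v t < 1 := by
    rw [hvt, ← WithZero.exp_zero, WithZero.exp_lt_exp]
    norm_num
  have ht0 : t ≠ 0 := by
    rintro rfl
    rw [map_zero] at hvt
    exact WithZero.exp_ne_zero hvt.symm
  have htF : algebraMap K₀ F t ≠ 0 := (map_ne_zero _).2 ht0
  have hvtr : Triv (algebraMap K K₀) v := by
    intro z hz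
    have := h.vr.triv z hz
    rw [RingHom.comp_apply, ← hC, ← γ.commutes] at this
    exact this
  have hw : Over (algebraMap K₀ M) v w := fun x => by
    rw [hM, h.ov]
    rfl
  have hjt : ∀ j : F →ₐ[K₀] M, w ((j : F →+* M) (algebraMap K₀ F t)) < 1 := fun j => by
    have := (hw.lt t).2 hvt1
    rw [← j.commutes] at this
    exact this
  have hex : ∀ j : F →ₐ[K₀] M, ∃ P : Place K F (AlgebraicClosure K),
      (Over (j : F →+* M) P.v w ∧ Cmp j P.ev ρ id) ∧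
        ∀ Q : Place K F (AlgebraicClosure K), Over (j : F →+* M) Q.v w ∧ Cmp j Q.ev ρ id → Q = P := by
    intro j
    refine exists_place h.red (j : F →+* M) (fun z => ?_) htF (hjt j)
    obtain ⟨h1, e1⟩ := hcz z
    have e : (j : F →+* M) (algebraMap K F z) = algebraMap K₀ M (algebraMap K K₀ z) := by
      rw [IsScalarTower.algebraMap_apply K K₀ F]
      exact j.commutes _
    exact ⟨e ▸ h1, (congrArg ρ (Subtype.ext e)).trans e1⟩
  choose P hP hU using hex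
  choose y hy using fun Q : Place K F (AlgebraicClosure K) => exists_spV (place_facts Q).2.1 h0
  obtain ⟨ρ₀, hρ₀, hc₀⟩ := hw.red h.red
  obtain ⟨hr1, hr2⟩ := ratfunc_val ht hvtr hvt1
  have hcount : ∀ Q : Place K F (AlgebraicClosure K), Q.v (algebraMap K₀ F t) < 1 →
      ((Finset.univ.filter fun j => P j = Q).card : ℤ) = ord Q.v (algebraMap K₀ F t) := by
    intro Q hQ
    obtain ⟨hn, hred, htr⟩ := place_facts Q
    have ho : Over (algebraMap K₀ F) v Q.v := by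
      refine hr2 (Q.v.comap (algebraMap K₀ F)) (fun z hz => ?_) hQ
      have := htr z hz
      rw [IsScalarTower.algebraMap_apply K K₀ F] at this
      exact this
    obtain ⟨e, he0, he⟩ := ho.idq_nat ⟨t, hvt⟩
    have h1 : Cmp (algebraMap K₀ F) ρ₀ Q.ev id := by
      refine w3c_cmp Q hρ₀ ho (fun z => ?_) hr1
      obtain ⟨h2, e2⟩ := hcz z
      exact ⟨(hw _).1 h2, (hc₀ ⟨_, (hw _).1 h2⟩ ⟨_, h2⟩ rfl).symm.trans e2⟩
    have hc := count_emb hs ⟨t, hvt⟩ hn he he0 hw (fun n hn => hvtr.nat hn) hred h.red h1 hc₀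
    have e1 : ord v t = 1 := by
      unfold ord
      rw [hvt, WithZero.log_exp, neg_neg]
    have e2 := he t ht0
    rw [e1, Int.cast_one, mul_one] at e2
    have e3 : ord Q.v (algebraMap K₀ F t) = e := by exact_mod_cast e2
    rw [e3, ← hc, Nat.card_eq_fintype_card, Fintype.card_subtype]
    refine congrArg _ (congrArg _ (Finset.filter_congr fun j _ => ?_))
    exact ⟨fun e => e ▸ hP j, fun e => (hU j Q e).symm⟩
  have hS : ∀ Q, Q ∈ Finset.univ.image P ↔ Q.v (algebraMap K₀ F t) < 1 := by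
    intro Q
    constructor
    · intro hQ
      obtain ⟨j, -, rfl⟩ := Finset.mem_image.1 hQ
      exact ((hP j).1.lt _).1 (hjt j)
    · intro hQ
      have h1 := hcount Q hQ
      have h2 := (ord_pos htF).2 hQ
      rw [← h1, Int.natCast_pos, Finset.card_pos] at h2
      obtain ⟨j, hj⟩ := h2
      exact Finset.mem_image.2 ⟨j, Finset.mem_univ _, (Finset.mem_filter.1 hj).2⟩
  refine ⟨Finset.univ.image P, y, hS, hy, ?_⟩
  have main := V.rs_cor hJ V.bc_self h hs h0 hg (y := fun j => y (P j))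
    fun j => SpV.map (hP j).1 (hP j).2 (hy (P j))
  refine main.trans (congrArg _ (congrArg _ ?_))
  rw [Finset.sum_comp (fun Q => Finsupp.single (y Q) (1 : ℤ)) P]
  refine Finset.sum_congr rfl fun Q hQ => ?_
  rw [← hcount Q ((hS Q).1 hQ), Finsupp.smul_single, nsmul_one]

end Pool.Agent.ZCy
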