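import Pool.Agent.Lib.MP_751085_ag.ZC.W0
import Pool.Agent.Lib.MP_751085_ag.ZC.RP

/-! Corestriction of the value at a point over a finite extension of a power series field. -/

namespace Pool.Agent.ZCy

open scoped Classical WithZero PowerSeries
open Pool.Agent.ZeroCyc Module

variable {κ : Type} [Field κ] [CharZero κ] {N : ℕ} {J : Ideal (MvPolynomial (Fin (N + 1)) κ)}

/-- the data of a valued extension of the power series field with residues in the closure -/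
structure PsV (κ M : Type) [Field κ] [Field M] [Algebra (Fr κ⟦X⟧) M] (w₀ : Vl (Fr κ⟦X⟧)) (w : Vl M)
    (ρ : w.integer →+* AlgebraicClosure κ) : Prop where
  vr : IsVR (algebraMap κ⟦X⟧ (Fr κ⟦X⟧)) w₀
  ov : Over (algebraMap (Fr κ⟦X⟧) M) w₀ w
  red : IsRed w ρ
  cst : ∀ (z : κ) (y : w.integer), (y : M) = algebraMap (Fr κ⟦X⟧) M (algebraMap κ _ z) →
    ρ y = algebraMap κ _ z

theorem exists_psVM (M : Type) [Field M] [Algebra (Fr κ⟦X⟧) M] [FiniteDimensional (Fr κ⟦X⟧) M] :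
    ∃ (w₀ : Vl (Fr κ⟦X⟧)) (w : Vl M) (ρ : w.integer →+* AlgebraicClosure κ), PsV κ M w₀ w ρ := by
  obtain ⟨w₀, h₀, -⟩ := exists_psV κ
  obtain ⟨w, hw⟩ := vn_exists (E := M) w₀
  obtain ⟨ρ₀, h1, h2⟩ := h₀.red (algebraMap κ (AlgebraicClosure κ))
  obtain ⟨ρ, h3, h4⟩ := vn_redext hw h1
  refine ⟨w₀, w, ρ, h₀, hw, h3, fun z y hy => ?_⟩
  rw [h4 ⟨_, h₀.le (PowerSeries.C z)⟩ y hy, id, h2 (PowerSeries.C z) _ rfl,
    PowerSeries.constantCoeff_C]

theorem w3l_fib {K K' L M' : Type} [Field K] [CharZero K] [Field K'] [Field L] [Field M']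
    [Algebra K K'] [FiniteDimensional K K'] [Algebra L M'] [FiniteDimensional L M']
    {γ : K →+* L} {θ : K' →+* M'} (hθ : ∀ a, θ (algebraMap K K' a) = algebraMap L M' (γ a))
    (ht : ∀ τ τ' : EmO K' γ, ∃ g : Gm L, ∀ x, τ'.1 x = g (τ.1 x)) {n : ℕ}
    (hn : finrank L M' = n * finrank K K') (τ₀ : EmO K' γ) :
    Nat.card {ψ : Em L M' // a3cRes θ hθ ψ = τ₀} = n := by
  have : CharZero L := charZero_of_injective_ringHom γ.injective
  have := a3c_finite (M := K') γ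
  have := Fintype.ofFinite (EmO K' γ)
  have hc : ∀ τ : EmO K' γ, Nat.card {ψ : Em L M' // a3cRes θ hθ ψ = τ} =
      Nat.card {ψ : Em L M' // a3cRes θ hθ ψ = τ₀} := by
    intro τ
    obtain ⟨g, rfl⟩ := a3c_orb.1 (ht τ₀ τ)
    exact (Nat.card_congr ((MulAction.toPerm g).subtypeEquiv fun ψ =>
      (smul_left_cancel_iff g).symm)).symm
  refine Nat.eq_of_mul_eq_mul_right (finrank_pos (R := K) (M := K')) ?_
  rw [← hn, ← a3c_card_em (K' := L), ← EmO.card γ, ← Nat.card_congr (Equiv.sigmaFiberEquiv (a3cRes θ hθ)),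
    Nat.card_sigma, Finset.sum_congr rfl fun τ _ => hc τ, Finset.sum_const, Finset.card_univ,
    Nat.card_eq_fintype_card (α := EmO K' γ), smul_eq_mul, mul_comm]

/-- All fibres have the same size if the group is transitive. -/
theorem card_fibre {K K' L M' M : Type} [Field K] [CharZero K] [Field K'] [Field L] [Field M']
    [Field M] [Algebra K K'] [FiniteDimensional K K'] [Algebra L M'] [FiniteDimensional L M']
    [Algebra L M] [FiniteDimensional L M] {γ : K →+* L} {θ : K' →+* M'}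
    (hθ : ∀ a, θ (algebraMap K K' a) = algebraMap L M' (γ a))
    (ht : ∀ τ τ' : EmO K' γ, ∃ g : Gm L, ∀ x, τ'.1 x = g (τ.1 x))
    (hs : Nat.card (M' →ₐ[L] M) = finrank L M') {n : ℕ} (hn : finrank L M' = n * finrank K K') :
    Nat.card {t : K' →+* M // ∀ a, t (algebraMap K K' a) = algebraMap L M (γ a)} = finrank K K' ∧
    ∀ t : K' →+* M, (∀ a, t (algebraMap K K' a) = algebraMap L M (γ a)) →
      Nat.card {ψ : M' →ₐ[L] M // ∀ x, ψ (θ x) = t x} = n := by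
  have : CharZero L := charZero_of_injective_ringHom γ.injective
  let i : M →ₐ[L] AlgebraicClosure L := IsAlgClosed.lift
  have hi : Function.Injective i := i.injective
  let Φ : (M' →ₐ[L] M) ≃ Em L M' := Equiv.ofBijective (fun ψ => i.comp ψ)
    ((Nat.bijective_iff_injective_and_card _).2
      ⟨fun ψ ψ' e => AlgHom.ext fun x => hi (congrArg (fun j : Em L M' => j.hom x) e),
        hs.trans a3c_card_em.symm⟩)
  let Ψ : {t : K' →+* M // ∀ a, t (algebraMap K K' a) = algebraMap L M (γ a)} → EmO K' γ :=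
    fun t => ⟨(i : M →+* AlgebraicClosure L).comp t.1, fun a =>
      (congrArg i (t.2 a)).trans (i.commutes _)⟩
  refine ⟨?_, fun t h => ?_⟩
  · rw [← EmO.card γ]
    refine Nat.card_congr (Equiv.ofBijective Ψ ⟨fun t t' e => Subtype.ext (RingHom.ext fun x =>
      hi (congrArg (fun τ : EmO K' γ => τ.1 x) e)), fun τ => ?_⟩)
    obtain ⟨⟨ψ, rfl⟩⟩ := (Nat.card_ne_zero.1 ((w3l_fib hθ ht hn τ).trans_ne
      (left_ne_zero_of_mul (hn ▸ finrank_pos.ne')))).1
    obtain ⟨ψ, rfl⟩ := Φ.surjective ψ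
    exact ⟨⟨(ψ : M' →+* M).comp θ, fun a => (congrArg ψ (hθ a)).trans (ψ.commutes _)⟩, rfl⟩
  · rw [← w3l_fib hθ ht hn (Ψ ⟨t, h⟩)]
    exact Nat.card_congr (Φ.subtypeEquiv fun ψ => ⟨fun e => a3c_ext fun x => congrArg i (e x),
      fun e x => hi (congrArg (fun τ : EmO K' γ => τ.1 x) e)⟩)

/-- reduction is a bijection between the embeddings of a finite extension of the constants -/
theorem w3l_red {M κ' : Type} [Field M] [Algebra (Fr κ⟦X⟧) M] [Field κ'] [Algebra κ κ']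
    [FiniteDimensional κ κ'] {w₀ : Vl (Fr κ⟦X⟧)} {w : Vl M} {ρ : w.integer →+* AlgebraicClosure κ}
    (h : PsV κ M w₀ w ρ) : ∃ R : {t : κ' →+* M // ∀ a, t (algebraMap κ κ' a) =
      algebraMap (Fr κ⟦X⟧) M (algebraMap κ _ a)} → κ' →ₐ[κ] AlgebraicClosure κ,
      Function.Injective R ∧ ∀ t a (y : w.integer), w (y - t.1 a) < 1 → ρ y = R t a := by
  let : Algebra κ M := ((algebraMap (Fr κ⟦X⟧) M).comp (algebraMap κ _)).toAlgebra
  have h1 : Triv (algebraMap κ M) w := fun a ha => (h.ov.eq_one _).2 (h.vr.triv a ha)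
  have h2 : ∀ (t : {t : κ' →+* M // ∀ a, t (algebraMap κ κ' a) =
      algebraMap (Fr κ⟦X⟧) M (algebraMap κ _ a)}) (a : κ'), IsAlgebraic κ (t.1 a) := fun t a =>
    (Algebra.IsAlgebraic.isAlgebraic a).algHom ({ t.1 with commutes' := t.2 } : κ' →ₐ[κ] M)
  have h3 : ∀ x : M, IsAlgebraic κ x → x ∈ w.integer := fun x hx => by
    by_cases h0 : x = 0
    · exact h0 ▸ zero_mem _
    · exact (h1.algebraic hx h0).le
  refine ⟨fun t => { ρ.comp (t.1.codRestrict w.integer fun a => h3 _ (h2 t a)) with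
    commutes' := fun a => h.cst a _ (t.2 a) }, fun t t' e => Subtype.ext (RingHom.ext fun a => ?_),
    fun t a y hy => ?_⟩
  · by_contra h0
    exact (h1.algebraic ((h2 t a).sub (h2 t' a)) (sub_ne_zero.2 h0)).not_lt
      ((h.red (⟨_, h3 _ (h2 t a)⟩ - ⟨_, h3 _ (h2 t' a)⟩)).1
        ((map_sub _ _ _).trans (sub_eq_zero.2 (DFunLike.congr_fun e a))))
  · exact sub_eq_zero.1 ((map_sub ρ y ⟨_, h3 _ (h2 t a)⟩).symm.trans ((h.red _).2 hy))

theorem w3l_val (V : EvSys κ J) (hJ : ScJ J) {M' κ' : Type} [Field M'] [Algebra κ M'] [Field κ']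
    [Algebra κ κ'] (e : Fr κ'⟦X⟧ ≃+* M')
    (h3 : ∀ a, e (algebraMap κ' _ (algebraMap κ κ' a)) = algebraMap κ M' a) {x : Fin (N + 1) → M'}
    (h0 : x ≠ 0) (hx : OnX J x) {c : M'} (hc : c ≠ 0) {s : Fin (N + 1) → κ'⟦X⟧}
    (hs' : ∀ i, e (algebraMap κ'⟦X⟧ _ (s i)) = c * x i)
    (hz : (fun i => PowerSeries.constantCoeff (s i)) ≠ 0) :
    (OnX J fun i => PowerSeries.constantCoeff (s i)) ∧
      V.val M' x = rs ((e : Fr κ'⟦X⟧ →+* M').comp (algebraMap κ' _))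
        (V.val κ' fun i => PowerSeries.constantCoeff (s i)) := by
  have : CharZero κ' := charZero_of_injective_ringHom (algebraMap κ _).injective
  let E : Fr κ'⟦X⟧ ≃ₐ[κ] M' := AlgEquiv.ofRingEquiv (f := e) fun a =>
    (congrArg e (IsScalarTower.algebraMap_apply κ κ' _ a)).trans (h3 a)
  have e1 : c • x = (E : Fr κ'⟦X⟧ →ₐ[κ] M') ∘ fun i => algebraMap κ'⟦X⟧ _ (s i) :=
    funext fun i => (hs' i).symm
  have o1 : OnX J fun i => algebraMap κ'⟦X⟧ (Fr κ'⟦X⟧) (s i) := fun G hG => E.injective (by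
    rw [map_zero, ← hJ M' c x hx G hG, e1]
    exact MvPolynomial.comp_aeval_apply _ (E : Fr κ'⟦X⟧ →ₐ[κ] M') G)
  refine ⟨fun G hG => ?_, ?_⟩
  · have h4 : MvPolynomial.aeval s G = 0 := IsFractionRing.injective _ (Fr κ'⟦X⟧) (by
      rw [map_zero, ← o1 G hG]
      exact MvPolynomial.comp_aeval_apply _ (IsScalarTower.toAlgHom κ κ'⟦X⟧ (Fr κ'⟦X⟧)) G)
    have h5 := MvPolynomial.map_aeval s PowerSeries.constantCoeff G
    rw [h4, map_zero] at h5
    exact h5.symm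
  · rw [← V.smul M' c x hc h0 hx, e1, V.map _ _ _ _ (fun e => smul_ne_zero hc h0 (by
      rw [e1, e]; exact funext fun _ => map_zero _)) o1, V.arc κ' s o1 hz, res_res]
    rfl

/-- `M'` is a power series field over a finite extension of the constants. -/
theorem EvSys.cor_local (V : EvSys κ J) (hJ : ScJ J) {M' M : Type} [Field M'] [Field M]
    [Algebra (Fr κ⟦X⟧) M'] [FiniteDimensional (Fr κ⟦X⟧) M'] [Algebra κ M']
    [IsScalarTower κ (Fr κ⟦X⟧) M'] [Algebra (Fr κ⟦X⟧) M] [FiniteDimensional (Fr κ⟦X⟧) M]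
    {w₀ : Vl (Fr κ⟦X⟧)} {w : Vl M} {ρ : w.integer →+* AlgebraicClosure κ} (h : PsV κ M w₀ w ρ)
    (hs : Nat.card (M' →ₐ[Fr κ⟦X⟧] M) = finrank (Fr κ⟦X⟧) M') {x : Fin (N + 1) → M'} (h0 : x ≠ 0)
    (hx : OnX J x) {y : (M' →ₐ[Fr κ⟦X⟧] M) → PY (AlgebraicClosure κ) N}
    (hy : ∀ ψ : M' →ₐ[Fr κ⟦X⟧] M, SpV ρ (ψ ∘ x) (y ψ)) :
    corF (Fr κ⟦X⟧) M' (V.val M' x) =
      rs (algebraMap κ (Fr κ⟦X⟧)) (V.pi (∑ ψ, Finsupp.single (y ψ) 1)) := by
  have := vn_ps κ
  have : CharZero (Fr κ⟦X⟧) := charZero_of_injective_ringHom (algebraMap κ _).injective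
  obtain ⟨κ', _, _, _, e, w', h1, h2, h3⟩ := ps_finext (M := M') h.vr
  obtain ⟨c, s, hc, hs', hz⟩ := h1.scale h0
  let θ : κ' →+* M' := (e : Fr κ'⟦X⟧ →+* M').comp (algebraMap κ' _)
  obtain ⟨o2, e2⟩ := w3l_val V hJ e (fun a => (h3 a).trans
    (IsScalarTower.algebraMap_apply _ _ _ a).symm) h0 hx hc hs' hz
  have ht := emo_trans (M := κ') (ps_irreducible (κ := κ))
  obtain ⟨n, hn, h4⟩ := cor_one (algebraMap κ (Fr κ⟦X⟧)) θ h3 ht
  obtain ⟨h5, h6⟩ := card_fibre (θ := θ) h3 ht hs hn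
  obtain ⟨R, hR, h7⟩ := w3l_red (κ' := κ') h
  have : Finite _ := Finite.of_injective R hR
  have h8 := (Nat.bijective_iff_injective_and_card R).2 ⟨hR, by
    rw [h5, Nat.card_eq_fintype_card, AlgHom.card]⟩
  let u := fun ψ : M' →ₐ[Fr κ⟦X⟧] M => R ⟨(ψ : M' →+* M).comp θ, fun a =>
    (congrArg ψ (h3 a)).trans (ψ.commutes _)⟩
  have h9 : ∀ ψ, y ψ = pj (u ψ ∘ fun i => PowerSeries.constantCoeff (s i)) := fun ψ => by
    have o : Over (ψ : M' →+* M) w' w := (vn_hens κ⟦X⟧ h.vr).uniq h2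
      (w' := w.comap (ψ : M' →+* M)) fun a => by
        rw [← h.ov a, ← ψ.commutes a]; rfl
    have m : ∀ i, ψ c * (ψ ∘ x) i = ψ (e (algebraMap κ'⟦X⟧ _ (s i))) := fun i =>
      (map_mul ψ _ _).symm.trans (congrArg ψ (hs' i).symm)
    have m' : ∀ i, ψ c * (ψ ∘ x) i ∈ w.integer := fun i => m i ▸ (o _).2 (h1.le (s i))
    have q : (fun i => ρ ⟨_, m' i⟩) = u ψ ∘ fun i => PowerSeries.constantCoeff (s i) :=
      funext fun i => h7 _ _ _ (by
        have := (o.lt _).2 ((h1.lt (s i - PowerSeries.C (PowerSeries.constantCoeff (s i)))).2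
          (by simp))
        rw [map_sub, map_sub] at this
        exact (congrArg (fun z => w (z - _)) (m i)).trans_lt this)
    refine (hy ψ).unique h.red ⟨ψ c, m', fun e => hz (funext fun i => ?_), congrArg pj q.symm⟩
    exact (map_eq_zero (u ψ)).1 (congrFun (q.symm.trans e) i)
  rw [← cor_apply, e2, h4, ← V.pi_emb hJ hz o2, ← map_nsmul, ← map_nsmul, Finset.smul_sum,
    Finset.sum_congr rfl fun ψ _ => congrArg (Finsupp.single · (1 : ℤ)) (h9 ψ),
    ← Finset.sum_fiberwise' Finset.univ u fun v =>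
      Finsupp.single (pj (v ∘ fun i => PowerSeries.constantCoeff (s i))) (1 : ℤ)]
  congr 2
  refine Finset.sum_congr rfl fun v _ => ?_
  obtain ⟨t, rfl⟩ := h8.2 v
  rw [Finset.sum_const, ← h6 t.1 t.2, ← Fintype.card_subtype, ← Nat.card_eq_fintype_card]
  congr 1
  exact Nat.card_congr (Equiv.subtypeEquivRight fun ψ =>
    ⟨fun e => congrArg R (Subtype.ext (RingHom.ext e)),
      fun e a => congrArg (fun t => t.1 a) (hR e)⟩)

end Pool.Agent.ZCy
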