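import Pool.Agent.Lib.MP_751085_ag.ZC.W5
import Pool.Agent.Lib.MP_751085_ag.ZC.W3b
import Pool.Agent.Lib.MP_751085_ag.ZC.UN2

/-! The pairing factors through rational equivalence. -/

namespace Pool.Agent.ZCy

open scoped Classical PowerSeries
open Pool.Agent.ZeroCyc Module

variable {k : Type} [Field k] {X : Var k} (K : Type) [Field K] [Algebra k K]

theorem Var.onX_iff {M : Type} [Field M] [Algebra K M] [Algebra k M] [IsScalarTower k K M]
    (x : Fin (X.N + 1) → M) : OnX (X.JK K) x ↔ ∀ G ∈ X.I, MvPolynomial.aeval x G = 0 := by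
  refine ⟨fun h G hG => (MvPolynomial.aeval_map_algebraMap K x G).symm.trans
    (h _ (Ideal.subset_span ⟨G, hG, rfl⟩)), fun h => ?_⟩
  refine (Ideal.span_le (I := RingHom.ker (MvPolynomial.aeval (R := K) x))).2 ?_
  rintro _ ⟨G, hG, rfl⟩
  exact (MvPolynomial.aeval_map_algebraMap K x G).trans (h G hG)

theorem Var.scJ : ScJ (X.JK K) := fun M _ _ c x hx => by
  let : Algebra k M := ((algebraMap K M).comp (algebraMap k K)).toAlgebra
  have : IsScalarTower k K M := .of_algebraMap_eq fun _ => rfl
  refine (Var.onX_iff K _).2 fun G hG => ?_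
  obtain ⟨m, hm⟩ := hG.1
  have h := congrArg (c ^ m * ·) ((Var.onX_iff K x).1 hx G hG)
  simp only [MvPolynomial.aeval_def, MvPolynomial.eval₂_eq, Finset.mul_sum, mul_zero] at h ⊢
  refine (Finset.sum_congr rfl fun e he => ?_).trans h
  simp only [Pi.smul_apply, smul_eq_mul, mul_pow, Finset.prod_mul_distrib,
    Finset.prod_pow_eq_pow_sum]
  rw [← hm.degree_eq_sum_deg_support he]
  ring

/-- the values of a class of the Brauer group form a system -/
theorem EvApi.evSys (h : EvApi X) {a : BR X.F} (ha : a ∈ X.Brauer) : ∃ V : EvSys K (X.JK K),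
    ∀ (M : Type) [Field M] [Algebra K M] [Algebra k M] [IsScalarTower k K M]
      (x : Fin (X.N + 1) → M), V.val M x = X.val a M x := by
  have hV : ∀ (M : Type) [Field M] [Algebra K M] [Algebra k M] [IsScalarTower k K M]
      (x : Fin (X.N + 1) → M), X.val a M x =
        @Var.val k _ X a M _ ((algebraMap K M).comp (algebraMap k K)).toAlgebra x :=
    fun M _ _ i _ x => by
      rw [Algebra.algebra_ext i ((algebraMap K M).comp (algebraMap k K)).toAlgebra
        (IsScalarTower.algebraMap_apply k K M)]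
  refine ⟨⟨fun M _ _ x => @Var.val k _ X a M _ ((algebraMap K M).comp (algebraMap k K)).toAlgebra x,
    fun M _ _ c x hc h0 hx => ?_, fun M M' _ _ _ _ φ x h0 hx => ?_, fun M _ _ y hy h0 => ?_⟩,
    fun M _ _ _ _ x => (hV M x).symm⟩
  all_goals
    let : Algebra k M := ((algebraMap K M).comp (algebraMap k K)).toAlgebra
    have : IsScalarTower k K M := .of_algebraMap_eq fun _ => rfl
  · exact h.val_smul a ha M x c ⟨h0, (Var.onX_iff K x).1 hx⟩ hc
  · let : Algebra k M' := ((algebraMap K M').comp (algebraMap k K)).toAlgebra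
    exact h.val_map a ha M M' ⟨φ, fun r => φ.commutes _⟩ x ⟨h0, (Var.onX_iff K x).1 hx⟩
  · exact (hV (Fr M⟦X⟧) _).symm.trans <| h.arc a ha M y h0 fun G hG =>
      (MvPolynomial.aeval_algebraMap_eq_zero_iff_of_injective (Fr M⟦X⟧)
        (IsFractionRing.injective _ _)).1 ((Var.onX_iff K _).1 hy G hG)

/-- the pairing vanishes on the cycles that are rationally equivalent to zero -/
theorem n2_of (h : EV) : N2 := fun k _ _ X n hn h3 K _ _ a ha z hz => by
  have := charZero_of_injective_ringHom (algebraMap k K).injective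
  have h := h k X n hn h3
  obtain ⟨V, hV⟩ := h.evSys K ha
  have key : ∀ z : X.Cyc K, ∃ D, (X.cyc K z).1 = QuotientAddGroup.mk (incl _ X.N D) ∧
      Var.pair z a = V.pi D := fun z => by
    induction z using Finsupp.induction_linear with
    | zero => exact ⟨0, by rw [map_zero, map_zero]; rfl, by
        rw [map_zero, Var.pair, Finsupp.sum_zero_index]⟩
    | add y z hy hz =>
      obtain ⟨D, h1, h2⟩ := hy
      obtain ⟨D', h1', h2'⟩ := hz
      exact ⟨D + D', by rw [map_add, map_add, Prod.fst_add, h1, h1', QuotientAddGroup.mk_add], by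
        rw [Var.pair_add, map_add, h2, h2']⟩
    | single x m =>
      refine ⟨m • ∑ u : Var.res x →ₐ[K] AlgebraicClosure K,
        Finsupp.single (pj (u ∘ Var.crd x)) 1, ?_, ?_⟩
      · rw [map_zsmul, ← avg_emb (Var.res x).val, QuotientAddGroup.mk_zsmul, Var.cyc,
          Finsupp.liftAddHom_apply_single]
        rfl
      · rw [h.pair_single ha, map_zsmul, V.pi_emb (Var.scJ K) (Var.crd_on x).1
          ((Var.onX_iff K _).2 (Var.crd_on x).2), hV, cor_apply]
  obtain ⟨D, h1, h2⟩ := key z
  rw [hz] at h1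
  obtain ⟨D', h4, h5⟩ := (QuotientAddGroup.eq_zero_iff _).1 h1.symm
  rw [h2, ← Finsupp.mapRange_injective _ (map_zero (Int.castAddHom ℚ)) Int.cast_injective h5]
  exact V.pi_ratEq (Var.scJ K) h4

end Pool.Agent.ZCy
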