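import Pool.Agent.Lib.MP_751085_ag.ZC.ADefs
import Pool.Agent.Lib.MP_751085_ag.ZC.VDefs
import Pool.Agent.Lib.MP_796ce4_ag.ZY.Cl

/-! Systems of values at points and the classes of cycles. -/

namespace Pool.Agent.ZCy

open scoped Classical PowerSeries IntermediateField
open Pool.Agent.ZeroCyc

variable (K : Type) [Field K] {N : ℕ}

/-- Values in Brauer groups at the points of the zero set of `J`. -/
structure EvSys (J : Ideal (MvPolynomial (Fin (N + 1)) K)) : Type 1 where
  val : ∀ (M : Type) [Field M] [Algebra K M], (Fin (N + 1) → M) → BR M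
  smul : ∀ (M : Type) [Field M] [Algebra K M] (c : M) (x : Fin (N + 1) → M), c ≠ 0 → x ≠ 0 →
    OnX J x → val M (c • x) = val M x
  map : ∀ (M M' : Type) [Field M] [Algebra K M] [Field M'] [Algebra K M'] (φ : M →ₐ[K] M')
    (x : Fin (N + 1) → M), x ≠ 0 → OnX J x → val M' (φ ∘ x) = rs (φ : M →+* M') (val M x)
  arc : ∀ (M : Type) [Field M] [Algebra K M] (y : Fin (N + 1) → M⟦X⟧),
    OnX J (fun i => algebraMap M⟦X⟧ (Fr M⟦X⟧) (y i)) →
      (fun i => PowerSeries.constantCoeff (y i)) ≠ 0 →
        val (Fr M⟦X⟧) (fun i => algebraMap M⟦X⟧ (Fr M⟦X⟧) (y i)) =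
          rs (algebraMap M (Fr M⟦X⟧)) (val M fun i => PowerSeries.constantCoeff (y i))

variable {K} {J : Ideal (MvPolynomial (Fin (N + 1)) K)}

/-- coordinates of `y` with one coordinate equal to `1` -/
noncomputable def nrmP {Λ : Type} [Field Λ] (y : PY Λ N) : Fin (N + 1) → Λ :=
  (y.rep (Classical.epsilon fun i => y.rep i ≠ 0))⁻¹ • y.rep

variable (K) in
/-- the residue field of a geometric point -/
noncomputable def fldP (y : PY (AlgebraicClosure K) N) : IntermediateField K (AlgebraicClosure K) :=
  IntermediateField.adjoin K (Set.range (nrmP y))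

instance (y : PY (AlgebraicClosure K) N) : FiniteDimensional K (fldP K y) :=
  IntermediateField.finiteDimensional_adjoin fun _ _ => Algebra.IsIntegral.isIntegral _

/-- the class `cores a(y)` of the closed point below `y` -/
noncomputable def EvSys.pt (V : EvSys K J) (y : PY (AlgebraicClosure K) N) : BR K :=
  corF K (fldP K y) (V.val (fldP K y) fun i =>
    ⟨nrmP y i, IntermediateField.subset_adjoin _ _ ⟨i, rfl⟩⟩)

/-- the class of a Galois invariant cycle: one term for every orbit -/
noncomputable def EvSys.pi (V : EvSys K J) : (PY (AlgebraicClosure K) N →₀ ℤ) →+ BR K :=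
  Finsupp.liftAddHom (M := ℤ) (N := BR K) fun y => zmultiplesHom (BR K)
    (if Classical.epsilon (fun z => z ∈ orb K y) = y then V.pt y else 0)

end Pool.Agent.ZCy
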